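import Pool.Agent.Lib.MP_0c1c75_co.Spec

/-!
# MP_0c1c75_co: weighted Prékopa–Leindler inequality and Brunn–Minkowski in volume radius form
-/

namespace Pool.Agent.Lib.MP_0c1c75_co.BM

open MeasureTheory Set Filter Topology
open scoped ENNReal Pointwise

/-- One-dimensional Brunn–Minkowski for nonempty compact sets, with weights. -/
theorem bm_compact {a b : ℝ} (ha : 0 < a) (hb : 0 < b) {K L C : Set ℝ} (hK : IsCompact K)
    (hL : IsCompact L) (hKn : K.Nonempty)
    (hLn : L.Nonempty) (H : ∀ x ∈ K, ∀ y ∈ L, a * x + b * y ∈ C) :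
    ENNReal.ofReal a * volume K + ENNReal.ofReal b * volume L ≤ volume C := by
  have hM := hK.sSup_mem hKn
  have hm := hL.sInf_mem hLn
  set M := sSup K with hMdef
  set m := sInf L with hmdef
  set p := a * M + b * m with hp
  have e1 : ∀ (r s : ℝ) (S : Set ℝ), 0 < r →
      ENNReal.ofReal r * volume ((fun x => r * x + s) ⁻¹' S) = volume S := by
    intro r s S hr
    have : (fun x : ℝ => r * x + s) ⁻¹' S
        = (fun x => r * x) ⁻¹' ((fun y => y + s) ⁻¹' S) := rfl
    rw [this, Real.volume_preimage_mul_left hr.ne', measure_preimage_add_right, ← mul_assoc,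
      abs_of_pos (inv_pos.mpr hr), ← ENNReal.ofReal_mul hr.le, mul_inv_cancel₀ hr.ne',
      ENNReal.ofReal_one, one_mul]
  have h1 : K ⊆ (fun x => a * x + b * m) ⁻¹' (C ∩ Iic p) := by
    intro x hx
    refine ⟨H x hx m hm, ?_⟩
    have : x ≤ M := le_csSup hK.bddAbove hx
    simp only [mem_Iic, hp]
    nlinarith
  have h2 : L \ {m} ⊆ (fun x => b * x + a * M) ⁻¹' (C \ Iic p) := by
    intro x hx
    refine ⟨?_, ?_⟩
    · have := H M hM x hx.1
      rwa [add_comm] at this
    · have h3 : m ≤ x := csInf_le hL.bddBelow hx.1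
      have h4 : x ≠ m := hx.2
      have h5 : m < x := lt_of_le_of_ne h3 (Ne.symm h4)
      simp only [mem_Iic, hp, not_le]
      nlinarith
  calc ENNReal.ofReal a * volume K + ENNReal.ofReal b * volume L
      = ENNReal.ofReal a * volume K + ENNReal.ofReal b * volume (L \ {m}) := by
        rw [measure_sdiff_null (by simp)]
    _ ≤ volume (C ∩ Iic p) + volume (C \ Iic p) := by
        gcongr
        · rw [← e1 a (b * m) (C ∩ Iic p) ha]
          gcongr
        · rw [← e1 b (a * M) (C \ Iic p) hb]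
          gcongr
    _ = volume C := by
        rw [measure_inter_add_sdiff C measurableSet_Iic]

/-- One-dimensional Brunn–Minkowski for nonempty measurable sets, with weights. -/
theorem bm_measurable {a b : ℝ} (ha : 0 < a) (hb : 0 < b) {A B C : Set ℝ}
    (hA : MeasurableSet A) (hB : MeasurableSet B)
    (hAn : A.Nonempty) (hBn : B.Nonempty) (H : ∀ x ∈ A, ∀ y ∈ B, a * x + b * y ∈ C) :
    ENNReal.ofReal a * volume A + ENNReal.ofReal b * volume B ≤ volume C := by
  obtain ⟨a0, ha0⟩ := hAn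
  obtain ⟨b0, hb0⟩ := hBn
  have key : ∀ K ⊆ A, IsCompact K → ∀ L ⊆ B, IsCompact L →
      ENNReal.ofReal a * volume K + ENNReal.ofReal b * volume L ≤ volume C := by
    intro K hKA hK L hLB hL
    calc ENNReal.ofReal a * volume K + ENNReal.ofReal b * volume L
        ≤ ENNReal.ofReal a * volume (K ∪ {a0}) + ENNReal.ofReal b * volume (L ∪ {b0}) := by
          gcongr <;> exact subset_union_left
      _ ≤ volume C := by
          refine bm_compact ha hb (hK.union isCompact_singleton) (hL.union isCompact_singleton)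
            ⟨a0, by simp⟩ ⟨b0, by simp⟩ ?_
          intro x hx y hy
          refine H x ?_ y ?_
          · rcases hx with hx | hx
            · exact hKA hx
            · rw [mem_singleton_iff.mp hx]; exact ha0
          · rcases hy with hy | hy
            · exact hLB hy
            · rw [mem_singleton_iff.mp hy]; exact hb0
  rw [hA.measure_eq_iSup_isCompact, hB.measure_eq_iSup_isCompact]
  simp only [iSup_and', ENNReal.mul_iSup]
  exact ENNReal.biSup_add_biSup_le' ⟨∅, empty_subset _, isCompact_empty⟩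
    ⟨∅, empty_subset _, isCompact_empty⟩ (fun K hK L hL => key K hK.1 hK.2 L hL.1 hL.2)

/-- weighted arithmetic-geometric mean inequality in `[0, ∞]` -/
theorem amgm {a b : ℝ} (ha : 0 < a) (hb : 0 < b) (hab : a + b = 1) (x y : ℝ≥0∞) :
    x ^ a * y ^ b ≤ ENNReal.ofReal a * x + ENNReal.ofReal b * y := by
  have ha' : ENNReal.ofReal a ≠ 0 := by simpa using ha
  have hb' : ENNReal.ofReal b ≠ 0 := by simpa using hb
  rcases eq_or_ne x ∞ with rfl | hx
  · rw [ENNReal.mul_top ha', top_add]; exact le_top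
  rcases eq_or_ne y ∞ with rfl | hy
  · rw [ENNReal.mul_top hb', add_top]; exact le_top
  lift x to NNReal using hx
  lift y to NNReal using hy
  have h := NNReal.geom_mean_le_arith_mean2_weighted a.toNNReal b.toNNReal x y (by
    rw [← Real.toNNReal_add ha.le hb.le, hab, Real.toNNReal_one])
  rw [Real.coe_toNNReal a ha.le, Real.coe_toNNReal b hb.le] at h
  rw [← ENNReal.coe_rpow_of_nonneg x ha.le, ← ENNReal.coe_rpow_of_nonneg y hb.le]
  unfold ENNReal.ofReal
  exact_mod_cast h

/-- The normalised one-dimensional case, real valued functions. -/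
theorem pl_one_real {a b : ℝ} (ha : 0 < a) (hb : 0 < b) (hab : a + b = 1)
    {F G H : ℝ → ℝ} (hF : Measurable F) (hG : Measurable G) (hH : Measurable H)
    (hF0 : ∀ x, 0 ≤ F x) (hG0 : ∀ x, 0 ≤ G x) (hH0 : ∀ x, 0 ≤ H x)
    (hF1 : ∀ x, F x ≤ 1) (hG1 : ∀ x, G x ≤ 1)
    (hFs : ∀ t < 1, ∃ x, t < F x) (hGs : ∀ t < 1, ∃ x, t < G x)
    (hFGH : ∀ x y, F x ^ a * G y ^ b ≤ H (a * x + b * y)) :
    ENNReal.ofReal a * (∫⁻ x, ENNReal.ofReal (F x)) +
      ENNReal.ofReal b * (∫⁻ x, ENNReal.ofReal (G x))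
      ≤ ∫⁻ x, ENNReal.ofReal (H x) := by
  have cut : ∀ {F : ℝ → ℝ}, Measurable F → (∀ x, 0 ≤ F x) → (∀ x, F x ≤ 1) →
      ∫⁻ x, ENNReal.ofReal (F x) = ∫⁻ t in Ioo 0 1, volume {x | t < F x} := by
    intro F hF h0 h1
    rw [lintegral_eq_lintegral_meas_lt volume (Eventually.of_forall h0) hF.aemeasurable]
    have hsub : Ioi (0 : ℝ) = Ioo 0 1 ∪ Ici 1 := by
      ext x
      simp only [mem_Ioi, mem_union, mem_Ioo, mem_Ici]
      constructor
      · intro h
        rcases lt_or_ge x 1 with h1 | h1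
        · exact Or.inl ⟨h, h1⟩
        · exact Or.inr h1
      · rintro (h | h)
        · exact h.1
        · linarith
    have hdisj : Disjoint (Ioo (0 : ℝ) 1) (Ici 1) := by
      rw [Set.disjoint_left]
      intro x hx hx'
      exact absurd hx.2 (not_lt.mpr hx')
    rw [hsub, lintegral_union measurableSet_Ici hdisj]
    have hz : ∫⁻ t in Ici (1 : ℝ), volume {x | t < F x} = 0 := by
      rw [setLIntegral_congr_fun (g := fun _ => 0) measurableSet_Ici]
      · simp
      · intro t ht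
        have : {x | t < F x} = ∅ := by
          ext x
          simp only [mem_ofPred_eq, mem_empty_iff_false, iff_false, not_lt]
          exact (h1 x).trans ht
        simp only [this, measure_empty]
    rw [hz, add_zero]
  have hmF : ∀ F : ℝ → ℝ, Measurable fun t : ℝ => volume {x | t < F x} := by
    intro F
    apply Antitone.measurable
    intro s t hst
    exact measure_mono fun x hx => lt_of_le_of_lt hst hx
  calc ENNReal.ofReal a * (∫⁻ x, ENNReal.ofReal (F x)) +
        ENNReal.ofReal b * (∫⁻ x, ENNReal.ofReal (G x))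
      = ∫⁻ t in Ioo 0 1, (ENNReal.ofReal a * volume {x | t < F x} +
          ENNReal.ofReal b * volume {x | t < G x}) := by
        rw [cut hF hF0 hF1, cut hG hG0 hG1, lintegral_add_left ((hmF F).const_mul _),
          lintegral_const_mul _ (hmF F), lintegral_const_mul _ (hmF G)]
    _ ≤ ∫⁻ t in Ioo 0 1, volume {x | t < H x} := by
        refine setLIntegral_mono' measurableSet_Ioo ?_
        intro t ht
        refine bm_measurable ha hb (measurableSet_lt measurable_const hF)
          (measurableSet_lt measurable_const hG) (hFs t ht.2) (hGs t ht.2) ?_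
        intro x hx y hy
        simp only [mem_ofPred_eq] at hx hy ⊢
        refine lt_of_lt_of_le ?_ (hFGH x y)
        have e : t = t ^ a * t ^ b := by rw [← Real.rpow_add ht.1, hab, Real.rpow_one]
        rw [e]
        exact mul_lt_mul'' (Real.rpow_lt_rpow ht.1.le hx ha) (Real.rpow_lt_rpow ht.1.le hy hb)
          (Real.rpow_nonneg ht.1.le _) (Real.rpow_nonneg ht.1.le _)
    _ ≤ ∫⁻ t in Ioi 0, volume {x | t < H x} := lintegral_mono_set Ioo_subset_Ioi_self
    _ = ∫⁻ x, ENNReal.ofReal (H x) := by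
        rw [lintegral_eq_lintegral_meas_lt volume (Eventually.of_forall hH0) hH.aemeasurable]

/-- The one-dimensional case for bounded functions. -/
theorem pl_one_bdd {a b : ℝ} (ha : 0 < a) (hb : 0 < b) (hab : a + b = 1)
    {f g h : ℝ → ℝ≥0∞} (hf : Measurable f) (hg : Measurable g) (hh : Measurable h)
    (N : NNReal) (hfN : ∀ x, f x ≤ N) (hgN : ∀ x, g x ≤ N)
    (H : ∀ x y, f x ^ a * g y ^ b ≤ h (a * x + b * y)) :
    (∫⁻ x, f x) ^ a * (∫⁻ y, g y) ^ b ≤ ∫⁻ z, h z := by
  have hfS : ∀ x, f x ≤ ⨆ x, f x := fun x => le_iSup f x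
  have hgS : ∀ x, g x ≤ ⨆ x, g x := fun x => le_iSup g x
  have hSf : ⨆ x, f x ≤ N := iSup_le hfN
  have hSg : ⨆ x, g x ≤ N := iSup_le hgN
  have hfl : ∀ t < ⨆ x, f x, ∃ x, t < f x := fun t ht => lt_iSup_iff.mp ht
  have hgl : ∀ t < ⨆ x, g x, ∃ x, t < g x := fun t ht => lt_iSup_iff.mp ht
  generalize (⨆ x, f x) = Sf at *
  generalize (⨆ x, g x) = Sg at *
  have hSf' : Sf ≠ ∞ := (hSf.trans_lt ENNReal.coe_lt_top).ne
  have hSg' : Sg ≠ ∞ := (hSg.trans_lt ENNReal.coe_lt_top).ne
  rcases eq_or_ne Sf 0 with h0 | hSf0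
  · have : ∀ x, f x = 0 := fun x => le_antisymm ((hfS x).trans h0.le) zero_le
    simp [this, ENNReal.zero_rpow_of_pos ha]
  rcases eq_or_ne Sg 0 with h0 | hSg0
  · have : ∀ x, g x = 0 := fun x => le_antisymm ((hgS x).trans h0.le) zero_le
    simp [this, ENNReal.zero_rpow_of_pos hb]
  set α := Sf.toReal with hα
  set β := Sg.toReal with hβ
  have hα0 : 0 < α := ENNReal.toReal_pos hSf0 hSf'
  have hβ0 : 0 < β := ENNReal.toReal_pos hSg0 hSg'
  have hSfa : Sf = ENNReal.ofReal α := (ENNReal.ofReal_toReal hSf').symm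
  have hSgb : Sg = ENNReal.ofReal β := (ENNReal.ofReal_toReal hSg').symm
  obtain ⟨s, hs⟩ : ∃ s, s = α ^ a * β ^ b := ⟨_, rfl⟩
  have hs0 : 0 < s := by rw [hs]; exact mul_pos (Real.rpow_pos_of_pos hα0 _) (Real.rpow_pos_of_pos hβ0 _)
  have hsE : ENNReal.ofReal s = ENNReal.ofReal α ^ a * ENNReal.ofReal β ^ b := by
    rw [hs, ENNReal.ofReal_mul (Real.rpow_nonneg hα0.le _), ENNReal.ofReal_rpow_of_pos hα0,
      ENNReal.ofReal_rpow_of_pos hβ0]
  have hft : ∀ x, f x ≠ ∞ := fun x => ((hfN x).trans_lt ENNReal.coe_lt_top).ne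
  have hgt : ∀ x, g x ≠ ∞ := fun x => ((hgN x).trans_lt ENNReal.coe_lt_top).ne
  have hht : ∀ x, min (h x) (ENNReal.ofReal s) ≠ ∞ :=
    fun x => (lt_of_le_of_lt (min_le_right _ _) ENNReal.ofReal_lt_top).ne
  have key := pl_one_real ha hb hab (F := fun x => (f x).toReal / α)
    (G := fun x => (g x).toReal / β)
    (H := fun x => (min (h x) (ENNReal.ofReal s)).toReal / s)
    (hf.ennreal_toReal.div_const _) (hg.ennreal_toReal.div_const _)
    ((hh.min measurable_const).ennreal_toReal.div_const _)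
    (fun x => by positivity) (fun x => by positivity) (fun x => by positivity)
    (fun x => by
      rw [div_le_one hα0]
      exact ENNReal.toReal_mono hSf' (hfS x))
    (fun x => by
      rw [div_le_one hβ0]
      exact ENNReal.toReal_mono hSg' (hgS x))
    (fun t ht => by
      obtain ⟨x, hx⟩ := hfl (ENNReal.ofReal (t * α)) (by
        rw [hSfa]
        exact (ENNReal.ofReal_lt_ofReal_iff hα0).mpr (by nlinarith))
      refine ⟨x, ?_⟩
      rw [lt_div_iff₀ hα0]
      by_contra hcon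
      rw [not_lt] at hcon
      have := ENNReal.ofReal_le_ofReal hcon
      rw [ENNReal.ofReal_toReal (hft x)] at this
      exact absurd hx (not_lt.mpr this))
    (fun t ht => by
      obtain ⟨x, hx⟩ := hgl (ENNReal.ofReal (t * β)) (by
        rw [hSgb]
        exact (ENNReal.ofReal_lt_ofReal_iff hβ0).mpr (by nlinarith))
      refine ⟨x, ?_⟩
      rw [lt_div_iff₀ hβ0]
      by_contra hcon
      rw [not_lt] at hcon
      have := ENNReal.ofReal_le_ofReal hcon
      rw [ENNReal.ofReal_toReal (hgt x)] at this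
      exact absurd hx (not_lt.mpr this))
    (fun x y => by
      have h1 : (f x).toReal ≤ α := ENNReal.toReal_mono hSf' (hfS x)
      have h2 : (g y).toReal ≤ β := ENNReal.toReal_mono hSg' (hgS y)
      have h3 : (f x).toReal ^ a * (g y).toReal ^ b
          ≤ (min (h (a * x + b * y)) (ENNReal.ofReal s)).toReal := by
        rcases le_total (h (a * x + b * y)) (ENNReal.ofReal s) with hle | hle
        · rw [min_eq_left hle, ENNReal.toReal_rpow, ENNReal.toReal_rpow, ← ENNReal.toReal_mul]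
          exact ENNReal.toReal_mono (lt_of_le_of_lt hle ENNReal.ofReal_lt_top).ne (H x y)
        · rw [min_eq_right hle, ENNReal.toReal_ofReal hs0.le, hs]
          exact mul_le_mul (Real.rpow_le_rpow ENNReal.toReal_nonneg h1 ha.le)
            (Real.rpow_le_rpow ENNReal.toReal_nonneg h2 hb.le)
            (Real.rpow_nonneg ENNReal.toReal_nonneg _) (Real.rpow_nonneg hα0.le _)
      show ((f x).toReal / α) ^ a * ((g y).toReal / β) ^ b
        ≤ (min (h (a * x + b * y)) (ENNReal.ofReal s)).toReal / s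
      rw [Real.div_rpow ENNReal.toReal_nonneg hα0.le, Real.div_rpow ENNReal.toReal_nonneg hβ0.le,
        div_mul_div_comm, ← hs]
      exact div_le_div_of_nonneg_right h3 hs0.le)
  have c1 : ∀ (u : ℝ → ℝ≥0∞) (r : ℝ), 0 < r → (∀ x, u x ≠ ∞) →
      ∫⁻ x, ENNReal.ofReal ((u x).toReal / r) = (∫⁻ x, u x) / ENNReal.ofReal r := by
    intro u r hr hu
    have : ∀ x, ENNReal.ofReal ((u x).toReal / r) = u x * (ENNReal.ofReal r)⁻¹ := by
      intro x
      rw [ENNReal.ofReal_div_of_pos hr, ENNReal.ofReal_toReal (hu x), div_eq_mul_inv]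
    simp only [this]
    rw [lintegral_mul_const' _ _ (by simpa using hr), div_eq_mul_inv]
  rw [c1 f α hα0 hft, c1 g β hβ0 hgt, c1 _ s hs0 hht] at key
  have key2 : (∫⁻ x, min (h x) (ENNReal.ofReal s)) ≤ ∫⁻ x, h x :=
    lintegral_mono fun x => min_le_left _ _
  generalize (∫⁻ x, min (h x) (ENNReal.ofReal s)) = I' at *
  generalize (∫⁻ x, h x) = I at *
  generalize (∫⁻ x, f x) = J at *
  generalize (∫⁻ x, g x) = K at *
  have e1 : (J / ENNReal.ofReal α) ^ a * (K / ENNReal.ofReal β) ^ b ≤ I / ENNReal.ofReal s :=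
    ((amgm ha hb hab _ _).trans key).trans (ENNReal.div_le_div_right key2 _)
  rw [ENNReal.div_rpow_of_nonneg _ _ ha.le, ENNReal.div_rpow_of_nonneg _ _ hb.le] at e1
  have hs1 : ENNReal.ofReal s ≠ 0 := by simpa using hs0
  have hst : ENNReal.ofReal s ≠ ∞ := ENNReal.ofReal_ne_top
  have hA0 : ENNReal.ofReal α ^ a ≠ 0 := by
    rw [ENNReal.ofReal_rpow_of_pos hα0]; simpa using Real.rpow_pos_of_pos hα0 a
  have hAt : ENNReal.ofReal α ^ a ≠ ∞ := by
    rw [ENNReal.ofReal_rpow_of_pos hα0]; exact ENNReal.ofReal_ne_top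
  have hB0 : ENNReal.ofReal β ^ b ≠ 0 := by
    rw [ENNReal.ofReal_rpow_of_pos hβ0]; simpa using Real.rpow_pos_of_pos hβ0 b
  have hBt : ENNReal.ofReal β ^ b ≠ ∞ := by
    rw [ENNReal.ofReal_rpow_of_pos hβ0]; exact ENNReal.ofReal_ne_top
  calc J ^ a * K ^ b = (J ^ a / ENNReal.ofReal α ^ a * (K ^ b / ENNReal.ofReal β ^ b))
        * (ENNReal.ofReal α ^ a * ENNReal.ofReal β ^ b) := by
        rw [mul_mul_mul_comm, ENNReal.div_mul_cancel hA0 hAt, ENNReal.div_mul_cancel hB0 hBt]
    _ ≤ (I / ENNReal.ofReal s) * (ENNReal.ofReal α ^ a * ENNReal.ofReal β ^ b) := by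
        gcongr
    _ = I := by rw [← hsE, ENNReal.div_mul_cancel hs1 hst]

/-- powers commute with suprema -/
theorem iSup_rpow' {a : ℝ} (ha : 0 < a) {ι : Sort*} (u : ι → ℝ≥0∞) :
    (⨆ i, u i) ^ a = ⨆ i, u i ^ a := by
  exact (ENNReal.orderIsoRpow a ha).map_iSup u

/-- The one-dimensional case. -/
theorem pl_one {a b : ℝ} (ha : 0 < a) (hb : 0 < b) (hab : a + b = 1)
    {f g h : ℝ → ℝ≥0∞} (hf : Measurable f) (hg : Measurable g) (hh : Measurable h)
    (H : ∀ x y, f x ^ a * g y ^ b ≤ h (a * x + b * y)) :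
    (∫⁻ x, f x) ^ a * (∫⁻ y, g y) ^ b ≤ ∫⁻ z, h z := by
  have trunc : ∀ {f : ℝ → ℝ≥0∞}, Measurable f →
      ∫⁻ x, f x = ⨆ N : ℕ, ∫⁻ x, min (f x) ((N : NNReal) : ℝ≥0∞) := by
    intro f hf
    rw [← lintegral_iSup]
    · congr 1
      ext x
      have : (f x) ⊓ ⨆ N : ℕ, ((N : NNReal) : ℝ≥0∞) = f x := by
        simp only [ENNReal.coe_natCast, ENNReal.iSup_natCast, le_top, inf_of_le_left]
      rw [inf_iSup_eq] at this
      exact this.symm
    · intro n
      exact hf.min measurable_const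
    · intro m n hmn x
      simp only
      gcongr
  rw [trunc hf, trunc hg, iSup_rpow' ha, iSup_rpow' hb]
  simp only [ENNReal.iSup_mul, ENNReal.mul_iSup, iSup_le_iff]
  intro i j
  refine pl_one_bdd ha hb hab (hf.min measurable_const) (hg.min measurable_const) hh
    ((max i j : ℕ) : NNReal) ?_ ?_ ?_
  · intro x
    refine (min_le_right _ _).trans ?_
    gcongr
    omega
  · intro x
    refine (min_le_right _ _).trans ?_
    gcongr
    omega
  · intro x y
    refine le_trans ?_ (H x y)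
    gcongr
    · exact min_le_left _ _
    · exact min_le_left _ _

/-- The map `(a, y) ↦ Fin.cons a y` is measurable. -/
theorem measurable_cons {n : ℕ} :
    Measurable fun p : ℝ × (Fin n → ℝ) => (Fin.cons p.1 p.2 : Fin (n + 1) → ℝ) := by
  rw [measurable_pi_iff]
  intro i
  refine Fin.cases ?_ (fun j => ?_) i
  · simpa using measurable_fst
  · simp only [Fin.cons_succ]
    exact (measurable_pi_apply j).comp measurable_snd

/-- Splitting off the first coordinate. -/
theorem lintegral_cons {n : ℕ} {f : (Fin (n + 1) → ℝ) → ℝ≥0∞} (hf : Measurable f) :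
    ∫⁻ x, f x = ∫⁻ a : ℝ, ∫⁻ y : Fin n → ℝ, f (Fin.cons a y) := by
  have h := (volume_preserving_piFinSuccAbove (fun _ : Fin (n + 1) => ℝ) 0).symm
  rw [← h.lintegral_comp_emb (MeasurableEquiv.measurableEmbedding _)]
  rw [Measure.volume_eq_prod, lintegral_prod]
  · simp_rw [MeasurableEquiv.piFinSuccAbove_symm_apply, Fin.insertNthEquiv, Equiv.coe_fn_mk,
      Fin.insertNth_zero']
  · exact (hf.comp (MeasurableEquiv.measurable _)).aemeasurable

/-- **Prékopa–Leindler inequality** with weights. -/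
theorem prekopa_leindler {a b : ℝ} (ha : 0 < a) (hb : 0 < b) (hab : a + b = 1)
    {n : ℕ} (f g h : (Fin n → ℝ) → ℝ≥0∞)
    (hf : Measurable f) (hg : Measurable g) (hh : Measurable h)
    (H : ∀ x y, f x ^ a * g y ^ b ≤ h (fun i => a * x i + b * y i)) :
    (∫⁻ x, f x) ^ a * (∫⁻ y, g y) ^ b ≤ ∫⁻ z, h z := by
  induction n with
  | zero =>
    have e : ∀ u : (Fin 0 → ℝ) → ℝ≥0∞, ∫⁻ x, u x = u default := by
      intro u
      rw [volume_pi, Measure.pi_of_empty (fun _ : Fin 0 => (volume : Measure ℝ)) default]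
      simp
    rw [e, e, e]
    have h1 := H default default
    have h2 : (fun i : Fin 0 => a * (default : Fin 0 → ℝ) i + b * (default : Fin 0 → ℝ) i) =
        (default : Fin 0 → ℝ) := funext fun i => i.elim0
    rw [h2] at h1
    exact h1
  | succ n ih =>
    rw [lintegral_cons hf, lintegral_cons hg, lintegral_cons hh]
    have hm : ∀ {u : (Fin (n + 1) → ℝ) → ℝ≥0∞}, Measurable u →
        Measurable fun a : ℝ => ∫⁻ y : Fin n → ℝ, u (Fin.cons a y) := by
      intro u hu
      exact Measurable.lintegral_prod_right' (f := fun p : ℝ × (Fin n → ℝ) => u (Fin.cons p.1 p.2))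
        (hu.comp measurable_cons)
    refine pl_one ha hb hab (hm hf) (hm hg) (hm hh) ?_
    intro x0 y0
    have hs : ∀ {u : (Fin (n + 1) → ℝ) → ℝ≥0∞}, Measurable u → ∀ a : ℝ,
        Measurable fun y : Fin n → ℝ => u (Fin.cons a y) := by
      intro u hu a
      exact (hu.comp measurable_cons).comp measurable_prodMk_left
    refine ih _ _ _ (hs hf x0) (hs hg y0) (hs hh (a * x0 + b * y0)) ?_
    intro x y
    refine (H _ _).trans_eq ?_
    congr 1
    ext i
    refine Fin.cases ?_ (fun j => ?_) i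
    · simp
    · simp

/-- Multiplicative Brunn–Minkowski inequality for compact sets of Euclidean space. -/
theorem vol_mul {d : ℕ} {a b : ℝ} (ha : 0 < a) (hb : 0 < b) (hab : a + b = 1)
    {A B : Set (E d)} (hA : IsCompact A) (hB : IsCompact B) :
    volume A ^ a * volume B ^ b ≤ volume (a • A + b • B) := by
  have hC : IsCompact (a • A + b • B) := (hA.smul a).add (hB.smul b)
  have hmp := PiLp.volume_preserving_toLp (Fin d)
  have tr : ∀ S : Set (E d), IsCompact S →
      MeasurableSet ((WithLp.toLp 2 : (Fin d → ℝ) → E d) ⁻¹' S) ∧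
      ∫⁻ x : Fin d → ℝ, ((WithLp.toLp 2 : (Fin d → ℝ) → E d) ⁻¹' S).indicator 1 x = volume S := by
    intro S hS
    have hm : MeasurableSet ((WithLp.toLp 2 : (Fin d → ℝ) → E d) ⁻¹' S) :=
      hmp.measurable hS.measurableSet
    refine ⟨hm, ?_⟩
    rw [lintegral_indicator_one hm]
    exact hmp.measure_preimage hS.measurableSet.nullMeasurableSet
  obtain ⟨mA, iA⟩ := tr A hA
  obtain ⟨mB, iB⟩ := tr B hB
  obtain ⟨mC, iC⟩ := tr _ hC
  rw [← iA, ← iB, ← iC]
  refine prekopa_leindler ha hb hab _ _ _ (measurable_one.indicator mA)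
    (measurable_one.indicator mB) (measurable_one.indicator mC) ?_
  intro x y
  by_cases hx : x ∈ ((WithLp.toLp 2 : (Fin d → ℝ) → E d) ⁻¹' A)
  swap
  · rw [indicator_of_notMem hx, ENNReal.zero_rpow_of_pos ha, zero_mul]; exact zero_le
  by_cases hy : y ∈ ((WithLp.toLp 2 : (Fin d → ℝ) → E d) ⁻¹' B)
  swap
  · rw [indicator_of_notMem hy, ENNReal.zero_rpow_of_pos hb, mul_zero]; exact zero_le
  have hz : (fun i => a * x i + b * y i) ∈
      ((WithLp.toLp 2 : (Fin d → ℝ) → E d) ⁻¹' (a • A + b • B)) := by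
    have e : (WithLp.toLp 2 (fun i => a * x i + b * y i) : E d) =
        a • (WithLp.toLp 2 x : E d) + b • (WithLp.toLp 2 y : E d) := by
      ext i
      simp
    rw [mem_preimage, e]
    exact Set.add_mem_add (Set.smul_mem_smul_set hx) (Set.smul_mem_smul_set hy)
  rw [indicator_of_mem hx, indicator_of_mem hy, indicator_of_mem hz]
  simp

/-- the unit ball has positive finite volume -/
theorem kappa_pos (d : ℕ) : 0 < (volume (Metric.ball (0 : E d) 1)).toReal :=
  ENNReal.toReal_pos (Metric.measure_ball_pos volume _ one_pos).ne' measure_ball_lt_top.ne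

/-- The normalised case: two compact sets of volume radius one. -/
theorem bm_one (hV : VrBasicStmt) {d : ℕ} (hd : 0 < d) {a b : ℝ} (ha : 0 < a) (hb : 0 < b)
    (hab : a + b = 1) {A B : Set (E d)} (hA : IsCompact A) (hB : IsCompact B)
    (hvA : vr A = 1) (hvB : vr B = 1) : 1 ≤ vr (a • A + b • B) := by
  obtain ⟨-, -, -, hnn, hvol, -⟩ := hV d hd
  have hC : IsCompact (a • A + b • B) := (hA.smul a).add (hB.smul b)
  have hκ := kappa_pos d
  have h1 := vol_mul ha hb hab hA hB
  have h2 : (volume A ^ a * volume B ^ b).toReal ≤ (volume (a • A + b • B)).toReal :=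
    ENNReal.toReal_mono hC.measure_lt_top.ne h1
  rw [ENNReal.toReal_mul, ← ENNReal.toReal_rpow, ← ENNReal.toReal_rpow, hvol A, hvol B, hvA, hvB,
    hvol (a • A + b • B), one_pow, mul_one, ← Real.rpow_add hκ, hab, Real.rpow_one] at h2
  have h3 : 1 ≤ vr (a • A + b • B) ^ d := by
    by_contra hc
    rw [not_le] at hc
    have := mul_lt_mul_of_pos_left hc hκ
    linarith
  by_contra hc
  rw [not_le] at hc
  exact absurd (pow_lt_one₀ (hnn _) hc hd.ne') (not_lt.mpr h3)

/-- Scaled copies in a translate. -/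
theorem bm_trans (hV : VrBasicStmt) {d : ℕ} (hd : 0 < d) {a b : ℝ} (hb : 0 ≤ b)
    {A B : Set (E d)} (hA : IsCompact A) (hB : IsCompact B) (hAn : A.Nonempty) :
    b * vr B ≤ vr (a • A + b • B) := by
  obtain ⟨hmono, -, hsm, -, -, htr⟩ := hV d hd
  obtain ⟨x, hx⟩ := hAn
  have hC : IsCompact (a • A + b • B) := (hA.smul a).add (hB.smul b)
  rw [← hsm b B hb, ← htr (b • B) (a • x)]
  refine hmono _ _ ?_ hC.measure_lt_top.ne
  rintro _ ⟨y, hy, rfl⟩
  exact Set.add_mem_add (Set.smul_mem_smul_set hx) hy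

end Pool.Agent.Lib.MP_0c1c75_co.BM

namespace Pool.Agent.Lib.MP_0c1c75_co

open MeasureTheory Set
open scoped Pointwise

/-- The Brunn–Minkowski inequality for compact sets, in the form of the volume radius. -/
theorem bmStmt (hV : VrBasicStmt) : BMStmt := by
  intro d hd A B hA hB hAn hBn t ht0 ht1
  have i1 : t * vr B ≤ vr ((1 - t) • A + t • B) := BM.bm_trans hV hd ht0 hA hB hAn
  have i2 : (1 - t) * vr A ≤ vr ((1 - t) • A + t • B) := by
    rw [add_comm]
    exact BM.bm_trans hV hd (by linarith) hB hA hBn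
  obtain ⟨-, -, hsm, hnn, -, -⟩ := hV d hd
  rcases eq_or_lt_of_le ht0 with h0 | h0
  · subst h0
    simpa using i2
  rcases eq_or_lt_of_le ht1 with h1 | h1
  · subst h1
    simpa using i1
  rcases eq_or_lt_of_le (hnn A) with hA0 | hA0
  · rw [← hA0]
    simpa using i1
  rcases eq_or_lt_of_le (hnn B) with hB0 | hB0
  · rw [← hB0]
    simpa using i2
  obtain ⟨p, hp⟩ : ∃ p, p = vr A := ⟨_, rfl⟩
  obtain ⟨q, hq⟩ : ∃ q, q = vr B := ⟨_, rfl⟩
  rw [← hp] at hA0 ⊢
  rw [← hq] at hB0 ⊢
  have ht' : 0 < 1 - t := by linarith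
  obtain ⟨D, hD⟩ : ∃ D, D = (1 - t) * p + t * q := ⟨_, rfl⟩
  have hD0 : 0 < D := by rw [hD]; positivity
  have hvA : vr (p⁻¹ • A) = 1 := by
    rw [hsm _ _ (inv_nonneg.mpr hA0.le), ← hp, inv_mul_cancel₀ hA0.ne']
  have hvB : vr (q⁻¹ • B) = 1 := by
    rw [hsm _ _ (inv_nonneg.mpr hB0.le), ← hq, inv_mul_cancel₀ hB0.ne']
  have key := BM.bm_one hV hd (a := (1 - t) * p / D) (b := t * q / D) (by positivity)
    (by positivity) (by rw [← add_div, ← hD, div_self hD0.ne']) (hA.smul p⁻¹) (hB.smul q⁻¹)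
    hvA hvB
  have e : (1 - t) • A + t • B =
      D • (((1 - t) * p / D) • p⁻¹ • A + (t * q / D) • q⁻¹ • B) := by
    rw [smul_add, smul_smul, smul_smul, smul_smul, smul_smul]
    congr 2
    · field_simp
    · field_simp
  rw [← hD, e, hsm _ _ hD0.le]
  nlinarith

end Pool.Agent.Lib.MP_0c1c75_co
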