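import Pool.Agent.Lib.MP_0c1c75_co.Spec

/-!
MP_0c1c75_co, module Circum: the circumscribed ball of finitely many points, by maximising
`∑ l_i |p_i|^2 - |∑ l_i p_i|^2` over the simplex.
-/

namespace Pool.Agent.Lib.MP_0c1c75_co.Circum

open Pool.Agent.Lib.MP_0c1c75_co

/-- the concave function to be maximised -/
noncomputable def fv {d N : ℕ} (p : Fin N → E d) (l : Fin N → ℝ) : ℝ :=
  ∑ i, l i * ‖p i‖ ^ 2 - ‖∑ i, l i • p i‖ ^ 2

lemma fv_continuous {d N : ℕ} (p : Fin N → E d) : Continuous (fv p) := by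
  unfold fv
  fun_prop

/-- variance identity around an arbitrary centre -/
lemma fv_eq {d N : ℕ} (p : Fin N → E d) (l : Fin N → ℝ) (hl : ∑ i, l i = 1) (o : E d) :
    fv p l = ∑ i, l i * ‖p i - o‖ ^ 2 - ‖∑ i, l i • p i - o‖ ^ 2 := by
  have h1 : ∀ i, l i * ‖p i - o‖ ^ 2 =
      l i * ‖p i‖ ^ 2 - 2 * inner ℝ (l i • p i) o + l i * ‖o‖ ^ 2 := by
    intro i
    rw [norm_sub_sq_real, real_inner_smul_left]
    ring
  have h2 : ∑ i, l i * ‖p i - o‖ ^ 2 =
      ∑ i, l i * ‖p i‖ ^ 2 - 2 * inner ℝ (∑ i, l i • p i) o + ‖o‖ ^ 2 := by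
    rw [Finset.sum_congr rfl (fun i _ => h1 i), Finset.sum_add_distrib, Finset.sum_sub_distrib,
      ← Finset.mul_sum, ← sum_inner, ← Finset.sum_mul, hl, one_mul]
  rw [h2, norm_sub_sq_real (∑ i, l i • p i) o]
  unfold fv
  ring

end Pool.Agent.Lib.MP_0c1c75_co.Circum

namespace Pool.Agent.Lib.MP_0c1c75_co

open Circum in
theorem circumStmt : CircumStmt := by
  intro d N hN p
  have hne : (stdSimplex ℝ (Fin N)).Nonempty := by
    refine ⟨fun i => if i = ⟨0, hN⟩ then 1 else 0, fun i => ?_, ?_⟩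
    · dsimp only
      split_ifs <;> norm_num
    · simp
  obtain ⟨l, hl, hmax⟩ := (isCompact_stdSimplex ℝ (Fin N)).exists_isMaxOn hne
    (fv_continuous p).continuousOn
  obtain ⟨hl0, hl1⟩ := hl
  set o : E d := ∑ i, l i • p i with ho
  have hf : fv p l = ∑ i, l i * ‖p i - o‖ ^ 2 := by
    rw [fv_eq p l hl1 o, ← ho, sub_self, norm_zero]
    ring
  have hf0 : 0 ≤ fv p l := by
    rw [hf]
    exact Finset.sum_nonneg (fun i _ => mul_nonneg (hl0 i) (by positivity))
  refine ⟨l, o, Real.sqrt (fv p l), hl0, hl1, rfl, Real.sqrt_nonneg _, ?_, ?_⟩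
  · intro j
    apply Real.le_sqrt_of_sq_le
    -- the direction `e_j - l`
    have key : ∀ t : ℝ, 0 < t → t ≤ 1 → ‖p j - o‖ ^ 2 - fv p l ≤ t * ‖p j - o‖ ^ 2 := by
      intro t ht0 ht1
      set m : Fin N → ℝ := fun i => (1 - t) * l i + (if i = j then t else 0) with hm
      have hm0 : ∀ i, 0 ≤ m i := by
        intro i
        have h1 : 0 ≤ (1 - t) * l i := mul_nonneg (by linarith) (hl0 i)
        have h2 : (0 : ℝ) ≤ if i = j then t else 0 := by split_ifs <;> linarith
        simp only [hm]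
        linarith
      have hm1 : ∑ i, m i = 1 := by
        simp only [hm]
        rw [Finset.sum_add_distrib, ← Finset.mul_sum, hl1]
        simp
      have hle : fv p m ≤ fv p l := hmax ⟨hm0, hm1⟩
      have hs1 : ∑ i, m i * ‖p i - o‖ ^ 2 = (1 - t) * fv p l + t * ‖p j - o‖ ^ 2 := by
        rw [hf, Finset.mul_sum]
        simp only [hm, add_mul, Finset.sum_add_distrib, ite_mul, zero_mul]
        simp [mul_assoc]
      have hs2 : ∑ i, m i • p i - o = t • (p j - o) := by
        have : ∑ i, m i • p i = (1 - t) • o + t • p j := by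
          rw [ho, Finset.smul_sum]
          simp only [hm, add_smul, Finset.sum_add_distrib, ite_smul, zero_smul]
          simp [mul_smul]
        rw [this]
        module
      rw [fv_eq p m hm1 o, hs1, hs2, norm_smul, mul_pow, Real.norm_eq_abs, sq_abs] at hle
      have h3 : t * (‖p j - o‖ ^ 2 - fv p l) ≤ t * (t * ‖p j - o‖ ^ 2) := by nlinarith
      exact le_of_mul_le_mul_left h3 ht0
    by_contra hcon
    push Not at hcon
    set D : ℝ := ‖p j - o‖ ^ 2 with hD
    have hDpos : 0 < D := lt_of_le_of_lt hf0 hcon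
    have hq0 : 0 < (D - fv p l) / (2 * D) := by
      apply div_pos <;> linarith
    have hq1 : (D - fv p l) / (2 * D) ≤ 1 := by
      rw [div_le_one (by linarith)]
      linarith
    have h4 := key _ hq0 hq1
    have h5 : (D - fv p l) / (2 * D) * D = (D - fv p l) / 2 := by
      field_simp
    rw [h5] at h4
    linarith
  · rw [Real.sq_sqrt hf0, hf]

end Pool.Agent.Lib.MP_0c1c75_co
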