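import Pool.Agent.Lib.MP_0c1c75_co.Spec

/-!
MP_0c1c75_co: module CircumApp (consequences of the circumscribed ball).
-/

open MeasureTheory Set Metric

namespace Pool.Agent.Lib.MP_0c1c75_co.CircumApp

/-- the variance identity -/
theorem var_id {d N : ℕ} (p : Fin N → E d) (l : Fin N → ℝ) (o : E d)
    (hl1 : ∑ i, l i = 1) (ho : ∑ i, l i • p i = o) (x : E d) :
    ∑ i, l i * ‖x - p i‖ ^ 2 = ‖x - o‖ ^ 2 + ∑ i, l i * ‖p i - o‖ ^ 2 := by
  have h1 : ∀ i, ‖x - p i‖ ^ 2 = ‖x - o‖ ^ 2 - 2 * inner ℝ (x - o) (p i - o) + ‖p i - o‖ ^ 2 := by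
    intro i
    have : x - p i = (x - o) - (p i - o) := by abel
    rw [this, norm_sub_sq_real]
  have h2 : ∑ i, l i * inner ℝ (x - o) (p i - o) = 0 := by
    have h3 : ∑ i, l i * inner ℝ (x - o) (p i - o) = inner ℝ (x - o) (∑ i, l i • (p i - o)) := by
      rw [inner_sum]
      refine Finset.sum_congr rfl fun i _ => ?_
      rw [inner_smul_right]
    have h4 : ∑ i, l i • (p i - o) = 0 := by
      simp only [smul_sub, Finset.sum_sub_distrib, ← Finset.sum_smul, hl1, ho, one_smul, sub_self]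
    rw [h3, h4, inner_zero_right]
  calc ∑ i, l i * ‖x - p i‖ ^ 2
      = ∑ i, (l i * ‖x - o‖ ^ 2 - 2 * (l i * inner ℝ (x - o) (p i - o)) + l i * ‖p i - o‖ ^ 2) := by
        refine Finset.sum_congr rfl fun i _ => ?_
        rw [h1 i]; ring
    _ = (∑ i, l i) * ‖x - o‖ ^ 2 - 2 * ∑ i, l i * inner ℝ (x - o) (p i - o) +
          ∑ i, l i * ‖p i - o‖ ^ 2 := by
        rw [Finset.sum_add_distrib, Finset.sum_sub_distrib, Finset.sum_mul, Finset.mul_sum]
    _ = ‖x - o‖ ^ 2 + ∑ i, l i * ‖p i - o‖ ^ 2 := by rw [hl1, h2]; ring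

/-- the double sum identity -/
theorem double_id {d N : ℕ} (p : Fin N → E d) (l : Fin N → ℝ) (o : E d)
    (hl1 : ∑ i, l i = 1) (ho : ∑ i, l i • p i = o) :
    ∑ j, l j * ∑ i, l i * ‖p j - p i‖ ^ 2 = 2 * ∑ i, l i * ‖p i - o‖ ^ 2 := by
  have h : ∀ j, l j * ∑ i, l i * ‖p j - p i‖ ^ 2 =
      l j * ‖p j - o‖ ^ 2 + l j * ∑ i, l i * ‖p i - o‖ ^ 2 := by
    intro j
    rw [var_id p l o hl1 ho (p j)]; ring
  rw [Finset.sum_congr rfl fun j _ => h j, Finset.sum_add_distrib, ← Finset.sum_mul, hl1]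
  ring

theorem body_sq {d N : ℕ} (hN : 0 < N) (p : Fin N → E d) (l : Fin N → ℝ) (o : E d) (R : ℝ)
    (hl : ∀ i, 0 ≤ l i) (hl1 : ∑ i, l i = 1) (ho : ∑ i, l i • p i = o)
    (hsum : ∑ i, l i * ‖p i - o‖ ^ 2 = R ^ 2) (r : ℝ) (x : E d) (hx : x ∈ body p r) :
    0 ≤ r ∧ ‖x - o‖ ^ 2 + R ^ 2 ≤ r ^ 2 := by
  have hx' : ∀ i, ‖x - p i‖ ≤ r := by
    intro i
    have := mem_iInter.1 hx i
    rwa [mem_closedBall, dist_eq_norm] at this
  have hr : 0 ≤ r := (norm_nonneg _).trans (hx' ⟨0, hN⟩)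
  refine ⟨hr, ?_⟩
  rw [← hsum, ← var_id p l o hl1 ho x]
  calc ∑ i, l i * ‖x - p i‖ ^ 2 ≤ ∑ i, l i * r ^ 2 := by
        refine Finset.sum_le_sum fun i _ => ?_
        exact mul_le_mul_of_nonneg_left (pow_le_pow_left₀ (norm_nonneg _) (hx' i) 2) (hl i)
    _ = r ^ 2 := by rw [← Finset.sum_mul, hl1, one_mul]

end Pool.Agent.Lib.MP_0c1c75_co.CircumApp

namespace Pool.Agent.Lib.MP_0c1c75_co

open CircumApp

theorem circumAppStmt : CircumAppStmt := by
  intro d N hN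
  refine ⟨?_, ?_⟩
  · intro p l o R hl hl1 ho hR hsum
    refine ⟨?_, ?_⟩
    · intro r _ x hx
      obtain ⟨_, h⟩ := body_sq hN p l o R hl hl1 ho hsum r x hx
      rw [mem_closedBall, dist_eq_norm]
      exact Real.le_sqrt_of_sq_le (by linarith)
    · intro r hr
      rw [Set.eq_empty_iff_forall_notMem]
      intro x hx
      obtain ⟨h0, h⟩ := body_sq hN p l o R hl hl1 ho hsum r x hx
      have h1 : R ^ 2 ≤ r ^ 2 := by nlinarith [sq_nonneg ‖x - o‖]
      have h2 : R ≤ r := le_of_sq_le_sq h1 h0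
      linarith
  · intro c p q hc hcon o o' R R' l hl hl1 ho' hR' hsum hR hp
    have hq := double_id q l o' hl1 ho'
    have hpp := double_id p l (∑ i, l i • p i) hl1 rfl
    have hv := var_id p l (∑ i, l i • p i) hl1 rfl o
    have h1 : ∑ j, l j * ∑ i, l i * ‖q j - q i‖ ^ 2 ≤
        c ^ 2 * ∑ j, l j * ∑ i, l i * ‖p j - p i‖ ^ 2 := by
      rw [Finset.mul_sum]
      refine Finset.sum_le_sum fun j _ => ?_
      have : c ^ 2 * (l j * ∑ i, l i * ‖p j - p i‖ ^ 2) =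
          l j * ∑ i, l i * (c * ‖p j - p i‖) ^ 2 := by
        rw [mul_left_comm, Finset.mul_sum]
        congr 1
        refine Finset.sum_congr rfl fun i _ => ?_
        ring
      rw [this]
      refine mul_le_mul_of_nonneg_left ?_ (hl j)
      refine Finset.sum_le_sum fun i _ => mul_le_mul_of_nonneg_left ?_ (hl i)
      have := hcon j i
      rw [dist_eq_norm, dist_eq_norm] at this
      exact pow_le_pow_left₀ (norm_nonneg _) this 2
    have h2 : ∑ i, l i * ‖o - p i‖ ^ 2 ≤ R ^ 2 := by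
      calc ∑ i, l i * ‖o - p i‖ ^ 2 ≤ ∑ i, l i * R ^ 2 := by
            refine Finset.sum_le_sum fun i _ => mul_le_mul_of_nonneg_left ?_ (hl i)
            have := hp i
            rw [norm_sub_rev] at this
            exact pow_le_pow_left₀ (norm_nonneg _) this 2
        _ = R ^ 2 := by rw [← Finset.sum_mul, hl1, one_mul]
    have h3 : ∑ i, l i * ‖p i - ∑ i, l i • p i‖ ^ 2 ≤ R ^ 2 := by
      have := sq_nonneg ‖o - ∑ i, l i • p i‖
      linarith
    have h4 : R' ^ 2 ≤ (c * R) ^ 2 := by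
      rw [hq, hpp, hsum] at h1
      have : c ^ 2 * (2 * ∑ i, l i * ‖p i - ∑ i, l i • p i‖ ^ 2) ≤ c ^ 2 * (2 * R ^ 2) :=
        mul_le_mul_of_nonneg_left (by linarith) (sq_nonneg c)
      nlinarith
    exact le_of_sq_le_sq h4 (mul_nonneg hc hR)

end Pool.Agent.Lib.MP_0c1c75_co
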