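import Pool.Agent.Lib.MP_0c1c75_co.Spec3

/-!
# MP_0c1c75_co: half mean width and diameter
-/

open MeasureTheory Set Metric

namespace Pool.Agent.Lib.MP_0c1c75_co.Diam

theorem hs_le {d N : ℕ} (hN : 0 < N) (q : Fin N → E d) (u : E d) (C : ℝ)
    (h : ∀ i, inner ℝ (q i) u ≤ C) : hs q u ≤ C := by
  have : Nonempty (Fin N) := ⟨⟨0, hN⟩⟩
  exact ciSup_le h

theorem width_le {d N : ℕ} (hN : 0 < N) (q : Fin N → E d) (D : ℝ)
    (hD : ∀ i j, dist (q i) (q j) ≤ D) (u : E d) (hu : ‖u‖ ≤ 1) :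
    hs q u + hs (fun i => -q i) u ≤ D := by
  have hD0 : 0 ≤ D := dist_nonneg.trans (hD ⟨0, hN⟩ ⟨0, hN⟩)
  have h1 : ∀ i j, inner ℝ (q i) u + inner ℝ (-q j) u ≤ D := by
    intro i j
    rw [← inner_add_left, ← sub_eq_add_neg]
    calc inner ℝ (q i - q j) u ≤ ‖q i - q j‖ * ‖u‖ := real_inner_le_norm _ _
      _ ≤ D * 1 := by
          rw [← dist_eq_norm]
          exact mul_le_mul (hD i j) hu (norm_nonneg _) hD0
      _ = D := mul_one D
  have h2 : hs q u ≤ D - hs (fun i => -q i) u := by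
    refine hs_le hN q u _ fun i => ?_
    have : hs (fun i => -q i) u ≤ D - inner ℝ (q i) u :=
      hs_le hN _ u _ fun j => by linarith [h1 i j]
    linarith
  linarith

end Pool.Agent.Lib.MP_0c1c75_co.Diam

namespace Pool.Agent.Lib.MP_0c1c75_co

theorem diamStmt (hH : HwBasicStmt) : DiamStmt := by
  intro d N hd hN q D hD
  obtain ⟨-, -, -, -, -, -, hi, ha⟩ := hH d N hd hN q
  obtain ⟨-, -, -, -, -, -, hi', -⟩ := hH d N hd hN (fun i => -q i)
  have e1 : ∀ x : E d, hs q (-(‖x‖⁻¹ • x)) = hs (fun i => -q i) (‖x‖⁻¹ • x) := by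
    intro x
    unfold hs
    congr 1
    funext i
    rw [inner_neg_right, inner_neg_left]
  simp only [e1] at ha
  have hw1 : hw q = ⨍ x in ball (0 : E d) 1, hs q (‖x‖⁻¹ • x) := rfl
  rw [setAverage_eq] at ha hw1
  have hc : 0 < volume.real (ball (0 : E d) 1) :=
    ENNReal.toReal_pos (measure_ball_pos volume _ one_pos).ne' measure_ball_lt_top.ne
  have h2 : ∫ x in ball (0 : E d) 1, (hs q (‖x‖⁻¹ • x) + hs (fun i => -q i) (‖x‖⁻¹ • x)) ≤
      ∫ _x in ball (0 : E d) 1, D := by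
    refine integral_mono (hi.add hi') (integrableOn_const measure_ball_lt_top.ne) fun x => ?_
    refine Diam.width_le hN q D hD _ ?_
    rw [norm_smul, norm_inv, norm_norm]
    exact inv_mul_le_one
  rw [integral_add hi hi', setIntegral_const] at h2
  rw [smul_eq_mul] at h2 ha hw1
  generalize (∫ x in ball (0 : E d) 1, hs q (‖x‖⁻¹ • x)) = a at h2 hw1
  generalize (∫ x in ball (0 : E d) 1, hs (fun i => -q i) (‖x‖⁻¹ • x)) = b at h2 ha
  generalize volume.real (ball (0 : E d) 1) = c at hc h2 hw1 ha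
  have h3 : hw q + hw q ≤ D := by
    calc hw q + hw q = c⁻¹ * a + c⁻¹ * b := by rw [ha]; rw [hw1]
      _ = c⁻¹ * (a + b) := by ring
      _ ≤ c⁻¹ * (c * D) := mul_le_mul_of_nonneg_left h2 (inv_nonneg.mpr hc.le)
      _ = D := by rw [← mul_assoc, inv_mul_cancel₀ hc.ne', one_mul]
  linarith

end Pool.Agent.Lib.MP_0c1c75_co
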