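import Pool.Agent.Lib.MP_0c1c75_co.Spec

/-!
MP_0c1c75_co, module Gauss: the Gaussian comparison inequality.
-/

open MeasureTheory Set Metric

namespace Pool.Agent.Lib.MP_0c1c75_co.Gauss

section general

variable {V : Type*} [NormedAddCommGroup V] [InnerProductSpace ℝ V] {ι : Type*} [Fintype ι]

/-- weights -/
noncomputable def Wm (c : ι → ℝ) (k : ℝ) (y : ι → V) (i : ι) : ℝ :=
  c i * Real.exp (k * ‖y i‖ ^ 2)

/-- their sum -/
noncomputable def Sm (c : ι → ℝ) (k : ℝ) (y : ι → V) : ℝ := ∑ i, Wm c k y i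

/-- derivative term -/
noncomputable def Tm (c : ι → ℝ) (k b : ℝ) (y v : ι → V) : ℝ :=
  ∑ i, Wm c k y i * Sm c k y ^ (-b - 1) * inner ℝ (y i) (v i)

/-- divergence term -/
noncomputable def Um (c : ι → ℝ) (k b : ℝ) (y v : ι → V) : ℝ :=
  ∑ i, ∑ j, Wm c k y i * Wm c k y j * Sm c k y ^ (-b - 2) * inner ℝ (y j) (v i)

variable {c : ι → ℝ} {k b : ℝ}

omit [InnerProductSpace ℝ V] [Fintype ι] in
lemma Wm_pos (hc : ∀ i, 0 < c i) (y : ι → V) (i : ι) : 0 < Wm c k y i :=
  mul_pos (hc i) (Real.exp_pos _)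

lemma Wm_le_Sm (hc : ∀ i, 0 < c i) (y : ι → V) (i : ι) : Wm c k y i ≤ Sm c k y :=
  Finset.single_le_sum (f := fun i => Wm c k y i) (fun j _ => (Wm_pos hc y j).le)
    (Finset.mem_univ i)

lemma Sm_pos [Nonempty ι] (hc : ∀ i, 0 < c i) (y : ι → V) : 0 < Sm c k y :=
  lt_of_lt_of_le (Wm_pos hc y (Classical.arbitrary ι)) (Wm_le_Sm hc y _)

omit [Fintype ι] in
lemma hasDerivAt_Wm (γ : ℝ → ι → V) (γ' : ι → V) (t : ℝ) (i : ι)
    (h : HasDerivAt (fun t => γ t i) (γ' i) t) :
    HasDerivAt (fun t => Wm c k (γ t) i) (Wm c k (γ t) i * (2 * k * inner ℝ (γ t i) (γ' i))) t := by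
  have h1 := ((h.norm_sq).const_mul k).exp.const_mul (c i)
  unfold Wm
  convert! h1 using 1
  ring

lemma hasDerivAt_Sm (γ : ℝ → ι → V) (γ' : ι → V) (t : ℝ)
    (h : ∀ i, HasDerivAt (fun t => γ t i) (γ' i) t) :
    HasDerivAt (fun t => Sm c k (γ t))
      (∑ i, Wm c k (γ t) i * (2 * k * inner ℝ (γ t i) (γ' i))) t := by
  unfold Sm
  exact HasDerivAt.fun_sum fun i _ => hasDerivAt_Wm γ γ' t i (h i)

lemma hasDerivAt_Sm_rpow [Nonempty ι] (hc : ∀ i, 0 < c i) (γ : ℝ → ι → V) (γ' : ι → V) (t : ℝ)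
    (h : ∀ i, HasDerivAt (fun t => γ t i) (γ' i) t) (e : ℝ) :
    HasDerivAt (fun t => Sm c k (γ t) ^ e)
      ((∑ i, Wm c k (γ t) i * (2 * k * inner ℝ (γ t i) (γ' i))) * e * Sm c k (γ t) ^ (e - 1)) t :=
  (hasDerivAt_Sm γ γ' t h).rpow_const (Or.inl (Sm_pos hc _).ne')

/-- pointwise inequality -/
lemma Um_le_Tm [Nonempty ι] (hc : ∀ i, 0 < c i) (P v : ι → V) (x : V)
    (h : ∀ i j, inner ℝ (P i - P j) (v i - v j) ≤ 0) :
    Um c k b (fun i => x - P i) v ≤ Tm c k b (fun i => x - P i) v := by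
  set y : ι → V := fun i => x - P i with hy
  have hS := Sm_pos (k := k) hc y
  have hT : Tm c k b y v = ∑ i, ∑ j, Wm c k y i * Wm c k y j * Sm c k y ^ (-b - 2) *
      inner ℝ (y i) (v i) := by
    unfold Tm
    refine Finset.sum_congr rfl fun i _ => ?_
    have h1 : Sm c k y ^ (-b - 1) = Sm c k y ^ (-b - 2) * ∑ j, Wm c k y j := by
      have : Sm c k y ^ (-b - 1) = Sm c k y ^ (-b - 2) * Sm c k y := by
        rw [← Real.rpow_add_one hS.ne']
        congr 1
        ring
      rw [this]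
      rfl
    rw [h1, Finset.mul_sum, Finset.mul_sum, Finset.sum_mul]
    refine Finset.sum_congr rfl fun j _ => ?_
    ring
  have hd : Tm c k b y v - Um c k b y v = ∑ i, ∑ j, Wm c k y i * Wm c k y j *
      Sm c k y ^ (-b - 2) * inner ℝ (y i - y j) (v i) := by
    rw [hT]
    unfold Um
    rw [← Finset.sum_sub_distrib]
    refine Finset.sum_congr rfl fun i _ => ?_
    rw [← Finset.sum_sub_distrib]
    refine Finset.sum_congr rfl fun j _ => ?_
    rw [inner_sub_left (y i) (y j)]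
    ring
  have hd2 : 2 * (Tm c k b y v - Um c k b y v) = ∑ i, ∑ j, Wm c k y i * Wm c k y j *
      Sm c k y ^ (-b - 2) * -inner ℝ (P i - P j) (v i - v j) := by
    have h3 : Tm c k b y v - Um c k b y v = ∑ i, ∑ j, Wm c k y i * Wm c k y j *
      Sm c k y ^ (-b - 2) * inner ℝ (y j - y i) (v j) := by
      rw [hd, Finset.sum_comm]
      refine Finset.sum_congr rfl fun i _ => Finset.sum_congr rfl fun j _ => ?_
      ring
    rw [two_mul]
    nth_rewrite 1 [hd]
    rw [h3, ← Finset.sum_add_distrib]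
    refine Finset.sum_congr rfl fun i _ => ?_
    rw [← Finset.sum_add_distrib]
    refine Finset.sum_congr rfl fun j _ => ?_
    have e1 : y i - y j = -(P i - P j) := by simp [hy]
    have e2 : y j - y i = P i - P j := by simp [hy]
    rw [e1, e2, inner_neg_left, inner_sub_right]
    ring
  have h0 : 0 ≤ 2 * (Tm c k b y v - Um c k b y v) := by
    rw [hd2]
    refine Finset.sum_nonneg fun i _ => Finset.sum_nonneg fun j _ => ?_
    have h5 := Wm_pos (k := k) hc y i
    have h6 := Wm_pos (k := k) hc y j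
    have h7 : 0 < Sm c k y ^ (-b - 2) := Real.rpow_pos_of_pos hS _
    have h8 := h i j
    have h9 : 0 ≤ -inner ℝ (P i - P j) (v i - v j) := by linarith
    positivity
  linarith

lemma Sm_rpow_le [Nonempty ι] (hc : ∀ i, 0 < c i) (hb : 0 < b) (y : ι → V) (i : ι) :
    Sm c k y ^ (-b) ≤ c i ^ (-b) * Real.exp (-(k * b) * ‖y i‖ ^ 2) := by
  have h1 : Sm c k y ^ (-b) ≤ Wm c k y i ^ (-b) :=
    Real.rpow_le_rpow_of_nonpos (Wm_pos hc y i) (Wm_le_Sm hc y i) (by linarith)
  refine h1.trans (le_of_eq ?_)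
  unfold Wm
  rw [Real.mul_rpow (hc i).le (Real.exp_pos _).le, ← Real.exp_mul]
  congr 2
  ring

end general

section integrals

variable {V : Type*} [NormedAddCommGroup V] [InnerProductSpace ℝ V] [FiniteDimensional ℝ V]
  [MeasurableSpace V] [BorelSpace V] {ι : Type*} [Fintype ι]
  {c : ι → ℝ} {k b : ℝ}

lemma integrable_exp_sq {s : ℝ} (hs : 0 < s) :
    Integrable (fun x : V => Real.exp (-s * ‖x‖ ^ 2)) := by
  have h := GaussianFourier.integrable_cexp_neg_mul_sq_norm_add (V := V) (b := (s : ℂ))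
    (by simpa using hs) 0 0
  refine h.norm.congr (Filter.Eventually.of_forall fun x => ?_)
  simp only [Complex.norm_exp]
  congr 1
  simp [← Complex.ofReal_pow]

/-- an integrable majorant -/
lemma integrable_majorant {s : ℝ} (hs : 0 < s) (M : ℝ) :
    Integrable (fun x : V => (‖x‖ + M) * Real.exp (-s * ‖x‖ ^ 2)) := by
  have h1 : Integrable (fun x : V => ‖x‖ * Real.exp (-s * ‖x‖ ^ 2)) := by
    have h2 := (integrable_exp_sq (V := V) (half_pos hs)).const_mul (Real.exp (1 / (2 * s)))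
    refine h2.mono' (by fun_prop) (Filter.Eventually.of_forall fun x => ?_)
    rw [norm_mul, norm_norm, Real.norm_of_nonneg (Real.exp_pos _).le]
    have h3 : ‖x‖ ≤ Real.exp (1 / (2 * s) + s / 2 * ‖x‖ ^ 2) := by
      refine le_trans ?_ (Real.add_one_le_exp _)
      have h4 : 0 ≤ (s * ‖x‖ - 1) ^ 2 := sq_nonneg _
      have h5 : ‖x‖ ≤ 1 / (2 * s) + s / 2 * ‖x‖ ^ 2 := by
        rw [div_add' _ _ _ (by positivity), le_div_iff₀ (by positivity)]
        nlinarith
      linarith
    calc ‖x‖ * Real.exp (-s * ‖x‖ ^ 2)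
        ≤ Real.exp (1 / (2 * s) + s / 2 * ‖x‖ ^ 2) * Real.exp (-s * ‖x‖ ^ 2) :=
          mul_le_mul_of_nonneg_right h3 (Real.exp_pos _).le
      _ = Real.exp (1 / (2 * s)) * Real.exp (-(s / 2) * ‖x‖ ^ 2) := by
          rw [← Real.exp_add, ← Real.exp_add]
          congr 1
          ring
  have h2 := h1.add ((integrable_exp_sq (V := V) hs).const_mul M)
  refine h2.congr (Filter.Eventually.of_forall fun x => ?_)
  simp only [Pi.add_apply]
  ring

omit [FiniteDimensional ℝ V] [MeasurableSpace V] [BorelSpace V] in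
lemma Sm_rpow_le_unif [Nonempty ι] (hc : ∀ i, 0 < c i) (hb : 0 < b) (hk : 0 < k) (P : ι → V)
    {M : ℝ} (i : ι) (hM : ‖P i‖ ≤ M) (x : V) :
    Sm c k (fun i => x - P i) ^ (-b) ≤
      c i ^ (-b) * Real.exp (k * b * M ^ 2) * Real.exp (-(k * b / 2) * ‖x‖ ^ 2) := by
  refine (Sm_rpow_le hc hb _ i).trans ?_
  rw [mul_assoc, ← Real.exp_add]
  refine mul_le_mul_of_nonneg_left (Real.exp_le_exp.mpr ?_) (Real.rpow_nonneg (hc i).le _)
  have h1 : ‖x‖ ^ 2 ≤ 2 * ‖x - P i‖ ^ 2 + 2 * M ^ 2 := by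
    have h2 : ‖x‖ ≤ ‖x - P i‖ + M := by
      calc ‖x‖ = ‖(x - P i) + P i‖ := by simp
        _ ≤ ‖x - P i‖ + ‖P i‖ := norm_add_le _ _
        _ ≤ _ := by linarith
    have h3 : 0 ≤ ‖x - P i‖ := norm_nonneg _
    have h4 : 0 ≤ ‖x‖ := norm_nonneg _
    nlinarith [sq_nonneg (‖x - P i‖ - M)]
  have h5 : 0 < k * b := by positivity
  have h6 := mul_le_mul_of_nonneg_left h1 h5.le
  nlinarith

omit [InnerProductSpace ℝ V] [FiniteDimensional ℝ V] [MeasurableSpace V] [BorelSpace V]
  [Fintype ι] in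
lemma continuous_Wm (P : ι → V) (i : ι) : Continuous fun x => Wm c k (fun i => x - P i) i := by
  unfold Wm
  fun_prop

omit [FiniteDimensional ℝ V] [MeasurableSpace V] [BorelSpace V] in
lemma continuous_Sm (P : ι → V) : Continuous fun x => Sm c k (fun i => x - P i) := by
  unfold Sm
  exact continuous_finsetSum _ fun i _ => continuous_Wm P i

omit [FiniteDimensional ℝ V] [MeasurableSpace V] [BorelSpace V] in
lemma continuous_Sm_rpow [Nonempty ι] (hc : ∀ i, 0 < c i) (P : ι → V) (e : ℝ) :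
    Continuous fun x => Sm c k (fun i => x - P i) ^ e :=
  (continuous_Sm P).rpow_const fun _ => Or.inl (Sm_pos hc _).ne'

lemma integrable_Sm_rpow [Nonempty ι] (hc : ∀ i, 0 < c i) (hb : 0 < b) (hk : 0 < k)
    (P : ι → V) : Integrable (fun x => Sm c k (fun i => x - P i) ^ (-b)) := by
  let i := Classical.arbitrary ι
  have h1 := (integrable_exp_sq (V := V) (s := k * b / 2) (by positivity)).const_mul
    (c i ^ (-b) * Real.exp (k * b * ‖P i‖ ^ 2))
  refine h1.mono' (continuous_Sm_rpow hc P _).aestronglyMeasurable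
    (Filter.Eventually.of_forall fun x => ?_)
  rw [Real.norm_of_nonneg (Real.rpow_nonneg (Sm_pos hc _).le _)]
  exact Sm_rpow_le_unif hc hb hk P i le_rfl x

omit [FiniteDimensional ℝ V] [MeasurableSpace V] [BorelSpace V] in
/-- bounds of the terms of `T` -/
lemma abs_T_term_le [Nonempty ι] (hc : ∀ i, 0 < c i) (y : ι → V) (v : V) (i : ι) :
    |Wm c k y i * Sm c k y ^ (-b - 1) * inner ℝ (y i) v| ≤
      Sm c k y ^ (-b) * (‖y i‖ * ‖v‖) := by
  have hS := Sm_pos (k := k) hc y
  have hW := Wm_pos (k := k) hc y i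
  rw [abs_mul, abs_of_nonneg (mul_nonneg hW.le (Real.rpow_nonneg hS.le _))]
  refine mul_le_mul ?_ (abs_real_inner_le_norm _ _) (abs_nonneg _) (Real.rpow_nonneg hS.le _)
  have h1 : Sm c k y ^ (-b) = Sm c k y * Sm c k y ^ (-b - 1) := by
    rw [mul_comm, ← Real.rpow_add_one hS.ne']
    congr 1
    ring
  rw [h1]
  exact mul_le_mul_of_nonneg_right (Wm_le_Sm hc y i) (Real.rpow_nonneg hS.le _)

omit [FiniteDimensional ℝ V] [MeasurableSpace V] [BorelSpace V] in
/-- bounds of the terms of `U` -/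
lemma abs_U_term_le [Nonempty ι] (hc : ∀ i, 0 < c i) (y : ι → V) (v : V) (i j : ι) :
    |Wm c k y i * Wm c k y j * Sm c k y ^ (-b - 2) * inner ℝ (y j) v| ≤
      Sm c k y ^ (-b) * (‖y j‖ * ‖v‖) := by
  have hS := Sm_pos (k := k) hc y
  have hW := Wm_pos (k := k) hc y i
  have hW' := Wm_pos (k := k) hc y j
  rw [abs_mul, abs_of_nonneg (mul_nonneg (mul_nonneg hW.le hW'.le) (Real.rpow_nonneg hS.le _))]
  refine mul_le_mul ?_ (abs_real_inner_le_norm _ _) (abs_nonneg _) (Real.rpow_nonneg hS.le _)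
  have h1 : Sm c k y ^ (-b) = Sm c k y * Sm c k y * Sm c k y ^ (-b - 2) := by
    have h2 : Sm c k y ^ (-b) = Sm c k y ^ (-b - 2 + 1 + 1) := by
      congr 1
      ring
    rw [h2, Real.rpow_add_one hS.ne', Real.rpow_add_one hS.ne']
    ring
  rw [h1]
  refine mul_le_mul_of_nonneg_right ?_ (Real.rpow_nonneg hS.le _)
  exact mul_le_mul (Wm_le_Sm hc y i) (Wm_le_Sm hc y j) hW'.le hS.le

lemma integrable_T_term [Nonempty ι] (hc : ∀ i, 0 < c i) (hb : 0 < b) (hk : 0 < k)
    (P : ι → V) (v : V) (i : ι) :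
    Integrable (fun x => Wm c k (fun i => x - P i) i * Sm c k (fun i => x - P i) ^ (-b - 1) *
      inner ℝ (x - P i) v) := by
  have h1 := ((integrable_majorant (V := V) (s := k * b / 2) (by positivity) ‖P i‖).const_mul
    (c i ^ (-b) * Real.exp (k * b * ‖P i‖ ^ 2))).mul_const ‖v‖
  refine h1.mono' (Continuous.aestronglyMeasurable ?_)
    (Filter.Eventually.of_forall fun x => ?_)
  · exact ((continuous_Wm P i).mul (continuous_Sm_rpow hc P _)).mul (by fun_prop)
  · refine (abs_T_term_le hc (fun i => x - P i) v i).trans ?_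
    have h2 := Sm_rpow_le_unif hc hb hk P i le_rfl x
    have h3 : ‖x - P i‖ ≤ ‖x‖ + ‖P i‖ := norm_sub_le _ _
    have h4 : 0 ≤ Sm c k (fun i => x - P i) ^ (-b) := Real.rpow_nonneg (Sm_pos hc _).le _
    calc Sm c k (fun i => x - P i) ^ (-b) * (‖x - P i‖ * ‖v‖)
        ≤ (c i ^ (-b) * Real.exp (k * b * ‖P i‖ ^ 2) * Real.exp (-(k * b / 2) * ‖x‖ ^ 2)) *
          ((‖x‖ + ‖P i‖) * ‖v‖) := by
            gcongr
            exact h4.trans h2
      _ = _ := by ring

lemma integrable_U_term [Nonempty ι] (hc : ∀ i, 0 < c i) (hb : 0 < b) (hk : 0 < k)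
    (P : ι → V) (v : V) (i j : ι) :
    Integrable (fun x => Wm c k (fun i => x - P i) i * Wm c k (fun i => x - P i) j *
      Sm c k (fun i => x - P i) ^ (-b - 2) * inner ℝ (x - P j) v) := by
  have h1 := ((integrable_majorant (V := V) (s := k * b / 2) (by positivity) ‖P j‖).const_mul
    (c j ^ (-b) * Real.exp (k * b * ‖P j‖ ^ 2))).mul_const ‖v‖
  refine h1.mono' (Continuous.aestronglyMeasurable ?_)
    (Filter.Eventually.of_forall fun x => ?_)
  · exact (((continuous_Wm P i).mul (continuous_Wm P j)).mul (continuous_Sm_rpow hc P _)).mul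
      (by fun_prop)
  · refine (abs_U_term_le hc (fun i => x - P i) v i j).trans ?_
    have h2 := Sm_rpow_le_unif hc hb hk P j le_rfl x
    have h3 : ‖x - P j‖ ≤ ‖x‖ + ‖P j‖ := norm_sub_le _ _
    have h4 : 0 ≤ Sm c k (fun i => x - P i) ^ (-b) := Real.rpow_nonneg (Sm_pos hc _).le _
    calc Sm c k (fun i => x - P i) ^ (-b) * (‖x - P j‖ * ‖v‖)
        ≤ (c j ^ (-b) * Real.exp (k * b * ‖P j‖ ^ 2) * Real.exp (-(k * b / 2) * ‖x‖ ^ 2)) *
          ((‖x‖ + ‖P j‖) * ‖v‖) := by
            gcongr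
            exact h4.trans h2
      _ = _ := by ring

/-- integral of a line derivative is zero -/
lemma integral_lineDeriv_eq_zero {f f' : V → ℝ} {v : V} (hf : Integrable f) (hf' : Integrable f')
    (h : ∀ x, HasLineDerivAt ℝ f (f' x) x v) : ∫ x, f' x = 0 := by
  have h1 := integral_bilinear_hasLineDerivAt_right_eq_neg_left_of_integrable
    (μ := (volume : Measure V)) (f := fun _ : V => (1 : ℝ)) (f' := fun _ => 0) (g := f) (g' := f')
    (v := v) (B := ContinuousLinearMap.mul ℝ ℝ) (by simp) (by simpa using hf') (by simpa using hf)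
    (fun x _ => by simpa [HasLineDerivAt] using hasDerivAt_const (0 : ℝ) (1 : ℝ))
    (fun x _ => h x)
  simpa using h1

/-- integration by parts, one term -/
lemma ibp_term [Nonempty ι] (hc : ∀ i, 0 < c i) (hb : 0 < b) (hk : 0 < k)
    (P : ι → V) (v : V) (i : ι) :
    ∫ x, Wm c k (fun i => x - P i) i * Sm c k (fun i => x - P i) ^ (-b - 1) *
      inner ℝ (x - P i) v =
    (1 + b) * ∫ x, ∑ j, Wm c k (fun i => x - P i) i * Wm c k (fun i => x - P i) j *
      Sm c k (fun i => x - P i) ^ (-b - 2) * inner ℝ (x - P j) v := by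
  have hT := integrable_T_term hc hb hk P v i
  have hU := fun j => integrable_U_term hc hb hk P v i j
  have hU' := integrable_finsetSum Finset.univ fun j _ => hU j
  have hW : Integrable (fun x => Wm c k (fun i => x - P i) i *
      Sm c k (fun i => x - P i) ^ (-b - 1)) := by
    refine (integrable_Sm_rpow hc hb hk P).mono'
      ((continuous_Wm P i).mul (continuous_Sm_rpow hc P _)).aestronglyMeasurable
      (Filter.Eventually.of_forall fun x => ?_)
    have hS := Sm_pos (k := k) hc (fun i => x - P i)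
    rw [Real.norm_of_nonneg (mul_nonneg (Wm_pos hc _ i).le (Real.rpow_nonneg hS.le _))]
    have h1 : Sm c k (fun i => x - P i) ^ (-b) = Sm c k (fun i => x - P i) *
        Sm c k (fun i => x - P i) ^ (-b - 1) := by
      rw [mul_comm, ← Real.rpow_add_one hS.ne']
      congr 1
      ring
    rw [h1]
    exact mul_le_mul_of_nonneg_right (Wm_le_Sm hc _ i) (Real.rpow_nonneg hS.le _)
  have hd : ∀ x, HasLineDerivAt ℝ (fun x => Wm c k (fun i => x - P i) i *
      Sm c k (fun i => x - P i) ^ (-b - 1))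
      (2 * k * (Wm c k (fun i => x - P i) i * Sm c k (fun i => x - P i) ^ (-b - 1) *
        inner ℝ (x - P i) v) - 2 * k * (1 + b) * ∑ j, Wm c k (fun i => x - P i) i *
        Wm c k (fun i => x - P i) j * Sm c k (fun i => x - P i) ^ (-b - 2) *
        inner ℝ (x - P j) v) x v := by
    intro x
    unfold HasLineDerivAt
    have hγ : ∀ i, HasDerivAt (fun t : ℝ => (fun i => x + t • v - P i) i) ((fun _ => v) i) 0 := by
      intro i
      have h1 : HasDerivAt (fun t : ℝ => t • v) v 0 := by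
        simpa using (hasDerivAt_id (0 : ℝ)).smul_const v
      exact (h1.const_add x).sub_const (P i)
    have h1 := hasDerivAt_Wm (c := c) (k := k) (fun t : ℝ => fun i => x + t • v - P i)
      (fun _ => v) 0 i (hγ i)
    have h2 := hasDerivAt_Sm_rpow (k := k) hc (fun t : ℝ => fun i => x + t • v - P i)
      (fun _ => v) 0 hγ (-b - 1)
    have h3 := h1.mul h2
    convert! h3 using 1
    simp only [zero_smul, add_zero]
    rw [show -b - 1 - 1 = -b - 2 by ring, Finset.mul_sum, Finset.sum_mul, Finset.sum_mul,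
      Finset.mul_sum, sub_eq_add_neg, ← Finset.sum_neg_distrib]
    congr 1
    · ring
    · refine Finset.sum_congr rfl fun j _ => ?_
      ring
  have hint : Integrable (fun x => 2 * k * (Wm c k (fun i => x - P i) i *
        Sm c k (fun i => x - P i) ^ (-b - 1) *
        inner ℝ (x - P i) v) - 2 * k * (1 + b) * ∑ j, Wm c k (fun i => x - P i) i *
        Wm c k (fun i => x - P i) j * Sm c k (fun i => x - P i) ^ (-b - 2) *
        inner ℝ (x - P j) v) := (hT.const_mul (2 * k)).sub (hU'.const_mul (2 * k * (1 + b)))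
  have h0 := integral_lineDeriv_eq_zero hW hint hd
  rw [integral_sub (hT.const_mul (2 * k)) (hU'.const_mul (2 * k * (1 + b))),
    integral_const_mul, integral_const_mul] at h0
  have h4 : 2 * k * ((∫ x, Wm c k (fun i => x - P i) i * Sm c k (fun i => x - P i) ^ (-b - 1) *
      inner ℝ (x - P i) v) -
    (1 + b) * ∫ x, ∑ j, Wm c k (fun i => x - P i) i * Wm c k (fun i => x - P i) j *
      Sm c k (fun i => x - P i) ^ (-b - 2) * inner ℝ (x - P j) v) = 0 := by
    linarith
  have h5 := (mul_eq_zero.mp h4).resolve_left (by positivity)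
  linarith

lemma integrable_Tm [Nonempty ι] (hc : ∀ i, 0 < c i) (hb : 0 < b) (hk : 0 < k)
    (P v : ι → V) : Integrable (fun x => Tm c k b (fun i => x - P i) v) := by
  unfold Tm
  exact integrable_finsetSum _ fun i _ => integrable_T_term hc hb hk P (v i) i

lemma integrable_Um [Nonempty ι] (hc : ∀ i, 0 < c i) (hb : 0 < b) (hk : 0 < k)
    (P v : ι → V) : Integrable (fun x => Um c k b (fun i => x - P i) v) := by
  unfold Um
  exact integrable_finsetSum _ fun i _ => integrable_finsetSum _ fun j _ =>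
    integrable_U_term hc hb hk P (v i) i j

lemma integral_Tm [Nonempty ι] (hc : ∀ i, 0 < c i) (hb : 0 < b) (hk : 0 < k)
    (P v : ι → V) : ∫ x, Tm c k b (fun i => x - P i) v =
      (1 + b) * ∫ x, Um c k b (fun i => x - P i) v := by
  unfold Tm Um
  rw [integral_finsetSum _ fun i _ => integrable_T_term hc hb hk P (v i) i,
    integral_finsetSum _ fun i _ => integrable_finsetSum _ fun j _ =>
      integrable_U_term hc hb hk P (v i) i j, Finset.mul_sum]
  exact Finset.sum_congr rfl fun i _ => ibp_term hc hb hk P (v i) i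

/-- the derivative along the path is nonnegative -/
lemma integral_Tm_nonneg [Nonempty ι] (hc : ∀ i, 0 < c i) (hb : 0 < b) (hk : 0 < k)
    (P v : ι → V) (h : ∀ i j, inner ℝ (P i - P j) (v i - v j) ≤ 0) :
    0 ≤ ∫ x, Tm c k b (fun i => x - P i) v := by
  have h1 := integral_Tm hc hb hk P v
  have h2 : ∫ x, Um c k b (fun i => x - P i) v ≤ ∫ x, Tm c k b (fun i => x - P i) v :=
    integral_mono (integrable_Um hc hb hk P v) (integrable_Tm hc hb hk P v)
      fun x => Um_le_Tm hc P v x h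
  set I := ∫ x, Tm c k b (fun i => x - P i) v
  set J := ∫ x, Um c k b (fun i => x - P i) v
  by_contra hneg
  push Not at hneg
  have h3 : J < 0 := by
    by_contra h4
    push Not at h4
    have : 0 ≤ (1 + b) * J := by positivity
    linarith
  nlinarith

/-- the path -/
noncomputable def Pth (A B : ι → V) (t : ℝ) (i : ι) : V := Real.cos t • A i + Real.sin t • B i

/-- its velocity -/
noncomputable def Vth (A B : ι → V) (t : ℝ) (i : ι) : V := -Real.sin t • A i + Real.cos t • B i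

omit [FiniteDimensional ℝ V] [MeasurableSpace V] [BorelSpace V] [Fintype ι] in
lemma hasDerivAt_Pth (A B : ι → V) (t : ℝ) (i : ι) :
    HasDerivAt (fun t => Pth A B t i) (Vth A B t i) t :=
  ((Real.hasDerivAt_cos t).smul_const (A i)).add ((Real.hasDerivAt_sin t).smul_const (B i))

omit [FiniteDimensional ℝ V] [MeasurableSpace V] [BorelSpace V] [Fintype ι] in
lemma norm_Pth_le (A B : ι → V) (t : ℝ) (i : ι) : ‖Pth A B t i‖ ≤ ‖A i‖ + ‖B i‖ := by
  unfold Pth
  refine (norm_add_le _ _).trans ?_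
  rw [norm_smul, norm_smul, Real.norm_eq_abs, Real.norm_eq_abs]
  have h1 := Real.abs_cos_le_one t
  have h2 := Real.abs_sin_le_one t
  have h3 := norm_nonneg (A i)
  have h4 := norm_nonneg (B i)
  nlinarith

omit [FiniteDimensional ℝ V] [MeasurableSpace V] [BorelSpace V] [Fintype ι] in
lemma norm_Vth_le (A B : ι → V) (t : ℝ) (i : ι) : ‖Vth A B t i‖ ≤ ‖A i‖ + ‖B i‖ := by
  unfold Vth
  refine (norm_add_le _ _).trans ?_
  rw [norm_smul, norm_smul, Real.norm_eq_abs, Real.norm_eq_abs, abs_neg]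
  have h1 := Real.abs_cos_le_one t
  have h2 := Real.abs_sin_le_one t
  have h3 := norm_nonneg (A i)
  have h4 := norm_nonneg (B i)
  nlinarith

/-- the functional along the path -/
lemma hasDerivAt_I [Nonempty ι] (hc : ∀ i, 0 < c i) (hb : 0 < b) (hk : 0 < k) (A B : ι → V)
    (t : ℝ) :
    HasDerivAt (fun t => ∫ x, Sm c k (fun i => x - Pth A B t i) ^ (-b))
      (∫ x, 2 * (k * b) * Tm c k b (fun i => x - Pth A B t i) (Vth A B t)) t := by
  set M : ι → ℝ := fun i => ‖A i‖ + ‖B i‖ with hM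
  refine (hasDerivAt_integral_of_dominated_loc_of_deriv_le
    (F := fun t x => Sm c k (fun i => x - Pth A B t i) ^ (-b))
    (F' := fun t x => 2 * (k * b) * Tm c k b (fun i => x - Pth A B t i) (Vth A B t))
    (bound := fun x => 2 * (k * b) * ∑ i, c i ^ (-b) * Real.exp (k * b * M i ^ 2) *
      ((‖x‖ + M i) * Real.exp (-(k * b / 2) * ‖x‖ ^ 2)) * M i)
    (s := univ) Filter.univ_mem ?_ ?_ ?_ ?_ ?_ ?_).2
  · exact Filter.Eventually.of_forall fun t =>
      (continuous_Sm_rpow hc (Pth A B t) (-b)).aestronglyMeasurable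
  · exact integrable_Sm_rpow hc hb hk (Pth A B t)
  · exact ((integrable_Tm hc hb hk (Pth A B t) (Vth A B t)).const_mul _).aestronglyMeasurable
  · refine Filter.Eventually.of_forall fun x t _ => ?_
    rw [norm_mul, Real.norm_of_nonneg (by positivity)]
    refine mul_le_mul_of_nonneg_left ?_ (by positivity)
    unfold Tm
    refine (norm_sum_le _ _).trans (Finset.sum_le_sum fun i _ => ?_)
    refine (abs_T_term_le hc (fun i => x - Pth A B t i) (Vth A B t i) i).trans ?_
    have h2 := Sm_rpow_le_unif hc hb hk (Pth A B t) i (norm_Pth_le A B t i) x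
    have h3 : ‖x - Pth A B t i‖ ≤ ‖x‖ + M i :=
      (norm_sub_le _ _).trans (by have := norm_Pth_le A B t i; linarith)
    have h4 : 0 ≤ Sm c k (fun i => x - Pth A B t i) ^ (-b) :=
      Real.rpow_nonneg (Sm_pos hc _).le _
    have h5 := norm_Vth_le A B t i
    calc Sm c k (fun i => x - Pth A B t i) ^ (-b) * (‖x - Pth A B t i‖ * ‖Vth A B t i‖)
        ≤ (c i ^ (-b) * Real.exp (k * b * M i ^ 2) * Real.exp (-(k * b / 2) * ‖x‖ ^ 2)) *
          ((‖x‖ + M i) * M i) := by
            gcongr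
            exact h4.trans h2
      _ = _ := by ring
  · refine Integrable.const_mul (integrable_finsetSum _ fun i _ => ?_) _
    exact ((integrable_majorant (V := V) (s := k * b / 2) (by positivity) (M i)).const_mul
      _).mul_const _
  · refine Filter.Eventually.of_forall fun x t _ => ?_
    have h1 := hasDerivAt_Sm_rpow (k := k) hc (fun t : ℝ => fun i => x - Pth A B t i)
      (fun i => -Vth A B t i) t (fun i => (hasDerivAt_Pth A B t i).const_sub x) (-b)
    convert! h1 using 1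
    unfold Tm
    rw [Finset.mul_sum, Finset.sum_mul, Finset.sum_mul]
    refine Finset.sum_congr rfl fun i _ => ?_
    rw [inner_neg_right]
    ring

omit [FiniteDimensional ℝ V] [MeasurableSpace V] [BorelSpace V] [Fintype ι] in
lemma inner_path_le (A B : ι → V) (h0 : ∀ i j, inner ℝ (A i) (B j) = 0)
    (h1 : ∀ i j, ‖B i - B j‖ ≤ ‖A i - A j‖) {t : ℝ} (ht : 0 ≤ t) (ht' : t ≤ Real.pi / 2)
    (i j : ι) :
    inner ℝ (Pth A B t i - Pth A B t j) (Vth A B t i - Vth A B t j) ≤ 0 := by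
  have e1 : Pth A B t i - Pth A B t j = Real.cos t • (A i - A j) + Real.sin t • (B i - B j) := by
    unfold Pth
    module
  have e2 : Vth A B t i - Vth A B t j = -Real.sin t • (A i - A j) + Real.cos t • (B i - B j) := by
    unfold Vth
    module
  have h2 : inner ℝ (A i - A j) (B i - B j) = 0 := by
    simp [inner_sub_left, inner_sub_right, h0]
  have h3 : inner ℝ (B i - B j) (A i - A j) = 0 := by rw [real_inner_comm]; exact h2
  have h4 : inner ℝ (Pth A B t i - Pth A B t j) (Vth A B t i - Vth A B t j) =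
      Real.cos t * Real.sin t * (‖B i - B j‖ ^ 2 - ‖A i - A j‖ ^ 2) := by
    rw [e1, e2]
    simp only [inner_add_left, inner_add_right, real_inner_smul_left, real_inner_smul_right, h2,
      h3, real_inner_self_eq_norm_sq]
    ring
  rw [h4]
  have hc : 0 ≤ Real.cos t := Real.cos_nonneg_of_mem_Icc ⟨by linarith [Real.pi_pos], ht'⟩
  have hs : 0 ≤ Real.sin t := Real.sin_nonneg_of_nonneg_of_le_pi ht (by linarith [Real.pi_pos])
  have h5 : ‖B i - B j‖ ^ 2 ≤ ‖A i - A j‖ ^ 2 :=
    pow_le_pow_left₀ (norm_nonneg _) (h1 i j) 2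
  nlinarith [mul_nonneg hc hs]

/-- comparison for orthogonal configurations -/
lemma comparison [Nonempty ι] (hc : ∀ i, 0 < c i) (hb : 0 < b) (hk : 0 < k) (A B : ι → V)
    (h0 : ∀ i j, inner ℝ (A i) (B j) = 0)
    (h1 : ∀ i j, ‖B i - B j‖ ≤ ‖A i - A j‖) :
    ∫ x, Sm c k (fun i => x - A i) ^ (-b) ≤ ∫ x, Sm c k (fun i => x - B i) ^ (-b) := by
  set I : ℝ → ℝ := fun t => ∫ x, Sm c k (fun i => x - Pth A B t i) ^ (-b) with hI
  have hd : ∀ t, HasDerivAt I (∫ x, 2 * (k * b) * Tm c k b (fun i => x - Pth A B t i)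
    (Vth A B t)) t := fun t => hasDerivAt_I hc hb hk A B t
  have hmono : MonotoneOn I (Icc 0 (Real.pi / 2)) := by
    refine monotoneOn_of_deriv_nonneg (convex_Icc _ _)
      (fun t _ => (hd t).continuousAt.continuousWithinAt)
      (fun t _ => (hd t).differentiableAt.differentiableWithinAt) fun t ht => ?_
    rw [interior_Icc] at ht
    rw [(hd t).deriv, integral_const_mul]
    have := integral_Tm_nonneg hc hb hk (Pth A B t) (Vth A B t)
      (fun i j => inner_path_le A B h0 h1 ht.1.le ht.2.le i j)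
    positivity
  have h2 := hmono (left_mem_Icc.mpr (by positivity)) (right_mem_Icc.mpr (by positivity))
    (by positivity : (0 : ℝ) ≤ Real.pi / 2)
  have e1 : ∀ i, Pth A B 0 i = A i := fun i => by simp [Pth]
  have e2 : ∀ i, Pth A B (Real.pi / 2) i = B i := fun i => by simp [Pth]
  simpa [hI, e1, e2] using h2

end integrals

section euclid

variable {d N : ℕ}

lemma integral_factor [NeZero N] (c : Fin N → ℝ) (k b : ℝ) (p : Fin N → E d)
    (P : Fin N → WithLp 2 (E d × E d))
    (hP : ∀ (x y : E d) (i : Fin N), ‖WithLp.toLp 2 (x, y) - P i‖ ^ 2 = ‖x - p i‖ ^ 2 + ‖y‖ ^ 2)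
    (hc : ∀ i, 0 < c i) :
    ∫ z, Sm c k (fun i => z - P i) ^ (-b) =
      (∫ x, Sm c k (fun i => x - p i) ^ (-b)) * ∫ y : E d, Real.exp (-(k * b) * ‖y‖ ^ 2) := by
  have h1 := (WithLp.volume_preserving_toLp (E d) (E d)).integral_comp
    (MeasurableEquiv.toLp 2 (E d × E d)).measurableEmbedding
    (fun z => Sm c k (fun i => z - P i) ^ (-b))
  rw [← h1]
  have h2 : ∀ z : E d × E d, Sm c k (fun i => WithLp.toLp 2 z - P i) ^ (-b) =
      Sm c k (fun i => z.1 - p i) ^ (-b) * Real.exp (-(k * b) * ‖z.2‖ ^ 2) := by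
    rintro ⟨x, y⟩
    have h3 : Sm c k (fun i => WithLp.toLp 2 (x, y) - P i) =
        Sm c k (fun i => x - p i) * Real.exp (k * ‖y‖ ^ 2) := by
      unfold Sm Wm
      rw [Finset.sum_mul]
      refine Finset.sum_congr rfl fun i _ => ?_
      rw [hP, mul_add, Real.exp_add]
      ring
    rw [h3, Real.mul_rpow (Sm_pos hc _).le (Real.exp_pos _).le, ← Real.exp_mul]
    congr 2
    ring
  simp_rw [h2]
  exact integral_prod_mul (fun x => Sm c k (fun i => x - p i) ^ (-b))
    (fun y : E d => Real.exp (-(k * b) * ‖y‖ ^ 2))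

lemma integral_factor' [NeZero N] (c : Fin N → ℝ) (k b : ℝ) (p : Fin N → E d)
    (P : Fin N → WithLp 2 (E d × E d))
    (hP : ∀ (x y : E d) (i : Fin N), ‖WithLp.toLp 2 (x, y) - P i‖ ^ 2 = ‖x‖ ^ 2 + ‖y - p i‖ ^ 2)
    (hc : ∀ i, 0 < c i) :
    ∫ z, Sm c k (fun i => z - P i) ^ (-b) =
      (∫ y : E d, Real.exp (-(k * b) * ‖y‖ ^ 2)) * ∫ x, Sm c k (fun i => x - p i) ^ (-b) := by
  have h1 := (WithLp.volume_preserving_toLp (E d) (E d)).integral_comp
    (MeasurableEquiv.toLp 2 (E d × E d)).measurableEmbedding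
    (fun z => Sm c k (fun i => z - P i) ^ (-b))
  rw [← h1]
  have h2 : ∀ z : E d × E d, Sm c k (fun i => WithLp.toLp 2 z - P i) ^ (-b) =
      Real.exp (-(k * b) * ‖z.1‖ ^ 2) * Sm c k (fun i => z.2 - p i) ^ (-b) := by
    rintro ⟨x, y⟩
    have h3 : Sm c k (fun i => WithLp.toLp 2 (x, y) - P i) =
        Real.exp (k * ‖x‖ ^ 2) * Sm c k (fun i => y - p i) := by
      unfold Sm Wm
      rw [Finset.mul_sum]
      refine Finset.sum_congr rfl fun i _ => ?_
      rw [hP, mul_add, Real.exp_add]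
      ring
    rw [h3, Real.mul_rpow (Real.exp_pos _).le (Sm_pos hc _).le, ← Real.exp_mul]
    congr 2
    ring
  simp_rw [h2]
  exact integral_prod_mul (fun y : E d => Real.exp (-(k * b) * ‖y‖ ^ 2))
    (fun x => Sm c k (fun i => x - p i) ^ (-b))

lemma comparison_euclid [NeZero N] {c : Fin N → ℝ} {k b : ℝ} (hc : ∀ i, 0 < c i) (hb : 0 < b)
    (hk : 0 < k) (p q : Fin N → E d) (h : Contr 1 p q) :
    ∫ x, Sm c k (fun i => x - p i) ^ (-b) ≤ ∫ x, Sm c k (fun i => x - q i) ^ (-b) := by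
  set A : Fin N → WithLp 2 (E d × E d) := fun i => WithLp.toLp 2 (p i, 0) with hA
  set B : Fin N → WithLp 2 (E d × E d) := fun i => WithLp.toLp 2 (0, q i) with hB
  have h0 : ∀ i j, inner ℝ (A i) (B j) = 0 := by
    intro i j
    simp [hA, hB, WithLp.prod_inner_apply]
  have h1 : ∀ i j, ‖B i - B j‖ ≤ ‖A i - A j‖ := by
    intro i j
    have e1 : ‖B i - B j‖ = ‖q i - q j‖ := by
      rw [hB]
      have : WithLp.toLp 2 ((0 : E d), q i) - WithLp.toLp 2 (0, q j) =
        WithLp.toLp 2 (0, q i - q j) := by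
        rw [← WithLp.toLp_sub]; simp
      simp only [this]
      have h5 := WithLp.prod_norm_sq_eq_of_L2 (WithLp.toLp 2 ((0 : E d), q i - q j))
      have h6 : ‖WithLp.toLp 2 ((0 : E d), q i - q j)‖ ^ 2 = ‖q i - q j‖ ^ 2 := by
        rw [h5]; simp
      exact (pow_left_inj₀ (norm_nonneg _) (norm_nonneg _) two_ne_zero).mp h6
    have e2 : ‖A i - A j‖ = ‖p i - p j‖ := by
      rw [hA]
      have : WithLp.toLp 2 (p i, (0 : E d)) - WithLp.toLp 2 (p j, 0) =
        WithLp.toLp 2 (p i - p j, 0) := by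
        rw [← WithLp.toLp_sub]; simp
      simp only [this]
      have h5 := WithLp.prod_norm_sq_eq_of_L2 (WithLp.toLp 2 (p i - p j, (0 : E d)))
      have h6 : ‖WithLp.toLp 2 (p i - p j, (0 : E d))‖ ^ 2 = ‖p i - p j‖ ^ 2 := by
        rw [h5]; simp
      exact (pow_left_inj₀ (norm_nonneg _) (norm_nonneg _) two_ne_zero).mp h6
    rw [e1, e2]
    have := h i j
    rw [dist_eq_norm, dist_eq_norm, one_mul] at this
    exact this
  have h2 := comparison hc hb hk A B h0 h1
  have hPA : ∀ (x y : E d) (i : Fin N), ‖WithLp.toLp 2 (x, y) - A i‖ ^ 2 =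
      ‖x - p i‖ ^ 2 + ‖y‖ ^ 2 := by
    intro x y i
    rw [hA, ← WithLp.toLp_sub, WithLp.prod_norm_sq_eq_of_L2]
    simp
  have hPB : ∀ (x y : E d) (i : Fin N), ‖WithLp.toLp 2 (x, y) - B i‖ ^ 2 =
      ‖x‖ ^ 2 + ‖y - q i‖ ^ 2 := by
    intro x y i
    rw [hB, ← WithLp.toLp_sub, WithLp.prod_norm_sq_eq_of_L2]
    simp
  rw [integral_factor c k b p A hPA hc, integral_factor' c k b q B hPB hc, mul_comm] at h2
  have hpos : 0 < ∫ y : E d, Real.exp (-(k * b) * ‖y‖ ^ 2) := by
    have := integral_exp_pos (μ := (volume : Measure (E d)))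
      (f := fun y : E d => -(k * b) * ‖y‖ ^ 2) (integrable_exp_sq (by positivity))
    exact this
  exact le_of_mul_le_mul_left h2 hpos

lemma le_gmax [NeZero N] (p : Fin N → E d) (a : Fin N → ℝ) (x : E d) (i : Fin N) :
    ‖x - p i‖ ^ 2 - a i ≤ gmax p a x :=
  le_ciSup (f := fun i => ‖x - p i‖ ^ 2 - a i) (Finite.bddAbove_range _) i

lemma measurable_gmax [NeZero N] (p : Fin N → E d) (a : Fin N → ℝ) : Measurable (gmax p a) := by
  unfold gmax
  exact Measurable.iSup fun i => by fun_prop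

lemma Sm_bounds [NeZero N] {k : ℝ} (hk : 0 < k) (p : Fin N → E d) (a : Fin N → ℝ) (x : E d) :
    Real.exp (k * gmax p a x) ≤ Sm (fun i => Real.exp (-k * a i)) k (fun i => x - p i) ∧
    Sm (fun i => Real.exp (-k * a i)) k (fun i => x - p i) ≤ N * Real.exp (k * gmax p a x) := by
  have hW : ∀ i, Wm (fun i => Real.exp (-k * a i)) k (fun i => x - p i) i =
      Real.exp (k * (‖x - p i‖ ^ 2 - a i)) := by
    intro i
    unfold Wm
    rw [← Real.exp_add]
    congr 1
    ring
  constructor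
  · obtain ⟨i, hi⟩ := exists_eq_ciSup_of_finite (f := fun i => ‖x - p i‖ ^ 2 - a i)
    have h1 := Wm_le_Sm (k := k) (c := fun i => Real.exp (-k * a i)) (fun i => Real.exp_pos _)
      (fun i => x - p i) i
    rw [hW i] at h1
    have h2 : gmax p a x = ‖x - p i‖ ^ 2 - a i := hi.symm
    rw [h2]
    exact h1
  · unfold Sm
    refine (Finset.sum_le_card_nsmul _ _ (Real.exp (k * gmax p a x)) fun i _ => ?_).trans
      (le_of_eq ?_)
    · rw [hW i]
      exact Real.exp_le_exp.mpr (mul_le_mul_of_nonneg_left (le_gmax p a x i) hk.le)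
    · simp

lemma Sm_rpow_bounds [NeZero N] {k b : ℝ} (hk : 0 < k) (hb : 0 < b) (p : Fin N → E d)
    (a : Fin N → ℝ) (x : E d) :
    (N : ℝ) ^ (-b) * Real.exp (-(k * b) * gmax p a x) ≤
      Sm (fun i => Real.exp (-k * a i)) k (fun i => x - p i) ^ (-b) ∧
    Sm (fun i => Real.exp (-k * a i)) k (fun i => x - p i) ^ (-b) ≤
      Real.exp (-(k * b) * gmax p a x) := by
  obtain ⟨h1, h2⟩ := Sm_bounds hk p a x
  have hS := Sm_pos (k := k) (c := fun i => Real.exp (-k * a i)) (fun i => Real.exp_pos _)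
    (fun i => x - p i)
  constructor
  · have h3 := Real.rpow_le_rpow_of_nonpos hS h2 (z := -b) (by linarith)
    rw [Real.mul_rpow (by positivity) (Real.exp_pos _).le, ← Real.exp_mul] at h3
    refine le_trans (le_of_eq ?_) h3
    congr 2
    ring
  · have h3 := Real.rpow_le_rpow_of_nonpos (Real.exp_pos _) h1 (z := -b) (by linarith)
    rw [← Real.exp_mul] at h3
    refine h3.trans (le_of_eq ?_)
    congr 1
    ring

lemma integrable_gmax [NeZero N] (p : Fin N → E d) (a : Fin N → ℝ) {s : ℝ} (hs : 0 < s) :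
    Integrable (fun x => Real.exp (-s * gmax p a x)) := by
  have h1 := integrable_Sm_rpow (V := E d) (c := fun i => Real.exp (-s * a i)) (b := 1) (k := s)
    (fun i => Real.exp_pos _) one_pos hs p
  refine (h1.const_mul ((N : ℝ) ^ (1 : ℝ))).mono'
    (by have := measurable_gmax p a; fun_prop) (Filter.Eventually.of_forall fun x => ?_)
  rw [Real.norm_of_nonneg (Real.exp_pos _).le]
  have h2 := (Sm_rpow_bounds hs one_pos p a x).1
  have hN : (0 : ℝ) < N := by exact_mod_cast NeZero.pos N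
  rw [mul_one, Real.rpow_neg hN.le, Real.rpow_one] at h2
  rw [Real.rpow_one]
  rw [inv_mul_le_iff₀ hN] at h2
  exact h2

lemma scaled_comparison [NeZero N] (p q : Fin N → E d) (h : Contr 1 p q) (a : Fin N → ℝ)
    {s b : ℝ} (hs : 0 < s) (hb : 0 < b) :
    (N : ℝ) ^ (-b) * ∫ x, Real.exp (-s * gmax p a x) ≤ ∫ x, Real.exp (-s * gmax q a x) := by
  have hk : 0 < s / b := div_pos hs hb
  have hkb : s / b * b = s := div_mul_cancel₀ _ hb.ne'
  have hc : ∀ i : Fin N, 0 < Real.exp (-(s / b) * a i) := fun i => Real.exp_pos _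
  calc (N : ℝ) ^ (-b) * ∫ x, Real.exp (-s * gmax p a x)
      = ∫ x, (N : ℝ) ^ (-b) * Real.exp (-s * gmax p a x) := (integral_const_mul _ _).symm
    _ ≤ ∫ x, Sm (fun i => Real.exp (-(s / b) * a i)) (s / b) (fun i => x - p i) ^ (-b) := by
        refine integral_mono ((integrable_gmax p a hs).const_mul _)
          (integrable_Sm_rpow hc hb hk p) fun x => ?_
        have := (Sm_rpow_bounds hk hb p a x).1
        rw [hkb] at this
        exact this
    _ ≤ ∫ x, Sm (fun i => Real.exp (-(s / b) * a i)) (s / b) (fun i => x - q i) ^ (-b) :=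
        comparison_euclid hc hb hk p q h
    _ ≤ ∫ x, Real.exp (-s * gmax q a x) := by
        refine integral_mono (integrable_Sm_rpow hc hb hk q) (integrable_gmax q a hs) fun x => ?_
        have := (Sm_rpow_bounds hk hb q a x).2
        rw [hkb] at this
        exact this

end euclid

end Pool.Agent.Lib.MP_0c1c75_co.Gauss

namespace Pool.Agent.Lib.MP_0c1c75_co

/-- Gaussian comparison for contractions. -/
theorem gaussStmt : GaussStmt := by
  intro d N hN p q h a s hs
  have : NeZero N := ⟨hN.ne'⟩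
  refine ⟨Gauss.integrable_gmax p a hs, ?_⟩
  have hN' : (0 : ℝ) < N := by exact_mod_cast hN
  have h1 : Filter.Tendsto (fun b : ℝ => (N : ℝ) ^ (-b) * ∫ x, Real.exp (-s * gmax p a x))
      (nhdsWithin 0 (Ioi 0)) (nhds ((N : ℝ) ^ (-(0 : ℝ)) * ∫ x, Real.exp (-s * gmax p a x))) := by
    refine Filter.Tendsto.mono_left ?_ nhdsWithin_le_nhds
    refine Filter.Tendsto.mul_const _ ?_
    have h2 : Continuous fun b : ℝ => (N : ℝ) ^ (-b) :=
      Real.continuous_const_rpow hN'.ne' |>.comp continuous_neg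
    exact h2.tendsto 0
  rw [neg_zero, Real.rpow_zero, one_mul] at h1
  refine le_of_tendsto h1 ?_
  filter_upwards [self_mem_nhdsWithin] with b hb
  exact Gauss.scaled_comparison p q h a hs hb

end Pool.Agent.Lib.MP_0c1c75_co
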