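import Pool.Agent.Lib.MP_0c1c75_co.Spec

/-!
MP_0c1c75_co, second round: sharper Theorem 1 and Theorem 4 (uniform contractions: all `N ≥ 7`
in dimension three, `N ≥ (√e + ε)^d` in general). Statements as Props, proofs in the docstrings.
-/

open MeasureTheory Set Metric

namespace Pool.Agent.Lib.MP_0c1c75_co

/-! ## Module Radial2 -/

/-- Sharper version of `RadialStmt`. With `o = 0` and `h = hs p (-u)` the radial function of
`body p r` in direction `u` is `min_i (x_i + √(r^2 - |p_i|^2 + x_i^2))`, `x_i = <p_i,u> ≥ -h`, which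
is at least `√(r^2 - R^2 + h^2) - h` (`x ↦ x + √(a^2 + x^2)` is increasing on the whole line).
`h ↦ √(a^2 + h^2) - h` is convex and nonnegative, so is its `d`-th power; Jensen (twice, or once
for the `d`-th power). Everything else as in Radial.lean. -/
def Radial2Stmt : Prop :=
  ∀ (d N : ℕ), 0 < d → 0 < N → ∀ (p : Fin N → E d) (o : E d) (R r : ℝ), 0 ≤ R → R ≤ r →
    (∀ i, ‖p i - o‖ ≤ R) → Real.sqrt (r ^ 2 - R ^ 2 + hw p ^ 2) - hw p ≤ vr (body p r)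

/-! ## Module Seg -/

/-- The half mean width is at least that of a diameter of the circumscribed ball. Proof: `o = 0`
by translation. `l i > 0` implies `|p_i| = R`. For a unit vector `u` let
`A = ∑ l_i <p_i,u>_+ = (1/2) ∑ l_i |<p_i,u>|` (as `∑ l_i <p_i,u> = 0`), `w₊ = ∑_{<p_i,u> > 0} l_i`,
`w₋ = ∑_{<p_i,u> < 0} l_i`. Then `h(u) w₊ ≥ A`, `h(-u) w₋ ≥ A`, `w₊ + w₋ ≤ 1`, `h ≥ 0`, so
`h(u) + h(-u) ≥ 4 A`. Take the average over `u = x/|x|`; the average of `|<v, x/|x|>|` is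
`|v|` times that for a unit vector (reflections preserve the ball and the volume). -/
def SegStmt : Prop :=
  ∀ (d N : ℕ), 0 < d → 0 < N → ∀ (p : Fin N → E d) (l : Fin N → ℝ) (o : E d) (R : ℝ),
    (∀ i, 0 ≤ l i) → ∑ i, l i = 1 → ∑ i, l i • p i = o → 0 ≤ R → (∀ i, ‖p i - o‖ ≤ R) →
    ∑ i, l i * ‖p i - o‖ ^ 2 = R ^ 2 → ∀ e : E d, ‖e‖ = 1 →
    R * (⨍ x in ball (0 : E d) 1, |inner ℝ e (‖x‖⁻¹ • x)|) ≤ hw p

/-- In dimension three the average is `1/2`. `PolarStmt` (2) with `φ t = exp (-t^2)` for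
`F x = |<e,x>|` and `F x = |x|`: the average is
`(∫ exp (-|x|^2) |<e,x>|) / (∫ exp (-|x|^2) |x|) = π / (2 π)`. -/
def Seg3Stmt : Prop :=
  ∀ e : E 3, ‖e‖ = 1 → (⨍ x in ball (0 : E 3) 1, |inner ℝ e (‖x‖⁻¹ • x)|) = 1 / 2

/-! ## Modules Jung, Diam, Rankin -/

/-- Jung's theorem. From `CircumStmt`: `o` is a convex combination of contact points
(`‖q_i - o‖ = R`); by Caratheodory one may take the weights `l` supported on at most `d + 1`
points; then `R^2 = (1/2) ∑ l_i l_j |q_i - q_j|^2 ≤ (D^2/2) (1 - ∑ l_i^2) ≤ (D^2/2) (1 - 1/(d+1))`. -/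
def JungStmt : Prop :=
  ∀ (d N : ℕ), 0 < N → ∀ (q : Fin N → E d) (D : ℝ), (∀ i j, dist (q i) (q j) ≤ D) →
    ∃ (o : E d) (ρ : ℝ), 0 ≤ ρ ∧ (∀ i, ‖q i - o‖ ≤ ρ) ∧
      ρ ^ 2 ≤ (d : ℝ) / (2 * ((d : ℝ) + 1)) * D ^ 2

/-- `hs q u + hs q (-u) ≤ D` for unit `u`. -/
def DiamStmt : Prop :=
  ∀ (d N : ℕ), 0 < d → 0 < N → ∀ (q : Fin N → E d) (D : ℝ), (∀ i j, dist (q i) (q j) ≤ D) →
    hw q ≤ D / 2

/-- Among `d + 2` vectors of `E d` two have a nonnegative inner product (apply it to `p_i - o`,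
`L^2 ≤ |p_i - p_j|^2 ≤ |p_i - o|^2 + |p_j - o|^2`). Proof: if all inner products are negative, take a
nontrivial linear relation among the first `d + 1` vectors; `w = ∑_{a_i > 0} a_i v_i =
∑_{a_i < 0} (-a_i) v_i` has `|w|^2 ≤ 0`, so `w = 0`; taking the inner product of one of the two
expressions (nonempty sum) with `v_{d+2}` gives a contradiction. -/
def RankinStmt : Prop :=
  ∀ (d N : ℕ), d + 2 ≤ N → ∀ (p : Fin N → E d) (L : ℝ), 0 ≤ L →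
    (∀ i j, i ≠ j → L ≤ dist (p i) (p j)) → ∀ (o : E d) (R : ℝ), (∀ i, ‖p i - o‖ ≤ R) →
    L ^ 2 ≤ 2 * R ^ 2

/-! ## Gaussian widths -/

/-- Gaussian width (density proportional to `exp (-|x|^2)`) -/
noncomputable def gwid {d N : ℕ} (p : Fin N → E d) : ℝ :=
  (∫ x : E d, Real.exp (-‖x‖ ^ 2) * hs p x) / ∫ x : E d, Real.exp (-‖x‖ ^ 2)

/-- (helper43) Gaussian comparison between different dimensions. -/
def Gauss2Stmt : Prop :=
  ∀ (d m N : ℕ), 0 < N → ∀ (p : Fin N → E d) (q : Fin N → E m),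
    (∀ i j, dist (q i) (q j) ≤ dist (p i) (p j)) → ∀ (a : Fin N → ℝ) (s : ℝ), 0 < s →
    (∫ x, Real.exp (-s * gmax p a x)) * (∫ y : E m, Real.exp (-s * ‖y‖ ^ 2)) ≤
      (∫ y, Real.exp (-s * gmax q a y)) * ∫ x : E d, Real.exp (-s * ‖x‖ ^ 2)

/-- Monotonicity of the Gaussian width, as in MeanWidth.lean (`a = 0`, `s → 0`): after the
substitution `x = y/√s` both sides are divided by `(∫ exp (-|x|^2)) (∫ exp (-|y|^2))`. -/
def Width2Stmt : Prop :=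
  ∀ (d m N : ℕ), 0 < N → ∀ (p : Fin N → E d) (q : Fin N → E m),
    (∀ i j, dist (q i) (q j) ≤ dist (p i) (p j)) → gwid q ≤ gwid p

/-- `PolarStmt` (2) with `φ t = exp (-t^2)` for `F = hs p` and `F = norm`. -/
def HwGwidStmt : Prop :=
  ∀ (d N : ℕ), 0 < d → 0 < N → ∀ (p : Fin N → E d),
    hw p * ((∫ x : E d, Real.exp (-‖x‖ ^ 2) * ‖x‖) / ∫ x : E d, Real.exp (-‖x‖ ^ 2)) = gwid p

/-- Moments of the norm: `2 / √π` in dimension three, at most `√(d/2)` in general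
(Cauchy-Schwarz, `∫ exp (-|x|^2) |x|^2 = (d/2) ∫ exp (-|x|^2)`). -/
def NormMomentStmt : Prop :=
  ((∫ x : E 3, Real.exp (-‖x‖ ^ 2) * ‖x‖) / ∫ x : E 3, Real.exp (-‖x‖ ^ 2)) =
      2 / Real.sqrt Real.pi ∧
    ∀ d : ℕ, 0 < d → 0 < ((∫ x : E d, Real.exp (-‖x‖ ^ 2) * ‖x‖) /
        ∫ x : E d, Real.exp (-‖x‖ ^ 2)) ∧
      ((∫ x : E d, Real.exp (-‖x‖ ^ 2) * ‖x‖) / ∫ x : E d, Real.exp (-‖x‖ ^ 2)) ≤
        Real.sqrt ((d : ℝ) / 2)

/-- the vertices of the regular simplex with edge length one -/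
noncomputable def splx (N : ℕ) (i : Fin N) : E N := (Real.sqrt 2)⁻¹ • EuclideanSpace.single i (1 : ℝ)

/-- density of the normal distribution of variance `1/2` and its distribution function -/
noncomputable def rho (x : ℝ) : ℝ := Real.exp (-x ^ 2) / Real.sqrt Real.pi

/-- `∫_0^x rho` (odd; the distribution function is `1/2 + Psi`) -/
noncomputable def Psi (x : ℝ) : ℝ := ∫ t in (0 : ℝ)..x, rho t

/-- Width of the regular simplex: expected maximum of `N ≥ 2` independent variables with density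
`rho`, times `1/√2`. One way: `∫ max x_i = N ∫_{x_0 ≥ x_j} x_0 = N ∫ x rho(x) F(x)^(N-1) dx` by
symmetry and Fubini (ties have measure zero), `F = 1/2 + Psi`; then `rho' = -2 x rho` and partial
integration give `(N (N-1) / 2) ∫ rho^2 F^(N-2)`. -/
def SplxWidthStmt : Prop :=
  ∀ N : ℕ, 2 ≤ N → gwid (splx N) = (Real.sqrt 2)⁻¹ *
    (((N : ℝ) * ((N : ℝ) - 1) / 2) * ∫ x : ℝ, rho x ^ 2 * (1 / 2 + Psi x) ^ (N - 2))

/-- `K(a) = ∫ exp (-a x^2) Psi(x)^2 dx = √(π/a) arcsin (1/(1+a)) / (2 π)`. Proof: for `τ ≥ 0` let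
`H(τ) = ∫ exp (-a x^2) Psi(τ x)^2`; `H' = 2 ∫ x exp (-a x^2) Psi(τ x) rho(τ x)` and partial
integration (`x exp (-(a + τ^2) x^2)` has the primitive `- exp (..) / (2 (a + τ^2))`) gives
`H' = (τ / (a + τ^2)) (1/π) ∫ exp (-(a + 2 τ^2) x^2) = (τ/(a+τ^2)) √(π/(a+2τ^2)) / π`, which is the
derivative of `√(π/a) arcsin (τ^2/(a+τ^2)) / (2π)`; `H 0 = 0`. -/
def KintStmt : Prop :=
  ∀ a : ℝ, 0 < a → ∫ x : ℝ, Real.exp (-a * x ^ 2) * Psi x ^ 2 =
    Real.sqrt (Real.pi / a) * Real.arcsin (1 / (1 + a)) / (2 * Real.pi)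

/-- Seven variables. By `SplxWidthStmt`, `gwid (splx 7) = (√2)⁻¹ (21/π) ∫ exp (-2x^2) (1/2 + Psi)^5`
and, odd powers of `Psi` integrating to `0`, the integral is
`(1/32) √(π/2) + (5/4) K(2) + (5/2) ∫ exp (-2x^2) Psi^4`. With `λ = (1 - exp (-x^2))/4` and
`Psi^4 ≥ 2 λ Psi^2 - λ^2`:
`∫ exp (-2x^2) Psi^4 ≥ (K(2) - K(3))/2 - (√(π/2) - 2 √(π/3) + √(π/4))/16`. Numerically the lower
bound obtained for `gwid (splx 7)` is `0.67439`; `arcsin (1/3) ≥ 0.339`, `arcsin (1/4) ≤ 0.253`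
(`Real.sin_bound`) and crude bounds of `π` and the square roots suffice for `0.66923`. -/
def SevenStmt : Prop := 0.66923 ≤ gwid (splx 7)

/-- Many variables: for every `ε > 0` and all large `d`, if `N ≥ (√e + ε)^d` then
`gwid (splx N) ≥ √d / 2`. Direct proof without `SplxWidthStmt`: with `X_i` of density `rho`,
`gwid (splx N) = (1/√2) E max X_i`, `E max X_i ≥ t P(max X_i ≥ t) - E |X_1|
≥ t (1 - exp (-N q)) - 1`, `q = P(X_1 ≥ t)`; `t = (1+δ) √d/√2`, `q ≥ c exp (-t^2)/(t+1)`,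
`(√e + ε)^d q → ∞` for small `δ`. -/
def ManyStmt : Prop :=
  ∀ ε : ℝ, 0 < ε → ∃ d0 : ℕ, ∀ d N : ℕ, d0 ≤ d → (Real.sqrt (Real.exp 1) + ε) ^ d ≤ (N : ℝ) →
    Real.sqrt d / 2 ≤ gwid (splx N)

/-! ## Theorems -/

/-- Theorem 4 (helper43). -/
def Thm4Stmt : Prop :=
  (∀ (N : ℕ), 7 ≤ N → ∀ (p q : Fin N → E 3) (L : ℝ),
    (∀ i j, i ≠ j → dist (q i) (q j) ≤ L ∧ L ≤ dist (p i) (p j)) →
    ∀ r : ℝ, volume (body p r) ≤ volume (body q r)) ∧
  (∀ ε : ℝ, 0 < ε → ∃ d0 : ℕ, ∀ d N : ℕ, d0 ≤ d → (Real.sqrt (Real.exp 1) + ε) ^ d ≤ (N : ℝ) →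
    ∀ (p q : Fin N → E d) (L : ℝ),
    (∀ i j, i ≠ j → dist (q i) (q j) ≤ L ∧ L ≤ dist (p i) (p j)) →
    ∀ r : ℝ, volume (body p r) ≤ volume (body q r))

end Pool.Agent.Lib.MP_0c1c75_co
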