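import Pool.Agent.Lib.MP_0c1c75_co.Gauss
import Pool.Agent.Lib.MP_0c1c75_co.Spec3

/-!
MP_0c1c75_co, module Gauss2: Gaussian comparison between different dimensions.
-/

open MeasureTheory Set Metric

namespace Pool.Agent.Lib.MP_0c1c75_co.Gauss

variable {d m N : ℕ}

lemma factor_left [NeZero N] (c : Fin N → ℝ) (k b : ℝ) (p : Fin N → E d)
    (P : Fin N → WithLp 2 (E d × E m))
    (hP : ∀ (x : E d) (y : E m) (i : Fin N),
      ‖WithLp.toLp 2 (x, y) - P i‖ ^ 2 = ‖x - p i‖ ^ 2 + ‖y‖ ^ 2)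
    (hc : ∀ i, 0 < c i) :
    ∫ z, Sm c k (fun i => z - P i) ^ (-b) =
      (∫ x, Sm c k (fun i => x - p i) ^ (-b)) * ∫ y : E m, Real.exp (-(k * b) * ‖y‖ ^ 2) := by
  have h1 := (WithLp.volume_preserving_toLp (E d) (E m)).integral_comp
    (MeasurableEquiv.toLp 2 (E d × E m)).measurableEmbedding
    (fun z => Sm c k (fun i => z - P i) ^ (-b))
  rw [← h1]
  have h2 : ∀ z : E d × E m, Sm c k (fun i => WithLp.toLp 2 z - P i) ^ (-b) =
      Sm c k (fun i => z.1 - p i) ^ (-b) * Real.exp (-(k * b) * ‖z.2‖ ^ 2) := by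
    rintro ⟨x, y⟩
    have h3 : Sm c k (fun i => WithLp.toLp 2 (x, y) - P i) =
        Sm c k (fun i => x - p i) * Real.exp (k * ‖y‖ ^ 2) := by
      unfold Sm Wm
      rw [Finset.sum_mul]
      refine Finset.sum_congr rfl fun i _ => ?_
      rw [hP, mul_add, Real.exp_add]
      ring
    rw [h3, Real.mul_rpow (Sm_pos hc _).le (Real.exp_pos _).le, ← Real.exp_mul]
    congr 2
    ring
  simp_rw [h2]
  exact integral_prod_mul (fun x => Sm c k (fun i => x - p i) ^ (-b))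
    (fun y : E m => Real.exp (-(k * b) * ‖y‖ ^ 2))

lemma factor_right [NeZero N] (c : Fin N → ℝ) (k b : ℝ) (q : Fin N → E m)
    (P : Fin N → WithLp 2 (E d × E m))
    (hP : ∀ (x : E d) (y : E m) (i : Fin N),
      ‖WithLp.toLp 2 (x, y) - P i‖ ^ 2 = ‖x‖ ^ 2 + ‖y - q i‖ ^ 2)
    (hc : ∀ i, 0 < c i) :
    ∫ z, Sm c k (fun i => z - P i) ^ (-b) =
      (∫ x : E d, Real.exp (-(k * b) * ‖x‖ ^ 2)) * ∫ y, Sm c k (fun i => y - q i) ^ (-b) := by
  have h1 := (WithLp.volume_preserving_toLp (E d) (E m)).integral_comp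
    (MeasurableEquiv.toLp 2 (E d × E m)).measurableEmbedding
    (fun z => Sm c k (fun i => z - P i) ^ (-b))
  rw [← h1]
  have h2 : ∀ z : E d × E m, Sm c k (fun i => WithLp.toLp 2 z - P i) ^ (-b) =
      Real.exp (-(k * b) * ‖z.1‖ ^ 2) * Sm c k (fun i => z.2 - q i) ^ (-b) := by
    rintro ⟨x, y⟩
    have h3 : Sm c k (fun i => WithLp.toLp 2 (x, y) - P i) =
        Real.exp (k * ‖x‖ ^ 2) * Sm c k (fun i => y - q i) := by
      unfold Sm Wm
      rw [Finset.mul_sum]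
      refine Finset.sum_congr rfl fun i _ => ?_
      rw [hP, mul_add, Real.exp_add]
      ring
    rw [h3, Real.mul_rpow (Real.exp_pos _).le (Sm_pos hc _).le, ← Real.exp_mul]
    congr 2
    ring
  simp_rw [h2]
  exact integral_prod_mul (fun y : E d => Real.exp (-(k * b) * ‖y‖ ^ 2))
    (fun x => Sm c k (fun i => x - q i) ^ (-b))

lemma comparison2 [NeZero N] {c : Fin N → ℝ} {k b : ℝ} (hc : ∀ i, 0 < c i) (hb : 0 < b)
    (hk : 0 < k) (p : Fin N → E d) (q : Fin N → E m)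
    (h : ∀ i j, dist (q i) (q j) ≤ dist (p i) (p j)) :
    (∫ x, Sm c k (fun i => x - p i) ^ (-b)) * (∫ y : E m, Real.exp (-(k * b) * ‖y‖ ^ 2)) ≤
      (∫ y, Sm c k (fun i => y - q i) ^ (-b)) * ∫ x : E d, Real.exp (-(k * b) * ‖x‖ ^ 2) := by
  set A : Fin N → WithLp 2 (E d × E m) := fun i => WithLp.toLp 2 (p i, 0) with hA
  set B : Fin N → WithLp 2 (E d × E m) := fun i => WithLp.toLp 2 (0, q i) with hB
  have h0 : ∀ i j, inner ℝ (A i) (B j) = 0 := by
    intro i j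
    simp [hA, hB, WithLp.prod_inner_apply]
  have h1 : ∀ i j, ‖B i - B j‖ ≤ ‖A i - A j‖ := by
    intro i j
    have e1 : ‖B i - B j‖ = ‖q i - q j‖ := by
      rw [hB]
      have : WithLp.toLp 2 ((0 : E d), q i) - WithLp.toLp 2 (0, q j) =
        WithLp.toLp 2 (0, q i - q j) := by
        rw [← WithLp.toLp_sub]; simp
      simp only [this]
      have h5 := WithLp.prod_norm_sq_eq_of_L2 (WithLp.toLp 2 ((0 : E d), q i - q j))
      have h6 : ‖WithLp.toLp 2 ((0 : E d), q i - q j)‖ ^ 2 = ‖q i - q j‖ ^ 2 := by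
        rw [h5]; simp
      exact (pow_left_inj₀ (norm_nonneg _) (norm_nonneg _) two_ne_zero).mp h6
    have e2 : ‖A i - A j‖ = ‖p i - p j‖ := by
      rw [hA]
      have : WithLp.toLp 2 (p i, (0 : E m)) - WithLp.toLp 2 (p j, 0) =
        WithLp.toLp 2 (p i - p j, 0) := by
        rw [← WithLp.toLp_sub]; simp
      simp only [this]
      have h5 := WithLp.prod_norm_sq_eq_of_L2 (WithLp.toLp 2 (p i - p j, (0 : E m)))
      have h6 : ‖WithLp.toLp 2 (p i - p j, (0 : E m))‖ ^ 2 = ‖p i - p j‖ ^ 2 := by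
        rw [h5]; simp
      exact (pow_left_inj₀ (norm_nonneg _) (norm_nonneg _) two_ne_zero).mp h6
    rw [e1, e2]
    have := h i j
    rw [dist_eq_norm, dist_eq_norm] at this
    exact this
  have h2 := comparison hc hb hk A B h0 h1
  have hPA : ∀ (x : E d) (y : E m) (i : Fin N), ‖WithLp.toLp 2 (x, y) - A i‖ ^ 2 =
      ‖x - p i‖ ^ 2 + ‖y‖ ^ 2 := by
    intro x y i
    rw [hA, ← WithLp.toLp_sub, WithLp.prod_norm_sq_eq_of_L2]
    simp
  have hPB : ∀ (x : E d) (y : E m) (i : Fin N), ‖WithLp.toLp 2 (x, y) - B i‖ ^ 2 =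
      ‖x‖ ^ 2 + ‖y - q i‖ ^ 2 := by
    intro x y i
    rw [hB, ← WithLp.toLp_sub, WithLp.prod_norm_sq_eq_of_L2]
    simp
  rw [factor_left c k b p A hPA hc, factor_right c k b q B hPB hc] at h2
  rw [mul_comm (∫ y, Sm c k (fun i => y - q i) ^ (-b))]
  exact h2

lemma scaled_comparison2 [NeZero N] (p : Fin N → E d) (q : Fin N → E m)
    (h : ∀ i j, dist (q i) (q j) ≤ dist (p i) (p j)) (a : Fin N → ℝ)
    {s b : ℝ} (hs : 0 < s) (hb : 0 < b) :
    (N : ℝ) ^ (-b) * ((∫ x, Real.exp (-s * gmax p a x)) * ∫ y : E m, Real.exp (-s * ‖y‖ ^ 2)) ≤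
      (∫ x, Real.exp (-s * gmax q a x)) * ∫ x : E d, Real.exp (-s * ‖x‖ ^ 2) := by
  have hk : 0 < s / b := div_pos hs hb
  have hkb : s / b * b = s := div_mul_cancel₀ _ hb.ne'
  have hc : ∀ i : Fin N, 0 < Real.exp (-(s / b) * a i) := fun i => Real.exp_pos _
  have hmain := comparison2 hc hb hk p q h
  rw [hkb] at hmain
  have e1 : (N : ℝ) ^ (-b) * ∫ x, Real.exp (-s * gmax p a x) ≤
      ∫ x, Sm (fun i => Real.exp (-(s / b) * a i)) (s / b) (fun i => x - p i) ^ (-b) := by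
    rw [← integral_const_mul]
    refine integral_mono ((integrable_gmax p a hs).const_mul _)
      (integrable_Sm_rpow hc hb hk p) fun x => ?_
    have := (Sm_rpow_bounds hk hb p a x).1
    rw [hkb] at this
    exact this
  have e2 : ∫ x, Sm (fun i => Real.exp (-(s / b) * a i)) (s / b) (fun i => x - q i) ^ (-b) ≤
      ∫ x, Real.exp (-s * gmax q a x) := by
    refine integral_mono (integrable_Sm_rpow hc hb hk q) (integrable_gmax q a hs) fun x => ?_
    have := (Sm_rpow_bounds hk hb q a x).2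
    rw [hkb] at this
    exact this
  have n1 : 0 ≤ ∫ y : E m, Real.exp (-s * ‖y‖ ^ 2) := integral_nonneg fun y => (Real.exp_pos _).le
  have n2 : 0 ≤ ∫ y : E d, Real.exp (-s * ‖y‖ ^ 2) := integral_nonneg fun y => (Real.exp_pos _).le
  calc (N : ℝ) ^ (-b) * ((∫ x, Real.exp (-s * gmax p a x)) * ∫ y : E m, Real.exp (-s * ‖y‖ ^ 2))
      = ((N : ℝ) ^ (-b) * (∫ x, Real.exp (-s * gmax p a x))) *
          ∫ y : E m, Real.exp (-s * ‖y‖ ^ 2) := by ring
    _ ≤ (∫ x, Sm (fun i => Real.exp (-(s / b) * a i)) (s / b) (fun i => x - p i) ^ (-b)) *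
          ∫ y : E m, Real.exp (-s * ‖y‖ ^ 2) := mul_le_mul_of_nonneg_right e1 n1
    _ ≤ _ := hmain
    _ ≤ _ := mul_le_mul_of_nonneg_right e2 n2

end Pool.Agent.Lib.MP_0c1c75_co.Gauss

namespace Pool.Agent.Lib.MP_0c1c75_co

/-- Gaussian comparison between different dimensions. -/
theorem gauss2Stmt : Gauss2Stmt := by
  intro d m N hN p q h a s hs
  have : NeZero N := ⟨hN.ne'⟩
  have hN' : (0 : ℝ) < N := by exact_mod_cast hN
  set I : ℝ := (∫ x, Real.exp (-s * gmax p a x)) * ∫ y : E m, Real.exp (-s * ‖y‖ ^ 2) with hI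
  have h1 : Filter.Tendsto (fun b : ℝ => (N : ℝ) ^ (-b) * I)
      (nhdsWithin 0 (Ioi 0)) (nhds ((N : ℝ) ^ (-(0 : ℝ)) * I)) := by
    refine Filter.Tendsto.mono_left ?_ nhdsWithin_le_nhds
    refine Filter.Tendsto.mul_const _ ?_
    have h2 : Continuous fun b : ℝ => (N : ℝ) ^ (-b) :=
      Real.continuous_const_rpow hN'.ne' |>.comp continuous_neg
    exact h2.tendsto 0
  rw [neg_zero, Real.rpow_zero, one_mul] at h1
  refine le_of_tendsto h1 ?_
  filter_upwards [self_mem_nhdsWithin] with b hb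
  exact Gauss.scaled_comparison2 p q h a hs hb

end Pool.Agent.Lib.MP_0c1c75_co
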