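import Mathlib

/-!
MP_0c1c75_co (Kneser-Poulsen for intersections of balls). Definitions and the statements of all
modules, as Props; proofs in team-store `MP_0c1c75_h43.md` and in the docstrings.
-/

open MeasureTheory Set Metric
open scoped Pointwise

namespace Pool.Agent.Lib.MP_0c1c75_co

/-- Euclidean space -/
abbrev E (d : ℕ) : Type := EuclideanSpace ℝ (Fin d)

/-- `q` is a `c`-contraction of `p` -/
def Contr {d N : ℕ} (c : ℝ) (p q : Fin N → E d) : Prop :=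
  ∀ i j, dist (q i) (q j) ≤ c * dist (p i) (p j)

/-- intersection of the balls of radius `r` -/
def body {d N : ℕ} (p : Fin N → E d) (r : ℝ) : Set (E d) := ⋂ i, closedBall (p i) r

/-- `max_i (|x - p_i|^2 - a_i)` -/
noncomputable def gmax {d N : ℕ} (p : Fin N → E d) (a : Fin N → ℝ) (x : E d) : ℝ :=
  ⨆ i, (‖x - p i‖ ^ 2 - a i)

/-- volume radius -/
noncomputable def vr {d : ℕ} (K : Set (E d)) : ℝ :=
  ((volume K).toReal / (volume (ball (0 : E d) 1)).toReal) ^ ((1 : ℝ) / d)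

/-- support function of the points -/
noncomputable def hs {d N : ℕ} (p : Fin N → E d) (u : E d) : ℝ := ⨆ i, inner ℝ (p i) u

/-- half mean width: the average of the support function over the unit sphere, written as the
average over the unit ball of the function `x ↦ hs p (x / |x|)` -/
noncomputable def hw {d N : ℕ} (p : Fin N → E d) : ℝ :=
  ⨍ x in ball (0 : E d) 1, hs p (‖x‖⁻¹ • x)

/-! ## Module Gauss (helper43) -/

/-- Gaussian comparison. -/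
def GaussStmt : Prop :=
  ∀ (d N : ℕ), 0 < N → ∀ (p q : Fin N → E d), Contr 1 p q → ∀ (a : Fin N → ℝ) (s : ℝ), 0 < s →
    Integrable (fun x => Real.exp (-s * gmax p a x)) ∧
    ∫ x, Real.exp (-s * gmax p a x) ≤ ∫ x, Real.exp (-s * gmax q a x)

/-! ## Module BM -/

/-- (task BM) Brunn-Minkowski. Use the Prekopa-Leindler inequality with weights `1-t`, `t` (generalise
`Pool/Agent/Lib/MP_e6d203_pr/PL.lean`, which is the midpoint case) on `Fin d → ℝ`, transport it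
with `EuclideanSpace.volume_preserving_symm_measurableEquiv_toLp` (or similar), apply it to the
indicators of `A/a` and `B/b`, `a = vr A`, `b = vr B`, with weight `t b / ((1-t) a + t b)`.
If `a = 0` or `b = 0` use monotonicity (translate by one point) and scaling. -/
def BMStmt : Prop :=
  ∀ (d : ℕ), 0 < d → ∀ (A B : Set (E d)), IsCompact A → IsCompact B → A.Nonempty → B.Nonempty →
    ∀ t : ℝ, 0 ≤ t → t ≤ 1 → (1 - t) * vr A + t * vr B ≤ vr ((1 - t) • A + t • B)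

/-! ## Module VrBasic -/

/-- Elementary facts on the volume radius. -/
def VrBasicStmt : Prop :=
  ∀ (d : ℕ), 0 < d →
    (∀ A B : Set (E d), A ⊆ B → volume B ≠ ⊤ → vr A ≤ vr B) ∧
    (∀ (x : E d) (r : ℝ), 0 ≤ r → vr (closedBall x r) = r) ∧
    (∀ (c : ℝ) (A : Set (E d)), 0 ≤ c → vr (c • A) = c * vr A) ∧
    (∀ A : Set (E d), 0 ≤ vr A) ∧
    (∀ A : Set (E d), (volume A).toReal = (volume (ball (0 : E d) 1)).toReal * vr A ^ d) ∧
    (∀ (A : Set (E d)) (x : E d), vr ((fun y => x + y) '' A) = vr A)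

/-! ## Module Polar -/

/-- Polar coordinates: volume of star shaped sets, and integrals of products of a radial function
and a function of the direction. Use `MeasureTheory.Measure.measurePreserving_homeomorphUnitSphereProd`,
`Measure.toSphere`. -/
def PolarStmt : Prop :=
  ∀ (d : ℕ), 0 < d →
    (∀ F : E d → ℝ, Measurable F → (∀ x, 0 ≤ F x) → (∀ (c : ℝ) (x : E d), 0 < c → F (c • x) = F x) →
      volume {x : E d | ‖x‖ ≤ F x} = ∫⁻ x in ball (0 : E d) 1, ENNReal.ofReal (F x) ^ d) ∧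
    (∀ φ : ℝ → ℝ, Measurable φ → (∀ t, 0 ≤ φ t) →
      ∃ C : ℝ, 0 ≤ C ∧ ∀ F : E d → ℝ, Continuous F → (∀ (c : ℝ) (x : E d), 0 ≤ c →
        F (c • x) = c * F x) → Integrable (fun x : E d => φ ‖x‖ * ‖x‖) →
        ∫ x, φ ‖x‖ * F x = C * ∫ x in ball (0 : E d) 1, F (‖x‖⁻¹ • x))

/-! ## Module HwBasic -/

/-- Elementary facts on the half mean width (the average of `<v, x/|x|>` over the ball is `0` by
the symmetry `x ↦ -x`; `hs` is bounded by `max |p_i|` on unit vectors and continuous). -/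
def HwBasicStmt : Prop :=
  ∀ (d N : ℕ), 0 < d → 0 < N → ∀ (p : Fin N → E d),
    (∀ v : E d, hw (fun i => p i + v) = hw p) ∧ 0 ≤ hw p ∧
    (∀ c : ℝ, 0 ≤ c → hw (fun i => c • p i) = c * hw p) ∧
    (∀ (o : E d) (R : ℝ), (∀ i, ‖p i - o‖ ≤ R) → hw p ≤ R) ∧
    Continuous (hs p) ∧ (∀ (c : ℝ) (x : E d), 0 ≤ c → hs p (c • x) = c * hs p x) ∧
    IntegrableOn (fun x : E d => hs p (‖x‖⁻¹ • x)) (ball 0 1) ∧
    (⨍ x in ball (0 : E d) 1, hs p (-(‖x‖⁻¹ • x))) = hw p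

/-! ## Module Urysohn -/

/-- Urysohn's inequality for `K = body p r`, together with the width of `body p r`.
Proof: `K = body p r`, `hK(u) = sup_{x ∈ K} <x,u> ≤ r - hs p (-u)` for `|u| = 1`. With
`k = vr K`, for `0 < t < 1` the set `(1-t) B_k + t K` (volume radius `≥ k` by `BMStmt`) lies in
`{x : |x| ≤ (1-t) k + t (r - hs p (-x/|x|))}`; `PolarStmt` and `t → 0`. -/
def UrysohnStmt : Prop :=
  ∀ (d N : ℕ), 0 < d → 0 < N → ∀ (p : Fin N → E d) (r : ℝ), (body p r).Nonempty →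
    vr (body p r) ≤ r - hw p

/-! ## Module Radial -/

/-- Lower bound by the radial function and Jensen's inequality. -/
def RadialStmt : Prop :=
  ∀ (d N : ℕ), 0 < d → 0 < N → ∀ (p : Fin N → E d) (o : E d) (R r : ℝ), 0 ≤ R → R ≤ r →
    (∀ i, ‖p i - o‖ ≤ R) → Real.sqrt (r ^ 2 - R ^ 2) - hw p ≤ vr (body p r)

/-! ## Module Circum -/

/-- Circumscribed ball: maximise `∑ l_i |p_i|^2 - |∑ l_i p_i|^2` over the simplex. -/
def CircumStmt : Prop :=
  ∀ (d N : ℕ), 0 < N → ∀ (p : Fin N → E d), ∃ (l : Fin N → ℝ) (o : E d) (R : ℝ),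
    (∀ i, 0 ≤ l i) ∧ ∑ i, l i = 1 ∧ ∑ i, l i • p i = o ∧ 0 ≤ R ∧ (∀ i, ‖p i - o‖ ≤ R) ∧
    ∑ i, l i * ‖p i - o‖ ^ 2 = R ^ 2

/-- Consequences: with `(l, o, R)` as above, `body p r` lies in the ball of radius
`sqrt (r^2 - R^2)`, is empty for `r < R`; and the radius of a contraction. -/
def CircumAppStmt : Prop :=
  ∀ (d N : ℕ), 0 < N →
    (∀ (p : Fin N → E d) (l : Fin N → ℝ) (o : E d) (R : ℝ), (∀ i, 0 ≤ l i) → ∑ i, l i = 1 →
      ∑ i, l i • p i = o → 0 ≤ R → ∑ i, l i * ‖p i - o‖ ^ 2 = R ^ 2 →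
      (∀ r, R ≤ r → body p r ⊆ closedBall o (Real.sqrt (r ^ 2 - R ^ 2))) ∧
      (∀ r, r < R → body p r = ∅)) ∧
    (∀ (c : ℝ) (p q : Fin N → E d), 0 ≤ c → Contr c p q → ∀ (o o' : E d) (R R' : ℝ)
      (l : Fin N → ℝ), (∀ i, 0 ≤ l i) → ∑ i, l i = 1 → ∑ i, l i • q i = o' → 0 ≤ R' →
      ∑ i, l i * ‖q i - o'‖ ^ 2 = R' ^ 2 → 0 ≤ R → (∀ i, ‖p i - o‖ ≤ R) → R' ≤ c * R)

/-! ## Module MeanWidth -/

/-- Monotonicity of the mean width, from `GaussStmt` (`a = 0`, `s → 0`) and `PolarStmt`.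
`s^(d/2) ∫ exp (-s max |x - p_i|^2) dx = ∫ exp (-|y|^2 - max (-2 √s <y,p_i> + s |p_i|^2)) dy`;
subtract `∫ exp (-|y|^2)`, divide by `√s`, `s → 0`: the limit is `-2 ∫ exp (-|y|^2) hs p (-y)`. -/
def MeanWidthStmt : Prop :=
  ∀ (d N : ℕ), 0 < d → 0 < N → ∀ (p q : Fin N → E d), Contr 1 p q → hw q ≤ hw p

/-! ## Module Conc -/

/-- Concavity in the radius and in the level. -/
def ConcStmt : Prop :=
  ∀ (d N : ℕ), 0 < d → 0 < N → ∀ (p : Fin N → E d),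
    (∀ r r' t : ℝ, (body p r).Nonempty → (body p r').Nonempty → 0 ≤ t → t ≤ 1 →
      (1 - t) * vr (body p r) + t * vr (body p r') ≤ vr (body p ((1 - t) * r + t * r'))) ∧
    (∀ r e : ℝ, (body p r).Nonempty → 0 ≤ e → vr (body p r) + e ≤ vr (body p (r + e))) ∧
    (∀ (a : Fin N → ℝ) (x y t : ℝ), {z | gmax p a z ≤ x}.Nonempty → {z | gmax p a z ≤ y}.Nonempty →
      0 ≤ t → t ≤ 1 →
      (1 - t) * vr {z | gmax p a z ≤ x} + t * vr {z | gmax p a z ≤ y} ≤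
        vr {z | gmax p a z ≤ (1 - t) * x + t * y})

/-! ## Module Layer -/

/-- Layer cake formulas. -/
def LayerStmt : Prop :=
  ∀ (d N : ℕ), 0 < N → ∀ (p : Fin N → E d) (s : ℝ), 0 < s →
    (∀ a : Fin N → ℝ, ∫ x, Real.exp (-s * gmax p a x) =
      ∫ t, (volume {z : E d | gmax p a z ≤ t}).toReal * (s * Real.exp (-s * t))) ∧
    (∀ a : Fin N → ℝ, Integrable (fun t =>
      (volume {z : E d | gmax p a z ≤ t}).toReal * (s * Real.exp (-s * t)))) ∧
    ∫ x, Real.exp (-s * gmax p (fun _ => 0) x) =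
      ∫ r in Ioi (0 : ℝ), (volume (body p r)).toReal * (2 * s * r * Real.exp (-s * r ^ 2)) ∧
    IntegrableOn (fun r : ℝ => (volume (body p r)).toReal * (2 * s * r * Real.exp (-s * r ^ 2)))
      (Ioi 0)

/-! ## Theorem 2 -/

/-- Approximate Kneser-Poulsen inequality for arbitrary radii. From `GaussStmt`, `ConcStmt`,
`LayerStmt`, `VrBasicStmt`.
If `N = 0` or some `r i < 0` trivial. `a i = r i ^ 2`; the two intersections are
`{gmax p a ≤ 0}`, `{gmax q a ≤ 0}` (closed sets; compact, finite volume). `v t = vr {gmax q a ≤ t}`.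
For all `s > 0`: `volume {gmax p a ≤ 0} ≤ ∫ exp (-s gmax p a) ≤ ∫ exp (-s gmax q a)
= ∫ V t s exp (-s t)`, `V t = κ v t ^ d`.
Case `v 0 > 0`: `v` is concave on `{t : v t > 0}` (an up-set), so there is `θ` with
`v t ≤ v 0 (1 + θ t)` for all `t` with `v t > 0` (right slope at `0`; `θ > 0` because `v` is
unbounded, or because `v` vanishes somewhere). `s = d θ`: the right side is at most
`κ v 0 ^ d ∫_{-1/θ}^∞ (1 + θ t)^d s exp (-s t) = κ v 0 ^ d exp d d! / d^d` (Gamma function).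
Case `v 0 = 0`: `V t = 0` for `t < 0`, and `V t → 0` as `t → 0+` (continuity of measure), so the
right side tends to `0` as `s → ∞`; hence `volume {gmax p a ≤ 0} = 0`. -/
def Thm2Stmt : Prop :=
  ∀ (d N : ℕ), 0 < d → ∀ (p q : Fin N → E d), Contr 1 p q → ∀ r : Fin N → ℝ,
    volume (⋂ i, closedBall (p i) (r i)) ≤
      ENNReal.ofReal (Real.exp d * (d.factorial : ℝ) / (d : ℝ) ^ d) *
        volume (⋂ i, closedBall (q i) (r i))

/-! ## Theorem 1 -/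

/-- From Circum, CircumApp, Radial, Urysohn, MeanWidth, VrBasic, HwBasic (helper43). -/
def Thm1Stmt : Prop :=
  ∀ (d N : ℕ) (c : ℝ), 0 < d → 0 ≤ c → c ^ 2 + c ≤ 1 → ∀ (p q : Fin N → E d), Contr c p q →
    ∀ r : ℝ, volume (body p r) ≤ volume (body q r)

/-! ## Theorem 3 -/

/-- The real variable part of Theorem 3. `f r = vr (body p r)`, `g r = vr (body q' r)`, `p`, `q'`
in a ball of radius one. Fix `r ≥ C d^(1/4)`, suppose `γ = f r - g r > 0` (else trivial), write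
`f = f r`, `g = g r`, `s = d / (2 r f)`, `η = 16 / r^2`, `r' = r + y`.
(1) slopes: for `2 ≤ ρ` every slope of `f` or `g` to the right of `ρ` is at most `1 + 4 / ρ^2`
    (compare with the slope between `ρ / 2` and `ρ`: `2 - 2 √(1/4 - 1/ρ^2) ≤ 1 + 4/ρ^2`).
(2) `f r' ≥ f + y` for `y ≥ 0`; `f r' ≥ f + y - η |y|` for `-r/2 ≤ y ≤ 0`;
    `f r' ≥ f + y - 1 / r'` for `1 ≤ r' ≤ r/2` (from `√(r'^2-1) - B ≤ f r'` and `f ≤ r - B`).
(3) `g r' ≤ g + y + η y` for `y ≥ 0`; `g r' ≤ g + y` for `y ≤ 0` if `g r' > 0`.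
(4) `A y = (1 + y/f)_+^d (1 + y/r) exp (-s (2 r y + y^2)) ≤ exp (-d y^2/(2 r f) + y/r)` (as
    `log (1+x) ≤ x`), and `∫ A ≥ c r / √d`. So `∫ A |y| ≤ C (r/√d) ∫ A`.
(5) The comparison of the Laplace transforms, divided by the common factor, gives
    `∫ A (1 - η max (-y) 0 / (f+y))_+^d 1[y ≥ -r/2] + (part y < -r/2) ≤
      ∫ A (1 - (γ - η y_+)/(f+y))_+^d`; left side `≥ (1 - C √d η) ∫ A` (part `y < -r/2`: the
    integrand is at least `A y - (d/f^2) exp (-2 y / f - d y^2 / (2 r f)) * const`, which is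
    exponentially small times `1/r^2`), right side
    `≤ (1 - (1 - exp (-d γ / (2 f))) / 2 + C √d η) ∫ A` (split at `y = f`; `e^x ≤ 1 + x e^x` for the
    factor `exp (d η y_+/(f+y))`). Hence `d γ / f ≤ C √d / r^2`. Constants may be huge. -/
def RealStmt : Prop :=
  ∃ C : ℝ, 0 < C ∧ ∀ (d : ℕ) (f g : ℝ → ℝ) (B B' : ℝ), 2 ≤ d →
    (∀ h ∈ ({f, g} : Set (ℝ → ℝ)), (∀ r, 0 ≤ h r) ∧
      (∀ r r' t : ℝ, 1 ≤ r → 1 ≤ r' → 0 ≤ t → t ≤ 1 →
        (1 - t) * h r + t * h r' ≤ h ((1 - t) * r + t * r')) ∧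
      (∀ r e : ℝ, 1 ≤ r → 0 ≤ e → h r + e ≤ h (r + e))) →
    0 ≤ B → 0 ≤ B' → (∀ r, 0 ≤ r → f r ≤ r) → (∀ r, 1 ≤ r → f r ≤ r - B ∧ Real.sqrt (r ^ 2 - 1) - B ≤ f r) →
    (∀ r r' : ℝ, r ≤ r' → g r ≤ g r') →
    (∀ r, 1 ≤ r → g r ≤ r - B' ∧ Real.sqrt (r ^ 2 - 1) - B' ≤ g r) →
    (∀ r r' t : ℝ, 0 ≤ r → 0 < g r → 1 ≤ r' → 0 ≤ t → t ≤ 1 →
        (1 - t) * g r + t * g r' ≤ g ((1 - t) * r + t * r')) →
    (∀ s : ℝ, 0 < s → IntegrableOn (fun r => f r ^ d * (r * Real.exp (-s * r ^ 2))) (Ioi 0) ∧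
      IntegrableOn (fun r => g r ^ d * (r * Real.exp (-s * r ^ 2))) (Ioi 0) ∧
      ∫ r in Ioi (0 : ℝ), f r ^ d * (r * Real.exp (-s * r ^ 2)) ≤
        ∫ r in Ioi (0 : ℝ), g r ^ d * (r * Real.exp (-s * r ^ 2))) →
    ∀ r : ℝ, C * (d : ℝ) ^ ((1 : ℝ) / 4) ≤ r → r ^ 2 * (Real.sqrt d * (f r - g r)) ≤ C * f r

/-- From Thm2, Conc, Layer, Gauss, Radial, Urysohn, Circum, CircumApp, VrBasic, HwBasic, Real.
WLOG `c ≥ 1/2` and circumradius `R = 1` of `p` (scaling; `R = 0` trivial), `r ≥ 1`.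
`q' = q / c`, `f = vr (body p r)`, `g = vr (body q' r)`,
`vr (body q r) = c vr (body q' (r/c)) ≥ c g + (1-c) r`.
Regime 1 `r^2 ≤ (1-c) d / (2 log C_d)`: `f ≤ C_d^(1/d) g` by Thm2, `f ≤ √(r^2-1)`.
Regime 2 `r ≥ C d^(1/4)`: RealStmt, `r - f ≥ 1/(2r)`. The regimes overlap for large `d`. -/
def Thm3Stmt : Prop :=
  ∀ c : ℝ, 0 ≤ c → c < 1 → ∃ d0 : ℕ, ∀ (d N : ℕ), d0 ≤ d → ∀ (p q : Fin N → E d), Contr c p q →
    ∀ r : ℝ, volume (body p r) ≤ volume (body q r)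

end Pool.Agent.Lib.MP_0c1c75_co
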