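import Mathlib
import Pool.Agent.Lib.MP_0c1c75_co.Spec

/-! Elementary facts on the support function and its average. -/

open MeasureTheory Set Metric
open scoped Pointwise

namespace Pool.Agent.Lib.MP_0c1c75_co.HwBasic

theorem bdd {N : ℕ} (f : Fin N → ℝ) : BddAbove (Set.range f) := (Set.finite_range f).bddAbove

theorem integral_neg_ball {d : ℕ} (F : E d → ℝ) :
    ∫ x in ball (0 : E d) 1, F (-x) = ∫ x in ball (0 : E d) 1, F x := by
  have h := (Measure.measurePreserving_neg (volume : Measure (E d))).setIntegral_preimage_emb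
    (MeasurableEquiv.neg (E d)).measurableEmbedding F (ball (0 : E d) 1)
  have h1 : Neg.neg ⁻¹' (ball (0 : E d) 1) = ball (0 : E d) 1 := by
    ext x
    simp
  rw [h1] at h
  exact h

theorem average_neg_ball {d : ℕ} (F : E d → ℝ) :
    ⨍ x in ball (0 : E d) 1, F (-x) = ⨍ x in ball (0 : E d) 1, F x := by
  rw [setAverage_eq, setAverage_eq, integral_neg_ball]

theorem hs_le {d N : ℕ} (hN : 0 < N) (p : Fin N → E d) {u : E d} {R : ℝ}
    (h : ∀ i, inner ℝ (p i) u ≤ R) : hs p u ≤ R := by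
  have : Nonempty (Fin N) := ⟨⟨0, hN⟩⟩
  exact ciSup_le h

theorem le_hs {d N : ℕ} (p : Fin N → E d) (u : E d) (i : Fin N) : inner ℝ (p i) u ≤ hs p u :=
  le_ciSup (bdd fun i => inner ℝ (p i) u) i

theorem hs_add {d N : ℕ} (hN : 0 < N) (p : Fin N → E d) (v u : E d) :
    hs (fun i => p i + v) u = hs p u + inner ℝ v u := by
  apply le_antisymm
  · refine hs_le hN _ fun i => ?_
    rw [inner_add_left]
    linarith [le_hs p u i]
  · have : hs p u ≤ hs (fun i => p i + v) u - inner ℝ v u := by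
      refine hs_le hN _ fun i => ?_
      have h := le_hs (fun i => p i + v) u i
      rw [inner_add_left] at h
      linarith
    linarith

theorem hs_smul_left {d N : ℕ} (p : Fin N → E d) {c : ℝ} (hc : 0 ≤ c) (u : E d) :
    hs (fun i => c • p i) u = c * hs p u := by
  unfold hs
  rw [Real.mul_iSup_of_nonneg hc]
  congr 1
  funext i
  rw [real_inner_smul_left]

theorem hs_smul {d N : ℕ} (p : Fin N → E d) {c : ℝ} (hc : 0 ≤ c) (u : E d) :
    hs p (c • u) = c * hs p u := by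
  unfold hs
  rw [Real.mul_iSup_of_nonneg hc]
  congr 1
  funext i
  rw [real_inner_smul_right]

theorem hs_cont {d N : ℕ} (hN : 0 < N) (p : Fin N → E d) : Continuous (hs p) := by
  have : Nonempty (Fin N) := ⟨⟨0, hN⟩⟩
  have h1 : hs p = fun u => (Finset.univ : Finset (Fin N)).sup' Finset.univ_nonempty
      (fun i => inner ℝ (p i) u) := by
    funext u
    rw [Finset.sup'_univ_eq_ciSup]
    rfl
  rw [h1]
  exact Continuous.finset_sup'_apply _ fun i _ => continuous_const.inner continuous_id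

theorem norm_dir_le {d : ℕ} (x : E d) : ‖‖x‖⁻¹ • x‖ ≤ 1 := by
  rw [norm_smul, norm_inv, norm_norm]
  by_cases h : ‖x‖ = 0
  · rw [h]; simp
  · rw [inv_mul_cancel₀ h]

theorem abs_hs_le {d N : ℕ} (hN : 0 < N) (p : Fin N → E d) {u : E d} (hu : ‖u‖ ≤ 1) :
    |hs p u| ≤ ∑ i, ‖p i‖ := by
  have h1 : ∀ i, |inner ℝ (p i) u| ≤ ∑ i, ‖p i‖ := by
    intro i
    calc |inner ℝ (p i) u| ≤ ‖p i‖ * ‖u‖ := abs_real_inner_le_norm _ _
      _ ≤ ‖p i‖ * 1 := mul_le_mul_of_nonneg_left hu (norm_nonneg _)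
      _ = ‖p i‖ := mul_one _
      _ ≤ ∑ i, ‖p i‖ := Finset.single_le_sum (fun i _ => norm_nonneg (p i)) (Finset.mem_univ i)
  rw [abs_le]
  constructor
  · have h2 := le_hs p u ⟨0, hN⟩
    have h3 := (abs_le.mp (h1 ⟨0, hN⟩)).1
    linarith
  · exact hs_le hN p fun i => (abs_le.mp (h1 i)).2

theorem meas_dir {d : ℕ} : Measurable (fun x : E d => ‖x‖⁻¹ • x) :=
  (measurable_norm.inv).smul measurable_id

theorem integrableOn_of_le {d : ℕ} {F : E d → ℝ} (hF : Continuous F) {M : ℝ}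
    (hM : ∀ u : E d, ‖u‖ ≤ 1 → |F u| ≤ M) :
    IntegrableOn (fun x : E d => F (‖x‖⁻¹ • x)) (ball 0 1) := by
  refine Measure.integrableOn_of_bounded (M := M) measure_ball_lt_top.ne
    (hF.measurable.comp meas_dir).aestronglyMeasurable ?_
  exact Filter.Eventually.of_forall fun x => hM _ (norm_dir_le x)

theorem integrableOn_hs {d N : ℕ} (hN : 0 < N) (p : Fin N → E d) :
    IntegrableOn (fun x : E d => hs p (‖x‖⁻¹ • x)) (ball 0 1) :=
  integrableOn_of_le (hs_cont hN p) fun _ hu => abs_hs_le hN p hu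

theorem integrableOn_inner {d : ℕ} (v : E d) :
    IntegrableOn (fun x : E d => inner ℝ v (‖x‖⁻¹ • x)) (ball 0 1) :=
  integrableOn_of_le (F := fun u => inner ℝ v u) (continuous_const.inner continuous_id) (M := ‖v‖)
    fun u hu => (abs_real_inner_le_norm _ _).trans
      ((mul_le_mul_of_nonneg_left hu (norm_nonneg _)).trans_eq (mul_one _))

theorem dir_neg {d : ℕ} (x : E d) : ‖-x‖⁻¹ • (-x) = -(‖x‖⁻¹ • x) := by
  rw [norm_neg, smul_neg]

theorem average_inner {d : ℕ} (v : E d) :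
    ⨍ x in ball (0 : E d) 1, inner ℝ v (‖x‖⁻¹ • x) = 0 := by
  have h := average_neg_ball (fun x : E d => inner ℝ v (‖x‖⁻¹ • x))
  simp only [dir_neg, inner_neg_right] at h
  rw [average_neg] at h
  linarith

theorem average_hs_neg {d N : ℕ} (p : Fin N → E d) :
    (⨍ x in ball (0 : E d) 1, hs p (-(‖x‖⁻¹ • x))) = hw p := by
  have h := average_neg_ball (fun x : E d => hs p (‖x‖⁻¹ • x))
  simp only [dir_neg] at h
  exact h

theorem integrableOn_hs_neg {d N : ℕ} (hN : 0 < N) (p : Fin N → E d) :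
    IntegrableOn (fun x : E d => hs p (-(‖x‖⁻¹ • x))) (ball 0 1) :=
  integrableOn_of_le (F := fun u => hs p (-u)) ((hs_cont hN p).comp continuous_neg)
    fun u hu => abs_hs_le hN p (by rwa [norm_neg])

theorem average_add' {d : ℕ} {f g : E d → ℝ} (hf : IntegrableOn f (ball 0 1))
    (hg : IntegrableOn g (ball 0 1)) :
    ⨍ x in ball (0 : E d) 1, (f x + g x) =
      (⨍ x in ball (0 : E d) 1, f x) + ⨍ x in ball (0 : E d) 1, g x := by
  rw [setAverage_eq, setAverage_eq, setAverage_eq, integral_add hf hg, smul_add]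

theorem average_nonneg {d : ℕ} {f : E d → ℝ} (hf : ∀ x, 0 ≤ f x) :
    0 ≤ ⨍ x in ball (0 : E d) 1, f x := by
  rw [setAverage_eq]
  exact mul_nonneg (by positivity) (integral_nonneg hf)

theorem average_le {d : ℕ} {f : E d → ℝ} {R : ℝ} (hf : ∀ x, f x ≤ R)
    (hi : IntegrableOn f (ball 0 1)) : ⨍ x in ball (0 : E d) 1, f x ≤ R := by
  have h1 : ⨍ _ in ball (0 : E d) 1, R = R := by
    rw [setAverage_const (measure_ball_pos _ _ one_pos).ne' measure_ball_lt_top.ne]
  rw [← h1, setAverage_eq, setAverage_eq]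
  refine mul_le_mul_of_nonneg_left ?_ (by positivity)
  refine setIntegral_mono hi ?_ hf
  exact integrableOn_const measure_ball_lt_top.ne

theorem hw_add {d N : ℕ} (hN : 0 < N) (p : Fin N → E d) (v : E d) :
    hw (fun i => p i + v) = hw p := by
  unfold hw
  simp only [hs_add hN]
  rw [average_add' (integrableOn_hs hN p) (integrableOn_inner v), average_inner, add_zero]

theorem hw_nonneg {d N : ℕ} (hN : 0 < N) (p : Fin N → E d) : 0 ≤ hw p := by
  have h1 : 0 ≤ ⨍ x in ball (0 : E d) 1, (hs p (‖x‖⁻¹ • x) + hs p (-(‖x‖⁻¹ • x))) := by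
    refine average_nonneg fun x => ?_
    have h2 := le_hs p (‖x‖⁻¹ • x) ⟨0, hN⟩
    have h3 := le_hs p (-(‖x‖⁻¹ • x)) ⟨0, hN⟩
    rw [inner_neg_right] at h3
    linarith
  rw [average_add' (integrableOn_hs hN p) (integrableOn_hs_neg hN p), average_hs_neg] at h1
  have h4 : (⨍ x in ball (0 : E d) 1, hs p (‖x‖⁻¹ • x)) = hw p := rfl
  rw [h4] at h1
  linarith

theorem hw_smul {d N : ℕ} (p : Fin N → E d) {c : ℝ} (hc : 0 ≤ c) :
    hw (fun i => c • p i) = c * hw p := by
  unfold hw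
  simp only [hs_smul_left p hc]
  rw [setAverage_eq, setAverage_eq, integral_const_mul, smul_eq_mul, smul_eq_mul]
  ring

theorem hw_le {d N : ℕ} (hN : 0 < N) (p : Fin N → E d) (o : E d) (R : ℝ)
    (h : ∀ i, ‖p i - o‖ ≤ R) : hw p ≤ R := by
  rw [← hw_add hN p (-o)]
  refine average_le (fun x => ?_) (integrableOn_hs hN _)
  refine hs_le hN _ fun i => ?_
  have h1 := real_inner_le_norm (p i + -o) (‖x‖⁻¹ • x)
  have h2 := h i
  rw [sub_eq_add_neg] at h2
  calc inner ℝ (p i + -o) (‖x‖⁻¹ • x) ≤ ‖p i + -o‖ * ‖‖x‖⁻¹ • x‖ := h1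
    _ ≤ ‖p i + -o‖ * 1 := mul_le_mul_of_nonneg_left (norm_dir_le x) (norm_nonneg _)
    _ ≤ R := by rw [mul_one]; exact h2

end HwBasic

open HwBasic in
theorem hwBasicStmt : HwBasicStmt := by
  intro d N _ hN p
  exact ⟨fun v => hw_add hN p v, hw_nonneg hN p, fun c hc => hw_smul p hc,
    fun o R h => hw_le hN p o R h, hs_cont hN p, fun c x hc => hs_smul p hc x,
    integrableOn_hs hN p, average_hs_neg p⟩

end Pool.Agent.Lib.MP_0c1c75_co
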