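import Pool.Agent.Lib.MP_0c1c75_co.Spec3

/-! The Gaussian width is a multiple of the half mean width. -/

open MeasureTheory Set Metric

namespace Pool.Agent.Lib.MP_0c1c75_co

namespace HwGwid

theorem integrable_gauss {d : ℕ} {b : ℝ} (hb : 0 < b) :
    Integrable (fun x : E d => Real.exp (-b * ‖x‖ ^ 2)) := by
  have h := (GaussianFourier.integrable_cexp_neg_mul_sq_norm_add (b := (b : ℂ))
    (by simpa using hb) 0 (0 : E d)).norm
  refine h.congr (Filter.Eventually.of_forall fun x => ?_)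
  simp only [Complex.norm_exp]
  congr 1
  have : (-(b : ℂ) * (‖x‖ : ℂ) ^ 2 + 0 * (inner ℝ (0 : E d) x : ℝ)) =
      ((-b * ‖x‖ ^ 2 : ℝ) : ℂ) := by push_cast; ring
  rw [this, Complex.ofReal_re]

theorem integrable_gauss_norm {d : ℕ} :
    Integrable (fun x : E d => Real.exp (-‖x‖ ^ 2) * ‖x‖) := by
  have h1 : Integrable (fun x : E d => Real.exp (1 / 2) * Real.exp (-(1 / 2 : ℝ) * ‖x‖ ^ 2)) :=
    (integrable_gauss (by norm_num)).const_mul _
  refine h1.mono' (by fun_prop) (Filter.Eventually.of_forall fun x => ?_)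
  rw [norm_mul, norm_norm, Real.norm_eq_abs, abs_of_pos (Real.exp_pos _)]
  have h2 : ‖x‖ ≤ Real.exp ‖x‖ := by linarith [Real.add_one_le_exp ‖x‖]
  calc Real.exp (-‖x‖ ^ 2) * ‖x‖ ≤ Real.exp (-‖x‖ ^ 2) * Real.exp ‖x‖ :=
        mul_le_mul_of_nonneg_left h2 (Real.exp_pos _).le
    _ = Real.exp (-‖x‖ ^ 2 + ‖x‖) := by rw [Real.exp_add]
    _ ≤ Real.exp (1 / 2 + -(1 / 2 : ℝ) * ‖x‖ ^ 2) := by
        refine Real.exp_le_exp.2 ?_
        nlinarith [sq_nonneg (1 - ‖x‖)]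
    _ = Real.exp (1 / 2) * Real.exp (-(1 / 2 : ℝ) * ‖x‖ ^ 2) := by
        rw [Real.exp_add]

end HwGwid

open HwGwid in
theorem hwGwidStmt (hP : PolarStmt) (hH : HwBasicStmt) : HwGwidStmt := by
  intro d N hd hN p
  obtain ⟨-, -, -, -, hc, hh, -, -⟩ := hH d N hd hN p
  obtain ⟨C, hC, hCF⟩ := (hP d hd).2 (fun t => Real.exp (-t ^ 2)) (by fun_prop)
    (fun t => (Real.exp_pos _).le)
  have h1 := hCF (hs p) hc hh integrable_gauss_norm
  have h2 := hCF (fun x => ‖x‖) continuous_norm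
    (fun c x hc0 => by rw [norm_smul, Real.norm_eq_abs, abs_of_nonneg hc0]) integrable_gauss_norm
  have hd' : Nonempty (Fin d) := ⟨⟨0, hd⟩⟩
  have hnt : Nontrivial (E d) := by infer_instance
  have h3 : ∫ x in ball (0 : E d) 1, ‖(‖x‖⁻¹ • x)‖ = (volume (ball (0 : E d) 1)).toReal := by
    have h4 : ∫ x in ball (0 : E d) 1, ‖(‖x‖⁻¹ • x)‖ = ∫ x in ball (0 : E d) 1, (1 : ℝ) := by
      refine integral_congr_ae ?_
      have h5 : ∀ᵐ x ∂(volume : Measure (E d)), x ≠ 0 := by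
        rw [ae_iff]
        simp
      filter_upwards [ae_restrict_of_ae h5] with x hx
      rw [norm_smul, norm_inv, norm_norm, inv_mul_cancel₀ (norm_ne_zero_iff.2 hx)]
    rw [h4, setIntegral_const, smul_eq_mul, mul_one]
    rfl
  have hv : 0 < (volume (ball (0 : E d) 1)).toReal :=
    ENNReal.toReal_pos (measure_ball_pos _ _ one_pos).ne' measure_ball_lt_top.ne
  have h6 : hw p = (volume (ball (0 : E d) 1)).toReal⁻¹ *
      ∫ x in ball (0 : E d) 1, hs p (‖x‖⁻¹ • x) := by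
    unfold hw
    rw [setAverage_eq, smul_eq_mul]
    rfl
  unfold gwid
  rw [h1, h2, h3, h6]
  field_simp

end Pool.Agent.Lib.MP_0c1c75_co
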