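import Pool.Agent.Lib.MP_0c1c75_co.Spec3

/-!
MP_0c1c75_co, module Jung: Jung's theorem.
-/

namespace Pool.Agent.Lib.MP_0c1c75_co.Jung

open Pool.Agent.Lib.MP_0c1c75_co

/-- variance identity for pairs -/
lemma pair_identity {d : ℕ} {ι : Type*} [Fintype ι] (w : ι → ℝ) (v : ι → E d)
    (hw1 : ∑ i, w i = 1) (hv : ∑ i, w i • v i = 0) :
    ∑ i, ∑ j, w i * w j * ‖v i - v j‖ ^ 2 = 2 * ∑ i, w i * ‖v i‖ ^ 2 := by
  have h1 : ∀ i j, w i * w j * ‖v i - v j‖ ^ 2 =
      w i * ‖v i‖ ^ 2 * w j - 2 * (w i * inner ℝ (v i) (w j • v j)) +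
        w i * (w j * ‖v j‖ ^ 2) := by
    intro i j
    rw [norm_sub_sq_real, real_inner_smul_right]
    ring
  have h2 : ∀ i, ∑ j, w i * w j * ‖v i - v j‖ ^ 2 =
      w i * ‖v i‖ ^ 2 + w i * ∑ j, w j * ‖v j‖ ^ 2 := by
    intro i
    rw [Finset.sum_congr rfl (fun j _ => h1 i j), Finset.sum_add_distrib, Finset.sum_sub_distrib,
      ← Finset.mul_sum, hw1, ← Finset.mul_sum, ← Finset.mul_sum, ← inner_sum, hv,
      inner_zero_right, ← Finset.mul_sum]
    ring
  rw [Finset.sum_congr rfl (fun i _ => h2 i), Finset.sum_add_distrib, ← Finset.sum_mul, hw1]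
  ring

end Pool.Agent.Lib.MP_0c1c75_co.Jung

namespace Pool.Agent.Lib.MP_0c1c75_co

open Jung in
theorem jungStmt (hC : CircumStmt) : JungStmt := by
  intro d N hN q D hD
  obtain ⟨l, o, R, hl0, hl1, hlo, hR, hball, hsum⟩ := hC d N hN q
  refine ⟨o, R, hR, hball, ?_⟩
  have hD0 : 0 ≤ D := le_trans dist_nonneg (hD ⟨0, hN⟩ ⟨0, hN⟩)
  -- contact points
  have hcontact : ∀ i, 0 < l i → ‖q i - o‖ = R := by
    intro i hi
    have h1 : ∑ j, l j * (R ^ 2 - ‖q j - o‖ ^ 2) = 0 := by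
      have h2 : ∀ j, l j * (R ^ 2 - ‖q j - o‖ ^ 2) = l j * R ^ 2 - l j * ‖q j - o‖ ^ 2 :=
        fun j => by ring
      rw [Finset.sum_congr rfl (fun j _ => h2 j), Finset.sum_sub_distrib, ← Finset.sum_mul, hl1,
        hsum]
      ring
    have h3 : ∀ j ∈ Finset.univ, 0 ≤ l j * (R ^ 2 - ‖q j - o‖ ^ 2) := by
      intro j _
      refine mul_nonneg (hl0 j) ?_
      have := pow_le_pow_left₀ (norm_nonneg _) (hball j) 2
      linarith
    have h4 := (Finset.sum_eq_zero_iff_of_nonneg h3).1 h1 i (Finset.mem_univ i)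
    have h5 : R ^ 2 - ‖q i - o‖ ^ 2 = 0 := by
      rcases mul_eq_zero.1 h4 with h | h
      · exact absurd h hi.ne'
      · exact h
    have h6 : ‖q i - o‖ ^ 2 = R ^ 2 := by linarith
    exact (pow_left_inj₀ (norm_nonneg _) hR two_ne_zero).1 h6
  -- the convex hull
  set s : Set (E d) := {x | ∃ i, 0 < l i ∧ x = q i} with hs
  have ho : o ∈ convexHull ℝ s := by
    rw [← hlo]
    have h1 : ∑ i, l i • q i = ∑ i ∈ Finset.univ.filter (fun i => 0 < l i), l i • q i := by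
      symm
      apply Finset.sum_subset (Finset.filter_subset _ _)
      intro i _ hi
      have : l i = 0 := by
        by_contra hne
        exact hi (Finset.mem_filter.2 ⟨Finset.mem_univ i, lt_of_le_of_ne (hl0 i) (Ne.symm hne)⟩)
      rw [this, zero_smul]
    have h2 : ∑ i ∈ Finset.univ.filter (fun i => 0 < l i), l i = 1 := by
      rw [← hl1]
      apply Finset.sum_subset (Finset.filter_subset _ _)
      intro i _ hi
      by_contra hne
      exact hi (Finset.mem_filter.2 ⟨Finset.mem_univ i, lt_of_le_of_ne (hl0 i) (Ne.symm hne)⟩)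
    rw [h1]
    refine (convex_convexHull ℝ s).sum_mem (fun i _ => hl0 i) h2 ?_
    intro i hi
    exact subset_convexHull ℝ s ⟨i, (Finset.mem_filter.1 hi).2, rfl⟩
  obtain ⟨ι, _, z, w, hz, haff, hw0, hw1, hwz⟩ := eq_pos_convex_span_of_mem_convexHull ho
  -- number of points
  have hcard : Fintype.card ι ≤ d + 1 := by
    have h1 := haff.card_le_finrank_succ
    have h2 : Module.finrank ℝ (vectorSpan ℝ (Set.range z)) ≤ d := by
      have := Submodule.finrank_le (vectorSpan ℝ (Set.range z))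
      simpa using this
    omega
  have hne : Nonempty ι := by
    by_contra hne
    rw [not_nonempty_iff] at hne
    rw [Finset.univ_eq_empty, Finset.sum_empty] at hw1
    exact zero_ne_one hw1
  have hzR : ∀ i, ‖z i - o‖ = R := by
    intro i
    obtain ⟨j, hj, hj'⟩ := hz ⟨i, rfl⟩
    rw [hj']
    exact hcontact j hj
  have hzD : ∀ i j, ‖z i - z j‖ ^ 2 ≤ D ^ 2 := by
    intro i j
    obtain ⟨a, _, ha⟩ := hz ⟨i, rfl⟩
    obtain ⟨b, _, hb⟩ := hz ⟨j, rfl⟩
    rw [ha, hb, ← dist_eq_norm]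
    exact pow_le_pow_left₀ dist_nonneg (hD a b) 2
  have hv : ∑ i, w i • (z i - o) = 0 := by
    rw [Finset.sum_congr rfl (fun i _ => smul_sub (w i) (z i) o), Finset.sum_sub_distrib, hwz,
      ← Finset.sum_smul, hw1, one_smul, sub_self]
  have hid := pair_identity w (fun i => z i - o) hw1 hv
  have h2R : 2 * ∑ i, w i * ‖z i - o‖ ^ 2 = 2 * R ^ 2 := by
    rw [Finset.sum_congr rfl (fun i _ => by rw [hzR i]), ← Finset.sum_mul, hw1, one_mul]
  have hle : ∑ i, ∑ j, w i * w j * ‖(z i - o) - (z j - o)‖ ^ 2 ≤ D ^ 2 * (1 - ∑ i, w i ^ 2) := by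
    classical
    have h1 : ∀ i, ∑ j, w i * w j * ‖(z i - o) - (z j - o)‖ ^ 2 ≤ D ^ 2 * (w i - w i ^ 2) := by
      intro i
      have h2 : ∀ j ∈ Finset.univ, w i * w j * ‖(z i - o) - (z j - o)‖ ^ 2 ≤
          w i * w j * D ^ 2 - (if j = i then w i * w i * D ^ 2 else 0) := by
        intro j _
        by_cases hji : j = i
        · subst hji
          simp
        · rw [if_neg hji, sub_zero]
          have h3 : (z i - o) - (z j - o) = z i - z j := by abel
          rw [h3]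
          exact mul_le_mul_of_nonneg_left (hzD i j) (mul_nonneg (hw0 i).le (hw0 j).le)
      refine (Finset.sum_le_sum h2).trans (le_of_eq ?_)
      rw [Finset.sum_sub_distrib, ← Finset.sum_mul, ← Finset.mul_sum, hw1,
        Finset.sum_ite_eq' Finset.univ i]
      simp only [Finset.mem_univ, if_true]
      ring
    refine (Finset.sum_le_sum (fun i _ => h1 i)).trans (le_of_eq ?_)
    rw [← Finset.mul_sum, Finset.sum_sub_distrib, hw1]
  have hcs : 1 ≤ ((d : ℝ) + 1) * ∑ i, w i ^ 2 := by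
    have h1 := sq_sum_le_card_mul_sum_sq (s := (Finset.univ : Finset ι)) (f := w)
    rw [hw1, Finset.card_univ] at h1
    have h2 : ((Fintype.card ι : ℕ) : ℝ) ≤ (d : ℝ) + 1 := by exact_mod_cast hcard
    have h3 : (0 : ℝ) ≤ ∑ i, w i ^ 2 := Finset.sum_nonneg (fun i _ => sq_nonneg _)
    calc (1 : ℝ) = 1 ^ 2 := by norm_num
      _ ≤ (Fintype.card ι : ℝ) * ∑ i, w i ^ 2 := h1
      _ ≤ ((d : ℝ) + 1) * ∑ i, w i ^ 2 := mul_le_mul_of_nonneg_right h2 h3
  have hd1 : (0 : ℝ) < (d : ℝ) + 1 := by positivity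
  have hfin : 2 * R ^ 2 ≤ D ^ 2 * (1 - ∑ i, w i ^ 2) := by
    rw [← h2R, ← hid]; exact hle
  have hS : 1 / ((d : ℝ) + 1) ≤ ∑ i, w i ^ 2 := by
    rw [div_le_iff₀ hd1]
    linarith
  have h7 : D ^ 2 * (1 - ∑ i, w i ^ 2) ≤ D ^ 2 * (1 - 1 / ((d : ℝ) + 1)) :=
    mul_le_mul_of_nonneg_left (by linarith) (sq_nonneg D)
  have h8 : (d : ℝ) / (2 * ((d : ℝ) + 1)) * D ^ 2 = D ^ 2 * (1 - 1 / ((d : ℝ) + 1)) / 2 := by
    field_simp
    ring
  rw [h8]
  linarith

end Pool.Agent.Lib.MP_0c1c75_co
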