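import Pool.Agent.Lib.MP_0c1c75_co.Spec3

open MeasureTheory Set Metric

namespace Pool.Agent.Lib.MP_0c1c75_co

namespace Kint

theorem rho_cont : Continuous rho := by
  unfold rho
  fun_prop

theorem sp_pos : 0 < Real.sqrt Real.pi := Real.sqrt_pos.2 Real.pi_pos

theorem psi_deriv (x : ℝ) : HasDerivAt Psi (rho x) x :=
  (rho_cont.integral_hasStrictDerivAt 0 x).hasDerivAt

theorem psi_cont : Continuous Psi :=
  continuous_iff_continuousAt.2 fun x => (psi_deriv x).continuousAt

theorem rho_nonneg (x : ℝ) : 0 ≤ rho x := by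
  unfold rho
  have := sp_pos
  positivity

theorem rho_le (x : ℝ) : rho x ≤ 1 / Real.sqrt Real.pi := by
  unfold rho
  have h := sp_pos
  have h1 : Real.exp (-x ^ 2) ≤ 1 := by
    rw [Real.exp_le_one_iff]
    nlinarith [sq_nonneg x]
  gcongr

theorem psi_abs_le (x : ℝ) : |Psi x| ≤ 1 / Real.sqrt Real.pi * |x| := by
  unfold Psi
  have h := intervalIntegral.norm_integral_le_of_norm_le_const (a := 0) (b := x) (f := rho)
    (C := 1 / Real.sqrt Real.pi) (by
      intro t _
      rw [Real.norm_eq_abs, abs_of_nonneg (rho_nonneg t)]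
      exact rho_le t)
  simpa using h

theorem int_sq (a : ℝ) (ha : 0 < a) : Integrable (fun x : ℝ => x ^ 2 * Real.exp (-a * x ^ 2)) := by
  have h := integrable_rpow_mul_exp_neg_mul_sq ha (s := 2) (by norm_num)
  refine h.congr (Filter.Eventually.of_forall fun x => ?_)
  simp only [Real.rpow_two]

/-- the parametric integral -/
noncomputable def H (a τ : ℝ) : ℝ := ∫ x : ℝ, Real.exp (-a * x ^ 2) * Psi (τ * x) ^ 2

/-- the primitive -/
noncomputable def G (a τ : ℝ) : ℝ :=
  Real.sqrt (Real.pi / a) * Real.arcsin (τ ^ 2 / (a + τ ^ 2)) / (2 * Real.pi)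

theorem H_deriv (a : ℝ) (ha : 0 < a) (τ : ℝ) :
    HasDerivAt (H a) (∫ x : ℝ, Real.exp (-a * x ^ 2) * (2 * Psi (τ * x) * (rho (τ * x) * x))) τ := by
  set c : ℝ := 1 / Real.sqrt Real.pi with hc
  have hc0 : 0 < c := by have := sp_pos; positivity
  have hF : ∀ t x : ℝ, HasDerivAt (fun s : ℝ => Real.exp (-a * x ^ 2) * Psi (s * x) ^ 2)
      (Real.exp (-a * x ^ 2) * (2 * Psi (t * x) * (rho (t * x) * x))) t := by
    intro t x
    have h1 : HasDerivAt (fun s : ℝ => s * x) x t := by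
      simpa using (hasDerivAt_id t).mul_const x
    have h2 : HasDerivAt (fun s : ℝ => Psi (s * x)) (rho (t * x) * x) t :=
      HasDerivAt.comp (h₂ := Psi) (h := fun s : ℝ => s * x) t (psi_deriv (t * x)) h1
    have h3 := (h2.pow 2).const_mul (Real.exp (-a * x ^ 2))
    exact h3.congr_deriv (by norm_num)
  refine (hasDerivAt_integral_of_dominated_loc_of_deriv_le (μ := volume)
    (F := fun t x => Real.exp (-a * x ^ 2) * Psi (t * x) ^ 2)
    (F' := fun t x => Real.exp (-a * x ^ 2) * (2 * Psi (t * x) * (rho (t * x) * x)))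
    (bound := fun x => (2 * c ^ 2 * (|τ| + 1)) * (x ^ 2 * Real.exp (-a * x ^ 2)))
    (s := Metric.ball τ 1) (Metric.ball_mem_nhds τ one_pos) ?_ ?_ ?_ ?_ ?_ ?_).2
  · refine Filter.Eventually.of_forall fun t => ?_
    have := psi_cont
    exact (by fun_prop : Continuous fun x => Real.exp (-a * x ^ 2) * Psi (t * x) ^ 2).aestronglyMeasurable
  · have hb : Integrable (fun x : ℝ => (c ^ 2 * |τ| ^ 2) * (x ^ 2 * Real.exp (-a * x ^ 2))) :=
      (int_sq a ha).const_mul _
    refine hb.mono' ?_ (Filter.Eventually.of_forall fun x => ?_)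
    · have := psi_cont
      exact (by fun_prop : Continuous fun x => Real.exp (-a * x ^ 2) * Psi (τ * x) ^ 2).aestronglyMeasurable
    · have h1 := psi_abs_le (τ * x)
      rw [Real.norm_eq_abs, abs_mul, abs_of_pos (Real.exp_pos _), abs_pow]
      have h2 : |Psi (τ * x)| ^ 2 ≤ (c * |τ * x|) ^ 2 := pow_le_pow_left₀ (abs_nonneg _) h1 2
      have h3 : (c * |τ * x|) ^ 2 = c ^ 2 * |τ| ^ 2 * x ^ 2 := by
        rw [abs_mul, ← sq_abs x]; ring
      rw [h3] at h2
      have h4 := Real.exp_pos (-a * x ^ 2)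
      nlinarith
  · have := psi_cont
    have := rho_cont
    exact (by fun_prop : Continuous fun x =>
      Real.exp (-a * x ^ 2) * (2 * Psi (τ * x) * (rho (τ * x) * x))).aestronglyMeasurable
  · refine Filter.Eventually.of_forall fun x t ht => ?_
    have h1 := psi_abs_le (t * x)
    have h0 : |t| ≤ |τ| + 1 := by
      rw [Metric.mem_ball, Real.dist_eq] at ht
      have : |t| ≤ |t - τ| + |τ| := by
        have := abs_add_le (t - τ) τ
        simpa using this
      linarith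
    have h2 : |rho (t * x)| ≤ c := by
      rw [abs_of_nonneg (rho_nonneg _)]; exact rho_le _
    have h4 := Real.exp_pos (-a * x ^ 2)
    rw [Real.norm_eq_abs, abs_mul, abs_of_pos h4, abs_mul, abs_mul, abs_mul]
    rw [abs_mul t x] at h1
    have h5 : |(2:ℝ)| * |Psi (t * x)| * (|rho (t * x)| * |x|) ≤
        2 * (c * ((|τ| + 1) * |x|)) * (c * |x|) := by
      rw [abs_two]
      gcongr
      exact h1.trans (by gcongr)
    have h6 : 2 * (c * ((|τ| + 1) * |x|)) * (c * |x|) = 2 * c ^ 2 * (|τ| + 1) * x ^ 2 := by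
      rw [← sq_abs x]; ring
    rw [h6] at h5
    calc Real.exp (-a * x ^ 2) * (|(2:ℝ)| * |Psi (t * x)| * (|rho (t * x)| * |x|))
        ≤ Real.exp (-a * x ^ 2) * (2 * c ^ 2 * (|τ| + 1) * x ^ 2) := by gcongr
      _ = 2 * c ^ 2 * (|τ| + 1) * (x ^ 2 * Real.exp (-a * x ^ 2)) := by ring
  · exact (int_sq a ha).const_mul _
  · exact Filter.Eventually.of_forall fun x t _ => hF t x

theorem H_deriv_value (a : ℝ) (ha : 0 < a) (τ : ℝ) :
    (∫ x : ℝ, Real.exp (-a * x ^ 2) * (2 * Psi (τ * x) * (rho (τ * x) * x))) =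
      τ / (Real.pi * (a + τ ^ 2)) * Real.sqrt (Real.pi / (a + 2 * τ ^ 2)) := by
  have hb : 0 < a + τ ^ 2 := by positivity
  have hb2 : 0 < a + 2 * τ ^ 2 := by positivity
  have hs := sp_pos
  have hss : Real.sqrt Real.pi * Real.sqrt Real.pi = Real.pi := Real.mul_self_sqrt Real.pi_pos.le
  set b := a + τ ^ 2 with hbdef
  -- integration by parts
  have hu : ∀ x : ℝ, HasDerivAt (fun x => Psi (τ * x)) (rho (τ * x) * τ) x := by
    intro x
    have h1 : HasDerivAt (fun s : ℝ => τ * s) τ x := by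
      simpa using (hasDerivAt_id x).const_mul τ
    exact HasDerivAt.comp (h₂ := Psi) (h := fun s : ℝ => τ * s) x (psi_deriv (τ * x)) h1
  have hv : ∀ x : ℝ, HasDerivAt (fun x => -(Real.exp (-b * x ^ 2) / (2 * b)))
      (x * Real.exp (-b * x ^ 2)) x := by
    intro x
    have h1 : HasDerivAt (fun x : ℝ => -b * x ^ 2) (-b * (2 * x)) x := by
      have := (hasDerivAt_pow 2 x).const_mul (-b)
      simpa using this
    have h2 := ((h1.exp).div_const (2 * b)).neg
    exact h2.congr_deriv (by field_simp)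
  have hpsic := psi_cont
  have hrhoc := rho_cont
  have i1 : Integrable (fun x : ℝ => Psi (τ * x) * (x * Real.exp (-b * x ^ 2))) := by
    have hbd : Integrable (fun x : ℝ => (1 / Real.sqrt Real.pi * |τ|) *
        (x ^ 2 * Real.exp (-b * x ^ 2))) := (int_sq b hb).const_mul _
    refine hbd.mono' (by fun_prop : Continuous fun x : ℝ =>
      Psi (τ * x) * (x * Real.exp (-b * x ^ 2))).aestronglyMeasurable
      (Filter.Eventually.of_forall fun x => ?_)
    have h1 := psi_abs_le (τ * x)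
    have h4 := Real.exp_pos (-b * x ^ 2)
    rw [Real.norm_eq_abs, abs_mul, abs_mul, abs_of_pos h4]
    rw [abs_mul τ x] at h1
    calc |Psi (τ * x)| * (|x| * Real.exp (-b * x ^ 2))
        ≤ (1 / Real.sqrt Real.pi * (|τ| * |x|)) * (|x| * Real.exp (-b * x ^ 2)) := by gcongr
      _ = (1 / Real.sqrt Real.pi * |τ|) * (|x| ^ 2 * Real.exp (-b * x ^ 2)) := by ring
      _ = _ := by rw [sq_abs]
  have hgauss : Integrable (fun x : ℝ => Real.exp (-b * x ^ 2)) := integrable_exp_neg_mul_sq hb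
  have i2 : Integrable (fun x : ℝ => rho (τ * x) * τ * (-(Real.exp (-b * x ^ 2) / (2 * b)))) := by
    have hbd : Integrable (fun x : ℝ => (1 / Real.sqrt Real.pi * |τ| * (1 / (2 * b))) *
        Real.exp (-b * x ^ 2)) := hgauss.const_mul _
    refine hbd.mono' (by fun_prop : Continuous fun x : ℝ =>
      rho (τ * x) * τ * (-(Real.exp (-b * x ^ 2) / (2 * b)))).aestronglyMeasurable
      (Filter.Eventually.of_forall fun x => ?_)
    have h1 := rho_le (τ * x)
    have h0 := rho_nonneg (τ * x)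
    have h4 := Real.exp_pos (-b * x ^ 2)
    rw [Real.norm_eq_abs, abs_mul, abs_mul, abs_neg, abs_of_nonneg h0, abs_of_pos (by positivity :
      0 < Real.exp (-b * x ^ 2) / (2 * b))]
    calc rho (τ * x) * |τ| * (Real.exp (-b * x ^ 2) / (2 * b))
        ≤ (1 / Real.sqrt Real.pi) * |τ| * (Real.exp (-b * x ^ 2) / (2 * b)) := by gcongr
      _ = _ := by ring
  have i3 : Integrable (fun x : ℝ => Psi (τ * x) * (-(Real.exp (-b * x ^ 2) / (2 * b)))) := by
    have h1' : Integrable (fun x : ℝ => (1 / Real.sqrt Real.pi * |τ| * (1 / (2 * b))) *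
        (|x| * Real.exp (-b * x ^ 2))) := by
      refine Integrable.const_mul ?_ _
      have := (integrable_mul_exp_neg_mul_sq hb).abs
      refine this.congr (Filter.Eventually.of_forall fun x => ?_)
      show |x * Real.exp (-b * x ^ 2)| = _
      rw [abs_mul, abs_of_pos (Real.exp_pos _)]
    refine h1'.mono' (by fun_prop : Continuous fun x : ℝ =>
      Psi (τ * x) * (-(Real.exp (-b * x ^ 2) / (2 * b)))).aestronglyMeasurable
      (Filter.Eventually.of_forall fun x => ?_)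
    have h1 := psi_abs_le (τ * x)
    have h4 := Real.exp_pos (-b * x ^ 2)
    rw [Real.norm_eq_abs, abs_mul, abs_neg, abs_of_pos (by positivity :
      0 < Real.exp (-b * x ^ 2) / (2 * b))]
    rw [abs_mul τ x] at h1
    calc |Psi (τ * x)| * (Real.exp (-b * x ^ 2) / (2 * b))
        ≤ (1 / Real.sqrt Real.pi * (|τ| * |x|)) * (Real.exp (-b * x ^ 2) / (2 * b)) := by gcongr
      _ = _ := by ring
  have hibp := integral_mul_deriv_eq_deriv_mul_of_integrable
    (u := fun x => Psi (τ * x)) (v := fun x => -(Real.exp (-b * x ^ 2) / (2 * b)))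
    (u' := fun x => rho (τ * x) * τ) (v' := fun x => x * Real.exp (-b * x ^ 2))
    (fun x _ => hu x) (fun x _ => hv x) i1 i2 i3
  have e1 : (∫ x : ℝ, Real.exp (-a * x ^ 2) * (2 * Psi (τ * x) * (rho (τ * x) * x))) =
      2 / Real.sqrt Real.pi * ∫ x : ℝ, Psi (τ * x) * (x * Real.exp (-b * x ^ 2)) := by
    rw [← integral_const_mul]
    congr 1
    ext x
    have : Real.exp (-b * x ^ 2) = Real.exp (-a * x ^ 2) * Real.exp (-(τ * x) ^ 2) := by
      rw [← Real.exp_add]; congr 1; rw [hbdef]; ring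
    rw [this]
    unfold rho
    field_simp
  have e2 : (∫ x : ℝ, rho (τ * x) * τ * (-(Real.exp (-b * x ^ 2) / (2 * b)))) =
      -(τ / (2 * b * Real.sqrt Real.pi)) * Real.sqrt (Real.pi / (a + 2 * τ ^ 2)) := by
    rw [← integral_gaussian, ← integral_const_mul]
    congr 1
    ext x
    have : Real.exp (-(a + 2 * τ ^ 2) * x ^ 2) =
        Real.exp (-b * x ^ 2) * Real.exp (-(τ * x) ^ 2) := by
      rw [← Real.exp_add]; congr 1; rw [hbdef]; ring
    rw [this]
    unfold rho
    field_simp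
  rw [e1, hibp, e2]
  have : (2 : ℝ) / Real.sqrt Real.pi * -(-(τ / (2 * b * Real.sqrt Real.pi)) *
      Real.sqrt (Real.pi / (a + 2 * τ ^ 2))) =
      τ / ((Real.sqrt Real.pi * Real.sqrt Real.pi) * b) *
      Real.sqrt (Real.pi / (a + 2 * τ ^ 2)) := by
    field_simp
  rw [this, hss]

theorem G_deriv (a : ℝ) (ha : 0 < a) (τ : ℝ) :
    HasDerivAt (G a) (τ / (Real.pi * (a + τ ^ 2)) * Real.sqrt (Real.pi / (a + 2 * τ ^ 2))) τ := by
  have hb : 0 < a + τ ^ 2 := by positivity
  have hb2 : 0 < a + 2 * τ ^ 2 := by positivity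
  have hy0 : 0 ≤ τ ^ 2 / (a + τ ^ 2) := by positivity
  have hy1 : τ ^ 2 / (a + τ ^ 2) < 1 := by
    rw [div_lt_one hb]; linarith
  have h1 : HasDerivAt (fun t : ℝ => t ^ 2) (2 * τ) τ := by
    have := hasDerivAt_pow 2 τ
    simpa using this
  have h2 : HasDerivAt (fun t : ℝ => a + t ^ 2) (2 * τ) τ := by
    simpa using h1.const_add a
  have h3 := h1.div h2 hb.ne'
  have h4 : HasDerivAt (fun t : ℝ => Real.arcsin (t ^ 2 / (a + t ^ 2)))
      (1 / Real.sqrt (1 - (τ ^ 2 / (a + τ ^ 2)) ^ 2) *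
        ((2 * τ * (a + τ ^ 2) - τ ^ 2 * (2 * τ)) / (a + τ ^ 2) ^ 2)) τ :=
    HasDerivAt.comp (h₂ := Real.arcsin) (h := fun t : ℝ => t ^ 2 / (a + t ^ 2)) τ
      (Real.hasDerivAt_arcsin (by linarith) hy1.ne) h3
  have h5 := (h4.const_mul (Real.sqrt (Real.pi / a))).div_const (2 * Real.pi)
  refine HasDerivAt.congr_deriv (f := G a) h5 ?_
  have e1 : 1 - (τ ^ 2 / (a + τ ^ 2)) ^ 2 = (a * (a + 2 * τ ^ 2)) / (a + τ ^ 2) ^ 2 := by
    field_simp; ring
  have e2 : Real.sqrt (1 - (τ ^ 2 / (a + τ ^ 2)) ^ 2) =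
      Real.sqrt a * Real.sqrt (a + 2 * τ ^ 2) / (a + τ ^ 2) := by
    rw [e1, Real.sqrt_div (by positivity), Real.sqrt_mul ha.le, Real.sqrt_sq hb.le]
  rw [e2, Real.sqrt_div Real.pi_pos.le, Real.sqrt_div Real.pi_pos.le]
  have hsa : 0 < Real.sqrt a := Real.sqrt_pos.2 ha
  have hsb : 0 < Real.sqrt (a + 2 * τ ^ 2) := Real.sqrt_pos.2 hb2
  have hsa2 : Real.sqrt a ^ 2 = a := Real.sq_sqrt ha.le
  have hpi := Real.pi_pos
  have e3 : 2 * τ * (a + τ ^ 2) - τ ^ 2 * (2 * τ) = 2 * τ * Real.sqrt a ^ 2 := by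
    rw [hsa2]; ring
  rw [e3]
  generalize Real.sqrt a = sa at hsa
  generalize Real.sqrt (a + 2 * τ ^ 2) = sb at hsb
  field_simp

theorem H_eq_G (a : ℝ) (ha : 0 < a) : H a 1 = G a 1 := by
  have hd : ∀ τ, HasDerivAt (fun t => H a t - G a t) 0 τ := by
    intro τ
    have h1 := H_deriv a ha τ
    rw [H_deriv_value a ha τ] at h1
    have h2 := h1.sub (G_deriv a ha τ)
    exact h2.congr_deriv (by simp)
  have h1 := is_const_of_deriv_eq_zero (f := fun t => H a t - G a t)
    (fun τ => (hd τ).differentiableAt) (fun τ => (hd τ).deriv) 1 0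
  have hH0 : H a 0 = 0 := by
    unfold H
    have : ∀ x : ℝ, Real.exp (-a * x ^ 2) * Psi (0 * x) ^ 2 = 0 := by
      intro x
      unfold Psi
      simp
    simp only [this, integral_zero]
  have hG0 : G a 0 = 0 := by
    unfold G
    simp
  simp only [hH0, hG0, sub_zero] at h1
  linarith

end Kint

theorem kintStmt : KintStmt := by
  intro a ha
  have h := Kint.H_eq_G a ha
  unfold Kint.H Kint.G at h
  simp only [one_mul, one_pow] at h
  rw [h, add_comm a 1]

end Pool.Agent.Lib.MP_0c1c75_co
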