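import Mathlib
import Pool.Agent.Lib.MP_0c1c75_co.Spec3

/-! Expected maximum of exponentially many variables. -/

open MeasureTheory Set Metric Filter

namespace Pool.Agent.Lib.MP_0c1c75_co.Many

/-- the Gaussian function -/
noncomputable def g (x : ℝ) : ℝ := Real.exp (-x ^ 2)

theorem g_pos (x : ℝ) : 0 < g x := Real.exp_pos _

theorem g_int : Integrable g := by
  have h := integrable_exp_neg_mul_sq (b := 1) one_pos
  refine h.congr ?_
  filter_upwards with x
  simp [g]

theorem g_integral : ∫ x, g x = Real.sqrt Real.pi := by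
  have h := integral_gaussian 1
  simpa [g] using h

theorem absg_int : Integrable (fun x : ℝ => |x| * g x) := by
  have h := (integrable_mul_exp_neg_mul_sq (b := 1) one_pos).abs
  refine h.congr ?_
  filter_upwards with x
  rw [abs_mul, abs_of_pos (Real.exp_pos _)]
  simp [g]

/-- truncated function -/
noncomputable def gt (t x : ℝ) : ℝ := if x < t then g x else 0

theorem gt_eq (t : ℝ) : gt t = (Iio t).indicator g := by
  funext x
  simp only [gt, Set.indicator, mem_Iio]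

theorem gt_int (t : ℝ) : Integrable (gt t) := by
  rw [gt_eq]
  exact g_int.indicator measurableSet_Iio

theorem gt_nonneg (t x : ℝ) : 0 ≤ gt t x := by
  unfold gt
  split_ifs
  · exact (g_pos x).le
  · exact le_refl _

theorem gt_integral_le (t : ℝ) (ht : 0 ≤ t) :
    ∫ x, gt t x ≤ Real.sqrt Real.pi - Real.exp (-(t + 1) ^ 2) := by
  have h1 : ∫ x, (Icc t (t + 1)).indicator (fun _ => Real.exp (-(t + 1) ^ 2)) x =
      Real.exp (-(t + 1) ^ 2) := by
    rw [integral_indicator measurableSet_Icc, setIntegral_const]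
    simp [Measure.real, Real.volume_Icc]
  have hint1 : Integrable ((Icc t (t + 1)).indicator (fun _ => Real.exp (-(t + 1) ^ 2))) := by
    rw [integrable_indicator_iff measurableSet_Icc]
    exact integrableOn_const (by simp [Real.volume_Icc])
  have h2 : ∫ x, (gt t x + (Icc t (t + 1)).indicator (fun _ => Real.exp (-(t + 1) ^ 2)) x) ≤
      ∫ x, g x := by
    refine integral_mono ((gt_int t).add hint1) g_int ?_
    intro x
    simp only [gt, Set.indicator, mem_Icc]
    split_ifs with ha hb hb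
    · linarith [hb.1]
    · simp
    · rw [zero_add]
      unfold g
      apply Real.exp_le_exp.2
      have : 0 ≤ x := le_trans ht hb.1
      nlinarith [hb.2]
    · simpa using (g_pos x).le
  rw [integral_add (gt_int t) hint1, h1, g_integral] at h2
  linarith

theorem prod_g {N : ℕ} (x : Fin N → ℝ) : ∏ i, g (x i) = Real.exp (-∑ i, x i ^ 2) := by
  unfold g
  rw [← Real.exp_sum]
  congr 1
  rw [Finset.sum_neg_distrib]

theorem prod_g_pos {N : ℕ} (x : Fin N → ℝ) : 0 < ∏ i, g (x i) := by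
  rw [prod_g]; exact Real.exp_pos _

theorem bdd {N : ℕ} (f : Fin N → ℝ) : BddAbove (Set.range f) := (Set.finite_range f).bddAbove

/-- the functions used for the first moment -/
noncomputable def fm {N : ℕ} (i0 i : Fin N) (x : ℝ) : ℝ := if i = i0 then |x| * g x else g x

theorem fm_int {N : ℕ} (i0 i : Fin N) : Integrable (fm i0 i) := by
  unfold fm
  by_cases h : i = i0
  · simpa [h] using absg_int
  · simpa [h] using g_int

theorem prod_fm {N : ℕ} (i0 : Fin N) (x : Fin N → ℝ) :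
    ∏ i, fm i0 i (x i) = |x i0| * ∏ i, g (x i) := by
  unfold fm
  have : ∀ i, (if i = i0 then |x i| * g (x i) else g (x i)) =
      (if i = i0 then |x i| else 1) * g (x i) := by
    intro i
    split_ifs <;> simp
  rw [Finset.prod_congr rfl (fun i _ => this i), Finset.prod_mul_distrib,
    Finset.prod_ite_eq' Finset.univ i0 (fun i => |x i|)]
  simp

theorem prod_fm_int {N : ℕ} (i0 : Fin N) :
    Integrable (fun x : Fin N → ℝ => ∏ i, fm i0 i (x i)) :=
  Integrable.fintype_prod (f := fun i => fm i0 i) (fun i => fm_int i0 i)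

theorem prod_fm_integral {N : ℕ} (i0 : Fin N) :
    ∫ x : Fin N → ℝ, ∏ i, fm i0 i (x i) =
      (∫ x : ℝ, |x| * g x) * Real.sqrt Real.pi ^ (N - 1) := by
  rw [integral_fintype_prod_volume_eq_prod (fun i => fm i0 i)]
  have : ∀ i, ∫ x, fm i0 i x = if i = i0 then (∫ x : ℝ, |x| * g x) else Real.sqrt Real.pi := by
    intro i
    unfold fm
    by_cases h : i = i0
    · simp [h]
    · simp [h, g_integral]
  rw [Finset.prod_congr rfl (fun i _ => this i)]
  rw [← Finset.mul_prod_erase Finset.univ _ (Finset.mem_univ i0)]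
  rw [if_pos rfl]
  congr 1
  rw [Finset.prod_congr rfl (g := fun _ => Real.sqrt Real.pi)]
  · rw [Finset.prod_const, Finset.card_erase_of_mem (Finset.mem_univ _), Finset.card_univ,
      Fintype.card_fin]
  · intro i hi
    rw [if_neg (Finset.ne_of_mem_erase hi)]

theorem meas_sup {N : ℕ} : Measurable (fun x : Fin N → ℝ => ⨆ i, x i) :=
  Measurable.iSup (fun i => measurable_pi_apply i)

theorem g_meas : Measurable g := by
  unfold g
  fun_prop

theorem int_max {N : ℕ} (hN : 0 < N) :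
    Integrable (fun x : Fin N → ℝ => (∏ i, g (x i)) * ⨆ i, x i) := by
  have : Nonempty (Fin N) := ⟨⟨0, hN⟩⟩
  have h : Integrable (fun x : Fin N → ℝ => ∑ i0, ∏ i, fm i0 i (x i)) :=
    integrable_finsetSum _ (fun i0 _ => prod_fm_int i0)
  refine h.mono' ?_ ?_
  · refine Measurable.aestronglyMeasurable ?_
    refine Measurable.mul ?_ meas_sup
    exact Finset.measurable_prod _ (fun i _ => g_meas.comp (measurable_pi_apply i))
  · filter_upwards with x
    rw [Real.norm_eq_abs, abs_mul, abs_of_pos (prod_g_pos x)]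
    have : |⨆ i, x i| ≤ ∑ i, |x i| := by
      rw [abs_le]
      constructor
      · have i0 : Fin N := ⟨0, hN⟩
        have h1 : x i0 ≤ ⨆ i, x i := le_ciSup (bdd x) i0
        have h2 : |x i0| ≤ ∑ i, |x i| :=
          Finset.single_le_sum (f := fun i => |x i|) (fun i _ => abs_nonneg _) (Finset.mem_univ i0)
        linarith [neg_abs_le (x i0)]
      · refine ciSup_le (fun i0 => ?_)
        have h2 : |x i0| ≤ ∑ i, |x i| :=
          Finset.single_le_sum (f := fun i => |x i|) (fun i _ => abs_nonneg _) (Finset.mem_univ i0)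
        linarith [le_abs_self (x i0)]
    calc (∏ i, g (x i)) * |⨆ i, x i| ≤ (∏ i, g (x i)) * ∑ i, |x i| :=
          mul_le_mul_of_nonneg_left this (prod_g_pos x).le
      _ = ∑ i0, ∏ i, fm i0 i (x i) := by
          rw [Finset.mul_sum]
          refine Finset.sum_congr rfl (fun i0 _ => ?_)
          rw [prod_fm, mul_comm]

theorem key {N : ℕ} (hN : 0 < N) (t : ℝ) (ht : 0 ≤ t) :
    t * (Real.sqrt Real.pi ^ N - (Real.sqrt Real.pi - Real.exp (-(t + 1) ^ 2)) ^ N)
        - (∫ x : ℝ, |x| * g x) * Real.sqrt Real.pi ^ (N - 1) ≤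
      ∫ x : Fin N → ℝ, (∏ i, g (x i)) * ⨆ i, x i := by
  have i0 : Fin N := ⟨0, hN⟩
  have : Nonempty (Fin N) := ⟨i0⟩
  have hG : Integrable (fun x : Fin N → ℝ => ∏ i, g (x i)) :=
    Integrable.fintype_prod (f := fun _ => g) (fun i => g_int)
  have hGI : ∫ x : Fin N → ℝ, ∏ i, g (x i) = Real.sqrt Real.pi ^ N := by
    rw [integral_fintype_prod_volume_eq_pow g, g_integral, Fintype.card_fin]
  have hT : Integrable (fun x : Fin N → ℝ => ∏ i, gt t (x i)) :=
    Integrable.fintype_prod (f := fun _ => gt t) (fun i => gt_int t)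
  have hTI : ∫ x : Fin N → ℝ, ∏ i, gt t (x i) ≤
      (Real.sqrt Real.pi - Real.exp (-(t + 1) ^ 2)) ^ N := by
    rw [integral_fintype_prod_volume_eq_pow (gt t), Fintype.card_fin]
    exact pow_le_pow_left₀ (integral_nonneg (gt_nonneg t)) (gt_integral_le t ht) N
  have h1 : ∫ x : Fin N → ℝ, (t * ((∏ i, g (x i)) - ∏ i, gt t (x i)) - ∏ i, fm i0 i (x i)) ≤
      ∫ x : Fin N → ℝ, (∏ i, g (x i)) * ⨆ i, x i := by
    refine integral_mono (((hG.sub hT).const_mul t).sub (prod_fm_int i0)) (int_max hN) ?_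
    intro x
    simp only
    rw [prod_fm]
    have hGp := prod_g_pos x
    have hi0 : x i0 ≤ ⨆ i, x i := le_ciSup (bdd x) i0
    have ha := neg_abs_le (x i0)
    have hab := abs_nonneg (x i0)
    by_cases hx : ∃ i, t ≤ x i
    · obtain ⟨i, hi⟩ := hx
      have h0 : ∏ i, gt t (x i) = 0 := by
        apply Finset.prod_eq_zero (Finset.mem_univ i)
        unfold gt
        rw [if_neg (not_lt.2 hi)]
      have hs : t ≤ ⨆ i, x i := hi.trans (le_ciSup (bdd x) i)
      rw [h0, sub_zero]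
      have : t * ∏ i, g (x i) ≤ (∏ i, g (x i)) * ⨆ i, x i := by
        rw [mul_comm]
        exact mul_le_mul_of_nonneg_left hs hGp.le
      have h3 : 0 ≤ |x i0| * ∏ i, g (x i) := mul_nonneg hab hGp.le
      linarith
    · push Not at hx
      have h0 : ∏ i, gt t (x i) = ∏ i, g (x i) := by
        refine Finset.prod_congr rfl (fun i _ => ?_)
        unfold gt
        rw [if_pos (hx i)]
      rw [h0, sub_self, mul_zero, zero_sub]
      have : (∏ i, g (x i)) * (-|x i0|) ≤ (∏ i, g (x i)) * ⨆ i, x i :=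
        mul_le_mul_of_nonneg_left (ha.trans hi0) hGp.le
      linarith
  have h1a : ∫ x : Fin N → ℝ, (t * ((∏ i, g (x i)) - ∏ i, gt t (x i)) - ∏ i, fm i0 i (x i)) =
      (∫ x : Fin N → ℝ, t * ((∏ i, g (x i)) - ∏ i, gt t (x i))) -
        ∫ x : Fin N → ℝ, ∏ i, fm i0 i (x i) :=
    integral_sub ((hG.sub hT).const_mul t) (prod_fm_int i0)
  rw [h1a, prod_fm_integral, integral_const_mul, integral_sub hG hT, hGI] at h1
  have h2 : t * (∫ x : Fin N → ℝ, ∏ i, gt t (x i)) ≤
      t * (Real.sqrt Real.pi - Real.exp (-(t + 1) ^ 2)) ^ N :=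
    mul_le_mul_of_nonneg_left hTI ht
  nlinarith

theorem hs_splx {N : ℕ} (x : E N) : hs (splx N) x = (Real.sqrt 2)⁻¹ * ⨆ i, x i := by
  unfold hs splx
  rw [Real.mul_iSup_of_nonneg (by positivity)]
  congr 1
  funext i
  rw [real_inner_smul_left, EuclideanSpace.inner_single_left]
  simp

theorem norm_exp {N : ℕ} (x : E N) : Real.exp (-‖x‖ ^ 2) = ∏ i, g (x i) := by
  rw [prod_g, EuclideanSpace.norm_sq_eq]
  simp

theorem gwid_splx (N : ℕ) : gwid (splx N) =
    (Real.sqrt 2)⁻¹ * ((∫ x : Fin N → ℝ, (∏ i, g (x i)) * ⨆ i, x i) / Real.sqrt Real.pi ^ N) := by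
  unfold gwid
  have h1 : ∫ x : E N, Real.exp (-‖x‖ ^ 2) * hs (splx N) x =
      (Real.sqrt 2)⁻¹ * ∫ x : Fin N → ℝ, (∏ i, g (x i)) * ⨆ i, x i := by
    rw [← (EuclideanSpace.volume_preserving_symm_measurableEquiv_toLp (Fin N)).symm.integral_comp
      (MeasurableEquiv.measurableEmbedding _), ← integral_const_mul]
    refine integral_congr_ae ?_
    filter_upwards with x
    rw [norm_exp, hs_splx]
    simp
    ring
  have h2 : ∫ x : E N, Real.exp (-‖x‖ ^ 2) = Real.sqrt Real.pi ^ N := by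
    rw [← (EuclideanSpace.volume_preserving_symm_measurableEquiv_toLp (Fin N)).symm.integral_comp
      (MeasurableEquiv.measurableEmbedding _)]
    have : ∫ x : Fin N → ℝ, ∏ i, g (x i) = Real.sqrt Real.pi ^ N := by
      rw [integral_fintype_prod_volume_eq_pow g, g_integral, Fintype.card_fin]
    rw [← this]
    refine integral_congr_ae ?_
    filter_upwards with x
    rw [norm_exp]
    simp
  rw [h1, h2]
  ring

/-- Lower bound for the width. -/
theorem gwid_lower {N : ℕ} (hN : 0 < N) (t : ℝ) (ht : 0 ≤ t) :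
    (Real.sqrt 2)⁻¹ * (t * (1 - Real.exp (-(N * (Real.exp (-(t + 1) ^ 2) / Real.sqrt Real.pi))))
      - (∫ x : ℝ, |x| * g x) / Real.sqrt Real.pi) ≤ gwid (splx N) := by
  rw [gwid_splx]
  refine mul_le_mul_of_nonneg_left ?_ (by positivity)
  have hpi : 0 < Real.sqrt Real.pi := Real.sqrt_pos.2 Real.pi_pos
  have hp : 0 < Real.sqrt Real.pi ^ N := pow_pos hpi N
  rw [le_div_iff₀ hp]
  refine le_trans ?_ (key hN t ht)
  have hq0 : 0 ≤ Real.sqrt Real.pi - Real.exp (-(t + 1) ^ 2) :=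
    le_trans (integral_nonneg (gt_nonneg t)) (gt_integral_le t ht)
  set q : ℝ := Real.exp (-(t + 1) ^ 2) / Real.sqrt Real.pi with hq
  have h1 : Real.sqrt Real.pi - Real.exp (-(t + 1) ^ 2) = Real.sqrt Real.pi * (1 - q) := by
    rw [hq]; field_simp
  have h1q : 0 ≤ 1 - q := by
    rw [h1] at hq0
    exact nonneg_of_mul_nonneg_right hq0 hpi
  have h2 : (1 - q) ^ N ≤ Real.exp (-(N * q)) := by
    have h3 : 1 - q ≤ Real.exp (-q) := Real.one_sub_le_exp_neg q
    calc (1 - q) ^ N ≤ Real.exp (-q) ^ N := pow_le_pow_left₀ h1q h3 N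
      _ = Real.exp (-(N * q)) := by
        rw [← Real.exp_nat_mul]; congr 1; ring
  rw [h1, mul_pow]
  have h4 : Real.sqrt Real.pi ^ N = Real.sqrt Real.pi ^ (N - 1) * Real.sqrt Real.pi := by
    rw [← pow_succ]; congr 1; omega
  have h5 : t * Real.sqrt Real.pi ^ N * (1 - q) ^ N ≤
      t * Real.sqrt Real.pi ^ N * Real.exp (-(N * q)) :=
    mul_le_mul_of_nonneg_left h2 (mul_nonneg ht hp.le)
  have h6 : (∫ x : ℝ, |x| * g x) / Real.sqrt Real.pi * Real.sqrt Real.pi ^ N =
      (∫ x : ℝ, |x| * g x) * Real.sqrt Real.pi ^ (N - 1) := by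
    rw [h4]; field_simp
  nlinarith

theorem sqrt_tendsto : Tendsto (fun d : ℕ => Real.sqrt (d : ℝ)) atTop atTop :=
  Real.tendsto_sqrt_atTop.comp tendsto_natCast_atTop_atTop

theorem expo_tendsto (η : ℝ) (hη : 0 < η) :
    Tendsto (fun d : ℕ => Real.exp ((d : ℝ) * (η / 2) - 2 * Real.sqrt 2 * Real.sqrt d - 1) /
      Real.sqrt Real.pi) atTop atTop := by
  have hpi : 0 < Real.sqrt Real.pi := Real.sqrt_pos.2 Real.pi_pos
  refine Tendsto.atTop_div_const hpi (Real.tendsto_exp_atTop.comp ?_)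
  have h1 : Tendsto (fun d : ℕ => Real.sqrt (d : ℝ) * (η / 2) - 2 * Real.sqrt 2) atTop atTop :=
    tendsto_atTop_add_const_right _ _ (sqrt_tendsto.atTop_mul_const (by positivity))
  have h2 : Tendsto (fun d : ℕ => Real.sqrt (d : ℝ) *
      (Real.sqrt (d : ℝ) * (η / 2) - 2 * Real.sqrt 2) + (-1)) atTop atTop :=
    tendsto_atTop_add_const_right _ _ (sqrt_tendsto.atTop_mul_atTop₀ h1)
  refine h2.congr (fun d => ?_)
  have h3 : Real.sqrt (d : ℝ) * Real.sqrt (d : ℝ) = d := Real.mul_self_sqrt (Nat.cast_nonneg d)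
  have h4 : Real.sqrt (d : ℝ) * (Real.sqrt (d : ℝ) * (η / 2) - 2 * Real.sqrt 2) + (-1) =
    (Real.sqrt (d : ℝ) * Real.sqrt (d : ℝ)) * (η / 2) - 2 * Real.sqrt 2 * Real.sqrt d - 1 := by ring
  rw [h4, h3]

end Pool.Agent.Lib.MP_0c1c75_co.Many

namespace Pool.Agent.Lib.MP_0c1c75_co

open Many in
theorem manyStmt : ManyStmt := by
  intro ε hε
  have hpi : 0 < Real.sqrt Real.pi := Real.sqrt_pos.2 Real.pi_pos
  have he : Real.sqrt (Real.exp 1) = Real.exp (1 / 2) := by
    rw [Real.sqrt_eq_iff_mul_self_eq (Real.exp_pos _).le (Real.exp_pos _).le, ← Real.exp_add]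
    norm_num
  have hpos : 0 < Real.sqrt (Real.exp 1) + ε := by positivity
  obtain ⟨η, hη⟩ : ∃ η, η = Real.log (Real.sqrt (Real.exp 1) + ε) - 1 / 2 := ⟨_, rfl⟩
  have hη0 : 0 < η := by
    rw [hη, sub_pos, Real.lt_log_iff_exp_lt hpos, he]
    linarith
  have hbase : Real.sqrt (Real.exp 1) + ε = Real.exp (1 / 2 + η) := by
    rw [hη, add_sub_cancel, Real.exp_log hpos]
  obtain ⟨δ, hδ⟩ : ∃ δ, δ = min 1 (η / 3) := ⟨_, rfl⟩
  have hδ0 : 0 < δ := by rw [hδ]; exact lt_min one_pos (by positivity)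
  have hδ1 : δ ≤ 1 := by rw [hδ]; exact min_le_left _ _
  have hδ2 : 3 * δ ≤ η := by
    have : δ ≤ η / 3 := by rw [hδ]; exact min_le_right _ _
    linarith
  obtain ⟨c1, hc1⟩ : ∃ c1, c1 = (∫ x : ℝ, |x| * g x) / Real.sqrt Real.pi := ⟨_, rfl⟩
  have hc1' : 0 ≤ c1 := by
    rw [hc1]
    exact div_nonneg (integral_nonneg (fun x => mul_nonneg (abs_nonneg x) (g_pos x).le)) hpi.le
  have E1 : ∀ᶠ d : ℕ in atTop, Real.exp (-(Real.exp ((d : ℝ) * (η / 2) -
      2 * Real.sqrt 2 * Real.sqrt d - 1) / Real.sqrt Real.pi)) ≤ δ / 4 := by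
    have h1 := (Real.tendsto_exp_neg_atTop_nhds_zero.comp (expo_tendsto η hη0))
    exact h1.eventually (eventually_le_nhds (by positivity))
  have E2 : ∀ᶠ d : ℕ in atTop, 4 / δ * c1 ≤ Real.sqrt d := sqrt_tendsto.eventually_ge_atTop _
  obtain ⟨d0, hd0⟩ := eventually_atTop.1 (E1.and E2)
  refine ⟨max d0 1, ?_⟩
  intro d N hd hN
  obtain ⟨e1, e2⟩ := hd0 d (le_trans (le_max_left _ _) hd)
  have hN0 : 0 < N := by
    have : (0 : ℝ) < N := lt_of_lt_of_le (pow_pos hpos d) hN
    exact_mod_cast this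
  set s : ℝ := Real.sqrt d with hs
  have hs0 : 0 ≤ s := Real.sqrt_nonneg _
  have hss : s * s = d := Real.mul_self_sqrt (Nat.cast_nonneg d)
  have h2 : Real.sqrt 2 * Real.sqrt 2 = 2 := Real.mul_self_sqrt (by norm_num)
  have h2p : 0 < Real.sqrt 2 := Real.sqrt_pos.2 (by norm_num)
  set r : ℝ := Real.sqrt 2 with hr
  -- t = (1 + δ) s / r
  set t : ℝ := (1 + δ) * s / r with ht
  have ht0 : 0 ≤ t := by positivity
  have htr : t * r = (1 + δ) * s := by rw [ht]; field_simp
  have htt : t * t = (1 + δ) ^ 2 * d / 2 := by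
    have h7 : t * t * (r * r) = (1 + δ) ^ 2 * (s * s) := by
      calc t * t * (r * r) = (t * r) * (t * r) := by ring
        _ = ((1 + δ) * s) * ((1 + δ) * s) := by rw [htr]
        _ = (1 + δ) ^ 2 * (s * s) := by ring
    rw [h2, hss] at h7
    linarith
  have ht2 : t ≤ r * s := by
    rw [ht, div_le_iff₀ h2p]
    nlinarith
  have hexp : (d : ℝ) * (η / 2) - 2 * r * s - 1 ≤ (d : ℝ) * (1 / 2 + η) + (-(t + 1) ^ 2) := by
    have hd' : (0 : ℝ) ≤ d := Nat.cast_nonneg d
    have : (1 + δ) ^ 2 ≤ 1 + η := by nlinarith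
    nlinarith
  have hNq : Real.exp ((d : ℝ) * (η / 2) - 2 * r * s - 1) / Real.sqrt Real.pi ≤
      N * (Real.exp (-(t + 1) ^ 2) / Real.sqrt Real.pi) := by
    have h8 : (N : ℝ) * (Real.exp (-(t + 1) ^ 2) / Real.sqrt Real.pi) =
      (N * Real.exp (-(t + 1) ^ 2)) / Real.sqrt Real.pi := by ring
    rw [h8]
    refine div_le_div_of_nonneg_right ?_ hpi.le
    calc Real.exp ((d : ℝ) * (η / 2) - 2 * r * s - 1)
        ≤ Real.exp ((d : ℝ) * (1 / 2 + η) + (-(t + 1) ^ 2)) := Real.exp_le_exp.2 hexp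
      _ = (Real.sqrt (Real.exp 1) + ε) ^ d * Real.exp (-(t + 1) ^ 2) := by
          rw [hbase, ← Real.exp_nat_mul, ← Real.exp_add]
      _ ≤ N * Real.exp (-(t + 1) ^ 2) := mul_le_mul_of_nonneg_right hN (Real.exp_pos _).le
  have hsmall : Real.exp (-(N * (Real.exp (-(t + 1) ^ 2) / Real.sqrt Real.pi))) ≤ δ / 4 :=
    le_trans (Real.exp_le_exp.2 (neg_le_neg hNq)) e1
  refine le_trans ?_ (gwid_lower hN0 t ht0)
  rw [← hc1]
  have hfin : t * (1 - δ / 4) ≤
      t * (1 - Real.exp (-(N * (Real.exp (-(t + 1) ^ 2) / Real.sqrt Real.pi)))) :=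
    mul_le_mul_of_nonneg_left (by linarith) ht0
  have hc2 : 4 * c1 ≤ δ * s := by
    have := mul_le_mul_of_nonneg_left e2 hδ0.le
    have h4 : δ * (4 / δ * c1) = 4 * c1 := by field_simp
    linarith
  have hmain : s / 2 ≤ r⁻¹ * (t * (1 - δ / 4) - c1) := by
    rw [inv_mul_eq_div, le_div_iff₀ h2p]
    have hr1 : r ≤ 2 := by nlinarith
    -- multiply by r
    have h5 : (t * (1 - δ / 4) - c1) * r = (1 + δ) * s * (1 - δ / 4) - c1 * r := by
      rw [sub_mul, mul_right_comm, htr]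
    have h6 : s * 1 ≤ (t * (1 - δ / 4) - c1) * r := by
      rw [h5]
      have : c1 * r ≤ c1 * 2 := mul_le_mul_of_nonneg_left hr1 hc1'
      nlinarith [mul_nonneg hδ0.le hs0, mul_nonneg (mul_nonneg hδ0.le hs0) (sub_nonneg.2 hδ1)]
    nlinarith
  refine le_trans hmain ?_
  refine mul_le_mul_of_nonneg_left ?_ (by positivity)
  linarith

end Pool.Agent.Lib.MP_0c1c75_co
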