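import Pool.Agent.Lib.MP_0c1c75_co.Spec

/-! Monotonicity of the mean width under contractions. -/

open MeasureTheory Set Metric
open scoped Pointwise

namespace Pool.Agent.Lib.MP_0c1c75_co

namespace MeanWidth

theorem exp_le_quad (x : ℝ) : Real.exp x ≤ 1 + x + x ^ 2 * Real.exp |x| := by
  rcases le_or_gt |x| 1 with h | h
  · have h1 := Real.abs_exp_sub_one_sub_id_le h
    have h2 : Real.exp x - 1 - x ≤ x ^ 2 := (le_abs_self _).trans h1
    have h3 : (1 : ℝ) ≤ Real.exp |x| := Real.one_le_exp (abs_nonneg x)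
    nlinarith [sq_nonneg x]
  · have h3 : (1 : ℝ) ≤ Real.exp |x| := Real.one_le_exp (abs_nonneg x)
    have h4 : (1 : ℝ) ≤ x ^ 2 := by
      rw [← sq_abs]
      nlinarith
    rcases le_or_gt 0 x with hx | hx
    · rw [abs_of_nonneg hx] at *
      nlinarith
    · rw [abs_of_neg hx] at *
      have h5 : Real.exp x ≤ 1 := Real.exp_le_one_iff.2 hx.le
      have h6 : x ^ 2 * 1 ≤ x ^ 2 * Real.exp (-x) := mul_le_mul_of_nonneg_left h3 (by positivity)
      nlinarith

theorem integrable_gauss {d : ℕ} {b : ℝ} (hb : 0 < b) :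
    Integrable (fun x : E d => Real.exp (-b * ‖x‖ ^ 2)) := by
  have h := (GaussianFourier.integrable_cexp_neg_mul_sq_norm_add (b := (b : ℂ))
    (by simpa using hb) 0 (0 : E d)).norm
  refine h.congr (Filter.Eventually.of_forall fun x => ?_)
  simp only [Complex.norm_exp]
  congr 1
  have : (-(b : ℂ) * (‖x‖ : ℂ) ^ 2 + 0 * (inner ℝ (0 : E d) x : ℝ)) =
      ((-b * ‖x‖ ^ 2 : ℝ) : ℂ) := by push_cast; ring
  rw [this, Complex.ofReal_re]

theorem integrable_mul {d : ℕ} {F : E d → ℝ} (hF : Continuous F) {A K : ℝ} (hA : 0 ≤ A)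
    (h : ∀ x, |F x| ≤ A * Real.exp (K * ‖x‖)) :
    Integrable (fun x : E d => Real.exp (-‖x‖ ^ 2) * F x) := by
  have h1 : Integrable (fun x : E d => A * Real.exp (K ^ 2 / 2) * Real.exp (-(1 / 2 : ℝ) * ‖x‖ ^ 2)) :=
    (integrable_gauss (by norm_num)).const_mul _
  refine h1.mono' (by fun_prop) (Filter.Eventually.of_forall fun x => ?_)
  rw [norm_mul, Real.norm_eq_abs, Real.norm_eq_abs, abs_of_pos (Real.exp_pos _)]
  calc Real.exp (-‖x‖ ^ 2) * |F x| ≤ Real.exp (-‖x‖ ^ 2) * (A * Real.exp (K * ‖x‖)) :=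
        mul_le_mul_of_nonneg_left (h x) (Real.exp_pos _).le
    _ = A * Real.exp (-‖x‖ ^ 2 + K * ‖x‖) := by rw [Real.exp_add]; ring
    _ ≤ A * Real.exp (K ^ 2 / 2 + -(1 / 2 : ℝ) * ‖x‖ ^ 2) := by
        refine mul_le_mul_of_nonneg_left (Real.exp_le_exp.2 ?_) hA
        nlinarith [sq_nonneg (K - ‖x‖)]
    _ = A * Real.exp (K ^ 2 / 2) * Real.exp (-(1 / 2 : ℝ) * ‖x‖ ^ 2) := by
        rw [Real.exp_add]; ring

section

variable {d N : ℕ}

theorem bdd (f : Fin N → ℝ) : BddAbove (Set.range f) := (Set.finite_range f).bddAbove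

theorem hs_le (hN : 0 < N) (p : Fin N → E d) {u : E d} {R : ℝ}
    (h : ∀ i, inner ℝ (p i) u ≤ R) : hs p u ≤ R := by
  have : Nonempty (Fin N) := ⟨⟨0, hN⟩⟩
  exact ciSup_le h

theorem le_hs (p : Fin N → E d) (u : E d) (i : Fin N) : inner ℝ (p i) u ≤ hs p u :=
  le_ciSup (bdd fun i => inner ℝ (p i) u) i

theorem abs_hs_le (hN : 0 < N) (p : Fin N → E d) {M : ℝ} (hM : ∀ i, ‖p i‖ ≤ M) (u : E d) :
    |hs p u| ≤ M * ‖u‖ := by
  have h1 : ∀ i, |inner ℝ (p i) u| ≤ M * ‖u‖ := fun i =>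
    (abs_real_inner_le_norm _ _).trans (mul_le_mul_of_nonneg_right (hM i) (norm_nonneg _))
  rw [abs_le]
  refine ⟨?_, hs_le hN p fun i => (le_abs_self _).trans (h1 i)⟩
  have h2 := le_hs p u ⟨0, hN⟩
  have h3 := (abs_le.1 (h1 ⟨0, hN⟩)).1
  linarith

/-- expansion of the square -/
theorem term_eq (p : Fin N → E d) (y : E d) {e : ℝ} (he : 0 < e) (i : Fin N) :
    e ^ 2 * (‖e⁻¹ • y - p i‖ ^ 2 - 0) =
      ‖y‖ ^ 2 + 2 * e * inner ℝ (p i) (-y) + e ^ 2 * ‖p i‖ ^ 2 := by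
  have h1 : ‖e⁻¹ • y - p i‖ ^ 2 = (e⁻¹) ^ 2 * ‖y‖ ^ 2 - 2 * (e⁻¹ * inner ℝ (p i) y) + ‖p i‖ ^ 2 := by
    rw [norm_sub_sq_real, real_inner_smul_left, norm_smul, real_inner_comm, mul_pow,
      Real.norm_eq_abs, sq_abs]
  rw [h1, inner_neg_right]
  field_simp
  ring

theorem gmax_le (hN : 0 < N) (p : Fin N → E d) {M : ℝ} (hM : ∀ i, ‖p i‖ ≤ M) (y : E d)
    {e : ℝ} (he : 0 < e) :
    e ^ 2 * gmax p (fun _ => 0) (e⁻¹ • y) ≤ ‖y‖ ^ 2 + 2 * e * hs p (-y) + e ^ 2 * M ^ 2 := by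
  have : Nonempty (Fin N) := ⟨⟨0, hN⟩⟩
  unfold gmax
  rw [Real.mul_iSup_of_nonneg (by positivity)]
  refine ciSup_le fun i => ?_
  rw [term_eq p y he i]
  have h1 := le_hs p (-y) i
  have h2 : ‖p i‖ ^ 2 ≤ M ^ 2 := pow_le_pow_left₀ (norm_nonneg _) (hM i) 2
  have h3 : 2 * e * inner ℝ (p i) (-y) ≤ 2 * e * hs p (-y) :=
    mul_le_mul_of_nonneg_left h1 (by positivity)
  have h4 : e ^ 2 * ‖p i‖ ^ 2 ≤ e ^ 2 * M ^ 2 := mul_le_mul_of_nonneg_left h2 (by positivity)
  linarith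

theorem le_gmax (hN : 0 < N) (p : Fin N → E d) (y : E d) {e : ℝ} (he : 0 < e) :
    ‖y‖ ^ 2 + 2 * e * hs p (-y) ≤ e ^ 2 * gmax p (fun _ => 0) (e⁻¹ • y) := by
  have h1 : hs p (-y) ≤ (e ^ 2 * gmax p (fun _ => 0) (e⁻¹ • y) - ‖y‖ ^ 2) / (2 * e) := by
    refine hs_le hN p fun i => ?_
    rw [le_div_iff₀ (by positivity)]
    have h2 : e ^ 2 * (‖e⁻¹ • y - p i‖ ^ 2 - 0) ≤ e ^ 2 * gmax p (fun _ => 0) (e⁻¹ • y) := by
      refine mul_le_mul_of_nonneg_left ?_ (by positivity)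
      exact le_ciSup (bdd fun i => ‖e⁻¹ • y - p i‖ ^ 2 - 0) i
    rw [term_eq p y he i] at h2
    have h3 : 0 ≤ e ^ 2 * ‖p i‖ ^ 2 := by positivity
    linarith
  rw [le_div_iff₀ (by positivity)] at h1
  linarith

end

end MeanWidth

open MeanWidth in
theorem meanWidthStmt (hG : GaussStmt) (hP : PolarStmt) (hH : HwBasicStmt) : MeanWidthStmt := by
  intro d N hd hN p q hpq
  -- a common bound for the norms
  set M : ℝ := ∑ i, ‖p i‖ + ∑ i, ‖q i‖ with hMdef
  have hM0 : 0 ≤ M := by positivity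
  have hMp : ∀ i, ‖p i‖ ≤ M := fun i => by
    have h1 := Finset.single_le_sum (f := fun i => ‖p i‖) (fun i _ => norm_nonneg _)
      (Finset.mem_univ i)
    have h2 : 0 ≤ ∑ i, ‖q i‖ := by positivity
    linarith
  have hMq : ∀ i, ‖q i‖ ≤ M := fun i => by
    have h1 := Finset.single_le_sum (f := fun i => ‖q i‖) (fun i _ => norm_nonneg _)
      (Finset.mem_univ i)
    have h2 : 0 ≤ ∑ i, ‖p i‖ := by positivity
    linarith
  obtain ⟨-, -, -, -, hcp, hhp, -, havp⟩ := hH d N hd hN p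
  obtain ⟨-, -, -, -, hcq, hhq, -, havq⟩ := hH d N hd hN q
  have hcp' : Continuous fun y : E d => hs p (-y) := hcp.comp continuous_neg
  have hcq' : Continuous fun y : E d => hs q (-y) := hcq.comp continuous_neg
  have hbp : ∀ y : E d, |hs p (-y)| ≤ M * ‖y‖ := fun y => by
    have := abs_hs_le hN p hMp (-y)
    rwa [norm_neg] at this
  have hbq : ∀ y : E d, |hs q (-y)| ≤ M * ‖y‖ := fun y => by
    have := abs_hs_le hN q hMq (-y)
    rwa [norm_neg] at this
  have hle : ∀ t : ℝ, 0 ≤ t → M * t ≤ M * Real.exp (1 * t) := fun t ht => by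
    have := Real.add_one_le_exp t
    rw [one_mul]
    exact mul_le_mul_of_nonneg_left (by linarith) hM0
  have hI0 : Integrable (fun y : E d => Real.exp (-‖y‖ ^ 2)) := by
    have := integrable_gauss (d := d) (b := 1) one_pos
    simpa using this
  have hIp : Integrable (fun y : E d => Real.exp (-‖y‖ ^ 2) * hs p (-y)) :=
    integrable_mul hcp' hM0 (K := 1) fun y => (hbp y).trans (hle _ (norm_nonneg _))
  have hIq : Integrable (fun y : E d => Real.exp (-‖y‖ ^ 2) * hs q (-y)) :=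
    integrable_mul hcq' hM0 (K := 1) fun y => (hbq y).trans (hle _ (norm_nonneg _))
  have hIr : Integrable (fun y : E d => Real.exp (-‖y‖ ^ 2) *
      (‖y‖ ^ 2 * Real.exp (2 * M * ‖y‖))) := by
    refine integrable_mul (by fun_prop) (A := 2) (by norm_num) (K := 1 + 2 * M) fun y => ?_
    have h1 := Real.quadratic_le_exp_of_nonneg (norm_nonneg y)
    have h2 : ‖y‖ ^ 2 ≤ 2 * Real.exp ‖y‖ := by
      have := norm_nonneg y
      linarith
    rw [abs_of_nonneg (by positivity), add_mul, Real.exp_add, one_mul, ← mul_assoc]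
    exact mul_le_mul_of_nonneg_right h2 (Real.exp_pos _).le
  set G := ∫ y : E d, Real.exp (-‖y‖ ^ 2) with hGdef
  set Hp := ∫ y : E d, Real.exp (-‖y‖ ^ 2) * hs p (-y) with hHp
  set Hq := ∫ y : E d, Real.exp (-‖y‖ ^ 2) * hs q (-y) with hHq
  set R := ∫ y : E d, Real.exp (-‖y‖ ^ 2) * (‖y‖ ^ 2 * Real.exp (2 * M * ‖y‖)) with hRdef
  have hG0 : 0 ≤ G := integral_nonneg fun y => (Real.exp_pos _).le
  have hR0 : 0 ≤ R := integral_nonneg fun y => by positivity
  -- the main inequality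
  have key : ∀ e : ℝ, 0 < e → e ≤ 1 →
      2 * (Hq - Hp) ≤ e * (M ^ 2 * G + 4 * M ^ 2 * R) := by
    intro e he he1
    have hGe := hG d N hN p q hpq (fun _ => 0) (e ^ 2) (by positivity)
    have hGeq := hG d N hN q q (fun i j => by rw [one_mul]) (fun _ => 0) (e ^ 2) (by positivity)
    have hscale : ∀ r : Fin N → E d,
        ∫ y : E d, Real.exp (-e ^ 2 * gmax r (fun _ => 0) (e⁻¹ • y)) =
          |((e⁻¹) ^ (Module.finrank ℝ (E d)))⁻¹| *
            ∫ x : E d, Real.exp (-e ^ 2 * gmax r (fun _ => 0) x) := fun r => by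
      have := Measure.integral_comp_smul (volume : Measure (E d))
        (fun x => Real.exp (-e ^ 2 * gmax r (fun _ => 0) x)) e⁻¹
      rw [smul_eq_mul] at this
      exact this
    have h1 : ∫ y : E d, Real.exp (-e ^ 2 * gmax p (fun _ => 0) (e⁻¹ • y)) ≤
        ∫ y : E d, Real.exp (-e ^ 2 * gmax q (fun _ => 0) (e⁻¹ • y)) := by
      rw [hscale p, hscale q]
      exact mul_le_mul_of_nonneg_left hGe.2 (abs_nonneg _)
    have hIntp : Integrable (fun y : E d => Real.exp (-e ^ 2 * gmax p (fun _ => 0) (e⁻¹ • y))) :=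
      (hGe.1.comp_smul (inv_ne_zero he.ne'))
    have hIntq : Integrable (fun y : E d => Real.exp (-e ^ 2 * gmax q (fun _ => 0) (e⁻¹ • y))) :=
      (hGeq.1.comp_smul (inv_ne_zero he.ne'))
    have lower : ∀ y : E d, Real.exp (-‖y‖ ^ 2) + (-2 * e) * (Real.exp (-‖y‖ ^ 2) * hs p (-y)) +
        (-(e ^ 2 * M ^ 2)) * Real.exp (-‖y‖ ^ 2) ≤
          Real.exp (-e ^ 2 * gmax p (fun _ => 0) (e⁻¹ • y)) := by
      intro y
      have h2 := gmax_le hN p hMp y he
      have h3 : Real.exp (-‖y‖ ^ 2) * Real.exp (-(2 * e * hs p (-y) + e ^ 2 * M ^ 2)) ≤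
          Real.exp (-e ^ 2 * gmax p (fun _ => 0) (e⁻¹ • y)) := by
        rw [← Real.exp_add]
        refine Real.exp_le_exp.2 ?_
        linarith
      have h4 := Real.add_one_le_exp (-(2 * e * hs p (-y) + e ^ 2 * M ^ 2))
      have h5 := mul_le_mul_of_nonneg_left h4 (Real.exp_pos (-‖y‖ ^ 2)).le
      calc _ = Real.exp (-‖y‖ ^ 2) * (-(2 * e * hs p (-y) + e ^ 2 * M ^ 2) + 1) := by ring
        _ ≤ _ := h5
        _ ≤ _ := h3
    have upper : ∀ y : E d, Real.exp (-e ^ 2 * gmax q (fun _ => 0) (e⁻¹ • y)) ≤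
        Real.exp (-‖y‖ ^ 2) + (-2 * e) * (Real.exp (-‖y‖ ^ 2) * hs q (-y)) +
          (4 * e ^ 2 * M ^ 2) * (Real.exp (-‖y‖ ^ 2) * (‖y‖ ^ 2 * Real.exp (2 * M * ‖y‖))) := by
      intro y
      have h2 := le_gmax hN q y he
      have h3 : Real.exp (-e ^ 2 * gmax q (fun _ => 0) (e⁻¹ • y)) ≤
          Real.exp (-‖y‖ ^ 2) * Real.exp (-(2 * e * hs q (-y))) := by
        rw [← Real.exp_add]
        refine Real.exp_le_exp.2 ?_
        linarith
      have h4 := exp_le_quad (-(2 * e * hs q (-y)))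
      have h5 : |-(2 * e * hs q (-y))| ≤ 2 * e * (M * ‖y‖) := by
        rw [abs_neg, abs_mul, abs_of_pos (by positivity : (0 : ℝ) < 2 * e)]
        exact mul_le_mul_of_nonneg_left (hbq y) (by positivity)
      have h6 : (-(2 * e * hs q (-y))) ^ 2 ≤ 4 * e ^ 2 * M ^ 2 * ‖y‖ ^ 2 := by
        rw [← sq_abs]
        calc |-(2 * e * hs q (-y))| ^ 2 ≤ (2 * e * (M * ‖y‖)) ^ 2 :=
              pow_le_pow_left₀ (abs_nonneg _) h5 2
          _ = _ := by ring
      have h7 : Real.exp |-(2 * e * hs q (-y))| ≤ Real.exp (2 * M * ‖y‖) := by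
        refine Real.exp_le_exp.2 (h5.trans ?_)
        have h8 : 0 ≤ M * ‖y‖ := by positivity
        nlinarith
      have h9 : (-(2 * e * hs q (-y))) ^ 2 * Real.exp |-(2 * e * hs q (-y))| ≤
          4 * e ^ 2 * M ^ 2 * ‖y‖ ^ 2 * Real.exp (2 * M * ‖y‖) :=
        mul_le_mul h6 h7 (Real.exp_pos _).le (by positivity)
      have h10 : Real.exp (-(2 * e * hs q (-y))) ≤ 1 + -(2 * e * hs q (-y)) +
          4 * e ^ 2 * M ^ 2 * ‖y‖ ^ 2 * Real.exp (2 * M * ‖y‖) := by linarith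
      have h11 := mul_le_mul_of_nonneg_left h10 (Real.exp_pos (-‖y‖ ^ 2)).le
      calc _ ≤ _ := h3
        _ ≤ _ := h11
        _ = _ := by ring
    have hlow : G + (-2 * e) * Hp + (-(e ^ 2 * M ^ 2)) * G ≤
        ∫ y : E d, Real.exp (-e ^ 2 * gmax p (fun _ => 0) (e⁻¹ • y)) := by
      have h2 := integral_mono (μ := volume) ((hI0.add (hIp.const_mul (-2 * e))).add
        (hI0.const_mul (-(e ^ 2 * M ^ 2)))) hIntp lower
      rw [integral_add' (hI0.add (hIp.const_mul (-2 * e))) (hI0.const_mul _),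
        integral_add' hI0 (hIp.const_mul _), integral_const_mul, integral_const_mul] at h2
      exact h2
    have hupp : ∫ y : E d, Real.exp (-e ^ 2 * gmax q (fun _ => 0) (e⁻¹ • y)) ≤
        G + (-2 * e) * Hq + (4 * e ^ 2 * M ^ 2) * R := by
      have h2 := integral_mono (μ := volume) hIntq ((hI0.add (hIq.const_mul (-2 * e))).add
        (hIr.const_mul (4 * e ^ 2 * M ^ 2))) upper
      rw [integral_add' (hI0.add (hIq.const_mul (-2 * e))) (hIr.const_mul _),
        integral_add' hI0 (hIq.const_mul _), integral_const_mul, integral_const_mul] at h2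
      exact h2
    have h12 := (hlow.trans h1).trans hupp
    have h13 : e * (2 * (Hq - Hp)) ≤ e * (e * (M ^ 2 * G + 4 * M ^ 2 * R)) := by nlinarith
    exact le_of_mul_le_mul_left h13 he
  have hH' : Hq ≤ Hp := by
    by_contra hlt
    push Not at hlt
    set K := M ^ 2 * G + 4 * M ^ 2 * R with hK
    have hK0 : 0 ≤ K := by positivity
    have hpos : 0 < Hq - Hp := by linarith
    have he0 : 0 < min 1 ((Hq - Hp) / (K + 1)) := lt_min one_pos (by positivity)
    have h1 := key _ he0 (min_le_left _ _)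
    have h2 : min 1 ((Hq - Hp) / (K + 1)) * K ≤ (Hq - Hp) / (K + 1) * K :=
      mul_le_mul_of_nonneg_right (min_le_right _ _) hK0
    have h3 : (Hq - Hp) / (K + 1) * K ≤ Hq - Hp := by
      rw [div_mul_eq_mul_div, div_le_iff₀ (by linarith)]
      nlinarith
    linarith
  -- polar coordinates
  have hφm : Measurable fun t : ℝ => Real.exp (-t ^ 2) := by fun_prop
  obtain ⟨C, hC0, hC⟩ := (hP d hd).2 (fun t => Real.exp (-t ^ 2)) hφm fun t => (Real.exp_pos _).le
  have hIn : Integrable (fun x : E d => Real.exp (-‖x‖ ^ 2) * ‖x‖) := by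
    refine integrable_mul (by fun_prop) (A := 1) zero_le_one (K := 1) fun y => ?_
    have := Real.add_one_le_exp ‖y‖
    rw [abs_of_nonneg (norm_nonneg _), one_mul, one_mul]
    linarith
  have hCp := hC (fun y => hs p (-y)) hcp' (fun c x hc => by
    rw [← hhp c (-x) hc, smul_neg]) hIn
  have hCq := hC (fun y => hs q (-y)) hcq' (fun c x hc => by
    rw [← hhq c (-x) hc, smul_neg]) hIn
  have hCpos : 0 < C := by
    rcases hC0.lt_or_eq with h | h
    · exact h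
    · exfalso
      have h1 := hC (fun y => ‖y‖) continuous_norm (fun c x hc => by
        rw [norm_smul, Real.norm_eq_abs, abs_of_nonneg hc]) hIn
      rw [← h, zero_mul] at h1
      have h2 : 0 < ∫ x : E d, Real.exp (-‖x‖ ^ 2) * ‖x‖ := by
        rw [integral_pos_iff_support_of_nonneg (fun x => by positivity) hIn]
        have h3 : Function.support (fun x : E d => Real.exp (-‖x‖ ^ 2) * ‖x‖) = {0}ᶜ := by
          ext x
          simp [Real.exp_ne_zero]
        rw [h3]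
        have : Nonempty (Fin d) := ⟨⟨0, hd⟩⟩
        obtain ⟨v, hv⟩ := exists_ne (0 : E d)
        exact isOpen_compl_singleton.measure_pos volume ⟨v, hv⟩
      exact absurd h1 h2.ne'
  have hVpos : 0 < volume.real (ball (0 : E d) 1) :=
    ENNReal.toReal_pos (measure_ball_pos _ _ one_pos).ne' measure_ball_lt_top.ne
  rw [← havp, ← havq, setAverage_eq, setAverage_eq, smul_eq_mul, smul_eq_mul]
  refine mul_le_mul_of_nonneg_left ?_ (inv_nonneg.2 hVpos.le)
  have h1 : C * ∫ x in ball (0 : E d) 1, hs q (-(‖x‖⁻¹ • x)) ≤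
      C * ∫ x in ball (0 : E d) 1, hs p (-(‖x‖⁻¹ • x)) := by
    rw [← hCp, ← hCq]
    exact hH'
  exact le_of_mul_le_mul_left h1 hCpos

end Pool.Agent.Lib.MP_0c1c75_co
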