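import Pool.Agent.Lib.MP_0c1c75_co.Spec3

/-!
Moments of the norm with respect to the Gaussian weight, by polar coordinates and the Gamma
function.
-/

open MeasureTheory Set Metric

namespace Pool.Agent.Lib.MP_0c1c75_co

namespace NormMoment

lemma radial (d : ℕ) (hd : 0 < d) (k : ℕ) :
    (∫ x : E d, Real.exp (-‖x‖ ^ 2) * ‖x‖ ^ k) =
      (d : ℝ) * (volume.real (ball (0 : E d) 1)) * ((1 / 2) * Real.Gamma (((d : ℝ) + k) / 2)) := by
  have : Nonempty (Fin d) := ⟨⟨0, hd⟩⟩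
  have : Nontrivial (E d) := inferInstance
  have h := integral_fun_norm_addHaar (μ := (volume : Measure (E d)))
    (fun y : ℝ => Real.exp (-y ^ 2) * y ^ k)
  simp only [finrank_euclideanSpace, Fintype.card_fin, nsmul_eq_mul, smul_eq_mul] at h
  rw [h]
  have h2 : ∫ y in Ioi (0 : ℝ), y ^ (d - 1) * (Real.exp (-y ^ 2) * y ^ k) =
      ∫ y in Ioi (0 : ℝ), y ^ ((d : ℝ) - 1 + k) * Real.exp (-y ^ (2 : ℝ)) := by
    refine setIntegral_congr_fun measurableSet_Ioi ?_
    intro y hy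
    have hy' : (0 : ℝ) < y := hy
    have e1 : y ^ ((d : ℝ) - 1 + k) = y ^ (d - 1) * y ^ k := by
      rw [Real.rpow_add hy', Real.rpow_natCast]
      congr 1
      rw [← Real.rpow_natCast, Nat.cast_sub hd]
      norm_num
    have e2 : y ^ (2 : ℝ) = y ^ 2 := by
      rw [← Real.rpow_natCast]; norm_num
    simp only [e1, e2]
    ring
  rw [h2, integral_rpow_mul_exp_neg_rpow (by norm_num)]
  · rw [show ((d : ℝ) - 1 + k + 1) = (d : ℝ) + k by ring]
    ring
  · have : (1 : ℝ) ≤ d := by exact_mod_cast hd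
    have : (0 : ℝ) ≤ k := Nat.cast_nonneg k
    linarith

lemma ratio (d : ℕ) (hd : 0 < d) :
    ((∫ x : E d, Real.exp (-‖x‖ ^ 2) * ‖x‖) / ∫ x : E d, Real.exp (-‖x‖ ^ 2)) =
      Real.Gamma (((d : ℝ) + 1) / 2) / Real.Gamma ((d : ℝ) / 2) := by
  have h1 := radial d hd 1
  have h0 := radial d hd 0
  simp only [pow_one, pow_zero, mul_one, Nat.cast_one, Nat.cast_zero, add_zero] at h1 h0
  have : Nonempty (Fin d) := ⟨⟨0, hd⟩⟩
  have : Nontrivial (E d) := inferInstance
  rw [h1, h0]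
  have hd' : (0 : ℝ) < d := by exact_mod_cast hd
  have hv : 0 < volume.real (ball (0 : E d) 1) :=
    ENNReal.toReal_pos (measure_ball_pos _ _ one_pos).ne' measure_ball_lt_top.ne
  have hG : 0 < Real.Gamma ((d : ℝ) / 2) := Real.Gamma_pos_of_pos (by positivity)
  field_simp

end NormMoment

open NormMoment in
theorem normMomentStmt : NormMomentStmt := by
  refine ⟨?_, ?_⟩
  · rw [ratio 3 (by norm_num)]
    have e1 : (((3 : ℕ) : ℝ) + 1) / 2 = 2 := by norm_num
    have e2 : ((3 : ℕ) : ℝ) / 2 = 1 / 2 + 1 := by norm_num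
    rw [e1, e2, Real.Gamma_two, Real.Gamma_add_one (by norm_num), Real.Gamma_one_half_eq]
    have : 0 < Real.sqrt Real.pi := Real.sqrt_pos.mpr Real.pi_pos
    field_simp
  · intro d hd
    have hd' : (0 : ℝ) < d := by exact_mod_cast hd
    have hG : 0 < Real.Gamma ((d : ℝ) / 2) := Real.Gamma_pos_of_pos (by positivity)
    have hG1 : 0 < Real.Gamma (((d : ℝ) + 1) / 2) := Real.Gamma_pos_of_pos (by positivity)
    rw [ratio d hd]
    refine ⟨by positivity, ?_⟩
    rw [div_le_iff₀ hG]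
    have h := Real.Gamma_mul_add_mul_le_rpow_Gamma_mul_rpow_Gamma (s := (d : ℝ) / 2)
      (t := (d : ℝ) / 2 + 1) (a := 1 / 2) (b := 1 / 2) (by positivity) (by positivity)
      (by norm_num) (by norm_num) (by norm_num)
    have e : (1 / 2 : ℝ) * ((d : ℝ) / 2) + 1 / 2 * ((d : ℝ) / 2 + 1) = ((d : ℝ) + 1) / 2 := by ring
    rw [e, Real.Gamma_add_one (by positivity)] at h
    refine h.trans (le_of_eq ?_)
    rw [← Real.mul_rpow hG.le (by positivity), ← Real.sqrt_eq_rpow]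
    rw [show Real.Gamma ((d : ℝ) / 2) * ((d : ℝ) / 2 * Real.Gamma ((d : ℝ) / 2)) =
      ((d : ℝ) / 2) * Real.Gamma ((d : ℝ) / 2) ^ 2 by ring]
    rw [Real.sqrt_mul (by positivity), Real.sqrt_sq hG.le]

end Pool.Agent.Lib.MP_0c1c75_co
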