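import Pool.Agent.Lib.MP_0c1c75_co.Spec

open MeasureTheory Set Metric MeasureTheory.Measure
open scoped Pointwise ENNReal

namespace Pool.Agent.Lib.MP_0c1c75_co

namespace Polar

variable {d : ℕ}

/-- Polar coordinates for the lower Lebesgue integral. -/
lemma lint (hd : 0 < d) (G : E d → ℝ≥0∞) (hG : Measurable G) :
    ∫⁻ x, G x = ∫⁻ u : sphere (0 : E d) 1, ∫⁻ t : Ioi (0 : ℝ), G (t.1 • u.1)
      ∂volumeIoiPow (d - 1) ∂(volume : Measure (E d)).toSphere := by
  have : Nonempty (Fin d) := ⟨⟨0, hd⟩⟩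
  have h := (volume : Measure (E d)).measurePreserving_homeomorphUnitSphereProd
  have hfin : Module.finrank ℝ (E d) = d := by simp
  rw [hfin] at h
  have h1 := h.lintegral_comp_emb (Homeomorph.measurableEmbedding _)
    (fun z : sphere (0 : E d) 1 × Ioi (0 : ℝ) => G (z.2.1 • z.1.1))
  have hm : Measurable (fun z : sphere (0 : E d) 1 × Ioi (0 : ℝ) => G (z.2.1 • z.1.1)) := by
    apply hG.comp
    fun_prop
  rw [lintegral_prod _ hm.aemeasurable] at h1
  rw [← h1]
  conv_lhs => rw [← restrict_compl_singleton (μ := (volume : Measure (E d))) 0,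
    ← lintegral_subtype_comap (measurableSet_singleton _).compl]
  apply lintegral_congr
  intro x
  congr 1
  have hx : ‖x.1‖ ≠ 0 := norm_ne_zero_iff.2 (show x.1 ≠ 0 from x.2)
  simp only [homeomorphUnitSphereProd_apply_snd_coe, homeomorphUnitSphereProd_apply_fst_coe]
  rw [smul_smul, mul_inv_cancel₀ hx, one_smul]

/-- Polar coordinates for the Bochner integral. -/
lemma int (hd : 0 < d) (G : E d → ℝ) :
    ∫ x, G x = ∫ z : sphere (0 : E d) 1 × Ioi (0 : ℝ), G (z.2.1 • z.1.1)
      ∂((volume : Measure (E d)).toSphere.prod (volumeIoiPow (d - 1))) := by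
  have : Nonempty (Fin d) := ⟨⟨0, hd⟩⟩
  have h := (volume : Measure (E d)).measurePreserving_homeomorphUnitSphereProd
  have hfin : Module.finrank ℝ (E d) = d := by simp
  rw [hfin] at h
  have h1 := h.integral_comp (Homeomorph.measurableEmbedding _)
    (fun z : sphere (0 : E d) 1 × Ioi (0 : ℝ) => G (z.2.1 • z.1.1))
  rw [← h1]
  conv_lhs => rw [← restrict_compl_singleton (μ := (volume : Measure (E d))) 0,
    ← integral_subtype_comap (measurableSet_singleton _).compl]
  apply integral_congr_ae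
  filter_upwards with x
  have hx : ‖x.1‖ ≠ 0 := norm_ne_zero_iff.2 (show x.1 ≠ 0 from x.2)
  simp only [homeomorphUnitSphereProd_apply_snd_coe, homeomorphUnitSphereProd_apply_fst_coe]
  rw [smul_smul, mul_inv_cancel₀ hx, one_smul]

lemma pow_Iio (hd : 0 < d) (x : Ioi (0 : ℝ)) :
    volumeIoiPow (d - 1) (Iio x) = ENNReal.ofReal (x.1 ^ d / d) := by
  rw [volumeIoiPow_apply_Iio]
  have h1 : d - 1 + 1 = d := by omega
  have h2 : ((d - 1 : ℕ) : ℝ) + 1 = d := by
    have : ((d - 1 + 1 : ℕ) : ℝ) = d := by rw [h1]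
    push_cast at this
    exact this
  rw [h1, h2]

instance : NullSingletonClass (volumeIoiPow (d - 1)) := by
  unfold volumeIoiPow
  have : NullSingletonClass (Measure.comap (Subtype.val : Ioi (0 : ℝ) → ℝ) volume) := by
    constructor
    intro x
    rw [comap_subtype_coe_apply measurableSet_Ioi]
    simp
  infer_instance

lemma pow_Iic (hd : 0 < d) (x : Ioi (0 : ℝ)) :
    volumeIoiPow (d - 1) (Iic x) = ENNReal.ofReal (x.1 ^ d / d) := by
  rw [← pow_Iio hd, measure_congr Iio_ae_eq_Iic]

end Polar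

open Polar

theorem polarStmt : PolarStmt := by
  intro d hd
  have hdR : (0 : ℝ) < d := by exact_mod_cast hd
  set one : Ioi (0 : ℝ) := ⟨1, mem_Ioi.2 one_pos⟩ with hone
  refine ⟨?_, ?_⟩
  · intro F hF hF0 hFh
    have hset : MeasurableSet {x : E d | ‖x‖ ≤ F x} := measurableSet_le measurable_norm hF
    rw [← lintegral_indicator_one hset, lint hd _ (measurable_one.indicator hset),
      ← lintegral_indicator measurableSet_ball,
      lint hd _ (((hF.ennreal_ofReal).pow_const d).indicator measurableSet_ball)]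
    apply lintegral_congr
    intro u
    have hu : ‖u.1‖ = 1 := by simp
    have hnorm : ∀ t : Ioi (0 : ℝ), ‖t.1 • u.1‖ = t.1 := by
      intro t
      rw [norm_smul, hu, mul_one, Real.norm_eq_abs, abs_of_pos t.2]
    have hFt : ∀ t : Ioi (0 : ℝ), F (t.1 • u.1) = F u.1 := fun t => hFh _ _ t.2
    have hL : ∀ t : Ioi (0 : ℝ), {x : E d | ‖x‖ ≤ F x}.indicator (1 : E d → ℝ≥0∞) (t.1 • u.1) =
        {t : Ioi (0 : ℝ) | t.1 ≤ F u.1}.indicator 1 t := by
      intro t
      simp only [indicator, mem_ofPred_eq, hnorm, hFt, Pi.one_apply]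
    have hR : ∀ t : Ioi (0 : ℝ), (ball (0 : E d) 1).indicator
        (fun x => ENNReal.ofReal (F x) ^ d) (t.1 • u.1) =
        (Iio one).indicator (fun _ => ENNReal.ofReal (F u.1) ^ d) t := by
      intro t
      simp only [indicator, mem_ball_zero_iff, hnorm, hFt, mem_Iio, hone]
      rfl
    rw [lintegral_congr hL, lintegral_congr hR]
    have hm1 : MeasurableSet {t : Ioi (0 : ℝ) | t.1 ≤ F u.1} :=
      measurableSet_le measurable_subtype_coe measurable_const
    rw [lintegral_indicator_one hm1, lintegral_indicator measurableSet_Iio, lintegral_const,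
      Measure.restrict_apply MeasurableSet.univ, univ_inter, pow_Iio hd]
    rcases (hF0 u.1).eq_or_lt with h0 | h0
    · have : {t : Ioi (0 : ℝ) | t.1 ≤ F u.1} = ∅ := by
        ext t
        simp only [mem_ofPred_eq, mem_empty_iff_false, iff_false, not_le, ← h0]
        exact t.2
      rw [this, measure_empty, ← h0, ENNReal.ofReal_zero, zero_pow hd.ne', zero_mul]
    · have : {t : Ioi (0 : ℝ) | t.1 ≤ F u.1} = Iic ⟨F u.1, h0⟩ := by
        ext t
        rfl
      rw [this, pow_Iic hd, ← ENNReal.ofReal_pow h0.le, ← ENNReal.ofReal_mul (by positivity)]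
      congr 1
      simp only [hone]
      ring
  · intro φ hφ hφ0
    refine ⟨d * ∫ t : Ioi (0 : ℝ), φ t.1 * t.1 ∂volumeIoiPow (d - 1), ?_, ?_⟩
    · apply mul_nonneg hdR.le
      apply integral_nonneg
      intro t
      exact mul_nonneg (hφ0 _) (le_of_lt t.2)
    · intro F hF hFh _
      rw [int hd, ← integral_indicator measurableSet_ball, int hd]
      have h1 : ∀ z : sphere (0 : E d) 1 × Ioi (0 : ℝ),
          φ ‖z.2.1 • z.1.1‖ * F (z.2.1 • z.1.1) = F z.1.1 * (φ z.2.1 * z.2.1) := by
        intro z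
        have hu : ‖z.1.1‖ = 1 := by simp
        rw [norm_smul, hu, mul_one, Real.norm_eq_abs, abs_of_pos z.2.2, hFh _ _ (le_of_lt z.2.2)]
        ring
      have h2 : ∀ z : sphere (0 : E d) 1 × Ioi (0 : ℝ),
          (ball (0 : E d) 1).indicator (fun x => F (‖x‖⁻¹ • x)) (z.2.1 • z.1.1) =
            F z.1.1 * (Iio one).indicator (fun _ => (1 : ℝ)) z.2 := by
        intro z
        have hu : ‖z.1.1‖ = 1 := by simp
        have hn : ‖z.2.1 • z.1.1‖ = z.2.1 := by
          rw [norm_smul, hu, mul_one, Real.norm_eq_abs, abs_of_pos z.2.2]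
        have hpos : (0 : ℝ) < z.2.1 := z.2.2
        simp only [indicator, mem_ball_zero_iff, hn, mem_Iio]
        rw [smul_smul, inv_mul_cancel₀ hpos.ne', one_smul]
        by_cases hlt : z.2.1 < 1
        · rw [if_pos hlt, if_pos (show z.2 < one from hlt), mul_one]
        · rw [if_neg hlt, if_neg (show ¬ z.2 < one from hlt), mul_zero]
      rw [integral_congr_ae (Filter.Eventually.of_forall h1),
        integral_congr_ae (Filter.Eventually.of_forall h2),
        integral_prod_mul (fun u : sphere (0 : E d) 1 => F u.1)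
          (fun t : Ioi (0 : ℝ) => φ t.1 * t.1),
        integral_prod_mul (fun u : sphere (0 : E d) 1 => F u.1)
          (fun t : Ioi (0 : ℝ) => (Iio one).indicator (fun _ => (1 : ℝ)) t)]
      have h3 : ∫ t : Ioi (0 : ℝ), (Iio one).indicator (fun _ => (1 : ℝ)) t
          ∂volumeIoiPow (d - 1) = 1 / d := by
        rw [integral_indicator measurableSet_Iio, setIntegral_const, smul_eq_mul, mul_one,
          measureReal_def, pow_Iio hd, ENNReal.toReal_ofReal (by positivity)]
        simp [hone]
      rw [h3]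
      field_simp

end Pool.Agent.Lib.MP_0c1c75_co
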