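import Pool.Agent.Lib.MP_0c1c75_co.Spec3

/-!
MP_0c1c75_co: sharper lower bound for the volume radius of the body.
-/

set_option autoImplicit false

open MeasureTheory Set Metric
open scoped Pointwise

namespace Pool.Agent.Lib.MP_0c1c75_co

private theorem radial2_hs_le {d N : ℕ} (hN : 0 < N) (p : Fin N → E d) (R : ℝ)
    (hR : ∀ i, ‖p i‖ ≤ R) (u : E d) (hu : ‖u‖ ≤ 1) : |hs p u| ≤ R := by
  haveI : Nonempty (Fin N) := ⟨⟨0, hN⟩⟩
  have hi : ∀ i, |inner ℝ (p i) u| ≤ R := by
    intro i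
    calc |inner ℝ (p i) u| ≤ ‖p i‖ * ‖u‖ := abs_real_inner_le_norm _ _
      _ ≤ R * 1 := by
        apply mul_le_mul (hR i) hu (norm_nonneg _) ((norm_nonneg _).trans (hR i))
      _ = R := mul_one R
  unfold hs
  rw [abs_le]
  constructor
  · have h0 := (abs_le.mp (hi ⟨0, hN⟩)).1
    exact h0.trans (le_ciSup (f := fun i => inner ℝ (p i) u) (Set.finite_range _).bddAbove ⟨0, hN⟩)
  · exact ciSup_le fun i => (abs_le.mp (hi i)).2

private theorem radial2_le_hs {d N : ℕ} (p : Fin N → E d) (u : E d) (i : Fin N) :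
    inner ℝ (p i) u ≤ hs p u :=
  le_ciSup (f := fun i => inner ℝ (p i) u) (Set.finite_range _).bddAbove i

/-- the elementary inequality -/
private theorem radial2_elem (t h a : ℝ) (ht : 0 ≤ t) (ha : 0 ≤ a)
    (hle : t ≤ Real.sqrt (a + h ^ 2) - h) : t ^ 2 + 2 * t * h ≤ a := by
  have h0 : 0 ≤ a + h ^ 2 := by positivity
  have hs0 := Real.sqrt_nonneg (a + h ^ 2)
  have hsq := Real.sq_sqrt h0
  by_cases h1 : t + h ≤ 0
  · nlinarith
  · have h2 : 0 < t + h := not_le.mp h1
    nlinarith [mul_self_le_mul_self h2.le (show t + h ≤ Real.sqrt (a + h ^ 2) by linarith)]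

/-- supporting line of `h ↦ √(a + h^2)` -/
private theorem radial2_line (a m h : ℝ) (ha : 0 ≤ a) (hs : 0 < Real.sqrt (a + m ^ 2)) :
    Real.sqrt (a + m ^ 2) + m / Real.sqrt (a + m ^ 2) * (h - m) ≤ Real.sqrt (a + h ^ 2) := by
  have h0 : 0 ≤ a + h ^ 2 := by positivity
  have h1 : 0 ≤ a + m ^ 2 := by positivity
  have hm := Real.sq_sqrt h1
  set s := Real.sqrt (a + m ^ 2) with hs_def
  have e1 : s + m / s * (h - m) = (a + m * h) / s := by
    field_simp
    linarith
  rw [e1, div_le_iff₀ hs]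
  have e2 : (a + m * h) ^ 2 ≤ (Real.sqrt (a + h ^ 2) * s) ^ 2 := by
    rw [mul_pow, Real.sq_sqrt h0, hm]
    nlinarith [sq_nonneg (h - m)]
  exact (abs_le.mp (abs_le_of_sq_le_sq e2 (by positivity))).2

/-- star shaped set inside the body -/
private theorem radial2_sub {d N : ℕ} (hN : 0 < N) (p : Fin N → E d) (R r : ℝ) (hR0 : 0 ≤ R)
    (hRr : R ≤ r) (hR : ∀ i, ‖p i‖ ≤ R) :
    {x : E d | ‖x‖ ≤ Real.sqrt (r ^ 2 - R ^ 2 + hs p (-(‖x‖⁻¹ • x)) ^ 2) -
      hs p (-(‖x‖⁻¹ • x))} ⊆ body p r := by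
  intro x hx
  rw [mem_setOf_eq] at hx
  unfold body
  rw [mem_iInter]
  intro i
  rw [mem_closedBall, dist_eq_norm]
  have hr0 : 0 ≤ r := hR0.trans hRr
  by_cases hx0 : x = 0
  · subst hx0
    rw [zero_sub, norm_neg]
    exact (hR i).trans hRr
  · have hn : 0 < ‖x‖ := norm_pos_iff.mpr hx0
    have ha : 0 ≤ r ^ 2 - R ^ 2 := by nlinarith
    have h2 := radial2_elem ‖x‖ (hs p (-(‖x‖⁻¹ • x))) (r ^ 2 - R ^ 2) hn.le ha hx
    have h3 : inner ℝ (p i) (-(‖x‖⁻¹ • x)) ≤ hs p (-(‖x‖⁻¹ • x)) := radial2_le_hs p _ i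
    rw [inner_neg_right, inner_smul_right] at h3
    have h4 : - inner ℝ (p i) x ≤ ‖x‖ * hs p (-(‖x‖⁻¹ • x)) := by
      have h5 := mul_le_mul_of_nonneg_left h3 hn.le
      have h6 : ‖x‖ * -(‖x‖⁻¹ * inner ℝ (p i) x) = - inner ℝ (p i) x := by
        field_simp
      rw [h6] at h5
      exact h5
    have h7 : ‖x - p i‖ ^ 2 ≤ r ^ 2 := by
      rw [norm_sub_sq_real, real_inner_comm]
      have h8 : ‖p i‖ ^ 2 ≤ R ^ 2 := pow_le_pow_left₀ (norm_nonneg _) (hR i) 2
      nlinarith
    exact le_of_sq_le_sq h7 hr0 |> fun h => h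

private theorem radial2_center {d N : ℕ} (hV : VrBasicStmt) (hP : PolarStmt) (hH : HwBasicStmt)
    (hd : 0 < d) (hN : 0 < N) (p : Fin N → E d) (R r : ℝ) (hR0 : 0 ≤ R) (hRr : R ≤ r)
    (hR : ∀ i, ‖p i‖ ≤ R) :
    Real.sqrt (r ^ 2 - R ^ 2 + hw p ^ 2) - hw p ≤ vr (body p r) := by
  obtain ⟨hmono, -, -, -, -, -⟩ := hV d hd
  obtain ⟨hpol, -⟩ := hP d hd
  obtain ⟨-, -, -, -, hcont, -, hint, hsym⟩ := hH d N hd hN p
  set a := r ^ 2 - R ^ 2 with ha_def
  have ha : 0 ≤ a := by rw [ha_def]; nlinarith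
  have hr0 : 0 ≤ r := hR0.trans hRr
  set F : E d → ℝ := fun x => Real.sqrt (a + hs p (-(‖x‖⁻¹ • x)) ^ 2) - hs p (-(‖x‖⁻¹ • x)) with hF
  have hhm : Measurable (fun x : E d => hs p (-(‖x‖⁻¹ • x))) := by
    apply hcont.measurable.comp
    exact (measurable_norm.inv.smul measurable_id).neg
  have hFm : Measurable F := by
    apply Measurable.sub _ hhm
    exact ((hhm.pow_const 2).const_add a).sqrt
  have hF0 : ∀ x, 0 ≤ F x := by
    intro x
    simp only [hF]
    rw [sub_nonneg]
    apply Real.le_sqrt_of_sq_le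
    linarith
  have hnorm : ∀ x : E d, ‖-(‖x‖⁻¹ • x)‖ ≤ 1 := by
    intro x
    rw [norm_neg, norm_smul, norm_inv, norm_norm]
    by_cases hx : ‖x‖ = 0
    · rw [hx]
      simp
    · rw [inv_mul_cancel₀ hx]
  have hFb : ∀ x, F x ≤ r + R := by
    intro x
    have := radial2_hs_le hN p R hR _ (hnorm x)
    rw [abs_le] at this
    have h1 : Real.sqrt (a + hs p (-(‖x‖⁻¹ • x)) ^ 2) ≤ r := by
      rw [Real.sqrt_le_left hr0, ha_def]
      nlinarith [this.1, this.2]
    simp only [hF]
    linarith [this.1]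
  have hFh : ∀ (c : ℝ) (x : E d), 0 < c → F (c • x) = F x := by
    intro c x hc
    have e : -(‖c • x‖⁻¹ • c • x) = -(‖x‖⁻¹ • x) := by
      congr 1
      rw [norm_smul, Real.norm_eq_abs, abs_of_pos hc, smul_smul, mul_inv]
      congr 1
      field_simp
    simp only [hF, e]
  have hvol := hpol F hFm hF0 hFh
  -- the measure of the unit ball
  have hball0 : volume (ball (0 : E d) 1) ≠ 0 := (measure_ball_pos volume 0 one_pos).ne'
  have hballt : volume (ball (0 : E d) 1) ≠ ⊤ := measure_ball_lt_top.ne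
  set κ := (volume (ball (0 : E d) 1)).toReal with hκ
  have hκ0 : 0 < κ := ENNReal.toReal_pos hball0 hballt
  haveI : Fact (volume (ball (0 : E d) 1) < ⊤) := ⟨measure_ball_lt_top⟩
  -- integrability
  have hFi : IntegrableOn F (ball (0 : E d) 1) := by
    apply Measure.integrableOn_of_bounded (M := r + R) hballt hFm.aestronglyMeasurable
    refine Filter.Eventually.of_forall fun x => ?_
    rw [Real.norm_eq_abs, abs_of_nonneg (hF0 x)]
    exact hFb x
  have hFdi : IntegrableOn (fun x => F x ^ d) (ball (0 : E d) 1) := by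
    apply Measure.integrableOn_of_bounded (M := (r + R) ^ d) hballt
      (hFm.pow_const d).aestronglyMeasurable
    refine Filter.Eventually.of_forall fun x => ?_
    rw [Real.norm_eq_abs, abs_of_nonneg (pow_nonneg (hF0 x) d)]
    exact pow_le_pow_left₀ (hF0 x) (hFb x) d
  -- Jensen
  have hJ : (⨍ x in ball (0 : E d) 1, F x) ^ d ≤ ⨍ x in ball (0 : E d) 1, (F x) ^ d := by
    have := (convexOn_pow d).map_set_average_le (μ := volume) (t := ball (0 : E d) 1) (f := F)
      (continuous_pow d).continuousOn isClosed_Ici hball0 hballt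
      (Filter.Eventually.of_forall fun x => hF0 x) hFi hFdi
    exact this
  -- volume of the star shaped set
  have hvr : vr {x : E d | ‖x‖ ≤ F x} = (⨍ x in ball (0 : E d) 1, (F x) ^ d) ^ ((1 : ℝ) / d) := by
    unfold vr
    rw [hvol]
    congr 1
    have h1 : (∫⁻ x in ball (0 : E d) 1, ENNReal.ofReal (F x) ^ d) =
        ENNReal.ofReal (∫ x in ball (0 : E d) 1, (F x) ^ d) := by
      rw [ofReal_integral_eq_lintegral_ofReal hFdi
        (Filter.Eventually.of_forall fun x => pow_nonneg (hF0 x) d)]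
      apply lintegral_congr
      intro x
      rw [ENNReal.ofReal_pow (hF0 x)]
    rw [h1, ENNReal.toReal_ofReal (integral_nonneg fun x => pow_nonneg (hF0 x) d),
      setAverage_eq, smul_eq_mul, Measure.real, ← hκ]
    rw [div_eq_inv_mul]
  have hd0 : (d : ℝ) ≠ 0 := by
    have : (0 : ℝ) < d := by exact_mod_cast hd
    exact this.ne'
  have hav0 : 0 ≤ ⨍ x in ball (0 : E d) 1, F x := by
    rw [setAverage_eq, smul_eq_mul]
    exact mul_nonneg (inv_nonneg.mpr ENNReal.toReal_nonneg) (integral_nonneg hF0)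
  have h2 : (⨍ x in ball (0 : E d) 1, F x) ≤ vr {x : E d | ‖x‖ ≤ F x} := by
    rw [hvr]
    calc (⨍ x in ball (0 : E d) 1, F x) =
        ((⨍ x in ball (0 : E d) 1, F x) ^ d) ^ ((1 : ℝ) / d) := by
          rw [← Real.rpow_natCast, ← Real.rpow_mul hav0, mul_one_div_cancel hd0, Real.rpow_one]
      _ ≤ (⨍ x in ball (0 : E d) 1, (F x) ^ d) ^ ((1 : ℝ) / d) := by
          apply Real.rpow_le_rpow (pow_nonneg hav0 d) hJ
          positivity
  -- the average of F
  have hint' : IntegrableOn (fun x : E d => hs p (-(‖x‖⁻¹ • x))) (ball (0 : E d) 1) := by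
    apply Measure.integrableOn_of_bounded (M := R) hballt
      ((hcont.measurable.comp (measurable_norm.inv.smul measurable_id).neg).aestronglyMeasurable)
    refine Filter.Eventually.of_forall fun x => ?_
    rw [Real.norm_eq_abs]
    exact radial2_hs_le hN p R hR _ (hnorm x)
  have h3 : Real.sqrt (a + hw p ^ 2) - hw p ≤ ⨍ x in ball (0 : E d) 1, F x := by
    set m := hw p with hm
    set s := Real.sqrt (a + m ^ 2) with hs_def
    rcases (Real.sqrt_nonneg (a + m ^ 2)).eq_or_lt with hs0 | hs0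
    · rw [← hs_def] at hs0
      have h6 : a + m ^ 2 = 0 := by
        have := Real.sq_sqrt (show 0 ≤ a + m ^ 2 by positivity)
        rw [← hs_def, ← hs0] at this
        linarith
      have h7 : m ^ 2 = 0 := by nlinarith [sq_nonneg m]
      have h8 : m = 0 := by nlinarith
      rw [← hs0, h8, sub_zero]
      exact hav0
    rw [← hs_def] at hs0
    have hav : κ⁻¹ * ∫ x in ball (0 : E d) 1, hs p (-(‖x‖⁻¹ • x)) = m := by
      rw [← hsym, setAverage_eq, smul_eq_mul, Measure.real, ← hκ]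
    have h4 : s - m =
        κ⁻¹ * ∫ x in ball (0 : E d) 1, ((s - m / s * m) + (m / s - 1) * hs p (-(‖x‖⁻¹ • x))) := by
      rw [integral_add (integrable_const _) (hint'.const_mul _), integral_const_mul,
        setIntegral_const, smul_eq_mul, Measure.real, ← hκ, mul_add, mul_left_comm κ⁻¹ (m / s - 1),
        hav]
      field_simp
      ring
    rw [h4, setAverage_eq, smul_eq_mul, Measure.real, ← hκ]
    apply mul_le_mul_of_nonneg_left _ (inv_nonneg.mpr hκ0.le)
    apply integral_mono ((integrable_const _).add (hint'.const_mul _)) hFi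
    intro x
    have h9 := radial2_line a m (hs p (-(‖x‖⁻¹ • x))) ha hs0
    rw [← hs_def] at h9
    simp only [hF, Pi.add_apply]
    linarith
  have h5 : vr {x : E d | ‖x‖ ≤ F x} ≤ vr (body p r) := by
    apply hmono _ _ (radial2_sub hN p R r hR0 hRr hR)
    have : body p r ⊆ closedBall (p ⟨0, hN⟩) r := iInter_subset _ _
    exact ((measure_mono this).trans_lt measure_closedBall_lt_top).ne
  exact h3.trans (h2.trans h5)

theorem radial2Stmt (hV : VrBasicStmt) (hP : PolarStmt) (hH : HwBasicStmt) : Radial2Stmt := by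
  intro d N hd hN p o R r hR0 hRr hR
  have h1 := radial2_center hV hP hH hd hN (fun i => p i + (-o)) R r hR0 hRr (by
    intro i
    rw [← sub_eq_add_neg]
    exact hR i)
  obtain ⟨htr, -⟩ := hH d N hd hN p
  rw [htr (-o)] at h1
  obtain ⟨-, -, -, -, -, hvt⟩ := hV d hd
  have h2 : body p r = (fun y => o + y) '' body (fun i => p i + (-o)) r := by
    ext x
    rw [mem_image]
    unfold body
    constructor
    · intro hx
      refine ⟨x - o, ?_, by abel⟩
      rw [mem_iInter] at hx ⊢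
      intro i
      have := hx i
      rw [mem_closedBall, dist_eq_norm] at this ⊢
      have e : x - o - (p i + -o) = x - p i := by abel
      rw [e]
      exact this
    · rintro ⟨y, hy, rfl⟩
      rw [mem_iInter] at hy ⊢
      intro i
      have := hy i
      rw [mem_closedBall, dist_eq_norm] at this ⊢
      have e : o + y - p i = y - (p i + -o) := by abel
      rw [e]
      exact this
  rw [h2, hvt]
  exact h1

end Pool.Agent.Lib.MP_0c1c75_co
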