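import Pool.Agent.Lib.MP_0c1c75_co.Spec3

/-!
MP_0c1c75_co, module Rankin: among `d + 2` vectors of `E d` two have a nonnegative inner product.
-/

namespace Pool.Agent.Lib.MP_0c1c75_co

theorem Rankin.no_negative {d : ℕ} (u : Fin (d + 1) → E d) (w : E d)
    (huu : ∀ i j, i ≠ j → inner ℝ (u i) (u j) < 0) (huw : ∀ i, inner ℝ (u i) w < 0) : False := by
  have hdep : ¬ LinearIndependent ℝ u := by
    intro h
    have h1 := h.fintype_card_le_finrank
    rw [Fintype.card_fin, finrank_euclideanSpace, Fintype.card_fin] at h1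
    omega
  rw [Fintype.not_linearIndependent_iff] at hdep
  obtain ⟨g, hg, i0, hi0⟩ := hdep
  set S : E d := ∑ i, (max (g i) 0) • u i with hS
  set T : E d := ∑ i, (max (-g i) 0) • u i with hT
  have hST : S - T = 0 := by
    rw [hS, hT, ← Finset.sum_sub_distrib, ← hg]
    refine Finset.sum_congr rfl fun i _ => ?_
    rw [← sub_smul]
    congr 1
    rcases le_total (g i) 0 with h | h
    · rw [max_eq_right h, max_eq_left (by linarith)]; ring
    · rw [max_eq_left h, max_eq_right (by linarith)]; ring
  have hST' : S = T := sub_eq_zero.mp hST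
  have hle : inner ℝ S T ≤ 0 := by
    rw [hS, hT, sum_inner]
    refine Finset.sum_nonpos fun i _ => ?_
    rw [inner_sum]
    refine Finset.sum_nonpos fun j _ => ?_
    rw [real_inner_smul_left, real_inner_smul_right]
    by_cases hij : i = j
    · subst hij
      rcases le_total (g i) 0 with h | h
      · rw [max_eq_right h]; simp
      · rw [max_eq_right (show -g i ≤ 0 by linarith)]; simp
    · have h1 := huu i j hij
      have h2 : 0 ≤ max (g i) 0 := le_max_right _ _
      have h3 : 0 ≤ max (-g j) 0 := le_max_right _ _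
      have h4 : 0 ≤ max (g i) 0 * max (-g j) 0 := mul_nonneg h2 h3
      nlinarith
  have hS0 : S = 0 := by
    rw [← hST'] at hle
    rw [real_inner_self_eq_norm_sq] at hle
    exact norm_eq_zero.mp (pow_eq_zero_iff (two_ne_zero) |>.mp (le_antisymm hle (sq_nonneg _)))
  have hT0 : T = 0 := hST' ▸ hS0
  have hsum : ∑ i, |g i| * inner ℝ (u i) w = 0 := by
    have h1 : inner ℝ (S + T) w = 0 := by rw [hS0, hT0]; simp
    rw [hS, hT, ← Finset.sum_add_distrib, sum_inner] at h1
    rw [← h1]
    refine Finset.sum_congr rfl fun i _ => ?_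
    rw [← add_smul, real_inner_smul_left]
    congr 1
    rcases le_total (g i) 0 with h | h
    · rw [max_eq_right h, max_eq_left (by linarith), abs_of_nonpos h]; ring
    · rw [max_eq_left h, max_eq_right (by linarith), abs_of_nonneg h]; ring
  have hneg : ∑ i, |g i| * inner ℝ (u i) w < 0 := by
    refine Finset.sum_neg' (fun i _ => ?_) ⟨i0, Finset.mem_univ _, ?_⟩
    · exact mul_nonpos_of_nonneg_of_nonpos (abs_nonneg _) (huw i).le
    · exact mul_neg_of_pos_of_neg (abs_pos.mpr hi0) (huw i0)
  linarith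

theorem rankinStmt : RankinStmt := by
  intro d N hN p L hL hdist o R hR
  by_contra hlt
  push Not at hlt
  have hneg : ∀ i j, i ≠ j → inner ℝ (p i - o) (p j - o) < 0 := by
    intro i j hij
    have h1 : L ^ 2 ≤ ‖(p i - o) - (p j - o)‖ ^ 2 := by
      have h2 := hdist i j hij
      rw [dist_eq_norm] at h2
      have h3 : (p i - o) - (p j - o) = p i - p j := by abel
      rw [h3]
      exact pow_le_pow_left₀ hL h2 2
    rw [@norm_sub_sq_real] at h1
    have h4 : ‖p i - o‖ ^ 2 ≤ R ^ 2 := pow_le_pow_left₀ (norm_nonneg _) (hR i) 2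
    have h5 : ‖p j - o‖ ^ 2 ≤ R ^ 2 := pow_le_pow_left₀ (norm_nonneg _) (hR j) 2
    linarith
  refine Rankin.no_negative (fun i : Fin (d + 1) => p (Fin.castLE (by omega) i) - o)
    (p ⟨d + 1, by omega⟩ - o) (fun i j hij => hneg _ _ ?_) (fun i => hneg _ _ ?_)
  · intro h
    exact hij (Fin.castLE_injective _ h)
  · intro h
    have h1 := congrArg Fin.val h
    simp only [Fin.val_castLE] at h1
    have h2 := i.2
    omega

end Pool.Agent.Lib.MP_0c1c75_co
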