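import Pool.Agent.Lib.MP_0c1c75_co.Spec3

open MeasureTheory Set Metric

namespace Pool.Agent.Lib.MP_0c1c75_co

namespace Seg3

theorem int_half : ∫ t in Ioi (0 : ℝ), t * Real.exp (-t ^ 2) = 1 / 2 := by
  have h := integral_rpow_mul_exp_neg_rpow (p := 2) (q := 1) (by norm_num) (by norm_num)
  norm_num at h
  simpa using h

theorem int_half3 : ∫ t in Ioi (0 : ℝ), t ^ 2 * (Real.exp (-t ^ 2) * t) = 1 / 2 := by
  have h := integral_rpow_mul_exp_neg_rpow (p := 2) (q := 3) (by norm_num) (by norm_num)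
  have h2 : Real.Gamma ((3 + 1) / 2) = 1 := by
    rw [show ((3 : ℝ) + 1) / 2 = 2 by norm_num, Real.Gamma_two]
  rw [h2, mul_one] at h
  rw [← h]
  refine setIntegral_congr_fun measurableSet_Ioi fun t _ => ?_
  have h3 : t ^ (3 : ℝ) = t ^ 3 := by exact_mod_cast Real.rpow_natCast t 3
  have h4 : t ^ (2 : ℝ) = t ^ 2 := by exact_mod_cast Real.rpow_natCast t 2
  change t ^ 2 * (Real.exp (-t ^ 2) * t) = t ^ (3 : ℝ) * Real.exp (-t ^ (2 : ℝ))
  rw [h3, h4]
  ring

theorem int_abs : ∫ t : ℝ, |t| * Real.exp (-t ^ 2) = 1 := by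
  have h := integral_comp_abs (f := fun t : ℝ => t * Real.exp (-t ^ 2))
  simp only [sq_abs] at h
  rw [h, int_half]
  norm_num

theorem int_gauss : ∫ t : ℝ, Real.exp (-t ^ 2) = Real.sqrt Real.pi := by
  have h := integral_gaussian 1
  simpa using h

theorem norm_int : ∫ x : E 3, Real.exp (-‖x‖ ^ 2) * ‖x‖ = 2 * Real.pi := by
  have h := integral_fun_norm_addHaar (volume : Measure (E 3)) (fun t : ℝ => Real.exp (-t ^ 2) * t)
  rw [h]
  have hv : (volume : Measure (E 3)).real (ball 0 1) = Real.pi * 4 / 3 := by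
    rw [Measure.real, EuclideanSpace.volume_ball_fin_three]
    simp
    positivity
  rw [hv]
  have hd : Module.finrank ℝ (E 3) = 3 := by simp
  rw [hd]
  simp only [smul_eq_mul]
  rw [int_half3]
  simp
  ring

theorem inner_int (e : E 3) (he : ‖e‖ = 1) :
    ∫ x : E 3, Real.exp (-‖x‖ ^ 2) * |inner ℝ e x| = Real.pi := by
  have hv : Orthonormal ℝ (({0} : Set (Fin 3)).domRestrict fun _ : Fin 3 => e) := by
    constructor
    · intro i; exact he
    · intro i j hij
      exact absurd (Subsingleton.elim i j) hij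
  obtain ⟨b, hb⟩ := hv.exists_orthonormalBasis_extension_of_card_eq (ι := Fin 3) (by simp)
  have hb0 : b 0 = e := hb 0 rfl
  have h1 := b.measurePreserving_repr_symm.integral_comp
    (b.repr.symm.toHomeomorph.measurableEmbedding)
    (fun x : E 3 => Real.exp (-‖x‖ ^ 2) * |inner ℝ e x|)
  rw [← h1]
  have h2 : ∀ y : EuclideanSpace ℝ (Fin 3), inner ℝ e (b.repr.symm y) = y 0 := by
    intro y
    rw [← hb0, ← b.repr_apply_apply, LinearIsometryEquiv.apply_symm_apply]
  simp only [h2, LinearIsometryEquiv.norm_map]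
  have h3 := (PiLp.volume_preserving_toLp (Fin 3)).integral_comp
    (MeasurableEquiv.toLp 2 (Fin 3 → ℝ)).measurableEmbedding
    (fun y : E 3 => Real.exp (-‖y‖ ^ 2) * |y 0|)
  rw [← h3]
  let f : Fin 3 → ℝ → ℝ := ![fun t => |t| * Real.exp (-t ^ 2), fun t => Real.exp (-t ^ 2),
    fun t => Real.exp (-t ^ 2)]
  have h4 : ∀ z : Fin 3 → ℝ, Real.exp (-‖(WithLp.toLp 2 z : E 3)‖ ^ 2) *
      |(WithLp.toLp 2 z : E 3) 0| = ∏ i, f i (z i) := by
    intro z
    rw [EuclideanSpace.norm_sq_eq, Fin.sum_univ_three, Fin.prod_univ_three]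
    simp only [f, Real.norm_eq_abs, sq_abs, Matrix.cons_val_zero, Matrix.cons_val_one,
      Matrix.cons_val]
    rw [neg_add, neg_add, Real.exp_add, Real.exp_add]
    ring
  have h5 : ∫ z : Fin 3 → ℝ, Real.exp (-‖(WithLp.toLp 2 z : E 3)‖ ^ 2) *
      |(WithLp.toLp 2 z : E 3) 0| = ∫ z : Fin 3 → ℝ, ∏ i, f i (z i) := by
    congr 1
    funext z
    exact h4 z
  refine h5.trans ?_
  rw [integral_fintype_prod_volume_eq_prod f, Fin.prod_univ_three]
  have e0 : ∫ t, f 0 t = 1 := int_abs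
  have e1 : ∫ t, f 1 t = Real.sqrt Real.pi := int_gauss
  have e2 : ∫ t, f 2 t = Real.sqrt Real.pi := int_gauss
  rw [e0, e1, e2, one_mul, Real.mul_self_sqrt Real.pi_pos.le]

end Seg3

theorem seg3Stmt (hP : PolarStmt) : Seg3Stmt := by
  intro e he
  obtain ⟨C, hC0, hC⟩ := (hP 3 (by norm_num)).2 (fun t => Real.exp (-t ^ 2)) (by fun_prop)
    (fun t => (Real.exp_pos _).le)
  have hint : Integrable (fun x : E 3 => Real.exp (-‖x‖ ^ 2) * ‖x‖) := by
    by_contra hcon
    have h1 := Seg3.norm_int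
    rw [integral_undef hcon] at h1
    have := Real.pi_pos
    linarith
  have hN := hC (fun x => ‖x‖) continuous_norm
    (fun c x hc => by rw [norm_smul, Real.norm_of_nonneg hc]) hint
  have hI := hC (fun x => |inner ℝ e x|) (by fun_prop)
    (fun c x hc => by rw [inner_smul_right, abs_mul, abs_of_nonneg hc]) hint
  rw [Seg3.norm_int] at hN
  rw [Seg3.inner_int e he] at hI
  have hball : ∫ x in ball (0 : E 3) 1, ‖‖x‖⁻¹ • x‖ = (volume : Measure (E 3)).real (ball 0 1) := by
    have h1 : ∫ x in ball (0 : E 3) 1, ‖‖x‖⁻¹ • x‖ = ∫ x in ball (0 : E 3) 1, (1 : ℝ) := by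
      refine integral_congr_ae ?_
      have h0 : ∀ᵐ x : E 3 ∂(volume.restrict (ball (0 : E 3) 1)), x ≠ 0 := by
        refine ae_restrict_of_ae ?_
        have : (volume : Measure (E 3)) {0} = 0 := measure_singleton _
        exact compl_mem_ae_iff.2 this
      filter_upwards [h0] with x hx
      simpa using norm_smul_inv_norm (𝕜 := ℝ) hx
    rw [h1]
    simp
  rw [hball] at hN
  have hv : 0 < (volume : Measure (E 3)).real (ball 0 1) := by
    rw [Measure.real, ENNReal.toReal_pos_iff]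
    exact ⟨measure_ball_pos _ _ one_pos, measure_ball_lt_top⟩
  rw [setAverage_eq, smul_eq_mul]
  set S := ∫ x in ball (0 : E 3) 1, |inner ℝ e (‖x‖⁻¹ • x)| with hS
  have hCv : C ≠ 0 := by
    rintro rfl
    rw [zero_mul] at hN
    have := Real.pi_pos
    linarith
  have h2 : C * (2 * S) = C * (volume : Measure (E 3)).real (ball 0 1) := by
    rw [← hN]
    linarith
  have h3 := mul_left_cancel₀ hCv h2
  rw [← h3]
  have hS0 : S ≠ 0 := by
    intro h
    rw [h] at h3
    linarith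
  field_simp

end Pool.Agent.Lib.MP_0c1c75_co
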