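import Pool.Agent.Lib.MP_0c1c75_co.Spec3

/-!
MP_0c1c75_co, module Seven: numerical lower bound for the width of the regular simplex with
seven vertices.
-/

open MeasureTheory Set Metric

namespace Pool.Agent.Lib.MP_0c1c75_co.Seven

lemma rho_cont : Continuous rho := by
  unfold rho
  fun_prop

lemma rho_nonneg (x : ℝ) : 0 ≤ rho x := by
  unfold rho
  positivity

lemma gauss_int {b : ℝ} (hb : 0 < b) : Integrable (fun x : ℝ => Real.exp (-b * x ^ 2)) :=
  integrable_exp_neg_mul_sq hb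

lemma rho_eq (x : ℝ) : rho x = (Real.sqrt Real.pi)⁻¹ * Real.exp (-1 * x ^ 2) := by
  unfold rho
  rw [neg_mul, one_mul]
  field_simp

lemma rho_int : Integrable rho := by
  have h := (gauss_int one_pos).const_mul (Real.sqrt Real.pi)⁻¹
  refine h.congr (Filter.Eventually.of_forall fun x => ?_)
  exact (rho_eq x).symm

lemma integral_rho : ∫ x, rho x = 1 := by
  have h : (fun x => rho x) = fun x => (Real.sqrt Real.pi)⁻¹ * Real.exp (-1 * x ^ 2) := by
    funext x; exact rho_eq x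
  rw [h, integral_const_mul, integral_gaussian, div_one]
  have : Real.sqrt Real.pi ≠ 0 := by positivity
  field_simp

lemma Psi_cont : Continuous Psi := by
  unfold Psi
  exact intervalIntegral.continuous_primitive (fun a b => rho_cont.intervalIntegrable a b) 0

lemma Psi_le (x : ℝ) : |Psi x| ≤ 1 := by
  unfold Psi
  have h := intervalIntegral.norm_integral_le_integral_norm_uIoc (f := rho) (a := 0) (b := x)
    (μ := volume)
  rw [Real.norm_eq_abs] at h
  refine h.trans ?_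
  have h2 : ∫ t in uIoc 0 x, ‖rho t‖ ≤ ∫ t, ‖rho t‖ :=
    setIntegral_le_integral rho_int.norm (Filter.Eventually.of_forall fun t => norm_nonneg _)
  refine h2.trans ?_
  have h3 : (fun t => ‖rho t‖) = fun t => rho t := by
    funext t; rw [Real.norm_eq_abs, abs_of_nonneg (rho_nonneg t)]
  rw [h3, integral_rho]

lemma rho_even (x : ℝ) : rho (-x) = rho x := by
  unfold rho; rw [neg_sq]

lemma Psi_odd (x : ℝ) : Psi (-x) = - Psi x := by
  unfold Psi
  have h := intervalIntegral.integral_comp_neg (f := rho) (a := 0) (b := x)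
  simp only [neg_zero, rho_even] at h
  rw [h, intervalIntegral.integral_symm (-x) 0]

/-- Gaussian times a bounded continuous function is integrable. -/
lemma int_mul {b : ℝ} (hb : 0 < b) {g : ℝ → ℝ} (hg : Continuous g) {C : ℝ}
    (hC : ∀ x, |g x| ≤ C) : Integrable (fun x : ℝ => Real.exp (-b * x ^ 2) * g x) := by
  have h := (gauss_int hb).bdd_mul (c := C) hg.aestronglyMeasurable
    (Filter.Eventually.of_forall fun x => by rw [Real.norm_eq_abs]; exact hC x)
  refine h.congr (Filter.Eventually.of_forall fun x => ?_)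
  exact mul_comm _ _

lemma Psi_pow (k : ℕ) (x : ℝ) : |Psi x ^ k| ≤ 1 := by
  rw [abs_pow]
  exact pow_le_one₀ (abs_nonneg _) (Psi_le x)

lemma arcsin_lower : 0.339 ≤ Real.arcsin (1 / 3) := by
  have hs : Real.sin 0.339 ≤ 1 / 3 := by
    have h := Real.sin_bound (x := 0.339) (by rw [abs_of_nonneg] <;> norm_num)
    rw [abs_of_nonneg (show (0 : ℝ) ≤ 0.339 by norm_num)] at h
    have := (abs_le.mp h).2
    norm_num at this ⊢
    linarith
  have h2 : Real.arcsin (Real.sin 0.339) = 0.339 := by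
    apply Real.arcsin_sin
    · have := Real.pi_gt_three
      linarith
    · have := Real.pi_gt_three
      linarith
  rw [← h2]
  exact Real.monotone_arcsin hs

lemma arcsin_upper : Real.arcsin (1 / 4) ≤ 0.253 := by
  have hs : 1 / 4 ≤ Real.sin 0.253 := by
    have h := Real.sin_bound (x := 0.253) (by rw [abs_of_nonneg] <;> norm_num)
    rw [abs_of_nonneg (show (0 : ℝ) ≤ 0.253 by norm_num)] at h
    have := (abs_le.mp h).1
    norm_num at this ⊢
    linarith
  have h2 : Real.arcsin (Real.sin 0.253) = 0.253 := by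
    apply Real.arcsin_sin
    · have := Real.pi_gt_three
      linarith
    · have := Real.pi_gt_three
      linarith
  rw [← h2]
  exact Real.monotone_arcsin hs

/-- symmetrization -/
lemma symm_int : ∫ x : ℝ, Real.exp (-2 * x ^ 2) * (1 / 2 + Psi x) ^ 5 =
    ∫ x : ℝ, Real.exp (-2 * x ^ 2) * (1 / 32 + 5 / 4 * Psi x ^ 2 + 5 / 2 * Psi x ^ 4) := by
  have h1 : ∫ x : ℝ, Real.exp (-2 * x ^ 2) * (1 / 2 + Psi x) ^ 5 =
      ∫ x : ℝ, Real.exp (-2 * x ^ 2) * (1 / 2 - Psi x) ^ 5 := by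
    rw [← integral_neg_eq_self]
    congr 1
    funext x
    rw [neg_sq, Psi_odd, sub_eq_add_neg]
  have hi1 : Integrable (fun x : ℝ => Real.exp (-2 * x ^ 2) * (1 / 2 + Psi x) ^ 5) := by
    refine int_mul two_pos ((continuous_const.add Psi_cont).pow 5) (C := (3 / 2) ^ 5) fun x => ?_
    rw [abs_pow]
    refine pow_le_pow_left₀ (abs_nonneg _) ?_ 5
    have := abs_le.mp (Psi_le x)
    rw [abs_le]
    constructor <;> linarith [this.1, this.2]
  have hi2 : Integrable (fun x : ℝ => Real.exp (-2 * x ^ 2) * (1 / 2 - Psi x) ^ 5) := by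
    refine int_mul two_pos ((continuous_const.sub Psi_cont).pow 5) (C := (3 / 2) ^ 5) fun x => ?_
    rw [abs_pow]
    refine pow_le_pow_left₀ (abs_nonneg _) ?_ 5
    have := abs_le.mp (Psi_le x)
    rw [abs_le]
    constructor <;> linarith [this.1, this.2]
  have h2 : 2 * ∫ x : ℝ, Real.exp (-2 * x ^ 2) * (1 / 2 + Psi x) ^ 5 =
      2 * ∫ x : ℝ, Real.exp (-2 * x ^ 2) * (1 / 32 + 5 / 4 * Psi x ^ 2 + 5 / 2 * Psi x ^ 4) := by
    rw [two_mul]
    nth_rewrite 2 [h1]
    rw [← integral_add hi1 hi2, ← integral_const_mul]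
    congr 1
    funext x
    ring
  linarith

lemma lower_int (hK : KintStmt) :
    5 / 2 * (Real.sqrt (Real.pi / 2) * Real.arcsin (1 / 3) / (2 * Real.pi)) -
      5 / 4 * (Real.sqrt (Real.pi / 3) * Real.arcsin (1 / 4) / (2 * Real.pi)) -
      1 / 8 * Real.sqrt (Real.pi / 2) + 5 / 16 * Real.sqrt (Real.pi / 3) -
      5 / 32 * Real.sqrt (Real.pi / 4) ≤
    ∫ x : ℝ, Real.exp (-2 * x ^ 2) * (1 / 2 + Psi x) ^ 5 := by
  rw [symm_int]
  have k2 := hK 2 two_pos
  have k3 := hK 3 three_pos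
  rw [show (1 : ℝ) / (1 + 2) = 1 / 3 by norm_num] at k2
  rw [show (1 : ℝ) / (1 + 3) = 1 / 4 by norm_num] at k3
  have g2 := integral_gaussian 2
  have g3 := integral_gaussian 3
  have g4 := integral_gaussian 4
  rw [← k2, ← k3, ← g2, ← g3, ← g4]
  have i2 : Integrable (fun x : ℝ => Real.exp (-2 * x ^ 2) * Psi x ^ 2) :=
    int_mul two_pos (Psi_cont.pow 2) (Psi_pow 2)
  have i3 : Integrable (fun x : ℝ => Real.exp (-3 * x ^ 2) * Psi x ^ 2) :=
    int_mul three_pos (Psi_cont.pow 2) (Psi_pow 2)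
  have i4 : Integrable (fun x : ℝ => Real.exp (-2 * x ^ 2) * Psi x ^ 4) :=
    int_mul two_pos (Psi_cont.pow 4) (Psi_pow 4)
  have j2 := gauss_int (b := 2) two_pos
  have j3 := gauss_int (b := 3) three_pos
  have j4 := gauss_int (b := 4) four_pos
  have a1 : Integrable (fun x : ℝ => 5 / 2 * (Real.exp (-2 * x ^ 2) * Psi x ^ 2)) :=
    i2.const_mul _
  have a2 : Integrable (fun x : ℝ => 5 / 4 * (Real.exp (-3 * x ^ 2) * Psi x ^ 2)) :=
    i3.const_mul _
  have a3 : Integrable (fun x : ℝ => 1 / 8 * Real.exp (-2 * x ^ 2)) := j2.const_mul _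
  have a4 : Integrable (fun x : ℝ => 5 / 16 * Real.exp (-3 * x ^ 2)) := j3.const_mul _
  have a5 : Integrable (fun x : ℝ => 5 / 32 * Real.exp (-4 * x ^ 2)) := j4.const_mul _
  have b2 : Integrable (fun x : ℝ => 5 / 2 * (Real.exp (-2 * x ^ 2) * Psi x ^ 2) -
      5 / 4 * (Real.exp (-3 * x ^ 2) * Psi x ^ 2)) := a1.sub a2
  have b3 : Integrable (fun x : ℝ => 5 / 2 * (Real.exp (-2 * x ^ 2) * Psi x ^ 2) -
      5 / 4 * (Real.exp (-3 * x ^ 2) * Psi x ^ 2) - 1 / 8 * Real.exp (-2 * x ^ 2)) := b2.sub a3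
  have b4 : Integrable (fun x : ℝ => 5 / 2 * (Real.exp (-2 * x ^ 2) * Psi x ^ 2) -
      5 / 4 * (Real.exp (-3 * x ^ 2) * Psi x ^ 2) - 1 / 8 * Real.exp (-2 * x ^ 2) +
      5 / 16 * Real.exp (-3 * x ^ 2)) := b3.add a4
  rw [← integral_const_mul, ← integral_const_mul, ← integral_const_mul, ← integral_const_mul,
    ← integral_const_mul, ← integral_sub a1 a2, ← integral_sub b2 a3, ← integral_add b3 a4,
    ← integral_sub b4 a5]
  apply integral_mono
  · exact b4.sub a5
  · have h := ((j2.const_mul (1 / 32)).add (i2.const_mul (5 / 4))).add (i4.const_mul (5 / 2))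
    refine h.congr (Filter.Eventually.of_forall fun x => ?_)
    simp only [Pi.add_apply]
    ring
  · intro x
    have e3 : Real.exp (-3 * x ^ 2) = Real.exp (-2 * x ^ 2) * Real.exp (-x ^ 2) := by
      rw [← Real.exp_add]; congr 1; ring
    have e4 : Real.exp (-4 * x ^ 2) = Real.exp (-2 * x ^ 2) * Real.exp (-x ^ 2) ^ 2 := by
      rw [← Real.exp_nat_mul, ← Real.exp_add]; congr 1; push_cast; ring
    simp only [e3, e4]
    have hp : 0 ≤ Real.exp (-2 * x ^ 2) := (Real.exp_pos _).le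
    generalize Real.exp (-2 * x ^ 2) = a at hp
    generalize Real.exp (-x ^ 2) = t
    generalize Psi x = P
    have : a * (1 / 32 + 5 / 4 * P ^ 2 + 5 / 2 * P ^ 4) -
        (5 / 2 * (a * P ^ 2) - 5 / 4 * (a * t * P ^ 2) - 1 / 8 * a + 5 / 16 * (a * t) -
          5 / 32 * (a * t ^ 2)) = a * (5 / 2 * (P ^ 2 - (1 - t) / 4) ^ 2) := by ring
    have h2 : 0 ≤ a * (5 / 2 * (P ^ 2 - (1 - t) / 4) ^ 2) := by positivity
    linarith

end Seven

theorem sevenStmt (hS : SplxWidthStmt) (hK : KintStmt) : SevenStmt := by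
  unfold SevenStmt
  have h := hS 7 (by norm_num)
  rw [h]
  have h1 : ∫ x : ℝ, rho x ^ 2 * (1 / 2 + Psi x) ^ (7 - 2) =
      Real.pi⁻¹ * ∫ x : ℝ, Real.exp (-2 * x ^ 2) * (1 / 2 + Psi x) ^ 5 := by
    rw [← integral_const_mul]
    congr 1
    funext x
    unfold rho
    rw [div_pow, Real.sq_sqrt Real.pi_pos.le, ← Real.exp_nat_mul]
    have : ((2 : ℕ) : ℝ) * (-x ^ 2) = -2 * x ^ 2 := by push_cast; ring
    rw [this]
    norm_num
    field_simp
  rw [h1]
  have hL := Seven.lower_int hK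
  have hA := Seven.arcsin_lower
  have hB := Seven.arcsin_upper
  have hpi := Real.pi_pos
  set s := Real.sqrt Real.pi with hs
  have hs0 : 0 < s := Real.sqrt_pos.mpr hpi
  have hss : s * s = Real.pi := Real.mul_self_sqrt hpi.le
  have hpi1 : Real.pi < 3.1416 := Real.pi_lt_d4
  have hs1 : s < 1.7725 := by
    rw [hs, Real.sqrt_lt' (by norm_num)]
    refine hpi1.trans ?_
    norm_num
  have q2 : Real.sqrt (Real.pi / 2) = s * (Real.sqrt 2)⁻¹ := by
    rw [Real.sqrt_div' _ (by norm_num), div_eq_mul_inv]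
  have q3 : Real.sqrt (Real.pi / 3) = s * (Real.sqrt 3)⁻¹ := by
    rw [Real.sqrt_div' _ (by norm_num), div_eq_mul_inv]
  have q4 : Real.sqrt (Real.pi / 4) = s * 2⁻¹ := by
    rw [Real.sqrt_div' _ (by norm_num), div_eq_mul_inv, show (4 : ℝ) = 2 ^ 2 by norm_num,
      Real.sqrt_sq (by norm_num)]
  rw [q2, q3, q4] at hL
  set J := ∫ x : ℝ, Real.exp (-2 * x ^ 2) * (1 / 2 + Psi x) ^ 5 with hJ
  set A := Real.arcsin (1 / 3) with hAd
  set B := Real.arcsin (1 / 4) with hBd
  have t2l : 0.7071 ≤ (Real.sqrt 2)⁻¹ := by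
    rw [← one_div, le_div_iff₀ (by positivity)]
    have : Real.sqrt 2 ≤ 1.41422 := by
      rw [Real.sqrt_le_left (by norm_num)]; norm_num
    nlinarith
  have t2u : (Real.sqrt 2)⁻¹ ≤ 0.70711 := by
    rw [← one_div, div_le_iff₀ (by positivity)]
    have : 1.41421 ≤ Real.sqrt 2 := by
      apply Real.le_sqrt_of_sq_le; norm_num
    nlinarith
  have t3l : 0.57735 ≤ (Real.sqrt 3)⁻¹ := by
    rw [← one_div, le_div_iff₀ (by positivity)]
    have : Real.sqrt 3 ≤ 1.732051 := by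
      rw [Real.sqrt_le_left (by norm_num)]; norm_num
    nlinarith
  have t3u : (Real.sqrt 3)⁻¹ ≤ 0.57736 := by
    rw [← one_div, div_le_iff₀ (by positivity)]
    have : 1.73204 ≤ Real.sqrt 3 := by
      apply Real.le_sqrt_of_sq_le; norm_num
    nlinarith
  generalize (Real.sqrt 2)⁻¹ = u at *
  generalize (Real.sqrt 3)⁻¹ = v at *
  -- the bracket
  have hbr : s * (0.0802) ≤ J := by
    refine le_trans ?_ hL
    have e1 : 5 / 2 * (s * u * A / (2 * Real.pi)) - 5 / 4 * (s * v * B / (2 * Real.pi)) -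
        1 / 8 * (s * u) + 5 / 16 * (s * v) - 5 / 32 * (s * 2⁻¹) =
        s * ((5 / 2 * u * A - 5 / 4 * v * B) / (2 * Real.pi) - 1 / 8 * u + 5 / 16 * v - 5 / 64) := by
      field_simp
      ring
    rw [e1]
    refine mul_le_mul_of_nonneg_left ?_ hs0.le
    have e2 : 0.4166 ≤ 5 / 2 * u * A - 5 / 4 * v * B := by
      have h1 : 0.7071 * 0.339 ≤ u * A := mul_le_mul t2l hA (by norm_num) (by linarith)
      have h2 : v * B ≤ 0.57736 * 0.253 := by
        have hB0 : 0 ≤ B := Real.arcsin_nonneg.mpr (by norm_num)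
        exact mul_le_mul t3u hB hB0 (by norm_num)
      nlinarith
    have e3 : 0.0663 ≤ (5 / 2 * u * A - 5 / 4 * v * B) / (2 * Real.pi) := by
      rw [le_div_iff₀ (by positivity)]
      nlinarith
    linarith
  have hfin : (0.66923 : ℝ) ≤ u * ((7 : ℝ) * ((7 : ℝ) - 1) / 2 * (Real.pi⁻¹ * J)) := by
    have h2 : Real.pi⁻¹ * J ≥ Real.pi⁻¹ * (s * 0.0802) :=
      mul_le_mul_of_nonneg_left hbr (by positivity)
    have h3 : Real.pi⁻¹ * (s * 0.0802) = 0.0802 / s := by
      rw [← hss]; field_simp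
    have h4 : 0.0802 / 1.7725 ≤ 0.0802 / s := by
      apply div_le_div_of_nonneg_left (by norm_num) hs0 hs1.le
    have h5 : 0.0802 / 1.7725 ≤ Real.pi⁻¹ * J := by linarith
    have h6 : (7 : ℝ) * ((7 : ℝ) - 1) / 2 * (0.0802 / 1.7725) ≤
        (7 : ℝ) * ((7 : ℝ) - 1) / 2 * (Real.pi⁻¹ * J) :=
      mul_le_mul_of_nonneg_left h5 (by norm_num)
    have h7 : 0.7071 * ((7 : ℝ) * ((7 : ℝ) - 1) / 2 * (0.0802 / 1.7725)) ≤
        u * ((7 : ℝ) * ((7 : ℝ) - 1) / 2 * (Real.pi⁻¹ * J)) :=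
      mul_le_mul t2l h6 (by norm_num) (by linarith)
    refine le_trans ?_ h7
    norm_num
  exact_mod_cast hfin

end Pool.Agent.Lib.MP_0c1c75_co
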