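import Pool.Agent.Lib.MP_0c1c75_co.Spec3

/-!
Module SplxWidth: the Gaussian width of the regular simplex.
-/

open MeasureTheory Set Metric Filter
open scoped Topology

namespace Pool.Agent.Lib.MP_0c1c75_co

namespace SplxWidth

/-! ### One variable -/

lemma rho_nonneg (x : ℝ) : 0 ≤ rho x := by unfold rho; positivity

lemma rho_cont : Continuous rho := by unfold rho; fun_prop

lemma rho_eq : rho = fun x => Real.exp (-1 * x ^ 2) * (Real.sqrt Real.pi)⁻¹ := by
  funext x
  rw [rho, neg_one_mul, div_eq_mul_inv]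

lemma rho_int : Integrable rho := by
  rw [rho_eq]
  exact (integrable_exp_neg_mul_sq one_pos).mul_const _

lemma sqrt_pi_pos : 0 < Real.sqrt Real.pi := Real.sqrt_pos.2 Real.pi_pos

lemma integral_rho : ∫ x : ℝ, rho x = 1 := by
  rw [rho_eq, integral_mul_const, integral_gaussian, div_one]
  exact mul_inv_cancel₀ sqrt_pi_pos.ne'

lemma integral_Ioi_rho : ∫ x in Ioi (0 : ℝ), rho x = 1 / 2 := by
  rw [rho_eq, integral_mul_const, integral_gaussian_Ioi, div_one]
  have := sqrt_pi_pos.ne'
  field_simp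

lemma integral_Iic_rho : ∫ x in Iic (0 : ℝ), rho x = 1 / 2 := by
  have h := intervalIntegral.integral_Iic_add_Ioi (b := (0 : ℝ)) rho_int.integrableOn
    rho_int.integrableOn
  rw [integral_Ioi_rho, integral_rho] at h
  linarith

/-- the distribution function -/
noncomputable def F (t : ℝ) : ℝ := 1 / 2 + Psi t

lemma F_eq (t : ℝ) : F t = ∫ x in Iic t, rho x := by
  have h := intervalIntegral.integral_Iic_sub_Iic (a := (0 : ℝ)) (b := t) (f := rho)
    (μ := volume) rho_int.integrableOn rho_int.integrableOn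
  rw [integral_Iic_rho] at h
  rw [F, Psi, ← h]
  ring

lemma F_nonneg (t : ℝ) : 0 ≤ F t := by
  rw [F_eq]
  exact integral_nonneg rho_nonneg

lemma F_le_one (t : ℝ) : F t ≤ 1 := by
  rw [F_eq, ← integral_rho]
  exact setIntegral_le_integral rho_int (Filter.Eventually.of_forall rho_nonneg)

lemma F_deriv (t : ℝ) : HasDerivAt F (rho t) t := by
  have h : HasDerivAt Psi (rho t) t := by
    have := (rho_cont.integral_hasStrictDerivAt 0 t).hasDerivAt
    exact this
  exact h.const_add (1 / 2)

lemma F_cont : Continuous F :=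
  continuous_iff_continuousAt.2 fun t => (F_deriv t).continuousAt

lemma F_atBot : Tendsto F atBot (𝓝 0) := by
  have h := intervalIntegral_tendsto_integral_Iic (μ := volume) (f := rho) (0 : ℝ)
    rho_int.integrableOn (tendsto_id (α := ℝ) (x := atBot))
  rw [integral_Iic_rho] at h
  have h2 : F = fun t => 1 / 2 - ∫ x in (id t)..0, rho x := by
    funext t
    change 1 / 2 + (∫ x in (0 : ℝ)..t, rho x) = 1 / 2 - ∫ x in t..0, rho x
    rw [intervalIntegral.integral_symm t 0]
    ring
  rw [h2]
  have h3 := h.const_sub (1 / 2 : ℝ)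
  simpa using h3

lemma F_pow_deriv (n : ℕ) (t : ℝ) :
    HasDerivAt (fun t => F t ^ n) ((n : ℝ) * F t ^ (n - 1) * rho t) t :=
  (F_deriv t).pow n

/-- density of the maximum -/
noncomputable def dens (N : ℕ) (t : ℝ) : ℝ := (N : ℝ) * F t ^ (N - 1) * rho t

lemma dens_nonneg (N : ℕ) (t : ℝ) : 0 ≤ dens N t := by
  unfold dens
  have := F_nonneg t
  have := rho_nonneg t
  positivity

lemma dens_cont (N : ℕ) : Continuous (dens N) := by
  unfold dens
  exact (continuous_const.mul (F_cont.pow _)).mul rho_cont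

/-- bounded times integrable -/
lemma F_pow_mul_int (n : ℕ) {g : ℝ → ℝ} (hg : Integrable g) :
    Integrable fun t => F t ^ n * g t := by
  refine hg.bdd_mul (c := 1) (F_cont.pow n).aestronglyMeasurable ?_
  refine Filter.Eventually.of_forall fun t => ?_
  rw [norm_pow, Real.norm_of_nonneg (F_nonneg t)]
  exact pow_le_one₀ (F_nonneg t) (F_le_one t)

lemma dens_int (N : ℕ) : Integrable (dens N) := by
  have h := (F_pow_mul_int (N - 1) rho_int).const_mul (N : ℝ)
  refine h.congr (Filter.Eventually.of_forall fun t => ?_)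
  simp only [dens]
  ring

lemma integral_dens (N : ℕ) (hN : 0 < N) (t : ℝ) : ∫ x in Iic t, dens N x = F t ^ N := by
  have h := integral_Iic_of_hasDerivAt_of_tendsto' (a := t) (f := fun t => F t ^ N)
    (f' := dens N) (m := 0) (fun x _ => F_pow_deriv N x) (dens_int N).integrableOn
    (by
      have := F_atBot.pow N
      rwa [zero_pow hN.ne'] at this)
  rw [h, sub_zero]

lemma mul_rho_int : Integrable fun x : ℝ => x * rho x := by
  rw [rho_eq]
  have h := (integrable_mul_exp_neg_mul_sq (b := 1) one_pos).mul_const (Real.sqrt Real.pi)⁻¹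
  refine h.congr (Filter.Eventually.of_forall fun t => ?_)
  ring

lemma rho_deriv (x : ℝ) : HasDerivAt (fun x => -(rho x) / 2) (x * rho x) x := by
  unfold rho
  have h : HasDerivAt (fun x : ℝ => Real.exp (-x ^ 2)) (Real.exp (-x ^ 2) * (-(2 * x))) x := by
    have h1 : HasDerivAt (fun x : ℝ => -x ^ 2) (-(2 * x)) x := by
      have h0 : HasDerivAt (fun x : ℝ => -(x ^ 2)) (-((2 : ℕ) * x ^ (2 - 1))) x :=
        (hasDerivAt_pow 2 x).neg
      have h3 : -((2 : ℕ) * x ^ (2 - 1)) = -(2 * x) := by norm_num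
      rw [h3] at h0
      exact h0
    exact h1.exp
  have h2 : HasDerivAt (fun x : ℝ => -(Real.exp (-x ^ 2) / Real.sqrt Real.pi) / 2)
      (-(Real.exp (-x ^ 2) * (-(2 * x)) / Real.sqrt Real.pi) / 2) x :=
    (h.div_const (Real.sqrt Real.pi)).neg.div_const 2
  have h3 : -(Real.exp (-x ^ 2) * (-(2 * x)) / Real.sqrt Real.pi) / 2 =
      x * (Real.exp (-x ^ 2) / Real.sqrt Real.pi) := by ring
  rw [h3] at h2
  exact h2

/-- Partial integration. -/
lemma parts (N : ℕ) (hN : 2 ≤ N) : ∫ t : ℝ, dens N t * t =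
    ((N : ℝ) * ((N : ℝ) - 1) / 2) * ∫ x : ℝ, rho x ^ 2 * (1 / 2 + Psi x) ^ (N - 2) := by
  have hc : ((N - 1 : ℕ) : ℝ) = (N : ℝ) - 1 := by
    push_cast [Nat.cast_sub (by omega : 1 ≤ N)]
    ring
  have hrho2 : Integrable fun x => rho x * rho x := by
    refine rho_int.bdd_mul (c := (Real.sqrt Real.pi)⁻¹) rho_cont.aestronglyMeasurable ?_
    refine Filter.Eventually.of_forall fun t => ?_
    rw [Real.norm_of_nonneg (rho_nonneg t), rho, div_eq_mul_inv]
    have : Real.exp (-t ^ 2) ≤ 1 := Real.exp_le_one_iff.2 (by nlinarith [sq_nonneg t])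
    have := inv_pos.2 sqrt_pi_pos
    nlinarith
  have h := integral_mul_deriv_eq_deriv_mul_of_integrable
    (u := fun t => F t ^ (N - 1)) (u' := fun t => ((N - 1 : ℕ) : ℝ) * F t ^ (N - 1 - 1) * rho t)
    (v := fun x => -(rho x) / 2) (v' := fun x => x * rho x)
    (fun x _ => F_pow_deriv (N - 1) x) (fun x _ => rho_deriv x)
    (F_pow_mul_int (N - 1) mul_rho_int)
    (by
      have h := (F_pow_mul_int (N - 1 - 1) hrho2).const_mul (-(((N - 1 : ℕ) : ℝ)) / 2)
      refine h.congr (Filter.Eventually.of_forall fun t => ?_)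
      simp only [Pi.mul_apply]
      ring)
    (by
      have h := (F_pow_mul_int (N - 1) rho_int).const_mul (-(1 / 2))
      refine h.congr (Filter.Eventually.of_forall fun t => ?_)
      simp only [Pi.mul_apply]
      ring)
  have h1 : ∫ t : ℝ, dens N t * t = (N : ℝ) * ∫ t, F t ^ (N - 1) * (t * rho t) := by
    rw [← integral_const_mul]
    refine integral_congr_ae (Filter.Eventually.of_forall fun t => ?_)
    simp only [dens]
    ring
  rw [h1, h, ← integral_neg, ← integral_const_mul, ← integral_const_mul]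
  refine integral_congr_ae (Filter.Eventually.of_forall fun t => ?_)
  have h2 : N - 1 - 1 = N - 2 := by omega
  simp only [hc, h2, F]
  ring

/-! ### The maximum -/

section maximum

variable {N : ℕ}

/-- maximum of the coordinates -/
noncomputable def M (y : Fin N → ℝ) : ℝ := ⨆ i, y i

lemma M_meas : Measurable (M : (Fin N → ℝ) → ℝ) :=
  Measurable.iSup fun i => measurable_pi_apply i

/-- joint density -/
noncomputable def g (y : Fin N → ℝ) : ℝ := ∏ i, rho (y i)

lemma g_nonneg (y : Fin N → ℝ) : 0 ≤ g y := Finset.prod_nonneg fun _ _ => rho_nonneg _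

lemma g_cont : Continuous (g : (Fin N → ℝ) → ℝ) := by
  unfold g
  exact continuous_finsetProd _ fun i _ => rho_cont.comp (continuous_apply i)

lemma g_int : Integrable (g : (Fin N → ℝ) → ℝ) :=
  Integrable.fintype_prod (μ := fun _ => volume) (f := fun (_ : Fin N) x => rho x)
    fun _ => rho_int

lemma M_le (hN : 0 < N) (y : Fin N → ℝ) (t : ℝ) : M y ≤ t ↔ ∀ i, y i ≤ t := by
  have : Nonempty (Fin N) := ⟨⟨0, hN⟩⟩
  exact ciSup_le_iff (Set.finite_range _).bddAbove

lemma g_Iic (hN : 0 < N) (t : ℝ) :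
    ∫ y in (M : (Fin N → ℝ) → ℝ) ⁻¹' (Iic t), g y = F t ^ N := by
  rw [← integral_indicator (M_meas measurableSet_Iic)]
  have h : (fun y : Fin N → ℝ => ((M : (Fin N → ℝ) → ℝ) ⁻¹' (Iic t)).indicator g y) =
      fun y => ∏ i, (Iic t).indicator rho (y i) := by
    classical
    funext y
    by_cases hy : ∀ i, y i ≤ t
    · rw [Set.indicator_of_mem (show y ∈ M ⁻¹' (Iic t) from (M_le hN y t).2 hy)]
      exact Finset.prod_congr rfl fun i _ =>
        (Set.indicator_of_mem (show y i ∈ Iic t from hy i) rho).symm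
    · rw [Set.indicator_of_notMem (show y ∉ M ⁻¹' (Iic t) from fun h => hy ((M_le hN y t).1 h))]
      push Not at hy
      obtain ⟨i, hi⟩ := hy
      exact (Finset.prod_eq_zero (Finset.mem_univ i)
        (Set.indicator_of_notMem (fun h : y i ∈ Iic t => absurd h (not_le.2 hi)) _)).symm
  rw [h, integral_fintype_prod_volume_eq_pow (fun x => (Iic t).indicator rho x),
    integral_indicator measurableSet_Iic, ← F_eq, Fintype.card_fin]

/-- The law of the maximum. -/
lemma law (hN : 0 < N) :
    Measure.map M ((volume : Measure (Fin N → ℝ)).withDensity fun y => ENNReal.ofReal (g y)) =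
      (volume : Measure ℝ).withDensity fun t => ENNReal.ofReal (dens N t) := by
  have hfin : IsFiniteMeasure
      ((volume : Measure (Fin N → ℝ)).withDensity fun y => ENNReal.ofReal (g y)) :=
    isFiniteMeasure_withDensity_ofReal g_int.2
  refine Measure.ext_of_Iic _ _ fun t => ?_
  rw [Measure.map_apply M_meas measurableSet_Iic, withDensity_apply _ (M_meas measurableSet_Iic),
    withDensity_apply _ measurableSet_Iic,
    ← ofReal_integral_eq_lintegral_ofReal g_int.integrableOn
      (Filter.Eventually.of_forall g_nonneg),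
    ← ofReal_integral_eq_lintegral_ofReal (dens_int N).integrableOn
      (Filter.Eventually.of_forall (dens_nonneg N)), g_Iic hN, integral_dens N hN]

lemma integral_M (hN : 0 < N) : ∫ y : Fin N → ℝ, g y * M y = ∫ t : ℝ, dens N t * t := by
  have h1 := integral_withDensity_eq_integral_toReal_smul
    (μ := (volume : Measure (Fin N → ℝ))) (f := fun y => ENNReal.ofReal (g y))
    (g_cont.measurable.ennreal_ofReal) (Filter.Eventually.of_forall fun _ => ENNReal.ofReal_lt_top)
    (M : (Fin N → ℝ) → ℝ)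
  have h2 := integral_withDensity_eq_integral_toReal_smul
    (μ := (volume : Measure ℝ)) (f := fun t => ENNReal.ofReal (dens N t))
    ((dens_cont N).measurable.ennreal_ofReal)
    (Filter.Eventually.of_forall fun _ => ENNReal.ofReal_lt_top) (fun t : ℝ => t)
  rw [← law hN, integral_map (f := fun t : ℝ => t) M_meas.aemeasurable
    measurable_id.aestronglyMeasurable] at h2
  simp only [smul_eq_mul, ENNReal.toReal_ofReal (g_nonneg _)] at h1
  simp only [smul_eq_mul, ENNReal.toReal_ofReal (dens_nonneg N _)] at h2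
  rw [← h1, ← h2]

end maximum

lemma norm_sq_toLp {N : ℕ} (y : Fin N → ℝ) :
    Real.exp (-‖WithLp.toLp 2 y‖ ^ 2) = Real.sqrt Real.pi ^ N * g y := by
  have h : ∀ x : ℝ, Real.sqrt Real.pi * rho x = Real.exp (-x ^ 2) := by
    intro x
    rw [rho, mul_div_cancel₀]
    exact sqrt_pi_pos.ne'
  have h2 : Real.sqrt Real.pi ^ N * g y = ∏ i, (Real.sqrt Real.pi * rho (y i)) := by
    rw [Finset.prod_mul_distrib, Finset.prod_const, Finset.card_univ, Fintype.card_fin, g]
  rw [h2, EuclideanSpace.norm_sq_eq, ← Finset.sum_neg_distrib, Real.exp_sum]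
  refine Finset.prod_congr rfl fun i _ => ?_
  rw [h]
  simp

lemma hs_splx {N : ℕ} (y : Fin N → ℝ) :
    hs (splx N) (WithLp.toLp 2 y) = (Real.sqrt 2)⁻¹ * M y := by
  rw [hs, M, Real.mul_iSup_of_nonneg (by positivity)]
  congr 1
  funext i
  rw [splx, real_inner_smul_left, EuclideanSpace.inner_single_left]
  simp

end SplxWidth

open SplxWidth in
/-- Module SplxWidth. -/
theorem splxWidthStmt : SplxWidthStmt := by
  intro N hN
  have hN0 : 0 < N := by omega
  have hmp := PiLp.volume_preserving_toLp (Fin N)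
  have hme : MeasurableEmbedding (@WithLp.toLp 2 (Fin N → ℝ)) :=
    (MeasurableEquiv.toLp 2 (Fin N → ℝ)).measurableEmbedding
  have hC : Real.sqrt Real.pi ^ N ≠ 0 := pow_ne_zero _ sqrt_pi_pos.ne'
  rw [gwid, ← hmp.integral_comp hme, ← hmp.integral_comp hme, ← parts N hN, ← integral_M hN0]
  simp only [norm_sq_toLp, hs_splx]
  rw [integral_const_mul]
  have hg : ∫ y : Fin N → ℝ, g y = 1 := by
    unfold g
    rw [integral_fintype_prod_volume_eq_pow rho, integral_rho, one_pow]
  rw [hg, mul_one]
  have h1 : ∫ y : Fin N → ℝ, Real.sqrt Real.pi ^ N * g y * ((Real.sqrt 2)⁻¹ * M y) =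
      Real.sqrt Real.pi ^ N * ((Real.sqrt 2)⁻¹ * ∫ y : Fin N → ℝ, g y * M y) := by
    rw [← integral_const_mul, ← integral_const_mul]
    refine integral_congr_ae (Filter.Eventually.of_forall fun y => ?_)
    ring
  rw [h1, mul_div_cancel_left₀ _ hC]

end Pool.Agent.Lib.MP_0c1c75_co
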