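import Pool.Agent.Lib.MP_0c1c75_co.Thm1b

/-!
MP_0c1c75_co: Theorem 4 (uniform contractions).
-/

open MeasureTheory Set Metric

namespace Pool.Agent.Lib.MP_0c1c75_co

namespace Thm4

/-- the inequality behind the criterion for uniform contractions -/
lemma real_crit {D L R B ρ b : ℝ} (hD : 1 ≤ D) (hL : 0 < L) (hR : L ^ 2 ≤ 2 * R ^ 2) (hB0 : 0 < B)
    (hBR : B ≤ R) (hb : b ≤ L / 2) (hρ : ρ ^ 2 ≤ D / (2 * (D + 1)) * L ^ 2)
    (hBL : 1 / 2 * L ≤ B) (hx : 1 / 2 * L ^ 2 ≤ B ^ 2 + B * L / (D + 1)) :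
    b * (R ^ 2 - B ^ 2) ≤ B * (R ^ 2 - ρ ^ 2) := by
  have hD1 : 0 < D + 1 := by linarith
  have hbB : b ≤ B := by linarith
  have hDD : D / (2 * (D + 1)) = 1 / 2 - 1 / (2 * (D + 1)) := by
    field_simp
    ring
  have hBρ : B * ρ ^ 2 ≤ B * (1 / 2 * L ^ 2 - L ^ 2 / (2 * (D + 1))) := by
    apply mul_le_mul_of_nonneg_left _ hB0.le
    rw [hDD] at hρ
    calc ρ ^ 2 ≤ (1 / 2 - 1 / (2 * (D + 1))) * L ^ 2 := hρ
      _ = _ := by ring
  suffices h : 0 ≤ R ^ 2 * (B - b) + b * B ^ 2 - B * ρ ^ 2 by nlinarith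
  rcases le_total (L ^ 2) (2 * B ^ 2) with hc | hc
  · have h1 : B ^ 2 * (B - b) ≤ R ^ 2 * (B - b) := by
      apply mul_le_mul_of_nonneg_right _ (by linarith)
      nlinarith
    have h2 : 0 ≤ L ^ 2 / (2 * (D + 1)) := by positivity
    have h3 : B * (1 / 2 * L ^ 2 - L ^ 2 / (2 * (D + 1))) ≤ B * B ^ 2 := by
      apply mul_le_mul_of_nonneg_left _ hB0.le
      linarith
    nlinarith
  · have h1 : L ^ 2 / 2 * (B - b) ≤ R ^ 2 * (B - b) := by
      apply mul_le_mul_of_nonneg_right _ (by linarith)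
      linarith
    have h2 : b * (L ^ 2 / 2 - B ^ 2) ≤ L / 2 * (L ^ 2 / 2 - B ^ 2) := by
      apply mul_le_mul_of_nonneg_right hb
      linarith
    have h3 : L / 2 * (1 / 2 * L ^ 2) ≤ L / 2 * (B ^ 2 + B * L / (D + 1)) :=
      mul_le_mul_of_nonneg_left hx (by linarith)
    have h4 : B * (L ^ 2 / (2 * (D + 1))) = L / 2 * (B * L / (D + 1)) := by
      field_simp
    nlinarith

/-- uniform contractions, given a lower bound of the half mean width -/
lemma uniform_of_width (hC : CircumStmt) (hCA : CircumAppStmt) (hV : VrBasicStmt)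
    (hU : UrysohnStmt) (hRad : Radial2Stmt) (hH : HwBasicStmt) (hS : SegStmt) (hJ : JungStmt)
    (hD : DiamStmt) (hRk : RankinStmt) {d N : ℕ} (hd : 0 < d) (hdN : d + 2 ≤ N)
    (p q : Fin N → E d) {L : ℝ} (hL : 0 < L)
    (huni : ∀ i j, i ≠ j → dist (q i) (q j) ≤ L ∧ L ≤ dist (p i) (p j)) {x : ℝ}
    (hx1 : 1 / 2 ≤ x) (hx2 : 1 / 2 ≤ x ^ 2 + x / ((d : ℝ) + 1)) (hxB : x * L ≤ hw p) (r : ℝ) :
    volume (body p r) ≤ volume (body q r) := by
  have hN : 0 < N := by omega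
  have hqd : ∀ i j, dist (q i) (q j) ≤ L := by
    intro i j
    rcases eq_or_ne i j with rfl | h
    · rw [dist_self]; exact hL.le
    · exact (huni i j h).1
  obtain ⟨l, o, R, hl, hl1, ho, hR, hpo, hRR⟩ := hC d N hN p
  obtain ⟨l', o', ρ, hl', hl1', ho', hρ, hqo, hρρ⟩ := hC d N hN q
  have hcp := Thm1.circ_eq hCA hN p l o R hl hl1 ho hR hpo hRR
  have hcq := Thm1.circ_eq hCA hN q l' o' ρ hl' hl1' ho' hρ hqo hρρ
  have hRL : L ^ 2 ≤ 2 * R ^ 2 := hRk d N hdN p L hL.le (fun i j h => (huni i j h).2) o R hpo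
  have hR0 : 0 < R := by
    rcases hR.eq_or_lt with h | h
    · rw [← h] at hRL
      nlinarith
    · exact h
  have hBR : hw p ≤ R := (hH d N hd hN p).2.2.2.1 o R hpo
  have hb : hw q ≤ L / 2 := hD d N hd hN q L hqd
  have hρL : ρ ^ 2 ≤ (d : ℝ) / (2 * ((d : ℝ) + 1)) * L ^ 2 := by
    obtain ⟨o2, ρ2, hρ2, hqo2, hρ2L⟩ := hJ d N hN q L hqd
    have h1 : ρ ≤ ρ2 := by
      rw [← hcq]
      exact csInf_le ⟨0, fun x hx => hx.1⟩ ⟨hρ2, o2, hqo2⟩
    exact (pow_le_pow_left₀ hρ h1 2).trans hρ2L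
  have hd1 : (1 : ℝ) ≤ d := by exact_mod_cast hd
  have hBL : 1 / 2 * L ≤ hw p := (mul_le_mul_of_nonneg_right hx1 hL.le).trans hxB
  have hB0 : 0 < hw p := lt_of_lt_of_le (by positivity) hBL
  refine Thm1b.criterion2 hC hCA hV hU hRad hH hS p q (by rw [hcp]; exact hR0) ?_ r
  rw [hcp, hcq]
  refine real_crit hd1 hL hRL hB0 hBR hb hρL hBL ?_
  have h2 : (x * L) ^ 2 ≤ hw p ^ 2 := pow_le_pow_left₀ (by positivity) hxB 2
  have h3 : x * L * L / ((d : ℝ) + 1) ≤ hw p * L / ((d : ℝ) + 1) := by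
    apply div_le_div_of_nonneg_right _ (by positivity)
    exact mul_le_mul_of_nonneg_right hxB hL.le
  have h4 : 1 / 2 * L ^ 2 ≤ (x ^ 2 + x / ((d : ℝ) + 1)) * L ^ 2 :=
    mul_le_mul_of_nonneg_right hx2 (by positivity)
  calc 1 / 2 * L ^ 2 ≤ (x ^ 2 + x / ((d : ℝ) + 1)) * L ^ 2 := h4
    _ = (x * L) ^ 2 + x * L * L / ((d : ℝ) + 1) := by ring
    _ ≤ _ := add_le_add h2 h3

lemma uniform_nonpos {d N : ℕ} (hN : 0 < N)
    (p q : Fin N → E d) {L : ℝ} (hL : L ≤ 0)
    (huni : ∀ i j, i ≠ j → dist (q i) (q j) ≤ L ∧ L ≤ dist (p i) (p j)) (r : ℝ) :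
    volume (body p r) ≤ volume (body q r) := by
  have hqeq : ∀ i, q i = q ⟨0, hN⟩ := by
    intro i
    rcases eq_or_ne i ⟨0, hN⟩ with h | h
    · rw [h]
    · exact dist_le_zero.mp ((huni i _ h).1.trans hL)
  have hne : Nonempty (Fin N) := ⟨⟨0, hN⟩⟩
  have e2 : body q r = closedBall (q ⟨0, hN⟩) r := by
    unfold body
    rw [iInter_congr fun i => by rw [hqeq i], iInter_const]
  rw [e2, Measure.addHaar_closedBall_center, ← Measure.addHaar_closedBall_center volume (p ⟨0, hN⟩)]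
  exact measure_mono (iInter_subset _ _)

lemma dist_splx {N : ℕ} {i j : Fin N} (h : i ≠ j) : dist (splx N i) (splx N j) = 1 := by
  unfold splx
  rw [dist_smul₀]
  have h1 : dist (EuclideanSpace.single i (1 : ℝ)) (EuclideanSpace.single j 1) = Real.sqrt 2 := by
    rw [dist_eq_norm]
    have h2 : ‖EuclideanSpace.single i (1 : ℝ) - EuclideanSpace.single j 1‖ ^ 2 = 2 := by
      rw [norm_sub_sq_real]
      simp [EuclideanSpace.inner_single_left, h]
      norm_num
    rw [← h2, Real.sqrt_sq (norm_nonneg _)]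
  rw [h1, norm_inv, Real.norm_of_nonneg (Real.sqrt_nonneg _)]
  exact inv_mul_cancel₀ (Real.sqrt_pos.mpr two_pos).ne'

/-- scaled separated sets -/
lemma gwid_ge (hW : Width2Stmt) {d N M : ℕ} (hN : 0 < N) (p : Fin N → E d) {L : ℝ} (hL : 0 < L)
    (hsep : ∀ i j, i ≠ j → L ≤ dist (p i) (p j)) (g : Fin N → Fin M)
    (hg : Function.Surjective g) : gwid (splx M) ≤ gwid (fun i => L⁻¹ • p i) := by
  have h1 : gwid (fun i => splx M (g i)) = gwid (splx M) := by
    unfold gwid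
    congr 1
    refine integral_congr_ae (Filter.Eventually.of_forall fun x => ?_)
    simp only [hs]
    rw [hg.iSup_comp (g := fun j => inner ℝ (splx M j) x)]
  rw [← h1]
  refine hW d M N hN (fun i => L⁻¹ • p i) _ fun i j => ?_
  rcases eq_or_ne i j with rfl | h
  · rw [dist_self, dist_self]
  · have h2 : dist (splx M (g i)) (splx M (g j)) ≤ 1 := by
      rcases eq_or_ne (g i) (g j) with h3 | h3
      · rw [h3, dist_self]; exact zero_le_one
      · rw [dist_splx h3]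
    refine h2.trans ?_
    rw [dist_smul₀, norm_inv, Real.norm_of_nonneg hL.le, ← div_eq_inv_mul, one_le_div hL]
    exact hsep i j h

lemma pow_ge (d : ℕ) (hd : 4 ≤ d) : (d : ℝ) + 2 ≤ 1.6 ^ d := by
  induction d, hd using Nat.le_induction with
  | base => norm_num
  | succ n hn ih =>
    rw [pow_succ]
    push_cast
    have : (4 : ℝ) ≤ n := by exact_mod_cast hn
    nlinarith

end Thm4

/-- Theorem 4. -/
theorem thm4Stmt (hC : CircumStmt) (hCA : CircumAppStmt) (hV : VrBasicStmt) (hU : UrysohnStmt)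
    (hRad : Radial2Stmt) (hH : HwBasicStmt) (hS : SegStmt) (hJ : JungStmt) (hD : DiamStmt)
    (hRk : RankinStmt) (hW : Width2Stmt) (hG : HwGwidStmt) (hNM : NormMomentStmt)
    (h7 : SevenStmt) (hM : ManyStmt) : Thm4Stmt := by
  constructor
  · intro N hN p q L huni r
    have hN0 : 0 < N := by omega
    rcases le_or_gt L 0 with hL | hL
    · exact Thm4.uniform_nonpos hN0 p q hL huni r
    have hsurj : Function.Surjective
        (fun i : Fin N => (⟨min i.1 6, by omega⟩ : Fin 7)) := by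
      intro j
      refine ⟨⟨j.1, by omega⟩, ?_⟩
      ext
      simp only
      omega
    have h1 := Thm4.gwid_ge hW hN0 p hL (fun i j h => (huni i j h).2) _ hsurj
    have h2 := hG 3 N (by norm_num) hN0 (fun i => L⁻¹ • p i)
    rw [hNM.1] at h2
    have h3 := (hH 3 N (by norm_num) hN0 p).2.2.1 L⁻¹ (inv_nonneg.mpr hL.le)
    rw [h3] at h2
    have h4 : 0.66923 ≤ L⁻¹ * hw p * (2 / Real.sqrt Real.pi) := by
      rw [h2]
      exact le_trans h7 h1
    have hπ : 1.77245 ≤ Real.sqrt Real.pi := by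
      apply Real.le_sqrt_of_sq_le
      have := Real.pi_gt_d6
      norm_num at this ⊢
      linarith
    have hπ0 : 0 < Real.sqrt Real.pi := by positivity
    have h5 : 0.59308 * L ≤ hw p := by
      have h6 : 0.66923 * Real.sqrt Real.pi ≤ L⁻¹ * hw p * 2 := by
        calc 0.66923 * Real.sqrt Real.pi ≤ L⁻¹ * hw p * (2 / Real.sqrt Real.pi) * Real.sqrt Real.pi :=
              mul_le_mul_of_nonneg_right h4 hπ0.le
          _ = L⁻¹ * hw p * 2 := by field_simp
      have h7 : 0.59308 ≤ L⁻¹ * hw p := by nlinarith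
      rw [inv_mul_eq_div, le_div_iff₀ hL] at h7
      exact h7
    exact Thm4.uniform_of_width hC hCA hV hU hRad hH hS hJ hD hRk (by norm_num) (by omega) p q hL
      huni (x := 0.59308) (by norm_num) (by norm_num) h5 r
  · intro ε hε
    obtain ⟨d0, hd0⟩ := hM ε hε
    refine ⟨max d0 4, fun d N hd hN p q L huni r => ?_⟩
    have hd4 : 4 ≤ d := (le_max_right _ _).trans hd
    have hsq : (1.6 : ℝ) ≤ Real.sqrt (Real.exp 1) := by
      apply Real.le_sqrt_of_sq_le
      have := Real.exp_one_gt_d9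
      norm_num at this ⊢
      linarith
    have hdN : d + 2 ≤ N := by
      have h1 : ((d + 2 : ℕ) : ℝ) ≤ N := by
        refine le_trans ?_ hN
        push_cast
        refine (Thm4.pow_ge d hd4).trans ?_
        exact pow_le_pow_left₀ (by norm_num) (by linarith) d
      exact_mod_cast h1
    have hN0 : 0 < N := by omega
    rcases le_or_gt L 0 with hL | hL
    · exact Thm4.uniform_nonpos hN0 p q hL huni r
    have h1 := Thm4.gwid_ge hW hN0 p hL (fun i j h => (huni i j h).2) id Function.surjective_id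
    have h2 := hG d N (by omega) hN0 (fun i => L⁻¹ • p i)
    have h3 := (hH d N (by omega) hN0 p).2.2.1 L⁻¹ (inv_nonneg.mpr hL.le)
    rw [h3] at h2
    obtain ⟨hm0, hm1⟩ := hNM.2 d (by omega)
    set m := (∫ x : E d, Real.exp (-‖x‖ ^ 2) * ‖x‖) / ∫ x : E d, Real.exp (-‖x‖ ^ 2) with hm
    have h4 : Real.sqrt d / 2 ≤ L⁻¹ * hw p * m := by
      rw [h2]
      exact (hd0 d N ((le_max_left _ _).trans hd) hN).trans h1
    have hB0 : 0 ≤ hw p := (hH d N (by omega) hN0 p).2.1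
    have h5 : Real.sqrt d / 2 ≤ L⁻¹ * hw p * Real.sqrt (d / 2) :=
      h4.trans (mul_le_mul_of_nonneg_left hm1 (by positivity))
    have hd0' : (0 : ℝ) < d := by
      have : 0 < d := by omega
      exact_mod_cast this
    have h6 : (Real.sqrt 2)⁻¹ ≤ L⁻¹ * hw p := by
      have e1 : Real.sqrt ((d : ℝ) / 2) = Real.sqrt d / Real.sqrt 2 := Real.sqrt_div hd0'.le 2
      rw [e1] at h5
      have hsd : 0 < Real.sqrt d := Real.sqrt_pos.mpr hd0'
      have hs2 : 0 < Real.sqrt 2 := Real.sqrt_pos.mpr two_pos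
      have hs22 : Real.sqrt 2 * Real.sqrt 2 = 2 := Real.mul_self_sqrt (by norm_num)
      have h8 : Real.sqrt d / 2 = (Real.sqrt 2)⁻¹ * (Real.sqrt d / Real.sqrt 2) := by
        field_simp
        nlinarith
      rw [h8] at h5
      exact le_of_mul_le_mul_right h5 (by positivity)
    have h7 : (Real.sqrt 2)⁻¹ * L ≤ hw p := by
      rw [inv_mul_eq_div L, le_div_iff₀ hL] at h6
      exact h6
    have hx2 : ((Real.sqrt 2)⁻¹) ^ 2 = 1 / 2 := by
      rw [inv_pow, Real.sq_sqrt (by norm_num)]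
      norm_num
    refine Thm4.uniform_of_width hC hCA hV hU hRad hH hS hJ hD hRk (by omega) hdN p q hL
      huni (x := (Real.sqrt 2)⁻¹) ?_ ?_ h7 r
    · by_contra h
      push Not at h
      have h9 : 0 < (Real.sqrt 2)⁻¹ := by positivity
      nlinarith
    · rw [hx2]
      have : 0 ≤ (Real.sqrt 2)⁻¹ / ((d : ℝ) + 1) := by positivity
      linarith

end Pool.Agent.Lib.MP_0c1c75_co
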