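import Pool.Agent.Lib.MP_0c1c75_co.Spec

/-!
Module Urysohn: Urysohn's inequality for the intersection of balls.
-/

open MeasureTheory Set Metric
open scoped Pointwise

namespace Pool.Agent.Lib.MP_0c1c75_co

namespace Urysohn

theorem abs_hs_le {d N : ℕ} (hN : 0 < N) (p : Fin N → E d) :
    ∃ M : ℝ, 0 ≤ M ∧ ∀ v : E d, ‖v‖ ≤ 1 → |hs p v| ≤ M := by
  have : Nonempty (Fin N) := ⟨⟨0, hN⟩⟩
  refine ⟨∑ i, ‖p i‖, Finset.sum_nonneg fun i _ => norm_nonneg _, fun v hv => ?_⟩
  have h1 : ∀ i, |inner ℝ (p i) v| ≤ ∑ i, ‖p i‖ := fun i => by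
    calc |inner ℝ (p i) v| ≤ ‖p i‖ * ‖v‖ := abs_real_inner_le_norm _ _
      _ ≤ ‖p i‖ * 1 := mul_le_mul_of_nonneg_left hv (norm_nonneg _)
      _ = ‖p i‖ := mul_one _
      _ ≤ ∑ i, ‖p i‖ := Finset.single_le_sum (f := fun i => ‖p i‖)
          (fun i _ => norm_nonneg _) (Finset.mem_univ i)
  rw [abs_le]
  constructor
  · exact (abs_le.1 (h1 ⟨0, hN⟩)).1.trans
      (le_ciSup (f := fun i => inner ℝ (p i) v) (Set.finite_range _).bddAbove ⟨0, hN⟩)
  · exact ciSup_le fun i => (abs_le.1 (h1 i)).2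

theorem norm_unit_le {d : ℕ} (x : E d) : ‖‖x‖⁻¹ • x‖ ≤ 1 := by
  rw [norm_smul, norm_inv, norm_norm]
  exact inv_mul_le_one_of_le₀ le_rfl (norm_nonneg _)

/-- The sum set lies in a star shaped set. -/
theorem subset_star {d N : ℕ} (hN : 0 < N) (p : Fin N → E d) (r k t : ℝ) (hr : 0 ≤ r)
    (hk : 0 ≤ k) (ht0 : 0 ≤ t) (ht1 : t ≤ 1) :
    (1 - t) • closedBall (0 : E d) k + t • body p r ⊆
      {x | ‖x‖ ≤ (1 - t) * k + t * (r - hs p (-(‖x‖⁻¹ • x)))} := by
  have : Nonempty (Fin N) := ⟨⟨0, hN⟩⟩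
  rintro x ⟨_, ⟨b, hb, rfl⟩, _, ⟨y, hy, rfl⟩, hx⟩
  simp only at hx
  rw [mem_closedBall, dist_zero_right] at hb
  show ‖x‖ ≤ _
  have h1 : ∀ u : E d, ‖u‖ ≤ 1 → inner ℝ y u ≤ r - hs p (-u) := by
    intro u hu
    have : hs p (-u) ≤ r - inner ℝ y u := by
      refine ciSup_le fun i => ?_
      have h2 : inner ℝ (y - p i) u ≤ r := by
        have h3 : ‖y - p i‖ ≤ r := by
          rw [← dist_eq_norm]
          exact mem_iInter.1 hy i
        calc inner ℝ (y - p i) u ≤ ‖y - p i‖ * ‖u‖ := real_inner_le_norm _ _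
          _ ≤ r * 1 := mul_le_mul h3 hu (norm_nonneg _) hr
          _ = r := mul_one _
      rw [inner_sub_left] at h2
      rw [inner_neg_right]
      linarith
    linarith
  have h2 := h1 (‖x‖⁻¹ • x) (norm_unit_le x)
  have h3 : inner ℝ x (‖x‖⁻¹ • x) = ‖x‖ := by
    rw [real_inner_smul_right, real_inner_self_eq_norm_sq]
    rcases eq_or_ne ‖x‖ 0 with h | h
    · rw [h]; simp
    · field_simp
  have h4 : inner ℝ b (‖x‖⁻¹ • x) ≤ k := by
    calc inner ℝ b (‖x‖⁻¹ • x) ≤ ‖b‖ * ‖‖x‖⁻¹ • x‖ := real_inner_le_norm _ _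
      _ ≤ k * 1 := mul_le_mul hb (norm_unit_le x) (norm_nonneg _) hk
      _ = k := mul_one _
  have h5 : ‖x‖ = (1 - t) * inner ℝ b (‖x‖⁻¹ • x) + t * inner ℝ y (‖x‖⁻¹ • x) := by
    rw [← real_inner_smul_left, ← real_inner_smul_left, ← inner_add_left, hx, h3]
  have h6 := mul_le_mul_of_nonneg_left h4 (sub_nonneg.2 ht1)
  have h7 := mul_le_mul_of_nonneg_left h2 ht0
  linarith

theorem pow_bound {k y a : ℝ} {d : ℕ} (hk : 0 < k) (hd : 0 < d) (h : |a * y| ≤ 1) :
    0 ≤ k + a * k / d * y ∧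
      (k + a * k / d * y) ^ d ≤ k ^ d * (1 + a * y + (a * y) ^ 2) := by
  have hd' : (0 : ℝ) < d := by exact_mod_cast hd
  have hd1 : (1 : ℝ) ≤ d := by exact_mod_cast hd
  have h0 : k + a * k / d * y = k * (1 + a * y / d) := by field_simp
  have h1 : 0 ≤ 1 + a * y / d := by
    have h2 : |a * y / d| ≤ 1 := by
      rw [abs_div, abs_of_pos hd', div_le_one hd']
      exact h.trans hd1
    linarith [(abs_le.1 h2).1]
  refine ⟨by rw [h0]; positivity, ?_⟩
  rw [h0, mul_pow]
  refine mul_le_mul_of_nonneg_left ?_ (pow_nonneg hk.le _)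
  calc (1 + a * y / d) ^ d ≤ Real.exp (a * y / d) ^ d := by
        refine pow_le_pow_left₀ h1 ?_ d
        rw [add_comm]
        exact Real.add_one_le_exp _
    _ = Real.exp (a * y) := by
        rw [← Real.exp_nat_mul]
        congr 1
        field_simp
    _ ≤ 1 + a * y + (a * y) ^ 2 := by
        have := (abs_le.1 (Real.abs_exp_sub_one_sub_id_le h)).2
        linarith

end Urysohn

open Urysohn in
theorem urysohnStmt (hBM : BMStmt) (hV : VrBasicStmt) (hP : PolarStmt) (hH : HwBasicStmt) :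
    UrysohnStmt := by
  intro d N hd hN p r hne
  have hNe : Nonempty (Fin N) := ⟨⟨0, hN⟩⟩
  obtain ⟨hV1, hV2, hV3, hV4, hV5, hV6⟩ := hV d hd
  obtain ⟨hH1, hH2, hH3, hH4, hH5, hH6, hH7, hH8⟩ := hH d N hd hN p
  obtain ⟨z, hz⟩ := hne
  have hr : 0 ≤ r := by
    have h1 : dist z (p ⟨0, hN⟩) ≤ r := mem_iInter.1 hz ⟨0, hN⟩
    exact dist_nonneg.trans h1
  have hwr : hw p ≤ r := by
    refine hH4 z r fun i => ?_
    have h1 : dist z (p i) ≤ r := mem_iInter.1 hz i
    rwa [dist_comm, dist_eq_norm] at h1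
  rcases (hV4 (body p r)).eq_or_lt with hk0 | hk
  · rw [← hk0]
    linarith
  set k : ℝ := vr (body p r) with hkdef
  obtain ⟨M, hM0, hM⟩ := abs_hs_le hN p
  have hKc : IsCompact (body p r) :=
    (isCompact_closedBall (p ⟨0, hN⟩) r).of_isClosed_subset
      (isClosed_iInter fun i => isClosed_closedBall) (iInter_subset _ _)
  have hd' : (0 : ℝ) < d := by exact_mod_cast hd
  have hd1 : (1 : ℝ) ≤ d := by exact_mod_cast hd
  -- the function `G`
  let G : E d → ℝ := fun x => r - hs p (-(‖x‖⁻¹ • x)) - k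
  have hGm : Measurable G := by
    have h1 : Measurable fun x : E d => -(‖x‖⁻¹ • x) :=
      ((measurable_norm.inv).smul measurable_id).neg
    exact (measurable_const.sub (hH5.measurable.comp h1)).sub measurable_const
  let M' : ℝ := r + M + k + 1
  have hM'pos : 0 < M' := by positivity
  have hGb : ∀ x, |G x| ≤ M' := by
    intro x
    have h1 := abs_le.1 (hM (-(‖x‖⁻¹ • x)) (by rw [norm_neg]; exact norm_unit_le x))
    rw [abs_le]
    constructor <;> simp only [G, M'] <;> linarith [h1.1, h1.2]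
  have hfin : volume (ball (0 : E d) 1) ≠ ⊤ := measure_ball_lt_top.ne
  have hfin' : IsFiniteMeasure (volume.restrict (ball (0 : E d) 1)) :=
    ⟨by rw [Measure.restrict_apply_univ]; exact measure_ball_lt_top⟩
  have hGi : IntegrableOn G (ball 0 1) := by
    refine Measure.integrableOn_of_bounded hfin hGm.aestronglyMeasurable (M := M') ?_
    exact Filter.Eventually.of_forall fun x => hGb x
  have hG2i : IntegrableOn (fun x => G x ^ 2) (ball 0 1) := by
    refine Measure.integrableOn_of_bounded hfin (hGm.pow_const 2).aestronglyMeasurable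
      (M := M' ^ 2) ?_
    refine Filter.Eventually.of_forall fun x => ?_
    rw [norm_pow, Real.norm_eq_abs]
    exact pow_le_pow_left₀ (abs_nonneg _) (hGb x) 2
  set κ : ℝ := (volume (ball (0 : E d) 1)).toReal with hκ
  have hκpos : 0 < κ := ENNReal.toReal_pos (measure_ball_pos _ _ one_pos).ne' hfin
  -- the key inequality
  have key : ∀ a : ℝ, 0 < a → a * M' ≤ 1 → a * k ≤ d →
      0 ≤ (∫ x in ball (0 : E d) 1, G x) + a * ∫ x in ball (0 : E d) 1, G x ^ 2 := by
    intro a ha haM hak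
    let t : ℝ := a * k / d
    have ht0 : 0 ≤ t := by positivity
    have ht1 : t ≤ 1 := by
      rw [div_le_one hd']
      exact hak
    have haG : ∀ x, |a * G x| ≤ 1 := fun x => by
      rw [abs_mul, abs_of_pos ha]
      exact (mul_le_mul_of_nonneg_left (hGb x) ha.le).trans haM
    let F : E d → ℝ := fun x => (1 - t) * k + t * (r - hs p (-(‖x‖⁻¹ • x)))
    have hFG : ∀ x, F x = k + a * k / d * G x := fun x => by
      simp only [F, G, t]
      ring
    have hF0 : ∀ x, 0 ≤ F x := fun x => by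
      rw [hFG]
      exact (pow_bound hk hd (haG x)).1
    have hFm : Measurable F := by
      have : F = fun x => k + a * k / d * G x := funext hFG
      rw [this]
      exact measurable_const.add (hGm.const_mul _)
    have hFh : ∀ (c : ℝ) (x : E d), 0 < c → F (c • x) = F x := by
      intro c x hc
      have : ‖c • x‖⁻¹ • (c • x) = ‖x‖⁻¹ • x := by
        rw [norm_smul, Real.norm_eq_abs, abs_of_pos hc, smul_smul]
        congr 1
        rw [mul_inv]
        field_simp
      simp only [F, this]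
    have hvol := (hP d hd).1 F hFm hF0 hFh
    let Hf : E d → ℝ := fun x => k ^ d * (1 + a * G x + (a * G x) ^ 2)
    have hHi : IntegrableOn Hf (ball 0 1) := by
      have h1 : IntegrableOn (fun x => k ^ d * (1 + a * G x + a ^ 2 * G x ^ 2)) (ball 0 1) :=
        (((integrable_const (1 : ℝ)).add (hGi.const_mul a)).add
          (hG2i.const_mul (a ^ 2))).const_mul (k ^ d)
      refine h1.congr (Filter.Eventually.of_forall fun x => ?_)
      simp only [Hf]
      ring
    have hH0 : ∀ x, 0 ≤ Hf x := fun x => by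
      have h1 := (pow_bound hk hd (haG x)).2
      exact (pow_nonneg (pow_bound hk hd (haG x)).1 d).trans h1
    have hle : volume {x : E d | ‖x‖ ≤ F x} ≤ ENNReal.ofReal (∫ x in ball (0 : E d) 1, Hf x) := by
      rw [hvol, ofReal_integral_eq_lintegral_ofReal hHi
        (Filter.Eventually.of_forall fun x => hH0 x)]
      refine lintegral_mono fun x => ?_
      rw [← ENNReal.ofReal_pow (hF0 x), hFG]
      exact ENNReal.ofReal_le_ofReal (pow_bound hk hd (haG x)).2
    have hint0 : 0 ≤ ∫ x in ball (0 : E d) 1, Hf x := integral_nonneg hH0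
    have hSfin : volume {x : E d | ‖x‖ ≤ F x} ≠ ⊤ := (hle.trans_lt ENNReal.ofReal_lt_top).ne
    have h1 := hBM d hd (closedBall 0 k) (body p r) (isCompact_closedBall _ _) hKc
      ⟨0, mem_closedBall_self hk.le⟩ ⟨z, hz⟩ t ht0 ht1
    rw [hV2 0 k hk.le, ← hkdef] at h1
    have h2 : k ≤ vr {x : E d | ‖x‖ ≤ F x} := by
      calc k = (1 - t) * k + t * k := by ring
        _ ≤ _ := h1
        _ ≤ _ := hV1 _ _ (subset_star hN p r k t hr hk.le ht0 ht1) hSfin
    have h3 : κ * k ^ d ≤ ∫ x in ball (0 : E d) 1, Hf x := by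
      calc κ * k ^ d ≤ κ * vr {x : E d | ‖x‖ ≤ F x} ^ d :=
            mul_le_mul_of_nonneg_left (pow_le_pow_left₀ hk.le h2 d) hκpos.le
        _ = (volume {x : E d | ‖x‖ ≤ F x}).toReal := (hV5 _).symm
        _ ≤ _ := ENNReal.toReal_le_of_le_ofReal hint0 hle
    have h4 : ∫ x in ball (0 : E d) 1, Hf x = k ^ d * (κ + a * (∫ x in ball (0 : E d) 1, G x) +
        a ^ 2 * ∫ x in ball (0 : E d) 1, G x ^ 2) := by
      have e1 : ∀ x, Hf x = k ^ d * (1 + a * G x + a ^ 2 * G x ^ 2) := fun x => by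
        simp only [Hf]
        ring
      have i1 : Integrable (fun x => 1 + a * G x) (volume.restrict (ball (0 : E d) 1)) :=
        (integrable_const (1 : ℝ)).add (hGi.const_mul a)
      simp_rw [e1]
      rw [integral_const_mul, integral_add i1
        (hG2i.const_mul (a ^ 2)), integral_add (integrable_const (1 : ℝ)) (hGi.const_mul a),
        integral_const_mul, integral_const_mul, setIntegral_const]
      simp [hκ, Measure.real]
    rw [h4] at h3
    have h5 : 0 < k ^ d := pow_pos hk d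
    have h6 : κ ≤ κ + a * (∫ x in ball (0 : E d) 1, G x) +
        a ^ 2 * ∫ x in ball (0 : E d) 1, G x ^ 2 := by
      have h7 : k ^ d * κ ≤ k ^ d * (κ + a * (∫ x in ball (0 : E d) 1, G x) +
        a ^ 2 * ∫ x in ball (0 : E d) 1, G x ^ 2) := by linarith
      exact le_of_mul_le_mul_left h7 h5
    have h8 : 0 ≤ a * ((∫ x in ball (0 : E d) 1, G x) + a * ∫ x in ball (0 : E d) 1, G x ^ 2) := by
      have : a * ((∫ x in ball (0 : E d) 1, G x) + a * ∫ x in ball (0 : E d) 1, G x ^ 2) =
        a * (∫ x in ball (0 : E d) 1, G x) + a ^ 2 * ∫ x in ball (0 : E d) 1, G x ^ 2 := by ring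
      rw [this]
      linarith
    exact nonneg_of_mul_nonneg_right h8 ha
  -- the limit `a → 0`
  have hG0 : 0 ≤ ∫ x in ball (0 : E d) 1, G x := by
    by_contra hneg
    push Not at hneg
    set I : ℝ := ∫ x in ball (0 : E d) 1, G x with hI
    set J : ℝ := ∫ x in ball (0 : E d) 1, G x ^ 2 with hJ
    have hJ0 : 0 ≤ J := integral_nonneg fun x => sq_nonneg _
    let a : ℝ := min (min (1 / M') (d / k)) (-I / (2 * (J + 1)))
    have ha : 0 < a := by
      refine lt_min (lt_min (by positivity) (by positivity)) ?_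
      have : 0 < -I := by linarith
      positivity
    have ha1 : a * M' ≤ 1 := by
      have h1 : a ≤ 1 / M' := (min_le_left _ _).trans (min_le_left _ _)
      calc a * M' ≤ 1 / M' * M' := mul_le_mul_of_nonneg_right h1 hM'pos.le
        _ = 1 := by field_simp
    have ha2 : a * k ≤ d := by
      have h1 : a ≤ d / k := (min_le_left _ _).trans (min_le_right _ _)
      calc a * k ≤ d / k * k := mul_le_mul_of_nonneg_right h1 hk.le
        _ = d := by field_simp
    have ha3 : a * J ≤ -I / 2 := by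
      have h1 : a ≤ -I / (2 * (J + 1)) := min_le_right _ _
      calc a * J ≤ a * (J + 1) := mul_le_mul_of_nonneg_left (by linarith) ha.le
        _ ≤ -I / (2 * (J + 1)) * (J + 1) := mul_le_mul_of_nonneg_right h1 (by linarith)
        _ = -I / 2 := by field_simp
    have := key a ha ha1 ha2
    linarith
  -- conclusion
  have hsi : IntegrableOn (fun x : E d => hs p (-(‖x‖⁻¹ • x))) (ball 0 1) := by
    have : (fun x : E d => hs p (-(‖x‖⁻¹ • x))) = fun x => (r - k) - G x := by
      funext x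
      simp only [G]
      ring
    rw [this]
    exact (integrable_const (r - k)).sub hGi
  have h9 : ∫ x in ball (0 : E d) 1, G x = κ * (r - k) - κ * hw p := by
    have e1 : ∀ x, G x = (r - k) - hs p (-(‖x‖⁻¹ • x)) := fun x => by
      simp only [G]
      ring
    simp_rw [e1]
    rw [integral_sub (integrable_const (r - k)) hsi, setIntegral_const, ← hH8, setAverage_eq]
    simp only [Measure.real, ← hκ, smul_eq_mul]
    field_simp
  rw [h9, ← mul_sub] at hG0
  have := nonneg_of_mul_nonneg_right hG0 hκpos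
  linarith

end Pool.Agent.Lib.MP_0c1c75_co
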