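import Pool.Agent.Lib.MP_0c1c75_co.Spec3
import Pool.Agent.Lib.MP_0c1c75_co.HwBasic
import Pool.Agent.Lib.MP_0c1c75_co.MeanWidth

/-! Monotonicity of the Gaussian width under contractions between different dimensions. -/

open MeasureTheory Set Metric
open scoped Pointwise

namespace Pool.Agent.Lib.MP_0c1c75_co

namespace Width2

open MeanWidth

theorem gmax_cont {d N : ℕ} (hN : 0 < N) (p : Fin N → E d) (a : Fin N → ℝ) :
    Continuous (gmax p a) := by
  have : Nonempty (Fin N) := ⟨⟨0, hN⟩⟩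
  have h1 : gmax p a = fun u => (Finset.univ : Finset (Fin N)).sup' Finset.univ_nonempty
      (fun i => ‖u - p i‖ ^ 2 - a i) := by
    funext u
    rw [Finset.sup'_univ_eq_ciSup]
    rfl
  rw [h1]
  exact Continuous.finset_sup'_apply _ fun i _ => by fun_prop

/-- the integral after the substitution -/
noncomputable def J {d N : ℕ} (p : Fin N → E d) (e : ℝ) : ℝ :=
  ∫ y : E d, Real.exp (-e ^ 2 * gmax p (fun _ => 0) (e⁻¹ • y))

/-- the total mass -/
noncomputable def G (d : ℕ) : ℝ := ∫ y : E d, Real.exp (-‖y‖ ^ 2)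

/-- numerator of the width -/
noncomputable def H {d N : ℕ} (p : Fin N → E d) : ℝ := ∫ y : E d, Real.exp (-‖y‖ ^ 2) * hs p (-y)

theorem integrable_one {d : ℕ} : Integrable (fun y : E d => Real.exp (-‖y‖ ^ 2)) := by
  have := integrable_gauss (d := d) (b := 1) one_pos
  simpa using this

theorem G_pos (d : ℕ) : 0 < G d := by
  unfold G
  rw [integral_pos_iff_support_of_nonneg (fun x => (Real.exp_pos _).le) integrable_one]
  have h3 : Function.support (fun x : E d => Real.exp (-‖x‖ ^ 2)) = Set.univ := by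
    ext x
    simp [Real.exp_ne_zero]
  rw [h3]
  exact isOpen_univ.measure_pos volume ⟨0, trivial⟩

theorem H_eq {d N : ℕ} (p : Fin N → E d) : H p = ∫ y : E d, Real.exp (-‖y‖ ^ 2) * hs p y := by
  unfold H
  have h := (Measure.measurePreserving_neg (volume : Measure (E d))).integral_comp
    (MeasurableEquiv.neg (E d)).measurableEmbedding (fun y : E d => Real.exp (-‖y‖ ^ 2) * hs p y)
  simp only [norm_neg] at h
  exact h

theorem gwid_eq {d N : ℕ} (p : Fin N → E d) : gwid p = H p / G d := by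
  rw [H_eq]
  rfl

section

variable {d N : ℕ}

theorem hb (hN : 0 < N) (p : Fin N → E d) {M : ℝ} (hM : ∀ i, ‖p i‖ ≤ M) (y : E d) :
    |hs p (-y)| ≤ M * ‖y‖ := by
  have := abs_hs_le hN p hM (-y)
  rwa [norm_neg] at this

theorem integrable_hs (hN : 0 < N) (p : Fin N → E d) {M : ℝ} (hM0 : 0 ≤ M)
    (hM : ∀ i, ‖p i‖ ≤ M) : Integrable (fun y : E d => Real.exp (-‖y‖ ^ 2) * hs p (-y)) := by
  have hcp' : Continuous fun y : E d => hs p (-y) := (HwBasic.hs_cont hN p).comp continuous_neg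
  have hle : ∀ t : ℝ, 0 ≤ t → M * t ≤ M * Real.exp (1 * t) := fun t ht => by
    have := Real.add_one_le_exp t
    rw [one_mul]
    exact mul_le_mul_of_nonneg_left (by linarith) hM0
  exact integrable_mul hcp' hM0 (K := 1) fun y => (hb hN p hM y).trans (hle _ (norm_nonneg _))

theorem integrable_rem (M : ℝ) : Integrable (fun y : E d => Real.exp (-‖y‖ ^ 2) *
      (‖y‖ ^ 2 * Real.exp (2 * M * ‖y‖))) := by
  refine integrable_mul (by fun_prop) (A := 2) (by norm_num) (K := 1 + 2 * M) fun y => ?_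
  have h1 := Real.quadratic_le_exp_of_nonneg (norm_nonneg y)
  have h2 : ‖y‖ ^ 2 ≤ 2 * Real.exp ‖y‖ := by
    have := norm_nonneg y
    linarith
  rw [abs_of_nonneg (by positivity), add_mul, Real.exp_add, one_mul, ← mul_assoc]
  exact mul_le_mul_of_nonneg_right h2 (Real.exp_pos _).le

theorem integrable_J (hN : 0 < N) (p : Fin N → E d) {M : ℝ} (hM0 : 0 ≤ M)
    (hM : ∀ i, ‖p i‖ ≤ M) {e : ℝ} (he : 0 < e) :
    Integrable (fun y : E d => Real.exp (-e ^ 2 * gmax p (fun _ => 0) (e⁻¹ • y))) := by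
  have hc : Continuous fun y : E d => Real.exp (-e ^ 2 * gmax p (fun _ => 0) (e⁻¹ • y)) := by
    have h1 := (gmax_cont hN p (fun _ => 0)).comp (continuous_const_smul (T := E d) e⁻¹)
    exact Real.continuous_exp.comp (continuous_const.mul h1)
  have h1 : Integrable (fun y : E d => Real.exp (-‖y‖ ^ 2) * Real.exp (2 * e * M * ‖y‖)) := by
    refine integrable_mul (by fun_prop) (A := 1) zero_le_one (K := 2 * e * M) fun y => ?_
    rw [abs_of_pos (Real.exp_pos _), one_mul]
  refine h1.mono' hc.aestronglyMeasurable (Filter.Eventually.of_forall fun y => ?_)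
  rw [Real.norm_eq_abs, abs_of_pos (Real.exp_pos _), ← Real.exp_add]
  refine Real.exp_le_exp.2 ?_
  have h2 := le_gmax hN p y he
  have h3 := (abs_le.1 (hb hN p hM y)).1
  have h4 : 2 * e * (-(M * ‖y‖)) ≤ 2 * e * hs p (-y) := mul_le_mul_of_nonneg_left h3 (by positivity)
  linarith

theorem J_lower (hN : 0 < N) (p : Fin N → E d) {M : ℝ} (hM0 : 0 ≤ M)
    (hM : ∀ i, ‖p i‖ ≤ M) {e : ℝ} (he : 0 < e) :
    G d + (-2 * e) * H p + (-(e ^ 2 * M ^ 2)) * G d ≤ J p e := by
  have lower : ∀ y : E d, Real.exp (-‖y‖ ^ 2) + (-2 * e) * (Real.exp (-‖y‖ ^ 2) * hs p (-y)) +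
      (-(e ^ 2 * M ^ 2)) * Real.exp (-‖y‖ ^ 2) ≤
        Real.exp (-e ^ 2 * gmax p (fun _ => 0) (e⁻¹ • y)) := by
    intro y
    have h2 := gmax_le hN p hM y he
    have h3 : Real.exp (-‖y‖ ^ 2) * Real.exp (-(2 * e * hs p (-y) + e ^ 2 * M ^ 2)) ≤
        Real.exp (-e ^ 2 * gmax p (fun _ => 0) (e⁻¹ • y)) := by
      rw [← Real.exp_add]
      refine Real.exp_le_exp.2 ?_
      linarith
    have h4 := Real.add_one_le_exp (-(2 * e * hs p (-y) + e ^ 2 * M ^ 2))
    have h5 := mul_le_mul_of_nonneg_left h4 (Real.exp_pos (-‖y‖ ^ 2)).le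
    calc _ = Real.exp (-‖y‖ ^ 2) * (-(2 * e * hs p (-y) + e ^ 2 * M ^ 2) + 1) := by ring
      _ ≤ _ := h5
      _ ≤ _ := h3
  have hI0 := integrable_one (d := d)
  have hIp := integrable_hs hN p hM0 hM
  have h2 := integral_mono (μ := volume) ((hI0.add (hIp.const_mul (-2 * e))).add
    (hI0.const_mul (-(e ^ 2 * M ^ 2)))) (integrable_J hN p hM0 hM he) lower
  rw [integral_add' (hI0.add (hIp.const_mul (-2 * e))) (hI0.const_mul _),
    integral_add' hI0 (hIp.const_mul _), integral_const_mul, integral_const_mul] at h2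
  exact h2

theorem J_upper (hN : 0 < N) (q : Fin N → E d) {M : ℝ} (hM0 : 0 ≤ M)
    (hM : ∀ i, ‖q i‖ ≤ M) {e : ℝ} (he : 0 < e) (he1 : e ≤ 1) :
    J q e ≤ G d + (-2 * e) * H q + (4 * e ^ 2 * M ^ 2) *
      ∫ y : E d, Real.exp (-‖y‖ ^ 2) * (‖y‖ ^ 2 * Real.exp (2 * M * ‖y‖)) := by
  have upper : ∀ y : E d, Real.exp (-e ^ 2 * gmax q (fun _ => 0) (e⁻¹ • y)) ≤
      Real.exp (-‖y‖ ^ 2) + (-2 * e) * (Real.exp (-‖y‖ ^ 2) * hs q (-y)) +
        (4 * e ^ 2 * M ^ 2) * (Real.exp (-‖y‖ ^ 2) * (‖y‖ ^ 2 * Real.exp (2 * M * ‖y‖))) := by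
    intro y
    have h2 := le_gmax hN q y he
    have h3 : Real.exp (-e ^ 2 * gmax q (fun _ => 0) (e⁻¹ • y)) ≤
        Real.exp (-‖y‖ ^ 2) * Real.exp (-(2 * e * hs q (-y))) := by
      rw [← Real.exp_add]
      refine Real.exp_le_exp.2 ?_
      linarith
    have h4 := exp_le_quad (-(2 * e * hs q (-y)))
    have h5 : |-(2 * e * hs q (-y))| ≤ 2 * e * (M * ‖y‖) := by
      rw [abs_neg, abs_mul, abs_of_pos (by positivity : (0 : ℝ) < 2 * e)]
      exact mul_le_mul_of_nonneg_left (hb hN q hM y) (by positivity)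
    have h6 : (-(2 * e * hs q (-y))) ^ 2 ≤ 4 * e ^ 2 * M ^ 2 * ‖y‖ ^ 2 := by
      rw [← sq_abs]
      calc |-(2 * e * hs q (-y))| ^ 2 ≤ (2 * e * (M * ‖y‖)) ^ 2 :=
            pow_le_pow_left₀ (abs_nonneg _) h5 2
        _ = _ := by ring
    have h7 : Real.exp |-(2 * e * hs q (-y))| ≤ Real.exp (2 * M * ‖y‖) := by
      refine Real.exp_le_exp.2 (h5.trans ?_)
      have h8 : 0 ≤ M * ‖y‖ := by positivity
      nlinarith
    have h9 : (-(2 * e * hs q (-y))) ^ 2 * Real.exp |-(2 * e * hs q (-y))| ≤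
        4 * e ^ 2 * M ^ 2 * ‖y‖ ^ 2 * Real.exp (2 * M * ‖y‖) :=
      mul_le_mul h6 h7 (Real.exp_pos _).le (by positivity)
    have h10 : Real.exp (-(2 * e * hs q (-y))) ≤ 1 + -(2 * e * hs q (-y)) +
        4 * e ^ 2 * M ^ 2 * ‖y‖ ^ 2 * Real.exp (2 * M * ‖y‖) := by linarith
    have h11 := mul_le_mul_of_nonneg_left h10 (Real.exp_pos (-‖y‖ ^ 2)).le
    calc _ ≤ _ := h3
      _ ≤ _ := h11
      _ = _ := by ring
  have hI0 := integrable_one (d := d)
  have hIq := integrable_hs hN q hM0 hM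
  have hIr := integrable_rem (d := d) M
  have h2 := integral_mono (μ := volume) (integrable_J hN q hM0 hM he)
    ((hI0.add (hIq.const_mul (-2 * e))).add (hIr.const_mul (4 * e ^ 2 * M ^ 2))) upper
  rw [integral_add' (hI0.add (hIq.const_mul (-2 * e))) (hIr.const_mul _),
    integral_add' hI0 (hIq.const_mul _), integral_const_mul, integral_const_mul] at h2
  exact h2

theorem J_scale (r : Fin N → E d) (e : ℝ) :
    J r e = |((e⁻¹) ^ (Module.finrank ℝ (E d)))⁻¹| *
      ∫ x : E d, Real.exp (-e ^ 2 * gmax r (fun _ => 0) x) := by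
  have := Measure.integral_comp_smul (volume : Measure (E d))
    (fun x => Real.exp (-e ^ 2 * gmax r (fun _ => 0) x)) e⁻¹
  rw [smul_eq_mul] at this
  exact this

theorem G_scale {e : ℝ} (he : 0 < e) :
    G d = |((e⁻¹) ^ (Module.finrank ℝ (E d)))⁻¹| * ∫ x : E d, Real.exp (-e ^ 2 * ‖x‖ ^ 2) := by
  have h := Measure.integral_comp_smul (volume : Measure (E d))
    (fun x => Real.exp (-e ^ 2 * ‖x‖ ^ 2)) e⁻¹
  rw [smul_eq_mul] at h
  rw [← h]
  unfold G
  refine integral_congr_ae (Filter.Eventually.of_forall fun y => ?_)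
  simp only
  congr 1
  rw [norm_smul, norm_inv, Real.norm_eq_abs, abs_of_pos he]
  field_simp

end

end Width2

open MeanWidth Width2 in
theorem width2Stmt (hG : Gauss2Stmt) : Width2Stmt := by
  intro d m N hN p q hpq
  -- a common bound for the norms
  set M : ℝ := ∑ i, ‖p i‖ + ∑ i, ‖q i‖ with hMdef
  have hM0 : 0 ≤ M := by positivity
  have hMp : ∀ i, ‖p i‖ ≤ M := fun i => by
    have h1 := Finset.single_le_sum (f := fun i => ‖p i‖) (fun i _ => norm_nonneg _)
      (Finset.mem_univ i)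
    have h2 : 0 ≤ ∑ i, ‖q i‖ := by positivity
    linarith
  have hMq : ∀ i, ‖q i‖ ≤ M := fun i => by
    have h1 := Finset.single_le_sum (f := fun i => ‖q i‖) (fun i _ => norm_nonneg _)
      (Finset.mem_univ i)
    have h2 : 0 ≤ ∑ i, ‖p i‖ := by positivity
    linarith
  set R := ∫ y : E m, Real.exp (-‖y‖ ^ 2) * (‖y‖ ^ 2 * Real.exp (2 * M * ‖y‖)) with hRdef
  have hR0 : 0 ≤ R := integral_nonneg fun y => by positivity
  have hGd := G_pos d
  have hGm := G_pos m
  -- the main inequality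
  have key : ∀ e : ℝ, 0 < e → e ≤ 1 →
      2 * (H q * G d - H p * G m) ≤ e * (M ^ 2 * (G d * G m) + 4 * M ^ 2 * (R * G d)) := by
    intro e he he1
    have hGe := hG d m N hN p q hpq (fun _ => 0) (e ^ 2) (by positivity)
    have h1 : J p e * G m ≤ J q e * G d := by
      rw [J_scale p e, J_scale q e, G_scale (d := d) he, G_scale (d := m) he]
      have h2 := mul_le_mul_of_nonneg_left hGe
        (mul_nonneg (abs_nonneg ((e⁻¹) ^ (Module.finrank ℝ (E d)))⁻¹)
          (abs_nonneg ((e⁻¹) ^ (Module.finrank ℝ (E m)))⁻¹))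
      calc _ = _ := by ring
        _ ≤ _ := h2
        _ = _ := by ring
    have h2 := mul_le_mul_of_nonneg_right (J_lower hN p hM0 hMp he) hGm.le
    have h3 := mul_le_mul_of_nonneg_right (J_upper hN q hM0 hMq he he1) hGd.le
    have h12 := (h2.trans h1).trans h3
    have h13 : e * (2 * (H q * G d - H p * G m)) ≤
        e * (e * (M ^ 2 * (G d * G m) + 4 * M ^ 2 * (R * G d))) := by
      have e1 : (G d + (-2 * e) * H p + (-(e ^ 2 * M ^ 2)) * G d) * G m =
          G d * G m - 2 * e * (H p * G m) - e ^ 2 * M ^ 2 * (G d * G m) := by ring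
      have e2 : (G m + (-2 * e) * H q + (4 * e ^ 2 * M ^ 2) * R) * G d =
          G d * G m - 2 * e * (H q * G d) + 4 * e ^ 2 * M ^ 2 * (R * G d) := by ring
      rw [e1, e2] at h12
      nlinarith
    exact le_of_mul_le_mul_left h13 he
  have hH' : H q * G d ≤ H p * G m := by
    by_contra hlt
    push Not at hlt
    set K := M ^ 2 * (G d * G m) + 4 * M ^ 2 * (R * G d) with hK
    have hK0 : 0 ≤ K := by positivity
    have hpos : 0 < H q * G d - H p * G m := by linarith
    have he0 : 0 < min 1 ((H q * G d - H p * G m) / (K + 1)) := lt_min one_pos (by positivity)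
    have h1 := key _ he0 (min_le_left _ _)
    have h2 : min 1 ((H q * G d - H p * G m) / (K + 1)) * K ≤
        (H q * G d - H p * G m) / (K + 1) * K :=
      mul_le_mul_of_nonneg_right (min_le_right _ _) hK0
    have h3 : (H q * G d - H p * G m) / (K + 1) * K ≤ H q * G d - H p * G m := by
      rw [div_mul_eq_mul_div, div_le_iff₀ (by linarith)]
      nlinarith
    linarith
  rw [gwid_eq, gwid_eq, div_le_div_iff₀ hGm hGd]
  exact hH'

end Pool.Agent.Lib.MP_0c1c75_co
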