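import Pool.Agent.Lib.MP_0c1c75_co.VrBasic
import Pool.Agent.Lib.MP_0c1c75_co.BM
import Pool.Agent.Lib.MP_0c1c75_co.Polar
import Pool.Agent.Lib.MP_0c1c75_co.HwBasic
import Pool.Agent.Lib.MP_0c1c75_co.Urysohn
import Pool.Agent.Lib.MP_0c1c75_co.Radial2
import Pool.Agent.Lib.MP_0c1c75_co.Circum
import Pool.Agent.Lib.MP_0c1c75_co.CircumApp
import Pool.Agent.Lib.MP_0c1c75_co.MeanWidth
import Pool.Agent.Lib.MP_0c1c75_co.Gauss
import Pool.Agent.Lib.MP_0c1c75_co.Gauss2
import Pool.Agent.Lib.MP_0c1c75_co.Seg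
import Pool.Agent.Lib.MP_0c1c75_co.Seg3
import Pool.Agent.Lib.MP_0c1c75_co.Jung
import Pool.Agent.Lib.MP_0c1c75_co.Diam
import Pool.Agent.Lib.MP_0c1c75_co.Rankin
import Pool.Agent.Lib.MP_0c1c75_co.Width2
import Pool.Agent.Lib.MP_0c1c75_co.HwGwid
import Pool.Agent.Lib.MP_0c1c75_co.NormMoment
import Pool.Agent.Lib.MP_0c1c75_co.SplxWidth
import Pool.Agent.Lib.MP_0c1c75_co.Kint
import Pool.Agent.Lib.MP_0c1c75_co.Seven
import Pool.Agent.Lib.MP_0c1c75_co.Many
import Pool.Agent.Lib.MP_0c1c75_co.Thm1b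
import Pool.Agent.Lib.MP_0c1c75_co.Thm4

/-!
MP_0c1c75_co: all modules of Theorems 1 and 4 put together.
-/

open MeasureTheory Set Metric

namespace Pool.Agent.Lib.MP_0c1c75_co

theorem allV : VrBasicStmt := vrBasicStmt
theorem allP : PolarStmt := polarStmt
theorem allH : HwBasicStmt := hwBasicStmt
theorem allBM : BMStmt := bmStmt allV
theorem allU : UrysohnStmt := urysohnStmt allBM allV allP allH
theorem allRad : Radial2Stmt := radial2Stmt allV allP allH
theorem allC : CircumStmt := circumStmt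
theorem allCA : CircumAppStmt := circumAppStmt
theorem allMW : MeanWidthStmt := meanWidthStmt gaussStmt allP allH
theorem allS : SegStmt := segStmt allP allH
theorem allS3 : Seg3Stmt := seg3Stmt allP
theorem allW : Width2Stmt := width2Stmt gauss2Stmt
theorem allHG : HwGwidStmt := hwGwidStmt allP allH
theorem allSeven : SevenStmt := sevenStmt splxWidthStmt kintStmt
theorem allMany : ManyStmt := manyStmt
theorem allThm4 : Thm4Stmt := thm4Stmt allC allCA allV allU allRad allH allS (jungStmt allC)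
  (diamStmt allH) rankinStmt allW allHG normMomentStmt allSeven allMany

end Pool.Agent.Lib.MP_0c1c75_co
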