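import Pool.Agent.Lib.MP_0c1c75_co.Spec

/-!
# Concavity in the radius and in the level
-/

open MeasureTheory Set Metric
open scoped Pointwise

namespace Pool.Agent.Lib.MP_0c1c75_co

namespace Conc

variable {d N : ℕ}

theorem gmax_le_iff (hN : 0 < N) {p : Fin N → E d} {a : Fin N → ℝ} {z : E d} {x : ℝ} :
    gmax p a z ≤ x ↔ ∀ i, ‖z - p i‖ ^ 2 - a i ≤ x := by
  have : Nonempty (Fin N) := ⟨⟨0, hN⟩⟩
  exact ciSup_le_iff (Set.finite_range _).bddAbove

theorem isCompact_body (hN : 0 < N) (p : Fin N → E d) (r : ℝ) : IsCompact (body p r) := by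
  unfold body
  refine (isCompact_closedBall (p ⟨0, hN⟩) r).of_isClosed_subset
    (isClosed_iInter fun i => isClosed_closedBall) (iInter_subset _ _)

theorem isCompact_level (hN : 0 < N) (p : Fin N → E d) (a : Fin N → ℝ) (x : ℝ) :
    IsCompact {z | gmax p a z ≤ x} := by
  have h : {z | gmax p a z ≤ x} = ⋂ i, {z : E d | ‖z - p i‖ ^ 2 - a i ≤ x} := by
    ext z
    rw [mem_iInter]
    exact gmax_le_iff hN
  have hcl : IsClosed {z | gmax p a z ≤ x} := by
    rw [h]
    exact isClosed_iInter fun i => isClosed_le (by fun_prop) continuous_const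
  refine (isCompact_closedBall (p ⟨0, hN⟩) (1 + |x + a ⟨0, hN⟩|)).of_isClosed_subset hcl ?_
  intro z hz
  have h1 := (gmax_le_iff hN).1 hz ⟨0, hN⟩
  rw [mem_closedBall, dist_eq_norm]
  have h2 : ‖z - p ⟨0, hN⟩‖ ^ 2 ≤ |x + a ⟨0, hN⟩| := le_trans (by linarith) (le_abs_self _)
  nlinarith [norm_nonneg (z - p ⟨0, hN⟩), abs_nonneg (x + a ⟨0, hN⟩)]

theorem comb_sub (x y z : E d) (t : ℝ) :
    (1 - t) • x + t • y - z = (1 - t) • (x - z) + t • (y - z) := by
  module

theorem sq_conv {u v t : ℝ} (h0 : 0 ≤ t) (h1 : t ≤ 1) :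
    ((1 - t) * u + t * v) ^ 2 ≤ (1 - t) * u ^ 2 + t * v ^ 2 := by
  have h : 0 ≤ t * (1 - t) * (u - v) ^ 2 :=
    mul_nonneg (mul_nonneg h0 (sub_nonneg.2 h1)) (sq_nonneg _)
  linarith [h, (by ring : (1 - t) * u ^ 2 + t * v ^ 2 - ((1 - t) * u + t * v) ^ 2 =
    t * (1 - t) * (u - v) ^ 2)]

end Conc

open Conc

theorem concStmt (hBM : BMStmt) (hV : VrBasicStmt) : ConcStmt := by
  intro d N hd hN p
  obtain ⟨hmono, hball, hsmul, _, _, _⟩ := hV d hd
  refine ⟨fun r r' t hr hr' h0 h1 => ?_, fun r e hr he => ?_, fun a x y t hx hy h0 h1 => ?_⟩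
  · refine (hBM d hd _ _ (isCompact_body hN p r) (isCompact_body hN p r') hr hr' t h0 h1).trans
      (hmono _ _ ?_ (isCompact_body hN p _).measure_lt_top.ne)
    rintro z ⟨_, ⟨u, hu, rfl⟩, _, ⟨v, hv, rfl⟩, rfl⟩
    refine mem_iInter.2 fun i => ?_
    have hu' := mem_iInter.1 hu i
    have hv' := mem_iInter.1 hv i
    rw [mem_closedBall, dist_eq_norm] at hu' hv' ⊢
    change ‖(1 - t) • u + t • v - p i‖ ≤ _
    rw [comb_sub]
    refine (norm_add_le _ _).trans ?_
    rw [norm_smul, norm_smul, Real.norm_of_nonneg (sub_nonneg.2 h1), Real.norm_of_nonneg h0]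
    exact add_le_add (mul_le_mul_of_nonneg_left hu' (sub_nonneg.2 h1))
      (mul_le_mul_of_nonneg_left hv' h0)
  · have h2 := hBM d hd ((2 : ℝ) • body p r) ((2 : ℝ) • closedBall (0 : E d) e)
      ((isCompact_body hN p r).smul _) ((isCompact_closedBall 0 e).smul _)
      (hr.smul_set) ((nonempty_closedBall.2 he).smul_set) (1 / 2) (by norm_num) (by norm_num)
    rw [hsmul 2 _ (by norm_num), hsmul 2 _ (by norm_num), hball 0 e he] at h2
    have h3 : ∀ A : Set (E d), (1 / 2 : ℝ) • ((2 : ℝ) • A) = A := by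
      intro A
      rw [smul_smul]
      norm_num
    rw [(by norm_num : (1 - 1 / 2 : ℝ) = 1 / 2), h3, h3] at h2
    refine le_trans (by linarith) (h2.trans
      (hmono _ _ ?_ (isCompact_body hN p _).measure_lt_top.ne))
    rintro z ⟨u, hu, v, hv, rfl⟩
    refine mem_iInter.2 fun i => ?_
    have hu' := mem_iInter.1 hu i
    rw [mem_closedBall, dist_eq_norm] at hu' hv ⊢
    rw [sub_zero] at hv
    change ‖u + v - p i‖ ≤ _
    rw [(by abel : u + v - p i = (u - p i) + v)]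
    exact (norm_add_le _ _).trans (add_le_add hu' hv)
  · refine (hBM d hd _ _ (isCompact_level hN p a x) (isCompact_level hN p a y) hx hy t h0
      h1).trans (hmono _ _ ?_ (isCompact_level hN p a _).measure_lt_top.ne)
    rintro z ⟨_, ⟨u, hu, rfl⟩, _, ⟨v, hv, rfl⟩, rfl⟩
    change gmax p a ((1 - t) • u + t • v) ≤ _
    rw [gmax_le_iff hN]
    intro i
    have hu' := (gmax_le_iff hN).1 hu i
    have hv' := (gmax_le_iff hN).1 hv i
    rw [comb_sub]
    have h2 : ‖(1 - t) • (u - p i) + t • (v - p i)‖ ≤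
        (1 - t) * ‖u - p i‖ + t * ‖v - p i‖ := by
      refine (norm_add_le _ _).trans ?_
      rw [norm_smul, norm_smul, Real.norm_of_nonneg (sub_nonneg.2 h1), Real.norm_of_nonneg h0]
    have h3 := pow_le_pow_left₀ (norm_nonneg _) h2 2
    have h4 := sq_conv (u := ‖u - p i‖) (v := ‖v - p i‖) h0 h1
    have h5 := mul_le_mul_of_nonneg_left hu' (sub_nonneg.2 h1)
    have h6 := mul_le_mul_of_nonneg_left hv' h0
    linarith [h3, h4, h5, h6]

end Pool.Agent.Lib.MP_0c1c75_co
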