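import Mathlib
import Pool.Agent.Lib.MP_0c1c75_co.Spec

/-! Layer cake formulas. -/

open MeasureTheory Set Metric
open scoped Pointwise

namespace Pool.Agent.Lib.MP_0c1c75_co.Layer

theorem le_gmax {d N : ℕ} (p : Fin N → E d) (a : Fin N → ℝ) (x : E d) (i : Fin N) :
    ‖x - p i‖ ^ 2 - a i ≤ gmax p a x :=
  le_ciSup (f := fun i => ‖x - p i‖ ^ 2 - a i) (Set.finite_range _).bddAbove i

theorem gmax_le_iff {d N : ℕ} (hN : 0 < N) (p : Fin N → E d) (a : Fin N → ℝ) (x : E d) (t : ℝ) :
    gmax p a x ≤ t ↔ ∀ i, ‖x - p i‖ ^ 2 - a i ≤ t := by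
  have : Nonempty (Fin N) := ⟨⟨0, hN⟩⟩
  exact ⟨fun h i => (le_gmax p a x i).trans h, fun h => ciSup_le h⟩

theorem gmax_cont {d N : ℕ} (hN : 0 < N) (p : Fin N → E d) (a : Fin N → ℝ) :
    Continuous (gmax p a) := by
  have : Nonempty (Fin N) := ⟨⟨0, hN⟩⟩
  have h1 : gmax p a = fun x => (Finset.univ : Finset (Fin N)).sup' Finset.univ_nonempty
      (fun i => ‖x - p i‖ ^ 2 - a i) := by
    funext x
    rw [Finset.sup'_univ_eq_ciSup]
    rfl
  rw [h1]
  exact Continuous.finset_sup'_apply _ fun i _ => by fun_prop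

theorem exp_layer {s : ℝ} (hs : 0 < s) (c : ℝ) :
    ∫⁻ t in Ici c, ENNReal.ofReal (s * Real.exp (-s * t)) = ENNReal.ofReal (Real.exp (-s * c)) := by
  have hi : IntegrableOn (fun t => s * Real.exp (-s * t)) (Ioi c) :=
    (integrableOn_exp_mul_Ioi (neg_neg_of_pos hs) c).const_mul s
  rw [setLIntegral_congr Ioi_ae_eq_Ici.symm, ← ofReal_integral_eq_lintegral_ofReal hi
    (Filter.Eventually.of_forall fun t => by positivity), integral_const_mul,
    integral_exp_mul_Ioi (neg_neg_of_pos hs)]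
  congr 1
  field_simp

theorem vol_lt_top {d N : ℕ} (hN : 0 < N) (p : Fin N → E d) (a : Fin N → ℝ) (t : ℝ) :
    volume {z : E d | gmax p a z ≤ t} < ⊤ := by
  have h : {z : E d | gmax p a z ≤ t} ⊆
      closedBall (p ⟨0, hN⟩) (Real.sqrt (t + a ⟨0, hN⟩)) := by
    intro z hz
    have h1 := (le_gmax p a z ⟨0, hN⟩).trans hz
    rw [mem_closedBall, dist_eq_norm]
    apply Real.le_sqrt_of_sq_le
    linarith
  exact (measure_mono h).trans_lt measure_closedBall_lt_top

theorem lintegral_layer {d N : ℕ} (hN : 0 < N) (p : Fin N → E d) (a : Fin N → ℝ) {s : ℝ}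
    (hs : 0 < s) :
    ∫⁻ x, ENNReal.ofReal (Real.exp (-s * gmax p a x)) =
      ∫⁻ t, ENNReal.ofReal (s * Real.exp (-s * t)) * volume {z : E d | gmax p a z ≤ t} := by
  have hS : MeasurableSet {q : E d × ℝ | gmax p a q.1 ≤ q.2} :=
    measurableSet_le ((gmax_cont hN p a).measurable.comp measurable_fst) measurable_snd
  have hφ : Measurable (fun t : ℝ => ENNReal.ofReal (s * Real.exp (-s * t))) := by fun_prop
  calc ∫⁻ x, ENNReal.ofReal (Real.exp (-s * gmax p a x))
      = ∫⁻ x : E d, ∫⁻ t : ℝ, {q : E d × ℝ | gmax p a q.1 ≤ q.2}.indicator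
          (fun q => ENNReal.ofReal (s * Real.exp (-s * q.2))) (x, t) := by
        refine lintegral_congr fun x => ?_
        rw [← exp_layer hs, ← lintegral_indicator measurableSet_Ici]
        refine lintegral_congr fun t => ?_
        by_cases h : gmax p a x ≤ t
        · have h1 : t ∈ Ici (gmax p a x) := h
          have h2 : (x, t) ∈ {q : E d × ℝ | gmax p a q.1 ≤ q.2} := h
          rw [indicator_of_mem h1, indicator_of_mem h2]
        · have h1 : t ∉ Ici (gmax p a x) := h
          have h2 : (x, t) ∉ {q : E d × ℝ | gmax p a q.1 ≤ q.2} := h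
          rw [indicator_of_notMem h1, indicator_of_notMem h2]
    _ = ∫⁻ t : ℝ, ∫⁻ x : E d, {q : E d × ℝ | gmax p a q.1 ≤ q.2}.indicator
          (fun q => ENNReal.ofReal (s * Real.exp (-s * q.2))) (x, t) := by
        rw [lintegral_lintegral_swap]
        exact ((hφ.comp measurable_snd).indicator hS).aemeasurable
    _ = _ := by
        refine lintegral_congr fun t => ?_
        have hT : MeasurableSet {z : E d | gmax p a z ≤ t} :=
          measurableSet_le (gmax_cont hN p a).measurable measurable_const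
        rw [← lintegral_indicator_const hT]
        refine lintegral_congr fun x => ?_
        by_cases h : gmax p a x ≤ t
        · have h1 : x ∈ {z : E d | gmax p a z ≤ t} := h
          have h2 : (x, t) ∈ {q : E d × ℝ | gmax p a q.1 ≤ q.2} := h
          rw [indicator_of_mem h1, indicator_of_mem h2]
        · have h1 : x ∉ {z : E d | gmax p a z ≤ t} := h
          have h2 : (x, t) ∉ {q : E d × ℝ | gmax p a q.1 ≤ q.2} := h
          rw [indicator_of_notMem h1, indicator_of_notMem h2]

theorem integrable_gauss {d : ℕ} (v : E d) {s : ℝ} (hs : 0 < s) :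
    Integrable (fun x : E d => Real.exp (-s * ‖x - v‖ ^ 2)) := by
  have h : Integrable (fun x : E d => Real.exp (-s * ‖x‖ ^ 2)) := by
    by_contra hcon
    have h1 := GaussianFourier.integral_rexp_neg_mul_sq_norm (V := E d) hs
    rw [integral_undef hcon] at h1
    have h2 : 0 < (Real.pi / s) ^ (Module.finrank ℝ (E d) / 2 : ℝ) := by positivity
    linarith
  exact h.comp_sub_right v

theorem integrable_exp {d N : ℕ} (hN : 0 < N) (p : Fin N → E d) (a : Fin N → ℝ) {s : ℝ}
    (hs : 0 < s) : Integrable (fun x : E d => Real.exp (-s * gmax p a x)) := by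
  refine ((integrable_gauss (p ⟨0, hN⟩) hs).const_mul (Real.exp (s * a ⟨0, hN⟩))).mono'
    (by
      have := gmax_cont hN p a
      exact (by fun_prop : Continuous fun x : E d => Real.exp (-s * gmax p a x)).aestronglyMeasurable)
    (Filter.Eventually.of_forall fun x => ?_)
  rw [Real.norm_of_nonneg (Real.exp_pos _).le, ← Real.exp_add]
  apply Real.exp_le_exp.mpr
  have := mul_le_mul_of_nonneg_left (le_gmax p a x ⟨0, hN⟩) hs.le
  linarith

theorem meas_vol {d N : ℕ} (hN : 0 < N) (p : Fin N → E d) (a : Fin N → ℝ) :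
    Measurable (fun t : ℝ => (volume {z : E d | gmax p a z ≤ t}).toReal) := by
  apply Monotone.measurable
  intro t t' h
  exact ENNReal.toReal_mono (vol_lt_top hN p a t').ne
    (measure_mono fun z (hz : gmax p a z ≤ t) => hz.trans h)

theorem ofReal_eq {d N : ℕ} (hN : 0 < N) (p : Fin N → E d) (a : Fin N → ℝ) {s : ℝ}
    (t : ℝ) :
    ENNReal.ofReal ((volume {z : E d | gmax p a z ≤ t}).toReal * (s * Real.exp (-s * t))) =
      ENNReal.ofReal (s * Real.exp (-s * t)) * volume {z : E d | gmax p a z ≤ t} := by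
  rw [ENNReal.ofReal_mul ENNReal.toReal_nonneg, ENNReal.ofReal_toReal (vol_lt_top hN p a t).ne,
    mul_comm]

theorem integrable_vol {d N : ℕ} (hN : 0 < N) (p : Fin N → E d) (a : Fin N → ℝ) {s : ℝ}
    (hs : 0 < s) :
    Integrable (fun t => (volume {z : E d | gmax p a z ≤ t}).toReal * (s * Real.exp (-s * t))) := by
  refine ⟨((meas_vol hN p a).mul (by fun_prop)).aestronglyMeasurable, ?_⟩
  rw [hasFiniteIntegral_iff_ofReal (Filter.Eventually.of_forall fun t => by positivity)]
  simp only [ofReal_eq hN p a]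
  rw [← lintegral_layer hN p a hs]
  have h := (integrable_exp hN p a hs).2
  rwa [hasFiniteIntegral_iff_ofReal (Filter.Eventually.of_forall fun t => (Real.exp_pos _).le)] at h

theorem integral_vol {d N : ℕ} (hN : 0 < N) (p : Fin N → E d) (a : Fin N → ℝ) {s : ℝ}
    (hs : 0 < s) :
    ∫ x, Real.exp (-s * gmax p a x) =
      ∫ t, (volume {z : E d | gmax p a z ≤ t}).toReal * (s * Real.exp (-s * t)) := by
  rw [integral_eq_lintegral_of_nonneg_ae (Filter.Eventually.of_forall fun t => (Real.exp_pos _).le)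
    (integrable_exp hN p a hs).1, integral_eq_lintegral_of_nonneg_ae
    (Filter.Eventually.of_forall fun t => by positivity) (integrable_vol hN p a hs).1]
  simp only [ofReal_eq hN p a]
  rw [lintegral_layer hN p a hs]

theorem body_eq {d N : ℕ} (hN : 0 < N) (p : Fin N → E d) {r : ℝ} (hr : 0 ≤ r) :
    {z : E d | gmax p (fun _ => 0) z ≤ r ^ 2} = body p r := by
  ext z
  rw [mem_ofPred_eq, gmax_le_iff hN]
  unfold body
  rw [mem_iInter]
  refine forall_congr' fun i => ?_
  rw [sub_zero, mem_closedBall, dist_eq_norm]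
  exact pow_le_pow_iff_left₀ (norm_nonneg _) hr two_ne_zero

theorem gmax_zero_nonneg {d N : ℕ} (hN : 0 < N) (p : Fin N → E d) (z : E d) :
    0 ≤ gmax p (fun _ => 0) z := by
  have h := le_gmax p (fun _ => 0) z ⟨0, hN⟩
  have h1 : 0 ≤ ‖z - p ⟨0, hN⟩‖ ^ 2 := by positivity
  linarith

theorem sq_eq {d N : ℕ} (hN : 0 < N) (p : Fin N → E d) {s : ℝ} {r : ℝ} (hr : 0 < r) :
    ((2 : ℝ) * r ^ ((2 : ℝ) - 1)) •
      ((volume {z : E d | gmax p (fun _ => 0) z ≤ r ^ (2 : ℝ)}).toReal *
        (s * Real.exp (-s * r ^ (2 : ℝ)))) =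
      (volume (body p r)).toReal * (2 * s * r * Real.exp (-s * r ^ 2)) := by
  have h1 : (2 : ℝ) - 1 = 1 := by norm_num
  rw [h1, Real.rpow_one, Real.rpow_two, body_eq hN p hr.le, smul_eq_mul]
  ring

theorem third {d N : ℕ} (hN : 0 < N) (p : Fin N → E d) {s : ℝ} (hs : 0 < s) :
    ∫ x, Real.exp (-s * gmax p (fun _ => 0) x) =
      ∫ r in Ioi (0 : ℝ), (volume (body p r)).toReal * (2 * s * r * Real.exp (-s * r ^ 2)) := by
  rw [integral_vol hN p _ hs]
  have h1 : ∫ t in Ici (0 : ℝ), (volume {z : E d | gmax p (fun _ => 0) z ≤ t}).toReal *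
      (s * Real.exp (-s * t)) = ∫ t, (volume {z : E d | gmax p (fun _ => 0) z ≤ t}).toReal *
      (s * Real.exp (-s * t)) := by
    apply setIntegral_eq_integral_of_forall_compl_eq_zero
    intro t ht
    rw [mem_Ici, not_le] at ht
    have h2 : {z : E d | gmax p (fun _ => 0) z ≤ t} = ∅ := by
      rw [eq_empty_iff_forall_notMem]
      intro z (hz : _ ≤ t)
      have := gmax_zero_nonneg hN p z
      linarith
    rw [h2, measure_empty, ENNReal.toReal_zero, zero_mul]
  rw [← h1, setIntegral_congr_set Ioi_ae_eq_Ici.symm,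
    ← integral_comp_rpow_Ioi_of_pos (p := 2) two_pos]
  exact setIntegral_congr_fun measurableSet_Ioi fun r hr => sq_eq hN p hr

theorem fourth {d N : ℕ} (hN : 0 < N) (p : Fin N → E d) {s : ℝ} (hs : 0 < s) :
    IntegrableOn (fun r : ℝ => (volume (body p r)).toReal * (2 * s * r * Real.exp (-s * r ^ 2)))
      (Ioi 0) := by
  have h1 := (integrable_vol hN p (fun _ => 0) hs).integrableOn (s := Ioi 0)
  rw [← integrableOn_Ioi_comp_rpow_iff _ (two_ne_zero (α := ℝ))] at h1
  refine h1.congr_fun (fun r hr => ?_) measurableSet_Ioi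
  rw [abs_two]
  exact sq_eq hN p hr

end Layer

open Layer in
theorem layerStmt : LayerStmt := by
  intro d N hN p s hs
  exact ⟨fun a => integral_vol hN p a hs, fun a => integrable_vol hN p a hs, third hN p hs,
    fourth hN p hs⟩

end Pool.Agent.Lib.MP_0c1c75_co
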