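import Pool.Agent.Lib.MP_0c1c75_co.Spec2

/-!
MP_0c1c75_co: the real variable part of Theorem 3 (`RealStmt`), from `RealAStmt` and `RealBStmt`.
-/

open MeasureTheory Set Metric

namespace Pool.Agent.Lib.MP_0c1c75_co

namespace RealAux

theorem shift (φ : ℝ → ℝ) (r : ℝ) :
    ∫ y in Ioi (-r), φ (r + y) = ∫ ρ in Ioi (0 : ℝ), φ ρ := by
  have h := (measurePreserving_add_left (volume : Measure ℝ) r).setIntegral_preimage_emb
    (MeasurableEquiv.addLeft r).measurableEmbedding φ (Ioi 0)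
  have e : (fun y => r + y) ⁻¹' Ioi (0 : ℝ) = Ioi (-r) := by
    ext y
    simp only [mem_preimage, mem_Ioi]
    constructor <;> intro h <;> linarith
  rw [e] at h
  exact h

theorem shift_int (φ : ℝ → ℝ) (r : ℝ) (h : IntegrableOn φ (Ioi 0)) :
    IntegrableOn (fun y => φ (r + y)) (Ioi (-r)) := by
  have h1 := ((measurePreserving_add_left (volume : Measure ℝ) r).integrableOn_comp_preimage
    (MeasurableEquiv.addLeft r).measurableEmbedding (f := φ) (s := Ioi 0)).2 h
  have e : (fun y => r + y) ⁻¹' Ioi (0 : ℝ) = Ioi (-r) := by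
    ext y
    simp only [mem_preimage, mem_Ioi]
    constructor <;> intro h <;> linarith
  rw [e] at h1
  exact h1

theorem bern (a b : ℝ) (n : ℕ) (hb : 0 ≤ b) :
    (max a 0) ^ (n + 1) - ((n : ℝ) + 1) * (max a 0) ^ n * b ≤ (max (a - b) 0) ^ (n + 1) := by
  have hn : (0 : ℝ) ≤ (n : ℝ) + 1 := by positivity
  rcases le_or_gt a 0 with ha | ha
  · rw [max_eq_right ha]
    have h1 : (0 : ℝ) ≤ ((n : ℝ) + 1) * 0 ^ n * b := by positivity
    have h2 : (0 : ℝ) ≤ (max (a - b) 0) ^ (n + 1) := by positivity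
    have h3 : (0 : ℝ) ^ (n + 1) = 0 := by simp
    rw [h3]
    linarith
  · rw [max_eq_left ha.le]
    rcases le_or_gt 0 (a - b) with h | h
    · rw [max_eq_left h]
      have h1 := one_add_mul_le_pow (a := -b / a) (by
        rw [le_div_iff₀ ha]
        linarith) (n + 1)
      have h2 : a ^ (n + 1) * (1 + ((n + 1 : ℕ) : ℝ) * (-b / a)) ≤
          a ^ (n + 1) * (1 + -b / a) ^ (n + 1) :=
        mul_le_mul_of_nonneg_left h1 (by positivity)
      rw [← mul_pow] at h2
      have e1 : a * (1 + -b / a) = a - b := by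
        field_simp
        ring
      have e2 : a ^ (n + 1) * (1 + ((n + 1 : ℕ) : ℝ) * (-b / a))
          = a ^ (n + 1) - ((n : ℝ) + 1) * a ^ n * b := by
        push_cast
        field_simp
        ring
      rw [e1, e2] at h2
      exact h2
    · rw [max_eq_right h.le]
      have h1 : a ^ (n + 1) - ((n : ℝ) + 1) * a ^ n * b = a ^ n * (a - (n + 1) * b) := by ring
      have h2 : a - ((n : ℝ) + 1) * b ≤ 0 := by
        have : (0 : ℝ) ≤ n * b := by positivity
        nlinarith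
      rw [h1]
      have h3 : (0 : ℝ) ^ (n + 1) = 0 := by simp
      rw [h3]
      exact mul_nonpos_of_nonneg_of_nonpos (by positivity) h2

theorem expo {D r F y : ℝ} (hr : r ≠ 0) (hF : F ≠ 0) :
    -(D / (2 * r * F)) * (2 * r * y + y ^ 2) = -(D * y / F) - D * y ^ 2 / (2 * r * F) := by
  field_simp
  ring

/-- the loss term -/
theorem loss {n : ℕ} {r F y : ℝ} (hr : 0 < r) (hF : 0 < F) :
    (max (1 + y / F) 0) ^ n *
      Real.exp (-(((n + 1 : ℕ) : ℝ) / (2 * r * F)) * (2 * r * y + y ^ 2)) ≤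
      Real.exp (-y / F - ((n + 1 : ℕ) : ℝ) * y ^ 2 / (2 * r * F)) := by
  have h1 : max (1 + y / F) 0 ≤ Real.exp (y / F) := by
    apply max_le
    · have := Real.add_one_le_exp (y / F)
      linarith
    · positivity
  have h2 : (max (1 + y / F) 0) ^ n ≤ Real.exp (n * (y / F)) := by
    rw [Real.exp_nat_mul]
    exact pow_le_pow_left₀ (by positivity) h1 n
  have h3 := mul_le_mul_of_nonneg_right h2
    (Real.exp_pos (-(((n + 1 : ℕ) : ℝ) / (2 * r * F)) * (2 * r * y + y ^ 2))).le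
  refine h3.trans (le_of_eq ?_)
  rw [← Real.exp_add, expo hr.ne' hF.ne']
  congr 1
  push_cast
  field_simp
  ring

/-- general lower bound -/
theorem lower {n : ℕ} {r F y β v : ℝ} (hr : 0 < r) (hF : 0 < F) (hy : -r < y) (hβ : 0 ≤ β)
    (hv0 : 0 ≤ v) (hv : F + y - β ≤ v) :
    Afun (n + 1) r F y - ((n : ℝ) + 1) * (max (1 + y / F) 0) ^ n * (β / F) *
      ((1 + y / r) * Real.exp (-(((n + 1 : ℕ) : ℝ) / (2 * r * F)) * (2 * r * y + y ^ 2))) ≤
    (v / F) ^ (n + 1) * (1 + y / r) *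
      Real.exp (-(((n + 1 : ℕ) : ℝ) / (2 * r * F)) * (2 * r * y + y ^ 2)) := by
  have h1 := bern (1 + y / F) (β / F) n (by positivity)
  have h2 : max (1 + y / F - β / F) 0 ≤ v / F := by
    apply max_le
    · rw [le_div_iff₀ hF]
      have : (1 + y / F - β / F) * F = F + y - β := by
        field_simp
      rw [this]
      exact hv
    · positivity
  have h3 : (max (1 + y / F - β / F) 0) ^ (n + 1) ≤ (v / F) ^ (n + 1) :=
    pow_le_pow_left₀ (le_max_right _ _) h2 _
  have h4 := h1.trans h3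
  have hw : 0 ≤ (1 + y / r) *
      Real.exp (-(((n + 1 : ℕ) : ℝ) / (2 * r * F)) * (2 * r * y + y ^ 2)) := by
    have : 0 ≤ 1 + y / r := by
      have : (1 + y / r) = (r + y) / r := by field_simp
      rw [this]
      apply div_nonneg _ hr.le
      linarith
    positivity
  have h5 := mul_le_mul_of_nonneg_right h4 hw
  have e : Afun (n + 1) r F y = (max (1 + y / F) 0) ^ (n + 1) * ((1 + y / r) *
      Real.exp (-(((n + 1 : ℕ) : ℝ) / (2 * r * F)) * (2 * r * y + y ^ 2))) := by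
    unfold Afun
    ring
  rw [e, mul_assoc ((v / F) ^ (n + 1))]
  rw [sub_mul] at h5
  exact h5

theorem wpos {r y : ℝ} (hr : 0 < r) (hy : -r < y) : 0 < 1 + y / r := by
  have : (1 + y / r) = (r + y) / r := by field_simp
  rw [this]
  apply div_pos _ hr
  linarith

theorem Apos {d : ℕ} {r F y : ℝ} (hr : 0 < r) (hy : -r < y) : 0 ≤ Afun d r F y := by
  unfold Afun
  have := (wpos hr hy).le
  positivity

/-- lower bound on `[-r/2, 0]` and for `y ≥ 0` -/
theorem lower1 {n : ℕ} {r F y η v : ℝ} (hr : 8 ≤ r) (hF : r - 2 ≤ F) (hy : -r / 2 ≤ y)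
    (hη : 0 ≤ η) (hv0 : 0 ≤ v) (hv : F + y - η * |y| ≤ v) :
    Afun (n + 1) r F y - 4 * ((n + 1 : ℕ) : ℝ) * η / r * (|y| * Afun (n + 1) r F y) ≤
    (v / F) ^ (n + 1) * (1 + y / r) *
      Real.exp (-(((n + 1 : ℕ) : ℝ) / (2 * r * F)) * (2 * r * y + y ^ 2)) := by
  have hr0 : 0 < r := by linarith
  have hF0 : 0 < F := by linarith
  have hy' : -r < y := by linarith
  have hb : 0 ≤ η * |y| := by positivity
  refine le_trans ?_ (lower hr0 hF0 hy' hb hv0 hv)
  have hFy : r / 4 ≤ F + y := by linarith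
  have ha : 0 < 1 + y / F := by
    have : (1 + y / F) = (F + y) / F := by field_simp
    rw [this]
    apply div_pos _ hF0
    linarith
  have hA := Apos (d := n + 1) (F := F) hr0 hy'
  apply sub_le_sub_left
  have e : ((n : ℝ) + 1) * (max (1 + y / F) 0) ^ n * (η * |y| / F) *
      ((1 + y / r) * Real.exp (-(((n + 1 : ℕ) : ℝ) / (2 * r * F)) * (2 * r * y + y ^ 2)))
      = ((n : ℝ) + 1) * η * |y| / (F + y) * Afun (n + 1) r F y := by
    unfold Afun
    rw [max_eq_left ha.le]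
    have h1 : (1 + y / F) ^ (n + 1) = (1 + y / F) ^ n * ((F + y) / F) := by
      rw [pow_succ]
      congr 1
      field_simp
    have h2 : F + y ≠ 0 := by linarith
    rw [h1]
    field_simp
  rw [e]
  have h3 : ((n : ℝ) + 1) * η * |y| / (F + y) ≤ 4 * ((n + 1 : ℕ) : ℝ) * η / r * |y| := by
    rw [div_le_iff₀ (by linarith)]
    have h4 : 4 * ((n + 1 : ℕ) : ℝ) * η / r * |y| * (F + y)
        = (((n : ℝ) + 1) * η * |y|) * (4 * (F + y) / r) := by
      push_cast
      field_simp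
    rw [h4]
    have h5 : 1 ≤ 4 * (F + y) / r := by
      rw [le_div_iff₀ hr0]
      linarith
    have h6 : 0 ≤ ((n : ℝ) + 1) * η * |y| := by positivity
    nlinarith
  calc ((n : ℝ) + 1) * η * |y| / (F + y) * Afun (n + 1) r F y
      ≤ 4 * ((n + 1 : ℕ) : ℝ) * η / r * |y| * Afun (n + 1) r F y :=
        mul_le_mul_of_nonneg_right h3 hA
    _ = 4 * ((n + 1 : ℕ) : ℝ) * η / r * (|y| * Afun (n + 1) r F y) := by ring

/-- lower bound on `(-r, -r/2]` -/
theorem lower2 {n : ℕ} {r F y v : ℝ} (hr : 8 ≤ r) (hF : r - 2 ≤ F) (hFr : F ≤ r) (hy : -r < y)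
    (hv0 : 0 ≤ v) (hv : 1 ≤ r + y → F + y - 1 / (r + y) ≤ v) :
    Afun (n + 1) r F y - ((n + 1 : ℕ) : ℝ) / (F * r) *
        Real.exp (-y / F - ((n + 1 : ℕ) : ℝ) * y ^ 2 / (2 * r * F)) ≤
    (v / F) ^ (n + 1) * (1 + y / r) *
      Real.exp (-(((n + 1 : ℕ) : ℝ) / (2 * r * F)) * (2 * r * y + y ^ 2)) := by
  have hr0 : 0 < r := by linarith
  have hF0 : 0 < F := by linarith
  have hw := wpos hr0 hy
  have hl := loss (n := n) (y := y) hr0 hF0
  have hn : (1 : ℝ) ≤ ((n + 1 : ℕ) : ℝ) := by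
    push_cast
    have : (0 : ℝ) ≤ n := Nat.cast_nonneg n
    linarith
  rcases le_or_gt 1 (r + y) with h1 | h1
  · have hb : 0 ≤ 1 / (r + y) := by positivity
    refine le_trans ?_ (lower hr0 hF0 hy hb hv0 (hv h1))
    apply sub_le_sub_left
    have e : ((n : ℝ) + 1) * (max (1 + y / F) 0) ^ n * (1 / (r + y) / F) *
        ((1 + y / r) * Real.exp (-(((n + 1 : ℕ) : ℝ) / (2 * r * F)) * (2 * r * y + y ^ 2)))
        = ((n + 1 : ℕ) : ℝ) / (F * r) * ((max (1 + y / F) 0) ^ n *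
          Real.exp (-(((n + 1 : ℕ) : ℝ) / (2 * r * F)) * (2 * r * y + y ^ 2))) := by
      have h2 : 1 + y / r = (r + y) / r := by field_simp
      have h3 : r + y ≠ 0 := by linarith
      rw [h2]
      push_cast
      field_simp
    rw [e]
    exact mul_le_mul_of_nonneg_left hl (by positivity)
  · have h0 : 0 ≤ (v / F) ^ (n + 1) * (1 + y / r) *
      Real.exp (-(((n + 1 : ℕ) : ℝ) / (2 * r * F)) * (2 * r * y + y ^ 2)) := by positivity
    refine le_trans ?_ h0
    rw [sub_nonpos]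
    have e : Afun (n + 1) r F y = (max (1 + y / F) 0 * (1 + y / r)) * ((max (1 + y / F) 0) ^ n *
          Real.exp (-(((n + 1 : ℕ) : ℝ) / (2 * r * F)) * (2 * r * y + y ^ 2))) := by
      unfold Afun
      rw [pow_succ]
      ring
    rw [e]
    have h2 : max (1 + y / F) 0 ≤ 1 / F := by
      apply max_le
      · rw [le_div_iff₀ hF0]
        have : (1 + y / F) * F = F + y := by field_simp
        rw [this]
        linarith
      · positivity
    have h3 : 1 + y / r ≤ 1 / r := by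
      rw [le_div_iff₀ hr0]
      have : (1 + y / r) * r = r + y := by field_simp
      rw [this]
      linarith
    have h4 : max (1 + y / F) 0 * (1 + y / r) ≤ ((n + 1 : ℕ) : ℝ) / (F * r) := by
      calc max (1 + y / F) 0 * (1 + y / r) ≤ 1 / F * (1 / r) :=
            mul_le_mul h2 h3 hw.le (by positivity)
        _ = 1 / (F * r) := by field_simp
        _ ≤ ((n + 1 : ℕ) : ℝ) / (F * r) := by gcongr
    exact mul_le_mul h4 hl (by positivity) (by positivity)

/-- upper bound for `y ≤ 0` -/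
theorem upper1 {n : ℕ} {r F y γ v : ℝ} (hr : 0 < r) (hF : 0 < F) (hy : -r < y) (hy0 : y ≤ 0)
    (hγ : 0 < γ) (hv0 : 0 ≤ v) (hv : 0 < v → v ≤ F - γ + y) :
    (v / F) ^ (n + 1) * (1 + y / r) *
      Real.exp (-(((n + 1 : ℕ) : ℝ) / (2 * r * F)) * (2 * r * y + y ^ 2)) ≤
    Afun (n + 1) r F y * Real.exp (-(((n + 1 : ℕ) : ℝ) * γ / (2 * F))) := by
  have hw := wpos hr hy
  have hA := Apos (d := n + 1) (F := F) hr hy
  rcases hv0.eq_or_lt with h0 | h0
  · rw [← h0]
    have : (0 / F) ^ (n + 1) = 0 := by simp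
    rw [this, zero_mul, zero_mul]
    positivity
  · have h1 := hv h0
    have hFy : 0 < F + y := by linarith
    have ha : 1 + y / F = (F + y) / F := by field_simp
    have ha0 : 0 < 1 + y / F := by rw [ha]; positivity
    have h2 : v / F ≤ (1 + y / F) * Real.exp (-(γ / (2 * F))) := by
      have h3 : 1 - γ / (F + y) ≤ Real.exp (-(γ / (2 * F))) := by
        have h4 := Real.add_one_le_exp (-(γ / (F + y)))
        have h5 : -(γ / (F + y)) ≤ -(γ / (2 * F)) := by
          apply neg_le_neg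
          apply div_le_div_of_nonneg_left hγ.le hFy
          linarith
        have h6 := Real.exp_le_exp.2 h5
        linarith
      have h7 : v / F ≤ (1 + y / F) * (1 - γ / (F + y)) := by
        rw [div_le_iff₀ hF]
        have : (1 + y / F) * (1 - γ / (F + y)) * F = F - γ + y := by
          field_simp
          ring
        rw [this]
        exact h1
      exact h7.trans (mul_le_mul_of_nonneg_left h3 ha0.le)
    have h3 : (v / F) ^ (n + 1) ≤ (1 + y / F) ^ (n + 1) *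
        Real.exp (-(((n + 1 : ℕ) : ℝ) * γ / (2 * F))) := by
      have h4 := pow_le_pow_left₀ (by positivity) h2 (n + 1)
      rw [mul_pow, ← Real.exp_nat_mul] at h4
      refine h4.trans (le_of_eq ?_)
      congr 2
      field_simp
    unfold Afun
    rw [max_eq_left ha0.le]
    have h5 := mul_le_mul_of_nonneg_right h3 (mul_nonneg hw.le
      (Real.exp_pos (-(((n + 1 : ℕ) : ℝ) / (2 * r * F)) * (2 * r * y + y ^ 2))).le)
    calc (v / F) ^ (n + 1) * (1 + y / r) *
          Real.exp (-(((n + 1 : ℕ) : ℝ) / (2 * r * F)) * (2 * r * y + y ^ 2)) =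
          (v / F) ^ (n + 1) * ((1 + y / r) *
          Real.exp (-(((n + 1 : ℕ) : ℝ) / (2 * r * F)) * (2 * r * y + y ^ 2))) := by ring
      _ ≤ _ := h5
      _ = _ := by ring

/-- upper bound for `y > 0` -/
theorem upper2 {n : ℕ} {r F y γ η v ε : ℝ} (hr : 0 < r) (hF : 0 < F) (hy : 0 < y)
    (hη : 0 ≤ η) (hv0 : 0 ≤ v) (hv : v ≤ F - γ + y + η * y)
    (hε : Real.exp (-(((n + 1 : ℕ) : ℝ) * γ / (F + y))) ≤ ε) (hε1 : ε ≤ 1) :
    (v / F) ^ (n + 1) * (1 + y / r) *
      Real.exp (-(((n + 1 : ℕ) : ℝ) / (2 * r * F)) * (2 * r * y + y ^ 2)) ≤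
    ε * Afun (n + 1) r F y + ((n + 1 : ℕ) : ℝ) * η * y / F *
      Real.exp (((n + 1 : ℕ) : ℝ) * η * y / F) * Afun (n + 1) r F y := by
  have hy' : -r < y := by linarith
  have hw := wpos hr hy'
  have hA := Apos (d := n + 1) (F := F) hr hy'
  have hFy : 0 < F + y := by linarith
  have ha : 1 + y / F = (F + y) / F := by field_simp
  have ha0 : 0 < 1 + y / F := by rw [ha]; positivity
  have hε0 : 0 < ε := lt_of_lt_of_le (Real.exp_pos _) hε
  obtain ⟨x, hx⟩ : ∃ x, x = ((n + 1 : ℕ) : ℝ) * η * y / F := ⟨_, rfl⟩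
  have hx0 : 0 ≤ x := by rw [hx]; positivity
  have h2 : v / F ≤ (1 + y / F) * Real.exp ((η * y - γ) / (F + y)) := by
    have h3 : 1 + (η * y - γ) / (F + y) ≤ Real.exp ((η * y - γ) / (F + y)) := by
      have := Real.add_one_le_exp ((η * y - γ) / (F + y))
      linarith
    have h7 : v / F ≤ (1 + y / F) * (1 + (η * y - γ) / (F + y)) := by
      rw [div_le_iff₀ hF]
      have : (1 + y / F) * (1 + (η * y - γ) / (F + y)) * F = F - γ + y + η * y := by
        field_simp
        ring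
      rw [this]
      exact hv
    exact h7.trans (mul_le_mul_of_nonneg_left h3 ha0.le)
  have h3 : (v / F) ^ (n + 1) ≤ (1 + y / F) ^ (n + 1) * (ε + x * Real.exp x) := by
    have h4 := pow_le_pow_left₀ (by positivity) h2 (n + 1)
    rw [mul_pow, ← Real.exp_nat_mul] at h4
    refine h4.trans (mul_le_mul_of_nonneg_left ?_ (by positivity))
    have e : ((n + 1 : ℕ) : ℝ) * ((η * y - γ) / (F + y))
        = ((n + 1 : ℕ) : ℝ) * η * y / (F + y) + -(((n + 1 : ℕ) : ℝ) * γ / (F + y)) := by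
      field_simp
      ring
    rw [e, Real.exp_add]
    have h5 : Real.exp (((n + 1 : ℕ) : ℝ) * η * y / (F + y)) ≤ Real.exp x := by
      apply Real.exp_le_exp.2
      rw [hx]
      apply div_le_div_of_nonneg_left (by positivity) hF
      linarith
    have h6 : Real.exp x ≤ 1 + x * Real.exp x := by
      have h7 := Real.add_one_le_exp (-x)
      have h8 := mul_le_mul_of_nonneg_right h7 (Real.exp_pos x).le
      rw [← Real.exp_add, neg_add_cancel, Real.exp_zero] at h8
      linarith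
    have h9 : 0 ≤ x * Real.exp x := by positivity
    calc Real.exp (((n + 1 : ℕ) : ℝ) * η * y / (F + y)) *
          Real.exp (-(((n + 1 : ℕ) : ℝ) * γ / (F + y)))
        ≤ (1 + x * Real.exp x) * ε :=
          mul_le_mul (h5.trans h6) hε (Real.exp_pos _).le (by positivity)
      _ ≤ ε + x * Real.exp x := by nlinarith
  unfold Afun
  rw [max_eq_left ha0.le, ← hx]
  have h5 := mul_le_mul_of_nonneg_right h3 (mul_nonneg hw.le
    (Real.exp_pos (-(((n + 1 : ℕ) : ℝ) / (2 * r * F)) * (2 * r * y + y ^ 2))).le)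
  calc (v / F) ^ (n + 1) * (1 + y / r) *
        Real.exp (-(((n + 1 : ℕ) : ℝ) / (2 * r * F)) * (2 * r * y + y ^ 2)) =
        (v / F) ^ (n + 1) * ((1 + y / r) *
        Real.exp (-(((n + 1 : ℕ) : ℝ) / (2 * r * F)) * (2 * r * y + y ^ 2))) := by ring
    _ ≤ _ := h5
    _ = _ := by ring

/-- the final computation -/
theorem final {c D r F γ IA I1 I2 I3 I4 ε : ℝ} (hc : 0 < c) (hD : 1 ≤ D) (hr : 0 < r)
    (hF : 0 < F) (hγ : 0 < γ) (hε : ε = Real.exp (-(D * γ / (2 * F))))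
    (hrD : (384 * c ^ 2 + 8) ^ 2 * Real.sqrt D ≤ r ^ 2)
    (h4 : r ≤ c * (Real.sqrt D * IA)) (h5 : IA ≤ c * I2)
    (h6 : Real.sqrt D * I1 ≤ c * (r * IA))
    (h7 : I3 ≤ c * (Real.sqrt D * (16 / r ^ 2) * IA))
    (h8 : r ^ 2 * I4 ≤ c * (Real.sqrt D * IA))
    (h : IA - 4 * D * (16 / r ^ 2) / r * I1 - I4 ≤ IA - (1 - ε) * I2 + I3) :
    r ^ 2 * (Real.sqrt D * γ) ≤ (384 * c ^ 2 + 8) * F := by
  have hq1 : 1 ≤ Real.sqrt D := by
    rw [Real.one_le_sqrt]
    exact hD
  have hq0 : 0 < Real.sqrt D := by linarith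
  have hqq : Real.sqrt D * Real.sqrt D = D := Real.mul_self_sqrt (by linarith)
  generalize Real.sqrt D = q at *
  have hIA : 0 < IA := by
    by_contra hcon
    push Not at hcon
    have : c * (q * IA) ≤ 0 :=
      mul_nonpos_of_nonneg_of_nonpos hc.le (mul_nonpos_of_nonneg_of_nonpos hq0.le hcon)
    linarith
  have hr2 : 0 < r ^ 2 := by positivity
  obtain ⟨u, hu⟩ : ∃ u, u = q * IA / r ^ 2 := ⟨_, rfl⟩
  have hu0 : 0 < u := by rw [hu]; positivity
  have e1 : 4 * D * (16 / r ^ 2) / r * I1 ≤ 64 * c * u := by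
    have : 4 * D * (16 / r ^ 2) / r * I1 = 64 * q / (r ^ 2 * r) * (q * I1) := by
      rw [← hqq]
      field_simp
      ring
    rw [this]
    calc 64 * q / (r ^ 2 * r) * (q * I1) ≤ 64 * q / (r ^ 2 * r) * (c * (r * IA)) :=
          mul_le_mul_of_nonneg_left h6 (by positivity)
      _ = 64 * c * u := by
          rw [hu]
          field_simp
  have e2 : I4 ≤ c * u := by
    rw [← mul_le_mul_iff_right₀ hr2]
    refine h8.trans (le_of_eq ?_)
    rw [hu]
    field_simp
  have e3 : I3 ≤ 16 * c * u := by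
    refine h7.trans (le_of_eq ?_)
    rw [hu]
    field_simp
  have hε0 : 0 < ε := by rw [hε]; positivity
  have hδ : 0 < D * γ / (2 * F) := by positivity
  have hε1 : ε < 1 := by
    rw [hε, Real.exp_lt_one_iff]
    linarith
  have e4 : (1 - ε) * I2 ≤ 96 * c * u := by
    have : 0 < c * u := by positivity
    linarith
  have e5 : (1 - ε) * IA ≤ 96 * c ^ 2 * u := by
    calc (1 - ε) * IA ≤ (1 - ε) * (c * I2) :=
          mul_le_mul_of_nonneg_left h5 (by linarith)
      _ = c * ((1 - ε) * I2) := by ring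
      _ ≤ c * (96 * c * u) := mul_le_mul_of_nonneg_left e4 hc.le
      _ = _ := by ring
  have e6 : 1 - ε ≤ 96 * c ^ 2 * (q / r ^ 2) := by
    rw [← mul_le_mul_iff_left₀ hIA]
    refine e5.trans (le_of_eq ?_)
    rw [hu]
    field_simp
  have e7 : 96 * c ^ 2 * (q / r ^ 2) ≤ 1 / 2 := by
    have : 96 * c ^ 2 * (q / r ^ 2) = 96 * c ^ 2 * q / r ^ 2 := by ring
    rw [this, div_le_iff₀ hr2]
    have h9 : 192 * c ^ 2 ≤ (384 * c ^ 2 + 8) ^ 2 := by
      have : 0 ≤ c ^ 2 := by positivity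
      nlinarith
    have h10 := mul_le_mul_of_nonneg_right h9 hq0.le
    linarith
  have e8 : 1 / 2 ≤ ε := by linarith
  have e9 : D * γ / (2 * F) * ε ≤ 1 - ε := by
    have h9 := Real.add_one_le_exp (D * γ / (2 * F))
    have h10 := mul_le_mul_of_nonneg_right h9 hε0.le
    have h11 : Real.exp (D * γ / (2 * F)) * ε = 1 := by
      rw [hε, ← Real.exp_add, add_neg_cancel, Real.exp_zero]
    rw [h11] at h10
    linarith
  have e10 : D * γ / (2 * F) * (1 / 2) ≤ 96 * c ^ 2 * (q / r ^ 2) :=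
    (mul_le_mul_of_nonneg_left e8 hδ.le).trans (e9.trans e6)
  have e11 : r ^ 2 * (q * γ) ≤ 384 * c ^ 2 * F := by
    have h9 := mul_le_mul_of_nonneg_right e10 (show 0 ≤ 4 * F * r ^ 2 / q by positivity)
    have h10 : D * γ / (2 * F) * (1 / 2) * (4 * F * r ^ 2 / q) = r ^ 2 * (q * γ) := by
      rw [← hqq]
      field_simp
      norm_num
    have h11 : 96 * c ^ 2 * (q / r ^ 2) * (4 * F * r ^ 2 / q) = 384 * c ^ 2 * F := by
      field_simp
      ring
    rwa [h10, h11] at h9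
  linarith

theorem ident {n : ℕ} {r F y v : ℝ} (hr : 0 < r) (hF : 0 < F) :
    v ^ (n + 1) * ((r + y) * Real.exp (-(((n + 1 : ℕ) : ℝ) / (2 * r * F)) * (r + y) ^ 2)) =
      F ^ (n + 1) * (r * Real.exp (-(((n + 1 : ℕ) : ℝ) / (2 * r * F)) * r ^ 2)) *
      ((v / F) ^ (n + 1) * (1 + y / r) *
      Real.exp (-(((n + 1 : ℕ) : ℝ) / (2 * r * F)) * (2 * r * y + y ^ 2))) := by
  have e1 : Real.exp (-(((n + 1 : ℕ) : ℝ) / (2 * r * F)) * (r + y) ^ 2) =
      Real.exp (-(((n + 1 : ℕ) : ℝ) / (2 * r * F)) * r ^ 2) *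
      Real.exp (-(((n + 1 : ℕ) : ℝ) / (2 * r * F)) * (2 * r * y + y ^ 2)) := by
    rw [← Real.exp_add]
    congr 1
    ring
  have e2 : r * (1 + y / r) = r + y := by field_simp
  have e3 : F ^ (n + 1) * (v / F) ^ (n + 1) = v ^ (n + 1) := by
    rw [← mul_pow]
    congr 1
    field_simp
  rw [e1, ← e2, ← e3]
  ring

end RealAux

open RealAux in
/-- The real variable part of Theorem 3. -/
theorem realStmt (hA : RealAStmt) (hB : RealBStmt) : RealStmt := by
  obtain ⟨c, hc, hA⟩ := hA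
  refine ⟨384 * c ^ 2 + 8, by positivity, ?_⟩
  intro d f g B B' hd hfg hB0 hB'0 hfr hf hgm hg hgc hL r hr
  obtain ⟨hf0, hfconc, hfadd⟩ := hfg f (by simp)
  obtain ⟨hg0, hgconc, hgadd⟩ := hfg g (by simp)
  obtain ⟨hBf, -⟩ := hB f B hf0 hfconc hfadd hB0 hf
  obtain ⟨hBg, hBg2⟩ := hB g B' hg0 hgconc hgadd hB'0 hg
  have hBg2 := hBg2 hgc
  have hd1 : (1 : ℝ) ≤ d := by
    have : 1 ≤ d := by omega
    exact_mod_cast this
  have hq1 : (1 : ℝ) ≤ (d : ℝ) ^ ((1 : ℝ) / 4) := Real.one_le_rpow hd1 (by norm_num)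
  have hqs : ((d : ℝ) ^ ((1 : ℝ) / 4)) ^ 2 = Real.sqrt d := by
    rw [Real.sqrt_eq_rpow, ← Real.rpow_natCast, ← Real.rpow_mul (by linarith)]
    norm_num
  have hc2 : 0 < 384 * c ^ 2 := by positivity
  have hr8 : 8 ≤ r := by nlinarith
  have hr0 : 0 < r := by linarith
  have hrD : (384 * c ^ 2 + 8) ^ 2 * Real.sqrt d ≤ r ^ 2 := by
    rw [← hqs, ← mul_pow]
    exact pow_le_pow_left₀ (by positivity) hr 2
  obtain ⟨hF2, hFr, hFup, hFdn, hFlow⟩ := hBf r (by linarith)
  obtain ⟨-, -, hGup, -, -⟩ := hBg r (by linarith)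
  have hF0 : 0 < f r := by linarith
  rcases le_or_gt (f r - g r) 0 with hγ | hγ
  · have h1 : r ^ 2 * (Real.sqrt d * (f r - g r)) ≤ 0 :=
      mul_nonpos_of_nonneg_of_nonpos (by positivity)
        (mul_nonpos_of_nonneg_of_nonpos (by positivity) hγ)
    have h2 : 0 ≤ (384 * c ^ 2 + 8) * f r := by positivity
    linarith
  obtain ⟨-, hAint, hA1int, hA4, hA5, hA6, hA7, hA8⟩ :=
    hA d r (f r) hd hr8 (by linarith) hFr
  obtain ⟨n, rfl⟩ : ∃ n, d = n + 1 := ⟨d - 1, by omega⟩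
  generalize hFdef : f r = F at *
  obtain ⟨γ, hγdef⟩ : ∃ γ, γ = F - g r := ⟨_, rfl⟩
  have hgr : g r = F - γ := by rw [hγdef]; ring
  rw [← hγdef] at hγ
  rw [← hγdef]
  have hη : Real.sqrt ((n + 1 : ℕ) : ℝ) * (16 / r ^ 2) ≤ 1 := by
    have e : Real.sqrt ((n + 1 : ℕ) : ℝ) * (16 / r ^ 2)
        = 16 * Real.sqrt ((n + 1 : ℕ) : ℝ) / r ^ 2 := by ring
    rw [e, div_le_one (by positivity)]
    have h1 : 16 ≤ (384 * c ^ 2 + 8) ^ 2 := by nlinarith
    have h2 := mul_le_mul_of_nonneg_right h1 (Real.sqrt_nonneg ((n + 1 : ℕ) : ℝ))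
    linarith
  obtain ⟨hXint, hX⟩ := hA7 (16 / r ^ 2) (by positivity) hη
  obtain ⟨s, hs⟩ : ∃ s, s = ((n + 1 : ℕ) : ℝ) / (2 * r * F) := ⟨_, rfl⟩
  have hs0 : 0 < s := by rw [hs]; positivity
  obtain ⟨i1, i2, i3⟩ := hL s hs0
  obtain ⟨K, hK⟩ : ∃ K, K = F ^ (n + 1) * (r * Real.exp (-s * r ^ 2)) := ⟨_, rfl⟩
  have hK0 : 0 < K := by rw [hK]; positivity
  obtain ⟨L, hLdef⟩ : ∃ L : ℝ → ℝ, L = fun y => (f (r + y) / F) ^ (n + 1) * (1 + y / r) *
      Real.exp (-(((n + 1 : ℕ) : ℝ) / (2 * r * F)) * (2 * r * y + y ^ 2)) := ⟨_, rfl⟩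
  obtain ⟨M, hMdef⟩ : ∃ M : ℝ → ℝ, M = fun y => (g (r + y) / F) ^ (n + 1) * (1 + y / r) *
      Real.exp (-(((n + 1 : ℕ) : ℝ) / (2 * r * F)) * (2 * r * y + y ^ 2)) := ⟨_, rfl⟩
  have eL : (fun y => f (r + y) ^ (n + 1) * ((r + y) * Real.exp (-s * (r + y) ^ 2)))
      = fun y => K * L y := by
    funext y
    rw [hK, hLdef, hs]
    exact ident hr0 hF0
  have eM : (fun y => g (r + y) ^ (n + 1) * ((r + y) * Real.exp (-s * (r + y) ^ 2)))
      = fun y => K * M y := by
    funext y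
    rw [hK, hMdef, hs]
    exact ident hr0 hF0
  have jL : IntegrableOn L (Ioi (-r)) := by
    have h1 := shift_int _ r i1
    rw [eL] at h1
    have h2 := h1.const_mul K⁻¹
    refine h2.congr (Filter.Eventually.of_forall fun y => ?_)
    field_simp
  have jM : IntegrableOn M (Ioi (-r)) := by
    have h1 := shift_int _ r i2
    rw [eM] at h1
    have h2 := h1.const_mul K⁻¹
    refine h2.congr (Filter.Eventually.of_forall fun y => ?_)
    field_simp
  have hLM : ∫ y in Ioi (-r), L y ≤ ∫ y in Ioi (-r), M y := by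
    have h1 := shift (fun ρ => f ρ ^ (n + 1) * (ρ * Real.exp (-s * ρ ^ 2))) r
    have h2 := shift (fun ρ => g ρ ^ (n + 1) * (ρ * Real.exp (-s * ρ ^ 2))) r
    rw [← h1, ← h2, eL, eM, integral_const_mul, integral_const_mul] at i3
    exact le_of_mul_le_mul_left i3 hK0
  obtain ⟨ls, hls⟩ : ∃ ls : ℝ → ℝ, ls = fun y => ((n + 1 : ℕ) : ℝ) / (F * r) *
      Real.exp (-y / F - ((n + 1 : ℕ) : ℝ) * y ^ 2 / (2 * r * F)) := ⟨_, rfl⟩
  have jls : IntegrableOn ls (Ioc (-r) (-r / 2)) := by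
    apply Continuous.integrableOn_Ioc
    rw [hls]
    fun_prop
  obtain ⟨X, hXdef⟩ : ∃ X : ℝ → ℝ, X = fun y => ((n + 1 : ℕ) : ℝ) * (16 / r ^ 2) * y / F *
      Real.exp (((n + 1 : ℕ) : ℝ) * (16 / r ^ 2) * y / F) * Afun (n + 1) r F y := ⟨_, rfl⟩
  obtain ⟨ε, hε⟩ : ∃ ε, ε = Real.exp (-(((n + 1 : ℕ) : ℝ) * γ / (2 * F))) := ⟨_, rfl⟩
  have hε1 : ε ≤ 1 := by
    rw [hε]
    apply Real.exp_le_one_iff.2
    have : 0 ≤ ((n + 1 : ℕ) : ℝ) * γ / (2 * F) := by positivity
    linarith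
  have hlow : ∀ y ∈ Ioi (-r), Afun (n + 1) r F y -
      4 * ((n + 1 : ℕ) : ℝ) * (16 / r ^ 2) / r * (|y| * Afun (n + 1) r F y) -
      (Ioc (-r) (-r / 2)).indicator ls y ≤ L y := by
    intro y hy
    have hy' : -r < y := hy
    rcases le_or_gt y (-r / 2) with h1 | h1
    · rw [indicator_of_mem (show y ∈ Ioc (-r) (-r / 2) from ⟨hy', h1⟩)]
      have h2 := lower2 (n := n) hr8 hF2 hFr hy' (hf0 (r + y)) (fun h => hFlow y h)
      have h3 : 0 ≤ 4 * ((n + 1 : ℕ) : ℝ) * (16 / r ^ 2) / r * (|y| * Afun (n + 1) r F y) := by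
        have := Apos (d := n + 1) (F := F) hr0 hy'
        positivity
      rw [hls, hLdef]
      simp only []
      linarith
    · rw [indicator_of_notMem (fun h => absurd h.2 (not_le.2 h1)), sub_zero, hLdef]
      apply lower1 hr8 hF2 h1.le (by positivity) (hf0 (r + y))
      rcases le_or_gt 0 y with h2 | h2
      · have h3 := (hFup y h2).1
        have h4 : 0 ≤ 16 / r ^ 2 * |y| := by positivity
        linarith
      · exact hFdn y h1.le h2.le
  have hup : ∀ y ∈ Ioi (-r), M y ≤ Afun (n + 1) r F y -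
      (1 - ε) * (Ioc (-r) F).indicator (Afun (n + 1) r F) y + (Ioi 0).indicator X y := by
    intro y hy
    have hy' : -r < y := hy
    rcases le_or_gt y 0 with h1 | h1
    · rw [indicator_of_mem (show y ∈ Ioc (-r) F from ⟨hy', by linarith⟩),
        indicator_of_notMem (show y ∉ Ioi (0 : ℝ) from not_lt.2 h1)]
      have h2 := upper1 (n := n) hr0 hF0 hy' h1 hγ (hg0 (r + y)) (fun h => by
        have := hBg2 r y (by linarith) h1 (by linarith) h
        linarith)
      rw [← hε] at h2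
      rw [hMdef]
      simp only []
      linarith
    · rw [indicator_of_mem (show y ∈ Ioi 0 from h1)]
      have h3 : g (r + y) ≤ F - γ + y + 16 / r ^ 2 * y := by
        have := (hGup y h1.le).2
        linarith
      rcases le_or_gt y F with h2 | h2
      · rw [indicator_of_mem (show y ∈ Ioc (-r) F from ⟨hy', h2⟩)]
        have h4 : Real.exp (-(((n + 1 : ℕ) : ℝ) * γ / (F + y))) ≤ ε := by
          rw [hε]
          apply Real.exp_le_exp.2
          apply neg_le_neg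
          apply div_le_div_of_nonneg_left (by positivity) (by positivity)
          linarith
        have h5 := upper2 (n := n) hr0 hF0 h1 (by positivity) (hg0 (r + y)) h3 h4 hε1
        rw [hMdef, hXdef]
        simp only []
        linarith
      · rw [indicator_of_notMem (fun h => absurd h.2 (not_le.2 h2)), mul_zero, sub_zero]
        have h4 : Real.exp (-(((n + 1 : ℕ) : ℝ) * γ / (F + y))) ≤ 1 := by
          apply Real.exp_le_one_iff.2
          have : 0 ≤ ((n + 1 : ℕ) : ℝ) * γ / (F + y) := by positivity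
          linarith
        have h5 := upper2 (n := n) hr0 hF0 h1 (by positivity) (hg0 (r + y)) h3 h4 le_rfl
        rw [hMdef, hXdef]
        simp only []
        linarith
  have kls : IntegrableOn ((Ioc (-r) (-r / 2)).indicator ls) (Ioi (-r)) := by
    rw [IntegrableOn, integrable_indicator_iff measurableSet_Ioc, IntegrableOn,
      Measure.restrict_restrict measurableSet_Ioc]
    have : Ioc (-r) (-r / 2) ∩ Ioi (-r) = Ioc (-r) (-r / 2) :=
      inter_eq_left.2 fun y hy => hy.1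
    rw [this]
    exact jls
  have kA : IntegrableOn ((Ioc (-r) F).indicator (Afun (n + 1) r F)) (Ioi (-r)) :=
    hAint.indicator measurableSet_Ioc
  have kX : IntegrableOn ((Ioi 0).indicator X) (Ioi (-r)) := by
    rw [IntegrableOn, integrable_indicator_iff measurableSet_Ioi, IntegrableOn,
      Measure.restrict_restrict measurableSet_Ioi]
    have : Ioi (0 : ℝ) ∩ Ioi (-r) = Ioi 0 :=
      inter_eq_left.2 fun y hy => by
        have h1 : (0 : ℝ) < y := hy
        have h2 : -r < y := by linarith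
        exact h2
    rw [this, hXdef]
    exact hXint
  have eA : ∫ y in Ioi (-r), (Ioc (-r) F).indicator (Afun (n + 1) r F) y =
      ∫ y in Ioc (-r) F, Afun (n + 1) r F y := by
    rw [setIntegral_indicator measurableSet_Ioc]
    have : Ioi (-r) ∩ Ioc (-r) F = Ioc (-r) F := inter_eq_right.2 fun y hy => hy.1
    rw [this]
  have els : ∫ y in Ioi (-r), (Ioc (-r) (-r / 2)).indicator ls y =
      ∫ y in Ioc (-r) (-r / 2), ls y := by
    rw [setIntegral_indicator measurableSet_Ioc]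
    have : Ioi (-r) ∩ Ioc (-r) (-r / 2) = Ioc (-r) (-r / 2) := inter_eq_right.2 fun y hy => hy.1
    rw [this]
  have eX : ∫ y in Ioi (-r), (Ioi 0).indicator X y = ∫ y in Ioi 0, X y := by
    rw [setIntegral_indicator measurableSet_Ioi]
    have : Ioi (-r) ∩ Ioi (0 : ℝ) = Ioi 0 :=
      inter_eq_right.2 fun y hy => by
        have h1 : (0 : ℝ) < y := hy
        have h2 : -r < y := by linarith
        exact h2
    rw [this]
  have e1 : ∫ y in Ioi (-r), (Afun (n + 1) r F y -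
      4 * ((n + 1 : ℕ) : ℝ) * (16 / r ^ 2) / r * (|y| * Afun (n + 1) r F y) -
      (Ioc (-r) (-r / 2)).indicator ls y) =
      (∫ y in Ioi (-r), Afun (n + 1) r F y) - 4 * ((n + 1 : ℕ) : ℝ) * (16 / r ^ 2) / r *
        (∫ y in Ioi (-r), |y| * Afun (n + 1) r F y) - ∫ y in Ioc (-r) (-r / 2), ls y := by
    have k1 : IntegrableOn (fun y => Afun (n + 1) r F y -
      4 * ((n + 1 : ℕ) : ℝ) * (16 / r ^ 2) / r * (|y| * Afun (n + 1) r F y)) (Ioi (-r)) :=
      hAint.sub (hA1int.const_mul _)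
    rw [integral_sub k1 kls, integral_sub hAint (hA1int.const_mul _), integral_const_mul, els]
  have e2 : ∫ y in Ioi (-r), (Afun (n + 1) r F y -
      (1 - ε) * (Ioc (-r) F).indicator (Afun (n + 1) r F) y + (Ioi 0).indicator X y) =
      (∫ y in Ioi (-r), Afun (n + 1) r F y) - (1 - ε) *
        (∫ y in Ioc (-r) F, Afun (n + 1) r F y) + ∫ y in Ioi 0, X y := by
    have k1 : IntegrableOn (fun y => Afun (n + 1) r F y -
      (1 - ε) * (Ioc (-r) F).indicator (Afun (n + 1) r F) y) (Ioi (-r)) :=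
      hAint.sub (kA.const_mul _)
    rw [integral_add k1 kX, integral_sub hAint (kA.const_mul _), integral_const_mul, eA, eX]
  have hLow : _ ≤ ∫ y in Ioi (-r), L y := e1 ▸ setIntegral_mono_on ((hAint.sub
    (hA1int.const_mul (4 * ((n + 1 : ℕ) : ℝ) * (16 / r ^ 2) / r))).sub kls) jL
    measurableSet_Ioi hlow
  have hUp : ∫ y in Ioi (-r), M y ≤ _ := e2 ▸ setIntegral_mono_on jM
    ((hAint.sub (kA.const_mul (1 - ε))).add kX) measurableSet_Ioi hup
  rw [← hls] at hA8
  rw [← hXdef] at hX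
  exact final hc hd1 hr0 hF0 hγ hε hrD hA4 hA5 hA6 hX hA8 (hLow.trans (hLM.trans hUp))

end Pool.Agent.Lib.MP_0c1c75_co
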