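import Pool.Agent.Lib.MP_0c1c75_co.Spec2

/-!
MP_0c1c75_co: integrals of the weight (module RealA).
-/

open MeasureTheory Set Metric

set_option linter.unusedVariables false

namespace Pool.Agent.Lib.MP_0c1c75_co.RealA

section

variable {d : ℕ} {r f : ℝ}

theorem bounds (hd : 2 ≤ d) (hr : 8 ≤ r) (hf1 : r / 2 ≤ f) (hf2 : f ≤ r) (y : ℝ) (hy : -r ≤ y) :
    0 ≤ Afun d r f y ∧ Afun d r f y ≤ Real.exp (y / r - d * y ^ 2 / (2 * r * f)) := by
  have hr0 : 0 < r := by linarith
  have hf0 : 0 < f := by linarith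
  have h1 : max (1 + y / f) 0 ≤ Real.exp (y / f) :=
    max_le (by linarith [Real.add_one_le_exp (y / f)]) (Real.exp_pos _).le
  have h2 : (max (1 + y / f) 0) ^ d ≤ Real.exp (d * (y / f)) := by
    rw [Real.exp_nat_mul]
    exact pow_le_pow_left₀ (le_max_right _ _) h1 d
  have h3 : 0 ≤ 1 + y / r := by
    have h := div_le_div_of_nonneg_right hy hr0.le
    rw [neg_div, div_self hr0.ne'] at h
    linarith
  have h4 : 1 + y / r ≤ Real.exp (y / r) := by linarith [Real.add_one_le_exp (y / r)]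
  have h5 : 0 ≤ (max (1 + y / f) 0) ^ d := pow_nonneg (le_max_right _ _) _
  refine ⟨mul_nonneg (mul_nonneg h5 h3) (Real.exp_pos _).le, ?_⟩
  have h6 : Real.exp (y / r - d * y ^ 2 / (2 * r * f)) =
      Real.exp (d * (y / f)) * Real.exp (y / r) *
        Real.exp (-((d : ℝ) / (2 * r * f)) * (2 * r * y + y ^ 2)) := by
    rw [← Real.exp_add, ← Real.exp_add]
    congr 1
    field_simp
    ring
  rw [h6]
  unfold Afun
  exact mul_le_mul_of_nonneg_right (mul_le_mul h2 h4 h3 (Real.exp_pos _).le) (Real.exp_pos _).le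

theorem le_gauss4 (hd : 2 ≤ d) (hr : 8 ≤ r) (hf1 : r / 2 ≤ f) (hf2 : f ≤ r) (y : ℝ)
    (hy : -r ≤ y) :
    Afun d r f y ≤ Real.exp (1 - (Real.sqrt d * (|y| / r)) ^ 2 / 4) := by
  have hr0 : 0 < r := by linarith
  have hf0 : 0 < f := by linarith
  have hd' : (2 : ℝ) ≤ d := by exact_mod_cast hd
  refine (bounds hd hr hf1 hf2 y hy).2.trans (Real.exp_le_exp.mpr ?_)
  rw [mul_pow, Real.sq_sqrt (by linarith), div_pow, sq_abs]
  have h1 : (d : ℝ) * y ^ 2 / (2 * r * f) ≥ (d : ℝ) * y ^ 2 / (2 * r * r) := by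
    apply div_le_div_of_nonneg_left (by positivity) (by positivity)
    exact mul_le_mul_of_nonneg_left hf2 (by positivity)
  have h2 : (d : ℝ) * y ^ 2 / (2 * r * r) = d * (y / r) ^ 2 / 2 := by
    field_simp
  have h3 : (d : ℝ) * (y ^ 2 / r ^ 2) = d * (y / r) ^ 2 := by
    rw [div_pow]
  rw [h2] at h1
  rw [h3]
  have h4 : 0 ≤ (y / r) ^ 2 := sq_nonneg _
  nlinarith [sq_nonneg (y / r - 1), mul_le_mul_of_nonneg_right hd' h4]

theorem lower (hd : 2 ≤ d) (hr : 8 ≤ r) (hf1 : r / 2 ≤ f) (hf2 : f ≤ r) (y : ℝ) (hy : 0 ≤ y)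
    (hy' : y ≤ r / (2 * Real.sqrt d)) : Real.exp (-1) ≤ Afun d r f y := by
  have hr0 : 0 < r := by linarith
  have hf0 : 0 < f := by linarith
  have hd' : (2 : ℝ) ≤ d := by exact_mod_cast hd
  have hs0 : 0 < Real.sqrt d := Real.sqrt_pos.mpr (by linarith)
  have hs2 : Real.sqrt d ^ 2 = d := Real.sq_sqrt (by linarith)
  have hx0 : 0 ≤ y / f := div_nonneg hy hf0.le
  have hb0 : 0 ≤ y / r := div_nonneg hy hr0.le
  have h1 : y / f - (y / f) ^ 2 / 2 ≤ Real.log (1 + y / f) := by
    refine le_trans ?_ (Real.le_log_one_add_of_nonneg hx0)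
    rw [le_div_iff₀ (by linarith)]
    nlinarith [mul_nonneg hx0 (mul_nonneg hx0 hx0)]
  have h2 : Real.exp (d * (y / f - (y / f) ^ 2 / 2)) ≤ (max (1 + y / f) 0) ^ d := by
    have h3 : max (1 + y / f) 0 = Real.exp (Real.log (1 + y / f)) := by
      rw [Real.exp_log (by linarith), max_eq_left (by linarith)]
    rw [h3, ← Real.exp_nat_mul]
    exact Real.exp_le_exp.mpr (mul_le_mul_of_nonneg_left h1 (by linarith))
  have h3 : (1 : ℝ) ≤ 1 + y / r := by linarith
  have h4 : y / f ≤ 2 * (y / r) := by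
    rw [div_le_iff₀ hf0]
    have h5 : 2 * (y / r) * f = y * (2 * f / r) := by
      field_simp
    rw [h5]
    have h6 : 1 ≤ 2 * f / r := by
      rw [le_div_iff₀ hr0]
      linarith
    nlinarith
  have h5 : (d : ℝ) * (y / r) ^ 2 ≤ 1 / 4 := by
    have h6 : Real.sqrt d * (y / r) ≤ 1 / 2 := by
      have h7 := div_le_div_of_nonneg_right hy' hr0.le
      have h8 : r / (2 * Real.sqrt d) / r = 1 / (2 * Real.sqrt d) := by
        field_simp
      rw [h8] at h7
      have h9 := mul_le_mul_of_nonneg_left h7 hs0.le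
      refine h9.trans (le_of_eq ?_)
      field_simp
    have h7 : 0 ≤ Real.sqrt d * (y / r) := mul_nonneg hs0.le hb0
    rw [← hs2]
    nlinarith
  have h6 : Real.exp (-1) ≤ Real.exp (d * (y / f - (y / f) ^ 2 / 2)) *
      Real.exp (-((d : ℝ) / (2 * r * f)) * (2 * r * y + y ^ 2)) := by
    rw [← Real.exp_add]
    apply Real.exp_le_exp.mpr
    have h7 : (d : ℝ) * (y / f - (y / f) ^ 2 / 2) +
        -((d : ℝ) / (2 * r * f)) * (2 * r * y + y ^ 2) =
        -((d : ℝ) * (y / f) ^ 2 / 2) - d * ((y / r) * (y / f)) / 2 := by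
      field_simp
      ring
    rw [h7]
    have h8 : (y / f) ^ 2 ≤ 4 * (y / r) ^ 2 := by nlinarith
    have h9 : (y / r) * (y / f) ≤ 2 * (y / r) ^ 2 := by nlinarith
    have h10 := mul_le_mul_of_nonneg_left h8 (by linarith : (0 : ℝ) ≤ d)
    have h11 := mul_le_mul_of_nonneg_left h9 (by linarith : (0 : ℝ) ≤ d)
    linarith
  refine h6.trans ?_
  unfold Afun
  refine mul_le_mul_of_nonneg_right ?_ (Real.exp_pos _).le
  calc Real.exp (d * (y / f - (y / f) ^ 2 / 2)) ≤ (max (1 + y / f) 0) ^ d := h2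
    _ = (max (1 + y / f) 0) ^ d * 1 := (mul_one _).symm
    _ ≤ (max (1 + y / f) 0) ^ d * (1 + y / r) :=
      mul_le_mul_of_nonneg_left h3 (pow_nonneg (le_max_right _ _) _)

theorem cont (d : ℕ) (r f : ℝ) : Continuous (Afun d r f) := by
  unfold Afun
  fun_prop

theorem gaussInt (hd : 2 ≤ d) (hr : 8 ≤ r) :
    Integrable (fun y : ℝ => Real.exp (-((Real.sqrt d * (|y| / r)) ^ 2 / 8))) ∧
    ∫ y : ℝ, Real.exp (-((Real.sqrt d * (|y| / r)) ^ 2 / 8)) ≤ 6 * (r / Real.sqrt d) := by
  have hr0 : 0 < r := by linarith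
  have hd' : (2 : ℝ) ≤ d := by exact_mod_cast hd
  have hs0 : 0 < Real.sqrt d := Real.sqrt_pos.mpr (by linarith)
  have hs2 : Real.sqrt d ^ 2 = d := Real.sq_sqrt (by linarith)
  have h1 : (fun y : ℝ => Real.exp (-((Real.sqrt d * (|y| / r)) ^ 2 / 8))) =
      fun y => Real.exp (-((d : ℝ) / (8 * r ^ 2)) * y ^ 2) := by
    funext y
    congr 1
    rw [mul_pow, hs2, div_pow, sq_abs]
    field_simp
  have hb : 0 < (d : ℝ) / (8 * r ^ 2) := by positivity
  rw [h1]
  refine ⟨integrable_exp_neg_mul_sq hb, ?_⟩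
  rw [integral_gaussian]
  apply Real.sqrt_le_iff.mpr
  refine ⟨by positivity, ?_⟩
  rw [mul_pow, div_pow, hs2]
  have h2 : Real.pi / ((d : ℝ) / (8 * r ^ 2)) = 8 * Real.pi * (r ^ 2 / d) := by
    field_simp
  rw [h2]
  have h3 := Real.pi_le_four
  have h4 : 0 ≤ r ^ 2 / (d : ℝ) := by positivity
  nlinarith

theorem key (hd : 2 ≤ d) (hr : 8 ≤ r) (S : Set ℝ) (hS : MeasurableSet S) (F : ℝ → ℝ)
    (hF : Continuous F) (c : ℝ) (hc : 0 ≤ c) (h0 : ∀ y ∈ S, 0 ≤ F y)
    (h1 : ∀ y ∈ S, F y ≤ c * Real.exp (-((Real.sqrt d * (|y| / r)) ^ 2 / 8))) :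
    IntegrableOn F S ∧ ∫ y in S, F y ≤ c * (6 * (r / Real.sqrt d)) := by
  obtain ⟨hi, hle⟩ := gaussInt hd hr
  have hi' : Integrable fun y : ℝ => c * Real.exp (-((Real.sqrt d * (|y| / r)) ^ 2 / 8)) :=
    hi.const_mul c
  have h2 : IntegrableOn F S := by
    refine Integrable.mono' hi'.integrableOn hF.aestronglyMeasurable ?_
    refine (ae_restrict_iff' hS).mpr (Filter.Eventually.of_forall fun y hy => ?_)
    rw [Real.norm_eq_abs, abs_of_nonneg (h0 y hy)]
    exact h1 y hy
  refine ⟨h2, ?_⟩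
  calc ∫ y in S, F y ≤ ∫ y in S, c * Real.exp (-((Real.sqrt d * (|y| / r)) ^ 2 / 8)) :=
        setIntegral_mono_on h2 hi'.integrableOn hS h1
    _ ≤ ∫ y, c * Real.exp (-((Real.sqrt d * (|y| / r)) ^ 2 / 8)) :=
        setIntegral_le_integral hi' (Filter.Eventually.of_forall fun y => by positivity)
    _ = c * ∫ y, Real.exp (-((Real.sqrt d * (|y| / r)) ^ 2 / 8)) := integral_const_mul _ _
    _ ≤ c * (6 * (r / Real.sqrt d)) := mul_le_mul_of_nonneg_left hle hc

end

end Pool.Agent.Lib.MP_0c1c75_co.RealA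

namespace Pool.Agent.Lib.MP_0c1c75_co

open RealA in
theorem realAStmt : RealAStmt := by
  refine ⟨1000 * Real.exp 1 ^ 20, by positivity, ?_⟩
  intro d r f hd hr hf1 hf2
  have hr0 : 0 < r := by linarith
  have hf0 : 0 < f := by linarith
  have hd' : (2 : ℝ) ≤ d := by exact_mod_cast hd
  set s := Real.sqrt d with hsdef
  have hs0 : 0 < s := Real.sqrt_pos.mpr (by linarith)
  have hs2 : s ^ 2 = d := Real.sq_sqrt (by linarith)
  have hs1 : 1 ≤ s := by
    rw [hsdef]
    exact Real.one_le_sqrt.mpr (by linarith)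
  set E := Real.exp 1 with hEdef
  have hE : ∀ k : ℕ, Real.exp (k : ℝ) = E ^ k := fun k => by
    rw [hEdef, ← Real.exp_nat_mul, mul_one]
  have hE1 : 1 ≤ E := by
    rw [hEdef]
    exact Real.one_le_exp zero_le_one
  have hE0 : 0 < E := by linarith
  have hEp : ∀ k : ℕ, k ≤ 20 → E ^ k ≤ E ^ 20 := fun k hk => pow_le_pow_right₀ hE1 hk
  have hb := bounds hd hr hf1 hf2
  have hg := le_gauss4 hd hr hf1 hf2
  rw [← hsdef] at hg
  -- the integral of `A`
  have hA := key hd hr (Ioi (-r)) measurableSet_Ioi (Afun d r f) (cont d r f) E hE0.le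
    (fun y hy => (hb y (le_of_lt hy)).1) (fun y hy => by
      refine (hg y (le_of_lt hy)).trans ?_
      rw [hEdef, ← Real.exp_add]
      apply Real.exp_le_exp.mpr
      nlinarith [sq_nonneg (s * (|y| / r))])
  rw [← hsdef] at hA
  -- the integral of `|y| A`
  have hu0 : ∀ y : ℝ, 0 ≤ s * (|y| / r) := fun y => by positivity
  have hyu : ∀ y : ℝ, |y| = r / s * (s * (|y| / r)) := fun y => by
    field_simp
  have hAabs := key hd hr (Ioi (-r)) measurableSet_Ioi (fun y => |y| * Afun d r f y)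
    (continuous_abs.mul (cont d r f)) (r / s * E ^ 3) (by positivity)
    (fun y hy => mul_nonneg (abs_nonneg y) (hb y (le_of_lt hy)).1) (fun y hy => by
      have h1 : |y| * Afun d r f y ≤
          |y| * Real.exp (1 - (s * (|y| / r)) ^ 2 / 4) :=
        mul_le_mul_of_nonneg_left (hg y (le_of_lt hy)) (abs_nonneg y)
      refine h1.trans ?_
      have h2 : s * (|y| / r) ≤ Real.exp (s * (|y| / r)) := by
        linarith [Real.add_one_le_exp (s * (|y| / r))]
      have h3 : |y| * Real.exp (1 - (s * (|y| / r)) ^ 2 / 4) ≤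
          r / s * (Real.exp (s * (|y| / r)) * Real.exp (1 - (s * (|y| / r)) ^ 2 / 4)) := by
        rw [← mul_assoc]
        refine mul_le_mul_of_nonneg_right ?_ (Real.exp_pos _).le
        calc |y| = r / s * (s * (|y| / r)) := hyu y
          _ ≤ r / s * Real.exp (s * (|y| / r)) :=
            mul_le_mul_of_nonneg_left h2 (by positivity)
      refine h3.trans ?_
      rw [mul_assoc, ← hE 3, ← Real.exp_add, ← Real.exp_add]
      refine mul_le_mul_of_nonneg_left (Real.exp_le_exp.mpr ?_) (by positivity)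
      push_cast
      nlinarith [sq_nonneg (s * (|y| / r) - 4)])
  rw [← hsdef] at hAabs
  -- lower bounds
  have hrs0 : 0 < r / (2 * s) := by positivity
  have hrsf : r / (2 * s) ≤ f := by
    refine le_trans ?_ hf1
    apply div_le_div_of_nonneg_left hr0.le (by norm_num)
    linarith
  have hm' : E⁻¹ * (r / (2 * s)) ≤ ∫ y in Ioc (-r) f, Afun d r f y := by
    have h1 : ∫ y in Ioc 0 (r / (2 * s)), E⁻¹ = E⁻¹ * (r / (2 * s)) := by
      rw [setIntegral_const, Real.volume_real_Ioc_of_le hrs0.le, sub_zero, smul_eq_mul, mul_comm]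
    rw [← h1]
    have h2 : ∫ y in Ioc 0 (r / (2 * s)), E⁻¹ ≤ ∫ y in Ioc 0 (r / (2 * s)), Afun d r f y := by
      refine setIntegral_mono_on (integrableOn_const (by simp)) ?_ measurableSet_Ioc ?_
      · exact (cont d r f).integrableOn_Ioc
      · intro y hy
        rw [hEdef, ← Real.exp_neg]
        exact lower hd hr hf1 hf2 y hy.1.le hy.2
    refine h2.trans ?_
    refine setIntegral_mono_set (cont d r f).integrableOn_Ioc ?_ ?_
    · refine (ae_restrict_iff' measurableSet_Ioc).mpr (Filter.Eventually.of_forall fun y hy => ?_)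
      exact (hb y hy.1.le).1
    · exact HasSubset.Subset.eventuallyLE (Ioc_subset_Ioc (by linarith) hrsf)
  have hmm : ∫ y in Ioc (-r) f, Afun d r f y ≤ ∫ y in Ioi (-r), Afun d r f y := by
    refine setIntegral_mono_set hA.1 ?_ ?_
    · refine (ae_restrict_iff' measurableSet_Ioi).mpr (Filter.Eventually.of_forall fun y hy => ?_)
      exact (hb y (le_of_lt hy)).1
    · exact HasSubset.Subset.eventuallyLE Ioc_subset_Ioi_self
  set m' := ∫ y in Ioc (-r) f, Afun d r f y with hm'def
  set m := ∫ y in Ioi (-r), Afun d r f y with hmdef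
  have hq : r / s ≤ 2 * E * m' := by
    have h1 : r / s = 2 * E * (E⁻¹ * (r / (2 * s))) := by
      field_simp
    rw [h1]
    exact mul_le_mul_of_nonneg_left hm' (by positivity)
  have hq' : r / s ≤ 2 * E * m := hq.trans (mul_le_mul_of_nonneg_left hmm (by positivity))
  have hrs : 0 < r / s := by positivity
  have hm0 : 0 < m := by
    have h1 : 0 < 2 * E * m := lt_of_lt_of_le hrs hq'
    exact (mul_pos_iff_of_pos_left (by positivity)).mp h1
  have hm'0 : 0 < m' := by
    have h1 : 0 < 2 * E * m' := lt_of_lt_of_le hrs hq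
    exact (mul_pos_iff_of_pos_left (by positivity)).mp h1
  have hrsm : r ≤ s * (2 * E * m) := by
    have h1 : r = s * (r / s) := by field_simp
    calc r = s * (r / s) := h1
      _ ≤ s * (2 * E * m) := mul_le_mul_of_nonneg_left hq' hs0.le
  refine ⟨hb, hA.1, hAabs.1, ?_, ?_, ?_, ?_, ?_⟩
  · -- (iv)
    refine hrsm.trans ?_
    have h1 := hEp 1 (by norm_num)
    rw [pow_one] at h1
    have h2 : 0 < s * m := by positivity
    have h3 := mul_le_mul_of_nonneg_right h1 h2.le
    have h4 : 0 < E ^ 20 * (s * m) := by positivity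
    linarith
  · -- (v)
    have h1 := hEp 2 (by norm_num)
    have h2 : m ≤ 12 * E ^ 2 * m' := by
      calc m ≤ E * (6 * (r / s)) := hA.2
        _ ≤ E * (6 * (2 * E * m')) := by
          refine mul_le_mul_of_nonneg_left ?_ hE0.le
          linarith
        _ = 12 * E ^ 2 * m' := by ring
    refine h2.trans ?_
    have h3 := mul_le_mul_of_nonneg_right h1 hm'0.le
    have h4 : 0 < E ^ 20 * m' := by positivity
    linarith
  · -- (vi)
    have h1 := hEp 4 (by norm_num)
    have h2 : s * ∫ y in Ioi (-r), |y| * Afun d r f y ≤ 12 * E ^ 4 * (r * m) := by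
      calc s * ∫ y in Ioi (-r), |y| * Afun d r f y ≤ s * (r / s * E ^ 3 * (6 * (r / s))) :=
            mul_le_mul_of_nonneg_left hAabs.2 hs0.le
        _ = 6 * E ^ 3 * r * (r / s) := by field_simp
        _ ≤ 6 * E ^ 3 * r * (2 * E * m) := mul_le_mul_of_nonneg_left hq' (by positivity)
        _ = 12 * E ^ 4 * (r * m) := by ring
    refine h2.trans ?_
    have h3 : 0 < r * m := by positivity
    have h4 := mul_le_mul_of_nonneg_right h1 h3.le
    have h5 : 0 < E ^ 20 * (r * m) := by positivity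
    linarith
  · -- (vii)
    intro η hη hsη
    have hkey := key hd hr (Ioi 0) measurableSet_Ioi
      (fun y => d * η * y / f * Real.exp (d * η * y / f) * Afun d r f y)
      (by
        have := cont d r f
        fun_prop)
      (2 * (s * η) * E ^ 19) (by positivity)
      (fun y hy => by
        have hy0 : 0 < y := hy
        have h1 := (hb y (by linarith)).1
        positivity)
      (fun y hy => by
        have hy0 : 0 < y := hy
        have h1 := hg y (by linarith)
        have h1' := (hb y (by linarith)).1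
        rw [abs_of_pos hy0] at h1 ⊢
        have hu : 0 ≤ s * (y / r) := by positivity
        have h2 : d * η * y / f ≤ 2 * (s * η) * (s * (y / r)) := by
          have h3 : 2 * (s * η) * (s * (y / r)) = d * η * y * (2 / r) := by
            rw [← hs2]
            ring
          have h4 : d * η * y / f = d * η * y * (1 / f) := by ring
          rw [h3, h4]
          refine mul_le_mul_of_nonneg_left ?_ (by positivity)
          rw [div_le_div_iff₀ hf0 hr0]
          linarith
        have h3 : d * η * y / f ≤ 2 * (s * (y / r)) := by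
          refine h2.trans ?_
          nlinarith [mul_le_mul_of_nonneg_right hsη hu]
        have h4 : s * (y / r) ≤ Real.exp (s * (y / r)) := by
          linarith [Real.add_one_le_exp (s * (y / r))]
        have h5 : d * η * y / f ≤ 2 * (s * η) * Real.exp (s * (y / r)) :=
          h2.trans (mul_le_mul_of_nonneg_left h4 (by positivity))
        have h6 : d * η * y / f * Real.exp (d * η * y / f) * Afun d r f y ≤
            (2 * (s * η) * Real.exp (s * (y / r))) * Real.exp (2 * (s * (y / r))) *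
              Real.exp (1 - (s * (y / r)) ^ 2 / 4) := by
          refine mul_le_mul (mul_le_mul h5 (Real.exp_le_exp.mpr h3) (Real.exp_pos _).le
            (by positivity)) h1 h1' (by positivity)
        refine h6.trans ?_
        rw [← hsdef]
        have h7 : (2 * (s * η) * Real.exp (s * (y / r))) * Real.exp (2 * (s * (y / r))) *
            Real.exp (1 - (s * (y / r)) ^ 2 / 4) = 2 * (s * η) *
            Real.exp (s * (y / r) + 2 * (s * (y / r)) + (1 - (s * (y / r)) ^ 2 / 4)) := by
          rw [Real.exp_add, Real.exp_add]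
          ring
        have h8 : 2 * (s * η) * E ^ 19 * Real.exp (-((s * (y / r)) ^ 2 / 8)) =
            2 * (s * η) * Real.exp ((19 : ℕ) + -((s * (y / r)) ^ 2 / 8)) := by
          rw [Real.exp_add, hE 19]
          ring
        rw [h7, h8]
        refine mul_le_mul_of_nonneg_left (Real.exp_le_exp.mpr ?_) (by positivity)
        push_cast
        nlinarith [sq_nonneg (s * (y / r) - 12)])
    rw [← hsdef] at hkey
    refine ⟨hkey.1, hkey.2.trans ?_⟩
    have h1 : 2 * (s * η) * E ^ 19 * (6 * (r / s)) ≤ 24 * E ^ 20 * (s * η * m) := by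
      calc 2 * (s * η) * E ^ 19 * (6 * (r / s)) = 12 * (s * η) * E ^ 19 * (r / s) := by ring
        _ ≤ 12 * (s * η) * E ^ 19 * (2 * E * m) :=
          mul_le_mul_of_nonneg_left hq' (by positivity)
        _ = 24 * E ^ 20 * (s * η * m) := by ring
    refine h1.trans ?_
    have h2 : 0 ≤ E ^ 20 * (s * η * m) := by positivity
    linarith
  · -- (viii)
    have hc8 : Continuous fun y : ℝ => (d : ℝ) / (f * r) *
        Real.exp (-y / f - d * y ^ 2 / (2 * r * f)) := by
      fun_prop
    have h1 : ∫ y in Ioc (-r) (-r / 2), (d : ℝ) / (f * r) *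
        Real.exp (-y / f - d * y ^ 2 / (2 * r * f)) ≤
        ∫ y in Ioc (-r) (-r / 2), 16 * E ^ 2 / r ^ 2 := by
      refine setIntegral_mono_on hc8.integrableOn_Ioc (integrableOn_const (by simp))
        measurableSet_Ioc ?_
      intro y hy
      have h2 : (d : ℝ) / (f * r) ≤ 2 * d / r ^ 2 := by
        rw [div_le_div_iff₀ (by positivity) (by positivity)]
        have h3 : (d : ℝ) * r ^ 2 = d * r * r := by ring
        have h4 : 2 * (d : ℝ) * (f * r) = d * r * (2 * f) := by ring
        rw [h3, h4]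
        exact mul_le_mul_of_nonneg_left (by linarith) (by positivity)
      have h3 : -y / f ≤ 2 := by
        rw [div_le_iff₀ hf0]
        linarith [hy.1]
      have h4 : (d : ℝ) / 8 ≤ d * y ^ 2 / (2 * r * f) := by
        rw [div_le_div_iff₀ (by norm_num) (by positivity)]
        have h5 : r / 2 * (r / 2) ≤ y ^ 2 := by
          have h6 := hy.2
          nlinarith
        have h6 : r * f ≤ r * r := mul_le_mul_of_nonneg_left hf2 hr0.le
        have h7 : 2 * r * f ≤ y ^ 2 * 8 := by nlinarith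
        calc (d : ℝ) * (2 * r * f) ≤ d * (y ^ 2 * 8) :=
              mul_le_mul_of_nonneg_left h7 (by linarith)
          _ = d * y ^ 2 * 8 := by ring
      have h5 : Real.exp (-y / f - d * y ^ 2 / (2 * r * f)) ≤ Real.exp (2 - d / 8) :=
        Real.exp_le_exp.mpr (by linarith)
      have h6 : (d : ℝ) * Real.exp (2 - d / 8) ≤ 8 * E ^ 2 := by
        have h7 : (d : ℝ) / 8 ≤ Real.exp (d / 8) := by linarith [Real.add_one_le_exp ((d : ℝ) / 8)]
        have h8 : Real.exp (2 - d / 8) * Real.exp (d / 8) = E ^ 2 := by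
          rw [← Real.exp_add, ← hE 2]
          congr 1
          push_cast
          ring
        have h9 := mul_le_mul_of_nonneg_left h7 (Real.exp_pos (2 - (d : ℝ) / 8)).le
        rw [h8] at h9
        linarith
      calc (d : ℝ) / (f * r) * Real.exp (-y / f - d * y ^ 2 / (2 * r * f)) ≤
            2 * d / r ^ 2 * Real.exp (2 - d / 8) :=
            mul_le_mul h2 h5 (Real.exp_pos _).le (by positivity)
        _ = 2 / r ^ 2 * (d * Real.exp (2 - d / 8)) := by ring
        _ ≤ 2 / r ^ 2 * (8 * E ^ 2) := mul_le_mul_of_nonneg_left h6 (by positivity)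
        _ = 16 * E ^ 2 / r ^ 2 := by ring
    have h2 : ∫ y in Ioc (-r) (-r / 2), 16 * E ^ 2 / r ^ 2 = 8 * E ^ 2 / r := by
      rw [setIntegral_const, Real.volume_real_Ioc_of_le (by linarith), smul_eq_mul]
      field_simp
      ring
    rw [h2] at h1
    have h3 := mul_le_mul_of_nonneg_left h1 (sq_nonneg r)
    refine h3.trans ?_
    have h4 : r ^ 2 * (8 * E ^ 2 / r) = 8 * E ^ 2 * r := by
      field_simp
    rw [h4]
    have h5 : 8 * E ^ 2 * r ≤ 16 * E ^ 3 * (s * m) := by
      calc 8 * E ^ 2 * r ≤ 8 * E ^ 2 * (s * (2 * E * m)) :=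
            mul_le_mul_of_nonneg_left hrsm (by positivity)
        _ = 16 * E ^ 3 * (s * m) := by ring
    refine h5.trans ?_
    have h6 := hEp 3 (by norm_num)
    have h7 : 0 < s * m := by positivity
    have h8 := mul_le_mul_of_nonneg_right h6 h7.le
    have h9 : 0 < E ^ 20 * (s * m) := by positivity
    linarith

end Pool.Agent.Lib.MP_0c1c75_co
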