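import Pool.Agent.Lib.MP_0c1c75_co.Spec2

/-!
MP_0c1c75_co: slopes of concave functions (`RealBStmt`).
-/

open MeasureTheory Set Metric

namespace Pool.Agent.Lib.MP_0c1c75_co

namespace RealB

theorem sqrt_low {r : ℝ} (hr : 1 ≤ r) : r - 1 / r ≤ Real.sqrt (r ^ 2 - 1) := by
  have hr0 : 0 < r := by linarith
  apply Real.le_sqrt_of_sq_le
  have h1 : (1 / r) ^ 2 ≤ 1 := by
    have : 1 / r ≤ 1 := by
      rw [div_le_one hr0]; exact hr
    have h0 : 0 ≤ 1 / r := by positivity
    nlinarith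
  have h2 : r * (1 / r) = 1 := by field_simp
  nlinarith

theorem slope {h : ℝ → ℝ} {B : ℝ}
    (conc : ∀ r r' t : ℝ, 1 ≤ r → 1 ≤ r' → 0 ≤ t → t ≤ 1 →
      (1 - t) * h r + t * h r' ≤ h ((1 - t) * r + t * r'))
    (bd : ∀ r, 1 ≤ r → h r ≤ r - B ∧ Real.sqrt (r ^ 2 - 1) - B ≤ h r)
    {ρ y : ℝ} (hρ : 2 ≤ ρ) (hy : 0 ≤ y) : h (ρ + y) ≤ h ρ + y + 4 / ρ ^ 2 * y := by
  have hρ0 : 0 < ρ := by linarith
  set s : ℝ := ρ / 2 + y with hs
  have hs0 : 0 < s := by rw [hs]; linarith
  have ht0 : 0 ≤ (ρ / 2) / s := by positivity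
  have ht1 : (ρ / 2) / s ≤ 1 := by
    rw [div_le_one hs0, hs]; linarith
  have h1 := conc (ρ / 2) (ρ + y) ((ρ / 2) / s) (by linarith) (by linarith) ht0 ht1
  have e1 : (1 - (ρ / 2) / s) * (ρ / 2) + (ρ / 2) / s * (ρ + y) = ρ := by
    have e2 : ρ + y = ρ / 2 + s := by rw [hs]; ring
    rw [e2]
    field_simp
    ring
  rw [e1] at h1
  have h2 : y * h (ρ / 2) + (ρ / 2) * h (ρ + y) ≤ (ρ / 2 + y) * h ρ := by
    have h3 := mul_le_mul_of_nonneg_left h1 hs0.le
    have e3 : s * ((1 - (ρ / 2) / s) * h (ρ / 2) + (ρ / 2) / s * h (ρ + y)) =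
        y * h (ρ / 2) + (ρ / 2) * h (ρ + y) := by
      have e4 : s * ((ρ / 2) / s) = ρ / 2 := by field_simp
      have e5 : s * ((1 - (ρ / 2) / s) * h (ρ / 2) + (ρ / 2) / s * h (ρ + y)) =
        (s - s * ((ρ / 2) / s)) * h (ρ / 2) + (s * ((ρ / 2) / s)) * h (ρ + y) := by ring
      rw [e5, e4, hs]; ring
    rw [e3, hs] at h3
    exact h3
  have h4 : h ρ ≤ ρ - B := (bd ρ (by linarith)).1
  have h5 : Real.sqrt ((ρ / 2) ^ 2 - 1) - B ≤ h (ρ / 2) := (bd (ρ / 2) (by linarith)).2
  have h6 := sqrt_low (r := ρ / 2) (by linarith)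
  have h7 : h ρ - h (ρ / 2) ≤ ρ / 2 + 1 / (ρ / 2) := by linarith
  have h8 : (ρ / 2) * (h (ρ + y) - h ρ) ≤ y * (ρ / 2 + 1 / (ρ / 2)) := by
    have := mul_le_mul_of_nonneg_left h7 hy
    nlinarith
  have h9 : (ρ / 2) * (y + 4 / ρ ^ 2 * y) = y * (ρ / 2 + 1 / (ρ / 2)) := by
    field_simp
    ring
  rw [← h9] at h8
  have h10 := le_of_mul_le_mul_left h8 (by linarith : (0 : ℝ) < ρ / 2)
  linarith

end RealB

theorem realBStmt : RealBStmt := by
  intro h B hn conc inc hB bd
  have hB1 : B ≤ 1 := by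
    have h1 := (bd 1 le_rfl).1
    have h2 := hn 1
    linarith
  refine ⟨?_, ?_⟩
  · intro r hr
    have hr0 : 0 < r := by linarith
    refine ⟨?_, ?_, ?_, ?_, ?_⟩
    · have h1 := (bd r (by linarith)).2
      have h2 : r - 1 ≤ Real.sqrt (r ^ 2 - 1) := by
        apply Real.le_sqrt_of_sq_le
        nlinarith
      linarith
    · have h1 := (bd r (by linarith)).1
      linarith
    · intro y hy
      refine ⟨inc r y (by linarith) hy, ?_⟩
      have h1 := RealB.slope conc bd (ρ := r) (y := y) (by linarith) hy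
      have h2 : 4 / r ^ 2 * y ≤ 16 / r ^ 2 * y := by
        apply mul_le_mul_of_nonneg_right _ hy
        apply div_le_div_of_nonneg_right _ (by positivity)
        norm_num
      linarith
    · intro y hy1 hy2
      have h1 := RealB.slope conc bd (ρ := r + y) (y := -y) (by linarith) (by linarith)
      have e1 : r + y + -y = r := by ring
      rw [e1] at h1
      rw [abs_of_nonpos hy2]
      have h2 : 4 / (r + y) ^ 2 * -y ≤ 16 / r ^ 2 * -y := by
        apply mul_le_mul_of_nonneg_right _ (by linarith)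
        have h3 : 0 < r + y := by linarith
        rw [div_le_div_iff₀ (by positivity) (by positivity)]
        nlinarith
      linarith
    · intro y hy
      have h1 := (bd (r + y) hy).2
      have h2 := RealB.sqrt_low hy
      have h3 := (bd r (by linarith)).1
      linarith
  · intro conc2 r y hr hy hry hpos
    have h1y : 0 < 1 - y := by linarith
    have h1 := conc2 (r + y) (r + 1) (-y / (1 - y)) hry hpos (by linarith)
      (div_nonneg (by linarith) h1y.le) (by rw [div_le_one h1y]; linarith)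
    have e0 : 1 - -y / (1 - y) = 1 / (1 - y) := by
      field_simp
      ring
    have e1 : (1 - -y / (1 - y)) * (r + y) + -y / (1 - y) * (r + 1) = r := by
      rw [e0]
      field_simp
      ring
    rw [e1, e0] at h1
    have h2 := mul_le_mul_of_nonneg_left h1 h1y.le
    have e2 : (1 - y) * (1 / (1 - y) * h (r + y) + -y / (1 - y) * h (r + 1)) =
        h (r + y) + -y * h (r + 1) := by
      field_simp
    rw [e2] at h2
    have h3 := inc r 1 hr (by norm_num)
    have h4 := mul_le_mul_of_nonneg_left h3 (by linarith : (0 : ℝ) ≤ -y)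
    nlinarith

end Pool.Agent.Lib.MP_0c1c75_co
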