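import Pool.Agent.Lib.MP_0c1c75_co.Spec6
import Pool.Agent.Lib.MP_0c1c75_co.Real
import Pool.Agent.Lib.MP_0c1c75_co.RealA

/-!
MP_0c1c75_co: real variable part without logarithm (`RealCStmt`), from `RealAStmt` and
`RealBStmt`.
-/

open MeasureTheory Set Metric

set_option linter.unusedVariables false

namespace Pool.Agent.Lib.MP_0c1c75_co

namespace RealCAux

/-- supergradient of `g` at `r` -/
theorem supergrad (g : ℝ → ℝ) (r K : ℝ) (hr : 1 ≤ r)
    (h1 : ∀ y, 0 ≤ y → g r + y ≤ g (r + y) ∧ g (r + y) ≤ g r + y + K * y)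
    (hc : ∀ r r' t : ℝ, 0 ≤ r → 0 < g r → 1 ≤ r' → 0 ≤ t → t ≤ 1 →
        (1 - t) * g r + t * g r' ≤ g ((1 - t) * r + t * r')) :
    ∃ σ, 1 ≤ σ ∧ σ ≤ 1 + K ∧ ∀ y, -r ≤ y → 0 < g (r + y) → g (r + y) ≤ g r + σ * y := by
  obtain ⟨S, hS⟩ : ∃ S, S = (fun y => (g (r + y) - g r) / y) '' Ioi (0 : ℝ) := ⟨_, rfl⟩
  have hub : ∀ x ∈ S, x ≤ 1 + K := by
    intro x hx
    rw [hS] at hx
    obtain ⟨y, hy, rfl⟩ := hx
    have hy' : 0 < y := hy
    simp only []
    rw [div_le_iff₀ hy']
    have := (h1 y hy'.le).2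
    linarith
  have hbdd : BddAbove S := ⟨1 + K, hub⟩
  have hmem : ∀ y, 0 < y → (g (r + y) - g r) / y ∈ S := fun y hy => by
    rw [hS]
    exact ⟨y, hy, rfl⟩
  refine ⟨sSup S, ?_, ?_, ?_⟩
  · have h2 := le_csSup hbdd (hmem 1 one_pos)
    have h3 := (h1 1 zero_le_one).1
    rw [div_one] at h2
    linarith
  · exact csSup_le ⟨_, hmem 1 one_pos⟩ hub
  · intro y hy hg
    rcases lt_trichotomy y 0 with h0 | h0 | h0
    · have h2 : sSup S ≤ (g (r + y) - g r) / y := by
        apply csSup_le ⟨_, hmem 1 one_pos⟩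
        intro x hx
        rw [hS] at hx
        obtain ⟨y', hy', rfl⟩ := hx
        have hy' : 0 < y' := hy'
        simp only []
        have hyy : 0 < y' - y := by linarith
        have h3 := hc (r + y) (r + y') (-y / (y' - y)) (by linarith) hg (by linarith)
          (div_nonneg (by linarith) hyy.le) (by rw [div_le_one hyy]; linarith)
        have e : (1 - -y / (y' - y)) * (r + y) + -y / (y' - y) * (r + y') = r := by
          field_simp
          ring
        rw [e] at h3
        have h4 := mul_le_mul_of_nonneg_left h3 hyy.le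
        have e2 : (y' - y) * ((1 - -y / (y' - y)) * g (r + y) + -y / (y' - y) * g (r + y')) =
            y' * g (r + y) - y * g (r + y') := by
          field_simp
          ring
        rw [e2] at h4
        rw [le_div_iff_of_neg h0, div_mul_eq_mul_div, le_div_iff₀ hy']
        linarith
      rw [le_div_iff_of_neg h0] at h2
      linarith
    · rw [h0]
      simp
    · have h2 := le_csSup hbdd (hmem y h0)
      rw [div_le_iff₀ h0] at h2
      linarith

/-- pointwise bound for `g` -/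
theorem up {d : ℕ} {r G σ y v : ℝ} (hr : 0 < r) (hG : 0 < G) (hσ : 0 < σ) (hy : -r < y)
    (hv0 : 0 ≤ v) (hv : 0 < v → v ≤ G + σ * y) :
    v ^ d * ((r + y) * Real.exp (-((d : ℝ) / (2 * r * (G / σ))) * (r + y) ^ 2)) ≤
      G ^ d * (r * Real.exp (-((d : ℝ) / (2 * r * (G / σ))) * r ^ 2)) *
        Afun d r (G / σ) y := by
  have h1 : v ≤ G * max (1 + y / (G / σ)) 0 := by
    rcases hv0.eq_or_lt with h0 | h0
    · rw [← h0]
      exact mul_nonneg hG.le (le_max_right _ _)
    · refine (hv h0).trans ?_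
      have e : G + σ * y = G * (1 + y / (G / σ)) := by field_simp
      rw [e]
      exact mul_le_mul_of_nonneg_left (le_max_left _ _) hG.le
  have h2 : v ^ d ≤ G ^ d * (max (1 + y / (G / σ)) 0) ^ d := by
    rw [← mul_pow]
    exact pow_le_pow_left₀ hv0 h1 d
  have e1 : Real.exp (-((d : ℝ) / (2 * r * (G / σ))) * (r + y) ^ 2) =
      Real.exp (-((d : ℝ) / (2 * r * (G / σ))) * r ^ 2) *
      Real.exp (-((d : ℝ) / (2 * r * (G / σ))) * (2 * r * y + y ^ 2)) := by
    rw [← Real.exp_add]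
    congr 1
    ring
  have e2 : r + y = r * (1 + y / r) := by field_simp
  have h3 : 0 ≤ (r + y) * Real.exp (-((d : ℝ) / (2 * r * (G / σ))) * (r + y) ^ 2) :=
    mul_nonneg (by linarith) (Real.exp_pos _).le
  refine (mul_le_mul_of_nonneg_right h2 h3).trans (le_of_eq ?_)
  unfold Afun
  rw [e1, e2]
  ring

/-- pointwise bound for `f` -/
theorem low {d : ℕ} {r F G σ κ y v : ℝ} (hr : 0 < r) (hF : 3 / 4 * r ≤ F) (hG : 3 / 4 * r ≤ G)
    (hσ : 0 < σ) (hσ' : σ ≤ 5 / 4) (hy : 0 ≤ y) (hv : F + y ≤ v)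
    (hκ : κ = d * (σ / G - 1 / F)) (h1 : κ * y ≤ 1) (h2 : (d : ℝ) * y ^ 2 ≤ r ^ 2) :
    F ^ d * (r * Real.exp (-((d : ℝ) / (2 * r * (G / σ))) * r ^ 2)) * Real.exp (-3) ≤
    v ^ d * ((r + y) * Real.exp (-((d : ℝ) / (2 * r * (G / σ))) * (r + y) ^ 2)) := by
  have hF0 : 0 < F := by linarith
  have hG0 : 0 < G := by linarith
  have hx0 : 0 ≤ y / F := div_nonneg hy hF0.le
  have h3 : y / F - (y / F) ^ 2 / 2 ≤ Real.log (1 + y / F) := by
    refine le_trans ?_ (Real.le_log_one_add_of_nonneg hx0)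
    rw [le_div_iff₀ (by linarith)]
    nlinarith [mul_nonneg hx0 (mul_nonneg hx0 hx0)]
  have h4 : Real.exp (d * (y / F - (y / F) ^ 2 / 2)) ≤ (1 + y / F) ^ d := by
    have h3' : 1 + y / F = Real.exp (Real.log (1 + y / F)) := by
      rw [Real.exp_log (by linarith)]
    rw [h3', ← Real.exp_nat_mul]
    exact Real.exp_le_exp.mpr (mul_le_mul_of_nonneg_left (h3' ▸ h3) (by positivity))
  have h5 : F ^ d * Real.exp (d * (y / F - (y / F) ^ 2 / 2)) ≤ v ^ d := by
    calc F ^ d * Real.exp (d * (y / F - (y / F) ^ 2 / 2)) ≤ F ^ d * (1 + y / F) ^ d :=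
          mul_le_mul_of_nonneg_left h4 (by positivity)
      _ = (F + y) ^ d := by
          rw [← mul_pow]
          congr 1
          field_simp
      _ ≤ v ^ d := pow_le_pow_left₀ (by linarith) hv d
  have e1 : Real.exp (-((d : ℝ) / (2 * r * (G / σ))) * (r + y) ^ 2) =
      Real.exp (-((d : ℝ) / (2 * r * (G / σ))) * r ^ 2) *
      Real.exp (-((d : ℝ) / (2 * r * (G / σ))) * (2 * r * y + y ^ 2)) := by
    rw [← Real.exp_add]
    congr 1
    ring
  have h6 : Real.exp (-3) ≤ Real.exp (d * (y / F - (y / F) ^ 2 / 2)) *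
      Real.exp (-((d : ℝ) / (2 * r * (G / σ))) * (2 * r * y + y ^ 2)) := by
    rw [← Real.exp_add]
    apply Real.exp_le_exp.2
    have e : (d : ℝ) * (y / F - (y / F) ^ 2 / 2) +
        -((d : ℝ) / (2 * r * (G / σ))) * (2 * r * y + y ^ 2) =
        -(κ * y) - (d * y ^ 2) * (1 / (2 * F ^ 2) + σ / (2 * r * G)) := by
      rw [hκ]
      field_simp
      ring
    rw [e]
    have h7 : 1 / (2 * F ^ 2) ≤ 1 / r ^ 2 := by
      apply one_div_le_one_div_of_le (by positivity)
      nlinarith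
    have h8 : σ / (2 * r * G) ≤ 1 / r ^ 2 := by
      rw [div_le_div_iff₀ (by positivity) (by positivity)]
      nlinarith
    have h9 : (d * y ^ 2) * (1 / (2 * F ^ 2) + σ / (2 * r * G)) ≤ r ^ 2 * (2 / r ^ 2) := by
      apply mul_le_mul h2 _ (by positivity) (by positivity)
      have : 2 / r ^ 2 = 1 / r ^ 2 + 1 / r ^ 2 := by ring
      rw [this]
      exact add_le_add h7 h8
    have h10 : r ^ 2 * (2 / r ^ 2) = 2 := by field_simp
    linarith
  rw [e1]
  have h7 : r ≤ r + y := by linarith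
  obtain ⟨E1, hE1⟩ : ∃ E1, E1 = Real.exp (-((d : ℝ) / (2 * r * (G / σ))) * r ^ 2) := ⟨_, rfl⟩
  obtain ⟨E2, hE2⟩ : ∃ E2, E2 = Real.exp (-((d : ℝ) / (2 * r * (G / σ))) * (2 * r * y + y ^ 2)) :=
    ⟨_, rfl⟩
  obtain ⟨E3, hE3⟩ : ∃ E3, E3 = Real.exp (d * (y / F - (y / F) ^ 2 / 2)) := ⟨_, rfl⟩
  rw [← hE1, ← hE2]
  rw [← hE2, ← hE3] at h6
  rw [← hE3] at h5
  have p1 : 0 < E1 := by rw [hE1]; positivity
  have p2 : 0 < E2 := by rw [hE2]; positivity
  have p3 : 0 < E3 := by rw [hE3]; positivity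
  calc F ^ d * (r * E1) * Real.exp (-3) ≤ F ^ d * (r * E1) * (E3 * E2) :=
        mul_le_mul_of_nonneg_left h6 (by positivity)
    _ = (F ^ d * E3) * (r * (E1 * E2)) := by ring
    _ ≤ v ^ d * ((r + y) * (E1 * E2)) :=
        mul_le_mul h5 (mul_le_mul_of_nonneg_right h7 (by positivity)) (by positivity)
          (le_trans (by positivity) h5)

/-- the integral of the weight -/
theorem intA {d : ℕ} {r f : ℝ} (hd : 2 ≤ d) (hr : 8 ≤ r) (hf1 : r / 2 ≤ f) (hf2 : f ≤ r) :
    IntegrableOn (Afun d r f) (Ioi (-r)) ∧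
    ∫ y in Ioi (-r), Afun d r f y ≤ Real.exp 1 * (6 * (r / Real.sqrt d)) := by
  apply RealA.key hd hr _ measurableSet_Ioi _ (RealA.cont d r f) _ (Real.exp_pos _).le
  · intro y hy
    exact (RealA.bounds hd hr hf1 hf2 y (le_of_lt hy)).1
  · intro y hy
    refine (RealA.le_gauss4 hd hr hf1 hf2 y (le_of_lt hy)).trans ?_
    rw [← Real.exp_add]
    apply Real.exp_le_exp.2
    have := sq_nonneg (Real.sqrt d * (|y| / r))
    linarith

/-- the final computation -/
theorem final {c Z L X : ℝ} (hc : 1 ≤ c) (hX : 0 ≤ X) (hL : Real.exp L ≤ Z)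
    (h : Z ≤ c * (1 + X + L)) : Z ≤ 2 * c * (1 + Real.log (2 * c)) * (1 + X) := by
  have hZ : 0 < Z := (Real.exp_pos _).trans_le hL
  have h1 : L ≤ Real.log Z := by
    rw [Real.le_log_iff_exp_le hZ]
    exact hL
  have h2 : Real.log Z ≤ Z / (2 * c) + Real.log (2 * c) := by
    have h3 := Real.log_le_sub_one_of_pos (show 0 < Z / (2 * c) by positivity)
    rw [Real.log_div hZ.ne' (by positivity)] at h3
    linarith
  have h3 : 0 ≤ Real.log (2 * c) := Real.log_nonneg (by linarith)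
  have h4 : c * (1 + X + L) ≤ c * (1 + X + (Z / (2 * c) + Real.log (2 * c))) := by
    apply mul_le_mul_of_nonneg_left _ (by linarith)
    linarith
  have h5 : c * (1 + X + (Z / (2 * c) + Real.log (2 * c))) =
      c * (1 + X + Real.log (2 * c)) + Z / 2 := by
    field_simp
    ring
  have h6 : Z ≤ 2 * c * (1 + X + Real.log (2 * c)) := by linarith
  refine h6.trans ?_
  have h7 : 0 ≤ Real.log (2 * c) * X := by positivity
  have h8 : 2 * c * (1 + Real.log (2 * c)) * (1 + X) =
      2 * c * (1 + X + Real.log (2 * c)) + 2 * c * (Real.log (2 * c) * X) := by ring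
  rw [h8]
  have h9 : 0 ≤ 2 * c * (Real.log (2 * c) * X) := by positivity
  linarith

end RealCAux

open RealCAux in
/-- The real variable part without logarithm. -/
theorem realCStmt (hA : RealAStmt) (hB : RealBStmt) : RealCStmt := by
  obtain ⟨c, hc⟩ : ∃ c, c = Real.exp 3 * (Real.exp 1 * 6) * 22 := ⟨_, rfl⟩
  have hc1 : 1 ≤ c := by
    have h1 := Real.add_one_le_exp 3
    have h2 := Real.add_one_le_exp 1
    rw [hc]
    nlinarith
  have hlog : 0 ≤ Real.log (2 * c) := Real.log_nonneg (by linarith)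
  have hC1 : 1 ≤ 2 * c * (1 + Real.log (2 * c)) := by nlinarith
  refine ⟨2 * c * (1 + Real.log (2 * c)), by linarith, ?_⟩
  intro d f g B B' hd hfg hB0 hB'0 hfr hf hgm hg hgc hL r hr
  obtain ⟨hf0, hfconc, hfadd⟩ := hfg f (by simp)
  obtain ⟨hg0, hgconc, hgadd⟩ := hfg g (by simp)
  obtain ⟨hBf, -⟩ := hB f B hf0 hfconc hfadd hB0 hf
  obtain ⟨hBg, -⟩ := hB g B' hg0 hgconc hgadd hB'0 hg
  have hr0 : 0 < r := by linarith
  have hd1 : (1 : ℝ) ≤ d := by
    have : 1 ≤ d := by omega
    exact_mod_cast this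
  have hq1 : 1 ≤ Real.sqrt d := by
    rw [Real.one_le_sqrt]
    exact hd1
  have hq0 : 0 < Real.sqrt d := by linarith
  have hqq : Real.sqrt d * Real.sqrt d = d := Real.mul_self_sqrt (by linarith)
  obtain ⟨hF2, hFr, hFup, -, -⟩ := hBf r (by linarith)
  obtain ⟨hG2, hGr, hGup, -, -⟩ := hBg r (by linarith)
  have hX0 : 0 ≤ Real.sqrt d / r ^ 2 := by positivity
  rcases le_or_gt (f r) (g r) with hγ | hγ
  · have h1 := pow_le_pow_left₀ (hf0 r) hγ d
    have h2 : (0 : ℝ) ≤ g r ^ d := pow_nonneg (hg0 r) d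
    have h3 : 1 ≤ 2 * c * (1 + Real.log (2 * c)) * (1 + Real.sqrt d / r ^ 2) := by
      nlinarith
    calc f r ^ d ≤ 1 * g r ^ d := by linarith
      _ ≤ _ := mul_le_mul_of_nonneg_right h3 h2
  obtain ⟨σ, hσ1, hσ2, hσ⟩ := supergrad g r (16 / r ^ 2) (by linarith)
    (fun y hy => ⟨(hGup y hy).1, by
      have := (hGup y hy).2
      linarith⟩) hgc
  have hFup' : ∀ y, 0 ≤ y → f r + y ≤ f (r + y) := fun y hy => (hFup y hy).1
  have h16 : 16 / r ^ 2 ≤ 1 / 4 := by
    rw [div_le_div_iff₀ (by positivity) (by norm_num)]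
    nlinarith
  generalize hFdef : f r = F at *
  generalize hGdef : g r = G at *
  have hF0 : 0 < F := by linarith
  have hG0 : 0 < G := by linarith
  have hσ0 : 0 < σ := by linarith
  obtain ⟨s, hs⟩ : ∃ s, s = (d : ℝ) / (2 * r * (G / σ)) := ⟨_, rfl⟩
  have hs0 : 0 < s := by
    rw [hs]
    positivity
  obtain ⟨i1, i2, i3⟩ := hL s hs0
  have hG1 : r / 2 ≤ G / σ := by
    rw [le_div_iff₀ hσ0]
    nlinarith
  have hG3 : G / σ ≤ r := by
    rw [div_le_iff₀ hσ0]
    nlinarith
  obtain ⟨jA, hAle⟩ := intA (f := G / σ) hd hr hG1 hG3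
  obtain ⟨κ, hκ⟩ : ∃ κ, κ = d * (σ / G - 1 / F) := ⟨_, rfl⟩
  have hκ1 : κ = d * ((σ - 1) * F + (F - G)) / (F * G) := by
    rw [hκ]
    field_simp
    ring
  have hγ0 : 0 < F - G := by linarith
  have hσ10 : 0 ≤ σ - 1 := by linarith
  have hκ0 : 0 < κ := by
    rw [hκ1]
    positivity
  obtain ⟨Y, hY⟩ : ∃ Y, Y = min (r / Real.sqrt d) (1 / κ) := ⟨_, rfl⟩
  have hY0 : 0 < Y := by
    rw [hY]
    exact lt_min (by positivity) (by positivity)
  have hY1 : Y ≤ r / Real.sqrt d := by rw [hY]; exact min_le_left _ _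
  have hY2 : Y ≤ 1 / κ := by rw [hY]; exact min_le_right _ _
  have hYinv : 1 / Y ≤ Real.sqrt d / r + κ := by
    rw [hY]
    rcases min_choice (r / Real.sqrt d) (1 / κ) with h | h
    · rw [h, one_div_div]
      linarith
    · rw [h, one_div_one_div]
      have : 0 ≤ Real.sqrt d / r := by positivity
      linarith
  obtain ⟨K, hK⟩ : ∃ K, K = r * Real.exp (-s * r ^ 2) := ⟨_, rfl⟩
  have hK0 : 0 < K := by rw [hK]; positivity
  -- the right integral
  have hR : ∫ ρ in Ioi (0 : ℝ), g ρ ^ d * (ρ * Real.exp (-s * ρ ^ 2)) ≤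
      G ^ d * K * (Real.exp 1 * (6 * (r / Real.sqrt d))) := by
    rw [← RealAux.shift (fun ρ => g ρ ^ d * (ρ * Real.exp (-s * ρ ^ 2))) r]
    have h1 : ∫ y in Ioi (-r), g (r + y) ^ d * ((r + y) * Real.exp (-s * (r + y) ^ 2)) ≤
        ∫ y in Ioi (-r), G ^ d * K * Afun d r (G / σ) y := by
      apply setIntegral_mono_on (RealAux.shift_int _ r i2) (jA.const_mul _) measurableSet_Ioi
      intro y hy
      have hy' : -r < y := hy
      have h2 := up (d := d) hr0 hG0 hσ0 hy' (hg0 (r + y)) (fun h => hσ y hy'.le h)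
      rw [← hs, ← hK] at h2
      exact h2
    refine h1.trans ?_
    rw [integral_const_mul]
    exact mul_le_mul_of_nonneg_left hAle (by positivity)
  -- the left integral
  have hLft : F ^ d * K * Real.exp (-3) * Y ≤
      ∫ ρ in Ioi (0 : ℝ), f ρ ^ d * (ρ * Real.exp (-s * ρ ^ 2)) := by
    rw [← RealAux.shift (fun ρ => f ρ ^ d * (ρ * Real.exp (-s * ρ ^ 2))) r]
    have j1 := RealAux.shift_int _ r i1
    have h1 : ∫ y in Ioc 0 Y, f (r + y) ^ d * ((r + y) * Real.exp (-s * (r + y) ^ 2)) ≤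
        ∫ y in Ioi (-r), f (r + y) ^ d * ((r + y) * Real.exp (-s * (r + y) ^ 2)) := by
      apply setIntegral_mono_set j1
      · refine (ae_restrict_iff' measurableSet_Ioi).mpr (Filter.Eventually.of_forall fun y hy => ?_)
        have hy' : -r < y := hy
        simp only [Pi.zero_apply]
        exact mul_nonneg (pow_nonneg (hf0 _) _) (mul_nonneg (by linarith) (Real.exp_pos _).le)
      · apply Filter.Eventually.of_forall
        intro y hy
        have hy1 : 0 < y := hy.1
        have : -r < y := by linarith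
        exact this
    refine le_trans ?_ h1
    have h2 : ∫ y in Ioc 0 Y, F ^ d * K * Real.exp (-3) = F ^ d * K * Real.exp (-3) * Y := by
      rw [setIntegral_const, measureReal_def, Real.volume_Ioc, sub_zero,
        ENNReal.toReal_ofReal hY0.le, smul_eq_mul, mul_comm]
    rw [← h2]
    apply setIntegral_mono_on
    · exact integrableOn_const (by simp)
    · exact j1.mono_set (fun y hy => by
        have hy1 : 0 < y := hy.1
        have : -r < y := by linarith
        exact this)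
    · exact measurableSet_Ioc
    · intro y hy
      have hy1 : 0 < y := hy.1
      have hy2 : y ≤ Y := hy.2
      have h3 : κ * y ≤ 1 := by
        have := (mul_le_mul_of_nonneg_left (hy2.trans hY2) hκ0.le)
        rw [mul_one_div_cancel hκ0.ne'] at this
        exact this
      have h4 : (d : ℝ) * y ^ 2 ≤ r ^ 2 := by
        have h5 : Real.sqrt d * y ≤ r := by
          have := hy2.trans hY1
          rw [le_div_iff₀ hq0] at this
          linarith
        have h6 : (Real.sqrt d * y) ^ 2 ≤ r ^ 2 := pow_le_pow_left₀ (by positivity) h5 2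
        rw [mul_pow, Real.sq_sqrt (by linarith)] at h6
        exact h6
      have h5 := low (d := d) hr0 (by linarith) (by linarith) hσ0 (by linarith) hy1.le
        (hFup' y hy1.le) hκ h3 h4
      rw [← hs, ← hK] at h5
      exact h5
  have hmain : F ^ d * K * Real.exp (-3) * Y ≤
      G ^ d * K * (Real.exp 1 * (6 * (r / Real.sqrt d))) := hLft.trans (i3.trans hR)
  obtain ⟨Z, hZ⟩ : ∃ Z, Z = F ^ d / G ^ d := ⟨_, rfl⟩
  have hGd : 0 < G ^ d := by positivity
  have hZF : F ^ d = Z * G ^ d := by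
    rw [hZ]
    field_simp
  have hZ0 : 0 < Z := by rw [hZ]; positivity
  have h1 : Z ≤ Real.exp 3 * (Real.exp 1 * 6) * ((r / Real.sqrt d) * (1 / Y)) := by
    rw [hZF] at hmain
    have h2 : (G ^ d * K) * (Z * Real.exp (-3) * Y) ≤
        (G ^ d * K) * (Real.exp 1 * (6 * (r / Real.sqrt d))) := by
      refine le_trans (le_of_eq ?_) hmain
      ring
    have h3 := le_of_mul_le_mul_left h2 (by positivity)
    have h4 : Z = Real.exp 3 * (Z * Real.exp (-3) * Y) * (1 / Y) := by
      have : Real.exp 3 * Real.exp (-3) = 1 := by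
        rw [← Real.exp_add]
        simp
      calc Z = (Real.exp 3 * Real.exp (-3)) * Z * (Y * (1 / Y)) := by
            rw [this, mul_one_div_cancel hY0.ne']
            ring
        _ = _ := by ring
    rw [h4]
    calc Real.exp 3 * (Z * Real.exp (-3) * Y) * (1 / Y) ≤
          Real.exp 3 * (Real.exp 1 * (6 * (r / Real.sqrt d))) * (1 / Y) :=
          mul_le_mul_of_nonneg_right (mul_le_mul_of_nonneg_left h3 (Real.exp_pos _).le)
            (by positivity)
      _ = _ := by ring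
  obtain ⟨L, hLd⟩ : ∃ L, L = d * ((F - G) / F) := ⟨_, rfl⟩
  have hL0 : 0 ≤ L := by
    rw [hLd]
    positivity
  have hZL : Real.exp L ≤ Z := by
    have h2 : G / F ≤ Real.exp (-((F - G) / F)) := by
      have h3 := Real.add_one_le_exp (-((F - G) / F))
      have h4 : -((F - G) / F) + 1 = G / F := by
        field_simp
        ring
      rwa [h4] at h3
    have h3 := pow_le_pow_left₀ (by positivity) h2 d
    rw [← Real.exp_nat_mul, div_pow] at h3
    have h4 : (d : ℝ) * -((F - G) / F) = -L := by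
      rw [hLd]
      ring
    rw [h4] at h3
    have h5 : 0 < F ^ d := by positivity
    have h6 : Z = 1 / (G ^ d / F ^ d) := by
      rw [hZ]
      field_simp
    rw [h6, le_div_iff₀ (by positivity)]
    calc Real.exp L * (G ^ d / F ^ d) ≤ Real.exp L * Real.exp (-L) :=
          mul_le_mul_of_nonneg_left h3 (Real.exp_pos _).le
      _ = 1 := by
          rw [← Real.exp_add]
          simp
  have h2 : (r / Real.sqrt d) * (1 / Y) ≤ 22 * (1 + Real.sqrt d / r ^ 2 + L) := by
    have h3 : (r / Real.sqrt d) * (1 / Y) ≤ (r / Real.sqrt d) * (Real.sqrt d / r + κ) :=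
      mul_le_mul_of_nonneg_left hYinv (by positivity)
    refine h3.trans ?_
    have h4 : (r / Real.sqrt d) * (Real.sqrt d / r + κ) =
        1 + (r / G) * (Real.sqrt d * (σ - 1)) + (r / G) * (L / Real.sqrt d) := by
      rw [hκ1, hLd]
      have : (d : ℝ) = Real.sqrt d * Real.sqrt d := hqq.symm
      generalize Real.sqrt d = q at *
      rw [this]
      field_simp
      ring
    rw [h4]
    have h5 : r / G ≤ 4 / 3 := by
      rw [div_le_iff₀ hG0]
      linarith
    have h6 : 0 ≤ r / G := by positivity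
    have h7 : Real.sqrt d * (σ - 1) ≤ 16 * (Real.sqrt d / r ^ 2) := by
      have h8 : Real.sqrt d * (σ - 1) ≤ Real.sqrt d * (16 / r ^ 2) :=
        mul_le_mul_of_nonneg_left (by linarith) hq0.le
      refine h8.trans (le_of_eq ?_)
      ring
    have h8 : L / Real.sqrt d ≤ L := div_le_self hL0 hq1
    have h9 : (r / G) * (Real.sqrt d * (σ - 1)) ≤ 4 / 3 * (16 * (Real.sqrt d / r ^ 2)) :=
      mul_le_mul h5 h7 (by positivity) (by norm_num)
    have h10 : (r / G) * (L / Real.sqrt d) ≤ 4 / 3 * L :=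
      mul_le_mul h5 h8 (by positivity) (by norm_num)
    linarith
  have h3 : Z ≤ c * (1 + Real.sqrt d / r ^ 2 + L) := by
    refine h1.trans ?_
    rw [hc]
    have h4 := mul_le_mul_of_nonneg_left h2
      (show 0 ≤ Real.exp 3 * (Real.exp 1 * 6) by positivity)
    refine h4.trans (le_of_eq ?_)
    ring
  have h4 := final hc1 hX0 hZL h3
  rw [hZF]
  exact mul_le_mul_of_nonneg_right h4 hGd.le

end Pool.Agent.Lib.MP_0c1c75_co
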