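import Pool.Agent.Lib.MP_0c1c75_co.Spec

/-!
MP_0c1c75_co, Theorem 2: the approximate Kneser-Poulsen inequality for arbitrary radii.
-/

open MeasureTheory Set Metric Filter Topology
open scoped Pointwise

namespace Pool.Agent.Lib.MP_0c1c75_co

namespace Thm2

variable {d N : ℕ}

lemma gmax_le_iff (hN : 0 < N) (p : Fin N → E d) (a : Fin N → ℝ) (x : E d) (t : ℝ) :
    gmax p a x ≤ t ↔ ∀ i, ‖x - p i‖ ^ 2 - a i ≤ t := by
  have : Nonempty (Fin N) := ⟨⟨0, hN⟩⟩
  exact ciSup_le_iff (Set.finite_range _).bddAbove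

lemma level_eq (hN : 0 < N) (p : Fin N → E d) (a : Fin N → ℝ) (t : ℝ) :
    {x | gmax p a x ≤ t} = ⋂ i, {x | ‖x - p i‖ ^ 2 - a i ≤ t} := by
  ext x
  simp only [mem_ofPred_eq, mem_iInter]
  exact gmax_le_iff hN p a x t

lemma isClosed_level (hN : 0 < N) (p : Fin N → E d) (a : Fin N → ℝ) (t : ℝ) :
    IsClosed {x | gmax p a x ≤ t} := by
  rw [level_eq hN]
  exact isClosed_iInter fun i => isClosed_le (by fun_prop) continuous_const

lemma level_ne_top (hN : 0 < N) (p : Fin N → E d) (a : Fin N → ℝ) (t : ℝ) :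
    volume {x | gmax p a x ≤ t} ≠ ⊤ := by
  have h : {x | gmax p a x ≤ t} ⊆ closedBall (p ⟨0, hN⟩) (Real.sqrt (t + a ⟨0, hN⟩)) := by
    intro x hx
    have h := (gmax_le_iff hN p a x t).1 hx ⟨0, hN⟩
    rw [mem_closedBall, dist_eq_norm]
    exact Real.le_sqrt_of_sq_le (by linarith)
  exact ((measure_mono h).trans_lt measure_closedBall_lt_top).ne

lemma level_mono (p : Fin N → E d) (a : Fin N → ℝ) {t t' : ℝ} (h : t ≤ t') :
    {x | gmax p a x ≤ t} ⊆ {x | gmax p a x ≤ t'} := fun _ hx => le_trans hx h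

/-- every ball is contained in a level set -/
lemma ball_subset_level (hN : 0 < N) (p : Fin N → E d) (a : Fin N → ℝ) (R : ℝ) :
    ∃ t : ℝ, 0 < t ∧ closedBall (0 : E d) R ⊆ {x | gmax p a x ≤ t} := by
  refine ⟨1 + ∑ i, ((R + ‖p i‖) ^ 2 + |a i|), by positivity, ?_⟩
  intro x hx
  rw [mem_closedBall, dist_zero_right] at hx
  rw [mem_ofPred_eq, gmax_le_iff hN]
  intro i
  have h1 : ‖x - p i‖ ≤ R + ‖p i‖ := (norm_sub_le _ _).trans (by linarith)
  have h2 : ‖x - p i‖ ^ 2 ≤ (R + ‖p i‖) ^ 2 := by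
    have := norm_nonneg (x - p i)
    nlinarith
  have h3 : (R + ‖p i‖) ^ 2 + |a i| ≤ ∑ i, ((R + ‖p i‖) ^ 2 + |a i|) :=
    Finset.single_le_sum (f := fun i => (R + ‖p i‖) ^ 2 + |a i|) (fun i _ => by positivity)
      (Finset.mem_univ i)
  have h4 := neg_abs_le (a i)
  linarith

/-- a level set of positive volume contains a lower nonempty level set -/
lemma exists_lower (hd : 0 < d) (hN : 0 < N) (p : Fin N → E d) (a : Fin N → ℝ) (t : ℝ)
    (h : volume {x | gmax p a x ≤ t} ≠ 0) :
    ∃ u, u < t ∧ {x | gmax p a x ≤ u}.Nonempty := by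
  have : Nonempty (Fin d) := ⟨⟨0, hd⟩⟩
  have : Nontrivial (E d) := by infer_instance
  have hsub : ¬ {x | gmax p a x ≤ t}.Subsingleton := by
    intro hs
    exact h (hs.measure_zero _)
  rw [Set.not_subsingleton_iff] at hsub
  obtain ⟨x, hx, y, hy, hxy⟩ := hsub
  have hpos : 0 < ‖x - y‖ ^ 2 / 4 := by
    have : 0 < ‖x - y‖ := norm_pos_iff.2 (sub_ne_zero.2 hxy)
    positivity
  refine ⟨t - ‖x - y‖ ^ 2 / 4, by linarith, ((1 / 2 : ℝ) • (x + y)), ?_⟩
  rw [mem_ofPred_eq, gmax_le_iff hN] at hx hy ⊢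
  intro i
  have e1 : (1 / 2 : ℝ) • (x + y) - p i = (1 / 2 : ℝ) • ((x - p i) + (y - p i)) := by
    module
  have e2 : x - y = (x - p i) - (y - p i) := by abel
  have e3 := parallelogram_law_with_norm ℝ (x - p i) (y - p i)
  have hx' := hx i
  have hy' := hy i
  rw [e1, norm_smul, e2]
  rw [e2] at hpos
  have e4 : ‖(1 / 2 : ℝ)‖ = 1 / 2 := by norm_num
  rw [e4]
  nlinarith

/-- support line of a concave function -/
lemma exists_slope (v : ℝ → ℝ) (U : Set ℝ) (h0 : (0 : ℝ) ∈ U)
    (hU : ∀ t ∈ U, ∀ t', t ≤ t' → t' ∈ U) (u : ℝ) (hu : u < 0) (huU : u ∈ U)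
    (hconc : ∀ x ∈ U, ∀ y ∈ U, ∀ t, 0 ≤ t → t ≤ 1 → (1 - t) * v x + t * v y ≤ v ((1 - t) * x + t * y))
    (hbig : ∃ t, 0 < t ∧ v 0 < v t) : ∃ L, 0 < L ∧ ∀ t ∈ U, v t ≤ v 0 + L * t := by
  have key : ∀ x ∈ U, x < 0 → ∀ y, 0 < y → (v y - v 0) / y ≤ (v 0 - v x) / (-x) := by
    intro x hx hx0 y hy
    have hyU : y ∈ U := hU 0 h0 y hy.le
    have hyx : 0 < y - x := by linarith
    have h1 := hconc x hx y hyU ((-x) / (y - x)) (by apply div_nonneg <;> linarith)
      (by rw [div_le_one hyx]; linarith)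
    have h2 : (1 - (-x) / (y - x)) * x + (-x) / (y - x) * y = 0 := by
      field_simp
      ring
    have h3 : (1 - (-x) / (y - x)) * v x + (-x) / (y - x) * v y =
        (y * v x + (-x) * v y) / (y - x) := by
      field_simp
      ring
    rw [h2, h3, div_le_iff₀ hyx] at h1
    rw [div_le_div_iff₀ hy (by linarith)]
    nlinarith
  set S : Set ℝ := (fun y => (v y - v 0) / y) '' Ioi 0 with hS
  have hbdd : BddAbove S := by
    refine ⟨(v 0 - v u) / (-u), ?_⟩
    rintro _ ⟨y, hy, rfl⟩
    exact key u huU hu y hy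
  obtain ⟨t0, ht0, ht0'⟩ := hbig
  have hne : S.Nonempty := ⟨_, ⟨t0, ht0, rfl⟩⟩
  refine ⟨sSup S, ?_, ?_⟩
  · refine lt_of_lt_of_le ?_ (le_csSup hbdd ⟨t0, ht0, rfl⟩)
    exact div_pos (by linarith) ht0
  · intro t ht
    rcases lt_trichotomy t 0 with h | h | h
    · have h1 : sSup S ≤ (v 0 - v t) / (-t) := by
        refine csSup_le hne ?_
        rintro _ ⟨y, hy, rfl⟩
        exact key t ht h y hy
      rw [le_div_iff₀ (by linarith)] at h1
      linarith
    · subst h
      simp
    · have h1 : (v t - v 0) / t ≤ sSup S := le_csSup hbdd ⟨t, h, rfl⟩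
      rw [div_le_iff₀ h] at h1
      linarith

/-- the Gamma integral -/
lemma gint (hd : 0 < d) :
    Integrable (fun u : ℝ => (max u 0) ^ d * Real.exp (-(d * u))) ∧
    ∫ u : ℝ, (max u 0) ^ d * Real.exp (-(d * u)) = (d.factorial : ℝ) / (d : ℝ) ^ (d + 1) := by
  have hdR : (0 : ℝ) < d := by exact_mod_cast hd
  have e : (fun u : ℝ => (max u 0) ^ d * Real.exp (-(d * u))) =
      (Ioi (0 : ℝ)).indicator (fun u : ℝ => u ^ (((d : ℝ) + 1) - 1) * Real.exp (-(d * u))) := by
    funext u
    by_cases hu : 0 < u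
    · rw [indicator_of_mem (mem_Ioi.2 hu), max_eq_left hu.le, add_sub_cancel_right,
        Real.rpow_natCast]
    · rw [indicator_of_notMem (by simpa using hu), max_eq_right (not_lt.1 hu),
        zero_pow hd.ne', zero_mul]
  have hval : ∫ u in Ioi (0 : ℝ), u ^ (((d : ℝ) + 1) - 1) * Real.exp (-(d * u)) =
      (d.factorial : ℝ) / (d : ℝ) ^ (d + 1) := by
    rw [Real.integral_rpow_mul_exp_neg_mul_Ioi (by positivity) hdR, Real.Gamma_nat_eq_factorial]
    have : (1 / (d : ℝ)) ^ ((d : ℝ) + 1) = (1 / (d : ℝ)) ^ (d + 1) := by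
      rw [← Real.rpow_natCast]
      push_cast
      rfl
    rw [this, one_div, inv_pow]
    field_simp
  have hpos : 0 < (d.factorial : ℝ) / (d : ℝ) ^ (d + 1) := by positivity
  have hint : IntegrableOn (fun u : ℝ => u ^ (((d : ℝ) + 1) - 1) * Real.exp (-(d * u))) (Ioi 0) := by
    by_contra hcon
    have := integral_undef hcon
    rw [hval] at this
    exact hpos.ne' this
  rw [e]
  refine ⟨hint.integrable_indicator measurableSet_Ioi, ?_⟩
  rw [integral_indicator measurableSet_Ioi, hval]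

/-- the comparison function -/
lemma uint (hd : 0 < d) (θ : ℝ) (hθ : 0 < θ) :
    Integrable (fun t : ℝ => (max (1 + θ * t) 0) ^ d * (d * θ * Real.exp (-(d * θ) * t))) ∧
    ∫ t : ℝ, (max (1 + θ * t) 0) ^ d * (d * θ * Real.exp (-(d * θ) * t)) =
      Real.exp d * (d.factorial : ℝ) / (d : ℝ) ^ d := by
  have hdR : (0 : ℝ) < d := by exact_mod_cast hd
  obtain ⟨h1, h2⟩ := gint hd
  set G : ℝ → ℝ := fun u => (max u 0) ^ d * Real.exp (-(d * u)) with hG
  have e : (fun t : ℝ => (max (1 + θ * t) 0) ^ d * (d * θ * Real.exp (-(d * θ) * t))) =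
      fun t => (d * θ * Real.exp d) * G (1 + θ * t) := by
    funext t
    have : Real.exp (-(d * θ) * t) = Real.exp d * Real.exp (-(d * (1 + θ * t))) := by
      rw [← Real.exp_add]
      congr 1
      ring
    rw [this, hG]
    ring
  rw [e]
  have h3 : Integrable (fun y : ℝ => G (1 + y)) := h1.comp_add_left 1
  have h4 : Integrable (fun t : ℝ => G (1 + θ * t)) := h3.comp_mul_left' hθ.ne'
  refine ⟨h4.const_mul _, ?_⟩
  rw [integral_const_mul]
  have h5 : ∫ t : ℝ, G (1 + θ * t) = |θ⁻¹| • ∫ y : ℝ, G (1 + y) :=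
    Measure.integral_comp_mul_left (fun y => G (1 + y)) θ
  have h6 : ∫ y : ℝ, G (1 + y) = ∫ y : ℝ, G y := integral_add_left_eq_self G 1
  rw [h5, h6, h2, abs_of_pos (inv_pos.2 hθ), smul_eq_mul, pow_succ]
  field_simp

/-- the comparison of the Laplace transforms -/
lemma chain (hG : GaussStmt) (hL : LayerStmt) (hN : 0 < N) (p q : Fin N → E d) (hpq : Contr 1 p q)
    (a : Fin N → ℝ) (s : ℝ) (hs : 0 < s) :
    (volume {x : E d | gmax p a x ≤ 0}).toReal ≤
      ∫ t, (volume {z : E d | gmax q a z ≤ t}).toReal * (s * Real.exp (-s * t)) := by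
  obtain ⟨h1, h2⟩ := hG d N hN p q hpq a s hs
  have h3 := (hL d N hN q s hs).1 a
  rw [← h3]
  refine le_trans ?_ h2
  have h4 := mul_meas_ge_le_integral_of_nonneg
    (Eventually.of_forall fun x => (Real.exp_pos (-s * gmax p a x)).le) h1 1
  rw [one_mul] at h4
  refine le_trans (le_of_eq ?_) h4
  rw [measureReal_def]
  congr 2
  ext x
  simp only [mem_ofPred_eq]
  rw [Real.one_le_exp_iff]
  constructor
  · intro h
    nlinarith
  · intro h
    by_contra hcon
    push Not at hcon
    nlinarith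

/-- the case of positive volume -/
lemma case_pos (hG : GaussStmt) (hC : ConcStmt) (hL : LayerStmt) (hV : VrBasicStmt) (hd : 0 < d)
    (hN : 0 < N) (p q : Fin N → E d) (hpq : Contr 1 p q) (a : Fin N → ℝ)
    (h0 : volume {x : E d | gmax q a x ≤ 0} ≠ 0) :
    (volume {x : E d | gmax p a x ≤ 0}).toReal ≤
      (Real.exp d * (d.factorial : ℝ) / (d : ℝ) ^ d) *
        (volume {x : E d | gmax q a x ≤ 0}).toReal := by
  obtain ⟨hV1, hV2, hV3, hV4, hV5, hV6⟩ := hV d hd
  have hdR : (0 : ℝ) < d := by exact_mod_cast hd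
  obtain ⟨u, hu, huU⟩ := exists_lower hd hN q a 0 h0
  set v : ℝ → ℝ := fun t => vr {z : E d | gmax q a z ≤ t} with hv
  have hVt : ∀ t, (volume {z : E d | gmax q a z ≤ t}).toReal =
      (volume (ball (0 : E d) 1)).toReal * v t ^ d := fun t => hV5 _
  set κ : ℝ := (volume (ball (0 : E d) 1)).toReal with hκ
  have hκ0 : 0 ≤ κ := ENNReal.toReal_nonneg
  have hv0 : 0 < v 0 := by
    refine lt_of_le_of_ne (hV4 _) fun h => ?_
    have h1 := hVt 0
    rw [← h, zero_pow hd.ne', mul_zero, ENNReal.toReal_eq_zero_iff] at h1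
    rcases h1 with h1 | h1
    · exact h0 h1
    · exact level_ne_top hN q a 0 h1
  have hne0 : {z : E d | gmax q a z ≤ 0}.Nonempty := by
    rw [Set.nonempty_iff_ne_empty]
    intro h
    rw [h, measure_empty] at h0
    exact h0 rfl
  have hbig : ∃ t, 0 < t ∧ v 0 < v t := by
    obtain ⟨t, ht, hsub⟩ := ball_subset_level hN q a (v 0 + 1)
    refine ⟨t, ht, ?_⟩
    have h1 := hV1 _ _ hsub (level_ne_top hN q a t)
    rw [hV2 0 (v 0 + 1) (by linarith)] at h1
    linarith
  obtain ⟨L, hL0, hLs⟩ := exists_slope v {t | {z : E d | gmax q a z ≤ t}.Nonempty} hne0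
    (fun t ht t' htt' => ht.mono (level_mono q a htt')) u hu huU
    (fun x hx y hy t ht0 ht1 => (hC d N hd hN q).2.2 a x y t hx hy ht0 ht1) hbig
  set θ : ℝ := L / v 0 with hθ
  have hθ0 : 0 < θ := div_pos hL0 hv0
  obtain ⟨hi1, hi2⟩ := uint hd θ hθ0
  have hs : 0 < d * θ := by positivity
  have hle : ∀ t, v t ≤ v 0 * max (1 + θ * t) 0 := by
    intro t
    by_cases ht : {z : E d | gmax q a z ≤ t}.Nonempty
    · have h1 := hLs t ht
      have h2 : v 0 + L * t = v 0 * (1 + θ * t) := by
        rw [hθ]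
        field_simp
      rw [h2] at h1
      exact h1.trans (mul_le_mul_of_nonneg_left (le_max_left _ _) hv0.le)
    · rw [Set.not_nonempty_iff_eq_empty] at ht
      have h1 : v t = 0 := by
        have h2 := hVt t
        rw [ht, measure_empty, ENNReal.toReal_zero] at h2
        rcases mul_eq_zero.1 h2.symm with h3 | h3
        · exfalso
          have h4 := hVt 0
          rw [h3, zero_mul, ENNReal.toReal_eq_zero_iff] at h4
          rcases h4 with h4 | h4
          · exact h0 h4
          · exact level_ne_top hN q a 0 h4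
        · exact eq_zero_of_pow_eq_zero h3
      rw [h1]
      exact mul_nonneg hv0.le (le_max_right _ _)
  calc (volume {x : E d | gmax p a x ≤ 0}).toReal
      ≤ ∫ t, (volume {z : E d | gmax q a z ≤ t}).toReal * (d * θ * Real.exp (-(d * θ) * t)) :=
        chain hG hL hN p q hpq a (d * θ) hs
    _ ≤ ∫ t : ℝ, (κ * v 0 ^ d) *
        ((max (1 + θ * t) 0) ^ d * (d * θ * Real.exp (-(d * θ) * t))) := by
        refine integral_mono ((hL d N hN q (d * θ) hs).2.1 a) (hi1.const_mul _) fun t => ?_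
        have hnn : 0 ≤ d * θ * Real.exp (-(d * θ) * t) := by positivity
        have hpw : v t ^ d ≤ v 0 ^ d * (max (1 + θ * t) 0) ^ d := by
          rw [← mul_pow]
          exact pow_le_pow_left₀ (hV4 _) (hle t) d
        have h5 := mul_le_mul_of_nonneg_right (mul_le_mul_of_nonneg_left hpw hκ0) hnn
        simp only
        rw [hVt t]
        calc κ * v t ^ d * (d * θ * Real.exp (-(d * θ) * t)) ≤ _ := h5
          _ = _ := by ring
    _ = (Real.exp d * (d.factorial : ℝ) / (d : ℝ) ^ d) *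
        (volume {x : E d | gmax q a x ≤ 0}).toReal := by
        rw [integral_const_mul, hi2, hVt 0]
        ring

/-- the exponential density -/
lemma eint (s : ℝ) (hs : 0 < s) :
    Integrable ((Ioi (0 : ℝ)).indicator fun t : ℝ => s * Real.exp (-s * t)) ∧
    ∫ t, (Ioi (0 : ℝ)).indicator (fun t : ℝ => s * Real.exp (-s * t)) t = 1 := by
  have h1 : IntegrableOn (fun t : ℝ => s * Real.exp (-s * t)) (Ioi 0) :=
    (integrableOn_exp_mul_Ioi (a := -s) (by linarith) 0).const_mul s
  refine ⟨h1.integrable_indicator measurableSet_Ioi, ?_⟩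
  rw [integral_indicator measurableSet_Ioi, integral_const_mul,
    integral_exp_mul_Ioi (a := -s) (by linarith) 0]
  simp only [mul_zero, Real.exp_zero]
  field_simp

/-- the case of volume zero -/
lemma case_zero (hG : GaussStmt) (hL : LayerStmt)
    (hN : 0 < N) (p q : Fin N → E d) (hpq : Contr 1 p q) (a : Fin N → ℝ)
    (h0 : volume {x : E d | gmax q a x ≤ 0} = 0) :
    (volume {x : E d | gmax p a x ≤ 0}).toReal ≤ 0 := by
  set V : ℝ → ℝ := fun t => (volume {z : E d | gmax q a z ≤ t}).toReal with hVdef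
  have hV0 : ∀ t, 0 ≤ V t := fun t => ENNReal.toReal_nonneg
  have hVneg : ∀ t, t ≤ 0 → V t = 0 := by
    intro t ht
    have : volume {z : E d | gmax q a z ≤ t} = 0 :=
      measure_mono_null (level_mono q a ht) h0
    simp only [hVdef, this, ENNReal.toReal_zero]
  have hVmono : Monotone V := fun t t' h =>
    ENNReal.toReal_mono (level_ne_top hN q a t') (measure_mono (level_mono q a h))
  -- continuity at zero
  have hlim : Tendsto V (𝓝[Ioi 0] 0) (𝓝 0) := by
    have h1 := tendsto_measure_biInter_gt (μ := (volume : Measure (E d)))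
      (s := fun t : ℝ => {z : E d | gmax q a z ≤ t}) (a := (0 : ℝ))
      (fun r _ => (isClosed_level hN q a r).measurableSet.nullMeasurableSet)
      (fun i j _ hij => level_mono q a hij) ⟨1, one_pos, level_ne_top hN q a 1⟩
    have h2 : (⋂ r : ℝ, ⋂ _ : r > 0, {z : E d | gmax q a z ≤ r}) = {z : E d | gmax q a z ≤ 0} := by
      ext z
      simp only [mem_iInter, mem_ofPred_eq]
      constructor
      · intro h
        exact le_of_forall_gt_imp_ge_of_dense fun r hr => h r hr
      · intro h r hr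
        exact h.trans (le_of_lt hr)
    rw [h2, h0] at h1
    have h3 := (ENNReal.tendsto_toReal (by simp : (0 : ENNReal) ≠ ⊤)).comp h1
    rw [ENNReal.toReal_zero] at h3
    exact h3
  refine le_of_forall_pos_le_add fun ε hε => ?_
  rw [zero_add]
  -- a small interval
  have hδ : ∃ δ, 0 < δ ∧ V δ ≤ ε := by
    have h1 : ∀ᶠ t in 𝓝[Ioi 0] (0 : ℝ), V t < ε := hlim (Iio_mem_nhds hε)
    obtain ⟨t, ht1, ht2⟩ := (h1.and self_mem_nhdsWithin).exists
    exact ⟨t, ht2, ht1.le⟩
  obtain ⟨δ, hδ0, hδ1⟩ := hδ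
  set K : ℝ := ∫ t, V t * (1 * Real.exp (-1 * t)) with hK
  have hKint : Integrable (fun t => V t * (1 * Real.exp (-1 * t))) :=
    (hL d N hN q 1 one_pos).2.1 a
  have hbound : ∀ s : ℝ, 1 ≤ s → (volume {x : E d | gmax p a x ≤ 0}).toReal ≤
      ε + s * Real.exp (-(s - 1) * δ) * K := by
    intro s hs1
    have hs : 0 < s := by linarith
    obtain ⟨he1, he2⟩ := eint s hs
    calc (volume {x : E d | gmax p a x ≤ 0}).toReal
        ≤ ∫ t, V t * (s * Real.exp (-s * t)) := chain hG hL hN p q hpq a s hs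
      _ ≤ ∫ t, (ε * (Ioi (0 : ℝ)).indicator (fun t : ℝ => s * Real.exp (-s * t)) t +
          s * Real.exp (-(s - 1) * δ) * (V t * (1 * Real.exp (-1 * t)))) := by
          refine integral_mono ((hL d N hN q s hs).2.1 a)
            ((he1.const_mul ε).add (hKint.const_mul _)) fun t => ?_
          simp only
          rcases le_or_gt t 0 with ht | ht
          · rw [hVneg t ht, indicator_of_notMem (by simpa using ht)]
            simp
          · rw [indicator_of_mem (mem_Ioi.2 ht)]
            rcases le_or_gt t δ with htδ | htδ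
            · have h1 : V t * (s * Real.exp (-s * t)) ≤ ε * (s * Real.exp (-s * t)) :=
                mul_le_mul_of_nonneg_right ((hVmono htδ).trans hδ1) (by positivity)
              have h2 : 0 ≤ s * Real.exp (-(s - 1) * δ) * (V t * (1 * Real.exp (-1 * t))) := by
                have := hV0 t
                positivity
              linarith
            · have h1 : 0 ≤ ε * (s * Real.exp (-s * t)) := by positivity
              have h2 : V t * (s * Real.exp (-s * t)) ≤
                  s * Real.exp (-(s - 1) * δ) * (V t * (1 * Real.exp (-1 * t))) := by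
                have h3 : Real.exp (-s * t) ≤ Real.exp (-(s - 1) * δ) * Real.exp (-1 * t) := by
                  rw [← Real.exp_add]
                  refine Real.exp_le_exp.2 ?_
                  nlinarith
                calc V t * (s * Real.exp (-s * t)) ≤
                    V t * (s * (Real.exp (-(s - 1) * δ) * Real.exp (-1 * t))) := by
                      refine mul_le_mul_of_nonneg_left ?_ (hV0 t)
                      exact mul_le_mul_of_nonneg_left h3 hs.le
                  _ = _ := by ring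
              linarith
      _ = ε + s * Real.exp (-(s - 1) * δ) * K := by
          rw [integral_add (he1.const_mul ε) (hKint.const_mul _), integral_const_mul, he2,
            integral_const_mul, mul_one]
  -- the limit `s → ∞`
  have hlim2 : Tendsto (fun s : ℝ => ε + s * Real.exp (-(s - 1) * δ) * K) atTop (𝓝 (ε + 0 * K)) := by
    refine Tendsto.add tendsto_const_nhds (Tendsto.mul_const K ?_)
    have h1 : Tendsto (fun s : ℝ => s ^ (1 : ℝ) * Real.exp (-δ * s)) atTop (𝓝 0) :=
      tendsto_rpow_mul_exp_neg_mul_atTop_nhds_zero 1 δ hδ0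
    have h2 := h1.mul_const (Real.exp δ)
    rw [zero_mul] at h2
    refine h2.congr fun s => ?_
    rw [Real.rpow_one, mul_assoc, ← Real.exp_add]
    congr 2
    ring
  rw [zero_mul, add_zero] at hlim2
  exact ge_of_tendsto hlim2 ((eventually_ge_atTop 1).mono hbound)

end Thm2

/-- Theorem 2: the approximate Kneser-Poulsen inequality for arbitrary radii. -/
theorem thm2Stmt (hG : GaussStmt) (hC : ConcStmt) (hL : LayerStmt) (hV : VrBasicStmt) :
    Thm2Stmt := by
  intro d N hd p q hpq r
  have hdR : (0 : ℝ) < d := by exact_mod_cast hd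
  have hCpos : 0 < Real.exp d * (d.factorial : ℝ) / (d : ℝ) ^ d := by positivity
  rcases Nat.eq_zero_or_pos N with rfl | hN
  · simp only [iInter_of_empty]
    have : Nonempty (Fin d) := ⟨⟨0, hd⟩⟩
    have h1 : volume (univ : Set (E d)) = ⊤ := by
      exact measure_univ_of_isAddLeftInvariant _
    rw [h1, ENNReal.mul_top (ENNReal.ofReal_pos.2 hCpos).ne']
  by_cases hr : ∀ i, 0 ≤ r i
  · have key : ∀ p : Fin N → E d, (⋂ i, closedBall (p i) (r i)) =
        {x : E d | gmax p (fun i => r i ^ 2) x ≤ 0} := by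
      intro p
      ext x
      simp only [mem_iInter, mem_closedBall, mem_ofPred_eq]
      rw [Thm2.gmax_le_iff hN]
      refine forall_congr' fun i => ?_
      rw [dist_eq_norm, sub_nonpos]
      exact (pow_le_pow_iff_left₀ (norm_nonneg _) (hr i) two_ne_zero).symm
    rw [key p, key q]
    have hp := Thm2.level_ne_top hN p (fun i => r i ^ 2) 0
    have hq := Thm2.level_ne_top hN q (fun i => r i ^ 2) 0
    rw [← ENNReal.ofReal_toReal hp, ← ENNReal.ofReal_toReal hq, ← ENNReal.ofReal_mul hCpos.le]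
    refine ENNReal.ofReal_le_ofReal ?_
    by_cases h0 : volume {x : E d | gmax q (fun i => r i ^ 2) x ≤ 0} = 0
    · refine (Thm2.case_zero hG hL hN p q hpq _ h0).trans ?_
      positivity
    · exact Thm2.case_pos hG hC hL hV hd hN p q hpq _ h0
  · push Not at hr
    obtain ⟨i, hi⟩ := hr
    have h1 : (⋂ i, closedBall (p i) (r i)) = ∅ := by
      rw [← subset_empty_iff]
      intro x hx
      have := mem_iInter.1 hx i
      rw [closedBall_eq_empty.2 hi] at this
      exact this
    rw [h1, measure_empty]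
    exact zero_le

end Pool.Agent.Lib.MP_0c1c75_co
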