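import Pool.Agent.Lib.MP_0c1c75_co.Spec

/-!
MP_0c1c75_co, the stronger comparison G+ (helper55, helper43) and the sharper Theorem 2.
-/

open MeasureTheory Set Metric

namespace Pool.Agent.Lib.MP_0c1c75_co

/-- Comparison of the fractional integrals of order `d/2 - 1` (`d = 2`: planar Kneser-Poulsen).
Proof: in `E^(2d)` with the path of Gauss.lean and the soft maximum
`G = k⁻¹ log ∑ c_i exp (k |x - p_i|^2)`: for `φ` of class `C^1`, zero beyond some `s0`,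
`d/dθ ∫ φ(G) = 2 ∫ (k φ(G) - φ'(G)) D`, `D = -(1/2) ∑ π_i π_j <p_i - p_j, v_i - v_j> ≥ 0`, which is
nonnegative as soon as `φ' ≤ k φ`; `φ t = exp (l t) ψ(t)`, `ψ ≥ 0` decreasing, `k ≥ l`; `k → ∞`,
then `l → ∞` suitably normalised: `φ → δ_s`. (Team-store mail of helper55, note of helper43.) -/
def GPlusStmt : Prop :=
  ∀ (d N : ℕ), 2 ≤ d → 0 < N → ∀ (p q : Fin N → E d), Contr 1 p q → ∀ (a : Fin N → ℝ) (s : ℝ),
    IntegrableOn (fun x => (s - gmax p a x) ^ ((d : ℝ) / 2 - 1)) {x | gmax p a x < s} ∧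
    ∫ x in {x | gmax p a x < s}, (s - gmax p a x) ^ ((d : ℝ) / 2 - 1) ≤
      ∫ x in {x | gmax q a x < s}, (s - gmax q a x) ^ ((d : ℝ) / 2 - 1)

/-- the constant, `1` for `d = 2`, `1.9208` for `d = 3`, asymptotically `√(2 π d / 3)` -/
noncomputable def Cp (d : ℕ) : ℝ :=
  Real.Gamma ((d : ℝ) / 2) * (d.factorial : ℝ) / Real.Gamma (3 * (d : ℝ) / 2) *
    ((3 * (d : ℝ) / 2 - 1) ^ (3 * (d : ℝ) / 2 - 1) /
      ((d : ℝ) ^ d * ((d : ℝ) / 2 - 1) ^ ((d : ℝ) / 2 - 1)))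

/-- Theorem 2, sharper form. `α = d/2 - 1`, `v = V^(1/d)` concave where positive, `u = 0`,
`V_P(0) s^α ≤ ∫ (s - G_p)_+^α ≤ ∫ (s - G_q)_+^α = α ∫ V_Q(t) (s - t)_+^(α-1) dt
≤ V_Q(0) θ^(-α) α B(d+1, α) (1 + θ s)^(d+α)`, best `θ s = α / d`. (`d = 2` directly: volumes of
`{G < s}`, `s → 0+`.) -/
def Thm2pStmt : Prop :=
  ∀ (d N : ℕ), 2 ≤ d → ∀ (p q : Fin N → E d), Contr 1 p q → ∀ r : Fin N → ℝ,
    volume (⋂ i, closedBall (p i) (r i)) ≤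
      ENNReal.ofReal (Cp d) * volume (⋂ i, closedBall (q i) (r i))

/-- Theorem 3, quantitative form: `c ≤ 1 - C log d / √d`. Same proof as `Thm3Stmt`. -/
def Thm3qStmt : Prop :=
  ∃ C : ℝ, 0 < C ∧ ∀ (d N : ℕ) (c : ℝ), 2 ≤ d → 0 ≤ c → c ≤ 1 - C * (Real.log d / Real.sqrt d) →
    ∀ (p q : Fin N → E d), Contr c p q → ∀ r : ℝ, volume (body p r) ≤ volume (body q r)

end Pool.Agent.Lib.MP_0c1c75_co
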