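import Pool.Agent.Lib.MP_0c1c75_co.Spec2
import Pool.Agent.Lib.MP_0c1c75_co.Spec4

/-!
MP_0c1c75_co: improvement of Theorem 3 (no logarithm): `c ≤ 1 - C / √d`.
-/

open MeasureTheory Set Metric

namespace Pool.Agent.Lib.MP_0c1c75_co

/-- Real variable part, refined Theorem 2 for congruent balls. Hypotheses as in `RealStmt`.
Proof. `f = f r`, `g = g r`, if `f ≤ g` trivial; `γ = f - g > 0`. From `RealBStmt`: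
`3 r / 4 ≤ r - 2 ≤ g < f ≤ r`.
(1) Supergradient: there is `σ` with `1 ≤ σ ≤ 1 + 16/r^2` and `g (r + y) ≤ max (g + σ y) 0` for all
`y ≥ -r` (`σ` = supremum of the slopes `(g (r+y) - g)/y`, `y > 0`; for `y < 0` with `g (r+y) > 0` use
the last concavity hypothesis with `r + y`, `r`, `r + y'`).
(2) `s = d σ / (2 r g)`, `f' = g / σ ∈ [r/2, r]`. The right integral is at most
`g^d r exp (-s r^2) ∫_{y > -r} Afun d r f' y` and by `RealAStmt` (first item) and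
`y/r - d y^2/(2 r f') ≤ y/r - d y^2/(2 r^2)` the last integral is at most `C r / √d`.
(3) Left integral: `f (r+y) ≥ f + y` for `y ≥ 0`, so it is at least
`f^d r exp (-s r^2) ∫_0^Y (1 + y/f)^d exp (-s (2 r y + y^2)) dy`. As
`(1 + y/f)^d ≥ exp (d y/f - d y^2/(2 f^2))`, the exponent is at least `-κ y - 2 d y^2/r^2` with
`κ = d (σ/g - 1/f) = d ((σ-1) f + γ)/(f g)`. Take `Y = min (r/√d) (1/κ)`: integrand `≥ exp (-3)`.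
(4) So `(f/g)^d ≤ C (r/√d)/Y ≤ C (1 + κ r/√d) ≤ C (1 + √d/r^2 + √d γ/f) ` (new `C`), and with
`Z = (f/g)^d`, `d γ / f ≤ log Z` (`(1 - γ/f)^(-d) ≥ exp (d γ/f)`):
`Z ≤ C (1 + √d/r^2 + log Z)`, `log Z ≤ Z/(2C) + C'`. Constants may be huge. -/
def RealCStmt : Prop :=
  ∃ C : ℝ, 0 < C ∧ ∀ (d : ℕ) (f g : ℝ → ℝ) (B B' : ℝ), 2 ≤ d →
    (∀ h ∈ ({f, g} : Set (ℝ → ℝ)), (∀ r, 0 ≤ h r) ∧
      (∀ r r' t : ℝ, 1 ≤ r → 1 ≤ r' → 0 ≤ t → t ≤ 1 →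
        (1 - t) * h r + t * h r' ≤ h ((1 - t) * r + t * r')) ∧
      (∀ r e : ℝ, 1 ≤ r → 0 ≤ e → h r + e ≤ h (r + e))) →
    0 ≤ B → 0 ≤ B' → (∀ r, 0 ≤ r → f r ≤ r) → (∀ r, 1 ≤ r → f r ≤ r - B ∧ Real.sqrt (r ^ 2 - 1) - B ≤ f r) →
    (∀ r r' : ℝ, r ≤ r' → g r ≤ g r') →
    (∀ r, 1 ≤ r → g r ≤ r - B' ∧ Real.sqrt (r ^ 2 - 1) - B' ≤ g r) →
    (∀ r r' t : ℝ, 0 ≤ r → 0 < g r → 1 ≤ r' → 0 ≤ t → t ≤ 1 →
        (1 - t) * g r + t * g r' ≤ g ((1 - t) * r + t * r')) →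
    (∀ s : ℝ, 0 < s → IntegrableOn (fun r => f r ^ d * (r * Real.exp (-s * r ^ 2))) (Ioi 0) ∧
      IntegrableOn (fun r => g r ^ d * (r * Real.exp (-s * r ^ 2))) (Ioi 0) ∧
      ∫ r in Ioi (0 : ℝ), f r ^ d * (r * Real.exp (-s * r ^ 2)) ≤
        ∫ r in Ioi (0 : ℝ), g r ^ d * (r * Real.exp (-s * r ^ 2))) →
    ∀ r : ℝ, 8 ≤ r → f r ^ d ≤ C * (1 + Real.sqrt d / r ^ 2) * g r ^ d

/-- Theorem 3 without logarithm. As `thm3qStmt` (file Thm3q.lean, and `core` in Thm3.lean), with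
three regimes (circumradius `1`, `ρ ≥ 1`; `f = f ρ`, `g = g ρ`; to show
`(1-c) (ρ - f) ≥ c (f - g)` where `ρ - f ≥ 1/(2ρ)`):
(i) `ρ ≤ 8`: Theorem 2 as in regime 1 there, `64 * 2 (1 + log d) ≤ (1-c) d` holds if
`(1-c) √d ≥ 256`.
(ii) `8 ≤ ρ ≤ C d^(1/4)`: by `RealCStmt` `f - g ≤ (ρ/d) log (C' (1 + √d/ρ^2)) ≤
(ρ/d) (log C' + √d/ρ^2)`, and `2 ρ^2 (log C' + √d/ρ^2)/d ≤ (2 C^2 log C' + 2)/√d`.
(iii) `ρ ≥ C d^(1/4)`: regime 2 there. -/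
def Thm3rStmt : Prop :=
  ∃ C : ℝ, 0 < C ∧ ∀ (d N : ℕ) (c : ℝ), 2 ≤ d → 0 ≤ c → c ≤ 1 - C / Real.sqrt d →
    ∀ (p q : Fin N → E d), Contr c p q → ∀ r : ℝ, volume (body p r) ≤ volume (body q r)

end Pool.Agent.Lib.MP_0c1c75_co
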