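import Pool.Agent.Lib.MP_0c1c75_co.Thm3
import Pool.Agent.Lib.MP_0c1c75_co.Spec6

/-!
MP_0c1c75_co: Theorem 3 without logarithm.
-/

open MeasureTheory Set Metric
open scoped Pointwise

namespace Pool.Agent.Lib.MP_0c1c75_co.Thm3r

open Thm3

lemma root_le {d : ℕ} (hd : 0 < d) {L f g : ℝ} (hf : 0 ≤ f) (hg : 0 ≤ g)
    (h : f ^ d ≤ Real.exp L * g ^ d) : (1 - L / d) * f ≤ g := by
  have hdR : (0 : ℝ) < d := by exact_mod_cast hd
  by_contra hcon
  push Not at hcon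
  have hL0 : 0 ≤ 1 - L / d := by
    by_contra hneg
    push Not at hneg
    have h5 : (1 - L / d) * f ≤ 0 := mul_nonpos_of_nonpos_of_nonneg hneg.le hf
    linarith
  have h6 : g ^ d < ((1 - L / d) * f) ^ d := pow_lt_pow_left₀ hcon hg (by omega)
  have h7 : (1 - L / d) ^ d ≤ Real.exp (-L) := by
    calc (1 - L / d) ^ d ≤ Real.exp (-(L / d)) ^ d :=
          pow_le_pow_left₀ hL0 (Real.one_sub_le_exp_neg _) d
      _ = Real.exp (-L) := by
          rw [← Real.exp_nat_mul]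
          congr 1
          field_simp
  rw [mul_pow] at h6
  have h8 : g ^ d < Real.exp (-L) * f ^ d :=
    h6.trans_le (mul_le_mul_of_nonneg_right h7 (pow_nonneg hf d))
  have h10 : Real.exp L * g ^ d < Real.exp L * (Real.exp (-L) * f ^ d) :=
    mul_lt_mul_of_pos_left h8 (Real.exp_pos _)
  rw [← mul_assoc, ← Real.exp_add, add_neg_cancel, Real.exp_zero, one_mul] at h10
  linarith

/-- the numerical conditions -/
lemma num_r {C C' c₀ s : ℝ} (hC : 0 < C) (hC' : 1 ≤ C') (hs : 0 < s)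
    (h : c₀ ≤ 1 - 2 * (2 * C + 258 + 2 * C ^ 2 * Real.log C') / s)
    (hs2 : max c₀ (1 / 2) = 1 / 2 → 2 * (2 * C + 258 + 2 * C ^ 2 * Real.log C') ≤ s) :
    max c₀ (1 / 2) < 1 ∧ 2 * C ≤ (1 - max c₀ (1 / 2)) * s ∧
      256 ≤ (1 - max c₀ (1 / 2)) * s ∧
      2 * C ^ 2 * Real.log C' + 2 ≤ (1 - max c₀ (1 / 2)) * s := by
  have hlog : 0 ≤ Real.log C' := Real.log_nonneg hC'
  have hx : 0 ≤ 2 * C ^ 2 * Real.log C' := by positivity
  set K : ℝ := 2 * C + 258 + 2 * C ^ 2 * Real.log C' with hK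
  have hK0 : 0 < K := by linarith
  have h1 : K ≤ (1 - max c₀ (1 / 2)) * s := by
    rcases le_total c₀ (1 / 2) with hc | hc
    · have h2 := hs2 (max_eq_right hc)
      rw [max_eq_right hc]
      linarith
    · rw [max_eq_left hc]
      have h3 : 2 * K / s * s ≤ (1 - c₀) * s := mul_le_mul_of_nonneg_right (by linarith) hs.le
      have h4 : 2 * K / s * s = 2 * K := by field_simp
      linarith
  refine ⟨?_, by linarith, by linarith, by linarith⟩
  by_contra hneg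
  push Not at hneg
  have : (1 - max c₀ (1 / 2)) * s ≤ 0 := mul_nonpos_of_nonpos_of_nonneg (by linarith) hs.le
  linarith

/-- the normalised statement -/
lemma core3 {c C C' : ℝ} (hc0 : 0 < c) (hc1 : c < 1) (hC : 0 < C) {d N : ℕ} (hd2 : 2 ≤ d)
    (hN : 0 < N)
    (e1 : 2 * C ≤ (1 - c) * Real.sqrt d)
    (e2 : 256 ≤ (1 - c) * Real.sqrt d) (hC' : 1 ≤ C')
    (e3 : 2 * C ^ 2 * Real.log C' + 2 ≤ (1 - c) * Real.sqrt d)
    (h2 : Thm2Stmt) (hCo : ConcStmt) (hL : LayerStmt) (hG : GaussStmt)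
    (hRad : RadialStmt) (hU : UrysohnStmt) (hCi : CircumStmt) (hCA : CircumAppStmt)
    (hV : VrBasicStmt) (hH : HwBasicStmt)
    (hR : ∀ (d : ℕ) (f g : ℝ → ℝ) (B B' : ℝ), 2 ≤ d →
    (∀ h ∈ ({f, g} : Set (ℝ → ℝ)), (∀ r, 0 ≤ h r) ∧
      (∀ r r' t : ℝ, 1 ≤ r → 1 ≤ r' → 0 ≤ t → t ≤ 1 →
        (1 - t) * h r + t * h r' ≤ h ((1 - t) * r + t * r')) ∧
      (∀ r e : ℝ, 1 ≤ r → 0 ≤ e → h r + e ≤ h (r + e))) →
    0 ≤ B → 0 ≤ B' → (∀ r, 0 ≤ r → f r ≤ r) → (∀ r, 1 ≤ r → f r ≤ r - B ∧ Real.sqrt (r ^ 2 - 1) - B ≤ f r) →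
    (∀ r r' : ℝ, r ≤ r' → g r ≤ g r') →
    (∀ r, 1 ≤ r → g r ≤ r - B' ∧ Real.sqrt (r ^ 2 - 1) - B' ≤ g r) →
    (∀ r r' t : ℝ, 0 ≤ r → 0 < g r → 1 ≤ r' → 0 ≤ t → t ≤ 1 →
        (1 - t) * g r + t * g r' ≤ g ((1 - t) * r + t * r')) →
    (∀ s : ℝ, 0 < s → IntegrableOn (fun r => f r ^ d * (r * Real.exp (-s * r ^ 2))) (Ioi 0) ∧
      IntegrableOn (fun r => g r ^ d * (r * Real.exp (-s * r ^ 2))) (Ioi 0) ∧
      ∫ r in Ioi (0 : ℝ), f r ^ d * (r * Real.exp (-s * r ^ 2)) ≤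
        ∫ r in Ioi (0 : ℝ), g r ^ d * (r * Real.exp (-s * r ^ 2))) →
    ∀ r : ℝ, C * (d : ℝ) ^ ((1 : ℝ) / 4) ≤ r → r ^ 2 * (Real.sqrt d * (f r - g r)) ≤ C * f r)
    (hRC : ∀ (d : ℕ) (f g : ℝ → ℝ) (B B' : ℝ), 2 ≤ d →
    (∀ h ∈ ({f, g} : Set (ℝ → ℝ)), (∀ r, 0 ≤ h r) ∧
      (∀ r r' t : ℝ, 1 ≤ r → 1 ≤ r' → 0 ≤ t → t ≤ 1 →
        (1 - t) * h r + t * h r' ≤ h ((1 - t) * r + t * r')) ∧
      (∀ r e : ℝ, 1 ≤ r → 0 ≤ e → h r + e ≤ h (r + e))) →
    0 ≤ B → 0 ≤ B' → (∀ r, 0 ≤ r → f r ≤ r) → (∀ r, 1 ≤ r → f r ≤ r - B ∧ Real.sqrt (r ^ 2 - 1) - B ≤ f r) →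
    (∀ r r' : ℝ, r ≤ r' → g r ≤ g r') →
    (∀ r, 1 ≤ r → g r ≤ r - B' ∧ Real.sqrt (r ^ 2 - 1) - B' ≤ g r) →
    (∀ r r' t : ℝ, 0 ≤ r → 0 < g r → 1 ≤ r' → 0 ≤ t → t ≤ 1 →
        (1 - t) * g r + t * g r' ≤ g ((1 - t) * r + t * r')) →
    (∀ s : ℝ, 0 < s → IntegrableOn (fun r => f r ^ d * (r * Real.exp (-s * r ^ 2))) (Ioi 0) ∧
      IntegrableOn (fun r => g r ^ d * (r * Real.exp (-s * r ^ 2))) (Ioi 0) ∧
      ∫ r in Ioi (0 : ℝ), f r ^ d * (r * Real.exp (-s * r ^ 2)) ≤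
        ∫ r in Ioi (0 : ℝ), g r ^ d * (r * Real.exp (-s * r ^ 2))) →
    ∀ r : ℝ, 8 ≤ r → f r ^ d ≤ C' * (1 + Real.sqrt d / r ^ 2) * g r ^ d)
    (p q : Fin N → E d) (hpq : Contr 1 p q) (l : Fin N → ℝ) (o : E d) (hl0 : ∀ i, 0 ≤ l i)
    (hl1 : ∑ i, l i = 1) (hlo : ∑ i, l i • p i = o) (hp1 : ∀ i, ‖p i - o‖ ≤ 1)
    (hl2 : ∑ i, l i * ‖p i - o‖ ^ 2 = (1 : ℝ) ^ 2) (ρ : ℝ) (hρ : 1 ≤ ρ) :
    vr (body p ρ) ≤ c * vr (body q (ρ / c)) := by
  have hd0 : 0 < d := by omega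
  have hdR : (0 : ℝ) < d := by exact_mod_cast hd0
  obtain ⟨v1, v2, v3, v4, v5, v6⟩ := hV d hd0
  -- circumscribed ball of q
  obtain ⟨l', o', R', hl'0, hl'1, hl'o, hR'0, hq1, hl'2⟩ := hCi d N hN q
  obtain ⟨ca1, ca2⟩ := hCA d N hN
  have hR'1 : R' ≤ 1 := by
    have := ca2 1 p q zero_le_one hpq o o' 1 R' l' hl'0 hl'1 hl'o hR'0 hl'2 zero_le_one hp1
    simpa using this
  have hq1' : ∀ i, ‖q i - o'‖ ≤ 1 := fun i => (hq1 i).trans hR'1
  have nep : ∀ r, 1 ≤ r → (body p r).Nonempty := fun r hr =>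
    ⟨o, mem_iInter.2 fun i => by
      rw [mem_closedBall, dist_comm, dist_eq_norm]; exact (hp1 i).trans hr⟩
  have neq : ∀ r, 1 ≤ r → (body q r).Nonempty := fun r hr =>
    ⟨o', mem_iInter.2 fun i => by
      rw [mem_closedBall, dist_comm, dist_eq_norm]; exact (hq1' i).trans hr⟩
  obtain ⟨cp1, cp2, -⟩ := hCo d N hd0 hN p
  obtain ⟨cq1, cq2, -⟩ := hCo d N hd0 hN q
  set f : ℝ → ℝ := fun r => vr (body p r) with hf
  set g : ℝ → ℝ := fun r => vr (body q r) with hg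
  -- f ≤ √(ρ² - 1)
  have hfs : f ρ ≤ Real.sqrt (ρ ^ 2 - 1) := by
    have h := (ca1 p l o 1 hl0 hl1 hlo zero_le_one hl2).1 ρ hρ
    rw [one_pow] at h
    calc f ρ ≤ vr (closedBall o (Real.sqrt (ρ ^ 2 - 1))) :=
          v1 _ _ h measure_closedBall_lt_top.ne
      _ = Real.sqrt (ρ ^ 2 - 1) := v2 _ _ (Real.sqrt_nonneg _)
  have hf0 : ∀ r, 0 ≤ f r := fun r => v4 _
  have hg0 : ∀ r, 0 ≤ g r := fun r => v4 _
  -- reduction
  have hred : c * g ρ + (1 - c) * ρ ≤ c * g (ρ / c) := by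
    have h1 := cq2 ρ (ρ / c - ρ) (neq ρ hρ) (by
      rw [sub_nonneg, le_div_iff₀ hc0]; nlinarith)
    have h2 : ρ + (ρ / c - ρ) = ρ / c := by ring
    rw [h2] at h1
    have h3 := mul_le_mul_of_nonneg_left h1 hc0.le
    have h4 : c * (vr (body q ρ) + (ρ / c - ρ)) = c * vr (body q ρ) + (1 - c) * ρ := by
      field_simp
    rw [h4] at h3
    exact h3
  refine le_trans ?_ hred
  have hlogd : 0 ≤ Real.log d := Real.log_nonneg (by exact_mod_cast (by omega : 1 ≤ d))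
  have hsd : 0 < Real.sqrt d := Real.sqrt_pos.2 hdR
  have hdd : (d : ℝ) = Real.sqrt d * Real.sqrt d := (Real.mul_self_sqrt hdR.le).symm
  obtain ⟨hp1', hp2', -⟩ := hH d N hd0 hN p
  obtain ⟨hq1'', hq2', -⟩ := hH d N hd0 hN q
  have K1 : ∀ h ∈ ({f, g} : Set (ℝ → ℝ)), (∀ r, 0 ≤ h r) ∧
      (∀ r r' t : ℝ, 1 ≤ r → 1 ≤ r' → 0 ≤ t → t ≤ 1 →
        (1 - t) * h r + t * h r' ≤ h ((1 - t) * r + t * r')) ∧
      (∀ r e : ℝ, 1 ≤ r → 0 ≤ e → h r + e ≤ h (r + e)) := by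
    rintro h (rfl | rfl)
    · exact ⟨hf0, fun r r' t hr hr' ht0 ht1 => cp1 r r' t (nep r hr) (nep r' hr') ht0 ht1,
        fun r e hr he => cp2 r e (nep r hr) he⟩
    · exact ⟨hg0, fun r r' t hr hr' ht0 ht1 => cq1 r r' t (neq r hr) (neq r' hr') ht0 ht1,
        fun r e hr he => cq2 r e (neq r hr) he⟩
  have K2 : ∀ r, 0 ≤ r → f r ≤ r := by
    intro r hr
    calc f r ≤ vr (closedBall (p ⟨0, hN⟩) r) :=
          v1 _ _ (iInter_subset _ _) measure_closedBall_lt_top.ne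
      _ = r := v2 _ _ hr
  have K3 : ∀ r, 1 ≤ r → f r ≤ r - hw p ∧ Real.sqrt (r ^ 2 - 1) - hw p ≤ f r := by
    intro r hr
    exact ⟨hU d N hd0 hN p r (nep r hr), by
      have := hRad d N hd0 hN p o 1 r zero_le_one hr hp1
      simpa using this⟩
  have K4 : ∀ r r' : ℝ, r ≤ r' → g r ≤ g r' := by
    intro r r' hrr
    exact v1 _ _ (body_mono q hrr) (body_finite hN q r')
  have K5 : ∀ r, 1 ≤ r → g r ≤ r - hw q ∧ Real.sqrt (r ^ 2 - 1) - hw q ≤ g r := by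
    intro r hr
    exact ⟨hU d N hd0 hN q r (neq r hr), by
      have := hRad d N hd0 hN q o' 1 r zero_le_one hr hq1'
      simpa using this⟩
  have K6 : ∀ r r' t : ℝ, 0 ≤ r → 0 < g r → 1 ≤ r' → 0 ≤ t → t ≤ 1 →
        (1 - t) * g r + t * g r' ≤ g ((1 - t) * r + t * r') := by
    intro r r' t hr hgr hr' ht0 ht1
    have hne : (body q r).Nonempty := by
      by_contra hemp
      rw [Set.not_nonempty_iff_eq_empty] at hemp
      have : g r = 0 := by
        simp only [hg, hemp, vr, measure_empty, ENNReal.toReal_zero, zero_div]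
        exact Real.zero_rpow (by positivity)
      linarith
    exact cq1 r r' t hne (neq r' hr') ht0 ht1
  have K7 : ∀ s : ℝ, 0 < s → IntegrableOn (fun r => f r ^ d * (r * Real.exp (-s * r ^ 2))) (Ioi 0) ∧
      IntegrableOn (fun r => g r ^ d * (r * Real.exp (-s * r ^ 2))) (Ioi 0) ∧
      ∫ r in Ioi (0 : ℝ), f r ^ d * (r * Real.exp (-s * r ^ 2)) ≤
        ∫ r in Ioi (0 : ℝ), g r ^ d * (r * Real.exp (-s * r ^ 2)) := by
    intro s hs
    have hk := kappa_pos d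
    set κ := (volume (ball (0 : E d) 1)).toReal with hκ
    obtain ⟨-, -, lp3, lp4⟩ := hL d N hN p s hs
    obtain ⟨-, -, lq3, lq4⟩ := hL d N hN q s hs
    have ep : (fun r : ℝ => f r ^ d * (r * Real.exp (-s * r ^ 2))) = fun r =>
        (2 * s * κ)⁻¹ * ((volume (body p r)).toReal * (2 * s * r * Real.exp (-s * r ^ 2))) := by
      funext r
      rw [v5]
      simp only [hf]
      field_simp
    have eq : (fun r : ℝ => g r ^ d * (r * Real.exp (-s * r ^ 2))) = fun r =>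
        (2 * s * κ)⁻¹ * ((volume (body q r)).toReal * (2 * s * r * Real.exp (-s * r ^ 2))) := by
      funext r
      rw [v5]
      simp only [hg]
      field_simp
    rw [ep, eq]
    refine ⟨lp4.const_mul _, lq4.const_mul _, ?_⟩
    rw [integral_const_mul, integral_const_mul, ← lp3, ← lq3]
    exact mul_le_mul_of_nonneg_left (hG d N hN p q hpq (fun _ => 0) s hs).2 (by positivity)
  by_cases h8 : ρ ≤ 8
  · -- regime 1
    have hlog2 : 1 + Real.log d ≤ 2 * Real.sqrt d := by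
      have h3 : Real.log (d : ℝ) = 2 * Real.log (Real.sqrt d) := by
        rw [Real.log_sqrt hdR.le]
        ring
      have h4 := Real.log_le_sub_one_of_pos hsd
      linarith
    have hreg : ρ ^ 2 * (2 * (1 + Real.log d)) ≤ (1 - c) * d := by
      have h3 : ρ ^ 2 ≤ 64 := by nlinarith
      have h4 : ρ ^ 2 * (2 * (1 + Real.log d)) ≤ 64 * (2 * (2 * Real.sqrt d)) := by
        apply mul_le_mul h3 (by linarith) (by positivity) (by norm_num)
      have h5 : 256 * Real.sqrt d ≤ (1 - c) * d := by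
        calc 256 * Real.sqrt d ≤ (1 - c) * Real.sqrt d * Real.sqrt d :=
              mul_le_mul_of_nonneg_right e2 hsd.le
          _ = (1 - c) * d := by rw [mul_assoc, ← hdd]
      linarith
    refine num1 hc0.le hc1 hdR (by linarith) hρ (hf0 ρ) hfs ?_ hreg
    -- from Theorem 2
    have hT := h2 d N hd0 p q hpq (fun _ => ρ)
    have hT' : (volume (body p ρ)).toReal ≤
        (Real.exp d * (d.factorial : ℝ) / (d : ℝ) ^ d) * (volume (body q ρ)).toReal := by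
      have h3 : volume (body p ρ) ≤
          ENNReal.ofReal (Real.exp d * (d.factorial : ℝ) / (d : ℝ) ^ d) * volume (body q ρ) := hT
      have h4 := ENNReal.toReal_mono (ENNReal.mul_ne_top ENNReal.ofReal_ne_top
        (body_finite hN q ρ)) h3
      rwa [ENNReal.toReal_mul, ENNReal.toReal_ofReal (by positivity)] at h4
    rw [v5 (body p ρ), v5 (body q ρ)] at hT'
    have hk := kappa_pos d
    have hT2 : f ρ ^ d ≤ (Real.exp d * (d.factorial : ℝ) / (d : ℝ) ^ d) * g ρ ^ d := by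
      apply le_of_mul_le_mul_left _ hk
      rw [mul_left_comm] at hT'
      exact hT'
    exact root_le hd0 (hf0 ρ) (hg0 ρ) (hT2.trans
      (mul_le_mul_of_nonneg_right (fac_bound d (by omega)) (pow_nonneg (hg0 ρ) d)))
  push Not at h8
  by_cases hρ2 : C * (d : ℝ) ^ ((1 : ℝ) / 4) ≤ ρ
  · -- regime 3
    refine num2 hc0.le hc1 hC hsd hρ (hf0 ρ) hfs ?_ e1
    exact hR d f g (hw p) (hw q) hd2 K1 hp2' hq2' K2 K3 K4 K5 K6 K7 ρ hρ2
  · -- regime 2
    push Not at hρ2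
    have hlogC : 0 ≤ Real.log C' := Real.log_nonneg hC'
    have hρsq : ρ ^ 2 ≤ C ^ 2 * Real.sqrt d := by
      have h3 : (C * (d : ℝ) ^ ((1 : ℝ) / 4)) ^ 2 = C ^ 2 * Real.sqrt d := by
        rw [mul_pow, Real.sqrt_eq_rpow, ← Real.rpow_natCast ((d : ℝ) ^ ((1 : ℝ) / 4)),
          ← Real.rpow_mul hdR.le]
        norm_num
      rw [← h3]
      exact pow_le_pow_left₀ (by linarith) hρ2.le 2
    have hρpos : 0 < ρ ^ 2 := by positivity
    have hT2 := hRC d f g (hw p) (hw q) hd2 K1 hp2' hq2' K2 K3 K4 K5 K6 K7 ρ h8.le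
    have h5 : C' * (1 + Real.sqrt d / ρ ^ 2) ≤ Real.exp (Real.log C' + Real.sqrt d / ρ ^ 2) := by
      rw [Real.exp_add, Real.exp_log (by linarith)]
      apply mul_le_mul_of_nonneg_left _ (by linarith)
      linarith [Real.add_one_le_exp (Real.sqrt d / ρ ^ 2)]
    refine num1 (L := Real.log C' + Real.sqrt d / ρ ^ 2) hc0.le hc1 hdR (by positivity) hρ
      (hf0 ρ) hfs ?_ ?_
    · exact root_le hd0 (hf0 ρ) (hg0 ρ) (hT2.trans
        (mul_le_mul_of_nonneg_right h5 (pow_nonneg (hg0 ρ) d)))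
    · have h6 : ρ ^ 2 * (2 * (Real.log C' + Real.sqrt d / ρ ^ 2)) =
          2 * (ρ ^ 2 * Real.log C') + 2 * Real.sqrt d := by
        field_simp
      rw [h6]
      have h7 : ρ ^ 2 * Real.log C' ≤ (C ^ 2 * Real.sqrt d) * Real.log C' :=
        mul_le_mul_of_nonneg_right hρsq hlogC
      have h8' : (2 * C ^ 2 * Real.log C' + 2) * Real.sqrt d ≤ (1 - c) * d := by
        calc (2 * C ^ 2 * Real.log C' + 2) * Real.sqrt d ≤ (1 - c) * Real.sqrt d * Real.sqrt d :=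
              mul_le_mul_of_nonneg_right e3 hsd.le
          _ = (1 - c) * d := by rw [mul_assoc, ← hdd]
      nlinarith

end Pool.Agent.Lib.MP_0c1c75_co.Thm3r

namespace Pool.Agent.Lib.MP_0c1c75_co

open Thm3r Thm3

theorem thm3rStmt (h2 : Thm2Stmt) (hC : ConcStmt) (hL : LayerStmt) (hG : GaussStmt)
    (hRad : RadialStmt) (hU : UrysohnStmt) (hCi : CircumStmt) (hCA : CircumAppStmt)
    (hV : VrBasicStmt) (hH : HwBasicStmt) (hR : RealStmt) (hRC : RealCStmt) : Thm3rStmt := by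
  obtain ⟨C, hC0, hR⟩ := hR
  obtain ⟨C₁, hC₁0, hRC₁⟩ := hRC
  set C' : ℝ := max C₁ 1 with hC'
  have hC'1 : 1 ≤ C' := le_max_right _ _
  have hlogC : 0 ≤ Real.log C' := Real.log_nonneg hC'1
  refine ⟨2 * (2 * C + 258 + 2 * C ^ 2 * Real.log C'), by positivity, ?_⟩
  intro d N c₀ hd2 hc₀ hc₀1 p q hpq₀ r
  have hsd : 0 < Real.sqrt d := Real.sqrt_pos.2 (by exact_mod_cast (by omega : 0 < d))
  obtain ⟨hc1, e1, e2, e3⟩ := num_r hC0 hC'1 hsd hc₀1 (fun _ => by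
    have h3 : 2 * (2 * C + 258 + 2 * C ^ 2 * Real.log C') / Real.sqrt d ≤ 1 := by linarith
    rwa [div_le_one hsd] at h3)
  set c := max c₀ (1 / 2) with hc
  have hc0 : 0 < c := lt_of_lt_of_le (by norm_num) (le_max_right _ _)
  have hpq : Contr c p q := fun i j => (hpq₀ i j).trans
    (mul_le_mul_of_nonneg_right (le_max_left _ _) dist_nonneg)
  rcases Nat.eq_zero_or_pos N with rfl | hN
  · simp [body]
  obtain ⟨l, o, R, hl0, hl1, hlo, hR0, hpR, hl2⟩ := hCi d N hN p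
  have hdpos : 0 < d := by omega
  obtain ⟨v1, v2, v3, v4, v5, v6⟩ := hV d hdpos
  rcases lt_or_ge r R with hrR | hrR
  · rw [((hCA d N hN).1 p l o R hl0 hl1 hlo hR0 hl2).2 r hrR]
    simp
  rcases hR0.eq_or_lt with hR00 | hRpos
  · -- all points equal
    subst hR00
    have hpo : ∀ i, p i = o := fun i => by
      have := hpR i
      exact sub_eq_zero.1 (norm_le_zero_iff.1 this)
    have hq : ∀ i, q i = q ⟨0, hN⟩ := fun i => by
      have := hpq i ⟨0, hN⟩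
      rw [hpo i, hpo ⟨0, hN⟩, dist_self, mul_zero] at this
      exact dist_le_zero.1 this
    have h1 : body p r ⊆ closedBall o r := by
      have := iInter_subset (fun i => closedBall (p i) r) ⟨0, hN⟩
      simp only [hpo] at this
      simpa [body, hpo] using this
    have h2 : closedBall (q ⟨0, hN⟩) r ⊆ body q r := by
      intro x hx
      refine mem_iInter.2 fun i => ?_
      rw [hq i]
      exact hx
    calc volume (body p r) ≤ volume (closedBall o r) := measure_mono h1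
      _ = volume (closedBall (q ⟨0, hN⟩) r) := by
          rw [Measure.addHaar_closedBall_center, Measure.addHaar_closedBall_center volume (q _)]
      _ ≤ volume (body q r) := measure_mono h2
  -- scaling
  have hRc : 0 < c * R := by positivity
  set p' : Fin N → E d := fun i => R⁻¹ • p i with hp'
  set q' : Fin N → E d := fun i => (c * R)⁻¹ • q i with hq'
  have hpq' : Contr 1 p' q' := by
    intro i j
    rw [hp', hq']
    simp only [dist_smul₀, norm_inv, Real.norm_eq_abs, abs_of_pos hRc, abs_of_pos hRpos, one_mul]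
    rw [mul_inv, mul_comm c⁻¹, mul_assoc]
    apply mul_le_mul_of_nonneg_left _ (by positivity)
    rw [inv_mul_le_iff₀ hc0]
    exact hpq i j
  have hp'1 : ∀ i, ‖p' i - R⁻¹ • o‖ ≤ 1 := by
    intro i
    rw [hp']
    simp only
    rw [← smul_sub, norm_smul, norm_inv, Real.norm_eq_abs, abs_of_pos hRpos, inv_mul_le_iff₀ hRpos,
      mul_one]
    exact hpR i
  have hl2' : ∑ i, l i * ‖p' i - R⁻¹ • o‖ ^ 2 = (1 : ℝ) ^ 2 := by
    have : ∀ i, l i * ‖p' i - R⁻¹ • o‖ ^ 2 = (R ^ 2)⁻¹ * (l i * ‖p i - o‖ ^ 2) := by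
      intro i
      rw [hp']
      simp only
      rw [← smul_sub, norm_smul, norm_inv, Real.norm_eq_abs, abs_of_pos hRpos]
      ring
    simp only [this]
    rw [← Finset.mul_sum, hl2]
    field_simp
  have hlo' : ∑ i, l i • p' i = R⁻¹ • o := by
    rw [← hlo, Finset.smul_sum]
    refine Finset.sum_congr rfl fun i _ => ?_
    rw [hp']
    exact smul_comm _ _ _
  have hmain := core3 hc0 hc1 hC0 hd2 hN e1 e2 hC'1 e3 h2 hC hL hG hRad hU hCi hCA hV hH hR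
    (fun d f g B B' hd k1 k2 k3 k4 k5 k6 k7 k8 k9 r hr =>
      (hRC₁ d f g B B' hd k1 k2 k3 k4 k5 k6 k7 k8 k9 r hr).trans
        (mul_le_mul_of_nonneg_right
          (mul_le_mul_of_nonneg_right (le_max_left _ _) (by positivity))
          (pow_nonneg ((k1 g (Or.inr rfl)).1 r) d))) p' q' hpq'
    l (R⁻¹ • o) hl0 hl1 hlo' hp'1 hl2' (r / R) (by rw [le_div_iff₀ hRpos]; linarith)
  have hbp : vr (body p r) = R * vr (body p' (r / R)) := by
    rw [← v3 R _ hRpos.le, ← body_smul p' (r / R) hRpos]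
    congr 1
    have h1 : (fun i => R • p' i) = p := by
      funext i
      rw [hp']
      simp only
      rw [smul_smul, mul_inv_cancel₀ hRpos.ne', one_smul]
    rw [h1, mul_div_cancel₀ _ hRpos.ne']
  have hbq : vr (body q r) = (c * R) * vr (body q' (r / R / c)) := by
    rw [← v3 (c * R) _ hRc.le, ← body_smul q' (r / R / c) hRc]
    congr 1
    have h1 : (fun i => (c * R) • q' i) = q := by
      funext i
      rw [hq']
      simp only
      rw [smul_smul, mul_inv_cancel₀ hRc.ne', one_smul]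
    have h2 : c * R * (r / R / c) = r := by
      field_simp
    rw [h1, h2]
  have hfin : vr (body p r) ≤ vr (body q r) := by
    rw [hbp, hbq]
    calc R * vr (body p' (r / R)) ≤ R * (c * vr (body q' (r / R / c))) :=
          mul_le_mul_of_nonneg_left hmain hRpos.le
      _ = c * R * vr (body q' (r / R / c)) := by ring
  have hvol : (volume (body p r)).toReal ≤ (volume (body q r)).toReal := by
    rw [v5, v5 (body q r)]
    exact mul_le_mul_of_nonneg_left (pow_le_pow_left₀ (v4 _) hfin d) (kappa_pos d).le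
  exact (ENNReal.toReal_le_toReal (body_finite hN p r) (body_finite hN q r)).1 hvol

end Pool.Agent.Lib.MP_0c1c75_co
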