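import Pool.Agent.Lib.MP_0c1c75_co.All
import Pool.Agent.Lib.MP_0c1c75_co.Conc
import Pool.Agent.Lib.MP_0c1c75_co.Layer
import Pool.Agent.Lib.MP_0c1c75_co.Radial
import Pool.Agent.Lib.MP_0c1c75_co.Real
import Pool.Agent.Lib.MP_0c1c75_co.RealA
import Pool.Agent.Lib.MP_0c1c75_co.RealB
import Pool.Agent.Lib.MP_0c1c75_co.Thm2
import Pool.Agent.Lib.MP_0c1c75_co.RealC
import Pool.Agent.Lib.MP_0c1c75_co.Thm3r

/-!
MP_0c1c75_co: all modules of Theorem 3 put together.
-/

open MeasureTheory Set Metric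

namespace Pool.Agent.Lib.MP_0c1c75_co

theorem allConc : ConcStmt := concStmt allBM allV
theorem allLayer : LayerStmt := layerStmt
theorem allThm2 : Thm2Stmt := thm2Stmt gaussStmt allConc allLayer allV
theorem allThm3r : Thm3rStmt := thm3rStmt allThm2 allConc allLayer gaussStmt
  (radialStmt allV allP allH) allU allC allCA allV allH (realStmt realAStmt realBStmt)
  (realCStmt realAStmt realBStmt)

end Pool.Agent.Lib.MP_0c1c75_co
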