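import Pool.Agent.Lib.MP_0c1c75_co.ArSpec
import Pool.Agent.Lib.MP_0c1c75_co.Polar
import Pool.Agent.Lib.MP_0c1c75_co.HwBasic

/-!
Elementary facts on the maxima `ms` and their averages `aw`.
-/

open MeasureTheory Set Metric MeasureTheory.Measure

namespace Pool.Agent.Lib.MP_0c1c75_co.Ar

open HwBasic

private theorem msB_le {d N : ℕ} (hN : 0 < N) {ρ : ℝ} {p : Fin N → E d} {b : Fin N → ℝ} {u : E d}
    {R : ℝ} (h : ∀ i, -(ρ * inner ℝ (p i) u) - b i ≤ R) : ms ρ p b u ≤ R := by
  have : Nonempty (Fin N) := ⟨⟨0, hN⟩⟩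
  exact ciSup_le h

private theorem le_msB {d N : ℕ} (ρ : ℝ) (p : Fin N → E d) (b : Fin N → ℝ) (u : E d) (i : Fin N) :
    -(ρ * inner ℝ (p i) u) - b i ≤ ms ρ p b u :=
  le_ciSup (bdd fun i => -(ρ * inner ℝ (p i) u) - b i) i

private theorem msB_cont {d N : ℕ} (hN : 0 < N) (p : Fin N → E d) (b : Fin N → ℝ) :
    Continuous (fun z : ℝ × E d => ms z.1 p b z.2) := by
  have : Nonempty (Fin N) := ⟨⟨0, hN⟩⟩
  have h1 : (fun z : ℝ × E d => ms z.1 p b z.2) =
      fun z => (Finset.univ : Finset (Fin N)).sup' Finset.univ_nonempty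
      (fun i => -(z.1 * inner ℝ (p i) z.2) - b i) := by
    funext z
    rw [Finset.sup'_univ_eq_ciSup]
    rfl
  rw [h1]
  exact Continuous.finset_sup'_apply _ fun i _ =>
    ((continuous_fst.mul (continuous_const.inner continuous_snd)).neg).sub continuous_const

private theorem msB_abs {d N : ℕ} (hN : 0 < N) (ρ : ℝ) (p : Fin N → E d) (b : Fin N → ℝ)
    (u : E d) : |ms ρ p b u| ≤ |ρ| * ‖u‖ * ∑ i, ‖p i‖ + ∑ i, |b i| := by
  have h1 : ∀ i, |-(ρ * inner ℝ (p i) u) - b i| ≤ |ρ| * ‖u‖ * ∑ i, ‖p i‖ + ∑ i, |b i| := by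
    intro i
    have h2 : |ρ * inner ℝ (p i) u| ≤ |ρ| * ‖u‖ * ∑ i, ‖p i‖ := by
      rw [abs_mul, mul_assoc]
      refine mul_le_mul_of_nonneg_left ?_ (abs_nonneg ρ)
      calc |inner ℝ (p i) u| ≤ ‖p i‖ * ‖u‖ := abs_real_inner_le_norm _ _
        _ = ‖u‖ * ‖p i‖ := mul_comm _ _
        _ ≤ ‖u‖ * ∑ i, ‖p i‖ := mul_le_mul_of_nonneg_left
          (Finset.single_le_sum (f := fun i => ‖p i‖) (fun i _ => norm_nonneg (p i))
            (Finset.mem_univ i)) (norm_nonneg u)
    have h3 : |b i| ≤ ∑ i, |b i| :=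
      Finset.single_le_sum (f := fun i => |b i|) (fun i _ => abs_nonneg (b i)) (Finset.mem_univ i)
    calc |-(ρ * inner ℝ (p i) u) - b i| ≤ |-(ρ * inner ℝ (p i) u)| + |b i| := abs_sub _ _
      _ = |ρ * inner ℝ (p i) u| + |b i| := by rw [abs_neg]
      _ ≤ _ := add_le_add h2 h3
  rw [abs_le]
  constructor
  · have h2 := le_msB ρ p b u ⟨0, hN⟩
    have h3 := (abs_le.mp (h1 ⟨0, hN⟩)).1
    linarith
  · exact msB_le hN fun i => (abs_le.mp (h1 i)).2

private theorem msB_cont' {d N : ℕ} (hN : 0 < N) (ρ : ℝ) (p : Fin N → E d) (b : Fin N → ℝ) :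
    Continuous (ms ρ p b) :=
  (msB_cont hN p b).comp (continuous_const.prodMk continuous_id)

private theorem msB_int {d N : ℕ} (hN : 0 < N) (ρ : ℝ) (p : Fin N → E d) (b : Fin N → ℝ) :
    IntegrableOn (fun x : E d => ms ρ p b (‖x‖⁻¹ • x)) (ball 0 1) := by
  refine integrableOn_of_le (msB_cont' hN ρ p b) (M := |ρ| * ∑ i, ‖p i‖ + ∑ i, |b i|) ?_
  intro u hu
  refine (msB_abs hN ρ p b u).trans ?_
  have h1 : 0 ≤ ∑ i, ‖p i‖ := Finset.sum_nonneg fun i _ => norm_nonneg _
  have h2 : |ρ| * ‖u‖ ≤ |ρ| := mul_le_of_le_one_right (abs_nonneg ρ) hu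
  have h3 := mul_le_mul_of_nonneg_right h2 h1
  linarith

private theorem msB_add {d N : ℕ} (hN : 0 < N) (ρ : ℝ) (p : Fin N → E d) (b : Fin N → ℝ)
    (v u : E d) : ms ρ (fun i => p i + v) b u = ms ρ p b u + inner ℝ (-(ρ • v)) u := by
  apply le_antisymm
  · refine msB_le hN fun i => ?_
    rw [inner_add_left, inner_neg_left, real_inner_smul_left]
    linarith [le_msB ρ p b u i]
  · have : ms ρ p b u ≤ ms ρ (fun i => p i + v) b u - inner ℝ (-(ρ • v)) u := by
      refine msB_le hN fun i => ?_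
      have h := le_msB ρ (fun i => p i + v) b u i
      rw [inner_add_left] at h
      rw [inner_neg_left, real_inner_smul_left]
      linarith
    linarith

private theorem msB_shift {d N : ℕ} (hN : 0 < N) (ρ : ℝ) (p : Fin N → E d) (b : Fin N → ℝ)
    (c : ℝ) (u : E d) : ms ρ p (fun i => b i + c) u = ms ρ p b u + -c := by
  apply le_antisymm
  · refine msB_le hN fun i => ?_
    linarith [le_msB ρ p b u i]
  · have : ms ρ p b u ≤ ms ρ p (fun i => b i + c) u + c := by
      refine msB_le hN fun i => ?_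
      have h := le_msB ρ p (fun i => b i + c) u i
      linarith
    linarith

private theorem avB_const {d : ℕ} (c : ℝ) : ⨍ _ in ball (0 : E d) 1, c = c := by
  rw [setAverage_const (measure_ball_pos _ _ one_pos).ne' measure_ball_lt_top.ne]

/-- The integral over the ball of a function of the direction. -/
private theorem ballB {d : ℕ} (hd : 0 < d) (g : E d → ℝ) :
    ∫ x in ball (0 : E d) 1, g (‖x‖⁻¹ • x) =
      (∫ u : sphere (0 : E d) 1, g u.1 ∂(volume : Measure (E d)).toSphere) * (1 / d) := by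
  have hdR : (0 : ℝ) < d := by exact_mod_cast hd
  rw [← integral_indicator measurableSet_ball, Polar.int hd]
  set one : Ioi (0 : ℝ) := ⟨1, mem_Ioi.2 one_pos⟩ with hone
  have h2 : ∀ z : sphere (0 : E d) 1 × Ioi (0 : ℝ),
      (ball (0 : E d) 1).indicator (fun x => g (‖x‖⁻¹ • x)) (z.2.1 • z.1.1) =
        g z.1.1 * (Iio one).indicator (fun _ => (1 : ℝ)) z.2 := by
    intro z
    have hu : ‖z.1.1‖ = 1 := by simp
    have hn : ‖z.2.1 • z.1.1‖ = z.2.1 := by
      rw [norm_smul, hu, mul_one, Real.norm_eq_abs, abs_of_pos z.2.2]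
    have hpos : (0 : ℝ) < z.2.1 := z.2.2
    simp only [indicator, mem_ball_zero_iff, hn, mem_Iio]
    rw [smul_smul, inv_mul_cancel₀ hpos.ne', one_smul]
    by_cases hlt : z.2.1 < 1
    · rw [if_pos hlt, if_pos (show z.2 < one from hlt), mul_one]
    · rw [if_neg hlt, if_neg (show ¬ z.2 < one from hlt), mul_zero]
  rw [integral_congr_ae (Filter.Eventually.of_forall h2),
    integral_prod_mul (fun u : sphere (0 : E d) 1 => g u.1)
      (fun t : Ioi (0 : ℝ) => (Iio one).indicator (fun _ => (1 : ℝ)) t)]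
  have h3 : ∫ t : Ioi (0 : ℝ), (Iio one).indicator (fun _ => (1 : ℝ)) t
      ∂volumeIoiPow (d - 1) = 1 / d := by
    rw [integral_indicator measurableSet_Iio, setIntegral_const, smul_eq_mul, mul_one,
      measureReal_def, Polar.pow_Iio hd, ENNReal.toReal_ofReal (by positivity)]
    simp [hone]
  rw [h3]

/-- Integrals of products of a radial function and a function of the direction. -/
private theorem radB {d : ℕ} (hd : 0 < d) (φ : ℝ → ℝ) (g : E d → ℝ) :
    ∫ x : E d, φ ‖x‖ * g (‖x‖⁻¹ • x) =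
      (∫ u : sphere (0 : E d) 1, g u.1 ∂(volume : Measure (E d)).toSphere) *
        ∫ t : Ioi (0 : ℝ), φ t.1 ∂volumeIoiPow (d - 1) := by
  rw [Polar.int hd]
  have h1 : ∀ z : sphere (0 : E d) 1 × Ioi (0 : ℝ),
      φ ‖z.2.1 • z.1.1‖ * g (‖z.2.1 • z.1.1‖⁻¹ • (z.2.1 • z.1.1)) = g z.1.1 * φ z.2.1 := by
    intro z
    have hu : ‖z.1.1‖ = 1 := by simp
    have hn : ‖z.2.1 • z.1.1‖ = z.2.1 := by
      rw [norm_smul, hu, mul_one, Real.norm_eq_abs, abs_of_pos z.2.2]
    have hpos : (0 : ℝ) < z.2.1 := z.2.2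
    rw [hn, smul_smul, inv_mul_cancel₀ hpos.ne', one_smul, mul_comm]
  rw [integral_congr_ae (Filter.Eventually.of_forall h1),
    integral_prod_mul (fun u : sphere (0 : E d) 1 => g u.1) (fun t : Ioi (0 : ℝ) => φ t.1)]

theorem basStmt : BasStmt := by
  intro d N hd hN p b
  refine ⟨msB_cont hN p b, fun ρ u => msB_abs hN ρ p b u, ?_, ?_, ?_, ?_, ?_⟩
  · intro ρ v
    unfold aw
    simp only [msB_add hN]
    rw [average_add' (msB_int hN ρ p b) (integrableOn_inner _), average_inner, add_zero]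
  · intro ρ c
    unfold aw
    simp only [msB_shift hN]
    rw [average_add' (msB_int hN ρ p b) (integrableOn_const measure_ball_lt_top.ne), avB_const,
      sub_eq_add_neg]
  · intro ρ c
    unfold aw ms
    simp only [real_inner_smul_left, mul_assoc]
  · intro ρ s hs
    have h1 : ∀ u : E d, ms (s * ρ) p (fun i => s * b i) u = s * ms ρ p b u := by
      intro u
      unfold ms
      rw [Real.mul_iSup_of_nonneg hs]
      congr 1
      funext i
      ring
    unfold aw
    simp only [h1]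
    rw [setAverage_eq, setAverage_eq, integral_const_mul, smul_eq_mul, smul_eq_mul]
    ring
  · intro φ g hφ hi hg hM
    obtain ⟨M, hM⟩ := hM
    refine ⟨?_, ?_⟩
    · refine hi.mul_bdd (c := M) ((hg.comp meas_dir).aestronglyMeasurable) ?_
      exact Filter.Eventually.of_forall fun x => hM _
    · have hdR : (0 : ℝ) < d := by exact_mod_cast hd
      have e1 := radB hd φ g
      have e2 := radB hd φ (fun _ => (1 : ℝ))
      simp only [mul_one] at e2
      have e3 := ballB hd g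
      have e4 := ballB hd (fun _ => (1 : ℝ))
      rw [setIntegral_const, smul_eq_mul, mul_one] at e4
      have hpos : 0 < volume.real (ball (0 : E d) 1) := by
        rw [measureReal_def]
        exact ENNReal.toReal_pos (measure_ball_pos _ _ one_pos).ne' measure_ball_lt_top.ne
      rw [e1, e2, setAverage_eq, e3, e4, smul_eq_mul]
      rw [e4] at hpos
      have hS : (∫ u : sphere (0 : E d) 1, (1 : ℝ) ∂(volume : Measure (E d)).toSphere) ≠ 0 := by
        intro h0
        rw [h0, zero_mul] at hpos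
        exact lt_irrefl _ hpos
      field_simp

end Pool.Agent.Lib.MP_0c1c75_co.Ar
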