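import Pool.Agent.Lib.MP_0c1c75_co.ArSpec

/-!
MP_0c1c75_co, Theorem AR: the point with the largest minimal power.
-/

set_option autoImplicit false

open Set Metric

namespace Pool.Agent.Lib.MP_0c1c75_co.Ar

private theorem stew {d : ℕ} (o y p : E d) (s : ℝ) :
    ‖o + s • (y - o) - p‖ ^ 2 = (1 - s) * ‖o - p‖ ^ 2 + s * ‖y - p‖ ^ 2 -
      s * (1 - s) * ‖y - o‖ ^ 2 := by
  have e1 : o + s • (y - o) - p = (1 - s) • (o - p) + s • (y - p) := by
    module
  have e2 : y - o = (y - p) - (o - p) := by abel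
  rw [e1, e2]
  generalize o - p = a
  generalize y - p = b
  rw [@norm_add_sq_real, @norm_sub_sq_real, norm_smul, norm_smul, inner_smul_left,
    inner_smul_right, real_inner_comm, mul_pow, mul_pow, Real.norm_eq_abs, Real.norm_eq_abs,
    sq_abs, sq_abs]
  simp only [conj_trivial]
  ring

theorem circStmt : CircStmt := by
  intro d N hN p r hr hne
  have i0 : Fin N := ⟨0, hN⟩
  have hu : (Finset.univ : Finset (Fin N)).Nonempty := ⟨i0, Finset.mem_univ _⟩
  obtain ⟨φ, hφ⟩ : ∃ φ : E d → ℝ, φ = fun x => Finset.univ.inf' hu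
      (fun i => r i ^ 2 - ‖x - p i‖ ^ 2) := ⟨_, rfl⟩
  have hφle : ∀ x i, φ x ≤ r i ^ 2 - ‖x - p i‖ ^ 2 := by
    intro x i
    rw [hφ]
    exact Finset.inf'_le _ (Finset.mem_univ i)
  have hφex : ∀ x, ∃ i, φ x = r i ^ 2 - ‖x - p i‖ ^ 2 := by
    intro x
    obtain ⟨i, _, hi⟩ := Finset.exists_mem_eq_inf' hu (fun i => r i ^ 2 - ‖x - p i‖ ^ 2)
    exact ⟨i, by rw [hφ]; exact hi⟩
  have hmem : ∀ x, x ∈ (⋂ i, closedBall (p i) (r i)) ↔ ∀ i, ‖x - p i‖ ≤ r i := by
    intro x
    simp only [mem_iInter, mem_closedBall, dist_eq_norm]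
  have hφ0 : ∀ x ∈ (⋂ i, closedBall (p i) (r i)), 0 ≤ φ x := by
    intro x hx
    obtain ⟨i, hi⟩ := hφex x
    rw [hi, sub_nonneg]
    exact pow_le_pow_left₀ (norm_nonneg _) ((hmem x).1 hx i) 2
  have hcont : Continuous φ := by
    rw [hφ]
    exact Continuous.finset_inf'_apply hu fun i _ => by fun_prop
  have hcomp : IsCompact (⋂ i, closedBall (p i) (r i)) :=
    (isCompact_closedBall (p i0) (r i0)).of_isClosed_subset
      (isClosed_iInter fun i => isClosed_closedBall) (iInter_subset _ i0)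
  obtain ⟨o, ho, hmax⟩ := hcomp.exists_isMaxOn hne hcont.continuousOn
  have h0 := hφ0 o ho
  refine ⟨o, √(φ o), Real.sqrt_nonneg _, fun i => ?_, fun y hy => ?_⟩
  · rw [Real.sq_sqrt h0, norm_sub_rev]
    have := hφle o i
    linarith
  · rw [mem_closedBall, dist_eq_norm]
    refine Real.le_sqrt_of_sq_le ?_
    by_contra hcon
    push Not at hcon
    obtain ⟨D, hD⟩ : ∃ D, ‖y - o‖ ^ 2 = D := ⟨_, rfl⟩
    rw [hD] at hcon
    have hD0 : 0 < D := lt_of_le_of_lt h0 hcon
    obtain ⟨s, hs⟩ : ∃ s, (D - φ o) / (2 * D) = s := ⟨_, rfl⟩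
    have hs0 : 0 < s := by
      rw [← hs]
      exact div_pos (by linarith) (by linarith)
    have hsD : s * (2 * D) = D - φ o := by
      rw [← hs]
      exact div_mul_cancel₀ _ (by linarith)
    have hs1 : s ≤ 1 := by
      by_contra h
      push Not at h
      nlinarith
    have hz : o + s • (y - o) ∈ (⋂ i, closedBall (p i) (r i)) := by
      have hc : Convex ℝ (⋂ i, closedBall (p i) (r i)) :=
        convex_iInter fun i => convex_closedBall _ _
      have := hc ho hy (a := 1 - s) (b := s) (by linarith) hs0.le (by ring)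
      have e : (1 - s) • o + s • y = o + s • (y - o) := by module
      rwa [e] at this
    have h1 : φ (o + s • (y - o)) ≤ φ o := hmax hz
    obtain ⟨i, hi⟩ := hφex (o + s • (y - o))
    rw [hi, stew, hD] at h1
    have h2 := hφle o i
    have h3 : 0 ≤ r i ^ 2 - ‖y - p i‖ ^ 2 := by
      rw [sub_nonneg]
      exact pow_le_pow_left₀ (norm_nonneg _) ((hmem y).1 hy i) 2
    have h4 : s * (1 - s) * D ≤ s * φ o := by nlinarith
    have h5 : (1 - s) * D ≤ φ o := by
      have : s * ((1 - s) * D) ≤ s * φ o := by rw [← mul_assoc]; exact h4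
      exact le_of_mul_le_mul_left this hs0
    nlinarith

end Pool.Agent.Lib.MP_0c1c75_co.Ar
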