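import Pool.Agent.Lib.MP_0c1c75_co.ArSpec

/-!
# MP_0c1c75_co, theorem AR, module Jac: one real integral
-/

namespace Pool.Agent.Lib.MP_0c1c75_co.Ar

open MeasureTheory Set

theorem jacStmt : JacStmt := by
  intro d m hd hm
  have hd' : (3 : ℝ) ≤ d := by exact_mod_cast hd
  have hα : (0 : ℝ) ≤ (d : ℝ) / 2 - 1 := by linarith
  have hc : ∀ j : ℕ, Continuous fun ρ : ℝ => ρ ^ j * (1 - ρ ^ 2) ^ ((d : ℝ) / 2 - 1) := by
    intro j
    refine (continuous_id.pow j).mul ?_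
    exact (continuous_const.sub (continuous_id.pow 2)).rpow_const fun x => Or.inr hα
  have hF : ContinuousOn (fun ρ : ℝ => ρ ^ m * (1 - ρ ^ 2) ^ ((d : ℝ) / 2)) (Icc 0 1) := by
    refine Continuous.continuousOn ?_
    refine (continuous_id.pow m).mul ?_
    exact (continuous_const.sub (continuous_id.pow 2)).rpow_const fun x => Or.inr (by positivity)
  have hder : ∀ x ∈ Ioo (0 : ℝ) 1,
      HasDerivAt (fun ρ : ℝ => ρ ^ m * (1 - ρ ^ 2) ^ ((d : ℝ) / 2))
        (m * (x ^ (m - 1) * (1 - x ^ 2) ^ ((d : ℝ) / 2 - 1)) -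
          ((m : ℝ) + d) * (x ^ (m + 1) * (1 - x ^ 2) ^ ((d : ℝ) / 2 - 1))) x := by
    intro x hx
    have h1 : 0 < 1 - x ^ 2 := by nlinarith [hx.1, hx.2]
    have h2 : HasDerivAt (fun ρ : ℝ => 1 - ρ ^ 2) (-(2 * x)) x := by
      have h := (hasDerivAt_pow 2 x).const_sub 1
      simpa using h
    have h3 := (hasDerivAt_pow m x).mul (h2.rpow_const (p := (d : ℝ) / 2) (Or.inl h1.ne'))
    refine h3.congr_deriv ?_
    have h4 : (1 - x ^ 2) ^ ((d : ℝ) / 2) = (1 - x ^ 2) ^ ((d : ℝ) / 2 - 1) * (1 - x ^ 2) := by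
      rw [← Real.rpow_add_one h1.ne']
      congr 1
      ring
    obtain ⟨k, rfl⟩ : ∃ k, m = k + 1 := ⟨m - 1, by omega⟩
    rw [h4, Nat.add_sub_cancel]
    push_cast
    ring
  have hint : ∀ j : ℕ, IntervalIntegrable
      (fun ρ : ℝ => ρ ^ j * (1 - ρ ^ 2) ^ ((d : ℝ) / 2 - 1)) volume 0 1 :=
    fun j => (hc j).intervalIntegrable 0 1
  have h5 := intervalIntegral.integral_eq_sub_of_hasDerivAt_of_le (zero_le_one' ℝ) hF hder
    (((hint (m - 1)).const_mul (m : ℝ)).sub ((hint (m + 1)).const_mul ((m : ℝ) + d)))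
  rw [intervalIntegral.integral_sub ((hint (m - 1)).const_mul (m : ℝ))
    ((hint (m + 1)).const_mul ((m : ℝ) + d)), intervalIntegral.integral_const_mul,
    intervalIntegral.integral_const_mul, one_pow, one_pow, sub_self,
    Real.zero_rpow (by positivity), mul_zero, zero_pow (by omega), zero_mul, sub_zero] at h5
  linarith

end Pool.Agent.Lib.MP_0c1c75_co.Ar
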