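import Pool.Agent.Lib.MP_0c1c75_co.ArSpec
import Pool.Agent.Lib.MP_0c1c75_co.Layer

/-!
Linearization of `GPlusStmt`.
-/

open MeasureTheory Set Metric Filter
open scoped Topology Interval

namespace Pool.Agent.Lib.MP_0c1c75_co.Ar

/-! ### The functions `Φ` and `Φ'` -/

private noncomputable def dP (A u : ℝ) : ℝ := (max u 0) ^ A

private noncomputable def PP (A u : ℝ) : ℝ := ∫ t in (0 : ℝ)..u, dP A t

private theorem dP_cont {A : ℝ} (hA : 0 < A) : Continuous (dP A) :=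
  (continuous_id.max continuous_const).rpow_const fun _ => Or.inr hA.le

private theorem dP_nonneg (A u : ℝ) : 0 ≤ dP A u := Real.rpow_nonneg (le_max_right _ _) _

private theorem dP_mono {A : ℝ} (hA : 0 < A) : Monotone (dP A) := fun _ _ h =>
  Real.rpow_le_rpow (le_max_right _ _) (max_le_max_right 0 h) hA.le

private theorem dP_zero {A u : ℝ} (hA : 0 < A) (hu : u ≤ 0) : dP A u = 0 := by
  unfold dP
  rw [max_eq_right hu, Real.zero_rpow hA.ne']

private theorem PP_sub {A : ℝ} (hA : 0 < A) (u v : ℝ) : PP A v - PP A u = ∫ t in u..v, dP A t :=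
  intervalIntegral.integral_interval_sub_left ((dP_cont hA).intervalIntegrable _ _)
    ((dP_cont hA).intervalIntegrable _ _)

private theorem PP_zero {A u : ℝ} (hA : 0 < A) (hu : u ≤ 0) : PP A u = 0 := by
  unfold PP
  rw [intervalIntegral.integral_symm, neg_eq_zero]
  rw [intervalIntegral.integral_congr (g := fun _ => (0 : ℝ))]
  · simp
  · intro t ht
    rw [uIcc_of_le hu] at ht
    exact dP_zero hA ht.2

private theorem PP_deriv {A : ℝ} (hA : 0 < A) (u : ℝ) : HasDerivAt (PP A) (dP A u) u :=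
  ((dP_cont hA).integral_hasStrictDerivAt 0 u).hasDerivAt

private theorem PP_cont {A : ℝ} (hA : 0 < A) : Continuous (PP A) :=
  continuous_iff_continuousAt.2 fun u => (PP_deriv hA u).continuousAt

private theorem PP_lip {A : ℝ} (hA : 0 < A) {u v U : ℝ} (hu : u ≤ U) (hv : v ≤ U) :
    |PP A v - PP A u| ≤ dP A U * |v - u| := by
  rw [PP_sub hA, ← Real.norm_eq_abs]
  refine intervalIntegral.norm_integral_le_of_norm_le_const fun t ht => ?_
  rw [Real.norm_of_nonneg (dP_nonneg A t)]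
  refine dP_mono hA ?_
  rw [uIoc, mem_Ioc] at ht
  exact ht.2.trans (max_le hu hv)

/-- limits of difference quotients -/
private theorem PP_lim {A : ℝ} (hA : 0 < A) (v L : ℝ) (e w : ℕ → ℝ)
    (he : Tendsto (fun n => w n / e n) atTop (𝓝 L)) (hw : Tendsto w atTop (𝓝 0)) :
    Tendsto (fun n => (PP A (v + w n) - PP A v) / e n) atTop (𝓝 (dP A v * L)) := by
  have h : HasFDerivWithinAt (PP A) (ContinuousLinearMap.toSpanSingleton ℝ (dP A v)) univ v :=
    (PP_deriv hA v).hasFDerivAt.hasFDerivWithinAt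
  have h0 : Tendsto (fun n => (e n)⁻¹ • w n) atTop (𝓝 L) := by
    refine he.congr fun n => ?_
    rw [smul_eq_mul, div_eq_inv_mul]
  have h1 : Tendsto (fun n => (e n)⁻¹ • (PP A (v + w n) - PP A v)) atTop
      (𝓝 (ContinuousLinearMap.toSpanSingleton ℝ (dP A v) L)) :=
    h.lim hw (Eventually.of_forall fun _ => mem_univ _) h0
  refine (h1.congr fun n => ?_).trans (le_of_eq ?_)
  · rw [smul_eq_mul, div_eq_inv_mul]
  · simp [ContinuousLinearMap.toSpanSingleton_apply, mul_comm]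

/-! ### The function `G` -/

private theorem msL_le {d N : ℕ} (hN : 0 < N) {ρ : ℝ} {p : Fin N → E d} {b : Fin N → ℝ} {u : E d}
    {R : ℝ} (h : ∀ i, -(ρ * inner ℝ (p i) u) - b i ≤ R) : ms ρ p b u ≤ R := by
  have : Nonempty (Fin N) := ⟨⟨0, hN⟩⟩
  exact ciSup_le h

private theorem le_msL {d N : ℕ} (ρ : ℝ) (p : Fin N → E d) (b : Fin N → ℝ) (u : E d) (i : Fin N) :
    -(ρ * inner ℝ (p i) u) - b i ≤ ms ρ p b u :=
  le_ciSup (f := fun i => -(ρ * inner ℝ (p i) u) - b i) (Set.finite_range _).bddAbove i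

private theorem msL_abs {d N : ℕ} (hN : 0 < N) (p : Fin N → E d) (b : Fin N → ℝ)
    (u : E d) : |ms 1 p b u| ≤ ‖u‖ * ∑ i, ‖p i‖ + ∑ i, |b i| := by
  have h1 : ∀ i, |-(1 * inner ℝ (p i) u) - b i| ≤ ‖u‖ * ∑ i, ‖p i‖ + ∑ i, |b i| := by
    intro i
    have h2 : |1 * inner ℝ (p i) u| ≤ ‖u‖ * ∑ i, ‖p i‖ := by
      rw [one_mul]
      calc |inner ℝ (p i) u| ≤ ‖p i‖ * ‖u‖ := abs_real_inner_le_norm _ _
        _ = ‖u‖ * ‖p i‖ := mul_comm _ _
        _ ≤ ‖u‖ * ∑ i, ‖p i‖ := mul_le_mul_of_nonneg_left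
          (Finset.single_le_sum (f := fun i => ‖p i‖) (fun i _ => norm_nonneg (p i))
            (Finset.mem_univ i)) (norm_nonneg u)
    have h3 : |b i| ≤ ∑ i, |b i| :=
      Finset.single_le_sum (f := fun i => |b i|) (fun i _ => abs_nonneg (b i)) (Finset.mem_univ i)
    calc |-(1 * inner ℝ (p i) u) - b i| ≤ |-(1 * inner ℝ (p i) u)| + |b i| := abs_sub _ _
      _ = |1 * inner ℝ (p i) u| + |b i| := by rw [abs_neg]
      _ ≤ _ := add_le_add h2 h3
  rw [abs_le]
  constructor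
  · have h2 := le_msL 1 p b u ⟨0, hN⟩
    have h3 := (abs_le.mp (h1 ⟨0, hN⟩)).1
    linarith
  · exact msL_le hN fun i => (abs_le.mp (h1 i)).2

private noncomputable def GG {d N : ℕ} (p : Fin N → E d) (b : Fin N → ℝ) (ε : ℝ) : E d → ℝ :=
  gmax (fun i => ε • p i) (fun i => 2 * ε * b i)

private theorem GG_term {d N : ℕ} (p : Fin N → E d) (b : Fin N → ℝ) (ε : ℝ) (x : E d) (i : Fin N) :
    ‖x - ε • p i‖ ^ 2 - 2 * ε * b i =
      ‖x‖ ^ 2 + 2 * ε * (-(1 * inner ℝ (p i) x) - b i) + ε ^ 2 * ‖p i‖ ^ 2 := by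
  rw [norm_sub_sq_real, real_inner_smul_right, norm_smul, mul_pow, Real.norm_eq_abs, sq_abs,
    real_inner_comm]
  ring

private theorem GG_up {d N : ℕ} (hN : 0 < N) (p : Fin N → E d) (b : Fin N → ℝ) {ε : ℝ}
    (hε : 0 < ε) (x : E d) :
    GG p b ε x ≤ ‖x‖ ^ 2 + 2 * ε * ms 1 p b x + ε ^ 2 * ∑ i, ‖p i‖ ^ 2 := by
  refine (Layer.gmax_le_iff hN _ _ _ _).2 fun i => ?_
  rw [GG_term]
  have h1 := mul_le_mul_of_nonneg_left (le_msL 1 p b x i) (show 0 ≤ 2 * ε by positivity)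
  have h2 : ‖p i‖ ^ 2 ≤ ∑ i, ‖p i‖ ^ 2 :=
    Finset.single_le_sum (f := fun i => ‖p i‖ ^ 2) (fun i _ => sq_nonneg _) (Finset.mem_univ i)
  have h3 := mul_le_mul_of_nonneg_left h2 (sq_nonneg ε)
  linarith

private theorem GG_lo {d N : ℕ} (hN : 0 < N) (p : Fin N → E d) (b : Fin N → ℝ) {ε : ℝ}
    (hε : 0 < ε) (x : E d) : ‖x‖ ^ 2 + 2 * ε * ms 1 p b x ≤ GG p b ε x := by
  have h : ms 1 p b x ≤ (GG p b ε x - ‖x‖ ^ 2) / (2 * ε) := by
    refine msL_le hN fun i => ?_
    rw [le_div_iff₀ (by positivity)]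
    have h1 := Layer.le_gmax (fun i => ε • p i) (fun i => 2 * ε * b i) x i
    rw [GG_term] at h1
    have h2 : 0 ≤ ε ^ 2 * ‖p i‖ ^ 2 := by positivity
    have h3 : GG p b ε x = gmax (fun i => ε • p i) (fun i => 2 * ε * b i) x := rfl
    rw [h3]
    linarith
  rw [le_div_iff₀ (by positivity)] at h
  linarith

/-- the radius outside of which everything vanishes -/
private noncomputable def RR {d : ℕ} (η : ℝ) (v : E d) (c : ℝ) : ℝ := ‖v‖ + (2 + η + 2 * |c|)

private theorem GG_far {d N : ℕ} (p : Fin N → E d) (b : Fin N → ℝ) {ε η : ℝ} (hε : 0 ≤ ε)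
    (hε1 : ε ≤ 1) (hη : 0 < η) (i : Fin N) (x : E d) (hx : RR η (p i) (b i) ≤ ‖x‖) :
    1 + η ≤ GG p b ε x := by
  have h1 := Layer.le_gmax (fun i => ε • p i) (fun i => 2 * ε * b i) x i
  have h2 : ‖x‖ - ‖p i‖ ≤ ‖x - ε • p i‖ := by
    have h3 := norm_sub_norm_le x (ε • p i)
    have h4 : ‖ε • p i‖ ≤ ‖p i‖ := by
      rw [norm_smul, Real.norm_of_nonneg hε]
      exact mul_le_of_le_one_left (norm_nonneg _) hε1
    linarith
  unfold RR at hx
  have h5 : 2 + η + 2 * |b i| ≤ ‖x - ε • p i‖ := by linarith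
  have h6 : 0 ≤ |b i| := abs_nonneg _
  have h7 : 2 + η + 2 * |b i| ≤ ‖x - ε • p i‖ ^ 2 := by nlinarith
  have h8 : 2 * ε * b i ≤ 2 * |b i| := by
    have h9 : ε * b i ≤ |b i| := by
      calc ε * b i ≤ ε * |b i| := mul_le_mul_of_nonneg_left (le_abs_self _) hε
        _ ≤ |b i| := mul_le_of_le_one_left h6 hε1
    linarith
  have h10 : GG p b ε x = gmax (fun i => ε • p i) (fun i => 2 * ε * b i) x := rfl
  rw [h10]
  have h11 : ‖x - ε • p i‖ ^ 2 - 2 * ε * b i ≤ gmax (fun i => ε • p i) (fun i => 2 * ε * b i) x := h1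
  linarith

private theorem GG_ge {d N : ℕ} (p : Fin N → E d) (b : Fin N → ℝ) {ε : ℝ} (hε : 0 ≤ ε)
    (hε1 : ε ≤ 1) (i : Fin N) (x : E d) : -(2 * |b i|) ≤ GG p b ε x := by
  have h1 : ‖x - ε • p i‖ ^ 2 - 2 * ε * b i ≤ gmax (fun i => ε • p i) (fun i => 2 * ε * b i) x :=
    Layer.le_gmax (fun i => ε • p i) (fun i => 2 * ε * b i) x i
  have h6 : 0 ≤ |b i| := abs_nonneg _
  have h9 : ε * b i ≤ |b i| := by
    calc ε * b i ≤ ε * |b i| := mul_le_mul_of_nonneg_left (le_abs_self _) hε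
      _ ≤ |b i| := mul_le_of_le_one_left h6 hε1
  have h10 : GG p b ε x = gmax (fun i => ε • p i) (fun i => 2 * ε * b i) x := rfl
  rw [h10]
  have h11 := sq_nonneg ‖x - ε • p i‖
  linarith

private theorem GG_cont {d N : ℕ} (hN : 0 < N) (p : Fin N → E d) (b : Fin N → ℝ) (ε : ℝ) :
    Continuous (GG p b ε) := Layer.gmax_cont hN _ _

/-! ### The integrals -/

private noncomputable def FF {d : ℕ} (A η : ℝ) (G : E d → ℝ) (x : E d) : ℝ :=
  PP A (1 + η - G x) - PP A (1 - G x)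

private theorem FF_cont {d : ℕ} {A η : ℝ} (hA : 0 < A) {G : E d → ℝ} (hG : Continuous G) :
    Continuous (FF A η G) :=
  ((PP_cont hA).comp (continuous_const.sub hG)).sub ((PP_cont hA).comp (continuous_const.sub hG))

private theorem FF_zero {d : ℕ} {A η : ℝ} (hA : 0 < A) (hη : 0 < η) {G : E d → ℝ} {x : E d}
    (h : 1 + η ≤ G x) : FF A η G x = 0 := by
  unfold FF
  rw [PP_zero hA (by linarith), PP_zero hA (by linarith), sub_zero]

private theorem FF_int {d : ℕ} {A η R : ℝ} (hA : 0 < A) (hη : 0 < η) {G : E d → ℝ}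
    (hG : Continuous G) (hR : ∀ x, R ≤ ‖x‖ → 1 + η ≤ G x) : Integrable (FF A η G) := by
  refine (FF_cont hA hG).integrable_of_hasCompactSupport ?_
  refine HasCompactSupport.intro (isCompact_closedBall (0 : E d) R) fun x hx => ?_
  refine FF_zero hA hη (hR x ?_)
  rw [mem_closedBall_zero_iff] at hx
  push Not at hx
  exact hx.le

/-- Tonelli -/
private theorem FF_swap {d : ℕ} {A η R : ℝ} (hA : 0 < A) (hη : 0 < η) {G : E d → ℝ}
    (hG : Continuous G) (hR : ∀ x, R ≤ ‖x‖ → 1 + η ≤ G x) :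
    Integrable (fun s => ∫ x, dP A (s - G x)) (volume.restrict (Ioc 1 (1 + η))) ∧
    ∫ x, FF A η G x = ∫ s in Ioc 1 (1 + η), ∫ x, dP A (s - G x) := by
  have hc : Continuous (fun z : E d × ℝ => dP A (z.2 - G z.1)) :=
    (dP_cont hA).comp (continuous_snd.sub (hG.comp continuous_fst))
  have h1 : IntegrableOn (fun z : E d × ℝ => dP A (z.2 - G z.1))
      (closedBall (0 : E d) R ×ˢ Icc (1 : ℝ) (1 + η)) (volume.prod volume) :=
    hc.continuousOn.integrableOn_compact ((isCompact_closedBall _ _).prod isCompact_Icc)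
  have h2 : IntegrableOn (fun z : E d × ℝ => dP A (z.2 - G z.1))
      ((univ : Set (E d)) ×ˢ Ioc (1 : ℝ) (1 + η)) (volume.prod volume) := by
    refine IntegrableOn.of_forall_sdiff_eq_zero h1 (MeasurableSet.univ.prod measurableSet_Ioc) ?_
    rintro ⟨x, s⟩ ⟨hs1, hs2⟩
    have hs3 : s ∈ Ioc 1 (1 + η) := hs1.2
    have hx : ¬ x ∈ closedBall (0 : E d) R := fun hx => hs2 ⟨hx, ⟨hs3.1.le, hs3.2⟩⟩
    rw [mem_closedBall_zero_iff] at hx
    push Not at hx
    have := hR x hx.le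
    exact dP_zero hA (by linarith [hs3.2])
  have h3 : Integrable (fun z : E d × ℝ => dP A (z.2 - G z.1))
      ((volume : Measure (E d)).prod (volume.restrict (Ioc 1 (1 + η)))) := by
    have e := Measure.prod_restrict (μ := (volume : Measure (E d))) (ν := (volume : Measure ℝ))
      univ (Ioc 1 (1 + η))
    rw [Measure.restrict_univ] at e
    rw [e]
    exact h2
  refine ⟨h3.integral_prod_right, ?_⟩
  have h4 : ∀ x, FF A η G x = ∫ s in Ioc 1 (1 + η), dP A (s - G x) := by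
    intro x
    unfold FF
    rw [PP_sub hA, ← intervalIntegral.integral_of_le (by linarith),
      intervalIntegral.integral_comp_sub_right (fun s => dP A s)]
  simp only [h4]
  exact integral_integral_swap (f := fun x s => dP A (s - G x)) h3

private theorem set_int {d N : ℕ} (hN : 0 < N) {A : ℝ} (hA : 0 < A) (p : Fin N → E d)
    (a : Fin N → ℝ) (s : ℝ) :
    ∫ x in {x | gmax p a x < s}, (s - gmax p a x) ^ A = ∫ x, dP A (s - gmax p a x) := by
  have hm : MeasurableSet {x | gmax p a x < s} :=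
    measurableSet_lt (Layer.gmax_cont hN p a).measurable measurable_const
  rw [← integral_indicator hm]
  refine integral_congr_ae (Eventually.of_forall fun x => ?_)
  change indicator {x | gmax p a x < s} (fun x => (s - gmax p a x) ^ A) x = dP A (s - gmax p a x)
  by_cases hx : gmax p a x < s
  · rw [indicator_of_mem (show x ∈ {x | gmax p a x < s} from hx)]
    unfold dP
    rw [max_eq_left (by linarith)]
  · rw [indicator_of_notMem (show x ∉ {x | gmax p a x < s} from hx), dP_zero hA]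
    push Not at hx
    linarith

/-- the inequality for `0 < ε ≤ 1` -/
private theorem I_le (h : GPlusStmt) {d N : ℕ} (hd : 3 ≤ d) (hN : 0 < N) {p q : Fin N → E d}
    (hpq : Contr 1 p q) (b : Fin N → ℝ) {η : ℝ} (hη : 0 < η) {ε : ℝ} (hε : 0 < ε) (hε1 : ε ≤ 1) :
    ∫ x, FF ((d : ℝ) / 2 - 1) η (GG p b ε) x ≤ ∫ x, FF ((d : ℝ) / 2 - 1) η (GG q b ε) x := by
  have hA : 0 < (d : ℝ) / 2 - 1 := by
    have : (3 : ℝ) ≤ d := by exact_mod_cast hd
    linarith
  obtain ⟨p1, p2⟩ := FF_swap hA hη (GG_cont hN p b ε) (R := RR η (p ⟨0, hN⟩) (b ⟨0, hN⟩))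
    fun x hx => GG_far p b hε.le hε1 hη ⟨0, hN⟩ x hx
  obtain ⟨q1, q2⟩ := FF_swap hA hη (GG_cont hN q b ε) (R := RR η (q ⟨0, hN⟩) (b ⟨0, hN⟩))
    fun x hx => GG_far q b hε.le hε1 hη ⟨0, hN⟩ x hx
  rw [p2, q2]
  refine integral_mono p1 q1 fun s => ?_
  have hc : Contr 1 (fun i => ε • p i) (fun i => ε • q i) := by
    intro i j
    rw [dist_smul₀, dist_smul₀]
    have := mul_le_mul_of_nonneg_left (hpq i j) (norm_nonneg ε)
    linarith
  have h1 := (h d N (by omega) hN _ _ hc (fun i => 2 * ε * b i) s).2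
  rw [set_int hN hA, set_int hN hA] at h1
  exact h1

/-- the limit of the difference quotients -/
private theorem I_lim {d N : ℕ} (hd : 3 ≤ d) (hN : 0 < N) (p : Fin N → E d)
    (b : Fin N → ℝ) {η : ℝ} (hη : 0 < η) :
    Tendsto (fun n : ℕ => ((∫ x, FF ((d : ℝ) / 2 - 1) η (GG p b (1 / ((n : ℝ) + 1))) x) -
      ∫ x : E d, FF ((d : ℝ) / 2 - 1) η (fun x => ‖x‖ ^ 2) x) / (1 / ((n : ℝ) + 1))) atTop
      (𝓝 (∫ x : E d, -2 * (Wt d η ‖x‖ * ms 1 p b x))) := by
  have hA : 0 < (d : ℝ) / 2 - 1 := by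
    have : (3 : ℝ) ≤ d := by exact_mod_cast hd
    linarith
  set A : ℝ := (d : ℝ) / 2 - 1 with hAdef
  set R : ℝ := RR η (p ⟨0, hN⟩) (b ⟨0, hN⟩) with hRdef
  set S : ℝ := ∑ i, ‖p i‖ ^ 2 with hS
  have hS0 : 0 ≤ S := Finset.sum_nonneg fun i _ => sq_nonneg _
  have hb0 : 0 ≤ |b ⟨0, hN⟩| := abs_nonneg _
  have hR2 : 2 + η ≤ R := by
    rw [hRdef]
    unfold RR
    linarith [norm_nonneg (p ⟨0, hN⟩)]
  have he : ∀ n : ℕ, 0 < 1 / ((n : ℝ) + 1) := fun n => Nat.one_div_pos_of_nat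
  have he1 : ∀ n : ℕ, 1 / ((n : ℝ) + 1) ≤ 1 := fun n => by
    rw [div_le_one (by positivity)]
    linarith [show (0 : ℝ) ≤ n from Nat.cast_nonneg n]
  have het : Tendsto (fun n : ℕ => 1 / ((n : ℝ) + 1)) atTop (𝓝 0) :=
    tendsto_one_div_add_atTop_nhds_zero_nat
  have hsq : ∀ x : E d, R ≤ ‖x‖ → 1 + η ≤ ‖x‖ ^ 2 := fun x hx => by nlinarith
  have hfar : ∀ (n : ℕ) (x : E d), R ≤ ‖x‖ → 1 + η ≤ GG p b (1 / ((n : ℝ) + 1)) x :=
    fun n x hx => GG_far p b (he n).le (he1 n) hη ⟨0, hN⟩ x hx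
  have hc0 : Continuous fun x : E d => ‖x‖ ^ 2 := by fun_prop
  have hi0 : Integrable (FF A η (fun x : E d => ‖x‖ ^ 2)) := FF_int hA hη hc0 hsq
  have hin : ∀ n : ℕ, Integrable (FF A η (GG p b (1 / ((n : ℝ) + 1)))) := fun n =>
    FF_int hA hη (GG_cont hN p b _) (hfar n)
  -- the difference of `G` and its limit
  have hw : ∀ (n : ℕ) (x : E d),
      0 ≤ GG p b (1 / ((n : ℝ) + 1)) x - ‖x‖ ^ 2 - 2 * (1 / ((n : ℝ) + 1)) * ms 1 p b x ∧
      GG p b (1 / ((n : ℝ) + 1)) x - ‖x‖ ^ 2 - 2 * (1 / ((n : ℝ) + 1)) * ms 1 p b x ≤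
        (1 / ((n : ℝ) + 1)) ^ 2 * S := by
    intro n x
    have h1 := GG_up hN p b (he n) x
    have h2 := GG_lo hN p b (he n) x
    constructor <;> linarith
  set K : ℝ := 2 * (dP A (1 + η + 2 * |b ⟨0, hN⟩|) *
    (2 * (R * ∑ i, ‖p i‖ + ∑ i, |b i|) + S)) with hK
  have hlim := tendsto_integral_of_dominated_convergence (μ := (volume : Measure (E d)))
    (F := fun (n : ℕ) x => (FF A η (GG p b (1 / ((n : ℝ) + 1))) x -
      FF A η (fun x => ‖x‖ ^ 2) x) / (1 / ((n : ℝ) + 1)))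
    (f := fun x => -2 * (Wt d η ‖x‖ * ms 1 p b x))
    (indicator (closedBall (0 : E d) R) fun _ => K) ?_ ?_ ?_ ?_
  · refine hlim.congr fun n => ?_
    rw [integral_div, integral_sub (hin n) hi0]
  · intro n
    exact (((hin n).sub hi0).div_const _).aestronglyMeasurable
  · rw [integrable_indicator_iff measurableSet_closedBall]
    exact integrableOn_const measure_closedBall_lt_top.ne
  · intro n
    refine Eventually.of_forall fun x => ?_
    by_cases hx : x ∈ closedBall (0 : E d) R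
    · rw [indicator_of_mem hx, Real.norm_eq_abs, abs_div, abs_of_pos (he n), div_le_iff₀ (he n)]
      rw [mem_closedBall_zero_iff] at hx
      obtain ⟨w1, w2⟩ := hw n x
      have hm := msL_abs hN p b x
      have hm2 : |ms 1 p b x| ≤ R * ∑ i, ‖p i‖ + ∑ i, |b i| := by
        have h1 : 0 ≤ ∑ i, ‖p i‖ := Finset.sum_nonneg fun i _ => norm_nonneg _
        have h2 := mul_le_mul_of_nonneg_right hx h1
        linarith
      have hm3 := abs_le.1 hm2
      generalize hε : 1 / ((n : ℝ) + 1) = ε at *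
      have e0 := he n
      have e1 := he1 n
      rw [hε] at e0 e1
      have hd1 : |GG p b ε x - ‖x‖ ^ 2| ≤ ε * (2 * (R * ∑ i, ‖p i‖ + ∑ i, |b i|) + S) := by
        have e2 : ε ^ 2 * S ≤ ε * S := by nlinarith [mul_nonneg e0.le hS0]
        have e3 := mul_le_mul_of_nonneg_left hm3.1 e0.le
        have e4 := mul_le_mul_of_nonneg_left hm3.2 e0.le
        have e5 : 0 ≤ ε * S := mul_nonneg e0.le hS0
        rw [abs_le]
        constructor <;> nlinarith
      have hge := GG_ge p b e0.le e1 ⟨0, hN⟩ x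
      have hx0 : 0 ≤ ‖x‖ ^ 2 := sq_nonneg _
      have l1 := PP_lip hA (u := 1 + η - ‖x‖ ^ 2) (v := 1 + η - GG p b ε x)
        (U := 1 + η + 2 * |b ⟨0, hN⟩|) (by linarith) (by linarith)
      have l2 := PP_lip hA (u := 1 - ‖x‖ ^ 2) (v := 1 - GG p b ε x)
        (U := 1 + η + 2 * |b ⟨0, hN⟩|) (by linarith) (by linarith)
      have a1 : |1 + η - GG p b ε x - (1 + η - ‖x‖ ^ 2)| = |GG p b ε x - ‖x‖ ^ 2| := by
        rw [← abs_neg]
        congr 1
        ring
      have a2 : |1 - GG p b ε x - (1 - ‖x‖ ^ 2)| = |GG p b ε x - ‖x‖ ^ 2| := by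
        rw [← abs_neg]
        congr 1
        ring
      rw [a1] at l1
      rw [a2] at l2
      have l3 := mul_le_mul_of_nonneg_left hd1 (dP_nonneg A (1 + η + 2 * |b ⟨0, hN⟩|))
      have l4 : FF A η (GG p b ε) x - FF A η (fun x => ‖x‖ ^ 2) x =
          (PP A (1 + η - GG p b ε x) - PP A (1 + η - ‖x‖ ^ 2)) -
            (PP A (1 - GG p b ε x) - PP A (1 - ‖x‖ ^ 2)) := by
        unfold FF
        ring
      rw [l4]
      refine (abs_sub _ _).trans ?_
      rw [hK]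
      nlinarith
    · rw [indicator_of_notMem hx]
      rw [mem_closedBall_zero_iff] at hx
      push Not at hx
      rw [FF_zero hA hη (hfar n x hx.le), FF_zero hA hη (hsq x hx.le)]
      simp
  · refine Eventually.of_forall fun x => ?_
    -- pointwise limit
    have hq : Tendsto (fun n : ℕ => -(GG p b (1 / ((n : ℝ) + 1)) x - ‖x‖ ^ 2) /
        (1 / ((n : ℝ) + 1))) atTop (𝓝 (-(2 * ms 1 p b x))) := by
      have u1 : Tendsto (fun n : ℕ => -(2 * ms 1 p b x) - (1 / ((n : ℝ) + 1)) * S) atTop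
          (𝓝 (-(2 * ms 1 p b x) - 0 * S)) := tendsto_const_nhds.sub (het.mul_const S)
      rw [zero_mul, sub_zero] at u1
      refine tendsto_of_tendsto_of_tendsto_of_le_of_le u1 tendsto_const_nhds ?_ ?_
      · intro n
        change -(2 * ms 1 p b x) - (1 / ((n : ℝ) + 1)) * S ≤ _
        rw [le_div_iff₀ (he n)]
        have := (hw n x).2
        nlinarith
      · intro n
        change -(GG p b (1 / ((n : ℝ) + 1)) x - ‖x‖ ^ 2) / (1 / ((n : ℝ) + 1)) ≤ _
        rw [div_le_iff₀ (he n)]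
        have := (hw n x).1
        nlinarith
    have hw0 : Tendsto (fun n : ℕ => -(GG p b (1 / ((n : ℝ) + 1)) x - ‖x‖ ^ 2)) atTop (𝓝 0) := by
      have := hq.mul het
      rw [mul_zero] at this
      refine this.congr fun n => ?_
      rw [div_mul_cancel₀ _ (he n).ne']
    have t1 := PP_lim hA (1 + η - ‖x‖ ^ 2) _ _ _ hq hw0
    have t2 := PP_lim hA (1 - ‖x‖ ^ 2) _ _ _ hq hw0
    refine ((t1.sub t2).congr fun n => ?_).trans (le_of_eq ?_)
    · unfold FF
      rw [← sub_div]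
      congr 1
      have b1 : 1 + η - ‖x‖ ^ 2 + -(GG p b (1 / ((n : ℝ) + 1)) x - ‖x‖ ^ 2) =
        1 + η - GG p b (1 / ((n : ℝ) + 1)) x := by ring
      have b2 : 1 - ‖x‖ ^ 2 + -(GG p b (1 / ((n : ℝ) + 1)) x - ‖x‖ ^ 2) =
        1 - GG p b (1 / ((n : ℝ) + 1)) x := by ring
      rw [b1, b2]
      ring
    · congr 1
      unfold Wt dP
      rw [← hAdef]
      ring

theorem linStmt (h : GPlusStmt) : LinStmt := by
  intro d N hd hN p q hpq b η hη
  have l1 := I_lim hd hN p b hη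
  have l2 := I_lim hd hN q b hη
  have h1 := le_of_tendsto_of_tendsto' l1 l2 fun n => by
    have he : 0 < 1 / ((n : ℝ) + 1) := Nat.one_div_pos_of_nat
    have he1 : 1 / ((n : ℝ) + 1) ≤ 1 := by
      rw [div_le_one (by positivity)]
      linarith [show (0 : ℝ) ≤ n from Nat.cast_nonneg n]
    have := I_le h hd hN hpq b hη he he1
    exact div_le_div_of_nonneg_right (sub_le_sub_right this _) he.le
  rw [integral_const_mul, integral_const_mul] at h1
  linarith

end Pool.Agent.Lib.MP_0c1c75_co.Ar
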