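import Pool.Agent.Lib.MP_0c1c75_co.Spec4

/-!
MP_0c1c75_co, the size of the constant `Cp d`.
-/

set_option autoImplicit false

open MeasureTheory Set Metric Filter Topology

namespace Pool.Agent.Lib.MP_0c1c75_co

namespace CdBound

/-- the Beta integral -/
lemma bint (d : ℕ) (α : ℝ) (hα : 0 < α) (hd : 0 < d) :
    IntegrableOn (fun w : ℝ => w ^ (α - 1) * (max (1 - w) 0) ^ d) (Ioi 0) ∧
    ∫ w in Ioi (0 : ℝ), w ^ (α - 1) * (max (1 - w) 0) ^ d =
      ProbabilityTheory.beta α ((d : ℝ) + 1) := by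
  have hβ : (0 : ℝ) < (d : ℝ) + 1 := by positivity
  set B := ProbabilityTheory.beta α ((d : ℝ) + 1) with hB
  have hB0 : 0 < B := ProbabilityTheory.beta_pos hα hβ
  set f := ProbabilityTheory.betaPDFReal α ((d : ℝ) + 1) with hf
  have hnn : ∀ x, 0 ≤ f x := by
    intro x
    by_cases hx : 0 < x ∧ x < 1
    · exact (ProbabilityTheory.betaPDFReal_pos hx.1 hx.2 hα hβ).le
    · rw [hf, ProbabilityTheory.betaPDFReal, if_neg hx]
  have hm : Measurable f := ProbabilityTheory.measurable_betaPDFReal α _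
  have hone : ∫⁻ x, ENNReal.ofReal (f x) = 1 := ProbabilityTheory.lintegral_betaPDF_eq_one hα hβ
  have hint : Integrable f := by
    refine ⟨hm.aestronglyMeasurable, ?_⟩
    rw [hasFiniteIntegral_iff_ofReal (Filter.Eventually.of_forall hnn), hone]
    exact ENNReal.one_lt_top
  have hval : ∫ x, f x = 1 := by
    rw [integral_eq_lintegral_of_nonneg_ae (Filter.Eventually.of_forall hnn)
      hm.aestronglyMeasurable, hone]
    simp
  have heq : (Ioi (0 : ℝ)).indicator (fun w : ℝ => w ^ (α - 1) * (max (1 - w) 0) ^ d) =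
      fun w => B * f w := by
    funext w
    by_cases h0 : 0 < w
    · rw [indicator_of_mem (mem_Ioi.2 h0)]
      by_cases h1 : w < 1
      · rw [hf, ProbabilityTheory.betaPDFReal, if_pos ⟨h0, h1⟩, max_eq_left (by linarith),
          add_sub_cancel_right, Real.rpow_natCast, ← hB]
        field_simp
      · rw [hf, ProbabilityTheory.betaPDFReal, if_neg (fun h => h1 h.2), max_eq_right (by linarith),
          zero_pow hd.ne']
        ring
    · rw [indicator_of_notMem (by simpa using h0), hf, ProbabilityTheory.betaPDFReal,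
        if_neg (fun h => h0 h.1)]
      ring
  constructor
  · rw [← integrable_indicator_iff measurableSet_Ioi, heq]
    exact hint.const_mul B
  · rw [← integral_indicator measurableSet_Ioi, heq, integral_const_mul, hval, mul_one]

/-- second order upper bound of the logarithm on `(0, 1]` -/
lemma log_upper {s s₀ : ℝ} (hs : 0 < s) (hs1 : s ≤ 1) (h0 : 0 < s₀) (h01 : s₀ ≤ 1) :
    Real.log s ≤ Real.log s₀ + (s - s₀) / s₀ - (s - s₀) ^ 2 / 2 := by
  set g : ℝ → ℝ := fun x => Real.log x - x / s₀ + (x - s₀) ^ 2 / 2 with hg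
  have hder : ∀ x : ℝ, 0 < x → HasDerivAt g (x⁻¹ - 1 / s₀ + (x - s₀)) x := by
    intro x hx
    have h1 := Real.hasDerivAt_log hx.ne'
    have h2 : HasDerivAt (fun x : ℝ => x / s₀) (1 / s₀) x := (hasDerivAt_id x).div_const s₀
    have h3 : HasDerivAt (fun x : ℝ => (x - s₀) ^ 2 / 2) (x - s₀) x := by
      have := (((hasDerivAt_id x).sub_const s₀).pow 2).div_const 2
      refine this.congr_deriv ?_
      simp
    exact (h1.sub h2).add h3
  have hval : ∀ x : ℝ, 0 < x → x⁻¹ - 1 / s₀ + (x - s₀) = (x - s₀) * (1 - 1 / (x * s₀)) := by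
    intro x hx
    field_simp
    ring
  have key : g s ≤ g s₀ := by
    rcases le_total s s₀ with h | h
    · have hmono : MonotoneOn g (Icc s s₀) := by
        refine monotoneOn_of_deriv_nonneg (convex_Icc _ _) ?_ ?_ ?_
        · intro x hx
          exact (hder x (lt_of_lt_of_le hs hx.1)).continuousAt.continuousWithinAt
        · intro x hx
          rw [interior_Icc] at hx
          exact (hder x (hs.trans hx.1)).differentiableAt.differentiableWithinAt
        · intro x hx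
          rw [interior_Icc] at hx
          have hx0 : 0 < x := hs.trans hx.1
          rw [(hder x hx0).deriv, hval x hx0]
          refine mul_nonneg_of_nonpos_of_nonpos (by linarith [hx.2]) ?_
          have hle : x * s₀ ≤ 1 := by nlinarith [hx.2]
          have hpos : 0 < x * s₀ := by positivity
          rw [sub_nonpos, le_div_iff₀ hpos]
          linarith
      exact hmono (left_mem_Icc.2 h) (right_mem_Icc.2 h) h
    · have hanti : AntitoneOn g (Icc s₀ s) := by
        refine antitoneOn_of_deriv_nonpos (convex_Icc _ _) ?_ ?_ ?_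
        · intro x hx
          exact (hder x (lt_of_lt_of_le h0 hx.1)).continuousAt.continuousWithinAt
        · intro x hx
          rw [interior_Icc] at hx
          exact (hder x (h0.trans hx.1)).differentiableAt.differentiableWithinAt
        · intro x hx
          rw [interior_Icc] at hx
          have hx0 : 0 < x := h0.trans hx.1
          rw [(hder x hx0).deriv, hval x hx0]
          refine mul_nonpos_of_nonneg_of_nonpos (by linarith [hx.1]) ?_
          have hle : x * s₀ ≤ 1 := by nlinarith [hx.2]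
          have hpos : 0 < x * s₀ := by positivity
          rw [sub_nonpos, le_div_iff₀ hpos]
          linarith
      exact hanti (left_mem_Icc.2 h) (right_mem_Icc.2 h) h
  have e1 : g s = Real.log s - s / s₀ + (s - s₀) ^ 2 / 2 := rfl
  have e2 : g s₀ = Real.log s₀ - 1 := by
    simp [hg, h0.ne']
  rw [e1, e2] at key
  have e3 : (s - s₀) / s₀ = s / s₀ - 1 := by field_simp
  rw [e3]
  linarith

/-- the maximal value of the Beta density -/
noncomputable def mx (d : ℕ) : ℝ :=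
  ((d : ℝ) / 2 - 1) ^ ((d : ℝ) / 2 - 1) * (d : ℝ) ^ d /
    (3 * (d : ℝ) / 2 - 1) ^ (3 * (d : ℝ) / 2 - 1)

/-- the Beta density lies below a Gaussian -/
lemma dens_le (d : ℕ) (hd : 3 ≤ d) (w : ℝ) (hw : 0 < w) :
    w ^ ((d : ℝ) / 2 - 1) * (max (1 - w) 0) ^ d ≤
      mx d * Real.exp (-((d : ℝ) / 2) *
        (w - ((d : ℝ) / 2 - 1) / (3 * (d : ℝ) / 2 - 1)) ^ 2) := by
  have hd' : (3 : ℝ) ≤ d := by exact_mod_cast hd
  have ha : (0 : ℝ) < (d : ℝ) / 2 - 1 := by linarith
  have hb : (0 : ℝ) < 3 * (d : ℝ) / 2 - 1 := by linarith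
  have hdd : (0 : ℝ) < d := by linarith
  have hm : 0 < mx d := by unfold mx; positivity
  rcases le_or_gt 1 w with h1 | h1
  · rw [max_eq_right (by linarith), zero_pow (by omega), mul_zero]
    positivity
  rw [max_eq_left (by linarith)]
  have h1w : 0 < 1 - w := by linarith
  set a : ℝ := (d : ℝ) / 2 - 1 with haa
  set w₀ : ℝ := a / (3 * (d : ℝ) / 2 - 1) with hw0
  have hw0p : 0 < w₀ := div_pos ha hb
  have hbb : 3 * (d : ℝ) / 2 - 1 = a + d := by rw [haa]; ring
  have h1w0 : 1 - w₀ = d / (a + d) := by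
    rw [hw0, hbb]; field_simp; ring
  have h1w0p : 0 < 1 - w₀ := by rw [h1w0]; positivity
  have hl1 := log_upper (s := 1 - w) (s₀ := 1 - w₀) h1w (by linarith) h1w0p (by linarith)
  have hl2 : Real.log w ≤ Real.log w₀ + (w - w₀) / w₀ := by
    have h := Real.log_le_sub_one_of_pos (x := w / w₀) (div_pos hw hw0p)
    rw [Real.log_div hw.ne' hw0p.ne'] at h
    have e : w / w₀ - 1 = (w - w₀) / w₀ := by field_simp
    linarith [h, e]
  have hlogm : Real.log (mx d) = a * Real.log w₀ + d * Real.log (1 - w₀) := by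
    have l1 : Real.log w₀ = Real.log a - Real.log (a + d) := by
      rw [hw0, hbb, Real.log_div (by positivity) (by positivity)]
    have l2 : Real.log (1 - w₀) = Real.log d - Real.log (a + d) := by
      rw [h1w0, Real.log_div (by positivity) (by positivity)]
    rw [l1, l2]
    unfold mx
    rw [← haa, hbb, Real.log_div (by positivity) (by positivity),
      Real.log_mul (by positivity) (by positivity), Real.log_rpow ha, Real.log_pow,
      Real.log_rpow (by positivity)]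
    ring
  have hlhs : 0 < w ^ a * (1 - w) ^ d := by positivity
  rw [← Real.log_le_log_iff hlhs (by positivity), Real.log_mul (by positivity) (by positivity),
    Real.log_rpow hw, Real.log_pow, Real.log_mul hm.ne' (Real.exp_pos _).ne', Real.log_exp, hlogm]
  have c1 : a * ((w - w₀) / w₀) = (a + d) * (w - w₀) := by
    rw [hw0, hbb]; field_simp
  have c2 : (d : ℝ) * (((1 - w) - (1 - w₀)) / (1 - w₀)) = -((a + d) * (w - w₀)) := by
    have e0 : (1 - w) - (1 - w₀) = -(w - w₀) := by ring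
    rw [e0]
    have e1 : ∀ x : ℝ, (d : ℝ) * (-x / (1 - w₀)) = -((a + d) * x) := by
      intro x
      rw [h1w0]; field_simp
    exact e1 _
  have k1 := mul_le_mul_of_nonneg_left hl2 ha.le
  have k2 := mul_le_mul_of_nonneg_left hl1 hdd.le
  have e2 : (d : ℝ) * (Real.log (1 - w₀) + ((1 - w) - (1 - w₀)) / (1 - w₀) -
      ((1 - w) - (1 - w₀)) ^ 2 / 2) = d * Real.log (1 - w₀) +
      (d : ℝ) * (((1 - w) - (1 - w₀)) / (1 - w₀)) - d / 2 * (w - w₀) ^ 2 := by ring
  rw [e2, c2] at k2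
  rw [mul_add, c1] at k1
  linarith

/-- `Cp d` through the Beta function -/
lemma Cp_eq (d : ℕ) (hd : 3 ≤ d) :
    Cp d = 3 * (d : ℝ) / 2 * ProbabilityTheory.beta ((d : ℝ) / 2) ((d : ℝ) + 1) / mx d := by
  have hd' : (3 : ℝ) ≤ d := by exact_mod_cast hd
  have ha : (0 : ℝ) < (d : ℝ) / 2 - 1 := by linarith
  have hb : (0 : ℝ) < 3 * (d : ℝ) / 2 - 1 := by linarith
  have hdd : (0 : ℝ) < d := by linarith
  unfold Cp mx ProbabilityTheory.beta
  have e : (d : ℝ) / 2 + ((d : ℝ) + 1) = 3 * (d : ℝ) / 2 + 1 := by ring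
  rw [e, Real.Gamma_add_one (by positivity : 3 * (d : ℝ) / 2 ≠ 0), Real.Gamma_nat_eq_factorial]
  have hG : Real.Gamma (3 * (d : ℝ) / 2) ≠ 0 := (Real.Gamma_pos_of_pos (by positivity)).ne'
  have h1 : ((d : ℝ) / 2 - 1) ^ ((d : ℝ) / 2 - 1) ≠ 0 := (Real.rpow_pos_of_pos ha _).ne'
  have h2 : (3 * (d : ℝ) / 2 - 1) ^ (3 * (d : ℝ) / 2 - 1) ≠ 0 := (Real.rpow_pos_of_pos hb _).ne'
  have h3 : (d : ℝ) ^ d ≠ 0 := by positivity
  generalize ((d : ℝ) / 2 - 1) ^ ((d : ℝ) / 2 - 1) = A at h1 ⊢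
  generalize (3 * (d : ℝ) / 2 - 1) ^ (3 * (d : ℝ) / 2 - 1) = B at h2 ⊢
  generalize Real.Gamma (3 * (d : ℝ) / 2) = C at hG ⊢
  generalize Real.Gamma ((d : ℝ) / 2) = D
  generalize (d : ℝ) ^ d = F at h3 ⊢
  field_simp

lemma beta_le (d : ℕ) (hd : 3 ≤ d) :
    ProbabilityTheory.beta ((d : ℝ) / 2) ((d : ℝ) + 1) ≤
      mx d * Real.sqrt (Real.pi / ((d : ℝ) / 2)) := by
  have hd' : (3 : ℝ) ≤ d := by exact_mod_cast hd
  have hdd : (0 : ℝ) < d := by linarith
  obtain ⟨h1, h2⟩ := bint d ((d : ℝ) / 2) (by positivity) (by omega)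
  have ha : (0 : ℝ) < (d : ℝ) / 2 - 1 := by linarith
  have hb : (0 : ℝ) < 3 * (d : ℝ) / 2 - 1 := by linarith
  have hm : 0 < mx d := by unfold mx; positivity
  set w₀ : ℝ := ((d : ℝ) / 2 - 1) / (3 * (d : ℝ) / 2 - 1) with hw0
  have hgi : Integrable (fun w : ℝ => mx d * Real.exp (-((d : ℝ) / 2) * (w - w₀) ^ 2)) :=
    ((integrable_exp_neg_mul_sq (by positivity : 0 < (d : ℝ) / 2)).comp_sub_right w₀).const_mul _
  rw [← h2]
  calc ∫ w in Ioi (0 : ℝ), w ^ ((d : ℝ) / 2 - 1) * (max (1 - w) 0) ^ d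
      ≤ ∫ w in Ioi (0 : ℝ), mx d * Real.exp (-((d : ℝ) / 2) * (w - w₀) ^ 2) := by
        refine setIntegral_mono_on h1 hgi.integrableOn measurableSet_Ioi ?_
        intro w hw
        exact dens_le d hd w hw
    _ ≤ ∫ w : ℝ, mx d * Real.exp (-((d : ℝ) / 2) * (w - w₀) ^ 2) := by
        refine setIntegral_le_integral hgi (Eventually.of_forall fun w => ?_)
        positivity
    _ = mx d * Real.sqrt (Real.pi / ((d : ℝ) / 2)) := by
        rw [integral_const_mul,
          integral_sub_right_eq_self (fun w : ℝ => Real.exp (-((d : ℝ) / 2) * w ^ 2)) w₀,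
          integral_gaussian]

end CdBound

theorem Cp_two : Cp 2 = 1 := by
  unfold Cp
  have e1 : ((2 : ℕ) : ℝ) / 2 = 1 := by norm_num
  have e2 : 3 * ((2 : ℕ) : ℝ) / 2 = 3 := by norm_num
  rw [e1, e2]
  have e3 : Real.Gamma 3 = 2 := by
    have h := Real.Gamma_nat_eq_factorial 2
    have h' : ((2 : ℕ) : ℝ) + 1 = 3 := by norm_num
    rw [h'] at h
    rw [h]
    norm_num [Nat.factorial]
  rw [e3, Real.Gamma_one]
  norm_num [Nat.factorial]

theorem Cp_three : Cp 3 ≤ 1.93 := by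
  unfold Cp
  have e1 : ((3 : ℕ) : ℝ) / 2 = 3 / 2 := by norm_num
  have e2 : 3 * ((3 : ℕ) : ℝ) / 2 = 9 / 2 := by norm_num
  rw [e1, e2]
  have g1 : Real.Gamma (9 / 2) = 105 / 8 * Real.Gamma (3 / 2) := by
    have h1 : Real.Gamma (9 / 2) = 7 / 2 * Real.Gamma (7 / 2) := by
      rw [← Real.Gamma_add_one (by norm_num)]; norm_num
    have h2 : Real.Gamma (7 / 2) = 5 / 2 * Real.Gamma (5 / 2) := by
      rw [← Real.Gamma_add_one (by norm_num)]; norm_num
    have h3 : Real.Gamma (5 / 2) = 3 / 2 * Real.Gamma (3 / 2) := by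
      rw [← Real.Gamma_add_one (by norm_num)]; norm_num
    rw [h1, h2, h3]; ring
  have hG : 0 < Real.Gamma (3 / 2) := Real.Gamma_pos_of_pos (by norm_num)
  have p1 : (9 / 2 - 1 : ℝ) ^ (9 / 2 - 1 : ℝ) = (7 / 2) ^ 3 * Real.sqrt (7 / 2) := by
    have : (9 / 2 - 1 : ℝ) = 7 / 2 := by norm_num
    rw [this, show (7 / 2 : ℝ) = 3 + 1 / 2 by norm_num, Real.rpow_add (by norm_num),
      Real.sqrt_eq_rpow]
    congr 1
    norm_num
  have p2 : (3 / 2 - 1 : ℝ) ^ (3 / 2 - 1 : ℝ) = Real.sqrt (1 / 2) := by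
    rw [Real.sqrt_eq_rpow]; norm_num
  rw [g1, p1, p2]
  have hs : Real.sqrt (7 / 2) = Real.sqrt 7 * Real.sqrt (1 / 2) := by
    rw [← Real.sqrt_mul (by norm_num)]; norm_num
  have hh : 0 < Real.sqrt (1 / 2) := Real.sqrt_pos.2 (by norm_num)
  have h7 : Real.sqrt 7 ≤ 2.6458 := by
    rw [Real.sqrt_le_left (by norm_num)]; norm_num
  have hfac : ((Nat.factorial 3 : ℕ) : ℝ) = 6 := by norm_num [Nat.factorial]
  rw [hs, hfac]
  have : Real.Gamma (3 / 2) * 6 / (105 / 8 * Real.Gamma (3 / 2)) *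
      ((7 / 2) ^ 3 * (Real.sqrt 7 * Real.sqrt (1 / 2)) / (((3 : ℕ) : ℝ) ^ 3 * Real.sqrt (1 / 2))) =
      16 / 35 * (7 / 2) ^ 3 / 27 * Real.sqrt 7 := by
    push_cast
    field_simp
    ring
  rw [this]
  nlinarith [h7]

theorem Cp_le (d : ℕ) (hd : 2 ≤ d) : Cp d ≤ 4 * Real.sqrt d := by
  rcases Nat.lt_or_ge d 3 with h | h
  · have h2 : d = 2 := by omega
    subst h2
    rw [Cp_two]
    have : (1 : ℝ) ≤ Real.sqrt ((2 : ℕ) : ℝ) := by
      rw [Real.one_le_sqrt]; norm_num
    linarith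
  · have hd' : (3 : ℝ) ≤ d := by exact_mod_cast h
    have hdd : (0 : ℝ) < d := by linarith
    have ha : (0 : ℝ) < (d : ℝ) / 2 - 1 := by linarith
    have hb : (0 : ℝ) < 3 * (d : ℝ) / 2 - 1 := by linarith
    have hm : 0 < CdBound.mx d := by unfold CdBound.mx; positivity
    rw [CdBound.Cp_eq d h, div_le_iff₀ hm]
    have hB := CdBound.beta_le d h
    have h1 : 3 * (d : ℝ) / 2 * ProbabilityTheory.beta ((d : ℝ) / 2) ((d : ℝ) + 1) ≤
        3 * (d : ℝ) / 2 * (CdBound.mx d * Real.sqrt (Real.pi / ((d : ℝ) / 2))) :=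
      mul_le_mul_of_nonneg_left hB (by positivity)
    refine h1.trans ?_
    have h2 : 3 * (d : ℝ) / 2 * Real.sqrt (Real.pi / ((d : ℝ) / 2)) ≤ 4 * Real.sqrt d := by
      have hsq : 3 * (d : ℝ) / 2 * Real.sqrt (Real.pi / ((d : ℝ) / 2)) =
          Real.sqrt ((3 * (d : ℝ) / 2) ^ 2 * (Real.pi / ((d : ℝ) / 2))) := by
        rw [Real.sqrt_mul (by positivity), Real.sqrt_sq (by positivity)]
      have hsq2 : 4 * Real.sqrt d = Real.sqrt (4 ^ 2 * d) := by
        rw [Real.sqrt_mul (by positivity), Real.sqrt_sq (by positivity)]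
      rw [hsq, hsq2]
      apply Real.sqrt_le_sqrt
      have : (3 * (d : ℝ) / 2) ^ 2 * (Real.pi / ((d : ℝ) / 2)) = 9 / 2 * Real.pi * d := by
        field_simp; ring
      rw [this]
      have := Real.pi_lt_d2
      nlinarith
    calc 3 * (d : ℝ) / 2 * (CdBound.mx d * Real.sqrt (Real.pi / ((d : ℝ) / 2)))
        = (3 * (d : ℝ) / 2 * Real.sqrt (Real.pi / ((d : ℝ) / 2))) * CdBound.mx d := by ring
      _ ≤ 4 * Real.sqrt d * CdBound.mx d := mul_le_mul_of_nonneg_right h2 hm.le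

end Pool.Agent.Lib.MP_0c1c75_co
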