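import Pool.Agent.Lib.MP_0c1c75_co.ArSpec
import Pool.Agent.Lib.MP_0c1c75_co.CdBound

/-!
MP_0c1c75_co, module Main: Theorem AR from the lemmas.
-/

set_option autoImplicit false

open MeasureTheory Set Metric

namespace Pool.Agent.Lib.MP_0c1c75_co.Ar

/-- the inequality for the volume radii, `d ≥ 3`, `0 < c` -/
private theorem main_vr (h1 : BasStmt) (h2 : SFStmt) (h3 : UryStmt) (h4 : RadStmt)
    (h5 : CircStmt) (h6 : Jmp.KirStmt) (h7 : VrBasicStmt) {d N : ℕ} (hd : 3 ≤ d) (hN : 0 < N)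
    {c : ℝ} (hc0 : 0 < c) (hc1 : c < 1)
    (hc : 2 * ((d : ℝ) - 1) ^ 2 * ((d : ℝ) + 2) * c ^ 2 < (d : ℝ) ^ 3 * (1 - c ^ 2) ^ 2)
    (p q : Fin N → E d) (hpq : Contr c p q) (r : Fin N → ℝ)
    (hne : (⋂ i, closedBall (p i) (r i)).Nonempty) :
    vr (⋂ i, closedBall (p i) (r i)) ≤ vr (⋂ i, closedBall (q i) (r i)) := by
  have hd0 : 0 < d := by omega
  have : Nonempty (Fin N) := ⟨⟨0, hN⟩⟩
  have hr : ∀ i, 0 ≤ r i := by
    intro i
    obtain ⟨x, hx⟩ := hne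
    have := mem_iInter.mp hx i
    rw [mem_closedBall] at this
    exact dist_nonneg.trans this
  obtain ⟨o, t, ht0, hot, hsub⟩ := h5 d N hN p r hr hne
  -- the contraction `q' = q / c`
  have hq' : Contr 1 p (fun i => c⁻¹ • q i) := by
    intro i j
    have e : dist (c⁻¹ • q i) (c⁻¹ • q j) = c⁻¹ * dist (q i) (q j) := by
      rw [dist_eq_norm, ← smul_sub, norm_smul, Real.norm_eq_abs, abs_of_pos (inv_pos.mpr hc0),
        ← dist_eq_norm]
    show dist (c⁻¹ • q i) (c⁻¹ • q j) ≤ 1 * dist (p i) (p j)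
    rw [e, one_mul]
    have h := mul_le_mul_of_nonneg_left (hpq i j) (inv_pos.mpr hc0).le
    rw [← mul_assoc, inv_mul_cancel₀ hc0.ne', one_mul] at h
    exact h
  obtain ⟨o₁, ho₁⟩ := h6 d N hd0 hN p (fun i => c⁻¹ • q i) hq' o
  have hcq : ∀ i, c • c⁻¹ • q i = q i := by
    intro i
    rw [smul_smul, mul_inv_cancel₀ hc0.ne', one_smul]
  have hqo : ∀ i, ‖q i - c • o₁‖ ≤ c * ‖p i - o‖ := by
    intro i
    have e : q i - c • o₁ = c • (c⁻¹ • q i - o₁) := by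
      rw [smul_sub, hcq i]
    rw [e, norm_smul, Real.norm_eq_abs, abs_of_pos hc0]
    exact mul_le_mul_of_nonneg_left (ho₁ i) hc0.le
  have hc2 : 0 < 1 - c ^ 2 := by nlinarith
  -- the radial lower bound
  have hrad := h4 d N hd0 hN q (c • o₁) r (fun i => (1 - c ^ 2) * r i + c ^ 2 * t) hr (by
    intro i
    have := mul_nonneg hc2.le (hr i)
    have := mul_nonneg (sq_nonneg c) ht0
    show 0 ≤ (1 - c ^ 2) * r i + c ^ 2 * t
    linarith) (by
    intro i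
    show ‖q i - c • o₁‖ ^ 2 + ((1 - c ^ 2) * r i + c ^ 2 * t) ^ 2 ≤ r i ^ 2
    have e1 : ‖q i - c • o₁‖ ^ 2 ≤ c ^ 2 * ‖p i - o‖ ^ 2 := by
      rw [← mul_pow]
      exact pow_le_pow_left₀ (norm_nonneg _) (hqo i) 2
    have e2 := mul_le_mul_of_nonneg_left (hot i) (sq_nonneg c)
    have e3 : (1 - c ^ 2) * r i ^ 2 + c ^ 2 * t ^ 2 - ((1 - c ^ 2) * r i + c ^ 2 * t) ^ 2 =
        (c ^ 2 * (1 - c ^ 2)) * (r i - t) ^ 2 := by ring
    have e4 : 0 ≤ (c ^ 2 * (1 - c ^ 2)) * (r i - t) ^ 2 := by positivity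
    nlinarith)
  -- the smallest radius
  obtain ⟨i₀, hi₀⟩ := Finite.exists_min r
  obtain ⟨-, -, -, ha4, -, -, -⟩ := h1 d N hd0 hN (fun i => c • c⁻¹ • q i)
    (fun i => (1 - c ^ 2) * (r i - r i₀))
  obtain ⟨-, -, -, -, ha5, -, -⟩ := h1 d N hd0 hN (fun i => c⁻¹ • q i)
    (fun i => (1 - c ^ 2) * (r i - r i₀))
  obtain ⟨-, -, -, -, -, ha6, -⟩ := h1 d N hd0 hN (fun i => c⁻¹ • q i) (fun i => r i - r i₀)
  obtain ⟨-, -, -, hb4, -, -, -⟩ := h1 d N hd0 hN p (fun i => r i - r i₀)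
  have hq : (fun i => c • c⁻¹ • q i) = q := funext hcq
  have hA : aw 1 q (fun i => (1 - c ^ 2) * r i + c ^ 2 * t) =
      (1 - c ^ 2) * aw (c / (1 - c ^ 2)) (fun i => c⁻¹ • q i) (fun i => r i - r i₀) -
        ((1 - c ^ 2) * r i₀ + c ^ 2 * t) := by
    have e1 := ha4 1 ((1 - c ^ 2) * r i₀ + c ^ 2 * t)
    have e2 := ha5 1 c
    have e3 := ha6 (c / (1 - c ^ 2)) (1 - c ^ 2) hc2.le
    rw [mul_div_cancel₀ c hc2.ne'] at e3
    rw [e2, one_mul, e3, hq] at e1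
    rw [← e1]
    congr 1
    funext i
    ring
  have hB : aw 1 p r = aw 1 p (fun i => r i - r i₀) - r i₀ := by
    rw [← hb4 1 (r i₀)]
    congr 1
    funext i
    ring
  have hU := h3 d N hd0 hN p r hne
  have hS := h2 d N hd p (fun i => c⁻¹ • q i) hq' (fun i => r i - r i₀) i₀
    (fun i => sub_nonneg.mpr (hi₀ i)) (sub_self _) (c / (1 - c ^ 2))
    (div_nonneg hc0.le hc2.le) (by
      rw [div_pow, ← mul_div_assoc, div_lt_iff₀ (pow_pos hc2 2)]
      exact hc)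
  obtain ⟨hmono, hball, -, -, -, -⟩ := h7 d hd0
  have hT : vr (⋂ i, closedBall (p i) (r i)) ≤ t := by
    have := hmono _ _ hsub measure_closedBall_lt_top.ne
    rw [hball o t ht0] at this
    exact this
  rw [hA] at hrad
  rw [hB] at hU
  have k1 := mul_le_mul_of_nonneg_left hS hc2.le
  have k2 := mul_le_mul_of_nonneg_left hU hc2.le
  have k3 := mul_le_mul_of_nonneg_left hT (sq_nonneg c)
  linarith

/-- `d ≥ 3`, `0 < c` -/
private theorem main_pos (h1 : BasStmt) (h2 : SFStmt) (h3 : UryStmt) (h4 : RadStmt)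
    (h5 : CircStmt) (h6 : Jmp.KirStmt) (h7 : VrBasicStmt) {d N : ℕ} (hd : 3 ≤ d)
    {c : ℝ} (hc0 : 0 < c) (hc1 : c < 1)
    (hc : 2 * ((d : ℝ) - 1) ^ 2 * ((d : ℝ) + 2) * c ^ 2 < (d : ℝ) ^ 3 * (1 - c ^ 2) ^ 2)
    (p q : Fin N → E d) (hpq : Contr c p q) (r : Fin N → ℝ) :
    volume (⋂ i, closedBall (p i) (r i)) ≤ volume (⋂ i, closedBall (q i) (r i)) := by
  rcases Nat.eq_zero_or_pos N with hN | hN
  · subst hN
    rw [iInter_of_empty, iInter_of_empty]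
  rcases (⋂ i, closedBall (p i) (r i)).eq_empty_or_nonempty with he | hne
  · rw [he, measure_empty]
    exact zero_le
  have hv := main_vr h1 h2 h3 h4 h5 h6 h7 hd hN hc0 hc1 hc p q hpq r hne
  obtain ⟨-, -, -, hv0, hvol, -⟩ := h7 d (by omega)
  have hfin : ∀ x : Fin N → E d, volume (⋂ i, closedBall (x i) (r i)) ≠ ⊤ := by
    intro x
    have : (⋂ i, closedBall (x i) (r i)) ⊆ closedBall (x ⟨0, hN⟩) (r ⟨0, hN⟩) :=
      iInter_subset (fun i => closedBall (x i) (r i)) ⟨0, hN⟩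
    exact ((measure_mono this).trans_lt measure_closedBall_lt_top).ne
  rw [← ENNReal.toReal_le_toReal (hfin p) (hfin q), hvol (⋂ i, closedBall (p i) (r i)),
    hvol (⋂ i, closedBall (q i) (r i))]
  exact mul_le_mul_of_nonneg_left (pow_le_pow_left₀ (hv0 _) hv d) ENNReal.toReal_nonneg

theorem mainStmt (h1 : BasStmt) (h2 : SFStmt) (h3 : UryStmt) (h4 : RadStmt) (h5 : CircStmt)
    (h6 : Jmp.KirStmt) (h7 : VrBasicStmt) (h8 : Thm2pStmt) : MainStmt := by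
  intro d N hd c hc0 hc1 hc p q hpq r
  rcases Nat.lt_or_ge d 3 with hd2 | hd3
  · have hd' : d = 2 := by omega
    subst hd'
    have hpq1 : Contr 1 p q := by
      intro i j
      refine (hpq i j).trans ?_
      exact mul_le_mul_of_nonneg_right hc1.le dist_nonneg
    have h := h8 2 N le_rfl p q hpq1 r
    rw [Cp_two, ENNReal.ofReal_one, one_mul] at h
    exact h
  · rcases hc0.eq_or_lt with h0 | h0
    · subst h0
      have hd3' : (3 : ℝ) ≤ d := by exact_mod_cast hd3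
      refine main_pos h1 h2 h3 h4 h5 h6 h7 hd3 (c := 1 / 10) (by norm_num) (by norm_num) ?_ p q ?_ r
      · have e1 : ((d : ℝ) - 1) ^ 2 * ((d : ℝ) + 2) = (d : ℝ) ^ 3 - 3 * d + 2 := by ring
        have e2 : (0 : ℝ) < (d : ℝ) ^ 3 := by positivity
        nlinarith
      · intro i j
        refine (hpq i j).trans ?_
        rw [zero_mul]
        positivity
    · exact main_pos h1 h2 h3 h4 h5 h6 h7 hd3 h0 hc1 hc p q hpq r

end Pool.Agent.Lib.MP_0c1c75_co.Ar
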