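import Pool.Agent.Lib.MP_0c1c75_co.ArSpec

/-!
# ArMom: moments of the weight
-/

set_option autoImplicit false

open MeasureTheory Set Metric

namespace Pool.Agent.Lib.MP_0c1c75_co.Ar

/-- The function `(v - ρ²)_+^(d/2-1)`. -/
private noncomputable def P (d : ℕ) (v ρ : ℝ) : ℝ := (max (v - ρ ^ 2) 0) ^ ((d : ℝ) / 2 - 1)

private theorem alpha_pos {d : ℕ} (hd : 3 ≤ d) : (0 : ℝ) < (d : ℝ) / 2 - 1 := by
  have : (3 : ℝ) ≤ d := by exact_mod_cast hd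
  linarith

private theorem Wt_eq (d : ℕ) (η ρ : ℝ) : Wt d η ρ = P d (1 + η) ρ - P d 1 ρ := rfl

private theorem P_cont {d : ℕ} (hd : 3 ≤ d) (v : ℝ) : Continuous (P d v) := by
  unfold P
  refine Continuous.rpow_const (by fun_prop) fun x => Or.inr (alpha_pos hd).le

private theorem P_zero {d : ℕ} (hd : 3 ≤ d) {v ρ : ℝ} (h : v ≤ ρ ^ 2) : P d v ρ = 0 := by
  unfold P
  rw [max_eq_right (by linarith), Real.zero_rpow (alpha_pos hd).ne']

private theorem P_nonneg (d : ℕ) (v ρ : ℝ) : 0 ≤ P d v ρ :=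
  Real.rpow_nonneg (le_max_right _ _) _

private theorem P_mono {d : ℕ} (hd : 3 ≤ d) {v v' : ℝ} (h : v ≤ v') (ρ : ℝ) : P d v ρ ≤ P d v' ρ := by
  unfold P
  exact Real.rpow_le_rpow (le_max_right _ _) (max_le_max (by linarith) le_rfl) (alpha_pos hd).le

private theorem P_supp {d : ℕ} (hd : 3 ≤ d) (v : ℝ) (g : ℝ → ℝ) :
    HasCompactSupport (fun x : E d => P d v ‖x‖ * g ‖x‖) := by
  refine HasCompactSupport.intro (isCompact_closedBall (0 : E d) (|v| + 1)) fun x hx => ?_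
  rw [mem_closedBall_zero_iff, not_le] at hx
  have h1 : 0 ≤ |v| := abs_nonneg v
  have h2 : v ≤ ‖x‖ ^ 2 := by
    have h3 := le_abs_self v
    nlinarith
  simp only [P_zero hd h2, zero_mul]

private theorem P_int {d : ℕ} (hd : 3 ≤ d) (v : ℝ) {g : ℝ → ℝ} (hg : Continuous g) :
    Integrable (fun x : E d => P d v ‖x‖ * g ‖x‖) := by
  refine Continuous.integrable_of_hasCompactSupport ?_ (P_supp hd v g)
  exact ((P_cont hd v).comp continuous_norm).mul (hg.comp continuous_norm)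

/-- Scaling. -/
private theorem P_scale {d : ℕ} (hd : 3 ≤ d) {v : ℝ} (hv : 0 < v) (i : ℕ) :
    ∫ x : E d, P d v ‖x‖ * ‖x‖ ^ (2 * i) =
      v ^ (d - 1 + i) * ∫ x : E d, P d 1 ‖x‖ * ‖x‖ ^ (2 * i) := by
  have h1 := MeasureTheory.Measure.integral_comp_smul (volume : Measure (E d))
    (fun x : E d => P d v ‖x‖ * ‖x‖ ^ (2 * i)) (√v)
  have hs : 0 < √v := Real.sqrt_pos.2 hv
  have hs2 : √v ^ 2 = v := Real.sq_sqrt hv.le
  have h2 : ∀ x : E d, P d v ‖√v • x‖ * ‖√v • x‖ ^ (2 * i) =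
      v ^ ((d : ℝ) / 2 - 1) * v ^ i * (P d 1 ‖x‖ * ‖x‖ ^ (2 * i)) := by
    intro x
    have e1 : ‖√v • x‖ = √v * ‖x‖ := by rw [norm_smul, Real.norm_of_nonneg hs.le]
    have e2 : P d v (√v * ‖x‖) = v ^ ((d : ℝ) / 2 - 1) * P d 1 ‖x‖ := by
      unfold P
      rw [← Real.mul_rpow hv.le (le_max_right _ _), mul_pow, hs2]
      congr 1
      rw [mul_max_of_nonneg _ _ hv.le, mul_zero]
      congr 1
      ring
    rw [e1, e2, mul_pow, pow_mul (√v), hs2]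
    ring
  simp only [h2] at h1
  rw [integral_const_mul, finrank_euclideanSpace, Fintype.card_fin, smul_eq_mul,
    abs_of_pos (by positivity)] at h1
  have h3 : √v ^ d * (v ^ ((d : ℝ) / 2 - 1) * v ^ i) = v ^ (d - 1 + i) := by
    have e3 : √v ^ d = v ^ ((d : ℝ) / 2) := by
      rw [Real.sqrt_eq_rpow, ← Real.rpow_natCast, ← Real.rpow_mul hv.le]
      congr 1
      ring
    rw [e3, ← mul_assoc, ← Real.rpow_add hv, ← Real.rpow_natCast, ← Real.rpow_natCast,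
      ← Real.rpow_add hv]
    congr 1
    rw [Nat.cast_add, Nat.cast_sub (by omega)]
    push_cast
    ring
  have h4 : √v ^ d ≠ 0 := by positivity
  rw [← h3]
  field_simp at h1 ⊢
  linarith

/-- Polar coordinates. -/
private theorem P_polar {d : ℕ} (hd : 3 ≤ d) : ∃ C : ℝ, ∀ j : ℕ,
    ∫ x : E d, P d 1 ‖x‖ * ‖x‖ ^ j =
      C * ∫ ρ in (0 : ℝ)..1, ρ ^ (d - 1 + j) * (1 - ρ ^ 2) ^ ((d : ℝ) / 2 - 1) := by
  refine ⟨(d : ℝ) * (volume : Measure (E d)).real (ball 0 1), fun j => ?_⟩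
  have hnt : Nontrivial (E d) := by
    have : Nonempty (Fin d) := ⟨⟨0, by omega⟩⟩
    infer_instance
  have h1 := MeasureTheory.integral_fun_norm_addHaar (volume : Measure (E d))
    (fun r : ℝ => P d 1 r * r ^ j)
  rw [h1, finrank_euclideanSpace, Fintype.card_fin, smul_eq_mul, nsmul_eq_mul, mul_assoc,
    intervalIntegral.integral_of_le zero_le_one]
  congr 2
  have h2 : ∫ y in Ioi (0 : ℝ), y ^ (d - 1) • (P d 1 y * y ^ j) =
      ∫ y in Ioc (0 : ℝ) 1, y ^ (d - 1) • (P d 1 y * y ^ j) := by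
    refine (setIntegral_eq_of_subset_of_forall_sdiff_eq_zero measurableSet_Ioi Ioc_subset_Ioi_self
      fun y hy => ?_)
    have hy1 : 1 < y := by
      by_contra h
      exact hy.2 ⟨hy.1, not_lt.1 h⟩
    have : (1 : ℝ) ≤ y ^ 2 := by nlinarith
    rw [P_zero hd this, zero_mul, smul_zero]
  rw [h2]
  refine setIntegral_congr_fun measurableSet_Ioc fun y hy => ?_
  have h3 : P d 1 y = (1 - y ^ 2) ^ ((d : ℝ) / 2 - 1) := by
    unfold P
    rw [max_eq_left]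
    have := hy.1
    have := hy.2
    nlinarith
  simp only [smul_eq_mul]
  rw [h3, pow_add]
  ring

private theorem alg1 {q : ℝ} (hq : 1 ≤ q) (n : ℕ) :
    ((n : ℝ) + 1) * (q ^ n - 1) ≤ n * (q ^ (n + 1) - 1) := by
  have h : 0 ≤ (n : ℝ) * q ^ (n + 1) - (n + 1) * q ^ n + 1 := by
    induction n with
    | zero => simp
    | succ n ih =>
      have h1 : 1 ≤ q ^ (n + 1) := one_le_pow₀ hq
      have h2 := mul_nonneg (by linarith : (0 : ℝ) ≤ q) ih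
      have h3 := mul_nonneg (by linarith : (0 : ℝ) ≤ q - 1) (by linarith : (0 : ℝ) ≤ q ^ (n + 1) - 1)
      push_cast
      have e : ((n : ℝ) + 1) * q ^ (n + 1 + 1) - (n + 1 + 1) * q ^ (n + 1) + 1 =
          q * ((n : ℝ) * q ^ (n + 1) - (n + 1) * q ^ n + 1) + (q - 1) * (q ^ (n + 1) - 1) := by
        ring
      rw [e]
      linarith
  linarith

private theorem alg2 {q : ℝ} (hq : 1 ≤ q) (n : ℕ) :
    (n : ℝ) * (q ^ (n + 2) - 1) ≤ (n + 2) * (q ^ 2 * (q ^ n - 1)) := by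
  have h : 0 ≤ 2 * q ^ (n + 2) - ((n : ℝ) + 2) * q ^ 2 + n := by
    induction n with
    | zero => simp
    | succ n ih =>
      have h1 : 1 ≤ q ^ (n + 1) := one_le_pow₀ hq
      have h2 : q ≤ q ^ (n + 2) := by
        calc q = q * 1 := by ring
          _ ≤ q * q ^ (n + 1) := mul_le_mul_of_nonneg_left h1 (by linarith)
          _ = q ^ (n + 2) := by ring
      have h3 := mul_nonneg (by linarith : (0 : ℝ) ≤ q - 1)
        (by linarith : (0 : ℝ) ≤ 2 * q ^ (n + 2) - q - 1)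
      push_cast
      have e : 2 * q ^ (n + 1 + 2) - ((n : ℝ) + 1 + 2) * q ^ 2 + (n + 1) =
          (2 * q ^ (n + 2) - ((n : ℝ) + 2) * q ^ 2 + n) + (q - 1) * (2 * q ^ (n + 2) - q - 1) := by
        ring
      rw [e]
      linarith
  have e : ((n : ℝ) + 2) * (q ^ 2 * (q ^ n - 1)) - n * (q ^ (n + 2) - 1) =
      2 * q ^ (n + 2) - ((n : ℝ) + 2) * q ^ 2 + n := by ring
  linarith

private theorem alg3 {w1 w2 w4 : ℝ} (h1 : 0 < w1) (h2 : 0 < w2)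
    (h : ∀ t : ℝ, 0 < t → 3 * t ^ 2 * w2 ≤ 2 * t ^ 3 * w1 + w4) : w2 ^ 3 ≤ w1 ^ 2 * w4 := by
  have h3 := h (w2 / w1) (div_pos h2 h1)
  have h4 := mul_le_mul_of_nonneg_left h3 (by positivity : 0 ≤ w1 ^ 2)
  have e1 : w1 ^ 2 * (3 * (w2 / w1) ^ 2 * w2) = 3 * w2 ^ 3 := by
    field_simp
  have e2 : w1 ^ 2 * (2 * (w2 / w1) ^ 3 * w1 + w4) = 2 * w2 ^ 3 + w1 ^ 2 * w4 := by
    field_simp
  rw [e1, e2] at h4
  linarith

private theorem alg4 {D q w0 w1 w2 w4 : ℝ} (hD : 3 ≤ D) (h0 : 0 < w0) (h2 : 0 < w2)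
    (hA : D * w0 ≤ 2 * (D - 1) * w2) (hB : 4 * (D - 1) * w4 ≤ (D + 2) * q ^ 2 * w0)
    (hC : w2 ^ 3 ≤ w1 ^ 2 * w4) :
    D ^ 3 * w0 ^ 2 ≤ 2 * (D - 1) ^ 2 * (D + 2) * q ^ 2 * w1 ^ 2 := by
  have h3 : (D * w0) ^ 3 ≤ (2 * (D - 1) * w2) ^ 3 :=
    pow_le_pow_left₀ (by positivity) hA 3
  have h4 : 8 * (D - 1) ^ 3 * w2 ^ 3 ≤ 8 * (D - 1) ^ 3 * (w1 ^ 2 * w4) :=
    mul_le_mul_of_nonneg_left hC (by have : 0 ≤ D - 1 := by linarith
                                     positivity)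
  have h5 : 2 * (D - 1) ^ 2 * w1 ^ 2 * (4 * (D - 1) * w4) ≤
      2 * (D - 1) ^ 2 * w1 ^ 2 * ((D + 2) * q ^ 2 * w0) :=
    mul_le_mul_of_nonneg_left hB (by positivity)
  apply le_of_mul_le_mul_right _ h0
  calc D ^ 3 * w0 ^ 2 * w0 = (D * w0) ^ 3 := by ring
    _ ≤ (2 * (D - 1) * w2) ^ 3 := h3
    _ = 8 * (D - 1) ^ 3 * w2 ^ 3 := by ring
    _ ≤ 8 * (D - 1) ^ 3 * (w1 ^ 2 * w4) := h4
    _ = 2 * (D - 1) ^ 2 * w1 ^ 2 * (4 * (D - 1) * w4) := by ring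
    _ ≤ 2 * (D - 1) ^ 2 * w1 ^ 2 * ((D + 2) * q ^ 2 * w0) := h5
    _ = 2 * (D - 1) ^ 2 * (D + 2) * q ^ 2 * w1 ^ 2 * w0 := by ring

theorem momStmt (h : JacStmt) : MomStmt := by
  intro d hd η hη
  have hd3 : (3 : ℝ) ≤ d := by exact_mod_cast hd
  have hcont : Continuous (Wt d η) := (P_cont hd (1 + η)).sub (P_cont hd 1)
  have hnn : ∀ ρ, 0 ≤ Wt d η ρ := fun ρ => by
    rw [Wt_eq]
    exact sub_nonneg.2 (P_mono hd (by linarith) ρ)
  have hz : ∀ ρ, 1 + η ≤ ρ ^ 2 → Wt d η ρ = 0 := fun ρ hρ => by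
    rw [Wt_eq, P_zero hd hρ, P_zero hd (by linarith), sub_zero]
  have hW : ∀ (g : ℝ → ℝ), Continuous g →
      Integrable (fun x : E d => Wt d η ‖x‖ * g ‖x‖) ∧
      ∫ x : E d, Wt d η ‖x‖ * g ‖x‖ = (∫ x : E d, P d (1 + η) ‖x‖ * g ‖x‖) -
        ∫ x : E d, P d 1 ‖x‖ * g ‖x‖ := by
    intro g hg
    have e : (fun x : E d => Wt d η ‖x‖ * g ‖x‖) =
        fun x : E d => P d (1 + η) ‖x‖ * g ‖x‖ - P d 1 ‖x‖ * g ‖x‖ := by
      funext x
      rw [Wt_eq, sub_mul]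
    rw [e]
    exact ⟨(P_int hd _ hg).sub (P_int hd _ hg), integral_sub (P_int hd _ hg) (P_int hd _ hg)⟩
  have hi0 : Integrable (fun x : E d => Wt d η ‖x‖) := by
    have := (hW (fun _ => 1) continuous_const).1
    simpa using this
  have hi1 : Integrable (fun x : E d => Wt d η ‖x‖ * ‖x‖) := (hW id continuous_id).1
  have hi2 : Integrable (fun x : E d => Wt d η ‖x‖ * ‖x‖ ^ 2) :=
    (hW (fun r => r ^ 2) (continuous_pow 2)).1
  have hi4 : Integrable (fun x : E d => Wt d η ‖x‖ * ‖x‖ ^ 4) :=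
    (hW (fun r => r ^ 4) (continuous_pow 4)).1
  have hpos : 0 < ∫ x : E d, Wt d η ‖x‖ := by
    have hsup : HasCompactSupport (fun x : E d => Wt d η ‖x‖) := by
      refine HasCompactSupport.intro (isCompact_closedBall (0 : E d) (1 + η)) fun x hx => ?_
      rw [mem_closedBall_zero_iff, not_le] at hx
      exact hz _ (by nlinarith)
    refine Continuous.integral_pos_of_hasCompactSupport_nonneg_nonzero (x := (0 : E d))
      (hcont.comp continuous_norm) hsup (fun x => hnn _) ?_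
    rw [norm_zero, Wt_eq]
    unfold P
    have e1 : max (1 + η - (0 : ℝ) ^ 2) 0 = 1 + η := by
      rw [max_eq_left (by norm_num; linarith)]
      ring
    have e2 : max (1 - (0 : ℝ) ^ 2) 0 = 1 := by norm_num
    rw [e1, e2, Real.one_rpow]
    have := Real.one_lt_rpow (by linarith : 1 < 1 + η) (alpha_pos hd)
    linarith
  -- the moments
  obtain ⟨C, hC⟩ := P_polar hd
  obtain ⟨K0, hK0⟩ : ∃ K, K = ∫ x : E d, P d 1 ‖x‖ * ‖x‖ ^ (2 * 0) := ⟨_, rfl⟩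
  have hK2 : ∫ x : E d, P d 1 ‖x‖ * ‖x‖ ^ (2 * 1) = K0 / 2 := by
    rw [hK0, hC, hC]
    have h1 := h d d hd (by omega)
    have e1 : d - 1 + 2 * 1 = d + 1 := by omega
    have e2 : d - 1 + 2 * 0 = d - 1 := by omega
    rw [e1, e2]
    have h2 : (d : ℝ) ≠ 0 := by positivity
    have h3 : ∫ ρ in (0 : ℝ)..1, ρ ^ (d - 1) * (1 - ρ ^ 2) ^ ((d : ℝ) / 2 - 1) =
        2 * ∫ ρ in (0 : ℝ)..1, ρ ^ (d + 1) * (1 - ρ ^ 2) ^ ((d : ℝ) / 2 - 1) := by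
      apply mul_left_cancel₀ h2
      rw [← h1]
      ring
    rw [h3]
    ring
  have hK4 : ∫ x : E d, P d 1 ‖x‖ * ‖x‖ ^ (2 * 2) = ((d : ℝ) + 2) / (4 * (d + 1)) * K0 := by
    have h0 := hK2
    rw [hC] at h0 ⊢
    have h1 := h d (d + 2) hd (by omega)
    have e1 : d - 1 + 2 * 1 = d + 2 - 1 := by omega
    have e2 : d - 1 + 2 * 2 = d + 2 + 1 := by omega
    rw [e1] at h0
    rw [e2]
    obtain ⟨J1, hJ1⟩ : ∃ J, J = ∫ ρ in (0 : ℝ)..1, ρ ^ (d + 2 - 1) *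
      (1 - ρ ^ 2) ^ ((d : ℝ) / 2 - 1) := ⟨_, rfl⟩
    obtain ⟨J3, hJ3⟩ : ∃ J, J = ∫ ρ in (0 : ℝ)..1, ρ ^ (d + 2 + 1) *
      (1 - ρ ^ 2) ^ ((d : ℝ) / 2 - 1) := ⟨_, rfl⟩
    rw [← hJ1] at h0 h1
    rw [← hJ3] at h1 ⊢
    have h2 : (d : ℝ) + 1 ≠ 0 := by positivity
    push_cast at h1
    have h3 : J3 = ((d : ℝ) + 2) / (2 * (d + 1)) * J1 := by
      field_simp
      linear_combination h1
    have h4 : K0 = 2 * (C * J1) := by rw [h0]; ring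
    rw [h3, h4]
    field_simp
    ring
  obtain ⟨q, hq⟩ : ∃ q, q = 1 + η := ⟨_, rfl⟩
  have hq1 : 1 < q := by rw [hq]; linarith
  obtain ⟨w0, hw0⟩ : ∃ w, w = ∫ x : E d, Wt d η ‖x‖ := ⟨_, rfl⟩
  obtain ⟨w1, hw1⟩ : ∃ w, w = ∫ x : E d, Wt d η ‖x‖ * ‖x‖ := ⟨_, rfl⟩
  obtain ⟨w2, hw2⟩ : ∃ w, w = ∫ x : E d, Wt d η ‖x‖ * ‖x‖ ^ 2 := ⟨_, rfl⟩
  obtain ⟨w4, hw4⟩ : ∃ w, w = ∫ x : E d, Wt d η ‖x‖ * ‖x‖ ^ 4 := ⟨_, rfl⟩
  have hv0 : w0 = (q ^ (d - 1) - 1) * K0 := by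
    have h1 := (hW (fun r => r ^ (2 * 0)) (continuous_pow _)).2
    rw [P_scale hd (v := 1 + η) (by linarith) 0, ← hK0, ← hq] at h1
    have e : (fun x : E d => Wt d η ‖x‖) = fun x : E d => Wt d η ‖x‖ * ‖x‖ ^ (2 * 0) := by
      funext x
      simp
    rw [hw0, e, h1, Nat.add_zero]
    ring
  have hv2 : w2 = (q ^ d - 1) * (K0 / 2) := by
    have h1 := (hW (fun r => r ^ (2 * 1)) (continuous_pow _)).2
    rw [P_scale hd (v := 1 + η) (by linarith) 1, hK2, ← hq, Nat.sub_add_cancel (by omega : 1 ≤ d)] at h1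
    rw [hw2]
    refine Eq.trans ?_ (h1.trans ?_)
    · norm_num
    · ring
  have hv4 : w4 = (q ^ (d + 1) - 1) * (((d : ℝ) + 2) / (4 * (d + 1)) * K0) := by
    have h1 := (hW (fun r => r ^ (2 * 2)) (continuous_pow _)).2
    have e1 : d - 1 + 2 = d + 1 := by omega
    rw [P_scale hd (v := 1 + η) (by linarith) 2, hK4, ← hq, e1] at h1
    rw [hw4]
    refine Eq.trans ?_ (h1.trans ?_)
    · norm_num
    · ring
  obtain ⟨n, hn⟩ : ∃ n, d = n + 1 := ⟨d - 1, by omega⟩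
  have hnd : (n : ℝ) = (d : ℝ) - 1 := by rw [hn]; push_cast; ring
  have hdn : d - 1 = n := by omega
  have hw0' : 0 < w0 := by rw [hw0]; exact hpos
  have hK : 0 < K0 := by
    have h1 : 0 < q ^ (d - 1) - 1 := sub_pos.2 (one_lt_pow₀ hq1 (by omega))
    rw [hv0] at hw0'
    exact (mul_pos_iff_of_pos_left h1).1 hw0'
  have hA : (d : ℝ) * w0 ≤ 2 * ((d : ℝ) - 1) * w2 := by
    have h1 := mul_le_mul_of_nonneg_right (alg1 hq1.le n) hK.le
    rw [hv0, hv2, hdn, ← hnd]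
    have e1 : q ^ d = q ^ (n + 1) := by rw [hn]
    have e2 : (d : ℝ) = (n : ℝ) + 1 := by rw [hn]; push_cast; ring
    rw [e1, e2]
    linarith
  have hB : 4 * ((d : ℝ) - 1) * w4 ≤ ((d : ℝ) + 2) * q ^ 2 * w0 := by
    have h1 := mul_le_mul_of_nonneg_right (alg2 hq1.le n) hK.le
    have e1 : q ^ (d + 1) = q ^ (n + 2) := by rw [hn]
    have e2 : (d : ℝ) + 1 = (n : ℝ) + 2 := by rw [hn]; push_cast; ring
    have h2 : (0 : ℝ) < (n : ℝ) + 2 := by positivity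
    rw [hv0, hv4, hdn, ← hnd, e1, e2]
    have e3 : 4 * (n : ℝ) * ((q ^ (n + 2) - 1) * (((d : ℝ) + 2) / (4 * ((n : ℝ) + 2)) * K0)) =
        ((d : ℝ) + 2) / ((n : ℝ) + 2) * ((n : ℝ) * (q ^ (n + 2) - 1) * K0) := by
      field_simp
    have e4 : ((d : ℝ) + 2) * q ^ 2 * ((q ^ n - 1) * K0) =
        ((d : ℝ) + 2) / ((n : ℝ) + 2) * (((n : ℝ) + 2) * (q ^ 2 * (q ^ n - 1)) * K0) := by
      field_simp
    rw [e3, e4]
    exact mul_le_mul_of_nonneg_left h1 (by positivity)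
  have hw2' : 0 < w2 := by
    have h1 : 0 < (d : ℝ) * w0 := by positivity
    have h2 : 0 < 2 * ((d : ℝ) - 1) := by linarith
    exact (mul_pos_iff_of_pos_left h2).1 (lt_of_lt_of_le h1 hA)
  -- the pointwise bounds
  have hpt : ∀ r : ℝ, 0 ≤ r → Wt d η r * r ≤ √(1 + η) * Wt d η r := by
    intro r hr
    by_cases h1 : 1 + η ≤ r ^ 2
    · rw [hz r h1, zero_mul, mul_zero]
    · have h2 : r ≤ √(1 + η) := Real.le_sqrt_of_sq_le (not_le.1 h1).le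
      rw [mul_comm]
      exact mul_le_mul_of_nonneg_right h2 (hnn r)
  have hD : w1 ≤ √(1 + η) * w0 := by
    rw [hw1, hw0, ← integral_const_mul]
    exact integral_mono hi1 (hi0.const_mul _) fun x => hpt _ (norm_nonneg x)
  have hw1' : 0 < w1 := by
    have h1 : w2 ≤ √(1 + η) * w1 := by
      rw [hw1, hw2, ← integral_const_mul]
      refine integral_mono hi2 (hi1.const_mul _) fun x => ?_
      have h3 := mul_le_mul_of_nonneg_right (hpt ‖x‖ (norm_nonneg x)) (norm_nonneg x)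
      calc Wt d η ‖x‖ * ‖x‖ ^ 2 = Wt d η ‖x‖ * ‖x‖ * ‖x‖ := by ring
        _ ≤ √(1 + η) * Wt d η ‖x‖ * ‖x‖ := h3
        _ = √(1 + η) * (Wt d η ‖x‖ * ‖x‖) := by ring
    have h2 : 0 < √(1 + η) := Real.sqrt_pos.2 (by linarith)
    exact (mul_pos_iff_of_pos_left h2).1 (lt_of_lt_of_le hw2' h1)
  have hCC : w2 ^ 3 ≤ w1 ^ 2 * w4 := by
    refine alg3 hw1' hw2' fun t ht => ?_
    rw [hw1, hw2, hw4, ← integral_const_mul, ← integral_const_mul,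
      ← integral_add (hi1.const_mul _) hi4]
    refine integral_mono (hi2.const_mul _) ((hi1.const_mul _).add hi4) fun x => ?_
    have h1 : 0 ≤ ‖x‖ := norm_nonneg x
    have h2 : 0 ≤ ‖x‖ * ((‖x‖ - t) ^ 2 * (‖x‖ + 2 * t)) := by positivity
    have h3 := mul_nonneg (hnn ‖x‖) h2
    have e : Wt d η ‖x‖ * (‖x‖ * ((‖x‖ - t) ^ 2 * (‖x‖ + 2 * t))) =
        2 * t ^ 3 * (Wt d η ‖x‖ * ‖x‖) + Wt d η ‖x‖ * ‖x‖ ^ 4 -
          3 * t ^ 2 * (Wt d η ‖x‖ * ‖x‖ ^ 2) := by ring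
    rw [e] at h3
    exact sub_nonneg.1 h3
  refine ⟨hcont.measurable, hnn, hz, hi0, hi1, hpos, ?_, ?_⟩
  · rw [← hw0, ← hw1, ← hq]
    exact alg4 hd3 hw0' hw2' hA hB hCC
  · rw [← hw0, ← hw1]
    exact hD

end Pool.Agent.Lib.MP_0c1c75_co.Ar
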