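import Pool.Agent.Lib.MP_0c1c75_co.ArSpec

/-!
MP_0c1c75_co, module Rad: lower bound by the radial function and Jensen's inequality.
-/

set_option autoImplicit false

open MeasureTheory Set Metric

namespace Pool.Agent.Lib.MP_0c1c75_co.Ar

private theorem rad_le_ms {d N : ℕ} (q : Fin N → E d) (w : Fin N → ℝ) (u : E d) (i : Fin N) :
    -(1 * inner ℝ (q i) u) - w i ≤ ms 1 q w u :=
  le_ciSup (f := fun i => (-(1 * inner ℝ (q i) u) - w i)) (Set.finite_range _).bddAbove i

private theorem rad_norm {d : ℕ} (x : E d) : ‖‖x‖⁻¹ • x‖ ≤ 1 := by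
  rw [norm_smul, norm_inv, norm_norm]
  by_cases hx : ‖x‖ = 0
  · rw [hx]
    simp
  · rw [inv_mul_cancel₀ hx]

/-- the elementary inequality -/
private theorem rad_elem (ρ g w : ℝ) (hρ : 0 ≤ ρ) (h : ρ ≤ g + w) :
    ρ ^ 2 - 2 * ρ * g ≤ w ^ 2 := by
  by_cases h1 : ρ - 2 * g ≤ 0
  · nlinarith
  · have h2 : 0 < ρ - 2 * g := by linarith [not_le.mp h1]
    have h3 : 0 ≤ ρ - g := by linarith
    have h4 : ρ - g ≤ w := by linarith
    nlinarith [mul_self_le_mul_self h3 h4, sq_nonneg g]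

/-- star shaped set inside the intersection -/
private theorem rad_sub {d N : ℕ} (q : Fin N → E d) (r w : Fin N → ℝ) (hr : ∀ i, 0 ≤ r i)
    (h : ∀ i, ‖q i‖ ^ 2 + w i ^ 2 ≤ r i ^ 2) :
    {x : E d | ‖x‖ ≤ max (-ms 1 q w (‖x‖⁻¹ • x)) 0} ⊆ ⋂ i, closedBall (q i) (r i) := by
  intro x hx
  rw [mem_setOf_eq] at hx
  rw [mem_iInter]
  intro i
  rw [mem_closedBall, dist_eq_norm]
  by_cases hx0 : x = 0
  · subst hx0
    rw [zero_sub, norm_neg]
    refine le_of_sq_le_sq ?_ (hr i)
    have := h i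
    nlinarith [sq_nonneg (w i)]
  · have hn : 0 < ‖x‖ := norm_pos_iff.mpr hx0
    have h1 : ‖x‖ ≤ -ms 1 q w (‖x‖⁻¹ • x) := by
      rcases le_max_iff.mp hx with h | h
      · exact h
      · exact absurd h (not_le.mpr hn)
    have h2 := rad_le_ms q w (‖x‖⁻¹ • x) i
    have h3 : ‖x‖ ≤ inner ℝ (q i) (‖x‖⁻¹ • x) + w i := by linarith
    have h4 := rad_elem ‖x‖ (inner ℝ (q i) (‖x‖⁻¹ • x)) (w i) hn.le h3
    rw [inner_smul_right] at h4
    have h5 : 2 * ‖x‖ * (‖x‖⁻¹ * inner ℝ (q i) x) = 2 * inner ℝ (q i) x := by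
      field_simp
    rw [h5] at h4
    have h7 : ‖x - q i‖ ^ 2 ≤ r i ^ 2 := by
      rw [norm_sub_sq_real, real_inner_comm]
      linarith [h i]
    exact le_of_sq_le_sq h7 (hr i)

private theorem rad_center {d N : ℕ} (hB : BasStmt) (hP : PolarStmt) (hV : VrBasicStmt)
    (hd : 0 < d) (hN : 0 < N) (q : Fin N → E d) (r w : Fin N → ℝ) (hr : ∀ i, 0 ≤ r i)
    (h : ∀ i, ‖q i‖ ^ 2 + w i ^ 2 ≤ r i ^ 2) :
    -aw 1 q w ≤ vr (⋂ i, closedBall (q i) (r i)) := by
  obtain ⟨hmono, -, -, -, -, -⟩ := hV d hd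
  obtain ⟨hpol, -⟩ := hP d hd
  obtain ⟨hcont2, hbd, -, -, -, -, -⟩ := hB d N hd hN q w
  have hcont : Continuous (fun u : E d => ms 1 q w u) :=
    hcont2.comp (continuous_const.prodMk continuous_id)
  set M : ℝ := ∑ i, ‖q i‖ + ∑ i, |w i| with hM
  have hbd1 : ∀ u : E d, ‖u‖ ≤ 1 → |ms 1 q w u| ≤ M := by
    intro u hu
    have h1 := hbd 1 u
    rw [abs_one, one_mul] at h1
    have h2 : ‖u‖ * ∑ i, ‖q i‖ ≤ 1 * ∑ i, ‖q i‖ :=
      mul_le_mul_of_nonneg_right hu (Finset.sum_nonneg fun i _ => norm_nonneg _)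
    rw [one_mul] at h2
    rw [hM]
    linarith
  have hM0 : 0 ≤ M := (abs_nonneg _).trans (hbd1 0 (by simp))
  set F : E d → ℝ := fun x => max (-ms 1 q w (‖x‖⁻¹ • x)) 0 with hF
  have hmm : Measurable (fun x : E d => ms 1 q w (‖x‖⁻¹ • x)) :=
    hcont.measurable.comp (measurable_norm.inv.smul measurable_id)
  have hFm : Measurable F := Measurable.max hmm.neg measurable_const
  have hF0 : ∀ x, 0 ≤ F x := fun x => le_max_right _ _
  have hFb : ∀ x, F x ≤ M := by
    intro x
    have := hbd1 _ (rad_norm x)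
    rw [abs_le] at this
    exact max_le (by linarith [this.1]) hM0
  have hFh : ∀ (c : ℝ) (x : E d), 0 < c → F (c • x) = F x := by
    intro c x hc
    simp only [hF]
    congr 3
    rw [norm_smul, Real.norm_eq_abs, abs_of_pos hc, smul_smul, mul_inv]
    congr 1
    field_simp
  have hvol := hpol F hFm hF0 hFh
  -- the measure of the unit ball
  have hball0 : volume (ball (0 : E d) 1) ≠ 0 := (measure_ball_pos volume 0 one_pos).ne'
  have hballt : volume (ball (0 : E d) 1) ≠ ⊤ := measure_ball_lt_top.ne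
  set κ := (volume (ball (0 : E d) 1)).toReal with hκ
  have hκ0 : 0 < κ := ENNReal.toReal_pos hball0 hballt
  -- integrability
  have hFi : IntegrableOn F (ball (0 : E d) 1) := by
    apply Measure.integrableOn_of_bounded (M := M) hballt hFm.aestronglyMeasurable
    refine Filter.Eventually.of_forall fun x => ?_
    rw [Real.norm_eq_abs, abs_of_nonneg (hF0 x)]
    exact hFb x
  have hFdi : IntegrableOn (fun x => F x ^ d) (ball (0 : E d) 1) := by
    apply Measure.integrableOn_of_bounded (M := M ^ d) hballt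
      (hFm.pow_const d).aestronglyMeasurable
    refine Filter.Eventually.of_forall fun x => ?_
    rw [Real.norm_eq_abs, abs_of_nonneg (pow_nonneg (hF0 x) d)]
    exact pow_le_pow_left₀ (hF0 x) (hFb x) d
  -- Jensen
  have hJ : (⨍ x in ball (0 : E d) 1, F x) ^ d ≤ ⨍ x in ball (0 : E d) 1, (F x) ^ d := by
    have := (convexOn_pow d).map_set_average_le (μ := volume) (t := ball (0 : E d) 1) (f := F)
      (continuous_pow d).continuousOn isClosed_Ici hball0 hballt
      (Filter.Eventually.of_forall fun x => hF0 x) hFi hFdi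
    exact this
  -- volume of the star shaped set
  have hvr : vr {x : E d | ‖x‖ ≤ F x} = (⨍ x in ball (0 : E d) 1, (F x) ^ d) ^ ((1 : ℝ) / d) := by
    unfold vr
    rw [hvol]
    congr 1
    have h1 : (∫⁻ x in ball (0 : E d) 1, ENNReal.ofReal (F x) ^ d) =
        ENNReal.ofReal (∫ x in ball (0 : E d) 1, (F x) ^ d) := by
      rw [ofReal_integral_eq_lintegral_ofReal hFdi
        (Filter.Eventually.of_forall fun x => pow_nonneg (hF0 x) d)]
      apply lintegral_congr
      intro x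
      rw [ENNReal.ofReal_pow (hF0 x)]
    rw [h1, ENNReal.toReal_ofReal (integral_nonneg fun x => pow_nonneg (hF0 x) d),
      setAverage_eq, smul_eq_mul, Measure.real, ← hκ]
    rw [div_eq_inv_mul]
  have hd0 : (d : ℝ) ≠ 0 := by
    have : (0 : ℝ) < d := by exact_mod_cast hd
    exact this.ne'
  have hav0 : 0 ≤ ⨍ x in ball (0 : E d) 1, F x := by
    rw [setAverage_eq, smul_eq_mul]
    exact mul_nonneg (inv_nonneg.mpr ENNReal.toReal_nonneg) (integral_nonneg hF0)
  have h2 : (⨍ x in ball (0 : E d) 1, F x) ≤ vr {x : E d | ‖x‖ ≤ F x} := by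
    rw [hvr]
    calc (⨍ x in ball (0 : E d) 1, F x) =
        ((⨍ x in ball (0 : E d) 1, F x) ^ d) ^ ((1 : ℝ) / d) := by
          rw [← Real.rpow_natCast, ← Real.rpow_mul hav0, mul_one_div_cancel hd0, Real.rpow_one]
      _ ≤ (⨍ x in ball (0 : E d) 1, (F x) ^ d) ^ ((1 : ℝ) / d) := by
          apply Real.rpow_le_rpow (pow_nonneg hav0 d) hJ
          positivity
  -- the average of F
  have hint' : IntegrableOn (fun x : E d => ms 1 q w (‖x‖⁻¹ • x)) (ball (0 : E d) 1) := by
    apply Measure.integrableOn_of_bounded (M := M) hballt hmm.aestronglyMeasurable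
    refine Filter.Eventually.of_forall fun x => ?_
    rw [Real.norm_eq_abs]
    exact hbd1 _ (rad_norm x)
  have h3 : -aw 1 q w ≤ ⨍ x in ball (0 : E d) 1, F x := by
    have h4 : -aw 1 q w = κ⁻¹ * ∫ x in ball (0 : E d) 1, (-ms 1 q w (‖x‖⁻¹ • x)) := by
      rw [integral_neg]
      unfold aw
      rw [setAverage_eq, smul_eq_mul, Measure.real, ← hκ]
      ring
    rw [h4, setAverage_eq, smul_eq_mul, Measure.real, ← hκ]
    apply mul_le_mul_of_nonneg_left _ (inv_nonneg.mpr hκ0.le)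
    apply integral_mono hint'.neg hFi
    intro x
    exact le_max_left _ _
  have h5 : vr {x : E d | ‖x‖ ≤ F x} ≤ vr (⋂ i, closedBall (q i) (r i)) := by
    apply hmono _ _ (rad_sub q r w hr h)
    have : (⋂ i, closedBall (q i) (r i)) ⊆ closedBall (q ⟨0, hN⟩) (r ⟨0, hN⟩) :=
      iInter_subset (fun i => closedBall (q i) (r i)) ⟨0, hN⟩
    exact ((measure_mono this).trans_lt measure_closedBall_lt_top).ne
  exact h3.trans (h2.trans h5)

theorem radStmt (h1 : BasStmt) (h2 : PolarStmt) (h3 : VrBasicStmt) : RadStmt := by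
  intro d N hd hN q o r w hr _ h
  have h4 := rad_center h1 h2 h3 hd hN (fun i => q i + (-o)) r w hr (by
    intro i
    rw [← sub_eq_add_neg]
    exact h i)
  obtain ⟨-, -, htr, -, -, -, -⟩ := h1 d N hd hN q w
  rw [htr 1 (-o)] at h4
  obtain ⟨-, -, -, -, -, hvt⟩ := h3 d hd
  have h5 : (⋂ i, closedBall (q i) (r i)) =
      (fun y => o + y) '' (⋂ i, closedBall (q i + (-o)) (r i)) := by
    ext x
    rw [mem_image]
    constructor
    · intro hx
      refine ⟨x - o, ?_, by abel⟩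
      rw [mem_iInter] at hx ⊢
      intro i
      have := hx i
      rw [mem_closedBall, dist_eq_norm] at this ⊢
      have e : x - o - (q i + -o) = x - q i := by abel
      rw [e]
      exact this
    · rintro ⟨y, hy, rfl⟩
      rw [mem_iInter] at hy ⊢
      intro i
      have := hy i
      rw [mem_closedBall, dist_eq_norm] at this ⊢
      have e : o + y - q i = y - (q i + -o) := by abel
      rw [e]
      exact this
  rw [h5, hvt]
  exact h4

end Pool.Agent.Lib.MP_0c1c75_co.Ar
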