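import Pool.Agent.Lib.MP_0c1c75_co.ArSpec

/-!
# ArSF: comparison of the averages
-/

set_option autoImplicit false

open MeasureTheory Set Metric

namespace Pool.Agent.Lib.MP_0c1c75_co.Ar

private theorem le_ms {d N : ℕ} (ρ : ℝ) (p : Fin N → E d) (b : Fin N → ℝ) (u : E d) (i : Fin N) :
    -(ρ * inner ℝ (p i) u) - b i ≤ ms ρ p b u :=
  le_ciSup (f := fun i => -(ρ * inner ℝ (p i) u) - b i) (Set.finite_range _).bddAbove i

private theorem ms_le {d N : ℕ} (hN : 0 < N) (ρ : ℝ) (p : Fin N → E d) (b : Fin N → ℝ) (u : E d)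
    {c : ℝ} (h : ∀ i, -(ρ * inner ℝ (p i) u) - b i ≤ c) : ms ρ p b u ≤ c := by
  have : Nonempty (Fin N) := ⟨⟨0, hN⟩⟩
  exact ciSup_le h

private theorem ms_nonneg {d N : ℕ} {p : Fin N → E d} {b : Fin N → ℝ} {i₀ : Fin N}
    (hp : p i₀ = 0) (hb : b i₀ = 0) (ρ : ℝ) (u : E d) : 0 ≤ ms ρ p b u := by
  have h := le_ms ρ p b u i₀
  rw [hp, hb, inner_zero_left] at h
  simpa using h

private theorem unit_le {d : ℕ} (x : E d) : ‖‖x‖⁻¹ • x‖ ≤ 1 := by
  rw [norm_smul, norm_inv, norm_norm]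
  exact inv_mul_le_one

/-- The indices where the maximum is attained. -/
private def AA {d N : ℕ} (ρ : ℝ) (q : Fin N → E d) (b : Fin N → ℝ) (i : Fin N) : Set (E d) :=
  {u | ∀ j, -(ρ * inner ℝ (q j) u) - b j ≤ -(ρ * inner ℝ (q i) u) - b i}

/-- The slope. -/
private noncomputable def kk {d N : ℕ} (ρ : ℝ) (q : Fin N → E d) (b : Fin N → ℝ) (u : E d) : ℝ :=
  ⨆ i, (AA ρ q b i).indicator (fun u => -inner ℝ (q i) u) u

private theorem AA_meas {d N : ℕ} (ρ : ℝ) (q : Fin N → E d) (b : Fin N → ℝ) (i : Fin N) :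
    MeasurableSet (AA ρ q b i) := by
  have e : AA ρ q b i =
      ⋂ j, {u | -(ρ * inner ℝ (q j) u) - b j ≤ -(ρ * inner ℝ (q i) u) - b i} := by
    ext u
    rw [Set.mem_iInter]
    rfl
  rw [e]
  refine MeasurableSet.iInter fun j => measurableSet_le ?_ ?_
  · exact Continuous.measurable (by fun_prop)
  · exact Continuous.measurable (by fun_prop)

private theorem kk_meas {d N : ℕ} (ρ : ℝ) (q : Fin N → E d) (b : Fin N → ℝ) :
    Measurable (kk ρ q b) := by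
  refine Measurable.iSup fun i => Measurable.indicator ?_ (AA_meas ρ q b i)
  exact Continuous.measurable (by fun_prop)

private theorem kk_spec {d N : ℕ} (hN : 0 < N) {ρ : ℝ} (hρ : 0 < ρ) {q : Fin N → E d}
    {b : Fin N → ℝ} {i₀ : Fin N} (hq : q i₀ = 0) (hb0 : b i₀ = 0) (hb : ∀ i, 0 ≤ b i) (u : E d) :
    0 ≤ kk ρ q b u ∧ kk ρ q b u ≤ ‖u‖ * ∑ i, ‖q i‖ ∧
      ∀ s : ℝ, ms ρ q b u + kk ρ q b u * (s - ρ) ≤ ms s q b u := by
  have : Nonempty (Fin N) := ⟨⟨0, hN⟩⟩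
  have hle : ∀ i, (AA ρ q b i).indicator (fun u => -inner ℝ (q i) u) u ≤ kk ρ q b u := fun i =>
    le_ciSup (f := fun i => (AA ρ q b i).indicator (fun u => -inner ℝ (q i) u) u)
      (Set.finite_range _).bddAbove i
  have hA : ∀ i, u ∈ AA ρ q b i → ms ρ q b u = -(ρ * inner ℝ (q i) u) - b i ∧
      0 ≤ -inner ℝ (q i) u := by
    intro i hi
    have e : ms ρ q b u = -(ρ * inner ℝ (q i) u) - b i :=
      le_antisymm (ms_le hN ρ q b u hi) (le_ms ρ q b u i)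
    refine ⟨e, ?_⟩
    have h1 := ms_nonneg hq hb0 ρ u
    rw [e] at h1
    have h2 : 0 ≤ ρ * (-inner ℝ (q i) u) := by
      have := hb i
      linarith
    exact (mul_nonneg_iff_of_pos_left hρ).1 h2
  obtain ⟨i₂, hi₂⟩ : ∃ i, u ∈ AA ρ q b i := by
    obtain ⟨i, hi⟩ := exists_eq_ciSup_of_finite (f := fun i => -(ρ * inner ℝ (q i) u) - b i)
    refine ⟨i, fun j => ?_⟩
    have h1 := le_ms ρ q b u j
    have h2 : -(ρ * inner ℝ (q i) u) - b i = ms ρ q b u := hi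
    rw [h2]
    exact h1
  have h0 : 0 ≤ kk ρ q b u := by
    refine le_trans ?_ (hle i₂)
    rw [Set.indicator_of_mem hi₂]
    exact (hA i₂ hi₂).2
  refine ⟨h0, ?_, ?_⟩
  · refine ciSup_le fun i => ?_
    have h1 : 0 ≤ ‖u‖ * ∑ i, ‖q i‖ := by positivity
    by_cases hi : u ∈ AA ρ q b i
    · rw [Set.indicator_of_mem hi]
      have h2 := abs_real_inner_le_norm (q i) u
      have h3 : ‖q i‖ ≤ ∑ i, ‖q i‖ :=
        Finset.single_le_sum (f := fun i => ‖q i‖) (fun j _ => norm_nonneg _) (Finset.mem_univ i)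
      have h4 := neg_le_abs (inner ℝ (q i) u)
      have h5 := mul_le_mul_of_nonneg_right h3 (norm_nonneg u)
      linarith
    · rw [Set.indicator_of_notMem hi]
      exact h1
  · intro s
    obtain ⟨i₁, hi₁⟩ := exists_eq_ciSup_of_finite
      (f := fun i => (AA ρ q b i).indicator (fun u => -inner ℝ (q i) u) u)
    have hi₁' : (AA ρ q b i₁).indicator (fun u => -inner ℝ (q i₁) u) u = kk ρ q b u := hi₁
    by_cases hi : u ∈ AA ρ q b i₁
    · rw [Set.indicator_of_mem hi] at hi₁'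
      rw [← hi₁', (hA i₁ hi).1]
      have := le_ms s q b u i₁
      linarith
    · rw [Set.indicator_of_notMem hi] at hi₁'
      have h1 := hle i₂
      rw [Set.indicator_of_mem hi₂, ← hi₁'] at h1
      obtain ⟨h2, h3⟩ := hA i₂ hi₂
      have h4 : inner ℝ (q i₂) u = (0 : ℝ) := by linarith
      rw [← hi₁', h2, h4]
      have h5 := le_ms s q b u i₂
      rw [h4] at h5
      linarith

/-- The formula (7) of `BasStmt` for functions which are bounded on the unit ball. -/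
private theorem avg (h1 : BasStmt) {d : ℕ} (hd : 0 < d) {φ : ℝ → ℝ} (hφ : Measurable φ)
    (hi : Integrable (fun x : E d => φ ‖x‖)) {g : E d → ℝ} (hg : Measurable g) {M : ℝ}
    (hb : ∀ x, ‖x‖ ≤ 1 → |g x| ≤ M) :
    Integrable (fun x : E d => φ ‖x‖ * g (‖x‖⁻¹ • x)) ∧
      ∫ x : E d, φ ‖x‖ * g (‖x‖⁻¹ • x) =
        (∫ x : E d, φ ‖x‖) * ⨍ x in ball (0 : E d) 1, g (‖x‖⁻¹ • x) := by
  have h7 := (h1 d 1 hd one_pos (fun _ => 0) (fun _ => 0)).2.2.2.2.2.2 φ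
    ((closedBall (0 : E d) 1).indicator g) hφ hi (hg.indicator measurableSet_closedBall)
    ⟨M, fun x => by
      by_cases hx : x ∈ closedBall (0 : E d) 1
      · rw [Set.indicator_of_mem hx]
        exact hb x (mem_closedBall_zero_iff.1 hx)
      · rw [Set.indicator_of_notMem hx, abs_zero]
        exact (abs_nonneg _).trans (hb 0 (by simp))⟩
  have e : ∀ x : E d, (closedBall (0 : E d) 1).indicator g (‖x‖⁻¹ • x) = g (‖x‖⁻¹ • x) := by
    intro x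
    exact Set.indicator_of_mem (mem_closedBall_zero_iff.2 (unit_le x)) g
  simpa only [e] using h7

private theorem core (h1 : BasStmt) (h2 : LinStmt) (h3 : MomStmt) (d N : ℕ) (hd : 3 ≤ d)
    (p q : Fin N → E d) (hpq : Contr 1 p q) (b : Fin N → ℝ) (i₀ : Fin N) (hb : ∀ i, 0 ≤ b i)
    (hb0 : b i₀ = 0) (hp0 : p i₀ = 0) (hq0 : q i₀ = 0) (ρ : ℝ) (hρ : 0 < ρ)
    (hlt : 2 * ((d : ℝ) - 1) ^ 2 * ((d : ℝ) + 2) * ρ ^ 2 < (d : ℝ) ^ 3) :
    aw ρ q b ≤ aw 1 p b := by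
  have hN : 0 < N := lt_of_le_of_lt (Nat.zero_le _) i₀.2
  have hd0 : 0 < d := by omega
  have hdR : (3 : ℝ) ≤ d := by exact_mod_cast hd
  -- the choice of `η`
  obtain ⟨η, hη, hηle⟩ : ∃ η : ℝ, 0 < η ∧
      2 * ((d : ℝ) - 1) ^ 2 * ((d : ℝ) + 2) * ρ ^ 2 * (1 + η) ^ 3 ≤ (d : ℝ) ^ 3 := by
    have hc : Continuous (fun η : ℝ =>
        2 * ((d : ℝ) - 1) ^ 2 * ((d : ℝ) + 2) * ρ ^ 2 * (1 + η) ^ 3) := by fun_prop
    have ht : Filter.Tendsto (fun η : ℝ =>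
        2 * ((d : ℝ) - 1) ^ 2 * ((d : ℝ) + 2) * ρ ^ 2 * (1 + η) ^ 3) (nhdsWithin 0 (Ioi 0))
        (nhds (2 * ((d : ℝ) - 1) ^ 2 * ((d : ℝ) + 2) * ρ ^ 2)) := by
      refine Filter.Tendsto.mono_left (hc.tendsto' 0 _ (by ring)) nhdsWithin_le_nhds
    obtain ⟨η, h, hη⟩ := ((ht.eventually_lt_const hlt).and self_mem_nhdsWithin).exists
    exact ⟨η, hη, h.le⟩
  obtain ⟨hWm, hWn, hWz, hi0, hi1, hw0, hmain, hw1⟩ := h3 d hd η hη
  obtain ⟨R, hR⟩ : ∃ R, R = √(1 + η) := ⟨_, rfl⟩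
  have hRpos : 0 < R := by rw [hR]; exact Real.sqrt_pos.2 (by linarith)
  have hR2 : R ^ 2 = 1 + η := by rw [hR]; exact Real.sq_sqrt (by linarith)
  rw [← hR] at hw1
  obtain ⟨w0, ew0⟩ : ∃ w, w = ∫ x : E d, Wt d η ‖x‖ := ⟨_, rfl⟩
  obtain ⟨w1, ew1⟩ : ∃ w, w = ∫ x : E d, Wt d η ‖x‖ * ‖x‖ := ⟨_, rfl⟩
  rw [← ew0] at hw0 hmain hw1
  rw [← ew1] at hmain hw1
  have hw1n : 0 ≤ w1 := by
    rw [ew1]
    exact integral_nonneg fun x => mul_nonneg (hWn _) (norm_nonneg x)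
  have hlow : ρ * R * w0 ≤ w1 := by
    have e1 : (ρ * R * w0) ^ 2 ≤ w1 ^ 2 := by
      have hD : 0 < 2 * ((d : ℝ) - 1) ^ 2 * ((d : ℝ) + 2) * (1 + η) ^ 2 := by
        have : 0 < (d : ℝ) - 1 := by linarith
        positivity
      apply le_of_mul_le_mul_left _ hD
      calc 2 * ((d : ℝ) - 1) ^ 2 * ((d : ℝ) + 2) * (1 + η) ^ 2 * (ρ * R * w0) ^ 2
          = 2 * ((d : ℝ) - 1) ^ 2 * ((d : ℝ) + 2) * (1 + η) ^ 2 * ρ ^ 2 * R ^ 2 * w0 ^ 2 := by ring
        _ = 2 * ((d : ℝ) - 1) ^ 2 * ((d : ℝ) + 2) * ρ ^ 2 * (1 + η) ^ 3 * w0 ^ 2 := by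
            rw [hR2]; ring
        _ ≤ (d : ℝ) ^ 3 * w0 ^ 2 := mul_le_mul_of_nonneg_right hηle (sq_nonneg w0)
        _ ≤ _ := hmain
    exact abs_le_of_sq_le_sq' e1 hw1n |>.2
  -- scaled points
  have hcon : Contr 1 (fun i => R⁻¹ • p i) (fun i => R⁻¹ • q i) := by
    intro i j
    have h := hpq i j
    rw [one_mul] at h ⊢
    rw [dist_smul₀, dist_smul₀]
    exact mul_le_mul_of_nonneg_left h (norm_nonneg _)
  have hlin := h2 d N hd hN _ _ hcon b η hη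
  have hms : ∀ (a : Fin N → E d) (x : E d),
      ms 1 (fun i => R⁻¹ • a i) b x = ms (‖x‖ / R) a b (‖x‖⁻¹ • x) := by
    intro a x
    unfold ms
    congr 1
    funext i
    congr 2
    rw [real_inner_smul_left, real_inner_smul_right, one_mul]
    by_cases hx : x = 0
    · rw [hx, inner_zero_right]
      simp
    · have : ‖x‖ ≠ 0 := norm_ne_zero_iff.2 hx
      field_simp
  -- integrability
  have hmeas : ∀ (a : Fin N → E d) (σ : ℝ), Measurable (fun u : E d => ms σ a b u) := by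
    intro a σ
    have hc := (h1 d N hd0 hN a b).1
    exact (hc.comp (continuous_const.prodMk continuous_id)).measurable
  have hbd := fun (a : Fin N → E d) => (h1 d N hd0 hN a b).2.1
  have hint : ∀ a : Fin N → E d, Integrable (fun x : E d => Wt d η ‖x‖ * ms 1 a b x) := by
    intro a
    refine Integrable.mono' ((hi1.mul_const (∑ i, ‖a i‖)).add (hi0.mul_const (∑ i, |b i|)))
      ((hWm.comp measurable_norm).mul (hmeas a 1)).aestronglyMeasurable ?_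
    refine Filter.Eventually.of_forall fun x => ?_
    rw [Real.norm_eq_abs, abs_mul, abs_of_nonneg (hWn _)]
    have h5 := mul_le_mul_of_nonneg_left (hbd a 1 x) (hWn ‖x‖)
    rw [abs_one, one_mul] at h5
    refine h5.trans (le_of_eq ?_)
    simp only [Pi.add_apply]
    ring
  have hbd1 : ∀ (a : Fin N → E d) (σ : ℝ) (x : E d), ‖x‖ ≤ 1 →
      |ms σ a b x| ≤ |σ| * ∑ i, ‖a i‖ + ∑ i, |b i| := by
    intro a σ x hx
    refine (hbd a σ x).trans ?_
    have h5 : 0 ≤ ∑ i, ‖a i‖ := Finset.sum_nonneg fun i _ => norm_nonneg _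
    have h6 : |σ| * ‖x‖ * ∑ i, ‖a i‖ ≤ |σ| * ∑ i, ‖a i‖ :=
      mul_le_mul_of_nonneg_right (mul_le_of_le_one_right (abs_nonneg σ) hx) h5
    linarith
  -- side of `p`
  have hp : ∫ x : E d, Wt d η ‖x‖ * ms 1 (fun i => R⁻¹ • p i) b x ≤ w0 * aw 1 p b := by
    obtain ⟨hg1, hg2⟩ := avg h1 hd0 (φ := fun r => Wt d η r * r) (hWm.mul measurable_id) hi1
      (hmeas p 1) (hbd1 p 1)
    have hg3 : ∫ x : E d, Wt d η ‖x‖ * ms 1 (fun i => R⁻¹ • p i) b x ≤
        ∫ x : E d, R⁻¹ * (Wt d η ‖x‖ * ‖x‖ * ms 1 p b (‖x‖⁻¹ • x)) := by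
      refine integral_mono (hint _) (hg1.const_mul _) fun x => ?_
      simp only
      by_cases hx : 1 + η ≤ ‖x‖ ^ 2
      · rw [hWz _ hx]
        simp
      · have hxR : ‖x‖ ≤ R := by
          rw [hR]
          exact Real.le_sqrt_of_sq_le (not_le.1 hx).le
        have ht1 : ‖x‖ / R ≤ 1 := (div_le_one hRpos).2 hxR
        have ht0 : 0 ≤ ‖x‖ / R := by positivity
        have h5 : ms 1 (fun i => R⁻¹ • p i) b x ≤ ‖x‖ / R * ms 1 p b (‖x‖⁻¹ • x) := by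
          rw [hms]
          refine ms_le hN _ _ _ _ fun i => ?_
          have h6 := mul_le_mul_of_nonneg_left (le_ms 1 p b (‖x‖⁻¹ • x) i) ht0
          have h7 : ‖x‖ / R * b i ≤ b i := mul_le_of_le_one_left (hb i) ht1
          linarith
        have h6 := mul_le_mul_of_nonneg_left h5 (hWn ‖x‖)
        refine h6.trans (le_of_eq ?_)
        field_simp
    have hawp : 0 ≤ aw 1 p b := by
      unfold aw
      rw [setAverage_eq]
      exact smul_nonneg (by positivity) (integral_nonneg fun x => ms_nonneg hp0 hb0 _ _)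
    refine hg3.trans ?_
    rw [integral_const_mul]
    have e5 : ∫ x : E d, Wt d η ‖x‖ * ‖x‖ * ms 1 p b (‖x‖⁻¹ • x) = w1 * aw 1 p b := by
      rw [ew1]
      exact hg2
    rw [e5]
    have h5 : w1 * aw 1 p b ≤ R * w0 * aw 1 p b := mul_le_mul_of_nonneg_right hw1 hawp
    calc R⁻¹ * (w1 * aw 1 p b) ≤ R⁻¹ * (R * w0 * aw 1 p b) :=
          mul_le_mul_of_nonneg_left h5 (inv_nonneg.2 hRpos.le)
      _ = w0 * aw 1 p b := by field_simp
  -- side of `q`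
  have hq : w0 * aw ρ q b ≤ ∫ x : E d, Wt d η ‖x‖ * ms 1 (fun i => R⁻¹ • q i) b x := by
    have hk := fun u => kk_spec hN hρ hq0 hb0 hb u
    have hkb : ∀ x : E d, ‖x‖ ≤ 1 → |kk ρ q b x| ≤ ∑ i, ‖q i‖ := by
      intro x hx
      rw [abs_of_nonneg (hk x).1]
      refine (hk x).2.1.trans ?_
      exact mul_le_of_le_one_left (Finset.sum_nonneg fun i _ => norm_nonneg _) hx
    obtain ⟨g1, g1'⟩ := avg h1 hd0 (φ := Wt d η) hWm hi0 (hmeas q ρ) (hbd1 q ρ)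
    obtain ⟨g2, g2'⟩ := avg h1 hd0 (φ := Wt d η) hWm hi0 (kk_meas ρ q b) hkb
    obtain ⟨g3, g3'⟩ := avg h1 hd0 (φ := fun r => Wt d η r * r) (hWm.mul measurable_id) hi1
      (kk_meas ρ q b) hkb
    obtain ⟨κ, hκ⟩ : ∃ κ, κ = ⨍ x in ball (0 : E d) 1, kk ρ q b (‖x‖⁻¹ • x) := ⟨_, rfl⟩
    have hκ0 : 0 ≤ κ := by
      rw [hκ, setAverage_eq]
      exact smul_nonneg (by positivity) (integral_nonneg fun x => (hk _).1)
    rw [← hκ, ← ew0] at g2'
    have g3'' : ∫ x : E d, Wt d η ‖x‖ * ‖x‖ * kk ρ q b (‖x‖⁻¹ • x) = w1 * κ := by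
      rw [hκ, ew1]
      exact g3'
    have g1'' : ∫ x : E d, Wt d η ‖x‖ * ms ρ q b (‖x‖⁻¹ • x) = w0 * aw ρ q b := by
      rw [ew0]
      exact g1'
    have h5 : ∫ x : E d, (Wt d η ‖x‖ * ms ρ q b (‖x‖⁻¹ • x) +
        (R⁻¹ * (Wt d η ‖x‖ * ‖x‖ * kk ρ q b (‖x‖⁻¹ • x)) -
          ρ * (Wt d η ‖x‖ * kk ρ q b (‖x‖⁻¹ • x)))) ≤
        ∫ x : E d, Wt d η ‖x‖ * ms 1 (fun i => R⁻¹ • q i) b x := by
      refine integral_mono (g1.add ((g3.const_mul _).sub (g2.const_mul _))) (hint _) fun x => ?_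
      have h6 := mul_le_mul_of_nonneg_left ((hk (‖x‖⁻¹ • x)).2.2 (‖x‖ / R)) (hWn ‖x‖)
      simp only
      rw [hms]
      refine le_trans (le_of_eq ?_) h6
      field_simp
    have g3b : Integrable (fun x : E d => R⁻¹ * (Wt d η ‖x‖ * ‖x‖ * kk ρ q b (‖x‖⁻¹ • x))) :=
      g3.const_mul _
    have g2b : Integrable (fun x : E d => ρ * (Wt d η ‖x‖ * kk ρ q b (‖x‖⁻¹ • x))) :=
      g2.const_mul _
    have gd : Integrable (fun x : E d => R⁻¹ * (Wt d η ‖x‖ * ‖x‖ * kk ρ q b (‖x‖⁻¹ • x)) -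
        ρ * (Wt d η ‖x‖ * kk ρ q b (‖x‖⁻¹ • x))) := g3b.sub g2b
    rw [integral_add g1 gd, integral_sub g3b g2b, integral_const_mul,
      integral_const_mul, g1'', g3'', g2'] at h5
    have h6 : ρ * (w0 * κ) ≤ R⁻¹ * (w1 * κ) := by
      have h7 : ρ * R * w0 * κ ≤ w1 * κ := mul_le_mul_of_nonneg_right hlow hκ0
      calc ρ * (w0 * κ) = R⁻¹ * (ρ * R * w0 * κ) := by field_simp
        _ ≤ R⁻¹ * (w1 * κ) := mul_le_mul_of_nonneg_left h7 (inv_nonneg.2 hRpos.le)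
    linarith
  exact le_of_mul_le_mul_left (hq.trans (hlin.trans hp)) hw0

theorem sFStmt (h1 : BasStmt) (h2 : LinStmt) (h3 : MomStmt) : SFStmt := by
  intro d N hd p q hpq b i₀ hb hb0 ρ hρ hlt
  have hN : 0 < N := lt_of_le_of_lt (Nat.zero_le _) i₀.2
  have hd0 : 0 < d := by omega
  rcases hρ.eq_or_lt with h0 | hpos
  · subst h0
    have e1 : aw 0 q b = 0 := by
      unfold aw
      have e2 : ∀ u : E d, ms 0 q b u = 0 := by
        intro u
        refine le_antisymm (ms_le hN _ _ _ _ fun i => ?_) ?_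
        · have := hb i
          linarith
        · have := le_ms 0 q b u i₀
          rw [hb0] at this
          linarith
      simp only [e2]
      rw [setAverage_eq]
      simp
    have e2 := (h1 d N hd0 hN p b).2.2.1 1 (-(p i₀))
    rw [e1, ← e2]
    unfold aw
    rw [setAverage_eq]
    refine smul_nonneg (by positivity) (integral_nonneg fun x => ?_)
    exact ms_nonneg (i₀ := i₀) (by simp) hb0 _ _
  · have e1 := (h1 d N hd0 hN p b).2.2.1 1 (-(p i₀))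
    have e2 := (h1 d N hd0 hN q b).2.2.1 ρ (-(q i₀))
    rw [← e1, ← e2]
    refine core h1 h2 h3 d N hd _ _ ?_ b i₀ hb hb0 (by simp) (by simp) ρ hpos hlt
    intro i j
    simp only [dist_add_right]
    exact hpq i j

end Pool.Agent.Lib.MP_0c1c75_co.Ar
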