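import Pool.Agent.Lib.MP_0c1c75_co.JmpSpec
import Pool.Agent.Lib.MP_0c1c75_co.Spec4

/-!
MP_0c1c75_co: contractions by the factor `1/3` for arbitrary radii (helper32). Definitions and the
statements of all modules, as Props, with proofs in the docstrings.
-/

open MeasureTheory Set Metric

namespace Pool.Agent.Lib.MP_0c1c75_co.Jmp

/-- (module Kir) Kirszbraun's theorem for one more point. From `Thm2Stmt` (arbitrary radii):
`ρ_i = |p_i - x|`. For `ε > 0` the set `⋂ B(p_i, ρ_i + ε)` contains `B(x, ε)`, so it has positive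
volume; by `Thm2Stmt` the compact set `S ε = ⋂ B(q_i, ρ_i + ε)` has positive volume, hence it is not
empty. `⋂_k S (1/(k+1))` is not empty (compactness). -/
def KirStmt : Prop :=
  ∀ (d N : ℕ), 0 < d → 0 < N → ∀ (p q : Fin N → E d), Contr 1 p q → ∀ x : E d,
    ∃ o : E d, ∀ i, ‖q i - o‖ ≤ ‖p i - x‖

/-- (module UCore) The two motions and the estimates. From `JumpStmt`. `p'_i = p_i - x`,
`q'_i = q_i - o`; in `E (d+2)` (coordinates `(0, height, ...)`): `P s i = (0, √s h_i, √(1 - 2s/3) p'_i)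
+ up x`, `h_i = √(r_i² - |p'_i|²/3) ≥ √(2/3) r_i`; `|h_i - h_j| (h_i + h_j) ≤ (r_i + r_j)
(|r_i - r_j| + |p_i - p_j|/3) ≤ (r_i + r_j) (2/3) |p_i - p_j|`, so `(h_i - h_j)² ≤ (2/3) |p_i - p_j|²`,
and `|P s i - P s j|² = (1 - 2s/3) |p_i - p_j|² + s (h_i - h_j)²` does not increase.
`Q s i = (0, √(1-s) k_i, q'_i) + up o`, `k_i = √(r_i² - |q'_i|²) ≥ √(8/9) r_i`, `(k_i - k_j)² ≤
2 |q_i - q_j|²`. Jump: `|Q 0 i - Q 0 j|² = |q_ij|² + k_ij² ≤ 3 |q_ij|² ≤ |p_ij|²/3 ≤ |P 1 i - P 1 j|²`. -/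
def UCoreStmt : Prop :=
  ∀ (d N : ℕ) (p q : Fin N → E d) (r : Fin N → ℝ) (x o : E d), (∀ i, 0 < r i) →
    (∀ i, ‖p i - x‖ ≤ r i) → (∀ i, ‖q i - o‖ ≤ r i / 3) →
    (∀ i j, 3 * dist (q i) (q j) ≤ dist (p i) (p j)) →
    (∀ i j, |r i - r j| ≤ dist (q i) (q j)) →
    volume (⋂ i, closedBall (p i) (r i)) ≤ volume (⋂ i, closedBall (q i) (r i))

/-- (module URed) Theorem U. From `UCoreStmt`, `KirStmt`. Induction on `N`. If `|q_i - q_j| ≤
|r_i - r_j|`, `r_j ≤ r_i` for some `i ≠ j`, then `B(q_j, r_j) ⊆ B(q_i, r_i)`; delete the index `i`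
(`Fin.succAbove i`): the intersection for `q` does not change, the one for `p` grows. Otherwise: if some
`r_i ≤ 0` the left side is zero (`d > 0`); if the left intersection is empty trivial; else take `x` in
it, `KirStmt` for `p`, `3 • q` gives `o'` with `|3 q_i - o'| ≤ |p_i - x| ≤ r_i`, `o = o'/3`. `d = 0`:
all points are equal. -/
def UStmt : Prop :=
  ∀ (d N : ℕ) (p q : Fin N → E d) (r : Fin N → ℝ), Contr (1 / 3) p q →
    volume (⋂ i, closedBall (p i) (r i)) ≤ volume (⋂ i, closedBall (q i) (r i))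

/-- the constant -/
noncomputable def Cc (d : ℕ) (c : ℝ) : ℝ :=
  (1 - max 0 ((3 * c - 1) / 2) + max 0 ((3 * c - 1) / 2) * Cp d ^ (-(1 / (d : ℝ)))) ^ (-(d : ℝ))

/-- (module UInt) Interpolation. From `UStmt`, `Thm2pStmt`, `BMStmt`, `VrBasicStmt`. `c ≤ 1/3`: the
constant is `1` (`UStmt`). `c > 1/3`: `q' = q / c` is a contraction of `p`, `s = (3c-1)/2`,
`q = (1-s) (q'/3) + s q'`, `⋂ B(q_i, r_i) ⊇ (1-s) ⋂ B(q'_i/3, r_i) + s ⋂ B(q'_i, r_i)`; if the left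
side has volume zero trivial; else both are not empty (`UStmt`, `Thm2pStmt`), compact, and
`vr (⋂ B(q'_i/3, r_i)) ≥ v`, `vr (⋂ B(q'_i, r_i)) ≥ Cp d ^ (-1/d) v`, `v = vr (⋂ B(p_i, r_i))`. -/
def UIntStmt : Prop :=
  ∀ (d N : ℕ), 2 ≤ d → ∀ (c : ℝ) (p q : Fin N → E d), 0 ≤ c → c ≤ 1 → Contr c p q →
    ∀ r : Fin N → ℝ, volume (⋂ i, closedBall (p i) (r i)) ≤
      ENNReal.ofReal (Cc d c) * volume (⋂ i, closedBall (q i) (r i))

end Pool.Agent.Lib.MP_0c1c75_co.Jmp
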