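import Pool.Agent.Lib.MP_0c1c75_co.Spec
import Pool.Agent.Lib.MP_0c1c75_co.Spec4
import Pool.Agent.Lib.MP_0c1c75_co.JmpUSpec

/-!
MP_0c1c75_co: the exact Kneser-Poulsen inequality for arbitrary radii and contractions by a factor
`c` with `c / (1 - c²) < κ_d`, `κ_d² = d³ / (2 (d-1)² (d+2)) > 1/2` (so `c ≤ 0.517` in every dimension
and `c ≤ 0.562` in dimension three). Theorem AR of note 3664, with a sharper comparison (the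
linearization of `GPlusStmt` instead of the sphere of dimension `2d - 1`). Definitions and the
statements of all modules, as Props, with complete proofs in the docstrings. The modules are
independent of each other: module `X` is the file `ArX.lean` (imports this file and Mathlib) with
`theorem xStmt (hypotheses: the statements named in the docstring) : XStmt`.

Plan. `K_P = ⋂ B(p_i, r_i)`, `f_P = vr K_P`, `r_0 = min r_i`, `b_i = r_i - r_0 ≥ 0`,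
`a_p(ρ) =` average over unit vectors `u` of `max_i (-ρ <p_i,u> - b_i)`.
(1) (Circ) `o`, `t` with `|p_i - o|² + t² ≤ r_i²`, `K_P ⊆ B(o,t)`, so `f_P ≤ t`.
(2) Kirszbraun: `|q_i - o'| ≤ c |p_i - o|`, so `|q_i - o'|² + ((1-c²) r_i + c² t)² ≤ r_i²`.
(3) (Rad) `f_Q ≥ (1-c²)(r_0 - a_(q/c)(c/(1-c²))) + c² t`.
(4) (Ury) `f_P ≤ r_0 - a_p(1)`.
(5) (SF) `a_(q/c)(c/(1-c²)) ≤ a_p(1)`. Hence `f_Q ≥ (1-c²) f_P + c² f_P = f_P`.
-/

open MeasureTheory Set Metric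

namespace Pool.Agent.Lib.MP_0c1c75_co.Ar

/-- `max_i (-ρ <p_i, u> - b_i)` -/
noncomputable def ms {d N : ℕ} (ρ : ℝ) (p : Fin N → E d) (b : Fin N → ℝ) (u : E d) : ℝ :=
  ⨆ i, (-(ρ * inner ℝ (p i) u) - b i)

/-- its average over the unit vectors `u = x / |x|` -/
noncomputable def aw {d N : ℕ} (ρ : ℝ) (p : Fin N → E d) (b : Fin N → ℝ) : ℝ :=
  ⨍ x in ball (0 : E d) 1, ms ρ p b (‖x‖⁻¹ • x)

/-- the weight `(1 + η - ρ²)_+^(d/2-1) - (1 - ρ²)_+^(d/2-1)` -/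
noncomputable def Wt (d : ℕ) (η ρ : ℝ) : ℝ :=
  (max (1 + η - ρ ^ 2) 0) ^ ((d : ℝ) / 2 - 1) - (max (1 - ρ ^ 2) 0) ^ ((d : ℝ) / 2 - 1)

/-! ## Module Bas -/

/-- Elementary facts. (1) continuity (a finite supremum). (2) bound. (3) `ms ρ (p + v) b u =
ms ρ p b u - ρ <v,u>` and the average of `<v, x/|x|>` over the ball is `0` (symmetry `x ↦ -x`).
(4) `ms ρ p (b + c) u = ms ρ p b u - c`. (5), (6) scaling. (7) polar coordinates: the average over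
the ball of `g (x/|x|)` is the average over the unit sphere (see Polar.lean, `Polar.int`,
`MeasureTheory.Measure.measurePreserving_homeomorphUnitSphereProd`); for `g = 1` this gives
the constant. -/
def BasStmt : Prop :=
  ∀ (d N : ℕ), 0 < d → 0 < N → ∀ (p : Fin N → E d) (b : Fin N → ℝ),
    Continuous (fun z : ℝ × E d => ms z.1 p b z.2) ∧
    (∀ (ρ : ℝ) (u : E d), |ms ρ p b u| ≤ |ρ| * ‖u‖ * ∑ i, ‖p i‖ + ∑ i, |b i|) ∧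
    (∀ (ρ : ℝ) (v : E d), aw ρ (fun i => p i + v) b = aw ρ p b) ∧
    (∀ (ρ c : ℝ), aw ρ p (fun i => b i + c) = aw ρ p b - c) ∧
    (∀ (ρ c : ℝ), aw ρ (fun i => c • p i) b = aw (ρ * c) p b) ∧
    (∀ (ρ s : ℝ), 0 ≤ s → aw (s * ρ) p (fun i => s * b i) = s * aw ρ p b) ∧
    (∀ (φ : ℝ → ℝ) (g : E d → ℝ), Measurable φ → Integrable (fun x : E d => φ ‖x‖) →
      Measurable g → (∃ M : ℝ, ∀ x, |g x| ≤ M) →
      Integrable (fun x : E d => φ ‖x‖ * g (‖x‖⁻¹ • x)) ∧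
      ∫ x : E d, φ ‖x‖ * g (‖x‖⁻¹ • x) =
        (∫ x : E d, φ ‖x‖) * ⨍ x in ball (0 : E d) 1, g (‖x‖⁻¹ • x))

/-! ## Module Lin -/

/-- Linearization of `GPlusStmt`. `α = d/2 - 1 ≥ 1/2`, `Φ u = (max u 0)^(α+1) / (α+1)`, of class `C¹`,
`Φ' u = (max u 0)^α`. For `0 < ε ≤ 1` apply `GPlusStmt` to `ε p_i`, `ε q_i`, `a_i = 2 ε b_i` for all
`s ∈ [1, 1+η]` and integrate over `s` (Tonelli; the integral over `{G < s}` is the integral of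
`(max (s - G) 0)^α` over the whole space): `I_p(ε) ≤ I_q(ε)`,
`I_p(ε) = ∫ (Φ (1+η-G) - Φ (1-G))`, `G = gmax (ε p) a = |x|² + 2 ε M_ε(x)`,
`M_ε(x) = max_i (-<p_i,x> - b_i + (ε/2) |p_i|²)`, `|M_ε - ms 1 p b| ≤ ε ∑ |p_i|²`. Everything
vanishes outside a ball which does not depend on `ε ≤ 1`. Dominated convergence:
`(I_p(ε) - I_p(0)) / ε → -2 ∫ Wt d η ‖x‖ * ms 1 p b x`, and `I_p(0) = I_q(0)`. -/
def LinStmt : Prop :=
  ∀ (d N : ℕ), 3 ≤ d → 0 < N → ∀ (p q : Fin N → E d), Contr 1 p q → ∀ (b : Fin N → ℝ) (η : ℝ),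
    0 < η → ∫ x : E d, Wt d η ‖x‖ * ms 1 q b x ≤ ∫ x : E d, Wt d η ‖x‖ * ms 1 p b x

/-! ## Module Jac -/

/-- One real integral. `d/dρ (ρ^m (1-ρ²)^(α+1)) = m ρ^(m-1) (1-ρ²)^(α+1) - 2(α+1) ρ^(m+1) (1-ρ²)^α` for
`0 ≤ ρ < 1`, continuous on `[0,1]`, zero at both ends; `(1-ρ²)^(α+1) = (1-ρ²)^α - ρ² (1-ρ²)^α`;
`2 (α+1) = d`. So `(m + d) J(m+1) = m J(m-1)`. -/
def JacStmt : Prop :=
  ∀ (d m : ℕ), 3 ≤ d → 1 ≤ m →
    ((m : ℝ) + d) * ∫ ρ in (0 : ℝ)..1, ρ ^ (m + 1) * (1 - ρ ^ 2) ^ ((d : ℝ) / 2 - 1) =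
      m * ∫ ρ in (0 : ℝ)..1, ρ ^ (m - 1) * (1 - ρ ^ 2) ^ ((d : ℝ) / 2 - 1)

/-! ## Module Mom -/

/-- Moments of the weight. From `JacStmt`. `α = d/2 - 1`, `K_j = ∫ (max (1-|x|²) 0)^α |x|^j`
(over `E d`), `w_j = ∫ Wt d η |x| |x|^j`. (a) scaling `x = √v y`: `∫ (max (v-|x|²) 0)^α |x|^j =
v^(d-1+j/2) K_j`, so `w_j = ((1+η)^(d-1+j/2) - 1) K_j`. (b) polar coordinates: `K_j = C J(d-1+j)`
with `J(m) = ∫_0^1 ρ^m (1-ρ²)^α`, so `K_2 = K_0 / 2` and `K_4 = (d+2)/(4(d+1)) K_0` by `JacStmt`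
(`m = d`, `m = d + 2`). (c) `((1+η)^a - 1)/a` is nondecreasing and `(1 - (1+η)^(-a))/a` is
nonincreasing in `a > 0`, so `w_2/w_0 ≥ d/(2(d-1))` and `w_4/w_0 ≤ (d+2)(1+η)²/(4(d-1))`.
(d) Hölder: `w_2³ ≤ w_1² w_4`. Hence `w_1²/w_0² ≥ (w_2/w_0)³/(w_4/w_0) ≥
d³/(2(d-1)²(d+2)(1+η)²)`. The last statement: `|x|² ≤ 1 + η` where the weight is not zero. -/
def MomStmt : Prop :=
  ∀ (d : ℕ), 3 ≤ d → ∀ η : ℝ, 0 < η →
    Measurable (Wt d η) ∧ (∀ ρ, 0 ≤ Wt d η ρ) ∧ (∀ ρ, 1 + η ≤ ρ ^ 2 → Wt d η ρ = 0) ∧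
    Integrable (fun x : E d => Wt d η ‖x‖) ∧ Integrable (fun x : E d => Wt d η ‖x‖ * ‖x‖) ∧
    0 < ∫ x : E d, Wt d η ‖x‖ ∧
    (d : ℝ) ^ 3 * (∫ x : E d, Wt d η ‖x‖) ^ 2 ≤
      2 * ((d : ℝ) - 1) ^ 2 * ((d : ℝ) + 2) * (1 + η) ^ 2 *
        (∫ x : E d, Wt d η ‖x‖ * ‖x‖) ^ 2 ∧
    (∫ x : E d, Wt d η ‖x‖ * ‖x‖) ≤ √(1 + η) * ∫ x : E d, Wt d η ‖x‖

/-! ## Module SF -/

/-- Comparison of the averages. From `BasStmt`, `LinStmt`, `MomStmt`. By (3) of `BasStmt` we may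
assume `p i₀ = q i₀ = 0`, so `ms ≥ 0` everywhere. `ρ = 0`: `ms 0 q b = 0`. Let `ρ > 0`. Take `η > 0` with
`2(d-1)²(d+2) ρ² (1+η)³ ≤ d³`, `R = √(1+η)`, `w_0 = ∫ Wt`, `w_1 = ∫ Wt |x|`; so `ρ R w_0 ≤ w_1 ≤ R w_0`.
`LinStmt` for `p_i/R`, `q_i/R`, `b`.
Side of `p`: if `|x| ≤ R`, `u = x/|x|`, then (as `b ≥ 0`)
`ms 1 (p/R) b x ≤ (|x|/R) ms 1 p b u`; so the right side is `≤ (w_1/R) aw 1 p b ≤ w_0 aw 1 p b`.
Side of `q`: for a vector `u` let `i(u)` be the first index where `-ρ <q_i,u> - b_i` is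
maximal (measurable in `u`, finitely many values); `-<q_(i(u)),u> ≥ 0`, because the maximum is `≥ 0`
and `b ≥ 0`. `ms 1 (q/R) b x ≥ -(|x|/R) <q_(i(u)),u> - b_(i(u))`; integrate ((7) of `BasStmt` with
`φ = Wt` and `φ = Wt |x|`): the left side is `≥` the average of
`w_1/R (-<q_(i(u)),u>) - w_0 b_(i(u)) ≥ w_0 (-ρ <q_(i(u)),u> - b_(i(u)))`, which is
`w_0 aw ρ q b`. -/
def SFStmt : Prop :=
  ∀ (d N : ℕ), 3 ≤ d → ∀ (p q : Fin N → E d), Contr 1 p q → ∀ (b : Fin N → ℝ) (i₀ : Fin N),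
    (∀ i, 0 ≤ b i) → b i₀ = 0 → ∀ ρ : ℝ, 0 ≤ ρ →
    2 * ((d : ℝ) - 1) ^ 2 * ((d : ℝ) + 2) * ρ ^ 2 < (d : ℝ) ^ 3 → aw ρ q b ≤ aw 1 p b

/-! ## Module Ury -/

/-- Urysohn's inequality for different radii: `h_K(u) ≤ min_i (<p_i,u> + r_i) = -ms 1 p r u` for unit
`u`. Same proof as `urysohnStmt` in Urysohn.lean with `r - hs p (-u)` replaced by `-ms 1 p r u`
(`K` nonempty, so `r_i ≥ 0` and `-aw 1 p r ≥ 0`: the average of `<z,u>`, `z ∈ K`, is zero). -/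
def UryStmt : Prop :=
  ∀ (d N : ℕ), 0 < d → 0 < N → ∀ (p : Fin N → E d) (r : Fin N → ℝ),
    (⋂ i, closedBall (p i) (r i)).Nonempty → vr (⋂ i, closedBall (p i) (r i)) ≤ -aw 1 p r

/-! ## Module Rad -/

/-- Lower bound by the radial function and Jensen's inequality. `o = 0` by translation ((3) of
`BasStmt`). For a unit vector `u` and `0 ≤ ρ ≤ min_i (<q_i,u> + w_i) = -ms 1 q w u` the point `ρ u` is in
all balls: `|ρ u - q_i|² = (ρ - <q_i,u>)² + |q_i|² - <q_i,u>²` and `-<q_i,u> ≤ ρ - <q_i,u> ≤ w_i`. So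
`{x : |x| ≤ max (-ms 1 q w (x/|x|)) 0} ⊆ K`; `PolarStmt` (1) and Jensen for `t ↦ (max t 0)^d`. As in
Radial.lean. -/
def RadStmt : Prop :=
  ∀ (d N : ℕ), 0 < d → 0 < N → ∀ (q : Fin N → E d) (o : E d) (r w : Fin N → ℝ),
    (∀ i, 0 ≤ r i) → (∀ i, 0 ≤ w i) → (∀ i, ‖q i - o‖ ^ 2 + w i ^ 2 ≤ r i ^ 2) →
    -aw 1 q w ≤ vr (⋂ i, closedBall (q i) (r i))

/-! ## Module Circ -/

/-- The point with the largest minimal power. `φ x = min_i (r_i² - |x - p_i|²)` is continuous, tends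
to `-∞`, `o` a maximum, `t² = φ o ≥ 0` (`φ ≥ 0` on the intersection, which is not empty). For `y` in the
intersection and `0 < s < 1`: `φ ((1-s) o + s y) ≥ (1-s) φ o + s φ y + s (1-s) |o-y|²` (each
`r_i² - |x-p_i|²` satisfies this with equality), so `(1-s) |o-y|² ≤ φ o - φ y ≤ t²`, `s → 0`. -/
def CircStmt : Prop :=
  ∀ (d N : ℕ), 0 < N → ∀ (p : Fin N → E d) (r : Fin N → ℝ), (∀ i, 0 ≤ r i) →
    (⋂ i, closedBall (p i) (r i)).Nonempty →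
    ∃ (o : E d) (t : ℝ), 0 ≤ t ∧ (∀ i, ‖p i - o‖ ^ 2 + t ^ 2 ≤ r i ^ 2) ∧
      (⋂ i, closedBall (p i) (r i)) ⊆ closedBall o t

/-! ## Module Main -/

/-- Theorem AR. From `BasStmt`, `SFStmt`, `UryStmt`, `RadStmt`, `CircStmt`, `Jmp.KirStmt`,
`VrBasicStmt`, `Thm2pStmt` and `Cp 2 = 1` (`Cp_two` in CdBound.lean). `N = 0`, a negative radius or
an empty intersection on the left: trivial. `d = 2`: `Thm2pStmt` (a `c`-contraction is a contraction).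
`d ≥ 3`: we may assume `c > 0` (otherwise take `c = 1/10`: `(d-1)²(d+2) ≤ d³`). `(o,t)` from `CircStmt`;
`q' = q/c` is a contraction of `p`, `Jmp.KirStmt` gives `o'` with `|q_i - o'| ≤ c |p_i - o|`;
`w_i = (1-c²) r_i + c² t`, `w_i² ≤ (1-c²) r_i² + c² t²` (convexity), so
`|q_i - o'|² + w_i² ≤ c² (r_i² - t²) + (1-c²) r_i² + c² t² = r_i²`. Let `r_(i₀)` be the smallest radius,
`b_i = r_i - r_(i₀)`, `ρ = c/(1-c²)`. `RadStmt`, `BasStmt` (4)-(6):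
`vr K_Q ≥ -aw 1 q w = (1-c²)(r_(i₀) - aw ρ q' b) + c² t`; `UryStmt`: `vr K_P ≤ r_(i₀) - aw 1 p b`;
`SFStmt`: `aw ρ q' b ≤ aw 1 p b`; `vr K_P ≤ t`. So `vr K_Q ≥ (1-c²) vr K_P + c² vr K_P`. -/
def MainStmt : Prop :=
  ∀ (d N : ℕ), 2 ≤ d → ∀ c : ℝ, 0 ≤ c → c < 1 →
    2 * ((d : ℝ) - 1) ^ 2 * ((d : ℝ) + 2) * c ^ 2 < (d : ℝ) ^ 3 * (1 - c ^ 2) ^ 2 →
    ∀ (p q : Fin N → E d), Contr c p q → ∀ r : Fin N → ℝ,
      volume (⋂ i, closedBall (p i) (r i)) ≤ volume (⋂ i, closedBall (q i) (r i))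

/-! ## Module Int -/

/-- the factor for which the inequality is exact -/
noncomputable def c0 (d : ℕ) : ℝ := if d = 3 then 0.562 else 0.517

/-- the exponent of the interpolation -/
noncomputable def sC (d : ℕ) (c : ℝ) : ℝ := max 0 ((c - c0 d) / (1 - c0 d))

/-- the constant -/
noncomputable def Cc (d : ℕ) (c : ℝ) : ℝ :=
  (1 - sC d c + sC d c * Cp d ^ (-(1 / (d : ℝ)))) ^ (-(d : ℝ))

/-- Interpolation, as `Jmp.uIntStmt` (JmpUInt.lean) with `c0 d` instead of `1/3`. From `MainStmt`,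
`Thm2pStmt`, `BMStmt`, `VrBasicStmt`. `c0 d` satisfies the inequality of `MainStmt`: `d = 3`:
`40 * 0.562² < 27 (1 - 0.562²)²`; otherwise `(d-1)²(d+2) ≤ d³` and `2 * 0.517² < (1 - 0.517²)²`.
`c ≤ c0 d`: the constant is `1`. `c > c0 d`: `q' = q/c`, `s = sC d c`, `c = (1-s) c0 + s`,
`q = (1-s)(c0 q') + s q'`, `⋂ B(q_i, r_i) ⊇ (1-s) ⋂ B(c0 q'_i, r_i) + s ⋂ B(q'_i, r_i)`. -/
def IntStmt : Prop :=
  ∀ (d N : ℕ), 2 ≤ d → ∀ (c : ℝ) (p q : Fin N → E d), 0 ≤ c → c ≤ 1 → Contr c p q →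
    ∀ r : Fin N → ℝ, volume (⋂ i, closedBall (p i) (r i)) ≤
      ENNReal.ofReal (Cc d c) * volume (⋂ i, closedBall (q i) (r i))

end Pool.Agent.Lib.MP_0c1c75_co.Ar
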