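import Pool.Agent.Lib.MP_0c1c75_co.CluSpec

/-!
MP_0c1c75_co, clusters: module ApproxC (approximation by combinations of linearly independent
vectors).
-/

open MeasureTheory Set Filter Topology
open scoped ContDiff

namespace Pool.Agent.Lib.MP_0c1c75_co.Clu

open Pool.Agent.Lib.MP_0c1c75_co.Few (lift4 lift2)

namespace ApproxC

theorem lift4_cases {d : ℕ} (k : Fin (d + 4)) :
    (∀ x : Fin d → ℝ, lift4 x k = 0) ∨ ∃ j : Fin d, ∀ x : Fin d → ℝ, lift4 x k = x j := by
  refine Fin.cases ?_ (fun k => ?_) k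
  · left
    intro x
    rfl
  refine Fin.cases ?_ (fun k => ?_) k
  · left
    intro x
    rfl
  refine Fin.cases ?_ (fun k => ?_) k
  · left
    intro x
    rfl
  refine Fin.cases ?_ (fun k => ?_) k
  · left
    intro x
    rfl
  · right
    exact ⟨k, fun x => rfl⟩

theorem lift_dist {d : ℕ} (x y : Fin d → ℝ) :
    ∑ k, (lift4 x k - lift4 y k) ^ 2 = ∑ k, (x k - y k) ^ 2 := by
  simp [lift4, lift2, Fin.sum_univ_succ]

theorem exists_span {E : Type*} [AddCommGroup E] [Module ℝ E] (S : Submodule ℝ E)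
    [FiniteDimensional ℝ S] {e : ℕ} (h : Module.finrank ℝ S ≤ e) :
    ∃ w : Fin e → E, ∀ x ∈ S, ∃ c : Fin e → ℝ, x = ∑ a, c a • w a := by
  have b := Module.finBasis ℝ S
  refine ⟨fun a => if ha : (a : ℕ) < Module.finrank ℝ S then (b ⟨a, ha⟩ : E) else 0,
    fun x hx => ?_⟩
  refine ⟨fun a => if ha : (a : ℕ) < Module.finrank ℝ S then b.repr ⟨x, hx⟩ ⟨a, ha⟩ else 0, ?_⟩
  have h1 : (⟨x, hx⟩ : S) = ∑ i, b.repr ⟨x, hx⟩ i • b i := (b.sum_repr ⟨x, hx⟩).symm
  have h2 : x = ∑ i, b.repr ⟨x, hx⟩ i • (b i : E) := by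
    have h3 : ((⟨x, hx⟩ : S) : E) = ((∑ i, b.repr ⟨x, hx⟩ i • b i : S) : E) :=
      congrArg Subtype.val h1
    rw [Submodule.coe_sum] at h3
    exact h3
  refine h2.trans (Fintype.sum_of_injective (Fin.castLE h) (Fin.castLE_injective h) _ _ ?_ ?_)
  · intro a ha
    have h4 : ¬ (a : ℕ) < Module.finrank ℝ S := by
      intro h5
      exact ha ⟨⟨a, h5⟩, Fin.ext rfl⟩
    simp only [dif_neg h4, smul_zero]
  · intro i
    have h4 : ((Fin.castLE h i : Fin e) : ℕ) < Module.finrank ℝ S := i.2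
    simp only [dif_pos h4]
    rfl

theorem det_ev {ι : Type} [Fintype ι] [DecidableEq ι] (B : Matrix ι ι ℝ) :
    ∀ᶠ t in 𝓝[≠] (0 : ℝ), (B + t • (1 : Matrix ι ι ℝ)).det ≠ 0 := by
  have hne : (-B).charpoly ≠ 0 := (Matrix.charpoly_monic _).ne_zero
  have hfin := Polynomial.finite_setOfPred_isRoot hne
  have hfin2 : ({t | (-B).charpoly.IsRoot t} \ {0}).Finite := hfin.subset Set.sdiff_subset
  have hmem : ({t | (-B).charpoly.IsRoot t} \ {0})ᶜ ∈ 𝓝 (0 : ℝ) :=
    hfin2.isClosed.isOpen_compl.mem_nhds (by simp)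
  filter_upwards [nhdsWithin_le_nhds hmem, self_mem_nhdsWithin] with t ht ht0
  intro hdet
  apply ht
  refine ⟨?_, ht0⟩
  show (-B).charpoly.eval t = 0
  rw [Matrix.eval_charpoly]
  refine Eq.trans ?_ hdet
  congr 1
  ext i k
  simp only [Matrix.sub_apply, Matrix.neg_apply, Matrix.add_apply, Matrix.smul_apply,
    Matrix.scalar_apply, Matrix.diagonal_apply, Matrix.one_apply, smul_eq_mul]
  split_ifs <;> ring

/-- the rows -/
noncomputable def B0 {N d e k : ℕ} (p : Fin N → Fin d → ℝ) (r : Fin k → Fin N)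
    (w : Fin e → Fin d → ℝ) (eq : Fin e ⊕ Fin k ≃ Fin (d + 4)) :
    Matrix (Fin e ⊕ Fin k) (Fin e ⊕ Fin k) ℝ :=
  fun a x => Sum.elim (fun a => lift4 (w a) (eq x)) (fun c => lift4 (p (r c)) (eq x)) a

theorem vec_B0 {N d e k : ℕ} (p : Fin N → Fin d → ℝ) (cl : Fin N → Fin k) (r : Fin k → Fin N)
    (w : Fin e → Fin d → ℝ) (eq : Fin e ⊕ Fin k ≃ Fin (d + 4)) (al : Fin N → Fin e → ℝ)
    (h : ∀ i, p i - p (r (cl i)) = ∑ a, al i a • w a) (t : ℝ) (i : Fin N)
    (x : Fin e ⊕ Fin k) :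
    Matrix.vecMul (av al cl i) (B0 p r w eq + t • (1 : Matrix _ _ ℝ)) x =
      lift4 (p i) (eq x) + t * av al cl i x := by
  rw [Matrix.vecMul_add, Matrix.vecMul_smul, Matrix.vecMul_one]
  show Matrix.vecMul (av al cl i) (B0 p r w eq) x + t * av al cl i x = _
  congr 1
  unfold Matrix.vecMul dotProduct
  rw [Fintype.sum_sum_type]
  show ∑ a, al i a * lift4 (w a) (eq x) +
    ∑ c, (Pi.single (cl i) (1 : ℝ) : Fin k → ℝ) c * lift4 (p (r c)) (eq x) = _
  have h1 : ∑ c, (Pi.single (cl i) (1 : ℝ) : Fin k → ℝ) c * lift4 (p (r c)) (eq x) =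
      lift4 (p (r (cl i))) (eq x) := by
    rw [Finset.sum_eq_single (cl i)]
    · rw [Pi.single_eq_same, one_mul]
    · intro c _ hc
      rw [Pi.single_eq_of_ne hc, zero_mul]
    · intro h
      exact absurd (Finset.mem_univ _) h
  rw [h1]
  rcases lift4_cases (eq x) with h2 | ⟨j, h2⟩
  · simp only [h2, mul_zero, Finset.sum_const_zero, add_zero]
  · simp only [h2]
    have h3 := congrFun (h i) j
    rw [Finset.sum_apply] at h3
    simp only [Pi.sub_apply, Pi.smul_apply, smul_eq_mul] at h3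
    linarith

end ApproxC

open ApproxC in
theorem approxCStmt : ApproxCStmt := by
  intro d N e k p q cl hcl hpq hfin eq ε hε
  obtain ⟨w, hw⟩ := exists_span (spn p q cl) hfin
  obtain ⟨r, hr⟩ : ∃ r : Fin k → Fin N, ∀ c, cl (r c) = c :=
    ⟨Function.surjInv hcl, Function.surjInv_eq hcl⟩
  have hmem : ∀ i, (p i - p (r (cl i)), q i - q (r (cl i))) ∈ spn p q cl := fun i =>
    Submodule.subset_span ⟨i, r (cl i), (hr (cl i)).symm, rfl⟩
  choose al hal using fun i => hw _ (hmem i)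
  have halp : ∀ i, p i - p (r (cl i)) = ∑ a, al i a • (w a).1 := by
    intro i
    have h1 := congrArg Prod.fst (hal i)
    rw [Prod.fst_sum] at h1
    exact h1
  have halq : ∀ i, q i - q (r (cl i)) = ∑ a, al i a • (w a).2 := by
    intro i
    have h1 := congrArg Prod.snd (hal i)
    rw [Prod.snd_sum] at h1
    exact h1
  have hvp := vec_B0 p cl r (fun a => (w a).1) eq al halp
  have hvq := vec_B0 q cl r (fun a => (w a).2) eq al halq
  -- the strict inequalities
  have E1 : ∀ᶠ t in 𝓝 (0 : ℝ), ∀ i j, i ≠ j →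
      ∑ x, ((lift4 (q i) (eq x) + t * av al cl i x) - (lift4 (q j) (eq x) + t * av al cl j x)) ^ 2 <
      ∑ x, ((lift4 (p i) (eq x) + t * av al cl i x) -
        (lift4 (p j) (eq x) + t * av al cl j x)) ^ 2 := by
    rw [eventually_all]
    intro i
    rw [eventually_all]
    intro j
    by_cases hij : i = j
    · exact Eventually.of_forall fun t hne => absurd hij hne
    · have hc : ∀ u : Fin N → Fin d → ℝ, ContinuousAt (fun t : ℝ =>
          ∑ x, ((lift4 (u i) (eq x) + t * av al cl i x) -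
            (lift4 (u j) (eq x) + t * av al cl j x)) ^ 2) 0 := by
        intro u
        refine Continuous.continuousAt ?_
        refine continuous_finsetSum _ fun x _ => ?_
        fun_prop
      have hv : ∀ u : Fin N → Fin d → ℝ,
          ∑ x, ((lift4 (u i) (eq x) + 0 * av al cl i x) -
            (lift4 (u j) (eq x) + 0 * av al cl j x)) ^ 2 = ∑ x, (u i x - u j x) ^ 2 := by
        intro u
        simp only [zero_mul, add_zero]
        rw [← lift_dist (u i) (u j)]
        exact Equiv.sum_comp eq (fun z => (lift4 (u i) z - lift4 (u j) z) ^ 2)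
      have h1 := (hc q).eventually_lt (hc p) (by
        show ∑ x, ((lift4 (q i) (eq x) + 0 * av al cl i x) -
            (lift4 (q j) (eq x) + 0 * av al cl j x)) ^ 2 <
          ∑ x, ((lift4 (p i) (eq x) + 0 * av al cl i x) -
            (lift4 (p j) (eq x) + 0 * av al cl j x)) ^ 2
        rw [hv q, hv p]
        exact hpq i j hij)
      filter_upwards [h1] with t ht _
      exact ht
  have E2 : ∀ᶠ t in 𝓝 (0 : ℝ), ∀ i x, |t * av al cl i x| < ε := by
    rw [eventually_all]
    intro i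
    rw [eventually_all]
    intro x
    have h1 : ContinuousAt (fun t : ℝ => |t * av al cl i x|) 0 := by
      refine Continuous.continuousAt ?_
      fun_prop
    refine h1.eventually_lt_const ?_
    show |0 * av al cl i x| < ε
    rw [zero_mul, abs_zero]
    exact hε
  have E3 : ∀ᶠ t in 𝓝[≠] (0 : ℝ), _ := nhdsWithin_le_nhds (E1.and E2)
  obtain ⟨t, ⟨h1, h2⟩, h3, h4⟩ := (E3.and ((det_ev (B0 p r (fun a => (w a).1) eq)).and
    (det_ev (B0 q r (fun a => (w a).2) eq)))).exists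
  refine ⟨al, B0 p r (fun a => (w a).1) eq + t • (1 : Matrix _ _ ℝ),
    B0 q r (fun a => (w a).2) eq + t • (1 : Matrix _ _ ℝ), h3, h4, ?_, ?_, ?_⟩
  · intro i j hij
    simp only [hvp, hvq]
    exact h1 i j hij
  · intro i x
    rw [hvp, add_sub_cancel_left]
    exact h2 i x
  · intro i x
    rw [hvq, add_sub_cancel_left]
    exact h2 i x

end Pool.Agent.Lib.MP_0c1c75_co.Clu
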