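import Pool.Agent.Lib.MP_0c1c75_co.CluSpec

/-!
MP_0c1c75_co, clusters: support box and bounds of a profile.
-/

set_option autoImplicit false

open MeasureTheory Set
open scoped ContDiff

namespace Pool.Agent.Lib.MP_0c1c75_co.Clu

open Pool.Agent.Lib.MP_0c1c75_co.Few (Prof)

namespace Box

theorem smooth1 {Φ : ℝ → ℝ} (h : ContDiff ℝ ∞ Φ) : Differentiable ℝ Φ ∧ ContDiff ℝ ∞ (deriv Φ) :=
  contDiff_infty_iff_deriv.1 h

/-- everything vanishes for large arguments -/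
theorem large {Φ : ℝ → ℝ} (h : Prof Φ) : ∃ T : ℝ, 0 ≤ T ∧ ∀ s, T < s →
    Φ s = 0 ∧ deriv Φ s = 0 ∧ deriv (deriv Φ) s = 0 := by
  obtain ⟨R, hR⟩ := h.supp.isCompact.isBounded.subset_closedBall (0 : ℝ)
  have key : ∀ f : ℝ → ℝ, tsupport f ⊆ tsupport Φ → ∀ s, max R 0 < s → f s = 0 := by
    intro f hf s hs
    by_contra hne
    have h1 : s ∈ tsupport f := subset_tsupport _ hne
    have h2 := hR (hf h1)
    rw [Metric.mem_closedBall, dist_zero_right, Real.norm_eq_abs] at h2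
    have h3 : R < s := lt_of_le_of_lt (le_max_left _ _) hs
    have h4 := le_abs_self s
    linarith
  have h1 : tsupport (deriv Φ) ⊆ tsupport Φ := tsupport_deriv_subset (f := Φ)
  have h2 : tsupport (deriv (deriv Φ)) ⊆ tsupport (deriv Φ) :=
    tsupport_deriv_subset (f := deriv Φ)
  exact ⟨max R 0, le_max_right _ _, fun s hs => ⟨key Φ Subset.rfl s hs, key _ h1 s hs,
    key _ (h2.trans h1) s hs⟩⟩

theorem part1 (ι : Type) [Fintype ι] (Φ : ℝ → ℝ) (hΦ : Prof Φ) (lam C₀ C₁ : ℝ) (hlam : 0 < lam) :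
    ∃ R : ℝ, 0 ≤ R ∧ ∀ (y : ι → ℝ) (q g : ℝ), (∃ A, R < |y A|) → lam * (y ⬝ᵥ y) ≤ q →
      -C₀ - C₁ * ∑ A, |y A| ≤ g →
      Φ (q + g) = 0 ∧ deriv Φ (q + g) = 0 ∧ deriv (deriv Φ) (q + g) = 0 := by
  obtain ⟨T, hT, hbig⟩ := large hΦ
  set κ : ℝ := C₁ ^ 2 / (4 * lam) with hκ
  have hκ0 : 0 ≤ κ := by positivity
  set K : ℝ := T + |C₀| + Fintype.card ι * κ + 1 with hK
  have hK1 : 1 ≤ K := by
    have h1 := abs_nonneg C₀
    have h2 : (0 : ℝ) ≤ Fintype.card ι * κ := by positivity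
    linarith
  refine ⟨(|C₁| + K) / lam + 1, by positivity, ?_⟩
  rintro y q g ⟨A₀, hA₀⟩ hq hg
  apply hbig
  have hterm : ∀ A, 0 ≤ lam * |y A| ^ 2 - C₁ * |y A| + κ := by
    intro A
    have h1 : lam * |y A| ^ 2 - C₁ * |y A| + κ = lam * (|y A| - C₁ / (2 * lam)) ^ 2 := by
      rw [hκ]
      field_simp
      ring
    rw [h1]
    positivity
  have h0 : K ≤ lam * |y A₀| ^ 2 - C₁ * |y A₀| + κ := by
    have h1 : (|C₁| + K) / lam < |y A₀| := by linarith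
    rw [div_lt_iff₀ hlam] at h1
    have h2 : 1 ≤ |y A₀| := by
      have : 0 ≤ (|C₁| + K) / lam := by positivity
      linarith
    have h3 := le_abs_self C₁
    have h4 : K ≤ lam * |y A₀| - C₁ := by linarith
    have h5 : K ≤ (lam * |y A₀| - C₁) * |y A₀| := by nlinarith
    nlinarith
  have hsum : K ≤ ∑ A, (lam * |y A| ^ 2 - C₁ * |y A| + κ) :=
    h0.trans (Finset.single_le_sum (f := fun A => lam * |y A| ^ 2 - C₁ * |y A| + κ)
      (fun A _ => hterm A) (Finset.mem_univ A₀))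
  rw [Finset.sum_add_distrib, Finset.sum_sub_distrib, ← Finset.mul_sum, ← Finset.mul_sum,
    Finset.sum_const, Finset.card_univ, nsmul_eq_mul] at hsum
  have hdot : ∑ A, |y A| ^ 2 = y ⬝ᵥ y := by
    simp only [dotProduct]
    exact Finset.sum_congr rfl fun i _ => by rw [sq_abs, sq]
  rw [hdot] at hsum
  have h6 := neg_abs_le C₀
  have h7 := le_abs_self C₀
  linarith

theorem bdd {f : ℝ → ℝ} (hc : Continuous f) (hs : HasCompactSupport f) :
    ∃ B : ℝ, 0 ≤ B ∧ ∀ x, |f x| ≤ B := by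
  obtain ⟨B, hB⟩ := hc.bounded_above_of_compact_support hs
  exact ⟨B, (norm_nonneg _).trans (hB 0), fun x => by
    have := hB x
    rwa [Real.norm_eq_abs] at this⟩

theorem lip {f : ℝ → ℝ} (hd : Differentiable ℝ f) {B : ℝ} (hB : ∀ x, |deriv f x| ≤ B) (x y : ℝ) :
    |f x - f y| ≤ B * |x - y| := by
  have h1 := convex_univ.norm_image_sub_le_of_norm_deriv_le (f := f) (C := B) (x := y) (y := x)
    (fun z _ => hd z) (fun z _ => by rw [Real.norm_eq_abs]; exact hB z) (mem_univ _) (mem_univ _)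
  rwa [Real.norm_eq_abs, Real.norm_eq_abs] at h1

theorem part2 (Φ : ℝ → ℝ) (hΦ : Prof Φ) :
    ∃ B : ℝ, 0 ≤ B ∧ (∀ x, |Φ x| ≤ B) ∧ (∀ x, |deriv Φ x| ≤ B) ∧
    (∀ x, |deriv (deriv Φ) x| ≤ B) ∧ (∀ x y, |deriv Φ x - deriv Φ y| ≤ B * |x - y|) ∧
    (∀ x y, |deriv (deriv Φ) x - deriv (deriv Φ) y| ≤ B * |x - y|) ∧
    Differentiable ℝ Φ ∧ Differentiable ℝ (deriv Φ) ∧ Continuous (deriv (deriv Φ)) := by
  obtain ⟨d0, s1⟩ := smooth1 hΦ.smooth
  obtain ⟨d1, s2⟩ := smooth1 s1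
  obtain ⟨d2, s3⟩ := smooth1 s2
  have k1 : HasCompactSupport (deriv Φ) := hΦ.supp.deriv
  have k2 : HasCompactSupport (deriv (deriv Φ)) := k1.deriv
  have k3 : HasCompactSupport (deriv (deriv (deriv Φ))) := k2.deriv
  obtain ⟨B0, hB0, b0⟩ := bdd hΦ.smooth.continuous hΦ.supp
  obtain ⟨B1, hB1, b1⟩ := bdd s1.continuous k1
  obtain ⟨B2, hB2, b2⟩ := bdd s2.continuous k2
  obtain ⟨B3, hB3, b3⟩ := bdd s3.continuous k3
  refine ⟨B0 + B1 + B2 + B3, by positivity, fun x => (b0 x).trans (by linarith),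
    fun x => (b1 x).trans (by linarith), fun x => (b2 x).trans (by linarith),
    fun x y => ?_, fun x y => ?_, d0, d1, s2.continuous⟩
  · exact lip d1 (fun x => (b2 x).trans (by linarith)) x y
  · exact lip d2 (fun x => (b3 x).trans (by linarith)) x y

end Box

theorem boxStmt : BoxStmt :=
  ⟨fun ι _ Φ hΦ lam C₀ C₁ hlam => Box.part1 ι Φ hΦ lam C₀ C₁ hlam, fun Φ hΦ => Box.part2 Φ hΦ⟩

end Pool.Agent.Lib.MP_0c1c75_co.Clu
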