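import Pool.Agent.Lib.MP_0c1c75_co.FewSpec

/-!
# MP_0c1c75_co, few balls: positivity for the cone times a line
-/

open MeasureTheory Set
open scoped ContDiff

namespace Pool.Agent.Lib.MP_0c1c75_co.Few.Cone

theorem symm {N : ℕ} {A : Matrix (Fin N) (Fin N) ℝ} (hA : A.PosDef) (x y : Fin N → ℝ) :
    x ⬝ᵥ A.mulVec y = y ⬝ᵥ A.mulVec x := by
  have h : A.transpose = A := by
    have := hA.isHermitian.eq
    rwa [Matrix.conjTranspose_eq_transpose_of_trivial] at this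
  rw [Matrix.dotProduct_mulVec, ← Matrix.mulVec_transpose, h, dotProduct_comm]

theorem pos {N : ℕ} {A : Matrix (Fin N) (Fin N) ℝ} (hA : A.PosDef) {x : Fin N → ℝ} (hx : x ≠ 0) :
    0 < x ⬝ᵥ A.mulVec x := by
  have := hA.dotProduct_mulVec_pos hx
  simpa using this

theorem expand {N : ℕ} {A : Matrix (Fin N) (Fin N) ℝ} (hA : A.PosDef) (b o f : Fin N → ℝ)
    (z s : ℝ) :
    qf A (b + z • o - s • f) + z =
      (o ⬝ᵥ A.mulVec o / 4) * z ^ 2 + 2 * (-(o ⬝ᵥ A.mulVec f) / 4) * z * s +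
        (f ⬝ᵥ A.mulVec f / 4) * s ^ 2 + 2 * (o ⬝ᵥ A.mulVec b / 4 + 1 / 2) * z +
        2 * (-(f ⬝ᵥ A.mulVec b) / 4) * s + b ⬝ᵥ A.mulVec b / 4 := by
  unfold qf
  rw [Matrix.mulVec_sub, Matrix.mulVec_add, Matrix.mulVec_smul, Matrix.mulVec_smul]
  simp only [sub_dotProduct, add_dotProduct, dotProduct_sub, dotProduct_add, smul_dotProduct,
    dotProduct_smul, smul_eq_mul]
  rw [symm hA b o, symm hA b f, symm hA f o]
  ring

theorem cs {N : ℕ} {A : Matrix (Fin N) (Fin N) ℝ} (hA : A.PosDef) {o f : Fin N → ℝ}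
    (ho : o ≠ 0) (hof : ∀ r t : ℝ, r • f - t • o = 0 → r = 0) :
    (-(o ⬝ᵥ A.mulVec f) / 4) ^ 2 < (o ⬝ᵥ A.mulVec o / 4) * (f ⬝ᵥ A.mulVec f / 4) := by
  have h1 := pos hA ho
  have h2 : (o ⬝ᵥ A.mulVec o) • f - (o ⬝ᵥ A.mulVec f) • o ≠ 0 := fun h => h1.ne' (hof _ _ h)
  have h3 := pos hA h2
  rw [Matrix.mulVec_sub, Matrix.mulVec_smul, Matrix.mulVec_smul] at h3
  simp only [sub_dotProduct, dotProduct_sub, smul_dotProduct, dotProduct_smul, smul_eq_mul] at h3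
  rw [symm hA f o] at h3
  generalize o ⬝ᵥ A.mulVec o = a at h1 h3 ⊢
  generalize o ⬝ᵥ A.mulVec f = c at h3 ⊢
  generalize f ⬝ᵥ A.mulVec f = g at h3 ⊢
  have h4 : 0 < a * (a * g - c ^ 2) := by nlinarith
  have h5 : 0 < a * g - c ^ 2 := by
    rcases pos_and_pos_or_neg_and_neg_of_mul_pos h4 with h | h
    · exact h.2
    · linarith [h.1]
  nlinarith

theorem qf_continuous {N : ℕ} (A : Matrix (Fin N) (Fin N) ℝ) : Continuous (qf A) := by
  unfold qf
  simp only [dotProduct, Matrix.mulVec]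
  fun_prop

theorem qf_smul {N : ℕ} (A : Matrix (Fin N) (Fin N) ℝ) (r : ℝ) (w : Fin N → ℝ) :
    qf A (r • w) = r ^ 2 * qf A w := by
  unfold qf
  rw [Matrix.mulVec_smul, smul_dotProduct, dotProduct_smul, smul_eq_mul, smul_eq_mul]
  ring

theorem qf_lower {N : ℕ} {A : Matrix (Fin N) (Fin N) ℝ} (hA : A.PosDef) :
    ∃ c : ℝ, 0 < c ∧ ∀ w : Fin N → ℝ, c * ‖w‖ ^ 2 ≤ qf A w := by
  rcases (Metric.sphere (0 : Fin N → ℝ) 1).eq_empty_or_nonempty with h | h
  · refine ⟨1, one_pos, fun w => ?_⟩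
    have hw : w = 0 := by
      by_contra hne
      have : (‖w‖⁻¹ • w) ∈ Metric.sphere (0 : Fin N → ℝ) 1 := by
        rw [mem_sphere_zero_iff_norm, norm_smul, norm_inv, norm_norm,
          inv_mul_cancel₀ (norm_ne_zero_iff.mpr hne)]
      rw [h] at this
      exact this
    rw [hw]
    simp [qf]
  · obtain ⟨w0, hw0, hmin⟩ := (isCompact_sphere (0 : Fin N → ℝ) 1).exists_isMinOn h
      (qf_continuous A).continuousOn
    have hw0' : w0 ≠ 0 := by
      rintro rfl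
      simp at hw0
    refine ⟨qf A w0, ?_, fun w => ?_⟩
    · unfold qf
      have := pos hA hw0'
      linarith
    · by_cases hw : w = 0
      · rw [hw]; simp [qf]
      · have hn : 0 < ‖w‖ := norm_pos_iff.mpr hw
        have h1 : (‖w‖⁻¹ • w) ∈ Metric.sphere (0 : Fin N → ℝ) 1 := by
          rw [mem_sphere_zero_iff_norm, norm_smul, norm_inv, norm_norm,
            inv_mul_cancel₀ hn.ne']
        have h2 : qf A w0 ≤ qf A (‖w‖⁻¹ • w) := hmin h1
        rw [qf_smul, inv_pow, ← div_eq_inv_mul, le_div_iff₀ (by positivity)] at h2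
        exact h2

theorem wv_bounds {n : ℕ} (b : Fin (n + 2) → ℝ) (z : ℝ) (u : Fin n → ℝ) :
    |z| ≤ ‖wv b z u‖ + ‖b‖ ∧ ‖u‖ ≤ 2 * ‖wv b z u‖ + 2 * ‖b‖ := by
  have h0 : wv b z u 0 = b 0 + z := by simp [wv, lift2]
  have h1 : |z| ≤ ‖wv b z u‖ + ‖b‖ := by
    have e : z = wv b z u 0 - b 0 := by rw [h0]; ring
    calc |z| = |wv b z u 0 - b 0| := by rw [← e]
      _ ≤ |wv b z u 0| + |b 0| := abs_sub _ _
      _ ≤ ‖wv b z u‖ + ‖b‖ := add_le_add (norm_le_pi_norm (wv b z u) 0) (norm_le_pi_norm b 0)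
  refine ⟨h1, ?_⟩
  refine (pi_norm_le_iff_of_nonneg (by positivity)).mpr fun i => ?_
  have h2 : wv b z u i.succ.succ = b i.succ.succ + z - u i := by simp [wv, lift2]
  have e : u i = b i.succ.succ + z - wv b z u i.succ.succ := by rw [h2]; ring
  calc ‖u i‖ = |b i.succ.succ + z - wv b z u i.succ.succ| := by rw [← e, Real.norm_eq_abs]
    _ ≤ |b i.succ.succ + z| + |wv b z u i.succ.succ| := abs_sub _ _
    _ ≤ (|b i.succ.succ| + |z|) + |wv b z u i.succ.succ| := by gcongr; exact abs_add_le _ _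
    _ ≤ (‖b‖ + (‖wv b z u‖ + ‖b‖)) + ‖wv b z u‖ := by
        gcongr
        · exact norm_le_pi_norm b _
        · exact norm_le_pi_norm (wv b z u) _
    _ = _ := by ring

theorem proper {n : ℕ} {A : Matrix (Fin (n + 2)) (Fin (n + 2)) ℝ} (hA : A.PosDef)
    (b : Fin (n + 2) → ℝ) (R : ℝ) :
    ∃ ρ : ℝ, ∀ p : ℝ × (Fin n → ℝ), ρ < ‖p‖ → R < qf A (wv b p.1 p.2) + p.1 := by
  obtain ⟨c, hc, h⟩ := qf_lower hA
  obtain ⟨W, hW⟩ : ∃ W, W = max 1 ((1 + ‖b‖ + |R|) / c) := ⟨_, rfl⟩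
  refine ⟨2 * W + 2 * ‖b‖, fun p hp => ?_⟩
  obtain ⟨h1, h2⟩ := wv_bounds b p.1 p.2
  have h3 := h (wv b p.1 p.2)
  generalize ‖wv b p.1 p.2‖ = w at h1 h2 h3
  have hw0 : W < w := by
    by_contra hcon
    rw [not_lt] at hcon
    have hb := norm_nonneg b
    have : ‖p‖ ≤ 2 * W + 2 * ‖b‖ := by
      rw [Prod.norm_def]
      refine max_le ?_ ?_
      · rw [Real.norm_eq_abs]
        have hW1 : 1 ≤ W := by rw [hW]; exact le_max_left _ _
        linarith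
      · linarith
    linarith
  have hW1 : 1 ≤ W := by rw [hW]; exact le_max_left _ _
  have hW2 : (1 + ‖b‖ + |R|) / c ≤ W := by rw [hW]; exact le_max_right _ _
  rw [div_le_iff₀ hc] at hW2
  have h4 : -p.1 ≤ w + ‖b‖ := (neg_le_abs p.1).trans h1
  have h5 : R ≤ |R| := le_abs_self R
  have hb := norm_nonneg b
  have hR := abs_nonneg R
  have h6 : (1 + ‖b‖ + |R|) < w * c := by nlinarith
  have h7 : (1 + ‖b‖ + |R|) * w < c * w ^ 2 := by nlinarith
  nlinarith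

theorem cont {n : ℕ} (A : Matrix (Fin (n + 2)) (Fin (n + 2)) ℝ) (b : Fin (n + 2) → ℝ) :
    Continuous fun p : ℝ × (Fin n → ℝ) => qf A (wv b p.1 p.2) + p.1 := by
  refine ((qf_continuous A).comp ?_).add continuous_fst
  refine continuous_pi fun i => ?_
  refine Fin.cases ?_ (fun i => Fin.cases ?_ (fun i => ?_) i) i
  · simp only [wv, lift2, Fin.cons_zero]
    fun_prop
  · simp only [wv, lift2, Fin.cons_succ, Fin.cons_zero]
    fun_prop
  · simp only [wv, lift2, Fin.cons_succ]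
    fun_prop

end Pool.Agent.Lib.MP_0c1c75_co.Few.Cone

namespace Pool.Agent.Lib.MP_0c1c75_co.Few

/-- Positivity for the cone times a line. -/
theorem coneStmt (h1 : PlaneStmt) (h2 : ConeIntStmt) : ConeStmt := by
  intro n hn Φ hΦ A hA b
  obtain ⟨k, rfl⟩ : ∃ k, n = k + 1 := ⟨n - 1, by omega⟩
  have hdc : Continuous (deriv Φ) := hΦ.smooth.continuous_deriv (by simp)
  obtain ⟨R, hR⟩ : ∃ R : ℝ, ∀ s, R < s → deriv Φ s = 0 := by
    obtain ⟨R, hR⟩ := hΦ.supp.deriv.isCompact.isBounded.subset_closedBall (0 : ℝ)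
    refine ⟨R, fun s hs => ?_⟩
    by_contra hne
    have := hR (subset_tsupport _ hne)
    rw [mem_closedBall_zero_iff, Real.norm_eq_abs] at this
    linarith [le_abs_self s]
  obtain ⟨ρ, hρ⟩ := Cone.proper hA b R
  have key := h2 k (fun p => -deriv Φ (qf A (wv b p.1 p.2) + p.1))
    ((hdc.comp (Cone.cont A b)).neg)
    (HasCompactSupport.intro (isCompact_closedBall (0 : ℝ × (Fin (k + 1) → ℝ)) ρ) (fun p hp => by
      rw [mem_closedBall_zero_iff, not_le] at hp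
      rw [hR _ (hρ p hp), neg_zero]))
  simp only at key
  rw [key]
  refine integral_nonneg fun v => ?_
  obtain ⟨o, ho⟩ : ∃ o : Fin (k + 1 + 2) → ℝ, o = fun _ => 1 := ⟨_, rfl⟩
  obtain ⟨f, hf⟩ : ∃ f : Fin (k + 1 + 2) → ℝ, f = lift2 (Fin.cons 1 v : Fin (k + 1) → ℝ) := ⟨_, rfl⟩
  have hwv : ∀ z s : ℝ, wv b z (s • (Fin.cons 1 v : Fin (k + 1) → ℝ)) = b + z • o - s • f := by
    intro z s
    funext i
    rw [ho, hf]
    refine Fin.cases ?_ (fun i => Fin.cases ?_ (fun i => ?_) i) i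
    · simp [wv, lift2]
    · simp [wv, lift2]
    · simp [wv, lift2]
  have ho0 : o ≠ 0 := by
    intro h
    have := congrFun h 0
    rw [ho] at this
    simp at this
  have hof : ∀ r t : ℝ, r • f - t • o = 0 → r = 0 := by
    intro r t h
    have e0 := congrFun h 0
    have e2 := congrFun h (Fin.succ (Fin.succ 0))
    rw [ho, hf] at e0 e2
    simp only [lift2, Pi.sub_apply, Pi.smul_apply, smul_eq_mul, Fin.cons_zero, Fin.cons_succ,
      Pi.zero_apply, mul_one, mul_zero] at e0 e2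
    linarith
  have h3 := h1 Φ hΦ (o ⬝ᵥ A.mulVec o / 4) (-(o ⬝ᵥ A.mulVec f) / 4) (f ⬝ᵥ A.mulVec f / 4)
    (o ⬝ᵥ A.mulVec b / 4 + 1 / 2) (-(f ⬝ᵥ A.mulVec b) / 4) (b ⬝ᵥ A.mulVec b / 4) k (by omega)
    (by have := Cone.pos hA ho0; linarith) (Cone.cs hA ho0 hof)
  simp only [hwv, Cone.expand hA]
  exact h3

end Pool.Agent.Lib.MP_0c1c75_co.Few
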