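import Pool.Agent.Lib.MP_0c1c75_co.CluSpec
import Pool.Agent.Lib.MP_0c1c75_co.FewCone

/-!
MP_0c1c75_co, module CluCell: cells in `ℝ^k`, `k ≥ 4`.
-/

open MeasureTheory Set
open scoped ContDiff

namespace Pool.Agent.Lib.MP_0c1c75_co.Clu

open Pool.Agent.Lib.MP_0c1c75_co.Few (Prof)

namespace Cell

theorem qp_cont {ι : Type} [Fintype ι] (A : Matrix ι ι ℝ) (m : ι → ℝ) (ν : ℝ) :
    Continuous (qp A m ν) := by
  unfold qp qg
  simp only [dotProduct, Matrix.mulVec]
  fun_prop

theorem proper {N : ℕ} {A : Matrix (Fin N) (Fin N) ℝ} (hA : A.PosDef) (m : Fin N → ℝ) (ν : ℝ)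
    (c : Fin N) (R : ℝ) : ∃ ρ : ℝ, ∀ z : Fin N → ℝ, ρ < ‖z‖ → R < qp A m ν z + z c := by
  obtain ⟨a, ha, h⟩ := Few.Cone.qf_lower hA
  obtain ⟨M, hM⟩ : ∃ M, M = ∑ i, |m i| := ⟨_, rfl⟩
  have hM0 : 0 ≤ M := by rw [hM]; exact Finset.sum_nonneg fun i _ => abs_nonneg _
  refine ⟨max 1 ((M + 1 + |ν| + |R| + 1) / a), fun z hz => ?_⟩
  have h1 : 1 < ‖z‖ := (le_max_left _ _).trans_lt hz
  have h2 : (M + 1 + |ν| + |R| + 1) / a < ‖z‖ := (le_max_right _ _).trans_lt hz
  rw [div_lt_iff₀ ha] at h2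
  have h3 : a * ‖z‖ ^ 2 ≤ qg A z := h z
  have h4 : |m ⬝ᵥ z| ≤ M * ‖z‖ := by
    rw [hM, Finset.sum_mul]
    refine (Finset.abs_sum_le_sum_abs _ _).trans (Finset.sum_le_sum fun i _ => ?_)
    rw [abs_mul]
    exact mul_le_mul_of_nonneg_left (norm_le_pi_norm z i) (abs_nonneg _)
  have h5 : |z c| ≤ ‖z‖ := norm_le_pi_norm z c
  have h6 := neg_abs_le (m ⬝ᵥ z)
  have h7 := neg_abs_le (z c)
  have h8 := neg_abs_le ν
  have h9 := le_abs_self R
  have h10 := abs_nonneg ν
  have h11 := abs_nonneg R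
  unfold qp
  generalize ‖z‖ = w at *
  have h12 : (M + 1 + |ν| + |R| + 1) * w < a * w ^ 2 := by nlinarith
  have h13 : |ν| + |R| + 1 ≤ (|ν| + |R| + 1) * w := by nlinarith
  nlinarith

theorem dz {Φ : ℝ → ℝ} (hΦ : Prof Φ) : ∃ R : ℝ, ∀ s, R < s → deriv Φ s = 0 := by
  obtain ⟨R, hR⟩ := hΦ.supp.deriv.isCompact.isBounded.subset_closedBall (0 : ℝ)
  refine ⟨R, fun s hs => ?_⟩
  by_contra hne
  have := hR (subset_tsupport _ hne)
  rw [mem_closedBall_zero_iff, Real.norm_eq_abs] at this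
  linarith [le_abs_self s]

/-- the linear map `(x, u) ↦ z` -/
noncomputable def lin {n : ℕ} (c : Fin (n + 1)) : (Fin (n + 1) → ℝ) →ₗ[ℝ] Fin (n + 1) → ℝ where
  toFun y := c.insertNth (y 0) (fun j => y 0 - y j.succ)
  map_add' := by
    intro y y'
    funext i
    rcases Fin.eq_self_or_eq_succAbove c i with h | ⟨j, h⟩
    · rw [h]; simp
    · rw [h]; simp; ring
  map_smul' := by
    intro r y
    funext i
    rcases Fin.eq_self_or_eq_succAbove c i with h | ⟨j, h⟩
    · rw [h]; simp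
    · rw [h]; simp; ring

theorem lin_c {n : ℕ} (c : Fin (n + 1)) (y : Fin (n + 1) → ℝ) : lin c y c = y 0 := by
  simp [lin]

theorem lin_s {n : ℕ} (c : Fin (n + 1)) (y : Fin (n + 1) → ℝ) (j : Fin n) :
    lin c y (c.succAbove j) = y 0 - y j.succ := by
  simp [lin]

theorem lin_inj {n : ℕ} (c : Fin (n + 1)) : Function.Injective (lin c) := by
  intro y y' h
  have h0 : y 0 = y' 0 := by rw [← lin_c c y, h, lin_c]
  funext i
  refine Fin.cases h0 (fun j => ?_) i
  have h1 : y 0 - y j.succ = y' 0 - y' j.succ := by rw [← lin_s c y, h, lin_s]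
  linarith

theorem lin_cons {n : ℕ} (c : Fin (n + 1)) (x : ℝ) (u : Fin n → ℝ) :
    lin c (Fin.cons x u) = c.insertNth x ((fun _ => x) - u) := by
  funext i
  rcases Fin.eq_self_or_eq_succAbove c i with h | ⟨j, h⟩
  · rw [h, lin_c]; simp
  · rw [h, lin_s]; simp

theorem subst {n : ℕ} (A : Matrix (Fin (n + 1)) (Fin (n + 1)) ℝ) (m : Fin (n + 1) → ℝ) (ν : ℝ)
    (c : Fin (n + 1)) (y : Fin (n + 1) → ℝ) :
    qp A m ν (lin c y) + lin c y c =
      qp ((LinearMap.toMatrix' (lin c)).transpose * A * LinearMap.toMatrix' (lin c))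
        ((LinearMap.toMatrix' (lin c)).transpose.mulVec m + Pi.single 0 1) ν y := by
  have h1 : lin c y = (LinearMap.toMatrix' (lin c)).mulVec y := (LinearMap.toMatrix'_mulVec _ _).symm
  rw [lin_c]
  unfold qp qg
  rw [h1]
  generalize LinearMap.toMatrix' (lin c) = T
  rw [← Matrix.mulVec_mulVec, ← Matrix.mulVec_mulVec, Matrix.dotProduct_mulVec y, Matrix.vecMul_transpose,
    add_dotProduct, Matrix.mulVec_transpose, Matrix.dotProduct_mulVec m, single_one_dotProduct]
  ring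

end Cell

open Cell

theorem cellStmt (hQ : QuadConeStmt) : CellStmt := by
  intro k hk Φ hΦ A hA m ν c
  obtain ⟨n, rfl⟩ : ∃ n, k = n + 1 := ⟨k - 1, by omega⟩
  have hdc : Continuous (deriv Φ) := hΦ.smooth.continuous_deriv (by simp)
  obtain ⟨R, hR⟩ := dz hΦ
  obtain ⟨ρ, hρ⟩ := proper hA m ν c R
  obtain ⟨T, hT⟩ : ∃ T, T = LinearMap.toMatrix' (lin c) := ⟨_, rfl⟩
  have hTinj : Function.Injective T.mulVec := by
    intro y y' h
    apply lin_inj c
    rw [hT] at h
    rwa [LinearMap.toMatrix'_mulVec, LinearMap.toMatrix'_mulVec] at h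
  have hA' : (T.transpose * A * T).PosDef := by
    have := hA.conjTranspose_mul_mul_same hTinj
    rwa [Matrix.conjTranspose_eq_transpose_of_trivial] at this
  have key := hQ n (by omega) Φ hΦ (T.transpose * A * T) hA' (T.transpose.mulVec m + Pi.single 0 1) ν
  -- the function on the product
  obtain ⟨H, hH⟩ : ∃ H : ℝ × (Fin n → ℝ) → ℝ, H = fun p =>
      -deriv Φ (qp A m ν (c.insertNth p.1 p.2) + p.1) := ⟨_, rfl⟩
  have hins : Continuous fun p : ℝ × (Fin n → ℝ) => (c.insertNth p.1 p.2 : Fin (n + 1) → ℝ) := by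
    refine continuous_pi fun i => ?_
    rcases Fin.eq_self_or_eq_succAbove c i with h | ⟨j, h⟩
    · rw [h]
      simp only [Fin.insertNth_apply_same]
      exact continuous_fst
    · rw [h]
      simp only [Fin.insertNth_apply_succAbove]
      exact (continuous_apply j).comp continuous_snd
  have hHc : Continuous H := by
    rw [hH]
    exact (hdc.comp (((qp_cont A m ν).comp hins).add continuous_fst)).neg
  have hHs : HasCompactSupport H := by
    refine HasCompactSupport.intro (isCompact_closedBall (0 : ℝ × (Fin n → ℝ)) ρ) (fun p hp => ?_)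
    rw [mem_closedBall_zero_iff, not_le] at hp
    have h1 : ‖p‖ ≤ ‖(c.insertNth p.1 p.2 : Fin (n + 1) → ℝ)‖ := by
      rw [Prod.norm_def]
      refine max_le ?_ ?_
      · have := norm_le_pi_norm (c.insertNth p.1 p.2 : Fin (n + 1) → ℝ) c
        rwa [Fin.insertNth_apply_same] at this
      · refine (pi_norm_le_iff_of_nonneg (norm_nonneg _)).mpr fun i => ?_
        have := norm_le_pi_norm (c.insertNth p.1 p.2 : Fin (n + 1) → ℝ) (c.succAbove i)
        rwa [Fin.insertNth_apply_succAbove] at this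
    have h2 := hρ _ (hp.trans_le h1)
    rw [Fin.insertNth_apply_same] at h2
    rw [hH]
    show -deriv Φ (qp A m ν (c.insertNth p.1 p.2) + p.1) = 0
    rw [hR _ h2, neg_zero]
  have hS : MeasurableSet {p : ℝ × (Fin n → ℝ) | ∀ i, p.2 i ≤ p.1} := by
    have h1 : {p : ℝ × (Fin n → ℝ) | ∀ i, p.2 i ≤ p.1} = ⋂ i, {p | p.2 i ≤ p.1} := by
      ext p; simp
    rw [h1]
    exact MeasurableSet.iInter fun i =>
      measurableSet_le ((measurable_pi_apply i).comp measurable_snd) measurable_fst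
  have hC : MeasurableSet {z : Fin (n + 1) → ℝ | ∀ i, z i ≤ z c} := by
    have h1 : {z : Fin (n + 1) → ℝ | ∀ i, z i ≤ z c} = ⋂ i, {z | z i ≤ z c} := by
      ext p; simp
    rw [h1]
    exact MeasurableSet.iInter fun i =>
      measurableSet_le (measurable_pi_apply i) (measurable_pi_apply c)
  have hHi : Integrable ({p : ℝ × (Fin n → ℝ) | ∀ i, p.2 i ≤ p.1}.indicator H)
      ((volume : Measure ℝ).prod (volume : Measure (Fin n → ℝ))) :=
    (hHc.integrable_of_hasCompactSupport hHs).indicator hS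
  have e1 : ∫ z in {z : Fin (n + 1) → ℝ | ∀ i, z i ≤ z c}, -deriv Φ (qp A m ν z + z c) =
      ∫ p, {p : ℝ × (Fin n → ℝ) | ∀ i, p.2 i ≤ p.1}.indicator H p := by
    rw [← integral_indicator hC,
      ← (volume_preserving_piFinSuccAbove (fun _ : Fin (n + 1) => ℝ) c).symm.integral_comp']
    congr 1
    funext p
    have h1 : (MeasurableEquiv.piFinSuccAbove (fun _ : Fin (n + 1) => ℝ) c).symm p =
        c.insertNth p.1 p.2 := rfl
    rw [h1]
    by_cases hp : p ∈ {p : ℝ × (Fin n → ℝ) | ∀ i, p.2 i ≤ p.1}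
    · have h2 : (c.insertNth p.1 p.2 : Fin (n + 1) → ℝ) ∈
          {z : Fin (n + 1) → ℝ | ∀ i, z i ≤ z c} := by
        intro i
        rw [Fin.insertNth_apply_same]
        rcases Fin.eq_self_or_eq_succAbove c i with h | ⟨j, h⟩
        · rw [h, Fin.insertNth_apply_same]
        · rw [h, Fin.insertNth_apply_succAbove]
          exact hp j
      rw [Set.indicator_of_mem h2, Set.indicator_of_mem hp, hH, Fin.insertNth_apply_same]
    · have h2 : (c.insertNth p.1 p.2 : Fin (n + 1) → ℝ) ∉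
          {z : Fin (n + 1) → ℝ | ∀ i, z i ≤ z c} := by
        intro h3
        apply hp
        intro j
        have := h3 (c.succAbove j)
        rwa [Fin.insertNth_apply_same, Fin.insertNth_apply_succAbove] at this
      rw [Set.indicator_of_notMem h2, Set.indicator_of_notMem hp]
  have e2 : ∀ x : ℝ, ∫ w, {p : ℝ × (Fin n → ℝ) | ∀ i, p.2 i ≤ p.1}.indicator H (x, w) =
      ∫ u in {u : Fin n → ℝ | ∀ i, 0 < u i},
        -deriv Φ (qp (T.transpose * A * T) (T.transpose.mulVec m + Pi.single 0 1) ν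
          (Fin.cons x u : Fin (n + 1) → ℝ)) := by
    intro x
    rw [← integral_sub_left_eq_self (fun w : Fin n → ℝ =>
      {p : ℝ × (Fin n → ℝ) | ∀ i, p.2 i ≤ p.1}.indicator H (x, w)) volume (fun _ => x)]
    have hI : MeasurableSet {u : Fin n → ℝ | ∀ i, 0 ≤ u i} := by
      have h1 : {u : Fin n → ℝ | ∀ i, 0 ≤ u i} = ⋂ i, {u | 0 ≤ u i} := by
        ext p; simp
      rw [h1]
      exact MeasurableSet.iInter fun i => measurableSet_le measurable_const (measurable_pi_apply i)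
    have h2 : ∀ u : Fin n → ℝ, {p : ℝ × (Fin n → ℝ) | ∀ i, p.2 i ≤ p.1}.indicator H
        (x, (fun _ => x) - u) = {u : Fin n → ℝ | ∀ i, 0 ≤ u i}.indicator (fun u =>
          -deriv Φ (qp (T.transpose * A * T) (T.transpose.mulVec m + Pi.single 0 1) ν
          (Fin.cons x u : Fin (n + 1) → ℝ))) u := by
      intro u
      by_cases hu : u ∈ {u : Fin n → ℝ | ∀ i, 0 ≤ u i}
      · have h3 : ((x, (fun _ => x) - u) : ℝ × (Fin n → ℝ)) ∈
            {p : ℝ × (Fin n → ℝ) | ∀ i, p.2 i ≤ p.1} := by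
          intro i
          show x - u i ≤ x
          have := hu i
          linarith
        rw [Set.indicator_of_mem h3, Set.indicator_of_mem hu, hH, hT, ← subst, lin_c, lin_cons]
        rfl
      · have h3 : ((x, (fun _ => x) - u) : ℝ × (Fin n → ℝ)) ∉
            {p : ℝ × (Fin n → ℝ) | ∀ i, p.2 i ≤ p.1} := by
          intro h4
          apply hu
          intro i
          have : x - u i ≤ x := h4 i
          linarith
        rw [Set.indicator_of_notMem h3, Set.indicator_of_notMem hu]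
    simp only [h2]
    rw [integral_indicator hI]
    refine setIntegral_congr_set ?_
    have h5 := Measure.univ_pi_Ioi_ae_eq_Ici (μ := fun _ : Fin n => (volume : Measure ℝ))
      (f := fun _ => (0 : ℝ))
    have h6 : (Set.univ.pi fun i : Fin n => Ioi ((fun _ => (0 : ℝ)) i)) =
        {u : Fin n → ℝ | ∀ i, 0 < u i} := by
      ext u; simp
    have h7 : Ici (fun _ : Fin n => (0 : ℝ)) = {u : Fin n → ℝ | ∀ i, 0 ≤ u i} := by
      ext u; simp [Pi.le_def]
    rw [h6, h7] at h5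
    exact h5.symm
  rw [e1]
  have e3 : ∫ p, {p : ℝ × (Fin n → ℝ) | ∀ i, p.2 i ≤ p.1}.indicator H p =
      ∫ x, ∫ w, {p : ℝ × (Fin n → ℝ) | ∀ i, p.2 i ≤ p.1}.indicator H (x, w) :=
    integral_prod _ hHi
  rw [e3]
  simp only [e2]
  exact key

end Pool.Agent.Lib.MP_0c1c75_co.Clu
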