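import Pool.Agent.Lib.MP_0c1c75_co.CluSpec

/-! MP_0c1c75_co, clusters: the core inequality. -/

open MeasureTheory Set
open scoped ContDiff

namespace Pool.Agent.Lib.MP_0c1c75_co.Clu

namespace CoreC

theorem quad {ι : Type} [Fintype ι] [DecidableEq ι] (B : Matrix ι ι ℝ) (w : ι → ℝ) :
    w ⬝ᵥ (B * B.transpose).mulVec w = ∑ x, (Matrix.vecMul w B x) ^ 2 := by
  rw [← Matrix.mulVec_mulVec, Matrix.dotProduct_mulVec, Matrix.mulVec_transpose]
  exact Finset.sum_congr rfl fun x _ => (sq _).symm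

theorem quad2 {ι : Type} [Fintype ι] [DecidableEq ι] (B : Matrix ι ι ℝ) (u w : ι → ℝ) :
    (u - w) ⬝ᵥ (B * B.transpose).mulVec (u - w) =
      ∑ x, (Matrix.vecMul u B x - Matrix.vecMul w B x) ^ 2 := by
  rw [quad, Matrix.sub_vecMul]
  rfl

end CoreC

open CoreC

theorem coreCStmt (h1 : PathCStmt) (h2 : GramCStmt) : CoreCStmt := by
  intro e k N hk Φ hΦ Bp Bq hp hq al cl hcl hlt a
  have hN0 : 0 < N := by
    obtain ⟨i, -⟩ := hcl ⟨0, by omega⟩
    exact i.pos
  obtain ⟨p1, e1⟩ := h2 (Fin e ⊕ Fin k) N hN0 Φ Bp (av al cl) a hp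
  obtain ⟨p2, e2⟩ := h2 (Fin e ⊕ Fin k) N hN0 Φ Bq (av al cl) a hq
  rw [e1, e2]
  refine mul_le_mul_of_nonneg_left ?_ (by positivity)
  have hadd : Bp * Bp.transpose + (Bq * Bq.transpose - Bp * Bp.transpose) =
      Bq * Bq.transpose := by abel
  have key := h1 e k N hk Φ hΦ (Bp * Bp.transpose) (Bq * Bq.transpose - Bp * Bp.transpose) p1
    (by rw [hadd]; exact p2) al cl hcl (fun i j hij => by
      unfold dl
      rw [Matrix.sub_mulVec, dotProduct_sub, quad2, quad2]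
      have := hlt i j hij
      linarith) a
  rw [hadd] at key
  exact key

end Pool.Agent.Lib.MP_0c1c75_co.Clu
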