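import Pool.Agent.Lib.MP_0c1c75_co.CluSpec

/-!
MP_0c1c75_co, module CluEst1: elementary inequalities for the soft maximum.
-/

open MeasureTheory Set

namespace Pool.Agent.Lib.MP_0c1c75_co.Clu

namespace Est1

variable {N : ℕ}

theorem sum_pos (hN : 0 < N) (β : ℝ) (z : Fin N → ℝ) : 0 < ∑ j, Real.exp (β * z j) := by
  haveI : Nonempty (Fin N) := ⟨⟨0, hN⟩⟩
  exact Finset.sum_pos (fun j _ => Real.exp_pos _) Finset.univ_nonempty

theorem exp_le_sum (β : ℝ) (z : Fin N → ℝ) (i : Fin N) :
    Real.exp (β * z i) ≤ ∑ j, Real.exp (β * z j) :=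
  Finset.single_le_sum (f := fun j => Real.exp (β * z j)) (fun j _ => (Real.exp_pos _).le)
    (Finset.mem_univ i)

theorem le_hmx (z : Fin N → ℝ) (i : Fin N) : z i ≤ hmx z :=
  le_ciSup (Set.finite_range z).bddAbove i

theorem hmx_eq (hN : 0 < N) (z : Fin N → ℝ) : ∃ i, hmx z = z i := by
  haveI : Nonempty (Fin N) := ⟨⟨0, hN⟩⟩
  obtain ⟨i, hi⟩ := exists_eq_ciSup_of_finite (f := z)
  exact ⟨i, hi.symm⟩

theorem wt_pos (hN : 0 < N) (β : ℝ) (z : Fin N → ℝ) (i : Fin N) : 0 < wt β z i :=
  div_pos (Real.exp_pos _) (sum_pos hN β z)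

theorem wt_sum (hN : 0 < N) (β : ℝ) (z : Fin N → ℝ) : ∑ i, wt β z i = 1 := by
  unfold wt
  rw [← Finset.sum_div]
  exact div_self (sum_pos hN β z).ne'

theorem wt_le_exp (hN : 0 < N) (β : ℝ) (z : Fin N → ℝ) (i j : Fin N) :
    wt β z i ≤ Real.exp (-(β * (z j - z i))) := by
  unfold wt
  rw [div_le_iff₀ (sum_pos hN β z)]
  calc Real.exp (β * z i) = Real.exp (-(β * (z j - z i))) * Real.exp (β * z j) := by
        rw [← Real.exp_add]
        congr 1
        ring
    _ ≤ _ := mul_le_mul_of_nonneg_left (exp_le_sum β z j) (Real.exp_pos _).le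

theorem wt_le_one (hN : 0 < N) (β : ℝ) (z : Fin N → ℝ) (i : Fin N) : wt β z i ≤ 1 := by
  have h := wt_le_exp hN β z i i
  rw [sub_self, mul_zero, neg_zero, Real.exp_zero] at h
  exact h

end Est1

open Est1

theorem est1Stmt : Est1Stmt := by
  intro N hN β hβ
  haveI : Nonempty (Fin N) := ⟨⟨0, hN⟩⟩
  refine ⟨?_, ?_, ?_, ?_⟩
  · intro z
    refine ⟨?_, ?_, le_hmx z, hmx_eq hN z, wt_pos hN β z, wt_le_one hN β z, wt_sum hN β z, ?_, ?_⟩
    · obtain ⟨i, hi⟩ := hmx_eq hN z
      rw [hi]
      unfold smx
      have h1 : β * z i ≤ Real.log (∑ j, Real.exp (β * z j)) := by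
        rw [Real.le_log_iff_exp_le (sum_pos hN β z)]
        exact exp_le_sum β z i
      calc z i = 1 / β * (β * z i) := by field_simp
        _ ≤ _ := mul_le_mul_of_nonneg_left h1 (by positivity)
    · unfold smx
      have h1 : ∑ j, Real.exp (β * z j) ≤ N * Real.exp (β * hmx z) := by
        calc ∑ j, Real.exp (β * z j) ≤ ∑ _j : Fin N, Real.exp (β * hmx z) := by
              refine Finset.sum_le_sum (fun j _ => ?_)
              exact Real.exp_le_exp.mpr (mul_le_mul_of_nonneg_left (le_hmx z j) hβ.le)
          _ = _ := by simp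
      have hNpos : (0 : ℝ) < N := by exact_mod_cast hN
      have h2 : Real.log (∑ j, Real.exp (β * z j)) ≤ Real.log N + β * hmx z := by
        calc Real.log (∑ j, Real.exp (β * z j)) ≤ Real.log (N * Real.exp (β * hmx z)) :=
              Real.log_le_log (sum_pos hN β z) h1
          _ = _ := by
              rw [Real.log_mul hNpos.ne' (Real.exp_pos _).ne', Real.log_exp]
      calc 1 / β * Real.log (∑ j, Real.exp (β * z j)) ≤ 1 / β * (Real.log N + β * hmx z) :=
            mul_le_mul_of_nonneg_left h2 (by positivity)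
        _ = hmx z + Real.log N / β := by field_simp; ring
    · intro i j _
      rcases le_total (z i) (z j) with h | h
      · have h1 := wt_le_exp hN β z i j
        have h2 : |z i - z j| = z j - z i := by
          rw [abs_sub_comm, abs_of_nonneg (sub_nonneg.mpr h)]
        rw [h2]
        calc wt β z i * wt β z j ≤ wt β z i * 1 :=
              mul_le_mul_of_nonneg_left (wt_le_one hN β z j) (wt_pos hN β z i).le
          _ ≤ _ := by rw [mul_one]; exact h1
      · have h1 := wt_le_exp hN β z j i
        have h2 : |z i - z j| = z i - z j := abs_of_nonneg (sub_nonneg.mpr h)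
        rw [h2]
        calc wt β z i * wt β z j ≤ 1 * wt β z j :=
              mul_le_mul_of_nonneg_right (wt_le_one hN β z i) (wt_pos hN β z j).le
          _ ≤ _ := by rw [one_mul]; exact h1
    · intro c
      by_cases hc : z ∈ {z : Fin N → ℝ | ∀ i, z i ≤ z c}
      · rw [Set.indicator_of_mem hc]
        have h1 : wt β z c - 1 = -∑ m ∈ Finset.univ.erase c, wt β z m := by
          have h2 := wt_sum hN β z
          rw [← Finset.add_sum_erase _ _ (Finset.mem_univ c)] at h2
          linarith
        rw [h1, abs_neg, abs_of_nonneg (Finset.sum_nonneg fun m _ => (wt_pos hN β z m).le)]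
        refine Finset.sum_le_sum (fun m _ => ?_)
        have h3 := wt_le_exp hN β z m c
        rw [abs_of_nonneg (sub_nonneg.mpr (hc m))]
        exact h3
      · rw [Set.indicator_of_notMem hc, sub_zero, abs_of_pos (wt_pos hN β z c)]
        simp only [Set.mem_setOf_eq, not_forall, not_le] at hc
        obtain ⟨m, hm⟩ := hc
        have hmc : m ≠ c := by
          rintro rfl
          exact lt_irrefl _ hm
        have h1 := wt_le_exp hN β z c m
        have h2 : |z c - z m| = z m - z c := by
          rw [abs_sub_comm, abs_of_nonneg (sub_nonneg.mpr hm.le)]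
        calc wt β z c ≤ Real.exp (-(β * |z c - z m|)) := by rw [h2]; exact h1
          _ ≤ _ := Finset.single_le_sum (f := fun m => Real.exp (-(β * |z c - z m|)))
              (fun m _ => (Real.exp_pos _).le) (Finset.mem_erase.mpr ⟨hmc, Finset.mem_univ m⟩)
  · have h1 : (fun z : Fin N → ℝ => hmx z) =
        fun z => Finset.univ.sup' Finset.univ_nonempty (fun i => z i) := by
      funext z
      unfold hmx
      exact (Finset.sup'_univ_eq_ciSup _).symm
    rw [h1]
    exact Continuous.finset_sup'_apply Finset.univ_nonempty (fun i _ => continuous_apply i)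
  · unfold smx
    refine continuous_const.mul (Continuous.log ?_ (fun z => (sum_pos hN β z).ne'))
    exact continuous_finset_sum _ (fun j _ => Real.continuous_exp.comp
      (continuous_const.mul (continuous_apply j)))
  · intro i
    unfold wt
    refine Continuous.div (Real.continuous_exp.comp (continuous_const.mul (continuous_apply i))) ?_
      (fun z => (sum_pos hN β z).ne')
    exact continuous_finset_sum _ (fun j _ => Real.continuous_exp.comp
      (continuous_const.mul (continuous_apply j)))

end Pool.Agent.Lib.MP_0c1c75_co.Clu
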