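import Pool.Agent.Lib.MP_0c1c75_co.CluSpec

/-!
MP_0c1c75_co, module CluEst2: integral of an exponential over a box.
-/

open MeasureTheory Set

namespace Pool.Agent.Lib.MP_0c1c75_co.Clu

namespace Est2

theorem one_dim (β : ℝ) (hβ : 0 < β) (b : ℝ) :
    Integrable (fun x : ℝ => Real.exp (-(β * |x + b|))) ∧
      ∫ x : ℝ, Real.exp (-(β * |x + b|)) = 2 / β := by
  have h1 : Integrable (fun x : ℝ => Real.exp (-(β * |x|))) := by
    have h2 : IntegrableOn (fun x : ℝ => Real.exp (-(β * |x|))) (Ioi 0) := by
      refine (integrableOn_exp_mul_Ioi (a := -β) (by linarith) 0).congr_fun ?_ measurableSet_Ioi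
      intro x hx
      simp only [abs_of_pos (show (0:ℝ) < x from hx)]
      congr 1
      ring
    have h3 : IntegrableOn (fun x : ℝ => Real.exp (-(β * |x|))) (Iic 0) := by
      refine (integrableOn_exp_mul_Iic (a := β) hβ 0).congr_fun ?_ measurableSet_Iic
      intro x hx
      simp only [abs_of_nonpos (show x ≤ (0:ℝ) from hx)]
      congr 1
      ring
    have h4 := h3.union h2
    rwa [Iic_union_Ioi, integrableOn_univ] at h4
  refine ⟨h1.comp_add_right b, ?_⟩
  rw [integral_add_right_eq_self (fun x : ℝ => Real.exp (-(β * |x|))) b,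
    integral_comp_abs (f := fun x => Real.exp (-(β * x)))]
  have h5 : ∫ x in Ioi (0:ℝ), Real.exp (-(β * x)) = 1 / β := by
    have h6 := integral_exp_mul_Ioi (a := -β) (by linarith) 0
    rw [mul_zero, Real.exp_zero, neg_div_neg_eq] at h6
    rw [← h6]
    congr 1
    funext x
    rw [neg_mul]
  rw [h5]
  ring

variable {ι : Type} [Fintype ι] [DecidableEq ι]

/-- the factors of the majorant -/
noncomputable def fac (β b R : ℝ) (A B : ι) (x : ℝ) : ℝ :=
  if B = A then Real.exp (-(β * |x + b|)) else (Icc (-R) R).indicator (fun _ => (1 : ℝ)) x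

theorem fac_int (β b R : ℝ) (hβ : 0 < β) (A B : ι) : Integrable (fac β b R A B) := by
  unfold fac
  by_cases h : B = A
  · simp only [if_pos h]
    exact (one_dim β hβ b).1
  · simp only [if_neg h]
    rw [integrable_indicator_iff measurableSet_Icc]
    exact integrableOn_const (by simp) (by simp)

theorem fac_meas (β b R : ℝ) (A B : ι) : Measurable (fac β b R A B) := by
  unfold fac
  by_cases h : B = A
  · simp only [if_pos h]
    fun_prop
  · simp only [if_neg h]
    exact measurable_const.indicator measurableSet_Icc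

theorem fac_nonneg (β b R : ℝ) (A B : ι) (x : ℝ) : 0 ≤ fac β b R A B x := by
  unfold fac
  split_ifs
  · exact (Real.exp_pos _).le
  · exact Set.indicator_nonneg (fun _ _ => zero_le_one) x

theorem fac_val (β b R : ℝ) (hβ : 0 < β) (hR : 0 ≤ R) (A : ι) :
    ∏ B, ∫ x, fac β b R A B x = 2 / β * (2 * R) ^ (Fintype.card ι - 1) := by
  rw [← Finset.mul_prod_erase Finset.univ _ (Finset.mem_univ A)]
  congr 1
  · unfold fac
    simp only [if_true]
    exact (one_dim β hβ b).2
  · rw [Finset.prod_congr rfl (g := fun _ => 2 * R)]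
    · rw [Finset.prod_const, Finset.card_erase_of_mem (Finset.mem_univ A), Finset.card_univ]
    · intro B hB
      have hBA : B ≠ A := Finset.ne_of_mem_erase hB
      unfold fac
      simp only [if_neg hBA]
      rw [integral_indicator measurableSet_Icc]
      simp only [integral_const, smul_eq_mul, mul_one, MeasurableSet.univ, measureReal_restrict_apply,
        Set.univ_inter]
      rw [Real.volume_real_Icc_of_le (by linarith)]
      ring

/-- the matrix of the change of coordinates -/
def mat (v : ι → ℝ) (A : ι) : Matrix ι ι ℝ := Matrix.updateRow 1 A v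

theorem mat_det (v : ι → ℝ) (A : ι) : (mat v A).det = v A := by
  unfold mat
  rw [← Matrix.cramer_transpose_apply, Matrix.transpose_one, Matrix.cramer_one]
  rfl

theorem mat_apply (v : ι → ℝ) (A : ι) (y : ι → ℝ) (B : ι) :
    Matrix.toLin' (mat v A) y B = if B = A then v ⬝ᵥ y else y B := by
  rw [Matrix.toLin'_apply]
  unfold mat
  by_cases h : B = A
  · rw [if_pos h, h]
    show (Matrix.updateRow 1 A v) A ⬝ᵥ y = v ⬝ᵥ y
    rw [Matrix.updateRow_self]
  · rw [if_neg h]
    show (Matrix.updateRow 1 A v) B ⬝ᵥ y = y B
    rw [Matrix.updateRow_ne h]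
    have := congrFun (Matrix.one_mulVec y) B
    exact this

end Est2

open Est2

theorem est2Stmt : Est2Stmt := by
  intro ι _ _ v hv R
  obtain ⟨A, hA⟩ : ∃ A, v A ≠ 0 := by
    by_contra h
    push Not at h
    exact hv (funext h)
  rcases lt_or_ge R 0 with hR | hR
  · refine ⟨0, le_rfl, fun β hβ b => ?_⟩
    have he : {y : ι → ℝ | ∀ A, |y A| ≤ R} = ∅ := by
      rw [Set.eq_empty_iff_forall_notMem]
      intro y hy
      have := hy A
      have h2 := abs_nonneg (y A)
      linarith
    rw [he]
    simp
  refine ⟨|(v A)⁻¹| * (2 * (2 * R) ^ (Fintype.card ι - 1)), by positivity, fun β hβ b => ?_⟩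
  have hdet : (mat v A).det ≠ 0 := by rw [mat_det]; exact hA
  have hmap := Real.map_matrix_volume_pi_eq_smul_volume_pi hdet
  rw [mat_det] at hmap
  have hTm : Measurable (Matrix.toLin' (mat v A)) :=
    (LinearMap.continuous_on_pi (Matrix.toLin' (mat v A))).measurable
  have hgm : Measurable (fun u : ι → ℝ => ∏ B, fac β b R A B (u B)) :=
    Finset.measurable_prod _ (fun B _ => (fac_meas β b R A B).comp (measurable_pi_apply B))
  have hgi : Integrable (fun u : ι → ℝ => ∏ B, fac β b R A B (u B)) :=
    Integrable.fintype_prod (fun B => fac_int β b R hβ A B)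
  have hgi2 : Integrable (fun u : ι → ℝ => ∏ B, fac β b R A B (u B))
      (Measure.map (Matrix.toLin' (mat v A)) volume) := by
    rw [hmap]
    exact hgi.smul_measure ENNReal.ofReal_ne_top
  have hgi3 : Integrable ((fun u : ι → ℝ => ∏ B, fac β b R A B (u B)) ∘
      (Matrix.toLin' (mat v A))) :=
    (integrable_map_measure hgm.aestronglyMeasurable hTm.aemeasurable).mp hgi2
  have hbox : MeasurableSet {y : ι → ℝ | ∀ A, |y A| ≤ R} := by
    have h1 : {y : ι → ℝ | ∀ A, |y A| ≤ R} = ⋂ A, {y | |y A| ≤ R} := by
      ext y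
      simp
    rw [h1]
    exact MeasurableSet.iInter (fun A =>
      measurableSet_le ((measurable_pi_apply A).abs) measurable_const)
  have hval : ∫ y, (fun u : ι → ℝ => ∏ B, fac β b R A B (u B)) (Matrix.toLin' (mat v A) y) =
      |(v A)⁻¹| * (2 / β * (2 * R) ^ (Fintype.card ι - 1)) := by
    rw [← integral_map hTm.aemeasurable hgm.aestronglyMeasurable, hmap, integral_smul_measure,
      integral_fintype_prod_volume_eq_prod, fac_val β b R hβ hR A,
      ENNReal.toReal_ofReal (abs_nonneg _), smul_eq_mul]
  rw [← integral_indicator hbox]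
  calc ∫ y, {y : ι → ℝ | ∀ A, |y A| ≤ R}.indicator
        (fun y => Real.exp (-(β * |v ⬝ᵥ y + b|))) y
      ≤ ∫ y, (fun u : ι → ℝ => ∏ B, fac β b R A B (u B)) (Matrix.toLin' (mat v A) y) := by
        refine integral_mono_of_nonneg ?_ hgi3 ?_
        · refine Filter.Eventually.of_forall (fun y => ?_)
          by_cases hy : y ∈ {y : ι → ℝ | ∀ A, |y A| ≤ R}
          · simp only [Set.indicator_of_mem hy]
            exact (Real.exp_pos _).le
          · simp only [Set.indicator_of_notMem hy]
            exact le_rfl
        · refine Filter.Eventually.of_forall (fun y => ?_)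
          by_cases hy : y ∈ {y : ι → ℝ | ∀ A, |y A| ≤ R}
          · show {y : ι → ℝ | ∀ A, |y A| ≤ R}.indicator
              (fun y => Real.exp (-(β * |v ⬝ᵥ y + b|))) y ≤
                ∏ B, fac β b R A B (Matrix.toLin' (mat v A) y B)
            rw [Set.indicator_of_mem hy, ← Finset.mul_prod_erase Finset.univ _ (Finset.mem_univ A)]
            have h1 : fac β b R A A (Matrix.toLin' (mat v A) y A) =
                Real.exp (-(β * |v ⬝ᵥ y + b|)) := by
              rw [mat_apply, if_pos rfl]
              unfold fac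
              rw [if_pos rfl]
            have h2 : ∏ B ∈ Finset.univ.erase A, fac β b R A B (Matrix.toLin' (mat v A) y B) = 1 := by
              refine Finset.prod_eq_one (fun B hB => ?_)
              have hBA : B ≠ A := Finset.ne_of_mem_erase hB
              rw [mat_apply, if_neg hBA]
              unfold fac
              rw [if_neg hBA]
              rw [Set.indicator_of_mem (show y B ∈ Icc (-R) R from abs_le.mp (hy B))]
            rw [h1, h2, mul_one]
          · show {y : ι → ℝ | ∀ A, |y A| ≤ R}.indicator
              (fun y => Real.exp (-(β * |v ⬝ᵥ y + b|))) y ≤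
                ∏ B, fac β b R A B (Matrix.toLin' (mat v A) y B)
            rw [Set.indicator_of_notMem hy]
            exact Finset.prod_nonneg (fun B _ => fac_nonneg β b R A B _)
    _ = _ := by
        rw [hval]
        field_simp

end Pool.Agent.Lib.MP_0c1c75_co.Clu
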