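import Pool.Agent.Lib.MP_0c1c75_co.CluSpec

/-!
MP_0c1c75_co, module CluEst3: derivatives of the soft maximum and its weights along a curve.
-/

open MeasureTheory Set

namespace Pool.Agent.Lib.MP_0c1c75_co.Clu

namespace Est3

theorem sum_pos {N : ℕ} (hN : 0 < N) (β : ℝ) (z : Fin N → ℝ) :
    0 < ∑ j, Real.exp (β * z j) := by
  haveI : Nonempty (Fin N) := ⟨⟨0, hN⟩⟩
  exact Finset.sum_pos (fun j _ => Real.exp_pos _) Finset.univ_nonempty

end Est3

open Est3

theorem est3Stmt : Est3Stmt := by
  intro N hN β hβ z z' l hz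
  have he : ∀ i, HasDerivAt (fun s => Real.exp (β * z s i))
      (Real.exp (β * z l i) * (β * z' i)) l := fun i => ((hz i).const_mul β).exp
  have hS : HasDerivAt (fun s => ∑ j, Real.exp (β * z s j))
      (∑ j, Real.exp (β * z l j) * (β * z' j)) l :=
    HasDerivAt.fun_sum (fun j _ => he j)
  have hp := sum_pos hN β (z l)
  have hq : ∑ j, Real.exp (β * z l j) * (β * z' j) =
      β * ((∑ j, Real.exp (β * z l j)) * ∑ j, wt β (z l) j * z' j) := by
    rw [Finset.mul_sum, Finset.mul_sum]
    refine Finset.sum_congr rfl (fun j _ => ?_)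
    unfold wt
    field_simp
  constructor
  · have h1 := (hS.log hp.ne').const_mul (1 / β)
    refine h1.congr_deriv ?_
    rw [hq]
    field_simp
  · intro i
    have h1 := (he i).div hS hp.ne'
    refine h1.congr_deriv ?_
    rw [hq]
    unfold wt
    field_simp

end Pool.Agent.Lib.MP_0c1c75_co.Clu
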