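import Pool.Agent.Lib.MP_0c1c75_co.CluSpec

/-!
MP_0c1c75_co, clusters: module Fac (factorization of the soft maximum over the clusters, and a block
quadratic form).
-/

open MeasureTheory Set
open scoped ContDiff

namespace Pool.Agent.Lib.MP_0c1c75_co.Clu

namespace Fac

variable {k N : ℕ}

/-- the sum over a cluster -/
noncomputable def S (cl : Fin N → Fin k) (β : ℝ) (u : Fin N → ℝ) (c : Fin k) : ℝ :=
  ∑ i ∈ Finset.univ.filter (fun i => cl i = c), Real.exp (β * u i)

theorem le_S (cl : Fin N → Fin k) (β : ℝ) (u : Fin N → ℝ) (i : Fin N) :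
    Real.exp (β * u i) ≤ S cl β u (cl i) := by
  unfold S
  exact Finset.single_le_sum (f := fun i => Real.exp (β * u i))
    (fun i _ => (Real.exp_pos _).le) (Finset.mem_filter.mpr ⟨Finset.mem_univ i, rfl⟩)

theorem S_pos {cl : Fin N → Fin k} (hcl : Function.Surjective cl) (β : ℝ) (u : Fin N → ℝ)
    (c : Fin k) : 0 < S cl β u c := by
  obtain ⟨i, rfl⟩ := hcl c
  exact lt_of_lt_of_le (Real.exp_pos _) (le_S cl β u i)

theorem bound {cl : Fin N → Fin k} (hN : 0 < N) (hcl : Function.Surjective cl) {β : ℝ}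
    (hβ : 0 < β) (u : Fin N → ℝ) (U : ℝ) (hU : ∀ i, |u i| ≤ U) (c : Fin k) :
    |(1 / β) * Real.log (S cl β u c)| ≤ U + Real.log N / β := by
  have hS := S_pos hcl β u c
  have hN' : (1 : ℝ) ≤ N := by exact_mod_cast hN
  have hlogN : 0 ≤ Real.log N := Real.log_nonneg hN'
  have hup : S cl β u c ≤ N * Real.exp (β * U) := by
    calc S cl β u c ≤ ∑ i ∈ Finset.univ.filter (fun i => cl i = c), Real.exp (β * U) := by
          unfold S
          refine Finset.sum_le_sum fun i _ => Real.exp_le_exp.mpr ?_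
          exact mul_le_mul_of_nonneg_left ((le_abs_self _).trans (hU i)) hβ.le
      _ ≤ ∑ _i : Fin N, Real.exp (β * U) :=
          Finset.sum_le_sum_of_subset_of_nonneg (Finset.filter_subset _ _)
            fun _ _ _ => (Real.exp_pos _).le
      _ = N * Real.exp (β * U) := by simp
  have hlo : Real.exp (β * (-U)) ≤ S cl β u c := by
    obtain ⟨i, rfl⟩ := hcl c
    refine le_trans (Real.exp_le_exp.mpr ?_) (le_S cl β u i)
    refine mul_le_mul_of_nonneg_left ?_ hβ.le
    exact neg_le.mp ((neg_le_abs _).trans (hU i))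
  have h1 : Real.log (S cl β u c) ≤ Real.log N + β * U := by
    have h2 := Real.log_le_log hS hup
    rw [Real.log_mul (by positivity) (Real.exp_pos _).ne', Real.log_exp] at h2
    exact h2
  have h3 : β * (-U) ≤ Real.log (S cl β u c) := by
    have h4 := Real.log_le_log (Real.exp_pos _) hlo
    rwa [Real.log_exp] at h4
  have hβ' : 0 < 1 / β := by positivity
  have h5 : Real.log N / β = (1 / β) * Real.log N := by ring
  have h6 : (1 / β) * (β * U) = U := by field_simp
  rw [abs_le, h5]
  constructor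
  · have h7 := mul_le_mul_of_nonneg_left h3 hβ'.le
    have h8 : (1 / β) * (β * (-U)) = -U := by field_simp
    rw [h8] at h7
    have h9 : 0 ≤ (1 / β) * Real.log N := mul_nonneg hβ'.le hlogN
    linarith
  · have h7 := mul_le_mul_of_nonneg_left h1 hβ'.le
    rw [mul_add, h6] at h7
    linarith

theorem sum_eq {cl : Fin N → Fin k} (hcl : Function.Surjective cl) {β : ℝ} (hβ : 0 < β)
    (u : Fin N → ℝ) (t : Fin k → ℝ) :
    ∑ i, Real.exp (β * (t (cl i) + u i)) =
      ∑ c, Real.exp (β * (t c + (1 / β) * Real.log (S cl β u c))) := by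
  rw [← Finset.sum_fiberwise Finset.univ cl]
  refine Finset.sum_congr rfl fun c _ => ?_
  have h1 : β * (t c + (1 / β) * Real.log (S cl β u c)) =
      β * t c + Real.log (S cl β u c) := by
    field_simp
  rw [h1, Real.exp_add, Real.exp_log (S_pos hcl β u c)]
  unfold S
  rw [Finset.mul_sum]
  refine Finset.sum_congr rfl fun i hi => ?_
  have h2 : cl i = c := (Finset.mem_filter.mp hi).2
  rw [h2, mul_add, Real.exp_add]

theorem one : ∀ (k N : ℕ) (cl : Fin N → Fin k), 0 < N → Function.Surjective cl → ∀ (β : ℝ),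
    0 < β → ∀ u : Fin N → ℝ, ∃ (h : Fin k → ℝ) (w : Fin N → ℝ),
      (∀ U : ℝ, (∀ i, |u i| ≤ U) → ∀ c, |h c| ≤ U + Real.log N / β) ∧
      (∀ i, 0 < w i ∧ w i ≤ 1) ∧
      (∀ i j, i ≠ j → cl i = cl j → w i * w j ≤ Real.exp (-(β * |u i - u j|))) ∧
      (∀ t : Fin k → ℝ, smx β (fun i => t (cl i) + u i) = smx β (t + h) ∧
        ∀ i, wt β (fun i => t (cl i) + u i) i = w i * wt β (t + h) (cl i)) := by
  intro k N cl hN hcl β hβ u
  have hw : ∀ i, 0 < Real.exp (β * u i) / S cl β u (cl i) ∧
      Real.exp (β * u i) / S cl β u (cl i) ≤ 1 := fun i =>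
    ⟨div_pos (Real.exp_pos _) (S_pos hcl β u _),
      (div_le_one (S_pos hcl β u _)).mpr (le_S cl β u i)⟩
  refine ⟨fun c => (1 / β) * Real.log (S cl β u c),
    fun i => Real.exp (β * u i) / S cl β u (cl i), ?_, hw, ?_, ?_⟩
  · intro U hU c
    exact bound hN hcl hβ u U hU c
  · -- the product of two weights
    have key : ∀ i j, cl i = cl j → u i ≤ u j →
        Real.exp (β * u i) / S cl β u (cl i) * (Real.exp (β * u j) / S cl β u (cl j)) ≤
          Real.exp (-(β * |u i - u j|)) := by
      intro i j hij hle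
      have h1 : Real.exp (β * u i) / S cl β u (cl i) ≤
          Real.exp (β * u i) / Real.exp (β * u j) := by
        refine div_le_div_of_nonneg_left (Real.exp_pos _).le (Real.exp_pos _) ?_
        rw [hij]
        exact le_S cl β u j
      have h2 : Real.exp (β * u i) / Real.exp (β * u j) = Real.exp (-(β * |u i - u j|)) := by
        rw [← Real.exp_sub, abs_of_nonpos (sub_nonpos.mpr hle)]
        congr 1
        ring
      calc Real.exp (β * u i) / S cl β u (cl i) * (Real.exp (β * u j) / S cl β u (cl j))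
          ≤ Real.exp (β * u i) / S cl β u (cl i) * 1 :=
            mul_le_mul_of_nonneg_left (hw j).2 (hw i).1.le
        _ = Real.exp (β * u i) / S cl β u (cl i) := mul_one _
        _ ≤ _ := h1.trans h2.le
    intro i j _ hij
    rcases le_total (u i) (u j) with hle | hle
    · exact key i j hij hle
    · have h1 := key j i hij.symm hle
      rw [abs_sub_comm, mul_comm] at h1
      exact h1
  · intro t
    have hsum := sum_eq hcl hβ u t
    constructor
    · unfold smx
      rw [hsum]
      rfl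
    · intro i
      unfold wt
      rw [hsum]
      show _ = _ * (Real.exp (β * (t (cl i) + (1 / β) * Real.log (S cl β u (cl i)))) /
        ∑ c, Real.exp (β * (t c + (1 / β) * Real.log (S cl β u c))))
      have h1 : β * (t (cl i) + (1 / β) * Real.log (S cl β u (cl i))) =
          β * t (cl i) + Real.log (S cl β u (cl i)) := by
        field_simp
      rw [h1, Real.exp_add, Real.exp_log (S_pos hcl β u _), mul_add, Real.exp_add]
      have h2 := (S_pos hcl β u (cl i)).ne'
      field_simp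

theorem two (e k : ℕ) (A : Matrix (Fin e ⊕ Fin k) (Fin e ⊕ Fin k) ℝ) (hA : A.IsSymm)
    (s : Fin e → ℝ) (h z : Fin k → ℝ) :
      qg A (Sum.elim s (z - h)) =
        qp (fun i j => A (Sum.inr i) (Sum.inr j))
          (fun c => (1 / 2) * A.mulVec (Sum.elim s (-h)) (Sum.inr c))
          (qg A (Sum.elim s (-h))) z := by
  have h1 : (Sum.elim s (z - h) : Fin e ⊕ Fin k → ℝ) = Sum.elim s (-h) + Sum.elim (0 : Fin e → ℝ) z := by
    funext x
    rcases x with x | x
    · simp
    · simp only [Sum.elim_inr, Pi.add_apply, Pi.sub_apply, Pi.neg_apply]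
      ring
  have h2 : Sum.elim s (-h) ⬝ᵥ A.mulVec (Sum.elim (0 : Fin e → ℝ) z) =
      (Sum.elim (0 : Fin e → ℝ) z : Fin e ⊕ Fin k → ℝ) ⬝ᵥ A.mulVec (Sum.elim s (-h)) := by
    rw [Matrix.dotProduct_mulVec, ← Matrix.mulVec_transpose, hA.eq, dotProduct_comm]
  have h3 : (Sum.elim (0 : Fin e → ℝ) z : Fin e ⊕ Fin k → ℝ) ⬝ᵥ A.mulVec (Sum.elim s (-h)) =
      ∑ c, z c * A.mulVec (Sum.elim s (-h)) (Sum.inr c) := by
    unfold dotProduct
    rw [Fintype.sum_sum_type]
    simp
  have h4 : (Sum.elim (0 : Fin e → ℝ) z : Fin e ⊕ Fin k → ℝ) ⬝ᵥ A.mulVec (Sum.elim (0 : Fin e → ℝ) z) =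
      z ⬝ᵥ (Matrix.mulVec (fun i j => A (Sum.inr i) (Sum.inr j)) z) := by
    unfold dotProduct
    rw [Fintype.sum_sum_type]
    simp only [Sum.elim_inl, Pi.zero_apply, zero_mul, Finset.sum_const_zero, Sum.elim_inr,
      zero_add]
    refine Finset.sum_congr rfl fun c _ => ?_
    congr 1
    unfold Matrix.mulVec dotProduct
    rw [Fintype.sum_sum_type]
    simp
  unfold qp
  have h5 : qg A (Sum.elim s (-h) + Sum.elim (0 : Fin e → ℝ) z) =
      qg A (Sum.elim s (-h)) + (1 / 2) * (∑ c, z c * A.mulVec (Sum.elim s (-h)) (Sum.inr c)) +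
        qg (fun i j => A (Sum.inr i) (Sum.inr j)) z := by
    unfold qg
    rw [Matrix.mulVec_add, dotProduct_add, add_dotProduct, add_dotProduct, h2, h3, h4]
    ring
  rw [h1, h5]
  have h6 : (fun c => (1 / 2) * A.mulVec (Sum.elim s (-h)) (Sum.inr c)) ⬝ᵥ z =
      (1 / 2) * (∑ c, z c * A.mulVec (Sum.elim s (-h)) (Sum.inr c)) := by
    unfold dotProduct
    rw [Finset.mul_sum]
    refine Finset.sum_congr rfl fun c _ => ?_
    ring
  rw [h6]
  ring

end Fac

theorem facStmt : FacStmt := ⟨Fac.one, fun e k A hA s h z => Fac.two e k A hA s h z⟩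

end Pool.Agent.Lib.MP_0c1c75_co.Clu
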