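import Pool.Agent.Lib.MP_0c1c75_co.CluSpec

/-!
MP_0c1c75_co, clusters, module FibreK: the uniform lower bound for a wall in a fibre.
-/

open MeasureTheory Set
open scoped ContDiff

namespace Pool.Agent.Lib.MP_0c1c75_co.Clu

open Pool.Agent.Lib.MP_0c1c75_co.Few (Prof gm lift4 ConeIntStmt Polar2Stmt ContStmt LiftStmt)

namespace FibreK

theorem cont_mulVec {ι : Type} [Fintype ι] (A : Matrix ι ι ℝ) :
    Continuous fun t : ι → ℝ => A.mulVec t := by
  unfold Matrix.mulVec dotProduct
  fun_prop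

theorem cont_qp {ι : Type} [Fintype ι] (A : Matrix ι ι ℝ) (m : ι → ℝ) (ν : ℝ) :
    Continuous (qp A m ν) := by
  unfold qp qg Matrix.mulVec dotProduct
  fun_prop

theorem dot_single {ι : Type} [Fintype ι] [DecidableEq ι] (A : Matrix ι ι ℝ) (hA : A.IsSymm)
    (z : ι → ℝ) (c : ι) : z ⬝ᵥ A.mulVec (Pi.single c 1) = A.mulVec z c := by
  rw [Matrix.dotProduct_mulVec, dotProduct_single_one]
  have := Matrix.mulVec_transpose A z
  rw [hA.eq] at this
  rw [this]

theorem qp_line {ι : Type} [Fintype ι] [DecidableEq ι] (A : Matrix ι ι ℝ) (hA : A.IsSymm)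
    (m : ι → ℝ) (ν : ℝ) (z : ι → ℝ) (c : ι) (t : ℝ) :
    qp A m ν (z + t • Pi.single c 1) =
      qp A m ν z + t * ((1 / 2) * A.mulVec z c + m c) + t ^ 2 * (1 / 4 * A c c) := by
  have e1 := dot_single A hA z c
  have e2 : (Pi.single c 1 : ι → ℝ) ⬝ᵥ A.mulVec z = A.mulVec z c := by
    rw [single_one_dotProduct]
  have e3 : (Pi.single c 1 : ι → ℝ) ⬝ᵥ A.mulVec (Pi.single c 1) = A c c := by
    rw [single_one_dotProduct, Matrix.mulVec_single_one]
    rfl
  have e4 : m ⬝ᵥ (Pi.single c 1 : ι → ℝ) = m c := by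
    rw [dotProduct_single_one]
  unfold qp qg
  rw [Matrix.mulVec_add, Matrix.mulVec_smul, add_dotProduct, dotProduct_add, dotProduct_add,
    smul_dotProduct, smul_dotProduct, dotProduct_smul, dotProduct_smul, dotProduct_add,
    dotProduct_smul, e1, e2, e3, e4]
  simp only [smul_eq_mul]
  ring

theorem hasDeriv_qp {ι : Type} [Fintype ι] [DecidableEq ι] (A : Matrix ι ι ℝ) (hA : A.IsSymm)
    (m : ι → ℝ) (ν : ℝ) (z : ι → ℝ) (c : ι) :
    HasDerivAt (fun t : ℝ => qp A m ν (z + t • Pi.single c 1))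
      ((1 / 2) * A.mulVec z c + m c) 0 := by
  have h1 : (fun t : ℝ => qp A m ν (z + t • Pi.single c 1)) = fun t : ℝ =>
      qp A m ν z + t * ((1 / 2) * A.mulVec z c + m c) + t ^ 2 * (1 / 4 * A c c) := by
    funext t
    exact qp_line A hA m ν z c t
  rw [h1]
  have h2 : HasDerivAt (fun t : ℝ => qp A m ν z + t * ((1 / 2) * A.mulVec z c + m c) +
      t ^ 2 * (1 / 4 * A c c)) (0 + 1 * ((1 / 2) * A.mulVec z c + m c) +
        ((2 : ℕ) * (0 : ℝ) ^ (2 - 1)) * (1 / 4 * A c c)) 0 := by
    refine HasDerivAt.add (HasDerivAt.add (hasDerivAt_const _ _) ?_) ?_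
    · exact (hasDerivAt_id (0 : ℝ)).mul_const _
    · exact (hasDerivAt_pow 2 (0 : ℝ)).mul_const _
  convert h2 using 1
  norm_num

/-- integral of a partial derivative -/
theorem int_zero {k : ℕ} (c : Fin k) (G G' : (Fin k → ℝ) → ℝ) (hG : Integrable G)
    (hG' : Integrable G')
    (h : ∀ z, HasDerivAt (fun t : ℝ => G (z + t • Pi.single c 1)) (G' z) 0) :
    ∫ z, G' z = 0 := by
  have h1 := integral_bilinear_hasLineDerivAt_right_eq_neg_left_of_integrable
    (μ := (volume : Measure (Fin k → ℝ))) (f := fun _ => (1 : ℝ)) (f' := fun _ => (0 : ℝ))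
    (g := G) (g' := G') (v := (Pi.single c 1 : Fin k → ℝ)) (B := ContinuousLinearMap.mul ℝ ℝ)
    (by simp) (by simpa using hG') (by simpa using hG)
    (fun x _ => by
      have := hasDerivAt_const (0 : ℝ) (1 : ℝ)
      exact this)
    (fun x _ => h x)
  simpa using h1

theorem int_exp (hE : Est2Stmt) (k : ℕ) (R : ℝ) : ∃ Cs : ℝ, 0 ≤ Cs ∧ ∀ β : ℝ, 0 < β →
    ∀ c m : Fin k, c ≠ m →
    ∫ y in {y : Fin k → ℝ | ∀ A, |y A| ≤ R}, Real.exp (-(β * |y c - y m|)) ≤ Cs / β := by
  have h1 : ∀ c m : Fin k, ∃ C : ℝ, 0 ≤ C ∧ (c ≠ m → ∀ β : ℝ, 0 < β →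
      ∫ y in {y : Fin k → ℝ | ∀ A, |y A| ≤ R}, Real.exp (-(β * |y c - y m|)) ≤ C / β) := by
    intro c m
    by_cases hcm : c = m
    · exact ⟨0, le_refl _, fun h => absurd hcm h⟩
    · obtain ⟨C, hC, h⟩ := hE (Fin k) (Pi.single c 1 - Pi.single m 1) (by
        intro h0
        have := congrFun h0 c
        simp [hcm] at this) R
      refine ⟨C, hC, fun _ β hβ => ?_⟩
      have h2 := h β hβ 0
      have h3 : ∀ y : Fin k → ℝ,
          (Pi.single c 1 - Pi.single m 1 : Fin k → ℝ) ⬝ᵥ y + 0 = y c - y m := by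
        intro y
        rw [sub_dotProduct, single_one_dotProduct, single_one_dotProduct, add_zero]
      simpa only [h3] using h2
  choose C hC h using h1
  refine ⟨∑ c, ∑ m, C c m, Finset.sum_nonneg fun c _ => Finset.sum_nonneg fun m _ => hC c m,
    fun β hβ c m hcm => (h c m hcm β hβ).trans ?_⟩
  apply div_le_div_of_nonneg_right _ hβ.le
  exact (Finset.single_le_sum (f := fun m => C c m) (fun m _ => hC c m)
    (Finset.mem_univ m)).trans (Finset.single_le_sum (f := fun c => ∑ m, C c m)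
      (fun c _ => Finset.sum_nonneg fun m _ => hC c m) (Finset.mem_univ c))

theorem box_eq (k : ℕ) (R : ℝ) :
    {y : Fin k → ℝ | ∀ A, |y A| ≤ R} = Icc (fun _ => -R) (fun _ => R) := by
  ext y
  simp only [mem_ofPred_eq, mem_Icc, Pi.le_def, abs_le]
  exact ⟨fun h => ⟨fun i => (h i).1, fun i => (h i).2⟩, fun h i => ⟨h.1 i, h.2 i⟩⟩

theorem box_compact (k : ℕ) (R : ℝ) : IsCompact {y : Fin k → ℝ | ∀ A, |y A| ≤ R} := by
  rw [box_eq]
  exact isCompact_Icc

theorem pointwise {r r' x x' q s B K L e1 e2 : ℝ} (hr0 : 0 ≤ r) (hr1 : r ≤ 1) (hr' : 0 ≤ r')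
    (hB : 0 ≤ B) (hL : 0 ≤ L) (hx : |x| ≤ B) (hx' : |x'| ≤ B) (hq : |q| ≤ K)
    (hxx : |x - x'| ≤ B * L) (hrr : r * r' ≤ e1) (hrs : |r - s| ≤ e2) :
    |r * (x * (q + r')) - s * (x' * q)| ≤ B * e1 + B * L * K + B * K * e2 := by
  have hK : 0 ≤ K := (abs_nonneg q).trans hq
  have e : r * (x * (q + r')) - s * (x' * q) = (r * r') * x + r * ((x - x') * q) +
      (r - s) * (x' * q) := by ring
  rw [e]
  have a1 : |(r * r') * x| ≤ B * e1 := by
    rw [abs_mul, abs_of_nonneg (mul_nonneg hr0 hr'), mul_comm]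
    exact mul_le_mul hx hrr (mul_nonneg hr0 hr') hB
  have a2 : |r * ((x - x') * q)| ≤ B * L * K := by
    rw [abs_mul, abs_of_nonneg hr0, abs_mul]
    have h1 : |x - x'| * |q| ≤ B * L * K :=
      mul_le_mul hxx hq (abs_nonneg _) (mul_nonneg hB hL)
    have h2 : 0 ≤ |x - x'| * |q| := by positivity
    nlinarith
  have a3 : |(r - s) * (x' * q)| ≤ B * K * e2 := by
    rw [abs_mul, abs_mul, mul_comm]
    exact mul_le_mul (mul_le_mul hx' hq (abs_nonneg _) hB) hrs (abs_nonneg _)
      (mul_nonneg hB hK)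
  exact (abs_add_le _ _).trans (add_le_add ((abs_add_le _ _).trans (add_le_add a1 a2)) a3)

theorem mulVec_bound {k : ℕ} {A : Matrix (Fin k) (Fin k) ℝ} {Λ R : ℝ}
    (hA : ∀ i j, |A i j| ≤ Λ) {z : Fin k → ℝ} (hz : ∀ i, |z i| ≤ R) (c : Fin k) :
    |A.mulVec z c| ≤ k * (|Λ| * R) := by
  unfold Matrix.mulVec dotProduct
  refine (Finset.abs_sum_le_sum_abs _ _).trans ?_
  have h1 : ∀ i ∈ (Finset.univ : Finset (Fin k)), |A c i * z i| ≤ |Λ| * R := by
    intro i _
    rw [abs_mul]
    exact mul_le_mul ((hA c i).trans (le_abs_self _)) (hz i) (abs_nonneg _) (abs_nonneg _)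
  refine (Finset.sum_le_sum h1).trans ?_
  simp

theorem low_bound {k : ℕ} {m : Fin k → ℝ} {ν D : ℝ} (hm : ∀ i, |m i| ≤ D) (hν : |ν| ≤ D)
    (z : Fin k → ℝ) (c : Fin k) (g : ℝ) (hg : z c ≤ g) :
    -D - (D + 1) * ∑ A, |z A| ≤ m ⬝ᵥ z + ν + g := by
  have h1 : -(D * ∑ A, |z A|) ≤ m ⬝ᵥ z := by
    unfold dotProduct
    rw [Finset.mul_sum, ← Finset.sum_neg_distrib]
    refine Finset.sum_le_sum fun i _ => ?_
    have h2 := neg_abs_le (m i * z i)
    rw [abs_mul] at h2
    have h3 := mul_le_mul_of_nonneg_right (hm i) (abs_nonneg (z i))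
    linarith
  have h2 : |z c| ≤ ∑ A, |z A| :=
    Finset.single_le_sum (f := fun A => |z A|) (fun i _ => abs_nonneg _) (Finset.mem_univ c)
  have h3 := neg_abs_le (z c)
  have h4 := neg_abs_le ν
  nlinarith

end FibreK

open FibreK in
theorem fibreKStmt (h1 : WallCStmt) (h2 : EstStmt) (h3 : BoxStmt) : FibreKStmt := by
  intro k hk Φ hΦ lam Λ D hlam
  obtain ⟨hE1, hE2, hE3⟩ := h2
  obtain ⟨hB1, hB2⟩ := h3
  obtain ⟨B, hB0, -, hb1, hb2, -, hlip, hd0, hd1, hcc⟩ := hB2 Φ hΦ
  obtain ⟨R, hR0, hR⟩ := hB1 (Fin k) Φ hΦ lam D (D + 1) hlam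
  obtain ⟨Cs, hCs, hexp⟩ := int_exp hE2 k R
  have hboxc := box_compact k R
  obtain ⟨box, hbox⟩ : ∃ box : Set (Fin k → ℝ), box = {y | ∀ A, |y A| ≤ R} := ⟨_, rfl⟩
  rw [← hbox] at hboxc
  simp only [← hbox] at hexp
  have hboxm : MeasurableSet box := hboxc.isClosed.measurableSet
  have hlogk : 0 ≤ Real.log k := Real.log_natCast_nonneg k
  obtain ⟨K, hK⟩ : ∃ K : ℝ, K = (1 / 2) * (k * (|Λ| * R)) + |D| := ⟨_, rfl⟩
  have hK0 : 0 ≤ K := by rw [hK]; positivity
  refine ⟨B * Cs + B * Real.log k * K * (volume box).toReal + B * K * (k * Cs), by positivity, ?_⟩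
  intro A hA hlow hent m ν hm hν β hβ c c' hc'
  have hβ0 : 0 < β := by linarith
  have hk0 : 0 < k := by omega
  have hsym : A.IsSymm := by
    have := hA.isHermitian
    ext i j
    have h := this.apply i j
    simpa using h
  obtain ⟨hz, chm, csm, cwt⟩ := hE1 k hk0 β hβ0
  have cq := cont_qp A m ν
  have cqc : Continuous fun z : Fin k → ℝ => (1 / 2) * A.mulVec z c' + m c' :=
    (continuous_const.mul ((continuous_apply c').comp (cont_mulVec A))).add continuous_const
  have cd1 : Continuous (deriv Φ) := hd1.continuous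
  -- vanishing outside of the box
  have hout : ∀ z ∉ box, ∀ g, z c ≤ g → deriv Φ (qp A m ν z + g) = 0 ∧
      deriv (deriv Φ) (qp A m ν z + g) = 0 := by
    intro z hz g hg
    have hz' : ∃ A, R < |z A| := by
      by_contra hcon
      push Not at hcon
      exact hz (by rw [hbox]; exact hcon)
    have h := hR z (qg A z) (m ⬝ᵥ z + ν + g) hz' (hlow z) (low_bound hm hν z c g hg)
    have e : qg A z + (m ⬝ᵥ z + ν + g) = qp A m ν z + g := by
      unfold qp
      ring
    rw [e] at h
    exact ⟨h.2.1, h.2.2⟩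
  have hzs : ∀ z : Fin k → ℝ, z c ≤ smx β z := fun z => ((hz z).2.2.1 c).trans (hz z).1
  have hzh : ∀ z : Fin k → ℝ, z c ≤ hmx z := fun z => (hz z).2.2.1 c
  have hint : ∀ F : (Fin k → ℝ) → ℝ, Continuous F → (∀ z ∉ box, F z = 0) → Integrable F := by
    intro F hF h0
    exact hF.integrable_of_hasCompactSupport (HasCompactSupport.intro hboxc h0)
  -- the functions
  obtain ⟨F, hF⟩ : ∃ F : (Fin k → ℝ) → ℝ, F = fun z =>
    β * (wt β z c * wt β z c' * -deriv Φ (qp A m ν z + smx β z)) := ⟨_, rfl⟩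
  obtain ⟨T, hT⟩ : ∃ T : (Fin k → ℝ) → ℝ, T = fun z =>
    wt β z c * (deriv (deriv Φ) (qp A m ν z + smx β z) *
      (((1 / 2) * A.mulVec z c' + m c') + wt β z c')) := ⟨_, rfl⟩
  obtain ⟨W, hW⟩ : ∃ W : (Fin k → ℝ) → ℝ, W = fun z =>
    deriv (deriv Φ) (qp A m ν z + hmx z) * ((1 / 2) * A.mulVec z c' + m c') := ⟨_, rfl⟩
  obtain ⟨G, hG⟩ : ∃ G : (Fin k → ℝ) → ℝ, G = fun z =>
    wt β z c * deriv Φ (qp A m ν z + smx β z) := ⟨_, rfl⟩
  have cF : Continuous F := by
    rw [hF]
    exact continuous_const.mul (((cwt c).mul (cwt c')).mul (cd1.comp (cq.add csm)).neg)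
  have cT : Continuous T := by
    rw [hT]
    exact (cwt c).mul ((hcc.comp (cq.add csm)).mul (cqc.add (cwt c')))
  have cW : Continuous W := by
    rw [hW]
    exact (hcc.comp (cq.add chm)).mul cqc
  have cG : Continuous G := by
    rw [hG]
    exact (cwt c).mul (cd1.comp (cq.add csm))
  have iF : Integrable F := hint F cF fun z hz => by
    rw [hF]
    simp only
    rw [(hout z hz _ (hzs z)).1]
    ring
  have iT : Integrable T := hint T cT fun z hz => by
    rw [hT]
    simp only
    rw [(hout z hz _ (hzs z)).2]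
    ring
  have iW : Integrable W := hint W cW fun z hz => by
    rw [hW]
    simp only
    rw [(hout z hz _ (hzh z)).2]
    ring
  have iG : Integrable G := hint G cG fun z hz => by
    rw [hG]
    simp only
    rw [(hout z hz _ (hzs z)).1]
    ring
  -- integration by parts
  have hder : ∀ z, HasDerivAt (fun t : ℝ => G (z + t • Pi.single c' 1)) (F z + T z) 0 := by
    intro z
    obtain ⟨hs, hw⟩ := hE3 k hk0 β hβ0 (fun t => z + t • Pi.single c' 1) (Pi.single c' 1) 0
      (fun i => by
        have h := ((hasDerivAt_id (0 : ℝ)).mul_const ((Pi.single c' 1 : Fin k → ℝ) i)).const_add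
          (z i)
        simpa using h)
    have hw := hw c
    have e0 : z + (0 : ℝ) • (Pi.single c' 1 : Fin k → ℝ) = z := by simp
    have e1 : ∑ i, wt β z i * (Pi.single c' 1 : Fin k → ℝ) i = wt β z c' := by
      simp [Pi.single_apply]
    have e2 : (Pi.single c' 1 : Fin k → ℝ) c = 0 := by
      simp [Pi.single_apply, hc'.symm]
    rw [e0, e1] at hs
    rw [e0, e1, e2] at hw
    have hq := hasDeriv_qp A hsym m ν z c'
    have hE := hq.add hs
    have hphi : HasDerivAt (deriv Φ) (deriv (deriv Φ) (qp A m ν z + smx β z))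
        (qp A m ν (z + (0 : ℝ) • Pi.single c' 1) + smx β (z + (0 : ℝ) • Pi.single c' 1)) := by
      rw [e0]
      exact (hd1 _).hasDerivAt
    have hcomp := hphi.comp (0 : ℝ) hE
    have hprod := hw.mul hcomp
    simp only [Function.comp_apply, Pi.add_apply, e0] at hprod
    rw [hG, hF, hT]
    refine HasDerivAt.congr_deriv hprod ?_
    ring
  have hzero : ∫ z, (F z + T z) = 0 := int_zero c' G _ iG (iF.add iT) hder
  rw [integral_add iF iT] at hzero
  -- the cell
  obtain ⟨S, hS⟩ : ∃ S : Set (Fin k → ℝ), S = {z | ∀ i, z i ≤ z c} := ⟨_, rfl⟩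
  have hSm : MeasurableSet S := by
    rw [hS]
    have : {z : Fin k → ℝ | ∀ i, z i ≤ z c} = ⋂ i, {z | z i ≤ z c} := by
      ext z
      simp
    rw [this]
    exact MeasurableSet.iInter fun i =>
      (isClosed_le (continuous_apply i) (continuous_apply c)).measurableSet
  have hwall := h1 k hk Φ hΦ A hA m ν c c' hc'
  rw [← hS] at hwall
  have hWS : ∫ z in S, deriv (deriv Φ) (qp A m ν z + z c) * ((1 / 2) * A.mulVec z c' + m c') =
      ∫ z in S, W z := by
    refine setIntegral_congr_fun hSm fun z hzS => ?_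
    rw [hS] at hzS
    have e : hmx z = z c := by
      apply le_antisymm _ (hzh z)
      obtain ⟨i, hi⟩ := (hz z).2.2.2.1
      rw [hi]
      exact hzS i
    rw [hW]
    simp only
    rw [e]
  rw [hWS] at hwall
  -- the comparison
  obtain ⟨bd, hbd⟩ : ∃ bd : (Fin k → ℝ) → ℝ, bd = fun z =>
    B * Real.exp (-(β * |z c - z c'|)) + B * (Real.log k / β) * K +
      B * K * ∑ i ∈ Finset.univ.erase c, Real.exp (-(β * |z c - z i|)) := ⟨_, rfl⟩
  have cexp : ∀ i : Fin k, Continuous fun z : Fin k → ℝ => Real.exp (-(β * |z c - z i|)) := by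
    intro i
    fun_prop
  have iexp : ∀ i : Fin k, IntegrableOn (fun z : Fin k → ℝ => Real.exp (-(β * |z c - z i|)))
      box := fun i => (cexp i).continuousOn.integrableOn_compact hboxc
  have cbd : Continuous bd := by
    rw [hbd]
    exact ((continuous_const.mul (cexp c')).add continuous_const).add
      (continuous_const.mul (continuous_finsetSum _ fun i _ => cexp i))
  have ibd : IntegrableOn bd box := cbd.continuousOn.integrableOn_compact hboxc
  have hpt : ∀ z, |T z - S.indicator W z| ≤ box.indicator bd z := by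
    intro z
    by_cases hzb : z ∈ box
    · rw [indicator_of_mem hzb]
      have hzb' : ∀ A, |z A| ≤ R := by
        rw [hbox] at hzb
        exact hzb
      obtain ⟨f1, f2, f3, f4, f5, f6, f7, f8, f9⟩ := hz z
      have e : S.indicator W z = S.indicator (fun _ => (1 : ℝ)) z * W z := by
        by_cases hzS : z ∈ S
        · rw [indicator_of_mem hzS, indicator_of_mem hzS, one_mul]
        · rw [indicator_of_notMem hzS, indicator_of_notMem hzS, zero_mul]
      rw [e, hT, hW, hbd]
      simp only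
      refine pointwise (f5 c).le (f6 c) (f5 c').le hB0 (by positivity) (hb2 _) (hb2 _) ?_ ?_
        (f8 c c' hc'.symm) ?_
      · rw [hK]
        have g1 := mulVec_bound hent hzb' c'
        have g2 : |(1 / 2) * A.mulVec z c'| ≤ (1 / 2) * (k * (|Λ| * R)) := by
          rw [abs_mul, abs_of_pos (by norm_num : (0 : ℝ) < 1 / 2)]
          linarith
        exact (abs_add_le _ _).trans (add_le_add g2 ((hm c').trans (le_abs_self _)))
      · refine (hlip _ _).trans ?_
        refine mul_le_mul_of_nonneg_left ?_ hB0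
        rw [add_sub_add_left_eq_sub, abs_of_nonneg (by linarith)]
        linarith
      · have := f9 c
        rw [← hS] at this
        exact this
    · rw [indicator_of_notMem hzb]
      have e1 : T z = 0 := by
        rw [hT]
        simp only
        rw [(hout z hzb _ (hzs z)).2]
        ring
      have e2 : W z = 0 := by
        rw [hW]
        simp only
        rw [(hout z hzb _ (hzh z)).2]
        ring
      have e3 : S.indicator W z = 0 := by
        by_cases hzS : z ∈ S
        · rw [indicator_of_mem hzS, e2]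
        · rw [indicator_of_notMem hzS]
      rw [e1, e3]
      simp
  have hdiff : |(∫ z, T z) - ∫ z in S, W z| ≤ ∫ z in box, bd z := by
    rw [← integral_indicator hSm, ← integral_indicator hboxm,
      ← integral_sub iT (iW.indicator hSm)]
    have g := norm_integral_le_of_norm_le ((integrable_indicator_iff hboxm).2 ibd)
      (f := fun z => T z - S.indicator W z)
      (Filter.Eventually.of_forall fun z => by rw [Real.norm_eq_abs]; exact hpt z)
    rw [Real.norm_eq_abs] at g
    exact g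
  have hbdint : ∫ z in box, bd z ≤
      (B * Cs + B * Real.log k * K * (volume box).toReal + B * K * (k * Cs)) / β := by
    rw [hbd]
    have hconst : IntegrableOn (fun _ : Fin k → ℝ => B * (Real.log k / β) * K) box :=
      continuous_const.continuousOn.integrableOn_compact hboxc
    have hsumi : IntegrableOn (fun z : Fin k → ℝ => ∑ i ∈ Finset.univ.erase c,
        Real.exp (-(β * |z c - z i|))) box :=
      (continuous_finsetSum _ fun i _ => cexp i).continuousOn.integrableOn_compact hboxc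
    have hi1 : IntegrableOn (fun z : Fin k → ℝ => B * Real.exp (-(β * |z c - z c'|)) +
        B * (Real.log k / β) * K) box := ((iexp c').const_mul B).add hconst
    beta_reduce
    rw [integral_add hi1 (hsumi.const_mul (B * K)),
      integral_add ((iexp c').const_mul B) hconst, setIntegral_const, integral_const_mul,
      integral_const_mul, integral_finsetSum _ (fun i _ => iexp i), smul_eq_mul, Measure.real]
    have g1 := hexp β hβ0 c c' hc'.symm
    have g2 : ∑ i ∈ Finset.univ.erase c, ∫ z in box, Real.exp (-(β * |z c - z i|)) ≤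
        k * (Cs / β) := by
      have g3 : ∀ i ∈ Finset.univ.erase c, ∫ z in box, Real.exp (-(β * |z c - z i|)) ≤
          Cs / β := fun i hi => hexp β hβ0 c i (Finset.ne_of_mem_erase hi).symm
      refine (Finset.sum_le_sum g3).trans ?_
      rw [Finset.sum_const, nsmul_eq_mul]
      refine mul_le_mul_of_nonneg_right ?_ (by positivity)
      have := Finset.card_erase_le (s := (Finset.univ : Finset (Fin k))) (a := c)
      rw [Finset.card_univ, Fintype.card_fin] at this
      exact_mod_cast this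
    have e : (B * Cs + B * Real.log k * K * (volume box).toReal + B * K * (k * Cs)) / β =
        B * (Cs / β) + (volume box).toReal * (B * (Real.log k / β) * K) +
          B * K * (k * (Cs / β)) := by
      field_simp
    rw [e]
    refine add_le_add (add_le_add ?_ (le_refl _)) ?_
    · exact mul_le_mul_of_nonneg_left g1 hB0
    · exact mul_le_mul_of_nonneg_left g2 (mul_nonneg hB0 hK0)
  have hfin := (abs_le.1 (hdiff.trans hbdint)).2
  have hFF : ∫ z, β * (wt β z c * wt β z c' * -deriv Φ (qp A m ν z + smx β z)) = ∫ z, F z := by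
    rw [hF]
  rw [hFF]
  linarith

end Pool.Agent.Lib.MP_0c1c75_co.Clu
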