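import Pool.Agent.Lib.MP_0c1c75_co.CluSpec

/-!
MP_0c1c75_co, arbitrarily many balls in clusters: the uniform lower bound for a cell in a fibre.
-/

set_option autoImplicit false

open MeasureTheory Set
open scoped ContDiff

namespace Pool.Agent.Lib.MP_0c1c75_co.Clu

open Pool.Agent.Lib.MP_0c1c75_co.Few (Prof)

namespace FibreL

/-- the box -/
def bx (k : ℕ) (R : ℝ) : Set (Fin k → ℝ) := {y | ∀ A, |y A| ≤ R}

/-- the cell -/
def cell {k : ℕ} (c : Fin k) : Set (Fin k → ℝ) := {z | ∀ i, z i ≤ z c}

theorem bx_eq (k : ℕ) (R : ℝ) : bx k R = Set.pi univ (fun _ => Icc (-R) R) := by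
  ext y
  simp only [bx, mem_setOf_eq, abs_le, mem_univ_pi, mem_Icc]

theorem bx_compact (k : ℕ) (R : ℝ) : IsCompact (bx k R) := by
  rw [bx_eq]
  exact isCompact_univ_pi fun _ => isCompact_Icc

theorem bx_meas (k : ℕ) (R : ℝ) : MeasurableSet (bx k R) := (bx_compact k R).isClosed.measurableSet

theorem cell_meas {k : ℕ} (c : Fin k) : MeasurableSet (cell c) := by
  have h : cell c = ⋂ i, {z : Fin k → ℝ | z i ≤ z c} := by
    ext z
    simp only [cell, mem_setOf_eq, mem_iInter]
  rw [h]
  exact (isClosed_iInter fun i => isClosed_le (continuous_apply i)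
    (continuous_apply c)).measurableSet

/-- a continuous function which vanishes outside of a box is integrable -/
theorem integrable_of_box {k : ℕ} {f : (Fin k → ℝ) → ℝ} (hf : Continuous f) {R : ℝ}
    (h : ∀ z, z ∉ bx k R → f z = 0) : Integrable f := by
  have h1 : IntegrableOn f (bx k R) := hf.continuousOn.integrableOn_compact (bx_compact k R)
  rwa [integrableOn_iff_integrable_of_support_subset] at h1
  intro z hz
  by_contra h2
  exact hz (h z h2)

theorem cont_qp {k : ℕ} (A : Matrix (Fin k) (Fin k) ℝ) (m : Fin k → ℝ) (ν : ℝ) :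
    Continuous (fun z : Fin k → ℝ => qp A m ν z) := by
  unfold qp qg dotProduct Matrix.mulVec dotProduct
  fun_prop

/-- the lower bound for the linear part -/
theorem lin_ge {k : ℕ} {m z : Fin k → ℝ} {D : ℝ} (hm : ∀ i, |m i| ≤ D) :
    -(D * ∑ i, |z i|) ≤ m ⬝ᵥ z := by
  rw [Finset.mul_sum, ← Finset.sum_neg_distrib, dotProduct]
  refine Finset.sum_le_sum fun i _ => ?_
  have h1 : |m i * z i| ≤ D * |z i| := by
    rw [abs_mul]
    exact mul_le_mul_of_nonneg_right (hm i) (abs_nonneg _)
  exact (abs_le.1 h1).1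

theorem sq_sub {x t : ℝ} (hx0 : 0 ≤ x) (hx1 : x ≤ 1) (ht : t = 0 ∨ t = 1) :
    |x ^ 2 - t| ≤ 2 * |x - t| := by
  have h : x ^ 2 - t = (x - t) * (x + t) := by
    rcases ht with rfl | rfl <;> ring
  rw [h, abs_mul, mul_comm]
  refine mul_le_mul_of_nonneg_right ?_ (abs_nonneg _)
  rw [abs_le]
  rcases ht with rfl | rfl <;> constructor <;> linarith

end FibreL

open FibreL in
theorem fibreLStmt (h1 : CellStmt) (h2 : EstStmt) (h3 : BoxStmt) : FibreLStmt := by
  classical
  intro k hk Φ hΦ lam D hlam
  obtain ⟨hE1, hE2, -⟩ := h2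
  obtain ⟨R, hR0, hR⟩ := h3.1 (Fin k) Φ hΦ lam D (D + 1) hlam
  obtain ⟨B, hB0, -, hB1, -, hL, -, -, hd2, -⟩ := h3.2 Φ hΦ
  have hcΦ : Continuous (deriv Φ) := hd2.continuous
  have hk0 : 0 < k := by omega
  -- the constants of `Est2Stmt`
  have hC : ∀ c m : Fin k, ∃ C : ℝ, 0 ≤ C ∧ (m ≠ c → ∀ β : ℝ, 0 < β →
      ∫ y in bx k R, Real.exp (-(β * |y c - y m|)) ≤ C / β) := by
    intro c m
    by_cases hmc : m = c
    · exact ⟨0, le_rfl, fun h => absurd hmc h⟩
    · obtain ⟨C, hC0, hC⟩ := hE2 (Fin k) (Pi.single c 1 - Pi.single m 1) (by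
        intro h
        have h4 := congrFun h c
        rw [Pi.sub_apply, Pi.single_eq_same, Pi.single_eq_of_ne (Ne.symm hmc)] at h4
        norm_num at h4) R
      refine ⟨C, hC0, fun _ β hβ => ?_⟩
      have h5 := hC β hβ 0
      have h6 : ∀ y : Fin k → ℝ, (Pi.single c 1 - Pi.single m 1 : Fin k → ℝ) ⬝ᵥ y + 0 =
          y c - y m := fun y => by
        rw [sub_dotProduct, single_dotProduct, single_dotProduct, one_mul, one_mul, add_zero]
      simp only [h6] at h5
      exact h5
  choose C hC0 hC using hC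
  set vol : ℝ := (volume (bx k R)).toReal with hvol
  have hvol0 : 0 ≤ vol := ENNReal.toReal_nonneg
  have hlogk : 0 ≤ Real.log k := Real.log_natCast_nonneg k
  refine ⟨2 * B * (∑ c, ∑ m, C c m) + B * Real.log k * vol, ?_, ?_⟩
  · refine add_nonneg (mul_nonneg (by positivity)
      (Finset.sum_nonneg fun c _ => Finset.sum_nonneg fun m _ => hC0 c m)) (by positivity)
  intro A hA hlamA m ν hm hν β hβ c
  have hβ0 : 0 < β := by linarith
  obtain ⟨hE, hch, hcs, hcw⟩ := hE1 k hk0 β hβ0
  -- vanishing outside the box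
  have hD : 0 ≤ D := le_trans (abs_nonneg _) hν
  have hlow : ∀ z : Fin k → ℝ, -(∑ i, |z i|) ≤ hmx z := by
    intro z
    refine le_trans ?_ ((hE z).2.2.1 c)
    have h4 : |z c| ≤ ∑ i, |z i| :=
      Finset.single_le_sum (f := fun i => |z i|) (fun i _ => abs_nonneg _) (Finset.mem_univ c)
    have h5 := neg_abs_le (z c)
    linarith
  have hvan : ∀ z : Fin k → ℝ, z ∉ bx k R → ∀ g, hmx z ≤ g → deriv Φ (qp A m ν z + g) = 0 := by
    intro z hz g hg
    have h4 : ∃ a, R < |z a| := by
      by_contra h5
      push Not at h5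
      exact hz h5
    have h5 := (hR z (qg A z) (m ⬝ᵥ z + ν + g) h4 (hlamA z) (by
      have h6 := lin_ge (z := z) hm
      have h7 := hlow z
      have h8 := (abs_le.1 hν).1
      linarith)).2.1
    rw [← h5]
    congr 1
    unfold qp
    ring
  -- the functions
  let F : (Fin k → ℝ) → ℝ := fun z => wt β z c ^ 2 * -deriv Φ (qp A m ν z + smx β z)
  let g : (Fin k → ℝ) → ℝ := fun z => -deriv Φ (qp A m ν z + hmx z)
  have hcF : Continuous F := by
    have h4 := hcw c
    have h5 := cont_qp A m ν
    exact (h4.pow 2).mul (hcΦ.comp (h5.add hcs)).neg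
  have hcg : Continuous g := by
    have h5 := cont_qp A m ν
    exact (hcΦ.comp (h5.add hch)).neg
  have hFv : ∀ z, z ∉ bx k R → F z = 0 := fun z hz => by
    simp only [F]
    rw [hvan z hz _ (hE z).1, neg_zero, mul_zero]
  have hgv : ∀ z, z ∉ bx k R → g z = 0 := fun z hz => by
    simp only [g]
    rw [hvan z hz _ le_rfl, neg_zero]
  have hFi : Integrable F := integrable_of_box hcF hFv
  have hgi : Integrable g := integrable_of_box hcg hgv
  have hGi : Integrable ((cell c).indicator g) := hgi.indicator (cell_meas c)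
  have hG0 : 0 ≤ ∫ z, (cell c).indicator g z := by
    rw [integral_indicator (cell_meas c)]
    have h4 := h1 k hk Φ hΦ A hA m ν c
    refine le_of_le_of_eq h4 (setIntegral_congr_fun (cell_meas c) fun z hz => ?_)
    have h5 : hmx z = z c := by
      obtain ⟨i, hi⟩ := (hE z).2.2.2.1
      refine le_antisymm ?_ ((hE z).2.2.1 c)
      rw [hi]
      exact hz i
    simp only [g, h5]
  -- the bound
  let b : (Fin k → ℝ) → ℝ := fun z =>
    2 * B * (∑ a ∈ Finset.univ.erase c, Real.exp (-(β * |z c - z a|))) + B * (Real.log k / β)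
  have hpt : ∀ z, -((bx k R).indicator b z) ≤ F z - (cell c).indicator g z := by
    intro z
    by_cases hz : z ∈ bx k R
    · rw [indicator_of_mem hz]
      have hsm := (hE z).1
      have hsm' := (hE z).2.1
      have hw0 : 0 ≤ wt β z c := ((hE z).2.2.2.2.1 c).le
      have hw1 : wt β z c ≤ 1 := (hE z).2.2.2.2.2.1 c
      have hc := (hE z).2.2.2.2.2.2.2.2 c
      have e1 := hL (qp A m ν z + hmx z) (qp A m ν z + smx β z)
      have e2 : |qp A m ν z + hmx z - (qp A m ν z + smx β z)| ≤ Real.log k / β := by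
        rw [abs_le]
        constructor <;> linarith
      have e3 : |deriv Φ (qp A m ν z + hmx z) - deriv Φ (qp A m ν z + smx β z)| ≤
          B * (Real.log k / β) := e1.trans (mul_le_mul_of_nonneg_left e2 hB0)
      have e4 := hB1 (qp A m ν z + smx β z)
      set t : ℝ := ({z : Fin k → ℝ | ∀ i, z i ≤ z c}.indicator (fun _ => (1 : ℝ)) z) with ht
      have ht01 : t = 0 ∨ t = 1 := by
        by_cases h5 : z ∈ {z : Fin k → ℝ | ∀ i, z i ≤ z c}
        · right
          rw [ht, indicator_of_mem h5]
        · left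
          rw [ht, indicator_of_notMem h5]
      have hG : (cell c).indicator g z = t * g z := by
        by_cases h5 : z ∈ {z : Fin k → ℝ | ∀ i, z i ≤ z c}
        · rw [ht, indicator_of_mem h5, one_mul]
          exact indicator_of_mem (s := cell c) h5 g
        · rw [ht, indicator_of_notMem h5, zero_mul]
          exact indicator_of_notMem (s := cell c) h5 g
      have e5 := sq_sub hw0 hw1 ht01
      have e6 : |wt β z c ^ 2 - t| ≤
          2 * ∑ a ∈ Finset.univ.erase c, Real.exp (-(β * |z c - z a|)) :=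
        e5.trans (mul_le_mul_of_nonneg_left hc (by norm_num))
      have e7 : |(wt β z c ^ 2 - t) * -deriv Φ (qp A m ν z + smx β z)| ≤
          (2 * ∑ a ∈ Finset.univ.erase c, Real.exp (-(β * |z c - z a|))) * B := by
        rw [abs_mul, abs_neg]
        exact mul_le_mul e6 e4 (abs_nonneg _) ((abs_nonneg _).trans e6)
      have e8 : |t * (deriv Φ (qp A m ν z + hmx z) - deriv Φ (qp A m ν z + smx β z))| ≤
          B * (Real.log k / β) := by
        rw [abs_mul]
        rcases ht01 with h5 | h5
        · rw [h5, abs_zero, zero_mul]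
          exact (abs_nonneg _).trans e3
        · rw [h5, abs_one, one_mul]
          exact e3
      have e9 : F z - (cell c).indicator g z =
          (wt β z c ^ 2 - t) * -deriv Φ (qp A m ν z + smx β z) +
          t * (deriv Φ (qp A m ν z + hmx z) - deriv Φ (qp A m ν z + smx β z)) := by
        rw [hG]
        simp only [F, g]
        ring
      rw [e9]
      have e10 := (abs_le.1 e7).1
      have e11 := (abs_le.1 e8).1
      simp only [b]
      linarith
    · rw [indicator_of_notMem hz, hFv z hz]
      by_cases h5 : z ∈ cell c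
      · rw [indicator_of_mem h5, hgv z hz]
        norm_num
      · rw [indicator_of_notMem h5]
        norm_num
  have hcb : Continuous b := by
    simp only [b]
    fun_prop
  have hbi : IntegrableOn b (bx k R) := hcb.continuousOn.integrableOn_compact (bx_compact k R)
  have hbi' : Integrable ((bx k R).indicator b) := hbi.integrable_indicator (bx_meas k R)
  have hint : -(∫ z in bx k R, b z) ≤ ∫ z, F z - (cell c).indicator g z := by
    rw [← integral_indicator (bx_meas k R), ← integral_neg]
    exact integral_mono hbi'.neg (hFi.sub hGi) hpt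
  rw [integral_sub hFi hGi] at hint
  -- the integral of the bound
  have hei : ∀ a : Fin k, IntegrableOn (fun z : Fin k → ℝ => Real.exp (-(β * |z c - z a|)))
      (bx k R) := fun a => by
    refine Continuous.continuousOn ?_ |>.integrableOn_compact (bx_compact k R)
    fun_prop
  have hbint : ∫ z in bx k R, b z ≤
      (2 * B * (∑ c, ∑ m, C c m) + B * Real.log k * vol) / β := by
    have h4 : ∫ z in bx k R, b z =
        2 * B * (∑ a ∈ Finset.univ.erase c,
          ∫ z in bx k R, Real.exp (-(β * |z c - z a|))) + vol * (B * (Real.log k / β)) := by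
      simp only [b]
      rw [integral_add, integral_const_mul, integral_finsetSum, setIntegral_const,
        smul_eq_mul]
      · rfl
      · exact fun a _ => hei a
      · exact (integrable_finsetSum _ fun a _ => hei a).const_mul _
      · exact integrableOn_const (bx_compact k R).measure_lt_top.ne
    rw [h4]
    have h5 : ∑ a ∈ Finset.univ.erase c, ∫ z in bx k R, Real.exp (-(β * |z c - z a|)) ≤
        (∑ c, ∑ m, C c m) / β := by
      calc ∑ a ∈ Finset.univ.erase c, ∫ z in bx k R, Real.exp (-(β * |z c - z a|))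
          ≤ ∑ a ∈ Finset.univ.erase c, C c a / β :=
            Finset.sum_le_sum fun a ha => hC c a (Finset.ne_of_mem_erase ha) β hβ0
        _ ≤ ∑ a, C c a / β := Finset.sum_le_sum_of_subset_of_nonneg (Finset.erase_subset _ _)
            fun a _ _ => div_nonneg (hC0 c a) hβ0.le
        _ = (∑ a, C c a) / β := by rw [Finset.sum_div]
        _ ≤ (∑ c, ∑ m, C c m) / β := by
            refine div_le_div_of_nonneg_right ?_ hβ0.le
            exact Finset.single_le_sum (f := fun c => ∑ m, C c m)
              (fun c _ => Finset.sum_nonneg fun m _ => hC0 c m) (Finset.mem_univ c)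
    have h6 : 2 * B * (∑ a ∈ Finset.univ.erase c,
          ∫ z in bx k R, Real.exp (-(β * |z c - z a|))) ≤ 2 * B * ((∑ c, ∑ m, C c m) / β) :=
      mul_le_mul_of_nonneg_left h5 (by positivity)
    have h7 : (2 * B * (∑ c, ∑ m, C c m) + B * Real.log k * vol) / β =
        2 * B * ((∑ c, ∑ m, C c m) / β) + vol * (B * (Real.log k / β)) := by
      field_simp
    rw [h7]
    linarith
  have hfin : ∫ z, F z = ∫ z, wt β z c ^ 2 * -deriv Φ (qp A m ν z + smx β z) := rfl
  rw [← hfin]
  linarith

end Pool.Agent.Lib.MP_0c1c75_co.Clu
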