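import Pool.Agent.Lib.MP_0c1c75_co.FewSpec

/-!
# MP_0c1c75_co, few balls: approximation by linearly independent families of equal norms
-/

open Filter Topology

namespace Pool.Agent.Lib.MP_0c1c75_co.Few.Approx

/-- the vectors `lift4 (p i) + h e_0 + t e_i` -/
noncomputable def Mx {d : ℕ} (p : Fin (d + 4) → Fin d → ℝ) (h t : ℝ) :
    Matrix (Fin (d + 4)) (Fin (d + 4)) ℝ :=
  Matrix.of fun i k => lift4 (p i) k + h * (if k = 0 then 1 else 0) + t * (if i = k then 1 else 0)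

/-- the same vectors, with norm `h` -/
noncomputable def Px {d : ℕ} (p : Fin (d + 4) → Fin d → ℝ) (h t : ℝ) :
    Matrix (Fin (d + 4)) (Fin (d + 4)) ℝ :=
  Matrix.of fun i k => (h / Real.sqrt (Mx p h t i ⬝ᵥ Mx p h t i)) * Mx p h t i k

theorem dot0 {d : ℕ} (p : Fin (d + 4) → Fin d → ℝ) (h : ℝ) (i : Fin (d + 4)) :
    Mx p h 0 i ⬝ᵥ Mx p h 0 i = h ^ 2 + ∑ k, p i k ^ 2 := by
  have e : Mx p h 0 i = Fin.cons h (Fin.cons 0 (Fin.cons 0 (Fin.cons 0 (p i)))) := by
    funext k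
    simp only [Mx, Matrix.of_apply, zero_mul, add_zero, lift4, lift2]
    refine Fin.cases ?_ (fun k => ?_) k
    · simp
    · simp only [Fin.cons_succ, Fin.succ_ne_zero, if_false, mul_zero, add_zero]
  rw [e]
  simp only [dotProduct, Fin.sum_univ_succ, Fin.cons_zero, Fin.cons_succ, mul_zero, zero_add]
  congr 1
  · ring
  · exact Finset.sum_congr rfl fun k _ => by ring

theorem lim1 (s : ℝ) (hs : 0 ≤ s) :
    Tendsto (fun h : ℝ => h * (h / Real.sqrt (h ^ 2 + s) - 1)) atTop (𝓝 0) := by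
  have h1 : Tendsto (fun h : ℝ => s * h⁻¹) atTop (𝓝 0) := by
    simpa using tendsto_inv_atTop_zero.const_mul s
  refine squeeze_zero_norm' ?_ h1
  filter_upwards [eventually_gt_atTop 0] with h hh
  obtain ⟨r, hr⟩ : ∃ r, r = Real.sqrt (h ^ 2 + s) := ⟨_, rfl⟩
  have hr2 : r ^ 2 = h ^ 2 + s := by rw [hr]; exact Real.sq_sqrt (by positivity)
  have hr0 : 0 ≤ r := by rw [hr]; exact Real.sqrt_nonneg _
  rw [← hr]
  have hrh : h ≤ r := by nlinarith
  have hrp : 0 < r := lt_of_lt_of_le hh hrh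
  rw [Real.norm_eq_abs, abs_le]
  have e : h * (h / r - 1) = -(h * (r - h) / r) := by field_simp; ring
  rw [e, ← div_eq_mul_inv]
  have h2 : h * (r - h) / r ≤ s / h := by
    rw [div_le_div_iff₀ hrp hh]
    nlinarith [mul_nonneg hs hr0]
  have h3 : 0 ≤ h * (r - h) / r := by
    apply div_nonneg (mul_nonneg hh.le (by linarith)) hr0
  constructor
  · linarith
  · have : 0 ≤ s / h := by positivity
    linarith

theorem lim2 (s : ℝ) (hs : 0 ≤ s) :
    Tendsto (fun h : ℝ => h / Real.sqrt (h ^ 2 + s) - 1) atTop (𝓝 0) := by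
  have h1 : Tendsto (fun h : ℝ => h⁻¹ * (h * (h / Real.sqrt (h ^ 2 + s) - 1))) atTop (𝓝 (0 * 0)) :=
    tendsto_inv_atTop_zero.mul (lim1 s hs)
  rw [zero_mul] at h1
  refine h1.congr' ?_
  filter_upwards [eventually_gt_atTop 0] with h hh
  rw [← mul_assoc, inv_mul_cancel₀ hh.ne', one_mul]

theorem limP {d : ℕ} (p : Fin (d + 4) → Fin d → ℝ) (i k : Fin (d + 4)) :
    Tendsto (fun h : ℝ => Px p h 0 i k - h * (if k = 0 then 1 else 0)) atTop
      (𝓝 (lift4 (p i) k)) := by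
  have hs : 0 ≤ ∑ k, p i k ^ 2 := Finset.sum_nonneg fun k _ => sq_nonneg _
  have h1 := ((lim2 _ hs).mul_const (lift4 (p i) k)).add
    ((lim1 _ hs).mul_const (if k = 0 then (1 : ℝ) else 0))
  have h2 := h1.const_add (lift4 (p i) k)
  rw [zero_mul, zero_mul, add_zero, add_zero] at h2
  refine h2.congr fun h => ?_
  have e1 : Px p h 0 i k = (h / Real.sqrt (Mx p h 0 i ⬝ᵥ Mx p h 0 i)) * Mx p h 0 i k := rfl
  have e2 : Mx p h 0 i k = lift4 (p i) k + h * (if k = 0 then 1 else 0) := by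
    simp only [Mx, Matrix.of_apply, zero_mul, add_zero]
  rw [e1, dot0, e2]
  ring

theorem contM {d : ℕ} (p : Fin (d + 4) → Fin d → ℝ) (h : ℝ) (i k : Fin (d + 4)) :
    Continuous fun t => Mx p h t i k := by
  simp only [Mx, Matrix.of_apply]
  fun_prop

theorem contD {d : ℕ} (p : Fin (d + 4) → Fin d → ℝ) (h : ℝ) (i : Fin (d + 4)) :
    Continuous fun t => Mx p h t i ⬝ᵥ Mx p h t i := by
  simp only [dotProduct]
  exact continuous_finsetSum _ fun k _ => (contM p h i k).mul (contM p h i k)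

theorem contP {d : ℕ} (p : Fin (d + 4) → Fin d → ℝ) {h : ℝ} (hh : 0 < h) (i k : Fin (d + 4)) :
    ContinuousAt (fun t => Px p h t i k) 0 := by
  simp only [Px, Matrix.of_apply]
  refine ContinuousAt.mul (ContinuousAt.div continuousAt_const
    ((contD p h i).sqrt.continuousAt) ?_) (contM p h i k).continuousAt
  rw [dot0]
  have hs : 0 ≤ ∑ k, p i k ^ 2 := Finset.sum_nonneg fun k _ => sq_nonneg _
  exact (Real.sqrt_pos.mpr (by positivity)).ne'

theorem norm_P {d : ℕ} (p : Fin (d + 4) → Fin d → ℝ) (h t : ℝ) (i : Fin (d + 4))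
    (hp : 0 < Mx p h t i ⬝ᵥ Mx p h t i) : Px p h t i ⬝ᵥ Px p h t i = h ^ 2 := by
  have e : Px p h t i = (h / Real.sqrt (Mx p h t i ⬝ᵥ Mx p h t i)) • Mx p h t i := by
    funext k
    simp [Px]
  rw [e, smul_dotProduct, dotProduct_smul, smul_eq_mul, smul_eq_mul]
  obtain ⟨r, hr⟩ : ∃ r, r = Real.sqrt (Mx p h t i ⬝ᵥ Mx p h t i) := ⟨_, rfl⟩
  have hr2 : r ^ 2 = Mx p h t i ⬝ᵥ Mx p h t i := by rw [hr]; exact Real.sq_sqrt hp.le
  have hr0 : 0 < r := by rw [hr]; exact Real.sqrt_pos.mpr hp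
  rw [← hr, ← hr2]
  field_simp

theorem det_M {d : ℕ} (p : Fin (d + 4) → Fin d → ℝ) (h : ℝ) :
    ∀ᶠ t in 𝓝[≠] (0 : ℝ), (Mx p h t).det ≠ 0 := by
  have hne : (-(Mx p h 0)).charpoly ≠ 0 := (Matrix.charpoly_monic _).ne_zero
  have hfin := Polynomial.finite_setOfPred_isRoot hne
  have hfin2 : ({t | (-(Mx p h 0)).charpoly.IsRoot t} \ {0}).Finite := hfin.subset Set.sdiff_subset
  have hmem : ({t | (-(Mx p h 0)).charpoly.IsRoot t} \ {0})ᶜ ∈ 𝓝 (0 : ℝ) :=
    hfin2.isClosed.isOpen_compl.mem_nhds (by simp)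
  filter_upwards [nhdsWithin_le_nhds hmem, self_mem_nhdsWithin] with t ht ht0
  intro hdet
  apply ht
  refine ⟨?_, ht0⟩
  show (-(Mx p h 0)).charpoly.eval t = 0
  rw [Matrix.eval_charpoly]
  refine Eq.trans ?_ hdet
  congr 1
  ext i k
  simp only [Matrix.sub_apply, Matrix.neg_apply, Mx, Matrix.of_apply, Matrix.scalar_apply,
    Matrix.diagonal_apply]
  split_ifs <;> ring

theorem det_P {d : ℕ} (p : Fin (d + 4) → Fin d → ℝ) {h : ℝ} (hh : 0 < h) (t : ℝ)
    (hp : ∀ i, 0 < Mx p h t i ⬝ᵥ Mx p h t i) (hdet : (Mx p h t).det ≠ 0) :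
    (Px p h t).det ≠ 0 := by
  have e : (Px p h t).det = (∏ i, (h / Real.sqrt (Mx p h t i ⬝ᵥ Mx p h t i))) * (Mx p h t).det :=
    Matrix.det_mul_column _ _
  rw [e]
  refine mul_ne_zero (Finset.prod_ne_zero_iff.mpr fun i _ => ?_) hdet
  exact (div_pos hh (Real.sqrt_pos.mpr (hp i))).ne'

theorem lift_dist {d : ℕ} (x y : Fin d → ℝ) :
    ∑ k, (lift4 x k - lift4 y k) ^ 2 = ∑ k, (x k - y k) ^ 2 := by
  simp [lift4, lift2, Fin.sum_univ_succ]

theorem dot_eq {N : ℕ} (x y : Fin N → ℝ) :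
    x ⬝ᵥ y = (x ⬝ᵥ x + y ⬝ᵥ y - ∑ k, (x k - y k) ^ 2) / 2 := by
  simp only [dotProduct]
  rw [← Finset.sum_add_distrib, ← Finset.sum_sub_distrib, Finset.sum_div]
  exact Finset.sum_congr rfl fun k _ => by ring

theorem limDist {d : ℕ} (p : Fin (d + 4) → Fin d → ℝ) (i j : Fin (d + 4)) :
    Tendsto (fun h : ℝ => ∑ k, (Px p h 0 i k - Px p h 0 j k) ^ 2) atTop
      (𝓝 (∑ k, (p i k - p j k) ^ 2)) := by
  rw [← lift_dist]
  refine tendsto_finsetSum _ fun k _ => ?_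
  refine (((limP p i k).sub (limP p j k)).pow 2).congr fun h => ?_
  ring

theorem contDist {d : ℕ} (p : Fin (d + 4) → Fin d → ℝ) {h : ℝ} (hh : 0 < h) (i j : Fin (d + 4)) :
    ContinuousAt (fun t => ∑ k, (Px p h t i k - Px p h t j k) ^ 2) 0 :=
  tendsto_finsetSum _ fun k _ => ((contP p hh i k).sub (contP p hh j k)).pow 2

theorem ev1 {d : ℕ} (p : Fin (d + 4) → Fin d → ℝ) {ε : ℝ} (hε : 0 < ε) :
    ∀ᶠ h : ℝ in atTop, ∀ i k,
      |Px p h 0 i k - h * (if k = 0 then 1 else 0) - lift4 (p i) k| < ε := by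
  rw [eventually_all]
  intro i
  rw [eventually_all]
  intro k
  have := (Metric.tendsto_nhds.mp (limP p i k)) ε hε
  simpa only [Real.dist_eq] using this

theorem ev2 {d : ℕ} (p : Fin (d + 4) → Fin d → ℝ) {ε h : ℝ} (hh : 0 < h)
    (H : ∀ i k, |Px p h 0 i k - h * (if k = 0 then 1 else 0) - lift4 (p i) k| < ε) :
    ∀ᶠ t in 𝓝 (0 : ℝ), ∀ i k,
      |Px p h t i k - h * (if k = 0 then 1 else 0) - lift4 (p i) k| < ε := by
  rw [eventually_all]
  intro i
  rw [eventually_all]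
  intro k
  have h1 : ContinuousAt (fun t => |Px p h t i k - h * (if k = 0 then 1 else 0) -
      lift4 (p i) k|) 0 :=
    (((contP p hh i k).sub continuousAt_const).sub continuousAt_const).abs
  exact h1.eventually_lt_const (H i k)

theorem ev3 {d : ℕ} (p : Fin (d + 4) → Fin d → ℝ) {h : ℝ} (hh : 0 < h) :
    ∀ᶠ t in 𝓝 (0 : ℝ), ∀ i, 0 < Mx p h t i ⬝ᵥ Mx p h t i := by
  rw [eventually_all]
  intro i
  refine (contD p h i).continuousAt.eventually_const_lt ?_
  have e := dot0 p h i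
  change 0 < Mx p h 0 i ⬝ᵥ Mx p h 0 i
  rw [e]
  have hs : 0 ≤ ∑ k, p i k ^ 2 := Finset.sum_nonneg fun k _ => sq_nonneg _
  positivity

end Pool.Agent.Lib.MP_0c1c75_co.Few.Approx

namespace Pool.Agent.Lib.MP_0c1c75_co.Few

open Approx in
/-- Approximation by linearly independent families of equal norms. -/
theorem approxStmt : ApproxStmt := by
  intro d p q hpq ε hε
  have E2 : ∀ᶠ h : ℝ in atTop, ∀ i j, i ≠ j →
      ∑ k, (Px q h 0 i k - Px q h 0 j k) ^ 2 < ∑ k, (Px p h 0 i k - Px p h 0 j k) ^ 2 := by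
    rw [eventually_all]
    intro i
    rw [eventually_all]
    intro j
    by_cases hij : i = j
    · exact Eventually.of_forall fun h hne => absurd hij hne
    · have := (limDist q i j).eventually_lt (limDist p i j) (hpq i j hij)
      filter_upwards [this] with h hh _
      exact hh
  obtain ⟨h, h1, h2, h3, hh⟩ := ((ev1 p hε).and ((ev1 q hε).and
    (E2.and (eventually_gt_atTop 0)))).exists
  have E3 : ∀ᶠ t in 𝓝 (0 : ℝ), ∀ i j, i ≠ j →
      ∑ k, (Px q h t i k - Px q h t j k) ^ 2 < ∑ k, (Px p h t i k - Px p h t j k) ^ 2 := by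
    rw [eventually_all]
    intro i
    rw [eventually_all]
    intro j
    by_cases hij : i = j
    · exact Eventually.of_forall fun h hne => absurd hij hne
    · have := (contDist q hh i j).tendsto.eventually_lt (contDist p hh i j).tendsto (h3 i j hij)
      filter_upwards [this] with t ht _
      exact ht
  have E4 : ∀ᶠ t in 𝓝[≠] (0 : ℝ), _ := nhdsWithin_le_nhds
    ((ev2 p hh h1).and ((ev2 q hh h2).and ((ev3 p hh).and ((ev3 q hh).and E3))))
  obtain ⟨t, ⟨g1, g2, g3, g4, g5⟩, g6, g7⟩ := (E4.and ((det_M p h).and (det_M q h))).exists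
  refine ⟨Px p h t, Px q h t, fun k => h * (if k = 0 then 1 else 0), det_P p hh t g3 g6,
    det_P q hh t g4 g7, fun i => ?_, fun i j => ?_, g1, g2⟩
  · rw [norm_P p h t i (g3 i), norm_P q h t i (g4 i)]
  · rw [dot_eq (Px p h t i) (Px p h t j), dot_eq (Px q h t i) (Px q h t j),
      norm_P p h t i (g3 i), norm_P q h t i (g4 i), norm_P p h t j (g3 j), norm_P q h t j (g4 j)]
    by_cases hij : i = j
    · subst hij
      simp
    · have := g5 i j hij
      linarith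

end Pool.Agent.Lib.MP_0c1c75_co.Few
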