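import Pool.Agent.Lib.MP_0c1c75_co.FewSpec

/-!
MP_0c1c75_co, few balls, module ConeInt: integration over the orthant in the coordinates
`u = s (1, v)`.
-/

open MeasureTheory Set
open scoped Pointwise

namespace Pool.Agent.Lib.MP_0c1c75_co.Few.ConeInt

/-- the positive orthant -/
def Orth (k : ℕ) : Set (Fin k → ℝ) := {u | ∀ i, 0 < u i}

lemma measurableSet_orth (k : ℕ) : MeasurableSet (Orth k) := by
  have h : Orth k = ⋂ i, {u : Fin k → ℝ | 0 < u i} := by
    ext u; simp [Orth]
  rw [h]
  exact MeasurableSet.iInter fun i => measurableSet_lt measurable_const (measurable_pi_apply i)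

lemma smul_orth {k : ℕ} {s : ℝ} (hs : 0 < s) : s • Orth k = Orth k := by
  ext u
  rw [Set.mem_smul_set_iff_inv_smul_mem₀ hs.ne']
  constructor
  · intro h i
    have h1 : 0 < s⁻¹ * u i := h i
    have h2 := mul_pos hs h1
    rwa [mul_inv_cancel_left₀ hs.ne'] at h2
  · intro h i
    exact mul_pos (inv_pos.2 hs) (h i)

/-- the splitting of the first coordinate -/
noncomputable def spl (k : ℕ) : (Fin (k + 1) → ℝ) ≃ᵐ ℝ × (Fin k → ℝ) :=
  MeasurableEquiv.piFinSuccAbove (fun _ : Fin (k + 1) => ℝ) 0

lemma spl_mp (k : ℕ) : MeasurePreserving (spl k) volume volume :=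
  volume_preserving_piFinSuccAbove (fun _ : Fin (k + 1) => ℝ) 0

lemma spl_symm (k : ℕ) (p : ℝ × (Fin k → ℝ)) :
    (spl k).symm p = (Fin.cons p.1 p.2 : Fin (k + 1) → ℝ) := by
  have h : (spl k).symm p = Fin.insertNth (α := fun _ : Fin (k + 1) => ℝ) 0 p.1 p.2 := rfl
  rw [h, Fin.insertNth_zero']

lemma integrable_split {k : ℕ} {G : (Fin (k + 1) → ℝ) → ℝ} (hG : Integrable G) :
    Integrable (fun p : ℝ × (Fin k → ℝ) => G (Fin.cons p.1 p.2)) (volume.prod volume) := by
  have h := (((spl_mp k).symm (spl k)).integrable_comp_emb (spl k).symm.measurableEmbedding).2 hG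
  have h2 : (G ∘ (spl k).symm) = fun p : ℝ × (Fin k → ℝ) => G (Fin.cons p.1 p.2) := by
    funext p
    rw [Function.comp_apply, spl_symm]
  rw [h2] at h
  exact h

lemma split_integral {k : ℕ} {G : (Fin (k + 1) → ℝ) → ℝ} (hG : Integrable G) :
    ∫ u in Orth (k + 1), G u = ∫ s in Ioi (0 : ℝ), ∫ w in Orth k, G (Fin.cons s w) := by
  have h := ((spl_mp k).symm (spl k)).setIntegral_preimage_emb
    (spl k).symm.measurableEmbedding G (Orth (k + 1))
  have hpre : (spl k).symm ⁻¹' (Orth (k + 1)) = Ioi (0 : ℝ) ×ˢ Orth k := by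
    ext p
    simp only [Set.mem_preimage, Set.mem_prod, Set.mem_Ioi]
    rw [spl_symm]
    constructor
    · intro hp
      exact ⟨by simpa using hp 0, fun i => by simpa using hp i.succ⟩
    · rintro ⟨h0, h1⟩ i
      refine Fin.cases ?_ ?_ i
      · simpa using h0
      · intro j; simpa using h1 j
  rw [← h, hpre]
  have h2 : ∀ p : ℝ × (Fin k → ℝ), G ((spl k).symm p) = G (Fin.cons p.1 p.2) := by
    intro p; rw [spl_symm]
  simp only [h2]
  exact setIntegral_prod (fun p : ℝ × (Fin k → ℝ) => G (Fin.cons p.1 p.2))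
    (integrable_split hG).integrableOn

lemma cont_cons {k : ℕ} : Continuous (fun p : ℝ × (Fin k → ℝ) =>
    (Fin.cons p.1 p.2 : Fin (k + 1) → ℝ)) := by
  refine continuous_pi (fun i => ?_)
  refine Fin.cases ?_ ?_ i
  · simpa using continuous_fst
  · intro j
    have h : Continuous (fun p : ℝ × (Fin k → ℝ) => p.2 j) :=
      (continuous_apply j).comp continuous_snd
    simpa using h

/-- for fixed `s` the slice is integrable -/
lemma slice_integrable {k : ℕ} {G : (Fin (k + 1) → ℝ) → ℝ} (hc : Continuous G)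
    (hs : HasCompactSupport G) (s : ℝ) :
    Integrable (fun w : Fin k → ℝ => G (Fin.cons s w)) := by
  have hcs : Continuous (fun w : Fin k → ℝ => G (Fin.cons s w)) :=
    hc.comp (cont_cons.comp (by fun_prop : Continuous fun w : Fin k → ℝ => (s, w)))
  refine hcs.integrable_of_hasCompactSupport ?_
  refine HasCompactSupport.intro (K := (fun u : Fin (k + 1) → ℝ => Fin.tail u) '' tsupport G) ?_ ?_
  · refine IsCompact.image hs ?_
    exact continuous_pi (fun i => continuous_apply _)
  · intro w hw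
    by_contra hne
    apply hw
    refine ⟨Fin.cons s w, subset_tsupport G hne, ?_⟩
    simp

lemma slice_scale {k : ℕ} (G : (Fin (k + 1) → ℝ) → ℝ) {s : ℝ} (hs : 0 < s) :
    ∫ v in Orth k, G (s • (Fin.cons 1 v : Fin (k + 1) → ℝ)) * s ^ k =
      ∫ w in Orth k, G (Fin.cons s w) := by
  have h1 : ∀ v : Fin k → ℝ, s • (Fin.cons 1 v : Fin (k + 1) → ℝ) = Fin.cons s (s • v) := by
    intro v
    funext i
    refine Fin.cases ?_ ?_ i
    · simp
    · intro j; simp
  have h2 := Measure.setIntegral_comp_smul_of_pos (volume : Measure (Fin k → ℝ))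
    (fun w : Fin k → ℝ => G (Fin.cons s w)) (Orth k) hs
  rw [smul_orth hs] at h2
  simp only [h1]
  rw [integral_mul_const, h2]
  have h3 : Module.finrank ℝ (Fin k → ℝ) = k := by simp
  rw [h3, smul_eq_mul]
  have h4 : s ^ k ≠ 0 := pow_ne_zero _ hs.ne'
  field_simp

/-- the main formula for a function on the orthant -/
lemma main {k : ℕ} {G : (Fin (k + 1) → ℝ) → ℝ} (hc : Continuous G) (hs : HasCompactSupport G) :
    ∫ u in Orth (k + 1), G u =
      ∫ v in Orth k, ∫ s in Ioi (0 : ℝ), G (s • (Fin.cons 1 v : Fin (k + 1) → ℝ)) * s ^ k := by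
  have hG : Integrable G := hc.integrable_of_hasCompactSupport hs
  rw [split_integral hG]
  have h1 : ∫ s in Ioi (0 : ℝ), ∫ w in Orth k, G (Fin.cons s w) =
      ∫ s in Ioi (0 : ℝ), ∫ v in Orth k, G (s • (Fin.cons 1 v : Fin (k + 1) → ℝ)) * s ^ k := by
    refine setIntegral_congr_fun measurableSet_Ioi (fun s hs' => ?_)
    exact (slice_scale G hs').symm
  rw [h1]
  have hcont : Continuous (fun p : ℝ × (Fin k → ℝ) =>
      G (p.1 • (Fin.cons 1 p.2 : Fin (k + 1) → ℝ)) * p.1 ^ k) := by
    refine (hc.comp ?_).mul (continuous_fst.pow k)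
    refine continuous_fst.smul ?_
    exact cont_cons.comp (by fun_prop : Continuous fun p : ℝ × (Fin k → ℝ) => ((1 : ℝ), p.2))
  apply integral_integral_swap
  change Integrable (fun p : ℝ × (Fin k → ℝ) =>
      G (p.1 • (Fin.cons 1 p.2 : Fin (k + 1) → ℝ)) * p.1 ^ k) _
  rw [integrable_prod_iff hcont.aestronglyMeasurable]
  constructor
  · filter_upwards [ae_restrict_mem measurableSet_Ioi] with s hs'
    have hs0 : (0 : ℝ) < s := hs'
    have h2 : ∀ v : Fin k → ℝ, s • (Fin.cons 1 v : Fin (k + 1) → ℝ) = Fin.cons s (s • v) := by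
      intro v
      funext i
      refine Fin.cases ?_ ?_ i
      · simp
      · intro j; simp
    have h3 : Integrable (fun v : Fin k → ℝ => G (Fin.cons s (s • v))) :=
      (integrable_comp_smul_iff volume (fun w : Fin k → ℝ => G (Fin.cons s w))
        hs0.ne').2 (slice_integrable hc hs s)
    have h4 : Integrable (fun v : Fin k → ℝ =>
        G (s • (Fin.cons 1 v : Fin (k + 1) → ℝ)) * s ^ k) := by
      simp only [h2]
      exact h3.mul_const _
    exact h4.integrableOn
  · have h5 := (integrable_split hG.norm).integrableOn (s := Ioi (0 : ℝ) ×ˢ Orth k)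
    rw [IntegrableOn, ← Measure.prod_restrict] at h5
    have h6 := h5.integral_prod_left
    refine h6.congr ?_
    filter_upwards [ae_restrict_mem measurableSet_Ioi] with s hs'
    have hs0 : (0 : ℝ) < s := hs'
    have h7 := slice_scale (k := k) (fun u => ‖G u‖) hs0
    rw [← h7]
    refine integral_congr_ae (Filter.Eventually.of_forall (fun v => ?_))
    simp only
    rw [norm_mul, norm_pow, Real.norm_of_nonneg hs0.le]

end Pool.Agent.Lib.MP_0c1c75_co.Few.ConeInt

namespace Pool.Agent.Lib.MP_0c1c75_co.Few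

open ConeInt in
theorem coneIntStmt : ConeIntStmt := by
  intro k F hF hFc
  -- the inner integral
  set K : Set ℝ := Prod.fst '' tsupport F with hK
  have hKc : IsCompact K := IsCompact.image hFc continuous_fst
  have hout : ∀ z u, z ∉ K → F (z, u) = 0 := by
    intro z u hz
    by_contra hne
    exact hz ⟨(z, u), subset_tsupport F hne, rfl⟩
  have hG1 : (fun u : Fin (k + 1) → ℝ => ∫ z, F (z, u)) = fun u => ∫ z in K, F (z, u) := by
    funext u
    symm
    apply setIntegral_eq_integral_of_forall_compl_eq_zero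
    intro z hz
    exact hout z u hz
  have hcont : Continuous (fun u : Fin (k + 1) → ℝ => ∫ z, F (z, u)) := by
    rw [hG1]
    refine continuous_parametric_integral_of_continuous (f := fun u z => F (z, u)) ?_ hKc
    exact hF.comp continuous_swap
  have hsupp : HasCompactSupport (fun u : Fin (k + 1) → ℝ => ∫ z, F (z, u)) := by
    refine HasCompactSupport.intro (K := Prod.snd '' tsupport F)
      (IsCompact.image hFc continuous_snd) ?_
    intro u hu
    have h1 : ∀ z, F (z, u) = 0 := by
      intro z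
      by_contra hne
      exact hu ⟨(z, u), subset_tsupport F hne, rfl⟩
    simp [h1]
  have hswap : ∫ z : ℝ, ∫ u in Orth (k + 1), F (z, u) = ∫ u in Orth (k + 1), ∫ z : ℝ, F (z, u) := by
    refine integral_integral_swap_of_hasCompactSupport (f := fun z u => F (z, u)) ?_ ?_
    · exact hF
    · exact hFc
  have hfin := main hcont hsupp
  change ∫ z : ℝ, ∫ u in Orth (k + 1), F (z, u) = ∫ v in Orth k, ∫ s in Ioi (0 : ℝ), ∫ z : ℝ,
        F (z, s • (Fin.cons 1 v : Fin (k + 1) → ℝ)) * s ^ k
  rw [hswap, hfin]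
  simp only [integral_mul_const]

end Pool.Agent.Lib.MP_0c1c75_co.Few
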