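import Pool.Agent.Lib.MP_0c1c75_co.FewSpec

open MeasureTheory Set
open scoped ContDiff

namespace Pool.Agent.Lib.MP_0c1c75_co.Few.Cont

theorem gm_cont {X : Type} [TopologicalSpace X] {N n : ℕ} (hN : 0 < N) (a : Fin N → ℝ)
    (p : X → Fin N → Fin n → ℝ) (q : X → Fin n → ℝ) (hp : Continuous p) (hq : Continuous q) :
    Continuous (fun z : X => gm (p z) a (q z)) := by
  have : Nonempty (Fin N) := ⟨⟨0, hN⟩⟩
  have h : (fun z : X => gm (p z) a (q z)) =
      fun z => Finset.univ.sup' Finset.univ_nonempty
        (fun i => ∑ k, (q z k - p z i k) ^ 2 - a i) := by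
    funext z
    rw [Finset.sup'_univ_eq_ciSup]
    rfl
  rw [h]
  apply Continuous.finset_sup'_apply
  intro i _
  refine Continuous.sub (continuous_finsetSum _ fun k _ => ?_) continuous_const
  refine Continuous.pow (Continuous.sub ?_ ?_) 2
  · exact (continuous_apply k).comp hq
  · exact (continuous_apply k).comp ((continuous_apply i).comp hp)

theorem gm_ge {N n : ℕ} (a : Fin N → ℝ) (P : Fin N → Fin n → ℝ) (x : Fin n → ℝ) (i : Fin N) :
    ∑ k, (x k - P i k) ^ 2 - a i ≤ gm P a x :=
  le_ciSup (f := fun i => ∑ k, (x k - P i k) ^ 2 - a i) (Set.finite_range _).bddAbove i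

theorem gm_far {N n : ℕ} (a : Fin N → ℝ) (i : Fin N) (B R : ℝ) (hR : 0 ≤ R)
    (P : Fin N → Fin n → ℝ) (hP : ‖P‖ ≤ B)
    (x : Fin n → ℝ) (hx : B + R + |a i| + 1 < ‖x‖) : R < gm P a x := by
  have hB : 0 ≤ B := (norm_nonneg _).trans hP
  have h0 : 0 ≤ B + R + |a i| + 1 := by positivity
  have h1 : ∃ k, B + R + |a i| + 1 < ‖x k‖ := by
    by_contra hcon
    push Not at hcon
    exact absurd ((pi_norm_le_iff_of_nonneg h0).mpr hcon) (not_le.mpr hx)
  obtain ⟨k, hk⟩ := h1
  have h2 : ‖P i k‖ ≤ B := (norm_le_pi_norm (P i) k).trans ((norm_le_pi_norm P i).trans hP)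
  have h3 : R + |a i| + 1 < |x k - P i k| := by
    have := norm_sub_norm_le (x k) (P i k)
    rw [Real.norm_eq_abs (x k - P i k)] at this
    linarith
  have h4 : R + |a i| + 1 < (x k - P i k) ^ 2 := by
    rw [← sq_abs]
    have h5 : 1 ≤ R + |a i| + 1 := by
      have := abs_nonneg (a i)
      linarith
    nlinarith
  have h5 : (x k - P i k) ^ 2 ≤ ∑ k, (x k - P i k) ^ 2 :=
    Finset.single_le_sum (f := fun k => (x k - P i k) ^ 2) (fun _ _ => sq_nonneg _)
      (Finset.mem_univ k)
  have h6 := gm_ge a P x i
  have h7 := le_abs_self (a i)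
  linarith

end Pool.Agent.Lib.MP_0c1c75_co.Few.Cont

namespace Pool.Agent.Lib.MP_0c1c75_co.Few

open Cont

theorem contStmt : ContStmt := by
  intro N n hN a f hf hfc
  refine ⟨?_, ?_⟩
  · rw [continuous_iff_continuousAt]
    intro P₀
    obtain ⟨C, hC⟩ := hf.bounded_above_of_compact_support hfc
    obtain ⟨R, hR⟩ := hfc.isCompact.isBounded.subset_closedBall (0 : ℝ)
    have hR' : ∀ s, max R 0 < s → f s = 0 := by
      intro s hs
      by_contra hne
      have h1 : s ∈ tsupport f := subset_tsupport _ hne
      have h2 := hR h1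
      rw [Metric.mem_closedBall, dist_zero_right, Real.norm_eq_abs] at h2
      have h3 : R < s := lt_of_le_of_lt (le_max_left _ _) hs
      have h4 := le_abs_self s
      linarith
    set T : ℝ := (‖P₀‖ + 1) + max R 0 + |a ⟨0, hN⟩| + 1 with hT
    apply continuousAt_of_dominated
      (bound := (Metric.closedBall (0 : Fin n → ℝ) T).indicator (fun _ => C))
    · refine Filter.Eventually.of_forall fun P => ?_
      have h1 : Continuous fun x => gm P a x :=
        gm_cont hN a (fun _ => P) (fun x => x) continuous_const continuous_id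
      have : Continuous fun x => f (gm P a x) := hf.comp h1
      exact this.aestronglyMeasurable
    · filter_upwards [Metric.closedBall_mem_nhds P₀ one_pos] with P hP
      refine Filter.Eventually.of_forall fun x => ?_
      by_cases hx : x ∈ Metric.closedBall (0 : Fin n → ℝ) T
      · rw [indicator_of_mem hx]
        exact hC _
      · rw [indicator_of_notMem hx]
        rw [Metric.mem_closedBall, dist_zero_right, not_le] at hx
        have hPn : ‖P‖ ≤ ‖P₀‖ + 1 := by
          rw [Metric.mem_closedBall, dist_eq_norm] at hP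
          have := norm_le_norm_add_norm_sub' P P₀
          linarith
        rw [hR' _ (gm_far a ⟨0, hN⟩ (‖P₀‖ + 1) (max R 0) (le_max_right _ _) P hPn x hx)]
        simp
    · rw [integrable_indicator_iff Metric.isClosed_closedBall.measurableSet]
      exact integrableOn_const (isCompact_closedBall _ _).measure_lt_top.ne
    · refine Filter.Eventually.of_forall fun x => ?_
      have h1 : Continuous fun P : Fin N → Fin n → ℝ => gm P a x :=
        gm_cont hN a (fun P => P) (fun _ => x) continuous_id continuous_const
      have : Continuous fun P : Fin N → Fin n → ℝ => f (gm P a x) := hf.comp h1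
      exact this.continuousAt
  · intro P c
    have h : ∀ x, gm (fun i => P i - c) a x = gm P a (x + c) := by
      intro x
      unfold gm
      congr 1
      funext i
      congr 1
      refine Finset.sum_congr rfl fun k _ => ?_
      simp only [Pi.sub_apply, Pi.add_apply]
      ring
    simp only [h]
    exact integral_add_right_eq_self (fun x => f (gm P a x)) c

end Pool.Agent.Lib.MP_0c1c75_co.Few
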