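import Pool.Agent.Lib.MP_0c1c75_co.FewSpec

/-!
MP_0c1c75_co, few balls: from strict contractions to all contractions.
-/

open MeasureTheory Set
open scoped ContDiff

namespace Pool.Agent.Lib.MP_0c1c75_co.Few

namespace Final

/-- profiles with small support -/
lemma exists_prof {ε : ℝ} (hε : 0 < ε) :
    ∃ Φ : ℝ → ℝ, Prof Φ ∧ (∫ s, Φ s) = 1 ∧ ∀ s, s ∉ Ioo 0 ε → Φ s = 0 := by
  let f : ContDiffBump (ε / 2) := ⟨ε / 8, ε / 4, by linarith, by linarith⟩
  refine ⟨f.normed volume, ⟨f.contDiff_normed, f.hasCompactSupport_normed, fun s =>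
    f.nonneg_normed s⟩, f.integral_normed, fun s hs => ?_⟩
  by_contra hne
  apply hs
  have h1 : s ∈ Function.support (f.normed volume) := hne
  rw [f.support_normed_eq, Metric.mem_ball, Real.dist_eq] at h1
  have h2 : f.rOut = ε / 4 := rfl
  rw [h2, abs_lt] at h1
  constructor <;> linarith [h1.1, h1.2]

/-- the sets -/
def KS {N n : ℕ} (P : Fin N → Fin n → ℝ) (a : Fin N → ℝ) : Set (Fin n → ℝ) :=
  {x | ∀ i, ∑ k, (x k - P i k) ^ 2 ≤ a i}

lemma gm_le_iff {N n : ℕ} (hN : 0 < N) (P : Fin N → Fin n → ℝ) (a : Fin N → ℝ) (x : Fin n → ℝ)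
    (t : ℝ) : gm P a x ≤ t ↔ x ∈ KS P (fun i => a i + t) := by
  haveI : Nonempty (Fin N) := ⟨⟨0, hN⟩⟩
  unfold gm KS
  rw [ciSup_le_iff (Set.finite_range _).bddAbove]
  simp only [mem_setOf_eq]
  constructor
  · intro h i
    have := h i
    linarith
  · intro h i
    have := h i
    linarith

lemma isClosed_KS {N n : ℕ} (P : Fin N → Fin n → ℝ) (a : Fin N → ℝ) : IsClosed (KS P a) := by
  have : KS P a = ⋂ i, {x : Fin n → ℝ | ∑ k, (x k - P i k) ^ 2 ≤ a i} := by
    ext x
    simp [KS]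
  rw [this]
  refine isClosed_iInter fun i => isClosed_le ?_ continuous_const
  fun_prop

lemma measure_KS_lt_top {N n : ℕ} (hN : 0 < N) (P : Fin N → Fin n → ℝ) (a : Fin N → ℝ) :
    volume (KS P a) < ⊤ := by
  refine lt_of_le_of_lt (measure_mono (t := Metric.closedBall (P ⟨0, hN⟩) (Real.sqrt (a ⟨0, hN⟩)))
    ?_) measure_closedBall_lt_top
  intro x hx
  have h1 := hx ⟨0, hN⟩
  rw [Metric.mem_closedBall, dist_pi_le_iff (Real.sqrt_nonneg _)]
  intro k
  rw [Real.dist_eq]
  apply Real.abs_le_sqrt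
  exact (Finset.single_le_sum (f := fun k => (x k - P ⟨0, hN⟩ k) ^ 2)
    (fun k _ => sq_nonneg _) (Finset.mem_univ k)).trans h1

lemma measurable_gm {N n : ℕ} (hN : 0 < N) (P : Fin N → Fin n → ℝ) (a : Fin N → ℝ) :
    Measurable (gm P a) := by
  refine measurable_of_Iic fun t => ?_
  have : gm P a ⁻¹' Iic t = KS P (fun i => a i + t) := by
    ext x
    rw [mem_preimage, mem_Iic, gm_le_iff hN]
  rw [this]
  exact (isClosed_KS _ _).measurableSet

/-- strict contractions -/
lemma strict (h : StrictStmt) {d : ℕ} (hd : 1 ≤ d) (p q : Fin (d + 4) → Fin d → ℝ)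
    (hpq : ∀ i j, i ≠ j → ∑ k, (q i k - q j k) ^ 2 < ∑ k, (p i k - p j k) ^ 2)
    (a : Fin (d + 4) → ℝ) {ε : ℝ} (hε : 0 < ε) :
    volume (KS p a) ≤ volume (KS q (fun i => a i + ε)) := by
  obtain ⟨Φ, hΦ, hint, hsupp⟩ := exists_prof hε
  have hN : 0 < d + 4 := by omega
  have hΦi : Integrable Φ volume := hΦ.smooth.continuous.integrable_of_hasCompactSupport hΦ.supp
  set ψ : ℝ → ℝ := fun t => ∫ s in Ioi t, Φ s with hψ
  have hψ0 : ∀ t, 0 ≤ ψ t := fun t => integral_nonneg fun s => hΦ.nonneg s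
  have hψ1 : ∀ t, ψ t ≤ 1 := fun t => by
    rw [← hint]
    exact setIntegral_le_integral hΦi (Filter.Eventually.of_forall hΦ.nonneg)
  have hψa : Antitone ψ := fun s t hst =>
    setIntegral_mono_set hΦi.integrableOn (Filter.Eventually.of_forall hΦ.nonneg)
      (Ioi_subset_Ioi hst).eventuallyLE
  have hψl : ∀ t, t ≤ 0 → ψ t = 1 := fun t ht => by
    rw [← hint]
    refine setIntegral_eq_integral_of_forall_compl_eq_zero fun s hs => hsupp s fun hs' => hs ?_
    exact lt_of_le_of_lt ht hs'.1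
  have hψr : ∀ t, ε ≤ t → ψ t = 0 := fun t ht => by
    refine setIntegral_eq_zero_of_forall_eq_zero fun s hs => hsupp s fun hs' => ?_
    have := hs'.2
    have h2 : t < s := hs
    linarith
  have hmeas : ∀ P : Fin (d + 4) → Fin d → ℝ, Measurable fun x => ψ (gm P a x) := fun P =>
    hψa.measurable.comp (measurable_gm hN P a)
  have hle : ∀ (P : Fin (d + 4) → Fin d → ℝ) x,
      ψ (gm P a x) ≤ (KS P (fun i => a i + ε)).indicator (fun _ => (1 : ℝ)) x := by
    intro P x
    by_cases hx : x ∈ KS P (fun i => a i + ε)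
    · rw [indicator_of_mem hx]; exact hψ1 _
    · rw [indicator_of_notMem hx, hψr]
      rw [← gm_le_iff hN] at hx
      exact (not_le.mp hx).le
  have hge : ∀ (P : Fin (d + 4) → Fin d → ℝ) x,
      (KS P a).indicator (fun _ => (1 : ℝ)) x ≤ ψ (gm P a x) := by
    intro P x
    by_cases hx : x ∈ KS P a
    · rw [indicator_of_mem hx, hψl]
      rw [gm_le_iff hN]
      simpa using hx
    · rw [indicator_of_notMem hx]; exact hψ0 _
  have hii : ∀ (P : Fin (d + 4) → Fin d → ℝ) (b : Fin (d + 4) → ℝ),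
      Integrable ((KS P b).indicator (fun _ => (1 : ℝ))) volume := fun P b =>
    (integrable_indicator_iff (isClosed_KS P b).measurableSet).mpr
      (integrableOn_const (measure_KS_lt_top hN P b).ne)
  have hψi : ∀ P : Fin (d + 4) → Fin d → ℝ, Integrable (fun x => ψ (gm P a x)) volume := fun P =>
    (hii P (fun i => a i + ε)).mono' (hmeas P).aestronglyMeasurable
      (Filter.Eventually.of_forall fun x => by
        rw [Real.norm_eq_abs, abs_of_nonneg (hψ0 _)]
        exact hle P x)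
  have hmain := h d hd p q hpq a Φ hΦ
  have h1 : volume.real (KS p a) ≤ ∫ x, ψ (gm p a x) := by
    have h2 := integral_mono (hii p a) (hψi p) (hge p)
    rw [integral_indicator_const _ (isClosed_KS p a).measurableSet] at h2
    simpa using h2
  have h2 : ∫ x, ψ (gm q a x) ≤ volume.real (KS q (fun i => a i + ε)) := by
    have h3 := integral_mono (hψi q) (hii q (fun i => a i + ε)) (hle q)
    rw [integral_indicator_const _ (isClosed_KS q _).measurableSet] at h3
    simpa using h3
  have h3 : volume.real (KS p a) ≤ volume.real (KS q (fun i => a i + ε)) :=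
    h1.trans (hmain.trans h2)
  exact (ENNReal.toReal_le_toReal (measure_KS_lt_top hN _ _).ne (measure_KS_lt_top hN _ _).ne).mp h3

lemma dist_eq' {d : ℕ} (x y : Fin d → ℝ) :
    dist (WithLp.toLp 2 x : EuclideanSpace ℝ (Fin d)) (WithLp.toLp 2 y) =
      Real.sqrt (∑ k, (x k - y k) ^ 2) := by
  rw [EuclideanSpace.dist_eq]
  congr 1
  refine Finset.sum_congr rfl fun k _ => ?_
  rw [Real.dist_eq, sq_abs]

lemma triangle {d : ℕ} {x p p' : Fin d → ℝ} {r τ : ℝ} (hr : 0 ≤ r) (hτ : 0 ≤ τ)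
    (h1 : ∑ k, (x k - p k) ^ 2 ≤ r ^ 2) (h2 : ∑ k, (p' k - p k) ^ 2 ≤ τ ^ 2) :
    ∑ k, (x k - p' k) ^ 2 ≤ (r + τ) ^ 2 := by
  have h3 : dist (WithLp.toLp 2 x : EuclideanSpace ℝ (Fin d)) (WithLp.toLp 2 p) ≤ r := by
    rw [dist_eq']
    exact (Real.sqrt_le_left hr).mpr h1
  have h4 : dist (WithLp.toLp 2 p : EuclideanSpace ℝ (Fin d)) (WithLp.toLp 2 p') ≤ τ := by
    rw [dist_comm, dist_eq']
    exact (Real.sqrt_le_left hτ).mpr h2
  have h5 : dist (WithLp.toLp 2 x : EuclideanSpace ℝ (Fin d)) (WithLp.toLp 2 p') ≤ r + τ :=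
    (dist_triangle _ _ _).trans (add_le_add h3 h4)
  rw [dist_eq', Real.sqrt_le_left (by linarith)] at h5
  exact h5

open Filter Topology in
/-- strict approximation -/
lemma approx {d N : ℕ} (hd : 1 ≤ d) (p q : Fin N → Fin d → ℝ)
    (hpq : ∀ i j, ∑ k, (q i k - q j k) ^ 2 ≤ ∑ k, (p i k - p j k) ^ 2) {τ : ℝ} (hτ : 0 < τ) :
    ∃ p' : Fin N → Fin d → ℝ, (∀ i, ∑ k, (p' i k - p i k) ^ 2 ≤ τ ^ 2) ∧
      ∀ i j, i ≠ j → ∑ k, (q i k - q j k) ^ 2 < ∑ k, (p' i k - p' j k) ^ 2 := by
  have hτ2 : 0 < τ ^ 2 := by positivity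
  -- the scaling factor
  have h1 : ∀ᶠ δ in 𝓝[>] (0 : ℝ), ∀ i, ∑ k, (δ * p i k) ^ 2 < τ ^ 2 := by
    rw [eventually_all]
    intro i
    have hc : Continuous (fun δ : ℝ => ∑ k, (δ * p i k) ^ 2) := by fun_prop
    have ht := hc.tendsto 0
    simp only [zero_mul, ne_eq, OfNat.ofNat_ne_zero, not_false_eq_true, zero_pow,
      Finset.sum_const_zero] at ht
    exact (ht.eventually (gt_mem_nhds hτ2)).filter_mono nhdsWithin_le_nhds
  obtain ⟨δ, hδ1, hδ0⟩ := (h1.and self_mem_nhdsWithin).exists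
  have hδ : 0 < δ := hδ0
  -- the perturbation
  set v : ℝ → Fin N → Fin d → ℝ := fun η i k =>
    (1 + δ) * p i k + (if k = ⟨0, hd⟩ then η * (i : ℝ) else 0) with hv
  have hcont : ∀ i k, Continuous fun η : ℝ => v η i k := by
    intro i k
    simp only [hv]
    split_ifs <;> fun_prop
  have h2 : ∀ᶠ η in 𝓝[>] (0 : ℝ), ∀ i, ∑ k, (v η i k - p i k) ^ 2 < τ ^ 2 := by
    rw [eventually_all]
    intro i
    have hc : Continuous (fun η : ℝ => ∑ k, (v η i k - p i k) ^ 2) :=
      continuous_finsetSum _ fun k _ => ((hcont i k).sub continuous_const).pow 2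
    have ht := hc.tendsto 0
    have h3 : ∑ k, (v 0 i k - p i k) ^ 2 = ∑ k, (δ * p i k) ^ 2 := by
      refine Finset.sum_congr rfl fun k _ => ?_
      simp only [hv, zero_mul, ite_self, add_zero]
      ring
    rw [h3] at ht
    exact (ht.eventually (gt_mem_nhds (hδ1 i))).filter_mono nhdsWithin_le_nhds
  have h3 : ∀ᶠ η in 𝓝[>] (0 : ℝ), ∀ i j, i ≠ j →
      ∑ k, (q i k - q j k) ^ 2 < ∑ k, (v η i k - v η j k) ^ 2 := by
    rw [eventually_all]
    intro i
    rw [eventually_all]
    intro j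
    by_cases hij : i = j
    · exact Eventually.of_forall fun η h => absurd hij h
    by_cases hp : ∑ k, (p i k - p j k) ^ 2 = 0
    · have hp' : ∀ k, p i k = p j k := fun k => by
        have h4 := (Finset.sum_eq_zero_iff_of_nonneg fun k _ => sq_nonneg _).mp hp k
          (Finset.mem_univ k)
        have h5 := pow_eq_zero_iff (two_ne_zero) |>.mp h4
        linarith
      filter_upwards [self_mem_nhdsWithin] with η hη _
      have hη0 : (0 : ℝ) < η := hη
      have h4 : ∑ k, (q i k - q j k) ^ 2 ≤ 0 := hp ▸ hpq i j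
      refine lt_of_le_of_lt h4 ?_
      have h5 : (v η i ⟨0, hd⟩ - v η j ⟨0, hd⟩) ^ 2 ≤ ∑ k, (v η i k - v η j k) ^ 2 :=
        Finset.single_le_sum (f := fun k => (v η i k - v η j k) ^ 2)
          (fun k _ => sq_nonneg _) (Finset.mem_univ _)
      refine lt_of_lt_of_le ?_ h5
      have h6 : v η i ⟨0, hd⟩ - v η j ⟨0, hd⟩ = η * ((i : ℝ) - (j : ℝ)) := by
        simp only [hv, if_true, hp']
        ring
      rw [h6]
      have h7 : ((i : ℕ) : ℝ) - ((j : ℕ) : ℝ) ≠ 0 := by
        rw [sub_ne_zero]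
        intro h8
        apply hij
        exact Fin.ext (by exact_mod_cast h8)
      positivity
    · have hppos : 0 < ∑ k, (p i k - p j k) ^ 2 :=
        lt_of_le_of_ne (Finset.sum_nonneg fun k _ => sq_nonneg _) (Ne.symm hp)
      have hc : Continuous (fun η : ℝ => ∑ k, (v η i k - v η j k) ^ 2) :=
        continuous_finsetSum _ fun k _ => ((hcont i k).sub (hcont j k)).pow 2
      have ht := hc.tendsto 0
      have h4 : ∑ k, (v 0 i k - v 0 j k) ^ 2 = (1 + δ) ^ 2 * ∑ k, (p i k - p j k) ^ 2 := by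
        rw [Finset.mul_sum]
        refine Finset.sum_congr rfl fun k _ => ?_
        simp only [hv, zero_mul, ite_self, add_zero]
        ring
      rw [h4] at ht
      have h5 : ∑ k, (q i k - q j k) ^ 2 < (1 + δ) ^ 2 * ∑ k, (p i k - p j k) ^ 2 := by
        refine lt_of_le_of_lt (hpq i j) ?_
        have g1 : 1 < (1 + δ) ^ 2 := by nlinarith
        exact lt_mul_of_one_lt_left hppos g1
      have h6 := (ht.eventually (lt_mem_nhds h5)).filter_mono
        (nhdsWithin_le_nhds (s := Ioi (0 : ℝ)))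
      filter_upwards [h6] with η hη _
      exact hη
  obtain ⟨η, hη2, hη3⟩ := (h2.and h3).exists
  exact ⟨v η, fun i => (hη2 i).le, hη3⟩

open Filter Topology in
/-- contractions of `d + 4` points -/
lemma key (h : StrictStmt) {d : ℕ} (hd : 1 ≤ d) (p q : Fin (d + 4) → Fin d → ℝ)
    (hpq : ∀ i j, ∑ k, (q i k - q j k) ^ 2 ≤ ∑ k, (p i k - p j k) ^ 2)
    (r : Fin (d + 4) → ℝ) (hr : ∀ i, 0 ≤ r i) :
    volume (KS p (fun i => r i ^ 2)) ≤ volume (KS q (fun i => r i ^ 2)) := by
  set τ : ℕ → ℝ := fun n => 1 / ((n : ℝ) + 1) with hτ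
  have hτ0 : ∀ n, 0 < τ n := fun n => by positivity
  have hτlim : Tendsto τ atTop (𝓝 0) := tendsto_one_div_add_atTop_nhds_zero_nat
  have hτa : Antitone τ := fun m n hmn => by
    simp only [hτ]
    apply one_div_le_one_div_of_le (by positivity)
    have : (m : ℝ) ≤ n := by exact_mod_cast hmn
    linarith
  set S : ℕ → Set (Fin d → ℝ) := fun n => KS q (fun i => (r i + τ n) ^ 2 + τ n) with hS
  have h1 : ∀ n, volume (KS p (fun i => r i ^ 2)) ≤ volume (S n) := by
    intro n
    obtain ⟨p', hp', hs⟩ := approx hd p q hpq (hτ0 n)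
    have h2 := strict h hd p' q hs (fun i => (r i + τ n) ^ 2) (hτ0 n)
    refine le_trans (measure_mono ?_) h2
    intro x hx i
    exact triangle (hr i) (hτ0 n).le (hx i) (hp' i)
  have hanti : Antitone S := by
    intro m n hmn x hx i
    refine (hx i).trans ?_
    have h2 := hτa hmn
    have h3 := hτ0 n
    have h4 := hr i
    have h5 : (r i + τ n) ^ 2 ≤ (r i + τ m) ^ 2 := by
      apply pow_le_pow_left₀ (by linarith)
      linarith
    linarith
  have hint : ⋂ n, S n = KS q (fun i => r i ^ 2) := by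
    apply Set.Subset.antisymm
    · intro x hx i
      rw [mem_iInter] at hx
      have hlim : Tendsto (fun n => (r i + τ n) ^ 2 + τ n) atTop (𝓝 ((r i + 0) ^ 2 + 0)) :=
        ((tendsto_const_nhds.add hτlim).pow 2).add hτlim
      rw [add_zero, add_zero] at hlim
      exact ge_of_tendsto' hlim fun n => hx n i
    · intro x hx
      rw [mem_iInter]
      intro n i
      refine (hx i).trans ?_
      have h3 := hτ0 n
      have h4 := hr i
      have h5 : r i ^ 2 ≤ (r i + τ n) ^ 2 := by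
        apply pow_le_pow_left₀ h4
        linarith
      linarith
  have hlim := tendsto_measure_iInter_atTop (μ := (volume : Measure (Fin d → ℝ)))
    (fun n => (isClosed_KS q _).measurableSet.nullMeasurableSet) hanti
    ⟨0, (measure_KS_lt_top (by omega) _ _).ne⟩
  rw [hint] at hlim
  exact ge_of_tendsto' hlim h1

/-- the measure in `EuclideanSpace` -/
lemma volume_balls {d N : ℕ} (p : Fin N → EuclideanSpace ℝ (Fin d)) (r : Fin N → ℝ)
    (hr : ∀ i, 0 ≤ r i) :
    volume (⋂ i, Metric.closedBall (p i) (r i)) =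
      volume (KS (fun i k => p i k) (fun i => r i ^ 2)) := by
  have h1 := PiLp.volume_preserving_toLp (Fin d)
  have h2 : MeasurableSet (⋂ i, Metric.closedBall (p i) (r i)) :=
    (isClosed_iInter fun i => Metric.isClosed_closedBall).measurableSet
  rw [← h1.measure_preimage h2.nullMeasurableSet]
  congr 1
  ext x
  simp only [mem_preimage, mem_iInter, Metric.mem_closedBall, KS, mem_setOf_eq]
  refine forall_congr' fun i => ?_
  have h3 : p i = WithLp.toLp 2 (fun k => p i k) := rfl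
  rw [h3, dist_eq', Real.sqrt_le_left (hr i)]

end Final

open Final in
theorem finalStmt (h : StrictStmt) : FinalStmt := by
  intro d N hN p q r hpq
  rcases Nat.eq_zero_or_pos N with hN0 | hN0
  · subst hN0
    simp
  rcases Nat.eq_zero_or_pos d with hd | hd
  · subst hd
    have : ∀ i, p i = q i := fun i => Subsingleton.elim _ _
    simp only [this, le_refl]
  by_cases hr : ∀ i, 0 ≤ r i
  · set σ : Fin (d + 4) → Fin N := fun j => ⟨min j (N - 1), by omega⟩ with hσ
    have hσs : Function.Surjective σ := by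
      intro i
      refine ⟨⟨i, by omega⟩, ?_⟩
      apply Fin.ext
      simp only [hσ]
      have := i.2
      omega
    have h1 : ∀ P : Fin N → EuclideanSpace ℝ (Fin d),
        (⋂ i, Metric.closedBall (P i) (r i)) =
          ⋂ j, Metric.closedBall (P (σ j)) (r (σ j)) := fun P =>
      (hσs.iInter_comp fun i => Metric.closedBall (P i) (r i)).symm
    rw [h1 p, h1 q, volume_balls (fun j => p (σ j)) (fun j => r (σ j)) (fun j => hr _),
      volume_balls (fun j => q (σ j)) (fun j => r (σ j)) (fun j => hr _)]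
    refine key h hd _ _ (fun i j => ?_) _ (fun j => hr _)
    have h2 := hpq (σ i) (σ j)
    have h3 : ∀ x y : EuclideanSpace ℝ (Fin d), ∑ k, (x k - y k) ^ 2 = dist x y ^ 2 := by
      intro x y
      rw [EuclideanSpace.dist_sq_eq]
      refine Finset.sum_congr rfl fun k _ => ?_
      rw [Real.dist_eq, sq_abs]
    rw [h3, h3]
    exact pow_le_pow_left₀ dist_nonneg h2 2
  · push Not at hr
    obtain ⟨i, hi⟩ := hr
    have : (⋂ i, Metric.closedBall (p i) (r i)) = ∅ := by
      apply Set.eq_empty_of_subset_empty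
      intro x hx
      rw [mem_iInter] at hx
      have := hx i
      rw [Metric.closedBall_eq_empty.mpr hi] at this
      exact this
    rw [this]
    simp

end Pool.Agent.Lib.MP_0c1c75_co.Few
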