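import Pool.Agent.Lib.MP_0c1c75_co.FewSpec

set_option autoImplicit false

open MeasureTheory Set
open scoped ContDiff

namespace Pool.Agent.Lib.MP_0c1c75_co.Few

namespace Ftc2

/-- sublevel sets of positive definite quadratic polynomials are bounded -/
theorem bound (α β γ l μ ν : ℝ) (hα : 0 < α) (hd : β ^ 2 < α * γ) (R : ℝ) :
    ∃ B : ℝ, ∀ x y : ℝ,
      α * x ^ 2 + 2 * β * x * y + γ * y ^ 2 + 2 * l * x + 2 * μ * y + ν ≤ R →
        |x| ≤ B ∧ |y| ≤ B := by
  set δ := α * γ - β ^ 2 with hδ
  have hδ0 : 0 < δ := by rw [hδ]; linarith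
  set k := (α * μ - β * l) / δ with hk
  set K := α * R - α * ν + l ^ 2 + δ * k ^ 2 with hK
  set By := K / δ + 1 + |k| with hBy
  set Bx := (K + 1 + |β| * By + |l|) / α with hBx
  refine ⟨max Bx By, ?_⟩
  intro x y h
  have hδk : δ * k = α * μ - β * l := by rw [hk]; field_simp
  have h1 : (α * x + β * y + l) ^ 2 + δ * (y + k) ^ 2 ≤ K := by
    have h2 := mul_le_mul_of_nonneg_left h hα.le
    have h3 : (α * x + β * y + l) ^ 2 + δ * (y + k) ^ 2 =
        α * (α * x ^ 2 + 2 * β * x * y + γ * y ^ 2 + 2 * l * x + 2 * μ * y + ν) - α * ν +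
          l ^ 2 + δ * k ^ 2 := by
      have e : δ * (y + k) ^ 2 = δ * y ^ 2 + 2 * (δ * k) * y + δ * k ^ 2 := by ring
      rw [e, hδk, hδ]
      ring
    rw [h3, hK]
    linarith
  have hK0 : 0 ≤ K := le_trans (by positivity) h1
  have h4 : δ * (y + k) ^ 2 ≤ K := by nlinarith [sq_nonneg (α * x + β * y + l)]
  have h5 : (y + k) ^ 2 ≤ K / δ := by
    rw [le_div_iff₀ hδ0]
    linarith
  have h6 : |y + k| ≤ K / δ + 1 := by
    have h7 : |y + k| ^ 2 ≤ K / δ := by rw [sq_abs]; exact h5
    nlinarith [abs_nonneg (y + k)]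
  have hy : |y| ≤ By := by
    have h8 : |y| ≤ |y + k| + |k| := by
      have := abs_sub (y + k) k
      simpa using this
    rw [hBy]
    linarith
  have h9 : (α * x + β * y + l) ^ 2 ≤ K := by nlinarith [mul_nonneg hδ0.le (sq_nonneg (y + k))]
  have h10 : |α * x + β * y + l| ≤ K + 1 := by
    have h7 : |α * x + β * y + l| ^ 2 ≤ K := by rw [sq_abs]; exact h9
    nlinarith [abs_nonneg (α * x + β * y + l)]
  have hx : |x| ≤ Bx := by
    rw [hBx, le_div_iff₀ hα]
    have h11 : |x| * α = |α * x| := by rw [abs_mul, abs_of_pos hα]; ring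
    rw [h11]
    have h12 : |α * x| ≤ |α * x + β * y + l| + |β * y + l| := by
      have := abs_sub (α * x + β * y + l) (β * y + l)
      have e : α * x + β * y + l - (β * y + l) = α * x := by ring
      rwa [e] at this
    have h13 : |β * y + l| ≤ |β| * |y| + |l| := by
      calc |β * y + l| ≤ |β * y| + |l| := abs_add_le _ _
        _ = |β| * |y| + |l| := by rw [abs_mul]
    have h14 : |β| * |y| ≤ |β| * By := mul_le_mul_of_nonneg_left hy (abs_nonneg β)
    linarith
  exact ⟨le_trans hx (le_max_left _ _), le_trans hy (le_max_right _ _)⟩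

theorem exists_zero_above (Ψ : ℝ → ℝ) (h : HasCompactSupport Ψ) :
    ∃ R : ℝ, ∀ s, R < s → Ψ s = 0 := by
  obtain ⟨R, hR⟩ := h.isCompact.bddAbove
  refine ⟨R, fun s hs => ?_⟩
  by_contra hne
  have : s ∈ tsupport Ψ := subset_tsupport _ hne
  exact absurd (hR this) (not_le.2 hs)

/-- quadratic polynomial -/
def qp (α β γ l μ ν x y : ℝ) : ℝ :=
  α * x ^ 2 + 2 * β * x * y + γ * y ^ 2 + 2 * l * x + 2 * μ * y + ν

theorem supp2 (α β γ l μ ν : ℝ) (hα : 0 < α) (hd : β ^ 2 < α * γ) (Ψ : ℝ → ℝ)
    (h : HasCompactSupport Ψ) (g : ℝ × ℝ → ℝ) :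
    HasCompactSupport (fun z : ℝ × ℝ => Ψ (qp α β γ l μ ν z.1 z.2) * g z) := by
  obtain ⟨R, hR⟩ := exists_zero_above Ψ h
  obtain ⟨B, hB⟩ := bound α β γ l μ ν hα hd R
  apply HasCompactSupport.intro (K := Icc (-B) B ×ˢ Icc (-B) B) (isCompact_Icc.prod isCompact_Icc)
  intro z hz
  have : R < qp α β γ l μ ν z.1 z.2 := by
    by_contra hcon
    push Not at hcon
    obtain ⟨h1, h2⟩ := hB z.1 z.2 hcon
    exact hz ⟨abs_le.1 h1, abs_le.1 h2⟩
  rw [hR _ this, zero_mul]

theorem supp1 (α β γ l μ ν : ℝ) (hα : 0 < α) (hd : β ^ 2 < α * γ) (Ψ : ℝ → ℝ)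
    (h : HasCompactSupport Ψ) (y : ℝ) (g : ℝ → ℝ) :
    HasCompactSupport (fun x : ℝ => Ψ (qp α β γ l μ ν x y) * g x) := by
  obtain ⟨R, hR⟩ := exists_zero_above Ψ h
  obtain ⟨B, hB⟩ := bound α β γ l μ ν hα hd R
  apply HasCompactSupport.intro (K := Icc (-B) B) isCompact_Icc
  intro x hx
  have : R < qp α β γ l μ ν x y := by
    by_contra hcon
    push Not at hcon
    obtain ⟨h1, h2⟩ := hB x y hcon
    exact hx (abs_le.1 h1)
  rw [hR _ this, zero_mul]

theorem supp1' (α β γ l μ ν : ℝ) (hα : 0 < α) (hd : β ^ 2 < α * γ) (Ψ : ℝ → ℝ)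
    (h : HasCompactSupport Ψ) (x : ℝ) (g : ℝ → ℝ) :
    HasCompactSupport (fun y : ℝ => Ψ (qp α β γ l μ ν x y) * g y) := by
  obtain ⟨R, hR⟩ := exists_zero_above Ψ h
  obtain ⟨B, hB⟩ := bound α β γ l μ ν hα hd R
  apply HasCompactSupport.intro (K := Icc (-B) B) isCompact_Icc
  intro y hy
  have : R < qp α β γ l μ ν x y := by
    by_contra hcon
    push Not at hcon
    obtain ⟨h1, h2⟩ := hB x y hcon
    exact hy (abs_le.1 h2)
  rw [hR _ this, zero_mul]

/-- derivative in `x` -/
theorem derivx (α β γ l μ ν : ℝ) (Ψ : ℝ → ℝ) (hΨ : ContDiff ℝ ∞ Ψ) (x y : ℝ) :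
    HasDerivAt (fun x : ℝ => Ψ (qp α β γ l μ ν x y) * (2 * β * x + 2 * γ * y + 2 * μ))
      (deriv Ψ (qp α β γ l μ ν x y) * (2 * α * x + 2 * β * y + 2 * l) *
        (2 * β * x + 2 * γ * y + 2 * μ) + Ψ (qp α β γ l μ ν x y) * (2 * β)) x := by
  have h1 : HasDerivAt (fun x : ℝ => qp α β γ l μ ν x y) (2 * α * x + 2 * β * y + 2 * l) x := by
    unfold qp
    have := ((((((hasDerivAt_id' x).pow 2).const_mul α).add
      (((hasDerivAt_id' x).const_mul (2 * β)).mul_const y)).add_const (γ * y ^ 2)).add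
      ((hasDerivAt_id' x).const_mul (2 * l))).add_const (2 * μ * y) |>.add_const ν
    exact this.congr_deriv (by simp; ring)
  have h2 : HasDerivAt Ψ (deriv Ψ (qp α β γ l μ ν x y)) (qp α β γ l μ ν x y) :=
    (hΨ.differentiable (by simp)).differentiableAt.hasDerivAt
  have h3 : HasDerivAt (fun x : ℝ => 2 * β * x + 2 * γ * y + 2 * μ) (2 * β) x := by
    have := (((hasDerivAt_id' x).const_mul (2 * β)).add_const (2 * γ * y)).add_const (2 * μ)
    exact this.congr_deriv (by simp)
  exact (h2.comp x h1).mul h3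

/-- derivative in `y` -/
theorem derivy (α β γ l μ ν : ℝ) (Ψ : ℝ → ℝ) (hΨ : ContDiff ℝ ∞ Ψ) (x y : ℝ) :
    HasDerivAt (fun y : ℝ => Ψ (qp α β γ l μ ν x y))
      (deriv Ψ (qp α β γ l μ ν x y) * (2 * β * x + 2 * γ * y + 2 * μ)) y := by
  have h1 : HasDerivAt (fun y : ℝ => qp α β γ l μ ν x y) (2 * β * x + 2 * γ * y + 2 * μ) y := by
    unfold qp
    have := (((((hasDerivAt_id' y).const_mul (2 * β * x)).const_add (α * x ^ 2)).add
      (((hasDerivAt_id' y).pow 2).const_mul γ)).add_const (2 * l * x)).add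
      ((hasDerivAt_id' y).const_mul (2 * μ)) |>.add_const ν
    exact this.congr_deriv (by simp; ring)
  have h2 : HasDerivAt Ψ (deriv Ψ (qp α β γ l μ ν x y)) (qp α β γ l μ ν x y) :=
    (hΨ.differentiable (by simp)).differentiableAt.hasDerivAt
  exact h2.comp y h1

theorem contDiff_qp1 (α β γ l μ ν y : ℝ) : ContDiff ℝ ∞ (fun x : ℝ => qp α β γ l μ ν x y) := by
  unfold qp
  fun_prop

theorem contDiff_qp2 (α β γ l μ ν x : ℝ) : ContDiff ℝ ∞ (fun y : ℝ => qp α β γ l μ ν x y) := by
  unfold qp
  fun_prop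

theorem continuous_qp (α β γ l μ ν : ℝ) :
    Continuous (fun z : ℝ × ℝ => qp α β γ l μ ν z.1 z.2) := by
  unfold qp
  fun_prop

end Ftc2

open Ftc2 in
theorem ftc2Stmt : Ftc2Stmt := by
  intro Φ hΦ α β γ l μ ν a b c hα hd q
  have hs1 : ContDiff ℝ ∞ (deriv Φ) := (contDiff_infty_iff_deriv.1 hΦ.smooth).2
  have hs2 : ContDiff ℝ ∞ (deriv (deriv Φ)) := (contDiff_infty_iff_deriv.1 hs1).2
  have hc1 : HasCompactSupport (deriv Φ) := hΦ.supp.deriv
  have hc2 : HasCompactSupport (deriv (deriv Φ)) := hc1.deriv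
  have hq : ∀ x y, q x y = qp α β γ l μ ν x y := fun x y => rfl
  -- the function G
  set G : ℝ → ℝ → ℝ := fun x y => deriv (deriv Φ) (qp α β γ (l + 1 / 2) μ (ν - a) x y) *
    (2 * β * x + 2 * γ * y + 2 * μ) with hG
  have hqa : ∀ x y, qp α β γ (l + 1 / 2) μ (ν - a) x y = qp α β γ l μ ν x y + (x - a) := by
    intro x y
    unfold qp
    ring
  have hqm : ∀ m x y, qp α β γ l μ (ν + m) x y = qp α β γ l μ ν x y + m := by
    intro m x y
    unfold qp
    ring
  -- inner integral
  have hinner : ∀ y : ℝ, ∫ x : ℝ,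
        (deriv (deriv Φ) (q x y + max (x - a) (max (y - b) c)) *
            (2 * α * x + 2 * β * y + 2 * l) * (2 * β * x + 2 * γ * y + 2 * μ) +
          deriv Φ (q x y + max (x - a) (max (y - b) c)) * (2 * β)) =
      ∫ x in Ioi (a + max (y - b) c), -G x y := by
    intro y
    set m := max (y - b) c with hm
    set x₀ := a + m with hx₀
    set f₁ : ℝ → ℝ := fun x => deriv Φ (qp α β γ l μ (ν + m) x y) *
      (2 * β * x + 2 * γ * y + 2 * μ) with hf₁
    set f₂ : ℝ → ℝ := fun x => deriv Φ (qp α β γ (l + 1 / 2) μ (ν - a) x y) *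
      (2 * β * x + 2 * γ * y + 2 * μ) with hf₂
    have hlin : ContDiff ℝ ∞ (fun x : ℝ => 2 * β * x + 2 * γ * y + 2 * μ) := by fun_prop
    have hf₁s : ContDiff ℝ ∞ f₁ := (hs1.comp (contDiff_qp1 α β γ l μ (ν + m) y)).mul hlin
    have hf₂s : ContDiff ℝ ∞ f₂ :=
      (hs1.comp (contDiff_qp1 α β γ (l + 1 / 2) μ (ν - a) y)).mul hlin
    have hf₁c : HasCompactSupport f₁ := supp1 α β γ l μ (ν + m) hα hd _ hc1 y _
    have hf₂c : HasCompactSupport f₂ := supp1 α β γ (l + 1 / 2) μ (ν - a) hα hd _ hc1 y _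
    have hI₁ : Integrable (deriv f₁) :=
      (hf₁s.continuous_deriv (by simp)).integrable_of_hasCompactSupport hf₁c.deriv
    have hI₂ : Integrable (deriv f₂) :=
      (hf₂s.continuous_deriv (by simp)).integrable_of_hasCompactSupport hf₂c.deriv
    have hGI : Integrable (fun x => G x y) := by
      apply Continuous.integrable_of_hasCompactSupport
      · exact (hs2.continuous.comp (contDiff_qp1 α β γ (l + 1 / 2) μ (ν - a) y).continuous).mul
          hlin.continuous
      · exact supp1 α β γ (l + 1 / 2) μ (ν - a) hα hd _ hc2 y _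
    have hd₁ : ∀ x, deriv f₁ x = _ := fun x =>
      (derivx α β γ l μ (ν + m) (deriv Φ) hs1 x y).deriv
    have hd₂ : ∀ x, deriv f₂ x = _ := fun x =>
      (derivx α β γ (l + 1 / 2) μ (ν - a) (deriv Φ) hs1 x y).deriv
    set F : ℝ → ℝ := fun x => (deriv (deriv Φ) (q x y + max (x - a) m) *
            (2 * α * x + 2 * β * y + 2 * l) * (2 * β * x + 2 * γ * y + 2 * μ) +
          deriv Φ (q x y + max (x - a) m) * (2 * β)) with hF
    have hF1 : ∀ x ∈ Iic x₀, deriv f₁ x = F x := by
      intro x hx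
      have hx' : x ≤ a + m := hx
      have hmax : max (x - a) m = m := max_eq_right (by linarith)
      rw [hd₁ x, hF]
      simp only [hmax, hq]
      rw [hqm m x y]
    have hF2 : ∀ x ∈ Ioi x₀, deriv f₂ x - G x y = F x := by
      intro x hx
      have hx' : a + m < x := hx
      have hmax : max (x - a) m = x - a := max_eq_left (by linarith)
      rw [hd₂ x, hF, hG]
      simp only [hmax, hq]
      rw [hqa x y]
      ring
    have hFI1 : IntegrableOn F (Iic x₀) :=
      (hI₁.integrableOn).congr_fun hF1 measurableSet_Iic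
    have hFI2 : IntegrableOn F (Ioi x₀) :=
      ((hI₂.sub hGI).integrableOn).congr_fun hF2 measurableSet_Ioi
    have hsplit := intervalIntegral.integral_Iic_add_Ioi hFI1 hFI2
    change ∫ x : ℝ, F x = _
    rw [← hsplit, ← setIntegral_congr_fun measurableSet_Iic hF1,
      ← setIntegral_congr_fun measurableSet_Ioi hF2,
      integral_sub hI₂.integrableOn hGI.integrableOn,
      hf₁c.integral_Iic_deriv_eq (hf₁s.of_le (by simp)) x₀,
      hf₂c.integral_Ioi_deriv_eq (hf₂s.of_le (by simp)) x₀, integral_neg]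
    have hbd : f₁ x₀ = f₂ x₀ := by
      rw [hf₁, hf₂]
      simp only
      rw [hqa, hqm, hx₀]
      congr 3
      ring
    rw [hbd]
    ring
  rw [integral_congr_ae (Filter.Eventually.of_forall hinner)]
  -- swap
  set S : Set (ℝ × ℝ) := {z | a + max (z.1 - b) c < z.2} with hS
  have hSm : MeasurableSet S := by
    apply measurableSet_lt
    · exact (measurable_const.add ((measurable_fst.sub measurable_const).max measurable_const))
    · exact measurable_snd
  have hGint : Integrable (fun z : ℝ × ℝ => -G z.2 z.1) (volume.prod volume) := by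
    have h1 : Integrable (fun z : ℝ × ℝ => G z.1 z.2) (volume.prod volume) := by
      apply Continuous.integrable_of_hasCompactSupport
      · exact (hs2.continuous.comp (continuous_qp α β γ (l + 1 / 2) μ (ν - a))).mul
          (by fun_prop)
      · exact supp2 α β γ (l + 1 / 2) μ (ν - a) hα hd _ hc2 _
    exact (h1.swap).neg
  have hSint : Integrable (Function.uncurry fun (y x : ℝ) =>
      S.indicator (fun z : ℝ × ℝ => -G z.2 z.1) (y, x)) (volume.prod volume) := by
    have := hGint.indicator hSm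
    exact this
  have hrow : ∀ y : ℝ, ∫ x in Ioi (a + max (y - b) c), -G x y =
      ∫ x : ℝ, S.indicator (fun z : ℝ × ℝ => -G z.2 z.1) (y, x) := by
    intro y
    rw [← integral_indicator measurableSet_Ioi]
    refine integral_congr_ae (Filter.Eventually.of_forall fun x => ?_)
    by_cases hx : a + max (y - b) c < x
    · simp only
      rw [Set.indicator_of_mem (show x ∈ Ioi _ from hx), Set.indicator_of_mem (show (y, x) ∈ S from hx)]
    · simp only
      rw [Set.indicator_of_notMem (show x ∉ Ioi _ from hx),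
        Set.indicator_of_notMem (show (y, x) ∉ S from hx)]
  rw [integral_congr_ae (Filter.Eventually.of_forall hrow), integral_integral_swap hSint]
  -- columns
  have hcol : ∀ x : ℝ, ∫ y : ℝ, S.indicator (fun z : ℝ × ℝ => -G z.2 z.1) (y, x) =
      (Ioi (a + c)).indicator (fun x => -deriv Φ (qp α β γ l μ ν x (x - a + b) + (x - a))) x := by
    intro x
    by_cases hx : a + c < x
    · rw [Set.indicator_of_mem (show x ∈ Ioi (a + c) from hx)]
      set f₃ : ℝ → ℝ := fun y => deriv Φ (qp α β γ (l + 1 / 2) μ (ν - a) x y) with hf₃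
      have hf₃s : ContDiff ℝ ∞ f₃ := hs1.comp (contDiff_qp2 α β γ (l + 1 / 2) μ (ν - a) x)
      have hf₃c : HasCompactSupport f₃ := by
        have := supp1' α β γ (l + 1 / 2) μ (ν - a) hα hd _ hc1 x (fun _ => 1)
        simp only [mul_one] at this
        exact this
      have h1 : ∫ y : ℝ, S.indicator (fun z : ℝ × ℝ => -G z.2 z.1) (y, x) =
          ∫ y in Iio (x - a + b), -G x y := by
        rw [← integral_indicator measurableSet_Iio]
        refine integral_congr_ae (Filter.Eventually.of_forall fun y => ?_)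
        by_cases hy : y < x - a + b
        · have hmem : (y, x) ∈ S := by
            change a + max (y - b) c < x
            have : max (y - b) c < x - a := max_lt (by linarith) (by linarith)
            linarith
          simp only
          rw [Set.indicator_of_mem (show y ∈ Iio _ from hy), Set.indicator_of_mem hmem]
        · have hmem : (y, x) ∉ S := by
            intro h
            have h' : a + max (y - b) c < x := h
            have := le_max_left (y - b) c
            exact hy (by linarith)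
          simp only
          rw [Set.indicator_of_notMem (show y ∉ Iio _ from hy), Set.indicator_of_notMem hmem]
      rw [h1, integral_neg, ← integral_Iic_eq_integral_Iio]
      have h2 : ∫ y in Iic (x - a + b), G x y = ∫ y in Iic (x - a + b), deriv f₃ y := by
        refine setIntegral_congr_fun measurableSet_Iic fun y _ => ?_
        exact ((derivy α β γ (l + 1 / 2) μ (ν - a) (deriv Φ) hs1 x y).deriv).symm
      rw [h2, hf₃c.integral_Iic_deriv_eq (hf₃s.of_le (by simp)), hf₃]
      simp only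
      rw [hqa]
    · rw [Set.indicator_of_notMem (show x ∉ Ioi (a + c) from hx)]
      have h0 : ∀ y, S.indicator (fun z : ℝ × ℝ => -G z.2 z.1) (y, x) = 0 := by
        intro y
        apply Set.indicator_of_notMem
        intro h
        have h' : a + max (y - b) c < x := h
        have := le_max_right (y - b) c
        exact hx (by linarith)
      simp [h0]
  rw [integral_congr_ae (Filter.Eventually.of_forall hcol)]
  rw [← integral_add_right_eq_self _ a, ← integral_indicator measurableSet_Ioi]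
  refine integral_congr_ae (Filter.Eventually.of_forall fun z => ?_)
  simp only
  by_cases hz : c < z
  · rw [Set.indicator_of_mem (show z ∈ Ioi c from hz),
      Set.indicator_of_mem (show z + a ∈ Ioi (a + c) from by
        change a + c < z + a
        linarith)]
    rw [hq]
    have e1 : z + a - a = z := by ring
    rw [e1]
  · rw [Set.indicator_of_notMem (show z ∉ Ioi c from hz),
      Set.indicator_of_notMem (show z + a ∉ Ioi (a + c) from by
        intro h
        have h' : a + c < z + a := h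
        exact hz (by linarith))]

end Pool.Agent.Lib.MP_0c1c75_co.Few
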