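import Pool.Agent.Lib.MP_0c1c75_co.FewSpec

/-! Gram coordinates. -/

open MeasureTheory Set
open scoped Matrix

namespace Pool.Agent.Lib.MP_0c1c75_co.Few

namespace Gram

variable {N : ℕ}

theorem posDef (P : Matrix (Fin N) (Fin N) ℝ) (hP : P.det ≠ 0) : (P * P.transpose).PosDef := by
  have h := Matrix.PosDef.mul_conjTranspose_self P (by
    intro x y hxy
    have hu : IsUnit P.det := isUnit_iff_ne_zero.2 hP
    have h1 := congrArg (fun v => Matrix.vecMul v P⁻¹) hxy
    simpa [Matrix.vecMul_vecMul, Matrix.mul_nonsing_inv P hu] using h1)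
  rwa [Matrix.conjTranspose_eq_transpose_of_trivial] at h

theorem integral_comp (M : Matrix (Fin N) (Fin N) ℝ) (hM : M.det ≠ 0) (f : (Fin N → ℝ) → ℝ) :
    ∫ x, f (M.mulVec x) = |M.det|⁻¹ * ∫ t, f t := by
  have h := Real.map_matrix_volume_pi_eq_smul_volume_pi hM
  have hinj : Function.Injective (Matrix.toLin' M) := by
    intro x y hxy
    have hu : IsUnit M.det := isUnit_iff_ne_zero.2 hM
    have h1 := congrArg (fun v => M⁻¹.mulVec v) hxy
    simpa [Matrix.mulVec_mulVec, Matrix.nonsing_inv_mul M hu] using h1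
  have hc : Continuous (Matrix.toLin' M) := LinearMap.continuous_of_finiteDimensional _
  have he : MeasurableEmbedding (Matrix.toLin' M) := hc.measurableEmbedding hinj
  have h2 := he.integral_map (μ := volume) f
  rw [h, integral_smul_measure, smul_eq_mul, ENNReal.toReal_ofReal (abs_nonneg _), abs_inv] at h2
  rw [h2]
  rfl

theorem qf_eq (P : Matrix (Fin N) (Fin N) ℝ) (hP : P.det ≠ 0) (x : Fin N → ℝ) :
    qf (P * P.transpose)⁻¹ (((-2 : ℝ) • P).mulVec x) = ∑ k, x k ^ 2 := by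
  have hu : IsUnit P.det := isUnit_iff_ne_zero.2 hP
  have hut : IsUnit P.transpose.det := by rwa [Matrix.det_transpose]
  unfold qf
  have h1 : (P * P.transpose)⁻¹.mulVec (((-2 : ℝ) • P).mulVec x) =
      (-2 : ℝ) • (P.transpose)⁻¹.mulVec x := by
    rw [Matrix.mul_inv_rev, Matrix.smul_mulVec, Matrix.mulVec_smul, Matrix.mulVec_mulVec,
      Matrix.mul_assoc, Matrix.nonsing_inv_mul P hu, Matrix.mul_one]
  rw [h1, Matrix.smul_mulVec, smul_dotProduct, dotProduct_smul]
  have h2 : P.mulVec x ⬝ᵥ (P.transpose)⁻¹.mulVec x = x ⬝ᵥ x := by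
    rw [Matrix.dotProduct_mulVec, ← Matrix.vecMul_transpose P x, Matrix.vecMul_vecMul,
      Matrix.mul_nonsing_inv _ hut, Matrix.vecMul_one]
  rw [h2]
  simp only [smul_eq_mul, dotProduct]
  have h3 : ∑ k, x k ^ 2 = ∑ k, x k * x k := Finset.sum_congr rfl fun k _ => by ring
  rw [h3]
  ring

theorem gm_eq (hN : 0 < N) (P : Matrix (Fin N) (Fin N) ℝ) (a x : Fin N → ℝ) :
    gm P a x = ∑ k, x k ^ 2 +
      mx (fun i => a i - (P * P.transpose) i i) (((-2 : ℝ) • P).mulVec x) := by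
  have : Nonempty (Fin N) := ⟨⟨0, hN⟩⟩
  unfold gm mx
  rw [add_ciSup (Set.finite_range _).bddAbove]
  congr 1
  funext i
  have h1 : (P * P.transpose) i i = ∑ k, P i k ^ 2 := by
    rw [Matrix.mul_apply]
    exact Finset.sum_congr rfl fun k _ => by rw [Matrix.transpose_apply]; ring
  have h2 : ((-2 : ℝ) • P).mulVec x i = -2 * ∑ k, P i k * x k := by
    rw [Matrix.smul_mulVec]
    rfl
  have h3 : ∑ k, (x k - P i k) ^ 2 = ∑ k, x k ^ 2 - 2 * ∑ k, P i k * x k + ∑ k, P i k ^ 2 := by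
    rw [Finset.mul_sum, ← Finset.sum_sub_distrib, ← Finset.sum_add_distrib]
    exact Finset.sum_congr rfl fun k _ => by ring
  change ∑ k, (x k - P i k) ^ 2 - a i = ∑ k, x k ^ 2 +
    ((((-2 : ℝ) • P).mulVec x) i - (a i - (P * P.transpose) i i))
  rw [h1, h2, h3]
  ring

end Gram

open Gram in
theorem gramStmt : GramStmt := by
  intro N hN Φ P a hP
  refine ⟨posDef P hP, ?_⟩
  have hdet : ((-2 : ℝ) • P).det = (-2) ^ N * P.det := by
    rw [Matrix.det_smul, Fintype.card_fin]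
  have hM : ((-2 : ℝ) • P).det ≠ 0 := by
    rw [hdet]
    exact mul_ne_zero (pow_ne_zero _ (by norm_num)) hP
  set b : Fin N → ℝ := fun i => a i - (P * P.transpose) i i with hb
  have h1 := integral_comp ((-2 : ℝ) • P) hM
    (fun t => -deriv Φ (qf (P * P.transpose)⁻¹ t + mx b t))
  have h2 : ∀ x, gm P a x = qf (P * P.transpose)⁻¹ (((-2 : ℝ) • P).mulVec x) +
      mx b (((-2 : ℝ) • P).mulVec x) := fun x => by
    rw [gm_eq hN P a x, qf_eq P hP x]
  have h3 : ∫ x, -deriv Φ (gm P a x) = ∫ x, -deriv Φ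
      (qf (P * P.transpose)⁻¹ (((-2 : ℝ) • P).mulVec x) + mx b (((-2 : ℝ) • P).mulVec x)) := by
    refine integral_congr_ae (Filter.Eventually.of_forall fun x => ?_)
    simp only
    rw [h2 x]
  rw [h3, h1]
  unfold J
  rw [integral_const_mul]
  have h4 : Real.sqrt (P * P.transpose).det = |P.det| := by
    rw [Matrix.det_mul, Matrix.det_transpose, ← sq, Real.sqrt_sq_eq_abs]
  have h5 : |((-2 : ℝ) • P).det| = 2 ^ N * |P.det| := by
    rw [hdet, abs_mul, abs_pow, abs_neg, abs_two]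
  rw [h4, h5, mul_inv]
  ring

end Pool.Agent.Lib.MP_0c1c75_co.Few
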