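import Pool.Agent.Lib.MP_0c1c75_co.FewSpec

/-!
MP_0c1c75_co, few balls, module Lift: lifting by `2 + 2` dimensions.
-/

open MeasureTheory Set

namespace Pool.Agent.Lib.MP_0c1c75_co.Few.Lift

/-- splitting of the first coordinate -/
noncomputable def spl (k : ℕ) : (Fin (k + 1) → ℝ) ≃ᵐ ℝ × (Fin k → ℝ) :=
  MeasurableEquiv.piFinSuccAbove (fun _ : Fin (k + 1) => ℝ) 0

lemma spl_mp (k : ℕ) : MeasurePreserving (spl k) volume volume :=
  volume_preserving_piFinSuccAbove (fun _ : Fin (k + 1) => ℝ) 0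

lemma spl_symm (k : ℕ) (p : ℝ × (Fin k → ℝ)) :
    (spl k).symm p = (Fin.cons p.1 p.2 : Fin (k + 1) → ℝ) := by
  have h : (spl k).symm p = Fin.insertNth (α := fun _ : Fin (k + 1) => ℝ) 0 p.1 p.2 := rfl
  rw [h, Fin.insertNth_zero']

/-- splitting of the first two coordinates -/
noncomputable def spl2 (n : ℕ) : (ℝ × ℝ) × (Fin n → ℝ) ≃ᵐ (Fin (n + 2) → ℝ) :=
  (MeasurableEquiv.prodAssoc.trans
    (MeasurableEquiv.prodCongr (MeasurableEquiv.refl ℝ) (spl n).symm)).trans (spl (n + 1)).symm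

lemma spl2_apply (n : ℕ) (p : (ℝ × ℝ) × (Fin n → ℝ)) :
    spl2 n p = (Fin.cons p.1.1 (Fin.cons p.1.2 p.2 : Fin (n + 1) → ℝ) : Fin (n + 2) → ℝ) := by
  have h : spl2 n p = (spl (n + 1)).symm (p.1.1, (spl n).symm (p.1.2, p.2)) := rfl
  rw [h, spl_symm, spl_symm]

lemma spl2_mp (n : ℕ) : MeasurePreserving (spl2 n) volume volume := by
  have h1 : MeasurePreserving (MeasurableEquiv.prodAssoc : (ℝ × ℝ) × (Fin n → ℝ) ≃ᵐ _)
      volume volume := volume_preserving_prodAssoc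
  have h2 : MeasurePreserving
      (MeasurableEquiv.prodCongr (MeasurableEquiv.refl ℝ) (spl n).symm) volume volume :=
    (MeasurePreserving.id volume).prod ((spl_mp n).symm (spl n))
  exact (((spl_mp (n + 1)).symm (spl (n + 1))).comp h2).comp h1

lemma gm_continuous {N n : ℕ} (hN : 0 < N) (P : Fin N → Fin n → ℝ) (a : Fin N → ℝ) :
    Continuous (gm P a) := by
  haveI : Nonempty (Fin N) := ⟨⟨0, hN⟩⟩
  have h : gm P a = fun x => Finset.univ.sup' Finset.univ_nonempty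
      (fun i => (∑ k, (x k - P i k) ^ 2 - a i)) := by
    funext x
    rw [Finset.sup'_univ_eq_ciSup]
    rfl
  rw [h]
  refine Continuous.finset_sup'_apply _ (fun i _ => ?_)
  fun_prop

lemma le_gm {N n : ℕ} (P : Fin N → Fin n → ℝ) (a : Fin N → ℝ) (x : Fin n → ℝ) (i : Fin N) :
    ∑ k, (x k - P i k) ^ 2 - a i ≤ gm P a x :=
  le_ciSup (f := fun i => (∑ k, (x k - P i k) ^ 2 - a i)) (Set.finite_range _).bddAbove i

lemma comp_compact {N n : ℕ} (hN : 0 < N) (P : Fin N → Fin n → ℝ) (a : Fin N → ℝ) {f : ℝ → ℝ}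
    (hf : HasCompactSupport f) : HasCompactSupport (fun x => f (gm P a x)) := by
  obtain ⟨R, hR⟩ := hf.isBounded.subset_closedBall 0
  set i0 : Fin N := ⟨0, hN⟩
  refine HasCompactSupport.intro
    (isCompact_closedBall (P i0) (Real.sqrt (|R| + |a i0|))) ?_
  intro x hx
  by_contra hne
  apply hx
  have h1 : gm P a x ∈ Metric.closedBall (0 : ℝ) R := hR (subset_tsupport f hne)
  rw [Metric.mem_closedBall, dist_zero_right, Real.norm_eq_abs] at h1
  have h2 := le_gm P a x i0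
  rw [Metric.mem_closedBall, dist_pi_le_iff (Real.sqrt_nonneg _)]
  intro k
  rw [Real.dist_eq]
  apply Real.abs_le_sqrt
  have h3 : (x k - P i0 k) ^ 2 ≤ ∑ k, (x k - P i0 k) ^ 2 :=
    Finset.single_le_sum (f := fun k => (x k - P i0 k) ^ 2) (fun j _ => sq_nonneg _)
      (Finset.mem_univ k)
  have h4 := le_abs_self (gm P a x)
  have h5 := le_abs_self R
  have h6 := le_abs_self (a i0)
  linarith

lemma gm_lift2 {N n : ℕ} (hN : 0 < N) (p : Fin N → Fin n → ℝ) (a : Fin N → ℝ) (x y : ℝ)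
    (z : Fin n → ℝ) :
    gm (fun i => lift2 (p i)) a
      (Fin.cons x (Fin.cons y z : Fin (n + 1) → ℝ) : Fin (n + 2) → ℝ) =
      x ^ 2 + (y ^ 2 + gm p a z) := by
  haveI : Nonempty (Fin N) := ⟨⟨0, hN⟩⟩
  have h1 : ∀ i, (∑ k, ((Fin.cons x (Fin.cons y z : Fin (n + 1) → ℝ) : Fin (n + 2) → ℝ) k -
      lift2 (p i) k) ^ 2 - a i) = (x ^ 2 + y ^ 2) + (∑ k, (z k - p i k) ^ 2 - a i) := by
    intro i
    rw [Fin.sum_univ_succ, Fin.sum_univ_succ]
    simp only [lift2, Fin.cons_zero, Fin.cons_succ, sub_zero]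
    ring
  unfold gm
  simp only [h1]
  rw [← add_assoc]
  apply le_antisymm
  · apply ciSup_le
    intro i
    have := le_gm p a z i
    unfold gm at this
    linarith
  · have h2 : (⨆ i, (∑ k, (z k - p i k) ^ 2 - a i)) ≤
        (⨆ i, ((x ^ 2 + y ^ 2) + (∑ k, (z k - p i k) ^ 2 - a i))) - (x ^ 2 + y ^ 2) := by
      apply ciSup_le
      intro i
      have := le_ciSup (f := fun i => ((x ^ 2 + y ^ 2) + (∑ k, (z k - p i k) ^ 2 - a i)))
        (Set.finite_range _).bddAbove i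
      linarith
    linarith

/-- one step -/
lemma step (h : Polar2Stmt) {N n : ℕ} (hN : 0 < N) (p : Fin N → Fin n → ℝ) (a : Fin N → ℝ)
    {f : ℝ → ℝ} (hf : Continuous f) (hfc : HasCompactSupport f) :
    ∫ x : Fin (n + 2) → ℝ, f (gm (fun i => lift2 (p i)) a x) =
      Real.pi * ∫ x, ∫ s in Ioi (gm p a x), f s := by
  have hint : Integrable (fun x : Fin (n + 2) → ℝ => f (gm (fun i => lift2 (p i)) a x)) :=
    (hf.comp (gm_continuous hN _ a)).integrable_of_hasCompactSupport (comp_compact hN _ a hfc)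
  have h1 := (spl2_mp n).integral_comp (spl2 n).measurableEmbedding
    (fun x : Fin (n + 2) → ℝ => f (gm (fun i => lift2 (p i)) a x))
  have hint2 := ((spl2_mp n).integrable_comp_emb (spl2 n).measurableEmbedding).2 hint
  have h2 : ∀ q : (ℝ × ℝ) × (Fin n → ℝ), f (gm (fun i => lift2 (p i)) a (spl2 n q)) =
      f (q.1.1 ^ 2 + (q.1.2 ^ 2 + gm p a q.2)) := by
    intro q
    rw [spl2_apply, gm_lift2 hN]
  have h3 : ((fun x : Fin (n + 2) → ℝ => f (gm (fun i => lift2 (p i)) a x)) ∘ (spl2 n)) =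
      fun q : (ℝ × ℝ) × (Fin n → ℝ) => f (q.1.1 ^ 2 + (q.1.2 ^ 2 + gm p a q.2)) := by
    funext q
    exact h2 q
  rw [h3] at hint2
  rw [← h1]
  simp only [h2]
  rw [Measure.volume_eq_prod] at hint2 ⊢
  rw [integral_prod_symm _ hint2, ← integral_const_mul]
  refine integral_congr_ae (Filter.Eventually.of_forall (fun z => ?_))
  exact h.1 f hf hfc (gm p a z)

end Pool.Agent.Lib.MP_0c1c75_co.Few.Lift

namespace Pool.Agent.Lib.MP_0c1c75_co.Few

open Lift in
theorem liftStmt (h : Polar2Stmt) : LiftStmt := by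
  intro N n hN Φ hΦ p a
  have h1 : ContDiff ℝ 1 Φ := hΦ.smooth.of_le (by exact_mod_cast le_top)
  have hd : Continuous (fun s => -deriv Φ s) := (h1.continuous_deriv le_rfl).neg
  have hdc : HasCompactSupport (fun s => -deriv Φ s) := hΦ.supp.deriv.neg
  have s1 := step h hN (fun i => lift2 (p i)) a hd hdc
  have s2 : ∀ t : ℝ, ∫ s in Ioi t, -deriv Φ s = Φ t := by
    intro t
    rw [integral_neg, hΦ.supp.integral_Ioi_deriv_eq h1 t, neg_neg]
  simp only [s2] at s1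
  have s3 := step h hN p a hΦ.smooth.continuous hΦ.supp
  change ∫ x : Fin (n + 2 + 2) → ℝ, -deriv Φ (gm (fun i => lift2 (lift2 (p i))) a x) = _
  rw [s1, s3]
  ring

end Pool.Agent.Lib.MP_0c1c75_co.Few
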