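import Mathlib

/-!
MP_0c1c75_co (Kneser-Poulsen for intersections of balls), the case `N ≤ d + 4` (helper55).
Definitions and the statements of all modules, as Props, with proofs in the docstrings.
Full paper proof: note 743 on MP_0c1c75_co.
-/

open MeasureTheory Set
open scoped ContDiff

namespace Pool.Agent.Lib.MP_0c1c75_co.Few

/-- profile: smooth, compactly supported, nonnegative -/
structure Prof (Φ : ℝ → ℝ) : Prop where
  smooth : ContDiff ℝ ∞ Φ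
  supp : HasCompactSupport Φ
  nonneg : ∀ s, 0 ≤ Φ s

/-- `max_i (|x - P_i|^2 - a_i)` -/
noncomputable def gm {N n : ℕ} (P : Fin N → Fin n → ℝ) (a : Fin N → ℝ) (x : Fin n → ℝ) : ℝ :=
  ⨆ i, (∑ k, (x k - P i k) ^ 2 - a i)

/-- append two zero coordinates (in front) -/
def lift2 {n : ℕ} (x : Fin n → ℝ) : Fin (n + 2) → ℝ := Fin.cons 0 (Fin.cons 0 x)

/-- append four zero coordinates (in front) -/
def lift4 {n : ℕ} (x : Fin n → ℝ) : Fin (n + 4) → ℝ := lift2 (lift2 x)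

/-- `q_A(t) = tᵀ A t / 4` -/
noncomputable def qf {N : ℕ} (A : Matrix (Fin N) (Fin N) ℝ) (t : Fin N → ℝ) : ℝ :=
  (1 / 4) * (t ⬝ᵥ A.mulVec t)

/-- `M(t) = max_i (t_i - b_i)` -/
noncomputable def mx {N : ℕ} (b t : Fin N → ℝ) : ℝ := ⨆ i, (t i - b i)

/-- the integral in Gram coordinates (`A = Γ⁻¹`) -/
noncomputable def J {N : ℕ} (Φ : ℝ → ℝ) (b : Fin N → ℝ) (Γ : Matrix (Fin N) (Fin N) ℝ) : ℝ :=
  ∫ t, (Real.sqrt Γ.det)⁻¹ * -deriv Φ (qf Γ⁻¹ t + mx b t)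

/-- the integrand of the derivative with respect to `Γ_ij` (without the determinant), `A = Γ⁻¹` -/
noncomputable def kint {N : ℕ} (Φ : ℝ → ℝ) (A : Matrix (Fin N) (Fin N) ℝ) (b : Fin N → ℝ)
    (i j : Fin N) (t : Fin N → ℝ) : ℝ :=
  (1 / 4) * deriv (deriv Φ) (qf A t + mx b t) * A.mulVec t i * A.mulVec t j +
    (1 / 2) * deriv Φ (qf A t + mx b t) * A i j

/-- the point `b + z (1,…,1) - (0,0,u)` of the wall -/
def wv {n : ℕ} (b : Fin (n + 2) → ℝ) (z : ℝ) (u : Fin n → ℝ) : Fin (n + 2) → ℝ :=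
  fun i => b i + z - lift2 u i

/-! ## Module Polar2 -/

/-- Radial integrals in the plane.
(1) `∫_{ℝ²} f(t+x²+y²) = π ∫_t^∞ f` (polar coordinates `integral_comp_polarCoord_symm`,
`r dr = dh/2`).
(2) For `Φ` in `C_c^1`, `Φ ≥ 0`, `m ≥ 2`, `c > 0`:
`∫_{ℝ²} -Φ'(κ+x²+y²) (s₀+cy)_+^m ≥ 0`. Proof: `w y = (s₀+cy)_+^m` is `C¹` with nondecreasing
derivative. By the symmetry `y ↦ -y` replace `w` by the even function `W = (w y + w (-y))/2`, whose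
derivative is `≥ 0` for `y ≥ 0` and `≤ 0` for `y ≤ 0`. Polar coordinates: for every angle `α`,
`∫_0^∞ -Φ'(κ+r²) W(r sin α) r dr = Φ(κ) W(0)/2 + (1/2) ∫_0^∞ Φ(κ+r²) sin α W'(r sin α) dr ≥ 0`
(the derivative of `Φ(κ+r²) W(r sin α)` integrates to `-Φ(κ) W(0)` over `(0,∞)`). -/
def Polar2Stmt : Prop :=
  (∀ f : ℝ → ℝ, Continuous f → HasCompactSupport f → ∀ t : ℝ,
    ∫ z : ℝ × ℝ, f (z.1 ^ 2 + (z.2 ^ 2 + t)) = Real.pi * ∫ s in Ioi t, f s) ∧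
  (∀ Φ : ℝ → ℝ, Prof Φ → ∀ (κ s₀ c : ℝ) (m : ℕ), 2 ≤ m → 0 < c →
    0 ≤ ∫ z : ℝ × ℝ, -deriv Φ (κ + z.1 ^ 2 + z.2 ^ 2) * (max (s₀ + c * z.2) 0) ^ m)

/-! ## Module Plane -/

/-- Positive definite quadratic polynomial `F` in two variables. From `Polar2Stmt` (2): complete
the squares, `F z s = α (z + (β s + l)/α)² + γ' (s - s₀)² + κ` with `γ' = γ - β²/α > 0`; for fixed `s`
translate `z`; substitute `z = x/√α`, `s = s₀ + y/√γ'`. (Also state integrability by compact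
support: `F → ∞`.) -/
def PlaneStmt : Prop :=
  ∀ Φ : ℝ → ℝ, Prof Φ → ∀ (α β γ l μ ν : ℝ) (m : ℕ), 2 ≤ m → 0 < α → β ^ 2 < α * γ →
    0 ≤ ∫ s in Ioi (0 : ℝ), ∫ z : ℝ,
      -deriv Φ (α * z ^ 2 + 2 * β * z * s + γ * s ^ 2 + 2 * l * z + 2 * μ * s + ν) * s ^ m

/-! ## Module ConeInt -/

/-- Integration over the orthant in the coordinates `u = s (1, v)`, `du = s^k ds dv`. For
`F : ℝ → (Fin (k+1) → ℝ) → ℝ` continuous with compact support: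
`∫_z ∫_{u>0} F z u = ∫_{v>0} ∫_{s>0} ∫_z F z (s, s v) s^k`. (Split `u = cons s u'` with
`volume_preserving_piFinSuccAbove`, substitute `u' = s v` by `Measure.integral_comp_smul`, Fubini;
integrability by `integrable_prod_iff` and the same substitution for the norm.) -/
def ConeIntStmt : Prop :=
  ∀ (k : ℕ) (F : ℝ × (Fin (k + 1) → ℝ) → ℝ), Continuous F → HasCompactSupport F →
    ∫ z : ℝ, ∫ u in {u : Fin (k + 1) → ℝ | ∀ i, 0 < u i}, F (z, u) =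
      ∫ v in {v : Fin k → ℝ | ∀ i, 0 < v i}, ∫ s in Ioi (0 : ℝ), ∫ z : ℝ,
        F (z, s • (Fin.cons 1 v : Fin (k + 1) → ℝ)) * s ^ k

/-! ## Module Cone -/

/-- Positivity for the cone times a line. From `PlaneStmt` and `ConeIntStmt` (`n = k + 1`,
`m = k = n - 1 ≥ 2`): with `u = s e`, `e = (1, v)`, `f = (0,0,e)`, `o = (1,…,1)`:
`qf A (b + z o - s f) + z` is a quadratic polynomial in `(z,s)` with `α = oAo/4 > 0`,
`β = -oAf/4`, `γ = fAf/4`, `β² < αγ` because `A` is positive definite and `o`, `f` are linearly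
independent. The function `(z,u) ↦ deriv Φ (…)` is continuous with compact support, because `qf A w`
is at least `c |w|²` and `(z,u) ↦ wv b z u` is proper. -/
def ConeStmt : Prop :=
  ∀ (n : ℕ), 3 ≤ n → ∀ Φ : ℝ → ℝ, Prof Φ → ∀ (A : Matrix (Fin (n + 2)) (Fin (n + 2)) ℝ),
    A.PosDef → ∀ b : Fin (n + 2) → ℝ,
    0 ≤ ∫ z : ℝ, ∫ u in {u : Fin n → ℝ | ∀ i, 0 < u i}, -deriv Φ (qf A (wv b z u) + z)

/-! ## Module Ftc2 -/

/-- Two integrations in the plane. `E x y = q(x,y) + max (x-a) (max (y-b) c)`, `q` a positive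
definite quadratic polynomial. For fixed `y`, `x₀ = a + max (y-b) c`: on `x ≤ x₀` the integrand is the
`x`-derivative of `Φ'(q + max (y-b) c) q_y`, on `x > x₀` the `x`-derivative of `Φ'(q+x-a) q_y` minus
`Φ''(q+x-a) q_y`; the boundary terms at `x₀` cancel
(`integral_Ioi_of_hasDerivAt_of_tendsto`, `integral_Iic_of_hasDerivAt_of_tendsto`), so
`∫_x = -∫_{x>x₀(y)} Φ''(q+x-a) q_y dx`. Swap: `x > a+c`, `y < x-a+b`; the inner integral is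
`Φ'(q(x,x-a+b)+x-a)`; `z = x - a`. -/
def Ftc2Stmt : Prop :=
  ∀ Φ : ℝ → ℝ, Prof Φ → ∀ (α β γ l μ ν a b c : ℝ), 0 < α → β ^ 2 < α * γ →
    let q : ℝ → ℝ → ℝ := fun x y => α * x ^ 2 + 2 * β * x * y + γ * y ^ 2 + 2 * l * x + 2 * μ * y + ν
    ∫ y : ℝ, ∫ x : ℝ,
        (deriv (deriv Φ) (q x y + max (x - a) (max (y - b) c)) *
            (2 * α * x + 2 * β * y + 2 * l) * (2 * β * x + 2 * γ * y + 2 * μ) +
          deriv Φ (q x y + max (x - a) (max (y - b) c)) * (2 * β)) =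
      ∫ z in Ioi c, -deriv Φ (q (z + a) (z + b) + z)

/-! ## Module Wall -/

/-- From `Ftc2Stmt`: the integral over `ℝ^{n+2}` of `kint … 0 1` is the integral over the wall.
Split `t = cons x (cons y t')` (twice `volume_preserving_piFinSuccAbove`), Fubini (everything has
compact support, `kint` is bounded and measurable, in fact continuous); for fixed `t'` apply
`Ftc2Stmt` with `α = A₀₀/4`, `β = A₀₁/4`, `γ = A₁₁/4`, `a = b 0`, `b = b 1`,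
`c = max_k (t'_k - b_{k+2})`; then swap `z` and `t'` and substitute `t' = b' + z - u`, `u > 0`
(the set `{t' | max_k (t'_k - b'_k) < z}` becomes `{u | ∀ k, 0 < u k}`). -/
def WallStmt : Prop :=
  ∀ (n : ℕ), 1 ≤ n → ∀ Φ : ℝ → ℝ, Prof Φ → ∀ (A : Matrix (Fin (n + 2)) (Fin (n + 2)) ℝ),
    A.PosDef → ∀ b : Fin (n + 2) → ℝ,
    ∫ t, kint Φ A b 0 1 t =
      ∫ z : ℝ, ∫ u in {u : Fin n → ℝ | ∀ i, 0 < u i}, -deriv Φ (qf A (wv b z u) + z)

/-! ## Module Perm -/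

/-- From `WallStmt` and `ConeStmt`, for all pairs `i ≠ j`: choose a permutation `σ` with
`σ 0 = i`, `σ 1 = j`; `kint Φ A b i j t = kint Φ (A.submatrix σ σ) (b ∘ σ) 0 1 (t ∘ σ)` and
`t ↦ t ∘ σ` preserves the volume (`volume_measurePreserving_piCongrLeft` or similar);
`A.submatrix σ σ` is positive definite. -/
def PermStmt : Prop :=
  ∀ (N : ℕ), 5 ≤ N → ∀ Φ : ℝ → ℝ, Prof Φ → ∀ (A : Matrix (Fin N) (Fin N) ℝ),
    A.PosDef → ∀ b : Fin N → ℝ, ∀ i j : Fin N, i ≠ j → 0 ≤ ∫ t, kint Φ A b i j t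

/-! ## Module MatDeriv -/

/-- Derivatives of determinant and inverse along a line. (`det (M + (θ+r) H) =
det (M+θH) det (1 + r (M+θH)⁻¹H)` and `Matrix.det_one_add_smul`; the entries of the inverse are
differentiable (`Matrix.inv_def`, adjugate: polynomial entries), differentiate
`X(θ) (M+θH) = 1`.) And the lower bound for `qf Γ⁻¹`. -/
def MatDerivStmt : Prop :=
  (∀ (N : ℕ) (M H : Matrix (Fin N) (Fin N) ℝ) (θ : ℝ), (M + θ • H).det ≠ 0 →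
    HasDerivAt (fun s : ℝ => (M + s • H).det) ((M + θ • H).det * ((M + θ • H)⁻¹ * H).trace) θ ∧
    ∀ i j, HasDerivAt (fun s : ℝ => (M + s • H)⁻¹ i j)
      (-((M + θ • H)⁻¹ * H * (M + θ • H)⁻¹) i j) θ) ∧
  (∀ (N : ℕ) (Γ : Matrix (Fin N) (Fin N) ℝ) (Λ : ℝ), Γ.PosDef → 0 < Λ →
    (∀ t, t ⬝ᵥ Γ.mulVec t ≤ Λ * (t ⬝ᵥ t)) → ∀ t, (t ⬝ᵥ t) / (4 * Λ) ≤ qf Γ⁻¹ t)

/-! ## Module PathDeriv -/

/-- The derivative of the integrand along the straight path, from `MatDerivStmt`. With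
`Γ = M + θ H`, `A = Γ⁻¹`, `E = qf A t + w`: `d/dθ [(det Γ)^{-1/2} (-Φ'(E))] =
(det Γ)^{-1/2} [ (1/2) tr(AH) Φ'(E) + (1/4) Φ''(E) tᵀAHAt ]`. -/
def PathDerivStmt : Prop :=
  ∀ (N : ℕ) (Φ : ℝ → ℝ), Prof Φ → ∀ (M H : Matrix (Fin N) (Fin N) ℝ) (b t : Fin N → ℝ) (θ : ℝ),
    (M + θ • H).PosDef → H.IsSymm → M.IsSymm →
    HasDerivAt (fun s : ℝ => (Real.sqrt (M + s • H).det)⁻¹ *
        -deriv Φ (qf (M + s • H)⁻¹ t + mx b t))
      (∑ i, ∑ j, H i j * ((Real.sqrt (M + θ • H).det)⁻¹ * kint Φ (M + θ • H)⁻¹ b i j t)) θ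

/-! ## Module Path -/

/-- Monotonicity in Gram coordinates, from `PermStmt`, `PathDerivStmt`, `MatDerivStmt`.
`Γ_θ = Γ₀ + θ (Γ₁ - Γ₀)` is positive definite for `θ ∈ [0,1]` (and near it), `H = Γ₁ - Γ₀` has
zero diagonal and nonnegative entries. `J(Γ₁) - J(Γ₀) = ∫_t ∫_0^1 ∂_θ = ∫_0^1 ∫_t ∂_θ` (Fubini; the
integrand is continuous on `[0,1] × ℝ^N` and vanishes outside a compact set, uniformly in `θ`, by
`MatDerivStmt`.2 and `mx b t ≥ -|t| - |b|`) `≥ 0` termwise. -/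
def PathStmt : Prop :=
  ∀ (N : ℕ), 5 ≤ N → ∀ Φ : ℝ → ℝ, Prof Φ → ∀ (Γ₀ Γ₁ : Matrix (Fin N) (Fin N) ℝ),
    Γ₀.PosDef → Γ₁.PosDef → (∀ i, Γ₀ i i = Γ₁ i i) → (∀ i j, Γ₀ i j ≤ Γ₁ i j) →
    ∀ b : Fin N → ℝ, J Φ b Γ₀ ≤ J Φ b Γ₁

/-! ## Module Gram -/

/-- Gram coordinates `t = -2 P x`: `|x|² = qf (P Pᵀ)⁻¹ t`,
`|x - P_i|² - a_i = |x|² + t_i - (a_i - P_i·P_i)`, `|det (-2P)| = 2^N √(det (P Pᵀ))`
(`Real.map_matrix_volume_pi_eq_smul_volume_pi`). -/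
def GramStmt : Prop :=
  ∀ (N : ℕ), 0 < N → ∀ (Φ : ℝ → ℝ) (P : Matrix (Fin N) (Fin N) ℝ) (a : Fin N → ℝ), P.det ≠ 0 →
    (P * P.transpose).PosDef ∧
    ∫ x, -deriv Φ (gm P a x) =
      ((2 : ℝ) ^ N)⁻¹ * J Φ (fun i => a i - (P * P.transpose) i i) (P * P.transpose)

/-! ## Module Core -/

/-- The core inequality, from `PathStmt` and `GramStmt`. -/
def CoreStmt : Prop :=
  ∀ (N : ℕ), 5 ≤ N → ∀ Φ : ℝ → ℝ, Prof Φ → ∀ (P Q : Matrix (Fin N) (Fin N) ℝ),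
    P.det ≠ 0 → Q.det ≠ 0 → (∀ i, P i ⬝ᵥ P i = Q i ⬝ᵥ Q i) → (∀ i j, P i ⬝ᵥ P j ≤ Q i ⬝ᵥ Q j) →
    ∀ a : Fin N → ℝ, ∫ x, -deriv Φ (gm P a x) ≤ ∫ x, -deriv Φ (gm Q a x)

/-! ## Module Cont -/

/-- Continuity of the integral in the centres (dominated convergence: for centres in a bounded set
`gm P a x ≥ |x|²/2 - C`), and translation invariance. -/
def ContStmt : Prop :=
  ∀ (N n : ℕ), 0 < N → ∀ (a : Fin N → ℝ) (f : ℝ → ℝ), Continuous f → HasCompactSupport f →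
    Continuous (fun P : Fin N → Fin n → ℝ => ∫ x, f (gm P a x)) ∧
    ∀ (P : Fin N → Fin n → ℝ) (c : Fin n → ℝ),
      ∫ x, f (gm (fun i => P i - c) a x) = ∫ x, f (gm P a x)

/-! ## Module Approx -/

/-- Approximation by linearly independent families of equal norms. With `h > 0` large and then
`ε' > 0` small put `X_i = lift4 (p i) + h e_0 + ε' e_i` (`e_0, e_i` standard basis vectors of
`ℝ^{d+4}`), `P_i = (h / |X_i|) X_i`, `c = h e_0`; the same for `q`. All norms are `h`.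
For `ε' = 0`: `|X_i|² = h² + |p_i|²`, `h/|X_i| → 1`, `h (1 - h/|X_i|) ≤ |p_i|²/(2h) → 0`, so
`P_i - c → lift4 (p i)` as `h → ∞`; fix `h` so that the errors are `< ε/2` and the strict
inequalities of distances hold for `P`, `Q` (at `ε' = 0`); they persist for small `ε'` by
continuity; `det (X_i) = det (M + ε' 1)` vanishes for finitely many `ε'` only (charpoly). Equal
norms and `|Q_i - Q_j| ≤ |P_i - P_j|` give `P_i·P_j ≤ Q_i·Q_j`. -/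
def ApproxStmt : Prop :=
  ∀ (d : ℕ) (p q : Fin (d + 4) → Fin d → ℝ),
    (∀ i j, i ≠ j → ∑ k, (q i k - q j k) ^ 2 < ∑ k, (p i k - p j k) ^ 2) → ∀ ε : ℝ, 0 < ε →
    ∃ (P Q : Matrix (Fin (d + 4)) (Fin (d + 4)) ℝ) (c : Fin (d + 4) → ℝ), P.det ≠ 0 ∧ Q.det ≠ 0 ∧
      (∀ i, P i ⬝ᵥ P i = Q i ⬝ᵥ Q i) ∧ (∀ i j, P i ⬝ᵥ P j ≤ Q i ⬝ᵥ Q j) ∧
      (∀ i k, |P i k - c k - lift4 (p i) k| < ε) ∧ (∀ i k, |Q i k - c k - lift4 (q i) k| < ε)

/-! ## Module Lift -/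

/-- Lifting by four dimensions, from `Polar2Stmt` (1) used twice. First for one step: for `f`
continuous with compact support and `F t = ∫ s in Ioi t, f s`:
`∫_{ℝ^{n+2}} f (gm (lift2 ∘ p) a) = π ∫_{ℝ^n} F (gm p a)`, because
`gm (lift2 ∘ p) a (cons x (cons y z)) = x² + (y² + gm p a z)`. Apply it with `f = -Φ'`, `F = Φ`, and
with `f = Φ`. -/
def LiftStmt : Prop :=
  ∀ (N n : ℕ), 0 < N → ∀ Φ : ℝ → ℝ, Prof Φ → ∀ (p : Fin N → Fin n → ℝ) (a : Fin N → ℝ),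
    ∫ x, -deriv Φ (gm (fun i => lift4 (p i)) a x) =
      Real.pi ^ 2 * ∫ x, ∫ s in Ioi (gm p a x), Φ s

/-! ## Module Strict -/

/-- The inequality in `ℝ^d` for strict contractions, from `CoreStmt`, `ContStmt`, `ApproxStmt`,
`LiftStmt`. -/
def StrictStmt : Prop :=
  ∀ (d : ℕ), 1 ≤ d → ∀ (p q : Fin (d + 4) → Fin d → ℝ),
    (∀ i j, i ≠ j → ∑ k, (q i k - q j k) ^ 2 < ∑ k, (p i k - p j k) ^ 2) →
    ∀ (a : Fin (d + 4) → ℝ) (Φ : ℝ → ℝ), Prof Φ →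
      ∫ x, ∫ s in Ioi (gm p a x), Φ s ≤ ∫ x, ∫ s in Ioi (gm q a x), Φ s

/-! ## Module Final -/

/-- From `StrictStmt`. (1) For strict contractions in `EuclideanSpace ℝ (Fin d)`, `d ≥ 1`,
`N = d+4`, radii `≥ 0`, `a_i = r_i²`: take `Φ_m` a normed `ContDiffBump` (integral one) with support in
`(0,1/m)`; `ψ_m t = ∫_{Ioi t} Φ_m` is `1` for `t ≤ 0`, `0` for `t ≥ 1/m`; so
`vol {gm p a ≤ 0} ≤ ∫ ψ_m (gm p a) ≤ ∫ ψ_m (gm q a) ≤ vol {gm q a ≤ 1/m}`, `m → ∞` (continuity from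
above, bounded sets). (2) A contraction `q` of `p` is a limit of strict ones: `p^δ_i = (1+δ) p_i +
η v_i`, `v_i` distinct, `η` small compared with `δ`; `B(p_i, r_i) ⊆ B(p^δ_i, r_i + τ)`, so
`vol ∩B(p_i,r_i) ≤ vol ∩B(p^δ_i, r_i+τ) ≤ vol ∩B(q_i, r_i+τ)`, `τ → 0`. (3) `N ≤ d+4`, `N > 0`: repeat
the first ball (surjection `Fin (d+4) → Fin N`). `N = 0`: trivial; `d = 0`: `E 0` is a point. Some
`r i < 0`: the left side is empty. -/
def FinalStmt : Prop :=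
  ∀ (d N : ℕ), N ≤ d + 4 → ∀ (p q : Fin N → EuclideanSpace ℝ (Fin d)) (r : Fin N → ℝ),
    (∀ i j, dist (q i) (q j) ≤ dist (p i) (p j)) →
    volume (⋂ i, Metric.closedBall (p i) (r i)) ≤ volume (⋂ i, Metric.closedBall (q i) (r i))

end Pool.Agent.Lib.MP_0c1c75_co.Few
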