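import Mathlib
import Pool.Agent.Lib.MP_0c1c75_co.FewSpec

/-! Derivatives of determinant and inverse along a line, and a lower bound for the form of the
inverse of a positive definite matrix. -/

set_option autoImplicit false

namespace Pool.Agent.Lib.MP_0c1c75_co.Few.MatDeriv

open Matrix

variable {N : ℕ}

lemma hasDerivAt_det_one (K : Matrix (Fin N) (Fin N) ℝ) :
    HasDerivAt (fun r : ℝ => (1 + r • K).det) K.trace 0 := by
  set p := (Matrix.det (1 + (Polynomial.X : Polynomial ℝ) • K.map Polynomial.C)).divX.divX with hp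
  have h0 : (fun r : ℝ => (1 + r • K).det) = fun r => 1 + K.trace * r + p.eval r * r ^ 2 := by
    funext r
    exact Matrix.det_one_add_smul r K
  rw [h0]
  have h1 : HasDerivAt (fun r : ℝ => 1 + K.trace * r) K.trace 0 := by
    simpa using ((hasDerivAt_id (0 : ℝ)).const_mul K.trace).const_add 1
  have h2 : HasDerivAt (fun r : ℝ => p.eval r * r ^ 2) 0 0 := by
    refine ((p.hasDerivAt (0 : ℝ)).fun_mul (hasDerivAt_pow 2 (0 : ℝ))).congr_deriv ?_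
    simp
  exact (h1.fun_add h2).congr_deriv (add_zero _)

lemma hasDerivAt_det (M H : Matrix (Fin N) (Fin N) ℝ) (θ : ℝ) (h : (M + θ • H).det ≠ 0) :
    HasDerivAt (fun s : ℝ => (M + s • H).det) ((M + θ • H).det * ((M + θ • H)⁻¹ * H).trace) θ := by
  set Y := M + θ • H with hY
  have hu : IsUnit Y.det := isUnit_iff_ne_zero.mpr h
  have h1 : (fun s : ℝ => (M + s • H).det) = fun s => Y.det * (1 + (s - θ) • (Y⁻¹ * H)).det := by
    funext s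
    rw [← Matrix.det_mul, mul_add, mul_one, mul_smul_comm, ← mul_assoc, Matrix.mul_nonsing_inv _ hu,
      one_mul, hY, add_assoc, ← add_smul, add_sub_cancel]
  rw [h1]
  have h2 : HasDerivAt (fun s : ℝ => (1 + (s - θ) • (Y⁻¹ * H)).det) (Y⁻¹ * H).trace θ := by
    have h3 : HasDerivAt (fun s : ℝ => s - θ) 1 θ := (hasDerivAt_id θ).sub_const θ
    have h4 : HasDerivAt (fun r : ℝ => (1 + r • (Y⁻¹ * H)).det) (Y⁻¹ * H).trace (θ - θ) := by
      rw [sub_self]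
      exact hasDerivAt_det_one (Y⁻¹ * H)
    have h5 := HasDerivAt.comp (h₂ := fun r : ℝ => (1 + r • (Y⁻¹ * H)).det)
      (h := fun s : ℝ => s - θ) θ h4 h3
    rw [mul_one] at h5
    exact h5
  exact h2.const_mul _

section inv

attribute [local instance] Matrix.linftyOpNormedRing Matrix.linftyOpNormedAlgebra

lemma hasDerivAt_inv (M H : Matrix (Fin N) (Fin N) ℝ) (θ : ℝ) (h : (M + θ • H).det ≠ 0)
    (i j : Fin N) :
    HasDerivAt (fun s : ℝ => (M + s • H)⁻¹ i j)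
      (-((M + θ • H)⁻¹ * H * (M + θ • H)⁻¹) i j) θ := by
  have hu : IsUnit (M + θ • H) := (Matrix.isUnit_iff_isUnit_det _).mpr (isUnit_iff_ne_zero.mpr h)
  obtain ⟨Y, hY⟩ := hu
  have : CompleteSpace (Matrix (Fin N) (Fin N) ℝ) := FiniteDimensional.complete ℝ _
  have h1 := hasFDerivAt_ringInverse (𝕜 := ℝ) Y
  have h2 : HasDerivAt (fun s : ℝ => M + s • H) H θ := by
    have h0 := ((hasDerivAt_id θ).smul_const H).const_add M
    rw [one_smul] at h0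
    exact h0
  rw [hY] at h1
  have h3 := HasFDerivAt.comp_hasDerivAt θ h1 h2
  have h4 := ((Matrix.entryLinearMap ℝ ℝ i j).toContinuousLinearMap.hasFDerivAt).comp_hasDerivAt θ h3
  have hYi : ((Y⁻¹ : (Matrix (Fin N) (Fin N) ℝ)ˣ) : Matrix (Fin N) (Fin N) ℝ) =
      (M + θ • H)⁻¹ := by
    rw [← hY, Matrix.coe_units_inv]
  simp only [hYi] at h4
  refine (h4.congr_deriv ?_).congr_of_eventuallyEq (Filter.Eventually.of_forall fun s => ?_)
  · change (-((M + θ • H)⁻¹ * H * (M + θ • H)⁻¹)) i j = -((M + θ • H)⁻¹ * H * (M + θ • H)⁻¹) i j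
    rfl
  · change (M + s • H)⁻¹ i j = Ring.inverse (M + s • H) i j
    rw [Matrix.nonsing_inv_eq_ringInverse]

end inv

lemma lower (Γ : Matrix (Fin N) (Fin N) ℝ) (Λ : ℝ) (hΓ : Γ.PosDef) (hΛ : 0 < Λ)
    (hle : ∀ t, t ⬝ᵥ Γ.mulVec t ≤ Λ * (t ⬝ᵥ t)) (t : Fin N → ℝ) :
    (t ⬝ᵥ t) / (4 * Λ) ≤ qf Γ⁻¹ t := by
  have hdet : IsUnit Γ.det := (Matrix.isUnit_iff_isUnit_det _).mp hΓ.isUnit
  have hsymm : Γᵀ = Γ := by
    have := hΓ.isHermitian
    rwa [Matrix.IsHermitian, Matrix.conjTranspose_eq_transpose_of_trivial] at this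
  set u := Γ⁻¹.mulVec t with hu
  have hΓu : Γ.mulVec u = t := by
    rw [hu, Matrix.mulVec_mulVec, Matrix.mul_nonsing_inv _ hdet, Matrix.one_mulVec]
  have h1 : 0 ≤ (u - Λ⁻¹ • t) ⬝ᵥ Γ.mulVec (u - Λ⁻¹ • t) := by
    have := hΓ.posSemidef.dotProduct_mulVec_nonneg (u - Λ⁻¹ • t)
    simpa using this
  have h2 : u ⬝ᵥ Γ.mulVec t = t ⬝ᵥ t := by
    rw [Matrix.dotProduct_mulVec, ← Matrix.mulVec_transpose, hsymm, hΓu]
  have h3 : (u - Λ⁻¹ • t) ⬝ᵥ Γ.mulVec (u - Λ⁻¹ • t) =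
      t ⬝ᵥ u - 2 * Λ⁻¹ * (t ⬝ᵥ t) + Λ⁻¹ ^ 2 * (t ⬝ᵥ Γ.mulVec t) := by
    rw [Matrix.mulVec_sub, Matrix.mulVec_smul, hΓu, sub_dotProduct, dotProduct_sub, dotProduct_sub,
      smul_dotProduct, smul_dotProduct, dotProduct_smul, dotProduct_smul, h2, dotProduct_comm u t]
    simp only [smul_eq_mul]
    ring
  rw [h3] at h1
  have h4 : Λ⁻¹ ^ 2 * (t ⬝ᵥ Γ.mulVec t) ≤ Λ⁻¹ ^ 2 * (Λ * (t ⬝ᵥ t)) :=
    mul_le_mul_of_nonneg_left (hle t) (by positivity)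
  have h5 : Λ⁻¹ ^ 2 * (Λ * (t ⬝ᵥ t)) = Λ⁻¹ * (t ⬝ᵥ t) := by
    field_simp
  have h6 : Λ⁻¹ * (t ⬝ᵥ t) ≤ t ⬝ᵥ u := by linarith
  have h7 : (t ⬝ᵥ t) / (4 * Λ) = (1 / 4) * (Λ⁻¹ * (t ⬝ᵥ t)) := by
    field_simp
  rw [h7, qf, ← hu]
  linarith

end Pool.Agent.Lib.MP_0c1c75_co.Few.MatDeriv

namespace Pool.Agent.Lib.MP_0c1c75_co.Few

theorem matDerivStmt : MatDerivStmt :=
  ⟨fun _ M H θ h => ⟨MatDeriv.hasDerivAt_det M H θ h, MatDeriv.hasDerivAt_inv M H θ h⟩,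
    fun _ Γ Λ hΓ hΛ hle => MatDeriv.lower Γ Λ hΓ hΛ hle⟩

end Pool.Agent.Lib.MP_0c1c75_co.Few
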