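import Pool.Agent.Lib.MP_0c1c75_co.FewSpec

/-!
MP_0c1c75_co, module PathDeriv (helper45): the derivative of the integrand along the straight path.
-/

open MeasureTheory Set Matrix
open scoped ContDiff

namespace Pool.Agent.Lib.MP_0c1c75_co.Few.PathDeriv

/-- derivative of `qf (X s) t` from the derivatives of the entries -/
lemma hasDerivAt_qf {N : ℕ} (X : ℝ → Matrix (Fin N) (Fin N) ℝ) (Y : Matrix (Fin N) (Fin N) ℝ)
    (t : Fin N → ℝ) (θ : ℝ) (h : ∀ i j, HasDerivAt (fun s => X s i j) (Y i j) θ) :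
    HasDerivAt (fun s => qf (X s) t) (qf Y t) θ := by
  unfold qf
  refine HasDerivAt.const_mul _ ?_
  unfold dotProduct Matrix.mulVec dotProduct
  refine HasDerivAt.fun_sum fun i _ => ?_
  refine HasDerivAt.const_mul _ ?_
  refine HasDerivAt.fun_sum fun j _ => ?_
  exact (h i j).mul_const _

/-- derivative of the inverse square root of the determinant -/
lemma hasDerivAt_isqrt (f : ℝ → ℝ) (d tr θ : ℝ) (hd : 0 < d) (hf : f θ = d)
    (h : HasDerivAt f (d * tr) θ) :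
    HasDerivAt (fun s => (Real.sqrt (f s))⁻¹) (-(1 / 2) * (Real.sqrt d)⁻¹ * tr) θ := by
  have hs : Real.sqrt d ≠ 0 := (Real.sqrt_pos.2 hd).ne'
  have h1 : HasDerivAt (fun s => Real.sqrt (f s)) (d * tr / (2 * Real.sqrt (f θ))) θ :=
    h.sqrt (by rw [hf]; exact hd.ne')
  have h2 := h1.fun_inv (by rw [hf]; exact hs)
  refine h2.congr_deriv ?_
  rw [hf]
  have hsq : Real.sqrt d ^ 2 = d := Real.sq_sqrt hd.le
  have : d * tr = Real.sqrt d ^ 2 * tr := by rw [hsq]
  rw [this]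
  field_simp

/-- `tᵀ A H A t = ∑ H_ij (At)_i (At)_j` -/
lemma quad_identity {N : ℕ} (A H : Matrix (Fin N) (Fin N) ℝ) (hA : A.IsSymm) (t : Fin N → ℝ) :
    t ⬝ᵥ (A * H * A).mulVec t = ∑ i, ∑ j, H i j * (A.mulVec t i * A.mulVec t j) := by
  have h1 : (A * H * A).mulVec t = A.mulVec (H.mulVec (A.mulVec t)) := by
    rw [Matrix.mulVec_mulVec, Matrix.mulVec_mulVec, Matrix.mul_assoc]
  rw [h1, Matrix.dotProduct_mulVec]
  have h2 : Matrix.vecMul t A = A.mulVec t := by
    rw [← Matrix.mulVec_transpose, hA.eq]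
  rw [h2]
  show ∑ i, A.mulVec t i * (∑ j, H i j * A.mulVec t j) = _
  refine Finset.sum_congr rfl fun i _ => ?_
  rw [Finset.mul_sum]
  refine Finset.sum_congr rfl fun j _ => ?_
  ring

/-- `tr (A H) = ∑ H_ij A_ij` -/
lemma trace_identity {N : ℕ} (A H : Matrix (Fin N) (Fin N) ℝ) (hH : H.IsSymm) :
    (A * H).trace = ∑ i, ∑ j, H i j * A i j := by
  unfold Matrix.trace
  simp only [Matrix.diag_apply, Matrix.mul_apply]
  refine Finset.sum_congr rfl fun i _ => Finset.sum_congr rfl fun j _ => ?_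
  rw [hH.apply i j, mul_comm]

lemma qf_neg {N : ℕ} (Y : Matrix (Fin N) (Fin N) ℝ) (t : Fin N → ℝ) :
    qf (-Y) t = -((1 / 4) * (t ⬝ᵥ Y.mulVec t)) := by
  unfold qf
  rw [Matrix.neg_mulVec, dotProduct_neg]
  ring

end Pool.Agent.Lib.MP_0c1c75_co.Few.PathDeriv

namespace Pool.Agent.Lib.MP_0c1c75_co.Few

open PathDeriv

theorem pathDerivStmt (h : MatDerivStmt) : PathDerivStmt := by
  intro N Φ hΦ M H b t θ hpd hH hM
  have hdet : 0 < (M + θ • H).det := hpd.det_pos
  obtain ⟨hd, hX⟩ := h.1 N M H θ hdet.ne'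
  set A : Matrix (Fin N) (Fin N) ℝ := (M + θ • H)⁻¹ with hAdef
  have hG : (M + θ • H).IsSymm := by
    unfold Matrix.IsSymm
    rw [Matrix.transpose_add, Matrix.transpose_smul, hM.eq, hH.eq]
  have hA : A.IsSymm := by
    unfold Matrix.IsSymm
    rw [hAdef, Matrix.transpose_nonsing_inv, hG.eq]
  have h1 := hasDerivAt_isqrt (fun s : ℝ => (M + s • H).det) _ _ θ hdet rfl hd
  have h2 : HasDerivAt (fun s : ℝ => qf (M + s • H)⁻¹ t + mx b t)
      (-((1 / 4) * (t ⬝ᵥ (A * H * A).mulVec t))) θ := by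
    have := hasDerivAt_qf (fun s : ℝ => (M + s • H)⁻¹) (-(A * H * A)) t θ
      (fun i j => by simpa using hX i j)
    rw [qf_neg] at this
    exact this.add_const _
  have hΦ1 : ContDiff ℝ ∞ (deriv Φ) := by
    have := hΦ.smooth
    exact (contDiff_infty_iff_deriv.1 this).2
  have hΦ2 : Differentiable ℝ (deriv Φ) := hΦ1.differentiable (by simp)
  have h3 : HasDerivAt (fun s : ℝ => -deriv Φ (qf (M + s • H)⁻¹ t + mx b t))
      (-(deriv (deriv Φ) (qf A t + mx b t) * -((1 / 4) * (t ⬝ᵥ (A * H * A).mulVec t)))) θ := by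
    have h4 : HasDerivAt (deriv Φ) (deriv (deriv Φ) (qf A t + mx b t))
        (qf (M + θ • H)⁻¹ t + mx b t) := by
      rw [← hAdef]
      exact (hΦ2 _).hasDerivAt
    exact (HasDerivAt.comp θ h4 h2).fun_neg
  have h5 := h1.fun_mul h3
  refine h5.congr_deriv ?_
  have hsum : ∑ i, ∑ j, H i j * ((Real.sqrt (M + θ • H).det)⁻¹ * kint Φ A b i j t) =
      (Real.sqrt (M + θ • H).det)⁻¹ * ((1 / 4) * deriv (deriv Φ) (qf A t + mx b t) *
        (∑ i, ∑ j, H i j * (A.mulVec t i * A.mulVec t j)) +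
        (1 / 2) * deriv Φ (qf A t + mx b t) * ∑ i, ∑ j, H i j * A i j) := by
    simp only [kint, Finset.mul_sum, ← Finset.sum_add_distrib, mul_add]
    refine Finset.sum_congr rfl fun i _ => Finset.sum_congr rfl fun j _ => ?_
    ring
  rw [hsum, ← quad_identity A H hA t, ← trace_identity A H hH]
  ring

end Pool.Agent.Lib.MP_0c1c75_co.Few
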