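import Pool.Agent.Lib.MP_0c1c75_co.FewSpec

/-!
MP_0c1c75_co, few balls, module Perm (helper94): permutation of the coordinates.
-/

open MeasureTheory Set

namespace Pool.Agent.Lib.MP_0c1c75_co.Few.Perm

open Pool.Agent.Lib.MP_0c1c75_co.Few

theorem exists_perm {N : ℕ} {a b i j : Fin N} (hab : a ≠ b) (hij : i ≠ j) :
    ∃ σ : Equiv.Perm (Fin N), σ a = i ∧ σ b = j := by
  refine ⟨Equiv.swap (Equiv.swap a i b) j * Equiv.swap a i, ?_, ?_⟩
  · rw [Equiv.Perm.mul_apply, Equiv.swap_apply_left]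
    apply Equiv.swap_apply_of_ne_of_ne _ hij
    intro h
    have h2 := congrArg (Equiv.swap a i) h
    rw [Equiv.swap_apply_right, Equiv.swap_apply_self] at h2
    exact hab h2
  · rw [Equiv.Perm.mul_apply, Equiv.swap_apply_left]

theorem mulVec_perm {N : ℕ} (A : Matrix (Fin N) (Fin N) ℝ) (σ : Equiv.Perm (Fin N))
    (t : Fin N → ℝ) :
    (A.submatrix σ σ).mulVec (t ∘ σ) = A.mulVec t ∘ σ := by
  rw [Matrix.submatrix_mulVec_equiv]
  congr 2
  funext k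
  simp

theorem qf_perm {N : ℕ} (A : Matrix (Fin N) (Fin N) ℝ) (σ : Equiv.Perm (Fin N))
    (t : Fin N → ℝ) : qf (A.submatrix σ σ) (t ∘ σ) = qf A t := by
  unfold qf
  rw [mulVec_perm, comp_equiv_dotProduct_comp_equiv]

theorem mx_perm {N : ℕ} (b : Fin N → ℝ) (σ : Equiv.Perm (Fin N)) (t : Fin N → ℝ) :
    mx (b ∘ σ) (t ∘ σ) = mx b t := by
  unfold mx
  exact Equiv.iSup_comp (g := fun i => t i - b i) σ

theorem kint_perm {N : ℕ} (Φ : ℝ → ℝ) (A : Matrix (Fin N) (Fin N) ℝ) (b : Fin N → ℝ)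
    (σ : Equiv.Perm (Fin N)) (u v : Fin N) (t : Fin N → ℝ) :
    kint Φ (A.submatrix σ σ) (b ∘ σ) u v (t ∘ σ) = kint Φ A b (σ u) (σ v) t := by
  unfold kint
  rw [qf_perm, mx_perm, mulVec_perm]
  rfl

theorem integral_perm {N : ℕ} (σ : Equiv.Perm (Fin N)) (F : (Fin N → ℝ) → ℝ) :
    ∫ t, F (t ∘ σ) = ∫ t, F t := by
  have h := (volume_measurePreserving_piCongrLeft (fun _ : Fin N => ℝ) σ.symm).integral_comp' F
  rw [← h]
  congr 1
  funext t
  congr 1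
  funext k
  have h2 := Equiv.piCongrLeft_apply_apply (fun _ : Fin N => ℝ) σ.symm t (σ k)
  rw [Equiv.symm_apply_apply] at h2
  exact h2.symm

end Pool.Agent.Lib.MP_0c1c75_co.Few.Perm

namespace Pool.Agent.Lib.MP_0c1c75_co.Few

/-- all pairs of indices -/
theorem permStmt (h1 : WallStmt) (h2 : ConeStmt) : PermStmt := by
  intro N hN Φ hΦ A hA b i j hij
  obtain ⟨n, rfl⟩ : ∃ n, N = n + 2 := ⟨N - 2, by omega⟩
  obtain ⟨σ, h0, h1'⟩ := Perm.exists_perm (a := (0 : Fin (n + 2))) (b := 1) (i := i) (j := j)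
    (by simp) hij
  have hA' : (A.submatrix σ σ).PosDef := hA.submatrix σ.injective
  have key : ∫ t, kint Φ A b i j t = ∫ t, kint Φ (A.submatrix σ σ) (b ∘ σ) 0 1 t := by
    rw [← Perm.integral_perm σ (kint Φ (A.submatrix σ σ) (b ∘ σ) 0 1)]
    congr 1
    funext t
    rw [Perm.kint_perm, h0, h1']
  rw [key, h1 n (by omega) Φ hΦ _ hA' _]
  exact h2 n (by omega) Φ hΦ _ hA' _

end Pool.Agent.Lib.MP_0c1c75_co.Few
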