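import Pool.Agent.Lib.MP_0c1c75_co.FewSpec

open MeasureTheory Set
open scoped ContDiff

namespace Pool.Agent.Lib.MP_0c1c75_co.Few.Plane

/-- bound of the support of the derivative -/
theorem exists_bound {Φ : ℝ → ℝ} (h : Prof Φ) : ∃ R : ℝ, 0 < R ∧ ∀ s, R < s → deriv Φ s = 0 := by
  have hc : HasCompactSupport (deriv Φ) := h.supp.deriv
  obtain ⟨R, hR⟩ := hc.isCompact.isBounded.subset_closedBall (0 : ℝ)
  refine ⟨max R 1, by positivity, fun s hs => ?_⟩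
  by_contra hne
  have h1 : s ∈ tsupport (deriv Φ) := subset_tsupport _ hne
  have h2 := hR h1
  rw [Metric.mem_closedBall, dist_zero_right, Real.norm_eq_abs] at h2
  have h3 : R < s := lt_of_le_of_lt (le_max_left _ _) hs
  have h4 := le_abs_self s
  linarith

theorem cont_deriv {Φ : ℝ → ℝ} (h : Prof Φ) : Continuous (deriv Φ) :=
  h.smooth.continuous_deriv (by simp)

/-- the radial integrand is integrable -/
theorem integrable_plane {Φ : ℝ → ℝ} (h : Prof Φ) (κ s₀ c : ℝ) (m : ℕ) :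
    Integrable (fun z : ℝ × ℝ => -deriv Φ (κ + z.1 ^ 2 + z.2 ^ 2) * (max (s₀ + c * z.2) 0) ^ m) := by
  obtain ⟨R, hR, hb⟩ := exists_bound h
  have hd := cont_deriv h
  apply Continuous.integrable_of_hasCompactSupport
  · fun_prop
  · set T : ℝ := R + |κ| + 1 with hT
    have hT1 : 1 ≤ T := by
      have := abs_nonneg κ
      linarith
    apply HasCompactSupport.intro (isCompact_closedBall (0 : ℝ × ℝ) T)
    intro z hz
    rw [Metric.mem_closedBall, dist_zero_right, Prod.norm_def, not_le] at hz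
    have key : T < z.1 ^ 2 + z.2 ^ 2 := by
      rcases lt_max_iff.mp hz with h1 | h1
      · rw [Real.norm_eq_abs] at h1
        have h2 : T * T < |z.1| * |z.1| := by nlinarith
        have h3 : |z.1| * |z.1| = z.1 ^ 2 := by rw [← sq, sq_abs]
        nlinarith [sq_nonneg z.2]
      · rw [Real.norm_eq_abs] at h1
        have h2 : T * T < |z.2| * |z.2| := by nlinarith
        have h3 : |z.2| * |z.2| = z.2 ^ 2 := by rw [← sq, sq_abs]
        nlinarith [sq_nonneg z.1]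
    have h5 : R < κ + z.1 ^ 2 + z.2 ^ 2 := by
      have := neg_abs_le κ
      linarith
    rw [hb _ h5]
    simp

end Pool.Agent.Lib.MP_0c1c75_co.Few.Plane

namespace Pool.Agent.Lib.MP_0c1c75_co.Few

open Plane

theorem planeStmt (h : Polar2Stmt) : PlaneStmt := by
  intro Φ hΦ α β γ l μ ν m hm hα hβ
  have hm0 : m ≠ 0 := by omega
  have hα0 : α ≠ 0 := hα.ne'
  set γ' : ℝ := γ - β ^ 2 / α with hγ'
  have hγpos : 0 < γ' := by
    rw [hγ', sub_pos, div_lt_iff₀ hα]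
    linarith
  have hγ0 : γ' ≠ 0 := hγpos.ne'
  set s₀ : ℝ := -(μ - β * l / α) / γ' with hs₀
  set κ : ℝ := ν - l ^ 2 / α - γ' * s₀ ^ 2 with hκ
  have hs₀' : γ' * s₀ = -(μ - β * l / α) := by
    rw [hs₀]
    field_simp
  have hF : ∀ z s : ℝ, α * z ^ 2 + 2 * β * z * s + γ * s ^ 2 + 2 * l * z + 2 * μ * s + ν =
      α * (z + (β * s + l) / α) ^ 2 + γ' * (s - s₀) ^ 2 + κ := by
    intro z s
    have e1 : γ' * (s - s₀) ^ 2 + κ = γ' * s ^ 2 - 2 * (γ' * s₀) * s + ν - l ^ 2 / α := by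
      rw [hκ]; ring
    have e2 : α * (z + (β * s + l) / α) ^ 2 + γ' * (s - s₀) ^ 2 + κ =
        α * (z + (β * s + l) / α) ^ 2 + (γ' * (s - s₀) ^ 2 + κ) := by ring
    rw [e2, e1, hs₀', hγ']
    field_simp
    ring
  have hsα : 0 < Real.sqrt α := Real.sqrt_pos.mpr hα
  have hsγ : 0 < Real.sqrt γ' := Real.sqrt_pos.mpr hγpos
  -- inner integral
  have hin : ∀ s : ℝ, ∫ z : ℝ, -deriv Φ (α * z ^ 2 + 2 * β * z * s + γ * s ^ 2 + 2 * l * z +
      2 * μ * s + ν) * s ^ m =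
      (Real.sqrt α)⁻¹ * ∫ x : ℝ, -deriv Φ (κ + x ^ 2 + γ' * (s - s₀) ^ 2) * s ^ m := by
    intro s
    have e1 : ∫ z : ℝ, -deriv Φ (α * z ^ 2 + 2 * β * z * s + γ * s ^ 2 + 2 * l * z +
      2 * μ * s + ν) * s ^ m =
        ∫ z : ℝ, (fun w : ℝ => -deriv Φ (α * w ^ 2 + γ' * (s - s₀) ^ 2 + κ) * s ^ m)
          (z + (β * s + l) / α) := by
      refine integral_congr_ae (Filter.Eventually.of_forall fun z => ?_)
      simp only [hF]
    rw [e1, integral_add_right_eq_self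
      (fun w : ℝ => -deriv Φ (α * w ^ 2 + γ' * (s - s₀) ^ 2 + κ) * s ^ m)]
    have e2 : ∫ w : ℝ, -deriv Φ (α * w ^ 2 + γ' * (s - s₀) ^ 2 + κ) * s ^ m =
        ∫ w : ℝ, (fun x : ℝ => -deriv Φ (κ + x ^ 2 + γ' * (s - s₀) ^ 2) * s ^ m)
          (Real.sqrt α * w) := by
      refine integral_congr_ae (Filter.Eventually.of_forall fun w => ?_)
      simp only
      rw [mul_pow, Real.sq_sqrt hα.le]
      congr 3
      ring
    rw [e2, Measure.integral_comp_mul_left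
      (fun x : ℝ => -deriv Φ (κ + x ^ 2 + γ' * (s - s₀) ^ 2) * s ^ m), abs_of_pos
      (inv_pos.mpr hsα), smul_eq_mul]
  -- the outer integral over the line
  set G : ℝ → ℝ := fun s => (Real.sqrt α)⁻¹ *
    ∫ x : ℝ, -deriv Φ (κ + x ^ 2 + γ' * (s - s₀) ^ 2) * (max s 0) ^ m with hG
  have hout : ∫ s in Ioi (0 : ℝ), ∫ z : ℝ,
      -deriv Φ (α * z ^ 2 + 2 * β * z * s + γ * s ^ 2 + 2 * l * z + 2 * μ * s + ν) * s ^ m =
      ∫ s, G s := by
    rw [← integral_indicator measurableSet_Ioi]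
    refine integral_congr_ae (Filter.Eventually.of_forall fun s => ?_)
    by_cases hs : s ∈ Ioi (0 : ℝ)
    · simp only [indicator_of_mem hs, hin, hG]
      rw [max_eq_left (le_of_lt hs)]
    · simp only [indicator_of_notMem hs, hG]
      have : max s 0 = 0 := max_eq_right (not_lt.mp hs)
      rw [this, zero_pow hm0]
      simp
  rw [hout]
  have hsub : ∫ s, G s = (Real.sqrt γ')⁻¹ * ∫ y : ℝ, G (s₀ + (Real.sqrt γ')⁻¹ * y) := by
    have e1 : ∫ y : ℝ, G (s₀ + (Real.sqrt γ')⁻¹ * y) =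
        ∫ y : ℝ, (fun w : ℝ => G (s₀ + w)) ((Real.sqrt γ')⁻¹ * y) := rfl
    rw [e1, Measure.integral_comp_mul_left (fun w : ℝ => G (s₀ + w)), inv_inv,
      abs_of_pos hsγ, smul_eq_mul, ← mul_assoc, inv_mul_cancel₀ hsγ.ne', one_mul]
    rw [integral_add_left_eq_self G s₀]
  rw [hsub]
  refine mul_nonneg (inv_nonneg.mpr hsγ.le) ?_
  have hc : 0 < (Real.sqrt γ')⁻¹ := inv_pos.mpr hsγ
  have h2 := h.2 Φ hΦ κ s₀ (Real.sqrt γ')⁻¹ m hm hc
  have hint := integrable_plane hΦ κ s₀ (Real.sqrt γ')⁻¹ m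
  have hfub : ∫ z : ℝ × ℝ, -deriv Φ (κ + z.1 ^ 2 + z.2 ^ 2) *
      (max (s₀ + (Real.sqrt γ')⁻¹ * z.2) 0) ^ m =
      ∫ y : ℝ, ∫ x : ℝ, -deriv Φ (κ + x ^ 2 + y ^ 2) *
        (max (s₀ + (Real.sqrt γ')⁻¹ * y) 0) ^ m := by
    rw [Measure.volume_eq_prod] at hint ⊢
    exact integral_prod_symm _ hint
  have hfin : ∫ y : ℝ, G (s₀ + (Real.sqrt γ')⁻¹ * y) = (Real.sqrt α)⁻¹ *
      ∫ z : ℝ × ℝ, -deriv Φ (κ + z.1 ^ 2 + z.2 ^ 2) *
      (max (s₀ + (Real.sqrt γ')⁻¹ * z.2) 0) ^ m := by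
    rw [hfub, ← integral_const_mul]
    refine integral_congr_ae (Filter.Eventually.of_forall fun y => ?_)
    simp only [hG]
    congr 1
    refine integral_congr_ae (Filter.Eventually.of_forall fun x => ?_)
    simp only
    have : γ' * (s₀ + (Real.sqrt γ')⁻¹ * y - s₀) ^ 2 = y ^ 2 := by
      rw [add_sub_cancel_left, mul_pow, inv_pow, Real.sq_sqrt hγpos.le, ← mul_assoc,
        mul_inv_cancel₀ hγ0, one_mul]
    rw [this]
  rw [hfin]
  exact mul_nonneg (inv_nonneg.mpr hsα.le) h2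

end Pool.Agent.Lib.MP_0c1c75_co.Few
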