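import Pool.Agent.Lib.MP_0c1c75_co.FewSpec

/-!
MP_0c1c75_co, few balls: two radial integrals in the plane.
-/

open MeasureTheory Set
open scoped ContDiff

namespace Pool.Agent.Lib.MP_0c1c75_co.Few

namespace Polar2

lemma radial_half (f : ℝ → ℝ) (t : ℝ) :
    ∫ r in Ioi (0 : ℝ), r * f (r ^ 2 + t) = (1 / 2) * ∫ s in Ioi t, f s := by
  have h1 := integral_comp_rpow_Ioi_of_pos (g := fun y => f (y + t)) (p := 2) two_pos
  have h2 : ∫ y in Ioi (0 : ℝ), f (y + t) = ∫ s in Ioi t, f s := by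
    rw [← integral_indicator measurableSet_Ioi, ← integral_indicator measurableSet_Ioi,
      ← integral_add_right_eq_self (fun s => (Ioi t).indicator f s) t]
    congr 1
    funext y
    by_cases hy : 0 < y
    · rw [indicator_of_mem (by exact hy), indicator_of_mem (by rw [mem_Ioi]; linarith)]
    · rw [indicator_of_notMem (by exact hy), indicator_of_notMem (by rw [mem_Ioi]; linarith)]
  rw [← h2, ← h1, ← integral_const_mul]
  apply setIntegral_congr_fun measurableSet_Ioi
  intro r hr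
  rw [mem_Ioi] at hr
  have e1 : r ^ ((2 : ℝ) - 1) = r := by norm_num
  have e2 : r ^ (2 : ℝ) = r ^ 2 := by norm_num
  simp only [e1, e2, smul_eq_mul]
  ring

theorem part1 (f : ℝ → ℝ) (t : ℝ) :
    ∫ z : ℝ × ℝ, f (z.1 ^ 2 + (z.2 ^ 2 + t)) = Real.pi * ∫ s in Ioi t, f s := by
  rw [← integral_comp_polarCoord_symm]
  have e1 : ∀ p : ℝ × ℝ, p.1 • f ((polarCoord.symm p).1 ^ 2 + ((polarCoord.symm p).2 ^ 2 + t)) =
      (p.1 * f (p.1 ^ 2 + t)) * (fun _ : ℝ => (1 : ℝ)) p.2 := by
    intro p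
    rw [polarCoord_symm_apply, smul_eq_mul, mul_one]
    congr 2
    have := Real.cos_sq_add_sin_sq p.2
    linear_combination p.1 ^ 2 * this
  simp only [e1]
  rw [polarCoord_target, Measure.volume_eq_prod,
    setIntegral_prod_mul (fun r => r * f (r ^ 2 + t)) (fun _ => (1 : ℝ)), radial_half]
  have e2 : ∫ _ in Ioo (-Real.pi) Real.pi, (1 : ℝ) = 2 * Real.pi := by
    rw [setIntegral_const, smul_eq_mul, mul_one, Measure.real, Real.volume_Ioo,
      ENNReal.toReal_ofReal (by have := Real.pi_pos; linarith)]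
    ring
  rw [e2]
  ring

/-- powers of the positive part are differentiable -/
lemma hasDerivAt_pos_pow (m : ℕ) (hm : 2 ≤ m) (x : ℝ) :
    HasDerivAt (fun x : ℝ => (max x 0) ^ m) (m * (max x 0) ^ (m - 1)) x := by
  rcases lt_trichotomy x 0 with h | h | h
  · have h1 : (fun x : ℝ => (max x 0) ^ m) =ᶠ[nhds x] fun _ => 0 := by
      filter_upwards [Iio_mem_nhds h] with y hy
      rw [max_eq_right (le_of_lt hy), zero_pow (by omega)]
    rw [max_eq_right h.le, zero_pow (by omega), mul_zero]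
    exact (hasDerivAt_const x (0 : ℝ)).congr_of_eventuallyEq h1
  · subst h
    rw [max_self, zero_pow (by omega), mul_zero, hasDerivAt_iff_tendsto_slope_zero]
    have h1 : Filter.Tendsto (fun t : ℝ => t ^ (m - 2) * max t 0) (nhdsWithin 0 {0}ᶜ) (nhds 0) := by
      have h2 : Continuous fun t : ℝ => t ^ (m - 2) * max t 0 := by fun_prop
      have h3 := h2.tendsto 0
      rw [max_self, mul_zero] at h3
      exact h3.mono_left nhdsWithin_le_nhds
    refine h1.congr' ?_
    filter_upwards [self_mem_nhdsWithin] with t ht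
    have ht' : t ≠ 0 := ht
    rw [zero_add, max_self, zero_pow (by omega), sub_zero, smul_eq_mul]
    rcases le_total t 0 with h | h
    · rw [max_eq_right h, zero_pow (by omega), mul_zero, mul_zero]
    · rw [max_eq_left h]
      obtain ⟨n, rfl⟩ : ∃ n, m = n + 2 := ⟨m - 2, by omega⟩
      rw [show n + 2 - 2 = n by omega]
      field_simp
      ring
  · have h1 : (fun x : ℝ => (max x 0) ^ m) =ᶠ[nhds x] fun x => x ^ m := by
      filter_upwards [Ioi_mem_nhds h] with y hy
      rw [max_eq_left (le_of_lt hy)]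
    rw [max_eq_left h.le]
    exact (hasDerivAt_pow m x).congr_of_eventuallyEq h1

/-- the radial integral for a fixed direction -/
lemma radial_nonneg (Φ : ℝ → ℝ) (hΦ : Prof Φ) (κ s : ℝ) (W W' : ℝ → ℝ)
    (hW : ∀ y, HasDerivAt W (W' y) y) (hWc : Continuous W') (hW0 : 0 ≤ W 0)
    (hsign : ∀ r, 0 ≤ r → 0 ≤ s * W' (r * s)) :
    0 ≤ ∫ r in Ioi (0 : ℝ), r * (-deriv Φ (κ + r ^ 2) * W (r * s)) := by
  have hWcont : Continuous W := continuous_iff_continuousAt.2 fun y => (hW y).continuousAt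
  have hΦd : Differentiable ℝ Φ := hΦ.smooth.differentiable (by simp)
  have hΦc : Continuous (deriv Φ) := hΦ.smooth.continuous_deriv (by simp)
  have hΦc' : Continuous Φ := hΦ.smooth.continuous
  obtain ⟨B1, hB1, hB1'⟩ := hΦ.supp.exists_pos_le_norm
  obtain ⟨B2, hB2, hB2'⟩ := hΦ.supp.deriv.exists_pos_le_norm
  set R := |κ| + B1 + B2 + 1 with hR
  have hR1 : 1 ≤ R := by
    have := abs_nonneg κ
    linarith
  have hbig : ∀ r, R ≤ r → B1 ≤ ‖κ + r ^ 2‖ ∧ B2 ≤ ‖κ + r ^ 2‖ := by
    intro r hr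
    have h1 : r ≤ r ^ 2 := by nlinarith
    have h2 := neg_abs_le κ
    have h3 : B1 + B2 ≤ κ + r ^ 2 := by linarith
    have h4 := le_abs_self (κ + r ^ 2)
    rw [Real.norm_eq_abs]
    constructor <;> linarith
  set g : ℝ → ℝ := fun r => Φ (κ + r ^ 2) * W (r * s) with hg
  set g' : ℝ → ℝ := fun r => (deriv Φ (κ + r ^ 2) * (2 * r)) * W (r * s) +
    Φ (κ + r ^ 2) * (W' (r * s) * s) with hg'
  have hgd : ∀ r, HasDerivAt g (g' r) r := by
    intro r
    have h1 : HasDerivAt (fun r : ℝ => κ + r ^ 2) (2 * r) r := by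
      have := (hasDerivAt_pow 2 r).const_add κ
      simpa using this
    have h2 : HasDerivAt (fun r : ℝ => Φ (κ + r ^ 2)) (deriv Φ (κ + r ^ 2) * (2 * r)) r :=
      (hΦd _).hasDerivAt.comp r h1
    have h3 : HasDerivAt (fun r : ℝ => W (r * s)) (W' (r * s) * s) r := by
      have h4 : HasDerivAt (fun r : ℝ => r * s) s r := by
        simpa using (hasDerivAt_id r).mul_const s
      exact (hW (r * s)).comp r h4
    exact h2.mul h3
  have hg'c : Continuous g' := by
    simp only [hg']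
    fun_prop
  have h1 : ∫ r in Ioi (0 : ℝ), r * (-deriv Φ (κ + r ^ 2) * W (r * s)) =
      ∫ r in Ioc (0 : ℝ) R, r * (-deriv Φ (κ + r ^ 2) * W (r * s)) := by
    apply setIntegral_eq_of_subset_of_forall_sdiff_eq_zero measurableSet_Ioi Ioc_subset_Ioi_self
    intro r hr
    have h2 : R < r := by
      by_contra h
      exact hr.2 ⟨hr.1, not_lt.1 h⟩
    rw [hB2' _ (hbig r h2.le).2]
    simp
  rw [h1, ← intervalIntegral.integral_of_le (by linarith)]
  have h2 : ∫ r in (0 : ℝ)..R, (-(1 / 2)) * g' r = (1 / 2) * (Φ κ * W 0) := by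
    rw [intervalIntegral.integral_const_mul,
      intervalIntegral.integral_eq_sub_of_hasDerivAt (fun r _ => hgd r)
        (hg'c.intervalIntegrable _ _)]
    simp only [hg]
    rw [hB1' _ (hbig R le_rfl).1]
    norm_num
  have h3 : ∫ r in (0 : ℝ)..R, (-(1 / 2)) * g' r ≤
      ∫ r in (0 : ℝ)..R, r * (-deriv Φ (κ + r ^ 2) * W (r * s)) := by
    apply intervalIntegral.integral_mono_on (by linarith)
    · exact (hg'c.const_mul _).intervalIntegrable _ _
    · apply Continuous.intervalIntegrable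
      fun_prop
    · intro r hr
      have h4 := hsign r hr.1
      have h5 := hΦ.nonneg (κ + r ^ 2)
      simp only [hg']
      nlinarith [mul_nonneg h5 h4]
  have h4 : 0 ≤ (1 / 2) * (Φ κ * W 0) := by
    have := hΦ.nonneg κ
    positivity
  linarith

theorem part2 (Φ : ℝ → ℝ) (hΦ : Prof Φ) (κ s₀ c : ℝ) (m : ℕ) (hm : 2 ≤ m) (hc : 0 < c) :
    0 ≤ ∫ z : ℝ × ℝ, -deriv Φ (κ + z.1 ^ 2 + z.2 ^ 2) * (max (s₀ + c * z.2) 0) ^ m := by
  set w : ℝ → ℝ := fun y => (max (s₀ + c * y) 0) ^ m with hw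
  set w' : ℝ → ℝ := fun y => m * (max (s₀ + c * y) 0) ^ (m - 1) * c with hw'
  have hwd : ∀ y, HasDerivAt w (w' y) y := by
    intro y
    have h1 : HasDerivAt (fun y : ℝ => s₀ + c * y) c y := by
      simpa using ((hasDerivAt_id y).const_mul c).const_add s₀
    have h2 := HasDerivAt.comp (h₂ := fun x : ℝ => (max x 0) ^ m) (h := fun y : ℝ => s₀ + c * y) y
      (hasDerivAt_pos_pow m hm (s₀ + c * y)) h1
    exact h2
  have hw'c : Continuous w' := by
    simp only [hw']
    fun_prop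
  have hmono : ∀ y z, y ≤ z → w' y ≤ w' z := by
    intro y z hyz
    simp only [hw']
    have h1 : max (s₀ + c * y) 0 ≤ max (s₀ + c * z) 0 := by
      apply max_le_max _ le_rfl
      nlinarith
    have h2 : (max (s₀ + c * y) 0) ^ (m - 1) ≤ (max (s₀ + c * z) 0) ^ (m - 1) :=
      pow_le_pow_left₀ (le_max_right _ _) h1 _
    have h3 : (0 : ℝ) ≤ m := Nat.cast_nonneg m
    exact mul_le_mul_of_nonneg_right (mul_le_mul_of_nonneg_left h2 h3) hc.le
  set F : ℝ × ℝ → ℝ := fun z => -deriv Φ (κ + z.1 ^ 2 + z.2 ^ 2) * w z.2 with hF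
  show 0 ≤ ∫ z : ℝ × ℝ, F z
  by_cases hint : Integrable F
  swap
  · rw [integral_undef hint]
  -- symmetrization
  have hrefl : MeasurePreserving (fun z : ℝ × ℝ => (z.1, -z.2)) volume volume := by
    have h1 : MeasurePreserving (Prod.map (id : ℝ → ℝ) (fun y : ℝ => -y))
        ((volume : Measure ℝ).prod (volume : Measure ℝ))
        ((volume : Measure ℝ).prod (volume : Measure ℝ)) :=
      (MeasurePreserving.id _).prod (Measure.measurePreserving_neg _)
    rw [← Measure.volume_eq_prod] at h1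
    exact h1
  have hemb : MeasurableEmbedding (fun z : ℝ × ℝ => (z.1, -z.2)) := by
    have h1 : (fun z : ℝ × ℝ => (z.1, -z.2)) =
        ((Homeomorph.refl ℝ).prodCongr (Homeomorph.neg ℝ)) := by
      funext z
      rfl
    rw [h1]
    exact Homeomorph.measurableEmbedding _
  have h2 : ∫ z : ℝ × ℝ, F (z.1, -z.2) = ∫ z : ℝ × ℝ, F z := hrefl.integral_comp hemb F
  have hint2 : Integrable (fun z : ℝ × ℝ => F (z.1, -z.2)) :=
    (hrefl.integrable_comp_emb hemb).2 hint
  set W : ℝ → ℝ := fun y => w y + w (-y) with hWdef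
  set W' : ℝ → ℝ := fun y => w' y + w' (-y) * (-1) with hW'def
  have hWd : ∀ y, HasDerivAt W (W' y) y := by
    intro y
    exact (hwd y).add ((hwd (-y)).comp y (hasDerivAt_neg y))
  have hW'c : Continuous W' := by
    simp only [hW'def]
    fun_prop
  have hW0 : 0 ≤ W 0 := by
    simp only [hWdef, hw]
    positivity
  have hsign : ∀ s r, 0 ≤ r → 0 ≤ s * W' (r * s) := by
    intro s r hr
    simp only [hW'def]
    rcases le_total 0 s with hs | hs
    · have h3 := hmono (-(r * s)) (r * s) (by nlinarith [mul_nonneg hr hs])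
      nlinarith
    · have h3 := hmono (r * s) (-(r * s)) (by nlinarith [mul_nonneg hr (neg_nonneg.2 hs)])
      nlinarith
  have h3 : 2 * ∫ z : ℝ × ℝ, F z =
      ∫ z : ℝ × ℝ, -deriv Φ (κ + z.1 ^ 2 + z.2 ^ 2) * W z.2 := by
    rw [two_mul]
    nth_rewrite 1 [← h2]
    rw [← integral_add hint2 hint]
    congr 1
    funext z
    simp only [hF, hWdef, neg_sq]
    ring
  suffices h4 : 0 ≤ ∫ z : ℝ × ℝ, -deriv Φ (κ + z.1 ^ 2 + z.2 ^ 2) * W z.2 by linarith
  rw [← integral_comp_polarCoord_symm]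
  have e1 : ∀ p : ℝ × ℝ, p.1 • (-deriv Φ (κ + (polarCoord.symm p).1 ^ 2 +
      (polarCoord.symm p).2 ^ 2) * W (polarCoord.symm p).2) =
      p.1 * (-deriv Φ (κ + p.1 ^ 2) * W (p.1 * Real.sin p.2)) := by
    intro p
    rw [polarCoord_symm_apply, smul_eq_mul]
    have : κ + (p.1 * Real.cos p.2, p.1 * Real.sin p.2).1 ^ 2 +
        (p.1 * Real.cos p.2, p.1 * Real.sin p.2).2 ^ 2 = κ + p.1 ^ 2 := by
      have := Real.cos_sq_add_sin_sq p.2
      simp only
      linear_combination p.1 ^ 2 * this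
    rw [this]
  simp only [e1]
  rw [polarCoord_target, Measure.volume_eq_prod, ← Measure.prod_restrict]
  by_cases hint3 : Integrable (fun p : ℝ × ℝ => p.1 * (-deriv Φ (κ + p.1 ^ 2) *
      W (p.1 * Real.sin p.2))) (((volume : Measure ℝ).restrict (Ioi 0)).prod
        ((volume : Measure ℝ).restrict (Ioo (-Real.pi) Real.pi)))
  · rw [integral_prod_symm _ hint3]
    apply integral_nonneg
    intro θ
    exact radial_nonneg Φ hΦ κ (Real.sin θ) W W' hWd hW'c hW0 (hsign (Real.sin θ))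
  · rw [integral_undef hint3]

end Polar2

theorem polar2Stmt : Polar2Stmt :=
  ⟨fun f _ _ t => Polar2.part1 f t, fun Φ hΦ κ s₀ c m hm hc => Polar2.part2 Φ hΦ κ s₀ c m hm hc⟩

end Pool.Agent.Lib.MP_0c1c75_co.Few
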