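import Mathlib
import Pool.Agent.Lib.MP_0c1c75_co.FewSpec

/-!
MP_0c1c75_co, few balls, module Wall.
-/

open MeasureTheory Set
open scoped ContDiff

namespace Pool.Agent.Lib.MP_0c1c75_co.Few.Wall

/-- `mx` as a finite supremum -/
theorem iSup_eq_sup' {m : ℕ} (hm : 1 ≤ m) (f : Fin m → ℝ) :
    ⨆ i, f i = Finset.univ.sup' (Finset.univ_nonempty_iff.2 ⟨⟨0, by omega⟩⟩) f := by
  have : Nonempty (Fin m) := ⟨⟨0, by omega⟩⟩
  exact (Finset.sup'_univ_eq_ciSup f).symm

theorem continuous_iSup_fin {X : Type} [TopologicalSpace X] {m : ℕ} (hm : 1 ≤ m)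
    (f : Fin m → X → ℝ) (hf : ∀ i, Continuous (f i)) : Continuous fun x => ⨆ i, f i x := by
  simp_rw [iSup_eq_sup' hm]
  exact Continuous.finset_sup'_apply _ fun i _ => hf i

theorem continuous_mx {N : ℕ} (hN : 1 ≤ N) (b : Fin N → ℝ) : Continuous fun t => mx b t :=
  continuous_iSup_fin hN _ fun i => by fun_prop

theorem continuous_mulVec {N : ℕ} (A : Matrix (Fin N) (Fin N) ℝ) :
    Continuous fun t : Fin N → ℝ => A.mulVec t := by
  unfold Matrix.mulVec dotProduct
  fun_prop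

theorem continuous_qf {N : ℕ} (A : Matrix (Fin N) (Fin N) ℝ) : Continuous fun t => qf A t := by
  unfold qf Matrix.mulVec dotProduct
  fun_prop

theorem exists_lower {N : ℕ} (hN : 1 ≤ N) {A : Matrix (Fin N) (Fin N) ℝ} (hA : A.PosDef) :
    ∃ c : ℝ, 0 < c ∧ ∀ t, c * ‖t‖ ^ 2 ≤ qf A t := by
  have hcomp : IsCompact (Metric.sphere (0 : Fin N → ℝ) 1) := isCompact_sphere 0 1
  have hne : (Metric.sphere (0 : Fin N → ℝ) 1).Nonempty := by
    refine ⟨fun _ => 1, ?_⟩
    have : Nonempty (Fin N) := ⟨⟨0, by omega⟩⟩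
    simp
  obtain ⟨t₀, ht₀, hmin⟩ := hcomp.exists_isMinOn hne (continuous_qf A).continuousOn
  have hpos : ∀ t : Fin N → ℝ, t ≠ 0 → 0 < qf A t := by
    intro t ht
    have := hA.dotProduct_mulVec_pos ht
    unfold qf
    simp only [star_trivial] at this
    linarith
  have ht0 : t₀ ≠ 0 := by
    rintro rfl
    simp at ht₀
  refine ⟨qf A t₀, hpos t₀ ht0, fun t => ?_⟩
  by_cases ht : t = 0
  · subst ht
    simp [qf]
  · have hn : 0 < ‖t‖ := norm_pos_iff.2 ht
    have h1 : ‖t‖⁻¹ • t ∈ Metric.sphere (0 : Fin N → ℝ) 1 := by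
      rw [mem_sphere_zero_iff_norm, norm_smul, norm_inv, norm_norm, inv_mul_cancel₀ hn.ne']
    have h2 : qf A t₀ ≤ qf A (‖t‖⁻¹ • t) := hmin h1
    have h3 : qf A (‖t‖⁻¹ • t) = ‖t‖⁻¹ ^ 2 * qf A t := by
      unfold qf
      rw [Matrix.mulVec_smul, smul_dotProduct, dotProduct_smul, smul_eq_mul, smul_eq_mul]
      ring
    rw [h3] at h2
    calc qf A t₀ * ‖t‖ ^ 2 ≤ ‖t‖⁻¹ ^ 2 * qf A t * ‖t‖ ^ 2 :=
          mul_le_mul_of_nonneg_right h2 (by positivity)
      _ = qf A t := by field_simp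

/-- outside a ball the argument is large -/
theorem exists_radius {N : ℕ} (hN : 1 ≤ N) {A : Matrix (Fin N) (Fin N) ℝ} (hA : A.PosDef)
    (C K : ℝ) : ∃ R : ℝ, ∀ t : Fin N → ℝ, R < ‖t‖ → K < qf A t - ‖t‖ - C := by
  obtain ⟨c, hc, h⟩ := exists_lower hN hA
  refine ⟨(1 + |K| + |C| + c) / c, fun t ht => ?_⟩
  have h1 := h t
  rw [div_lt_iff₀ hc] at ht
  have hn : 1 < ‖t‖ := by
    by_contra hcon
    push Not at hcon
    nlinarith [abs_nonneg K, abs_nonneg C]
  have h2 : (1 + |K| + |C| + c) * ‖t‖ < c * ‖t‖ ^ 2 := by nlinarith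
  have h3 := le_abs_self K
  have h4 := le_abs_self C
  nlinarith [abs_nonneg K, abs_nonneg C]

theorem exists_bound {f : ℝ → ℝ} (hf : HasCompactSupport f) : ∃ K, ∀ s, K < s → f s = 0 := by
  obtain ⟨K, hK⟩ := hf.isCompact.isBounded.subset_closedBall 0
  refine ⟨K, fun s hs => ?_⟩
  apply image_eq_zero_of_notMem_tsupport
  intro hmem
  have h1 := hK hmem
  rw [Metric.mem_closedBall, dist_zero_right, Real.norm_eq_abs] at h1
  exact absurd (le_abs_self s) (by linarith)

theorem cons_split {n : ℕ} (t : Fin (n + 2) → ℝ) (x y : ℝ) (t' : Fin n → ℝ)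
    (ht : t = Fin.cons x (Fin.cons y t')) : t 0 = x ∧ t 1 = y ∧ ∀ k : Fin n, t k.succ.succ = t' k := by
  subst ht
  refine ⟨rfl, rfl, fun k => ?_⟩
  simp [Fin.cons_succ]

/-- splitting off the first coordinate -/
theorem split1 {m : ℕ} {f : (Fin (m + 1) → ℝ) → ℝ} (hf : Integrable f) :
    Integrable (fun s : Fin m → ℝ => ∫ x : ℝ, f (Fin.cons x s)) ∧
      ∫ t, f t = ∫ s : Fin m → ℝ, ∫ x : ℝ, f (Fin.cons x s) := by
  have hmp := (volume_preserving_piFinSuccAbove (fun _ : Fin (m + 1) => ℝ) 0).symm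
  have hint : Integrable (fun p : ℝ × (Fin m → ℝ) => f (Fin.cons p.1 p.2)) := by
    have h1 := (hmp.integrable_comp_emb (MeasurableEquiv.measurableEmbedding _)).2 hf
    refine h1.congr (Filter.Eventually.of_forall fun p => ?_)
    simp [MeasurableEquiv.piFinSuccAbove]
    rfl
  have heq : ∫ t, f t = ∫ p : ℝ × (Fin m → ℝ), f (Fin.cons p.1 p.2) := by
    rw [← hmp.integral_comp (MeasurableEquiv.measurableEmbedding _)]
    refine integral_congr_ae (Filter.Eventually.of_forall fun p => ?_)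
    simp [MeasurableEquiv.piFinSuccAbove]
    rfl
  refine ⟨hint.integral_prod_right, ?_⟩
  rw [heq]
  exact integral_prod_symm _ hint

/-- the argument is large outside a ball, `kint` version -/
theorem integrable_kint {N : ℕ} (hN : 1 ≤ N) {Φ : ℝ → ℝ} (hΦ : Prof Φ)
    {A : Matrix (Fin N) (Fin N) ℝ} (hA : A.PosDef) (b : Fin N → ℝ) (i j : Fin N) :
    Integrable (fun t => kint Φ A b i j t) := by
  have hd1 : HasCompactSupport (deriv Φ) := hΦ.supp.deriv
  have hd2 : HasCompactSupport (deriv (deriv Φ)) := hd1.deriv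
  have c1 : Continuous (deriv Φ) := hΦ.smooth.continuous_deriv (by norm_num)
  have c2 : Continuous (deriv (deriv Φ)) :=
    (contDiff_infty_iff_deriv.1 hΦ.smooth).2.continuous_deriv (by norm_num)
  obtain ⟨K₁, hK₁⟩ := exists_bound hd1
  obtain ⟨K₂, hK₂⟩ := exists_bound hd2
  obtain ⟨R, hR⟩ := exists_radius hN hA ‖b‖ (max K₁ K₂)
  have cE : Continuous fun t => qf A t + mx b t := (continuous_qf A).add (continuous_mx hN b)
  have hcont : Continuous (fun t => kint Φ A b i j t) := by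
    unfold kint
    have cm := continuous_mulVec A
    have ci : Continuous fun t : Fin N → ℝ => A.mulVec t i := (continuous_apply i).comp cm
    have cj : Continuous fun t : Fin N → ℝ => A.mulVec t j := (continuous_apply j).comp cm
    exact (((continuous_const.mul (c2.comp cE)).mul ci).mul cj).add
      ((continuous_const.mul (c1.comp cE)).mul continuous_const)
  refine hcont.integrable_of_hasCompactSupport ?_
  refine HasCompactSupport.intro (isCompact_closedBall (0 : Fin N → ℝ) R) fun t ht => ?_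
  rw [Metric.mem_closedBall, dist_zero_right, not_le] at ht
  have h1 := hR t ht
  have h2 : -‖t‖ - ‖b‖ ≤ mx b t := by
    have h3 : t ⟨0, by omega⟩ - b ⟨0, by omega⟩ ≤ mx b t := by
      unfold mx
      exact le_ciSup (f := fun i => t i - b i) (Set.finite_range _).bddAbove ⟨0, by omega⟩
    have h4 := norm_le_pi_norm t ⟨0, by omega⟩
    have h5 := norm_le_pi_norm b ⟨0, by omega⟩
    rw [Real.norm_eq_abs] at h4 h5
    have h6 := neg_abs_le (t ⟨0, by omega⟩)
    have h7 := le_abs_self (b ⟨0, by omega⟩)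
    linarith
  have h3 : max K₁ K₂ < qf A t + mx b t := by linarith
  unfold kint
  rw [hK₁ _ ((le_max_left _ _).trans_lt h3), hK₂ _ ((le_max_right _ _).trans_lt h3)]
  ring

/-- the point over the wall -/
def pt {n : ℕ} (b : Fin (n + 2) → ℝ) (z : ℝ) (t' : Fin n → ℝ) : Fin (n + 2) → ℝ :=
  Fin.cons (z + b 0) (Fin.cons (z + b 1) t')

theorem continuous_pt {n : ℕ} (b : Fin (n + 2) → ℝ) :
    Continuous fun p : ℝ × (Fin n → ℝ) => pt b p.1 p.2 := by
  unfold pt
  refine continuous_pi fun i => ?_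
  refine Fin.cases ?_ (fun i => ?_) i
  · simp only [Fin.cons_zero]
    fun_prop
  · refine Fin.cases ?_ (fun i => ?_) i
    · simp only [Fin.cons_succ, Fin.cons_zero]
      fun_prop
    · simp only [Fin.cons_succ]
      fun_prop

theorem integrable_wall {n : ℕ} {Φ : ℝ → ℝ} (hΦ : Prof Φ)
    {A : Matrix (Fin (n + 2)) (Fin (n + 2)) ℝ} (hA : A.PosDef) (b : Fin (n + 2) → ℝ) :
    Integrable (fun p : (Fin n → ℝ) × ℝ => -deriv Φ (qf A (pt b p.2 p.1) + p.2)) := by
  have hd1 : HasCompactSupport (deriv Φ) := hΦ.supp.deriv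
  have c1 : Continuous (deriv Φ) := hΦ.smooth.continuous_deriv (by norm_num)
  obtain ⟨K₁, hK₁⟩ := exists_bound hd1
  obtain ⟨R, hR⟩ := exists_radius (by omega) hA ‖b‖ K₁
  have cp : Continuous fun p : (Fin n → ℝ) × ℝ => pt b p.2 p.1 :=
    (continuous_pt b).comp (continuous_snd.prodMk continuous_fst)
  have hcont : Continuous (fun p : (Fin n → ℝ) × ℝ => -deriv Φ (qf A (pt b p.2 p.1) + p.2)) :=
    (c1.comp (((continuous_qf A).comp cp).add continuous_snd)).neg
  refine hcont.integrable_of_hasCompactSupport ?_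
  refine HasCompactSupport.intro
    (isCompact_closedBall (0 : (Fin n → ℝ) × ℝ) (max R 0 + ‖b‖)) fun p ht => ?_
  rw [Metric.mem_closedBall, dist_zero_right, not_le] at ht
  obtain ⟨t', z⟩ := p
  have hb0 := norm_le_pi_norm b 0
  have hp0 := norm_le_pi_norm (pt b z t') 0
  have e0 : pt b z t' 0 = z + b 0 := rfl
  rw [e0] at hp0
  rw [Real.norm_eq_abs] at hb0 hp0
  have hz : |z| ≤ ‖pt b z t'‖ + ‖b‖ := by
    have h1 : |z| ≤ |z + b 0| + |b 0| := by
      have := abs_sub (z + b 0) (b 0)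
      rwa [add_sub_cancel_right] at this
    linarith
  have hnorm : ‖((t', z) : (Fin n → ℝ) × ℝ)‖ ≤ ‖pt b z t'‖ + ‖b‖ := by
    rw [Prod.norm_def, max_le_iff]
    refine ⟨?_, by rw [Real.norm_eq_abs]; exact hz⟩
    have h1 : ‖t'‖ ≤ ‖pt b z t'‖ := by
      refine (pi_norm_le_iff_of_nonneg (norm_nonneg _)).2 fun k => ?_
      exact norm_le_pi_norm (pt b z t') k.succ.succ
    linarith [norm_nonneg b]
  have h1 : R < ‖pt b z t'‖ := (le_max_left R 0).trans_lt (by linarith)
  have h2 := hR _ h1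
  have h3 : K₁ < qf A (pt b z t') + z := by
    have := neg_abs_le z
    linarith
  change -deriv Φ (qf A (pt b z t') + z) = 0
  rw [hK₁ _ h3, neg_zero]

theorem mx_cons {n : ℕ} (hn : 1 ≤ n) (b : Fin (n + 2) → ℝ) (x y : ℝ) (t' : Fin n → ℝ) :
    mx b (Fin.cons x (Fin.cons y t')) =
      max (x - b 0) (max (y - b 1) (⨆ k : Fin n, (t' k - b k.succ.succ))) := by
  have : Nonempty (Fin n) := ⟨⟨0, by omega⟩⟩
  unfold mx
  apply le_antisymm
  · refine ciSup_le fun i => ?_
    refine Fin.cases ?_ (fun i => ?_) i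
    · exact le_max_left _ _
    · refine Fin.cases ?_ (fun i => ?_) i
      · exact (le_max_left _ _).trans (le_max_right _ _)
      · refine le_trans ?_ ((le_max_right _ _).trans (le_max_right _ _))
        exact le_ciSup (f := fun k : Fin n => t' k - b k.succ.succ)
          (Set.finite_range _).bddAbove i
  · have hb := (Set.finite_range (fun i : Fin (n + 2) =>
      (Fin.cons x (Fin.cons y t') : Fin (n + 2) → ℝ) i - b i)).bddAbove
    refine max_le (le_ciSup hb 0) (max_le (le_ciSup hb 1) (ciSup_le fun k => ?_))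
    exact le_ciSup hb k.succ.succ

theorem sum_two {n : ℕ} (f : Fin (n + 2) → ℝ) :
    ∑ i, f i = f 0 + (f 1 + ∑ k : Fin n, f k.succ.succ) := by
  rw [Fin.sum_univ_succ, Fin.sum_univ_succ]
  rfl

end Pool.Agent.Lib.MP_0c1c75_co.Few.Wall

namespace Pool.Agent.Lib.MP_0c1c75_co.Few

open Wall

theorem wallStmt (h : Ftc2Stmt) : WallStmt := by
  intro n hn Φ hΦ A hA b
  have hne : Nonempty (Fin n) := ⟨⟨0, by omega⟩⟩
  have hsymm : ∀ i j, A i j = A j i := fun i j => by
    have := hA.isHermitian.apply i j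
    simpa using this.symm
  -- the coefficients
  obtain ⟨S0, hS0⟩ : ∃ S0 : (Fin n → ℝ) → ℝ, S0 = fun t' => ∑ k : Fin n, A 0 k.succ.succ * t' k :=
    ⟨_, rfl⟩
  obtain ⟨S1, hS1⟩ : ∃ S1 : (Fin n → ℝ) → ℝ, S1 = fun t' => ∑ k : Fin n, A 1 k.succ.succ * t' k :=
    ⟨_, rfl⟩
  obtain ⟨Q, hQ⟩ : ∃ Q : (Fin n → ℝ) → ℝ, Q = fun t' => ∑ k : Fin n, t' k *
    ∑ l : Fin n, A k.succ.succ l.succ.succ * t' l := ⟨_, rfl⟩
  have hmv : ∀ (x y : ℝ) (t' : Fin n → ℝ) (i : Fin (n + 2)),
      A.mulVec (Fin.cons x (Fin.cons y t')) i =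
        A i 0 * x + (A i 1 * y + ∑ k : Fin n, A i k.succ.succ * t' k) := by
    intro x y t' i
    unfold Matrix.mulVec dotProduct
    rw [sum_two]
    rfl
  have hqf : ∀ (x y : ℝ) (t' : Fin n → ℝ), qf A (Fin.cons x (Fin.cons y t')) =
      (A 0 0 / 4) * x ^ 2 + 2 * (A 0 1 / 4) * x * y + (A 1 1 / 4) * y ^ 2 +
        2 * (S0 t' / 4) * x + 2 * (S1 t' / 4) * y + Q t' / 4 := by
    intro x y t'
    unfold qf dotProduct
    rw [sum_two, hmv, hmv]
    have e1 : ∑ k : Fin n, (Fin.cons x (Fin.cons y t') : Fin (n + 2) → ℝ) k.succ.succ *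
        A.mulVec (Fin.cons x (Fin.cons y t')) k.succ.succ = x * S0 t' + y * S1 t' + Q t' := by
      rw [hS0, hS1, hQ]
      simp only
      rw [Finset.mul_sum (a := x), Finset.mul_sum (a := y), ← Finset.sum_add_distrib,
        ← Finset.sum_add_distrib]
      refine Finset.sum_congr rfl fun k _ => ?_
      rw [hmv]
      change t' k * _ = _
      rw [hsymm k.succ.succ 0, hsymm k.succ.succ 1]
      ring
    rw [e1]
    change (1 / 4) * (x * _ + (y * _ + _)) = _
    rw [hsymm 1 0, hS0, hS1]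
    ring
  have hα : 0 < A 0 0 / 4 := by
    have := hA.diag_pos (i := (0 : Fin (n + 2)))
    linarith
  have hdet : (A 0 1 / 4) ^ 2 < (A 0 0 / 4) * (A 1 1 / 4) := by
    -- test vector
    have h1 := hA.dotProduct_mulVec_pos (x := Fin.cons (-(A 0 1)) (Fin.cons (A 0 0) 0)) (by
      intro h0
      have := congrFun h0 1
      change A 0 0 = 0 at this
      linarith)
    have h2 := hqf (-(A 0 1)) (A 0 0) 0
    unfold qf at h2
    simp only [star_trivial] at h1
    have h3 : S0 0 = 0 := by rw [hS0]; simp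
    have h4 : S1 0 = 0 := by rw [hS1]; simp
    have h5 : Q 0 = 0 := by rw [hQ]; simp
    rw [h3, h4, h5] at h2
    have h6 : 0 < A 0 0 / 4 * (-(A 0 1)) ^ 2 + 2 * (A 0 1 / 4) * (-(A 0 1)) * (A 0 0) +
        A 1 1 / 4 * (A 0 0) ^ 2 := by
      have : (0 : ℝ) < (1 / 4) * ((Fin.cons (-(A 0 1)) (Fin.cons (A 0 0) 0) : Fin (n + 2) → ℝ) ⬝ᵥ
        A.mulVec (Fin.cons (-(A 0 1)) (Fin.cons (A 0 0) 0))) := by linarith
      rw [h2] at this
      linarith
    have h7 : A 0 0 / 4 * (-(A 0 1)) ^ 2 + 2 * (A 0 1 / 4) * (-(A 0 1)) * (A 0 0) +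
        A 1 1 / 4 * (A 0 0) ^ 2 = 4 * (A 0 0) * ((A 0 0 / 4) * (A 1 1 / 4) - (A 0 1 / 4) ^ 2) := by
      ring
    rw [h7] at h6
    have h8 := (pos_iff_pos_of_mul_pos h6).1 (by linarith)
    linarith
  -- the integral in the first two coordinates
  obtain ⟨c, hc⟩ : ∃ c : (Fin n → ℝ) → ℝ, c = fun t' => ⨆ k : Fin n, (t' k - b k.succ.succ) :=
    ⟨_, rfl⟩
  have hplane : ∀ t' : Fin n → ℝ,
      ∫ y : ℝ, ∫ x : ℝ, kint Φ A b 0 1 (Fin.cons x (Fin.cons y t')) =
        ∫ z in Ioi (c t'), -deriv Φ (qf A (pt b z t') + z) := by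
    intro t'
    have h1 := h Φ hΦ (A 0 0 / 4) (A 0 1 / 4) (A 1 1 / 4) (S0 t' / 4) (S1 t' / 4) (Q t' / 4)
      (b 0) (b 1) (c t') hα hdet
    simp only at h1
    have h2 : ∀ x y : ℝ, kint Φ A b 0 1 (Fin.cons x (Fin.cons y t')) =
        (deriv (deriv Φ) ((A 0 0 / 4) * x ^ 2 + 2 * (A 0 1 / 4) * x * y + (A 1 1 / 4) * y ^ 2 +
          2 * (S0 t' / 4) * x + 2 * (S1 t' / 4) * y + Q t' / 4 +
            max (x - b 0) (max (y - b 1) (c t'))) *
            (2 * (A 0 0 / 4) * x + 2 * (A 0 1 / 4) * y + 2 * (S0 t' / 4)) *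
            (2 * (A 0 1 / 4) * x + 2 * (A 1 1 / 4) * y + 2 * (S1 t' / 4)) +
          deriv Φ ((A 0 0 / 4) * x ^ 2 + 2 * (A 0 1 / 4) * x * y + (A 1 1 / 4) * y ^ 2 +
          2 * (S0 t' / 4) * x + 2 * (S1 t' / 4) * y + Q t' / 4 +
            max (x - b 0) (max (y - b 1) (c t'))) * (2 * (A 0 1 / 4))) := by
      intro x y
      unfold kint
      rw [hqf, mx_cons hn, hmv, hmv, hsymm 1 0, hc, hS0, hS1]
      ring
    calc ∫ y : ℝ, ∫ x : ℝ, kint Φ A b 0 1 (Fin.cons x (Fin.cons y t')) = _ := by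
          simp only [h2]
      _ = _ := h1
      _ = _ := by
          refine setIntegral_congr_fun measurableSet_Ioi fun z _ => ?_
          simp only [pt, hqf]
  -- Fubini
  obtain ⟨i1, e1⟩ := split1 (integrable_kint (by omega) hΦ hA b 0 1)
  obtain ⟨_, e2⟩ := split1 i1
  rw [e1, e2]
  simp only [hplane]
  -- the region
  have hcc : Continuous c := by
    rw [hc]
    exact continuous_iSup_fin hn _ fun i => by fun_prop
  have hlt : ∀ (t' : Fin n → ℝ) (z : ℝ), c t' < z ↔ ∀ k, t' k - b k.succ.succ < z := by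
    intro t' z
    rw [hc]
    simp only [iSup_eq_sup' hn]
    rw [Finset.sup'_lt_iff]
    simp
  obtain ⟨G, hG⟩ : ∃ G : (Fin n → ℝ) × ℝ → ℝ, G = {p : (Fin n → ℝ) × ℝ | c p.1 < p.2}.indicator
    (fun p => -deriv Φ (qf A (pt b p.2 p.1) + p.2)) := ⟨_, rfl⟩
  have hTm : MeasurableSet {p : (Fin n → ℝ) × ℝ | c p.1 < p.2} :=
    (isOpen_lt (hcc.comp continuous_fst) continuous_snd).measurableSet
  have hGi : Integrable G := by
    rw [hG]
    exact (integrable_wall hΦ hA b).indicator hTm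
  have hl : ∀ t' : Fin n → ℝ, ∫ z in Ioi (c t'), -deriv Φ (qf A (pt b z t') + z) =
      ∫ z, G (t', z) := by
    intro t'
    rw [← integral_indicator measurableSet_Ioi, hG]
    rfl
  simp only [hl]
  rw [integral_integral_swap (f := fun t' z => G (t', z)) hGi]
  congr 1
  funext z
  rw [← integral_sub_left_eq_self (fun t' => G (t', z)) volume (fun k => b k.succ.succ + z),
    ← integral_indicator]
  · congr 1
    funext u
    rw [hG]
    simp only [indicator, Set.mem_ofPred_eq]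
    have hiff : c ((fun k => b k.succ.succ + z) - u) < z ↔ ∀ i, 0 < u i := by
      rw [hlt]
      refine forall_congr' fun k => ?_
      simp only [Pi.sub_apply]
      constructor <;> intro hh <;> linarith
    have hpt : pt b z ((fun k => b k.succ.succ + z) - u) = wv b z u := by
      funext i
      refine Fin.cases ?_ (fun i => ?_) i
      · change z + b 0 = b 0 + z - 0
        ring
      · refine Fin.cases ?_ (fun i => ?_) i
        · change z + b 1 = b 1 + z - 0
          ring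
        · change b i.succ.succ + z - u i = b i.succ.succ + z - u i
          rfl
    by_cases hu : ∀ i, 0 < u i
    · rw [if_pos (hiff.2 hu), if_pos hu, hpt]
    · rw [if_neg (fun h' => hu (hiff.1 h')), if_neg hu]
  · have : {u : Fin n → ℝ | ∀ i, 0 < u i} = ⋂ i, {u | 0 < u i} := by
      ext u
      simp
    rw [this]
    exact MeasurableSet.iInter fun i => (isOpen_lt continuous_const (continuous_apply i)).measurableSet

end Pool.Agent.Lib.MP_0c1c75_co.Few
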