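import Pool.Agent.Lib.MP_0c1c75_co.FewCore
import Pool.Agent.Lib.MP_0c1c75_co.FewPolar2
import Pool.Agent.Lib.MP_0c1c75_co.FewPlane
import Pool.Agent.Lib.MP_0c1c75_co.FewConeInt
import Pool.Agent.Lib.MP_0c1c75_co.FewCone
import Pool.Agent.Lib.MP_0c1c75_co.FewFtc2
import Pool.Agent.Lib.MP_0c1c75_co.FewWall
import Pool.Agent.Lib.MP_0c1c75_co.FewPerm
import Pool.Agent.Lib.MP_0c1c75_co.FewMatDeriv
import Pool.Agent.Lib.MP_0c1c75_co.FewPathDeriv
import Pool.Agent.Lib.MP_0c1c75_co.FewPath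
import Pool.Agent.Lib.MP_0c1c75_co.FewGram
import Pool.Agent.Lib.MP_0c1c75_co.FewCont
import Pool.Agent.Lib.MP_0c1c75_co.FewApprox
import Pool.Agent.Lib.MP_0c1c75_co.FewLift
import Pool.Agent.Lib.MP_0c1c75_co.FewFinal

/-!
MP_0c1c75_co: the theorem of helper55 (at most `d + 4` balls) as a library lemma.
-/

open MeasureTheory

namespace Pool.Agent.Lib.MP_0c1c75_co

open Few in
/-- the Kneser-Poulsen inequality for at most `d + 4` balls (helper55) -/
theorem fewAll (d N : ℕ) (hN : N ≤ d + 4) (p q : Fin N → EuclideanSpace ℝ (Fin d))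
    (r : Fin N → ℝ) (h : ∀ i j, dist (q i) (q j) ≤ dist (p i) (p j)) :
    volume (⋂ i, Metric.closedBall (p i) (r i)) ≤
      volume (⋂ i, Metric.closedBall (q i) (r i)) :=
  finalStmt (strictStmt (coreStmt (pathStmt
    (permStmt (wallStmt ftc2Stmt) (coneStmt (planeStmt polar2Stmt) coneIntStmt))
    (pathDerivStmt matDerivStmt) matDerivStmt) gramStmt) contStmt approxStmt
    (liftStmt polar2Stmt)) d N hN p q r h

end Pool.Agent.Lib.MP_0c1c75_co
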