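import Pool.Agent.Lib.MP_0c1c75_co.CluSpec
import Pool.Agent.Lib.MP_0c1c75_co.FewAll

/-!
MP_0c1c75_co, clusters: Theorem E (helper62).
-/

open MeasureTheory Set

namespace Pool.Agent.Lib.MP_0c1c75_co.Clu

namespace FinalC

/-- surjective refinement of a cluster map -/
theorem refine_surj {N k : ℕ} (h : k ≤ N) (cl : Fin N → Fin k) :
    ∃ cl' : Fin N → Fin k, Function.Surjective cl' ∧ ∀ i j, cl' i = cl' j → cl i = cl j := by
  classical
  obtain ⟨cl', hcl', hmax⟩ := Finset.exists_max_image
    (Finset.univ.filter fun c : Fin N → Fin k => ∀ i j, c i = c j → cl i = cl j)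
    (fun c => (Finset.univ.image c).card)
    ⟨cl, Finset.mem_filter.2 ⟨Finset.mem_univ _, fun _ _ e => e⟩⟩
  have href := (Finset.mem_filter.1 hcl').2
  refine ⟨cl', ?_, href⟩
  by_contra hns
  obtain ⟨c, hc⟩ : ∃ c, ∀ i, cl' i ≠ c := by
    unfold Function.Surjective at hns
    push Not at hns
    exact hns
  have hni : ¬ Function.Injective cl' := by
    intro hi
    have h1 := Fintype.card_le_of_injective cl' hi
    rw [Fintype.card_fin, Fintype.card_fin] at h1
    have h2 : N = k := le_antisymm h1 h
    subst h2
    obtain ⟨i, hi'⟩ := (Finite.injective_iff_surjective.1 hi) c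
    exact hc i hi'
  obtain ⟨i, j, hij, hne⟩ : ∃ i j, cl' i = cl' j ∧ i ≠ j := by
    unfold Function.Injective at hni
    push Not at hni
    exact hni
  have hmem : Function.update cl' j c ∈
      Finset.univ.filter fun c : Fin N → Fin k => ∀ i j, c i = c j → cl i = cl j := by
    refine Finset.mem_filter.2 ⟨Finset.mem_univ _, fun a b hab => ?_⟩
    by_cases ha : a = j
    · by_cases hb : b = j
      · rw [ha, hb]
      · rw [ha, Function.update_self, Function.update_of_ne hb] at hab
        exact absurd hab.symm (hc b)
    · by_cases hb : b = j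
      · rw [hb, Function.update_self, Function.update_of_ne ha] at hab
        exact absurd hab (hc a)
      · rw [Function.update_of_ne ha, Function.update_of_ne hb] at hab
        exact href a b hab
  have hlt : (Finset.univ.image cl').card < (Finset.univ.image (Function.update cl' j c)).card := by
    apply Finset.card_lt_card
    rw [Finset.ssubset_iff_of_subset]
    · refine ⟨c, Finset.mem_image.2 ⟨j, Finset.mem_univ _, Function.update_self _ _ _⟩, ?_⟩
      intro h1
      obtain ⟨m, -, hm⟩ := Finset.mem_image.1 h1
      exact hc m hm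
    · intro v hv
      obtain ⟨m, -, rfl⟩ := Finset.mem_image.1 hv
      by_cases hm : m = j
      · refine Finset.mem_image.2 ⟨i, Finset.mem_univ _, ?_⟩
        rw [Function.update_of_ne hne, hm]
        exact hij
      · exact Finset.mem_image.2 ⟨m, Finset.mem_univ _, Function.update_of_ne hm _ _⟩
  exact absurd (hmax _ hmem) (not_le.2 hlt)

/-- a ball which contains another one may be removed -/
theorem remove {n d : ℕ} (P : Fin (n + 1) → EuclideanSpace ℝ (Fin d)) (r : Fin (n + 1) → ℝ)
    {i j : Fin (n + 1)} (hij : i ≠ j) (hP : P i = P j) (hr : r i ≤ r j) :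
    (⋂ l, Metric.closedBall (P l) (r l)) =
      ⋂ l, Metric.closedBall (P (j.succAbove l)) (r (j.succAbove l)) := by
  apply Set.Subset.antisymm
  · intro x hx
    rw [mem_iInter] at hx ⊢
    exact fun l => hx _
  · intro x hx
    rw [mem_iInter] at hx ⊢
    have h1 : ∀ l, l ≠ j → x ∈ Metric.closedBall (P l) (r l) := by
      intro l hl
      obtain ⟨m, rfl⟩ := Fin.exists_succAbove_eq hl
      exact hx m
    intro l
    by_cases hl : l = j
    · rw [hl, ← hP]
      exact Metric.closedBall_subset_closedBall hr (h1 i hij)
    · exact h1 l hl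

end FinalC

open FinalC in
theorem finalCStmt (h1 : InjCStmt) : FinalCStmt := by
  intro d N
  induction N with
  | zero =>
    intro k hk p q cl hpq hspn r
    exact fewAll d 0 (by omega) p q r hpq
  | succ n ih =>
    intro k hk p q cl hpq hspn r
    rcases Nat.lt_or_ge (d + 4) (n + 1) with hN | hN
    · by_cases hinj : Function.Injective p
      · obtain ⟨cl', hs, hr⟩ := refine_surj (N := n + 1) (k := k) (by omega) cl
        refine h1 d (n + 1) k hk p q cl' hs hinj hpq ?_ r
        refine le_trans (Nat.add_le_add_right (Submodule.finrank_mono (Submodule.span_mono ?_)) k) hspn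
        rintro w ⟨i, j, hij, rfl⟩
        exact ⟨i, j, hr i j hij, rfl⟩
      · -- remove one ball
        obtain ⟨i, j, hP, hij, hle⟩ : ∃ i j, p i = p j ∧ i ≠ j ∧ r i ≤ r j := by
          unfold Function.Injective at hinj
          push Not at hinj
          obtain ⟨i, j, h2, h3⟩ := hinj
          rcases le_total (r i) (r j) with h4 | h4
          · exact ⟨i, j, h2, h3, h4⟩
          · exact ⟨j, i, h2.symm, h3.symm, h4⟩
        have hQ : q i = q j := by
          have h2 := hpq i j
          rw [hP, dist_self] at h2
          exact dist_le_zero.1 h2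
        rw [remove p r hij hP hle, remove q r hij hQ hle]
        refine ih k hk (fun l => p (j.succAbove l)) (fun l => q (j.succAbove l))
          (fun l => cl (j.succAbove l)) (fun a b => hpq _ _) ?_ (fun l => r (j.succAbove l))
        refine le_trans (Nat.add_le_add_right (Submodule.finrank_mono (Submodule.span_mono ?_)) k) hspn
        rintro w ⟨a, b, hab, rfl⟩
        exact ⟨j.succAbove a, j.succAbove b, hab, rfl⟩
    · exact fewAll d (n + 1) hN p q r hpq

end Pool.Agent.Lib.MP_0c1c75_co.Clu
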