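import Pool.Agent.Lib.MP_0c1c75_co.CluSpec

/-! Gram coordinates with clusters (module GramC). -/

open MeasureTheory Set
open scoped Matrix

namespace Pool.Agent.Lib.MP_0c1c75_co.Clu

namespace GramC

variable {ι : Type} [Fintype ι] [DecidableEq ι]

theorem posDef (P : Matrix ι ι ℝ) (hP : P.det ≠ 0) : (P * P.transpose).PosDef := by
  have h := Matrix.PosDef.mul_conjTranspose_self P (by
    intro x y hxy
    have hu : IsUnit P.det := isUnit_iff_ne_zero.2 hP
    have h1 := congrArg (fun v => Matrix.vecMul v P⁻¹) hxy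
    simpa [Matrix.vecMul_vecMul, Matrix.mul_nonsing_inv P hu] using h1)
  rwa [Matrix.conjTranspose_eq_transpose_of_trivial] at h

theorem integral_comp (M : Matrix ι ι ℝ) (hM : M.det ≠ 0) (f : (ι → ℝ) → ℝ) :
    ∫ x, f (M.mulVec x) = |M.det|⁻¹ * ∫ t, f t := by
  have h := Real.map_matrix_volume_pi_eq_smul_volume_pi hM
  have hinj : Function.Injective (Matrix.toLin' M) := by
    intro x y hxy
    have hu : IsUnit M.det := isUnit_iff_ne_zero.2 hM
    have h1 := congrArg (fun v => M⁻¹.mulVec v) hxy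
    simpa [Matrix.mulVec_mulVec, Matrix.nonsing_inv_mul M hu] using h1
  have hc : Continuous (Matrix.toLin' M) := LinearMap.continuous_of_finiteDimensional _
  have he : MeasurableEmbedding (Matrix.toLin' M) := hc.measurableEmbedding hinj
  have h2 := he.integral_map (μ := volume) f
  rw [h, integral_smul_measure, smul_eq_mul, ENNReal.toReal_ofReal (abs_nonneg _), abs_inv] at h2
  rw [h2]
  rfl

theorem qg_eq (P : Matrix ι ι ℝ) (hP : P.det ≠ 0) (x : ι → ℝ) :
    qg (P * P.transpose)⁻¹ (((-2 : ℝ) • P).mulVec x) = ∑ k, x k ^ 2 := by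
  have hu : IsUnit P.det := isUnit_iff_ne_zero.2 hP
  have hut : IsUnit P.transpose.det := by rwa [Matrix.det_transpose]
  unfold qg
  have h1 : (P * P.transpose)⁻¹.mulVec (((-2 : ℝ) • P).mulVec x) =
      (-2 : ℝ) • (P.transpose)⁻¹.mulVec x := by
    rw [Matrix.mul_inv_rev, Matrix.smul_mulVec, Matrix.mulVec_smul, Matrix.mulVec_mulVec,
      Matrix.mul_assoc, Matrix.nonsing_inv_mul P hu, Matrix.mul_one]
  rw [h1, Matrix.smul_mulVec, smul_dotProduct, dotProduct_smul]
  have h2 : P.mulVec x ⬝ᵥ (P.transpose)⁻¹.mulVec x = x ⬝ᵥ x := by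
    rw [Matrix.dotProduct_mulVec, ← Matrix.vecMul_transpose P x, Matrix.vecMul_vecMul,
      Matrix.mul_nonsing_inv _ hut, Matrix.vecMul_one]
  rw [h2]
  simp only [smul_eq_mul, dotProduct]
  have h3 : ∑ k, x k ^ 2 = ∑ k, x k * x k := Finset.sum_congr rfl fun k _ => by ring
  rw [h3]
  ring

theorem gg_eq {N : ℕ} (hN : 0 < N) (B : Matrix ι ι ℝ) (α : Fin N → ι → ℝ) (a : Fin N → ℝ)
    (x : ι → ℝ) : gg (fun i => Matrix.vecMul (α i) B) a x = ∑ k, x k ^ 2 +
      hmx (sg α a (B * B.transpose) (((-2 : ℝ) • B).mulVec x)) := by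
  have : Nonempty (Fin N) := ⟨⟨0, hN⟩⟩
  unfold gg hmx
  rw [add_ciSup (Set.finite_range _).bddAbove]
  congr 1
  funext i
  unfold sg bb
  have h1 : α i ⬝ᵥ (B * B.transpose).mulVec (α i) = ∑ k, (Matrix.vecMul (α i) B k) ^ 2 := by
    rw [← Matrix.mulVec_mulVec, Matrix.dotProduct_mulVec, Matrix.mulVec_transpose]
    simp only [dotProduct]
    exact Finset.sum_congr rfl fun k _ => by ring
  have h2 : α i ⬝ᵥ ((-2 : ℝ) • B).mulVec x = -2 * ∑ k, Matrix.vecMul (α i) B k * x k := by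
    rw [Matrix.smul_mulVec, dotProduct_smul, Matrix.dotProduct_mulVec]
    rfl
  have h3 : ∑ k, (x k - Matrix.vecMul (α i) B k) ^ 2 = ∑ k, x k ^ 2 -
      2 * ∑ k, Matrix.vecMul (α i) B k * x k + ∑ k, (Matrix.vecMul (α i) B k) ^ 2 := by
    rw [Finset.mul_sum, ← Finset.sum_sub_distrib, ← Finset.sum_add_distrib]
    exact Finset.sum_congr rfl fun k _ => by ring
  change ∑ k, (x k - Matrix.vecMul (α i) B k) ^ 2 - a i = ∑ k, x k ^ 2 +
    (α i ⬝ᵥ ((-2 : ℝ) • B).mulVec x + (α i ⬝ᵥ (B * B.transpose).mulVec (α i) - a i))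
  rw [h1, h2, h3]
  ring

end GramC

open GramC in
theorem gramCStmt : GramCStmt := by
  intro ι _ _ N hN Φ B α a hB
  refine ⟨posDef B hB, ?_⟩
  have hdet : ((-2 : ℝ) • B).det = (-2) ^ Fintype.card ι * B.det := by
    rw [Matrix.det_smul]
  have hM : ((-2 : ℝ) • B).det ≠ 0 := by
    rw [hdet]
    exact mul_ne_zero (pow_ne_zero _ (by norm_num)) hB
  have h1 := integral_comp ((-2 : ℝ) • B) hM
    (fun t => -deriv Φ (qg (B * B.transpose)⁻¹ t + hmx (sg α a (B * B.transpose) t)))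
  have h3 : ∫ x, -deriv Φ (gg (fun i => Matrix.vecMul (α i) B) a x) = ∫ x, -deriv Φ
      (qg (B * B.transpose)⁻¹ (((-2 : ℝ) • B).mulVec x) +
        hmx (sg α a (B * B.transpose) (((-2 : ℝ) • B).mulVec x))) := by
    refine integral_congr_ae (Filter.Eventually.of_forall fun x => ?_)
    simp only
    rw [gg_eq hN B α a x, qg_eq B hB x]
  rw [h3, h1]
  unfold Jh
  rw [integral_const_mul]
  have h4 : Real.sqrt (B * B.transpose).det = |B.det| := by
    rw [Matrix.det_mul, Matrix.det_transpose, ← sq, Real.sqrt_sq_eq_abs]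
  have h5 : |((-2 : ℝ) • B).det| = 2 ^ Fintype.card ι * |B.det| := by
    rw [hdet, abs_mul, abs_pow, abs_neg, abs_two]
  rw [h4, h5, mul_inv]
  ring

end Pool.Agent.Lib.MP_0c1c75_co.Clu
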