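import Pool.Agent.Lib.MP_0c1c75_co.CluSpec
import Pool.Agent.Lib.MP_0c1c75_co.FewFinal

/-!
# MP_0c1c75_co, clusters: from strict contractions to contractions of distinct points (helper50)
-/

open MeasureTheory Set
open scoped ContDiff

namespace Pool.Agent.Lib.MP_0c1c75_co.Clu

open Pool.Agent.Lib.MP_0c1c75_co.Few (Prof gm)

namespace InjC

open Pool.Agent.Lib.MP_0c1c75_co.Few.Final

/-- strict contractions -/
lemma strict (h : StrictCStmt) {d N e k : ℕ} (hk : 4 ≤ k) (hek : e + k = d + 4)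
    (p q : Fin N → Fin d → ℝ) (cl : Fin N → Fin k) (hcl : Function.Surjective cl)
    (hpq : ∀ i j, i ≠ j → ∑ k, (q i k - q j k) ^ 2 < ∑ k, (p i k - p j k) ^ 2)
    (hfin : Module.finrank ℝ (spn p q cl) ≤ e)
    (a : Fin N → ℝ) {ε : ℝ} (hε : 0 < ε) :
    volume (KS p a) ≤ volume (KS q (fun i => a i + ε)) := by
  obtain ⟨Φ, hΦ, hint, hsupp⟩ := exists_prof hε
  have hN : 0 < N := by
    obtain ⟨i, _⟩ := hcl ⟨0, by omega⟩
    exact lt_of_le_of_lt (Nat.zero_le _) i.2
  have hΦi : Integrable Φ volume := hΦ.smooth.continuous.integrable_of_hasCompactSupport hΦ.supp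
  set ψ : ℝ → ℝ := fun t => ∫ s in Ioi t, Φ s with hψ
  have hψ0 : ∀ t, 0 ≤ ψ t := fun t => integral_nonneg fun s => hΦ.nonneg s
  have hψ1 : ∀ t, ψ t ≤ 1 := fun t => by
    rw [← hint]
    exact setIntegral_le_integral hΦi (Filter.Eventually.of_forall hΦ.nonneg)
  have hψa : Antitone ψ := fun s t hst =>
    setIntegral_mono_set hΦi.integrableOn (Filter.Eventually.of_forall hΦ.nonneg)
      (Ioi_subset_Ioi hst).eventuallyLE
  have hψl : ∀ t, t ≤ 0 → ψ t = 1 := fun t ht => by
    rw [← hint]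
    refine setIntegral_eq_integral_of_forall_compl_eq_zero fun s hs => hsupp s fun hs' => hs ?_
    exact lt_of_le_of_lt ht hs'.1
  have hψr : ∀ t, ε ≤ t → ψ t = 0 := fun t ht => by
    refine setIntegral_eq_zero_of_forall_eq_zero fun s hs => hsupp s fun hs' => ?_
    have := hs'.2
    have h2 : t < s := hs
    linarith
  have hmeas : ∀ P : Fin N → Fin d → ℝ, Measurable fun x => ψ (gm P a x) := fun P =>
    hψa.measurable.comp (measurable_gm hN P a)
  have hle : ∀ (P : Fin N → Fin d → ℝ) x,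
      ψ (gm P a x) ≤ (KS P (fun i => a i + ε)).indicator (fun _ => (1 : ℝ)) x := by
    intro P x
    by_cases hx : x ∈ KS P (fun i => a i + ε)
    · rw [indicator_of_mem hx]; exact hψ1 _
    · rw [indicator_of_notMem hx, hψr]
      rw [← gm_le_iff hN] at hx
      exact (not_le.mp hx).le
  have hge : ∀ (P : Fin N → Fin d → ℝ) x,
      (KS P a).indicator (fun _ => (1 : ℝ)) x ≤ ψ (gm P a x) := by
    intro P x
    by_cases hx : x ∈ KS P a
    · rw [indicator_of_mem hx, hψl]
      rw [gm_le_iff hN]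
      simpa using hx
    · rw [indicator_of_notMem hx]; exact hψ0 _
  have hii : ∀ (P : Fin N → Fin d → ℝ) (b : Fin N → ℝ),
      Integrable ((KS P b).indicator (fun _ => (1 : ℝ))) volume := fun P b =>
    (integrable_indicator_iff (isClosed_KS P b).measurableSet).mpr
      (integrableOn_const (measure_KS_lt_top hN P b).ne)
  have hψi : ∀ P : Fin N → Fin d → ℝ, Integrable (fun x => ψ (gm P a x)) volume := fun P =>
    (hii P (fun i => a i + ε)).mono' (hmeas P).aestronglyMeasurable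
      (Filter.Eventually.of_forall fun x => by
        rw [Real.norm_eq_abs, abs_of_nonneg (hψ0 _)]
        exact hle P x)
  have hmain := h d N e k hk hek p q cl hcl hpq hfin a Φ hΦ
  have h1 : volume.real (KS p a) ≤ ∫ x, ψ (gm p a x) := by
    have h2 := integral_mono (hii p a) (hψi p) (hge p)
    rw [integral_indicator_const _ (isClosed_KS p a).measurableSet] at h2
    simpa using h2
  have h2 : ∫ x, ψ (gm q a x) ≤ volume.real (KS q (fun i => a i + ε)) := by
    have h3 := integral_mono (hψi q) (hii q (fun i => a i + ε)) (hle q)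
    rw [integral_indicator_const _ (isClosed_KS q _).measurableSet] at h3
    simpa using h3
  have h3 : volume.real (KS p a) ≤ volume.real (KS q (fun i => a i + ε)) :=
    h1.trans (hmain.trans h2)
  exact (ENNReal.toReal_le_toReal (measure_KS_lt_top hN _ _).ne (measure_KS_lt_top hN _ _).ne).mp h3

open Filter Topology in
/-- the scaling -/
lemma scale {d N : ℕ} (p q : Fin N → Fin d → ℝ)
    (hp : ∀ i j, i ≠ j → 0 < ∑ k, (p i k - p j k) ^ 2)
    (hpq : ∀ i j, ∑ k, (q i k - q j k) ^ 2 ≤ ∑ k, (p i k - p j k) ^ 2) {τ : ℝ} (hτ : 0 < τ) :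
    ∃ δ : ℝ, 0 < δ ∧ (∀ i, ∑ k, ((1 + δ) * p i k - p i k) ^ 2 ≤ τ ^ 2) ∧
      ∀ i j, i ≠ j → ∑ k, (q i k - q j k) ^ 2 < ∑ k, ((1 + δ) * p i k - (1 + δ) * p j k) ^ 2 := by
  have hτ2 : 0 < τ ^ 2 := by positivity
  have h1 : ∀ᶠ δ in 𝓝[>] (0 : ℝ), ∀ i, ∑ k, (δ * p i k) ^ 2 < τ ^ 2 := by
    rw [eventually_all]
    intro i
    have hc : Continuous (fun δ : ℝ => ∑ k, (δ * p i k) ^ 2) := by fun_prop
    have ht := hc.tendsto 0
    simp only [zero_mul, ne_eq, OfNat.ofNat_ne_zero, not_false_eq_true, zero_pow,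
      Finset.sum_const_zero] at ht
    exact (ht.eventually (gt_mem_nhds hτ2)).filter_mono nhdsWithin_le_nhds
  obtain ⟨δ, hδ1, hδ0⟩ := (h1.and self_mem_nhdsWithin).exists
  have hδ : 0 < δ := hδ0
  refine ⟨δ, hδ, fun i => ?_, fun i j hij => ?_⟩
  · have h2 : ∑ k, ((1 + δ) * p i k - p i k) ^ 2 = ∑ k, (δ * p i k) ^ 2 :=
      Finset.sum_congr rfl fun k _ => by ring
    rw [h2]
    exact (hδ1 i).le
  · have h4 : ∑ k, ((1 + δ) * p i k - (1 + δ) * p j k) ^ 2 =
        (1 + δ) ^ 2 * ∑ k, (p i k - p j k) ^ 2 := by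
      rw [Finset.mul_sum]
      exact Finset.sum_congr rfl fun k _ => by ring
    rw [h4]
    refine lt_of_le_of_lt (hpq i j) ?_
    have g1 : 1 < (1 + δ) ^ 2 := by nlinarith
    exact lt_mul_of_one_lt_left (hp i j hij) g1

open Filter Topology in
/-- contractions of distinct points -/
lemma key (h : StrictCStmt) {d N e k : ℕ} (hk : 4 ≤ k) (hek : e + k = d + 4)
    (p q : Fin N → Fin d → ℝ) (cl : Fin N → Fin k) (hcl : Function.Surjective cl)
    (hp : ∀ i j, i ≠ j → 0 < ∑ k, (p i k - p j k) ^ 2)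
    (hpq : ∀ i j, ∑ k, (q i k - q j k) ^ 2 ≤ ∑ k, (p i k - p j k) ^ 2)
    (hfin : ∀ δ : ℝ, Module.finrank ℝ (spn (fun i k => (1 + δ) * p i k) q cl) ≤ e)
    (r : Fin N → ℝ) (hr : ∀ i, 0 ≤ r i) :
    volume (KS p (fun i => r i ^ 2)) ≤ volume (KS q (fun i => r i ^ 2)) := by
  have hN : 0 < N := by
    obtain ⟨i, _⟩ := hcl ⟨0, by omega⟩
    exact lt_of_le_of_lt (Nat.zero_le _) i.2
  set τ : ℕ → ℝ := fun n => 1 / ((n : ℝ) + 1) with hτ
  have hτ0 : ∀ n, 0 < τ n := fun n => by positivity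
  have hτlim : Tendsto τ atTop (𝓝 0) := tendsto_one_div_add_atTop_nhds_zero_nat
  have hτa : Antitone τ := fun m n hmn => by
    simp only [hτ]
    apply one_div_le_one_div_of_le (by positivity)
    have : (m : ℝ) ≤ n := by exact_mod_cast hmn
    linarith
  set S : ℕ → Set (Fin d → ℝ) := fun n => KS q (fun i => (r i + τ n) ^ 2 + τ n) with hS
  have h1 : ∀ n, volume (KS p (fun i => r i ^ 2)) ≤ volume (S n) := by
    intro n
    obtain ⟨δ, hδ, hp', hs⟩ := scale p q hp hpq (hτ0 n)
    have h2 := strict h hk hek (fun i k => (1 + δ) * p i k) q cl hcl hs (hfin δ)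
      (fun i => (r i + τ n) ^ 2) (hτ0 n)
    refine le_trans (measure_mono ?_) h2
    intro x hx i
    exact triangle (hr i) (hτ0 n).le (hx i) (hp' i)
  have hanti : Antitone S := by
    intro m n hmn x hx i
    refine (hx i).trans ?_
    have h2 := hτa hmn
    have h3 := hτ0 n
    have h4 := hr i
    have h5 : (r i + τ n) ^ 2 ≤ (r i + τ m) ^ 2 := by
      apply pow_le_pow_left₀ (by linarith)
      linarith
    linarith
  have hint : ⋂ n, S n = KS q (fun i => r i ^ 2) := by
    apply Set.Subset.antisymm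
    · intro x hx i
      rw [mem_iInter] at hx
      have hlim : Tendsto (fun n => (r i + τ n) ^ 2 + τ n) atTop (𝓝 ((r i + 0) ^ 2 + 0)) :=
        ((tendsto_const_nhds.add hτlim).pow 2).add hτlim
      rw [add_zero, add_zero] at hlim
      exact ge_of_tendsto' hlim fun n => hx n i
    · intro x hx
      rw [mem_iInter]
      intro n i
      refine (hx i).trans ?_
      have h3 := hτ0 n
      have h4 := hr i
      have h5 : r i ^ 2 ≤ (r i + τ n) ^ 2 := by
        apply pow_le_pow_left₀ h4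
        linarith
      linarith
  have hlim := tendsto_measure_iInter_atTop (μ := (volume : Measure (Fin d → ℝ)))
    (fun n => (isClosed_KS q _).measurableSet.nullMeasurableSet) hanti
    ⟨0, (measure_KS_lt_top hN _ _).ne⟩
  rw [hint] at hlim
  exact ge_of_tendsto' hlim h1

/-- the dimension of the span of the scaled points -/
lemma finrank_le {d N k : ℕ} (p q : Fin N → EuclideanSpace ℝ (Fin d)) (cl : Fin N → Fin k)
    (δ : ℝ) :
    Module.finrank ℝ (spn (fun i k => (1 + δ) * p i k) (fun i k => q i k) cl) ≤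
      Module.finrank ℝ (Submodule.span ℝ
        {w : EuclideanSpace ℝ (Fin d) × EuclideanSpace ℝ (Fin d) |
          ∃ i j, cl i = cl j ∧ w = (p i - p j, q i - q j)}) := by
  let E : EuclideanSpace ℝ (Fin d) →ₗ[ℝ] (Fin d → ℝ) :=
    (WithLp.linearEquiv 2 ℝ (Fin d → ℝ)).toLinearMap
  let L : EuclideanSpace ℝ (Fin d) × EuclideanSpace ℝ (Fin d) →ₗ[ℝ]
      (Fin d → ℝ) × (Fin d → ℝ) := LinearMap.prodMap ((1 + δ) • E) E
  refine le_trans (Submodule.finrank_mono ?_) (Submodule.finrank_map_le L _)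
  unfold spn
  rw [Submodule.map_span]
  refine Submodule.span_mono ?_
  rintro w ⟨i, j, hij, rfl⟩
  refine ⟨(p i - p j, q i - q j), ⟨i, j, hij, rfl⟩, ?_⟩
  refine Prod.ext ?_ ?_
  · funext k
    show (1 + δ) * ((p i - p j) k) = (1 + δ) * p i k - (1 + δ) * p j k
    rw [PiLp.sub_apply]
    ring
  · funext k
    show (q i - q j) k = q i k - q j k
    rw [PiLp.sub_apply]

end InjC

open InjC in
theorem injCStmt (h : StrictCStmt) : InjCStmt := by
  intro d N k hk p q cl hcl hinj hpq hfin r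
  have h3 : ∀ x y : EuclideanSpace ℝ (Fin d), ∑ k, (x k - y k) ^ 2 = dist x y ^ 2 := by
    intro x y
    rw [EuclideanSpace.dist_sq_eq]
    refine Finset.sum_congr rfl fun k _ => ?_
    rw [Real.dist_eq, sq_abs]
  by_cases hr : ∀ i, 0 ≤ r i
  · rw [Few.Final.volume_balls p r hr, Few.Final.volume_balls q r hr]
    refine key h (e := d + 4 - k) hk (by omega) _ _ cl hcl (fun i j hij => ?_) (fun i j => ?_)
      (fun δ => ?_) r hr
    · rw [h3]
      have h4 : 0 < dist (p i) (p j) := dist_pos.2 fun h5 => hij (hinj h5)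
      positivity
    · rw [h3, h3]
      exact pow_le_pow_left₀ dist_nonneg (hpq i j) 2
    · have h4 := finrank_le p q cl δ
      omega
  · push Not at hr
    obtain ⟨i, hi⟩ := hr
    have : (⋂ i, Metric.closedBall (p i) (r i)) = ∅ := by
      apply Set.eq_empty_of_subset_empty
      intro x hx
      rw [mem_iInter] at hx
      have := hx i
      rw [Metric.closedBall_eq_empty.mpr hi] at this
      exact this
    rw [this]
    simp

end Pool.Agent.Lib.MP_0c1c75_co.Clu
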