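import Pool.Agent.Lib.MP_0c1c75_co.CluSpec

/-!
MP_0c1c75_co, clusters: derivatives of determinant and inverse along a line, positive definite
matrices along a segment.
-/

set_option autoImplicit false

open Set

namespace Pool.Agent.Lib.MP_0c1c75_co.Clu

namespace MatG

open Matrix

variable {ι : Type} [Fintype ι] [DecidableEq ι]

lemma hasDerivAt_det_one (K : Matrix ι ι ℝ) :
    HasDerivAt (fun r : ℝ => (1 + r • K).det) K.trace 0 := by
  set p := (Matrix.det (1 + (Polynomial.X : Polynomial ℝ) • K.map Polynomial.C)).divX.divX with hp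
  have h0 : (fun r : ℝ => (1 + r • K).det) = fun r => 1 + K.trace * r + p.eval r * r ^ 2 := by
    funext r
    exact Matrix.det_one_add_smul r K
  rw [h0]
  have h1 : HasDerivAt (fun r : ℝ => 1 + K.trace * r) K.trace 0 := by
    simpa using ((hasDerivAt_id (0 : ℝ)).const_mul K.trace).const_add 1
  have h2 : HasDerivAt (fun r : ℝ => p.eval r * r ^ 2) 0 0 := by
    refine ((p.hasDerivAt (0 : ℝ)).fun_mul (hasDerivAt_pow 2 (0 : ℝ))).congr_deriv ?_
    simp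
  exact (h1.fun_add h2).congr_deriv (add_zero _)

lemma hasDerivAt_det (M H : Matrix ι ι ℝ) (θ : ℝ) (h : (M + θ • H).det ≠ 0) :
    HasDerivAt (fun s : ℝ => (M + s • H).det) ((M + θ • H).det * ((M + θ • H)⁻¹ * H).trace) θ := by
  set Y := M + θ • H with hY
  have hu : IsUnit Y.det := isUnit_iff_ne_zero.mpr h
  have h1 : (fun s : ℝ => (M + s • H).det) = fun s => Y.det * (1 + (s - θ) • (Y⁻¹ * H)).det := by
    funext s
    rw [← Matrix.det_mul, mul_add, mul_one, mul_smul_comm, ← mul_assoc, Matrix.mul_nonsing_inv _ hu,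
      one_mul, hY, add_assoc, ← add_smul, add_sub_cancel]
  rw [h1]
  have h2 : HasDerivAt (fun s : ℝ => (1 + (s - θ) • (Y⁻¹ * H)).det) (Y⁻¹ * H).trace θ := by
    have h3 : HasDerivAt (fun s : ℝ => s - θ) 1 θ := (hasDerivAt_id θ).sub_const θ
    have h4 : HasDerivAt (fun r : ℝ => (1 + r • (Y⁻¹ * H)).det) (Y⁻¹ * H).trace (θ - θ) := by
      rw [sub_self]
      exact hasDerivAt_det_one (Y⁻¹ * H)
    have h5 := HasDerivAt.comp (h₂ := fun r : ℝ => (1 + r • (Y⁻¹ * H)).det)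
      (h := fun s : ℝ => s - θ) θ h4 h3
    rw [mul_one] at h5
    exact h5
  exact h2.const_mul _

section inv

attribute [local instance] Matrix.linftyOpNormedRing Matrix.linftyOpNormedAlgebra

lemma hasDerivAt_inv (M H : Matrix ι ι ℝ) (θ : ℝ) (h : (M + θ • H).det ≠ 0)
    (i j : ι) :
    HasDerivAt (fun s : ℝ => (M + s • H)⁻¹ i j)
      (-((M + θ • H)⁻¹ * H * (M + θ • H)⁻¹) i j) θ := by
  have hu : IsUnit (M + θ • H) := (Matrix.isUnit_iff_isUnit_det _).mpr (isUnit_iff_ne_zero.mpr h)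
  obtain ⟨Y, hY⟩ := hu
  have : CompleteSpace (Matrix ι ι ℝ) := FiniteDimensional.complete ℝ _
  have h1 := hasFDerivAt_ringInverse (𝕜 := ℝ) Y
  have h2 : HasDerivAt (fun s : ℝ => M + s • H) H θ := by
    have h0 := ((hasDerivAt_id θ).smul_const H).const_add M
    rw [one_smul] at h0
    exact h0
  rw [hY] at h1
  have h3 := HasFDerivAt.comp_hasDerivAt θ h1 h2
  have h4 := ((Matrix.entryLinearMap ℝ ℝ i j).toContinuousLinearMap.hasFDerivAt).comp_hasDerivAt θ h3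
  have hYi : ((Y⁻¹ : (Matrix ι ι ℝ)ˣ) : Matrix ι ι ℝ) =
      (M + θ • H)⁻¹ := by
    rw [← hY, Matrix.coe_units_inv]
  simp only [hYi] at h4
  refine (h4.congr_deriv ?_).congr_of_eventuallyEq (Filter.Eventually.of_forall fun s => ?_)
  · change (-((M + θ • H)⁻¹ * H * (M + θ • H)⁻¹)) i j = -((M + θ • H)⁻¹ * H * (M + θ • H)⁻¹) i j
    rfl
  · change (M + s • H)⁻¹ i j = Ring.inverse (M + s • H) i j
    rw [Matrix.nonsing_inv_eq_ringInverse]

end inv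

lemma lower (Γ : Matrix ι ι ℝ) (Λ : ℝ) (hΓ : Γ.PosDef) (hΛ : 0 < Λ)
    (hle : ∀ t, t ⬝ᵥ Γ.mulVec t ≤ Λ * (t ⬝ᵥ t)) (t : ι → ℝ) :
    (t ⬝ᵥ t) / (4 * Λ) ≤ qg Γ⁻¹ t := by
  have hdet : IsUnit Γ.det := (Matrix.isUnit_iff_isUnit_det _).mp hΓ.isUnit
  have hsymm : Γᵀ = Γ := by
    have := hΓ.isHermitian
    rwa [Matrix.IsHermitian, Matrix.conjTranspose_eq_transpose_of_trivial] at this
  set u := Γ⁻¹.mulVec t with hu
  have hΓu : Γ.mulVec u = t := by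
    rw [hu, Matrix.mulVec_mulVec, Matrix.mul_nonsing_inv _ hdet, Matrix.one_mulVec]
  have h1 : 0 ≤ (u - Λ⁻¹ • t) ⬝ᵥ Γ.mulVec (u - Λ⁻¹ • t) := by
    have := hΓ.posSemidef.dotProduct_mulVec_nonneg (u - Λ⁻¹ • t)
    simpa using this
  have h2 : u ⬝ᵥ Γ.mulVec t = t ⬝ᵥ t := by
    rw [Matrix.dotProduct_mulVec, ← Matrix.mulVec_transpose, hsymm, hΓu]
  have h3 : (u - Λ⁻¹ • t) ⬝ᵥ Γ.mulVec (u - Λ⁻¹ • t) =
      t ⬝ᵥ u - 2 * Λ⁻¹ * (t ⬝ᵥ t) + Λ⁻¹ ^ 2 * (t ⬝ᵥ Γ.mulVec t) := by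
    rw [Matrix.mulVec_sub, Matrix.mulVec_smul, hΓu, sub_dotProduct, dotProduct_sub, dotProduct_sub,
      smul_dotProduct, smul_dotProduct, dotProduct_smul, dotProduct_smul, h2, dotProduct_comm u t]
    simp only [smul_eq_mul]
    ring
  rw [h3] at h1
  have h4 : Λ⁻¹ ^ 2 * (t ⬝ᵥ Γ.mulVec t) ≤ Λ⁻¹ ^ 2 * (Λ * (t ⬝ᵥ t)) :=
    mul_le_mul_of_nonneg_left (hle t) (by positivity)
  have h5 : Λ⁻¹ ^ 2 * (Λ * (t ⬝ᵥ t)) = Λ⁻¹ * (t ⬝ᵥ t) := by
    field_simp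
  have h6 : Λ⁻¹ * (t ⬝ᵥ t) ≤ t ⬝ᵥ u := by linarith
  have h7 : (t ⬝ᵥ t) / (4 * Λ) = (1 / 4) * (Λ⁻¹ * (t ⬝ᵥ t)) := by
    field_simp
  rw [h7, qg, ← hu]
  linarith


/-- positive definite matrices along a segment -/
lemma posSeg (M H : Matrix ι ι ℝ) (hM : M.PosDef) (hMH : (M + H).PosDef) (l : ℝ)
    (hl : l ∈ Icc (0 : ℝ) 1) : (M + l • H).PosDef := by
  have e : M + l • H = (1 - l) • M + l • (M + H) := by
    rw [smul_add, ← add_assoc, ← add_smul, sub_add_cancel, one_smul]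
  rw [e]
  rcases eq_or_lt_of_le hl.1 with h0 | h0
  · rw [← h0]
    simpa using hM
  · rcases eq_or_lt_of_le hl.2 with h1 | h1
    · rw [h1]
      simpa using hMH
    · exact (hM.smul (by linarith : (0 : ℝ) < 1 - l)).add (hMH.smul h0)

lemma sum_abs_sq (t : ι → ℝ) : (∑ i, |t i|) ^ 2 ≤ Fintype.card ι * (t ⬝ᵥ t) := by
  have h1 := sq_sum_le_card_mul_sum_sq (s := (Finset.univ : Finset ι)) (f := fun i => |t i|)
  rw [Finset.card_univ] at h1
  have h2 : ∑ i, |t i| ^ 2 = t ⬝ᵥ t := by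
    simp only [dotProduct]
    exact Finset.sum_congr rfl fun i _ => by rw [sq_abs, sq]
  rw [h2] at h1
  exact h1

lemma form_le (Γ : Matrix ι ι ℝ) (K : ℝ) (hK : ∀ i j, |Γ i j| ≤ K) (hK0 : 0 ≤ K) (t : ι → ℝ) :
    t ⬝ᵥ Γ.mulVec t ≤ (K * Fintype.card ι + 1) * (t ⬝ᵥ t) := by
  have h1 : t ⬝ᵥ Γ.mulVec t ≤ K * (∑ i, |t i|) ^ 2 := by
    have e1 : t ⬝ᵥ Γ.mulVec t = ∑ i, ∑ j, t i * (Γ i j * t j) := by
      simp only [dotProduct, Matrix.mulVec, Finset.mul_sum]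
    have e2 : K * (∑ i, |t i|) ^ 2 = ∑ i, ∑ j, |t i| * (K * |t j|) := by
      rw [sq, Finset.sum_mul_sum, Finset.mul_sum]
      refine Finset.sum_congr rfl fun i _ => ?_
      rw [Finset.mul_sum]
      exact Finset.sum_congr rfl fun j _ => by ring
    rw [e1, e2]
    refine Finset.sum_le_sum fun i _ => Finset.sum_le_sum fun j _ => ?_
    refine (le_abs_self _).trans ?_
    rw [abs_mul, abs_mul]
    exact mul_le_mul_of_nonneg_left (mul_le_mul_of_nonneg_right (hK i j) (abs_nonneg _))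
      (abs_nonneg _)
  have h2 := mul_le_mul_of_nonneg_left (sum_abs_sq t) hK0
  have h3 : 0 ≤ t ⬝ᵥ t := by
    simp only [dotProduct]
    exact Finset.sum_nonneg fun i _ => mul_self_nonneg _
  nlinarith

lemma part3 (M H : Matrix ι ι ℝ) (hM : M.PosDef) (hMH : (M + H).PosDef) :
    ∃ lam Λ D : ℝ, 0 < lam ∧ 0 < D ∧ ∀ l ∈ Icc (0 : ℝ) 1, (M + l • H).PosDef ∧
      (∀ y, lam * (y ⬝ᵥ y) ≤ qg (M + l • H)⁻¹ y) ∧ (∀ i j, |(M + l • H)⁻¹ i j| ≤ Λ) ∧
      (∀ i j, |(M + l • H) i j| ≤ Λ) ∧ D ≤ Real.sqrt (M + l • H).det := by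
  have hpos := posSeg M H hM hMH
  have hdet : ∀ l ∈ Icc (0 : ℝ) 1, 0 < (M + l • H).det := fun l hl => (hpos l hl).det_pos
  have hC : ∀ i j, ∃ C : ℝ, ∀ l ∈ Icc (0 : ℝ) 1, |(M + l • H)⁻¹ i j| ≤ C := by
    intro i j
    have hc : ContinuousOn (fun s : ℝ => (M + s • H)⁻¹ i j) (Icc (0 : ℝ) 1) := fun l hl =>
      (hasDerivAt_inv M H l (hdet l hl).ne' i j).continuousAt.continuousWithinAt
    obtain ⟨C, hC⟩ := isCompact_Icc.exists_bound_of_continuousOn hc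
    exact ⟨C, fun l hl => by simpa using hC l hl⟩
  choose C hC using hC
  have hC0 : ∀ i j, 0 ≤ C i j := fun i j => (abs_nonneg _).trans (hC i j 0 ⟨le_rfl, zero_le_one⟩)
  set Λ : ℝ := ∑ i, ∑ j, (|M i j| + |H i j| + C i j) with hΛ
  have hterm : ∀ i j, 0 ≤ |M i j| + |H i j| + C i j := fun i j => by
    have := hC0 i j
    positivity
  have hle : ∀ i j, |M i j| + |H i j| + C i j ≤ Λ := by
    intro i j
    have h1 : |M i j| + |H i j| + C i j ≤ ∑ j, (|M i j| + |H i j| + C i j) :=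
      Finset.single_le_sum (f := fun j => |M i j| + |H i j| + C i j) (fun j _ => hterm i j)
        (Finset.mem_univ j)
    have h2 : ∑ j, (|M i j| + |H i j| + C i j) ≤ Λ :=
      Finset.single_le_sum (f := fun i => ∑ j, (|M i j| + |H i j| + C i j))
        (fun i _ => Finset.sum_nonneg fun j _ => hterm i j) (Finset.mem_univ i)
    exact h1.trans h2
  have hΛ0 : 0 ≤ Λ := Finset.sum_nonneg fun i _ => Finset.sum_nonneg fun j _ => hterm i j
  have hent : ∀ l ∈ Icc (0 : ℝ) 1, ∀ i j, |(M + l • H) i j| ≤ Λ := by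
    intro l hl i j
    have h1 : |(M + l • H) i j| ≤ |M i j| + |H i j| := by
      rw [Matrix.add_apply, Matrix.smul_apply, smul_eq_mul]
      refine (abs_add_le _ _).trans ?_
      rw [abs_mul, abs_of_nonneg hl.1]
      have h2 : l * |H i j| ≤ 1 * |H i j| := mul_le_mul_of_nonneg_right hl.2 (abs_nonneg _)
      linarith
    have h3 := hle i j
    have h4 := hC0 i j
    linarith
  have hdc : ContinuousOn (fun s : ℝ => Real.sqrt (M + s • H).det) (Icc (0 : ℝ) 1) := fun l hl =>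
    ((hasDerivAt_det M H l (hdet l hl).ne').continuousAt.sqrt).continuousWithinAt
  obtain ⟨l₀, hl₀, hmin⟩ := isCompact_Icc.exists_isMinOn
    (⟨0, le_rfl, zero_le_one⟩ : (Icc (0 : ℝ) 1).Nonempty) hdc
  have hΛ1 : 0 < Λ * Fintype.card ι + 1 := by positivity
  refine ⟨1 / (4 * (Λ * Fintype.card ι + 1)), Λ, Real.sqrt (M + l₀ • H).det, by positivity,
    Real.sqrt_pos.2 (hdet l₀ hl₀), fun l hl => ⟨hpos l hl, ?_, ?_, hent l hl, hmin hl⟩⟩
  · intro y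
    have h1 := lower (M + l • H) (Λ * Fintype.card ι + 1) (hpos l hl) hΛ1
      (form_le _ Λ (hent l hl) hΛ0) y
    have e : 1 / (4 * (Λ * Fintype.card ι + 1)) * (y ⬝ᵥ y) =
        (y ⬝ᵥ y) / (4 * (Λ * Fintype.card ι + 1)) := by ring
    rw [e]
    exact h1
  · intro i j
    have h1 := hC i j l hl
    have h2 := hle i j
    have h3 := abs_nonneg (M i j)
    have h4 := abs_nonneg (H i j)
    linarith

end MatG

theorem matGStmt : MatGStmt :=
  ⟨fun _ _ _ M H θ h => ⟨MatG.hasDerivAt_det M H θ h, MatG.hasDerivAt_inv M H θ h⟩,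
    fun _ _ _ Γ Λ hΓ hΛ hle => MatG.lower Γ Λ hΓ hΛ hle,
    fun _ _ _ M H hM hMH => MatG.part3 M H hM hMH⟩

end Pool.Agent.Lib.MP_0c1c75_co.Clu
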