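import Pool.Agent.Lib.MP_0c1c75_co.CluSpec

/-!
# MP_0c1c75_co, clusters: the lower bound for a pair of balls (helper50)
-/

open MeasureTheory Set
open scoped ContDiff

namespace Pool.Agent.Lib.MP_0c1c75_co.Clu

open Pool.Agent.Lib.MP_0c1c75_co.Few (Prof)

namespace Pair

/-- the box -/
def Bx (ι : Type) (R : ℝ) : Set (ι → ℝ) := {y | ∀ A, |y A| ≤ R}

theorem bx_eq {ι : Type} [Fintype ι] {R : ℝ} (hR : 0 ≤ R) :
    Bx ι R = Metric.closedBall (0 : ι → ℝ) R := by
  ext y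
  rw [mem_closedBall_zero_iff, pi_norm_le_iff_of_nonneg hR]
  rfl

theorem bx_compact {ι : Type} [Fintype ι] {R : ℝ} (hR : 0 ≤ R) : IsCompact (Bx ι R) := by
  rw [bx_eq hR]
  exact isCompact_closedBall _ _

theorem not_bx {ι : Type} {R : ℝ} {y : ι → ℝ} (h : y ∉ Bx ι R) : ∃ A, R < |y A| := by
  by_contra hc
  push Not at hc
  exact h hc

/-- comparison with a function on the box -/
theorem low {ι : Type} [Fintype ι] {R : ℝ} (hR : 0 ≤ R) (g f : (ι → ℝ) → ℝ)
    (hf : Continuous f) (hf0 : ∀ y, 0 ≤ f y) (h0 : ∀ y, (∃ A, R < |y A|) → 0 ≤ g y)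
    (h1 : ∀ y, -f y ≤ g y) : -∫ y in Bx ι R, f y ≤ ∫ y, g y := by
  have hm : MeasurableSet (Bx ι R) := (bx_compact hR).isClosed.measurableSet
  have hfi : IntegrableOn f (Bx ι R) := hf.continuousOn.integrableOn_compact (bx_compact hR)
  have hI : Integrable ((Bx ι R).indicator f) := (integrable_indicator_iff hm).2 hfi
  by_cases hg : Integrable g
  · have h3 : ∫ y, -((Bx ι R).indicator f y) ≤ ∫ y, g y := by
      refine integral_mono hI.neg hg fun y => ?_
      by_cases hy : y ∈ Bx ι R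
      · simp only [Pi.neg_apply, indicator_of_mem hy]
        exact h1 y
      · simp only [Pi.neg_apply, indicator_of_notMem hy, neg_zero]
        exact h0 y (not_bx hy)
    rwa [integral_neg, integral_indicator hm] at h3
  · rw [integral_undef hg]
    exact neg_nonpos.2 (setIntegral_nonneg hm fun y _ => hf0 y)

theorem abs_dot_le {ι : Type} [Fintype ι] (v y : ι → ℝ) :
    |v ⬝ᵥ y| ≤ (∑ A, |v A|) * ∑ A, |y A| := by
  unfold dotProduct
  rw [Finset.mul_sum]
  refine (Finset.abs_sum_le_sum_abs _ _).trans (Finset.sum_le_sum fun A _ => ?_)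
  rw [abs_mul]
  refine mul_le_mul_of_nonneg_right ?_ (abs_nonneg _)
  exact Finset.single_le_sum (f := fun A => |v A|) (fun _ _ => abs_nonneg _) (Finset.mem_univ A)

theorem abs_quad_le {ι : Type} [Fintype ι] (v : ι → ℝ) (Γ : Matrix ι ι ℝ) (Λ : ℝ)
    (hΓ : ∀ i j, |Γ i j| ≤ Λ) : |v ⬝ᵥ Γ.mulVec v| ≤ (∑ A, |v A|) * (Λ * ∑ A, |v A|) := by
  unfold dotProduct
  rw [Finset.sum_mul]
  refine (Finset.abs_sum_le_sum_abs _ _).trans (Finset.sum_le_sum fun A _ => ?_)
  rw [abs_mul]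
  refine mul_le_mul_of_nonneg_left ?_ (abs_nonneg _)
  unfold Matrix.mulVec dotProduct
  rw [Finset.mul_sum]
  refine (Finset.abs_sum_le_sum_abs _ _).trans (Finset.sum_le_sum fun B _ => ?_)
  rw [abs_mul]
  exact mul_le_mul_of_nonneg_right (hΓ A B) (abs_nonneg _)

theorem qg_cont {ι : Type} [Fintype ι] (A : Matrix ι ι ℝ) : Continuous (qg A) := by
  unfold qg
  simp only [dotProduct, Matrix.mulVec]
  fun_prop

theorem sg_cont {N : ℕ} {ι : Type} [Fintype ι] (α : Fin N → ι → ℝ) (a : Fin N → ℝ)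
    (Γ : Matrix ι ι ℝ) : Continuous (sg α a Γ) := by
  refine continuous_pi fun i => ?_
  unfold sg
  simp only [dotProduct]
  fun_prop

theorem av_ne {N e k : ℕ} {al : Fin N → Fin e → ℝ} {cl : Fin N → Fin k}
    (h : ∀ i j, i ≠ j → cl i = cl j → al i ≠ al j) {i j : Fin N} (hij : i ≠ j) :
    av al cl i - av al cl j ≠ 0 := by
  intro h0
  have h1 : av al cl i = av al cl j := sub_eq_zero.1 h0
  by_cases hc : cl i = cl j
  · refine h i j hij hc ?_
    funext A
    have := congrFun h1 (Sum.inl A)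
    simpa [av] using this
  · have := congrFun h1 (Sum.inr (cl i))
    simp [av, Pi.single_apply, hc] at this

/-- the bound for one pair -/
theorem one (h1 : PairFibStmt) (h2 : EstStmt) (h3 : SumIntStmt) (h4 : MatGStmt) (h5 : BoxStmt)
    {e k N : ℕ} (hk : 4 ≤ k) {Φ : ℝ → ℝ} (hΦ : Prof Φ)
    {M H : Matrix (Fin e ⊕ Fin k) (Fin e ⊕ Fin k) ℝ} (hM : M.PosDef) (hMH : (M + H).PosDef)
    {al : Fin N → Fin e → ℝ} {cl : Fin N → Fin k} (hcl : Function.Surjective cl)
    (hal : ∀ i j, i ≠ j → cl i = cl j → al i ≠ al j) (a : Fin N → ℝ) {i j : Fin N}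
    (hij : i ≠ j) : ∃ C : ℝ, 0 ≤ C ∧ ∀ β : ℝ, 1 ≤ β → ∀ l ∈ Icc (0 : ℝ) 1,
      -(C / β) ≤ ∫ y, pint Φ β (av al cl) a (M + l • H) i j y := by
  obtain ⟨hE1, hE2, -⟩ := h2
  have hN : 0 < N := lt_of_le_of_lt (Nat.zero_le _) i.2
  obtain ⟨lam, Λ, D, hlam, hD, hmat⟩ := h4.2.2 (Fin e ⊕ Fin k) M H hM hMH
  obtain ⟨B, hB, -, hB1, hB2, -, -, -, hdd, hddc⟩ := h5.2 Φ hΦ
  set α := av al cl with hα
  set C₁ : ℝ := ∑ A, |α i A| with hC₁
  set C₀ : ℝ := C₁ * (Λ * C₁) + |a i| with hC₀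
  obtain ⟨R, hR, hbox⟩ := h5.1 (Fin e ⊕ Fin k) Φ hΦ lam C₀ C₁ hlam
  obtain ⟨Cf, Rf, hCf, hRf, hfib⟩ := h1 e k N hk Φ hΦ M H hM hMH al cl hcl a
  obtain ⟨C', hC', hest⟩ := hE2 (Fin e ⊕ Fin k) (α i - α j) (av_ne hal hij) R
  -- the constant for the fibre part
  obtain ⟨C₂, hC₂, hfib2⟩ : ∃ C₂ : ℝ, 0 ≤ C₂ ∧ ∀ β : ℝ, 1 ≤ β → ∀ l ∈ Icc (0 : ℝ) 1,
      -(C₂ / β) ≤ ∫ s : Fin e → ℝ, ∫ t : Fin k → ℝ,
        bint Φ β α a (M + l • H) i j (Sum.elim s t) := by
    by_cases hc : cl i = cl j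
    · have hv : al i - al j ≠ 0 := fun h0 => hal i j hij hc (sub_eq_zero.1 h0)
      obtain ⟨C3, hC3, hest3⟩ := hE2 (Fin e) (al i - al j) hv Rf
      refine ⟨Cf * C3, mul_nonneg hCf hC3, fun β hβ l hl => ?_⟩
      have hβ0 : 0 < β := lt_of_lt_of_le one_pos hβ
      set b := bb α a (M + l • H) i - bb α a (M + l • H) j with hb
      have h6 := low hRf (fun s : Fin e → ℝ => ∫ t : Fin k → ℝ,
          bint Φ β α a (M + l • H) i j (Sum.elim s t))
        (fun s => Cf * Real.exp (-(β * |(al i - al j) ⬝ᵥ s + b|)))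
        (by
          simp only [dotProduct]
          fun_prop)
        (fun s => mul_nonneg hCf (Real.exp_pos _).le)
        (fun s hs => ((hfib β hβ l hl i j hij s).1 hs).ge)
        (fun s => by
          have h7 := (hfib β hβ l hl i j hij s).2.2 hc
          have h8 : (al i - al j) ⬝ᵥ s + b = (al i ⬝ᵥ s + bb α a (M + l • H) i) -
              (al j ⬝ᵥ s + bb α a (M + l • H) j) := by
            rw [sub_dotProduct, hb]
            ring
          rw [h8]
          exact h7)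
      refine le_trans (neg_le_neg ?_) h6
      rw [integral_const_mul, mul_div_assoc]
      exact mul_le_mul_of_nonneg_left (hest3 β hβ0 b) hCf
    · refine ⟨(volume (Bx (Fin e) Rf)).toReal * Cf, mul_nonneg ENNReal.toReal_nonneg hCf,
        fun β hβ l hl => ?_⟩
      have hβ0 : 0 < β := lt_of_lt_of_le one_pos hβ
      have h6 := low hRf (fun s : Fin e → ℝ => ∫ t : Fin k → ℝ,
          bint Φ β α a (M + l • H) i j (Sum.elim s t))
        (fun _ => Cf / β) continuous_const (fun s => div_nonneg hCf hβ0.le)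
        (fun s hs => ((hfib β hβ l hl i j hij s).1 hs).ge)
        (fun s => (hfib β hβ l hl i j hij s).2.1 hc)
      refine le_trans (neg_le_neg ?_) h6
      rw [setIntegral_const, smul_eq_mul, mul_div_assoc]
      exact le_rfl
  refine ⟨B * C' + C₂, add_nonneg (mul_nonneg hB hC') hC₂, fun β hβ l hl => ?_⟩
  have hβ0 : 0 < β := lt_of_lt_of_le one_pos hβ
  obtain ⟨hpos, hq, -, hΓ, -⟩ := hmat l hl
  obtain ⟨hz, -, hsmc, hwtc⟩ := hE1 N hN β hβ0
  set Γ := M + l • H with hΓdef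
  set E : (Fin e ⊕ Fin k → ℝ) → ℝ := fun y => qg Γ⁻¹ y + smx β (sg α a Γ y) with hEdef
  have hEc : Continuous E := (qg_cont _).add (hsmc.comp (sg_cont α a Γ))
  have hwi : Continuous fun y => wt β (sg α a Γ y) i := (hwtc i).comp (sg_cont α a Γ)
  have hwj : Continuous fun y => wt β (sg α a Γ y) j := (hwtc j).comp (sg_cont α a Γ)
  -- outside the box
  have hout : ∀ y : Fin e ⊕ Fin k → ℝ, (∃ A, R < |y A|) →
      deriv Φ (E y) = 0 ∧ deriv (deriv Φ) (E y) = 0 := by
    intro y hy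
    have h6 := hbox y (qg Γ⁻¹ y) (smx β (sg α a Γ y)) hy (hq y) (by
      have g1 := (hz (sg α a Γ y)).1
      have g2 := (hz (sg α a Γ y)).2.2.1 i
      have g3 : sg α a Γ y i = α i ⬝ᵥ y + (α i ⬝ᵥ Γ.mulVec (α i) - a i) := rfl
      have g4 := abs_dot_le (α i) y
      have g5 := abs_quad_le (α i) Γ Λ hΓ
      have g6 := neg_abs_le (α i ⬝ᵥ y)
      have g7 := neg_abs_le (α i ⬝ᵥ Γ.mulVec (α i))
      have g8 := le_abs_self (a i)
      rw [← hC₁] at g4 g5
      rw [hC₀]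
      linarith)
    exact h6.2
  set P : (Fin e ⊕ Fin k → ℝ) → ℝ := fun y =>
    wt β (sg α a Γ y) i * wt β (sg α a Γ y) j * deriv (deriv Φ) (E y) with hP
  have hPc : Continuous P := (hwi.mul hwj).mul (hddc.comp hEc)
  have hbc : Continuous (bint Φ β α a Γ i j) :=
    continuous_const.mul ((hwi.mul hwj).mul ((hdd.continuous.comp hEc).neg))
  have hPs : HasCompactSupport P := HasCompactSupport.intro (bx_compact (ι := Fin e ⊕ Fin k) hR)
    fun y hy => by
      show wt β (sg α a Γ y) i * wt β (sg α a Γ y) j * deriv (deriv Φ) (E y) = 0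
      rw [(hout y (not_bx hy)).2, mul_zero]
  have hbs : HasCompactSupport (bint Φ β α a Γ i j) :=
    HasCompactSupport.intro (bx_compact (ι := Fin e ⊕ Fin k) hR) fun y hy => by
      show β * (wt β (sg α a Γ y) i * wt β (sg α a Γ y) j * -deriv Φ (E y)) = 0
      rw [(hout y (not_bx hy)).1, neg_zero, mul_zero, mul_zero]
  have hPi : Integrable P := hPc.integrable_of_hasCompactSupport hPs
  have hbi : Integrable (bint Φ β α a Γ i j) := hbc.integrable_of_hasCompactSupport hbs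
  have hsplit : ∫ y, pint Φ β α a Γ i j y = (∫ y, P y) + ∫ y, bint Φ β α a Γ i j y := by
    rw [← integral_add hPi hbi]
    refine integral_congr_ae (Filter.Eventually.of_forall fun y => ?_)
    show wt β (sg α a Γ y) i * wt β (sg α a Γ y) j * (deriv (deriv Φ) (E y) - β * deriv Φ (E y)) =
      wt β (sg α a Γ y) i * wt β (sg α a Γ y) j * deriv (deriv Φ) (E y) +
        β * (wt β (sg α a Γ y) i * wt β (sg α a Γ y) j * -deriv Φ (E y))
    ring
  rw [hsplit, h3.1 e k _ hbi]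
  have hlow1 : -(B * C' / β) ≤ ∫ y, P y := by
    set b := bb α a Γ i - bb α a Γ j with hb
    have h6 := low hR P (fun y => B * Real.exp (-(β * |(α i - α j) ⬝ᵥ y + b|)))
      (by
        simp only [dotProduct]
        fun_prop)
      (fun y => mul_nonneg hB (Real.exp_pos _).le)
      (fun y hy => by
        show 0 ≤ wt β (sg α a Γ y) i * wt β (sg α a Γ y) j * deriv (deriv Φ) (E y)
        rw [(hout y hy).2, mul_zero])
      (fun y => by
        obtain ⟨-, -, -, -, w0, -, -, w2, -⟩ := hz (sg α a Γ y)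
        have h7 : (α i - α j) ⬝ᵥ y + b = sg α a Γ y i - sg α a Γ y j := by
          rw [sub_dotProduct, hb]
          unfold sg
          ring
        have h8 := w2 i j hij
        rw [← h7] at h8
        have h9 := hB2 (E y)
        have h10 : 0 ≤ wt β (sg α a Γ y) i * wt β (sg α a Γ y) j :=
          (mul_pos (w0 i) (w0 j)).le
        have h11 : |P y| ≤ B * Real.exp (-(β * |(α i - α j) ⬝ᵥ y + b|)) := by
          show |wt β (sg α a Γ y) i * wt β (sg α a Γ y) j * deriv (deriv Φ) (E y)| ≤ _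
          rw [abs_mul, abs_of_nonneg h10, mul_comm]
          exact mul_le_mul h9 h8 h10 hB
        exact (neg_le_neg h11).trans (neg_abs_le _))
    refine le_trans (neg_le_neg ?_) h6
    rw [integral_const_mul, mul_div_assoc]
    exact mul_le_mul_of_nonneg_left (hest β hβ0 b) hB
  have hlow2 := hfib2 β hβ l hl
  have e1 : -((B * C' + C₂) / β) = -(B * C' / β) + -(C₂ / β) := by
    rw [add_div]
    ring
  rw [e1]
  exact add_le_add hlow1 hlow2

end Pair

theorem pairStmt (h1 : PairFibStmt) (h2 : EstStmt) (h3 : SumIntStmt) (h4 : MatGStmt)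
    (h5 : BoxStmt) : PairStmt := by
  classical
  intro e k N hk Φ hΦ M H hM hMH al cl hcl hal a
  have hex : ∀ i j : Fin N, ∃ C : ℝ, 0 ≤ C ∧ (i ≠ j → ∀ β : ℝ, 1 ≤ β → ∀ l ∈ Icc (0 : ℝ) 1,
      -(C / β) ≤ ∫ y, pint Φ β (av al cl) a (M + l • H) i j y) := by
    intro i j
    by_cases hij : i = j
    · exact ⟨0, le_rfl, fun h => absurd hij h⟩
    · obtain ⟨C, hC, h⟩ := Pair.one h1 h2 h3 h4 h5 hk hΦ hM hMH hcl hal a hij
      exact ⟨C, hC, fun _ => h⟩
  choose C hC0 hC using hex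
  refine ⟨∑ i, ∑ j, C i j, Finset.sum_nonneg fun i _ => Finset.sum_nonneg fun j _ => hC0 i j,
    fun β hβ l hl i j hij => ?_⟩
  have hβ0 : 0 < β := lt_of_lt_of_le one_pos hβ
  refine le_trans (neg_le_neg ?_) (hC i j hij β hβ l hl)
  refine div_le_div_of_nonneg_right ?_ hβ0.le
  calc C i j ≤ ∑ j, C i j :=
        Finset.single_le_sum (f := fun j => C i j) (fun j _ => hC0 i j) (Finset.mem_univ j)
    _ ≤ ∑ i, ∑ j, C i j :=
        Finset.single_le_sum (f := fun i => ∑ j, C i j)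
          (fun i _ => Finset.sum_nonneg fun j _ => hC0 i j) (Finset.mem_univ i)

end Pool.Agent.Lib.MP_0c1c75_co.Clu
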