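import Pool.Agent.Lib.MP_0c1c75_co.CluSpec

/-!
MP_0c1c75_co, arbitrarily many balls in clusters: the inner integral for fixed `s`.
-/

set_option autoImplicit false

open MeasureTheory Set
open scoped ContDiff

namespace Pool.Agent.Lib.MP_0c1c75_co.Clu

open Pool.Agent.Lib.MP_0c1c75_co.Few (Prof)

namespace PairFib

theorem dot_le {ι : Type} [Fintype ι] {m z : ι → ℝ} {S : ℝ} (hm : ∀ i, |m i| ≤ S) :
    |m ⬝ᵥ z| ≤ S * ∑ i, |z i| := by
  rw [Finset.mul_sum, dotProduct]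
  refine (Finset.abs_sum_le_sum_abs _ _).trans (Finset.sum_le_sum fun i _ => ?_)
  rw [abs_mul]
  exact mul_le_mul_of_nonneg_right (hm i) (abs_nonneg _)

theorem mulVec_le {ι : Type} [Fintype ι] {A : Matrix ι ι ℝ} {L : ℝ} (hA : ∀ i j, |A i j| ≤ L)
    (z : ι → ℝ) (i : ι) : |A.mulVec z i| ≤ L * ∑ j, |z j| :=
  dot_le (hA i)

theorem quad_le {ι : Type} [Fintype ι] {A : Matrix ι ι ℝ} {L : ℝ} (hA : ∀ i j, |A i j| ≤ L)
    (z : ι → ℝ) : |z ⬝ᵥ A.mulVec z| ≤ (L * ∑ j, |z j|) * ∑ j, |z j| := by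
  rw [dotProduct_comm]
  exact dot_le (mulVec_le hA z)

/-- `σ_i(s, t) = t_{cl i} + u_i` -/
theorem sg_eq {N e k : ℕ} (al : Fin N → Fin e → ℝ) (cl : Fin N → Fin k) (a : Fin N → ℝ)
    (Γ : Matrix (Fin e ⊕ Fin k) (Fin e ⊕ Fin k) ℝ) (s : Fin e → ℝ) (t : Fin k → ℝ) :
    sg (av al cl) a Γ (Sum.elim s t) =
      fun i => t (cl i) + (al i ⬝ᵥ s + bb (av al cl) a Γ i) := by
  funext i
  have h : av al cl i ⬝ᵥ Sum.elim s t = al i ⬝ᵥ s + t (cl i) := by
    rw [av, sumElim_dotProduct_sumElim, single_dotProduct, one_mul]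
  rw [sg, h]
  ring

theorem symm_inv {ι : Type} [Fintype ι] [DecidableEq ι] {Γ : Matrix ι ι ℝ} (h : Γ.PosDef) :
    (Γ⁻¹).IsSymm := by
  have h1 : Γ⁻¹.PosDef := h.inv
  have h2 := h1.isHermitian
  rw [Matrix.IsHermitian, Matrix.conjTranspose_eq_transpose_of_trivial] at h2
  exact h2

end PairFib

open PairFib in
theorem pairFibStmt (h1 : FibreLStmt) (h2 : FibreKStmt) (h3 : EstStmt) (h4 : MatGStmt)
    (h5 : BoxStmt) (h6 : FacStmt) : PairFibStmt := by
  classical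
  intro e k N hk Φ hΦ M H hM hMH al cl hcl a
  obtain ⟨lam, L, D, hlam, -, hpath⟩ := h4.2.2 (Fin e ⊕ Fin k) M H hM hMH
  have hN : 0 < N := by
    obtain ⟨i, -⟩ := hcl ⟨0, by omega⟩
    exact lt_of_le_of_lt (Nat.zero_le _) i.isLt
  -- bounds for the coefficients
  set S : ℝ := ∑ i, ∑ A, |av al cl i A| with hS
  have hS0 : 0 ≤ S := Finset.sum_nonneg fun i _ => Finset.sum_nonneg fun A _ => abs_nonneg _
  have hSi : ∀ i, ∑ A, |av al cl i A| ≤ S := fun i =>
    Finset.single_le_sum (f := fun i => ∑ A, |av al cl i A|)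
      (fun i _ => Finset.sum_nonneg fun A _ => abs_nonneg _) (Finset.mem_univ i)
  have hSA : ∀ i A, |av al cl i A| ≤ S := fun i A =>
    (Finset.single_le_sum (f := fun A => |av al cl i A|) (fun A _ => abs_nonneg _)
      (Finset.mem_univ A)).trans (hSi i)
  have hL0 : 0 ≤ L := by
    have h7 := (hpath 0 ⟨le_rfl, zero_le_one⟩).2.2.1 (Sum.inr ⟨0, by omega⟩)
      (Sum.inr ⟨0, by omega⟩)
    exact (abs_nonneg _).trans h7
  set T : ℝ := L * S * S + ∑ i, |a i| with hT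
  have hT0 : 0 ≤ T := add_nonneg (by positivity) (Finset.sum_nonneg fun i _ => abs_nonneg _)
  have hbb : ∀ l ∈ Icc (0 : ℝ) 1, ∀ i, |bb (av al cl) a (M + l • H) i| ≤ T := by
    intro l hl i
    have h7 := quad_le (hpath l hl).2.2.2.1 (av al cl i)
    have h8 : |a i| ≤ ∑ i, |a i| :=
      Finset.single_le_sum (f := fun i => |a i|) (fun i _ => abs_nonneg _) (Finset.mem_univ i)
    have h9 : (L * ∑ j, |av al cl i j|) * ∑ j, |av al cl i j| ≤ L * S * S := by
      refine mul_le_mul (mul_le_mul_of_nonneg_left (hSi i) hL0) (hSi i)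
        (Finset.sum_nonneg fun A _ => abs_nonneg _) (by positivity)
    calc |bb (av al cl) a (M + l • H) i|
        ≤ |av al cl i ⬝ᵥ (M + l • H).mulVec (av al cl i)| + |a i| := abs_sub _ _
      _ ≤ T := add_le_add (h7.trans h9) h8
  -- the box
  obtain ⟨R, hR0, hR⟩ := h5.1 (Fin e ⊕ Fin k) Φ hΦ lam T S hlam
  have hvan : ∀ β : ℝ, 0 < β → ∀ l ∈ Icc (0 : ℝ) 1, ∀ y : Fin e ⊕ Fin k → ℝ,
      (∃ A, R < |y A|) →
      deriv Φ (qg (M + l • H)⁻¹ y + smx β (sg (av al cl) a (M + l • H) y)) = 0 := by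
    intro β hβ l hl y hy
    refine (hR y _ _ hy ((hpath l hl).2.1 y) ?_).2.1
    obtain ⟨hE, -⟩ := h3.1 N hN β hβ
    obtain ⟨e1, -, e2, -⟩ := hE (sg (av al cl) a (M + l • H) y)
    have e3 := e2 ⟨0, hN⟩
    have e4 := dot_le (z := y) (hSA ⟨0, hN⟩)
    have e5 := hbb l hl ⟨0, hN⟩
    have e6 : sg (av al cl) a (M + l • H) y ⟨0, hN⟩ =
      av al cl ⟨0, hN⟩ ⬝ᵥ y + bb (av al cl) a (M + l • H) ⟨0, hN⟩ := rfl
    have e7 := (abs_le.1 e4).1
    have e8 := (abs_le.1 e5).1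
    linarith
  -- constants
  set H0 : ℝ := S * (e * R) + T + Real.log N with hH0
  have hlogN : 0 ≤ Real.log N := Real.log_natCast_nonneg N
  have hH00 : 0 ≤ H0 := by positivity
  set Y : ℝ := e * R + k * H0 with hY
  have hY0 : 0 ≤ Y := by positivity
  set D' : ℝ := L * Y + L * Y * Y with hD'
  obtain ⟨CL, hCL0, hCL⟩ := h1 k hk Φ hΦ lam D' hlam
  obtain ⟨CK, hCK0, hCK⟩ := h2 k hk Φ hΦ lam L D' hlam
  refine ⟨CL + CK, R, add_nonneg hCL0 hCK0, hR0, fun β hβ l hl i j hij s => ?_⟩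
  have hβ0 : 0 < β := by linarith
  have hout : (∃ A, R < |s A|) →
      ∫ t : Fin k → ℝ, bint Φ β (av al cl) a (M + l • H) i j (Sum.elim s t) = 0 := by
    rintro ⟨A, hA⟩
    have h7 : ∀ t : Fin k → ℝ, bint Φ β (av al cl) a (M + l • H) i j (Sum.elim s t) = 0 := by
      intro t
      rw [bint, hvan β hβ0 l hl (Sum.elim s t) ⟨Sum.inl A, hA⟩]
      simp
    simp only [h7, integral_zero]
  by_cases hs : ∃ A, R < |s A|
  · rw [hout hs]
    refine ⟨fun _ => rfl, fun _ => ?_, fun _ => ?_⟩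
    · have : 0 ≤ (CL + CK) / β := div_nonneg (add_nonneg hCL0 hCK0) hβ0.le
      linarith
    · have : 0 ≤ (CL + CK) * Real.exp (-(β * |(al i ⬝ᵥ s + bb (av al cl) a (M + l • H) i) -
          (al j ⬝ᵥ s + bb (av al cl) a (M + l • H) j)|)) :=
        mul_nonneg (add_nonneg hCL0 hCK0) (Real.exp_pos _).le
      linarith
  have hs' : ∀ A, |s A| ≤ R := by
    intro A
    by_contra h7
    exact hs ⟨A, not_le.1 h7⟩
  set Γ := M + l • H with hΓ
  obtain ⟨hΓp, hΓlam, hΓinv, -, -⟩ := hpath l hl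
  rw [← hΓ] at hΓp hΓlam hΓinv
  set u : Fin N → ℝ := fun m => al m ⬝ᵥ s + bb (av al cl) a Γ m with hu
  obtain ⟨h, w, hh, hw, hww, hfac⟩ := h6.1 k N cl hN hcl β hβ0 u
  have hsum : ∑ A, |s A| ≤ e * R := by
    calc ∑ A, |s A| ≤ ∑ _A : Fin e, R := Finset.sum_le_sum fun A _ => hs' A
      _ = e * R := by rw [Finset.sum_const, Finset.card_univ, Fintype.card_fin, nsmul_eq_mul]
  have hub : ∀ m, |u m| ≤ S * (e * R) + T := by
    intro m
    have e1 : |al m ⬝ᵥ s| ≤ S * ∑ A, |s A| := dot_le fun A => hSA m (Sum.inl A)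
    have e2 := hbb l hl m
    have e3 : S * ∑ A, |s A| ≤ S * (e * R) := mul_le_mul_of_nonneg_left hsum hS0
    calc |u m| ≤ |al m ⬝ᵥ s| + |bb (av al cl) a Γ m| := abs_add_le _ _
      _ ≤ S * (e * R) + T := add_le_add (e1.trans e3) e2
  have hhb : ∀ c, |h c| ≤ H0 := by
    intro c
    have e1 := hh _ hub c
    have e2 : Real.log N / β ≤ Real.log N := div_le_self hlogN hβ
    linarith
  -- the vector `(s, -h)`
  have hyb : ∑ A, |(Sum.elim s (-h) : Fin e ⊕ Fin k → ℝ) A| ≤ Y := by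
    rw [Fintype.sum_sum_type]
    refine add_le_add hsum ?_
    calc ∑ c, |(Sum.elim s (-h) : Fin e ⊕ Fin k → ℝ) (Sum.inr c)| ≤ ∑ _c : Fin k, H0 :=
          Finset.sum_le_sum fun c _ => by
            simp only [Sum.elim_inr, Pi.neg_apply, abs_neg]
            exact hhb c
      _ = k * H0 := by rw [Finset.sum_const, Finset.card_univ, Fintype.card_fin, nsmul_eq_mul]
  set A := Γ⁻¹ with hA
  set m : Fin k → ℝ := fun c => (1 / 2) * A.mulVec (Sum.elim s (-h)) (Sum.inr c) with hm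
  set ν : ℝ := qg A (Sum.elim s (-h)) with hν
  set At : Matrix (Fin k) (Fin k) ℝ := fun i j => A (Sum.inr i) (Sum.inr j) with hAt
  have hsymm : A.IsSymm := symm_inv hΓp
  have hq : ∀ z : Fin k → ℝ, qg A (Sum.elim s (z - h)) = qp At m ν z := fun z =>
    h6.2 e k A hsymm s h z
  have hLY : L * ∑ A, |(Sum.elim s (-h) : Fin e ⊕ Fin k → ℝ) A| ≤ L * Y :=
    mul_le_mul_of_nonneg_left hyb hL0
  have hLYY : 0 ≤ L * Y * Y := by positivity
  have hLY0 : 0 ≤ L * Y := by positivity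
  have hmb : ∀ c, |m c| ≤ D' := by
    intro c
    have e1 := mulVec_le hΓinv (Sum.elim s (-h)) (Sum.inr c)
    have e2 : |m c| = (1 / 2) * |A.mulVec (Sum.elim s (-h)) (Sum.inr c)| := by
      rw [hm]
      simp only
      rw [abs_mul, abs_of_pos (by norm_num : (0 : ℝ) < 1 / 2)]
    rw [e2]
    have e3 := abs_nonneg (A.mulVec (Sum.elim s (-h)) (Sum.inr c))
    linarith
  have hνb : |ν| ≤ D' := by
    have e1 := quad_le hΓinv (Sum.elim s (-h))
    have e2 : |ν| = (1 / 4) * |(Sum.elim s (-h) : Fin e ⊕ Fin k → ℝ) ⬝ᵥ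
        A.mulVec (Sum.elim s (-h))| := by
      rw [hν, qg, abs_mul, abs_of_pos (by norm_num : (0 : ℝ) < 1 / 4)]
    have e3 : (L * ∑ j, |(Sum.elim s (-h) : Fin e ⊕ Fin k → ℝ) j|) *
        ∑ j, |(Sum.elim s (-h) : Fin e ⊕ Fin k → ℝ) j| ≤ L * Y * Y :=
      mul_le_mul hLY hyb (Finset.sum_nonneg fun A _ => abs_nonneg _) hLY0
    rw [e2]
    have e4 := abs_nonneg ((Sum.elim s (-h) : Fin e ⊕ Fin k → ℝ) ⬝ᵥ
        A.mulVec (Sum.elim s (-h)))
    linarith
  have hAtp : At.PosDef := hΓp.inv.submatrix Sum.inr_injective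
  have hAtlam : ∀ z, lam * (z ⬝ᵥ z) ≤ qg At z := by
    intro z
    have e1 := hΓlam (Sum.elim 0 z)
    rw [sumElim_dotProduct_sumElim, zero_dotProduct, zero_add] at e1
    refine e1.trans (le_of_eq ?_)
    rw [qg, qg]
    congr 1
    have e2 : A.mulVec (Sum.elim 0 z) = fun B => (fun j => A B (Sum.inr j)) ⬝ᵥ z := by
      funext B
      rw [Matrix.mulVec, dotProduct, Fintype.sum_sum_type]
      simp [dotProduct]
    rw [e2, dotProduct, Fintype.sum_sum_type]
    simp only [Sum.elim_inl, Pi.zero_apply, zero_mul, Finset.sum_const_zero, zero_add,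
      Sum.elim_inr]
    rfl
  have hAtL : ∀ i j, |At i j| ≤ L := fun i j => hΓinv (Sum.inr i) (Sum.inr j)
  -- the substitution
  have hint : ∫ t : Fin k → ℝ, bint Φ β (av al cl) a Γ i j (Sum.elim s t) =
      ∫ z : Fin k → ℝ, β * ((w i * wt β z (cl i)) * (w j * wt β z (cl j)) *
        -deriv Φ (qp At m ν z + smx β z)) := by
    rw [← integral_sub_right_eq_self
      (fun t : Fin k → ℝ => bint Φ β (av al cl) a Γ i j (Sum.elim s t)) h]
    refine integral_congr_ae (Filter.Eventually.of_forall fun z => ?_)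
    simp only
    have e1 := hfac (z - h)
    rw [sub_add_cancel] at e1
    rw [bint, sg_eq, ← hA, hq z]
    have e2 : (fun i => (z - h) (cl i) + (al i ⬝ᵥ s + bb (av al cl) a Γ i)) =
        fun i => (z - h) (cl i) + u i := rfl
    rw [e2, e1.1, e1.2 i, e1.2 j]
  rw [hint]
  have hwp : 0 < w i * w j := mul_pos (hw i).1 (hw j).1
  have hw1 : w i * w j ≤ 1 := mul_le_one₀ (hw i).2 (hw j).1.le (hw j).2
  refine ⟨fun h7 => absurd h7 hs, fun hc => ?_, fun hc => ?_⟩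
  · have e1 := hCK At hAtp hAtlam hAtL m ν hmb hνb β hβ (cl i) (cl j) (Ne.symm hc)
    have e2 : ∫ z : Fin k → ℝ, β * ((w i * wt β z (cl i)) * (w j * wt β z (cl j)) *
        -deriv Φ (qp At m ν z + smx β z)) = (w i * w j) *
        ∫ z, β * (wt β z (cl i) * wt β z (cl j) * -deriv Φ (qp At m ν z + smx β z)) := by
      rw [← integral_const_mul]
      refine integral_congr_ae (Filter.Eventually.of_forall fun z => ?_)
      simp only
      ring
    rw [e2]
    have e3 : (w i * w j) * -(CK / β) ≤ (w i * w j) *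
        ∫ z, β * (wt β z (cl i) * wt β z (cl j) * -deriv Φ (qp At m ν z + smx β z)) :=
      mul_le_mul_of_nonneg_left e1 hwp.le
    have e4 : 0 ≤ CK / β := div_nonneg hCK0 hβ0.le
    have e5 : 0 ≤ CL / β := div_nonneg hCL0 hβ0.le
    have e6 : (w i * w j) * (CK / β) ≤ 1 * (CK / β) := mul_le_mul_of_nonneg_right hw1 e4
    rw [add_div]
    linarith
  · have e1 := hCL At hAtp hAtlam m ν hmb hνb β hβ (cl i)
    have e2 : ∫ z : Fin k → ℝ, β * ((w i * wt β z (cl i)) * (w j * wt β z (cl j)) *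
        -deriv Φ (qp At m ν z + smx β z)) = (β * (w i * w j)) *
        ∫ z, wt β z (cl i) ^ 2 * -deriv Φ (qp At m ν z + smx β z) := by
      rw [← integral_const_mul]
      refine integral_congr_ae (Filter.Eventually.of_forall fun z => ?_)
      simp only
      rw [← hc]
      ring
    rw [e2]
    have e3 : (β * (w i * w j)) * -(CL / β) ≤ (β * (w i * w j)) *
        ∫ z, wt β z (cl i) ^ 2 * -deriv Φ (qp At m ν z + smx β z) :=
      mul_le_mul_of_nonneg_left e1 (by positivity)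
    have e4 : (β * (w i * w j)) * -(CL / β) = -(CL * (w i * w j)) := by
      field_simp
    have e5 := hww i j hij hc
    have e6 : CL * (w i * w j) ≤ CL * Real.exp (-(β * |u i - u j|)) :=
      mul_le_mul_of_nonneg_left e5 hCL0
    have e7 : 0 ≤ CK * Real.exp (-(β * |u i - u j|)) := mul_nonneg hCK0 (Real.exp_pos _).le
    have e8 : (CL + CK) * Real.exp (-(β * |(al i ⬝ᵥ s + bb (av al cl) a Γ i) -
          (al j ⬝ᵥ s + bb (av al cl) a Γ j)|)) = CL * Real.exp (-(β * |u i - u j|)) +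
          CK * Real.exp (-(β * |u i - u j|)) := by
      rw [← add_mul]
    rw [e8]
    linarith

end Pool.Agent.Lib.MP_0c1c75_co.Clu
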