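import Pool.Agent.Lib.MP_0c1c75_co.CluSpec

/-!
MP_0c1c75_co, clusters, module PathC (helper18): monotonicity in Gram coordinates.
-/

open MeasureTheory Set Filter Topology
open scoped ContDiff

namespace Pool.Agent.Lib.MP_0c1c75_co.Clu.PathC

open Pool.Agent.Lib.MP_0c1c75_co.Few (Prof)

variable {ι : Type} [Fintype ι] [DecidableEq ι] {N : ℕ}

theorem continuous_sg (α : Fin N → ι → ℝ) (a : Fin N → ℝ) (Γ : Matrix ι ι ℝ) :
    Continuous fun y => sg α a Γ y := by
  unfold sg dotProduct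
  fun_prop

theorem continuous_qg (A : Matrix ι ι ℝ) : Continuous fun y => qg A y := by
  unfold qg Matrix.mulVec dotProduct
  fun_prop

/-- the maximum is bounded from below by a linear function of the absolute values -/
theorem lower (i₀ : Fin N) (α : Fin N → ι → ℝ) (a : Fin N → ℝ) (Γ : Matrix ι ι ℝ) (y : ι → ℝ) :
    -|bb α a Γ i₀| - (∑ A, |α i₀ A|) * ∑ A, |y A| ≤ sg α a Γ y i₀ := by
  have h1 : |α i₀ ⬝ᵥ y| ≤ (∑ A, |α i₀ A|) * ∑ A, |y A| := by
    unfold dotProduct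
    refine (Finset.abs_sum_le_sum_abs _ _).trans ?_
    rw [Finset.mul_sum]
    refine Finset.sum_le_sum fun A _ => ?_
    rw [abs_mul]
    refine mul_le_mul_of_nonneg_right ?_ (abs_nonneg _)
    exact Finset.single_le_sum (f := fun A => |α i₀ A|) (fun B _ => abs_nonneg _) (Finset.mem_univ A)
  unfold sg
  have h2 := (abs_le.1 h1).1
  have h3 := neg_abs_le (bb α a Γ i₀)
  linarith

/-- the soft maximum converges -/
theorem tendsto_smx (h4 : EstStmt) (hN : 0 < N) (z : Fin N → ℝ) :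
    Tendsto (fun β : ℝ => smx β z) atTop (𝓝 (hmx z)) := by
  have h1 : Tendsto (fun β : ℝ => hmx z + Real.log N / β) atTop (𝓝 (hmx z)) := by
    have := (tendsto_const_nhds (x := hmx z)).add
      ((tendsto_const_nhds (x := Real.log N)).div_atTop (tendsto_id (α := ℝ) (x := atTop)))
    simpa using this
  refine tendsto_of_tendsto_of_tendsto_of_le_of_le' tendsto_const_nhds h1 ?_ ?_
  · filter_upwards [eventually_gt_atTop (0 : ℝ)] with β hβ
    exact ((h4.1 N hN β hβ).1 z).1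
  · filter_upwards [eventually_gt_atTop (0 : ℝ)] with β hβ
    exact ((h4.1 N hN β hβ).1 z).2.1

/-- the limit of the integrals -/
theorem lim (h4 : EstStmt) (h5 : BoxStmt) (hN : 0 < N) {Φ : ℝ → ℝ} (hΦ : Prof Φ) {lam : ℝ}
    (hlam : 0 < lam) (Γ : Matrix ι ι ℝ) (hq : ∀ y, lam * (y ⬝ᵥ y) ≤ qg Γ⁻¹ y)
    (α : Fin N → ι → ℝ) (a : Fin N → ℝ) :
    Tendsto (fun β : ℝ => Js Φ β α a Γ) atTop (𝓝 (Jh Φ α a Γ)) := by
  obtain ⟨i₀⟩ : Nonempty (Fin N) := ⟨⟨0, hN⟩⟩
  obtain ⟨R, hR0, hR⟩ := h5.1 ι Φ hΦ lam |bb α a Γ i₀| (∑ A, |α i₀ A|) hlam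
  obtain ⟨B, hB0, -, hB, -, -, -, -, hdd, -⟩ := h5.2 Φ hΦ
  have c1 : Continuous (deriv Φ) := hdd.continuous
  obtain ⟨c, hc⟩ : ∃ c : ℝ, c = (Real.sqrt Γ.det)⁻¹ := ⟨_, rfl⟩
  unfold Js Jh js
  rw [← hc]
  refine tendsto_integral_filter_of_dominated_convergence
    ((Metric.closedBall (0 : ι → ℝ) R).indicator fun _ => |c| * B) ?_ ?_ ?_ ?_
  · filter_upwards [eventually_gt_atTop (0 : ℝ)] with β hβ
    have cs : Continuous fun z : Fin N → ℝ => smx β z := (h4.1 N hN β hβ).2.2.1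
    exact (continuous_const.mul ((c1.comp ((continuous_qg Γ⁻¹).add
      (cs.comp (continuous_sg α a Γ)))).neg)).aestronglyMeasurable
  · filter_upwards [eventually_gt_atTop (0 : ℝ)] with β hβ
    refine Eventually.of_forall fun y => ?_
    by_cases hy : y ∈ Metric.closedBall (0 : ι → ℝ) R
    · rw [indicator_of_mem hy, norm_mul, norm_neg, Real.norm_eq_abs, Real.norm_eq_abs]
      exact mul_le_mul_of_nonneg_left (hB _) (abs_nonneg _)
    · rw [indicator_of_notMem hy]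
      have h1 : ∃ A, R < |y A| := by
        by_contra hcon
        push Not at hcon
        apply hy
        rw [Metric.mem_closedBall, dist_zero_right, pi_norm_le_iff_of_nonneg hR0]
        exact hcon
      have h2 : sg α a Γ y i₀ ≤ smx β (sg α a Γ y) :=
        (((h4.1 N hN β hβ).1 (sg α a Γ y)).2.2.1 i₀).trans ((h4.1 N hN β hβ).1 (sg α a Γ y)).1
      rw [(hR y _ _ h1 (hq y) ((lower i₀ α a Γ y).trans h2)).2.1]
      simp
  · rw [integrable_indicator_iff Metric.isClosed_closedBall.measurableSet]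
    exact integrableOn_const (isCompact_closedBall (0 : ι → ℝ) R).measure_lt_top.ne
  · refine Eventually.of_forall fun y => ?_
    refine Tendsto.const_mul c (Tendsto.neg ?_)
    exact (c1.tendsto _).comp (tendsto_const_nhds.add (tendsto_smx h4 hN (sg α a Γ y)))

theorem dl_self (α : Fin N → ι → ℝ) (H : Matrix ι ι ℝ) {i j : Fin N} (h : α i = α j) :
    dl α H i j = 0 := by
  unfold dl
  rw [h, sub_self, zero_dotProduct, neg_zero]

end Pool.Agent.Lib.MP_0c1c75_co.Clu.PathC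

namespace Pool.Agent.Lib.MP_0c1c75_co.Clu

open Pool.Agent.Lib.MP_0c1c75_co.Few (Prof)
open PathC

/-- monotonicity in Gram coordinates -/
theorem pathCStmt (h1 : PairStmt) (h2 : SoftIntStmt) (h3 : MatGStmt) (h4 : EstStmt)
    (h5 : BoxStmt) : PathCStmt := by
  intro e k N hk Φ hΦ M H hM hMH al cl hcl hdl a
  have hN : 0 < N := by
    obtain ⟨i, -⟩ := hcl ⟨0, by omega⟩
    exact i.pos
  have hne : ∀ i j, i ≠ j → cl i = cl j → al i ≠ al j := by
    intro i j hij hc ha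
    have h := hdl i j hij
    rw [dl_self _ _ (show av al cl i = av al cl j by unfold av; rw [hc, ha])] at h
    exact lt_irrefl _ h
  obtain ⟨C, hC0, hC⟩ := h1 e k N hk Φ hΦ M H hM hMH al cl hcl hne a
  obtain ⟨lam, Λ, D, hlam, hD, hl⟩ := h3.2.2 (Fin e ⊕ Fin k) M H hM hMH
  have hdl0 : ∀ i j, 0 ≤ dl (av al cl) H i j := by
    intro i j
    by_cases hij : i = j
    · rw [dl_self _ _ (by rw [hij])]
    · exact (hdl i j hij).le
  obtain ⟨S, hS⟩ : ∃ S : ℝ, S = ∑ i, ∑ j, dl (av al cl) H i j := ⟨_, rfl⟩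
  have hS0 : 0 ≤ S := by
    rw [hS]
    exact Finset.sum_nonneg fun i _ => Finset.sum_nonneg fun j _ => hdl0 i j
  have key : ∀ β : ℝ, 1 ≤ β → Js Φ β (av al cl) a M - D⁻¹ * ((1 / 2) * (C * S)) / β ≤
      Js Φ β (av al cl) a (M + H) := by
    intro β hβ
    have hβ0 : 0 < β := lt_of_lt_of_le one_pos hβ
    refine h2 (Fin e ⊕ Fin k) N hN Φ hΦ M H hM hMH β hβ0 (av al cl) a _ fun l hlm => ?_
    obtain ⟨-, -, -, -, hdet⟩ := hl l hlm
    have hs : 0 < Real.sqrt (M + l • H).det := lt_of_lt_of_le hD hdet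
    have hinv : (Real.sqrt (M + l • H).det)⁻¹ ≤ D⁻¹ := inv_anti₀ hD hdet
    have hsum : -(C / β) * S ≤
        ∑ i, ∑ j, dl (av al cl) H i j * ∫ y, pint Φ β (av al cl) a (M + l • H) i j y := by
      rw [hS, Finset.mul_sum]
      refine Finset.sum_le_sum fun i _ => ?_
      rw [Finset.mul_sum]
      refine Finset.sum_le_sum fun j _ => ?_
      by_cases hij : i = j
      · rw [dl_self _ _ (by rw [hij]), mul_zero, zero_mul]
      · rw [mul_comm]
        exact mul_le_mul_of_nonneg_left (hC β hβ l hlm i j hij) (hdl0 i j)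
    have hnn : 0 ≤ (1 / 2) * ((C / β) * S) := by positivity
    calc -(D⁻¹ * ((1 / 2) * (C * S)) / β) = -(D⁻¹ * ((1 / 2) * ((C / β) * S))) := by ring
      _ ≤ -((Real.sqrt (M + l • H).det)⁻¹ * ((1 / 2) * ((C / β) * S))) :=
          neg_le_neg (mul_le_mul_of_nonneg_right hinv hnn)
      _ = (Real.sqrt (M + l • H).det)⁻¹ * ((1 / 2) * (-(C / β) * S)) := by ring
      _ ≤ _ := mul_le_mul_of_nonneg_left
          (mul_le_mul_of_nonneg_left hsum (by norm_num)) (inv_nonneg.2 hs.le)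
  have hq0 : ∀ y, lam * (y ⬝ᵥ y) ≤ qg M⁻¹ y := by
    intro y
    have := (hl 0 (by simp)).2.1 y
    rwa [zero_smul, add_zero] at this
  have hq1 : ∀ y, lam * (y ⬝ᵥ y) ≤ qg (M + H)⁻¹ y := by
    intro y
    have := (hl 1 (by simp)).2.1 y
    rwa [one_smul] at this
  have l0 := lim h4 h5 hN hΦ hlam M hq0 (av al cl) a
  have l1 := lim h4 h5 hN hΦ hlam (M + H) hq1 (av al cl) a
  have l2 : Tendsto (fun β : ℝ => D⁻¹ * ((1 / 2) * (C * S)) / β) atTop (𝓝 0) :=
    tendsto_const_nhds.div_atTop tendsto_id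
  have l3 := l0.sub l2
  rw [sub_zero] at l3
  refine le_of_tendsto_of_tendsto l3 l1 ?_
  filter_upwards [eventually_ge_atTop (1 : ℝ)] with β hβ
  exact key β hβ

end Pool.Agent.Lib.MP_0c1c75_co.Clu
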