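import Pool.Agent.Lib.MP_0c1c75_co.CluSpec
import Pool.Agent.Lib.MP_0c1c75_co.FewPlane

/-!
MP_0c1c75_co, clusters: positive definite quadratic polynomials in two variables, exponent one.
-/

open MeasureTheory Set
open scoped ContDiff

namespace Pool.Agent.Lib.MP_0c1c75_co.Clu

open Pool.Agent.Lib.MP_0c1c75_co.Few (Prof)
open Pool.Agent.Lib.MP_0c1c75_co.Few.Plane

theorem plane1Stmt (h : Polar1Stmt) : Plane1Stmt := by
  intro Φ hΦ α β γ l μ ν m hm hα hβ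
  have hm0 : m ≠ 0 := by omega
  have hα0 : α ≠ 0 := hα.ne'
  set γ' : ℝ := γ - β ^ 2 / α with hγ'
  have hγpos : 0 < γ' := by
    rw [hγ', sub_pos, div_lt_iff₀ hα]
    linarith
  have hγ0 : γ' ≠ 0 := hγpos.ne'
  set s₀ : ℝ := -(μ - β * l / α) / γ' with hs₀
  set κ : ℝ := ν - l ^ 2 / α - γ' * s₀ ^ 2 with hκ
  have hs₀' : γ' * s₀ = -(μ - β * l / α) := by
    rw [hs₀]
    field_simp
  have hF : ∀ z s : ℝ, α * z ^ 2 + 2 * β * z * s + γ * s ^ 2 + 2 * l * z + 2 * μ * s + ν =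
      α * (z + (β * s + l) / α) ^ 2 + γ' * (s - s₀) ^ 2 + κ := by
    intro z s
    have e1 : γ' * (s - s₀) ^ 2 + κ = γ' * s ^ 2 - 2 * (γ' * s₀) * s + ν - l ^ 2 / α := by
      rw [hκ]; ring
    have e2 : α * (z + (β * s + l) / α) ^ 2 + γ' * (s - s₀) ^ 2 + κ =
        α * (z + (β * s + l) / α) ^ 2 + (γ' * (s - s₀) ^ 2 + κ) := by ring
    rw [e2, e1, hs₀', hγ']
    field_simp
    ring
  have hsα : 0 < Real.sqrt α := Real.sqrt_pos.mpr hα
  have hsγ : 0 < Real.sqrt γ' := Real.sqrt_pos.mpr hγpos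
  -- inner integral
  have hin : ∀ s : ℝ, ∫ z : ℝ, -deriv Φ (α * z ^ 2 + 2 * β * z * s + γ * s ^ 2 + 2 * l * z +
      2 * μ * s + ν) * s ^ m =
      (Real.sqrt α)⁻¹ * ∫ x : ℝ, -deriv Φ (κ + x ^ 2 + γ' * (s - s₀) ^ 2) * s ^ m := by
    intro s
    have e1 : ∫ z : ℝ, -deriv Φ (α * z ^ 2 + 2 * β * z * s + γ * s ^ 2 + 2 * l * z +
      2 * μ * s + ν) * s ^ m =
        ∫ z : ℝ, (fun w : ℝ => -deriv Φ (α * w ^ 2 + γ' * (s - s₀) ^ 2 + κ) * s ^ m)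
          (z + (β * s + l) / α) := by
      refine integral_congr_ae (Filter.Eventually.of_forall fun z => ?_)
      simp only [hF]
    rw [e1, integral_add_right_eq_self
      (fun w : ℝ => -deriv Φ (α * w ^ 2 + γ' * (s - s₀) ^ 2 + κ) * s ^ m)]
    have e2 : ∫ w : ℝ, -deriv Φ (α * w ^ 2 + γ' * (s - s₀) ^ 2 + κ) * s ^ m =
        ∫ w : ℝ, (fun x : ℝ => -deriv Φ (κ + x ^ 2 + γ' * (s - s₀) ^ 2) * s ^ m)
          (Real.sqrt α * w) := by
      refine integral_congr_ae (Filter.Eventually.of_forall fun w => ?_)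
      simp only
      rw [mul_pow, Real.sq_sqrt hα.le]
      congr 3
      ring
    rw [e2, Measure.integral_comp_mul_left
      (fun x : ℝ => -deriv Φ (κ + x ^ 2 + γ' * (s - s₀) ^ 2) * s ^ m), abs_of_pos
      (inv_pos.mpr hsα), smul_eq_mul]
  -- the outer integral over the line
  set G : ℝ → ℝ := fun s => (Real.sqrt α)⁻¹ *
    ∫ x : ℝ, -deriv Φ (κ + x ^ 2 + γ' * (s - s₀) ^ 2) * (max s 0) ^ m with hG
  have hout : ∫ s in Ioi (0 : ℝ), ∫ z : ℝ,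
      -deriv Φ (α * z ^ 2 + 2 * β * z * s + γ * s ^ 2 + 2 * l * z + 2 * μ * s + ν) * s ^ m =
      ∫ s, G s := by
    rw [← integral_indicator measurableSet_Ioi]
    refine integral_congr_ae (Filter.Eventually.of_forall fun s => ?_)
    by_cases hs : s ∈ Ioi (0 : ℝ)
    · simp only [indicator_of_mem hs, hin, hG]
      rw [max_eq_left (le_of_lt hs)]
    · simp only [indicator_of_notMem hs, hG]
      have : max s 0 = 0 := max_eq_right (not_lt.mp hs)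
      rw [this, zero_pow hm0]
      simp
  rw [hout]
  have hsub : ∫ s, G s = (Real.sqrt γ')⁻¹ * ∫ y : ℝ, G (s₀ + (Real.sqrt γ')⁻¹ * y) := by
    have e1 : ∫ y : ℝ, G (s₀ + (Real.sqrt γ')⁻¹ * y) =
        ∫ y : ℝ, (fun w : ℝ => G (s₀ + w)) ((Real.sqrt γ')⁻¹ * y) := rfl
    rw [e1, Measure.integral_comp_mul_left (fun w : ℝ => G (s₀ + w)), inv_inv,
      abs_of_pos hsγ, smul_eq_mul, ← mul_assoc, inv_mul_cancel₀ hsγ.ne', one_mul]
    rw [integral_add_left_eq_self G s₀]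
  rw [hsub]
  refine mul_nonneg (inv_nonneg.mpr hsγ.le) ?_
  have hc : 0 < (Real.sqrt γ')⁻¹ := inv_pos.mpr hsγ
  have h2 := h Φ hΦ κ s₀ (Real.sqrt γ')⁻¹ m hm hc
  have hint := integrable_plane hΦ κ s₀ (Real.sqrt γ')⁻¹ m
  have hfub : ∫ z : ℝ × ℝ, -deriv Φ (κ + z.1 ^ 2 + z.2 ^ 2) *
      (max (s₀ + (Real.sqrt γ')⁻¹ * z.2) 0) ^ m =
      ∫ y : ℝ, ∫ x : ℝ, -deriv Φ (κ + x ^ 2 + y ^ 2) *
        (max (s₀ + (Real.sqrt γ')⁻¹ * y) 0) ^ m := by
    rw [Measure.volume_eq_prod] at hint ⊢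
    exact integral_prod_symm _ hint
  have hfin : ∫ y : ℝ, G (s₀ + (Real.sqrt γ')⁻¹ * y) = (Real.sqrt α)⁻¹ *
      ∫ z : ℝ × ℝ, -deriv Φ (κ + z.1 ^ 2 + z.2 ^ 2) *
      (max (s₀ + (Real.sqrt γ')⁻¹ * z.2) 0) ^ m := by
    rw [hfub, ← integral_const_mul]
    refine integral_congr_ae (Filter.Eventually.of_forall fun y => ?_)
    simp only [hG]
    congr 1
    refine integral_congr_ae (Filter.Eventually.of_forall fun x => ?_)
    simp only
    have : γ' * (s₀ + (Real.sqrt γ')⁻¹ * y - s₀) ^ 2 = y ^ 2 := by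
      rw [add_sub_cancel_left, mul_pow, inv_pow, Real.sq_sqrt hγpos.le, ← mul_assoc,
        mul_inv_cancel₀ hγ0, one_mul]
    rw [this]
  rw [hfin]
  exact mul_nonneg (inv_nonneg.mpr hsα.le) h2

end Pool.Agent.Lib.MP_0c1c75_co.Clu
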