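import Pool.Agent.Lib.MP_0c1c75_co.CluSpec
import Pool.Agent.Lib.MP_0c1c75_co.FewPolar2
import Pool.Agent.Lib.MP_0c1c75_co.FewPlane

/-!
MP_0c1c75_co, clusters: radial integrals in the plane, exponent one.
-/

open MeasureTheory Set
open scoped ContDiff

namespace Pool.Agent.Lib.MP_0c1c75_co.Clu

open Pool.Agent.Lib.MP_0c1c75_co.Few (Prof)
open Pool.Agent.Lib.MP_0c1c75_co

namespace Polar1

/-- convex weights -/
theorem gen (Φ : ℝ → ℝ) (hΦ : Prof Φ) (κ : ℝ) (w w' : ℝ → ℝ) (hwd : ∀ y, HasDerivAt w (w' y) y)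
    (hw'c : Continuous w') (hmono : ∀ y z, y ≤ z → w' y ≤ w' z) (hw0 : 0 ≤ w 0) :
    0 ≤ ∫ z : ℝ × ℝ, -deriv Φ (κ + z.1 ^ 2 + z.2 ^ 2) * w z.2 := by
  set F : ℝ × ℝ → ℝ := fun z => -deriv Φ (κ + z.1 ^ 2 + z.2 ^ 2) * w z.2 with hF
  show 0 ≤ ∫ z : ℝ × ℝ, F z
  by_cases hint : Integrable F
  swap
  · rw [integral_undef hint]
  have hrefl : MeasurePreserving (fun z : ℝ × ℝ => (z.1, -z.2)) volume volume := by
    have h1 : MeasurePreserving (Prod.map (id : ℝ → ℝ) (fun y : ℝ => -y))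
        ((volume : Measure ℝ).prod (volume : Measure ℝ))
        ((volume : Measure ℝ).prod (volume : Measure ℝ)) :=
      (MeasurePreserving.id _).prod (Measure.measurePreserving_neg _)
    rw [← Measure.volume_eq_prod] at h1
    exact h1
  have hemb : MeasurableEmbedding (fun z : ℝ × ℝ => (z.1, -z.2)) := by
    have h1 : (fun z : ℝ × ℝ => (z.1, -z.2)) =
        ((Homeomorph.refl ℝ).prodCongr (Homeomorph.neg ℝ)) := by
      funext z
      rfl
    rw [h1]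
    exact Homeomorph.measurableEmbedding _
  have h2 : ∫ z : ℝ × ℝ, F (z.1, -z.2) = ∫ z : ℝ × ℝ, F z := hrefl.integral_comp hemb F
  have hint2 : Integrable (fun z : ℝ × ℝ => F (z.1, -z.2)) :=
    (hrefl.integrable_comp_emb hemb).2 hint
  set W : ℝ → ℝ := fun y => w y + w (-y) with hWdef
  set W' : ℝ → ℝ := fun y => w' y + w' (-y) * (-1) with hW'def
  have hWd : ∀ y, HasDerivAt W (W' y) y := by
    intro y
    exact (hwd y).add ((hwd (-y)).comp y (hasDerivAt_neg y))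
  have hW'c : Continuous W' := by
    simp only [hW'def]
    fun_prop
  have hW0 : 0 ≤ W 0 := by
    simp only [hWdef, neg_zero]
    linarith
  have hsign : ∀ s r, 0 ≤ r → 0 ≤ s * W' (r * s) := by
    intro s r hr
    simp only [hW'def]
    rcases le_total 0 s with hs | hs
    · have h3 := hmono (-(r * s)) (r * s) (by nlinarith [mul_nonneg hr hs])
      nlinarith
    · have h3 := hmono (r * s) (-(r * s)) (by nlinarith [mul_nonneg hr (neg_nonneg.2 hs)])
      nlinarith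
  have h3 : 2 * ∫ z : ℝ × ℝ, F z =
      ∫ z : ℝ × ℝ, -deriv Φ (κ + z.1 ^ 2 + z.2 ^ 2) * W z.2 := by
    rw [two_mul]
    nth_rewrite 1 [← h2]
    rw [← integral_add hint2 hint]
    congr 1
    funext z
    simp only [hF, hWdef, neg_sq]
    ring
  suffices h4 : 0 ≤ ∫ z : ℝ × ℝ, -deriv Φ (κ + z.1 ^ 2 + z.2 ^ 2) * W z.2 by linarith
  rw [← integral_comp_polarCoord_symm]
  have e1 : ∀ p : ℝ × ℝ, p.1 • (-deriv Φ (κ + (polarCoord.symm p).1 ^ 2 +
      (polarCoord.symm p).2 ^ 2) * W (polarCoord.symm p).2) =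
      p.1 * (-deriv Φ (κ + p.1 ^ 2) * W (p.1 * Real.sin p.2)) := by
    intro p
    rw [polarCoord_symm_apply, smul_eq_mul]
    have : κ + (p.1 * Real.cos p.2, p.1 * Real.sin p.2).1 ^ 2 +
        (p.1 * Real.cos p.2, p.1 * Real.sin p.2).2 ^ 2 = κ + p.1 ^ 2 := by
      have := Real.cos_sq_add_sin_sq p.2
      simp only
      linear_combination p.1 ^ 2 * this
    rw [this]
  simp only [e1]
  rw [polarCoord_target, Measure.volume_eq_prod, ← Measure.prod_restrict]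
  by_cases hint3 : Integrable (fun p : ℝ × ℝ => p.1 * (-deriv Φ (κ + p.1 ^ 2) *
      W (p.1 * Real.sin p.2))) (((volume : Measure ℝ).restrict (Ioi 0)).prod
        ((volume : Measure ℝ).restrict (Ioo (-Real.pi) Real.pi)))
  · rw [integral_prod_symm _ hint3]
    apply integral_nonneg
    intro θ
    exact Few.Polar2.radial_nonneg Φ hΦ κ (Real.sin θ) W W' hWd hW'c hW0 (hsign (Real.sin θ))
  · rw [integral_undef hint3]

/-- the approximation of the positive part -/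
noncomputable def wa (s₀ c ε : ℝ) (y : ℝ) : ℝ :=
  ((max (s₀ + c * y) 0) ^ 2 - (max (s₀ - ε + c * y) 0) ^ 2) / (2 * ε)

/-- the derivative of the approximation -/
noncomputable def wa' (s₀ c ε : ℝ) (y : ℝ) : ℝ :=
  (max (s₀ + c * y) 0 - max (s₀ - ε + c * y) 0) * c / ε

theorem hasDeriv_sq (s₀ c y : ℝ) :
    HasDerivAt (fun y : ℝ => (max (s₀ + c * y) 0) ^ 2) (2 * max (s₀ + c * y) 0 * c) y := by
  have h1 : HasDerivAt (fun y : ℝ => s₀ + c * y) c y := by
    simpa using ((hasDerivAt_id y).const_mul c).const_add s₀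
  have h2 := HasDerivAt.comp (h₂ := fun x : ℝ => (max x 0) ^ 2) (h := fun y : ℝ => s₀ + c * y) y
    (Few.Polar2.hasDerivAt_pos_pow 2 le_rfl (s₀ + c * y)) h1
  have e : ((2 : ℕ) : ℝ) * (max (s₀ + c * y) 0) ^ (2 - 1) * c = 2 * max (s₀ + c * y) 0 * c := by
    norm_num
  rw [e] at h2
  exact h2

theorem wa_deriv (s₀ c ε : ℝ) (hε : 0 < ε) (y : ℝ) :
    HasDerivAt (wa s₀ c ε) (wa' s₀ c ε y) y := by
  have h := ((hasDeriv_sq s₀ c y).sub (hasDeriv_sq (s₀ - ε) c y)).div_const (2 * ε)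
  have e : (2 * max (s₀ + c * y) 0 * c - 2 * max (s₀ - ε + c * y) 0 * c) / (2 * ε) =
      wa' s₀ c ε y := by
    unfold wa'
    field_simp
  rw [e] at h
  exact h

theorem wa'_cont (s₀ c ε : ℝ) : Continuous (wa' s₀ c ε) := by
  unfold wa'
  fun_prop

theorem pos_mono (ε t u : ℝ) (hε : 0 < ε) (h : t ≤ u) :
    max t 0 - max (t - ε) 0 ≤ max u 0 - max (u - ε) 0 := by
  rcases le_total t 0 with h1 | h1 <;> rcases le_total (t - ε) 0 with h2 | h2 <;>
    rcases le_total u 0 with h3 | h3 <;> rcases le_total (u - ε) 0 with h4 | h4 <;>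
    simp only [max_eq_left, max_eq_right, h1, h2, h3, h4] <;> linarith

theorem wa'_mono (s₀ c ε : ℝ) (hc : 0 < c) (hε : 0 < ε) (y z : ℝ) (h : y ≤ z) :
    wa' s₀ c ε y ≤ wa' s₀ c ε z := by
  unfold wa'
  have h1 := pos_mono ε (s₀ + c * y) (s₀ + c * z) hε (by nlinarith)
  have e1 : s₀ - ε + c * y = s₀ + c * y - ε := by ring
  have e2 : s₀ - ε + c * z = s₀ + c * z - ε := by ring
  rw [e1, e2]
  exact div_le_div_of_nonneg_right (mul_le_mul_of_nonneg_right h1 hc.le) hε.le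

theorem wa_bound (s₀ c ε : ℝ) (hε : 0 < ε) (y : ℝ) :
    0 ≤ wa s₀ c ε y ∧ wa s₀ c ε y ≤ max (s₀ + c * y) 0 ∧
      max (s₀ + c * y) 0 ≤ wa s₀ c ε y + ε / 2 := by
  unfold wa
  have e1 : s₀ - ε + c * y = s₀ + c * y - ε := by ring
  rw [e1]
  generalize s₀ + c * y = t
  have h2ε : 0 < 2 * ε := by linarith
  rcases le_total t 0 with h1 | h1
  · rw [max_eq_right h1, max_eq_right (by linarith : t - ε ≤ 0)]
    refine ⟨?_, ?_, ?_⟩
    · simp
    · simp
    · simp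
      linarith
  · rcases le_total (t - ε) 0 with h2 | h2
    · rw [max_eq_left h1, max_eq_right h2]
      refine ⟨?_, ?_, ?_⟩
      · refine div_nonneg ?_ h2ε.le
        nlinarith [sq_nonneg t]
      · rw [div_le_iff₀ h2ε]
        nlinarith
      · have : t - ε / 2 ≤ (t ^ 2 - 0 ^ 2) / (2 * ε) := by
          rw [le_div_iff₀ h2ε]
          nlinarith [sq_nonneg (t - ε)]
        linarith
    · rw [max_eq_left h1, max_eq_left h2]
      have : (t ^ 2 - (t - ε) ^ 2) / (2 * ε) = t - ε / 2 := by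
        field_simp
        ring
      rw [this]
      refine ⟨by linarith, by linarith, by linarith⟩

end Polar1

open Polar1

theorem polar1Stmt (h : Pool.Agent.Lib.MP_0c1c75_co.Few.Polar2Stmt) : Polar1Stmt := by
  intro Φ hΦ κ s₀ c m hm hc
  rcases Nat.lt_or_ge 1 m with hm2 | hm1
  · exact h.2 Φ hΦ κ s₀ c m hm2 hc
  have hm1' : m = 1 := le_antisymm hm1 hm
  subst hm1'
  have hi0 := Few.Plane.integrable_plane hΦ κ s₀ c 0
  have hi1 := Few.Plane.integrable_plane hΦ κ s₀ c 1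
  simp only [pow_zero, mul_one] at hi0
  set C : ℝ := ∫ z : ℝ × ℝ, |(-deriv Φ (κ + z.1 ^ 2 + z.2 ^ 2))| with hC
  have hC0 : 0 ≤ C := integral_nonneg fun _ => abs_nonneg _
  have key : ∀ ε : ℝ, 0 < ε → -(ε / 2 * C) ≤
      ∫ z : ℝ × ℝ, -deriv Φ (κ + z.1 ^ 2 + z.2 ^ 2) * (max (s₀ + c * z.2) 0) ^ 1 := by
    intro ε hε
    have hwaI : Integrable (fun z : ℝ × ℝ => -deriv Φ (κ + z.1 ^ 2 + z.2 ^ 2) * wa s₀ c ε z.2) := by
      have h2 := ((Few.Plane.integrable_plane hΦ κ s₀ c 2).sub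
        (Few.Plane.integrable_plane hΦ κ (s₀ - ε) c 2)).div_const (2 * ε)
      refine h2.congr (Filter.Eventually.of_forall fun z => ?_)
      simp only [wa, Pi.sub_apply]
      ring
    have h0 : 0 ≤ ∫ z : ℝ × ℝ, -deriv Φ (κ + z.1 ^ 2 + z.2 ^ 2) * wa s₀ c ε z.2 :=
      gen Φ hΦ κ (wa s₀ c ε) (wa' s₀ c ε) (wa_deriv s₀ c ε hε) (wa'_cont s₀ c ε)
        (wa'_mono s₀ c ε hc hε) (wa_bound s₀ c ε hε 0).1
    have hsub : ∫ z : ℝ × ℝ, (-deriv Φ (κ + z.1 ^ 2 + z.2 ^ 2) * wa s₀ c ε z.2 -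
        ε / 2 * |(-deriv Φ (κ + z.1 ^ 2 + z.2 ^ 2))|) ≤
        ∫ z : ℝ × ℝ, -deriv Φ (κ + z.1 ^ 2 + z.2 ^ 2) * (max (s₀ + c * z.2) 0) ^ 1 := by
      refine integral_mono (hwaI.sub (hi0.abs.const_mul (ε / 2))) hi1 fun z => ?_
      obtain ⟨_, b1, b2⟩ := wa_bound s₀ c ε hε z.2
      simp only [pow_one]
      have h3 : |(-deriv Φ (κ + z.1 ^ 2 + z.2 ^ 2)) * (max (s₀ + c * z.2) 0 - wa s₀ c ε z.2)| ≤
          |(-deriv Φ (κ + z.1 ^ 2 + z.2 ^ 2))| * (ε / 2) := by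
        rw [abs_mul]
        refine mul_le_mul_of_nonneg_left ?_ (abs_nonneg _)
        rw [abs_le]
        constructor <;> linarith
      have h4 := neg_abs_le ((-deriv Φ (κ + z.1 ^ 2 + z.2 ^ 2)) *
        (max (s₀ + c * z.2) 0 - wa s₀ c ε z.2))
      nlinarith
    rw [integral_sub hwaI (hi0.abs.const_mul (ε / 2)), integral_const_mul] at hsub
    linarith
  by_contra hneg
  rw [not_le] at hneg
  set I := ∫ z : ℝ × ℝ, -deriv Φ (κ + z.1 ^ 2 + z.2 ^ 2) * (max (s₀ + c * z.2) 0) ^ 1 with hI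
  have hC1 : 0 < C + 1 := by linarith
  have h5 := key (-I / (C + 1)) (div_pos (by linarith) hC1)
  have h6 : -I / (C + 1) / 2 * C ≤ -I / 2 := by
    have h7 : -I / (C + 1) * C ≤ -I := by
      rw [div_mul_eq_mul_div, div_le_iff₀ hC1]
      nlinarith
    linarith
  linarith

end Pool.Agent.Lib.MP_0c1c75_co.Clu
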