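import Pool.Agent.Lib.MP_0c1c75_co.CluSpec
import Pool.Agent.Lib.MP_0c1c75_co.FewCone

/-!
# MP_0c1c75_co, clusters: positivity for an orthant times a line (helper50)
-/

open MeasureTheory Set
open scoped ContDiff

namespace Pool.Agent.Lib.MP_0c1c75_co.Clu

open Pool.Agent.Lib.MP_0c1c75_co.Few (Prof qf)

namespace QuadCone

open Pool.Agent.Lib.MP_0c1c75_co.Few.Cone (symm pos cs qf_continuous qf_lower)

theorem dot_le {n : ℕ} (m w : Fin n → ℝ) : |m ⬝ᵥ w| ≤ (∑ i, |m i|) * ‖w‖ := by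
  unfold dotProduct
  rw [Finset.sum_mul]
  refine (Finset.abs_sum_le_sum_abs _ _).trans (Finset.sum_le_sum fun i _ => ?_)
  rw [abs_mul]
  exact mul_le_mul_of_nonneg_left (norm_le_pi_norm w i) (abs_nonneg _)

theorem cons_norm {n : ℕ} (p : ℝ × (Fin n → ℝ)) :
    ‖p‖ ≤ ‖(Fin.cons p.1 p.2 : Fin (n + 1) → ℝ)‖ := by
  rw [Prod.norm_def]
  refine max_le ?_ ?_
  · have h := norm_le_pi_norm (Fin.cons p.1 p.2 : Fin (n + 1) → ℝ) 0
    simpa using h
  · refine (pi_norm_le_iff_of_nonneg (norm_nonneg _)).mpr fun i => ?_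
    have h := norm_le_pi_norm (Fin.cons p.1 p.2 : Fin (n + 1) → ℝ) i.succ
    simpa using h

theorem proper {n : ℕ} {A : Matrix (Fin (n + 1)) (Fin (n + 1)) ℝ} (hA : A.PosDef)
    (m : Fin (n + 1) → ℝ) (ν R : ℝ) :
    ∃ ρ : ℝ, ∀ p : ℝ × (Fin n → ℝ), ρ < ‖p‖ →
      R < qp A m ν (Fin.cons p.1 p.2 : Fin (n + 1) → ℝ) := by
  obtain ⟨c, hc, h⟩ := qf_lower hA
  set C := ∑ i, |m i| with hC
  have hC0 : 0 ≤ C := Finset.sum_nonneg fun i _ => abs_nonneg _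
  set W := max 1 ((1 + C + |R| + |ν|) / c) with hW
  refine ⟨W, fun p hp => ?_⟩
  have hw := hp.trans_le (cons_norm p)
  set w : Fin (n + 1) → ℝ := Fin.cons p.1 p.2
  have h1 := h w
  have h2 := dot_le m w
  have h3 : qp A m ν w = qf A w + m ⬝ᵥ w + ν := rfl
  rw [h3]
  have hW1 : 1 ≤ W := le_max_left _ _
  have hW2 : (1 + C + |R| + |ν|) / c ≤ W := le_max_right _ _
  rw [div_le_iff₀ hc] at hW2
  rw [← hC] at h2
  generalize ‖w‖ = x at hw h1 h2
  have h4 := neg_abs_le (m ⬝ᵥ w)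
  have h5 := le_abs_self R
  have h6 := neg_abs_le ν
  have h7 := abs_nonneg R
  have h8 := abs_nonneg ν
  have h9 : 1 + C + |R| + |ν| < x * c := lt_of_le_of_lt hW2 (mul_lt_mul_of_pos_right hw hc)
  have hx1 : 1 < x := lt_of_le_of_lt hW1 hw
  have h10 : (1 + C + |R| + |ν|) * x < c * x ^ 2 := by nlinarith
  have h11 : |R| ≤ |R| * x := by nlinarith
  have h12 : |ν| ≤ |ν| * x := by nlinarith
  nlinarith

theorem cont {n : ℕ} (A : Matrix (Fin (n + 1)) (Fin (n + 1)) ℝ) (m : Fin (n + 1) → ℝ) (ν : ℝ) :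
    Continuous fun p : ℝ × (Fin n → ℝ) => qp A m ν (Fin.cons p.1 p.2 : Fin (n + 1) → ℝ) := by
  have h1 : Continuous fun p : ℝ × (Fin n → ℝ) => (Fin.cons p.1 p.2 : Fin (n + 1) → ℝ) := by
    refine continuous_pi fun i => ?_
    refine Fin.cases ?_ (fun i => ?_) i
    · simp only [Fin.cons_zero]
      fun_prop
    · simp only [Fin.cons_succ]
      fun_prop
  have h2 : Continuous fun w : Fin (n + 1) → ℝ => m ⬝ᵥ w := by
    simp only [dotProduct]
    fun_prop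
  exact (((qf_continuous A).comp h1).add (h2.comp h1)).add continuous_const

theorem expand {n : ℕ} {A : Matrix (Fin n) (Fin n) ℝ} (hA : A.PosDef) (m o f : Fin n → ℝ)
    (ν z s : ℝ) :
    qp A m ν (z • o + s • f) =
      (o ⬝ᵥ A.mulVec o / 4) * z ^ 2 + 2 * (o ⬝ᵥ A.mulVec f / 4) * z * s +
        (f ⬝ᵥ A.mulVec f / 4) * s ^ 2 + 2 * (m ⬝ᵥ o / 2) * z +
        2 * (m ⬝ᵥ f / 2) * s + ν := by
  unfold qp qg
  rw [Matrix.mulVec_add, Matrix.mulVec_smul, Matrix.mulVec_smul]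
  simp only [add_dotProduct, dotProduct_add, smul_dotProduct, dotProduct_smul, smul_eq_mul]
  rw [symm hA f o]
  ring

end QuadCone

open Pool.Agent.Lib.MP_0c1c75_co.Few.Cone (pos cs) in
theorem quadConeStmt (h1 : Plane1Stmt) (h2 : Pool.Agent.Lib.MP_0c1c75_co.Few.ConeIntStmt) :
    QuadConeStmt := by
  intro n hn Φ hΦ A hA m ν
  obtain ⟨k, rfl⟩ : ∃ k, n = k + 1 := ⟨n - 1, by omega⟩
  have hdc : Continuous (deriv Φ) := hΦ.smooth.continuous_deriv (by simp)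
  obtain ⟨R, hR⟩ : ∃ R : ℝ, ∀ s, R < s → deriv Φ s = 0 := by
    obtain ⟨R, hR⟩ := hΦ.supp.deriv.isCompact.isBounded.subset_closedBall (0 : ℝ)
    refine ⟨R, fun s hs => ?_⟩
    by_contra hne
    have := hR (subset_tsupport _ hne)
    rw [mem_closedBall_zero_iff, Real.norm_eq_abs] at this
    linarith [le_abs_self s]
  obtain ⟨ρ, hρ⟩ := QuadCone.proper hA m ν R
  have key := h2 k (fun p => -deriv Φ (qp A m ν (Fin.cons p.1 p.2 : Fin (k + 1 + 1) → ℝ)))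
    ((hdc.comp (QuadCone.cont A m ν)).neg)
    (HasCompactSupport.intro (isCompact_closedBall (0 : ℝ × (Fin (k + 1) → ℝ)) ρ) (fun p hp => by
      rw [mem_closedBall_zero_iff, not_le] at hp
      rw [hR _ (hρ p hp), neg_zero]))
  simp only at key
  rw [key]
  refine integral_nonneg fun v => ?_
  obtain ⟨o, ho⟩ : ∃ o : Fin (k + 1 + 1) → ℝ, o = Fin.cons 1 (fun _ => 0) := ⟨_, rfl⟩
  obtain ⟨f, hf⟩ : ∃ f : Fin (k + 1 + 1) → ℝ, f = Fin.cons 0 (Fin.cons 1 v : Fin (k + 1) → ℝ) :=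
    ⟨_, rfl⟩
  have hwv : ∀ z s : ℝ, (Fin.cons z (s • (Fin.cons 1 v : Fin (k + 1) → ℝ)) : Fin (k + 1 + 1) → ℝ) =
      z • o + s • f := by
    intro z s
    funext i
    rw [ho, hf]
    refine Fin.cases ?_ (fun i => ?_) i
    · simp
    · simp
  have ho0 : o ≠ 0 := by
    intro h
    have := congrFun h 0
    rw [ho] at this
    simp at this
  have hof : ∀ r t : ℝ, r • f - t • o = 0 → r = 0 := by
    intro r t h
    have e2 := congrFun h (Fin.succ 0)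
    rw [ho, hf] at e2
    simpa using e2
  have hcs := cs hA ho0 hof
  have h3 := h1 Φ hΦ (o ⬝ᵥ A.mulVec o / 4) (o ⬝ᵥ A.mulVec f / 4) (f ⬝ᵥ A.mulVec f / 4)
    (m ⬝ᵥ o / 2) (m ⬝ᵥ f / 2) ν k (by omega)
    (by have := pos hA ho0; linarith) (by
      have e : (o ⬝ᵥ A.mulVec f / 4) ^ 2 = (-(o ⬝ᵥ A.mulVec f) / 4) ^ 2 := by ring
      rw [e]
      exact hcs)
  simp only [hwv, QuadCone.expand hA]
  exact h3

end Pool.Agent.Lib.MP_0c1c75_co.Clu
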