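import Pool.Agent.Lib.MP_0c1c75_co.CluSoftPt

/-!
MP_0c1c75_co, module SoftInt (helper63): the integrated form of the derivative along the path.
-/

open MeasureTheory Set Matrix
open scoped ContDiff

namespace Pool.Agent.Lib.MP_0c1c75_co.Clu.SoftInt

open SoftPt

variable {ι : Type} [Fintype ι] [DecidableEq ι]

lemma box_eq (R : ℝ) : {y : ι → ℝ | ∀ A, |y A| ≤ R} = Set.pi univ (fun _ => Icc (-R) R) := by
  ext y
  simp only [mem_setOf_eq, mem_pi, mem_univ, true_implies, mem_Icc, abs_le]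

lemma isCompact_box (R : ℝ) : IsCompact {y : ι → ℝ | ∀ A, |y A| ≤ R} := by
  rw [box_eq]
  exact isCompact_univ_pi fun _ => isCompact_Icc

lemma compactSupport_of_box {F : (ι → ℝ) → ℝ} {R : ℝ} (h : ∀ y, (∃ A, R < |y A|) → F y = 0) :
    HasCompactSupport F := by
  apply HasCompactSupport.intro (isCompact_box R)
  intro y hy
  apply h
  simp only [mem_setOf_eq, not_forall, not_le] at hy
  exact hy

lemma integral_partial_eq_zero {F : (ι → ℝ) → ℝ} (hF : ContDiff ℝ 1 F) (hc : HasCompactSupport F)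
    (B : ι) {F' : (ι → ℝ) → ℝ}
    (hd : ∀ y, HasDerivAt (fun x : ℝ => F (Function.update y B x)) (F' y) (y B)) :
    Integrable F' ∧ ∫ y, F' y = 0 := by
  have h1 : ∀ y, F' y = fderiv ℝ F y (Pi.single B 1) := by
    intro y
    have h2 := hasDerivAt_update y B (y B)
    have h3 : HasFDerivAt F (fderiv ℝ F y) (Function.update y B (y B)) := by
      rw [Function.update_eq_self]
      exact (hF.differentiable (by simp) y).hasFDerivAt
    exact (hd y).unique (h3.comp_hasDerivAt (y B) h2)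
  have h2 : F' = fun y => fderiv ℝ F y (Pi.single B 1) := funext h1
  have h3 : Continuous fun y => fderiv ℝ F y (Pi.single B 1) :=
    (hF.continuous_fderiv (by simp)).clm_apply continuous_const
  have h4 : HasCompactSupport fun y => fderiv ℝ F y (Pi.single B 1) := hc.fderiv_apply ℝ _
  have h5 : Integrable fun y => fderiv ℝ F y (Pi.single B 1) :=
    h3.integrable_of_hasCompactSupport h4
  rw [h2]
  refine ⟨h5, ?_⟩
  have h6 := integral_mul_fderiv_eq_neg_fderiv_mul_of_integrable (μ := volume)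
    (f := fun _ : ι → ℝ => (1 : ℝ)) (g := F) (v := Pi.single B (1 : ℝ))
    (by simp) (by simpa using h5)
    (by simpa using hF.continuous.integrable_of_hasCompactSupport hc)
    (fun x _ => differentiableAt_const _)
    (fun x _ => hF.differentiable (by simp) x)
  simpa using h6

section smooth

variable {N : ℕ} (β : ℝ) (α : Fin N → ι → ℝ) (a : Fin N → ℝ) (Γ : Matrix ι ι ℝ)

lemma contDiff_sg (i : Fin N) : ContDiff ℝ ∞ fun y => sg α a Γ y i := by
  unfold sg dotProduct
  fun_prop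

lemma contDiff_sum : ContDiff ℝ ∞ fun y => ∑ j, Real.exp (β * sg α a Γ y j) := by
  refine ContDiff.sum fun j _ => ?_
  exact ((contDiff_sg α a Γ j).const_smul β).exp

lemma sum_pos (hN : 0 < N) (y : ι → ℝ) : 0 < ∑ j, Real.exp (β * sg α a Γ y j) := by
  haveI : Nonempty (Fin N) := ⟨⟨0, hN⟩⟩
  exact Finset.sum_pos (fun _ _ => Real.exp_pos _) Finset.univ_nonempty

lemma contDiff_wt (hN : 0 < N) (i : Fin N) : ContDiff ℝ ∞ fun y => wt β (sg α a Γ y) i := by
  unfold wt
  exact ((contDiff_sg α a Γ i).const_smul β).exp.div (contDiff_sum β α a Γ)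
    fun y => (sum_pos β α a Γ hN y).ne'

lemma contDiff_smx (hN : 0 < N) : ContDiff ℝ ∞ fun y => smx β (sg α a Γ y) := by
  unfold smx
  exact contDiff_const.mul ((contDiff_sum β α a Γ).log fun y => (sum_pos β α a Γ hN y).ne')

omit [DecidableEq ι] in
lemma contDiff_qg (A : Matrix ι ι ℝ) : ContDiff ℝ ∞ fun y => qg A y := by
  unfold qg dotProduct Matrix.mulVec dotProduct
  fun_prop

lemma contDiff_E (hN : 0 < N) (A : Matrix ι ι ℝ) :
    ContDiff ℝ ∞ fun y => qg A y + smx β (sg α a Γ y) :=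
  (contDiff_qg A).add (contDiff_smx β α a Γ hN)

lemma contDiff_vf {Φ : ℝ → ℝ} (hΦ : Few.Prof Φ) (hN : 0 < N) (H : Matrix ι ι ℝ) (B : ι) :
    ContDiff ℝ ∞ fun y => vf Φ β α a Γ H B y := by
  have h1 : ContDiff ℝ ∞ (deriv Φ) := (contDiff_infty_iff_deriv.1 hΦ.smooth).2
  unfold vf
  refine (h1.comp (contDiff_E β α a Γ hN Γ⁻¹)).mul ?_
  unfold Matrix.mulVec dotProduct
  refine ContDiff.sum fun C _ => contDiff_const.mul ?_
  refine ContDiff.sub ?_ ?_
  · exact contDiff_const.mul (by fun_prop)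
  · exact ContDiff.sum fun i _ => (contDiff_wt β α a Γ hN i).mul contDiff_const

end smooth

/-- bounds for the linear functions -/
lemma bb_bound {N : ℕ} (α : Fin N → ι → ℝ) (a : Fin N → ℝ) (Γ : Matrix ι ι ℝ) (Λ : ℝ)
    (h : ∀ i j, |Γ i j| ≤ Λ) (i : Fin N) :
    |bb α a Γ i| ≤ (∑ A, |α i A|) * (∑ B, Λ * |α i B|) + |a i| := by
  unfold bb
  refine (abs_sub _ _).trans (add_le_add ?_ le_rfl)
  unfold dotProduct Matrix.mulVec dotProduct
  rw [Finset.sum_mul]
  refine (Finset.abs_sum_le_sum_abs _ _).trans (Finset.sum_le_sum fun A _ => ?_)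
  rw [abs_mul]
  refine mul_le_mul_of_nonneg_left ?_ (abs_nonneg _)
  refine (Finset.abs_sum_le_sum_abs _ _).trans (Finset.sum_le_sum fun B _ => ?_)
  rw [abs_mul]
  exact mul_le_mul_of_nonneg_right (h A B) (abs_nonneg _)

omit [DecidableEq ι] in
lemma dot_bound (v y : ι → ℝ) : |v ⬝ᵥ y| ≤ (∑ A, |v A|) * ∑ A, |y A| := by
  unfold dotProduct
  refine (Finset.abs_sum_le_sum_abs _ _).trans ?_
  rw [Finset.sum_mul]
  refine Finset.sum_le_sum fun A _ => ?_
  rw [abs_mul]
  exact mul_le_mul_of_nonneg_left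
    (Finset.single_le_sum (f := fun A => |y A|) (fun _ _ => abs_nonneg _) (Finset.mem_univ A))
    (abs_nonneg _)

/-- the data on the path -/
structure Data (Φ : ℝ → ℝ) {N : ℕ} (α : Fin N → ι → ℝ) (a : Fin N → ℝ) (M H : Matrix ι ι ℝ)
    (R Λ D B : ℝ) : Prop where
  R0 : 0 ≤ R
  D0 : 0 < D
  B0 : 0 ≤ B
  pd : ∀ l ∈ Icc (0 : ℝ) 1, (M + l • H).PosDef
  inv : ∀ l ∈ Icc (0 : ℝ) 1, ∀ i j, |(M + l • H)⁻¹ i j| ≤ Λ
  det : ∀ l ∈ Icc (0 : ℝ) 1, D ≤ Real.sqrt (M + l • H).det
  box : ∀ l ∈ Icc (0 : ℝ) 1, ∀ β, 0 < β → ∀ y : ι → ℝ, (∃ A, R < |y A|) →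
    deriv Φ (qg (M + l • H)⁻¹ y + smx β (sg α a (M + l • H) y)) = 0 ∧
    deriv (deriv Φ) (qg (M + l • H)⁻¹ y + smx β (sg α a (M + l • H) y)) = 0
  boxh : ∀ l ∈ Icc (0 : ℝ) 1, ∀ y : ι → ℝ, (∃ A, R < |y A|) →
    deriv Φ (qg (M + l • H)⁻¹ y + hmx (sg α a (M + l • H) y)) = 0
  b1 : ∀ x, |deriv Φ x| ≤ B
  b2 : ∀ x, |deriv (deriv Φ) x| ≤ B

lemma exists_data (h2 : MatGStmt) (h3 : EstStmt) (h4 : BoxStmt) {N : ℕ} (hN : 0 < N) (Φ : ℝ → ℝ)
    (hΦ : Few.Prof Φ) (M H : Matrix ι ι ℝ) (hM : M.PosDef) (hMH : (M + H).PosDef)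
    (α : Fin N → ι → ℝ) (a : Fin N → ℝ) : ∃ R Λ D B : ℝ, Data Φ α a M H R Λ D B := by
  obtain ⟨lam, Λ, D, hlam, hD, hl⟩ := h2.2.2 ι M H hM hMH
  obtain ⟨B, hB, -, hB1, hB2, -⟩ := h4.2 Φ hΦ
  set i0 : Fin N := ⟨0, hN⟩
  set C0 : ℝ := (∑ A, |α i0 A|) * (∑ B, Λ * |α i0 B|) + |a i0| with hC0
  obtain ⟨R, hR, hbox⟩ := h4.1 ι Φ hΦ lam C0 (∑ A, |α i0 A|) hlam
  have key : ∀ l ∈ Icc (0 : ℝ) 1, ∀ y : ι → ℝ, ∀ g : ℝ, sg α a (M + l • H) y i0 ≤ g →
      -C0 - (∑ A, |α i0 A|) * ∑ A, |y A| ≤ g := by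
    intro l hl' y g hg
    refine le_trans ?_ hg
    have e1 := bb_bound α a (M + l • H) Λ (hl l hl').2.2.2.1 i0
    have e2 := dot_bound (α i0) y
    have e3 := neg_abs_le (bb α a (M + l • H) i0)
    have e4 := neg_abs_le (α i0 ⬝ᵥ y)
    unfold sg
    linarith
  refine ⟨R, Λ, D, B, hR, hD, hB, fun l h => (hl l h).1, fun l h => (hl l h).2.2.1,
    fun l h => (hl l h).2.2.2.2, ?_, ?_, hB1, hB2⟩
  · intro l hl' β hβ y hy
    have e := (h3.1 N hN β hβ).1 (sg α a (M + l • H) y)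
    have h5 := hbox y (qg (M + l • H)⁻¹ y) (smx β (sg α a (M + l • H) y)) hy
      ((hl l hl').2.1 y) (key l hl' y _ ((e.2.2.1 i0).trans e.1))
    exact ⟨h5.2.1, h5.2.2⟩
  · intro l hl' y hy
    have e := (h3.1 N hN 1 one_pos).1 (sg α a (M + l • H) y)
    have h5 := hbox y (qg (M + l • H)⁻¹ y) (hmx (sg α a (M + l • H) y)) hy
      ((hl l hl').2.1 y) (key l hl' y _ (e.2.2.1 i0))
    exact h5.2.1

/-- uniform bound of the raw derivative -/
lemma raw_bound (h3 : EstStmt) {N : ℕ} (hN : 0 < N) {Φ : ℝ → ℝ} {M H : Matrix ι ι ℝ}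
    {α : Fin N → ι → ℝ} {a : Fin N → ℝ} {R Λ D B : ℝ} (hd : Data Φ α a M H R Λ D B)
    {β : ℝ} (hβ : 0 < β) : ∃ K : ℝ, 0 ≤ K ∧ ∀ l ∈ Icc (0 : ℝ) 1, ∀ y : ι → ℝ,
      |raw Φ β α a (M + l • H) H y| ≤
        {y : ι → ℝ | ∀ A, |y A| ≤ R}.indicator (fun _ => K) y := by
  set T1 : ℝ := ∑ i, ∑ j, Λ * |H j i| with hT1
  set G : ℝ := (1 / 2) * ∑ _j : ι, Λ * R with hG
  set T2 : ℝ := ∑ i, G * ∑ j, |H i j| * G with hT2
  set T3 : ℝ := ∑ i, |α i ⬝ᵥ H.mulVec (α i)| with hT3
  have hB := hd.B0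
  have hT3' : 0 ≤ T3 := Finset.sum_nonneg fun _ _ => abs_nonneg _
  refine ⟨D⁻¹ * ((1 / 2) * |T1| * B + B * (|T2| + T3)), by have := hd.D0; positivity, ?_⟩
  intro l hl y
  by_cases hy : y ∈ {y : ι → ℝ | ∀ A, |y A| ≤ R}
  · rw [indicator_of_mem hy]
    have hΛ := hd.inv l hl
    have hy' : ∀ A, |y A| ≤ R := hy
    set A : Matrix ι ι ℝ := (M + l • H)⁻¹ with hA
    have hg : ∀ C, |(fun C => (1 / 2) * A.mulVec y C) C| ≤ G := by
      intro C
      simp only [abs_mul]
      rw [abs_of_pos (by norm_num : (0 : ℝ) < 1 / 2), hG]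
      refine mul_le_mul_of_nonneg_left ?_ (by norm_num)
      unfold Matrix.mulVec dotProduct
      refine (Finset.abs_sum_le_sum_abs _ _).trans (Finset.sum_le_sum fun j _ => ?_)
      rw [abs_mul]
      exact mul_le_mul (hΛ C j) (hy' j) (abs_nonneg _) ((abs_nonneg _).trans (hΛ C j))
    have e1 : |(Real.sqrt (M + l • H).det)⁻¹| ≤ D⁻¹ := by
      rw [abs_inv, abs_of_nonneg (Real.sqrt_nonneg _)]
      exact inv_anti₀ hd.D0 (hd.det l hl)
    have e2 : |(A * H).trace| ≤ |T1| := by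
      refine le_trans ?_ (le_abs_self _)
      unfold Matrix.trace
      simp only [Matrix.diag_apply, Matrix.mul_apply]
      refine (Finset.abs_sum_le_sum_abs _ _).trans (Finset.sum_le_sum fun i _ => ?_)
      refine (Finset.abs_sum_le_sum_abs _ _).trans (Finset.sum_le_sum fun j _ => ?_)
      rw [abs_mul]
      exact mul_le_mul_of_nonneg_right (hΛ i j) (abs_nonneg _)
    have e3 : |(fun C => (1 / 2) * A.mulVec y C) ⬝ᵥ
        H.mulVec (fun C => (1 / 2) * A.mulVec y C)| ≤ |T2| := by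
      refine le_trans ?_ (le_abs_self _)
      unfold dotProduct
      refine (Finset.abs_sum_le_sum_abs _ _).trans (Finset.sum_le_sum fun i _ => ?_)
      rw [abs_mul]
      have hG0 : 0 ≤ G := (abs_nonneg _).trans (hg i)
      refine mul_le_mul (hg i) ?_ (abs_nonneg _) hG0
      rw [Matrix.mulVec]
      unfold dotProduct
      refine (Finset.abs_sum_le_sum_abs _ _).trans (Finset.sum_le_sum fun j _ => ?_)
      rw [abs_mul]
      exact mul_le_mul_of_nonneg_left (hg j) (abs_nonneg _)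
    have e4 : |∑ i, wt β (sg α a (M + l • H) y) i * (α i ⬝ᵥ H.mulVec (α i))| ≤ T3 := by
      refine (Finset.abs_sum_le_sum_abs _ _).trans (Finset.sum_le_sum fun i _ => ?_)
      have e := (h3.1 N hN β hβ).1 (sg α a (M + l • H) y)
      rw [abs_mul, abs_of_pos (e.2.2.2.2.1 i)]
      exact mul_le_of_le_one_left (abs_nonneg _) (e.2.2.2.2.2.1 i)
    unfold raw
    rw [abs_mul]
    refine mul_le_mul e1 ?_ (abs_nonneg _) (inv_nonneg.2 hd.D0.le)
    refine (abs_add_le _ _).trans (add_le_add ?_ ?_)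
    · rw [abs_mul, abs_mul, abs_of_pos (by norm_num : (0 : ℝ) < 1 / 2)]
      exact mul_le_mul (mul_le_mul_of_nonneg_left e2 (by norm_num)) (hd.b1 _) (abs_nonneg _)
        (by positivity)
    · rw [abs_mul]
      refine mul_le_mul (hd.b2 _) ?_ (abs_nonneg _) hB
      exact (abs_sub _ _).trans (add_le_add e3 e4)
  · rw [indicator_of_notMem hy]
    simp only [mem_setOf_eq, not_forall, not_le] at hy
    obtain ⟨h5, h6⟩ := hd.box l hl β hβ y hy
    unfold raw
    rw [h5, h6]
    simp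

lemma integrable_box (R K : ℝ) :
    Integrable ({y : ι → ℝ | ∀ A, |y A| ≤ R}.indicator (fun _ => K)) volume := by
  rw [integrable_indicator_iff (isCompact_box R).measurableSet]
  exact integrableOn_const (isCompact_box R).measure_lt_top.ne

lemma continuous_E {N : ℕ} (hN : 0 < N) (β : ℝ) (α : Fin N → ι → ℝ) (a : Fin N → ℝ)
    (Γ : Matrix ι ι ℝ) : Continuous fun y => qg Γ⁻¹ y + smx β (sg α a Γ y) :=
  (contDiff_E β α a Γ hN Γ⁻¹).continuous

lemma continuous_js {N : ℕ} (hN : 0 < N) {Φ : ℝ → ℝ} (hΦ : Few.Prof Φ) (β : ℝ) (α : Fin N → ι → ℝ)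
    (a : Fin N → ℝ) (Γ : Matrix ι ι ℝ) : Continuous (js Φ β α a Γ) := by
  have h1 : ContDiff ℝ ∞ (deriv Φ) := (contDiff_infty_iff_deriv.1 hΦ.smooth).2
  unfold js
  exact continuous_const.mul (h1.continuous.comp (continuous_E hN β α a Γ)).neg

lemma continuous_pint {N : ℕ} (hN : 0 < N) {Φ : ℝ → ℝ} (hΦ : Few.Prof Φ) (β : ℝ)
    (α : Fin N → ι → ℝ) (a : Fin N → ℝ) (Γ : Matrix ι ι ℝ) (i j : Fin N) :
    Continuous (pint Φ β α a Γ i j) := by
  have h1 : ContDiff ℝ ∞ (deriv Φ) := (contDiff_infty_iff_deriv.1 hΦ.smooth).2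
  have h2 : Continuous (deriv (deriv Φ)) := (contDiff_infty_iff_deriv.1 h1).2.continuous
  unfold pint
  have hE := continuous_E hN β α a Γ
  exact ((contDiff_wt β α a Γ hN i).continuous.mul (contDiff_wt β α a Γ hN j).continuous).mul
    ((h2.comp hE).sub (continuous_const.mul (h1.continuous.comp hE)))

end Pool.Agent.Lib.MP_0c1c75_co.Clu.SoftInt

namespace Pool.Agent.Lib.MP_0c1c75_co.Clu

open SoftPt SoftInt

theorem softIntStmt (h1 : SoftPtStmt) (h2 : MatGStmt) (h3 : EstStmt) (h4 : BoxStmt) :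
    SoftIntStmt := by
  intro ι _ _ N hN Φ hΦ M H hM hMH β hβ α a K hK
  obtain ⟨R, Λ, D, B, hd⟩ := exists_data h2 h3 h4 hN Φ hΦ M H hM hMH α a
  have hMs : M.IsSymm := by
    have := hM.isHermitian
    unfold Matrix.IsHermitian at this
    rwa [Matrix.conjTranspose_eq_transpose_of_trivial] at this
  have hMHs : (M + H).IsSymm := by
    have := hMH.isHermitian
    unfold Matrix.IsHermitian at this
    rwa [Matrix.conjTranspose_eq_transpose_of_trivial] at this
  have hHs : H.IsSymm := by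
    unfold Matrix.IsSymm at hMs hMHs ⊢
    rw [Matrix.transpose_add, hMs] at hMHs
    exact add_left_cancel hMHs
  obtain ⟨K1, hK1, hraw⟩ := raw_bound h3 hN hd hβ
  have hdiff : ∀ y : ι → ℝ, ∀ l ∈ Icc (0 : ℝ) 1,
      HasDerivAt (fun s : ℝ => js Φ β α a (M + s • H) y) (raw Φ β α a (M + l • H) H y) l :=
    fun y l hl => hasDerivAt_js h2 h3 hN Φ hΦ M H hMs hHs β hβ α a l (hd.pd l hl) y
  have hjs : ∀ l ∈ Icc (0 : ℝ) 1, ∀ y : ι → ℝ, |js Φ β α a (M + l • H) y| ≤
      {y : ι → ℝ | ∀ A, |y A| ≤ R}.indicator (fun _ => D⁻¹ * B) y := by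
    intro l hl y
    by_cases hy : y ∈ {y : ι → ℝ | ∀ A, |y A| ≤ R}
    · rw [indicator_of_mem hy]
      unfold js
      rw [abs_mul, abs_neg, abs_inv, abs_of_nonneg (Real.sqrt_nonneg _)]
      exact mul_le_mul (inv_anti₀ hd.D0 (hd.det l hl)) (hd.b1 _) (abs_nonneg _)
        (inv_nonneg.2 hd.D0.le)
    · rw [indicator_of_notMem hy]
      simp only [mem_setOf_eq, not_forall, not_le] at hy
      unfold js
      rw [(hd.box l hl β hβ y hy).1]
      simp
  -- the value of the derivative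
  have hval : ∀ l ∈ Icc (0 : ℝ) 1, ∫ y, raw Φ β α a (M + l • H) H y =
      (Real.sqrt (M + l • H).det)⁻¹ *
      ((1 / 2) * ∑ i, ∑ j, dl α H i j * ∫ y, pint Φ β α a (M + l • H) i j y) := by
    intro l hl
    choose V' hV hV2 using fun y => h1 ι N hN Φ hΦ M H hMs hHs β hβ α a l (hd.pd l hl) y
    have e1 : ∀ y, raw Φ β α a (M + l • H) H y = (Real.sqrt (M + l • H).det)⁻¹ *
        (∑ B, V' y B + (1 / 2) * ∑ i, ∑ j, dl α H i j * pint Φ β α a (M + l • H) i j y) :=
      fun y => (hdiff y l hl).unique (hV2 y)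
    have e2 : ∀ B : ι, Integrable (fun y => V' y B) ∧ ∫ y, V' y B = 0 := by
      intro C
      refine integral_partial_eq_zero (F := fun y => vf Φ β α a (M + l • H) H C y)
        ((contDiff_vf β α a (M + l • H) hΦ hN H C).of_le (by simp)) ?_ C (fun y => hV y C)
      refine compactSupport_of_box (R := R) fun y hy => ?_
      unfold vf
      rw [(hd.box l hl β hβ y hy).1, zero_mul]
    have e3 : ∀ i j, Integrable (pint Φ β α a (M + l • H) i j) := by
      intro i j
      refine (continuous_pint hN hΦ β α a _ i j).integrable_of_hasCompactSupport ?_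
      refine compactSupport_of_box (R := R) fun y hy => ?_
      unfold pint
      obtain ⟨h5, h6⟩ := hd.box l hl β hβ y hy
      rw [h5, h6]
      simp
    simp only [e1]
    rw [integral_const_mul, integral_add, integral_finsetSum, integral_const_mul,
      integral_finsetSum]
    · congr 1
      rw [Finset.sum_eq_zero (fun B _ => (e2 B).2), zero_add]
      congr 1
      refine Finset.sum_congr rfl fun i _ => ?_
      rw [integral_finsetSum]
      · refine Finset.sum_congr rfl fun j _ => ?_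
        rw [integral_const_mul]
      · intro j _
        exact (e3 i j).const_mul _
    · intro i _
      exact integrable_finsetSum _ fun j _ => (e3 i j).const_mul _
    · exact fun B _ => (e2 B).1
    · exact integrable_finsetSum _ fun B _ => (e2 B).1
    · exact (integrable_finsetSum _ fun i _ => integrable_finsetSum _ fun j _ =>
        (e3 i j).const_mul _).const_mul _
  have hcont : ContinuousOn (fun l : ℝ => Js Φ β α a (M + l • H)) (Icc 0 1) := by
    unfold Js
    refine continuousOn_of_dominated (bound := {y : ι → ℝ | ∀ A, |y A| ≤ R}.indicator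
      (fun _ => D⁻¹ * B)) (fun l _ => (continuous_js hN hΦ β α a _).aestronglyMeasurable) ?_
      (integrable_box R _) ?_
    · intro l hl
      refine Filter.Eventually.of_forall fun y => ?_
      rw [Real.norm_eq_abs]
      exact hjs l hl y
    · refine Filter.Eventually.of_forall fun y l hl => ?_
      exact (hdiff y l hl).continuousAt.continuousWithinAt
  have hderiv : ∀ l ∈ Ioo (0 : ℝ) 1, HasDerivAt (fun l : ℝ => Js Φ β α a (M + l • H))
      (∫ y, raw Φ β α a (M + l • H) H y) l := by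
    intro l hl
    have hl' : l ∈ Icc (0 : ℝ) 1 := Ioo_subset_Icc_self hl
    have hmeas : AEStronglyMeasurable (fun y => raw Φ β α a (M + l • H) H y) volume := by
      have e : (fun y => raw Φ β α a (M + l • H) H y) =
          fun y => deriv (fun s : ℝ => js Φ β α a (M + s • H) y) l :=
        funext fun y => (hdiff y l hl').deriv.symm
      have hΦ1 : ContDiff ℝ ∞ (deriv Φ) := (contDiff_infty_iff_deriv.1 hΦ.smooth).2
      have hΦ2 : Continuous (deriv (deriv Φ)) := (contDiff_infty_iff_deriv.1 hΦ1).2.continuous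
      have hE := continuous_E hN β α a (M + l • H)
      have hw := fun i => (contDiff_wt β α a (M + l • H) hN i).continuous
      refine Continuous.aestronglyMeasurable ?_
      unfold raw
      refine continuous_const.mul ((continuous_const.mul (hΦ1.continuous.comp hE)).add
        ((hΦ2.comp hE).mul (Continuous.sub ?_ ?_)))
      · unfold dotProduct Matrix.mulVec dotProduct
        fun_prop
      · exact continuous_finsetSum _ fun i _ => (hw i).mul continuous_const
    have h5 := hasDerivAt_integral_of_dominated_loc_of_deriv_le (μ := volume)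
      (F := fun (s : ℝ) (y : ι → ℝ) => js Φ β α a (M + s • H) y)
      (F' := fun (s : ℝ) (y : ι → ℝ) => raw Φ β α a (M + s • H) H y)
      (bound := {y : ι → ℝ | ∀ A, |y A| ≤ R}.indicator (fun _ => K1)) (x₀ := l)
      (s := Ioo (0 : ℝ) 1) (isOpen_Ioo.mem_nhds hl)
      (Filter.Eventually.of_forall fun s => (continuous_js hN hΦ β α a _).aestronglyMeasurable)
      ((integrable_box R (D⁻¹ * B)).mono' (continuous_js hN hΦ β α a _).aestronglyMeasurable
        (Filter.Eventually.of_forall fun y => by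
          rw [Real.norm_eq_abs]; exact hjs l hl' y))
      hmeas
      (Filter.Eventually.of_forall fun y s hs => by
        rw [Real.norm_eq_abs]; exact hraw s (Ioo_subset_Icc_self hs) y)
      (integrable_box R K1)
      (Filter.Eventually.of_forall fun y s hs => hdiff y s (Ioo_subset_Icc_self hs))
    exact h5.2
  have h6 := Convex.mul_sub_le_image_sub_of_le_deriv (convex_Icc (0 : ℝ) 1) hcont
    (fun l hl => by
      rw [interior_Icc] at hl
      exact (hderiv l hl).differentiableAt.differentiableWithinAt)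
    (C := -K) (fun l hl => by
      rw [interior_Icc] at hl
      rw [(hderiv l hl).deriv, hval l (Ioo_subset_Icc_self hl)]
      exact hK l (Ioo_subset_Icc_self hl)) 0 (by simp) 1 (by simp) zero_le_one
  simp only [one_smul, zero_smul, add_zero, sub_zero, mul_one] at h6
  linarith

end Pool.Agent.Lib.MP_0c1c75_co.Clu
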