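import Pool.Agent.Lib.MP_0c1c75_co.CluSpec

/-!
MP_0c1c75_co, module SoftPt (helper63): the derivative of the integrand along the path, pointwise.
-/

open MeasureTheory Set Matrix
open scoped ContDiff

namespace Pool.Agent.Lib.MP_0c1c75_co.Clu.SoftPt

variable {ι : Type} [Fintype ι] [DecidableEq ι]

lemma hasDerivAt_qg (X : ℝ → Matrix ι ι ℝ) (Y : Matrix ι ι ℝ)
    (t : ι → ℝ) (θ : ℝ) (h : ∀ i j, HasDerivAt (fun s => X s i j) (Y i j) θ) :
    HasDerivAt (fun s => qg (X s) t) (qg Y t) θ := by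
  unfold qg
  refine HasDerivAt.const_mul _ ?_
  unfold dotProduct Matrix.mulVec dotProduct
  refine HasDerivAt.fun_sum fun i _ => ?_
  refine HasDerivAt.const_mul _ ?_
  refine HasDerivAt.fun_sum fun j _ => ?_
  exact (h i j).mul_const _

lemma hasDerivAt_isqrt (f : ℝ → ℝ) (d tr θ : ℝ) (hd : 0 < d) (hf : f θ = d)
    (h : HasDerivAt f (d * tr) θ) :
    HasDerivAt (fun s => (Real.sqrt (f s))⁻¹) (-(1 / 2) * (Real.sqrt d)⁻¹ * tr) θ := by
  have hs : Real.sqrt d ≠ 0 := (Real.sqrt_pos.2 hd).ne'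
  have h1 : HasDerivAt (fun s => Real.sqrt (f s)) (d * tr / (2 * Real.sqrt (f θ))) θ :=
    h.sqrt (by rw [hf]; exact hd.ne')
  have h2 := h1.fun_inv (by rw [hf]; exact hs)
  refine h2.congr_deriv ?_
  rw [hf]
  have hsq : Real.sqrt d ^ 2 = d := Real.sq_sqrt hd.le
  have : d * tr = Real.sqrt d ^ 2 * tr := by rw [hsq]
  rw [this]
  field_simp

/-- symmetry of the bilinear form -/
lemma bil_comm (H : Matrix ι ι ℝ) (hH : H.IsSymm) (u v : ι → ℝ) :
    u ⬝ᵥ H.mulVec v = v ⬝ᵥ H.mulVec u := by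
  rw [Matrix.dotProduct_mulVec, ← Matrix.mulVec_transpose, hH.eq, dotProduct_comm]

lemma hasDerivAt_update (y : ι → ℝ) (B C : ι) :
    HasDerivAt (fun x : ℝ => Function.update y B x C) (if C = B then 1 else 0) (y B) := by
  by_cases h : C = B
  · subst h
    simp only [Function.update_self, if_true]
    exact hasDerivAt_id _
  · simp only [Function.update_of_ne h, if_neg h]
    exact hasDerivAt_const _ _

lemma hasDerivAt_dot (y v : ι → ℝ) (B : ι) :
    HasDerivAt (fun x : ℝ => v ⬝ᵥ Function.update y B x) (v B) (y B) := by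
  unfold dotProduct
  have h := HasDerivAt.fun_sum (u := Finset.univ) (A := fun C x => v C * Function.update y B x C)
    (A' := fun C => v C * (if C = B then 1 else 0)) (x := y B)
    (fun C _ => (hasDerivAt_update y B C).const_mul (v C))
  refine h.congr_deriv ?_
  simp

lemma hasDerivAt_qgu (A : Matrix ι ι ℝ) (hA : A.IsSymm) (y : ι → ℝ) (B : ι) :
    HasDerivAt (fun x : ℝ => qg A (Function.update y B x)) ((1 / 2) * A.mulVec y B) (y B) := by
  unfold qg
  have h1 : ∀ C, HasDerivAt (fun x : ℝ => A.mulVec (Function.update y B x) C) (A C B) (y B) := by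
    intro C
    exact hasDerivAt_dot y (A C) B
  have h2 : HasDerivAt (fun x : ℝ => Function.update y B x ⬝ᵥ A.mulVec (Function.update y B x))
      (∑ C, ((if C = B then 1 else 0) * A.mulVec y C + y C * A C B)) (y B) := by
    unfold dotProduct
    refine HasDerivAt.fun_sum fun C _ => ?_
    have h3 := (hasDerivAt_update y B C).fun_mul (h1 C)
    refine h3.congr_deriv ?_
    simp
  refine (h2.const_mul (1 / 4)).congr_deriv ?_
  rw [Finset.sum_add_distrib]
  have h4 : ∑ C, (if C = B then (1 : ℝ) else 0) * A.mulVec y C = A.mulVec y B := by simp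
  have h5 : ∑ C, y C * A C B = A.mulVec y B := by
    unfold Matrix.mulVec dotProduct
    refine Finset.sum_congr rfl fun C _ => ?_
    rw [mul_comm, hA.apply B C]
  rw [h4, h5]
  ring

/-- the algebraic identity -/
lemma algebra {N : ℕ} (H A : Matrix ι ι ℝ) (hH : H.IsSymm) (hA : A.IsSymm) (α : Fin N → ι → ℝ)
    (ρ : Fin N → ℝ) (hρ : ∑ i, ρ i = 1) (g m : ι → ℝ) (hm : m = fun C => ∑ i, ρ i * α i C)
    (P1 P2 β : ℝ) :
    ∑ B, (P2 * (g B + m B) * H.mulVec (fun C => g C - m C) B +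
      P1 * H.mulVec (fun C => (1 / 2) * A C B - ∑ i, (β * ρ i * (α i B - m B)) * α i C) B) +
    (1 / 2) * ∑ i, ∑ j, dl α H i j * (ρ i * ρ j * (P2 - β * P1)) =
    P2 * (g ⬝ᵥ H.mulVec g - ∑ i, ρ i * (α i ⬝ᵥ H.mulVec (α i))) + P1 * ((1 / 2) * (A * H).trace) := by
  have e1 : ∑ B, P2 * (g B + m B) * H.mulVec (fun C => g C - m C) B =
      P2 * (g ⬝ᵥ H.mulVec g - m ⬝ᵥ H.mulVec m) := by
    have : ∑ B, P2 * (g B + m B) * H.mulVec (fun C => g C - m C) B =
        P2 * ((g + m) ⬝ᵥ H.mulVec (g - m)) := by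
      unfold dotProduct
      rw [Finset.mul_sum]
      refine Finset.sum_congr rfl fun B _ => ?_
      rw [mul_assoc]
      rfl
    rw [this, Matrix.mulVec_sub, dotProduct_sub, add_dotProduct, add_dotProduct,
      bil_comm H hH m g]
    ring
  have e2 : ∑ B, P1 * H.mulVec (fun C => (1 / 2) * A C B -
      ∑ i, (β * ρ i * (α i B - m B)) * α i C) B =
      P1 * ((1 / 2) * (A * H).trace - β * ∑ i, ρ i * ((α i - m) ⬝ᵥ H.mulVec (α i))) := by
    rw [← Finset.mul_sum]
    congr 1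
    have h1 : ∀ B, H.mulVec (fun C => (1 / 2) * A C B -
        ∑ i, (β * ρ i * (α i B - m B)) * α i C) B =
        (1 / 2) * ∑ C, H B C * A C B -
          ∑ i, β * (ρ i * ((α i - m) B * H.mulVec (α i) B)) := by
      intro B
      unfold Matrix.mulVec dotProduct
      rw [Finset.mul_sum]
      have : ∀ i, β * (ρ i * ((α i - m) B * ∑ C, H B C * α i C)) =
          ∑ C, H B C * ((β * ρ i * (α i B - m B)) * α i C) := by
        intro i
        rw [Finset.mul_sum, Finset.mul_sum, Finset.mul_sum]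
        refine Finset.sum_congr rfl fun C _ => ?_
        rw [Pi.sub_apply]
        ring
      rw [Finset.sum_congr rfl (fun i _ => this i), Finset.sum_comm, ← Finset.sum_sub_distrib]
      refine Finset.sum_congr rfl fun C _ => ?_
      rw [mul_sub, Finset.mul_sum]
      ring
    rw [Finset.sum_congr rfl (fun B _ => h1 B), Finset.sum_sub_distrib, ← Finset.mul_sum]
    congr 1
    · congr 1
      unfold Matrix.trace
      simp only [Matrix.diag_apply, Matrix.mul_apply]
      rw [Finset.sum_comm]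
      refine Finset.sum_congr rfl fun C _ => Finset.sum_congr rfl fun B _ => ?_
      ring
    · rw [Finset.sum_comm, Finset.mul_sum]
      refine Finset.sum_congr rfl fun i _ => ?_
      unfold dotProduct
      rw [Finset.mul_sum, Finset.mul_sum]
  have e3 : ∑ i, ρ i * (m ⬝ᵥ H.mulVec (α i)) = m ⬝ᵥ H.mulVec m := by
    have h1 : H.mulVec m = ∑ i, ρ i • H.mulVec (α i) := by
      have : m = ∑ i, ρ i • α i := by
        rw [hm]
        funext C
        simp [Finset.sum_apply]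
      rw [this, Matrix.mulVec_sum]
      refine Finset.sum_congr rfl fun i _ => ?_
      rw [Matrix.mulVec_smul]
    rw [h1, dotProduct_sum]
    refine Finset.sum_congr rfl fun i _ => ?_
    rw [dotProduct_smul, smul_eq_mul]
  have e4 : ∑ i, ρ i * ((α i - m) ⬝ᵥ H.mulVec (α i)) =
      ∑ i, ρ i * (α i ⬝ᵥ H.mulVec (α i)) - m ⬝ᵥ H.mulVec m := by
    rw [← e3, ← Finset.sum_sub_distrib]
    refine Finset.sum_congr rfl fun i _ => ?_
    rw [sub_dotProduct]
    ring
  have e5 : ∑ i, ∑ j, ρ i * ρ j * (α i ⬝ᵥ H.mulVec (α j)) = m ⬝ᵥ H.mulVec m := by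
    rw [← e3]
    have : ∀ i, ∑ j, ρ i * ρ j * (α i ⬝ᵥ H.mulVec (α j)) = ρ i * (m ⬝ᵥ H.mulVec (α i)) := by
      intro i
      have h2 : m ⬝ᵥ H.mulVec (α i) = ∑ j, ρ j * (α i ⬝ᵥ H.mulVec (α j)) := by
        have h3 : m = ∑ j, ρ j • α j := by
          rw [hm]
          funext C
          simp [Finset.sum_apply]
        rw [h3, sum_dotProduct]
        refine Finset.sum_congr rfl fun j _ => ?_
        rw [smul_dotProduct, smul_eq_mul, bil_comm H hH]
      rw [h2, Finset.mul_sum]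
      refine Finset.sum_congr rfl fun j _ => ?_
      ring
    exact Finset.sum_congr rfl fun i _ => this i
  have e6 : ∑ i, ∑ j, dl α H i j * (ρ i * ρ j * (P2 - β * P1)) =
      -(2 * (∑ i, ρ i * (α i ⬝ᵥ H.mulVec (α i)) - m ⬝ᵥ H.mulVec m)) * (P2 - β * P1) := by
    have h1 : ∀ i j, dl α H i j * (ρ i * ρ j * (P2 - β * P1)) =
        (-(ρ j * (ρ i * (α i ⬝ᵥ H.mulVec (α i)))) - ρ i * (ρ j * (α j ⬝ᵥ H.mulVec (α j))) +
          2 * (ρ i * ρ j * (α i ⬝ᵥ H.mulVec (α j)))) * (P2 - β * P1) := by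
      intro i j
      unfold dl
      rw [Matrix.mulVec_sub, dotProduct_sub, sub_dotProduct, sub_dotProduct,
        bil_comm H hH (α j) (α i)]
      ring
    have h2 : ∑ i, ∑ j, ρ j * (ρ i * (α i ⬝ᵥ H.mulVec (α i))) =
        ∑ i, ρ i * (α i ⬝ᵥ H.mulVec (α i)) := by
      refine Finset.sum_congr rfl fun i _ => ?_
      rw [← Finset.sum_mul, hρ, one_mul]
    have h3 : ∑ i, ∑ j, ρ i * (ρ j * (α j ⬝ᵥ H.mulVec (α j))) =
        ∑ i, ρ i * (α i ⬝ᵥ H.mulVec (α i)) := by
      have : ∀ i, ∑ j, ρ i * (ρ j * (α j ⬝ᵥ H.mulVec (α j))) =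
          ρ i * ∑ j, ρ j * (α j ⬝ᵥ H.mulVec (α j)) := fun i => by rw [Finset.mul_sum]
      rw [Finset.sum_congr rfl (fun i _ => this i), ← Finset.sum_mul, hρ, one_mul]
    rw [Finset.sum_congr rfl (fun i _ => Finset.sum_congr rfl fun j _ => h1 i j)]
    simp only [← Finset.sum_mul]
    congr 1
    simp only [Finset.sum_add_distrib, Finset.sum_sub_distrib, Finset.sum_neg_distrib,
      ← Finset.mul_sum]
    have h4 : ∑ i, ρ i * ∑ j, ρ j * (α j ⬝ᵥ H.mulVec (α j)) =
        ∑ i, ρ i * (α i ⬝ᵥ H.mulVec (α i)) := by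
      rw [← Finset.sum_mul, hρ, one_mul]
    have h5 : ∑ i, ∑ j, ρ j * (ρ i * (α i ⬝ᵥ H.mulVec (α i))) =
        ∑ i, ρ i * (α i ⬝ᵥ H.mulVec (α i)) := h2
    rw [h4, h5, e5]
    ring
  rw [Finset.sum_add_distrib, e1, e2, e4, e6]
  ring

/-- the derivative along the path in raw form -/
noncomputable def raw {N : ℕ} (Φ : ℝ → ℝ) (β : ℝ) (α : Fin N → ι → ℝ) (a : Fin N → ℝ)
    (Γ H : Matrix ι ι ℝ) (y : ι → ℝ) : ℝ :=
  (Real.sqrt Γ.det)⁻¹ * ((1 / 2) * (Γ⁻¹ * H).trace * deriv Φ (qg Γ⁻¹ y + smx β (sg α a Γ y)) +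
    deriv (deriv Φ) (qg Γ⁻¹ y + smx β (sg α a Γ y)) *
      ((fun C => (1 / 2) * Γ⁻¹.mulVec y C) ⬝ᵥ H.mulVec (fun C => (1 / 2) * Γ⁻¹.mulVec y C) -
        ∑ i, wt β (sg α a Γ y) i * (α i ⬝ᵥ H.mulVec (α i))))

lemma hasDerivAt_js (h1 : MatGStmt) (h2 : EstStmt) {N : ℕ} (hN : 0 < N) (Φ : ℝ → ℝ) (hΦ : Few.Prof Φ)
    (M H : Matrix ι ι ℝ) (hM : M.IsSymm) (hH : H.IsSymm) (β : ℝ) (hβ : 0 < β) (α : Fin N → ι → ℝ)
    (a : Fin N → ℝ) (l : ℝ) (hpd : (M + l • H).PosDef) (y : ι → ℝ) :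
    HasDerivAt (fun s : ℝ => js Φ β α a (M + s • H) y) (raw Φ β α a (M + l • H) H y) l := by
  obtain ⟨-, -, e3⟩ := h2
  have hdet : 0 < (M + l • H).det := hpd.det_pos
  obtain ⟨hd, hX⟩ := h1.1 ι M H l hdet.ne'
  set A : Matrix ι ι ℝ := (M + l • H)⁻¹ with hAdef
  have hG : (M + l • H).IsSymm := by
    unfold Matrix.IsSymm
    rw [Matrix.transpose_add, Matrix.transpose_smul, hM.eq, hH.eq]
  have hA : A.IsSymm := by
    unfold Matrix.IsSymm
    rw [hAdef, Matrix.transpose_nonsing_inv, hG.eq]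
  have hΦ1 : ContDiff ℝ ∞ (deriv Φ) := (contDiff_infty_iff_deriv.1 hΦ.smooth).2
  have hΦ2 : Differentiable ℝ (deriv Φ) := hΦ1.differentiable (by simp)
  set z : Fin N → ℝ := sg α a (M + l • H) y with hz
  set ρ : Fin N → ℝ := wt β z with hρdef
  set g : ι → ℝ := fun C => (1 / 2) * A.mulVec y C with hg
  set E : ℝ := qg A y + smx β z with hE
  have d1 : ∀ i, HasDerivAt (fun s : ℝ => sg α a (M + s • H) y i)
      (α i ⬝ᵥ H.mulVec (α i)) l := by
    intro i
    have h3 : (fun s : ℝ => sg α a (M + s • H) y i) = fun s : ℝ =>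
        (α i ⬝ᵥ y + (α i ⬝ᵥ M.mulVec (α i) - a i)) + s * (α i ⬝ᵥ H.mulVec (α i)) := by
      funext s
      unfold sg bb
      rw [Matrix.add_mulVec, Matrix.smul_mulVec, dotProduct_add, dotProduct_smul, smul_eq_mul]
      ring
    rw [h3]
    have h4 := ((hasDerivAt_id l).mul_const (α i ⬝ᵥ H.mulVec (α i))).const_add
      (α i ⬝ᵥ y + (α i ⬝ᵥ M.mulVec (α i) - a i))
    rw [one_mul] at h4
    exact h4
  obtain ⟨d2, -⟩ := e3 N hN β hβ (fun s => sg α a (M + s • H) y)
    (fun i => α i ⬝ᵥ H.mulVec (α i)) l d1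
  have d3 := hasDerivAt_qg (fun s : ℝ => (M + s • H)⁻¹) (-(A * H * A)) y l
    (fun i j => by simpa using hX i j)
  have d4 : qg (-(A * H * A)) y = -(g ⬝ᵥ H.mulVec g) := by
    unfold qg
    have h5 : (A * H * A).mulVec y = A.mulVec (H.mulVec (A.mulVec y)) := by
      rw [Matrix.mulVec_mulVec, Matrix.mulVec_mulVec, Matrix.mul_assoc]
    have h6 : g = (1 / 2 : ℝ) • A.mulVec y := by
      rw [hg]
      funext C
      simp
    rw [Matrix.neg_mulVec, dotProduct_neg, h5, Matrix.dotProduct_mulVec,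
      ← Matrix.mulVec_transpose, hA.eq, h6, Matrix.mulVec_smul, dotProduct_smul,
      smul_dotProduct, smul_eq_mul, smul_eq_mul]
    ring
  rw [d4] at d3
  have d5 := d3.fun_add d2
  have d6 : HasDerivAt (fun s : ℝ => -deriv Φ (qg (M + s • H)⁻¹ y +
      smx β (sg α a (M + s • H) y)))
      (-(deriv (deriv Φ) E * (-(g ⬝ᵥ H.mulVec g) + ∑ i, ρ i * (α i ⬝ᵥ H.mulVec (α i))))) l := by
    have h4 : HasDerivAt (deriv Φ) (deriv (deriv Φ) E)
        (qg (M + l • H)⁻¹ y + smx β (sg α a (M + l • H) y)) := by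
      rw [← hAdef]
      exact (hΦ2 _).hasDerivAt
    exact (HasDerivAt.comp l h4 d5).fun_neg
  have d7 := (hasDerivAt_isqrt (fun s : ℝ => (M + s • H).det) _ _ l hdet rfl hd).fun_mul d6
  refine d7.congr_deriv ?_
  unfold raw
  simp only [← hAdef, ← hz, ← hE, ← hg, ← hρdef]
  ring

end Pool.Agent.Lib.MP_0c1c75_co.Clu.SoftPt

namespace Pool.Agent.Lib.MP_0c1c75_co.Clu

open SoftPt

theorem softPtStmt (h1 : MatGStmt) (h2 : EstStmt) : SoftPtStmt := by
  intro ι _ _ N hN Φ hΦ M H hM hH β hβ α a l hpd y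
  obtain ⟨e1, e2, e3⟩ := h2
  have hdet : 0 < (M + l • H).det := hpd.det_pos
  set A : Matrix ι ι ℝ := (M + l • H)⁻¹ with hAdef
  have hG : (M + l • H).IsSymm := by
    unfold Matrix.IsSymm
    rw [Matrix.transpose_add, Matrix.transpose_smul, hM.eq, hH.eq]
  have hA : A.IsSymm := by
    unfold Matrix.IsSymm
    rw [hAdef, Matrix.transpose_nonsing_inv, hG.eq]
  have hΦ1 : ContDiff ℝ ∞ (deriv Φ) := (contDiff_infty_iff_deriv.1 hΦ.smooth).2
  have hΦ2 : Differentiable ℝ (deriv Φ) := hΦ1.differentiable (by simp)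
  set z : Fin N → ℝ := sg α a (M + l • H) y with hz
  set ρ : Fin N → ℝ := wt β z with hρdef
  have hρ : ∑ i, ρ i = 1 := ((e1 N hN β hβ).1 z).2.2.2.2.2.2.1
  set g : ι → ℝ := fun C => (1 / 2) * A.mulVec y C with hg
  set m : ι → ℝ := fun C => ∑ i, ρ i * α i C with hm
  set E : ℝ := qg A y + smx β z with hE
  refine ⟨fun B => deriv (deriv Φ) E * (g B + m B) * H.mulVec (fun C => g C - m C) B +
      deriv Φ E * H.mulVec (fun C => (1 / 2) * A C B -
        ∑ i, (β * ρ i * (α i B - m B)) * α i C) B, ?_, ?_⟩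
  · intro B
    have hy : Function.update y B (y B) = y := Function.update_eq_self B y
    have d1 : ∀ i, HasDerivAt (fun x : ℝ => sg α a (M + l • H) (Function.update y B x) i)
        (α i B) (y B) := by
      intro i
      exact (hasDerivAt_dot y (α i) B).add_const _
    obtain ⟨d2, d3⟩ := e3 N hN β hβ (fun x => sg α a (M + l • H) (Function.update y B x))
      (fun i => α i B) (y B) d1
    simp only [hy] at d2 d3
    have d4 : HasDerivAt (fun x : ℝ => qg A (Function.update y B x) +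
        smx β (sg α a (M + l • H) (Function.update y B x))) (g B + m B) (y B) :=
      (hasDerivAt_qgu A hA y B).fun_add d2
    have d5 : HasDerivAt (fun x : ℝ => deriv Φ (qg A (Function.update y B x) +
        smx β (sg α a (M + l • H) (Function.update y B x))))
        (deriv (deriv Φ) E * (g B + m B)) (y B) := by
      have h4 : HasDerivAt (deriv Φ) (deriv (deriv Φ) E) (qg A (Function.update y B (y B)) +
          smx β (sg α a (M + l • H) (Function.update y B (y B)))) := by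
        rw [hy]
        exact (hΦ2 _).hasDerivAt
      exact HasDerivAt.comp (y B) h4 d4
    have d6 : ∀ C, HasDerivAt (fun x : ℝ => (1 / 2) * A.mulVec (Function.update y B x) C -
        ∑ i, wt β (sg α a (M + l • H) (Function.update y B x)) i * α i C)
        ((1 / 2) * A C B - ∑ i, (β * ρ i * (α i B - m B)) * α i C) (y B) := by
      intro C
      refine HasDerivAt.fun_sub ?_ ?_
      · exact (hasDerivAt_dot y (A C) B).const_mul _
      · refine HasDerivAt.fun_sum fun i _ => ?_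
        exact (d3 i).mul_const _
    have d7 : HasDerivAt (fun x : ℝ => H.mulVec (fun C => (1 / 2) *
        A.mulVec (Function.update y B x) C -
        ∑ i, wt β (sg α a (M + l • H) (Function.update y B x)) i * α i C) B)
        (H.mulVec (fun C => (1 / 2) * A C B - ∑ i, (β * ρ i * (α i B - m B)) * α i C) B)
        (y B) := by
      unfold Matrix.mulVec dotProduct
      refine HasDerivAt.fun_sum fun C _ => ?_
      exact (d6 C).const_mul _
    have d8 := d5.fun_mul d7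
    refine d8.congr_deriv ?_
    rw [hy]
  · refine (hasDerivAt_js h1 ⟨e1, e2, e3⟩ hN Φ hΦ M H hM hH β hβ α a l hpd y).congr_deriv ?_
    have key := algebra H A hH hA α ρ hρ g m rfl (deriv Φ E) (deriv (deriv Φ) E) β
    have h8 : ∀ i j, pint Φ β α a (M + l • H) i j y =
        ρ i * ρ j * (deriv (deriv Φ) E - β * deriv Φ E) := fun i j => rfl
    simp only [h8]
    rw [key]
    unfold raw
    simp only [← hAdef, ← hz, ← hE, ← hg, ← hρdef]
    ring

end Pool.Agent.Lib.MP_0c1c75_co.Clu
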