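import Pool.Agent.Lib.MP_0c1c75_co.FewSpec

/-!
MP_0c1c75_co (Kneser-Poulsen for intersections of balls), arbitrarily many balls in `k ≥ 4`
clusters (helper63).  Theorem E: let `q` be a contraction of `p` in `E^d`, any number `N` of balls,
any radii, and suppose that the indices are divided into `k ≥ 4` clusters such that
`dim span {(p_i - p_j, q_i - q_j) : i, j in the same cluster} + k ≤ d + 4`; then the volume of the
intersection of the balls does not decrease.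

Definitions and the statements of all modules, as Props, with proofs in the docstrings.
Every module `X` is a file `CluX.lean` with `theorem xStmt (hypotheses) : XStmt`; the hypotheses are
other statements of this file (or of `FewSpec`), so that all modules are independent.
All definitions are for an arbitrary finite index type of coordinates.

Idea.  Gram coordinates `y = (s, t) ∈ ℝ^e × ℝ^k`: `|x - P_i|² - a_i` becomes
`qg Γ⁻¹ y + ⟨α_i, y⟩ + b_i` with `α_i = (α_i^s, e_{c(i)})`; move `Γ` on the segment from `Γ^p` to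
`Γ^q`; replace the maximum by a soft maximum with parameter `β`; the derivative is a positive
combination of the integrals `∫ ρ_i ρ_j (Φ'' - β Φ')`, which are `≥ -C/β`, because for fixed `s` the
walls and the cells in `t ∈ ℝ^k` are cones (orthants of dimension `≥ 2`) times a line.
-/

open MeasureTheory Set
open scoped ContDiff

namespace Pool.Agent.Lib.MP_0c1c75_co.Clu

open Pool.Agent.Lib.MP_0c1c75_co.Few (Prof gm lift4 ConeIntStmt Polar2Stmt ContStmt LiftStmt)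

/-- `max_i (|x - P_i|^2 - a_i)` for an arbitrary index type of the coordinates (`gm` is the case
`ι = Fin n`, by `rfl`) -/
noncomputable def gg {N : ℕ} {ι : Type} [Fintype ι] (P : Fin N → ι → ℝ) (a : Fin N → ℝ)
    (x : ι → ℝ) : ℝ := ⨆ i, (∑ k, (x k - P i k) ^ 2 - a i)

/-- `yᵀ A y / 4` -/
noncomputable def qg {ι : Type} [Fintype ι] (A : Matrix ι ι ℝ) (y : ι → ℝ) : ℝ :=
  (1 / 4) * (y ⬝ᵥ A.mulVec y)

/-- quadratic polynomial `yᵀ A y / 4 + ⟨m, y⟩ + ν` -/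
noncomputable def qp {ι : Type} [Fintype ι] (A : Matrix ι ι ℝ) (m : ι → ℝ) (ν : ℝ)
    (y : ι → ℝ) : ℝ := qg A y + m ⬝ᵥ y + ν

/-- hard maximum -/
noncomputable def hmx {N : ℕ} (z : Fin N → ℝ) : ℝ := ⨆ i, z i

/-- soft maximum `(1/β) log ∑ exp (β z_i)` -/
noncomputable def smx {N : ℕ} (β : ℝ) (z : Fin N → ℝ) : ℝ :=
  (1 / β) * Real.log (∑ i, Real.exp (β * z i))

/-- soft weights `exp (β z_i) / ∑_j exp (β z_j)`, the gradient of `smx β` -/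
noncomputable def wt {N : ℕ} (β : ℝ) (z : Fin N → ℝ) (i : Fin N) : ℝ :=
  Real.exp (β * z i) / ∑ j, Real.exp (β * z j)

/-- `b_i = α_iᵀ Γ α_i - a_i` -/
noncomputable def bb {N : ℕ} {ι : Type} [Fintype ι] (α : Fin N → ι → ℝ) (a : Fin N → ℝ)
    (Γ : Matrix ι ι ℝ) (i : Fin N) : ℝ := α i ⬝ᵥ Γ.mulVec (α i) - a i

/-- the affine functions `σ_i(y) = ⟨α_i, y⟩ + b_i` -/
noncomputable def sg {N : ℕ} {ι : Type} [Fintype ι] (α : Fin N → ι → ℝ) (a : Fin N → ℝ)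
    (Γ : Matrix ι ι ℝ) (y : ι → ℝ) (i : Fin N) : ℝ := α i ⬝ᵥ y + bb α a Γ i

/-- the integral in Gram coordinates, with the maximum -/
noncomputable def Jh {N : ℕ} {ι : Type} [Fintype ι] [DecidableEq ι] (Φ : ℝ → ℝ)
    (α : Fin N → ι → ℝ) (a : Fin N → ℝ) (Γ : Matrix ι ι ℝ) : ℝ :=
  ∫ y, (Real.sqrt Γ.det)⁻¹ * -deriv Φ (qg Γ⁻¹ y + hmx (sg α a Γ y))

/-- the integrand in Gram coordinates, with the soft maximum -/
noncomputable def js {N : ℕ} {ι : Type} [Fintype ι] [DecidableEq ι] (Φ : ℝ → ℝ) (β : ℝ)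
    (α : Fin N → ι → ℝ) (a : Fin N → ℝ) (Γ : Matrix ι ι ℝ) (y : ι → ℝ) : ℝ :=
  (Real.sqrt Γ.det)⁻¹ * -deriv Φ (qg Γ⁻¹ y + smx β (sg α a Γ y))

/-- the integral in Gram coordinates, with the soft maximum -/
noncomputable def Js {N : ℕ} {ι : Type} [Fintype ι] [DecidableEq ι] (Φ : ℝ → ℝ) (β : ℝ)
    (α : Fin N → ι → ℝ) (a : Fin N → ℝ) (Γ : Matrix ι ι ℝ) : ℝ := ∫ y, js Φ β α a Γ y

/-- the integrand of the pair `i, j`: `ρ_i ρ_j (Φ'' - β Φ')` -/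
noncomputable def pint {N : ℕ} {ι : Type} [Fintype ι] [DecidableEq ι] (Φ : ℝ → ℝ) (β : ℝ)
    (α : Fin N → ι → ℝ) (a : Fin N → ℝ) (Γ : Matrix ι ι ℝ) (i j : Fin N) (y : ι → ℝ) : ℝ :=
  wt β (sg α a Γ y) i * wt β (sg α a Γ y) j *
    (deriv (deriv Φ) (qg Γ⁻¹ y + smx β (sg α a Γ y)) -
      β * deriv Φ (qg Γ⁻¹ y + smx β (sg α a Γ y)))

/-- the main part of the integrand of the pair `i, j`: `β ρ_i ρ_j (-Φ')` -/
noncomputable def bint {N : ℕ} {ι : Type} [Fintype ι] [DecidableEq ι] (Φ : ℝ → ℝ) (β : ℝ)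
    (α : Fin N → ι → ℝ) (a : Fin N → ℝ) (Γ : Matrix ι ι ℝ) (i j : Fin N) (y : ι → ℝ) : ℝ :=
  β * (wt β (sg α a Γ y) i * wt β (sg α a Γ y) j *
    -deriv Φ (qg Γ⁻¹ y + smx β (sg α a Γ y)))

/-- `δ_ij = -(α_i - α_j)ᵀ H (α_i - α_j)` -/
noncomputable def dl {N : ℕ} {ι : Type} [Fintype ι] (α : Fin N → ι → ℝ) (H : Matrix ι ι ℝ)
    (i j : Fin N) : ℝ := -((α i - α j) ⬝ᵥ H.mulVec (α i - α j))

/-- the component `B` of the vector field `Φ'(E) H (∇q - ∇M)`, with `∇q = A y / 2` (`A = Γ⁻¹`) and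
`∇M = ∑ ρ_i α_i` -/
noncomputable def vf {N : ℕ} {ι : Type} [Fintype ι] [DecidableEq ι] (Φ : ℝ → ℝ) (β : ℝ)
    (α : Fin N → ι → ℝ) (a : Fin N → ℝ) (Γ H : Matrix ι ι ℝ) (B : ι) (y : ι → ℝ) : ℝ :=
  deriv Φ (qg Γ⁻¹ y + smx β (sg α a Γ y)) *
    H.mulVec (fun A => (1 / 2) * Γ⁻¹.mulVec y A - ∑ i, wt β (sg α a Γ y) i * α i A) B

/-- the coefficient vectors `α_i = (al_i, e_{cl i})` -/
def av {N e k : ℕ} (al : Fin N → Fin e → ℝ) (cl : Fin N → Fin k) (i : Fin N) :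
    Fin e ⊕ Fin k → ℝ := Sum.elim (al i) (Pi.single (cl i) 1)

/-! ## Module Box -/

/-- (1) Common support: outside a box everything vanishes. If `Φ` vanishes on `(T, ∞)`, `T ≥ 0`, so
do its derivatives; `q + g ≥ ∑_A (lam y_A² - |C₁| |y_A|) - C₀`, every term is at least
`-C₁²/(4 lam)` and the term with `|y_A| > R` is large. (2) Bounds and Lipschitz constants of the
derivatives of `Φ` (smooth with compact support; mean value inequality). -/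
def BoxStmt : Prop :=
  (∀ (ι : Type) [Fintype ι] (Φ : ℝ → ℝ), Prof Φ → ∀ lam C₀ C₁ : ℝ, 0 < lam → ∃ R : ℝ, 0 ≤ R ∧
    ∀ (y : ι → ℝ) (q g : ℝ), (∃ A, R < |y A|) → lam * (y ⬝ᵥ y) ≤ q →
      -C₀ - C₁ * ∑ A, |y A| ≤ g →
      Φ (q + g) = 0 ∧ deriv Φ (q + g) = 0 ∧ deriv (deriv Φ) (q + g) = 0) ∧
  (∀ Φ : ℝ → ℝ, Prof Φ → ∃ B : ℝ, 0 ≤ B ∧ (∀ x, |Φ x| ≤ B) ∧ (∀ x, |deriv Φ x| ≤ B) ∧
    (∀ x, |deriv (deriv Φ) x| ≤ B) ∧ (∀ x y, |deriv Φ x - deriv Φ y| ≤ B * |x - y|) ∧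
    (∀ x y, |deriv (deriv Φ) x - deriv (deriv Φ) y| ≤ B * |x - y|) ∧
    Differentiable ℝ Φ ∧ Differentiable ℝ (deriv Φ) ∧ Continuous (deriv (deriv Φ)))

/-! ## Module Polar1 -/

/-- Radial integrals in the plane with exponent `m ≥ 1`. The case `m ≥ 2` is `Polar2Stmt.2`. For
`m = 1` use `w_ε y = (s₀ + c y + √((s₀ + c y)² + ε²)) / 2`: it is smooth, positive, its derivative
is nondecreasing, and `0 ≤ w_ε y - max (s₀ + c y) 0 ≤ ε / 2`. As in `FewPolar2.lean`: by the symmetry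
`y ↦ -y` replace `w` by the even function `W y = (w y + w (-y)) / 2`, `W' ≥ 0` on `[0,∞)`; polar
coordinates: for every angle, `∫_0^∞ -Φ'(κ+r²) W(r sin θ) r dr = Φ(κ) W(0)/2 +
(1/2) ∫_0^∞ Φ(κ+r²) sin θ W'(r sin θ) dr ≥ 0`. So the integral with `w_ε` is `≥ 0`; let `ε → 0`
(`Φ'(κ+x²+y²)` is bounded with compact support). -/
def Polar1Stmt : Prop :=
  ∀ Φ : ℝ → ℝ, Prof Φ → ∀ (κ s₀ c : ℝ) (m : ℕ), 1 ≤ m → 0 < c →
    0 ≤ ∫ z : ℝ × ℝ, -deriv Φ (κ + z.1 ^ 2 + z.2 ^ 2) * (max (s₀ + c * z.2) 0) ^ m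

/-! ## Module Plane1 -/

/-- Positive definite quadratic polynomial in two variables, exponent `m ≥ 1`. From `Polar1Stmt`,
word by word as in `FewPlane.lean` (where `m ≥ 2`). -/
def Plane1Stmt : Prop :=
  ∀ Φ : ℝ → ℝ, Prof Φ → ∀ (α β γ l μ ν : ℝ) (m : ℕ), 1 ≤ m → 0 < α → β ^ 2 < α * γ →
    0 ≤ ∫ s in Ioi (0 : ℝ), ∫ z : ℝ,
      -deriv Φ (α * z ^ 2 + 2 * β * z * s + γ * s ^ 2 + 2 * l * z + 2 * μ * s + ν) * s ^ m

/-! ## Module QuadCone -/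

/-- Positivity for an orthant of dimension `f ≥ 2` times a line and an arbitrary positive definite
quadratic polynomial. From `Plane1Stmt` and `Few.ConeIntStmt` (`f = j + 1`, exponent `m = j ≥ 1`):
for `v > 0` put `w₀ = cons 1 0`, `w₁ = cons 0 (cons 1 v)` (linearly independent);
`cons z (s • cons 1 v) = z w₀ + s w₁` and `qp A m ν (z w₀ + s w₁)` is the quadratic polynomial in
`(z, s)` with `α = qg A w₀ > 0`, `γ = qg A w₁`, `β = (w₀ᵀ A w₁)/4`, `β² < α γ` (positive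
definiteness), `2 l = m ⬝ᵥ w₀`, `2 μ = m ⬝ᵥ w₁`. The function `(z,u) ↦ deriv Φ (qp A m ν (cons z u))`
is continuous with compact support. See `FewCone.lean` for a similar module. -/
def QuadConeStmt : Prop :=
  ∀ f : ℕ, 2 ≤ f → ∀ Φ : ℝ → ℝ, Prof Φ → ∀ A : Matrix (Fin (f + 1)) (Fin (f + 1)) ℝ, A.PosDef →
    ∀ (m : Fin (f + 1) → ℝ) (ν : ℝ),
    0 ≤ ∫ z : ℝ, ∫ u in {u : Fin f → ℝ | ∀ i, 0 < u i},
      -deriv Φ (qp A m ν (Fin.cons z u : Fin (f + 1) → ℝ))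

/-! ## Module Cell -/

/-- Cells in `ℝ^k`, `k ≥ 4`. From `QuadConeStmt` with `f = k - 1 ≥ 3`. With `z c = x`,
`z i = x - u i` (`i ≠ c`, `u i > 0`; `volume_preserving_piFinSuccAbove _ c`, then the translation and
reflection of `ℝ^{k-1}`) the cell `{z | ∀ i, z i ≤ z c}` is a line times an orthant of dimension
`k - 1` (up to a null set), and `qp A m ν z + z c` is `qp A' m' ν (cons x u)` with `A' = Tᵀ A T`
positive definite, `T` the invertible matrix of `(x,u) ↦ z`. The integrand is continuous with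
compact support. (By a permutation of the coordinates one may take `c = 0`;
`A.submatrix σ σ` is positive definite, see `FewPerm.lean`, `FewCone.lean`, `FewWall.lean`.) -/
def CellStmt : Prop :=
  ∀ k : ℕ, 4 ≤ k → ∀ Φ : ℝ → ℝ, Prof Φ → ∀ A : Matrix (Fin k) (Fin k) ℝ, A.PosDef →
    ∀ (m : Fin k → ℝ) (ν : ℝ) (c : Fin k),
    0 ≤ ∫ z in {z : Fin k → ℝ | ∀ i, z i ≤ z c}, -deriv Φ (qp A m ν z + z c)

/-! ## Module WallC -/

/-- Walls in `ℝ^k`, `k ≥ 4`. From `QuadConeStmt` with `f = k - 2 ≥ 2`.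
`Φ''(qp z + z c) ((1/2) (A z)_{c'} + m_{c'})` is the derivative of `Φ'(qp A m ν z + z c)` with
respect to `z c'` (`A` is symmetric). Integrate over `z c' ∈ (-∞, z c]` first (compact support;
`integral_Iic_of_hasDerivAt_of_tendsto`): the integral is `∫ Φ'(qp z + z c)` over the wall
`{z c' = z c ≥ z i}`, a line times an orthant of dimension `k - 2`: `z = T (x, u)` with
`z c = z c' = x`, `z i = x - u i` for the other `i`, `T` injective, so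
`qp A m ν z + z c = qp (Tᵀ A T) m' ν (cons x u)` with `Tᵀ A T` positive definite.
(By a permutation of the coordinates one may take `c = 0`, `c' = 1`, `k = n + 2`, see
`FewPerm.lean`, `FewWall.lean`.) -/
def WallCStmt : Prop :=
  ∀ k : ℕ, 4 ≤ k → ∀ Φ : ℝ → ℝ, Prof Φ → ∀ A : Matrix (Fin k) (Fin k) ℝ, A.PosDef →
    ∀ (m : Fin k → ℝ) (ν : ℝ) (c c' : Fin k), c' ≠ c →
      0 ≤ -∫ z in {z : Fin k → ℝ | ∀ i, z i ≤ z c},
        deriv (deriv Φ) (qp A m ν z + z c) * ((1 / 2) * A.mulVec z c' + m c')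

/-! ## Modules Est1, Est2, Est3 -/

/-- Elementary estimates for the soft maximum.
(1) `hmx z ≤ smx β z ≤ hmx z + log N / β`. (2) `0 < ρ_i ≤ 1`, `∑ ρ_i = 1`.
(3) `ρ_i ρ_j ≤ exp (-β |z_i - z_j|)` for `i ≠ j`.
(4) `|ρ_c - 1_{cell c}| ≤ ∑_{m ≠ c} exp (-β |z_c - z_m|)` (in the cell: `1 - ρ_c = ∑_{m≠c} ρ_m ≤
∑ exp (-β (z_c - z_m))`; outside: `ρ_c ≤ exp (-β (z_m - z_c))` for a maximal `z_m`).
(5) continuity in `z`. -/
def Est1Stmt : Prop :=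
  ∀ (N : ℕ), 0 < N → ∀ (β : ℝ), 0 < β →
    (∀ z : Fin N → ℝ, hmx z ≤ smx β z ∧ smx β z ≤ hmx z + Real.log N / β ∧
    (∀ i, z i ≤ hmx z) ∧ (∃ i, hmx z = z i) ∧
    (∀ i, 0 < wt β z i) ∧ (∀ i, wt β z i ≤ 1) ∧ (∑ i, wt β z i = 1) ∧
    (∀ i j, i ≠ j → wt β z i * wt β z j ≤ Real.exp (-(β * |z i - z j|))) ∧
    (∀ c, |wt β z c - ({z : Fin N → ℝ | ∀ i, z i ≤ z c}.indicator (fun _ => (1 : ℝ)) z)| ≤
      ∑ m ∈ Finset.univ.erase c, Real.exp (-(β * |z c - z m|)))) ∧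
    Continuous (fun z : Fin N → ℝ => hmx z) ∧ Continuous (fun z : Fin N → ℝ => smx β z) ∧
    ∀ i, Continuous (fun z : Fin N → ℝ => wt β z i)

/-- `∫_{box} exp (-β |⟨v,y⟩ + b|) dy ≤ C / β` with `C` depending only on `v ≠ 0` and the box
`{y | ∀ A, |y A| ≤ R}`: choose `A` with `v A ≠ 0`, integrate over `y A` first:
`∫_ℝ exp (-β |v_A x + c|) dx = 2 / (β |v_A|)`, the rest is a box in `ι ∖ {A}`
(`volume_preserving_piEquivPiSubtypeProd`, or reindex `ι` by `Fin (n+1)` and use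
`volume_preserving_piFinSuccAbove`). Alternatively: the box is contained in the image of … any
proof. -/
def Est2Stmt : Prop :=
  ∀ (ι : Type) [Fintype ι] [DecidableEq ι] (v : ι → ℝ), v ≠ 0 → ∀ R : ℝ, ∃ C : ℝ, 0 ≤ C ∧
    ∀ (β : ℝ), 0 < β → ∀ b : ℝ,
      ∫ y in {y : ι → ℝ | ∀ A, |y A| ≤ R}, Real.exp (-(β * |v ⬝ᵥ y + b|)) ≤ C / β

/-- Derivatives of `smx β` and `wt β` along a differentiable curve. -/
def Est3Stmt : Prop :=
  ∀ (N : ℕ), 0 < N → ∀ (β : ℝ), 0 < β → ∀ (z : ℝ → Fin N → ℝ) (z' : Fin N → ℝ) (l : ℝ),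
    (∀ i, HasDerivAt (fun s => z s i) (z' i) l) →
    HasDerivAt (fun s => smx β (z s)) (∑ i, wt β (z l) i * z' i) l ∧
    ∀ i, HasDerivAt (fun s => wt β (z s) i)
      (β * wt β (z l) i * (z' i - ∑ j, wt β (z l) j * z' j)) l

/-- the three statements on the soft maximum -/
def EstStmt : Prop := Est1Stmt ∧ Est2Stmt ∧ Est3Stmt

/-! ## Module FibreL -/

/-- The uniform lower bound for a cell in a fibre. From `CellStmt`, `EstStmt`, `BoxStmt`.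
Let `Q = qp A m ν`, `E = Q + smx β`, `box = {z | ∀ i, |z i| ≤ R}`, where `R` (depending on
`lam, D, Φ, k` only) is such that `Φ'` and `Φ''` vanish at `E z` and at `Q z + hmx z` for `z`
outside the box (`BoxStmt`: `m ⬝ᵥ z + ν ≥ -D ∑|z_i| - D`, `smx β z ≥ hmx z ≥ -∑|z_i|`).
`|∫ ρ_c² (-Φ'(E)) - ∫_{cell c} (-Φ'(Q + z_c))| ≤ C/β`, by `|ρ_c² - 1_cell| ≤
2 |ρ_c - 1_cell| ≤ 2 ∑_{m≠c} exp (-β |z_c - z_m|)` (`EstStmt`) and
`|Φ'(E) - Φ'(Q + hmx z)| ≤ B log k / β` on the box; the cell integral is `≥ 0` (`CellStmt`);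
on the cell `hmx z = z_c`. -/
def FibreLStmt : Prop :=
  ∀ k : ℕ, 4 ≤ k → ∀ Φ : ℝ → ℝ, Prof Φ → ∀ (lam D : ℝ), 0 < lam → ∃ C : ℝ, 0 ≤ C ∧
    ∀ A : Matrix (Fin k) (Fin k) ℝ, A.PosDef → (∀ z, lam * (z ⬝ᵥ z) ≤ qg A z) →
    ∀ (m : Fin k → ℝ) (ν : ℝ), (∀ i, |m i| ≤ D) → |ν| ≤ D →
    ∀ β : ℝ, 1 ≤ β → ∀ c : Fin k,
    -(C / β) ≤ ∫ z, wt β z c ^ 2 * -deriv Φ (qp A m ν z + smx β z)

/-! ## Module FibreK -/

/-- The uniform lower bound for a wall in a fibre. From `WallCStmt`, `EstStmt`, `BoxStmt`; same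
notation as in `FibreLStmt`, the entries of `A` are bounded by `Λ`, so `∂_{c'} Q = (1/2) (A z)_{c'} +
m_{c'}` is bounded on the box.
`∂_{c'} ρ_c = -β ρ_c ρ_{c'}`, `∂_{c'} E = ∂_{c'} Q + ρ_{c'}`, so, integrating by parts with respect
to `z c'` (compact support), `∫ β ρ_c ρ_{c'} (-Φ'(E)) = ∫ (∂_{c'} ρ_c) Φ'(E) =
-∫ ρ_c Φ''(E) (∂_{c'} Q + ρ_{c'})`, and this differs by at most `C/β` from
`-∫_{cell c} Φ''(Q + z_c) ∂_{c'} Q ≥ 0` (`WallCStmt`): use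
`ρ_c ρ_{c'} ≤ exp (-β |z_c - z_{c'}|)`, `|ρ_c - 1_cell| ≤ ∑_{m≠c} exp (-β |z_c - z_m|)`,
`|Φ''(E) - Φ''(Q + hmx z)| ≤ B log k / β`. -/
def FibreKStmt : Prop :=
  ∀ k : ℕ, 4 ≤ k → ∀ Φ : ℝ → ℝ, Prof Φ → ∀ (lam Λ D : ℝ), 0 < lam → ∃ C : ℝ, 0 ≤ C ∧
    ∀ A : Matrix (Fin k) (Fin k) ℝ, A.PosDef → (∀ z, lam * (z ⬝ᵥ z) ≤ qg A z) →
    (∀ i j, |A i j| ≤ Λ) → ∀ (m : Fin k → ℝ) (ν : ℝ), (∀ i, |m i| ≤ D) → |ν| ≤ D →
    ∀ β : ℝ, 1 ≤ β → ∀ c c' : Fin k, c' ≠ c →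
      -(C / β) ≤ ∫ z, β * (wt β z c * wt β z c' * -deriv Φ (qp A m ν z + smx β z))

/-! ## Module Fac -/

/-- Factorization of the soft maximum over the clusters, for fixed `s` (`u i = ⟨al_i, s⟩ + b_i`):
`h_c = (1/β) log ∑_{cl i = c} exp (β u_i)` (the clusters are nonempty),
`ω_i = exp (β u_i) / ∑_{cl m = cl i} exp (β u_m)`. Then `∑_i exp (β (u_i + t_{cl i})) =
∑_c exp (β (t_c + h_c))`. If `|u_i| ≤ U` for all `i`, then `|h_c| ≤ U + log N / β`. And the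
quadratic form at `(s, z - h)` as a quadratic polynomial in `z` (`A` symmetric). -/
def FacStmt : Prop :=
  (∀ (k N : ℕ) (cl : Fin N → Fin k), 0 < N → Function.Surjective cl → ∀ (β : ℝ), 0 < β →
    ∀ u : Fin N → ℝ, ∃ (h : Fin k → ℝ) (w : Fin N → ℝ),
      (∀ U : ℝ, (∀ i, |u i| ≤ U) → ∀ c, |h c| ≤ U + Real.log N / β) ∧
      (∀ i, 0 < w i ∧ w i ≤ 1) ∧
      (∀ i j, i ≠ j → cl i = cl j → w i * w j ≤ Real.exp (-(β * |u i - u j|))) ∧
      (∀ t : Fin k → ℝ, smx β (fun i => t (cl i) + u i) = smx β (t + h) ∧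
        ∀ i, wt β (fun i => t (cl i) + u i) i = w i * wt β (t + h) (cl i))) ∧
  (∀ (e k : ℕ) (A : Matrix (Fin e ⊕ Fin k) (Fin e ⊕ Fin k) ℝ), A.IsSymm →
    ∀ (s : Fin e → ℝ) (h z : Fin k → ℝ),
      qg A (Sum.elim s (z - h)) =
        qp (fun i j => A (Sum.inr i) (Sum.inr j))
          (fun c => (1 / 2) * A.mulVec (Sum.elim s (-h)) (Sum.inr c))
          (qg A (Sum.elim s (-h))) z)

/-! ## Module SumInt -/

/-- Splitting the coordinates `y = (s, t)`, and Gram coordinates need a change of the index type.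
(1) `ℝ^{Fin e ⊕ Fin k} = ℝ^e × ℝ^k` (e.g. `LinearEquiv.sumPiEquivProdPi`/`Equiv.sumPiEquivProdPi`
is volume preserving: compare the measures on boxes, `Measure.pi_eq`,
or `volume_preserving_piEquivPiSubtypeProd`, or `measurePreserving_piFinsetUnion`), Fubini.
(2) `gg` under a bijection of the coordinates (`volume_measurePreserving_piCongrLeft`). -/
def SumIntStmt : Prop :=
  (∀ (e k : ℕ) (F : (Fin e ⊕ Fin k → ℝ) → ℝ), Integrable F →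
    ∫ y, F y = ∫ s : Fin e → ℝ, ∫ t : Fin k → ℝ, F (Sum.elim s t)) ∧
  (∀ (N n : ℕ) (ι : Type) [Fintype ι] (eq : ι ≃ Fin n) (P : Fin N → Fin n → ℝ) (a : Fin N → ℝ)
    (f : ℝ → ℝ), ∫ x : Fin n → ℝ, f (gm P a x) =
      ∫ x : ι → ℝ, f (gg (fun i A => P i (eq A)) a x))

/-! ## Module MatG -/

/-- `Few.MatDerivStmt` for an arbitrary index type (copy `FewMatDeriv.lean`, replacing `Fin N` by
`ι`; or reindex), and positive definiteness along the segment. -/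
def MatGStmt : Prop :=
  (∀ (ι : Type) [Fintype ι] [DecidableEq ι] (M H : Matrix ι ι ℝ) (θ : ℝ), (M + θ • H).det ≠ 0 →
    HasDerivAt (fun s : ℝ => (M + s • H).det) ((M + θ • H).det * ((M + θ • H)⁻¹ * H).trace) θ ∧
    ∀ i j, HasDerivAt (fun s : ℝ => (M + s • H)⁻¹ i j)
      (-((M + θ • H)⁻¹ * H * (M + θ • H)⁻¹) i j) θ) ∧
  (∀ (ι : Type) [Fintype ι] [DecidableEq ι] (Γ : Matrix ι ι ℝ) (Λ : ℝ), Γ.PosDef → 0 < Λ →
    (∀ t, t ⬝ᵥ Γ.mulVec t ≤ Λ * (t ⬝ᵥ t)) → ∀ t, (t ⬝ᵥ t) / (4 * Λ) ≤ qg Γ⁻¹ t) ∧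
  (∀ (ι : Type) [Fintype ι] [DecidableEq ι] (M H : Matrix ι ι ℝ), M.PosDef → (M + H).PosDef →
    ∃ lam Λ D : ℝ, 0 < lam ∧ 0 < D ∧ ∀ l ∈ Icc (0 : ℝ) 1, (M + l • H).PosDef ∧
      (∀ y, lam * (y ⬝ᵥ y) ≤ qg (M + l • H)⁻¹ y) ∧ (∀ i j, |(M + l • H)⁻¹ i j| ≤ Λ) ∧
      (∀ i j, |(M + l • H) i j| ≤ Λ) ∧ D ≤ Real.sqrt (M + l • H).det)

/-! ## Module PairFib -/

/-- The inner integral for fixed `s`, uniform on the path. From `FibreLStmt`, `FibreKStmt`,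
`EstStmt`, `MatGStmt`, `BoxStmt`, `FacStmt`.
Fix `l ∈ [0,1]`, `Γ = M + l H`, `A = Γ⁻¹`, `α = av al cl`, `u_i = ⟨al_i, s⟩ + b_i`
(`b_i = bb α a Γ i`, bounded), `σ_i(y) = t_{cl i} + u_i`, `E = qg A y + smx β σ`. There is `R`
(independent of `l`, `β ≥ 1`) such that `Φ'(E) = 0` for `y` outside the box `[-R,R]^{e+k}`
(`MatGStmt`: `qg A y ≥ lam |y|²`; `smx β σ ≥ hmx σ ≥ -C₀ - C₁ ∑ |y_A|`); in particular the inner
integral is zero for `s` outside the box. For fixed `s` in the box take `h`, `w` from `FacStmt`: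
`smx β σ = smx β (t + h)` and `ρ_i = w_i wt β (t + h) (cl i)`. Substitute `t = z - h`
(`integral_add_right_eq_self`): `E = qp A_tt m ν z + smx β z` with `m_c = (1/2) (A (s,-h))_c`,
`ν = qg A (s,-h)`, `A_tt` the `t`-block of `A` (entries `≤ Λ`, `qg A_tt z ≥ lam |z|²`, positive
definite). For `|s_A| ≤ R` the numbers `h_c, m_c, ν` are bounded, independently of `β ≥ 1` and `l`.
If `cl i ≠ cl j`: the inner integral is `w_i w_j ∫ β wt_c wt_c' (-Φ'(…)) dz ≥ -C/β`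
(`FibreKStmt`, `0 < w_i w_j ≤ 1`). If `cl i = cl j = c`: it is `β w_i w_j ∫ wt_c² (-Φ') dz
≥ -β w_i w_j C/β ≥ -C exp (-β |u_i - u_j|)` (`FibreLStmt`, `FacStmt`). -/
def PairFibStmt : Prop :=
  ∀ (e k N : ℕ), 4 ≤ k → ∀ Φ : ℝ → ℝ, Prof Φ →
    ∀ (M H : Matrix (Fin e ⊕ Fin k) (Fin e ⊕ Fin k) ℝ), M.PosDef → (M + H).PosDef →
    ∀ (al : Fin N → Fin e → ℝ) (cl : Fin N → Fin k), Function.Surjective cl →
    ∀ a : Fin N → ℝ,
    ∃ C R : ℝ, 0 ≤ C ∧ 0 ≤ R ∧ ∀ β : ℝ, 1 ≤ β → ∀ l ∈ Icc (0 : ℝ) 1, ∀ i j, i ≠ j →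
      ∀ s : Fin e → ℝ,
      ((∃ A, R < |s A|) →
        ∫ t : Fin k → ℝ, bint Φ β (av al cl) a (M + l • H) i j (Sum.elim s t) = 0) ∧
      (cl i ≠ cl j → -(C / β) ≤
        ∫ t : Fin k → ℝ, bint Φ β (av al cl) a (M + l • H) i j (Sum.elim s t)) ∧
      (cl i = cl j → -(C * Real.exp (-(β * |(al i ⬝ᵥ s + bb (av al cl) a (M + l • H) i) -
          (al j ⬝ᵥ s + bb (av al cl) a (M + l • H) j)|))) ≤
        ∫ t : Fin k → ℝ, bint Φ β (av al cl) a (M + l • H) i j (Sum.elim s t))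

/-! ## Module Pair -/

/-- The lower bound for a pair of balls, uniform on the path. From `PairFibStmt`, `EstStmt`,
`SumIntStmt`, `MatGStmt`, `BoxStmt`. `pint = ρ_i ρ_j Φ''(E) + bint`, both continuous with compact
support. (a) `|∫ ρ_i ρ_j Φ''(E)| ≤ B ∫_box exp (-β |σ_i - σ_j|) ≤ C/β` (`Est1Stmt`,
`Est2Stmt` with `v = α_i - α_j ≠ 0`; `R` as in `PairFibStmt`). (b) `∫ bint = ∫_s ∫_t bint`
(`SumIntStmt`); the inner integral is zero outside the box; if `cl i ≠ cl j` the result is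
`≥ -C (2R)^e/β`; if `cl i = cl j` it is `≥ -C ∫_{|s_A| ≤ R} exp (-β |⟨al_i - al_j, s⟩ + b_i - b_j|) ds
≥ -C'/β` (`Est2Stmt`, `al_i ≠ al_j`). -/
def PairStmt : Prop :=
  ∀ (e k N : ℕ), 4 ≤ k → ∀ Φ : ℝ → ℝ, Prof Φ →
    ∀ (M H : Matrix (Fin e ⊕ Fin k) (Fin e ⊕ Fin k) ℝ), M.PosDef → (M + H).PosDef →
    ∀ (al : Fin N → Fin e → ℝ) (cl : Fin N → Fin k), Function.Surjective cl →
    (∀ i j, i ≠ j → cl i = cl j → al i ≠ al j) → ∀ a : Fin N → ℝ,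
    ∃ C : ℝ, 0 ≤ C ∧ ∀ β : ℝ, 1 ≤ β → ∀ l ∈ Icc (0 : ℝ) 1, ∀ i j, i ≠ j →
      -(C / β) ≤ ∫ y, pint Φ β (av al cl) a (M + l • H) i j y

/-! ## Module SoftPt -/

/-- The derivative of the integrand along the path, pointwise. From `MatGStmt`, `EstStmt`.
Let `A = Γ⁻¹`, `E = qg A y + M(y)`, `M = smx β σ`. The left derivative is
`(√det Γ)⁻¹ [(1/2) tr(AH) Φ'(E) + Φ''(E) (1/4) yᵀAHAy - Φ''(E) ∑ ρ_i α_iᵀHα_i]` (`∂_l M =
∑ ρ_i ∂_l b_i`, `∂_l b_i = α_iᵀ H α_i`). With `∇q = Ay/2`, `∇M = ∑ ρ_i α_i`, `D²q = A/2`,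
`D²M = β (∑ ρ_i α_i α_iᵀ - ∇M ∇Mᵀ)`:
`div V = Φ''(E) (∇qᵀH∇q - ∇MᵀH∇M) + Φ'(E) (tr(H D²q) - tr(H D²M))`, where `V = vf`
(`∂_B ρ_i = β ρ_i (α_i - ∇M)_B`), and `∑ ρ_i α_iᵀHα_i - ∇MᵀH∇M =
(1/2) ∑ ρ_i ρ_j (α_i-α_j)ᵀH(α_i-α_j) = -(1/2) ∑ ρ_i ρ_j δ_ij`. -/
def SoftPtStmt : Prop :=
  ∀ (ι : Type) [Fintype ι] [DecidableEq ι] (N : ℕ), 0 < N → ∀ Φ : ℝ → ℝ, Prof Φ →
    ∀ (M H : Matrix ι ι ℝ), M.IsSymm → H.IsSymm → ∀ (β : ℝ), 0 < β →
    ∀ (α : Fin N → ι → ℝ) (a : Fin N → ℝ) (l : ℝ), (M + l • H).PosDef → ∀ y : ι → ℝ,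
    ∃ V' : ι → ℝ,
      (∀ B, HasDerivAt (fun x : ℝ => vf Φ β α a (M + l • H) H B (Function.update y B x))
        (V' B) (y B)) ∧
      HasDerivAt (fun s : ℝ => js Φ β α a (M + s • H) y)
        ((Real.sqrt (M + l • H).det)⁻¹ * (∑ B, V' B +
          (1 / 2) * ∑ i, ∑ j, dl α H i j * pint Φ β α a (M + l • H) i j y)) l

/-! ## Module SoftInt -/

/-- The integrated form. From `SoftPtStmt`, `MatGStmt`, `EstStmt`, `BoxStmt`: `∫ ∂_B V_B dy = 0` for every `B`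
(`V_B` is continuously differentiable with compact support: integrate over the coordinate `B`
first, or `integral_mul_fderiv_eq_neg_fderiv_mul_of_integrable` with the constant function 1, …),
so the derivative of `l ↦ Js(M + l H)` is
`(√det)⁻¹ (1/2) ∑ δ_ij ∫ pint ≥ -K`. Everything is continuous in `(l, y) ∈ [0,1] × ℝ^ι` and vanishes
for `y` outside a box, uniformly in `l` (`qg Γ⁻¹ y ≥ lam |y|²`, `b_i` bounded, `smx ≥ hmx`), so
`Js(M+H) - Js(M) = ∫_y ∫_0^1 ∂_l = ∫_0^1 ∫_y ∂_l` (Fubini, as in `FewPath.lean`), or differentiate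
under the integral sign (`hasDerivAt_integral_of_dominated_loc_of_deriv_le`) and use the mean
value inequality. -/
def SoftIntStmt : Prop :=
  ∀ (ι : Type) [Fintype ι] [DecidableEq ι] (N : ℕ), 0 < N → ∀ Φ : ℝ → ℝ, Prof Φ →
    ∀ (M H : Matrix ι ι ℝ), M.PosDef → (M + H).PosDef → ∀ (β : ℝ), 0 < β →
    ∀ (α : Fin N → ι → ℝ) (a : Fin N → ℝ) (K : ℝ),
    (∀ l ∈ Icc (0 : ℝ) 1, -K ≤ (Real.sqrt (M + l • H).det)⁻¹ *
      ((1 / 2) * ∑ i, ∑ j, dl α H i j * ∫ y, pint Φ β α a (M + l • H) i j y)) →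
    Js Φ β α a M - K ≤ Js Φ β α a (M + H)

/-! ## Module PathC -/

/-- Monotonicity in Gram coordinates. From `PairStmt`, `SoftIntStmt`, `MatGStmt`, `EstStmt`,
`BoxStmt`. `δ_ii = 0`, `δ_ij > 0` for `i ≠ j` (so `α_i ≠ α_j`), hence by `PairStmt` the hypothesis of
`SoftIntStmt` holds with `K = C'/β`; `β → ∞`: `Js β → Jh` at both ends (dominated convergence,
`|smx - hmx| ≤ log N / β`, `Φ''` bounded, common box). -/
def PathCStmt : Prop :=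
  ∀ (e k N : ℕ), 4 ≤ k → ∀ Φ : ℝ → ℝ, Prof Φ →
    ∀ (M H : Matrix (Fin e ⊕ Fin k) (Fin e ⊕ Fin k) ℝ), M.PosDef → (M + H).PosDef →
    ∀ (al : Fin N → Fin e → ℝ) (cl : Fin N → Fin k), Function.Surjective cl →
    (∀ i j, i ≠ j → 0 < dl (av al cl) H i j) → ∀ a : Fin N → ℝ,
    Jh Φ (av al cl) a M ≤ Jh Φ (av al cl) a (M + H)

/-! ## Module GramC -/

/-- Gram coordinates `y = -2 B x`, for `P_i = ∑_A α_iA B_A = vecMul (α i) B`, `Γ = B Bᵀ`: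
`|x|² = qg Γ⁻¹ y`, `|x - P_i|² - a_i = |x|² + ⟨α_i, y⟩ + α_iᵀ Γ α_i - a_i`,
`|det (-2B)| = 2^{card ι} √(det (B Bᵀ))` (`Real.map_matrix_volume_pi_eq_smul_volume_pi`). See
`FewGram.lean` for a similar module. -/
def GramCStmt : Prop :=
  ∀ (ι : Type) [Fintype ι] [DecidableEq ι] (N : ℕ), 0 < N → ∀ (Φ : ℝ → ℝ) (B : Matrix ι ι ℝ)
    (α : Fin N → ι → ℝ) (a : Fin N → ℝ), B.det ≠ 0 →
    (B * B.transpose).PosDef ∧
    ∫ x, -deriv Φ (gg (fun i => Matrix.vecMul (α i) B) a x) =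
      ((2 : ℝ) ^ Fintype.card ι)⁻¹ * Jh Φ α a (B * B.transpose)

/-! ## Module CoreC -/

/-- The core inequality, from `PathCStmt` and `GramCStmt`: `|P_i - P_j|² =
(α_i-α_j)ᵀ B Bᵀ (α_i-α_j)`, `H = Bq Bqᵀ - Bp Bpᵀ`. -/
def CoreCStmt : Prop :=
  ∀ (e k N : ℕ), 4 ≤ k → ∀ Φ : ℝ → ℝ, Prof Φ →
    ∀ (Bp Bq : Matrix (Fin e ⊕ Fin k) (Fin e ⊕ Fin k) ℝ), Bp.det ≠ 0 → Bq.det ≠ 0 →
    ∀ (al : Fin N → Fin e → ℝ) (cl : Fin N → Fin k), Function.Surjective cl →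
    (∀ i j, i ≠ j →
      ∑ x, (Matrix.vecMul (av al cl i) Bq x - Matrix.vecMul (av al cl j) Bq x) ^ 2 <
        ∑ x, (Matrix.vecMul (av al cl i) Bp x - Matrix.vecMul (av al cl j) Bp x) ^ 2) →
    ∀ a : Fin N → ℝ,
    ∫ x, -deriv Φ (gg (fun i => Matrix.vecMul (av al cl i) Bp) a x) ≤
      ∫ x, -deriv Φ (gg (fun i => Matrix.vecMul (av al cl i) Bq) a x)

/-! ## Module ApproxC -/

/-- The joint span of the differences inside the clusters. -/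
def spn {N d k : ℕ} (p q : Fin N → Fin d → ℝ) (cl : Fin N → Fin k) :
    Submodule ℝ ((Fin d → ℝ) × (Fin d → ℝ)) :=
  Submodule.span ℝ {w | ∃ i j, cl i = cl j ∧ w = (p i - p j, q i - q j)}

/-- Approximation by combinations of linearly independent vectors. Choose vectors
`w_a = (w_a^p, w_a^q)`, `a : Fin e`, whose span contains `spn p q cl` (a basis, padded with zeros)
and a representative `r_c` of every cluster `c`; for `cl i = c` write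
`(p_i - p_{r_c}, q_i - q_{r_c}) = ∑_a al_ia w_a`. Let `B₀^p` be the matrix with the rows
`lift4 w_a^p` (`a : Fin e`) and `lift4 p_{r_c}` (`c : Fin k`), columns reindexed by
`eq : Fin e ⊕ Fin k ≃ Fin (d+4)`, and the same for `q`; then `vecMul (av al cl i) B₀^p = lift4 p_i`.
`B^p = B₀^p + ε' 1`, `B^q = B₀^q + ε' 1`: `det ≠ 0` for all but finitely many `ε'` (charpoly), and
for small `ε' > 0` the strict inequalities and the bounds hold by continuity (`lift4` preserves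
`∑ (x_k - y_k)²`). See `FewApprox.lean`. -/
def ApproxCStmt : Prop :=
  ∀ (d N e k : ℕ) (p q : Fin N → Fin d → ℝ) (cl : Fin N → Fin k), Function.Surjective cl →
    (∀ i j, i ≠ j → ∑ x, (q i x - q j x) ^ 2 < ∑ x, (p i x - p j x) ^ 2) →
    Module.finrank ℝ (spn p q cl) ≤ e → ∀ (eq : Fin e ⊕ Fin k ≃ Fin (d + 4)) (ε : ℝ), 0 < ε →
    ∃ (al : Fin N → Fin e → ℝ) (Bp Bq : Matrix (Fin e ⊕ Fin k) (Fin e ⊕ Fin k) ℝ),
      Bp.det ≠ 0 ∧ Bq.det ≠ 0 ∧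
      (∀ i j, i ≠ j →
        ∑ x, (Matrix.vecMul (av al cl i) Bq x - Matrix.vecMul (av al cl j) Bq x) ^ 2 <
          ∑ x, (Matrix.vecMul (av al cl i) Bp x - Matrix.vecMul (av al cl j) Bp x) ^ 2) ∧
      (∀ i x, |Matrix.vecMul (av al cl i) Bp x - lift4 (p i) (eq x)| < ε) ∧
      (∀ i x, |Matrix.vecMul (av al cl i) Bq x - lift4 (q i) (eq x)| < ε)

/-! ## Module StrictC -/

/-- The inequality in `ℝ^d` for strict contractions, from `CoreCStmt`, `ApproxCStmt`,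
`SumIntStmt` (2), `Few.ContStmt` (with `f = -Φ'`), `Few.LiftStmt`: the integral
`∫ -Φ'(gm P a x) dx` over `ℝ^{d+4}` is continuous in `P`; approximate `lift4 p`, `lift4 q`. -/
def StrictCStmt : Prop :=
  ∀ (d N e k : ℕ), 4 ≤ k → e + k = d + 4 → ∀ (p q : Fin N → Fin d → ℝ) (cl : Fin N → Fin k),
    Function.Surjective cl →
    (∀ i j, i ≠ j → ∑ x, (q i x - q j x) ^ 2 < ∑ x, (p i x - p j x) ^ 2) →
    Module.finrank ℝ (spn p q cl) ≤ e → ∀ (a : Fin N → ℝ) (Φ : ℝ → ℝ), Prof Φ →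
      ∫ x, ∫ s in Ioi (gm p a x), Φ s ≤ ∫ x, ∫ s in Ioi (gm q a x), Φ s

/-! ## Module InjC -/

/-- Volumes, distinct centres, surjective cluster map. From `StrictCStmt`: (1) for strict
contractions as in `FewFinal.lean` (lemma `strict`: bump functions); (2) for a contraction `q` of
`p` with `p` injective: `p^δ = (1 + δ) p` satisfies the strict inequalities (`d ≥ 1`), and
`spn p^δ q` has the dimension of `spn p q` (image under the linear automorphism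
`(x, y) ↦ ((1+δ) x, y)`); `B(p_i, r_i) ⊆ B(p^δ_i, r_i + τ)` for `δ |p_i| ≤ τ`; `τ → 0` as in
`FewFinal.lean` (lemma `key`). -/
def InjCStmt : Prop :=
  ∀ (d N k : ℕ), 4 ≤ k → ∀ (p q : Fin N → EuclideanSpace ℝ (Fin d)) (cl : Fin N → Fin k),
    Function.Surjective cl → Function.Injective p →
    (∀ i j, dist (q i) (q j) ≤ dist (p i) (p j)) →
    Module.finrank ℝ (Submodule.span ℝ {w : EuclideanSpace ℝ (Fin d) × EuclideanSpace ℝ (Fin d) |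
      ∃ i j, cl i = cl j ∧ w = (p i - p j, q i - q j)}) + k ≤ d + 4 →
    ∀ r : Fin N → ℝ,
    volume (⋂ i, Metric.closedBall (p i) (r i)) ≤ volume (⋂ i, Metric.closedBall (q i) (r i))

/-! ## Module FinalC -/

/-- Theorem E. From `InjCStmt` and `fewAll` (file `FewAll.lean`, the case `N ≤ d + 4`).
Induction on `N`. If `N ≤ d + 4`: `fewAll`. If `p` is not injective: `p_i = p_j`, `i ≠ j`,
`r_i ≤ r_j`; then `q_i = q_j` and the ball `j` may be removed on both sides (`Fin.succAbove j`); the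
span does not grow. Otherwise `N > d + 4 ≥ k`; replace `cl` by a surjective refinement `cl'`
(`cl' i = cl' j → cl i = cl j`; if `cl` is not surjective, it is not injective because `k < N`;
take `cl i = cl j`, `i ≠ j`, and a missing value `c`; `Function.update cl j c` has a larger range; iterate); the
span for `cl'` is contained in the span for `cl`; apply `InjCStmt`. -/
def FinalCStmt : Prop :=
  ∀ (d N k : ℕ), 4 ≤ k → ∀ (p q : Fin N → EuclideanSpace ℝ (Fin d)) (cl : Fin N → Fin k),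
    (∀ i j, dist (q i) (q j) ≤ dist (p i) (p j)) →
    Module.finrank ℝ (Submodule.span ℝ {w : EuclideanSpace ℝ (Fin d) × EuclideanSpace ℝ (Fin d) |
      ∃ i j, cl i = cl j ∧ w = (p i - p j, q i - q j)}) + k ≤ d + 4 →
    ∀ r : Fin N → ℝ,
    volume (⋂ i, Metric.closedBall (p i) (r i)) ≤ volume (⋂ i, Metric.closedBall (q i) (r i))

end Pool.Agent.Lib.MP_0c1c75_co.Clu
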