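import Pool.Agent.Lib.MP_0c1c75_co.CluSpec

/-!
MP_0c1c75_co, clusters: the inequality in `ℝ^d` for strict contractions (helper62).
-/

open MeasureTheory Set Filter
open scoped ContDiff Topology

namespace Pool.Agent.Lib.MP_0c1c75_co.Clu

open Pool.Agent.Lib.MP_0c1c75_co.Few (Prof gm lift4 ConeIntStmt Polar2Stmt ContStmt LiftStmt)

theorem strictCStmt (h1 : CoreCStmt) (h2 : ApproxCStmt) (h3 : SumIntStmt)
    (h4 : Pool.Agent.Lib.MP_0c1c75_co.Few.ContStmt) (h5 : Pool.Agent.Lib.MP_0c1c75_co.Few.LiftStmt) :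
    StrictCStmt := by
  intro d N e k hk hek p q cl hcl hpq hspn a Φ hΦ
  have hN0 : 0 < N := by
    obtain ⟨i, -⟩ := hcl ⟨0, by omega⟩
    exact i.pos
  have eq : Fin e ⊕ Fin k ≃ Fin (d + 4) := finSumFinEquiv.trans (finCongr hek)
  set f : ℝ → ℝ := fun s => -deriv Φ s with hf
  have hfc : Continuous f := (hΦ.smooth.continuous_deriv (by simp)).neg
  have hfs : HasCompactSupport f := hΦ.supp.deriv.neg
  obtain ⟨hc, -⟩ := h4 N (d + 4) hN0 a f hfc hfs
  -- change of the index type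
  have hre : ∀ (B : Matrix (Fin e ⊕ Fin k) (Fin e ⊕ Fin k) ℝ) (al : Fin N → Fin e → ℝ),
      ∫ x, f (gm (fun i z => Matrix.vecMul (av al cl i) B (eq.symm z)) a x) =
        ∫ x, -deriv Φ (gg (fun i => Matrix.vecMul (av al cl i) B) a x) := by
    intro B al
    rw [h3.2 N (d + 4) (Fin e ⊕ Fin k) eq _ a f]
    simp only [Equiv.symm_apply_apply, hf]
  -- key inequality
  have key : ∫ x, f (gm (fun i => lift4 (p i)) a x) ≤ ∫ x, f (gm (fun i => lift4 (q i)) a x) := by
    have hex : ∀ m : ℕ, ∃ (P Q : Fin N → Fin (d + 4) → ℝ),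
        (∫ x, f (gm P a x) ≤ ∫ x, f (gm Q a x)) ∧
        (∀ i k, |P i k - lift4 (p i) k| < 1 / ((m : ℝ) + 1)) ∧
        (∀ i k, |Q i k - lift4 (q i) k| < 1 / ((m : ℝ) + 1)) := by
      intro m
      obtain ⟨al, Bp, Bq, hBp, hBq, hst, hpa, hqa⟩ := h2 d N e k p q cl hcl hpq hspn eq
        (1 / ((m : ℝ) + 1)) (by positivity)
      refine ⟨fun i z => Matrix.vecMul (av al cl i) Bp (eq.symm z),
        fun i z => Matrix.vecMul (av al cl i) Bq (eq.symm z), ?_, fun i z => ?_, fun i z => ?_⟩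
      · rw [hre, hre]
        exact h1 e k N hk Φ hΦ Bp Bq hBp hBq al cl hcl hst a
      · have h6 := hpa i (eq.symm z)
        rwa [Equiv.apply_symm_apply] at h6
      · have h6 := hqa i (eq.symm z)
        rwa [Equiv.apply_symm_apply] at h6
    choose P Q hle hPa hQa using hex
    have conv : ∀ (R : ℕ → Fin N → Fin (d + 4) → ℝ) (r : Fin N → Fin (d + 4) → ℝ),
        (∀ m i k, |R m i k - r i k| < 1 / ((m : ℝ) + 1)) →
        Tendsto (fun m => ∫ x, f (gm (R m) a x)) atTop (𝓝 (∫ x, f (gm r a x))) := by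
      intro R r hR
      have h5 : Tendsto R atTop (𝓝 r) := by
        rw [tendsto_pi_nhds]
        intro i
        rw [tendsto_pi_nhds]
        intro k
        rw [tendsto_iff_norm_sub_tendsto_zero]
        refine squeeze_zero (fun _ => norm_nonneg _) (fun m => ?_)
          tendsto_one_div_add_atTop_nhds_zero_nat
        rw [Real.norm_eq_abs]
        exact (hR m i k).le
      exact (hc.tendsto r).comp h5
    exact le_of_tendsto_of_tendsto' (conv P _ hPa) (conv Q _ hQa) hle
  have e1 := h5 N d hN0 Φ hΦ p a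
  have e2 := h5 N d hN0 Φ hΦ q a
  simp only [hf] at key
  rw [e1, e2] at key
  exact le_of_mul_le_mul_left key (by positivity)

end Pool.Agent.Lib.MP_0c1c75_co.Clu
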