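import Pool.Agent.Lib.MP_0c1c75_co.CluSpec

/-!
MP_0c1c75_co, clusters: splitting and renaming the coordinates.
-/

set_option autoImplicit false

open MeasureTheory Set

namespace Pool.Agent.Lib.MP_0c1c75_co.Clu

open Pool.Agent.Lib.MP_0c1c75_co.Few (gm)

namespace SumInt

theorem split (e k : ℕ) (F : (Fin e ⊕ Fin k → ℝ) → ℝ) (hF : Integrable F) :
    ∫ y, F y = ∫ s : Fin e → ℝ, ∫ t : Fin k → ℝ, F (Sum.elim s t) := by
  have hmp := volume_measurePreserving_sumPiEquivProdPi_symm (fun _ : Fin e ⊕ Fin k => ℝ)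
  set T := (MeasurableEquiv.sumPiEquivProdPi (fun _ : Fin e ⊕ Fin k => ℝ)).symm with hT
  have h1 : ∫ p, F (T p) = ∫ y, F y := hmp.integral_comp T.measurableEmbedding F
  have hi : Integrable (fun p => F (T p)) :=
    (hmp.integrable_comp_emb T.measurableEmbedding).2 hF
  have hTe : ∀ (s : Fin e → ℝ) (t : Fin k → ℝ), T (s, t) = Sum.elim s t := by
    intro s t
    ext x
    rcases x with x | x
    · rfl
    · rfl
  rw [← h1]
  rw [Measure.volume_eq_prod] at hi ⊢
  rw [integral_prod _ hi]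
  refine integral_congr_ae (Filter.Eventually.of_forall fun s => ?_)
  simp only
  refine integral_congr_ae (Filter.Eventually.of_forall fun t => ?_)
  simp only [hTe]

theorem rename (N n : ℕ) (ι : Type) [Fintype ι] (eq : ι ≃ Fin n) (P : Fin N → Fin n → ℝ)
    (a : Fin N → ℝ) (f : ℝ → ℝ) : ∫ x : Fin n → ℝ, f (gm P a x) =
      ∫ x : ι → ℝ, f (gg (fun i A => P i (eq A)) a x) := by
  have hmp := volume_measurePreserving_piCongrLeft (fun _ : Fin n => ℝ) eq
  set T := MeasurableEquiv.piCongrLeft (fun _ : Fin n => ℝ) eq with hT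
  have h1 : ∫ x : ι → ℝ, f (gm P a (T x)) = ∫ x : Fin n → ℝ, f (gm P a x) :=
    hmp.integral_comp T.measurableEmbedding (fun x => f (gm P a x))
  rw [← h1]
  refine integral_congr_ae (Filter.Eventually.of_forall fun x => ?_)
  have hTe : ∀ A, T x (eq A) = x A := fun A =>
    Equiv.piCongrLeft_apply_apply (fun _ : Fin n => ℝ) eq x A
  have h2 : gm P a (T x) = gg (fun i A => P i (eq A)) a x := by
    unfold gm gg
    congr 1
    funext i
    congr 1
    rw [← eq.sum_comp (fun k => (T x k - P i k) ^ 2)]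
    exact Finset.sum_congr rfl fun A _ => by rw [hTe]
  simp only [h2]

end SumInt

theorem sumIntStmt : SumIntStmt :=
  ⟨fun e k F hF => SumInt.split e k F hF,
    fun N n ι _ eq P a f => SumInt.rename N n ι eq P a f⟩

end Pool.Agent.Lib.MP_0c1c75_co.Clu
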