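import Pool.Agent.Lib.MP_0c1c75_co.CluSpec
import Pool.Agent.Lib.MP_0c1c75_co.FewWall
import Pool.Agent.Lib.MP_0c1c75_co.FewPerm

/-!
MP_0c1c75_co, clusters, module WallC (helper18): the walls in `ℝ^k`.
-/

open MeasureTheory Set
open scoped ContDiff

namespace Pool.Agent.Lib.MP_0c1c75_co.Clu.WallC

open Pool.Agent.Lib.MP_0c1c75_co.Few (Prof)
open Pool.Agent.Lib.MP_0c1c75_co.Few.Wall (exists_lower exists_bound split1)

/-- outside a ball the argument is large -/
theorem large {N : ℕ} (hN : 1 ≤ N) {A : Matrix (Fin N) (Fin N) ℝ} (hA : A.PosDef) (m : Fin N → ℝ)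
    (ν K : ℝ) : ∃ R : ℝ, ∀ t : Fin N → ℝ, R < ‖t‖ → ∀ j, K < qp A m ν t + t j := by
  obtain ⟨c, hc, h⟩ := exists_lower hN hA
  have hD : ∀ t : Fin N → ℝ, |m ⬝ᵥ t| ≤ (∑ i, |m i|) * ‖t‖ := by
    intro t
    unfold dotProduct
    refine (Finset.abs_sum_le_sum_abs _ _).trans ?_
    rw [Finset.sum_mul]
    refine Finset.sum_le_sum fun i _ => ?_
    rw [abs_mul]
    exact mul_le_mul_of_nonneg_left (by rw [← Real.norm_eq_abs]; exact norm_le_pi_norm t i)
      (abs_nonneg _)
  obtain ⟨D, hD0⟩ : ∃ D, D = ∑ i, |m i| := ⟨_, rfl⟩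
  have hDn : 0 ≤ D := by rw [hD0]; exact Finset.sum_nonneg fun i _ => abs_nonneg _
  rw [← hD0] at hD
  refine ⟨(2 + |K| + |ν| + D + c) / c, fun t ht j => ?_⟩
  rw [div_lt_iff₀ hc] at ht
  have hK := abs_nonneg K
  have hν := abs_nonneg ν
  have hn : 1 < ‖t‖ := by
    by_contra hcon
    push Not at hcon
    nlinarith
  have h1 : c * ‖t‖ ^ 2 ≤ qg A t := h t
  have h2 : (2 + |K| + |ν| + D + c) * ‖t‖ < c * ‖t‖ ^ 2 := by nlinarith
  have h3 := (abs_le.1 (hD t)).1
  have h4 : -‖t‖ ≤ t j := by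
    have := norm_le_pi_norm t j
    rw [Real.norm_eq_abs] at this
    exact (abs_le.1 this).1
  have h5 : |K| ≤ |K| * ‖t‖ := le_mul_of_one_le_right hK hn.le
  have h6 : |ν| ≤ |ν| * ‖t‖ := le_mul_of_one_le_right hν hn.le
  have h7 : 0 ≤ c * ‖t‖ := by positivity
  have h8 := le_abs_self K
  have h9 := neg_abs_le ν
  unfold qp
  nlinarith

theorem support {N : ℕ} {f : (Fin N → ℝ) → ℝ} {R : ℝ} (h : ∀ t, R < ‖t‖ → f t = 0) :
    HasCompactSupport f := by
  refine HasCompactSupport.intro (isCompact_closedBall (0 : Fin N → ℝ) R) fun t ht => h t ?_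
  rwa [Metric.mem_closedBall, dist_zero_right, not_le] at ht

theorem continuous_mv {N : ℕ} (A : Matrix (Fin N) (Fin N) ℝ) (i : Fin N) :
    Continuous fun t : Fin N → ℝ => A.mulVec t i := by
  unfold Matrix.mulVec dotProduct
  fun_prop

theorem continuous_qp {N : ℕ} (A : Matrix (Fin N) (Fin N) ℝ) (m : Fin N → ℝ) (ν : ℝ) :
    Continuous fun t => qp A m ν t := by
  unfold qp qg Matrix.mulVec dotProduct
  fun_prop

theorem mulVec_cons {n : ℕ} (A : Matrix (Fin (n + 1)) (Fin (n + 1)) ℝ) (x : ℝ) (s : Fin n → ℝ)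
    (i : Fin (n + 1)) : A.mulVec (Fin.cons x s) i = A i 0 * x + ∑ k : Fin n, A i k.succ * s k := by
  unfold Matrix.mulVec dotProduct
  rw [Fin.sum_univ_succ]
  rfl

/-- the quadratic polynomial as a polynomial in the first coordinate -/
theorem qp_cons {n : ℕ} {A : Matrix (Fin (n + 1)) (Fin (n + 1)) ℝ} (hA : ∀ i j, A i j = A j i)
    (m : Fin (n + 1) → ℝ) (ν : ℝ) (s : Fin n → ℝ) : ∃ C : ℝ, ∀ x : ℝ, qp A m ν (Fin.cons x s) =
      (A 0 0 / 4) * x ^ 2 + ((∑ k : Fin n, A 0 k.succ * s k) / 2 + m 0) * x + C := by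
  refine ⟨(1 / 4) * ∑ k : Fin n, s k * ∑ l : Fin n, A k.succ l.succ * s l +
    ∑ k : Fin n, m k.succ * s k + ν, fun x => ?_⟩
  unfold qp qg
  have e1 : (Fin.cons x s : Fin (n + 1) → ℝ) ⬝ᵥ A.mulVec (Fin.cons x s) =
      A 0 0 * x ^ 2 + 2 * (∑ k : Fin n, A 0 k.succ * s k) * x +
        ∑ k : Fin n, s k * ∑ l : Fin n, A k.succ l.succ * s l := by
    unfold dotProduct
    rw [Fin.sum_univ_succ, mulVec_cons]
    have e2 : ∑ k : Fin n, (Fin.cons x s : Fin (n + 1) → ℝ) k.succ *
        A.mulVec (Fin.cons x s) k.succ = x * (∑ k : Fin n, A 0 k.succ * s k) +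
          ∑ k : Fin n, s k * ∑ l : Fin n, A k.succ l.succ * s l := by
      rw [Finset.mul_sum (a := x), ← Finset.sum_add_distrib]
      refine Finset.sum_congr rfl fun k _ => ?_
      rw [mulVec_cons]
      change s k * _ = _
      rw [hA k.succ 0]
      ring
    rw [e2]
    change x * _ + _ = _
    ring
  have e3 : m ⬝ᵥ (Fin.cons x s : Fin (n + 1) → ℝ) = m 0 * x + ∑ k : Fin n, m k.succ * s k := by
    unfold dotProduct
    rw [Fin.sum_univ_succ]
    rfl
  rw [e1, e3]
  ring

theorem le_norm_cons {n : ℕ} (x : ℝ) (s : Fin n → ℝ) :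
    |x| ≤ ‖(Fin.cons x s : Fin (n + 1) → ℝ)‖ ∧ ‖s‖ ≤ ‖(Fin.cons x s : Fin (n + 1) → ℝ)‖ := by
  constructor
  · have := norm_le_pi_norm (Fin.cons x s : Fin (n + 1) → ℝ) 0
    rwa [Real.norm_eq_abs] at this
  · refine (pi_norm_le_iff_of_nonneg (norm_nonneg _)).2 fun k => ?_
    exact norm_le_pi_norm (Fin.cons x s : Fin (n + 1) → ℝ) k.succ

/-- the integration over the first coordinate -/
theorem ftc {n : ℕ} {Φ : ℝ → ℝ} (hΦ : Prof Φ) {A : Matrix (Fin (n + 2)) (Fin (n + 2)) ℝ}
    (hA : A.PosDef) (m : Fin (n + 2) → ℝ) (ν : ℝ) (s : Fin (n + 1) → ℝ) :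
    ∫ x in Iic (s 0), deriv (deriv Φ) (qp A m ν (Fin.cons x s) + s 0) *
      ((1 / 2) * A.mulVec (Fin.cons x s) 0 + m 0) =
        deriv Φ (qp A m ν (Fin.cons (s 0) s) + s 0) := by
  have hsymm : ∀ i j, A i j = A j i := fun i j => by
    have := hA.isHermitian.apply i j
    simpa using this.symm
  have hd1 : HasCompactSupport (deriv Φ) := hΦ.supp.deriv
  have hd2 : HasCompactSupport (deriv (deriv Φ)) := hd1.deriv
  have s1 : ContDiff ℝ ∞ (deriv Φ) := (contDiff_infty_iff_deriv.1 hΦ.smooth).2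
  have c2 : Continuous (deriv (deriv Φ)) := s1.continuous_deriv (by norm_num)
  obtain ⟨K₁, hK₁⟩ := exists_bound hd1
  obtain ⟨K₂, hK₂⟩ := exists_bound hd2
  obtain ⟨R, hR⟩ := large (by omega) hA m ν (max K₁ K₂)
  have hbig : ∀ x : ℝ, R < |x| → max K₁ K₂ < qp A m ν (Fin.cons x s) + s 0 := fun x hx =>
    hR _ (hx.trans_le (le_norm_cons x s).1) 1
  have ccons : Continuous fun x : ℝ => (Fin.cons x s : Fin (n + 2) → ℝ) := by
    refine continuous_pi fun i => ?_
    refine Fin.cases ?_ (fun i => ?_) i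
    · simp only [Fin.cons_zero]
      fun_prop
    · simp only [Fin.cons_succ]
      fun_prop
  rw [integral_Iic_of_hasDerivAt_of_tendsto' (f := fun x => deriv Φ (qp A m ν (Fin.cons x s) + s 0))
    (m := 0), sub_zero]
  · intro x _
    obtain ⟨C, hC⟩ := qp_cons hsymm m ν s
    have h1 : HasDerivAt (fun x : ℝ => qp A m ν (Fin.cons x s) + s 0)
        ((1 / 2) * A.mulVec (Fin.cons x s) 0 + m 0) x := by
      simp only [hC, mulVec_cons]
      have h2 : HasDerivAt (fun x : ℝ => x ^ 2) (2 * x) x := by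
        simpa using hasDerivAt_pow 2 x
      have h3 := (((h2.const_mul (A 0 0 / 4)).add
        ((hasDerivAt_id' x).const_mul ((∑ k : Fin (n + 1), A 0 k.succ * s k) / 2 + m 0))).add_const
          C).add_const (s 0)
      refine h3.congr_deriv ?_
      ring
    have h2 : HasDerivAt (deriv Φ) (deriv (deriv Φ) (qp A m ν (Fin.cons x s) + s 0))
        (qp A m ν (Fin.cons x s) + s 0) :=
      (s1.differentiable (by simp) _).hasDerivAt
    exact h2.comp x h1
  · refine Integrable.integrableOn (Continuous.integrable_of_hasCompactSupport ?_ ?_)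
    · exact (c2.comp (((continuous_qp A m ν).comp ccons).add continuous_const)).mul
        ((continuous_const.mul ((continuous_mv A 0).comp ccons)).add continuous_const)
    · refine HasCompactSupport.intro (isCompact_closedBall (0 : ℝ) R) fun x hx => ?_
      rw [Metric.mem_closedBall, dist_zero_right, not_le, Real.norm_eq_abs] at hx
      rw [hK₂ _ ((le_max_right _ _).trans_lt (hbig x hx)), zero_mul]
  · refine tendsto_const_nhds.congr' ?_
    filter_upwards [Filter.eventually_lt_atBot (-|R|)] with x hx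
    have : R < |x| := by
      have h1 := le_abs_self R
      have h2 := neg_abs_le x
      have h3 := abs_nonneg R
      have h4 : |x| = -x := abs_of_neg (by linarith)
      linarith
    exact (hK₁ _ ((le_max_left _ _).trans_lt (hbig x this))).symm

/-- splitting off the first coordinate, the other order of integration -/
theorem split' {m : ℕ} {f : (Fin (m + 1) → ℝ) → ℝ} (hf : Integrable f) :
    ∫ t, f t = ∫ x : ℝ, ∫ s : Fin m → ℝ, f (Fin.cons x s) := by
  have hmp := (volume_preserving_piFinSuccAbove (fun _ : Fin (m + 1) => ℝ) 0).symm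
  have hint : Integrable (fun p : ℝ × (Fin m → ℝ) => f (Fin.cons p.1 p.2)) := by
    have h1 := (hmp.integrable_comp_emb (MeasurableEquiv.measurableEmbedding _)).2 hf
    refine h1.congr (Filter.Eventually.of_forall fun p => ?_)
    simp [MeasurableEquiv.piFinSuccAbove]
    rfl
  have heq : ∫ t, f t = ∫ p : ℝ × (Fin m → ℝ), f (Fin.cons p.1 p.2) := by
    rw [← hmp.integral_comp (MeasurableEquiv.measurableEmbedding _)]
    refine integral_congr_ae (Filter.Eventually.of_forall fun p => ?_)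
    simp [MeasurableEquiv.piFinSuccAbove]
    rfl
  rw [heq]
  exact integral_prod _ hint

theorem measurable_cell {n : ℕ} (c : Fin n) :
    MeasurableSet {s : Fin n → ℝ | ∀ i, s i ≤ s c} := by
  have : {s : Fin n → ℝ | ∀ i, s i ≤ s c} = ⋂ i, {s | s i ≤ s c} := by
    ext s
    simp
  rw [this]
  exact MeasurableSet.iInter fun i =>
    (isClosed_le (continuous_apply i) (continuous_apply c)).measurableSet

/-- integration over the cell `{s | ∀ i, s i ≤ s 0}` -/
theorem cell {n : ℕ} {G : (Fin (n + 1) → ℝ) → ℝ} (hG : Integrable G) :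
    ∫ s in {s : Fin (n + 1) → ℝ | ∀ i, s i ≤ s 0}, G s =
      ∫ y : ℝ, ∫ u in {u : Fin n → ℝ | ∀ i, 0 < u i}, G (Fin.cons y fun i => y - u i) := by
  rw [← integral_indicator (measurable_cell 0), split' (hG.indicator (measurable_cell 0))]
  congr 1
  funext y
  rw [← integral_sub_left_eq_self (fun t' : Fin n → ℝ =>
    {s : Fin (n + 1) → ℝ | ∀ i, s i ≤ s 0}.indicator G (Fin.cons y t')) volume (fun _ => y)]
  have h0 : ((Set.univ.pi fun _ : Fin n => Ioi (0 : ℝ)) : Set (Fin n → ℝ)) =ᵐ[volume]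
      Ici (fun _ => 0) := Measure.univ_pi_Ioi_ae_eq_Ici
  have h1 : {u : Fin n → ℝ | ∀ i, 0 < u i} = Set.univ.pi fun _ : Fin n => Ioi (0 : ℝ) := by
    ext u
    simp
  rw [h1, setIntegral_congr_set h0, ← integral_indicator measurableSet_Ici]
  congr 1
  funext u
  by_cases hu : ∀ i, 0 ≤ u i
  · rw [indicator_of_mem (show u ∈ Ici (fun _ => 0) from hu), indicator_of_mem]
    · rfl
    · intro i
      refine Fin.cases ?_ (fun i => ?_) i
      · exact le_refl _
      · change y - u i ≤ y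
        linarith [hu i]
  · rw [indicator_of_notMem (show u ∉ Ici (fun _ => 0) from hu), indicator_of_notMem]
    intro h
    apply hu
    intro i
    have := h i.succ
    change y - u i ≤ y at this
    linarith

/-- the linear map `(x, u) ↦ (x, x, x - u)` -/
def lm (n : ℕ) : (Fin (n + 1) → ℝ) →ₗ[ℝ] (Fin (n + 2) → ℝ) where
  toFun w := Fin.cons (w 0) (Fin.cons (w 0) fun i => w 0 - w i.succ)
  map_add' w w' := by
    funext i
    refine Fin.cases ?_ (fun i => ?_) i
    · rfl
    · refine Fin.cases ?_ (fun i => ?_) i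
      · rfl
      · change (w 0 + w' 0) - (w i.succ + w' i.succ) = (w 0 - w i.succ) + (w' 0 - w' i.succ)
        ring
  map_smul' c w := by
    funext i
    refine Fin.cases ?_ (fun i => ?_) i
    · rfl
    · refine Fin.cases ?_ (fun i => ?_) i
      · rfl
      · change c * w 0 - c * w i.succ = c * (w 0 - w i.succ)
        ring

theorem lm_injective (n : ℕ) : Function.Injective (lm n) := by
  intro w w' h
  have h0 : w 0 = w' 0 := congrFun h 0
  funext i
  refine Fin.cases h0 (fun i => ?_) i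
  have h1 : w 0 - w i.succ = w' 0 - w' i.succ := congrFun h i.succ.succ
  linarith

/-- the matrix of the linear map -/
noncomputable def TT (n : ℕ) : Matrix (Fin (n + 2)) (Fin (n + 1)) ℝ := LinearMap.toMatrix' (lm n)

theorem TT_mulVec {n : ℕ} (w : Fin (n + 1) → ℝ) : (TT n).mulVec w = lm n w :=
  LinearMap.toMatrix'_mulVec _ _

theorem posDef {n : ℕ} {A : Matrix (Fin (n + 2)) (Fin (n + 2)) ℝ} (hA : A.PosDef) :
    ((TT n).transpose * A * TT n).PosDef := by
  rw [← Matrix.conjTranspose_eq_transpose_of_trivial]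
  refine hA.conjTranspose_mul_mul_same fun w w' h => lm_injective n ?_
  rw [TT_mulVec, TT_mulVec] at h
  exact h

theorem qp_lin {n : ℕ} (A : Matrix (Fin (n + 2)) (Fin (n + 2)) ℝ) (m : Fin (n + 2) → ℝ) (ν : ℝ)
    (w : Fin (n + 1) → ℝ) : qp A m ν (lm n w) + w 0 =
      qp ((TT n).transpose * A * TT n) (Matrix.vecMul m (TT n) + Pi.single 0 1) ν w := by
  unfold qp qg
  rw [← TT_mulVec, ← Matrix.mulVec_mulVec, ← Matrix.mulVec_mulVec, add_dotProduct,
    single_dotProduct, ← Matrix.dotProduct_mulVec,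
    Matrix.dotProduct_mulVec w (TT n).transpose, Matrix.vecMul_transpose]
  ring

/-- the case `c' = 0`, `c = 1` -/
theorem main (h : QuadConeStmt) {n : ℕ} (hn : 2 ≤ n) {Φ : ℝ → ℝ} (hΦ : Prof Φ)
    {A : Matrix (Fin (n + 2)) (Fin (n + 2)) ℝ} (hA : A.PosDef) (m : Fin (n + 2) → ℝ) (ν : ℝ) :
    0 ≤ -∫ z in {z : Fin (n + 2) → ℝ | ∀ i, z i ≤ z 1},
      deriv (deriv Φ) (qp A m ν z + z 1) * ((1 / 2) * A.mulVec z 0 + m 0) := by
  have hd1 : HasCompactSupport (deriv Φ) := hΦ.supp.deriv
  have hd2 : HasCompactSupport (deriv (deriv Φ)) := hd1.deriv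
  have s1 : ContDiff ℝ ∞ (deriv Φ) := (contDiff_infty_iff_deriv.1 hΦ.smooth).2
  have c1 : Continuous (deriv Φ) := s1.continuous
  have c2 : Continuous (deriv (deriv Φ)) := s1.continuous_deriv (by norm_num)
  obtain ⟨K₁, hK₁⟩ := exists_bound hd1
  obtain ⟨K₂, hK₂⟩ := exists_bound hd2
  obtain ⟨R, hR⟩ := large (by omega) hA m ν (max K₁ K₂)
  -- the integrand
  obtain ⟨F, hF⟩ : ∃ F : (Fin (n + 2) → ℝ) → ℝ, F = fun z =>
    deriv (deriv Φ) (qp A m ν z + z 1) * ((1 / 2) * A.mulVec z 0 + m 0) := ⟨_, rfl⟩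
  have hFi : Integrable F := by
    rw [hF]
    refine Continuous.integrable_of_hasCompactSupport ?_ (support (R := R) fun t ht => ?_)
    · exact (c2.comp ((continuous_qp A m ν).add (continuous_apply 1))).mul
        ((continuous_const.mul (continuous_mv A 0)).add continuous_const)
    · rw [hK₂ _ ((le_max_right _ _).trans_lt (hR t ht 1)), zero_mul]
  -- the wall
  obtain ⟨G, hG⟩ : ∃ G : (Fin (n + 1) → ℝ) → ℝ, G = fun s =>
    -deriv Φ (qp A m ν (Fin.cons (s 0) s) + s 0) := ⟨_, rfl⟩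
  have hGi : Integrable G := by
    rw [hG]
    have ccons : Continuous fun s : Fin (n + 1) → ℝ => (Fin.cons (s 0) s : Fin (n + 2) → ℝ) := by
      refine continuous_pi fun i => ?_
      refine Fin.cases ?_ (fun i => ?_) i
      · simp only [Fin.cons_zero]
        fun_prop
      · simp only [Fin.cons_succ]
        fun_prop
    refine Continuous.integrable_of_hasCompactSupport ?_ (support (R := R) fun s hs => ?_)
    · exact (c1.comp (((continuous_qp A m ν).comp ccons).add (continuous_apply 0))).neg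
    · have h1 : max K₁ K₂ < qp A m ν (Fin.cons (s 0) s) + s 0 :=
        hR (Fin.cons (s 0) s) (hs.trans_le (le_norm_cons _ _).2) 0
      rw [hK₁ _ ((le_max_left _ _).trans_lt h1), neg_zero]
  -- integration over the first coordinate
  have e1 : -∫ z in {z : Fin (n + 2) → ℝ | ∀ i, z i ≤ z 1}, F z =
      ∫ s in {s : Fin (n + 1) → ℝ | ∀ i, s i ≤ s 0}, G s := by
    rw [← integral_indicator (measurable_cell 1), (split1 (hFi.indicator (measurable_cell 1))).2,
      ← integral_indicator (measurable_cell 0), ← integral_neg]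
    congr 1
    funext s
    by_cases hs : ∀ i, s i ≤ s 0
    · rw [indicator_of_mem (show s ∈ {s : Fin (n + 1) → ℝ | ∀ i, s i ≤ s 0} from hs)]
      have e2 : ∀ x : ℝ, {z : Fin (n + 2) → ℝ | ∀ i, z i ≤ z 1}.indicator F (Fin.cons x s) =
          (Iic (s 0)).indicator (fun x => F (Fin.cons x s)) x := by
        intro x
        by_cases hx : x ≤ s 0
        · rw [indicator_of_mem (show x ∈ Iic (s 0) from hx), indicator_of_mem]
          intro i
          refine Fin.cases ?_ (fun i => ?_) i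
          · exact hx
          · exact hs i
        · rw [indicator_of_notMem (show x ∉ Iic (s 0) from hx), indicator_of_notMem]
          intro h'
          exact hx (h' 0)
      simp only [e2]
      rw [integral_indicator measurableSet_Iic, hF, hG]
      exact congrArg Neg.neg (ftc hΦ hA m ν s)
    · rw [indicator_of_notMem (show s ∉ {s : Fin (n + 1) → ℝ | ∀ i, s i ≤ s 0} from hs)]
      have e2 : ∀ x : ℝ, {z : Fin (n + 2) → ℝ | ∀ i, z i ≤ z 1}.indicator F (Fin.cons x s) = 0 := by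
        intro x
        refine indicator_of_notMem ?_ _
        intro h'
        exact hs fun i => h' i.succ
      simp only [e2, integral_zero, neg_zero]
  rw [hF] at e1
  rw [e1, cell hGi, hG]
  have e3 := h n hn Φ hΦ _ (posDef hA) (Matrix.vecMul m (TT n) + Pi.single 0 1) ν
  refine e3.trans_eq ?_
  congr 1
  funext y
  congr 1
  funext u
  rw [← qp_lin]
  rfl

end Pool.Agent.Lib.MP_0c1c75_co.Clu.WallC

namespace Pool.Agent.Lib.MP_0c1c75_co.Clu

open Pool.Agent.Lib.MP_0c1c75_co.Few (Prof)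

/-- the walls in `ℝ^k`, `k ≥ 4` -/
theorem wallCStmt (h : QuadConeStmt) : WallCStmt := by
  intro k hk Φ hΦ A hA m ν c c' hcc
  obtain ⟨n, rfl⟩ : ∃ n, k = n + 2 := ⟨k - 2, by omega⟩
  obtain ⟨σ, h0, h1⟩ := Few.Perm.exists_perm (a := (0 : Fin (n + 2))) (b := 1) (i := c') (j := c)
    (by simp) hcc
  have key := WallC.main h (n := n) (by omega) hΦ (hA.submatrix σ.injective) (m ∘ σ) ν
  refine key.trans_eq ?_
  congr 1
  rw [← integral_indicator (WallC.measurable_cell 1), ← integral_indicator (WallC.measurable_cell c),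
    ← Few.Perm.integral_perm σ]
  congr 1
  funext z
  have e1 : qp (A.submatrix σ σ) (m ∘ σ) ν (z ∘ σ) = qp A m ν z := by
    unfold qp
    rw [comp_equiv_dotProduct_comp_equiv]
    congr 2
    exact Few.Perm.qf_perm A σ z
  have e2 : (z ∘ σ) 1 = z c := by
    rw [Function.comp_apply, h1]
  by_cases hz : ∀ i, z i ≤ z c
  · rw [indicator_of_mem (show z ∈ {z : Fin (n + 2) → ℝ | ∀ i, z i ≤ z c} from hz),
      indicator_of_mem]
    · rw [e1, e2, Few.Perm.mulVec_perm, Function.comp_apply, Function.comp_apply, h0]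
    · intro i
      rw [e2]
      exact hz _
  · rw [indicator_of_notMem (show z ∉ {z : Fin (n + 2) → ℝ | ∀ i, z i ≤ z c} from hz),
      indicator_of_notMem]
    intro h'
    apply hz
    intro i
    have := h' (σ.symm i)
    rw [e2, Function.comp_apply, Equiv.apply_symm_apply] at this
    exact this

end Pool.Agent.Lib.MP_0c1c75_co.Clu
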