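import Pool.Agent.Lib.MP_0c1c75_co.FewSpec

/-! MP_0c1c75_co, few balls: the core inequality and the inequality for strict contractions. -/

open MeasureTheory Set Filter
open scoped ContDiff Topology

namespace Pool.Agent.Lib.MP_0c1c75_co.Few

theorem coreStmt (h1 : PathStmt) (h2 : GramStmt) : CoreStmt := by
  intro N hN Φ hΦ P Q hP hQ hd hPQ a
  have hN0 : 0 < N := by omega
  obtain ⟨p1, e1⟩ := h2 N hN0 Φ P a hP
  obtain ⟨p2, e2⟩ := h2 N hN0 Φ Q a hQ
  have hg : ∀ (R : Matrix (Fin N) (Fin N) ℝ) (i j : Fin N),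
      (R * R.transpose) i j = R i ⬝ᵥ R j := by
    intro R i j
    rfl
  have hb : (fun i => a i - (P * P.transpose) i i) = fun i => a i - (Q * Q.transpose) i i := by
    funext i
    rw [hg, hg, hd i]
  rw [e1, e2, hb]
  refine mul_le_mul_of_nonneg_left ?_ (by positivity)
  refine h1 N hN Φ hΦ _ _ p1 p2 ?_ ?_ _
  · intro i
    rw [hg, hg, hd i]
  · intro i j
    rw [hg, hg]
    exact hPQ i j

theorem strictStmt (h1 : CoreStmt) (h2 : ContStmt) (h3 : ApproxStmt) (h4 : LiftStmt) :
    StrictStmt := by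
  intro d hd p q hpq a Φ hΦ
  have hN0 : 0 < d + 4 := by omega
  set f : ℝ → ℝ := fun s => -deriv Φ s with hf
  have hfc : Continuous f := (hΦ.smooth.continuous_deriv (by simp)).neg
  have hfs : HasCompactSupport f := hΦ.supp.deriv.neg
  obtain ⟨hc, ht⟩ := h2 (d + 4) (d + 4) hN0 a f hfc hfs
  -- key inequality
  have key : ∫ x, f (gm (fun i => lift4 (p i)) a x) ≤ ∫ x, f (gm (fun i => lift4 (q i)) a x) := by
    have hex : ∀ m : ℕ, ∃ (P Q : Fin (d + 4) → Fin (d + 4) → ℝ),
        (∫ x, f (gm P a x) ≤ ∫ x, f (gm Q a x)) ∧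
        (∀ i k, |P i k - lift4 (p i) k| < 1 / ((m : ℝ) + 1)) ∧
        (∀ i k, |Q i k - lift4 (q i) k| < 1 / ((m : ℝ) + 1)) := by
      intro m
      obtain ⟨P, Q, c, hP, hQ, hn, hin, hPa, hQa⟩ := h3 d p q hpq (1 / ((m : ℝ) + 1))
        (by positivity)
      refine ⟨fun i => P i - c, fun i => Q i - c, ?_, fun i k => ?_, fun i k => ?_⟩
      · rw [ht P c, ht Q c]
        exact h1 (d + 4) (by omega) Φ hΦ P Q hP hQ hn hin a
      · simpa using hPa i k
      · simpa using hQa i k
    choose P Q hle hPa hQa using hex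
    have conv : ∀ (R : ℕ → Fin (d + 4) → Fin (d + 4) → ℝ) (r : Fin (d + 4) → Fin (d + 4) → ℝ),
        (∀ m i k, |R m i k - r i k| < 1 / ((m : ℝ) + 1)) →
        Tendsto (fun m => ∫ x, f (gm (R m) a x)) atTop (𝓝 (∫ x, f (gm r a x))) := by
      intro R r hR
      have h5 : Tendsto R atTop (𝓝 r) := by
        rw [tendsto_pi_nhds]
        intro i
        rw [tendsto_pi_nhds]
        intro k
        rw [tendsto_iff_norm_sub_tendsto_zero]
        refine squeeze_zero (fun _ => norm_nonneg _) (fun m => ?_)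
          tendsto_one_div_add_atTop_nhds_zero_nat
        rw [Real.norm_eq_abs]
        exact (hR m i k).le
      exact (hc.tendsto r).comp h5
    exact le_of_tendsto_of_tendsto' (conv P _ hPa) (conv Q _ hQa) hle
  have e1 := h4 (d + 4) d hN0 Φ hΦ p a
  have e2 := h4 (d + 4) d hN0 Φ hΦ q a
  simp only [hf] at key
  rw [e1, e2] at key
  exact le_of_mul_le_mul_left key (by positivity)

end Pool.Agent.Lib.MP_0c1c75_co.Few
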