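import Pool.Agent.Lib.MP_0c1c75_co.FewSpec

/-!
MP_0c1c75_co, case `N ≤ d + 4`: module Path (helper3). Monotonicity in Gram coordinates.
-/

open MeasureTheory Set Filter Topology
open scoped ContDiff

namespace Pool.Agent.Lib.MP_0c1c75_co.Few

namespace Path

variable {N : ℕ}

lemma cont_mx (hN : 0 < N) (b : Fin N → ℝ) : Continuous (fun t : Fin N → ℝ => mx b t) := by
  have : Nonempty (Fin N) := ⟨⟨0, hN⟩⟩
  have h : (fun t : Fin N → ℝ => mx b t) =
      fun t => Finset.univ.sup' Finset.univ_nonempty (fun i => t i - b i) := by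
    funext t
    unfold mx
    rw [Finset.sup'_univ_eq_ciSup]
  rw [h]
  exact Continuous.finset_sup'_apply Finset.univ_nonempty
    (fun i _ => (continuous_apply i).sub continuous_const)

lemma mx_ge (hN : 0 < N) (b t : Fin N → ℝ) : -(‖t‖ + ‖b‖) ≤ mx b t := by
  unfold mx
  have h1 : t ⟨0, hN⟩ - b ⟨0, hN⟩ ≤ ⨆ i, (t i - b i) :=
    le_ciSup (f := fun i => t i - b i) (Set.finite_range _).bddAbove ⟨0, hN⟩
  have h2 : |t ⟨0, hN⟩| ≤ ‖t‖ := norm_le_pi_norm t _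
  have h3 : |b ⟨0, hN⟩| ≤ ‖b‖ := norm_le_pi_norm b _
  have h4 := neg_abs_le (t ⟨0, hN⟩)
  have h5 := le_abs_self (b ⟨0, hN⟩)
  linarith

lemma sq_norm_le (hN : 0 < N) (t : Fin N → ℝ) : ‖t‖ ^ 2 ≤ t ⬝ᵥ t := by
  have : Nonempty (Fin N) := ⟨⟨0, hN⟩⟩
  obtain ⟨i, hi⟩ := Finite.exists_max (fun i => ‖t i‖)
  have h1 : ‖t‖ ≤ ‖t i‖ := (pi_norm_le_iff_of_nonneg (norm_nonneg _)).2 hi
  have h2 : ‖t‖ ^ 2 ≤ ‖t i‖ ^ 2 := pow_le_pow_left₀ (norm_nonneg _) h1 2
  have h3 : ‖t i‖ ^ 2 = t i * t i := by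
    rw [Real.norm_eq_abs, sq_abs]; ring
  have h4 : t i * t i ≤ t ⬝ᵥ t := by
    unfold dotProduct
    exact Finset.single_le_sum (f := fun i => t i * t i) (fun j _ => mul_self_nonneg _)
      (Finset.mem_univ i)
  linarith

lemma quad_le (A : Matrix (Fin N) (Fin N) ℝ) (t : Fin N → ℝ) :
    t ⬝ᵥ A.mulVec t ≤ (∑ i, ∑ j, |A i j|) * (t ⬝ᵥ t) := by
  have hsq : ∀ i, t i ^ 2 ≤ t ⬝ᵥ t := by
    intro i
    unfold dotProduct
    have h := Finset.single_le_sum (f := fun i => t i * t i) (fun j _ => mul_self_nonneg _)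
      (Finset.mem_univ i)
    calc t i ^ 2 = t i * t i := by ring
      _ ≤ _ := h
  have hterm : ∀ i j, t i * (A i j * t j) ≤ |A i j| * (t ⬝ᵥ t) := by
    intro i j
    have h1 : t i * (A i j * t j) ≤ |A i j| * |t i * t j| := by
      calc t i * (A i j * t j) ≤ |t i * (A i j * t j)| := le_abs_self _
        _ = |A i j| * |t i * t j| := by rw [abs_mul, abs_mul, abs_mul]; ring
    have h2 : |t i * t j| ≤ t ⬝ᵥ t := by
      rw [abs_mul]
      have ha := hsq i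
      have hb := hsq j
      nlinarith [sq_nonneg (|t i| - |t j|), sq_abs (t i), sq_abs (t j)]
    exact h1.trans (mul_le_mul_of_nonneg_left h2 (abs_nonneg _))
  calc t ⬝ᵥ A.mulVec t = ∑ i, ∑ j, t i * (A i j * t j) := by
        unfold dotProduct Matrix.mulVec dotProduct
        exact Finset.sum_congr rfl (fun i _ => Finset.mul_sum _ _ _)
    _ ≤ ∑ i, ∑ j, |A i j| * (t ⬝ᵥ t) :=
        Finset.sum_le_sum (fun i _ => Finset.sum_le_sum (fun j _ => hterm i j))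
    _ = (∑ i, ∑ j, |A i j|) * (t ⬝ᵥ t) := by
        simp_rw [← Finset.sum_mul]

lemma posDef_path {Γ₀ Γ₁ : Matrix (Fin N) (Fin N) ℝ} (h0 : Γ₀.PosDef) (h1 : Γ₁.PosDef) {θ : ℝ}
    (hθ : θ ∈ Icc (0 : ℝ) 1) : (Γ₀ + θ • (Γ₁ - Γ₀)).PosDef := by
  have e : Γ₀ + θ • (Γ₁ - Γ₀) = (1 - θ) • Γ₀ + θ • Γ₁ := by
    rw [smul_sub, sub_smul, one_smul]; abel
  rw [e]
  rcases eq_or_lt_of_le hθ.1 with h | h
  · rw [← h]; simpa using h0
  · have hb : (θ • Γ₁).PosDef := h1.smul h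
    have ha : ((1 - θ) • Γ₀).PosSemidef := h0.posSemidef.smul (by linarith [hθ.2])
    exact Matrix.PosDef.posSemidef_add ha hb

/-- uniform support -/
lemma exists_radius (hN : 0 < N) (h3 : MatDerivStmt) {Φ : ℝ → ℝ} (hΦ : Prof Φ)
    {Γ₀ Γ₁ : Matrix (Fin N) (Fin N) ℝ} (h0 : Γ₀.PosDef) (h1 : Γ₁.PosDef) (b : Fin N → ℝ) :
    ∃ R : ℝ, ∀ θ ∈ Icc (0 : ℝ) 1, ∀ t : Fin N → ℝ, R < ‖t‖ →
      deriv Φ (qf (Γ₀ + θ • (Γ₁ - Γ₀))⁻¹ t + mx b t) = 0 ∧
      deriv (deriv Φ) (qf (Γ₀ + θ • (Γ₁ - Γ₀))⁻¹ t + mx b t) = 0 := by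
  have hc1 : HasCompactSupport (deriv Φ) := hΦ.supp.deriv
  have hc2 : HasCompactSupport (deriv (deriv Φ)) := hc1.deriv
  obtain ⟨S1, hS1⟩ := hc1.isCompact.isBounded.bddAbove
  obtain ⟨S2, hS2⟩ := hc2.isCompact.isBounded.bddAbove
  have hz1 : ∀ s, S1 < s → deriv Φ s = 0 := by
    intro s hs
    by_contra hne
    exact absurd (hS1 (subset_tsupport _ hne)) (not_le.2 hs)
  have hz2 : ∀ s, S2 < s → deriv (deriv Φ) s = 0 := by
    intro s hs
    by_contra hne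
    exact absurd (hS2 (subset_tsupport _ hne)) (not_le.2 hs)
  set S := |S1| + |S2| with hS
  set Λ : ℝ := (∑ i, ∑ j, (|Γ₀ i j| + |Γ₁ i j|)) + 1 with hΛ
  have hΛ1 : 1 ≤ Λ := by
    have : 0 ≤ ∑ i, ∑ j, (|Γ₀ i j| + |Γ₁ i j|) :=
      Finset.sum_nonneg (fun i _ => Finset.sum_nonneg (fun j _ => by positivity))
    linarith
  refine ⟨4 * Λ * (1 + ‖b‖ + S + 1), fun θ hθ t ht => ?_⟩
  set A := Γ₀ + θ • (Γ₁ - Γ₀) with hA
  have hPD : A.PosDef := posDef_path h0 h1 hθ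
  have hquad : ∀ t : Fin N → ℝ, t ⬝ᵥ A.mulVec t ≤ Λ * (t ⬝ᵥ t) := by
    intro t
    refine (quad_le A t).trans ?_
    have htt : 0 ≤ t ⬝ᵥ t := (sq_nonneg _).trans (sq_norm_le hN t)
    refine mul_le_mul_of_nonneg_right ?_ htt
    have : ∑ i, ∑ j, |A i j| ≤ ∑ i, ∑ j, (|Γ₀ i j| + |Γ₁ i j|) := by
      refine Finset.sum_le_sum (fun i _ => Finset.sum_le_sum (fun j _ => ?_))
      have e : A i j = (1 - θ) * Γ₀ i j + θ * Γ₁ i j := by
        rw [hA]; simp [Matrix.add_apply, Matrix.smul_apply, Matrix.sub_apply]; ring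
      rw [e]
      refine (abs_add_le _ _).trans ?_
      rw [abs_mul, abs_mul, abs_of_nonneg (by linarith [hθ.2] : 0 ≤ 1 - θ), abs_of_nonneg hθ.1]
      have ha := abs_nonneg (Γ₀ i j)
      have hb := abs_nonneg (Γ₁ i j)
      nlinarith [hθ.1, hθ.2, mul_nonneg hθ.1 ha, mul_nonneg (sub_nonneg.2 hθ.2) hb]
    linarith
  have hlow := h3.2 N A Λ hPD (by linarith) hquad t
  have hsq := sq_norm_le hN t
  have hmx := mx_ge hN b t
  have hb0 := norm_nonneg b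
  have hS0 : 0 ≤ S := by positivity
  have ht1 : 1 ≤ ‖t‖ := by nlinarith
  have hkey : ‖t‖ * (1 + ‖b‖ + S + 1) ≤ (t ⬝ᵥ t) / (4 * Λ) := by
    rw [le_div_iff₀ (by linarith)]
    nlinarith [norm_nonneg t]
  have hbig : S < qf A⁻¹ t + mx b t := by
    nlinarith [norm_nonneg t]
  have hs1 : S1 < qf A⁻¹ t + mx b t := by
    have := le_abs_self S1; have := abs_nonneg S2; linarith
  have hs2 : S2 < qf A⁻¹ t + mx b t := by
    have := le_abs_self S2; have := abs_nonneg S1; linarith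
  exact ⟨hz1 _ hs1, hz2 _ hs2⟩

/-- continuity of the entries of the inverse along the path -/
lemma cont_inv (h3 : MatDerivStmt) {M H : Matrix (Fin N) (Fin N) ℝ}
    (hdet : ∀ θ ∈ Icc (0 : ℝ) 1, (M + θ • H).det ≠ 0) (i j : Fin N) :
    ContinuousOn (fun θ : ℝ => (M + θ • H)⁻¹ i j) (Icc 0 1) := by
  intro θ hθ
  exact ((h3.1 N M H θ (hdet θ hθ)).2 i j).continuousAt.continuousWithinAt

lemma cont_det (h3 : MatDerivStmt) {M H : Matrix (Fin N) (Fin N) ℝ}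
    (hdet : ∀ θ ∈ Icc (0 : ℝ) 1, (M + θ • H).det ≠ 0) :
    ContinuousOn (fun θ : ℝ => (M + θ • H).det) (Icc 0 1) := by
  intro θ hθ
  exact (h3.1 N M H θ (hdet θ hθ)).1.continuousAt.continuousWithinAt

/-- the set `[0,1] × ℝ^N` -/
abbrev dom (N : ℕ) : Set (ℝ × (Fin N → ℝ)) := Icc (0 : ℝ) 1 ×ˢ univ

lemma cont_fst {f : ℝ → ℝ} (hf : ContinuousOn f (Icc 0 1)) :
    ContinuousOn (fun z : ℝ × (Fin N → ℝ) => f z.1) (dom N) :=
  hf.comp continuousOn_fst (fun _ hz => hz.1)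

lemma cont_mulVec (h3 : MatDerivStmt) {M H : Matrix (Fin N) (Fin N) ℝ}
    (hdet : ∀ θ ∈ Icc (0 : ℝ) 1, (M + θ • H).det ≠ 0) (i : Fin N) :
    ContinuousOn (fun z : ℝ × (Fin N → ℝ) => (M + z.1 • H)⁻¹.mulVec z.2 i) (dom N) := by
  have e : (fun z : ℝ × (Fin N → ℝ) => (M + z.1 • H)⁻¹.mulVec z.2 i) =
      fun z => ∑ j, (M + z.1 • H)⁻¹ i j * z.2 j := by
    funext z
    rfl
  rw [e]
  refine continuousOn_finsetSum _ (fun j _ => ?_)
  refine (cont_fst (cont_inv h3 hdet i j)).mul ?_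
  exact ((continuous_apply j).comp continuous_snd).continuousOn

lemma cont_qf (h3 : MatDerivStmt) {M H : Matrix (Fin N) (Fin N) ℝ}
    (hdet : ∀ θ ∈ Icc (0 : ℝ) 1, (M + θ • H).det ≠ 0) :
    ContinuousOn (fun z : ℝ × (Fin N → ℝ) => qf (M + z.1 • H)⁻¹ z.2) (dom N) := by
  have e : (fun z : ℝ × (Fin N → ℝ) => qf (M + z.1 • H)⁻¹ z.2) =
      fun z => (1 / 4) * ∑ i, z.2 i * (M + z.1 • H)⁻¹.mulVec z.2 i := by
    funext z
    rfl
  rw [e]
  refine continuousOn_const.mul (continuousOn_finsetSum _ (fun i _ => ?_))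
  exact (((continuous_apply i).comp continuous_snd).continuousOn).mul (cont_mulVec h3 hdet i)

lemma cont_arg (hN : 0 < N) (h3 : MatDerivStmt) {M H : Matrix (Fin N) (Fin N) ℝ}
    (hdet : ∀ θ ∈ Icc (0 : ℝ) 1, (M + θ • H).det ≠ 0) (b : Fin N → ℝ) :
    ContinuousOn (fun z : ℝ × (Fin N → ℝ) => qf (M + z.1 • H)⁻¹ z.2 + mx b z.2) (dom N) :=
  (cont_qf h3 hdet).add ((cont_mx hN b).comp continuous_snd).continuousOn

lemma cont_sqrt (h3 : MatDerivStmt) {M H : Matrix (Fin N) (Fin N) ℝ}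
    (hdet : ∀ θ ∈ Icc (0 : ℝ) 1, 0 < (M + θ • H).det) :
    ContinuousOn (fun z : ℝ × (Fin N → ℝ) => (Real.sqrt (M + z.1 • H).det)⁻¹) (dom N) := by
  refine cont_fst (f := fun θ : ℝ => (Real.sqrt (M + θ • H).det)⁻¹) ?_
  refine ContinuousOn.inv₀ ?_ ?_
  · exact Real.continuous_sqrt.comp_continuousOn (cont_det h3 (fun θ hθ => (hdet θ hθ).ne'))
  · intro θ hθ
    exact (Real.sqrt_pos.2 (hdet θ hθ)).ne'

lemma cont_deriv {Φ : ℝ → ℝ} (hΦ : Prof Φ) : Continuous (deriv Φ) :=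
  hΦ.smooth.continuous_deriv (by simp)

lemma cont_deriv2 {Φ : ℝ → ℝ} (hΦ : Prof Φ) : Continuous (deriv (deriv Φ)) := by
  have h : ContDiff ℝ ∞ (deriv Φ) := by
    have := (contDiff_infty_iff_deriv.1 hΦ.smooth).2
    exact this
  exact h.continuous_deriv (by simp)

lemma cont_kint (hN : 0 < N) (h3 : MatDerivStmt) {Φ : ℝ → ℝ} (hΦ : Prof Φ)
    {M H : Matrix (Fin N) (Fin N) ℝ}
    (hdet : ∀ θ ∈ Icc (0 : ℝ) 1, (M + θ • H).det ≠ 0) (b : Fin N → ℝ) (i j : Fin N) :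
    ContinuousOn (fun z : ℝ × (Fin N → ℝ) => kint Φ (M + z.1 • H)⁻¹ b i j z.2) (dom N) := by
  unfold kint
  have ha := cont_arg hN h3 hdet b
  refine ContinuousOn.add ?_ ?_
  · refine ContinuousOn.mul (ContinuousOn.mul (continuousOn_const.mul ?_) ?_) ?_
    · exact (cont_deriv2 hΦ).comp_continuousOn ha
    · exact cont_mulVec h3 hdet i
    · exact cont_mulVec h3 hdet j
  · refine ContinuousOn.mul (continuousOn_const.mul ?_) ?_
    · exact (cont_deriv hΦ).comp_continuousOn ha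
    · exact cont_fst (cont_inv h3 hdet i j)

/-- A function continuous on `[0,1] × ℝ^N` vanishing for `R < ‖t‖` is bounded by an integrable
function of `t`. -/
lemma exists_bound {g : ℝ × (Fin N → ℝ) → ℝ} (hg : ContinuousOn g (dom N)) {R : ℝ}
    (hR : ∀ θ ∈ Icc (0 : ℝ) 1, ∀ t : Fin N → ℝ, R < ‖t‖ → g (θ, t) = 0) :
    ∃ B : (Fin N → ℝ) → ℝ, Integrable B ∧ ∀ θ ∈ Icc (0 : ℝ) 1, ∀ t, ‖g (θ, t)‖ ≤ B t := by
  have hK : IsCompact (Icc (0 : ℝ) 1 ×ˢ Metric.closedBall (0 : Fin N → ℝ) R) :=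
    isCompact_Icc.prod (isCompact_closedBall _ _)
  obtain ⟨C, hC⟩ := hK.exists_bound_of_continuousOn
    (hg.mono (Set.prod_mono_right (Set.subset_univ _)))
  refine ⟨(Metric.closedBall (0 : Fin N → ℝ) R).indicator (fun _ => C), ?_, ?_⟩
  · rw [integrable_indicator_iff measurableSet_closedBall]
    exact integrableOn_const (measure_closedBall_lt_top).ne
  · intro θ hθ t
    by_cases ht : t ∈ Metric.closedBall (0 : Fin N → ℝ) R
    · rw [Set.indicator_of_mem ht]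
      exact hC (θ, t) ⟨hθ, ht⟩
    · rw [Set.indicator_of_notMem ht]
      have : R < ‖t‖ := by
        simpa [Metric.mem_closedBall, dist_zero_right] using ht
      rw [hR θ hθ t this, norm_zero]

lemma slice {g : ℝ × (Fin N → ℝ) → ℝ} (hg : ContinuousOn g (dom N)) {θ : ℝ}
    (hθ : θ ∈ Icc (0 : ℝ) 1) : Continuous (fun t => g (θ, t)) := by
  rw [← continuousOn_univ]
  exact hg.comp (Continuous.continuousOn (by fun_prop)) (fun t _ => ⟨hθ, Set.mem_univ t⟩)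

lemma slice' {g : ℝ × (Fin N → ℝ) → ℝ} (hg : ContinuousOn g (dom N)) (t : Fin N → ℝ) :
    ContinuousOn (fun θ => g (θ, t)) (Icc 0 1) :=
  hg.comp (Continuous.continuousOn (by fun_prop)) (fun _ hθ => ⟨hθ, Set.mem_univ t⟩)

lemma slice_integrable {g : ℝ × (Fin N → ℝ) → ℝ} (hg : ContinuousOn g (dom N)) {R : ℝ}
    (hR : ∀ θ ∈ Icc (0 : ℝ) 1, ∀ t : Fin N → ℝ, R < ‖t‖ → g (θ, t) = 0) {θ : ℝ}
    (hθ : θ ∈ Icc (0 : ℝ) 1) : Integrable (fun t => g (θ, t)) := by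
  obtain ⟨B, hB, hb⟩ := exists_bound hg hR
  exact hB.mono' (slice hg hθ).aestronglyMeasurable (Filter.Eventually.of_forall (hb θ hθ))

end Path

open Pool.Agent.Lib.MP_0c1c75_co.Few.Path in
/-- Module Path. -/
theorem pathStmt (h1 : PermStmt) (h2 : PathDerivStmt) (h3 : MatDerivStmt) : PathStmt := by
  intro N hN5 Φ hΦ Γ₀ Γ₁ hP0 hP1 hdiag hle b
  have hN : 0 < N := by omega
  set H : Matrix (Fin N) (Fin N) ℝ := Γ₁ - Γ₀ with hH
  have hPD : ∀ θ ∈ Icc (0 : ℝ) 1, (Γ₀ + θ • H).PosDef := fun θ hθ => posDef_path hP0 hP1 hθ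
  have hdet : ∀ θ ∈ Icc (0 : ℝ) 1, 0 < (Γ₀ + θ • H).det := fun θ hθ => (hPD θ hθ).det_pos
  have hdet' : ∀ θ ∈ Icc (0 : ℝ) 1, (Γ₀ + θ • H).det ≠ 0 := fun θ hθ => (hdet θ hθ).ne'
  obtain ⟨R, hR⟩ := exists_radius hN h3 hΦ hP0 hP1 b
  have hS0 : Γ₀.IsSymm := by
    have := hP0.isHermitian
    rw [Matrix.IsHermitian, Matrix.conjTranspose_eq_transpose_of_trivial] at this
    exact this
  have hS1 : Γ₁.IsSymm := by
    have := hP1.isHermitian
    rw [Matrix.IsHermitian, Matrix.conjTranspose_eq_transpose_of_trivial] at this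
    exact this
  have hSH : H.IsSymm := hS1.sub hS0
  -- the integrand
  set g : ℝ × (Fin N → ℝ) → ℝ := fun z => (Real.sqrt (Γ₀ + z.1 • H).det)⁻¹ *
    -deriv Φ (qf (Γ₀ + z.1 • H)⁻¹ z.2 + mx b z.2) with hg
  set k : Fin N → Fin N → ℝ × (Fin N → ℝ) → ℝ := fun i j z =>
    (Real.sqrt (Γ₀ + z.1 • H).det)⁻¹ * kint Φ (Γ₀ + z.1 • H)⁻¹ b i j z.2 with hk
  set g' : ℝ × (Fin N → ℝ) → ℝ := fun z => ∑ i, ∑ j, H i j * k i j z with hg'
  have hgc : ContinuousOn g (dom N) :=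
    (cont_sqrt h3 hdet).mul (((cont_deriv hΦ).comp_continuousOn (cont_arg hN h3 hdet' b)).neg)
  have hkc : ∀ i j, ContinuousOn (k i j) (dom N) := fun i j =>
    (cont_sqrt h3 hdet).mul (cont_kint hN h3 hΦ hdet' b i j)
  have hg'c : ContinuousOn g' (dom N) :=
    continuousOn_finsetSum _ (fun i _ => continuousOn_finsetSum _ (fun j _ =>
      continuousOn_const.mul (hkc i j)))
  have hgR : ∀ θ ∈ Icc (0 : ℝ) 1, ∀ t : Fin N → ℝ, R < ‖t‖ → g (θ, t) = 0 := by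
    intro θ hθ t ht
    simp only [hg]
    rw [(hR θ hθ t ht).1]
    ring
  have hkR : ∀ i j, ∀ θ ∈ Icc (0 : ℝ) 1, ∀ t : Fin N → ℝ, R < ‖t‖ → k i j (θ, t) = 0 := by
    intro i j θ hθ t ht
    simp only [hk, kint]
    rw [(hR θ hθ t ht).1, (hR θ hθ t ht).2]
    ring
  have hg'R : ∀ θ ∈ Icc (0 : ℝ) 1, ∀ t : Fin N → ℝ, R < ‖t‖ → g' (θ, t) = 0 := by
    intro θ hθ t ht
    simp only [hg']
    refine Finset.sum_eq_zero (fun i _ => Finset.sum_eq_zero (fun j _ => ?_))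
    rw [hkR i j θ hθ t ht, mul_zero]
  obtain ⟨B, hB, hBb⟩ := exists_bound hgc hgR
  obtain ⟨B', hB', hB'b⟩ := exists_bound hg'c hg'R
  -- the function of θ
  set F : ℝ → ℝ := fun θ => ∫ t, g (θ, t) with hF
  have hFc : ContinuousOn F (Icc 0 1) := by
    refine continuousOn_of_dominated (fun θ hθ => (slice hgc hθ).aestronglyMeasurable)
      (fun θ hθ => Filter.Eventually.of_forall (hBb θ hθ)) hB
      (Filter.Eventually.of_forall (fun t => slice' hgc t))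
  have hFd : ∀ θ ∈ Ioo (0 : ℝ) 1, HasDerivAt F (∫ t, g' (θ, t)) θ := by
    intro θ hθ
    have hθI : θ ∈ Icc (0 : ℝ) 1 := Ioo_subset_Icc_self hθ
    refine (hasDerivAt_integral_of_dominated_loc_of_deriv_le (F := fun θ t => g (θ, t))
      (F' := fun θ t => g' (θ, t)) (bound := B') (s := Ioo 0 1)
      (isOpen_Ioo.mem_nhds hθ) ?_ (slice_integrable hgc hgR hθI)
      (slice hg'c hθI).aestronglyMeasurable ?_ hB' ?_).2
    · filter_upwards [isOpen_Ioo.mem_nhds hθ] with x hx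
      exact (slice hgc (Ioo_subset_Icc_self hx)).aestronglyMeasurable
    · exact Filter.Eventually.of_forall (fun t x hx => hB'b x (Ioo_subset_Icc_self hx) t)
    · refine Filter.Eventually.of_forall (fun t x hx => ?_)
      exact h2 N Φ hΦ Γ₀ H b t x (hPD x (Ioo_subset_Icc_self hx)) hSH hS0
  have hnn : ∀ θ ∈ Icc (0 : ℝ) 1, 0 ≤ ∫ t, g' (θ, t) := by
    intro θ hθ
    have hint : ∀ i j, Integrable (fun t => k i j (θ, t)) := fun i j =>
      slice_integrable (hkc i j) (hkR i j) hθ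
    have e : ∫ t, g' (θ, t) = ∑ i, ∑ j, H i j * ∫ t, k i j (θ, t) := by
      calc ∫ t, g' (θ, t) = ∑ i, ∫ t, ∑ j, H i j * k i j (θ, t) :=
            integral_finsetSum (f := fun i t => ∑ j, H i j * k i j (θ, t)) _ (fun i _ =>
              integrable_finsetSum (f := fun j t => H i j * k i j (θ, t)) _ (fun j _ =>
                (hint i j).const_mul (H i j)))
        _ = ∑ i, ∑ j, ∫ t, H i j * k i j (θ, t) :=
            Finset.sum_congr rfl (fun i _ =>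
              integral_finsetSum (f := fun j t => H i j * k i j (θ, t)) _
                (fun j _ => (hint i j).const_mul (H i j)))
        _ = ∑ i, ∑ j, H i j * ∫ t, k i j (θ, t) :=
            Finset.sum_congr rfl (fun i _ =>
              Finset.sum_congr rfl (fun j _ => integral_const_mul _ _))
    rw [e]
    refine Finset.sum_nonneg (fun i _ => Finset.sum_nonneg (fun j _ => ?_))
    by_cases hij : i = j
    · subst hij
      have : H i i = 0 := by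
        rw [hH, Matrix.sub_apply, hdiag i, sub_self]
      rw [this, zero_mul]
    · refine mul_nonneg ?_ ?_
      · rw [hH, Matrix.sub_apply]
        linarith [hle i j]
      · simp only [hk]
        rw [integral_const_mul]
        refine mul_nonneg (inv_nonneg.2 (Real.sqrt_nonneg _)) ?_
        exact h1 N hN5 Φ hΦ _ (hPD θ hθ).inv b i j hij
  have hmono : MonotoneOn F (Icc 0 1) := by
    refine monotoneOn_of_deriv_nonneg (convex_Icc 0 1) hFc ?_ ?_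
    · rw [interior_Icc]
      intro θ hθ
      exact (hFd θ hθ).differentiableAt.differentiableWithinAt
    · rw [interior_Icc]
      intro θ hθ
      rw [(hFd θ hθ).deriv]
      exact hnn θ (Ioo_subset_Icc_self hθ)
  have h01 := hmono (left_mem_Icc.2 zero_le_one) (right_mem_Icc.2 zero_le_one) zero_le_one
  have e0 : F 0 = J Φ b Γ₀ := by
    simp only [hF, hg, J, zero_smul, add_zero]
  have e1 : F 1 = J Φ b Γ₁ := by
    simp only [hF, hg, J, one_smul, hH]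
    rw [add_sub_cancel]
  rw [e0, e1] at h01
  exact h01

end Pool.Agent.Lib.MP_0c1c75_co.Few
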