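import Pool.Agent.Lib.MP_0c1c75_co.All
import Pool.Agent.Lib.MP_0c1c75_co.FewAll

/-!
MP_0c1c75_co: final form of Theorem 4 (uniform contractions).
-/

open MeasureTheory Set Metric

namespace Pool.Agent.Lib.MP_0c1c75_co

namespace Final4

/-- uniform contractions are fine for all numbers of balls from `n` on -/
def Good (d n : ℕ) : Prop :=
  ∀ N : ℕ, n ≤ N → ∀ (p q : Fin N → E d) (L : ℝ),
    (∀ i j, i ≠ j → dist (q i) (q j) ≤ L ∧ L ≤ dist (p i) (p j)) →
    ∀ r : ℝ, volume (body p r) ≤ volume (body q r)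

lemma kp_of_gwid {d N : ℕ} (hd : 0 < d) (hdN : d + 2 ≤ N)
    (h : Real.sqrt d / 2 ≤ gwid (splx N)) (p q : Fin N → E d) (L : ℝ)
    (huni : ∀ i j, i ≠ j → dist (q i) (q j) ≤ L ∧ L ≤ dist (p i) (p j)) (r : ℝ) :
    volume (body p r) ≤ volume (body q r) := by
  have hN0 : 0 < N := by omega
  rcases le_or_gt L 0 with hL | hL
  · exact Thm4.uniform_nonpos hN0 p q hL huni r
  have h1 := Thm4.gwid_ge allW hN0 p hL (fun i j h => (huni i j h).2) id Function.surjective_id
  have h2 := allHG d N hd hN0 (fun i => L⁻¹ • p i)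
  have h3 := (allH d N hd hN0 p).2.2.1 L⁻¹ (inv_nonneg.mpr hL.le)
  rw [h3] at h2
  obtain ⟨hm0, hm1⟩ := normMomentStmt.2 d hd
  set m := (∫ x : E d, Real.exp (-‖x‖ ^ 2) * ‖x‖) / ∫ x : E d, Real.exp (-‖x‖ ^ 2) with hm
  have h4 : Real.sqrt d / 2 ≤ L⁻¹ * hw p * m := by
    rw [h2]
    exact h.trans h1
  have hB0 : 0 ≤ hw p := (allH d N hd hN0 p).2.1
  have h5 : Real.sqrt d / 2 ≤ L⁻¹ * hw p * Real.sqrt (d / 2) :=
    h4.trans (mul_le_mul_of_nonneg_left hm1 (by positivity))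
  have hd0' : (0 : ℝ) < d := by exact_mod_cast hd
  have h6 : (Real.sqrt 2)⁻¹ ≤ L⁻¹ * hw p := by
    have e1 : Real.sqrt ((d : ℝ) / 2) = Real.sqrt d / Real.sqrt 2 := Real.sqrt_div hd0'.le 2
    rw [e1] at h5
    have hsd : 0 < Real.sqrt d := Real.sqrt_pos.mpr hd0'
    have hs2 : 0 < Real.sqrt 2 := Real.sqrt_pos.mpr two_pos
    have hs22 : Real.sqrt 2 * Real.sqrt 2 = 2 := Real.mul_self_sqrt (by norm_num)
    have h8 : Real.sqrt d / 2 = (Real.sqrt 2)⁻¹ * (Real.sqrt d / Real.sqrt 2) := by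
      field_simp
      nlinarith
    rw [h8] at h5
    exact le_of_mul_le_mul_right h5 (by positivity)
  have h7 : (Real.sqrt 2)⁻¹ * L ≤ hw p := by
    rw [inv_mul_eq_div L, le_div_iff₀ hL] at h6
    exact h6
  have hx2 : ((Real.sqrt 2)⁻¹) ^ 2 = 1 / 2 := by
    rw [inv_pow, Real.sq_sqrt (by norm_num)]
    norm_num
  refine Thm4.uniform_of_width allC allCA allV allU allRad allH allS (jungStmt allC)
    (diamStmt allH) rankinStmt hd hdN p q hL huni (x := (Real.sqrt 2)⁻¹) ?_ ?_ h7 r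
  · by_contra h
    push Not at h
    have h9 : 0 < (Real.sqrt 2)⁻¹ := by positivity
    nlinarith
  · rw [hx2]
    have : 0 ≤ (Real.sqrt 2)⁻¹ / ((d : ℝ) + 1) := by positivity
    linarith

lemma sqrt_e_ge : (1.6 : ℝ) ≤ Real.sqrt (Real.exp 1) := by
  apply Real.le_sqrt_of_sq_le
  have := Real.exp_one_gt_d9
  norm_num at this ⊢
  linarith

lemma exists_good (d : ℕ) : ∃ n, Good d n := by
  rcases Nat.eq_zero_or_pos d with rfl | hd
  · refine ⟨0, fun N _ p q L _ r => ?_⟩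
    have : p = q := by
      funext i
      exact Subsingleton.elim _ _
    rw [this]
  · obtain ⟨d0, hd0⟩ := allMany 1 one_pos
    set D := max d (max d0 4) with hD
    refine ⟨⌈(Real.sqrt (Real.exp 1) + 1) ^ D⌉₊, fun N hN p q L huni r => ?_⟩
    have hN' : (Real.sqrt (Real.exp 1) + 1) ^ D ≤ (N : ℝ) :=
      (Nat.le_ceil _).trans (by exact_mod_cast hN)
    have hdD : d ≤ D := le_max_left _ _
    have h4D : 4 ≤ D := (le_max_right _ _).trans (le_max_right _ _)
    have h0D : d0 ≤ D := (le_max_left _ _).trans (le_max_right _ _)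
    have h1 := hd0 D N h0D hN'
    have h2 : Real.sqrt d / 2 ≤ Real.sqrt D / 2 := by
      apply div_le_div_of_nonneg_right _ (by norm_num)
      exact Real.sqrt_le_sqrt (by exact_mod_cast hdD)
    have hdN : d + 2 ≤ N := by
      have h3 : ((d + 2 : ℕ) : ℝ) ≤ N := by
        refine le_trans ?_ hN'
        have h5 : (1.6 : ℝ) ^ D ≤ (Real.sqrt (Real.exp 1) + 1) ^ D :=
          pow_le_pow_left₀ (by norm_num) (by linarith [sqrt_e_ge]) D
        refine le_trans ?_ ((Thm4.pow_ge D h4D).trans h5)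
        push_cast
        have : (d : ℝ) ≤ D := by exact_mod_cast hdD
        linarith
      exact_mod_cast h3
    exact kp_of_gwid hd hdN (h2.trans h1) p q L huni r

lemma good_three : Good 3 0 := by
  intro N _ p q L huni r
  rcases le_or_gt 7 N with hN | hN
  · exact allThm4.1 N hN p q L huni r
  · refine fewAll 3 N (by omega) p q (fun _ => r) (fun i j => ?_)
    rcases eq_or_ne i j with rfl | hij
    · simp
    · exact (huni i j hij).1.trans (huni i j hij).2

lemma good_ceil {ε : ℝ} (hε : 0 < ε) : ∃ d0 : ℕ, ∀ d : ℕ, d0 ≤ d →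
    Good d ⌈(Real.sqrt (Real.exp 1) + ε) ^ d⌉₊ := by
  obtain ⟨d0, hd0⟩ := allThm4.2 ε hε
  refine ⟨d0, fun d hd N hN p q L huni r => ?_⟩
  exact hd0 d N hd ((Nat.le_ceil _).trans (by exact_mod_cast hN)) p q L huni r

open Classical in
/-- the threshold -/
noncomputable def N0 (d : ℕ) : ℕ := if d = 3 then 0 else Nat.find (exists_good d)

lemma N0_good (d : ℕ) : Good d (N0 d) := by
  classical
  unfold N0
  split_ifs with h
  · subst h
    exact good_three
  · exact Nat.find_spec (exists_good d)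

lemma N0_le {d n : ℕ} (hd : d ≠ 3) (h : Good d n) : N0 d ≤ n := by
  classical
  unfold N0
  rw [if_neg hd]
  exact Nat.find_min' _ h

lemma eventually_le {ε : ℝ} (hε : 0 < ε) :
    ∀ᶠ d : ℕ in Filter.atTop, (N0 d : ℝ) ≤ (Real.sqrt (Real.exp 1) + ε) ^ d := by
  obtain ⟨d0, hd0⟩ := good_ceil (half_pos hε)
  filter_upwards [Filter.eventually_ge_atTop d0, Filter.eventually_ge_atTop 4,
    Filter.eventually_ge_atTop (⌈2 / ε⌉₊ + 1)] with d h1 h2 h3
  have h4 := N0_le (by omega) (hd0 d h1)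
  set x := Real.sqrt (Real.exp 1) + ε / 2 with hx
  have hx1 : 1 ≤ x := by linarith [sqrt_e_ge]
  have h5 : (N0 d : ℝ) ≤ x ^ d + 1 := by
    have h6 : (N0 d : ℝ) ≤ (⌈x ^ d⌉₊ : ℝ) := by exact_mod_cast h4
    exact h6.trans (Nat.ceil_lt_add_one (by positivity)).le
  refine h5.trans ?_
  have hxx : Real.sqrt (Real.exp 1) + ε = x * (1 + ε / 2 / x) := by
    have : x ≠ 0 := by linarith
    field_simp
    rw [hx]
    ring
  have hδ : 0 < ε / 2 / x := by positivity
  have h7 : 1 + (d : ℝ) * (ε / 2 / x) ≤ (1 + ε / 2 / x) ^ d :=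
    one_add_mul_le_pow (by linarith) d
  have hdε : 1 ≤ (d : ℝ) * (ε / 2) := by
    have h8 : 2 / ε ≤ d := by
      have h9 : ((⌈2 / ε⌉₊ + 1 : ℕ) : ℝ) ≤ d := by exact_mod_cast h3
      push_cast at h9
      linarith [Nat.le_ceil (2 / ε)]
    rw [div_le_iff₀ hε] at h8
    linarith
  have hxd : x ≤ x ^ d := by
    calc x = x ^ 1 := (pow_one x).symm
      _ ≤ x ^ d := pow_le_pow_right₀ hx1 (by omega)
  rw [hxx, mul_pow]
  calc x ^ d + 1 ≤ x ^ d + x ^ d * ((d : ℝ) * (ε / 2 / x)) := by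
        have h10 : 1 ≤ x ^ d * ((d : ℝ) * (ε / 2 / x)) := by
          calc (1 : ℝ) ≤ (d : ℝ) * (ε / 2) := hdε
            _ = x * ((d : ℝ) * (ε / 2 / x)) := by
                have : x ≠ 0 := by linarith
                field_simp
            _ ≤ x ^ d * ((d : ℝ) * (ε / 2 / x)) :=
                mul_le_mul_of_nonneg_right hxd (by positivity)
        linarith
    _ = x ^ d * (1 + (d : ℝ) * (ε / 2 / x)) := by ring
    _ ≤ x ^ d * (1 + ε / 2 / x) ^ d := mul_le_mul_of_nonneg_left h7 (by positivity)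

end Final4

end Pool.Agent.Lib.MP_0c1c75_co
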