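import Pool.Agent.Lib.MP_0c1c75_co.Spec5

/-!
MP_0c1c75_co, module GPchi (helper94): the limit `k → ∞` in `GPpolyStmt`.
-/

open MeasureTheory Set Metric Filter Topology

namespace Pool.Agent.Lib.MP_0c1c75_co.GPchi

open Pool.Agent.Lib.MP_0c1c75_co Pool.Agent.Lib.MP_0c1c75_co.Gauss

/-- the test function `W(u) = χ(-log u / k)` -/
noncomputable def Wk (χ : ℝ → ℝ) (k u : ℝ) : ℝ := if 0 < u then χ (-Real.log u / k) else 0

lemma exists_bound {χ : ℝ → ℝ} (hs : HasCompactSupport χ) : ∃ R : ℝ, 0 < R ∧ ∀ t, R ≤ t → χ t = 0 := by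
  obtain ⟨R, hR⟩ := hs.isCompact.isBounded.subset_closedBall (0 : ℝ)
  refine ⟨max R 0 + 1, by positivity, fun t ht => ?_⟩
  by_contra hne
  have h1 := hR (subset_tsupport _ hne)
  rw [mem_closedBall, Real.dist_eq, sub_zero] at h1
  have h2 := le_abs_self t
  have h3 := le_max_left R 0
  linarith

lemma Wk_zero {χ : ℝ → ℝ} {R k : ℝ} (hk : 0 < k) (hR : ∀ t, R ≤ t → χ t = 0) (u : ℝ)
    (hu : u ≤ Real.exp (-(k * R))) : Wk χ k u = 0 := by
  unfold Wk
  split_ifs with h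
  · apply hR
    rw [le_div_iff₀ hk]
    have h1 := Real.log_le_log h hu
    rw [Real.log_exp] at h1
    linarith
  · rfl

lemma Wk_continuous {χ : ℝ → ℝ} (hc : Continuous χ) (hs : HasCompactSupport χ) {k : ℝ}
    (hk : 0 < k) : Continuous (Wk χ k) := by
  obtain ⟨R, -, hR⟩ := exists_bound hs
  rw [continuous_iff_continuousAt]
  intro u
  rcases lt_or_ge u (Real.exp (-(k * R))) with h | h
  · have h1 : Wk χ k =ᶠ[𝓝 u] fun _ => 0 := by
      filter_upwards [Iio_mem_nhds h] with v hv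
      exact Wk_zero hk hR v (le_of_lt hv)
    exact continuousAt_const.congr h1.symm
  · have hu : 0 < u := lt_of_lt_of_le (Real.exp_pos _) h
    have h1 : Wk χ k =ᶠ[𝓝 u] fun v => χ (-Real.log v / k) := by
      filter_upwards [Ioi_mem_nhds hu] with v hv
      unfold Wk
      exact if_pos hv
    refine ContinuousAt.congr ?_ h1.symm
    exact hc.continuousAt.comp ((Real.continuousAt_log hu.ne').neg.div_const k)

section

variable {d N : ℕ} [NeZero N]

/-- the total weight -/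
noncomputable def ST (p : Fin N → E d) (a : Fin N → ℝ) (k : ℝ) (z : E d × E d) : ℝ :=
  Sm (fun i => Real.exp (-k * a i)) k (fun i => z.1 - p i) * Real.exp (k * ‖z.2‖ ^ 2)

lemma ST_pos (p : Fin N → E d) (a : Fin N → ℝ) (k : ℝ) (z : E d × E d) : 0 < ST p a k z :=
  mul_pos (Sm_pos (fun _ => Real.exp_pos _) _) (Real.exp_pos _)

omit [NeZero N] in
lemma ST_continuous (p : Fin N → E d) (a : Fin N → ℝ) (k : ℝ) : Continuous (ST p a k) := by
  unfold ST
  have h1 : Continuous fun z : E d × E d =>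
      Sm (fun i => Real.exp (-k * a i)) k (fun i => z.1 - p i) :=
    (continuous_Sm (V := E d) p).comp continuous_fst
  exact h1.mul (by fun_prop)

/-- `log ST / k` lies between `G + |y|²` and `G + |y|² + log N / k` -/
lemma log_ST {k : ℝ} (hk : 0 < k) (p : Fin N → E d) (a : Fin N → ℝ) (z : E d × E d) :
    gmax p a z.1 + ‖z.2‖ ^ 2 ≤ Real.log (ST p a k z) / k ∧
    Real.log (ST p a k z) / k ≤ gmax p a z.1 + ‖z.2‖ ^ 2 + Real.log N / k := by
  obtain ⟨h1, h2⟩ := Sm_bounds hk p a z.1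
  have hS := Sm_pos (k := k) (c := fun i => Real.exp (-k * a i)) (fun i => Real.exp_pos _)
    (fun i => z.1 - p i)
  have hN : (0 : ℝ) < N := by exact_mod_cast NeZero.pos N
  have h3 : Real.log (ST p a k z) =
      Real.log (Sm (fun i => Real.exp (-k * a i)) k (fun i => z.1 - p i)) + k * ‖z.2‖ ^ 2 := by
    unfold ST
    rw [Real.log_mul hS.ne' (Real.exp_pos _).ne', Real.log_exp]
  have h4 := Real.log_le_log (Real.exp_pos _) h1
  have h5 := Real.log_le_log hS h2
  rw [Real.log_exp] at h4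
  rw [Real.log_mul hN.ne' (Real.exp_pos _).ne', Real.log_exp] at h5
  constructor
  · rw [le_div_iff₀ hk, h3]
    nlinarith
  · rw [div_le_iff₀ hk, h3]
    have h6 : (gmax p a z.1 + ‖z.2‖ ^ 2 + Real.log N / k) * k =
        k * gmax p a z.1 + k * ‖z.2‖ ^ 2 + Real.log N := by
      field_simp
    rw [h6]
    linarith

lemma Wk_ST (χ : ℝ → ℝ) {k τ : ℝ} (hτ : 0 < τ) (p : Fin N → E d) (a : Fin N → ℝ)
    (z : E d × E d) :
    Wk χ k (τ / ST p a k z) = χ (Real.log (ST p a k z) / k - Real.log τ / k) := by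
  have hS := ST_pos p a k z
  unfold Wk
  rw [if_pos (div_pos hτ hS), Real.log_div hτ.ne' hS.ne']
  congr 1
  ring

lemma tendsto_inv : Tendsto (fun n : ℕ => (((n : ℝ) + 1))⁻¹) atTop (𝓝 0) := by
  have := tendsto_one_div_add_atTop_nhds_zero_nat (𝕜 := ℝ)
  simpa [one_div] using this

/-- pointwise limit of the integrand -/
lemma tendsto_pt {χ : ℝ → ℝ} (hc : Continuous χ) {τ : ℝ} (hτ : 0 < τ) (p : Fin N → E d)
    (a : Fin N → ℝ) (z : E d × E d) :
    Tendsto (fun n : ℕ => Wk χ ((n : ℝ) + 1) (τ / ST p a ((n : ℝ) + 1) z)) atTop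
      (𝓝 (χ (gmax p a z.1 + ‖z.2‖ ^ 2))) := by
  have h1 : Tendsto (fun n : ℕ => Real.log (ST p a ((n : ℝ) + 1) z) / ((n : ℝ) + 1)) atTop
      (𝓝 (gmax p a z.1 + ‖z.2‖ ^ 2)) := by
    have hu : Tendsto (fun n : ℕ => gmax p a z.1 + ‖z.2‖ ^ 2 + Real.log N / ((n : ℝ) + 1)) atTop
        (𝓝 (gmax p a z.1 + ‖z.2‖ ^ 2)) := by
      have := (tendsto_inv.const_mul (Real.log N)).const_add (gmax p a z.1 + ‖z.2‖ ^ 2)
      simpa [div_eq_mul_inv] using this
    refine tendsto_of_tendsto_of_tendsto_of_le_of_le tendsto_const_nhds hu (fun n => ?_) fun n => ?_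
    · exact (log_ST (by positivity) p a z).1
    · exact (log_ST (by positivity) p a z).2
  have h2 : Tendsto (fun n : ℕ => Real.log τ / ((n : ℝ) + 1)) atTop (𝓝 0) := by
    have := tendsto_inv.const_mul (Real.log τ)
    simpa [div_eq_mul_inv] using this
  have h3 := h1.sub h2
  rw [sub_zero] at h3
  have h4 := (hc.tendsto _).comp h3
  refine h4.congr fun n => ?_
  rw [Wk_ST χ hτ]
  rfl

lemma Wk_zero_of_far {χ : ℝ → ℝ} {R : ℝ} (hR : ∀ t, R ≤ t → χ t = 0) {k τ : ℝ} (hk : 0 < k)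
    (hτ : 0 < τ) (hτ1 : τ ≤ 1) (p : Fin N → E d) (a : Fin N → ℝ) (z : E d × E d)
    (hz : R ≤ gmax p a z.1 + ‖z.2‖ ^ 2) : Wk χ k (τ / ST p a k z) = 0 := by
  rw [Wk_ST χ hτ]
  apply hR
  have h1 := (log_ST hk p a z).1
  have h2 : Real.log τ / k ≤ 0 := div_nonpos_of_nonpos_of_nonneg (Real.log_nonpos hτ.le hτ1) hk.le
  linarith

lemma le_of_sq {t c : ℝ} (h : t ^ 2 ≤ c) : t ≤ |c| + 1 := by
  have := le_abs_self c
  nlinarith [sq_nonneg (t - 1)]

/-- outside a ball `G + |y|²` is large -/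
lemma far (p : Fin N → E d) (a : Fin N → ℝ) (R : ℝ) (z : E d × E d)
    (hz : ‖p 0‖ + |R + a 0| + 1 < ‖z‖) : R ≤ gmax p a z.1 + ‖z.2‖ ^ 2 := by
  by_contra h
  push Not at h
  have h1 := le_gmax p a z.1 0
  have h2 : ‖z.1 - p 0‖ ^ 2 ≤ R + a 0 := by nlinarith [sq_nonneg ‖z.2‖]
  have h3 : ‖z.2‖ ^ 2 ≤ R + a 0 := by nlinarith [sq_nonneg ‖z.1 - p 0‖]
  have h4 := le_of_sq h2
  have h5 := le_of_sq h3
  have h6 : ‖z.1‖ ≤ ‖z.1 - p 0‖ + ‖p 0‖ := by
    have := norm_add_le (z.1 - p 0) (p 0)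
    rwa [sub_add_cancel] at this
  have h7 : ‖z‖ ≤ ‖p 0‖ + |R + a 0| + 1 := by
    rw [Prod.norm_def]
    apply max_le
    · linarith
    · linarith [norm_nonneg (p 0)]
  linarith

lemma Wk_le {χ : ℝ → ℝ} {C : ℝ} (hC0 : 0 ≤ C) (hC : ∀ t, ‖χ t‖ ≤ C) (k u : ℝ) :
    ‖Wk χ k u‖ ≤ C := by
  unfold Wk
  split_ifs
  · exact hC _
  · simpa using hC0

lemma tendsto_inner {χ : ℝ → ℝ} (hc : Continuous χ) {C : ℝ} (hC0 : 0 ≤ C) (hC : ∀ t, ‖χ t‖ ≤ C)
    (hs : HasCompactSupport χ) (p : Fin N → E d) (a : Fin N → ℝ) (z : E d × E d) :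
    Tendsto (fun n : ℕ => ∫ τ in (0 : ℝ)..1, Wk χ ((n : ℝ) + 1) (τ / ST p a ((n : ℝ) + 1) z)) atTop
      (𝓝 (χ (gmax p a z.1 + ‖z.2‖ ^ 2))) := by
  have h := intervalIntegral.tendsto_integral_filter_of_dominated_convergence (μ := volume)
    (a := 0) (b := 1) (l := atTop)
    (F := fun (n : ℕ) (τ : ℝ) => Wk χ ((n : ℝ) + 1) (τ / ST p a ((n : ℝ) + 1) z))
    (f := fun _ => χ (gmax p a z.1 + ‖z.2‖ ^ 2)) (fun _ => C) ?_ ?_ ?_ ?_
  · simpa using h
  · refine Eventually.of_forall fun n => Continuous.aestronglyMeasurable ?_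
    exact (Wk_continuous hc hs (by positivity)).comp (continuous_id.div_const _)
  · exact Eventually.of_forall fun n => Eventually.of_forall fun τ _ => Wk_le hC0 hC _ _
  · exact intervalIntegrable_const
  · refine Eventually.of_forall fun τ hτ => ?_
    rw [uIoc_of_le zero_le_one] at hτ
    exact tendsto_pt hc hτ.1 p a z

lemma tendsto_outer {χ : ℝ → ℝ} (hc : Continuous χ) (hs : HasCompactSupport χ) (p : Fin N → E d)
    (a : Fin N → ℝ) :
    Tendsto (fun n : ℕ => ∫ z : E d × E d, ∫ τ in (0 : ℝ)..1,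
        Wk χ ((n : ℝ) + 1) (τ / ST p a ((n : ℝ) + 1) z)) atTop
      (𝓝 (∫ z : E d × E d, χ (gmax p a z.1 + ‖z.2‖ ^ 2))) := by
  obtain ⟨R, -, hR⟩ := exists_bound hs
  obtain ⟨C, hC⟩ := hs.exists_bound_of_continuous hc
  have hC0 : 0 ≤ C := (norm_nonneg _).trans (hC 0)
  let M : ℝ := ‖p 0‖ + |R + a 0| + 1
  refine tendsto_integral_of_dominated_convergence
    (bound := (closedBall (0 : E d × E d) M).indicator fun _ => C) (fun n => ?_) ?_ (fun n => ?_) ?_
  · apply Continuous.aestronglyMeasurable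
    apply intervalIntegral.continuous_parametric_intervalIntegral_of_continuous'
    refine (Wk_continuous hc hs (by positivity)).comp ?_
    exact continuous_snd.div ((ST_continuous p a _).comp continuous_fst)
      fun z => (ST_pos p a _ _).ne'
  · refine IntegrableOn.integrable_indicator ?_ measurableSet_closedBall
    exact integrableOn_const (isCompact_closedBall _ _).measure_lt_top.ne enorm_ne_top
  · refine Eventually.of_forall fun z => ?_
    by_cases hz : z ∈ closedBall (0 : E d × E d) M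
    · rw [indicator_of_mem hz]
      have h1 := intervalIntegral.norm_integral_le_of_norm_le_const (a := (0 : ℝ)) (b := 1) (C := C)
        (f := fun τ => Wk χ ((n : ℝ) + 1) (τ / ST p a ((n : ℝ) + 1) z))
        (fun τ _ => Wk_le hC0 hC _ _)
      simpa using h1
    · rw [indicator_of_notMem hz]
      rw [mem_closedBall, dist_zero_right, not_le] at hz
      have h1 := intervalIntegral.norm_integral_le_of_norm_le_const (a := (0 : ℝ)) (b := 1) (C := 0)
        (f := fun τ => Wk χ ((n : ℝ) + 1) (τ / ST p a ((n : ℝ) + 1) z))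
        (fun τ hτ => by
          rw [uIoc_of_le zero_le_one] at hτ
          rw [Wk_zero_of_far hR (by positivity) hτ.1 hτ.2 p a z (far p a R z hz)]
          simp)
      simpa using h1
  · exact Eventually.of_forall fun z => tendsto_inner hc hC0 hC hs p a z

end

end Pool.Agent.Lib.MP_0c1c75_co.GPchi

namespace Pool.Agent.Lib.MP_0c1c75_co

open GPchi in
/-- Step 2: `k → ∞`. -/
theorem gpChiStmt (h : GPpolyStmt) : GPchiStmt := by
  intro d N hN p q hpq a χ hc hs h0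
  have : NeZero N := ⟨hN.ne'⟩
  refine le_of_tendsto_of_tendsto' (tendsto_outer hc hs p a) (tendsto_outer hc hs q a) fun n => ?_
  obtain ⟨R, -, hR⟩ := exists_bound hs
  exact h d N hN p q hpq (fun i => Real.exp (-((n : ℝ) + 1) * a i)) (fun i => Real.exp_pos _)
    ((n : ℝ) + 1) (by positivity) (Wk χ ((n : ℝ) + 1)) (Wk_continuous hc hs (by positivity))
    (fun u => by unfold Wk; split_ifs; exacts [h0 _, le_rfl])
    ⟨Real.exp (-(((n : ℝ) + 1) * R)), Real.exp_pos _,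
      fun u hu => Wk_zero (by positivity) hR u hu⟩

end Pool.Agent.Lib.MP_0c1c75_co
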