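import Pool.Agent.Lib.MP_0c1c75_co.Gauss
import Pool.Agent.Lib.MP_0c1c75_co.Spec4

/-!
MP_0c1c75_co: two intermediate steps for `GPlusStmt` of Spec4.lean (helper55).
-/

open MeasureTheory Set Metric

namespace Pool.Agent.Lib.MP_0c1c75_co

open Gauss in
/-- Step 1. `V = WithLp 2 (E d × E d)`, `A i = (p i, 0)`, `B i = (0, q i)` and the path `Pth A B t` as in
Gauss.lean. For integers `j ≥ 1` (`b = j`) `I_j(t) = ∫ Sm^{-j}` has the derivative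
`2 k j ∫ Tm = 2 k (1+j) ∫ (Tm - Um)` (`hasDerivAt_I`, and `∫ Tm = (1+j) ∫ Um`), and pointwise
`Tm - Um = Sm^{-j} D` with `D = (1/2) ∑ W_i W_j Sm^{-2} (-<P_i - P_j, v_i - v_j>) ≥ 0` independent of `j`
(proof of `Um_le_Tm`). Hence for real `w_j` with `W(u) = ∑_{j=1}^n w_j u^j ≥ 0` on
`[0, 1/∑ c_i]` (`Sm ≥ ∑ c_i`) the function `t ↦ ∑_j w_j/(1+j) I_j(t) = ∫_z ∫_0^1 W(τ / Sm) dτ` has the
derivative `2 k ∫ W(1/Sm) D ≥ 0`. At `t = 0` and `t = π/2` substitute `z = toLp (x, y)`: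
`Sm (z - A) = Sm (x - p) exp (k |y|^2)`. For general continuous `W ≥ 0`, zero on `[0,δ]`:
`W(u)/u` is continuous on `[0, u_max]`, approximate it by polynomials `R` with error `ε` (Weierstrass),
`u (R(u) + ε) ≥ 0` and `|u (R(u)+ε) - W(u)| ≤ 2 ε u`; the integrals of `τ/Sm` are finite. -/
def GPpolyStmt : Prop :=
  ∀ (d N : ℕ), 0 < N → ∀ (p q : Fin N → E d), Contr 1 p q → ∀ (c : Fin N → ℝ), (∀ i, 0 < c i) →
    ∀ k : ℝ, 0 < k → ∀ W : ℝ → ℝ, Continuous W → (∀ u, 0 ≤ W u) → (∃ δ > 0, ∀ u ≤ δ, W u = 0) →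
    ∫ z : E d × E d, ∫ τ in (0 : ℝ)..1,
        W (τ / (Sm c k (fun i => z.1 - p i) * Real.exp (k * ‖z.2‖ ^ 2))) ≤
      ∫ z : E d × E d, ∫ τ in (0 : ℝ)..1,
        W (τ / (Sm c k (fun i => z.1 - q i) * Real.exp (k * ‖z.2‖ ^ 2)))

/-- Step 2, from `GPpolyStmt` with `c_i = exp (-k a_i)` and `W(u) = χ(-log u / k)` for `u > 0` (`0` for
`u ≤ 0`), `k → ∞`: `∫_0^1 W(τ/S) dτ = ∫_0^1 χ((log S - log τ)/k) dτ`, and `log S / k → G + |y|^2` by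
`Sm_bounds` (`exp (k G) ≤ Sm ≤ N exp (k G)`). Dominated convergence: everything vanishes outside a
fixed ball because `(log S - log τ)/k ≥ G_p(x) + |y|^2`. -/
def GPchiStmt : Prop :=
  ∀ (d N : ℕ), 0 < N → ∀ (p q : Fin N → E d), Contr 1 p q → ∀ (a : Fin N → ℝ) (χ : ℝ → ℝ),
    Continuous χ → HasCompactSupport χ → (∀ t, 0 ≤ χ t) →
    ∫ z : E d × E d, χ (gmax p a z.1 + ‖z.2‖ ^ 2) ≤ ∫ z : E d × E d, χ (gmax q a z.1 + ‖z.2‖ ^ 2)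

end Pool.Agent.Lib.MP_0c1c75_co
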