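import Mathlib
import Pool.Agent.Lib.MP_0c1c75_co.Spec5
import Pool.Agent.Lib.MP_0c1c75_co.Layer

/-! The comparison of the fractional integrals of order `d/2 - 1`, from the comparison of the
integrals of `χ (G + |y|^2)`. -/

set_option autoImplicit false

open MeasureTheory Set Metric Filter
open scoped Topology ENNReal

namespace Pool.Agent.Lib.MP_0c1c75_co.GPlus

variable {d N : ℕ}

/-- the power of the positive part -/
noncomputable def g (β u : ℝ) : ℝ := if 0 < u then u ^ β else 0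

lemma g_nonneg (β u : ℝ) : 0 ≤ g β u := by
  unfold g
  split_ifs with h
  · positivity
  · exact le_rfl

lemma g_mono {β : ℝ} (hβ : 0 ≤ β) : Monotone (g β) := by
  intro u v huv
  unfold g
  split_ifs with h1 h2 h2
  · exact Real.rpow_le_rpow h1.le huv hβ
  · exact absurd (h1.trans_le huv) h2
  · positivity
  · exact le_rfl

lemma g_tendsto (β u : ℝ) :
    Tendsto (fun n : ℕ => g β (u - 1 / ((n : ℝ) + 1))) atTop (𝓝 (g β u)) := by
  have h0 : Tendsto (fun n : ℕ => u - 1 / ((n : ℝ) + 1)) atTop (𝓝 u) := by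
    have := (tendsto_const_nhds (x := u)).sub tendsto_one_div_add_atTop_nhds_zero_nat
    simpa using this
  by_cases hu : 0 < u
  · have h1 : g β u = u ^ β := if_pos hu
    rw [h1]
    have h2 : Tendsto (fun n : ℕ => (u - 1 / ((n : ℝ) + 1)) ^ β) atTop (𝓝 (u ^ β)) :=
      (Real.continuousAt_rpow_const u β (Or.inl hu.ne')).tendsto.comp h0
    refine h2.congr' ?_
    filter_upwards [h0.eventually (lt_mem_nhds hu)] with n hn
    exact (if_pos hn).symm
  · have h1 : ∀ n : ℕ, g β (u - 1 / ((n : ℝ) + 1)) = 0 := by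
      intro n
      have : (0 : ℝ) < 1 / ((n : ℝ) + 1) := by positivity
      exact if_neg (by linarith)
    have h2 : g β u = 0 := if_neg hu
    rw [h2]
    simp only [h1]
    exact tendsto_const_nhds

lemma bern {x y α : ℝ} (hx : 0 < x) (hy : 0 ≤ y) (hα : 1 ≤ α) :
    x ^ α + α * x ^ (α - 1) * (y - x) ≤ y ^ α := by
  have h1 := one_add_mul_self_le_rpow_one_add (s := y / x - 1)
    (by have : 0 ≤ y / x := by positivity
        linarith) hα
  rw [add_sub_cancel, Real.div_rpow hy hx.le] at h1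
  have hxα : 0 < x ^ α := Real.rpow_pos_of_pos hx α
  have h2 : x ^ α * (1 + α * (y / x - 1)) ≤ y ^ α := by
    calc x ^ α * (1 + α * (y / x - 1)) ≤ x ^ α * (y ^ α / x ^ α) :=
          mul_le_mul_of_nonneg_left h1 hxα.le
      _ = y ^ α := by field_simp
  have h3 : x ^ α = x ^ (α - 1) * x := by
    rw [Real.rpow_sub_one hx.ne']
    field_simp
  calc x ^ α + α * x ^ (α - 1) * (y - x) = x ^ α * (1 + α * (y / x - 1)) := by
        rw [h3]
        field_simp
    _ ≤ y ^ α := h2

lemma sqrt_pow {u : ℝ} (hu : 0 ≤ u) (d : ℕ) : Real.sqrt u ^ d = u ^ ((d : ℝ) / 2) := by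
  rw [Real.sqrt_eq_rpow, ← Real.rpow_natCast, ← Real.rpow_mul hu]
  congr 1
  ring

lemma diff_le (hd : 2 ≤ d) {h : ℝ} (hh : 0 < h) (u : ℝ) :
    Real.sqrt u ^ d - Real.sqrt (u - h) ^ d ≤ h * ((d : ℝ) / 2) * g ((d : ℝ) / 2 - 1) u := by
  have hd' : (1 : ℝ) ≤ (d : ℝ) / 2 := by
    have : (2 : ℝ) ≤ d := by exact_mod_cast hd
    linarith
  have hd0 : d ≠ 0 := by omega
  by_cases hu : 0 < u
  · have h1 : g ((d : ℝ) / 2 - 1) u = u ^ ((d : ℝ) / 2 - 1) := if_pos hu
    rw [h1, sqrt_pow hu.le]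
    by_cases hv : 0 ≤ u - h
    · rw [sqrt_pow hv]
      have := bern hu hv hd'
      linarith
    · rw [Real.sqrt_eq_zero_of_nonpos (by linarith), zero_pow hd0]
      have := bern hu le_rfl hd'
      rw [Real.zero_rpow (by linarith)] at this
      have h2 : 0 ≤ (d : ℝ) / 2 * u ^ ((d : ℝ) / 2 - 1) := by positivity
      nlinarith
  · rw [Real.sqrt_eq_zero_of_nonpos (by linarith), Real.sqrt_eq_zero_of_nonpos (by linarith),
      zero_pow hd0, sub_self]
    have := g_nonneg ((d : ℝ) / 2 - 1) u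
    positivity

lemma le_diff (hd : 2 ≤ d) {h : ℝ} (hh : 0 < h) (u : ℝ) :
    h * ((d : ℝ) / 2) * g ((d : ℝ) / 2 - 1) (u - h) ≤ Real.sqrt u ^ d - Real.sqrt (u - h) ^ d := by
  have hd' : (1 : ℝ) ≤ (d : ℝ) / 2 := by
    have : (2 : ℝ) ≤ d := by exact_mod_cast hd
    linarith
  have hd0 : d ≠ 0 := by omega
  by_cases hu : 0 < u - h
  · have h1 : g ((d : ℝ) / 2 - 1) (u - h) = (u - h) ^ ((d : ℝ) / 2 - 1) := if_pos hu
    rw [h1, sqrt_pow hu.le, sqrt_pow (by linarith)]
    have := bern hu (y := u) (by linarith) hd'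
    linarith
  · have h1 : g ((d : ℝ) / 2 - 1) (u - h) = 0 := if_neg hu
    rw [h1, mul_zero, Real.sqrt_eq_zero_of_nonpos (not_lt.mp hu), zero_pow hd0, sub_zero]
    positivity

lemma vol_ball (hd : 2 ≤ d) {r : ℝ} (hr : 0 ≤ r) :
    volume (ball (0 : E d) r) = ENNReal.ofReal (r ^ d) * volume (ball (0 : E d) 1) := by
  have : Nonempty (Fin d) := ⟨⟨0, by omega⟩⟩
  rw [Measure.addHaar_ball _ _ hr, finrank_euclideanSpace_fin]

lemma vol_closedBall {r : ℝ} (hr : 0 ≤ r) :
    volume (closedBall (0 : E d) r) = ENNReal.ofReal (r ^ d) * volume (ball (0 : E d) 1) := by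
  rw [Measure.addHaar_closedBall _ _ hr, finrank_euclideanSpace_fin]

lemma vol_le (hd : 2 ≤ d) {u v : ℝ} (hvu : v ≤ u) :
    volume {y : E d | v < ‖y‖ ^ 2 ∧ ‖y‖ ^ 2 < u} ≤
      ENNReal.ofReal (Real.sqrt u ^ d - Real.sqrt v ^ d) * volume (ball (0 : E d) 1) := by
  have hsub : {y : E d | v < ‖y‖ ^ 2 ∧ ‖y‖ ^ 2 < u} ⊆
      ball (0 : E d) (Real.sqrt u) \ ball (0 : E d) (Real.sqrt v) := by
    rintro y ⟨h1, h2⟩
    refine ⟨?_, fun h3 => ?_⟩
    · rw [mem_ball_zero_iff]
      exact Real.lt_sqrt_of_sq_lt h2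
    · rw [mem_ball_zero_iff] at h3
      have := (Real.lt_sqrt (norm_nonneg y)).mp h3
      linarith
  refine (measure_mono hsub).trans ?_
  rw [measure_sdiff (ball_subset_ball (Real.sqrt_le_sqrt hvu)) measurableSet_ball.nullMeasurableSet
    measure_ball_lt_top.ne, vol_ball hd (Real.sqrt_nonneg _), vol_ball hd (Real.sqrt_nonneg _),
    ENNReal.ofReal_sub _ (by positivity), ENNReal.sub_mul fun _ _ => measure_ball_lt_top.ne]

lemma le_vol (hd : 2 ≤ d) {u v : ℝ} :
    ENNReal.ofReal (Real.sqrt u ^ d - Real.sqrt v ^ d) * volume (ball (0 : E d) 1) ≤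
      volume {y : E d | v < ‖y‖ ^ 2 ∧ ‖y‖ ^ 2 < u} := by
  have hsub : ball (0 : E d) (Real.sqrt u) \ closedBall (0 : E d) (Real.sqrt v) ⊆
      {y : E d | v < ‖y‖ ^ 2 ∧ ‖y‖ ^ 2 < u} := by
    rintro y ⟨h1, h2⟩
    rw [mem_ball_zero_iff] at h1
    rw [mem_closedBall_zero_iff, not_le] at h2
    refine ⟨?_, (Real.lt_sqrt (norm_nonneg y)).mp h1⟩
    exact (Real.sqrt_lt' ((Real.sqrt_nonneg v).trans_lt h2)).mp h2
  refine le_trans ?_ (measure_mono hsub)
  refine le_trans ?_ le_measure_sdiff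
  rw [vol_ball hd (Real.sqrt_nonneg _), vol_closedBall (Real.sqrt_nonneg _),
    ENNReal.ofReal_sub _ (by positivity), ENNReal.sub_mul fun _ _ => measure_ball_lt_top.ne]

/-- the function on the product space -/
noncomputable def F (p : Fin N → E d) (a : Fin N → ℝ) (z : E d × E d) : ℝ :=
  gmax p a z.1 + ‖z.2‖ ^ 2

lemma continuous_F (hN : 0 < N) (p : Fin N → E d) (a : Fin N → ℝ) : Continuous (F p a) := by
  have := Layer.gmax_cont hN p a
  unfold F
  fun_prop

lemma compact_F (hN : 0 < N) (p : Fin N → E d) (a : Fin N → ℝ) (χ : ℝ → ℝ) {b : ℝ}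
    (hχ : ∀ t, b ≤ t → χ t = 0) : HasCompactSupport (fun z => χ (F p a z)) := by
  set R := Real.sqrt (b + a ⟨0, hN⟩) with hR
  refine HasCompactSupport.intro
    ((isCompact_closedBall (p ⟨0, hN⟩) R).prod (isCompact_closedBall (0 : E d) R)) fun z hz => ?_
  apply hχ
  by_contra hcon
  push Not at hcon
  apply hz
  have h1 := Layer.le_gmax p a z.1 ⟨0, hN⟩
  have h2 : ‖z.1 - p ⟨0, hN⟩‖ ^ 2 + ‖z.2‖ ^ 2 ≤ b + a ⟨0, hN⟩ := by
    unfold F at hcon
    linarith
  refine Set.mem_prod.mpr ⟨?_, ?_⟩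
  · rw [mem_closedBall, dist_eq_norm]
    apply Real.le_sqrt_of_sq_le
    nlinarith [sq_nonneg ‖z.2‖]
  · rw [mem_closedBall_zero_iff]
    apply Real.le_sqrt_of_sq_le
    nlinarith [sq_nonneg ‖z.1 - p ⟨0, hN⟩‖]

lemma lint_le (H : GPchiStmt) (hN : 0 < N) (p q : Fin N → E d) (hpq : Contr 1 p q)
    (a : Fin N → ℝ) {χ : ℝ → ℝ} (hc : Continuous χ) (hs : HasCompactSupport χ)
    (h0 : ∀ t, 0 ≤ χ t) {b : ℝ} (hb : ∀ t, b ≤ t → χ t = 0) :
    ∫⁻ z, ENNReal.ofReal (χ (F p a z)) ≤ ∫⁻ z, ENNReal.ofReal (χ (F q a z)) := by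
  have hi : ∀ r : Fin N → E d, Integrable (fun z => χ (F r a z)) := fun r =>
    (hc.comp (continuous_F hN r a)).integrable_of_hasCompactSupport (compact_F hN r a χ hb)
  rw [← ofReal_integral_eq_lintegral_ofReal (hi p) (Eventually.of_forall fun z => h0 _),
    ← ofReal_integral_eq_lintegral_ofReal (hi q) (Eventually.of_forall fun z => h0 _)]
  exact ENNReal.ofReal_le_ofReal (H d N hN p q hpq a χ hc hs h0)

/-- trapezoidal functions -/
noncomputable def tent (a b : ℝ) (n : ℕ) (t : ℝ) : ℝ := min 1 (n * max 0 (min (t - a) (b - t)))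

lemma tent_nonneg (a b : ℝ) (n : ℕ) (t : ℝ) : 0 ≤ tent a b n t :=
  le_min zero_le_one (mul_nonneg (Nat.cast_nonneg n) (le_max_left _ _))

lemma tent_cont (a b : ℝ) (n : ℕ) : Continuous (tent a b n) := by
  unfold tent
  fun_prop

lemma tent_zero {a b t : ℝ} (h : t ∉ Ioo a b) (n : ℕ) : tent a b n t = 0 := by
  have h1 : min (t - a) (b - t) ≤ 0 := by
    by_contra hcon
    push Not at hcon
    rw [lt_min_iff] at hcon
    exact h ⟨by linarith [hcon.1], by linarith [hcon.2]⟩
  unfold tent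
  rw [max_eq_left h1, mul_zero, min_eq_right zero_le_one]

lemma tent_mono (a b t : ℝ) : Monotone (fun n => tent a b n t) := by
  intro m n hmn
  have h : (m : ℝ) ≤ n := by exact_mod_cast hmn
  exact min_le_min le_rfl (mul_le_mul_of_nonneg_right h (le_max_left _ _))

lemma tent_tendsto (a b t : ℝ) :
    Tendsto (fun n => ENNReal.ofReal (tent a b n t)) atTop
      (𝓝 ((Ioo a b).indicator (fun _ => (1 : ℝ≥0∞)) t)) := by
  by_cases h : t ∈ Ioo a b
  · rw [indicator_of_mem h]
    have hc : 0 < min (t - a) (b - t) := lt_min (by linarith [h.1]) (by linarith [h.2])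
    refine tendsto_const_nhds.congr' ?_
    obtain ⟨m, hm⟩ := exists_nat_ge (1 / min (t - a) (b - t))
    filter_upwards [eventually_ge_atTop m] with n hn
    have h1 : 1 / min (t - a) (b - t) ≤ n := hm.trans (by exact_mod_cast hn)
    rw [div_le_iff₀ hc] at h1
    unfold tent
    rw [max_eq_right hc.le, min_eq_left h1, ENNReal.ofReal_one]
  · rw [indicator_of_notMem h]
    simp only [tent_zero h, ENNReal.ofReal_zero]
    exact tendsto_const_nhds

lemma tent_supp (a b : ℝ) (n : ℕ) : HasCompactSupport (tent a b n) :=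
  HasCompactSupport.intro (isCompact_Icc (a := a) (b := b)) fun _ ht =>
    tent_zero (fun h => ht (Ioo_subset_Icc_self h)) n

lemma meas_le (H : GPchiStmt) (hN : 0 < N) (p q : Fin N → E d) (hpq : Contr 1 p q)
    (a : Fin N → ℝ) (u v : ℝ) :
    volume (F p a ⁻¹' Ioo u v) ≤ volume (F q a ⁻¹' Ioo u v) := by
  have hlim : ∀ r : Fin N → E d, Tendsto (fun n => ∫⁻ z, ENNReal.ofReal (tent u v n (F r a z)))
      atTop (𝓝 (volume (F r a ⁻¹' Ioo u v))) := by
    intro r
    have hm : MeasurableSet (F r a ⁻¹' Ioo u v) :=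
      (continuous_F hN r a).measurable measurableSet_Ioo
    have h1 := lintegral_tendsto_of_tendsto_of_monotone (μ := (volume : Measure (E d × E d)))
      (f := fun n z => ENNReal.ofReal (tent u v n (F r a z)))
      (F := (F r a ⁻¹' Ioo u v).indicator (fun _ => (1 : ℝ≥0∞)))
      (fun n => ((tent_cont u v n).comp (continuous_F hN r a)).measurable.ennreal_ofReal.aemeasurable)
      (Eventually.of_forall fun z m n hmn =>
        ENNReal.ofReal_le_ofReal (tent_mono u v (F r a z) hmn))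
      (Eventually.of_forall fun z => tent_tendsto u v (F r a z))
    rwa [lintegral_indicator_const hm, one_mul] at h1
  refine le_of_tendsto_of_tendsto' (hlim p) (hlim q) fun n => ?_
  exact lint_le H hN p q hpq a (tent_cont u v n) (tent_supp u v n) (tent_nonneg u v n)
    (b := v) (fun t ht => tent_zero (fun h => absurd h.2 (not_lt.mpr ht)) n)

lemma slice (hN : 0 < N) (p : Fin N → E d) (a : Fin N → ℝ) (u v : ℝ) :
    volume (F p a ⁻¹' Ioo u v) =
      ∫⁻ x, volume {y : E d | u - gmax p a x < ‖y‖ ^ 2 ∧ ‖y‖ ^ 2 < v - gmax p a x} := by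
  rw [Measure.volume_eq_prod, Measure.prod_apply ((continuous_F hN p a).measurable measurableSet_Ioo)]
  refine lintegral_congr fun x => ?_
  congr 1
  ext y
  simp only [mem_preimage, F, mem_Ioo, mem_ofPred_eq]
  constructor
  · rintro ⟨h1, h2⟩
    exact ⟨by linarith, by linarith⟩
  · rintro ⟨h1, h2⟩
    exact ⟨by linarith, by linarith⟩

/-- the fractional integral -/
noncomputable def I (p : Fin N → E d) (a : Fin N → ℝ) (s : ℝ) : ℝ≥0∞ :=
  ∫⁻ x, ENNReal.ofReal (g ((d : ℝ) / 2 - 1) (s - gmax p a x))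

lemma step (H : GPchiStmt) (hd : 2 ≤ d) (hN : 0 < N) (p q : Fin N → E d) (hpq : Contr 1 p q)
    (a : Fin N → ℝ) (s : ℝ) {h : ℝ} (hh : 0 < h) : I p a (s - h) ≤ I q a s := by
  have hω0 : volume (ball (0 : E d) 1) ≠ 0 := (measure_ball_pos _ _ one_pos).ne'
  have hω1 : volume (ball (0 : E d) 1) ≠ ⊤ := measure_ball_lt_top.ne
  have hd' : (0 : ℝ) < (d : ℝ) / 2 := by
    have : (2 : ℝ) ≤ d := by exact_mod_cast hd
    linarith
  have hc0 : ENNReal.ofReal (h * ((d : ℝ) / 2)) ≠ 0 := by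
    rw [Ne, ENNReal.ofReal_eq_zero, not_le]
    positivity
  have h1 : ENNReal.ofReal (h * ((d : ℝ) / 2)) * volume (ball (0 : E d) 1) * I p a (s - h) ≤
      volume (F p a ⁻¹' Ioo (s - h) s) := by
    rw [slice hN, I, ← lintegral_const_mul' _ _ (ENNReal.mul_ne_top ENNReal.ofReal_ne_top hω1)]
    refine lintegral_mono fun x => ?_
    refine le_trans ?_ (le_vol hd)
    rw [mul_right_comm, ← ENNReal.ofReal_mul (by positivity)]
    refine mul_le_mul_left (ENNReal.ofReal_le_ofReal ?_) _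
    have := le_diff hd hh (s - gmax p a x)
    rwa [sub_right_comm] at this
  have h2 : volume (F q a ⁻¹' Ioo (s - h) s) ≤
      ENNReal.ofReal (h * ((d : ℝ) / 2)) * volume (ball (0 : E d) 1) * I q a s := by
    rw [slice hN, I, ← lintegral_const_mul' _ _ (ENNReal.mul_ne_top ENNReal.ofReal_ne_top hω1)]
    refine lintegral_mono fun x => ?_
    refine (vol_le hd (by linarith)).trans ?_
    rw [mul_right_comm, ← ENNReal.ofReal_mul (by positivity)]
    refine mul_le_mul_left (ENNReal.ofReal_le_ofReal ?_) _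
    have := diff_le hd hh (s - gmax q a x)
    rwa [sub_right_comm] at this
  have h3 := h1.trans ((meas_le H hN p q hpq a (s - h) s).trans h2)
  exact (ENNReal.mul_le_mul_iff_right (mul_ne_zero hc0 hω0)
    (ENNReal.mul_ne_top ENNReal.ofReal_ne_top hω1)).mp h3

lemma I_le (H : GPchiStmt) (hd : 2 ≤ d) (hN : 0 < N) (p q : Fin N → E d) (hpq : Contr 1 p q)
    (a : Fin N → ℝ) (s : ℝ) : I p a s ≤ I q a s := by
  have hβ : (0 : ℝ) ≤ (d : ℝ) / 2 - 1 := by
    have : (2 : ℝ) ≤ d := by exact_mod_cast hd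
    linarith
  have hlim : Tendsto (fun n : ℕ => I p a (s - 1 / ((n : ℝ) + 1))) atTop (𝓝 (I p a s)) := by
    refine lintegral_tendsto_of_tendsto_of_monotone (fun n => ?_) ?_ ?_
    · have h1 : Measurable (g ((d : ℝ) / 2 - 1)) := (g_mono hβ).measurable
      have h2 := (Layer.gmax_cont hN p a).measurable
      exact (h1.comp (measurable_const.sub h2)).ennreal_ofReal.aemeasurable
    · refine Eventually.of_forall fun x m n hmn => ?_
      refine ENNReal.ofReal_le_ofReal (g_mono hβ ?_)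
      have : (m : ℝ) ≤ n := by exact_mod_cast hmn
      have h1 : 1 / ((n : ℝ) + 1) ≤ 1 / ((m : ℝ) + 1) := by gcongr
      linarith
    · refine Eventually.of_forall fun x => ?_
      have h1 := ENNReal.tendsto_ofReal (g_tendsto ((d : ℝ) / 2 - 1) (s - gmax p a x))
      refine h1.congr fun n => ?_
      rw [sub_right_comm]
  refine le_of_tendsto' hlim fun n => ?_
  exact step H hd hN p q hpq a s (by positivity)

lemma integrableOn (hd : 2 ≤ d) (hN : 0 < N) (p : Fin N → E d) (a : Fin N → ℝ) (s : ℝ) :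
    IntegrableOn (fun x => (s - gmax p a x) ^ ((d : ℝ) / 2 - 1)) {x | gmax p a x < s} := by
  have hβ : (0 : ℝ) ≤ (d : ℝ) / 2 - 1 := by
    have : (2 : ℝ) ≤ d := by exact_mod_cast hd
    linarith
  have hcont := Layer.gmax_cont hN p a
  have hm : MeasurableSet {x | gmax p a x < s} := measurableSet_lt hcont.measurable measurable_const
  refine Measure.integrableOn_of_bounded (M := (s + a ⟨0, hN⟩) ^ ((d : ℝ) / 2 - 1)) ?_ ?_ ?_
  · refine ((measure_mono ?_).trans_lt (Layer.vol_lt_top hN p a s)).ne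
    intro x hx
    exact (show gmax p a x < s from hx).le
  · exact ((measurable_const.sub hcont.measurable).pow_const _).aestronglyMeasurable
  · refine (ae_restrict_iff' hm).mpr (Eventually.of_forall fun x hx => ?_)
    have h1 : 0 < s - gmax p a x := sub_pos.mpr hx
    rw [Real.norm_of_nonneg (by positivity)]
    refine Real.rpow_le_rpow h1.le ?_ hβ
    have h2 := Layer.le_gmax p a x ⟨0, hN⟩
    have h3 : 0 ≤ ‖x - p ⟨0, hN⟩‖ ^ 2 := by positivity
    linarith

lemma integral_eq (hN : 0 < N) (p : Fin N → E d) (a : Fin N → ℝ) (s : ℝ) :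
    ∫ x in {x | gmax p a x < s}, (s - gmax p a x) ^ ((d : ℝ) / 2 - 1) = (I p a s).toReal := by
  have hcont := Layer.gmax_cont hN p a
  have hm : MeasurableSet {x | gmax p a x < s} := measurableSet_lt hcont.measurable measurable_const
  rw [integral_eq_lintegral_of_nonneg_ae]
  · congr 1
    rw [I, ← lintegral_indicator hm]
    refine lintegral_congr fun x => ?_
    by_cases hx : gmax p a x < s
    · rw [indicator_of_mem (by exact hx)]
      have : g ((d : ℝ) / 2 - 1) (s - gmax p a x) = (s - gmax p a x) ^ ((d : ℝ) / 2 - 1) :=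
        if_pos (sub_pos.mpr hx)
      rw [this]
    · rw [indicator_of_notMem (by exact hx)]
      have : g ((d : ℝ) / 2 - 1) (s - gmax p a x) = 0 :=
        if_neg (by rw [sub_pos]; exact hx)
      rw [this, ENNReal.ofReal_zero]
  · refine (ae_restrict_iff' hm).mpr (Eventually.of_forall fun x hx => ?_)
    have h1 : 0 < s - gmax p a x := sub_pos.mpr hx
    exact (Real.rpow_pos_of_pos h1 _).le
  · exact ((measurable_const.sub hcont.measurable).pow_const _).aestronglyMeasurable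

end Pool.Agent.Lib.MP_0c1c75_co.GPlus

namespace Pool.Agent.Lib.MP_0c1c75_co

theorem gPlusStmt (h : GPchiStmt) : GPlusStmt := by
  intro d N hd hN p q hpq a s
  refine ⟨GPlus.integrableOn hd hN p a s, ?_⟩
  rw [GPlus.integral_eq hN, GPlus.integral_eq hN]
  refine ENNReal.toReal_mono ?_ (GPlus.I_le h hd hN p q hpq a s)
  have h1 := (GPlus.integrableOn hd hN q a s).lintegral_lt_top
  have hcont := Layer.gmax_cont hN q a
  have hm : MeasurableSet {x | gmax q a x < s} := measurableSet_lt hcont.measurable measurable_const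
  refine ne_of_lt ?_
  refine lt_of_eq_of_lt ?_ h1
  rw [GPlus.I, ← lintegral_indicator hm]
  refine lintegral_congr fun x => ?_
  by_cases hx : gmax q a x < s
  · rw [indicator_of_mem (by exact hx)]
    have : GPlus.g ((d : ℝ) / 2 - 1) (s - gmax q a x) = (s - gmax q a x) ^ ((d : ℝ) / 2 - 1) :=
      if_pos (sub_pos.mpr hx)
    rw [this]
  · rw [indicator_of_notMem (by exact hx)]
    have : GPlus.g ((d : ℝ) / 2 - 1) (s - gmax q a x) = 0 :=
      if_neg (by rw [sub_pos]; exact hx)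
    rw [this, ENNReal.ofReal_zero]

end Pool.Agent.Lib.MP_0c1c75_co
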