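import Pool.Agent.Lib.MP_0c1c75_co.Spec5

/-!
MP_0c1c75_co, module GPpoly: signed combinations of powers along the path, Weierstrass approximation.
-/

open MeasureTheory Set Metric

namespace Pool.Agent.Lib.MP_0c1c75_co.GPpoly

open Pool.Agent.Lib.MP_0c1c75_co.Gauss

section general

variable {V : Type*} [NormedAddCommGroup V] [InnerProductSpace ℝ V] {ι : Type*} [Fintype ι]

/-- the common factor of `Tm - Um` -/
noncomputable def Dm (c : ι → ℝ) (k : ℝ) (P v : ι → V) (x : V) : ℝ :=
  (1 / 2) * ∑ i, ∑ j, Wm c k (fun i => x - P i) i * Wm c k (fun i => x - P i) j *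
    Sm c k (fun i => x - P i) ^ (-2 : ℝ) * -inner ℝ (P i - P j) (v i - v j)

variable {c : ι → ℝ} {k b : ℝ}

lemma Dm_nonneg [Nonempty ι] (hc : ∀ i, 0 < c i) (P v : ι → V) (x : V)
    (h : ∀ i j, inner ℝ (P i - P j) (v i - v j) ≤ 0) : 0 ≤ Dm c k P v x := by
  unfold Dm
  refine mul_nonneg (by norm_num) (Finset.sum_nonneg fun i _ => Finset.sum_nonneg fun j _ => ?_)
  have hS := Sm_pos (k := k) hc (fun i => x - P i)
  have h5 := Wm_pos (k := k) hc (fun i => x - P i) i
  have h6 := Wm_pos (k := k) hc (fun i => x - P i) j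
  have h7 : 0 < Sm c k (fun i => x - P i) ^ (-2 : ℝ) := Real.rpow_pos_of_pos hS _
  have h9 : 0 ≤ -inner ℝ (P i - P j) (v i - v j) := by linarith [h i j]
  positivity

lemma Tm_sub_Um [Nonempty ι] (hc : ∀ i, 0 < c i) (P v : ι → V) (x : V) :
    Tm c k b (fun i => x - P i) v - Um c k b (fun i => x - P i) v =
      Sm c k (fun i => x - P i) ^ (-b) * Dm c k P v x := by
  set y : ι → V := fun i => x - P i with hy
  have hS := Sm_pos (k := k) hc y
  have hT : Tm c k b y v = ∑ i, ∑ j, Wm c k y i * Wm c k y j * Sm c k y ^ (-b - 2) *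
      inner ℝ (y i) (v i) := by
    unfold Tm
    refine Finset.sum_congr rfl fun i _ => ?_
    have h1 : Sm c k y ^ (-b - 1) = Sm c k y ^ (-b - 2) * ∑ j, Wm c k y j := by
      have : Sm c k y ^ (-b - 1) = Sm c k y ^ (-b - 2) * Sm c k y := by
        rw [← Real.rpow_add_one hS.ne']
        congr 1
        ring
      rw [this]
      rfl
    rw [h1, Finset.mul_sum, Finset.mul_sum, Finset.sum_mul]
    refine Finset.sum_congr rfl fun j _ => ?_
    ring
  have hd : Tm c k b y v - Um c k b y v = ∑ i, ∑ j, Wm c k y i * Wm c k y j *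
      Sm c k y ^ (-b - 2) * inner ℝ (y i - y j) (v i) := by
    rw [hT]
    unfold Um
    rw [← Finset.sum_sub_distrib]
    refine Finset.sum_congr rfl fun i _ => ?_
    rw [← Finset.sum_sub_distrib]
    refine Finset.sum_congr rfl fun j _ => ?_
    rw [inner_sub_left (y i) (y j)]
    ring
  have hd2 : 2 * (Tm c k b y v - Um c k b y v) = ∑ i, ∑ j, Wm c k y i * Wm c k y j *
      Sm c k y ^ (-b - 2) * -inner ℝ (P i - P j) (v i - v j) := by
    have h3 : Tm c k b y v - Um c k b y v = ∑ i, ∑ j, Wm c k y i * Wm c k y j *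
      Sm c k y ^ (-b - 2) * inner ℝ (y j - y i) (v j) := by
      rw [hd, Finset.sum_comm]
      refine Finset.sum_congr rfl fun i _ => Finset.sum_congr rfl fun j _ => ?_
      ring
    rw [two_mul]
    nth_rewrite 1 [hd]
    rw [h3, ← Finset.sum_add_distrib]
    refine Finset.sum_congr rfl fun i _ => ?_
    rw [← Finset.sum_add_distrib]
    refine Finset.sum_congr rfl fun j _ => ?_
    have e1 : y i - y j = -(P i - P j) := by simp [hy]
    have e2 : y j - y i = P i - P j := by simp [hy]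
    rw [e1, e2, inner_neg_left, inner_sub_right]
    ring
  have h4 : Sm c k y ^ (-b - 2) = Sm c k y ^ (-b) * Sm c k y ^ (-2 : ℝ) := by
    rw [← Real.rpow_add hS]
    congr 1
  have h5 : Sm c k y ^ (-b) * Dm c k P v x = (1 / 2) * ∑ i, ∑ j, Wm c k y i * Wm c k y j *
      Sm c k y ^ (-b - 2) * -inner ℝ (P i - P j) (v i - v j) := by
    unfold Dm
    rw [← mul_assoc, mul_comm _ (1 / 2 : ℝ), mul_assoc]
    congr 1
    rw [Finset.mul_sum]
    refine Finset.sum_congr rfl fun i _ => ?_
    rw [Finset.mul_sum]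
    refine Finset.sum_congr rfl fun j _ => ?_
    rw [h4]
    ring
  rw [h5, ← hd2]
  ring

omit [InnerProductSpace ℝ V] in
lemma sum_le_Sm (hc : ∀ i, 0 < c i) (hk : 0 < k) (y : ι → V) : ∑ i, c i ≤ Sm c k y := by
  unfold Sm Wm
  refine Finset.sum_le_sum fun i _ => ?_
  have h1 : (1 : ℝ) ≤ Real.exp (k * ‖y i‖ ^ 2) := Real.one_le_exp (by positivity)
  nlinarith [hc i]

end general

/-- the value `∫_0^1 u R(u) dτ`, `u = τ / s` -/
noncomputable def PS (R : Polynomial ℝ) (s : ℝ) : ℝ :=
  ∑ i ∈ Finset.range (R.natDegree + 1), R.coeff i / ((i : ℝ) + 2) * s ^ (-((i : ℝ) + 1))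

lemma integral_eq_PS (R : Polynomial ℝ) {s : ℝ} (hs : 0 < s) :
    ∫ τ in (0 : ℝ)..1, (τ / s) * R.eval (τ / s) = PS R s := by
  have h1 : ∀ τ : ℝ, (τ / s) * R.eval (τ / s) =
      ∑ i ∈ Finset.range (R.natDegree + 1), (R.coeff i * s ^ (-((i : ℝ) + 1))) * τ ^ (i + 1) := by
    intro τ
    rw [Polynomial.eval_eq_sum_range, Finset.mul_sum]
    refine Finset.sum_congr rfl fun i _ => ?_
    have h2 : s ^ (-((i : ℝ) + 1)) = (s ^ (i + 1))⁻¹ := by
      rw [Real.rpow_neg hs.le]
      congr 1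
      exact_mod_cast Real.rpow_natCast s (i + 1)
    rw [h2, div_pow, pow_succ, pow_succ]
    field_simp
  simp_rw [h1]
  rw [intervalIntegral.integral_finsetSum]
  · unfold PS
    refine Finset.sum_congr rfl fun i _ => ?_
    rw [intervalIntegral.integral_const_mul, integral_pow]
    push_cast
    rw [one_pow, zero_pow (by positivity)]
    ring
  · intro i _
    exact (continuous_const.mul (continuous_pow _)).intervalIntegrable _ _

section integrals

variable {V : Type*} [NormedAddCommGroup V] [InnerProductSpace ℝ V] [FiniteDimensional ℝ V]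
  [MeasurableSpace V] [BorelSpace V] {ι : Type*} [Fintype ι]
  {c : ι → ℝ} {k : ℝ}

lemma integrable_PS [Nonempty ι] (hc : ∀ i, 0 < c i) (hk : 0 < k) (P : ι → V)
    (R : Polynomial ℝ) : Integrable (fun x => PS R (Sm c k (fun i => x - P i))) := by
  unfold PS
  exact integrable_finsetSum _ fun i _ => (integrable_Sm_rpow hc (by positivity) hk P).const_mul _

lemma hasDerivAt_PS [Nonempty ι] (hc : ∀ i, 0 < c i) (hk : 0 < k) (A B : ι → V)
    (R : Polynomial ℝ) (t : ℝ) :
    HasDerivAt (fun t => ∫ x, PS R (Sm c k (fun i => x - Pth A B t i)))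
      (2 * k * ∫ x, (∑ i ∈ Finset.range (R.natDegree + 1), R.coeff i *
        Sm c k (fun i => x - Pth A B t i) ^ (-((i : ℝ) + 1))) * Dm c k (Pth A B t) (Vth A B t) x)
      t := by
  have e1 : ∀ t, ∫ x, PS R (Sm c k (fun i => x - Pth A B t i)) =
      ∑ i ∈ Finset.range (R.natDegree + 1), R.coeff i / ((i : ℝ) + 2) *
        ∫ x, Sm c k (fun i => x - Pth A B t i) ^ (-((i : ℝ) + 1)) := by
    intro t
    unfold PS
    rw [integral_finsetSum _ fun i _ =>
      (integrable_Sm_rpow hc (by positivity) hk (Pth A B t)).const_mul _]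
    exact Finset.sum_congr rfl fun i _ => integral_const_mul _ _
  simp_rw [e1]
  have h1 : HasDerivAt (fun t => ∑ i ∈ Finset.range (R.natDegree + 1),
      R.coeff i / ((i : ℝ) + 2) * ∫ x, Sm c k (fun i => x - Pth A B t i) ^ (-((i : ℝ) + 1)))
      (∑ i ∈ Finset.range (R.natDegree + 1), R.coeff i / ((i : ℝ) + 2) *
        ∫ x, 2 * (k * ((i : ℝ) + 1)) * Tm c k ((i : ℝ) + 1) (fun i => x - Pth A B t i)
          (Vth A B t)) t :=
    HasDerivAt.fun_sum fun i _ => (hasDerivAt_I hc (by positivity) hk A B t).const_mul _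
  convert! h1 using 1
  have hTU : ∀ i : ℕ, Integrable (fun x => Sm c k (fun i => x - Pth A B t i) ^ (-((i : ℝ) + 1)) *
      Dm c k (Pth A B t) (Vth A B t) x) := by
    intro i
    have := (integrable_Tm hc (b := (i : ℝ) + 1) (by positivity) hk (Pth A B t) (Vth A B t)).sub
      (integrable_Um hc (b := (i : ℝ) + 1) (by positivity) hk (Pth A B t) (Vth A B t))
    refine this.congr (Filter.Eventually.of_forall fun x => ?_)
    exact Tm_sub_Um hc (Pth A B t) (Vth A B t) x
  simp_rw [Finset.sum_mul, mul_assoc]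
  rw [integral_finsetSum _ fun i _ => (hTU i).const_mul _, Finset.mul_sum, Finset.mul_sum]
  refine Finset.sum_congr rfl fun i _ => ?_
  have h2 := integral_Tm hc (b := (i : ℝ) + 1) (by positivity) hk (Pth A B t) (Vth A B t)
  have h3 : ∫ x, Sm c k (fun i => x - Pth A B t i) ^ (-((i : ℝ) + 1)) *
      Dm c k (Pth A B t) (Vth A B t) x =
      (∫ x, Tm c k ((i : ℝ) + 1) (fun i => x - Pth A B t i) (Vth A B t)) -
      ∫ x, Um c k ((i : ℝ) + 1) (fun i => x - Pth A B t i) (Vth A B t) := by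
    rw [← integral_sub (integrable_Tm hc (by positivity) hk _ _)
      (integrable_Um hc (by positivity) hk _ _)]
    refine integral_congr_ae (Filter.Eventually.of_forall fun x => ?_)
    exact (Tm_sub_Um hc (Pth A B t) (Vth A B t) x).symm
  rw [integral_const_mul, h3]
  simp_rw [integral_const_mul]
  rw [h2]
  field_simp
  ring

/-- monotonicity for polynomials -/
lemma comparison_PS [Nonempty ι] (hc : ∀ i, 0 < c i) (hk : 0 < k) (A B : ι → V)
    (h0 : ∀ i j, inner ℝ (A i) (B j) = 0)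
    (h1 : ∀ i j, ‖B i - B j‖ ≤ ‖A i - A j‖) (R : Polynomial ℝ)
    (hR : ∀ u, 0 ≤ u → u ≤ (∑ i, c i)⁻¹ → 0 ≤ u * R.eval u) :
    ∫ x, PS R (Sm c k (fun i => x - A i)) ≤ ∫ x, PS R (Sm c k (fun i => x - B i)) := by
  set I : ℝ → ℝ := fun t => ∫ x, PS R (Sm c k (fun i => x - Pth A B t i)) with hI
  have hd := fun t => hasDerivAt_PS hc hk A B R t
  have hmono : MonotoneOn I (Icc 0 (Real.pi / 2)) := by
    refine monotoneOn_of_deriv_nonneg (convex_Icc _ _)
      (fun t _ => (hd t).continuousAt.continuousWithinAt)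
      (fun t _ => (hd t).differentiableAt.differentiableWithinAt) fun t ht => ?_
    rw [interior_Icc] at ht
    rw [(hd t).deriv]
    refine mul_nonneg (by positivity) (integral_nonneg fun x => ?_)
    refine mul_nonneg ?_ (Dm_nonneg hc _ _ x
      (fun i j => inner_path_le A B h0 h1 ht.1.le ht.2.le i j))
    have hS := Sm_pos (k := k) hc (fun i => x - Pth A B t i)
    set s := Sm c k (fun i => x - Pth A B t i) with hs
    have h2 : ∑ i ∈ Finset.range (R.natDegree + 1), R.coeff i * s ^ (-((i : ℝ) + 1)) =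
        s⁻¹ * R.eval s⁻¹ := by
      rw [Polynomial.eval_eq_sum_range, Finset.mul_sum]
      refine Finset.sum_congr rfl fun i _ => ?_
      have h2 : s ^ (-((i : ℝ) + 1)) = (s ^ (i + 1))⁻¹ := by
        rw [Real.rpow_neg hS.le]
        congr 1
        exact_mod_cast Real.rpow_natCast s (i + 1)
      rw [h2, pow_succ, mul_inv, inv_pow]
      ring
    rw [h2]
    refine hR _ (by positivity) ?_
    have hpos : 0 < ∑ i, c i := Finset.sum_pos (fun i _ => hc i) Finset.univ_nonempty
    exact inv_anti₀ hpos (sum_le_Sm hc hk _)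
  have h2 := hmono (left_mem_Icc.mpr (by positivity)) (right_mem_Icc.mpr (by positivity))
    (by positivity : (0 : ℝ) ≤ Real.pi / 2)
  have e1 : ∀ i, Pth A B 0 i = A i := fun i => by simp [Pth]
  have e2 : ∀ i, Pth A B (Real.pi / 2) i = B i := fun i => by simp [Pth]
  simpa [hI, e1, e2] using h2

/-- the general comparison for orthogonal configurations -/
lemma comparison_W [Nonempty ι] (hc : ∀ i, 0 < c i) (hk : 0 < k) (A B : ι → V)
    (h0 : ∀ i j, inner ℝ (A i) (B j) = 0)
    (h1 : ∀ i j, ‖B i - B j‖ ≤ ‖A i - A j‖) (W : ℝ → ℝ) (hW : Continuous W)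
    (hW0 : ∀ u, 0 ≤ W u) (hWδ : ∃ δ > 0, ∀ u ≤ δ, W u = 0) :
    ∫ x : V, (∫ τ in (0 : ℝ)..1, W (τ / Sm c k (fun i => x - A i))) ≤
      ∫ x : V, ∫ τ in (0 : ℝ)..1, W (τ / Sm c k (fun i => x - B i)) := by
  obtain ⟨δ, hδ, hδ0⟩ := hWδ
  have hpos : 0 < ∑ i, c i := Finset.sum_pos (fun i _ => hc i) Finset.univ_nonempty
  -- continuity of `W u / u`
  have hcont : Continuous fun u => W u / u := by
    rw [continuous_iff_continuousAt]
    intro u
    by_cases hu : u < δ
    · have : (fun u => W u / u) =ᶠ[nhds u] fun _ => 0 := by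
        filter_upwards [Iio_mem_nhds hu] with x hx
        rw [hδ0 x (le_of_lt hx), zero_div]
      exact continuousAt_const.congr this.symm
    · exact hW.continuousAt.div continuousAt_id (by
        push Not at hu
        exact (lt_of_lt_of_le hδ hu).ne')
  have hdiv : ∀ u, W u = u * (W u / u) := by
    intro u
    by_cases hu : u = 0
    · rw [hu, hδ0 0 hδ.le]; simp
    · field_simp
  -- approximation
  have key : ∀ ε : ℝ, 0 < ε → ∃ R : Polynomial ℝ, ∀ u, 0 ≤ u → u ≤ (∑ i, c i)⁻¹ →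
      W u ≤ u * R.eval u ∧ u * R.eval u ≤ W u + 2 * ε * u := by
    intro ε hε
    obtain ⟨R, hR⟩ := exists_polynomial_near_of_continuousOn 0 (∑ i, c i)⁻¹ (fun u => W u / u)
      hcont.continuousOn ε hε
    refine ⟨R + Polynomial.C ε, fun u hu hu' => ?_⟩
    have h2 := abs_lt.mp (hR u ⟨hu, hu'⟩)
    rw [Polynomial.eval_add, Polynomial.eval_C]
    have h3 := hdiv u
    constructor
    · nth_rewrite 1 [h3]
      exact mul_le_mul_of_nonneg_left (by linarith) hu
    · nth_rewrite 1 [h3]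
      have h4 : u * (R.eval u + ε) ≤ u * (W u / u + 2 * ε) :=
        mul_le_mul_of_nonneg_left (by linarith) hu
      linarith
  -- comparison at one point
  have hpt : ∀ (ε : ℝ) (R : Polynomial ℝ), (∀ u, 0 ≤ u → u ≤ (∑ i, c i)⁻¹ →
      W u ≤ u * R.eval u ∧ u * R.eval u ≤ W u + 2 * ε * u) → ∀ (P : ι → V) (x : V),
      (∫ τ in (0 : ℝ)..1, W (τ / Sm c k (fun i => x - P i))) ≤ PS R (Sm c k (fun i => x - P i)) ∧
      PS R (Sm c k (fun i => x - P i)) ≤
        (∫ τ in (0 : ℝ)..1, W (τ / Sm c k (fun i => x - P i))) +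
          ε * Sm c k (fun i => x - P i) ^ (-(1 : ℝ)) := by
    intro ε R hR P x
    have hS := Sm_pos (k := k) hc (fun i => x - P i)
    have hSge := sum_le_Sm hc hk (fun i => x - P i)
    set s := Sm c k (fun i => x - P i) with hs
    have hcW : Continuous fun τ : ℝ => W (τ / s) := by fun_prop
    have hcR : Continuous fun τ : ℝ => (τ / s) * R.eval (τ / s) := by
      have := R.continuous
      fun_prop
    have hmem : ∀ τ ∈ Icc (0 : ℝ) 1, 0 ≤ τ / s ∧ τ / s ≤ (∑ i, c i)⁻¹ := by
      intro τ hτ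
      refine ⟨div_nonneg hτ.1 hS.le, ?_⟩
      calc τ / s ≤ 1 / s := div_le_div_of_nonneg_right hτ.2 hS.le
        _ = s⁻¹ := one_div s
        _ ≤ _ := inv_anti₀ hpos hSge
    rw [← integral_eq_PS R hS]
    constructor
    · refine intervalIntegral.integral_mono_on zero_le_one (hcW.intervalIntegrable _ _)
        (hcR.intervalIntegrable _ _) fun τ hτ => ?_
      exact (hR _ (hmem τ hτ).1 (hmem τ hτ).2).1
    · have h2 : ∫ τ in (0 : ℝ)..1, (τ / s) * R.eval (τ / s) ≤
          ∫ τ in (0 : ℝ)..1, (W (τ / s) + 2 * ε / s * τ) := by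
        refine intervalIntegral.integral_mono_on zero_le_one (hcR.intervalIntegrable _ _)
          ((hcW.add (by fun_prop)).intervalIntegrable _ _) fun τ hτ => ?_
        have := (hR _ (hmem τ hτ).1 (hmem τ hτ).2).2
        refine this.trans (le_of_eq ?_)
        ring
      refine h2.trans (le_of_eq ?_)
      rw [intervalIntegral.integral_add (hcW.intervalIntegrable _ _)
        ((by fun_prop : Continuous fun τ : ℝ => 2 * ε / s * τ).intervalIntegrable _ _),
        intervalIntegral.integral_const_mul, integral_id, Real.rpow_neg_one]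
      ring
  -- integrability
  have hint : ∀ P : ι → V, Integrable (fun x : V =>
      ∫ τ in (0 : ℝ)..1, W (τ / Sm c k (fun i => x - P i))) := by
    intro P
    obtain ⟨R, hR⟩ := key 1 one_pos
    have hcont2 : Continuous (fun x : V =>
        ∫ τ in (0 : ℝ)..1, W (τ / Sm c k (fun i => x - P i))) := by
      refine intervalIntegral.continuous_parametric_intervalIntegral_of_continuous' ?_ 0 1
      have hS1 := continuous_Sm (c := c) (k := k) P
      have hS2 : Continuous fun z : V × ℝ => Sm c k (fun i => z.1 - P i) := hS1.comp continuous_fst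
      exact hW.comp (continuous_snd.div hS2 fun z => (Sm_pos hc _).ne')
    refine (integrable_PS hc hk P R).mono' hcont2.aestronglyMeasurable
      (Filter.Eventually.of_forall fun x => ?_)
    rw [Real.norm_of_nonneg (intervalIntegral.integral_nonneg zero_le_one fun τ _ => hW0 _)]
    exact (hpt 1 R hR P x).1
  -- conclusion
  set K : ℝ := ∫ x : V, Sm c k (fun i => x - B i) ^ (-(1 : ℝ)) with hK
  have hfin : ∀ ε : ℝ, 0 < ε →
      ∫ x : V, (∫ τ in (0 : ℝ)..1, W (τ / Sm c k (fun i => x - A i))) ≤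
      (∫ x : V, ∫ τ in (0 : ℝ)..1, W (τ / Sm c k (fun i => x - B i))) + ε * K := by
    intro ε hε
    obtain ⟨R, hR⟩ := key ε hε
    calc ∫ x : V, (∫ τ in (0 : ℝ)..1, W (τ / Sm c k (fun i => x - A i)))
        ≤ ∫ x : V, PS R (Sm c k (fun i => x - A i)) :=
          integral_mono (hint A) (integrable_PS hc hk A R) fun x => (hpt ε R hR A x).1
      _ ≤ ∫ x : V, PS R (Sm c k (fun i => x - B i)) :=
          comparison_PS hc hk A B h0 h1 R fun u hu hu' => (hW0 u).trans (hR u hu hu').1
      _ ≤ ∫ x : V, ((∫ τ in (0 : ℝ)..1, W (τ / Sm c k (fun i => x - B i))) +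
            ε * Sm c k (fun i => x - B i) ^ (-(1 : ℝ))) :=
          integral_mono (integrable_PS hc hk B R)
            ((hint B).add ((integrable_Sm_rpow hc one_pos hk B).const_mul ε))
            fun x => (hpt ε R hR B x).2
      _ = _ := by
          rw [integral_add (hint B) ((integrable_Sm_rpow hc one_pos hk B).const_mul ε),
            integral_const_mul]
  have hK0 : 0 ≤ K := integral_nonneg fun x => Real.rpow_nonneg (Sm_pos hc _).le _
  refine le_of_forall_pos_le_add fun η hη => ?_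
  refine (hfin (η / (K + 1)) (by positivity)).trans ?_
  have : η / (K + 1) * K ≤ η := by
    rw [div_mul_eq_mul_div, div_le_iff₀ (by positivity)]
    nlinarith
  linarith

end integrals

end Pool.Agent.Lib.MP_0c1c75_co.GPpoly

namespace Pool.Agent.Lib.MP_0c1c75_co

open Gauss GPpoly in
theorem gpPolyStmt : GPpolyStmt := by
  intro d N hN p q h c hc k hk W hW hW0 hWδ
  have : NeZero N := ⟨hN.ne'⟩
  set A : Fin N → WithLp 2 (E d × E d) := fun i => WithLp.toLp 2 (p i, 0) with hA
  set B : Fin N → WithLp 2 (E d × E d) := fun i => WithLp.toLp 2 (0, q i) with hB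
  have h0 : ∀ i j, inner ℝ (A i) (B j) = 0 := by
    intro i j
    simp [hA, hB, WithLp.prod_inner_apply]
  have h1 : ∀ i j, ‖B i - B j‖ ≤ ‖A i - A j‖ := by
    intro i j
    have e1 : ‖B i - B j‖ = ‖q i - q j‖ := by
      rw [hB]
      have : WithLp.toLp 2 ((0 : E d), q i) - WithLp.toLp 2 (0, q j) =
        WithLp.toLp 2 (0, q i - q j) := by
        rw [← WithLp.toLp_sub]; simp
      simp only [this]
      have h5 := WithLp.prod_norm_sq_eq_of_L2 (WithLp.toLp 2 ((0 : E d), q i - q j))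
      have h6 : ‖WithLp.toLp 2 ((0 : E d), q i - q j)‖ ^ 2 = ‖q i - q j‖ ^ 2 := by
        rw [h5]; simp
      exact (pow_left_inj₀ (norm_nonneg _) (norm_nonneg _) two_ne_zero).mp h6
    have e2 : ‖A i - A j‖ = ‖p i - p j‖ := by
      rw [hA]
      have : WithLp.toLp 2 (p i, (0 : E d)) - WithLp.toLp 2 (p j, 0) =
        WithLp.toLp 2 (p i - p j, 0) := by
        rw [← WithLp.toLp_sub]; simp
      simp only [this]
      have h5 := WithLp.prod_norm_sq_eq_of_L2 (WithLp.toLp 2 (p i - p j, (0 : E d)))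
      have h6 : ‖WithLp.toLp 2 (p i - p j, (0 : E d))‖ ^ 2 = ‖p i - p j‖ ^ 2 := by
        rw [h5]; simp
      exact (pow_left_inj₀ (norm_nonneg _) (norm_nonneg _) two_ne_zero).mp h6
    rw [e1, e2]
    have := h i j
    rw [dist_eq_norm, dist_eq_norm, one_mul] at this
    exact this
  have h2 := comparison_W (k := k) hc hk A B h0 h1 W hW hW0 hWδ
  have hPA : ∀ (x y : E d) (i : Fin N), ‖WithLp.toLp 2 (x, y) - A i‖ ^ 2 =
      ‖x - p i‖ ^ 2 + ‖y‖ ^ 2 := by
    intro x y i
    rw [hA, ← WithLp.toLp_sub, WithLp.prod_norm_sq_eq_of_L2]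
    simp
  have hPB : ∀ (x y : E d) (i : Fin N), ‖WithLp.toLp 2 (x, y) - B i‖ ^ 2 =
      ‖x‖ ^ 2 + ‖y - q i‖ ^ 2 := by
    intro x y i
    rw [hB, ← WithLp.toLp_sub, WithLp.prod_norm_sq_eq_of_L2]
    simp
  have hSA : ∀ z : E d × E d, Sm c k (fun i => WithLp.toLp 2 z - A i) =
      Sm c k (fun i => z.1 - p i) * Real.exp (k * ‖z.2‖ ^ 2) := by
    rintro ⟨x, y⟩
    unfold Sm Wm
    rw [Finset.sum_mul]
    refine Finset.sum_congr rfl fun i _ => ?_
    rw [hPA, mul_add, Real.exp_add]
    ring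
  have hSB : ∀ z : E d × E d, Sm c k (fun i => WithLp.toLp 2 z - B i) =
      Sm c k (fun i => z.2 - q i) * Real.exp (k * ‖z.1‖ ^ 2) := by
    rintro ⟨x, y⟩
    unfold Sm Wm
    rw [Finset.sum_mul]
    refine Finset.sum_congr rfl fun i _ => ?_
    rw [hPB, mul_add, Real.exp_add]
    ring
  have eA := (WithLp.volume_preserving_toLp (E d) (E d)).integral_comp
    (MeasurableEquiv.toLp 2 (E d × E d)).measurableEmbedding
    (fun z => ∫ τ in (0 : ℝ)..1, W (τ / Sm c k (fun i => z - A i)))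
  have eB := (WithLp.volume_preserving_toLp (E d) (E d)).integral_comp
    (MeasurableEquiv.toLp 2 (E d × E d)).measurableEmbedding
    (fun z => ∫ τ in (0 : ℝ)..1, W (τ / Sm c k (fun i => z - B i)))
  rw [← eA, ← eB] at h2
  simp_rw [hSA, hSB] at h2
  refine h2.trans (le_of_eq ?_)
  exact integral_prod_swap (μ := (volume : Measure (E d))) (ν := (volume : Measure (E d)))
    (fun z : E d × E d => ∫ τ in (0 : ℝ)..1,
      W (τ / (Sm c k (fun i => z.1 - q i) * Real.exp (k * ‖z.2‖ ^ 2))))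

end Pool.Agent.Lib.MP_0c1c75_co
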