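import Pool.Agent.Lib.MP_0c1c75_co.JmpSpec

/-!
MP_0c1c75_co, package Jmp: elementary facts on `bend` (`BendStmt`).
-/

open MeasureTheory Set Filter Topology
open scoped ContDiff

namespace Pool.Agent.Lib.MP_0c1c75_co.Jmp

namespace Bend

variable {d : ℕ}

lemma norm_sq (z : E (d + 2)) :
    ‖z‖ ^ 2 = z 0 ^ 2 + (z 1 ^ 2 + ∑ j : Fin d, z j.succ.succ ^ 2) := by
  rw [EuclideanSpace.real_norm_sq_eq, Fin.sum_univ_succ, Fin.sum_univ_succ]
  rfl

lemma up0 (x : E d) : up x 0 = 0 := rfl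

lemma up1 (x : E d) : up x 1 = 0 := rfl

lemma up2 (x : E d) (j : Fin d) : up x j.succ.succ = x j := rfl

lemma bend0 (k : ℝ) (x : E d) : bend k x 0 = 0 := rfl

lemma bend1 (k : ℝ) (x : E d) : bend k x 1 = (Real.cos (k * ‖x‖) - 1) / k := rfl

lemma bend2 (k : ℝ) (x : E d) (j : Fin d) :
    bend k x j.succ.succ = Real.sinc (k * ‖x‖) * x j := rfl

lemma ctr0 (k : ℝ) : (ctr k : E (d + 2)) 0 = 0 := rfl

lemma ctr1 (k : ℝ) : (ctr k : E (d + 2)) 1 = -1 / k := rfl

lemma ctr2 (k : ℝ) (j : Fin d) : (ctr k : E (d + 2)) j.succ.succ = 0 := rfl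

lemma ext2 {z w : E (d + 2)} (h0 : z 0 = w 0) (h1 : z 1 = w 1)
    (h2 : ∀ j : Fin d, z j.succ.succ = w j.succ.succ) : z = w := by
  ext i
  refine Fin.cases h0 (fun i => ?_) i
  exact Fin.cases h1 h2 i

/-- `sinc (k u) u = sin (k u) / k` -/
lemma sinc_mul {k : ℝ} (hk : 0 < k) (u : ℝ) : Real.sinc (k * u) * u = Real.sin (k * u) / k := by
  by_cases hu : u = 0
  · simp [hu]
  · rw [Real.sinc_of_ne_zero (mul_ne_zero hk.ne' hu)]
    field_simp

/-- `(cos (k u) - 1) / k` without the division -/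
lemma cos_div (k u : ℝ) :
    (Real.cos (k * u) - 1) / k = -(k * u ^ 2 / 2) * Real.sinc (k * u / 2) ^ 2 := by
  by_cases hk : k = 0
  · simp [hk]
  by_cases hu : u = 0
  · simp [hu]
  have h2 : k * u / 2 ≠ 0 := by positivity
  rw [Real.sinc_of_ne_zero h2]
  have h : Real.cos (k * u) = 1 - 2 * Real.sin (k * u / 2) ^ 2 := by
    have h3 := Real.cos_two_mul (k * u / 2)
    rw [show 2 * (k * u / 2) = k * u by ring] at h3
    rw [h3, Real.cos_sq']
    ring
  rw [h]
  field_simp
  ring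

lemma half (t : ℝ) : 1 - Real.cos t = 2 * Real.sin (t / 2) ^ 2 := by
  have h3 := Real.cos_two_mul (t / 2)
  rw [show 2 * (t / 2) = t by ring] at h3
  rw [h3, Real.cos_sq']
  ring

end Bend

open Bend

theorem bendStmt : BendStmt := by
  intro d
  refine ⟨?_, ?_, ?_, ?_, ?_, ?_, ?_⟩
  · intro x
    refine ext2 rfl ?_ (fun j => ?_)
    · rw [bend1, up1]
      simp
    · rw [bend2, up2]
      simp
  · intro x y
    refine ext2 ?_ ?_ (fun j => ?_)
    · rw [PiLp.sub_apply, up0, up0, up0, sub_zero]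
    · rw [PiLp.sub_apply, up1, up1, up1, sub_zero]
    · rw [PiLp.sub_apply, up2, up2, up2, PiLp.sub_apply]
  · intro x
    have h : ‖up x‖ ^ 2 = ‖x‖ ^ 2 := by
      rw [norm_sq, EuclideanSpace.real_norm_sq_eq, up0, up1]
      simp only [up2]
      ring
    exact (sq_eq_sq₀ (norm_nonneg _) (norm_nonneg _)).1 h
  · intro k x hk
    have h : ‖bend k x - ctr k‖ ^ 2 = (1 / k) ^ 2 := by
      rw [norm_sq]
      simp only [PiLp.sub_apply, bend0, bend1, bend2, ctr0, ctr1, ctr2, sub_zero, mul_pow]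
      rw [← Finset.mul_sum, ← EuclideanSpace.real_norm_sq_eq, ← mul_pow, sinc_mul hk]
      have h1 := Real.sin_sq_add_cos_sq (k * ‖x‖)
      have h2 : (Real.cos (k * ‖x‖) - 1) / k - -1 / k = Real.cos (k * ‖x‖) / k := by ring
      rw [h2]
      field_simp
      linarith
    exact (sq_eq_sq₀ (norm_nonneg _) (by positivity)).1 h
  · intro x y
    obtain ⟨c, hc1, hc2, hc⟩ : ∃ c : ℝ, -1 ≤ c ∧ c ≤ 1 ∧
        inner ℝ x y = c * (‖x‖ * ‖y‖) := by
      refine ⟨inner ℝ x y / (‖x‖ * ‖y‖), ?_, ?_, ?_⟩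
      · exact (abs_le.1 (abs_real_inner_div_norm_mul_norm_le_one x y)).1
      · exact (abs_le.1 (abs_real_inner_div_norm_mul_norm_le_one x y)).2
      · by_cases h : ‖x‖ * ‖y‖ = 0
        · rw [h, mul_zero]
          rcases mul_eq_zero.1 h with h' | h'
          · rw [norm_eq_zero.1 h', inner_zero_left]
          · rw [norm_eq_zero.1 h', inner_zero_right]
        · rw [div_mul_cancel₀ _ h]
    refine ⟨(1 + c) / 2, (1 - c) / 2, by linarith, by linarith, ?_, fun k hk => ?_⟩
    · rw [norm_sub_sq_real, hc]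
      ring
    · rw [norm_sq]
      simp only [PiLp.sub_apply, bend0, bend1, bend2, sub_zero]
      have h1 : ∑ j : Fin d, (Real.sinc (k * ‖x‖) * x j - Real.sinc (k * ‖y‖) * y j) ^ 2 =
          ‖Real.sinc (k * ‖x‖) • x - Real.sinc (k * ‖y‖) • y‖ ^ 2 := by
        rw [EuclideanSpace.real_norm_sq_eq]
        simp only [PiLp.sub_apply, PiLp.smul_apply, smul_eq_mul]
      rw [h1, norm_sub_sq_real, real_inner_smul_left, real_inner_smul_right, hc, norm_smul,
        norm_smul, Real.norm_eq_abs, Real.norm_eq_abs, mul_pow, mul_pow, sq_abs, sq_abs,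
        ← mul_pow, ← mul_pow, sinc_mul hk, sinc_mul hk]
      have h2 : Real.sinc (k * ‖x‖) * (Real.sinc (k * ‖y‖) * (c * (‖x‖ * ‖y‖))) =
          c * ((Real.sin (k * ‖x‖) / k) * (Real.sin (k * ‖y‖) / k)) := by
        rw [← sinc_mul hk, ← sinc_mul hk]
        ring
      rw [h2]
      have h3 := half (k * (‖x‖ - ‖y‖))
      have h4 := half (k * (‖x‖ + ‖y‖))
      rw [mul_sub, Real.cos_sub] at h3
      rw [mul_add, Real.cos_add] at h4
      have h5 := Real.sin_sq_add_cos_sq (k * ‖x‖)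
      have h6 := Real.sin_sq_add_cos_sq (k * ‖y‖)
      have h7 : (1 + c) / 2 * (2 * Real.sin (k * (‖x‖ - ‖y‖) / 2) / k) ^ 2 +
          (1 - c) / 2 * (2 * Real.sin (k * (‖x‖ + ‖y‖) / 2) / k) ^ 2 =
          ((1 + c) * (2 * Real.sin (k * (‖x‖ - ‖y‖) / 2) ^ 2) +
          (1 - c) * (2 * Real.sin (k * (‖x‖ + ‖y‖) / 2) ^ 2)) / k ^ 2 := by
        field_simp
      rw [h7, mul_sub k, mul_add k, ← h3, ← h4]
      rw [eq_div_iff (by positivity)]
      field_simp
      nlinarith
  · intro x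
    rw [contDiffOn_euclidean]
    intro i
    refine Fin.cases ?_ (fun i => ?_) i
    · exact contDiffOn_const
    · refine Fin.cases ?_ (fun j => ?_) i
      · have h : ContDiffOn ℝ 1 (fun k : ℝ => (Real.cos (k * ‖x‖) - 1) / k) (Ioi 0) := by
          refine ContDiffOn.div ?_ contDiffOn_id (fun k hk => (mem_Ioi.1 hk).ne')
          exact ((Real.contDiff_cos.comp (contDiff_id.mul contDiff_const)).sub
            contDiff_const).contDiffOn
        exact h
      · have h : ContDiffOn ℝ 1 (fun k : ℝ => Real.sinc (k * ‖x‖) * x j) (Ioi 0) := by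
          refine ContDiffOn.mul ?_ contDiffOn_const
          by_cases hx : ‖x‖ = 0
          · simp only [hx, mul_zero, Real.sinc_zero]
            exact contDiffOn_const
          · have h1 : ContDiffOn ℝ 1 (fun k : ℝ => Real.sin (k * ‖x‖) / (k * ‖x‖)) (Ioi 0) := by
              refine ContDiffOn.div ?_ ?_ (fun k hk => mul_ne_zero (mem_Ioi.1 hk).ne' hx)
              · exact (Real.contDiff_sin.comp (contDiff_id.mul contDiff_const)).contDiffOn
              · exact (contDiff_id.mul contDiff_const).contDiffOn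
            refine h1.congr (fun k hk => ?_)
            rw [Real.sinc_of_ne_zero (mul_ne_zero (mem_Ioi.1 hk).ne' hx)]
        exact h
  · intro x
    have h : (fun k => bend k x) = fun k => (WithLp.toLp 2 (Fin.cons 0 (Fin.cons
        (-(k * ‖x‖ ^ 2 / 2) * Real.sinc (k * ‖x‖ / 2) ^ 2)
        (fun j => Real.sinc (k * ‖x‖) * x j) : Fin (d + 1) → ℝ) : Fin (d + 2) → ℝ) : E (d + 2)) := by
      funext k
      rw [← cos_div]
      rfl
    rw [h]
    refine (PiLp.continuous_toLp 2 _).comp ?_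
    refine continuous_pi (fun i => ?_)
    refine Fin.cases ?_ (fun i => ?_) i
    · exact continuous_const
    · refine Fin.cases ?_ (fun j => ?_) i
      · simp only [Fin.cons_succ, Fin.cons_zero]
        have := Real.continuous_sinc
        fun_prop
      · simp only [Fin.cons_succ]
        have := Real.continuous_sinc
        fun_prop

end Pool.Agent.Lib.MP_0c1c75_co.Jmp
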