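import Pool.Agent.Lib.MP_0c1c75_co.JmpSpec

/-!
# Theorem X+, BendMono: monotonicity of the distances
-/

set_option autoImplicit false

namespace Pool.Agent.Lib.MP_0c1c75_co.Jmp

open Set MeasureTheory

namespace BendMono

/-- `sin (k t) / k` -/
noncomputable def S (k t : ℝ) : ℝ := Real.sin (k * t) / k

theorem sq_abs' (k u : ℝ) : (2 * Real.sin (k * u / 2) / k) ^ 2 = 4 * S k (|u| / 2) ^ 2 := by
  rcases abs_cases u with h | h
  · rw [h.1, S]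
    have e : k * (u / 2) = k * u / 2 := by ring
    rw [e]
    ring
  · rw [h.1, S]
    have e : k * (-u / 2) = -(k * u / 2) := by ring
    rw [e, Real.sin_neg]
    ring

theorem le_of_sq {a b : ℝ} (ha : 0 ≤ a) (hb : 0 ≤ b) (h : a ^ 2 ≤ b ^ 2) : a ≤ b :=
  (pow_le_pow_iff_left₀ ha hb two_ne_zero).mp h

end BendMono

open BendMono in
/-- Monotonicity of the distances. -/
theorem bendMonoStmt (h1 : BendStmt) (h2 : BendRealStmt) : BendMonoStmt := by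
  intro d ρ k k' x y hx hy hk hkk hρ
  obtain ⟨-, -, -, -, h3, -, -⟩ := h1 d
  obtain ⟨A, B, hA, hB, hxy, hbend⟩ := h3 x y
  have hk' : 0 < k' := lt_of_lt_of_le hk hkk
  have hρ0 : 0 ≤ ρ := (norm_nonneg x).trans hx
  have hx0 := norm_nonneg x
  have hy0 := norm_nonneg y
  set t1 := |‖x‖ - ‖y‖| / 2 with ht1
  set t2 := |‖x‖ + ‖y‖| / 2 with ht2
  have t1n : 0 ≤ t1 := by positivity
  have t2n : 0 ≤ t2 := by positivity
  have t1ρ : t1 ≤ ρ := by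
    have : |‖x‖ - ‖y‖| ≤ 2 * ρ := by
      rw [abs_le]
      constructor <;> linarith
    rw [ht1]
    linarith
  have t2ρ : t2 ≤ ρ := by
    have : |‖x‖ + ‖y‖| ≤ 2 * ρ := by
      rw [abs_le]
      constructor <;> linarith
    rw [ht2]
    linarith
  have hkρ : k * ρ ≤ Real.pi / 2 := (mul_le_mul_of_nonneg_right hkk hρ0).trans hρ
  obtain ⟨a1, a2, a3, a4, a5⟩ := h2 ρ k k' t1 t1n t1ρ hk hkk hρ
  obtain ⟨b1, b2, b3, b4, -⟩ := h2 ρ k k' t2 t2n t2ρ hk hkk hρ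
  obtain ⟨-, -, c3, -, c5⟩ := h2 ρ k' k' t1 t1n t1ρ hk' le_rfl hρ
  obtain ⟨-, -, d3, -, -⟩ := h2 ρ k' k' t2 t2n t2ρ hk' le_rfl hρ
  change S k' t1 ≤ S k t1 at a1
  change S k t1 ≤ t1 at a2
  change Real.sinc (k * ρ) * t1 ≤ S k t1 at a3
  change (Real.sinc (k * ρ))⁻¹ * S k t1 ≤ (Real.sinc (k' * ρ))⁻¹ * S k' t1 at a4
  change S k' t2 ≤ S k t2 at b1
  change S k t2 ≤ t2 at b2
  change Real.sinc (k * ρ) * t2 ≤ S k t2 at b3
  change (Real.sinc (k * ρ))⁻¹ * S k t2 ≤ (Real.sinc (k' * ρ))⁻¹ * S k' t2 at b4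
  change Real.sinc (k' * ρ) * t1 ≤ S k' t1 at c3
  change Real.sinc (k' * ρ) * t2 ≤ S k' t2 at d3
  have s1 : 0 ≤ S k' t1 := (mul_nonneg c5.le t1n).trans c3
  have s2 : 0 ≤ S k' t2 := (mul_nonneg c5.le t2n).trans d3
  have s3 : 0 ≤ S k t1 := s1.trans a1
  have s4 : 0 ≤ S k t2 := s2.trans b1
  have ek : ‖bend k x - bend k y‖ ^ 2 = 4 * A * S k t1 ^ 2 + 4 * B * S k t2 ^ 2 := by
    rw [hbend k hk, sq_abs', sq_abs']
    ring
  have ek' : ‖bend k' x - bend k' y‖ ^ 2 = 4 * A * S k' t1 ^ 2 + 4 * B * S k' t2 ^ 2 := by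
    rw [hbend k' hk', sq_abs', sq_abs']
    ring
  have e0 : ‖x - y‖ ^ 2 = 4 * A * t1 ^ 2 + 4 * B * t2 ^ 2 := by
    rw [hxy, ht1, ht2, div_pow, div_pow, sq_abs, sq_abs]
    ring
  simp only [dist_eq_norm]
  have A4 : 0 ≤ 4 * A := by linarith
  have B4 : 0 ≤ 4 * B := by linarith
  have ci : 0 ≤ (Real.sinc (k * ρ))⁻¹ := inv_nonneg.mpr a5.le
  have ci' : 0 ≤ (Real.sinc (k' * ρ))⁻¹ := inv_nonneg.mpr c5.le
  refine ⟨?_, ?_, ?_, ?_⟩
  · refine le_of_sq (norm_nonneg _) (norm_nonneg _) ?_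
    rw [ek, ek']
    have f1 := mul_le_mul_of_nonneg_left (pow_le_pow_left₀ s1 a1 2) A4
    have f2 := mul_le_mul_of_nonneg_left (pow_le_pow_left₀ s2 b1 2) B4
    linarith
  · refine le_of_sq (norm_nonneg _) (norm_nonneg _) ?_
    rw [ek, e0]
    have f1 := mul_le_mul_of_nonneg_left (pow_le_pow_left₀ s3 a2 2) A4
    have f2 := mul_le_mul_of_nonneg_left (pow_le_pow_left₀ s4 b2 2) B4
    linarith
  · refine le_of_sq (mul_nonneg a5.le (norm_nonneg _)) (norm_nonneg _) ?_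
    rw [mul_pow, ek, e0]
    have f1 := mul_le_mul_of_nonneg_left (pow_le_pow_left₀ (mul_nonneg a5.le t1n) a3 2) A4
    have f2 := mul_le_mul_of_nonneg_left (pow_le_pow_left₀ (mul_nonneg a5.le t2n) b3 2) B4
    rw [mul_pow] at f1 f2
    linarith
  · refine le_of_sq (mul_nonneg ci (norm_nonneg _)) (mul_nonneg ci' (norm_nonneg _)) ?_
    rw [mul_pow, mul_pow, ek, ek']
    have f1 := mul_le_mul_of_nonneg_left (pow_le_pow_left₀ (mul_nonneg ci s3) a4 2) A4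
    have f2 := mul_le_mul_of_nonneg_left (pow_le_pow_left₀ (mul_nonneg ci s4) b4 2) B4
    rw [mul_pow, mul_pow] at f1 f2
    linarith

end Pool.Agent.Lib.MP_0c1c75_co.Jmp
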