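import Pool.Agent.Lib.MP_0c1c75_co.JmpSpec

set_option autoImplicit false

open MeasureTheory Set Filter Topology
open scoped ContDiff

namespace Pool.Agent.Lib.MP_0c1c75_co.Jmp

namespace BendPath

theorem up_add {d : ℕ} (h1 : BendStmt) (x o : E d) : up (x - o) + up o = up x := by
  rw [← (h1 d).2.1 x o]
  abel

theorem part1 (h1 : BendStmt) (h2 : BendMonoStmt) :
    ∀ (d N : ℕ) (p : Fin N → E d) (o : E d) (ρ r : ℝ), 0 < ρ → ρ ≤ r → (∀ i, ‖p i - o‖ ≤ ρ) →
    ∃ (P : ℝ → Fin N → E (d + 2)) (z : E (d + 2)),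
      (∀ i, ContinuousOn (fun s => P s i) (Icc 0 1)) ∧
      (∀ i, ContDiffOn ℝ 1 (fun s => P s i) (Ioo 0 1)) ∧
      (∀ i j, AntitoneOn (fun s => dist (P s i) (P s j)) (Icc 0 1)) ∧
      (∀ i, P 0 i = up (p i)) ∧ (∀ i, dist (P 1 i) z = r) ∧
      ∀ i j, Real.sinc (ρ / r) * dist (p i) (p j) ≤ dist (P 1 i) (P 1 j) := by
  intro d N p o ρ r hρ hr hp
  have hr0 : 0 < r := hρ.trans_le hr
  have hpi : ∀ s : ℝ, s ≤ 1 → s / r * ρ ≤ Real.pi / 2 := by
    intro s hs
    have h3 : s / r * ρ ≤ 1 := by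
      rw [div_mul_eq_mul_div, div_le_one hr0]
      nlinarith
    linarith [Real.pi_gt_three]
  have hd : ∀ (k : ℝ) (i j : Fin N), dist (bend k (p i - o) + up o) (bend k (p j - o) + up o) =
      dist (bend k (p i - o)) (bend k (p j - o)) := fun k i j => dist_add_right _ _ _
  have hxy : ∀ i j : Fin N, dist (p i - o) (p j - o) = dist (p i) (p j) := fun i j =>
    dist_sub_right _ _ _
  have h0 : ∀ i j : Fin N, dist (bend 0 (p i - o)) (bend 0 (p j - o)) = dist (p i) (p j) := by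
    intro i j
    rw [(h1 d).1, (h1 d).1, dist_eq_norm, (h1 d).2.1, (h1 d).2.2.1, ← dist_eq_norm, hxy]
  refine ⟨fun s i => bend (s / r) (p i - o) + up o, ctr (1 / r) + up o, ?_, ?_, ?_, ?_, ?_, ?_⟩
  · intro i
    have h3 := (h1 d).2.2.2.2.2.2 (p i - o)
    exact ((h3.comp (continuous_id.div_const r)).add continuous_const).continuousOn
  · intro i
    have h3 := (h1 d).2.2.2.2.2.1 (p i - o)
    refine ContDiffOn.add ?_ contDiffOn_const
    refine h3.comp (contDiff_id.div_const r).contDiffOn ?_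
    intro s hs
    exact div_pos hs.1 hr0
  · intro i j s hs s' hs' hss
    simp only [hd]
    rcases hs.1.eq_or_lt with h3 | h3
    · rw [← h3, zero_div, h0]
      rcases hs'.1.eq_or_lt with h4 | h4
      · rw [← h4, zero_div, h0]
      · rw [← hxy]
        exact (h2 d ρ (s' / r) (s' / r) (p i - o) (p j - o) (hp i) (hp j) (div_pos h4 hr0) le_rfl
          (hpi s' hs'.2)).2.1
    · exact (h2 d ρ (s / r) (s' / r) (p i - o) (p j - o) (hp i) (hp j) (div_pos h3 hr0)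
        (div_le_div_of_nonneg_right hss hr0.le) (hpi s' hs'.2)).1
  · intro i
    simp only [zero_div]
    rw [(h1 d).1, up_add h1]
  · intro i
    simp only []
    rw [dist_add_right, dist_eq_norm, (h1 d).2.2.2.1 (1 / r) (p i - o) (by positivity), one_div_one_div]
  · intro i j
    simp only []
    rw [dist_add_right]
    have h3 := (h2 d ρ (1 / r) (1 / r) (p i - o) (p j - o) (hp i) (hp j) (by positivity) le_rfl
          (hpi 1 le_rfl)).2.2.1
    rw [hxy, one_div_mul_eq_div] at h3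
    exact h3

theorem part2 (h1 : BendStmt) (h2 : BendMonoStmt) (h3 : BendRealStmt) :
    ∀ (d N : ℕ) (q : Fin N → E d) (o : E d) (ρ r : ℝ), 0 < ρ → ρ ≤ r → (∀ i, ‖q i - o‖ ≤ ρ) →
    ∃ (Q : ℝ → Fin N → E (d + 2)) (z : E (d + 2)),
      (∀ i, ContinuousOn (fun s => Q s i) (Icc 0 1)) ∧
      (∀ i, ContDiffOn ℝ 1 (fun s => Q s i) (Ioo 0 1)) ∧
      (∀ i j, AntitoneOn (fun s => dist (Q s i) (Q s j)) (Icc 0 1)) ∧
      (∀ i, Q 1 i = up (q i)) ∧ (∀ i, dist (Q 0 i) z = r) ∧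
      ∀ i j, dist (Q 0 i) (Q 0 j) ≤ Real.arcsin (ρ / r) / (ρ / r) * dist (q i) (q j) := by
  intro d N q o ρ r hρ hr hq
  have hr0 : 0 < r := hρ.trans_le hr
  have hy0 : 0 < ρ / r := div_pos hρ hr0
  have hy1 : ρ / r ≤ 1 := (div_le_one hr0).2 hr
  set Ω : ℝ := Real.arcsin (ρ / r) / ρ with hΩ
  have hΩρ : Ω * ρ = Real.arcsin (ρ / r) := div_mul_cancel₀ _ hρ.ne'
  have has : 0 < Real.arcsin (ρ / r) := Real.arcsin_pos.2 hy0
  have hΩ0 : 0 < Ω := div_pos has hρ
  have hpi : ∀ s : ℝ, 0 ≤ s → s ≤ 1 → (1 - s) * Ω * ρ ≤ Real.pi / 2 := by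
    intro s hs0 hs1
    have h4 := Real.arcsin_le_pi_div_two (ρ / r)
    rw [mul_assoc, hΩρ]
    nlinarith
  have hpos : ∀ s : ℝ, 0 ≤ s → s ≤ 1 → 0 < Real.sinc ((1 - s) * Ω * ρ) := by
    intro s hs0 hs1
    rcases hs1.eq_or_lt with h4 | h4
    · rw [h4, sub_self, zero_mul, zero_mul, Real.sinc_zero]
      exact one_pos
    · exact (h3 ρ ((1 - s) * Ω) ((1 - s) * Ω) 0 le_rfl hρ.le (mul_pos (by linarith) hΩ0) le_rfl
        (hpi s hs0 hs1)).2.2.2.2
  have hxy : ∀ i j : Fin N, dist (q i - o) (q j - o) = dist (q i) (q j) := fun i j =>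
    dist_sub_right _ _ _
  have h0 : ∀ i j : Fin N, dist (bend 0 (q i - o)) (bend 0 (q j - o)) = dist (q i) (q j) := by
    intro i j
    rw [(h1 d).1, (h1 d).1, dist_eq_norm, (h1 d).2.1, (h1 d).2.2.1, ← dist_eq_norm, hxy]
  have hd : ∀ (s : ℝ), 0 ≤ s → s ≤ 1 → ∀ (i j : Fin N),
      dist ((Real.sinc ((1 - s) * Ω * ρ))⁻¹ • bend ((1 - s) * Ω) (q i - o) + up o)
        ((Real.sinc ((1 - s) * Ω * ρ))⁻¹ • bend ((1 - s) * Ω) (q j - o) + up o) =
      (Real.sinc ((1 - s) * Ω * ρ))⁻¹ *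
        dist (bend ((1 - s) * Ω) (q i - o)) (bend ((1 - s) * Ω) (q j - o)) := by
    intro s hs0 hs1 i j
    rw [dist_add_right, dist_smul₀, Real.norm_eq_abs, abs_of_pos (inv_pos.2 (hpos s hs0 hs1))]
  have hsc : Real.sinc (Ω * ρ) = (ρ / r) / Real.arcsin (ρ / r) := by
    rw [hΩρ, Real.sinc_of_ne_zero has.ne', Real.sin_arcsin (by linarith) hy1]
  refine ⟨fun s i => (Real.sinc ((1 - s) * Ω * ρ))⁻¹ • bend ((1 - s) * Ω) (q i - o) + up o,
    (Real.sinc (Ω * ρ))⁻¹ • ctr Ω + up o, ?_, ?_, ?_, ?_, ?_, ?_⟩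
  · intro i
    have h4 := (h1 d).2.2.2.2.2.2 (q i - o)
    have h5 : Continuous fun s : ℝ => (1 - s) * Ω := by fun_prop
    have h6 : ContinuousOn (fun s : ℝ => (Real.sinc ((1 - s) * Ω * ρ))⁻¹) (Icc 0 1) := by
      refine ContinuousOn.inv₀ ?_ (fun s hs => (hpos s hs.1 hs.2).ne')
      exact (Real.continuous_sinc.comp (h5.mul continuous_const)).continuousOn
    have h7 : ContinuousOn (fun s : ℝ => bend ((1 - s) * Ω) (q i - o)) (Icc 0 1) :=
      (h4.comp h5).continuousOn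
    exact (h6.smul h7).add continuousOn_const
  · intro i
    have h4 := (h1 d).2.2.2.2.2.1 (q i - o)
    have h5 : ContDiffOn ℝ 1 (fun s : ℝ => (Real.sinc ((1 - s) * Ω * ρ))⁻¹) (Ioo 0 1) := by
      have h5' : ContDiffOn ℝ 1 (fun s : ℝ => ((1 - s) * Ω * ρ) / Real.sin ((1 - s) * Ω * ρ))
          (Ioo 0 1) := by
        refine ContDiffOn.div (by fun_prop) (by fun_prop) ?_
        intro s hs
        have h6 : 0 < (1 - s) * Ω * ρ := mul_pos (mul_pos (by linarith [hs.2]) hΩ0) hρ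
        have h7 := hpi s hs.1.le hs.2.le
        exact (Real.sin_pos_of_pos_of_lt_pi h6 (by linarith [Real.pi_pos])).ne'
      refine h5'.congr ?_
      intro s hs
      have h6 : 0 < (1 - s) * Ω * ρ := mul_pos (mul_pos (by linarith [hs.2]) hΩ0) hρ
      rw [Real.sinc_of_ne_zero h6.ne', inv_div]
    have h8 : ContDiffOn ℝ 1 (fun s : ℝ => bend ((1 - s) * Ω) (q i - o)) (Ioo 0 1) := by
      have h9 : ContDiff ℝ 1 fun s : ℝ => (1 - s) * Ω := by fun_prop
      refine h4.comp h9.contDiffOn ?_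
      intro s hs
      exact mul_pos (by linarith [hs.2]) hΩ0
    exact (h5.smul h8).add contDiffOn_const
  · intro i j s hs s' hs' hss
    simp only []
    rw [hd s hs.1 hs.2, hd s' hs'.1 hs'.2]
    have hk : (1 - s') * Ω ≤ (1 - s) * Ω := mul_le_mul_of_nonneg_right (by linarith) hΩ0.le
    rcases hs'.2.eq_or_lt with h4 | h4
    · rw [h4, sub_self, zero_mul, zero_mul, Real.sinc_zero, inv_one, one_mul, h0]
      rcases hs.2.eq_or_lt with h5 | h5
      · rw [h5, sub_self, zero_mul, zero_mul, Real.sinc_zero, inv_one, one_mul, h0]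
      · have h6 := (h2 d ρ ((1 - s) * Ω) ((1 - s) * Ω) (q i - o) (q j - o) (hq i) (hq j)
          (mul_pos (by linarith) hΩ0) le_rfl (hpi s hs.1 hs.2)).2.2.1
        rw [hxy] at h6
        rw [← div_eq_inv_mul, le_div_iff₀ (hpos s hs.1 hs.2), mul_comm]
        exact h6
    · exact (h2 d ρ ((1 - s') * Ω) ((1 - s) * Ω) (q i - o) (q j - o) (hq i) (hq j)
          (mul_pos (by linarith) hΩ0) hk (hpi s hs.1 hs.2)).2.2.2
  · intro i
    simp only [sub_self, zero_mul, Real.sinc_zero, inv_one, one_smul]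
    rw [(h1 d).1, up_add h1]
  · intro i
    simp only [sub_zero, one_mul]
    have h5 : 0 < Real.sinc (Ω * ρ) := by
      have := hpos 0 le_rfl zero_le_one
      rwa [sub_zero, one_mul] at this
    rw [dist_add_right, dist_smul₀, Real.norm_eq_abs, abs_of_pos (inv_pos.2 h5), dist_eq_norm,
      (h1 d).2.2.2.1 Ω (q i - o) hΩ0, hsc, hΩ]
    field_simp
  · intro i j
    have h5 := hd 0 le_rfl zero_le_one i j
    simp only [sub_zero, one_mul] at h5 ⊢
    rw [h5]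
    have h6 : 0 < Real.sinc (Ω * ρ) := by
      have := hpos 0 le_rfl zero_le_one
      rwa [sub_zero, one_mul] at this
    have h7 := (h2 d ρ Ω Ω (q i - o) (q j - o) (hq i) (hq j) hΩ0 le_rfl (by
      have := hpi 0 le_rfl zero_le_one
      rwa [sub_zero, one_mul] at this)).2.1
    rw [hxy] at h7
    have h8 : (Real.sinc (Ω * ρ))⁻¹ = Real.arcsin (ρ / r) / (ρ / r) := by
      rw [hsc, inv_div]
    rw [← h8]
    exact mul_le_mul_of_nonneg_left h7 (inv_pos.2 h6).le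

end BendPath

theorem bendPathStmt (h1 : BendStmt) (h2 : BendMonoStmt) (h3 : BendRealStmt) : BendPathStmt :=
  ⟨BendPath.part1 h1 h2, BendPath.part2 h1 h2 h3⟩

end Pool.Agent.Lib.MP_0c1c75_co.Jmp
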