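import Pool.Agent.Lib.MP_0c1c75_co.JmpSpec

/-!
MP_0c1c75_co, module BendReal (helper32): real inequalities.
-/

open Set

namespace Pool.Agent.Lib.MP_0c1c75_co.Jmp

namespace BendReal

/-- `sin z / z` is antitone -/
lemma sin_mul_le {x y : ℝ} (hx : 0 ≤ x) (hxy : x ≤ y) (hy : y ≤ Real.pi) :
    x * Real.sin y ≤ y * Real.sin x := by
  rcases (hx.trans hxy).eq_or_lt with h0 | h0
  · have h1 : x = 0 := le_antisymm (h0 ▸ hxy) hx
    rw [← h0, h1]
  · have ha : 0 ≤ x / y := by positivity
    have hb : 0 ≤ 1 - x / y := sub_nonneg.mpr ((div_le_one h0).mpr hxy)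
    have hy' : y ∈ Icc 0 Real.pi := ⟨h0.le, hy⟩
    have h0' : (0 : ℝ) ∈ Icc 0 Real.pi := ⟨le_rfl, Real.pi_pos.le⟩
    have h1 := strictConcaveOn_sin_Icc.concaveOn.2 hy' h0' ha hb (by ring)
    simp only [smul_eq_mul, mul_zero, Real.sin_zero, add_zero] at h1
    rw [div_mul_cancel₀ x h0.ne'] at h1
    rw [div_mul_eq_mul_div, div_le_iff₀ h0] at h1
    linarith

/-- the numerator of the derivative of `sin (α T) / sin T` -/
lemma num_nonneg {α T : ℝ} (hα : 0 < α) (hα1 : α ≤ 1) (hT : 0 ≤ T) (hT2 : T ≤ Real.pi / 2) :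
    0 ≤ α * Real.cos (α * T) * Real.sin T - Real.sin (α * T) * Real.cos T := by
  have hd : ∀ x : ℝ, HasDerivAt (fun T => α * Real.cos (α * T) * Real.sin T -
      Real.sin (α * T) * Real.cos T) ((1 - α ^ 2) * (Real.sin (α * x) * Real.sin x)) x := by
    intro x
    have h1 : HasDerivAt (fun T : ℝ => α * T) α x := by
      simpa using (hasDerivAt_id x).const_mul α
    have h2 := ((h1.cos.const_mul α).mul (Real.hasDerivAt_sin x)).sub
      (h1.sin.mul (Real.hasDerivAt_cos x))
    refine h2.congr_deriv ?_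
    ring
  have hm : MonotoneOn (fun T => α * Real.cos (α * T) * Real.sin T -
      Real.sin (α * T) * Real.cos T) (Icc 0 (Real.pi / 2)) := by
    refine monotoneOn_of_deriv_nonneg (convex_Icc _ _)
      (fun x _ => (hd x).continuousAt.continuousWithinAt)
      (fun x _ => (hd x).differentiableAt.differentiableWithinAt) ?_
    intro x hx
    rw [interior_Icc] at hx
    rw [(hd x).deriv]
    have h1 : 0 ≤ Real.sin x := Real.sin_nonneg_of_nonneg_of_le_pi hx.1.le
      (by linarith [hx.2, Real.pi_pos])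
    have h2 : 0 ≤ Real.sin (α * x) := Real.sin_nonneg_of_nonneg_of_le_pi
      (mul_nonneg hα.le hx.1.le) (by nlinarith [hx.1, hx.2, Real.pi_pos])
    have h3 : 0 ≤ 1 - α ^ 2 := by nlinarith
    positivity
  have h0 := hm (left_mem_Icc.mpr (by positivity)) ⟨hT, hT2⟩ hT
  simpa using h0

/-- monotonicity of `sin (α T) / sin T` -/
lemma ratio {α T R : ℝ} (hα : 0 < α) (hα1 : α ≤ 1) (hT : 0 < T) (hTR : T ≤ R)
    (hR : R ≤ Real.pi / 2) :
    Real.sin (α * T) * Real.sin R ≤ Real.sin (α * R) * Real.sin T := by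
  have hpos : ∀ x ∈ Ioc 0 (Real.pi / 2), 0 < Real.sin x := fun x hx =>
    Real.sin_pos_of_pos_of_lt_pi hx.1 (by linarith [hx.2, Real.pi_pos])
  have hd : ∀ x ∈ Ioc 0 (Real.pi / 2), HasDerivAt (fun T => Real.sin (α * T) / Real.sin T)
      ((α * Real.cos (α * x) * Real.sin x - Real.sin (α * x) * Real.cos x) / Real.sin x ^ 2)
      x := by
    intro x hx
    have h1 : HasDerivAt (fun T : ℝ => α * T) α x := by
      simpa using (hasDerivAt_id x).const_mul α
    have h2 := h1.sin.div (Real.hasDerivAt_sin x) (hpos x hx).ne'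
    refine h2.congr_deriv ?_
    ring
  have hm : MonotoneOn (fun T => Real.sin (α * T) / Real.sin T) (Ioc 0 (Real.pi / 2)) := by
    refine monotoneOn_of_deriv_nonneg (convex_Ioc _ _)
      (fun x hx => (hd x hx).continuousAt.continuousWithinAt)
      (fun x hx => ?_) ?_
    · rw [interior_Ioc] at hx
      exact (hd x ⟨hx.1, hx.2.le⟩).differentiableAt.differentiableWithinAt
    · intro x hx
      rw [interior_Ioc] at hx
      rw [(hd x ⟨hx.1, hx.2.le⟩).deriv]
      exact div_nonneg (num_nonneg hα hα1 hx.1.le hx.2.le) (sq_nonneg _)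
  have hT' : T ∈ Ioc 0 (Real.pi / 2) := ⟨hT, hTR.trans hR⟩
  have hR' : R ∈ Ioc 0 (Real.pi / 2) := ⟨hT.trans_le hTR, hR⟩
  have h1 := hm hT' hR' hTR
  simp only at h1
  rwa [div_le_div_iff₀ (hpos T hT') (hpos R hR')] at h1

end BendReal

open BendReal

theorem bendRealStmt : BendRealStmt := by
  intro ρ k k' t ht htρ hk hkk' hk'
  have hk'0 : 0 < k' := hk.trans_le hkk'
  have hρ : 0 ≤ ρ := ht.trans htρ
  have hpi := Real.pi_pos
  have hkρ : k * ρ ≤ Real.pi / 2 := (mul_le_mul_of_nonneg_right hkk' hρ).trans hk'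
  have hk't : k' * t ≤ Real.pi / 2 := (mul_le_mul_of_nonneg_left htρ hk'0.le).trans hk'
  have hs : ∀ κ : ℝ, 0 < κ → κ * ρ ≤ Real.pi / 2 → 0 < Real.sinc (κ * ρ) := by
    intro κ hκ h
    rcases hρ.eq_or_lt with h0 | h0
    · rw [← h0, mul_zero, Real.sinc_zero]
      exact one_pos
    · rw [Real.sinc_of_ne_zero (by positivity)]
      have := Real.sin_pos_of_pos_of_lt_pi (mul_pos hκ h0) (by linarith)
      positivity
  refine ⟨?_, ?_, ?_, ?_, hs k hk hkρ⟩
  · rw [div_le_div_iff₀ hk'0 hk]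
    have h1 := sin_mul_le (x := k * t) (y := k' * t) (by positivity)
      (mul_le_mul_of_nonneg_right hkk' ht) (by linarith)
    rcases ht.eq_or_lt with h0 | h0
    · rw [← h0]
      simp
    · have h2 : t * (Real.sin (k' * t) * k) ≤ t * (Real.sin (k * t) * k') := by
        linarith
      exact le_of_mul_le_mul_left h2 h0
  · rw [div_le_iff₀ hk]
    have := Real.sin_le (mul_nonneg hk.le ht)
    linarith
  · rcases hρ.eq_or_lt with h0 | h0
    · have h1 : t = 0 := le_antisymm (h0 ▸ htρ) ht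
      rw [h1]
      simp
    · rw [Real.sinc_of_ne_zero (by positivity), le_div_iff₀ hk, div_mul_eq_mul_div,
        div_mul_eq_mul_div, div_le_iff₀ (by positivity)]
      have h1 := sin_mul_le (x := k * t) (y := k * ρ) (by positivity)
        (mul_le_mul_of_nonneg_left htρ hk.le) (by linarith)
      linarith
  · rcases ht.eq_or_lt with h0 | h0
    · rw [← h0]
      simp
    · have hρ0 : 0 < ρ := h0.trans_le htρ
      rw [Real.sinc_of_ne_zero (by positivity), Real.sinc_of_ne_zero (by positivity)]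
      have s1 : 0 < Real.sin (k * ρ) := Real.sin_pos_of_pos_of_lt_pi (by positivity) (by linarith)
      have s2 : 0 < Real.sin (k' * ρ) :=
        Real.sin_pos_of_pos_of_lt_pi (by positivity) (by linarith)
      have e1 : (Real.sin (k * ρ) / (k * ρ))⁻¹ * (Real.sin (k * t) / k) =
          ρ * Real.sin (k * t) / Real.sin (k * ρ) := by
        field_simp
      have e2 : (Real.sin (k' * ρ) / (k' * ρ))⁻¹ * (Real.sin (k' * t) / k') =
          ρ * Real.sin (k' * t) / Real.sin (k' * ρ) := by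
        field_simp
      rw [e1, e2, div_le_div_iff₀ s1 s2]
      have h1 := ratio (α := k / k') (T := k' * t) (R := k' * ρ) (by positivity)
        ((div_le_one hk'0).mpr hkk') (by positivity) (mul_le_mul_of_nonneg_left htρ hk'0.le) hk'
      have e3 : k / k' * (k' * t) = k * t := by field_simp
      have e4 : k / k' * (k' * ρ) = k * ρ := by field_simp
      rw [e3, e4] at h1
      have h2 := mul_le_mul_of_nonneg_left h1 hρ0.le
      linarith

end Pool.Agent.Lib.MP_0c1c75_co.Jmp
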