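import Pool.Agent.Lib.MP_0c1c75_co.JmpMotInt

/-!
MP_0c1c75_co, module JmpContE (helper43): continuity and limits of the integrals.
-/

open MeasureTheory Set Filter Topology

namespace Pool.Agent.Lib.MP_0c1c75_co.Jmp

open Pool.Agent.Lib.MP_0c1c75_co.Few (Prof)
open Pool.Agent.Lib.MP_0c1c75_co.Clu (est1Stmt hmx smx)
open MotInt

namespace ContE

lemma continuous_ff {n N : ℕ} (a : Fin N → ℝ) :
    Continuous (fun z : (Fin N → E n) × E n => ff z.1 a z.2) := by
  unfold ff
  fun_prop

lemma continuous_gmax {n N : ℕ} (hN : 0 < N) (a : Fin N → ℝ) :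
    Continuous (fun z : (Fin N → E n) × E n => gmax z.1 a z.2) := by
  have h1 := (est1Stmt N hN 1 one_pos).2.1
  exact h1.comp (continuous_ff a)

lemma continuous_sM {n N : ℕ} (hN : 0 < N) {β : ℝ} (hβ : 0 < β) (P : Fin N → E n)
    (a : Fin N → ℝ) : Continuous (fun x : E n => sM β P a x) := by
  have h1 := (est1Stmt N hN β hβ).2.2.1
  exact h1.comp ((continuous_ff a).comp (f := fun x : E n => (P, x)) (Continuous.prodMk_right P))

lemma farG {n N : ℕ} (hN : 0 < N) (a : Fin N → ℝ) (C T : ℝ) :
    ∃ R : ℝ, 0 < R ∧ ∀ P : Fin N → E n, (∀ i, ‖P i‖ ≤ C) → ∀ x : E n, R < ‖x‖ →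
      T < gmax P a x := by
  set i0 : Fin N := ⟨0, hN⟩
  refine ⟨|C| + |T + a i0| + 1, by positivity, fun P hP x hx => ?_⟩
  have h2 := ((est1Stmt N hN 1 one_pos).1 (ff P a x)).2.2.1 i0
  have h3 : ‖x‖ - ‖P i0‖ ≤ ‖x - P i0‖ := norm_sub_norm_le _ _
  have h4 : |T + a i0| + 1 ≤ ‖x - P i0‖ := by
    have := hP i0
    have := le_abs_self C
    linarith
  have h5 : T + a i0 < ‖x - P i0‖ ^ 2 := by
    have h6 : (|T + a i0| + 1) ^ 2 ≤ ‖x - P i0‖ ^ 2 := by
      apply pow_le_pow_left₀ (by positivity) h4
    have := le_abs_self (T + a i0)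
    have := abs_nonneg (T + a i0)
    nlinarith
  have h7 : ff P a x i0 = ‖x - P i0‖ ^ 2 - a i0 := rfl
  have h8 : hmx (ff P a x) = gmax P a x := rfl
  linarith

lemma exists_TB {f : ℝ → ℝ} (hf : Continuous f) (hs : HasCompactSupport f) :
    (∃ T : ℝ, ∀ s, T < s → f s = 0) ∧ ∃ B : ℝ, ∀ s, ‖f s‖ ≤ B := by
  constructor
  · obtain ⟨T, hT⟩ := hs.isCompact.bddAbove
    exact ⟨T, fun s h => image_eq_zero_of_notMem_tsupport fun h' => absurd (hT h') (not_le.mpr h)⟩
  · exact hs.exists_bound_of_continuous hf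

lemma integrable_bd {n : ℕ} (R B : ℝ) :
    Integrable ((Metric.closedBall (0 : E n) R).indicator (fun _ => B)) := by
  rw [integrable_indicator_iff measurableSet_closedBall]
  exact integrableOn_const measure_closedBall_lt_top.ne

end ContE

open ContE

theorem contEStmt : ContEStmt := by
  intro n N hN a f hf hsupp
  obtain ⟨⟨T, hT⟩, B, hB⟩ := exists_TB hf hsupp
  have hbdd : ∀ (R : ℝ) (g : E n → ℝ), (∀ x, R < ‖x‖ → T < g x) → ∀ x,
      ‖f (g x)‖ ≤ (Metric.closedBall (0 : E n) R).indicator (fun _ => B) x := by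
    intro R g hg x
    by_cases hx : x ∈ Metric.closedBall (0 : E n) R
    · rw [indicator_of_mem hx]
      exact hB _
    · rw [indicator_of_notMem hx, hT _ (hg x (by simpa using hx))]
      simp
  refine ⟨?_, ?_, ?_⟩
  · rw [continuous_iff_continuousAt]
    intro P0
    obtain ⟨R, -, hR⟩ := farG (n := n) hN a (‖P0‖ + 1) T
    refine continuousAt_of_dominated (bound := (Metric.closedBall (0 : E n) R).indicator
      (fun _ => B)) (Eventually.of_forall fun P => ?_) ?_ (integrable_bd R B)
      (Eventually.of_forall fun x => ?_)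
    · exact (hf.comp ((continuous_gmax hN a).comp (f := fun x : E n => (P, x))
        (Continuous.prodMk_right P))).aestronglyMeasurable
    · have h1 : ∀ᶠ P in 𝓝 P0, ‖P‖ < ‖P0‖ + 1 :=
        continuous_norm.continuousAt.eventually (gt_mem_nhds (by linarith))
      filter_upwards [h1] with P hP
      refine Eventually.of_forall fun x => hbdd R (fun x => gmax P a x) (fun x hx => ?_) x
      exact hR P (fun i => (norm_le_pi_norm P i).trans hP.le) x hx
    · exact (hf.comp ((continuous_gmax hN a).comp (f := fun P : Fin N → E n => (P, x))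
        (Continuous.prodMk_left x))).continuousAt
  · intro P c
    have h1 : ∀ x : E n, gmax (fun i => P i - c) a x = gmax P a (x + c) := fun x => by
      unfold gmax
      congr 1
      funext i
      have h2 : x - (P i - c) = x + c - P i := by abel
      rw [h2]
    simp only [h1]
    exact integral_add_right_eq_self (fun x => f (gmax P a x)) c
  · intro P
    obtain ⟨R, -, hR⟩ := far (n := n) hN a ‖P‖ T
    refine tendsto_integral_of_dominated_convergence
      ((Metric.closedBall (0 : E n) R).indicator (fun _ => B))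
      (fun m => (hf.comp (continuous_sM hN (by positivity) P a)).aestronglyMeasurable)
      (integrable_bd R B) (fun m => Eventually.of_forall fun x =>
        hbdd R (fun x => sM (m + 1) P a x) (fun x hx => ?_) x)
      (Eventually.of_forall fun x => ?_)
    · exact hR (m + 1) (by positivity) P (fun i => norm_le_pi_norm P i) x hx
    · refine (hf.tendsto _).comp ?_
      have h1 : Tendsto (fun m : ℕ => gmax P a x + Real.log N / ((m : ℝ) + 1)) atTop
          (𝓝 (gmax P a x)) := by
        have h2 : Tendsto (fun m : ℕ => Real.log N / ((m : ℝ) + 1)) atTop (𝓝 0) :=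
          tendsto_const_nhds.div_atTop (tendsto_natCast_atTop_atTop.atTop_add tendsto_const_nhds)
        simpa using tendsto_const_nhds.add h2
      refine tendsto_of_tendsto_of_tendsto_of_le_of_le tendsto_const_nhds h1 (fun m => ?_)
        (fun m => ?_)
      · exact ((est1Stmt N hN ((m : ℝ) + 1) (by positivity)).1 (ff P a x)).1
      · exact ((est1Stmt N hN ((m : ℝ) + 1) (by positivity)).1 (ff P a x)).2.1

end Pool.Agent.Lib.MP_0c1c75_co.Jmp
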