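import Pool.Agent.Lib.MP_0c1c75_co.JmpSpec
import Pool.Agent.Lib.MP_0c1c75_co.FewFinal

/-!
MP_0c1c75_co (Kneser-Poulsen for intersections of balls): the theorem on motions with a jump.
-/

open MeasureTheory Set Filter Topology
open scoped ContDiff

namespace Pool.Agent.Lib.MP_0c1c75_co.Jmp

namespace Jump

lemma gmax_le_iff {d N : ℕ} (hN : 0 < N) (p : Fin N → E d) (a : Fin N → ℝ) (x : E d) (t : ℝ) :
    gmax p a x ≤ t ↔ ∀ i, ‖x - p i‖ ^ 2 - a i ≤ t := by
  haveI : Nonempty (Fin N) := ⟨⟨0, hN⟩⟩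
  unfold gmax
  rw [ciSup_le_iff (Set.finite_range _).bddAbove]

lemma set_eq {d N : ℕ} (hN : 0 < N) (p : Fin N → E d) (r : Fin N → ℝ) (hr : ∀ i, 0 ≤ r i) :
    {x | gmax p (fun i => r i ^ 2) x ≤ 0} = ⋂ i, Metric.closedBall (p i) (r i) := by
  ext x
  rw [mem_setOf_eq, gmax_le_iff hN, mem_iInter]
  refine forall_congr' fun i => ?_
  rw [Metric.mem_closedBall, dist_eq_norm, sub_nonpos]
  exact pow_le_pow_iff_left₀ (norm_nonneg _) (hr i) two_ne_zero

lemma closed {d N : ℕ} (hN : 0 < N) (p : Fin N → E d) (a : Fin N → ℝ) (t : ℝ) :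
    IsClosed {x | gmax p a x ≤ t} := by
  have : {x | gmax p a x ≤ t} = ⋂ i, {x : E d | ‖x - p i‖ ^ 2 - a i ≤ t} := by
    ext x
    rw [mem_setOf_eq, gmax_le_iff hN, mem_iInter]
    rfl
  rw [this]
  refine isClosed_iInter fun i => isClosed_le ?_ continuous_const
  fun_prop

lemma finite {d N : ℕ} (hN : 0 < N) (p : Fin N → E d) (a : Fin N → ℝ) (t : ℝ) :
    volume {x | gmax p a x ≤ t} ≠ ⊤ := by
  have h : {x | gmax p a x ≤ t} ⊆ Metric.closedBall (p ⟨0, hN⟩) (√(a ⟨0, hN⟩ + t)) := by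
    intro x hx
    rw [mem_setOf_eq, gmax_le_iff hN] at hx
    rw [Metric.mem_closedBall, dist_eq_norm]
    refine Real.le_sqrt_of_sq_le ?_
    linarith [hx ⟨0, hN⟩]
  exact ((measure_mono h).trans_lt measure_closedBall_lt_top).ne

lemma tendsto {d N : ℕ} (hN : 0 < N) (p : Fin N → E d) (a : Fin N → ℝ) :
    Tendsto (fun k : ℕ => volume.real {x | gmax p a x ≤ 1 / ((k : ℝ) + 1)}) atTop
      (𝓝 (volume.real {x | gmax p a x ≤ 0})) := by
  have h1 : {x | gmax p a x ≤ 0} = ⋂ k : ℕ, {x | gmax p a x ≤ 1 / ((k : ℝ) + 1)} := by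
    ext x
    rw [mem_iInter]
    constructor
    · intro h k
      rw [mem_setOf_eq] at h ⊢
      exact h.trans (by positivity)
    · intro h
      rw [mem_setOf_eq]
      exact ge_of_tendsto' tendsto_one_div_add_atTop_nhds_zero_nat h
  have h2 := tendsto_measure_iInter_atTop (μ := (volume : Measure (E d)))
    (s := fun k : ℕ => {x | gmax p a x ≤ 1 / ((k : ℝ) + 1)})
    (fun k => (closed hN p a _).measurableSet.nullMeasurableSet)
    (fun k l hkl x hx => by
      rw [mem_setOf_eq] at hx ⊢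
      refine hx.trans (one_div_le_one_div_of_le (by positivity) ?_)
      have : (k : ℝ) ≤ l := by exact_mod_cast hkl
      linarith) ⟨0, finite hN p a _⟩
  rw [← h1] at h2
  exact (ENNReal.tendsto_toReal (finite hN p a 0)).comp h2

end Jump

open Jump

theorem jumpStmt (h1 : MotionStmt) (h2 : ContEStmt) (h3 : SandStmt) (h4 : SphLimStmt)
    (h5 : SlepSStmt) : JumpStmt := by
  intro d N p q r P Q z z' hP1 hP2 hP3 hQ1 hQ2 hQ3 hP0 hQ0 hz hz' hPQ
  rcases Nat.eq_zero_or_pos N with rfl | hN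
  · rw [iInter_of_empty, iInter_of_empty]
  rcases Nat.eq_zero_or_pos d with rfl | hd
  · have : p = q := Subsingleton.elim _ _
    rw [this]
  have hr : ∀ i, 0 ≤ r i := fun i => by rw [← hz i]; exact dist_nonneg
  set a : Fin N → ℝ := fun i => r i ^ 2 with ha
  choose Φ hΦ using fun k : ℕ => Few.Final.exists_prof (ε := 1 / ((k : ℝ) + 1)) (by positivity)
  have hPk : ∀ k : ℕ, Pk (Φ k) (1 / ((k : ℝ) + 1)) := fun k => ⟨(hΦ k).1, (hΦ k).2.1, (hΦ k).2.2⟩
  have hε : ∀ k : ℕ, (0 : ℝ) < 1 / ((k : ℝ) + 1) := fun k => by positivity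
  set n : Fin N → E (d + 2) := fun i => P 1 i - z with hn
  set m : Fin N → E (d + 2) := fun i => Q 0 i - z' with hm
  have hnr : ∀ i, ‖n i‖ = r i := fun i => by rw [← hz i, dist_eq_norm]
  have hmr : ∀ i, ‖m i‖ = r i := fun i => by rw [← hz' i, dist_eq_norm]
  have han : (fun i => ‖n i‖ ^ 2) = a := funext fun i => by rw [hnr]
  have ham : (fun i => ‖m i‖ ^ 2) = a := funext fun i => by rw [hmr]
  have hcont : ∀ k, Continuous (Φ k) := fun k => (hPk k).prof.smooth.continuous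
  have e0 : P 0 = fun i => up (p i) := funext hP0
  have e1 : Q 1 = fun i => up (q i) := funext hQ0
  -- first motion
  have hA : ∀ k, Real.pi * volume.real {x | gmax p a x ≤ 0} ≤
      ∫ x, Φ k (gmax n (fun i => ‖n i‖ ^ 2) x) := by
    intro k
    have s1 := (h3 d N hN p a _ (hε k) (Φ k) (hPk k)).1
    have s2 := h1 (d + 2) N hN (Φ k) (hPk k).prof a P hP1 hP2 hP3
    have s3 := (h2 (d + 2) N hN a (Φ k) (hcont k) (hPk k).prof.supp).2.1 (P 1) z
    rw [e0] at s2
    rw [han]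
    exact s1.trans (s2.trans s3.ge)
  have hA' : Real.pi * volume.real {x | gmax p a x ≤ 0} ≤ 2 ^ d * sph d n :=
    ge_of_tendsto' (h4 d N hd hN n Φ hPk) hA
  -- second motion
  have hB : ∀ k : ℕ, ∫ x, Φ k (gmax m (fun i => ‖m i‖ ^ 2) x) ≤
      Real.pi * volume.real {x | gmax q a x ≤ 1 / ((k : ℝ) + 1)} := by
    intro k
    have s1 := (h3 d N hN q a _ (hε k) (Φ k) (hPk k)).2
    have s2 := h1 (d + 2) N hN (Φ k) (hPk k).prof a Q hQ1 hQ2 hQ3
    have s3 := (h2 (d + 2) N hN a (Φ k) (hcont k) (hPk k).prof.supp).2.1 (Q 0) z'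
    rw [e1] at s2
    rw [ham]
    exact s3.le.trans (s2.trans s1)
  have hB' : 2 ^ d * sph d m ≤ Real.pi * volume.real {x | gmax q a x ≤ 0} :=
    le_of_tendsto_of_tendsto' (h4 d N hd hN m Φ hPk) ((tendsto hN q a).const_mul Real.pi) hB
  -- the jump
  have hJ : sph d n ≤ sph d m := by
    refine h5 (d + 2) N d hN hd n m (fun i => by rw [hnr, hmr]) fun i j => ?_
    rw [hn, hm, dist_sub_right, dist_sub_right]
    exact hPQ i j
  have hfin : volume.real {x | gmax p a x ≤ 0} ≤ volume.real {x | gmax q a x ≤ 0} := by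
    have s1 : (2 : ℝ) ^ d * sph d n ≤ 2 ^ d * sph d m :=
      mul_le_mul_of_nonneg_left hJ (by positivity)
    exact le_of_mul_le_mul_left (hA'.trans (s1.trans hB')) Real.pi_pos
  rw [← set_eq hN p r hr, ← set_eq hN q r hr]
  exact (ENNReal.toReal_le_toReal (finite hN p a 0) (finite hN q a 0)).1 hfin

end Pool.Agent.Lib.MP_0c1c75_co.Jmp
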