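import Pool.Agent.Lib.MP_0c1c75_co.JmpMotInt

/-!
MP_0c1c75_co, module JmpMotErr (helper43): the error term tends to zero.
-/

open MeasureTheory Set Filter Topology

namespace Pool.Agent.Lib.MP_0c1c75_co.Jmp

open Pool.Agent.Lib.MP_0c1c75_co.Few (Prof)
open Pool.Agent.Lib.MP_0c1c75_co.Clu (est1Stmt)
open MotInt

namespace MotErr

lemma hyperplane_null {n : ℕ} (w : E n) (hw : w ≠ 0) (c : ℝ) :
    volume {x : E n | inner ℝ w x = c} = 0 := by
  set K : Submodule ℝ (E n) := LinearMap.ker (innerSL ℝ w).toLinearMap with hK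
  have hKm : ∀ x, x ∈ K ↔ inner ℝ w x = 0 := fun x => by simp [hK]
  have hKt : K ≠ ⊤ := fun h => by
    have h1 : w ∈ K := by rw [h]; trivial
    rw [hKm] at h1
    exact hw (inner_self_eq_zero.mp h1)
  have hn : ‖w‖ ^ 2 ≠ 0 := by positivity
  have h0 := Measure.addHaar_submodule (volume : Measure (E n)) K hKt
  set x0 : E n := (-c / ‖w‖ ^ 2) • w with hx0
  have h1 : {x : E n | inner ℝ w x = c} = (fun x => x + x0) ⁻¹' (K : Set (E n)) := by
    ext x
    simp only [mem_ofPred_eq, mem_preimage, SetLike.mem_coe, hKm, inner_add_right, hx0,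
      inner_smul_right, real_inner_self_eq_norm_sq]
    rw [div_mul_cancel₀ _ hn]
    constructor
    · intro h; linarith
    · intro h; linarith
  rw [h1, measure_preimage_add_right, h0]

lemma ff_sub {n N : ℕ} (P : Fin N → E n) (a : Fin N → ℝ) (x : E n) (i j : Fin N) :
    ff P a x i - ff P a x j =
      2 * inner ℝ (P j - P i) x + (‖P i‖ ^ 2 - ‖P j‖ ^ 2 - a i + a j) := by
  unfold ff
  rw [norm_sub_sq_real, norm_sub_sq_real, inner_sub_left, real_inner_comm x (P i),
    real_inner_comm x (P j)]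
  ring

lemma ae_ne {n N : ℕ} (P : Fin N → E n) (a : Fin N → ℝ) :
    ∀ᵐ x : E n, ∀ i j, P i ≠ P j → ff P a x i ≠ ff P a x j := by
  rw [ae_all_iff]
  intro i
  rw [ae_all_iff]
  intro j
  by_cases h : P i = P j
  · exact Eventually.of_forall fun x hx => absurd h hx
  · have h1 := hyperplane_null (P j - P i) (sub_ne_zero.mpr (Ne.symm h))
      (-(‖P i‖ ^ 2 - ‖P j‖ ^ 2 - a i + a j) / 2)
    have h2 : ∀ᵐ x : E n, x ∉ {x : E n | inner ℝ (P j - P i) x =
        -(‖P i‖ ^ 2 - ‖P j‖ ^ 2 - a i + a j) / 2} := measure_eq_zero_iff_ae_notMem.mp h1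
    filter_upwards [h2] with x hx _ he
    apply hx
    have h3 := ff_sub P a x i j
    rw [he, sub_self] at h3
    change inner ℝ (P j - P i) x = _
    linarith

/-- pointwise convergence of the pair sum -/
lemma tendsto_pr {n N : ℕ} (hN : 0 < N) (P : Fin N → E n) (a : Fin N → ℝ) (v : Fin N → E n)
    (x : E n) (h : ∀ i j, P i ≠ P j → ff P a x i ≠ ff P a x j) :
    Tendsto (fun m : ℕ => pr (m + 1) P a v x) atTop (𝓝 0) := by
  have h0 : (0 : ℝ) = ∑ _i : Fin N, ∑ _j : Fin N, (0 : ℝ) := by simp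
  rw [h0]
  unfold pr
  refine tendsto_finsetSum _ fun i _ => tendsto_finsetSum _ fun j _ => ?_
  by_cases hij : P i = P j
  · simp [hij]
  · have hij' : i ≠ j := fun h => hij (by rw [h])
    have hd : 0 < |ff P a x i - ff P a x j| := abs_pos.mpr (sub_ne_zero.mpr (h i j hij))
    have h1 : Tendsto (fun m : ℕ => sW (m + 1) P a x i * sW (m + 1) P a x j) atTop (𝓝 0) := by
      have h2 : Tendsto (fun m : ℕ => Real.exp (-(((m : ℝ) + 1) * |ff P a x i - ff P a x j|)))
          atTop (𝓝 0) := by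
        refine Real.tendsto_exp_neg_atTop_nhds_zero.comp ?_
        exact (tendsto_natCast_atTop_atTop.atTop_add tendsto_const_nhds).atTop_mul_const hd
      refine tendsto_of_tendsto_of_tendsto_of_le_of_le tendsto_const_nhds h2 (fun m => ?_)
        (fun m => ?_)
      · have hw := ((est1Stmt N hN ((m : ℝ) + 1) (by positivity)).1 (ff P a x)).2.2.2.2.1
        exact mul_nonneg (hw i).le (hw j).le
      · have hw := ((est1Stmt N hN ((m : ℝ) + 1) (by positivity)).1 (ff P a x)).2.2.2.2.2.2.2.1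
        exact hw i j hij'
    simpa using h1.mul_const (-inner ℝ (P i - P j) (v i - v j))

lemma pr_le {n N : ℕ} (hN : 0 < N) {β : ℝ} (hβ : 0 < β) (P : Fin N → E n) (a : Fin N → ℝ)
    (v : Fin N → E n) (x : E n) :
    pr β P a v x ≤ ∑ i, ∑ j, |inner ℝ (P i - P j) (v i - v j)| := by
  have hw := ((est1Stmt N hN β hβ).1 (ff P a x)).2.2.2.2.1
  have hw1 := ((est1Stmt N hN β hβ).1 (ff P a x)).2.2.2.2.2.1
  refine Finset.sum_le_sum fun i _ => Finset.sum_le_sum fun j _ => ?_
  have h1 : 0 ≤ sW β P a x i * sW β P a x j := mul_nonneg (hw i).le (hw j).le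
  have h2 : sW β P a x i * sW β P a x j ≤ 1 := by
    have := mul_le_mul (hw1 i) (hw1 j) (hw j).le zero_le_one
    rw [one_mul] at this
    exact this
  have h3 : -inner ℝ (P i - P j) (v i - v j) ≤ |inner ℝ (P i - P j) (v i - v j)| := neg_le_abs _
  calc sW β P a x i * sW β P a x j * -inner ℝ (P i - P j) (v i - v j)
      ≤ sW β P a x i * sW β P a x j * |inner ℝ (P i - P j) (v i - v j)| :=
        mul_le_mul_of_nonneg_left h3 h1
    _ ≤ 1 * |inner ℝ (P i - P j) (v i - v j)| := mul_le_mul_of_nonneg_right h2 (abs_nonneg _)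
    _ = _ := one_mul _

end MotErr

open MotErr

theorem motErrStmt (H : MotPtStmt) : MotErrStmt := by
  intro n N hN Φ hΦ a P v s0 s1 hs hP hv hin
  obtain ⟨T, -, hT⟩ := exists_top hΦ
  obtain ⟨C, hC⟩ := exists_bound hP
  obtain ⟨R, -, hR⟩ := far (n := n) hN a C T
  have hdc : Continuous (deriv Φ) := hΦ.smooth.continuous_deriv (by simp)
  obtain ⟨B, hB⟩ : ∃ B : ℝ, ∀ s, |deriv Φ s| ≤ B := by
    obtain ⟨B, hB⟩ := hΦ.supp.deriv.exists_bound_of_continuous hdc
    exact ⟨B, fun s => by simpa using hB s⟩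
  have hB0 : 0 ≤ B := (abs_nonneg _).trans (hB 0)
  -- uniform bound of the pair sum
  obtain ⟨K, hK⟩ : ∃ K : ℝ, ∀ s ∈ Icc s0 s1,
      ∑ i, ∑ j, |inner ℝ (P s i - P s j) (v s i - v s j)| ≤ K := by
    have hc : ContinuousOn (fun s => ∑ i, ∑ j, |inner ℝ (P s i - P s j) (v s i - v s j)|)
        (Icc s0 s1) := by
      refine continuousOn_finsetSum _ fun i _ => continuousOn_finsetSum _ fun j _ => ?_
      exact (((hP i).sub (hP j)).inner ((hv i).sub (hv j))).abs
    obtain ⟨K, hK⟩ := isCompact_Icc.exists_bound_of_continuousOn hc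
    exact ⟨K, fun s hs' => (le_abs_self _).trans (by simpa using hK s hs')⟩
  have hPe : Continuous (ext hs P) := continuous_ext hs (continuousOn_pi.mpr hP)
  have hve : Continuous (ext hs v) := continuous_ext hs (continuousOn_pi.mpr hv)
  have c3 : Continuous (fun z : ℝ × E n => ((ext hs P z.1, ext hs v z.1), z.2)) :=
    ((hPe.comp continuous_fst).prodMk (hve.comp continuous_fst)).prodMk continuous_snd
  have c2 : Continuous (fun z : ℝ × E n => (ext hs P z.1, z.2)) :=
    (hPe.comp continuous_fst).prodMk continuous_snd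
  set G : ℕ → ℝ × E n → ℝ := fun m z => |deriv Φ (sM (m + 1) (ext hs P z.1) a z.2)| *
    pr (m + 1) (ext hs P z.1) a (ext hs v z.1) z.2 with hG
  have hpos : ∀ m : ℕ, (0 : ℝ) < (m : ℝ) + 1 := fun m => by positivity
  have cG : ∀ m, Continuous (G m) := fun m => by
    obtain ⟨-, -, -, cM, -, -, cpr, -⟩ := H n N hN Φ hΦ (m + 1) (hpos m) a
    have cMe : Continuous (fun z : ℝ × E n => sM (m + 1) (ext hs P z.1) a z.2) :=
      cM.comp (f := fun z : ℝ × E n => (ext hs P z.1, z.2)) c2
    have cpre : Continuous (fun z : ℝ × E n => pr (m + 1) (ext hs P z.1) a (ext hs v z.1) z.2) :=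
      cpr.comp (f := fun z : ℝ × E n => ((ext hs P z.1, ext hs v z.1), z.2)) c3
    exact ((hdc.comp cMe).abs).mul cpre
  have eG : ∀ m, ∀ s ∈ Icc s0 s1, ∀ x, G m (s, x) = |deriv Φ (sM (m + 1) (P s) a x)| *
      pr (m + 1) (P s) a (v s) x := fun m s hs' x => by
    simp only [hG, ext_eq hs _ hs']
  have hvan : ∀ m, ∀ s ∈ Icc s0 s1, ∀ x : E n, R < ‖x‖ → G m (s, x) = 0 :=
    fun m s hs' x hx => by
      rw [eG m s hs' x, (hT _ (hR (m + 1) (hpos m) (P s) (hC s hs') x hx)).2]
      simp
  have hbd : ∀ m, ∀ s ∈ Icc s0 s1, ∀ x : E n,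
      ‖G m (s, x)‖ ≤ (Metric.closedBall (0 : E n) R).indicator (fun _ => B * K) x := by
    intro m s hs' x
    by_cases hx : x ∈ Metric.closedBall (0 : E n) R
    · rw [indicator_of_mem hx, eG m s hs' x]
      have h1 := pr_nonneg hN (hpos m) (P s) a (v s) x (hin s hs')
      have h2 := (pr_le hN (hpos m) (P s) a (v s) x).trans (hK s hs')
      rw [Real.norm_eq_abs, abs_mul, abs_abs, abs_of_nonneg h1]
      exact mul_le_mul (hB _) h2 h1 hB0
    · rw [indicator_of_notMem hx, hvan m s hs' x (by simpa using hx)]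
      simp
  have ibd : Integrable ((Metric.closedBall (0 : E n) R).indicator (fun _ => B * K)) := by
    rw [integrable_indicator_iff measurableSet_closedBall]
    exact integrableOn_const measure_closedBall_lt_top.ne
  -- fixed time
  have hA : ∀ s ∈ Icc s0 s1, Tendsto (fun m => ∫ x, G m (s, x)) atTop (𝓝 0) := by
    intro s hs'
    have h0 : (0 : ℝ) = ∫ _x : E n, (0 : ℝ) := by simp
    rw [h0]
    refine tendsto_integral_of_dominated_convergence
      ((Metric.closedBall (0 : E n) R).indicator (fun _ => B * K))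
      (fun m => ((cG m).comp (f := fun x : E n => (s, x))
        (Continuous.prodMk_right s)).aestronglyMeasurable) ibd
      (fun m => Eventually.of_forall fun x => hbd m s hs' x) ?_
    filter_upwards [ae_ne (P s) a] with x hx
    have h1 := tendsto_pr hN (P s) a (v s) x hx
    have h2 : Tendsto (fun m : ℕ => B * pr (m + 1) (P s) a (v s) x) atTop (𝓝 0) := by
      simpa using h1.const_mul B
    refine tendsto_of_tendsto_of_tendsto_of_le_of_le tendsto_const_nhds h2 (fun m => ?_)
      (fun m => ?_)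
    · simp only
      rw [eG m s hs' x]
      exact mul_nonneg (abs_nonneg _) (pr_nonneg hN (hpos m) (P s) a (v s) x (hin s hs'))
    · simp only
      rw [eG m s hs' x]
      exact mul_le_mul_of_nonneg_right (hB _)
        (pr_nonneg hN (hpos m) (P s) a (v s) x (hin s hs'))
  have hEq : ∀ m : ℕ, ∫ s in s0..s1, ∫ x, |deriv Φ (sM (m + 1) (P s) a x)| *
      pr (m + 1) (P s) a (v s) x = ∫ s in Ioc s0 s1, ∫ x, G m (s, x) := fun m => by
    rw [intervalIntegral.integral_of_le hs]
    refine setIntegral_congr_fun measurableSet_Ioc fun s hs' => ?_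
    simp only [eG m s (Ioc_subset_Icc_self hs')]
  simp only [hEq]
  have h0 : (0 : ℝ) = ∫ _s in Ioc s0 s1, (0 : ℝ) := by simp
  rw [h0]
  refine tendsto_integral_of_dominated_convergence
    (fun _ => ∫ x, (Metric.closedBall (0 : E n) R).indicator (fun _ => B * K) x)
    (fun m => (integrable_prod (cG m) R (hvan m)).integral_prod_left.aestronglyMeasurable)
    (integrable_const _) (fun m => ?_) ?_
  · refine (ae_restrict_iff' measurableSet_Ioc).mpr (Eventually.of_forall fun s hs' => ?_)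
    refine (norm_integral_le_integral_norm _).trans ?_
    refine integral_mono_of_nonneg (Eventually.of_forall fun x => norm_nonneg _) ibd
      (Eventually.of_forall fun x => hbd m s (Ioc_subset_Icc_self hs') x)
  · refine (ae_restrict_iff' measurableSet_Ioc).mpr (Eventually.of_forall fun s hs' => ?_)
    exact hA s (Ioc_subset_Icc_self hs')

end Pool.Agent.Lib.MP_0c1c75_co.Jmp
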