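import Pool.Agent.Lib.MP_0c1c75_co.JmpSpec
import Pool.Agent.Lib.MP_0c1c75_co.CluEst1
import Pool.Agent.Lib.MP_0c1c75_co.Gauss

/-!
MP_0c1c75_co, module JmpMotInt (helper43): the integrated form of the derivative, and common lemmas
on supports and Fubini.
-/

open MeasureTheory Set Filter Topology

namespace Pool.Agent.Lib.MP_0c1c75_co.Jmp

open Pool.Agent.Lib.MP_0c1c75_co.Few (Prof)
open Pool.Agent.Lib.MP_0c1c75_co.Clu (est1Stmt)

namespace MotInt

/-- a profile and its derivative vanish above some `T` -/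
lemma exists_top {Φ : ℝ → ℝ} (hΦ : Prof Φ) :
    ∃ T : ℝ, 0 ≤ T ∧ ∀ s, T < s → Φ s = 0 ∧ deriv Φ s = 0 := by
  obtain ⟨T, hT⟩ := hΦ.supp.isCompact.bddAbove
  refine ⟨max T 0, le_max_right _ _, fun s hs => ?_⟩
  have hs' : s ∉ tsupport Φ := fun h => absurd (hT h) (not_le.mpr ((le_max_left _ _).trans_lt hs))
  refine ⟨image_eq_zero_of_notMem_tsupport hs', ?_⟩
  have h2 : s ∉ tsupport (deriv Φ) := fun h => hs' (tsupport_deriv_subset h)
  exact image_eq_zero_of_notMem_tsupport h2

/-- uniform radius: outside the ball the soft maximum is larger than `T` -/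
lemma far {n N : ℕ} (hN : 0 < N) (a : Fin N → ℝ) (C T : ℝ) :
    ∃ R : ℝ, 0 < R ∧ ∀ β : ℝ, 0 < β → ∀ P : Fin N → E n, (∀ i, ‖P i‖ ≤ C) → ∀ x : E n, R < ‖x‖ →
      T < sM β P a x := by
  set i0 : Fin N := ⟨0, hN⟩
  refine ⟨|C| + |T + a i0| + 1, by positivity, fun β hβ P hP x hx => ?_⟩
  have h1 := ((est1Stmt N hN β hβ).1 (ff P a x)).1
  have h2 := ((est1Stmt N hN β hβ).1 (ff P a x)).2.2.1 i0
  have h3 : ‖x‖ - ‖P i0‖ ≤ ‖x - P i0‖ := norm_sub_norm_le _ _
  have h4 : |T + a i0| + 1 ≤ ‖x - P i0‖ := by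
    have := hP i0
    have := le_abs_self C
    linarith
  have h5 : T + a i0 < ‖x - P i0‖ ^ 2 := by
    have h6 : (|T + a i0| + 1) ^ 2 ≤ ‖x - P i0‖ ^ 2 := by
      apply pow_le_pow_left₀ (by positivity) h4
    have := le_abs_self (T + a i0)
    have := abs_nonneg (T + a i0)
    nlinarith
  have h7 : ff P a x i0 = ‖x - P i0‖ ^ 2 - a i0 := rfl
  unfold sM
  linarith

/-- Fubini: a continuous function which vanishes for large `x` -/
lemma integrable_prod {n : ℕ} {s0 s1 : ℝ} {G : ℝ × E n → ℝ} (hG : Continuous G) (R : ℝ)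
    (h : ∀ s ∈ Icc s0 s1, ∀ x : E n, R < ‖x‖ → G (s, x) = 0) :
    Integrable G (((volume : Measure ℝ).restrict (Ioc s0 s1)).prod (volume : Measure (E n))) := by
  have h1 : IntegrableOn G (Icc s0 s1 ×ˢ Metric.closedBall (0 : E n) R)
      ((volume : Measure ℝ).prod (volume : Measure (E n))) :=
    hG.continuousOn.integrableOn_compact (isCompact_Icc.prod (isCompact_closedBall _ _))
  have h2 : IntegrableOn G (Icc s0 s1 ×ˢ (univ : Set (E n)))
      ((volume : Measure ℝ).prod (volume : Measure (E n))) := by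
    refine h1.of_forall_sdiff_eq_zero (measurableSet_Icc.prod MeasurableSet.univ) ?_
    rintro ⟨s, x⟩ ⟨hs, hx⟩
    refine h s hs.1 x ?_
    by_contra hc
    exact hx ⟨hs.1, by simpa using hc⟩
  have h3 : ((volume : Measure ℝ).restrict (Ioc s0 s1)).prod (volume : Measure (E n)) =
      ((volume : Measure ℝ).prod (volume : Measure (E n))).restrict (Ioc s0 s1 ×ˢ univ) := by
    rw [← Measure.prod_restrict, Measure.restrict_univ]
  rw [h3]
  exact h2.mono_set (prod_mono Ioc_subset_Icc_self le_rfl)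

/-- a continuous function of `x` which vanishes for large `x` is integrable -/
lemma integrable_x {n : ℕ} {G : E n → ℝ} (hG : Continuous G) (R : ℝ)
    (h : ∀ x : E n, R < ‖x‖ → G x = 0) : Integrable G := by
  refine hG.integrable_of_hasCompactSupport ?_
  refine HasCompactSupport.of_support_subset_isCompact (isCompact_closedBall (0 : E n) R) ?_
  intro x hx
  by_contra hc
  exact hx (h x (by simpa using hc))

/-- constant extension of a path -/
noncomputable def ext {α : Type*} {s0 s1 : ℝ} (h : s0 ≤ s1) (P : ℝ → α) (s : ℝ) : α :=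
  P (projIcc s0 s1 h s)

lemma ext_eq {α : Type*} {s0 s1 : ℝ} (h : s0 ≤ s1) (P : ℝ → α) {s : ℝ} (hs : s ∈ Icc s0 s1) :
    ext h P s = P s := by
  simp [ext, projIcc_of_mem h hs]

lemma continuous_ext {α : Type*} [TopologicalSpace α] {s0 s1 : ℝ} (h : s0 ≤ s1) {P : ℝ → α}
    (hP : ContinuousOn P (Icc s0 s1)) : Continuous (ext h P) :=
  (continuousOn_iff_continuous_domRestrict.mp hP).comp continuous_projIcc

/-- uniform bound for the centres -/
lemma exists_bound {n N : ℕ} {s0 s1 : ℝ} {P : ℝ → Fin N → E n}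
    (hP : ∀ i, ContinuousOn (fun s => P s i) (Icc s0 s1)) :
    ∃ C : ℝ, ∀ s ∈ Icc s0 s1, ∀ i, ‖P s i‖ ≤ C := by
  have h1 : ContinuousOn P (Icc s0 s1) := continuousOn_pi.mpr hP
  obtain ⟨C, hC⟩ := isCompact_Icc.exists_bound_of_continuousOn h1
  exact ⟨C, fun s hs i => (norm_le_pi_norm (P s) i).trans (hC s hs)⟩

lemma pr_nonneg {n N : ℕ} (hN : 0 < N) {β : ℝ} (hβ : 0 < β) (P : Fin N → E n) (a : Fin N → ℝ)
    (v : Fin N → E n) (x : E n) (h : ∀ i j, inner ℝ (P i - P j) (v i - v j) ≤ 0) :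
    0 ≤ pr β P a v x := by
  have hw := ((est1Stmt N hN β hβ).1 (ff P a x)).2.2.2.2.1
  refine Finset.sum_nonneg fun i _ => Finset.sum_nonneg fun j _ => ?_
  exact mul_nonneg (mul_nonneg (hw i).le (hw j).le) (neg_nonneg.mpr (h i j))

/-- the inequality at a fixed time -/
lemma slice (H : MotPtStmt) {n N : ℕ} (hN : 0 < N) {Φ : ℝ → ℝ} (hΦ : Prof Φ) {β : ℝ} (hβ : 0 < β)
    (a : Fin N → ℝ) (P v : Fin N → E n) (h : ∀ i j, inner ℝ (P i - P j) (v i - v j) ≤ 0) :
    -∫ x, |deriv Φ (sM β P a x)| * pr β P a v x ≤ ∫ x, ds Φ β P a v x := by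
  obtain ⟨hline, -, halg, cM, cW, cds, cpr, cdw⟩ := H n N hN Φ hΦ β hβ a
  obtain ⟨T, -, hT⟩ := exists_top hΦ
  obtain ⟨C, hC⟩ : ∃ C : ℝ, ∀ i, ‖P i‖ ≤ C := ⟨‖P‖, fun i => norm_le_pi_norm P i⟩
  obtain ⟨R, -, hR⟩ := far (n := n) hN a C T
  have hv : ∀ x : E n, R < ‖x‖ → Φ (sM β P a x) = 0 ∧ deriv Φ (sM β P a x) = 0 :=
    fun x hx => hT _ (hR β hβ P hC x hx)
  have hdc : Continuous (deriv Φ) := hΦ.smooth.continuous_deriv (by simp)
  have cM' : Continuous fun x => sM β P a x :=
    cM.comp (f := fun x : E n => (P, x)) (Continuous.prodMk_right P)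
  have cW' : ∀ i, Continuous fun x => sW β P a x i := fun i =>
    (cW i).comp (f := fun x : E n => (P, x)) (Continuous.prodMk_right P)
  have cpr' : Continuous fun x => pr β P a v x :=
    cpr.comp (f := fun x : E n => ((P, v), x)) (Continuous.prodMk_right (P, v))
  have cds' : Continuous fun x => ds Φ β P a v x :=
    cds.comp (f := fun x : E n => ((P, v), x)) (Continuous.prodMk_right (P, v))
  have cdw' : ∀ i, Continuous fun x => dw Φ β P a (v i) i x := fun i =>
    (cdw i).comp (f := fun x : E n => ((P, v i), x)) (Continuous.prodMk_right (P, v i))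
  have ids : Integrable (fun x => ds Φ β P a v x) := integrable_x cds' R fun x hx => by
    simp [ds, (hv x hx).2]
  have idw : ∀ i, Integrable (fun x => dw Φ β P a (v i) i x) := fun i =>
    integrable_x (cdw' i) R fun x hx => by simp [dw, (hv x hx).1, (hv x hx).2]
  have iw : ∀ i, Integrable (fun x => sW β P a x i * Φ (sM β P a x)) := fun i =>
    integrable_x ((cW' i).mul (hΦ.smooth.continuous.comp cM')) R fun x hx => by
      simp [(hv x hx).1]
  have ig : Integrable (fun x => |deriv Φ (sM β P a x)| * pr β P a v x) :=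
    integrable_x (((hdc.comp cM').abs).mul cpr') R fun x hx => by simp [(hv x hx).2]
  have h0 : ∀ i, ∫ x, dw Φ β P a (v i) i x = 0 := fun i =>
    Gauss.integral_lineDeriv_eq_zero (iw i) (idw i) fun x => hline P x (v i) i
  have h1 : ∫ x, ds Φ β P a v x = ∫ x, (ds Φ β P a v x + ∑ i, dw Φ β P a (v i) i x) := by
    rw [integral_add ids (integrable_finsetSum _ fun i _ => idw i),
      integral_finsetSum _ fun i _ => idw i]
    simp [h0]
  rw [h1, ← integral_neg]
  refine integral_mono ig.neg (ids.add (integrable_finsetSum _ fun i _ => idw i)) fun x => ?_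
  rw [halg P v x]
  have h2 := pr_nonneg hN hβ P a v x h
  have h3 := hΦ.nonneg (sM β P a x)
  have h4 := le_abs_self (deriv Φ (sM β P a x))
  have h5 : 0 ≤ β * Φ (sM β P a x) * pr β P a v x := by positivity
  have h6 : deriv Φ (sM β P a x) * pr β P a v x ≤ |deriv Φ (sM β P a x)| * pr β P a v x :=
    mul_le_mul_of_nonneg_right h4 h2
  linarith

end MotInt

open MotInt

theorem motIntStmt (H : MotPtStmt) : MotIntStmt := by
  intro n N hN Φ hΦ β hβ a P v s0 s1 hs hP hv hin
  obtain ⟨hline, hcurve, halg, cM, cW, cds, cpr, cdw⟩ := H n N hN Φ hΦ β hβ a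
  have hPc : ∀ i, ContinuousOn (fun s => P s i) (Icc s0 s1) := fun i s hs' =>
    (hP s hs' i).continuousAt.continuousWithinAt
  obtain ⟨T, -, hT⟩ := exists_top hΦ
  obtain ⟨C, hC⟩ := exists_bound hPc
  obtain ⟨R, -, hR⟩ := far (n := n) hN a C T
  have hvan : ∀ s ∈ Icc s0 s1, ∀ x : E n, R < ‖x‖ →
      Φ (sM β (P s) a x) = 0 ∧ deriv Φ (sM β (P s) a x) = 0 :=
    fun s hs' x hx => hT _ (hR β hβ (P s) (hC s hs') x hx)
  have hdc : Continuous (deriv Φ) := hΦ.smooth.continuous_deriv (by simp)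
  have hPe : Continuous (ext hs P) := continuous_ext hs (continuousOn_pi.mpr hPc)
  have hve : Continuous (ext hs v) := continuous_ext hs (continuousOn_pi.mpr hv)
  set G1 : ℝ × E n → ℝ := fun z => ds Φ β (ext hs P z.1) a (ext hs v z.1) z.2 with hG1
  set G2 : ℝ × E n → ℝ := fun z => |deriv Φ (sM β (ext hs P z.1) a z.2)| *
    pr β (ext hs P z.1) a (ext hs v z.1) z.2 with hG2
  have c3 : Continuous (fun z : ℝ × E n => ((ext hs P z.1, ext hs v z.1), z.2)) :=
    ((hPe.comp continuous_fst).prodMk (hve.comp continuous_fst)).prodMk continuous_snd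
  have c2 : Continuous (fun z : ℝ × E n => (ext hs P z.1, z.2)) :=
    (hPe.comp continuous_fst).prodMk continuous_snd
  have cG1 : Continuous G1 := cds.comp (f := fun z : ℝ × E n => ((ext hs P z.1, ext hs v z.1), z.2))
    c3
  have cMe : Continuous (fun z : ℝ × E n => sM β (ext hs P z.1) a z.2) :=
    cM.comp (f := fun z : ℝ × E n => (ext hs P z.1, z.2)) c2
  have cpre : Continuous (fun z : ℝ × E n => pr β (ext hs P z.1) a (ext hs v z.1) z.2) :=
    cpr.comp (f := fun z : ℝ × E n => ((ext hs P z.1, ext hs v z.1), z.2)) c3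
  have cG2 : Continuous G2 := ((hdc.comp cMe).abs).mul cpre
  have eG1 : ∀ s ∈ Icc s0 s1, ∀ x, G1 (s, x) = ds Φ β (P s) a (v s) x := fun s hs' x => by
    simp only [hG1, ext_eq hs _ hs']
  have eG2 : ∀ s ∈ Icc s0 s1, ∀ x, G2 (s, x) = |deriv Φ (sM β (P s) a x)| *
      pr β (P s) a (v s) x := fun s hs' x => by
    simp only [hG2, ext_eq hs _ hs']
  have I1 : Integrable G1 (((volume : Measure ℝ).restrict (Ioc s0 s1)).prod volume) :=
    integrable_prod cG1 R fun s hs' x hx => by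
      rw [eG1 s hs' x]; simp [ds, (hvan s hs' x hx).2]
  have I2 : Integrable G2 (((volume : Measure ℝ).restrict (Ioc s0 s1)).prod volume) :=
    integrable_prod cG2 R fun s hs' x hx => by
      rw [eG2 s hs' x]; simp [(hvan s hs' x hx).2]
  have cΦ : ∀ s, Continuous fun x => Φ (sM β (P s) a x) := fun s =>
    hΦ.smooth.continuous.comp
      (cM.comp (f := fun x : E n => (P s, x)) (Continuous.prodMk_right (P s)))
  have iΦ : ∀ s ∈ Icc s0 s1, Integrable fun x => Φ (sM β (P s) a x) := fun s hs' =>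
    integrable_x (cΦ s) R fun x hx => (hvan s hs' x hx).1
  have hftc : ∀ x, ∫ s in s0..s1, G1 (s, x) =
      Φ (sM β (P s1) a x) - Φ (sM β (P s0) a x) := fun x => by
    refine intervalIntegral.integral_eq_sub_of_hasDerivAt
      (f := fun s => Φ (sM β (P s) a x)) (fun s hs' => ?_)
      ((cG1.comp (f := fun s : ℝ => (s, x)) (Continuous.prodMk_left x)).intervalIntegrable _ _)
    rw [uIcc_of_le hs] at hs'
    rw [eG1 s hs' x]
    exact hcurve P (v s) s x (hP s hs')
  have key : ∫ x, (Φ (sM β (P s1) a x) - Φ (sM β (P s0) a x)) =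
      ∫ s in Ioc s0 s1, ∫ x, G1 (s, x) := by
    rw [integral_integral_swap (f := fun s x => G1 (s, x)) I1]
    refine integral_congr_ae (Eventually.of_forall fun x => ?_)
    simp only
    rw [← hftc x, intervalIntegral.integral_of_le hs]
  have J1 : IntegrableOn (fun s => ∫ x, G1 (s, x)) (Ioc s0 s1) := I1.integral_prod_left
  have J2 : IntegrableOn (fun s => ∫ x, G2 (s, x)) (Ioc s0 s1) := I2.integral_prod_left
  have hle : ∫ s in Ioc s0 s1, -∫ x, G2 (s, x) ≤ ∫ s in Ioc s0 s1, ∫ x, G1 (s, x) := by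
    refine setIntegral_mono_on J2.neg J1 measurableSet_Ioc fun s hs' => ?_
    have hs'' := Ioc_subset_Icc_self hs'
    simp only [eG1 s hs'', eG2 s hs'']
    exact slice H hN hΦ hβ a (P s) (v s) (hin s hs'')
  have hfin : ∫ s in s0..s1, ∫ x, |deriv Φ (sM β (P s) a x)| * pr β (P s) a (v s) x =
      ∫ s in Ioc s0 s1, ∫ x, G2 (s, x) := by
    rw [intervalIntegral.integral_of_le hs]
    refine setIntegral_congr_fun measurableSet_Ioc fun s hs' => ?_
    simp only [eG2 s (Ioc_subset_Icc_self hs')]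
  rw [integral_sub (iΦ s1 (right_mem_Icc.mpr hs)) (iΦ s0 (left_mem_Icc.mpr hs))] at key
  rw [integral_neg] at hle
  rw [hfin]
  linarith

end Pool.Agent.Lib.MP_0c1c75_co.Jmp
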