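import Pool.Agent.Lib.MP_0c1c75_co.JmpSpec
import Pool.Agent.Lib.MP_0c1c75_co.CluEst1
import Pool.Agent.Lib.MP_0c1c75_co.CluEst3
import Pool.Agent.Lib.MP_0c1c75_co.CluBox

/-!
MP_0c1c75_co, module MotPt (helper32): pointwise derivatives.
-/

open MeasureTheory Set Filter Topology
open scoped ContDiff

namespace Pool.Agent.Lib.MP_0c1c75_co.Jmp

open Pool.Agent.Lib.MP_0c1c75_co.Few (Prof Polar2Stmt)
open Pool.Agent.Lib.MP_0c1c75_co.Clu (smx wt est1Stmt est3Stmt boxStmt)

namespace MotPt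

variable {n N : ℕ}

lemma smooth {Φ : ℝ → ℝ} (hΦ : Prof Φ) : Differentiable ℝ Φ ∧ Continuous (deriv Φ) := by
  have h1 : ContDiff ℝ 1 Φ := hΦ.smooth.of_le (by exact_mod_cast le_top)
  exact ⟨h1.differentiable (by simp), h1.continuous_deriv le_rfl⟩

lemma hasDerivAt_ff_line (P : Fin N → E n) (a : Fin N → ℝ) (x v : E n) (i : Fin N) :
    HasDerivAt (fun t : ℝ => ff P a (x + t • v) i) (2 * inner ℝ (x - P i) v) 0 := by
  have h1 : HasDerivAt (fun t : ℝ => x + t • v - P i) v 0 := by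
    have h2 : HasDerivAt (fun t : ℝ => t • v) v 0 := by
      simpa using (hasDerivAt_id (0 : ℝ)).smul_const v
    exact (h2.const_add x).sub_const (P i)
  have h2 := (h1.norm_sq).sub_const (a i)
  simpa [ff] using h2

lemma hasDerivAt_ff_path (Q : ℝ → Fin N → E n) (a : Fin N → ℝ) (x : E n) (v : Fin N → E n)
    (s : ℝ) (i : Fin N) (h : HasDerivAt (fun t => Q t i) (v i) s) :
    HasDerivAt (fun t : ℝ => ff (Q t) a x i) (-2 * inner ℝ (x - Q s i) (v i)) s := by
  have h1 : HasDerivAt (fun t : ℝ => x - Q t i) (-(v i)) s := h.const_sub x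
  have h2 := (h1.norm_sq).sub_const (a i)
  have h3 : 2 * inner ℝ (x - Q s i) (-(v i)) = -2 * inner ℝ (x - Q s i) (v i) := by
    rw [inner_neg_right]
    ring
  rw [h3] at h2
  exact h2

lemma cont_ff (a : Fin N → ℝ) : Continuous (fun z : (Fin N → E n) × E n => ff z.1 a z.2) := by
  refine continuous_pi fun i => ?_
  unfold ff
  exact (((continuous_snd.sub ((continuous_apply i).comp continuous_fst)).norm).pow 2).sub
    continuous_const

lemma cont_sM (hN : 0 < N) {β : ℝ} (hβ : 0 < β) (a : Fin N → ℝ) :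
    Continuous (fun z : (Fin N → E n) × E n => sM β z.1 a z.2) :=
  (est1Stmt N hN β hβ).2.2.1.comp (cont_ff a)

lemma cont_sW (hN : 0 < N) {β : ℝ} (hβ : 0 < β) (a : Fin N → ℝ) (i : Fin N) :
    Continuous (fun z : (Fin N → E n) × E n => sW β z.1 a z.2 i) :=
  ((est1Stmt N hN β hβ).2.2.2 i).comp (cont_ff a)

/-- projections -/
lemma cont_fst_fst {A B C : Type} [TopologicalSpace A] [TopologicalSpace B] [TopologicalSpace C] :
    Continuous (fun z : (A × B) × C => (z.1.1, z.2)) :=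
  (continuous_fst.comp continuous_fst).prodMk continuous_snd

lemma cont_in (i : Fin N) :
    Continuous (fun z : ((Fin N → E n) × (Fin N → E n)) × E n =>
      (inner ℝ (z.2 - z.1.1 i) (z.1.2 i) : ℝ)) :=
  (continuous_snd.sub ((continuous_apply i).comp (continuous_fst.comp continuous_fst))).inner
    ((continuous_apply i).comp (continuous_snd.comp continuous_fst))

lemma cont_in2 (i j : Fin N) :
    Continuous (fun z : ((Fin N → E n) × (Fin N → E n)) × E n =>
      (inner ℝ (z.1.1 i - z.1.1 j) (z.1.2 i - z.1.2 j) : ℝ)) :=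
  (((continuous_apply i).comp (continuous_fst.comp continuous_fst)).sub
    ((continuous_apply j).comp (continuous_fst.comp continuous_fst))).inner
    (((continuous_apply i).comp (continuous_snd.comp continuous_fst)).sub
    ((continuous_apply j).comp (continuous_snd.comp continuous_fst)))

lemma cont_in3 (i : Fin N) :
    Continuous (fun z : ((Fin N → E n) × E n) × E n =>
      (inner ℝ (z.2 - z.1.1 i) z.1.2 : ℝ)) :=
  (continuous_snd.sub ((continuous_apply i).comp (continuous_fst.comp continuous_fst))).inner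
    (continuous_snd.comp continuous_fst)

lemma cont_sM3 (hN : 0 < N) {β : ℝ} (hβ : 0 < β) (a : Fin N → ℝ) :
    Continuous (fun z : ((Fin N → E n) × (Fin N → E n)) × E n => sM β z.1.1 a z.2) :=
  Continuous.comp (g := fun z : (Fin N → E n) × E n => sM β z.1 a z.2)
    (f := fun z : ((Fin N → E n) × (Fin N → E n)) × E n => (z.1.1, z.2))
    (cont_sM hN hβ a) cont_fst_fst

lemma cont_sW3 (hN : 0 < N) {β : ℝ} (hβ : 0 < β) (a : Fin N → ℝ) (i : Fin N) :
    Continuous (fun z : ((Fin N → E n) × (Fin N → E n)) × E n => sW β z.1.1 a z.2 i) :=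
  Continuous.comp (g := fun z : (Fin N → E n) × E n => sW β z.1 a z.2 i)
    (f := fun z : ((Fin N → E n) × (Fin N → E n)) × E n => (z.1.1, z.2))
    (cont_sW hN hβ a i) cont_fst_fst

lemma cont_sM4 (hN : 0 < N) {β : ℝ} (hβ : 0 < β) (a : Fin N → ℝ) :
    Continuous (fun z : ((Fin N → E n) × E n) × E n => sM β z.1.1 a z.2) :=
  Continuous.comp (g := fun z : (Fin N → E n) × E n => sM β z.1 a z.2)
    (f := fun z : ((Fin N → E n) × E n) × E n => (z.1.1, z.2))
    (cont_sM hN hβ a) cont_fst_fst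

lemma cont_sW4 (hN : 0 < N) {β : ℝ} (hβ : 0 < β) (a : Fin N → ℝ) (i : Fin N) :
    Continuous (fun z : ((Fin N → E n) × E n) × E n => sW β z.1.1 a z.2 i) :=
  Continuous.comp (g := fun z : (Fin N → E n) × E n => sW β z.1 a z.2 i)
    (f := fun z : ((Fin N → E n) × E n) × E n => (z.1.1, z.2))
    (cont_sW hN hβ a i) cont_fst_fst

lemma cont_ds (hN : 0 < N) {Φ : ℝ → ℝ} (hΦ : Prof Φ) {β : ℝ} (hβ : 0 < β) (a : Fin N → ℝ) :
    Continuous (fun z : ((Fin N → E n) × (Fin N → E n)) × E n => ds Φ β z.1.1 a z.1.2 z.2) := by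
  unfold ds
  have h1 := (smooth hΦ).2.comp (cont_sM3 (n := n) hN hβ a)
  have h2 : Continuous (fun z : ((Fin N → E n) × (Fin N → E n)) × E n =>
      ∑ i, sW β z.1.1 a z.2 i * (-2 * inner ℝ (z.2 - z.1.1 i) (z.1.2 i))) :=
    continuous_finsetSum _ fun i _ => (cont_sW3 hN hβ a i).mul (continuous_const.mul (cont_in i))
  exact h1.mul h2

lemma cont_pr (hN : 0 < N) {β : ℝ} (hβ : 0 < β) (a : Fin N → ℝ) :
    Continuous (fun z : ((Fin N → E n) × (Fin N → E n)) × E n => pr β z.1.1 a z.1.2 z.2) := by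
  unfold pr
  exact continuous_finsetSum _ fun i _ => continuous_finsetSum _ fun j _ =>
    ((cont_sW3 hN hβ a i).mul (cont_sW3 hN hβ a j)).mul (cont_in2 i j).neg

lemma cont_dw (hN : 0 < N) {Φ : ℝ → ℝ} (hΦ : Prof Φ) {β : ℝ} (hβ : 0 < β) (a : Fin N → ℝ)
    (i : Fin N) :
    Continuous (fun z : ((Fin N → E n) × E n) × E n => dw Φ β z.1.1 a z.1.2 i z.2) := by
  have hS : Continuous (fun z : ((Fin N → E n) × E n) × E n =>
      ∑ j, sW β z.1.1 a z.2 j * (2 * inner ℝ (z.2 - z.1.1 j) z.1.2)) :=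
    continuous_finsetSum _ fun j _ => (cont_sW4 hN hβ a j).mul
      (continuous_const.mul (cont_in3 j))
  have hWi := cont_sW4 (n := n) hN hβ a i
  have hMM := cont_sM4 (n := n) hN hβ a
  unfold dw
  exact (hWi.mul (((smooth hΦ).2.comp hMM).mul hS)).add
    (((smooth hΦ).1.continuous.comp hMM).mul ((continuous_const.mul hWi).mul
      ((continuous_const.mul (cont_in3 i)).sub hS)))

lemma line (hN : 0 < N) {Φ : ℝ → ℝ} (hΦ : Prof Φ) {β : ℝ} (hβ : 0 < β) (a : Fin N → ℝ)
    (P : Fin N → E n) (x v : E n) (i : Fin N) :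
    HasLineDerivAt ℝ (fun y => sW β P a y i * Φ (sM β P a y)) (dw Φ β P a v i x) x v := by
  unfold HasLineDerivAt
  have h1 := est3Stmt N hN β hβ (fun t => ff P a (x + t • v))
    (fun j => 2 * inner ℝ (x - P j) v) 0 (fun j => hasDerivAt_ff_line P a x v j)
  have h2 : HasDerivAt (fun t : ℝ => Φ (sM β P a (x + t • v)))
      (deriv Φ (sM β P a (x + (0 : ℝ) • v)) *
        ∑ j, wt β (ff P a (x + (0 : ℝ) • v)) j * (2 * inner ℝ (x - P j) v)) 0 :=
    ((smooth hΦ).1 _).hasDerivAt.comp (0 : ℝ) h1.1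
  have h3 := (h1.2 i).mul h2
  refine h3.congr_deriv ?_
  have h0 : x + (0 : ℝ) • v = x := by simp
  rw [h0]
  unfold dw sW sM
  ring

lemma path (hN : 0 < N) {Φ : ℝ → ℝ} (hΦ : Prof Φ) {β : ℝ} (hβ : 0 < β) (a : Fin N → ℝ)
    (Q : ℝ → Fin N → E n) (v : Fin N → E n) (s : ℝ) (x : E n)
    (hQ : ∀ i, HasDerivAt (fun t => Q t i) (v i) s) :
    HasDerivAt (fun t => Φ (sM β (Q t) a x)) (ds Φ β (Q s) a v x) s := by
  have h1 := est3Stmt N hN β hβ (fun t => ff (Q t) a x)
    (fun j => -2 * inner ℝ (x - Q s j) (v j)) s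
    (fun j => hasDerivAt_ff_path Q a x v s j (hQ j))
  exact ((smooth hΦ).1 _).hasDerivAt.comp s h1.1

lemma alg1 (w : Fin N → ℝ) (P v : Fin N → E n) :
    ∑ i, ∑ j, w i * w j * -inner ℝ (P i - P j) (v i - v j) =
      -2 * ∑ i, ∑ j, w i * w j * inner ℝ (P i - P j) (v i) := by
  set S := ∑ i, ∑ j, w i * w j * inner ℝ (P i - P j) (v i) with hS
  have h2 : ∑ i, ∑ j, w i * w j * inner ℝ (P i - P j) (v j) = -S := by
    rw [hS, Finset.sum_comm, ← Finset.sum_neg_distrib]
    refine Finset.sum_congr rfl fun i _ => ?_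
    rw [← Finset.sum_neg_distrib]
    refine Finset.sum_congr rfl fun j _ => ?_
    rw [← neg_sub (P i) (P j), inner_neg_left]
    ring
  have h3 : ∑ i, ∑ j, w i * w j * -inner ℝ (P i - P j) (v i - v j) =
      ∑ i, ∑ j, w i * w j * inner ℝ (P i - P j) (v j) - S := by
    rw [hS, ← Finset.sum_sub_distrib]
    refine Finset.sum_congr rfl fun i _ => ?_
    rw [← Finset.sum_sub_distrib]
    refine Finset.sum_congr rfl fun j _ => ?_
    rw [inner_sub_right]
    ring
  rw [h3, h2]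
  ring

lemma alg2 (w : Fin N → ℝ) (hw1 : ∑ i, w i = 1) (P v : Fin N → E n) (x : E n) :
    ∑ i, w i * inner ℝ (x - P i) (v i) - ∑ i, w i * ∑ j, w j * inner ℝ (x - P j) (v i) =
      -∑ i, ∑ j, w i * w j * inner ℝ (P i - P j) (v i) := by
  have h5 : ∀ i, w i * inner ℝ (x - P i) (v i) =
      ∑ j, w i * w j * inner ℝ (x - P i) (v i) := by
    intro i
    have : ∑ j, w i * w j * inner ℝ (x - P i) (v i) =
        (∑ j, w j) * (w i * inner ℝ (x - P i) (v i)) := by
      rw [Finset.sum_mul]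
      refine Finset.sum_congr rfl fun j _ => ?_
      ring
    rw [this, hw1, one_mul]
  rw [← Finset.sum_sub_distrib, ← Finset.sum_neg_distrib]
  refine Finset.sum_congr rfl fun i _ => ?_
  rw [h5 i, Finset.mul_sum, ← Finset.sum_sub_distrib, ← Finset.sum_neg_distrib]
  refine Finset.sum_congr rfl fun j _ => ?_
  have h6 : P i - P j = (x - P j) - (x - P i) := by abel
  rw [h6, inner_sub_left (x - P j) (x - P i) (v i)]
  ring

lemma sum_eq (hN : 0 < N) (Φ : ℝ → ℝ) {β : ℝ} (hβ : 0 < β) (a : Fin N → ℝ)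
    (P v : Fin N → E n) (x : E n) :
    ds Φ β P a v x + ∑ i, dw Φ β P a (v i) i x =
      (β * Φ (sM β P a x) - deriv Φ (sM β P a x)) * pr β P a v x := by
  have hw1 : ∑ i, sW β P a x i = 1 :=
    ((est1Stmt N hN β hβ).1 (ff P a x)).2.2.2.2.2.2.1
  have h1 : pr β P a v x = -2 * ∑ i, ∑ j, sW β P a x i * sW β P a x j *
      inner ℝ (P i - P j) (v i) := alg1 (fun i => sW β P a x i) P v
  have h4 := alg2 (fun i => sW β P a x i) hw1 P v x
  have h7 : ds Φ β P a v x = deriv Φ (sM β P a x) *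
      (-2 * ∑ i, sW β P a x i * inner ℝ (x - P i) (v i)) := by
    have h0 : ∑ i, sW β P a x i * (-2 * inner ℝ (x - P i) (v i)) =
        -2 * ∑ i, sW β P a x i * inner ℝ (x - P i) (v i) := by
      rw [Finset.mul_sum]
      refine Finset.sum_congr rfl fun i _ => ?_
      ring
    unfold ds
    rw [h0]
  have h8 : ∑ i, dw Φ β P a (v i) i x =
      deriv Φ (sM β P a x) * (2 * ∑ i, sW β P a x i * ∑ j, sW β P a x j *
        inner ℝ (x - P j) (v i)) +
      Φ (sM β P a x) * β * (2 * (∑ i, sW β P a x i * inner ℝ (x - P i) (v i) -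
        ∑ i, sW β P a x i * ∑ j, sW β P a x j * inner ℝ (x - P j) (v i))) := by
    rw [← Finset.sum_sub_distrib, Finset.mul_sum, Finset.mul_sum, Finset.mul_sum, Finset.mul_sum,
      ← Finset.sum_add_distrib]
    refine Finset.sum_congr rfl fun i _ => ?_
    unfold dw
    have h9 : ∑ j, sW β P a x j * (2 * inner ℝ (x - P j) (v i)) =
        2 * ∑ j, sW β P a x j * inner ℝ (x - P j) (v i) := by
      rw [Finset.mul_sum]
      refine Finset.sum_congr rfl fun j _ => ?_
      ring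
    rw [h9]
    ring
  rw [h7, h8, h1, h4]
  linear_combination -2 * deriv Φ (sM β P a x) * h4

end MotPt

open MotPt

theorem motPtStmt : MotPtStmt := by
  intro n N hN Φ hΦ β hβ a
  refine ⟨fun P x v i => line hN hΦ hβ a P x v i, fun Q v s x hQ => path hN hΦ hβ a Q v s x hQ,
    fun P v x => sum_eq hN Φ hβ a P v x, cont_sM hN hβ a, fun i => cont_sW hN hβ a i,
    cont_ds hN hΦ hβ a, cont_pr hN hβ a, fun i => cont_dw hN hΦ hβ a i⟩

end Pool.Agent.Lib.MP_0c1c75_co.Jmp
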