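import Pool.Agent.Lib.MP_0c1c75_co.JmpSpec

/-!
MP_0c1c75_co, module JmpMotion (helper43): the integral does not decrease along a motion which does
not increase the distances.
-/

open MeasureTheory Set Filter Topology

namespace Pool.Agent.Lib.MP_0c1c75_co.Jmp

open Pool.Agent.Lib.MP_0c1c75_co.Few (Prof)

namespace Motion

/-- the step on a compact subinterval of `(0, 1)` -/
lemma step (H1 : MotIntStmt) (H2 : MotErrStmt) (H3 : ContEStmt) {n N : ℕ} (hN : 0 < N)
    {Φ : ℝ → ℝ} (hΦ : Prof Φ) (a : Fin N → ℝ) (P : ℝ → Fin N → E n)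
    (hd : ∀ i, ContDiffOn ℝ 1 (fun s => P s i) (Ioo 0 1))
    (ha : ∀ i j, AntitoneOn (fun s => dist (P s i) (P s j)) (Icc 0 1))
    {s0 s1 : ℝ} (h0 : 0 < s0) (h01 : s0 ≤ s1) (h1 : s1 < 1) :
    ∫ x, Φ (gmax (P s0) a x) ≤ ∫ x, Φ (gmax (P s1) a x) := by
  set v : ℝ → Fin N → E n := fun s i => deriv (fun t => P t i) s with hv
  have hsub : Icc s0 s1 ⊆ Ioo (0 : ℝ) 1 := Icc_subset_Ioo h0 h1
  have hder : ∀ s ∈ Ioo (0 : ℝ) 1, ∀ i, HasDerivAt (fun t => P t i) (v s i) s := fun s hs i =>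
    (((hd i).contDiffAt (isOpen_Ioo.mem_nhds hs)).differentiableAt (by norm_num)).hasDerivAt
  have hvc : ∀ i, ContinuousOn (fun s => v s i) (Icc s0 s1) := fun i =>
    ((hd i).continuousOn_deriv_of_isOpen isOpen_Ioo le_rfl).mono hsub
  have hin : ∀ s ∈ Icc s0 s1, ∀ i j, inner ℝ (P s i - P s j) (v s i - v s j) ≤ 0 := by
    intro s hs i j
    have hs' := hsub hs
    have hq : HasDerivAt (fun t => ‖P t i - P t j‖ ^ 2)
        (2 * inner ℝ (P s i - P s j) (v s i - v s j)) s :=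
      ((hder s hs' i).sub (hder s hs' j)).norm_sq
    have hanti : AntitoneOn (fun t => ‖P t i - P t j‖ ^ 2) (Ioo 0 1) := by
      intro x hx y hy hxy
      have := ha i j (Ioo_subset_Icc_self hx) (Ioo_subset_Icc_self hy) hxy
      simp only [dist_eq_norm] at this
      exact pow_le_pow_left₀ (norm_nonneg _) this 2
    have h2 := hanti.derivWithin_nonpos (x := s)
    rw [derivWithin_of_isOpen isOpen_Ioo hs', hq.deriv] at h2
    linarith
  have hPc : ∀ i, ContinuousOn (fun s => P s i) (Icc s0 s1) := fun i s hs =>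
    (hder s (hsub hs) i).continuousAt.continuousWithinAt
  have hI := fun m : ℕ => H1 n N hN Φ hΦ ((m : ℝ) + 1) (by positivity) a P v s0 s1 h01
    (fun s hs i => hder s (hsub hs) i) hvc hin
  have hE := H2 n N hN Φ hΦ a P v s0 s1 h01 hPc hvc hin
  obtain ⟨-, -, hC⟩ := H3 n N hN a Φ hΦ.smooth.continuous hΦ.supp
  have hR : Tendsto (fun m : ℕ => (∫ x, Φ (sM ((m : ℝ) + 1) (P s1) a x)) +
      ∫ s in s0..s1, ∫ x, |deriv Φ (sM ((m : ℝ) + 1) (P s) a x)| *
        pr ((m : ℝ) + 1) (P s) a (v s) x) atTop (𝓝 (∫ x, Φ (gmax (P s1) a x))) := by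
    simpa using (hC (P s1)).add hE
  exact le_of_tendsto_of_tendsto' (hC (P s0)) hR hI

end Motion

open Motion

theorem motionStmt (H1 : MotIntStmt) (H2 : MotErrStmt) (H3 : ContEStmt) : MotionStmt := by
  intro n N hN Φ hΦ a P hc hd ha
  obtain ⟨hC, -, -⟩ := H3 n N hN a Φ hΦ.smooth.continuous hΦ.supp
  set g : ℝ → ℝ := fun s => ∫ x, Φ (gmax (P s) a x) with hg
  have hgc : ContinuousOn g (Icc 0 1) :=
    hC.comp_continuousOn (g := fun P : Fin N → E n => ∫ x, Φ (gmax P a x)) (f := P)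
      (continuousOn_pi.mpr hc)
  have hu : Tendsto (fun k : ℕ => (1 : ℝ) / ((k : ℝ) + 2)) atTop (𝓝 0) := by
    refine tendsto_const_nhds.div_atTop ?_
    exact tendsto_natCast_atTop_atTop.atTop_add tendsto_const_nhds
  have hb : ∀ k : ℕ, 0 < (1 : ℝ) / ((k : ℝ) + 2) ∧ (1 : ℝ) / ((k : ℝ) + 2) ≤ 1 / 2 := fun k => by
    constructor
    · positivity
    · apply one_div_le_one_div_of_le (by norm_num)
      have : (0 : ℝ) ≤ k := Nat.cast_nonneg k
      linarith
  have hL : Tendsto (fun k : ℕ => g ((1 : ℝ) / ((k : ℝ) + 2))) atTop (𝓝 (g 0)) := by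
    have h1 : ContinuousWithinAt g (Icc 0 1) 0 := hgc 0 (left_mem_Icc.mpr zero_le_one)
    refine h1.tendsto.comp (tendsto_nhdsWithin_iff.mpr ⟨hu, Eventually.of_forall fun k => ?_⟩)
    exact ⟨(hb k).1.le, (hb k).2.trans (by norm_num)⟩
  have hR : Tendsto (fun k : ℕ => g (1 - (1 : ℝ) / ((k : ℝ) + 2))) atTop (𝓝 (g 1)) := by
    have h1 : ContinuousWithinAt g (Icc 0 1) 1 := hgc 1 (right_mem_Icc.mpr zero_le_one)
    have h2 : Tendsto (fun k : ℕ => 1 - (1 : ℝ) / ((k : ℝ) + 2)) atTop (𝓝 1) := by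
      simpa using hu.const_sub 1
    refine h1.tendsto.comp (tendsto_nhdsWithin_iff.mpr ⟨h2, Eventually.of_forall fun k => ?_⟩)
    have := hb k
    constructor <;> linarith
  refine le_of_tendsto_of_tendsto' hL hR fun k => ?_
  have := hb k
  exact step H1 H2 H3 hN hΦ a P hd ha this.1 (by linarith) (by linarith)

end Pool.Agent.Lib.MP_0c1c75_co.Jmp
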