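import Pool.Agent.Lib.MP_0c1c75_co.JmpSpec

/-!
MP_0c1c75_co: Slepian's inequality for the Gaussian measure, from `GaussStmt`.
-/

open MeasureTheory Set Filter Topology

namespace Pool.Agent.Lib.MP_0c1c75_co.Jmp

namespace SlepG

/-- the centres `0, L P_1, …, L P_N` -/
noncomputable def cen {n N : ℕ} (L : ℝ) (P : Fin N → E n) : Fin (N + 1) → E n :=
  Fin.cons 0 (fun i => L • P i)

/-- the constants -/
noncomputable def cst {n N : ℕ} (L τ : ℝ) (P : Fin N → E n) : Fin (N + 1) → ℝ :=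
  Fin.cons 0 (fun i => L ^ 2 * ‖P i‖ ^ 2 - 2 * L * τ)

theorem le_mn {n N : ℕ} (hN : 0 < N) (P : Fin N → E n) (τ : ℝ) (x : E n) :
    τ ≤ mn P x ↔ ∀ i, τ ≤ inner ℝ x (P i) := by
  have : Nonempty (Fin N) := ⟨⟨0, hN⟩⟩
  exact le_ciInf_iff (Set.finite_range _).bddBelow

theorem gmax_eq {n N : ℕ} (hN : 0 < N) (P : Fin N → E n) {L : ℝ} (hL : 0 ≤ L) (τ : ℝ) (x : E n) :
    gmax (cen L P) (cst L τ P) x = ‖x‖ ^ 2 + max 0 (2 * L * (τ - mn P x)) := by
  have : Nonempty (Fin N) := ⟨⟨0, hN⟩⟩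
  have h0 : ‖x - cen L P 0‖ ^ 2 - cst L τ P 0 = ‖x‖ ^ 2 := by
    simp [cen, cst]
  have hs : ∀ j : Fin N, ‖x - cen L P j.succ‖ ^ 2 - cst L τ P j.succ =
      ‖x‖ ^ 2 + 2 * L * (τ - inner ℝ x (P j)) := by
    intro j
    simp only [cen, cst, Fin.cons_succ]
    rw [norm_sub_sq_real, norm_smul, real_inner_smul_right, mul_pow, Real.norm_eq_abs, sq_abs]
    ring
  have hb : BddAbove (Set.range fun i => ‖x - cen L P i‖ ^ 2 - cst L τ P i) :=
    (Set.finite_range _).bddAbove
  have hinf : ∀ j : Fin N, mn P x ≤ inner ℝ x (P j) := fun j =>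
    ciInf_le (Set.finite_range _).bddBelow j
  unfold gmax
  apply le_antisymm
  · refine ciSup_le fun i => ?_
    refine Fin.cases ?_ (fun j => ?_) i
    · rw [h0]
      have := le_max_left 0 (2 * L * (τ - mn P x))
      linarith
    · rw [hs]
      have h1 := le_max_right 0 (2 * L * (τ - mn P x))
      have h2 : 2 * L * (τ - inner ℝ x (P j)) ≤ 2 * L * (τ - mn P x) :=
        mul_le_mul_of_nonneg_left (by linarith [hinf j]) (by linarith)
      linarith
  · obtain ⟨j, hj⟩ := exists_eq_ciInf_of_finite (f := fun j : Fin N => (inner ℝ x (P j) : ℝ))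
    have h1 : ‖x‖ ^ 2 ≤ ⨆ i, (‖x - cen L P i‖ ^ 2 - cst L τ P i) := by
      have := le_ciSup hb 0
      rwa [h0] at this
    have h2 : ‖x‖ ^ 2 + 2 * L * (τ - mn P x) ≤ ⨆ i, (‖x - cen L P i‖ ^ 2 - cst L τ P i) := by
      have h3 := le_ciSup hb j.succ
      have h4 := hs j
      have h5 : mn P x = inner ℝ x (P j) := hj.symm
      rw [h5]
      rw [← h4]
      exact h3
    rw [add_comm]
    rw [← le_sub_iff_add_le]
    exact max_le (by linarith) (by linarith)

theorem contr {n N : ℕ} {P Q : Fin N → E n} (hn : ∀ i, ‖P i‖ = ‖Q i‖)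
    (hd : ∀ i j, dist (Q i) (Q j) ≤ dist (P i) (P j)) {L : ℝ} (hL : 0 ≤ L) :
    Contr 1 (cen L P) (cen L Q) := by
  intro i j
  rw [one_mul]
  refine Fin.cases ?_ (fun i => ?_) i
  · refine Fin.cases ?_ (fun j => ?_) j
    · simp [cen]
    · simp only [cen, Fin.cons_zero, Fin.cons_succ, dist_zero_left, norm_smul, hn j]
      exact le_rfl
  · refine Fin.cases ?_ (fun j => ?_) j
    · simp only [cen, Fin.cons_zero, Fin.cons_succ, dist_zero_right, norm_smul, hn i]
      exact le_rfl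
    · simp only [cen, Fin.cons_succ, dist_smul₀]
      exact mul_le_mul_of_nonneg_left (hd i j) (norm_nonneg _)

theorem gint (h : GaussStmt) (n : ℕ) : Integrable (fun x : E n => Real.exp (-‖x‖ ^ 2)) := by
  have h1 := (h n 1 one_pos (fun _ => 0) (fun _ => 0) (fun i j => by simp) (fun _ => 0) 1
    one_pos).1
  refine h1.congr (Filter.Eventually.of_forall fun x => ?_)
  simp [gmax]

theorem lim (h : GaussStmt) {n N : ℕ} (hN : 0 < N) (P : Fin N → E n) (τ : ℝ) :
    Tendsto (fun k : ℕ => ∫ x, Real.exp (-1 * gmax (cen (k : ℝ) P) (cst (k : ℝ) τ P) x)) atTop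
      (𝓝 (∫ x in {x | τ ≤ mn P x}, Real.exp (-‖x‖ ^ 2))) := by
  have hms : MeasurableSet {x : E n | τ ≤ mn P x} := by
    have : {x : E n | τ ≤ mn P x} = ⋂ i, {x | τ ≤ inner ℝ x (P i)} := by
      ext x
      simp only [Set.mem_setOf_eq, Set.mem_iInter]
      exact le_mn hN P τ x
    rw [this]
    refine MeasurableSet.iInter fun i => ?_
    exact (isClosed_le continuous_const (continuous_id.inner continuous_const)).measurableSet
  rw [← integral_indicator hms]
  refine tendsto_integral_of_dominated_convergence (fun x => Real.exp (-‖x‖ ^ 2)) ?_ (gint h n) ?_ ?_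
  · intro k
    exact (h n (N + 1) (Nat.succ_pos _) (cen (k : ℝ) P) (cen (k : ℝ) P)
      (fun i j => by rw [one_mul]) (cst (k : ℝ) τ P) 1 one_pos).1.aestronglyMeasurable
  · intro k
    refine Filter.Eventually.of_forall fun x => ?_
    rw [Real.norm_eq_abs, abs_of_pos (Real.exp_pos _), gmax_eq hN P (Nat.cast_nonneg k) τ x]
    refine Real.exp_le_exp.2 ?_
    have := le_max_left 0 (2 * (k : ℝ) * (τ - mn P x))
    linarith
  · refine Filter.Eventually.of_forall fun x => ?_
    by_cases hx : τ ≤ mn P x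
    · have h1 : ∀ k : ℕ, Real.exp (-1 * gmax (cen (k : ℝ) P) (cst (k : ℝ) τ P) x) =
          Real.exp (-‖x‖ ^ 2) := by
        intro k
        rw [gmax_eq hN P (Nat.cast_nonneg k) τ x]
        have h2 : 2 * (k : ℝ) * (τ - mn P x) ≤ 0 :=
          mul_nonpos_of_nonneg_of_nonpos (by positivity) (by linarith)
        rw [max_eq_left h2]
        congr 1
        ring
      simp only [h1]
      rw [Set.indicator_of_mem (show x ∈ {x | τ ≤ mn P x} from hx)]
      exact tendsto_const_nhds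
    · rw [Set.indicator_of_notMem (show x ∉ {x | τ ≤ mn P x} from hx)]
      push Not at hx
      have hc : 0 < 2 * (τ - mn P x) := by linarith
      have h1 : ∀ k : ℕ, Real.exp (-1 * gmax (cen (k : ℝ) P) (cst (k : ℝ) τ P) x) =
          Real.exp (-‖x‖ ^ 2) * Real.exp (-((k : ℝ) * (2 * (τ - mn P x)))) := by
        intro k
        rw [gmax_eq hN P (Nat.cast_nonneg k) τ x]
        have h2 : 0 ≤ 2 * (k : ℝ) * (τ - mn P x) :=
          mul_nonneg (by positivity) (by linarith)
        rw [max_eq_right h2, ← Real.exp_add]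
        congr 1
        ring
      simp only [h1]
      have h3 : Tendsto (fun k : ℕ => (k : ℝ) * (2 * (τ - mn P x))) atTop atTop :=
        tendsto_natCast_atTop_atTop.atTop_mul_const hc
      have h4 : Tendsto (fun k : ℕ => Real.exp (-((k : ℝ) * (2 * (τ - mn P x))))) atTop (𝓝 0) :=
        Real.tendsto_exp_neg_atTop_nhds_zero.comp h3
      have h5 := h4.const_mul (Real.exp (-‖x‖ ^ 2))
      rwa [mul_zero] at h5

end SlepG

open SlepG in
theorem slepGStmt (h : GaussStmt) : SlepGStmt := by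
  intro n N hN P Q hn hd τ
  refine le_of_tendsto_of_tendsto' (lim h hN P τ) (lim h hN Q τ) fun k => ?_
  have h1 : cst (k : ℝ) τ Q = cst (k : ℝ) τ P := by
    unfold cst
    simp only [hn]
  rw [h1]
  exact (h n (N + 1) (Nat.succ_pos _) (cen (k : ℝ) P) (cen (k : ℝ) Q)
    (contr hn hd (Nat.cast_nonneg k)) (cst (k : ℝ) τ P) 1 one_pos).2

end Pool.Agent.Lib.MP_0c1c75_co.Jmp
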