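import Pool.Agent.Lib.MP_0c1c75_co.JmpSpec
import Pool.Agent.Lib.MP_0c1c75_co.Polar

/-!
MP_0c1c75_co, theorem X+: Slepian's inequality on the sphere (helper41).
-/

set_option autoImplicit false

open MeasureTheory Set Filter Topology MeasureTheory.Measure
open scoped ENNReal

namespace Pool.Agent.Lib.MP_0c1c75_co.Jmp

namespace SlepS

variable {n N : ℕ}

lemma mn_meas (P : Fin N → E n) : Measurable (mn P) := by
  unfold mn
  apply Measurable.iInf
  intro i
  exact (continuous_id.inner continuous_const).measurable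

lemma mn_smul (P : Fin N → E n) (t : ℝ) (ht : 0 ≤ t) (x : E n) :
    mn P (t • x) = t * mn P x := by
  unfold mn
  rw [Real.mul_iInf_of_nonneg ht]
  congr 1
  funext i
  rw [real_inner_smul_left]

lemma pos_smul (P : Fin N → E n) (t : ℝ) (ht : 0 ≤ t) (x : E n) :
    max (mn P (t • x)) 0 = t * max (mn P x) 0 := by
  rw [mn_smul P t ht, mul_max_of_nonneg _ _ ht, mul_zero]

/-- the positive part -/
noncomputable def fp (P : Fin N → E n) (x : E n) : ℝ := max (mn P x) 0

lemma fp_meas (P : Fin N → E n) : Measurable (fp P) := (mn_meas P).max measurable_const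

lemma fp_nn (P : Fin N → E n) (x : E n) : 0 ≤ fp P x := le_max_right _ _

/-- the Gaussian density -/
noncomputable def ga (n : ℕ) (x : E n) : ℝ≥0∞ := ENNReal.ofReal (Real.exp (-‖x‖ ^ 2))

lemma ga_meas : Measurable (ga n) := by
  unfold ga
  apply Measurable.ennreal_ofReal
  exact (Real.continuous_exp.comp ((continuous_norm.pow 2).neg)).measurable

lemma exp_int : Integrable (fun x : E n => Real.exp (-‖x‖ ^ 2)) := by
  have h := GaussianFourier.integral_rexp_neg_mul_sq_norm (V := E n) (b := 1) one_pos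
  have h1 : (fun x : E n => Real.exp (-‖x‖ ^ 2)) = fun x : E n => Real.exp (-1 * ‖x‖ ^ 2) := by
    funext x
    rw [neg_one_mul]
  rw [h1]
  apply Integrable.of_integral_ne_zero
  rw [h]
  positivity

lemma layer (P : Fin N → E n) (k : ℕ) (hk : 0 < k) :
    ∫⁻ x, ga n x * ENNReal.ofReal (fp P x ^ k) = ENNReal.ofReal k *
      ∫⁻ t in Ioi (0 : ℝ), (volume.withDensity (ga n)) {x : E n | t ≤ fp P x} *
        ENNReal.ofReal (t ^ ((k : ℝ) - 1)) := by
  have h := lintegral_rpow_eq_lintegral_meas_le_mul (volume.withDensity (ga n))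
    (f := fp P) (Eventually.of_forall (fp_nn P)) (fp_meas P).aemeasurable
    (p := (k : ℝ)) (by exact_mod_cast hk)
  rw [← h, lintegral_withDensity_eq_lintegral_mul _ ga_meas]
  · apply lintegral_congr
    intro x
    rw [Pi.mul_apply, Real.rpow_natCast]
  · simp only [Real.rpow_natCast]
    exact ((fp_meas P).pow_const k).ennreal_ofReal

lemma meas_eq (P : Fin N → E n) (t : ℝ) (ht : 0 < t) :
    (volume.withDensity (ga n)) {x : E n | t ≤ fp P x} =
      ENNReal.ofReal (∫ x in {x | t ≤ mn P x}, Real.exp (-‖x‖ ^ 2)) := by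
  have h1 : {x : E n | t ≤ fp P x} = {x | t ≤ mn P x} := by
    ext x
    simp only [fp, mem_ofPred_eq, le_max_iff]
    constructor
    · rintro (h | h)
      · exact h
      · exact absurd h (not_le.2 ht)
    · exact Or.inl
  have hm : MeasurableSet {x : E n | t ≤ mn P x} := measurableSet_le measurable_const (mn_meas P)
  rw [h1, withDensity_apply _ hm, ofReal_integral_eq_lintegral_ofReal exp_int.integrableOn
    (Eventually.of_forall fun x => (Real.exp_pos _).le)]
  rfl

lemma gauss_le (hG : SlepGStmt) (hN : 0 < N) (k : ℕ) (hk : 0 < k) (P Q : Fin N → E n)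
    (h1 : ∀ i, ‖P i‖ = ‖Q i‖) (h2 : ∀ i j, dist (Q i) (Q j) ≤ dist (P i) (P j)) :
    ∫⁻ x, ga n x * ENNReal.ofReal (fp P x ^ k) ≤ ∫⁻ x, ga n x * ENNReal.ofReal (fp Q x ^ k) := by
  rw [layer P k hk, layer Q k hk]
  refine mul_le_mul_right ?_ _
  refine setLIntegral_mono' measurableSet_Ioi fun t ht => ?_
  rw [meas_eq P t ht, meas_eq Q t ht]
  refine mul_le_mul_left ?_ _
  exact ENNReal.ofReal_le_ofReal (hG n N hN P Q h1 h2 t)

/-- the radial constant -/
noncomputable def cst (n k : ℕ) : ℝ≥0∞ :=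
  ∫⁻ t : Ioi (0 : ℝ), ENNReal.ofReal (Real.exp (-t.1 ^ 2) * t.1 ^ k) ∂volumeIoiPow (n - 1)

lemma polar (hn : 0 < n) (k : ℕ) (P : Fin N → E n) :
    ∫⁻ x, ga n x * ENNReal.ofReal (fp P x ^ k) =
      (∫⁻ u : Metric.sphere (0 : E n) 1, ENNReal.ofReal (fp P u.1 ^ k)
        ∂(volume : Measure (E n)).toSphere) * cst n k := by
  rw [Polar.lint hn (fun x => ga n x * ENNReal.ofReal (fp P x ^ k))
    (ga_meas.mul ((fp_meas P).pow_const k).ennreal_ofReal)]
  rw [← lintegral_mul_const]
  · apply lintegral_congr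
    intro u
    have hu : ‖u.1‖ = 1 := by simp
    unfold cst
    rw [← lintegral_const_mul]
    · apply lintegral_congr
      intro t
      have h1 : ‖t.1 • u.1‖ = t.1 := by
        rw [norm_smul, hu, mul_one, Real.norm_eq_abs, abs_of_pos t.2]
      have h2 : fp P (t.1 • u.1) = t.1 * fp P u.1 := pos_smul P t.1 (le_of_lt t.2) u.1
      unfold ga
      rw [h1, h2, ← ENNReal.ofReal_mul (Real.exp_pos _).le,
        ← ENNReal.ofReal_mul (pow_nonneg (fp_nn P u.1) k)]
      congr 1
      rw [mul_pow]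
      ring
    · apply Measurable.ennreal_ofReal
      fun_prop
  · exact (((fp_meas P).comp measurable_subtype_coe).pow_const k).ennreal_ofReal

lemma cst_pos (k : ℕ) : cst n k ≠ 0 := by
  unfold cst
  rw [Ne, lintegral_eq_zero_iff (by apply Measurable.ennreal_ofReal; fun_prop)]
  intro h
  have h1 : ∀ᵐ t : Ioi (0 : ℝ) ∂volumeIoiPow (n - 1), False := by
    filter_upwards [h] with t ht
    rw [Pi.zero_apply, ENNReal.ofReal_eq_zero] at ht
    have : 0 < Real.exp (-t.1 ^ 2) * t.1 ^ k := mul_pos (Real.exp_pos _) (pow_pos t.2 k)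
    linarith
  rw [ae_iff] at h1
  simp only [not_false_eq_true, ofPred_true] at h1
  have h2 : volumeIoiPow (n - 1) (Iio (⟨1, mem_Ioi.2 one_pos⟩ : Ioi (0 : ℝ))) = 0 :=
    measure_mono_null (subset_univ _) h1
  rw [volumeIoiPow_apply_Iio, ENNReal.ofReal_eq_zero] at h2
  have h3 : (0 : ℝ) < (1 : ℝ) ^ (n - 1 + 1) / (((n - 1 : ℕ) : ℝ) + 1) := by positivity
  simp only at h2
  linarith

lemma cst_fin (k : ℕ) : cst n k ≠ ⊤ := by
  unfold cst volumeIoiPow
  rw [lintegral_withDensity_eq_lintegral_mul _ (by apply Measurable.ennreal_ofReal; fun_prop)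
    (by apply Measurable.ennreal_ofReal; fun_prop)]
  have h0 := integrableOn_rpow_mul_exp_neg_mul_sq (b := 1) one_pos
    (s := ((n - 1 + k : ℕ) : ℝ)) (by
      have : (0 : ℝ) ≤ ((n - 1 + k : ℕ) : ℝ) := Nat.cast_nonneg _
      linarith)
  have h1 : ∫⁻ a : Ioi (0 : ℝ), ((fun r : Ioi (0 : ℝ) => ENNReal.ofReal (r.1 ^ (n - 1))) *
      fun t : Ioi (0 : ℝ) => ENNReal.ofReal (Real.exp (-t.1 ^ 2) * t.1 ^ k)) a
      ∂(Measure.comap Subtype.val volume) =
      ∫⁻ t in Ioi (0 : ℝ), ENNReal.ofReal (t ^ ((n - 1 + k : ℕ) : ℝ) *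
        Real.exp (-1 * t ^ 2)) := by
    rw [← lintegral_subtype_comap measurableSet_Ioi]
    apply lintegral_congr
    intro t
    have ht : (0 : ℝ) < t.1 := t.2
    rw [Pi.mul_apply, ← ENNReal.ofReal_mul (by positivity)]
    congr 1
    rw [Real.rpow_natCast, pow_add, neg_one_mul]
    ring
  rw [h1]
  exact (h0.lintegral_lt_top).ne

end SlepS

open SlepS

theorem slepSStmt (h : SlepGStmt) : SlepSStmt := by
  intro n N k hN hk P Q h1 h2
  rcases Nat.eq_zero_or_pos n with hn | hn
  · subst hn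
    have hemp : IsEmpty (Metric.sphere (0 : E 0) 1) := by
      constructor
      rintro ⟨x, hx⟩
      have hx0 : x = 0 := Subsingleton.elim _ _
      rw [hx0] at hx
      simp at hx
    unfold sph
    rw [Measure.eq_zero_of_isEmpty ((volume : Measure (E 0)).toSphere)]
    simp
  · have hle := gauss_le h hN k hk P Q h1 h2
    rw [polar hn k P, polar hn k Q] at hle
    have hle2 : (∫⁻ u : Metric.sphere (0 : E n) 1, ENNReal.ofReal (fp P u.1 ^ k)
        ∂(volume : Measure (E n)).toSphere) ≤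
        ∫⁻ u : Metric.sphere (0 : E n) 1, ENNReal.ofReal (fp Q u.1 ^ k)
        ∂(volume : Measure (E n)).toSphere :=
      (ENNReal.mul_le_mul_iff_left (cst_pos k) (cst_fin k)).1 hle
    have hsph : ∀ R : Fin N → E n, sph k R =
        (∫⁻ u : Metric.sphere (0 : E n) 1, ENNReal.ofReal (fp R u.1 ^ k)
        ∂(volume : Measure (E n)).toSphere).toReal := by
      intro R
      unfold sph
      rw [integral_eq_lintegral_of_nonneg_ae]
      · rfl
      · exact Eventually.of_forall fun u => pow_nonneg (fp_nn R u.1) k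
      · exact (((fp_meas R).comp measurable_subtype_coe).pow_const k).aestronglyMeasurable
    rw [hsph P, hsph Q]
    refine ENNReal.toReal_mono ?_ hle2
    have hb : ∀ u : Metric.sphere (0 : E n) 1, ENNReal.ofReal (fp Q u.1 ^ k) ≤
        ENNReal.ofReal (‖Q ⟨0, hN⟩‖ ^ k) := by
      intro u
      apply ENNReal.ofReal_le_ofReal
      apply pow_le_pow_left₀ (fp_nn Q u.1)
      have hu : ‖u.1‖ = 1 := by simp
      apply max_le _ (norm_nonneg _)
      have h3 : mn Q u.1 ≤ inner ℝ u.1 (Q ⟨0, hN⟩) := ciInf_le (Finite.bddBelow_range _) _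
      refine h3.trans ((real_inner_le_norm _ _).trans ?_)
      rw [hu, one_mul]
    refine ((lintegral_mono hb).trans_lt ?_).ne
    rw [lintegral_const]
    exact ENNReal.mul_lt_top ENNReal.ofReal_lt_top (measure_lt_top _ _)

end Pool.Agent.Lib.MP_0c1c75_co.Jmp
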