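import Pool.Agent.Lib.MP_0c1c75_co.JmpSpec
import Pool.Agent.Lib.MP_0c1c75_co.Polar

/-!
MP_0c1c75_co: the limit for balls whose boundary contains the origin.
-/

open MeasureTheory Set Filter Topology
open scoped ENNReal

namespace Pool.Agent.Lib.MP_0c1c75_co.Jmp

namespace SphLim

section basics

variable {m N : ℕ}

lemma mn_cont (hN : 0 < N) (n : Fin N → E m) : Continuous (mn n) := by
  have : Nonempty (Fin N) := ⟨⟨0, hN⟩⟩
  have h : mn n = fun x =>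
      Finset.univ.inf' Finset.univ_nonempty (fun i => inner ℝ x (n i)) := by
    funext x
    rw [Finset.inf'_univ_eq_ciInf]
    rfl
  rw [h]
  refine Continuous.finset_inf'_apply _ fun i _ => ?_
  fun_prop

lemma mn_smul (n : Fin N → E m) (t : ℝ) (ht : 0 ≤ t) (x : E m) :
    mn n (t • x) = t * mn n x := by
  unfold mn
  rw [Real.mul_iInf_of_nonneg ht]
  simp only [real_inner_smul_left]

lemma mn_bd (hN : 0 < N) (n : Fin N → E m) (x : E m) (hx : ‖x‖ = 1) :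
    |mn n x| ≤ ∑ i, ‖n i‖ := by
  have : Nonempty (Fin N) := ⟨⟨0, hN⟩⟩
  obtain ⟨i, hi⟩ := exists_eq_ciInf_of_finite (f := fun i => inner ℝ x (n i))
  unfold mn
  rw [← hi]
  calc |inner ℝ x (n i)| ≤ ‖x‖ * ‖n i‖ := abs_real_inner_le_norm _ _
    _ = ‖n i‖ := by rw [hx, one_mul]
    _ ≤ ∑ i, ‖n i‖ := Finset.single_le_sum (f := fun i => ‖n i‖)
        (fun i _ => norm_nonneg _) (Finset.mem_univ i)

lemma gmax_eq (hN : 0 < N) (n : Fin N → E m) (x : E m) :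
    gmax n (fun i => ‖n i‖ ^ 2) x = ‖x‖ ^ 2 - 2 * mn n x := by
  have : Nonempty (Fin N) := ⟨⟨0, hN⟩⟩
  unfold gmax mn
  have h : ∀ i, ‖x - n i‖ ^ 2 - ‖n i‖ ^ 2 = ‖x‖ ^ 2 - 2 * inner ℝ x (n i) := by
    intro i
    rw [norm_sub_sq_real]
    ring
  simp only [h]
  apply le_antisymm
  · refine ciSup_le fun i => ?_
    have := ciInf_le (Set.finite_range (fun i => inner ℝ x (n i))).bddBelow i
    linarith
  · obtain ⟨i, hi⟩ := exists_eq_ciInf_of_finite (f := fun i => inner ℝ x (n i))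
    rw [← hi]
    exact le_ciSup (f := fun i => ‖x‖ ^ 2 - 2 * inner ℝ x (n i)) (Set.finite_range _).bddAbove i

end basics

/-- the inner integral -/
noncomputable def J (d : ℕ) (Φ : ℝ → ℝ) (μ : ℝ) : ℝ :=
  ∫ ρ in Ioi (0 : ℝ), Φ (ρ ^ 2 - 2 * ρ * μ) * ρ ^ (d + 1)

lemma radial (d : ℕ) (Φ : ℝ → ℝ) (hΦ : Continuous Φ) (h0 : ∀ s, 0 ≤ Φ s) (μ : ℝ)
    (hi : IntegrableOn (fun ρ : ℝ => Φ (ρ ^ 2 - 2 * ρ * μ) * ρ ^ (d + 1)) (Ioi 0)) :
    ∫⁻ t : Ioi (0 : ℝ), ENNReal.ofReal (Φ (t.1 ^ 2 - 2 * t.1 * μ)) ∂(Measure.volumeIoiPow (d + 1)) =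
      ENNReal.ofReal (J d Φ μ) := by
  rw [Measure.volumeIoiPow, lintegral_withDensity_eq_lintegral_mul _ (by fun_prop) (by fun_prop)]
  have e : ∀ t : Ioi (0 : ℝ), ((fun r : Ioi (0 : ℝ) => ENNReal.ofReal (r.1 ^ (d + 1))) *
      fun t : Ioi (0 : ℝ) => ENNReal.ofReal (Φ (t.1 ^ 2 - 2 * t.1 * μ))) t =
      (fun ρ : ℝ => ENNReal.ofReal (Φ (ρ ^ 2 - 2 * ρ * μ) * ρ ^ (d + 1))) t.1 := by
    intro t
    simp only [Pi.mul_apply]
    rw [ENNReal.ofReal_mul (h0 _), mul_comm]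
  rw [lintegral_congr e, lintegral_subtype_comap measurableSet_Ioi
    (fun ρ : ℝ => ENNReal.ofReal (Φ (ρ ^ 2 - 2 * ρ * μ) * ρ ^ (d + 1)))]
  unfold J
  rw [ofReal_integral_eq_lintegral_ofReal hi]
  exact (ae_restrict_iff' measurableSet_Ioi).2
    (ae_of_all _ fun ρ hρ => mul_nonneg (h0 _) (pow_nonneg (le_of_lt hρ) _))

lemma global {N : ℕ} (hN : 0 < N) (d : ℕ) (n : Fin N → E (d + 2)) (Φ : ℝ → ℝ)
    (hΦ : Continuous Φ) (h0 : ∀ s, 0 ≤ Φ s)
    (hi : ∀ μ, IntegrableOn (fun ρ : ℝ => Φ (ρ ^ 2 - 2 * ρ * μ) * ρ ^ (d + 1)) (Ioi 0)) :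
    ∫ x, Φ (gmax n (fun i => ‖n i‖ ^ 2) x) =
      (∫⁻ u : Metric.sphere (0 : E (d + 2)) 1, ENNReal.ofReal (J d Φ (mn n u.1))
        ∂(volume : Measure (E (d + 2))).toSphere).toReal := by
  have hcont : Continuous (fun x : E (d + 2) => Φ (‖x‖ ^ 2 - 2 * mn n x)) := by
    have := mn_cont hN n
    fun_prop
  simp only [gmax_eq hN]
  rw [integral_eq_lintegral_of_nonneg_ae (ae_of_all _ fun x => h0 _) hcont.aestronglyMeasurable,
    Polar.lint (by omega) _ hcont.measurable.ennreal_ofReal]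
  congr 1
  refine lintegral_congr fun u => ?_
  rw [← radial d Φ hΦ h0 _ (hi _)]
  change ∫⁻ t : Ioi (0 : ℝ), _ ∂(Measure.volumeIoiPow (d + 1)) = _
  refine lintegral_congr fun t => ?_
  have hu : ‖u.1‖ = 1 := by simp
  rw [norm_smul, hu, mul_one, mn_smul n t.1 (le_of_lt t.2), Real.norm_eq_abs, sq_abs, mul_assoc]

lemma J_meas (d : ℕ) (Φ : ℝ → ℝ) (hΦ : Continuous Φ) (h0 : ∀ s, 0 ≤ Φ s)
    (hi : ∀ μ, IntegrableOn (fun ρ : ℝ => Φ (ρ ^ 2 - 2 * ρ * μ) * ρ ^ (d + 1)) (Ioi 0)) :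
    Measurable (fun μ : ℝ => ENNReal.ofReal (J d Φ μ)) := by
  have h1 : (fun μ : ℝ => ENNReal.ofReal (J d Φ μ)) = fun μ : ℝ =>
      ∫⁻ t : Ioi (0 : ℝ), (fun p : ℝ × Ioi (0 : ℝ) =>
        ENNReal.ofReal (Φ (p.2.1 ^ 2 - 2 * p.2.1 * p.1))) (μ, t) ∂(Measure.volumeIoiPow (d + 1)) := by
    funext μ
    rw [← radial d Φ hΦ h0 _ (hi _)]
  rw [h1]
  have h2 : Continuous (fun p : ℝ × Ioi (0 : ℝ) => Φ (p.2.1 ^ 2 - 2 * p.2.1 * p.1)) := by
    fun_prop
  have h3 : Measurable (fun p : ℝ × Ioi (0 : ℝ) =>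
      ENNReal.ofReal (Φ (p.2.1 ^ 2 - 2 * p.2.1 * p.1))) := h2.measurable.ennreal_ofReal
  exact h3.lintegral_prod_right' (ν := Measure.volumeIoiPow (d + 1))

lemma up_lim (d : ℕ) (μ : ℝ) :
    Tendsto (fun k : ℕ => (μ + √(μ ^ 2 + 1 / ((k : ℝ) + 1))) ^ d) atTop
      (𝓝 ((2 * max μ 0) ^ d)) := by
  have h1 : Tendsto (fun k : ℕ => μ + √(μ ^ 2 + 1 / ((k : ℝ) + 1))) atTop
      (𝓝 (μ + √(μ ^ 2 + 0))) := by
    have h2 := (tendsto_one_div_add_atTop_nhds_zero_nat (𝕜 := ℝ)).const_add (μ ^ 2)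
    exact ((Real.continuous_sqrt.tendsto _).comp h2).const_add μ
  have h3 : μ + √(μ ^ 2 + 0) = 2 * max μ 0 := by
    rw [add_zero, Real.sqrt_sq_eq_abs]
    rcases le_total μ 0 with h | h
    · rw [abs_of_nonpos h, max_eq_right h]
      ring
    · rw [abs_of_nonneg h, max_eq_left h]
      ring
  rw [h3] at h1
  exact h1.pow d

lemma low_lim (d : ℕ) (hd : 0 < d) (μ : ℝ) :
    Tendsto (fun k : ℕ => (2 * max μ 0) ^ d *
      (1 / 2 + max μ 0 / (2 * √(μ ^ 2 + 1 / ((k : ℝ) + 1))))) atTop (𝓝 ((2 * max μ 0) ^ d)) := by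
  rcases le_or_gt μ 0 with h | h
  · rw [max_eq_right h, mul_zero, zero_pow hd.ne']
    simp
  · rw [max_eq_left h.le]
    have h1 : Tendsto (fun k : ℕ => √(μ ^ 2 + 1 / ((k : ℝ) + 1))) atTop (𝓝 (√(μ ^ 2 + 0))) := by
      have h2 := (tendsto_one_div_add_atTop_nhds_zero_nat (𝕜 := ℝ)).const_add (μ ^ 2)
      exact (Real.continuous_sqrt.tendsto _).comp h2
    rw [add_zero, Real.sqrt_sq h.le] at h1
    have h2 : Tendsto (fun k : ℕ => (2 * μ) ^ d *
        (1 / 2 + μ / (2 * √(μ ^ 2 + 1 / ((k : ℝ) + 1))))) atTop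
        (𝓝 ((2 * μ) ^ d * (1 / 2 + μ / (2 * μ)))) :=
      ((tendsto_const_nhds.div (h1.const_mul 2) (by positivity)).const_add (1 / 2)).const_mul _
    have h3 : (2 * μ) ^ d * (1 / 2 + μ / (2 * μ)) = (2 * μ) ^ d := by
      have : μ / (2 * μ) = 1 / 2 := by
        field_simp
      rw [this]
      norm_num
    rwa [h3] at h2

lemma up_bd (d : ℕ) (M μ ε : ℝ) (hμ : |μ| ≤ M) (hε1 : ε ≤ 1) :
    (μ + √(μ ^ 2 + ε)) ^ d ≤ (M + √(M ^ 2 + 1)) ^ d ∨ ε < 0 := by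
  by_cases hε : ε < 0
  · exact Or.inr hε
  left
  rw [not_lt] at hε
  have h1 : μ ≤ M := (le_abs_self μ).trans hμ
  have h2 : μ ^ 2 ≤ M ^ 2 := by
    rw [← sq_abs μ]
    exact pow_le_pow_left₀ (abs_nonneg μ) hμ 2
  have h3 : √(μ ^ 2 + ε) ≤ √(M ^ 2 + 1) := Real.sqrt_le_sqrt (by linarith)
  have h4 : 0 ≤ μ + √(μ ^ 2 + ε) := by
    have : |μ| ≤ √(μ ^ 2 + ε) := by
      rw [← Real.sqrt_sq_eq_abs]
      exact Real.sqrt_le_sqrt (by linarith)
    have := neg_abs_le μ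
    linarith
  exact pow_le_pow_left₀ h4 (by linarith) d

end SphLim

open SphLim

theorem sphLimStmt (h : SphRadStmt) : SphLimStmt := by
  intro d N hd hN n Φ hΦ
  have hε : ∀ k : ℕ, (0 : ℝ) < 1 / ((k : ℝ) + 1) := fun k => by positivity
  have hε1 : ∀ k : ℕ, 1 / ((k : ℝ) + 1) ≤ 1 := fun k => by
    rw [div_le_one (by positivity)]
    have : (0 : ℝ) ≤ k := Nat.cast_nonneg k
    linarith
  have hJ := fun (k : ℕ) (μ : ℝ) => h d hd μ (1 / ((k : ℝ) + 1)) (hε k) (Φ k) (hΦ k)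
  have hc : ∀ k, Continuous (Φ k) := fun k => (hΦ k).prof.smooth.continuous
  have hn : ∀ k s, 0 ≤ Φ k s := fun k => (hΦ k).prof.nonneg
  have hi : ∀ k μ, IntegrableOn (fun ρ : ℝ => Φ k (ρ ^ 2 - 2 * ρ * μ) * ρ ^ (d + 1)) (Ioi 0) :=
    fun k μ => (hJ k μ).1
  set M : ℝ := ∑ i, ‖n i‖ with hM
  have hM0 : 0 ≤ M := Finset.sum_nonneg fun i _ => norm_nonneg _
  have hmeas : Measurable (fun u : Metric.sphere (0 : E (d + 2)) 1 => mn n u.1) :=
    ((mn_cont hN n).comp continuous_subtype_val).measurable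
  have hbd : ∀ u : Metric.sphere (0 : E (d + 2)) 1, |mn n u.1| ≤ M := fun u =>
    mn_bd hN n u.1 (by simp)
  have hlim : Tendsto (fun k => ∫⁻ u : Metric.sphere (0 : E (d + 2)) 1,
      ENNReal.ofReal (J d (Φ k) (mn n u.1)) ∂(volume : Measure (E (d + 2))).toSphere) atTop
      (𝓝 (∫⁻ u : Metric.sphere (0 : E (d + 2)) 1,
        ENNReal.ofReal ((2 * max (mn n u.1) 0) ^ d) ∂(volume : Measure (E (d + 2))).toSphere)) := by
    refine tendsto_lintegral_of_dominated_convergence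
      (fun _ => ENNReal.ofReal ((M + √(M ^ 2 + 1)) ^ d)) ?_ ?_ ?_ ?_
    · intro k
      exact (J_meas d (Φ k) (hc k) (hn k) (hi k)).comp hmeas
    · intro k
      refine ae_of_all _ fun u => ENNReal.ofReal_le_ofReal ?_
      refine (hJ k (mn n u.1)).2.2.trans ?_
      rcases up_bd d M (mn n u.1) _ (hbd u) (hε1 k) with h1 | h1
      · exact h1
      · exact absurd (hε k) (not_lt.2 h1.le)
    · rw [lintegral_const]
      exact (ENNReal.mul_lt_top ENNReal.ofReal_lt_top (measure_lt_top _ _)).ne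
    · refine ae_of_all _ fun u => ENNReal.tendsto_ofReal ?_
      exact tendsto_of_tendsto_of_tendsto_of_le_of_le (low_lim d hd _) (up_lim d _)
        (fun k => (hJ k _).2.1) (fun k => (hJ k _).2.2)
  have hfin : ∫⁻ u : Metric.sphere (0 : E (d + 2)) 1,
      ENNReal.ofReal ((2 * max (mn n u.1) 0) ^ d) ∂(volume : Measure (E (d + 2))).toSphere ≠ ⊤ := by
    have h1 : ∫⁻ u : Metric.sphere (0 : E (d + 2)) 1,
        ENNReal.ofReal ((2 * max (mn n u.1) 0) ^ d) ∂(volume : Measure (E (d + 2))).toSphere ≤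
        ∫⁻ _ : Metric.sphere (0 : E (d + 2)) 1, ENNReal.ofReal ((2 * M) ^ d)
          ∂(volume : Measure (E (d + 2))).toSphere := by
      refine lintegral_mono fun u => ENNReal.ofReal_le_ofReal ?_
      refine pow_le_pow_left₀ (by positivity) ?_ d
      have := (le_abs_self _).trans (hbd u)
      have h3 : max (mn n u.1) 0 ≤ M := max_le this hM0
      linarith
    rw [lintegral_const] at h1
    exact (lt_of_le_of_lt h1 (ENNReal.mul_lt_top ENNReal.ofReal_lt_top (measure_lt_top _ _))).ne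
  have h2 := (ENNReal.tendsto_toReal hfin).comp hlim
  have h3 : (∫⁻ u : Metric.sphere (0 : E (d + 2)) 1,
      ENNReal.ofReal ((2 * max (mn n u.1) 0) ^ d)
        ∂(volume : Measure (E (d + 2))).toSphere).toReal = 2 ^ d * sph d n := by
    unfold sph
    rw [← integral_const_mul, integral_eq_lintegral_of_nonneg_ae
      (ae_of_all _ fun u => by positivity) ?_]
    · simp only [mul_pow]
    · have h4 : Continuous (fun u : Metric.sphere (0 : E (d + 2)) 1 =>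
          (2 : ℝ) ^ d * (max (mn n u.1) 0) ^ d) := by
        have h5 := (mn_cont hN n).comp
          (continuous_subtype_val : Continuous (fun u : Metric.sphere (0 : E (d + 2)) 1 => u.1))
        exact continuous_const.mul ((h5.max continuous_const).pow d)
      exact h4.aestronglyMeasurable
  rw [h3] at h2
  refine h2.congr fun k => ?_
  rw [Function.comp_apply, global hN d n (Φ k) (hc k) (hn k) (hi k)]

end Pool.Agent.Lib.MP_0c1c75_co.Jmp
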