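import Pool.Agent.Lib.MP_0c1c75_co.JmpSpec

/-!
MP_0c1c75_co, module SphRad: the radial integral.
-/

open MeasureTheory Set Filter Topology
open scoped ContDiff

namespace Pool.Agent.Lib.MP_0c1c75_co.Jmp

namespace SphRad

/-- The interval integral over a set which contains the support. -/
theorem to_interval {F : ℝ → ℝ} {a b : ℝ} (ha : 0 ≤ a) (hab : a ≤ b)
    (h0 : ∀ x, 0 < x → x ≤ a → F x = 0) (h1 : ∀ x, b ≤ x → F x = 0) (hF : Continuous F) :
    IntegrableOn F (Ioi 0) ∧ ∫ x in Ioi (0 : ℝ), F x = ∫ x in a..b, F x := by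
  have e : ∀ x ∈ Ioi (0 : ℝ), F x = (Ioc a b).indicator F x := by
    intro x hx
    by_cases h : x ∈ Ioc a b
    · rw [indicator_of_mem h]
    · rw [indicator_of_notMem h]
      rcases le_or_gt x a with h2 | h2
      · exact h0 x hx h2
      · exact h1 x (not_lt.1 fun h3 => h ⟨h2, h3.le⟩)
  have hi : IntegrableOn F (Ioc a b) := (hF.integrableOn_Icc).mono_set Ioc_subset_Icc_self
  have hs : Ioc a b ⊆ Ioi (0 : ℝ) := fun x hx => lt_of_le_of_lt ha hx.1
  constructor
  · have h2 : IntegrableOn ((Ioc a b).indicator F) (Ioi 0) :=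
      ((integrable_indicator_iff measurableSet_Ioc).2 hi).integrableOn
    exact h2.congr_fun (fun x hx => (e x hx).symm) measurableSet_Ioi
  · rw [setIntegral_congr_fun measurableSet_Ioi e, setIntegral_indicator measurableSet_Ioc,
      inter_eq_right.2 hs, intervalIntegral.integral_of_le hab]

end SphRad

theorem sphRadStmt : SphRadStmt := by
  intro d hd μ ε hε Φ hΦ
  set m := max μ 0 with hm
  set s := √(μ ^ 2 + ε) with hs
  have hm0 : 0 ≤ m := le_max_right _ _
  have hμm : μ ≤ m := le_max_left _ _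
  have hs2 : s ^ 2 = μ ^ 2 + ε := Real.sq_sqrt (by positivity)
  have hs0 : 0 < s := Real.sqrt_pos.2 (by positivity)
  have hsm : |μ| < s := by
    rw [hs]
    apply Real.lt_sqrt_of_sq_lt
    rw [sq_abs]
    linarith
  have hsμ1 : μ < s := (le_abs_self μ).trans_lt hsm
  have hsμ2 : -μ < s := (neg_le_abs μ).trans_lt hsm
  have hT : 2 * m < μ + s := by
    rcases le_total μ 0 with h | h
    · rw [hm, max_eq_right h]; linarith
    · rw [hm, max_eq_left h]; linarith
  have hT0 : 0 < μ + s := by linarith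
  have hΦc : Continuous Φ := hΦ.prof.smooth.continuous
  -- the function `g`
  have hgc : Continuous fun ρ : ℝ => ρ ^ 2 - 2 * ρ * μ := by fun_prop
  have hgd : ∀ ρ : ℝ, HasDerivAt (fun ρ : ℝ => ρ ^ 2 - 2 * ρ * μ) (2 * (ρ - μ)) ρ := by
    intro ρ
    have h1 := (hasDerivAt_pow 2 ρ).sub (((hasDerivAt_id ρ).const_mul 2).mul_const μ)
    refine h1.congr_deriv ?_
    simp
    ring
  have hg0 : (2 * m) ^ 2 - 2 * (2 * m) * μ = 0 := by
    rcases le_total μ 0 with h | h
    · rw [hm, max_eq_right h]; ring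
    · rw [hm, max_eq_left h]; ring
  have hgT : (μ + s) ^ 2 - 2 * (μ + s) * μ = ε := by
    have : (μ + s) ^ 2 - 2 * (μ + s) * μ = s ^ 2 - μ ^ 2 := by ring
    rw [this, hs2]; ring
  have hz0 : ∀ ρ, 0 < ρ → ρ ≤ 2 * m → Φ (ρ ^ 2 - 2 * ρ * μ) = 0 := by
    intro ρ h1 h2
    apply hΦ.supp
    intro h3
    rcases le_total μ 0 with h | h
    · rw [hm, max_eq_right h] at h2; linarith
    · rw [hm, max_eq_left h] at h2
      have : ρ ^ 2 - 2 * ρ * μ = ρ * (ρ - 2 * μ) := by ring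
      have h4 := h3.1
      rw [this] at h4
      have h5 : ρ * (ρ - 2 * μ) ≤ 0 := mul_nonpos_of_nonneg_of_nonpos h1.le (by linarith)
      linarith
  have hz1 : ∀ ρ, μ + s ≤ ρ → Φ (ρ ^ 2 - 2 * ρ * μ) = 0 := by
    intro ρ h1
    apply hΦ.supp
    intro h3
    have e : ρ ^ 2 - 2 * ρ * μ = (ρ - μ) ^ 2 - μ ^ 2 := by ring
    have h4 : s ^ 2 ≤ (ρ - μ) ^ 2 := pow_le_pow_left₀ hs0.le (by linarith) 2
    have h5 := h3.2
    rw [e] at h5
    linarith
  -- the two integrals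
  have hF : Continuous fun ρ : ℝ => Φ (ρ ^ 2 - 2 * ρ * μ) * ρ ^ (d + 1) :=
    (hΦc.comp hgc).mul (continuous_pow (d + 1))
  have hG : Continuous fun ρ : ℝ => Φ (ρ ^ 2 - 2 * ρ * μ) * (2 * (ρ - μ)) :=
    (hΦc.comp hgc).mul (by fun_prop)
  obtain ⟨hF1, hF2⟩ := SphRad.to_interval (F := fun ρ : ℝ => Φ (ρ ^ 2 - 2 * ρ * μ) * ρ ^ (d + 1))
    (a := 2 * m) (b := μ + s) (by positivity) hT.le
    (fun x h1 h2 => by simp only [hz0 x h1 h2, zero_mul])
    (fun x h1 => by simp only [hz1 x h1, zero_mul]) hF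
  have hone : ∫ ρ in (2 * m)..(μ + s), Φ (ρ ^ 2 - 2 * ρ * μ) * (2 * (ρ - μ)) = 1 := by
    have h1 := intervalIntegral.integral_comp_mul_deriv (a := 2 * m) (b := μ + s)
      (f := fun ρ : ℝ => ρ ^ 2 - 2 * ρ * μ) (f' := fun ρ => 2 * (ρ - μ)) (g := Φ)
      (fun x _ => hgd x) (by fun_prop) hΦc
    simp only [Function.comp_apply] at h1
    rw [h1, hg0, hgT, intervalIntegral.integral_of_le hε.le]
    have h2 : ∀ x, Φ x = (Ioc 0 ε).indicator Φ x := by
      intro x
      by_cases h : x ∈ Ioc 0 ε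
      · rw [indicator_of_mem h]
      · rw [indicator_of_notMem h]
        exact hΦ.supp x fun h3 => h ⟨h3.1, h3.2.le⟩
    rw [← integral_indicator measurableSet_Ioc, ← hΦ.mass]
    exact integral_congr_ae (Eventually.of_forall fun x => (h2 x).symm)
  refine ⟨hF1, ?_, ?_⟩
  · rw [hF2]
    rcases le_total μ 0 with h | h
    · have e : m = 0 := by rw [hm, max_eq_right h]
      rw [e, mul_zero, zero_pow hd.ne', zero_mul]
      rw [e, mul_zero] at hT
      refine intervalIntegral.integral_nonneg hT.le fun x hx => ?_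
      exact mul_nonneg (hΦ.prof.nonneg _) (pow_nonneg hx.1 _)
    · have e : m = μ := by rw [hm, max_eq_left h]
      rw [e] at hT hone ⊢
      calc (2 * μ) ^ d * (1 / 2 + μ / (2 * s))
          = ∫ ρ in (2 * μ)..(μ + s), (2 * μ) ^ d * (1 / 2 + μ / (2 * s)) *
              (Φ (ρ ^ 2 - 2 * ρ * μ) * (2 * (ρ - μ))) := by
            rw [intervalIntegral.integral_const_mul, hone, mul_one]
        _ ≤ ∫ ρ in (2 * μ)..(μ + s), Φ (ρ ^ 2 - 2 * ρ * μ) * ρ ^ (d + 1) := by
            refine intervalIntegral.integral_mono_on hT.le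
              ((hG.const_mul _).intervalIntegrable _ _) (hF.intervalIntegrable _ _) fun ρ hρ => ?_
            have h0 := hΦ.prof.nonneg (ρ ^ 2 - 2 * ρ * μ)
            have h1 : (1 / 2 + μ / (2 * s)) * (2 * (ρ - μ)) ≤ ρ := by
              have h2 : (1 / 2 + μ / (2 * s)) * (2 * (ρ - μ)) = (ρ - μ) + μ * ((ρ - μ) / s) := by
                field_simp
              have h3 : (ρ - μ) / s ≤ 1 := by
                rw [div_le_one hs0]
                linarith [hρ.2]
              rw [h2]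
              nlinarith
            have h2 : (2 * μ) ^ d ≤ ρ ^ d := pow_le_pow_left₀ (by linarith) hρ.1 d
            have h3 : 0 ≤ ρ := by linarith [hρ.1]
            calc (2 * μ) ^ d * (1 / 2 + μ / (2 * s)) * (Φ (ρ ^ 2 - 2 * ρ * μ) * (2 * (ρ - μ)))
                = Φ (ρ ^ 2 - 2 * ρ * μ) * ((2 * μ) ^ d *
                    ((1 / 2 + μ / (2 * s)) * (2 * (ρ - μ)))) := by ring
              _ ≤ Φ (ρ ^ 2 - 2 * ρ * μ) * (ρ ^ d * ρ) := by
                  refine mul_le_mul_of_nonneg_left ?_ h0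
                  calc (2 * μ) ^ d * ((1 / 2 + μ / (2 * s)) * (2 * (ρ - μ)))
                      ≤ (2 * μ) ^ d * ρ := mul_le_mul_of_nonneg_left h1 (by positivity)
                    _ ≤ ρ ^ d * ρ := mul_le_mul_of_nonneg_right h2 h3
              _ = Φ (ρ ^ 2 - 2 * ρ * μ) * ρ ^ (d + 1) := by rw [pow_succ ρ d]
  · rw [hF2]
    calc ∫ ρ in (2 * m)..(μ + s), Φ (ρ ^ 2 - 2 * ρ * μ) * ρ ^ (d + 1)
        ≤ ∫ ρ in (2 * m)..(μ + s), (μ + s) ^ d * (Φ (ρ ^ 2 - 2 * ρ * μ) * (2 * (ρ - μ))) := by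
          refine intervalIntegral.integral_mono_on hT.le (hF.intervalIntegrable _ _)
            ((hG.const_mul _).intervalIntegrable _ _) fun ρ hρ => ?_
          have h0 := hΦ.prof.nonneg (ρ ^ 2 - 2 * ρ * μ)
          have h3 : 0 ≤ ρ := le_trans (by positivity) hρ.1
          have h1 : ρ ≤ 2 * (ρ - μ) := by linarith [hρ.1]
          have h2 : ρ ^ d ≤ (μ + s) ^ d := pow_le_pow_left₀ h3 hρ.2 d
          calc Φ (ρ ^ 2 - 2 * ρ * μ) * ρ ^ (d + 1) = Φ (ρ ^ 2 - 2 * ρ * μ) * (ρ ^ d * ρ) := by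
                rw [pow_succ ρ d]
            _ ≤ Φ (ρ ^ 2 - 2 * ρ * μ) * ((μ + s) ^ d * (2 * (ρ - μ))) := by
                refine mul_le_mul_of_nonneg_left ?_ h0
                calc ρ ^ d * ρ ≤ (μ + s) ^ d * ρ := mul_le_mul_of_nonneg_right h2 h3
                  _ ≤ (μ + s) ^ d * (2 * (ρ - μ)) :=
                    mul_le_mul_of_nonneg_left h1 (pow_nonneg hT0.le d)
            _ = (μ + s) ^ d * (Φ (ρ ^ 2 - 2 * ρ * μ) * (2 * (ρ - μ))) := by ring
      _ = (μ + s) ^ d := by rw [intervalIntegral.integral_const_mul, hone, mul_one]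

end Pool.Agent.Lib.MP_0c1c75_co.Jmp
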