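import Pool.Agent.Lib.MP_0c1c75_co.JmpSpec

/-!
MP_0c1c75_co, modules XPlus and Fact (helper32).
-/

open MeasureTheory Set Metric

namespace Pool.Agent.Lib.MP_0c1c75_co.Jmp

namespace XPlus

/-- the second circumscribed ball -/
lemma exists_center (hC : CircumStmt) (hCA : CircumAppStmt) {d N : ℕ} (hN : 0 < N)
    (p q : Fin N → E d) {c ρ : ℝ} {o : E d} (hc : 0 ≤ c) (hpq : Contr c p q) (hρ : 0 ≤ ρ)
    (hp : ∀ i, ‖p i - o‖ ≤ ρ) : ∃ o' : E d, ∀ i, ‖q i - o'‖ ≤ c * ρ := by
  obtain ⟨l, o', R', hl, hl1, hlo, hR', hle, hsum⟩ := hC d N hN q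
  refine ⟨o', fun i => (hle i).trans ?_⟩
  exact (hCA d N hN).2 c p q hc hpq o o' ρ R' l hl hl1 hlo hR' hsum hρ hp

lemma sin_sin_pos {y : ℝ} (hy : 0 < y) (hy1 : y ≤ 1) :
    0 < Real.sin y ∧ 0 < Real.sin (Real.sin y) ∧ Real.sin y ≤ 1 := by
  have hpi := Real.pi_gt_three
  have h1 : 0 < Real.sin y := Real.sin_pos_of_pos_of_lt_pi hy (by linarith)
  have h2 := Real.sin_le_one y
  exact ⟨h1, Real.sin_pos_of_pos_of_lt_pi h1 (by linarith), h2⟩

lemma arcsin_sin_sin {y : ℝ} (hy : 0 < y) (hy1 : y ≤ 1) :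
    Real.arcsin (Real.sin (Real.sin y)) = Real.sin y := by
  obtain ⟨h1, h2, h3⟩ := sin_sin_pos hy hy1
  have hpi := Real.pi_gt_three
  exact Real.arcsin_sin (by linarith) (by linarith)

end XPlus

open XPlus

theorem xPlusStmt (hJ : JumpStmt) (hB : BendPathStmt) (hC : CircumStmt) (hCA : CircumAppStmt) :
    XPlusStmt := by
  intro d N p q o r ρ hρ hρr hp hpq
  rcases Nat.eq_zero_or_pos N with hN0 | hN
  · subst hN0
    have : p = q := by
      funext i
      exact i.elim0
    rw [this]
  have hr : 0 < r := hρ.trans_le hρr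
  set y := ρ / r with hy
  have hy0 : 0 < y := by positivity
  have hy1 : y ≤ 1 := (div_le_one hr).mpr hρr
  obtain ⟨s1, s2, s3⟩ := sin_sin_pos hy0 hy1
  set c := r / ρ * Real.sin (Real.sin y) with hc
  have hc0 : 0 < c := by positivity
  have hcρ : c * ρ = r * Real.sin (Real.sin y) := by
    rw [hc]
    field_simp
  obtain ⟨o', hq⟩ := exists_center hC hCA hN p q hc0.le hpq hρ.le hp
  obtain ⟨P, z, P1, P2, P3, P4, P5, P6⟩ := hB.1 d N p o ρ r hρ hρr hp
  have hρ' : 0 < c * ρ := by positivity
  have hρ'r : c * ρ ≤ r := by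
    rw [hcρ]
    exact mul_le_of_le_one_right hr.le (Real.sin_le_one _)
  obtain ⟨Q, z', Q1, Q2, Q3, Q4, Q5, Q6⟩ := hB.2 d N q o' (c * ρ) r hρ' hρ'r hq
  refine hJ d N p q (fun _ => r) P Q z z' P1 P2 P3 Q1 Q2 Q3 P4 Q4 P5 Q5 fun i j => ?_
  have e1 : c * ρ / r = Real.sin (Real.sin y) := by
    rw [hcρ]
    field_simp
  have h1 := Q6 i j
  rw [e1, arcsin_sin_sin hy0 hy1] at h1
  refine h1.trans (le_trans ?_ (P6 i j))
  have h2 := hpq i j
  have e2 : Real.sinc y = Real.sin y / Real.sin (Real.sin y) * c := by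
    have e3 : r / ρ = 1 / y := by
      rw [hy, one_div_div]
    have e4 : ∀ A B : ℝ, B ≠ 0 → A / y = A / B * (1 / y * B) := by
      intro A B hB
      field_simp
    rw [Real.sinc_of_ne_zero hy0.ne', hc, e3]
    exact e4 _ _ s2.ne'
  rw [e2, mul_assoc]
  exact mul_le_mul_of_nonneg_left h2 (by positivity)

theorem factStmt (hX : XPlusStmt) (hNum : NumStmt) (hC : CircumStmt) (hCA : CircumAppStmt) :
    FactStmt := by
  intro d N p q hpq r
  rcases Nat.eq_zero_or_pos N with hN0 | hN
  · subst hN0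
    have : p = q := by
      funext i
      exact i.elim0
    rw [this]
  obtain ⟨l, o, R, hl, hl1, hlo, hR, hle, hsum⟩ := hC d N hN p
  obtain ⟨hsub, hempty⟩ := (hCA d N hN).1 p l o R hl hl1 hlo hR hsum
  rcases lt_or_ge r R with hrR | hRr
  · rw [hempty r hrR]
    simp
  rcases hR.eq_or_lt with h0 | hR0
  · -- all points are equal
    have hp0 : ∀ i, p i = o := by
      intro i
      have h1 := hle i
      rw [← h0] at h1
      exact sub_eq_zero.mp (norm_le_zero_iff.mp h1)
    have i0 : Fin N := ⟨0, hN⟩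
    have hq0 : ∀ i, q i = q i0 := by
      intro i
      have h1 := hpq i i0
      rw [hp0 i, hp0 i0, dist_self, mul_zero] at h1
      exact dist_le_zero.mp h1
    have hne : Nonempty (Fin N) := ⟨i0⟩
    have e1 : body p r = closedBall o r := by
      unfold body
      simp only [hp0, iInter_const]
    have e2 : body q r = closedBall (q i0) r := by
      unfold body
      rw [iInter_congr fun i => by rw [hq0 i]]
      exact iInter_const _
    rw [e1, e2, Measure.addHaar_closedBall_center, Measure.addHaar_closedBall_center volume (q i0)]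
  have hr : 0 < r := hR0.trans_le hRr
  set y := R / r with hy
  have hy0 : 0 < y := by positivity
  have hy1 : y ≤ 1 := (div_le_one hr).mpr hRr
  rcases le_or_gt y 0.9632 with h | h
  · refine hX d N p q o r R hR0 hRr hle fun i j => (hpq i j).trans ?_
    refine mul_le_mul_of_nonneg_right ?_ dist_nonneg
    have h1 := hNum.1 y hy0.le h
    have e1 : r / R * Real.sin (Real.sin (R / r)) = Real.sin (Real.sin y) / y := by
      rw [← hy, hy]
      field_simp
    rw [e1, le_div_iff₀ hy0]
    exact h1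
  · obtain ⟨o', hq⟩ := exists_center hC hCA hN p q (by norm_num) hpq hR0.le hle
    have h1 := hNum.2 y h.le hy1
    have h2 : √(r ^ 2 - R ^ 2) ≤ r - 0.759 * R := by
      have e1 : r ^ 2 - R ^ 2 = r ^ 2 * (1 - y ^ 2) := by
        rw [hy]
        field_simp
      have e2 : r - 0.759 * R = r * (1 - 0.759 * y) := by
        rw [hy]
        field_simp
      rw [e1, e2, Real.sqrt_mul (sq_nonneg r), Real.sqrt_sq hr.le]
      exact mul_le_mul_of_nonneg_left h1 hr.le
    have h3 : closedBall o' (r - 0.759 * R) ⊆ body q r := by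
      intro x hx
      unfold body
      rw [mem_iInter]
      intro i
      rw [mem_closedBall, dist_eq_norm] at hx ⊢
      have h4 : x - q i = (x - o') - (q i - o') := by abel
      rw [h4]
      have h5 := norm_sub_le (x - o') (q i - o')
      have h6 := hq i
      linarith
    calc volume (body p r) ≤ volume (closedBall o (√(r ^ 2 - R ^ 2))) :=
          measure_mono (hsub r hRr)
      _ ≤ volume (closedBall o (r - 0.759 * R)) := measure_mono (closedBall_subset_closedBall h2)
      _ = volume (closedBall o' (r - 0.759 * R)) := by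
          rw [Measure.addHaar_closedBall_center, Measure.addHaar_closedBall_center volume o']
      _ ≤ volume (body q r) := measure_mono h3

end Pool.Agent.Lib.MP_0c1c75_co.Jmp
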