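import Pool.Agent.Lib.MP_0c1c75_co.Spec4
import Pool.Agent.Lib.MP_0c1c75_co.Thm2

/-!
MP_0c1c75_co, Theorem 2, sharper form.
-/

set_option autoImplicit false

open MeasureTheory Set Metric Filter Topology
open scoped Pointwise

namespace Pool.Agent.Lib.MP_0c1c75_co

namespace Thm2p

variable {d N : ℕ}

/-- the Beta integral -/
lemma bint (α : ℝ) (hα : 0 < α) (hd : 0 < d) :
    IntegrableOn (fun w : ℝ => w ^ (α - 1) * (max (1 - w) 0) ^ d) (Ioi 0) ∧
    ∫ w in Ioi (0 : ℝ), w ^ (α - 1) * (max (1 - w) 0) ^ d =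
      ProbabilityTheory.beta α ((d : ℝ) + 1) := by
  have hβ : (0 : ℝ) < (d : ℝ) + 1 := by positivity
  set B := ProbabilityTheory.beta α ((d : ℝ) + 1) with hB
  have hB0 : 0 < B := ProbabilityTheory.beta_pos hα hβ
  set f := ProbabilityTheory.betaPDFReal α ((d : ℝ) + 1) with hf
  have hnn : ∀ x, 0 ≤ f x := by
    intro x
    by_cases hx : 0 < x ∧ x < 1
    · exact (ProbabilityTheory.betaPDFReal_pos hx.1 hx.2 hα hβ).le
    · rw [hf, ProbabilityTheory.betaPDFReal, if_neg hx]
  have hm : Measurable f := ProbabilityTheory.measurable_betaPDFReal α _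
  have hone : ∫⁻ x, ENNReal.ofReal (f x) = 1 := ProbabilityTheory.lintegral_betaPDF_eq_one hα hβ
  have hint : Integrable f := by
    refine ⟨hm.aestronglyMeasurable, ?_⟩
    rw [hasFiniteIntegral_iff_ofReal (Filter.Eventually.of_forall hnn), hone]
    exact ENNReal.one_lt_top
  have hval : ∫ x, f x = 1 := by
    rw [integral_eq_lintegral_of_nonneg_ae (Filter.Eventually.of_forall hnn)
      hm.aestronglyMeasurable, hone]
    simp
  have heq : (Ioi (0 : ℝ)).indicator (fun w : ℝ => w ^ (α - 1) * (max (1 - w) 0) ^ d) =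
      fun w => B * f w := by
    funext w
    by_cases h0 : 0 < w
    · rw [indicator_of_mem (mem_Ioi.2 h0)]
      by_cases h1 : w < 1
      · rw [hf, ProbabilityTheory.betaPDFReal, if_pos ⟨h0, h1⟩, max_eq_left (by linarith),
          add_sub_cancel_right, Real.rpow_natCast, ← hB]
        field_simp
      · rw [hf, ProbabilityTheory.betaPDFReal, if_neg (fun h => h1 h.2), max_eq_right (by linarith),
          zero_pow hd.ne']
        ring
    · rw [indicator_of_notMem (by simpa using h0), hf, ProbabilityTheory.betaPDFReal,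
        if_neg (fun h => h0 h.1)]
      ring
  constructor
  · rw [← integrable_indicator_iff measurableSet_Ioi, heq]
    exact hint.const_mul B
  · rw [← integral_indicator measurableSet_Ioi, heq, integral_const_mul, hval, mul_one]

/-- the scaled Beta integral -/
lemma sint (α : ℝ) (hα : 0 < α) (hd : 0 < d) (θ s : ℝ) (hθ : 0 < θ) (hs : 0 < s) :
    IntegrableOn (fun w : ℝ => w ^ (α - 1) * (max (1 + θ * (s - w)) 0) ^ d) (Ioi 0) ∧
    ∫ w in Ioi (0 : ℝ), w ^ (α - 1) * (max (1 + θ * (s - w)) 0) ^ d =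
      ((1 + θ * s) / θ) ^ α * (1 + θ * s) ^ d * ProbabilityTheory.beta α ((d : ℝ) + 1) := by
  obtain ⟨h1, h2⟩ := bint (d := d) α hα hd
  set c := (1 + θ * s) / θ with hc
  have hθs : 0 < 1 + θ * s := by positivity
  have hc0 : 0 < c := div_pos hθs hθ
  have hcθ : θ * c = 1 + θ * s := by rw [hc]; field_simp
  set g : ℝ → ℝ := fun w : ℝ => w ^ (α - 1) * (max (1 + θ * (s - w)) 0) ^ d with hg
  have hgc : ∀ w ∈ Ioi (0 : ℝ), c ^ (α - 1) * (1 + θ * s) ^ d *
      (w ^ (α - 1) * (max (1 - w) 0) ^ d) = g (c * w) := by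
    intro w hw
    have hw' : 0 < w := hw
    rw [hg]
    simp only
    have e1 : 1 + θ * (s - c * w) = (1 + θ * s) * (1 - w) := by
      have : θ * (s - c * w) = θ * s - θ * c * w := by ring
      rw [this, hcθ]
      ring
    have e2 : max ((1 + θ * s) * (1 - w)) 0 = (1 + θ * s) * max (1 - w) 0 := by
      rw [mul_max_of_nonneg _ _ hθs.le, mul_zero]
    rw [e1, e2, mul_pow, Real.mul_rpow hc0.le hw'.le]
    ring
  have hgi : IntegrableOn (fun w => g (c * w)) (Ioi 0) :=
    IntegrableOn.congr_fun (Integrable.const_mul h1 (c ^ (α - 1) * (1 + θ * s) ^ d)) hgc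
      measurableSet_Ioi
  constructor
  · have := (integrableOn_Ioi_comp_mul_left_iff g 0 hc0).1 hgi
    rwa [mul_zero] at this
  · have h3 := integral_comp_mul_left_Ioi' g 0 hc0
    rw [mul_zero] at h3
    rw [← h3, ← setIntegral_congr_fun measurableSet_Ioi hgc, integral_const_mul, h2, smul_eq_mul]
    have e3 : c ^ α = c * c ^ (α - 1) := by
      conv_lhs => rw [show α = 1 + (α - 1) by ring, Real.rpow_add hc0, Real.rpow_one]
    rw [e3]
    ring

lemma measurable_gmax (p : Fin N → E d) (a : Fin N → ℝ) : Measurable (gmax p a) := by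
  unfold gmax
  exact Measurable.iSup fun i => (by fun_prop)

/-- the upper bound of the fractional integral -/
lemma upper (hd : 0 < d) (hN : 0 < N) (q : Fin N → E d) (a : Fin N → ℝ) (α θ s V : ℝ)
    (hα : 0 < α) (hθ : 0 < θ) (hs : 0 < s) (hV0 : 0 ≤ V)
    (hV : ∀ t, (volume {z : E d | gmax q a z ≤ t}).toReal ≤ V * (max (1 + θ * t) 0) ^ d) :
    ∫ x in {x | gmax q a x < s}, (s - gmax q a x) ^ α ≤
      α * (V * (((1 + θ * s) / θ) ^ α * (1 + θ * s) ^ d *
        ProbabilityTheory.beta α ((d : ℝ) + 1))) := by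
  obtain ⟨h1, h2⟩ := sint (d := d) α hα hd θ s hθ hs
  have hm := measurable_gmax q a
  set f : E d → ℝ := fun x => max (s - gmax q a x) 0 with hf
  have hfm : Measurable f := (measurable_const.sub hm).max measurable_const
  have hf0 : ∀ x, 0 ≤ f x := fun x => le_max_right _ _
  have hset : ∫ x in {x | gmax q a x < s}, (s - gmax q a x) ^ α = ∫ x, f x ^ α := by
    rw [← integral_indicator (measurableSet_lt hm measurable_const)]
    refine integral_congr_ae (Filter.Eventually.of_forall fun x => ?_)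
    by_cases hx : gmax q a x < s
    · simp only
      rw [indicator_of_mem (show x ∈ {x | gmax q a x < s} from hx), hf]
      simp only
      rw [max_eq_left (by linarith)]
    · simp only
      rw [indicator_of_notMem (show x ∉ {x | gmax q a x < s} from hx), hf]
      simp only
      rw [max_eq_right (by linarith), Real.zero_rpow hα.ne']
  rw [hset]
  have hnn : ∀ x, 0 ≤ f x ^ α := fun x => Real.rpow_nonneg (hf0 x) α
  rw [integral_eq_lintegral_of_nonneg_ae (Filter.Eventually.of_forall hnn)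
    (hfm.pow_const α).aestronglyMeasurable]
  have hB0 : 0 < ProbabilityTheory.beta α ((d : ℝ) + 1) :=
    ProbabilityTheory.beta_pos hα (by positivity)
  apply ENNReal.toReal_le_of_le_ofReal (by positivity)
  rw [lintegral_rpow_eq_lintegral_meas_le_mul volume (Filter.Eventually.of_forall hf0)
    hfm.aemeasurable hα, ENNReal.ofReal_mul hα.le]
  refine mul_le_mul_right ?_ _
  have hint2 : Integrable (fun w : ℝ => V * (w ^ (α - 1) * (max (1 + θ * (s - w)) 0) ^ d))
      (volume.restrict (Ioi 0)) := h1.const_mul V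
  have hnn2 : ∀ᵐ w ∂(volume.restrict (Ioi (0 : ℝ))),
      0 ≤ V * (w ^ (α - 1) * (max (1 + θ * (s - w)) 0) ^ d) := by
    refine (ae_restrict_iff' measurableSet_Ioi).2 (Filter.Eventually.of_forall fun w hw => ?_)
    have hw' : (0 : ℝ) < w := hw
    have : 0 ≤ w ^ (α - 1) := Real.rpow_nonneg hw'.le _
    have h4 : 0 ≤ (max (1 + θ * (s - w)) 0) ^ d := pow_nonneg (le_max_right _ _) d
    positivity
  have hR : ENNReal.ofReal (V * (((1 + θ * s) / θ) ^ α * (1 + θ * s) ^ d *
        ProbabilityTheory.beta α ((d : ℝ) + 1))) =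
      ∫⁻ w in Ioi (0 : ℝ), ENNReal.ofReal (V * (w ^ (α - 1) * (max (1 + θ * (s - w)) 0) ^ d)) := by
    rw [← ofReal_integral_eq_lintegral_ofReal hint2 hnn2, integral_const_mul, h2]
  rw [hR]
  refine setLIntegral_mono' measurableSet_Ioi fun w hw => ?_
  have hw' : (0 : ℝ) < w := hw
  have h5 : {x : E d | w ≤ f x} ⊆ {x | gmax q a x ≤ s - w} := by
    intro x hx
    have hx' : w ≤ max (s - gmax q a x) 0 := hx
    rcases le_max_iff.1 hx' with h | h
    · change gmax q a x ≤ s - w
      linarith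
    · linarith
  calc volume {x : E d | w ≤ f x} * ENNReal.ofReal (w ^ (α - 1))
      ≤ volume {x : E d | gmax q a x ≤ s - w} * ENNReal.ofReal (w ^ (α - 1)) := by
        gcongr
    _ = ENNReal.ofReal ((volume {x : E d | gmax q a x ≤ s - w}).toReal) *
        ENNReal.ofReal (w ^ (α - 1)) := by
        rw [ENNReal.ofReal_toReal (Thm2.level_ne_top hN q a (s - w))]
    _ = ENNReal.ofReal ((volume {x : E d | gmax q a x ≤ s - w}).toReal * w ^ (α - 1)) := by
        rw [ENNReal.ofReal_mul ENNReal.toReal_nonneg]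
    _ ≤ _ := by
        apply ENNReal.ofReal_le_ofReal
        have h6 : 0 ≤ w ^ (α - 1) := Real.rpow_nonneg hw'.le _
        calc (volume {x : E d | gmax q a x ≤ s - w}).toReal * w ^ (α - 1) ≤
            (V * (max (1 + θ * (s - w)) 0) ^ d) * w ^ (α - 1) :=
              mul_le_mul_of_nonneg_right (hV (s - w)) h6
          _ = _ := by ring

/-- the support line of the volume radius -/
lemma exists_theta (hC : ConcStmt) (hV : VrBasicStmt) (hd : 0 < d)
    (hN : 0 < N) (q : Fin N → E d) (a : Fin N → ℝ)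
    (h0 : volume {x : E d | gmax q a x ≤ 0} ≠ 0) :
    ∃ θ : ℝ, 0 < θ ∧ ∀ t, (volume {z : E d | gmax q a z ≤ t}).toReal ≤
      (volume {z : E d | gmax q a z ≤ 0}).toReal * (max (1 + θ * t) 0) ^ d := by
  obtain ⟨hV1, hV2, hV3, hV4, hV5, hV6⟩ := hV d hd
  obtain ⟨u, hu, huU⟩ := Thm2.exists_lower hd hN q a 0 h0
  set v : ℝ → ℝ := fun t => vr {z : E d | gmax q a z ≤ t} with hv
  have hVt : ∀ t, (volume {z : E d | gmax q a z ≤ t}).toReal =
      (volume (ball (0 : E d) 1)).toReal * v t ^ d := fun t => hV5 _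
  set κ : ℝ := (volume (ball (0 : E d) 1)).toReal with hκ
  have hκ0 : 0 ≤ κ := ENNReal.toReal_nonneg
  have hv0 : 0 < v 0 := by
    refine lt_of_le_of_ne (hV4 _) fun h => ?_
    have h1 := hVt 0
    rw [← h, zero_pow hd.ne', mul_zero, ENNReal.toReal_eq_zero_iff] at h1
    rcases h1 with h1 | h1
    · exact h0 h1
    · exact Thm2.level_ne_top hN q a 0 h1
  have hne0 : {z : E d | gmax q a z ≤ 0}.Nonempty := by
    rw [Set.nonempty_iff_ne_empty]
    intro h
    rw [h, measure_empty] at h0
    exact h0 rfl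
  have hbig : ∃ t, 0 < t ∧ v 0 < v t := by
    obtain ⟨t, ht, hsub⟩ := Thm2.ball_subset_level hN q a (v 0 + 1)
    refine ⟨t, ht, ?_⟩
    have h1 := hV1 _ _ hsub (Thm2.level_ne_top hN q a t)
    rw [hV2 0 (v 0 + 1) (by linarith)] at h1
    linarith
  obtain ⟨L, hL0, hLs⟩ := Thm2.exists_slope v {t | {z : E d | gmax q a z ≤ t}.Nonempty} hne0
    (fun t ht t' htt' => ht.mono (Thm2.level_mono q a htt')) u hu huU
    (fun x hx y hy t ht0 ht1 => (hC d N hd hN q).2.2 a x y t hx hy ht0 ht1) hbig
  set θ : ℝ := L / v 0 with hθ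
  have hθ0 : 0 < θ := div_pos hL0 hv0
  have hle : ∀ t, v t ≤ v 0 * max (1 + θ * t) 0 := by
    intro t
    by_cases ht : {z : E d | gmax q a z ≤ t}.Nonempty
    · have h1 := hLs t ht
      have h2 : v 0 + L * t = v 0 * (1 + θ * t) := by
        rw [hθ]
        field_simp
      rw [h2] at h1
      exact h1.trans (mul_le_mul_of_nonneg_left (le_max_left _ _) hv0.le)
    · rw [Set.not_nonempty_iff_eq_empty] at ht
      have h1 : v t = 0 := by
        have h2 := hVt t
        rw [ht, measure_empty, ENNReal.toReal_zero] at h2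
        rcases mul_eq_zero.1 h2.symm with h3 | h3
        · exfalso
          have h4 := hVt 0
          rw [h3, zero_mul, ENNReal.toReal_eq_zero_iff] at h4
          rcases h4 with h4 | h4
          · exact h0 h4
          · exact Thm2.level_ne_top hN q a 0 h4
        · exact eq_zero_of_pow_eq_zero h3
      rw [h1]
      exact mul_nonneg hv0.le (le_max_right _ _)
  refine ⟨θ, hθ0, fun t => ?_⟩
  rw [hVt t, hVt 0, mul_assoc, ← mul_pow]
  exact mul_le_mul_of_nonneg_left (pow_le_pow_left₀ (hV4 _) (hle t) d) hκ0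

/-- lower bound of the fractional integral -/
lemma lower (p : Fin N → E d) (hN : 0 < N) (a : Fin N → ℝ) (α s : ℝ) (hα : 0 ≤ α) (hs : 0 < s)
    (hint : IntegrableOn (fun x => (s - gmax p a x) ^ α) {x | gmax p a x < s}) :
    s ^ α * (volume {x : E d | gmax p a x ≤ 0}).toReal ≤
      ∫ x in {x | gmax p a x < s}, (s - gmax p a x) ^ α := by
  have hm := measurable_gmax p a
  have hsub : {x : E d | gmax p a x ≤ 0} ⊆ {x | gmax p a x < s} := by
    intro x hx
    exact lt_of_le_of_lt hx hs
  calc s ^ α * (volume {x : E d | gmax p a x ≤ 0}).toReal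
      = ∫ x in {x : E d | gmax p a x ≤ 0}, s ^ α := by
        rw [setIntegral_const, smul_eq_mul, measureReal_def]
        ring
    _ ≤ ∫ x in {x : E d | gmax p a x ≤ 0}, (s - gmax p a x) ^ α := by
        apply setIntegral_mono_on _ (hint.mono_set hsub) (measurableSet_le hm measurable_const)
        · intro x hx
          have hx' : gmax p a x ≤ 0 := hx
          exact Real.rpow_le_rpow hs.le (by linarith) hα
        · rw [integrableOn_const_iff]
          exact Or.inr (lt_top_iff_ne_top.2 (Thm2.level_ne_top hN p a 0))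
    _ ≤ _ := by
        apply setIntegral_mono_set hint
        · refine (ae_restrict_iff' (measurableSet_lt hm measurable_const)).2
            (Filter.Eventually.of_forall fun x hx => ?_)
          have hx' : gmax p a x < s := hx
          exact Real.rpow_nonneg (by linarith) α
        · exact Filter.Eventually.of_forall hsub

/-- continuity from above -/
lemma lim_le (hN : 0 < N) (q : Fin N → E d) (a : Fin N → ℝ) (A : ENNReal)
    (h : ∀ s : ℝ, 0 < s → A ≤ volume {z : E d | gmax q a z ≤ s}) :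
    A ≤ volume {z : E d | gmax q a z ≤ 0} := by
  have h1 := tendsto_measure_biInter_gt (μ := (volume : Measure (E d)))
    (s := fun t : ℝ => {z : E d | gmax q a z ≤ t}) (a := (0 : ℝ))
    (fun r _ => (Thm2.isClosed_level hN q a r).measurableSet.nullMeasurableSet)
    (fun i j _ hij => Thm2.level_mono q a hij) ⟨1, one_pos, Thm2.level_ne_top hN q a 1⟩
  have h2 : (⋂ r : ℝ, ⋂ _ : r > 0, {z : E d | gmax q a z ≤ r}) = {z : E d | gmax q a z ≤ 0} := by
    ext z
    simp only [mem_iInter, mem_ofPred_eq]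
    constructor
    · intro h
      exact le_of_forall_gt_imp_ge_of_dense fun r hr => h r hr
    · intro h r hr
      exact h.trans (le_of_lt hr)
  rw [h2] at h1
  refine ge_of_tendsto h1 ?_
  filter_upwards [self_mem_nhdsWithin] with s hs
  exact h s hs

/-- the case of volume zero -/
lemma case_zero (hG : GPlusStmt) (hd : 2 ≤ d) (hN : 0 < N) (p q : Fin N → E d)
    (hpq : Contr 1 p q) (a : Fin N → ℝ)
    (h0 : volume {x : E d | gmax q a x ≤ 0} = 0 ∨ d = 2) :
    volume {x : E d | gmax p a x ≤ 0} ≤ volume {x : E d | gmax q a x ≤ 0} := by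
  apply lim_le hN
  intro s hs
  have hα : (0 : ℝ) ≤ (d : ℝ) / 2 - 1 := by
    have : (2 : ℝ) ≤ d := by exact_mod_cast hd
    linarith
  obtain ⟨h1, h2⟩ := hG d N hd hN p q hpq a s
  obtain ⟨h3, -⟩ := hG d N hd hN q q (fun i j => by simp) a s
  have hlow := lower p hN a _ s hα hs h1
  have hm := measurable_gmax q a
  have hfin : volume {x : E d | gmax q a x < s} ≠ ⊤ :=
    ne_top_of_le_ne_top (Thm2.level_ne_top hN q a s)
      (measure_mono fun x (hx : gmax q a x < s) => show gmax q a x ≤ s from le_of_lt hx)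
  have hup : ∫ x in {x | gmax q a x < s}, (s - gmax q a x) ^ ((d : ℝ) / 2 - 1) ≤
      s ^ ((d : ℝ) / 2 - 1) * (volume {x : E d | gmax q a x < s}).toReal := by
    calc ∫ x in {x | gmax q a x < s}, (s - gmax q a x) ^ ((d : ℝ) / 2 - 1)
        ≤ ∫ x in {x : E d | gmax q a x < s}, s ^ ((d : ℝ) / 2 - 1) := by
          apply integral_mono_ae h3
          · rw [← IntegrableOn, integrableOn_const_iff]
            exact Or.inr (lt_top_iff_ne_top.2 hfin)
          · rcases h0 with h0 | h0
            · have hae : ∀ᵐ x : E d, ¬ gmax q a x ≤ 0 := by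
                rw [ae_iff]
                simpa using h0
              refine (ae_restrict_iff' (measurableSet_lt hm measurable_const)).2 ?_
              filter_upwards [hae] with x hx hxs
              have hxs' : gmax q a x < s := hxs
              exact Real.rpow_le_rpow (by linarith) (by linarith) hα
            · refine Filter.Eventually.of_forall fun x => ?_
              have : (d : ℝ) / 2 - 1 = 0 := by rw [h0]; norm_num
              simp only [this, Real.rpow_zero]
              exact le_refl _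
      _ = _ := by
          rw [setIntegral_const, smul_eq_mul, measureReal_def]
          ring
  have hsα : 0 < s ^ ((d : ℝ) / 2 - 1) := Real.rpow_pos_of_pos hs _
  have hfinal : (volume {x : E d | gmax p a x ≤ 0}).toReal ≤
      (volume {x : E d | gmax q a x < s}).toReal :=
    le_of_mul_le_mul_left (hlow.trans (h2.trans hup)) hsα
  have h4 := (ENNReal.toReal_le_toReal (Thm2.level_ne_top hN p a 0) hfin).1 hfinal
  exact h4.trans (measure_mono fun x (hx : gmax q a x < s) =>
    show gmax q a x ≤ s from le_of_lt hx)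

/-- the case of positive volume -/
lemma case_pos (hG : GPlusStmt) (hC : ConcStmt) (hV : VrBasicStmt) (hd : 3 ≤ d)
    (hN : 0 < N) (p q : Fin N → E d) (hpq : Contr 1 p q) (a : Fin N → ℝ)
    (h0 : volume {x : E d | gmax q a x ≤ 0} ≠ 0) :
    (volume {x : E d | gmax p a x ≤ 0}).toReal ≤
      Cp d * (volume {x : E d | gmax q a x ≤ 0}).toReal := by
  have hd0 : 0 < d := by omega
  have hdR : (3 : ℝ) ≤ d := by exact_mod_cast hd
  set α : ℝ := (d : ℝ) / 2 - 1 with hα
  have hα0 : 0 < α := by rw [hα]; linarith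
  obtain ⟨θ, hθ, hθV⟩ := exists_theta hC hV hd0 hN q a h0
  set V : ℝ := (volume {x : E d | gmax q a x ≤ 0}).toReal with hVdef
  set s : ℝ := α / (d * θ) with hs
  have hs0 : 0 < s := by positivity
  obtain ⟨h1, h2⟩ := hG d N (by omega) hN p q hpq a s
  have hlow := lower p hN a α s hα0.le hs0 h1
  have hup := upper hd0 hN q a α θ s V hα0 hθ hs0 ENNReal.toReal_nonneg hθV
  have hchain := hlow.trans (h2.trans hup)
  have hsα : 0 < s ^ α := Real.rpow_pos_of_pos hs0 _
  have hθs : θ * s = α / d := by rw [hs]; field_simp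
  have hkey : α * (V * (((1 + θ * s) / θ) ^ α * (1 + θ * s) ^ d *
      ProbabilityTheory.beta α ((d : ℝ) + 1))) = s ^ α * (Cp d * V) := by
    have e1 : (1 + θ * s) / θ = s * ((d + α) / α) := by
      rw [hs]
      field_simp
    have e2 : 1 + θ * s = (d + α) / d := by
      rw [hθs]
      field_simp
    rw [e1, e2, Real.mul_rpow hs0.le (by positivity)]
    have e3 : α * ProbabilityTheory.beta α ((d : ℝ) + 1) =
        Real.Gamma ((d : ℝ) / 2) * (d.factorial : ℝ) / Real.Gamma (3 * (d : ℝ) / 2) := by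
      unfold ProbabilityTheory.beta
      rw [Real.Gamma_nat_eq_factorial]
      have e4 : α + ((d : ℝ) + 1) = 3 * (d : ℝ) / 2 := by rw [hα]; ring
      have e5 : Real.Gamma ((d : ℝ) / 2) = α * Real.Gamma α := by
        rw [← Real.Gamma_add_one hα0.ne']
        congr 1
        rw [hα]
        ring
      rw [e4, e5]
      ring
    have e6 : ((d + α) / α) ^ α * ((d + α) / d) ^ d =
        (3 * (d : ℝ) / 2 - 1) ^ (3 * (d : ℝ) / 2 - 1) /
          ((d : ℝ) ^ d * ((d : ℝ) / 2 - 1) ^ ((d : ℝ) / 2 - 1)) := by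
      have e7 : 3 * (d : ℝ) / 2 - 1 = d + α := by rw [hα]; ring
      have e8 : (d : ℝ) / 2 - 1 = α := hα.symm
      rw [e7, e8, Real.div_rpow (by positivity) hα0.le, div_pow,
        Real.rpow_add (by positivity) (d : ℝ) α, Real.rpow_natCast]
      have hαα : 0 < α ^ α := Real.rpow_pos_of_pos hα0 _
      field_simp
    have e9 : Cp d = (α * ProbabilityTheory.beta α ((d : ℝ) + 1)) *
        (((d + α) / α) ^ α * ((d + α) / d) ^ d) := by
      rw [e3, e6]
      rfl
    rw [e9]
    ring
  rw [hkey] at hchain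
  exact le_of_mul_le_mul_left hchain hsα

lemma Cp_two : Cp 2 = 1 := by
  unfold Cp
  have h3 : Real.Gamma (3 * ((2 : ℕ) : ℝ) / 2) = 2 := by
    have := Real.Gamma_nat_eq_factorial 2
    rw [show (3 * ((2 : ℕ) : ℝ) / 2) = ((2 : ℕ) : ℝ) + 1 by push_cast; norm_num, this]
    norm_num
  have h1 : Real.Gamma (((2 : ℕ) : ℝ) / 2) = 1 := by
    rw [show (((2 : ℕ) : ℝ) / 2) = 1 by push_cast; norm_num, Real.Gamma_one]
  rw [h1, h3]
  have e1 : (3 * ((2 : ℕ) : ℝ) / 2 - 1) = 2 := by push_cast; norm_num
  have e2 : (((2 : ℕ) : ℝ) / 2 - 1) = 0 := by push_cast; norm_num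
  rw [e1, e2, Real.rpow_zero]
  have e3 : (2 : ℝ) ^ (2 : ℝ) = 4 := by
    rw [show (2 : ℝ) ^ (2 : ℝ) = (2 : ℝ) ^ ((2 : ℕ) : ℝ) by norm_num, Real.rpow_natCast]
    norm_num
  rw [e3]
  norm_num

lemma Cp_pos (hd : 2 ≤ d) : 0 < Cp d := by
  rcases Nat.eq_or_lt_of_le hd with h | h
  · rw [← h, Cp_two]
    exact one_pos
  · have hdR : (3 : ℝ) ≤ d := by exact_mod_cast h
    unfold Cp
    have h1 : 0 < Real.Gamma ((d : ℝ) / 2) := Real.Gamma_pos_of_pos (by linarith)
    have h2 : 0 < Real.Gamma (3 * (d : ℝ) / 2) := Real.Gamma_pos_of_pos (by linarith)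
    have h3 : 0 < (3 * (d : ℝ) / 2 - 1) ^ (3 * (d : ℝ) / 2 - 1) :=
      Real.rpow_pos_of_pos (by linarith) _
    have h4 : 0 < ((d : ℝ) / 2 - 1) ^ ((d : ℝ) / 2 - 1) := Real.rpow_pos_of_pos (by linarith) _
    positivity

end Thm2p

/-- Theorem 2, sharper form. -/
theorem thm2pStmt (hG : GPlusStmt) (hC : ConcStmt) (hV : VrBasicStmt) : Thm2pStmt := by
  intro d N hd p q hpq r
  have hd0 : 0 < d := by omega
  have hCpos : 0 < Cp d := Thm2p.Cp_pos hd
  rcases Nat.eq_zero_or_pos N with rfl | hN
  · simp only [iInter_of_empty]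
    have : Nonempty (Fin d) := ⟨⟨0, hd0⟩⟩
    have h1 : volume (univ : Set (E d)) = ⊤ := by
      exact measure_univ_of_isAddLeftInvariant _
    rw [h1, ENNReal.mul_top (ENNReal.ofReal_pos.2 hCpos).ne']
  by_cases hr : ∀ i, 0 ≤ r i
  · have key : ∀ p : Fin N → E d, (⋂ i, closedBall (p i) (r i)) =
        {x : E d | gmax p (fun i => r i ^ 2) x ≤ 0} := by
      intro p
      ext x
      simp only [mem_iInter, mem_closedBall, mem_ofPred_eq]
      rw [Thm2.gmax_le_iff hN]
      refine forall_congr' fun i => ?_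
      rw [dist_eq_norm, sub_nonpos]
      exact (pow_le_pow_iff_left₀ (norm_nonneg _) (hr i) two_ne_zero).symm
    rw [key p, key q]
    have hp := Thm2.level_ne_top hN p (fun i => r i ^ 2) 0
    have hq := Thm2.level_ne_top hN q (fun i => r i ^ 2) 0
    by_cases h0 : volume {x : E d | gmax q (fun i => r i ^ 2) x ≤ 0} = 0 ∨ d = 2
    · have h1 := Thm2p.case_zero hG hd hN p q hpq (fun i => r i ^ 2) h0
      rcases h0 with h0 | h0
      · rw [h0] at h1 ⊢
        rw [mul_zero]
        exact h1
      · subst h0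
        rw [Thm2p.Cp_two, ENNReal.ofReal_one, one_mul]
        exact h1
    · push Not at h0
      have hd3 : 3 ≤ d := by
        have := h0.2
        omega
      rw [← ENNReal.ofReal_toReal hp, ← ENNReal.ofReal_toReal hq, ← ENNReal.ofReal_mul hCpos.le]
      refine ENNReal.ofReal_le_ofReal ?_
      exact Thm2p.case_pos hG hC hV hd3 hN p q hpq _ h0.1
  · push Not at hr
    obtain ⟨i, hi⟩ := hr
    have h1 : (⋂ i, closedBall (p i) (r i)) = ∅ := by
      rw [← subset_empty_iff]
      intro x hx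
      have := mem_iInter.1 hx i
      rw [closedBall_eq_empty.2 hi] at this
      exact this
    rw [h1, measure_empty]
    exact zero_le

end Pool.Agent.Lib.MP_0c1c75_co
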