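import Pool.Agent.Lib.MP_0c1c75_co.All
import Pool.Agent.Lib.MP_0c1c75_co.Conc
import Pool.Agent.Lib.MP_0c1c75_co.GPpoly
import Pool.Agent.Lib.MP_0c1c75_co.GPchi
import Pool.Agent.Lib.MP_0c1c75_co.GPlus
import Pool.Agent.Lib.MP_0c1c75_co.Thm2p
import Pool.Agent.Lib.MP_0c1c75_co.JmpMotPt
import Pool.Agent.Lib.MP_0c1c75_co.JmpMotInt
import Pool.Agent.Lib.MP_0c1c75_co.JmpMotErr
import Pool.Agent.Lib.MP_0c1c75_co.JmpContE
import Pool.Agent.Lib.MP_0c1c75_co.JmpMotion
import Pool.Agent.Lib.MP_0c1c75_co.JmpSand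
import Pool.Agent.Lib.MP_0c1c75_co.JmpSphRad
import Pool.Agent.Lib.MP_0c1c75_co.JmpSphLim
import Pool.Agent.Lib.MP_0c1c75_co.JmpSlepG
import Pool.Agent.Lib.MP_0c1c75_co.JmpSlepS
import Pool.Agent.Lib.MP_0c1c75_co.JmpJump
import Pool.Agent.Lib.MP_0c1c75_co.JmpBend
import Pool.Agent.Lib.MP_0c1c75_co.JmpBendReal
import Pool.Agent.Lib.MP_0c1c75_co.JmpBendMono
import Pool.Agent.Lib.MP_0c1c75_co.JmpBendPath
import Pool.Agent.Lib.MP_0c1c75_co.JmpXPlus
import Pool.Agent.Lib.MP_0c1c75_co.JmpFact8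
import Pool.Agent.Lib.MP_0c1c75_co.FewPolar2
import Pool.Agent.Lib.MP_0c1c75_co.Gauss

/-!
MP_0c1c75_co: all modules of the theorem on motions with a jump.
-/

namespace Pool.Agent.Lib.MP_0c1c75_co.Jmp

open Pool.Agent.Lib.MP_0c1c75_co

theorem allMotPt : MotPtStmt := motPtStmt
theorem allContE : ContEStmt := contEStmt
theorem allMotion : MotionStmt := motionStmt (motIntStmt allMotPt) (motErrStmt allMotPt) allContE
theorem allSand : SandStmt := sandStmt Few.polar2Stmt
theorem allSphLim : SphLimStmt := sphLimStmt sphRadStmt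
theorem allSlepS : SlepSStmt := slepSStmt (slepGStmt gaussStmt)
theorem allJump : JumpStmt := jumpStmt allMotion allContE allSand allSphLim allSlepS
theorem allBend : BendStmt := bendStmt
theorem allBendMono : BendMonoStmt := bendMonoStmt allBend bendRealStmt
theorem allBendPath : BendPathStmt := bendPathStmt allBend allBendMono bendRealStmt
theorem allXPlus : XPlusStmt := xPlusStmt allJump allBendPath allC allCA

/-- contractions by the factor `0.8` -/
theorem allFact8 (d N : ℕ) (p q : Fin N → E d) (hpq : Contr 0.8 p q) (r : ℝ) :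
    MeasureTheory.volume (body p r) ≤ MeasureTheory.volume (body q r) :=
  fact8 allXPlus (thm2pStmt (gPlusStmt (gpChiStmt gpPolyStmt)) (concStmt allBM allV) allV)
    allC allCA (concStmt allBM allV) allV d N p q hpq r

end Pool.Agent.Lib.MP_0c1c75_co.Jmp
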