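import Pool.Agent.Lib.MP_0c1c75_co.JmpSpec

/-!
MP_0c1c75_co, package Jmp: numerical inequalities.
-/

open Set

namespace Pool.Agent.Lib.MP_0c1c75_co.Jmp

namespace Num

theorem nonneg_of_deriv (f g : ℝ → ℝ) (hf : ∀ x, HasDerivAt f (g x) x) (h0 : f 0 = 0)
    (hg : ∀ x, 0 ≤ x → 0 ≤ g x) (x : ℝ) (hx : 0 ≤ x) : 0 ≤ f x := by
  have hm : MonotoneOn f (Ici 0) := by
    refine monotoneOn_of_deriv_nonneg (convex_Ici 0)
      (fun y _ => (hf y).continuousAt.continuousWithinAt)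
      (fun y _ => (hf y).differentiableAt.differentiableWithinAt) (fun y hy => ?_)
    rw [interior_Ici] at hy
    rw [(hf y).deriv]
    exact hg y (le_of_lt hy)
  have := hm (mem_Ici.2 le_rfl) (mem_Ici.2 hx) hx
  rwa [h0] at this

theorem s3 (x : ℝ) (hx : 0 ≤ x) : 0 ≤ Real.sin x - x + x ^ 3 / 6 := by
  refine nonneg_of_deriv (fun x => Real.sin x - x + x ^ 3 / 6)
    (fun x => Real.cos x - 1 + x ^ 2 / 2) (fun y => ?_) (by simp) (fun y _ => ?_) x hx
  · exact (((Real.hasDerivAt_sin y).sub (hasDerivAt_id' y)).add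
      ((hasDerivAt_pow 3 y).div_const 6)).congr_deriv (by norm_num; ring)
  · have := Real.one_sub_sq_div_two_le_cos (x := y)
    linarith

theorem c4 (x : ℝ) (hx : 0 ≤ x) : 0 ≤ 1 - x ^ 2 / 2 + x ^ 4 / 24 - Real.cos x := by
  refine nonneg_of_deriv (fun x => 1 - x ^ 2 / 2 + x ^ 4 / 24 - Real.cos x)
    (fun x => Real.sin x - x + x ^ 3 / 6) (fun y => ?_) (by simp) (fun y hy => s3 y hy) x hx
  exact ((((hasDerivAt_const y (1 : ℝ)).sub ((hasDerivAt_pow 2 y).div_const 2)).add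
    ((hasDerivAt_pow 4 y).div_const 24)).sub (Real.hasDerivAt_cos y)).congr_deriv
      (by norm_num; ring)

theorem s5 (x : ℝ) (hx : 0 ≤ x) : 0 ≤ x - x ^ 3 / 6 + x ^ 5 / 120 - Real.sin x := by
  refine nonneg_of_deriv (fun x => x - x ^ 3 / 6 + x ^ 5 / 120 - Real.sin x)
    (fun x => 1 - x ^ 2 / 2 + x ^ 4 / 24 - Real.cos x) (fun y => ?_) (by simp)
    (fun y hy => c4 y hy) x hx
  exact ((((hasDerivAt_id' y).sub ((hasDerivAt_pow 3 y).div_const 6)).add
    ((hasDerivAt_pow 5 y).div_const 120)).sub (Real.hasDerivAt_sin y)).congr_deriv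
      (by norm_num; ring)

theorem c6 (x : ℝ) (hx : 0 ≤ x) :
    0 ≤ Real.cos x - 1 + x ^ 2 / 2 - x ^ 4 / 24 + x ^ 6 / 720 := by
  refine nonneg_of_deriv (fun x => Real.cos x - 1 + x ^ 2 / 2 - x ^ 4 / 24 + x ^ 6 / 720)
    (fun x => x - x ^ 3 / 6 + x ^ 5 / 120 - Real.sin x) (fun y => ?_) (by simp)
    (fun y hy => s5 y hy) x hx
  exact (((((Real.hasDerivAt_cos y).sub (hasDerivAt_const y (1 : ℝ))).add
    ((hasDerivAt_pow 2 y).div_const 2)).sub ((hasDerivAt_pow 4 y).div_const 24)).add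
    ((hasDerivAt_pow 6 y).div_const 720)).congr_deriv (by norm_num; ring)

theorem s7 (x : ℝ) (hx : 0 ≤ x) :
    x - x ^ 3 / 6 + x ^ 5 / 120 - x ^ 7 / 5040 ≤ Real.sin x := by
  have h := nonneg_of_deriv (fun x => Real.sin x - x + x ^ 3 / 6 - x ^ 5 / 120 + x ^ 7 / 5040)
    (fun x => Real.cos x - 1 + x ^ 2 / 2 - x ^ 4 / 24 + x ^ 6 / 720) (fun y =>
      (((((Real.hasDerivAt_sin y).sub (hasDerivAt_id' y)).add
        ((hasDerivAt_pow 3 y).div_const 6)).sub ((hasDerivAt_pow 5 y).div_const 120)).add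
        ((hasDerivAt_pow 7 y).div_const 5040)).congr_deriv (by norm_num; ring)) (by simp)
    (fun y hy => c6 y hy) x hx
  linarith

/-- the value at the end of the interval -/
theorem value : (0.7310688 : ℝ) ≤ Real.sin (Real.sin 0.9632) := by
  have h1 : (0.8209 : ℝ) ≤ Real.sin 0.9632 := by
    refine le_trans ?_ (s7 0.9632 (by norm_num))
    norm_num
  have h2 : (0.7310688 : ℝ) ≤ Real.sin 0.8209 := by
    refine le_trans ?_ (s7 0.8209 (by norm_num))
    norm_num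
  refine h2.trans (Real.strictMonoOn_sin.monotoneOn ?_ ?_ h1)
  · constructor <;> linarith [Real.pi_gt_three]
  · have h3 := Real.sin_le_one (0.9632 : ℝ)
    constructor <;> linarith [Real.pi_gt_three]

theorem concave : ConcaveOn ℝ (Icc (0 : ℝ) 1) (fun y => Real.sin (Real.sin y)) := by
  have hs : Icc (0 : ℝ) 1 ⊆ Icc 0 Real.pi := Icc_subset_Icc le_rfl (by linarith [Real.pi_gt_three])
  have hf : ConcaveOn ℝ (Icc (0 : ℝ) 1) Real.sin :=
    strictConcaveOn_sin_Icc.concaveOn.subset hs (convex_Icc 0 1)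
  refine ⟨convex_Icc 0 1, fun x hx y hy a b ha hb hab => ?_⟩
  have hx0 := Real.sin_nonneg_of_mem_Icc (hs hx)
  have hy0 := Real.sin_nonneg_of_mem_Icc (hs hy)
  have hx1 := Real.sin_le_one x
  have hy1 := Real.sin_le_one y
  have h1 := hf.2 hx hy ha hb hab
  have h2 := hf.2 (mem_Icc.2 ⟨hx0, hx1⟩) (mem_Icc.2 ⟨hy0, hy1⟩) ha hb hab
  simp only [smul_eq_mul] at h1 h2 ⊢
  refine h2.trans (Real.strictMonoOn_sin.monotoneOn ?_ ?_ h1)
  · constructor
    · have : 0 ≤ a * Real.sin x + b * Real.sin y :=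
        add_nonneg (mul_nonneg ha hx0) (mul_nonneg hb hy0)
      linarith [Real.pi_gt_three]
    · have : a * Real.sin x + b * Real.sin y ≤ 1 := by nlinarith
      linarith [Real.pi_gt_three]
  · have h3 := Real.neg_one_le_sin (a * x + b * y)
    have h4 := Real.sin_le_one (a * x + b * y)
    constructor <;> linarith [Real.pi_gt_three]

end Num

theorem numStmt : NumStmt := by
  constructor
  · intro y hy0 hy1
    have m0 : (0 : ℝ) ∈ Icc (0 : ℝ) 1 := ⟨le_rfl, zero_le_one⟩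
    have m1 : (0.9632 : ℝ) ∈ Icc (0 : ℝ) 1 := ⟨by norm_num, by norm_num⟩
    have ha : 0 ≤ 1 - y / 0.9632 := by
      rw [sub_nonneg, div_le_one (by norm_num)]
      exact hy1
    have hb : 0 ≤ y / 0.9632 := by positivity
    have h1 := Num.concave.2 m0 m1 ha hb (by ring)
    simp only [smul_eq_mul, Real.sin_zero, mul_zero, zero_add] at h1
    rw [div_mul_cancel₀ y (by norm_num : (0.9632 : ℝ) ≠ 0)] at h1
    have h2 : y / 0.9632 * 0.7310688 ≤ y / 0.9632 * Real.sin (Real.sin 0.9632) :=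
      mul_le_mul_of_nonneg_left Num.value (by positivity)
    have h3 : y / 0.9632 * 0.7310688 = 0.759 * y := by ring
    linarith
  · intro y h1 h2
    rw [Real.sqrt_le_iff]
    constructor
    · linarith
    · nlinarith

end Pool.Agent.Lib.MP_0c1c75_co.Jmp
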