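import Mathlib
import Pool.Agent.Lib.MP_0c1c75_co.Spec

/-!
MP_0c1c75_co: Theorem 3 from the modules.
-/

open MeasureTheory Set Metric
open scoped Pointwise

namespace Pool.Agent.Lib.MP_0c1c75_co.Thm3

lemma fac_bound (d : ℕ) (hd : 1 ≤ d) :
    Real.exp d * (d.factorial : ℝ) / (d : ℝ) ^ d ≤ Real.exp (1 + Real.log d) := by
  obtain ⟨n, rfl⟩ : ∃ n, d = n + 1 := ⟨d - 1, by omega⟩
  have h1 : Stirling.stirlingSeq (n + 1) ≤ Stirling.stirlingSeq 1 :=
    Stirling.stirlingSeq'_antitone (Nat.zero_le n)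
  rw [Stirling.stirlingSeq_one] at h1
  unfold Stirling.stirlingSeq at h1
  have hdp : (0 : ℝ) < ((n + 1 : ℕ) : ℝ) := by positivity
  set D : ℝ := ((n + 1 : ℕ) : ℝ) with hD
  have hD1 : 1 ≤ D := by
    rw [hD]; exact_mod_cast hd
  have hs2 : 0 < Real.sqrt 2 := by positivity
  have hsD : 0 < Real.sqrt D := Real.sqrt_pos.2 hdp
  have hE : 0 < (D / Real.exp 1) ^ (n + 1) := by positivity
  rw [Real.sqrt_mul (by norm_num), div_le_div_iff₀ (by positivity) hs2] at h1
  have h2 : ((n + 1).factorial : ℝ) ≤ Real.exp 1 * (Real.sqrt D * (D / Real.exp 1) ^ (n + 1)) := by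
    have : Real.sqrt 2 * ((n + 1).factorial : ℝ) ≤
        Real.sqrt 2 * (Real.exp 1 * (Real.sqrt D * (D / Real.exp 1) ^ (n + 1))) := by
      linarith
    exact le_of_mul_le_mul_left this hs2
  have h3 : Real.sqrt D ≤ D := by
    rw [Real.sqrt_le_left (by linarith)]
    nlinarith
  have h4 : Real.exp D = Real.exp 1 ^ (n + 1) := by
    rw [← Real.exp_nat_mul, mul_one]
  rw [Real.exp_add, Real.exp_log hdp, div_le_iff₀ (by positivity), h4]
  have h5 : (D / Real.exp 1) ^ (n + 1) = D ^ (n + 1) / Real.exp 1 ^ (n + 1) := div_pow _ _ _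
  rw [h5] at h2
  have h6 : 0 < Real.exp 1 ^ (n + 1) := by positivity
  calc Real.exp 1 ^ (n + 1) * ((n + 1).factorial : ℝ)
      ≤ Real.exp 1 ^ (n + 1) * (Real.exp 1 * (Real.sqrt D * (D ^ (n + 1) / Real.exp 1 ^ (n + 1)))) :=
        mul_le_mul_of_nonneg_left h2 h6.le
    _ = Real.exp 1 * Real.sqrt D * D ^ (n + 1) := by field_simp
    _ ≤ Real.exp 1 * D * D ^ (n + 1) := by gcongr

lemma exists_d0 (c C : ℝ) (hc : c < 1) : ∃ d0 : ℕ, ∀ d : ℕ, d0 ≤ d → 2 ≤ d ∧
    2 * C ≤ (1 - c) * Real.sqrt d ∧ 2 * C ^ 2 * (1 + Real.log d) ≤ (1 - c) * Real.sqrt d := by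
  have hc' : 0 < 1 - c := by linarith
  have hs : Filter.Tendsto (fun d : ℕ => (1 - c) * Real.sqrt d) Filter.atTop Filter.atTop := by
    apply Filter.Tendsto.const_mul_atTop hc'
    exact Real.tendsto_sqrt_atTop.comp tendsto_natCast_atTop_atTop
  have hlog : (fun x : ℝ => Real.log x) =o[Filter.atTop] fun x => Real.sqrt x := by
    have := isLittleO_log_rpow_atTop (r := 1 / 2) (by norm_num)
    refine this.congr_right fun x => ?_
    rw [Real.sqrt_eq_rpow]
  have hlog' : ∀ᶠ d : ℕ in Filter.atTop, 2 * C ^ 2 * Real.log d ≤ (1 - c) / 2 * Real.sqrt d := by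
    have h0 : (0 : ℝ) < (1 - c) / 2 / (2 * C ^ 2 + 1) := by positivity
    have h1 := (hlog.def h0)
    have h2 := tendsto_natCast_atTop_atTop.eventually h1
    filter_upwards [h2] with d hd
    rw [Real.norm_eq_abs, Real.norm_eq_abs, abs_of_nonneg (Real.sqrt_nonneg _)] at hd
    have h3 : Real.log d ≤ (1 - c) / 2 / (2 * C ^ 2 + 1) * Real.sqrt d := (le_abs_self _).trans hd
    have h4 : 0 ≤ (1 - c) / 2 / (2 * C ^ 2 + 1) * Real.sqrt d := by positivity
    calc 2 * C ^ 2 * Real.log d ≤ 2 * C ^ 2 * ((1 - c) / 2 / (2 * C ^ 2 + 1) * Real.sqrt d) :=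
          mul_le_mul_of_nonneg_left h3 (by positivity)
      _ ≤ (2 * C ^ 2 + 1) * ((1 - c) / 2 / (2 * C ^ 2 + 1) * Real.sqrt d) :=
          mul_le_mul_of_nonneg_right (by linarith) h4
      _ = (1 - c) / 2 * Real.sqrt d := by
          have : (2 * C ^ 2 + 1) ≠ 0 := by positivity
          field_simp
  have h1 := hs.eventually_ge_atTop (2 * C)
  have h2 := hs.eventually_ge_atTop (4 * C ^ 2)
  have h3 := Filter.eventually_ge_atTop (2 : ℕ)
  obtain ⟨d0, hd0⟩ := Filter.eventually_atTop.1 (h1.and (h2.and (h3.and hlog')))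
  refine ⟨d0, fun d hd => ?_⟩
  obtain ⟨a1, a2, a3, a4⟩ := hd0 d hd
  refine ⟨a3, a1, ?_⟩
  nlinarith

/-- `ρ - √(ρ²-1) ≥ 1/(2ρ)` -/
lemma gap {ρ f : ℝ} (hρ : 1 ≤ ρ) (hf : f ≤ Real.sqrt (ρ ^ 2 - 1)) : 1 ≤ 2 * ρ * (ρ - f) := by
  have h0 : 0 < ρ := by linarith
  have h1 : Real.sqrt (ρ ^ 2 - 1) ≤ ρ - 1 / (2 * ρ) := by
    have h2 : 0 ≤ ρ - 1 / (2 * ρ) := by
      rw [sub_nonneg, div_le_iff₀ (by positivity)]
      nlinarith
    apply Real.sqrt_le_left h2 |>.2
    have h3 : (ρ - 1 / (2 * ρ)) ^ 2 = ρ ^ 2 - 1 + (1 / (2 * ρ)) ^ 2 := by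
      field_simp
      ring
    rw [h3]
    nlinarith [sq_nonneg (1 / (2 * ρ))]
  have h4 : f ≤ ρ - 1 / (2 * ρ) := hf.trans h1
  have h5 : 1 / (2 * ρ) ≤ ρ - f := by linarith
  rw [div_le_iff₀ (by positivity)] at h5
  linarith

lemma num1 {c L d ρ f g : ℝ} (hc0 : 0 ≤ c) (hc1 : c < 1) (hd : 0 < d) (hL : 0 ≤ L) (hρ : 1 ≤ ρ)
    (hf0 : 0 ≤ f) (hf : f ≤ Real.sqrt (ρ ^ 2 - 1)) (hg : (1 - L / d) * f ≤ g)
    (h : ρ ^ 2 * (2 * L) ≤ (1 - c) * d) : f ≤ c * g + (1 - c) * ρ := by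
  have h0 : 0 < ρ := by linarith
  have h1 := gap hρ hf
  have hfρ : f ≤ ρ := by nlinarith
  have h2 : c * ((1 - L / d) * f) ≤ c * g := mul_le_mul_of_nonneg_left hg hc0
  have h3 : L / d * f ≤ L / d * ρ := mul_le_mul_of_nonneg_left hfρ (by positivity)
  have h4 : c * (L / d * f) ≤ 1 * (L / d * f) := mul_le_mul_of_nonneg_right hc1.le (by positivity)
  have h5 : L / d * ρ ≤ (1 - c) * (ρ - f) := by
    have h6 : ρ * (L / d * ρ) ≤ ρ * ((1 - c) * (ρ - f)) := by
      have h7 : ρ * (L / d * ρ) ≤ (1 - c) / 2 := by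
        have : ρ * (L / d * ρ) = (ρ ^ 2 * (2 * L)) / (2 * d) := by
          field_simp
        rw [this, div_le_iff₀ (by positivity)]
        nlinarith
      have h8 : (1 - c) / 2 ≤ ρ * ((1 - c) * (ρ - f)) := by nlinarith
      linarith
    exact le_of_mul_le_mul_left h6 h0
  nlinarith

lemma num2 {c C D ρ f g : ℝ} (hc0 : 0 ≤ c) (hc1 : c < 1) (hC : 0 < C) (hD : 0 < D) (hρ : 1 ≤ ρ)
    (_hf0 : 0 ≤ f) (hf : f ≤ Real.sqrt (ρ ^ 2 - 1)) (hg : ρ ^ 2 * (D * (f - g)) ≤ C * f)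
    (h : 2 * C ≤ (1 - c) * D) : f ≤ c * g + (1 - c) * ρ := by
  have h0 : 0 < ρ := by linarith
  have h1 := gap hρ hf
  have hfρ : f ≤ ρ := by nlinarith
  by_cases hfg : f ≤ g
  · nlinarith
  push Not at hfg
  have h2 : ρ * (ρ * (D * (f - g))) ≤ ρ * C := by nlinarith
  have h3 : ρ * (D * (f - g)) ≤ C := le_of_mul_le_mul_left h2 h0
  have h4 : D * (2 * (ρ * (f - g))) ≤ D * (1 - c) := by nlinarith
  have h5 : 2 * (ρ * (f - g)) ≤ 1 - c := le_of_mul_le_mul_left h4 hD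
  have h6 : (1 - c) * 1 ≤ (1 - c) * (2 * ρ * (ρ - f)) :=
    mul_le_mul_of_nonneg_left h1 (by linarith)
  have h7 : ρ * (f - g) ≤ ρ * ((1 - c) * (ρ - f)) := by nlinarith
  have h8 : f - g ≤ (1 - c) * (ρ - f) := le_of_mul_le_mul_left h7 h0
  nlinarith

lemma body_finite {d N : ℕ} (hN : 0 < N) (p : Fin N → E d) (r : ℝ) : volume (body p r) ≠ ⊤ := by
  have h : body p r ⊆ closedBall (p ⟨0, hN⟩) r := iInter_subset _ _
  exact ((measure_mono h).trans_lt measure_closedBall_lt_top).ne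

lemma body_mono {d N : ℕ} (p : Fin N → E d) {r r' : ℝ} (h : r ≤ r') : body p r ⊆ body p r' :=
  iInter_mono fun _ => closedBall_subset_closedBall h

lemma body_smul {d N : ℕ} (p : Fin N → E d) (r : ℝ) {a : ℝ} (ha : 0 < a) :
    body (fun i => a • p i) (a * r) = a • body p r := by
  ext x
  rw [Set.mem_smul_set_iff_inv_smul_mem₀ ha.ne']
  simp only [body, mem_iInter, mem_closedBall]
  refine forall_congr' fun i => ?_
  have h1 : dist x (a • p i) = a * dist (a⁻¹ • x) (p i) := by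
    conv_lhs => rw [← one_smul ℝ x, ← mul_inv_cancel₀ ha.ne', ← smul_smul, dist_smul₀,
      Real.norm_eq_abs, abs_of_pos ha]
  rw [h1]
  exact mul_le_mul_iff_of_pos_left ha

lemma kappa_pos (d : ℕ) : 0 < (volume (ball (0 : E d) 1)).toReal := by
  apply ENNReal.toReal_pos
  · exact (measure_ball_pos volume _ one_pos).ne'
  · exact measure_ball_lt_top.ne

/-- the normalised statement -/
lemma core {c C : ℝ} (hc0 : 0 < c) (hc1 : c < 1) (hC : 0 < C) {d N : ℕ} (hd2 : 2 ≤ d)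
    (hN : 0 < N)
    (e1 : 2 * C ≤ (1 - c) * Real.sqrt d)
    (e2 : 2 * C ^ 2 * (1 + Real.log d) ≤ (1 - c) * Real.sqrt d)
    (h2 : Thm2Stmt) (hCo : ConcStmt) (hL : LayerStmt) (hG : GaussStmt)
    (hRad : RadialStmt) (hU : UrysohnStmt) (hCi : CircumStmt) (hCA : CircumAppStmt)
    (hV : VrBasicStmt) (hH : HwBasicStmt)
    (hR : ∀ (d : ℕ) (f g : ℝ → ℝ) (B B' : ℝ), 2 ≤ d →
    (∀ h ∈ ({f, g} : Set (ℝ → ℝ)), (∀ r, 0 ≤ h r) ∧
      (∀ r r' t : ℝ, 1 ≤ r → 1 ≤ r' → 0 ≤ t → t ≤ 1 →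
        (1 - t) * h r + t * h r' ≤ h ((1 - t) * r + t * r')) ∧
      (∀ r e : ℝ, 1 ≤ r → 0 ≤ e → h r + e ≤ h (r + e))) →
    0 ≤ B → 0 ≤ B' → (∀ r, 0 ≤ r → f r ≤ r) → (∀ r, 1 ≤ r → f r ≤ r - B ∧ Real.sqrt (r ^ 2 - 1) - B ≤ f r) →
    (∀ r r' : ℝ, r ≤ r' → g r ≤ g r') →
    (∀ r, 1 ≤ r → g r ≤ r - B' ∧ Real.sqrt (r ^ 2 - 1) - B' ≤ g r) →
    (∀ r r' t : ℝ, 0 ≤ r → 0 < g r → 1 ≤ r' → 0 ≤ t → t ≤ 1 →
        (1 - t) * g r + t * g r' ≤ g ((1 - t) * r + t * r')) →
    (∀ s : ℝ, 0 < s → IntegrableOn (fun r => f r ^ d * (r * Real.exp (-s * r ^ 2))) (Ioi 0) ∧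
      IntegrableOn (fun r => g r ^ d * (r * Real.exp (-s * r ^ 2))) (Ioi 0) ∧
      ∫ r in Ioi (0 : ℝ), f r ^ d * (r * Real.exp (-s * r ^ 2)) ≤
        ∫ r in Ioi (0 : ℝ), g r ^ d * (r * Real.exp (-s * r ^ 2))) →
    ∀ r : ℝ, C * (d : ℝ) ^ ((1 : ℝ) / 4) ≤ r → r ^ 2 * (Real.sqrt d * (f r - g r)) ≤ C * f r)
    (p q : Fin N → E d) (hpq : Contr 1 p q) (l : Fin N → ℝ) (o : E d) (hl0 : ∀ i, 0 ≤ l i)
    (hl1 : ∑ i, l i = 1) (hlo : ∑ i, l i • p i = o) (hp1 : ∀ i, ‖p i - o‖ ≤ 1)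
    (hl2 : ∑ i, l i * ‖p i - o‖ ^ 2 = (1 : ℝ) ^ 2) (ρ : ℝ) (hρ : 1 ≤ ρ) :
    vr (body p ρ) ≤ c * vr (body q (ρ / c)) := by
  have hd0 : 0 < d := by omega
  have hdR : (0 : ℝ) < d := by exact_mod_cast hd0
  obtain ⟨v1, v2, v3, v4, v5, v6⟩ := hV d hd0
  -- circumscribed ball of q
  obtain ⟨l', o', R', hl'0, hl'1, hl'o, hR'0, hq1, hl'2⟩ := hCi d N hN q
  obtain ⟨ca1, ca2⟩ := hCA d N hN
  have hR'1 : R' ≤ 1 := by
    have := ca2 1 p q zero_le_one hpq o o' 1 R' l' hl'0 hl'1 hl'o hR'0 hl'2 zero_le_one hp1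
    simpa using this
  have hq1' : ∀ i, ‖q i - o'‖ ≤ 1 := fun i => (hq1 i).trans hR'1
  have nep : ∀ r, 1 ≤ r → (body p r).Nonempty := fun r hr =>
    ⟨o, mem_iInter.2 fun i => by
      rw [mem_closedBall, dist_comm, dist_eq_norm]; exact (hp1 i).trans hr⟩
  have neq : ∀ r, 1 ≤ r → (body q r).Nonempty := fun r hr =>
    ⟨o', mem_iInter.2 fun i => by
      rw [mem_closedBall, dist_comm, dist_eq_norm]; exact (hq1' i).trans hr⟩
  obtain ⟨cp1, cp2, -⟩ := hCo d N hd0 hN p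
  obtain ⟨cq1, cq2, -⟩ := hCo d N hd0 hN q
  set f : ℝ → ℝ := fun r => vr (body p r) with hf
  set g : ℝ → ℝ := fun r => vr (body q r) with hg
  -- f ≤ √(ρ² - 1)
  have hfs : f ρ ≤ Real.sqrt (ρ ^ 2 - 1) := by
    have h := (ca1 p l o 1 hl0 hl1 hlo zero_le_one hl2).1 ρ hρ
    rw [one_pow] at h
    calc f ρ ≤ vr (closedBall o (Real.sqrt (ρ ^ 2 - 1))) :=
          v1 _ _ h measure_closedBall_lt_top.ne
      _ = Real.sqrt (ρ ^ 2 - 1) := v2 _ _ (Real.sqrt_nonneg _)
  have hf0 : ∀ r, 0 ≤ f r := fun r => v4 _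
  have hg0 : ∀ r, 0 ≤ g r := fun r => v4 _
  -- reduction
  have hred : c * g ρ + (1 - c) * ρ ≤ c * g (ρ / c) := by
    have h1 := cq2 ρ (ρ / c - ρ) (neq ρ hρ) (by
      rw [sub_nonneg, le_div_iff₀ hc0]; nlinarith)
    have h2 : ρ + (ρ / c - ρ) = ρ / c := by ring
    rw [h2] at h1
    have h3 := mul_le_mul_of_nonneg_left h1 hc0.le
    have h4 : c * (vr (body q ρ) + (ρ / c - ρ)) = c * vr (body q ρ) + (1 - c) * ρ := by
      field_simp
    rw [h4] at h3
    exact h3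
  refine le_trans ?_ hred
  have hlogd : 0 ≤ Real.log d := Real.log_nonneg (by exact_mod_cast (by omega : 1 ≤ d))
  have hsd : 0 < Real.sqrt d := Real.sqrt_pos.2 hdR
  by_cases hreg : ρ ^ 2 * (2 * (1 + Real.log d)) ≤ (1 - c) * d
  · -- regime 1
    refine num1 hc0.le hc1 hdR (by linarith) hρ (hf0 ρ) hfs ?_ hreg
    -- from Theorem 2
    have hT := h2 d N hd0 p q hpq (fun _ => ρ)
    have hT' : (volume (body p ρ)).toReal ≤
        (Real.exp d * (d.factorial : ℝ) / (d : ℝ) ^ d) * (volume (body q ρ)).toReal := by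
      have h3 : volume (body p ρ) ≤
          ENNReal.ofReal (Real.exp d * (d.factorial : ℝ) / (d : ℝ) ^ d) * volume (body q ρ) := hT
      have h4 := ENNReal.toReal_mono (ENNReal.mul_ne_top ENNReal.ofReal_ne_top
        (body_finite hN q ρ)) h3
      rwa [ENNReal.toReal_mul, ENNReal.toReal_ofReal (by positivity)] at h4
    rw [v5 (body p ρ), v5 (body q ρ)] at hT'
    have hk := kappa_pos d
    have hT2 : f ρ ^ d ≤ (Real.exp d * (d.factorial : ℝ) / (d : ℝ) ^ d) * g ρ ^ d := by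
      apply le_of_mul_le_mul_left _ hk
      rw [mul_left_comm] at hT'
      exact hT'
    by_contra hcon
    push Not at hcon
    have hL0 : 0 ≤ 1 - (1 + Real.log d) / d := by
      by_contra hneg
      push Not at hneg
      have h5 : (1 - (1 + Real.log d) / d) * f ρ ≤ 0 :=
        mul_nonpos_of_nonpos_of_nonneg hneg.le (hf0 ρ)
      have := hg0 ρ
      linarith
    have h6 : g ρ ^ d < ((1 - (1 + Real.log d) / d) * f ρ) ^ d :=
      pow_lt_pow_left₀ hcon (hg0 ρ) (by omega)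
    have h7 : (1 - (1 + Real.log d) / d) ^ d ≤ Real.exp (-(1 + Real.log d)) := by
      calc (1 - (1 + Real.log d) / d) ^ d ≤ Real.exp (-((1 + Real.log d) / d)) ^ d :=
            pow_le_pow_left₀ hL0 (Real.one_sub_le_exp_neg _) d
        _ = Real.exp (-(1 + Real.log d)) := by
            rw [← Real.exp_nat_mul]
            congr 1
            field_simp
    rw [mul_pow] at h6
    have h8 : g ρ ^ d < Real.exp (-(1 + Real.log d)) * f ρ ^ d :=
      h6.trans_le (mul_le_mul_of_nonneg_right h7 (pow_nonneg (hf0 ρ) d))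
    have h9 : (Real.exp d * (d.factorial : ℝ) / (d : ℝ) ^ d) * g ρ ^ d ≤
        Real.exp (1 + Real.log d) * g ρ ^ d :=
      mul_le_mul_of_nonneg_right (fac_bound d (by omega)) (pow_nonneg (hg0 ρ) d)
    have h10 : Real.exp (1 + Real.log d) * g ρ ^ d <
        Real.exp (1 + Real.log d) * (Real.exp (-(1 + Real.log d)) * f ρ ^ d) :=
      mul_lt_mul_of_pos_left h8 (Real.exp_pos _)
    rw [← mul_assoc, ← Real.exp_add, add_neg_cancel, Real.exp_zero, one_mul] at h10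
    linarith
  · -- regime 2
    push Not at hreg
    have hρ2 : C * (d : ℝ) ^ ((1 : ℝ) / 4) ≤ ρ := by
      have h3 : (C * (d : ℝ) ^ ((1 : ℝ) / 4)) ^ 2 = C ^ 2 * Real.sqrt d := by
        rw [mul_pow, Real.sqrt_eq_rpow, ← Real.rpow_natCast ((d : ℝ) ^ ((1 : ℝ) / 4)),
          ← Real.rpow_mul hdR.le]
        norm_num
      have h4 : C ^ 2 * Real.sqrt d ≤ ρ ^ 2 := by
        have h5 : (C ^ 2 * Real.sqrt d) * (2 * (1 + Real.log d)) ≤
            ρ ^ 2 * (2 * (1 + Real.log d)) := by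
          have h6 : (C ^ 2 * Real.sqrt d) * (2 * (1 + Real.log d)) ≤ (1 - c) * d := by
            have h7 : (d : ℝ) = Real.sqrt d * Real.sqrt d := (Real.mul_self_sqrt hdR.le).symm
            calc (C ^ 2 * Real.sqrt d) * (2 * (1 + Real.log d))
                = (2 * C ^ 2 * (1 + Real.log d)) * Real.sqrt d := by ring
              _ ≤ ((1 - c) * Real.sqrt d) * Real.sqrt d :=
                  mul_le_mul_of_nonneg_right e2 hsd.le
              _ = (1 - c) * d := by rw [mul_assoc, ← h7]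
          linarith
        exact le_of_mul_le_mul_right h5 (by positivity)
      rw [← h3] at h4
      exact (pow_le_pow_iff_left₀ (by positivity) (by linarith) two_ne_zero).1 h4
    refine num2 hc0.le hc1 hC hsd hρ (hf0 ρ) hfs ?_ e1
    obtain ⟨hp1', hp2', -⟩ := hH d N hd0 hN p
    obtain ⟨hq1'', hq2', -⟩ := hH d N hd0 hN q
    refine hR d f g (hw p) (hw q) hd2 ?_ hp2' hq2' ?_ ?_ ?_ ?_ ?_ ?_ ρ hρ2
    · rintro h (rfl | rfl)
      · exact ⟨hf0, fun r r' t hr hr' ht0 ht1 => cp1 r r' t (nep r hr) (nep r' hr') ht0 ht1,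
          fun r e hr he => cp2 r e (nep r hr) he⟩
      · exact ⟨hg0, fun r r' t hr hr' ht0 ht1 => cq1 r r' t (neq r hr) (neq r' hr') ht0 ht1,
          fun r e hr he => cq2 r e (neq r hr) he⟩
    · intro r hr
      calc f r ≤ vr (closedBall (p ⟨0, hN⟩) r) :=
            v1 _ _ (iInter_subset _ _) measure_closedBall_lt_top.ne
        _ = r := v2 _ _ hr
    · intro r hr
      exact ⟨hU d N hd0 hN p r (nep r hr), by
        have := hRad d N hd0 hN p o 1 r zero_le_one hr hp1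
        simpa using this⟩
    · intro r r' hrr
      exact v1 _ _ (body_mono q hrr) (body_finite hN q r')
    · intro r hr
      exact ⟨hU d N hd0 hN q r (neq r hr), by
        have := hRad d N hd0 hN q o' 1 r zero_le_one hr hq1'
        simpa using this⟩
    · intro r r' t hr hgr hr' ht0 ht1
      have hne : (body q r).Nonempty := by
        by_contra hemp
        rw [Set.not_nonempty_iff_eq_empty] at hemp
        have : g r = 0 := by
          simp only [hg, hemp, vr, measure_empty, ENNReal.toReal_zero, zero_div]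
          exact Real.zero_rpow (by positivity)
        linarith
      exact cq1 r r' t hne (neq r' hr') ht0 ht1
    · intro s hs
      have hk := kappa_pos d
      set κ := (volume (ball (0 : E d) 1)).toReal with hκ
      obtain ⟨-, -, lp3, lp4⟩ := hL d N hN p s hs
      obtain ⟨-, -, lq3, lq4⟩ := hL d N hN q s hs
      have ep : (fun r : ℝ => f r ^ d * (r * Real.exp (-s * r ^ 2))) = fun r =>
          (2 * s * κ)⁻¹ * ((volume (body p r)).toReal * (2 * s * r * Real.exp (-s * r ^ 2))) := by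
        funext r
        rw [v5]
        simp only [hf]
        field_simp
      have eq : (fun r : ℝ => g r ^ d * (r * Real.exp (-s * r ^ 2))) = fun r =>
          (2 * s * κ)⁻¹ * ((volume (body q r)).toReal * (2 * s * r * Real.exp (-s * r ^ 2))) := by
        funext r
        rw [v5]
        simp only [hg]
        field_simp
      rw [ep, eq]
      refine ⟨lp4.const_mul _, lq4.const_mul _, ?_⟩
      rw [integral_const_mul, integral_const_mul, ← lp3, ← lq3]
      exact mul_le_mul_of_nonneg_left (hG d N hN p q hpq (fun _ => 0) s hs).2 (by positivity)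

end Pool.Agent.Lib.MP_0c1c75_co.Thm3

namespace Pool.Agent.Lib.MP_0c1c75_co

open Thm3

theorem thm3Stmt (h2 : Thm2Stmt) (hC : ConcStmt) (hL : LayerStmt) (hG : GaussStmt)
    (hRad : RadialStmt) (hU : UrysohnStmt) (hCi : CircumStmt) (hCA : CircumAppStmt)
    (hV : VrBasicStmt) (hH : HwBasicStmt) (hR : RealStmt) : Thm3Stmt := by
  intro c₀ hc₀ hc₀1
  obtain ⟨C, hC0, hR⟩ := hR
  set c := max c₀ (1 / 2) with hc
  have hc1 : c < 1 := max_lt hc₀1 (by norm_num)
  have hc0 : 0 < c := lt_of_lt_of_le (by norm_num) (le_max_right _ _)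
  obtain ⟨d0, hd0⟩ := exists_d0 c C hc1
  refine ⟨d0, fun d N hd p q hpq₀ r => ?_⟩
  obtain ⟨hd2, e1, e2⟩ := hd0 d hd
  have hpq : Contr c p q := fun i j => (hpq₀ i j).trans
    (mul_le_mul_of_nonneg_right (le_max_left _ _) dist_nonneg)
  rcases Nat.eq_zero_or_pos N with rfl | hN
  · simp [body]
  obtain ⟨l, o, R, hl0, hl1, hlo, hR0, hpR, hl2⟩ := hCi d N hN p
  have hdpos : 0 < d := by omega
  obtain ⟨v1, v2, v3, v4, v5, v6⟩ := hV d hdpos
  rcases lt_or_ge r R with hrR | hrR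
  · rw [((hCA d N hN).1 p l o R hl0 hl1 hlo hR0 hl2).2 r hrR]
    simp
  rcases hR0.eq_or_lt with hR00 | hRpos
  · -- all points equal
    subst hR00
    have hpo : ∀ i, p i = o := fun i => by
      have := hpR i
      exact sub_eq_zero.1 (norm_le_zero_iff.1 this)
    have hq : ∀ i, q i = q ⟨0, hN⟩ := fun i => by
      have := hpq i ⟨0, hN⟩
      rw [hpo i, hpo ⟨0, hN⟩, dist_self, mul_zero] at this
      exact dist_le_zero.1 this
    have h1 : body p r ⊆ closedBall o r := by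
      have := iInter_subset (fun i => closedBall (p i) r) ⟨0, hN⟩
      simp only [hpo] at this
      simpa [body, hpo] using this
    have h2 : closedBall (q ⟨0, hN⟩) r ⊆ body q r := by
      intro x hx
      refine mem_iInter.2 fun i => ?_
      rw [hq i]
      exact hx
    calc volume (body p r) ≤ volume (closedBall o r) := measure_mono h1
      _ = volume (closedBall (q ⟨0, hN⟩) r) := by
          rw [Measure.addHaar_closedBall_center, Measure.addHaar_closedBall_center volume (q _)]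
      _ ≤ volume (body q r) := measure_mono h2
  -- scaling
  have hRc : 0 < c * R := by positivity
  set p' : Fin N → E d := fun i => R⁻¹ • p i with hp'
  set q' : Fin N → E d := fun i => (c * R)⁻¹ • q i with hq'
  have hpq' : Contr 1 p' q' := by
    intro i j
    rw [hp', hq']
    simp only [dist_smul₀, norm_inv, Real.norm_eq_abs, abs_of_pos hRc, abs_of_pos hRpos, one_mul]
    rw [mul_inv, mul_comm c⁻¹, mul_assoc]
    apply mul_le_mul_of_nonneg_left _ (by positivity)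
    rw [inv_mul_le_iff₀ hc0]
    exact hpq i j
  have hp'1 : ∀ i, ‖p' i - R⁻¹ • o‖ ≤ 1 := by
    intro i
    rw [hp']
    simp only
    rw [← smul_sub, norm_smul, norm_inv, Real.norm_eq_abs, abs_of_pos hRpos, inv_mul_le_iff₀ hRpos,
      mul_one]
    exact hpR i
  have hl2' : ∑ i, l i * ‖p' i - R⁻¹ • o‖ ^ 2 = (1 : ℝ) ^ 2 := by
    have : ∀ i, l i * ‖p' i - R⁻¹ • o‖ ^ 2 = (R ^ 2)⁻¹ * (l i * ‖p i - o‖ ^ 2) := by
      intro i
      rw [hp']
      simp only
      rw [← smul_sub, norm_smul, norm_inv, Real.norm_eq_abs, abs_of_pos hRpos]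
      ring
    simp only [this]
    rw [← Finset.mul_sum, hl2]
    field_simp
  have hlo' : ∑ i, l i • p' i = R⁻¹ • o := by
    rw [← hlo, Finset.smul_sum]
    refine Finset.sum_congr rfl fun i _ => ?_
    rw [hp']
    exact smul_comm _ _ _
  have hmain := core hc0 hc1 hC0 hd2 hN e1 e2 h2 hC hL hG hRad hU hCi hCA hV hH hR p' q' hpq'
    l (R⁻¹ • o) hl0 hl1 hlo' hp'1 hl2' (r / R) (by rw [le_div_iff₀ hRpos]; linarith)
  have hbp : vr (body p r) = R * vr (body p' (r / R)) := by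
    rw [← v3 R _ hRpos.le, ← body_smul p' (r / R) hRpos]
    congr 1
    have h1 : (fun i => R • p' i) = p := by
      funext i
      rw [hp']
      simp only
      rw [smul_smul, mul_inv_cancel₀ hRpos.ne', one_smul]
    rw [h1, mul_div_cancel₀ _ hRpos.ne']
  have hbq : vr (body q r) = (c * R) * vr (body q' (r / R / c)) := by
    rw [← v3 (c * R) _ hRc.le, ← body_smul q' (r / R / c) hRc]
    congr 1
    have h1 : (fun i => (c * R) • q' i) = q := by
      funext i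
      rw [hq']
      simp only
      rw [smul_smul, mul_inv_cancel₀ hRc.ne', one_smul]
    have h2 : c * R * (r / R / c) = r := by
      field_simp
    rw [h1, h2]
  have hfin : vr (body p r) ≤ vr (body q r) := by
    rw [hbp, hbq]
    calc R * vr (body p' (r / R)) ≤ R * (c * vr (body q' (r / R / c))) :=
          mul_le_mul_of_nonneg_left hmain hRpos.le
      _ = c * R * vr (body q' (r / R / c)) := by ring
  have hvol : (volume (body p r)).toReal ≤ (volume (body q r)).toReal := by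
    rw [v5, v5 (body q r)]
    exact mul_le_mul_of_nonneg_left (pow_le_pow_left₀ (v4 _) hfin d) (kappa_pos d).le
  exact (ENNReal.toReal_le_toReal (body_finite hN p r) (body_finite hN q r)).1 hvol

end Pool.Agent.Lib.MP_0c1c75_co
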