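import Pool.Agent.Lib.MP_0c1c75_co.JmpSpec
import Pool.Agent.Lib.MP_0c1c75_co.JmpXPlus
import Pool.Agent.Lib.MP_0c1c75_co.JmpNum
import Pool.Agent.Lib.MP_0c1c75_co.CdBound
import Pool.Agent.Lib.MP_0c1c75_co.Thm3

/-!
MP_0c1c75_co, package Jmp (helper43): contractions by the factor `0.8`.
-/

open MeasureTheory Set Metric

namespace Pool.Agent.Lib.MP_0c1c75_co.Jmp

namespace Fact8

open Thm3 (body_finite body_smul kappa_pos)

/-! ### The constants `Cp d` -/

lemma half_pow {x : ℝ} (hx : 0 < x) (n : ℕ) {e : ℝ} (he : e = n + 1 / 2) :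
    x ^ e = x ^ n * √x := by
  rw [he, Real.rpow_add hx, Real.rpow_natCast, Real.sqrt_eq_rpow]

lemma Cp_four : Cp 4 ≤ 1.307 ^ 4 := by
  have g : Real.Gamma 6 = 120 := by
    norm_num [Nat.factorial]
  have e1 : ((4 : ℕ) : ℝ) / 2 = 2 := by norm_num
  have e2 : 3 * ((4 : ℕ) : ℝ) / 2 = 6 := by norm_num
  unfold Cp
  rw [e1, e2, Real.Gamma_two, g]
  norm_num [Nat.factorial]

lemma Cp_six : Cp 6 ≤ 1.307 ^ 6 := by
  have g : Real.Gamma 9 = 40320 := by
    norm_num [Nat.factorial]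
  have g3 : Real.Gamma 3 = 2 := by
    norm_num [Nat.factorial]
  have e1 : ((6 : ℕ) : ℝ) / 2 = 3 := by norm_num
  have e2 : 3 * ((6 : ℕ) : ℝ) / 2 = 9 := by norm_num
  unfold Cp
  rw [e1, e2, g3, g]
  norm_num [Nat.factorial]

lemma Cp_eight : Cp 8 ≤ 1.307 ^ 8 := by
  have g : Real.Gamma 12 = 39916800 := by
    norm_num [Nat.factorial]
  have g3 : Real.Gamma 4 = 6 := by
    norm_num [Nat.factorial]
  have e1 : ((8 : ℕ) : ℝ) / 2 = 4 := by norm_num
  have e2 : 3 * ((8 : ℕ) : ℝ) / 2 = 12 := by norm_num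
  unfold Cp
  rw [e1, e2, g3, g]
  norm_num [Nat.factorial]

lemma gam (x : ℝ) (hx : 0 < x) (y : ℝ) (hy : y = x + 1) : Real.Gamma y = x * Real.Gamma x := by
  rw [hy, Real.Gamma_add_one hx.ne']

lemma Cp_five : Cp 5 ≤ 1.307 ^ 5 := by
  have e1 : ((5 : ℕ) : ℝ) / 2 = 5 / 2 := by norm_num
  have e2 : 3 * ((5 : ℕ) : ℝ) / 2 = 15 / 2 := by norm_num
  have g : Real.Gamma (15 / 2) = 45045 / 32 * Real.Gamma (5 / 2) := by
    rw [gam (13 / 2) (by norm_num) (15 / 2) (by norm_num),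
      gam (11 / 2) (by norm_num) (13 / 2) (by norm_num),
      gam (9 / 2) (by norm_num) (11 / 2) (by norm_num),
      gam (7 / 2) (by norm_num) (9 / 2) (by norm_num),
      gam (5 / 2) (by norm_num) (7 / 2) (by norm_num)]
    ring
  have hG : 0 < Real.Gamma (5 / 2) := Real.Gamma_pos_of_pos (by norm_num)
  have p1 : (15 / 2 - 1 : ℝ) ^ (15 / 2 - 1 : ℝ) = (13 / 2) ^ 6 * √(13 / 2) := by
    rw [half_pow (by norm_num) 6 (by norm_num)]; norm_num
  have p2 : (5 / 2 - 1 : ℝ) ^ (5 / 2 - 1 : ℝ) = (3 / 2) ^ 1 * √(3 / 2) := by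
    rw [half_pow (by norm_num) 1 (by norm_num)]; norm_num
  have hs : √(13 / 2 : ℝ) = √(13 / 3) * √(3 / 2) := by
    rw [← Real.sqrt_mul (by norm_num)]; norm_num
  have hh : 0 < √(3 / 2 : ℝ) := Real.sqrt_pos.2 (by norm_num)
  have h7 : √(13 / 3 : ℝ) ≤ 2.082 := by
    rw [Real.sqrt_le_left (by norm_num)]; norm_num
  have hfac : ((Nat.factorial 5 : ℕ) : ℝ) = 120 := by norm_num [Nat.factorial]
  unfold Cp
  rw [e1, e2, g, p1, p2, hs, hfac]
  have : Real.Gamma (5 / 2) * 120 / (45045 / 32 * Real.Gamma (5 / 2)) *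
      ((13 / 2) ^ 6 * (√(13 / 3) * √(3 / 2)) / (((5 : ℕ) : ℝ) ^ 5 * ((3 / 2) ^ 1 * √(3 / 2)))) =
      120 * 32 / 45045 * (13 / 2) ^ 6 / (5 ^ 5 * (3 / 2)) * √(13 / 3) := by
    push_cast
    field_simp
  rw [this]
  nlinarith [h7]

lemma Cp_seven : Cp 7 ≤ 1.307 ^ 7 := by
  have e1 : ((7 : ℕ) : ℝ) / 2 = 7 / 2 := by norm_num
  have e2 : 3 * ((7 : ℕ) : ℝ) / 2 = 21 / 2 := by norm_num
  have g : Real.Gamma (21 / 2) = 19 * 17 * 15 * 13 * 11 * 9 * 7 / 128 * Real.Gamma (7 / 2) := by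
    rw [gam (19 / 2) (by norm_num) (21 / 2) (by norm_num),
      gam (17 / 2) (by norm_num) (19 / 2) (by norm_num),
      gam (15 / 2) (by norm_num) (17 / 2) (by norm_num),
      gam (13 / 2) (by norm_num) (15 / 2) (by norm_num),
      gam (11 / 2) (by norm_num) (13 / 2) (by norm_num),
      gam (9 / 2) (by norm_num) (11 / 2) (by norm_num),
      gam (7 / 2) (by norm_num) (9 / 2) (by norm_num)]
    ring
  have hG : 0 < Real.Gamma (7 / 2) := Real.Gamma_pos_of_pos (by norm_num)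
  have p1 : (21 / 2 - 1 : ℝ) ^ (21 / 2 - 1 : ℝ) = (19 / 2) ^ 9 * √(19 / 2) := by
    rw [half_pow (by norm_num) 9 (by norm_num)]; norm_num
  have p2 : (7 / 2 - 1 : ℝ) ^ (7 / 2 - 1 : ℝ) = (5 / 2) ^ 2 * √(5 / 2) := by
    rw [half_pow (by norm_num) 2 (by norm_num)]; norm_num
  have hs : √(19 / 2 : ℝ) = √(19 / 5) * √(5 / 2) := by
    rw [← Real.sqrt_mul (by norm_num)]; norm_num
  have hh : 0 < √(5 / 2 : ℝ) := Real.sqrt_pos.2 (by norm_num)
  have h7 : √(19 / 5 : ℝ) ≤ 2 := by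
    rw [Real.sqrt_le_left (by norm_num)]; norm_num
  have hfac : ((Nat.factorial 7 : ℕ) : ℝ) = 5040 := by norm_num [Nat.factorial]
  unfold Cp
  rw [e1, e2, g, p1, p2, hs, hfac]
  have : Real.Gamma (7 / 2) * 5040 / (19 * 17 * 15 * 13 * 11 * 9 * 7 / 128 *
      Real.Gamma (7 / 2)) *
      ((19 / 2) ^ 9 * (√(19 / 5) * √(5 / 2)) / (((7 : ℕ) : ℝ) ^ 7 * ((5 / 2) ^ 2 * √(5 / 2)))) =
      5040 * 128 / (19 * 17 * 15 * 13 * 11 * 9 * 7) * (19 / 2) ^ 9 / (7 ^ 7 * (5 / 2) ^ 2) *
        √(19 / 5) := by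
    push_cast
    field_simp
  rw [this]
  nlinarith [h7]

lemma Cp_nine : Cp 9 ≤ 1.307 ^ 9 := by
  have e1 : ((9 : ℕ) : ℝ) / 2 = 9 / 2 := by norm_num
  have e2 : 3 * ((9 : ℕ) : ℝ) / 2 = 27 / 2 := by norm_num
  have g : Real.Gamma (27 / 2) = 25 * 23 * 21 * 19 * 17 * 15 * 13 * 11 * 9 / 512 *
      Real.Gamma (9 / 2) := by
    rw [gam (25 / 2) (by norm_num) (27 / 2) (by norm_num),
      gam (23 / 2) (by norm_num) (25 / 2) (by norm_num),
      gam (21 / 2) (by norm_num) (23 / 2) (by norm_num),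
      gam (19 / 2) (by norm_num) (21 / 2) (by norm_num),
      gam (17 / 2) (by norm_num) (19 / 2) (by norm_num),
      gam (15 / 2) (by norm_num) (17 / 2) (by norm_num),
      gam (13 / 2) (by norm_num) (15 / 2) (by norm_num),
      gam (11 / 2) (by norm_num) (13 / 2) (by norm_num),
      gam (9 / 2) (by norm_num) (11 / 2) (by norm_num)]
    ring
  have hG : 0 < Real.Gamma (9 / 2) := Real.Gamma_pos_of_pos (by norm_num)
  have p1 : (27 / 2 - 1 : ℝ) ^ (27 / 2 - 1 : ℝ) = (25 / 2) ^ 12 * √(25 / 2) := by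
    rw [half_pow (by norm_num) 12 (by norm_num)]; norm_num
  have p2 : (9 / 2 - 1 : ℝ) ^ (9 / 2 - 1 : ℝ) = (7 / 2) ^ 3 * √(7 / 2) := by
    rw [half_pow (by norm_num) 3 (by norm_num)]; norm_num
  have hs : √(25 / 2 : ℝ) = √(25 / 7) * √(7 / 2) := by
    rw [← Real.sqrt_mul (by norm_num)]; norm_num
  have hh : 0 < √(7 / 2 : ℝ) := Real.sqrt_pos.2 (by norm_num)
  have h7 : √(25 / 7 : ℝ) ≤ 2 := by
    rw [Real.sqrt_le_left (by norm_num)]; norm_num
  have hfac : ((Nat.factorial 9 : ℕ) : ℝ) = 362880 := by norm_num [Nat.factorial]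
  unfold Cp
  rw [e1, e2, g, p1, p2, hs, hfac]
  have : Real.Gamma (9 / 2) * 362880 / (25 * 23 * 21 * 19 * 17 * 15 * 13 * 11 * 9 / 512 *
      Real.Gamma (9 / 2)) *
      ((25 / 2) ^ 12 * (√(25 / 7) * √(7 / 2)) / (((9 : ℕ) : ℝ) ^ 9 * ((7 / 2) ^ 3 * √(7 / 2)))) =
      362880 * 512 / (25 * 23 * 21 * 19 * 17 * 15 * 13 * 11 * 9) * (25 / 2) ^ 12 /
        (9 ^ 9 * (7 / 2) ^ 3) * √(25 / 7) := by
    push_cast
    field_simp
  rw [this]
  nlinarith [h7]

lemma large (d : ℕ) (hd : 10 ≤ d) : 4 * √(d : ℝ) ≤ 1.307 ^ d := by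
  have h : (16 * (d : ℝ)) ≤ (1.307 ^ d) ^ 2 := by
    induction d, hd using Nat.le_induction with
    | base => norm_num
    | succ n hn ih =>
      have hn' : (10 : ℝ) ≤ n := by exact_mod_cast hn
      have e : ((1.307 : ℝ) ^ (n + 1)) ^ 2 = 1.307 ^ 2 * (1.307 ^ n) ^ 2 := by ring
      rw [e]
      push_cast
      nlinarith
  have h2 : (4 * √(d : ℝ)) ^ 2 ≤ ((1.307 : ℝ) ^ d) ^ 2 := by
    rw [mul_pow, Real.sq_sqrt (Nat.cast_nonneg d)]
    linarith
  exact le_of_sq_le_sq h2 (by positivity)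

theorem Cp_le_pow (d : ℕ) (hd : 2 ≤ d) : Cp d ≤ 1.307 ^ d := by
  rcases Nat.lt_or_ge d 10 with h | h
  · interval_cases d
    · rw [Cp_two]; norm_num
    · exact Cp_three.trans (by norm_num)
    · exact Cp_four
    · exact Cp_five
    · exact Cp_six
    · exact Cp_seven
    · exact Cp_eight
    · exact Cp_nine
  · exact (Cp_le d hd).trans (large d h)

/-! ### Dimension one -/

lemma dist_one (x y : E 1) : dist x y = |x 0 - y 0| := by
  rw [EuclideanSpace.dist_eq]
  simp [Real.dist_eq, Real.sqrt_sq_eq_abs]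

lemma dim_one {N : ℕ} (p q : Fin N → E 1) (h : Contr 1 p q) (r : ℝ) :
    volume (body p r) ≤ volume (body q r) := by
  rcases Nat.eq_zero_or_pos N with hN0 | hN
  · subst hN0
    have : p = q := by
      funext i
      exact i.elim0
    rw [this]
  have : Nonempty (Fin N) := ⟨⟨0, hN⟩⟩
  obtain ⟨⟨i, j⟩, -, hij⟩ := Finset.exists_max_image (Finset.univ : Finset (Fin N × Fin N))
    (fun z => dist (p z.1) (p z.2)) Finset.univ_nonempty
  obtain ⟨⟨k, l⟩, -, hkl⟩ := Finset.exists_max_image (Finset.univ : Finset (Fin N × Fin N))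
    (fun z => dist (q z.1) (q z.2)) Finset.univ_nonempty
  set D := dist (p i) (p j) with hD
  set D' := dist (q k) (q l) with hD'
  have hDD : D' ≤ D := by
    have h1 := h k l
    have h2 := hij (k, l) (Finset.mem_univ _)
    rw [one_mul] at h1
    exact h1.trans h2
  set m : E 1 := (1 / 2 : ℝ) • (p i + p j) with hm
  set m' : E 1 := (1 / 2 : ℝ) • (q k + q l) with hm'
  have hm0 : m 0 = (p i 0 + p j 0) / 2 := by
    rw [hm]; simp; ring
  have hm'0 : m' 0 = (q k 0 + q l 0) / 2 := by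
    rw [hm']; simp; ring
  have h1 : body p r ⊆ closedBall m (r - D / 2) := by
    intro x hx
    unfold body at hx
    rw [mem_iInter] at hx
    have a1 := hx i
    have a2 := hx j
    rw [mem_closedBall, dist_one] at a1 a2 ⊢
    rw [hm0, hD, dist_one]
    rw [abs_le] at a1 a2
    rcases abs_cases (p i 0 - p j 0) with ⟨e, -⟩ | ⟨e, -⟩ <;>
    · rw [e, abs_le]
      constructor <;> linarith [a1.1, a1.2, a2.1, a2.2]
  have h2 : closedBall m' (r - D' / 2) ⊆ body q r := by
    intro x hx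
    unfold body
    rw [mem_iInter]
    intro t
    have b1 := hkl (k, t) (Finset.mem_univ _)
    have b2 := hkl (t, l) (Finset.mem_univ _)
    simp only at b1 b2
    rw [hD', dist_one] at hx b1 b2
    rw [dist_one] at b1 b2
    rw [mem_closedBall, dist_one] at hx ⊢
    rw [hm'0] at hx
    rw [abs_le] at hx b1 b2 ⊢
    rcases abs_cases (q k 0 - q l 0) with ⟨e, -⟩ | ⟨e, -⟩ <;>
    · rw [e] at hx b1 b2
      constructor <;> linarith [hx.1, hx.2, b1.1, b1.2, b2.1, b2.2]
  calc volume (body p r) ≤ volume (closedBall m (r - D / 2)) := measure_mono h1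
    _ ≤ volume (closedBall m (r - D' / 2)) :=
      measure_mono (closedBall_subset_closedBall (by linarith))
    _ = volume (closedBall m' (r - D' / 2)) := by
      rw [Measure.addHaar_closedBall_center, Measure.addHaar_closedBall_center volume m']
    _ ≤ volume (body q r) := measure_mono h2

/-! ### Numerical inequalities -/

lemma value : (0.6856 : ℝ) ≤ Real.sin (Real.sin 0.857) := by
  have h1 : (0.7558 : ℝ) ≤ Real.sin 0.857 := by
    refine le_trans ?_ (Num.s7 0.857 (by norm_num))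
    norm_num
  have h2 : (0.6856 : ℝ) ≤ Real.sin 0.7558 := by
    refine le_trans ?_ (Num.s7 0.7558 (by norm_num))
    norm_num
  refine h2.trans (Real.strictMonoOn_sin.monotoneOn ?_ ?_ h1)
  · constructor <;> linarith [Real.pi_gt_three]
  · have h3 := Real.sin_le_one (0.857 : ℝ)
    constructor <;> linarith [Real.pi_gt_three]

lemma small_y {y : ℝ} (hy0 : 0 ≤ y) (hy1 : y ≤ 0.857) : 0.8 * y ≤ Real.sin (Real.sin y) := by
  have m0 : (0 : ℝ) ∈ Icc (0 : ℝ) 1 := ⟨le_rfl, zero_le_one⟩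
  have m1 : (0.857 : ℝ) ∈ Icc (0 : ℝ) 1 := ⟨by norm_num, by norm_num⟩
  have ha : 0 ≤ 1 - y / 0.857 := by
    rw [sub_nonneg, div_le_one (by norm_num)]
    exact hy1
  have hb : 0 ≤ y / 0.857 := by positivity
  have h1 := Num.concave.2 m0 m1 ha hb (by ring)
  simp only [smul_eq_mul, Real.sin_zero, mul_zero, zero_add] at h1
  rw [div_mul_cancel₀ y (by norm_num : (0.857 : ℝ) ≠ 0)] at h1
  have h2 : y / 0.857 * 0.6856 ≤ y / 0.857 * Real.sin (Real.sin 0.857) :=
    mul_le_mul_of_nonneg_left value (by positivity)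
  have h3 : y / 0.857 * 0.6856 = 0.8 * y := by ring
  linarith

/-! ### Large circumradius -/

lemma large_y (hT : Thm2pStmt) (hCA : CircumAppStmt) (hCo : ConcStmt) (hV : VrBasicStmt)
    {d N : ℕ} (hd : 2 ≤ d) (hN : 0 < N) (p q : Fin N → E d) (hpq : Contr 0.8 p q)
    (l : Fin N → ℝ) (o : E d) (R r : ℝ) (hl : ∀ i, 0 ≤ l i) (hl1 : ∑ i, l i = 1)
    (hlo : ∑ i, l i • p i = o) (hR : 0 < R) (hRr : R ≤ r)
    (hsum : ∑ i, l i * ‖p i - o‖ ^ 2 = R ^ 2) (o' : E d) (hq : ∀ i, ‖q i - o'‖ ≤ 0.8 * R)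
    (hy : 0.857 * r ≤ R) : volume (body p r) ≤ volume (body q r) := by
  have hd0 : 0 < d := by omega
  have hr : 0 < r := hR.trans_le hRr
  obtain ⟨v1, v2, v3, v4, v5, v6⟩ := hV d hd0
  -- f ≤ 0.5155 r
  have hfs : vr (body p r) ≤ 0.5155 * r := by
    have h := ((hCA d N hN).1 p l o R hl hl1 hlo hR.le hsum).1 r hRr
    calc vr (body p r) ≤ vr (closedBall o (Real.sqrt (r ^ 2 - R ^ 2))) :=
          v1 _ _ h measure_closedBall_lt_top.ne
      _ = Real.sqrt (r ^ 2 - R ^ 2) := v2 _ _ (Real.sqrt_nonneg _)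
      _ ≤ 0.5155 * r := by
        rw [Real.sqrt_le_left (by positivity)]
        nlinarith
  -- the expanded configuration
  set q' : Fin N → E d := fun i => (0.8 : ℝ)⁻¹ • q i with hq'
  have hc : (0 : ℝ) < 0.8 := by norm_num
  have hpq' : Contr 1 p q' := by
    intro i j
    rw [hq']
    simp only [dist_smul₀, norm_inv, Real.norm_eq_abs, abs_of_pos hc, one_mul]
    rw [inv_mul_le_iff₀ hc]
    exact hpq i j
  have hne : (body q' r).Nonempty := by
    refine ⟨(0.8 : ℝ)⁻¹ • o', mem_iInter.2 fun i => ?_⟩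
    rw [mem_closedBall, dist_comm, dist_eq_norm, hq']
    simp only
    rw [← smul_sub, norm_smul, norm_inv, Real.norm_eq_abs, abs_of_pos hc, inv_mul_le_iff₀ hc]
    have := hq i
    nlinarith
  have h2 := (hCo d N hd0 hN q').2.1 r (r / 0.8 - r) hne (by
    rw [sub_nonneg, le_div_iff₀ hc]; nlinarith)
  have e2 : r + (r / 0.8 - r) = r / 0.8 := by ring
  rw [e2] at h2
  have hbq : vr (body q r) = 0.8 * vr (body q' (r / 0.8)) := by
    rw [← v3 0.8 _ hc.le, ← body_smul q' (r / 0.8) hc]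
    congr 1
    have h1 : (fun i => (0.8 : ℝ) • q' i) = q := by
      funext i
      rw [hq']
      simp only
      rw [smul_smul, mul_inv_cancel₀ hc.ne', one_smul]
    rw [h1, mul_div_cancel₀ _ hc.ne']
  -- Theorem 2
  have hfg : vr (body p r) ≤ 1.307 * vr (body q' r) := by
    have h3 := hT d N hd p q' hpq' (fun _ => r)
    have h3' : volume (body p r) ≤ ENNReal.ofReal (Cp d) * volume (body q' r) := h3
    have hfin : ENNReal.ofReal (Cp d) * volume (body q' r) ≠ ⊤ :=
      ENNReal.mul_ne_top ENNReal.ofReal_ne_top (body_finite hN q' r)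
    have h4 := ENNReal.toReal_mono hfin h3'
    rw [ENNReal.toReal_mul, v5, v5 (body q' r)] at h4
    have h5 : (ENNReal.ofReal (Cp d)).toReal ≤ 1.307 ^ d := by
      rw [ENNReal.toReal_ofReal']
      exact max_le (Cp_le_pow d hd) (by positivity)
    have hk := kappa_pos d
    have h6 : (volume (ball (0 : E d) 1)).toReal * vr (body p r) ^ d ≤
        (volume (ball (0 : E d) 1)).toReal * (1.307 * vr (body q' r)) ^ d := by
      refine h4.trans ?_
      have h7 : 0 ≤ (volume (ball (0 : E d) 1)).toReal * vr (body q' r) ^ d :=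
        mul_nonneg hk.le (pow_nonneg (v4 _) _)
      calc (ENNReal.ofReal (Cp d)).toReal *
            ((volume (ball (0 : E d) 1)).toReal * vr (body q' r) ^ d)
          ≤ 1.307 ^ d * ((volume (ball (0 : E d) 1)).toReal * vr (body q' r) ^ d) :=
            mul_le_mul_of_nonneg_right h5 h7
        _ = _ := by rw [mul_pow]; ring
    have h8 := le_of_mul_le_mul_left h6 hk
    exact le_of_pow_le_pow_left₀ hd0.ne' (mul_nonneg (by norm_num) (v4 _)) h8
  have hfin : vr (body p r) ≤ vr (body q r) := by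
    rw [hbq]
    have h9 : 0.8 * (vr (body q' r) + (r / 0.8 - r)) = 0.8 * vr (body q' r) + 0.2 * r := by
      field_simp
      ring
    have h10 : 0.8 * (vr (body q' r) + (r / 0.8 - r)) ≤ 0.8 * vr (body q' (r / 0.8)) :=
      mul_le_mul_of_nonneg_left h2 hc.le
    rw [h9] at h10
    nlinarith [v4 (body q' r), v4 (body p r)]
  have hvol : (volume (body p r)).toReal ≤ (volume (body q r)).toReal := by
    rw [v5, v5 (body q r)]
    exact mul_le_mul_of_nonneg_left (pow_le_pow_left₀ (v4 _) hfin d) (kappa_pos d).le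
  exact (ENNReal.toReal_le_toReal (body_finite hN p r) (body_finite hN q r)).1 hvol

end Fact8

open Fact8 XPlus

/-- contractions by the factor `0.8` -/
theorem fact8 (hX : XPlusStmt) (hT : Thm2pStmt) (hC : CircumStmt) (hCA : CircumAppStmt)
    (hCo : ConcStmt) (hV : VrBasicStmt) :
    ∀ (d N : ℕ) (p q : Fin N → E d), Contr 0.8 p q → ∀ r : ℝ,
      volume (body p r) ≤ volume (body q r) := by
  intro d N p q hpq r
  rcases Nat.eq_zero_or_pos N with hN0 | hN
  · subst hN0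
    have : p = q := by
      funext i
      exact i.elim0
    rw [this]
  rcases Nat.lt_or_ge d 2 with hd | hd
  · interval_cases d
    · have : p = q := by
        funext i
        exact Subsingleton.elim _ _
      rw [this]
    · refine dim_one p q (fun i j => (hpq i j).trans ?_) r
      rw [one_mul]
      have := dist_nonneg (x := p i) (y := p j)
      linarith
  obtain ⟨l, o, R, hl, hl1, hlo, hR, hle, hsum⟩ := hC d N hN p
  obtain ⟨hsub, hempty⟩ := (hCA d N hN).1 p l o R hl hl1 hlo hR hsum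
  rcases lt_or_ge r R with hrR | hRr
  · rw [hempty r hrR]
    simp
  rcases hR.eq_or_lt with h0 | hR0
  · -- all points are equal
    have hp0 : ∀ i, p i = o := by
      intro i
      have h1 := hle i
      rw [← h0] at h1
      exact sub_eq_zero.mp (norm_le_zero_iff.mp h1)
    have i0 : Fin N := ⟨0, hN⟩
    have hq0 : ∀ i, q i = q i0 := by
      intro i
      have h1 := hpq i i0
      rw [hp0 i, hp0 i0, dist_self, mul_zero] at h1
      exact dist_le_zero.mp h1
    have hne : Nonempty (Fin N) := ⟨i0⟩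
    have e1 : body p r = closedBall o r := by
      unfold body
      simp only [hp0, iInter_const]
    have e2 : body q r = closedBall (q i0) r := by
      unfold body
      rw [iInter_congr fun i => by rw [hq0 i]]
      exact iInter_const _
    rw [e1, e2, Measure.addHaar_closedBall_center, Measure.addHaar_closedBall_center volume (q i0)]
  have hr : 0 < r := hR0.trans_le hRr
  rcases le_or_gt R (0.857 * r) with h | h
  · refine hX d N p q o r R hR0 hRr hle fun i j => (hpq i j).trans ?_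
    refine mul_le_mul_of_nonneg_right ?_ dist_nonneg
    have hy0 : 0 < R / r := by positivity
    have h1 := small_y hy0.le ((div_le_iff₀ hr).mpr h)
    have e1 : r / R * Real.sin (Real.sin (R / r)) = Real.sin (Real.sin (R / r)) / (R / r) := by
      field_simp
    rw [e1, le_div_iff₀ hy0]
    exact h1
  · obtain ⟨o', hq⟩ := exists_center hC hCA hN p q (by norm_num) hpq hR0.le hle
    exact large_y hT hCA hCo hV hd hN p q hpq l o R r hl hl1 hlo hR0 hRr hsum o' hq h.le

end Pool.Agent.Lib.MP_0c1c75_co.Jmp
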