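import Pool.Agent.Lib.MP_0c1c75_co.JmpUSpec

/-!
MP_0c1c75_co, module Kir (helper32): Kirszbraun's theorem for one more point, from the approximate
Kneser-Poulsen inequality.
-/

open MeasureTheory Set Metric

namespace Pool.Agent.Lib.MP_0c1c75_co.Jmp

namespace Kir

/-- the approximate form -/
lemma nonempty (hT : Thm2Stmt) {d N : ℕ} (hd : 0 < d) (p q : Fin N → E d) (hpq : Contr 1 p q)
    (x : E d) {ε : ℝ} (hε : 0 < ε) :
    (⋂ i, closedBall (q i) (‖p i - x‖ + ε)).Nonempty := by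
  rw [nonempty_iff_ne_empty]
  intro hemp
  have h1 := hT d N hd p q hpq (fun i => ‖p i - x‖ + ε)
  rw [hemp, measure_empty, mul_zero] at h1
  have h2 : volume (ball x ε) ≤ volume (⋂ i, closedBall (p i) (‖p i - x‖ + ε)) := by
    refine measure_mono fun y hy => ?_
    rw [mem_iInter]
    intro i
    rw [mem_ball, dist_eq_norm] at hy
    rw [mem_closedBall, dist_eq_norm]
    have h3 : y - p i = (y - x) - (p i - x) := by abel
    rw [h3]
    have h4 := norm_sub_le (y - x) (p i - x)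
    linarith
  have h5 : 0 < volume (ball x ε) := measure_ball_pos _ _ hε
  exact absurd (h5.trans_le (h2.trans h1)) (lt_irrefl _)

/-- the compact sets -/
def S {d N : ℕ} (q : Fin N → E d) (ρ : Fin N → ℝ) (k : ℕ) : Set (E d) :=
  ⋂ i, closedBall (q i) (ρ i + 1 / ((k : ℝ) + 1))

lemma S_anti {d N : ℕ} (q : Fin N → E d) (ρ : Fin N → ℝ) (k : ℕ) : S q ρ (k + 1) ⊆ S q ρ k := by
  unfold S
  refine iInter_mono fun i => closedBall_subset_closedBall ?_
  have h1 : 1 / (((k + 1 : ℕ) : ℝ) + 1) ≤ 1 / ((k : ℝ) + 1) := by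
    refine one_div_le_one_div_of_le (by positivity) ?_
    push_cast
    linarith
  linarith

lemma S_closed {d N : ℕ} (q : Fin N → E d) (ρ : Fin N → ℝ) (k : ℕ) : IsClosed (S q ρ k) :=
  isClosed_iInter fun _ => isClosed_closedBall

lemma S_compact {d N : ℕ} (hN : 0 < N) (q : Fin N → E d) (ρ : Fin N → ℝ) (k : ℕ) :
    IsCompact (S q ρ k) := by
  have h1 : S q ρ k ⊆ closedBall (q ⟨0, hN⟩) (ρ ⟨0, hN⟩ + 1 / ((k : ℝ) + 1)) :=
    iInter_subset (fun i => closedBall (q i) (ρ i + 1 / ((k : ℝ) + 1))) ⟨0, hN⟩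
  exact (isCompact_closedBall _ _).of_isClosed_subset (S_closed q ρ k) h1

lemma le_of_mem {d N : ℕ} (q : Fin N → E d) (ρ : Fin N → ℝ) (o : E d)
    (ho : ∀ k, o ∈ S q ρ k) (i : Fin N) : ‖q i - o‖ ≤ ρ i := by
  have h1 : ∀ k : ℕ, ‖q i - o‖ ≤ ρ i + 1 / ((k : ℝ) + 1) := by
    intro k
    have h2 := mem_iInter.mp (ho k) i
    rw [mem_closedBall, dist_comm, dist_eq_norm] at h2
    exact h2
  have h2 : Filter.Tendsto (fun k : ℕ => ρ i + 1 / ((k : ℝ) + 1)) Filter.atTop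
      (nhds (ρ i + 0)) := tendsto_const_nhds.add tendsto_one_div_add_atTop_nhds_zero_nat
  rw [add_zero] at h2
  exact ge_of_tendsto' h2 h1

end Kir

theorem kirStmt (hT : Thm2Stmt) : KirStmt := by
  intro d N hd hN p q hpq x
  obtain ⟨o, ho⟩ := IsCompact.nonempty_iInter_of_sequence_nonempty_isCompact_isClosed
    (Kir.S q (fun i => ‖p i - x‖)) (Kir.S_anti q _)
    (fun k => Kir.nonempty hT hd p q hpq x (by positivity)) (Kir.S_compact hN q _ 0)
    (Kir.S_closed q _)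
  exact ⟨o, fun i => Kir.le_of_mem q _ o (mem_iInter.mp ho) i⟩

end Pool.Agent.Lib.MP_0c1c75_co.Jmp
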