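import Pool.Agent.Lib.MP_0c1c75_co.JmpSpec
import Pool.Agent.Lib.MP_0c1c75_co.FewLift
import Pool.Agent.Lib.MP_0c1c75_co.FewFinal

/-!
MP_0c1c75_co, jump theorem, module Sand: lifting by two dimensions.
-/

open MeasureTheory Set

namespace Pool.Agent.Lib.MP_0c1c75_co.Jmp

open Pool.Agent.Lib.MP_0c1c75_co.Few (Prof Polar2Stmt gm lift2)
open Pool.Agent.Lib.MP_0c1c75_co.Few.Final (KS gm_le_iff isClosed_KS measure_KS_lt_top measurable_gm)

namespace Sand

/-- `gmax` in coordinates -/
lemma gmax_toLp {n N : ℕ} (P : Fin N → E n) (a : Fin N → ℝ) (x : Fin n → ℝ) :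
    gmax P a (WithLp.toLp 2 x) = gm (fun i k => P i k) a x := by
  unfold gmax gm
  congr 1
  funext i
  rw [EuclideanSpace.norm_sq_eq]
  congr 1
  refine Finset.sum_congr rfl fun k _ => ?_
  rw [Real.norm_eq_abs, sq_abs]
  rfl

/-- transport of integrals -/
lemma int_toLp {n : ℕ} (F : E n → ℝ) : ∫ y, F y = ∫ x : Fin n → ℝ, F (WithLp.toLp 2 x) :=
  ((PiLp.volume_preserving_toLp (Fin n)).integral_comp
    (MeasurableEquiv.toLp 2 (Fin n → ℝ)).measurableEmbedding F).symm

/-- transport of the sets -/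
lemma vol_toLp {n N : ℕ} (hN : 0 < N) (P : Fin N → E n) (a : Fin N → ℝ) (t : ℝ) :
    volume.real {x | gmax P a x ≤ t} =
      volume.real (KS (fun i k => P i k) (fun i => a i + t)) := by
  have h1 := PiLp.volume_preserving_toLp (Fin n)
  have h2 : (MeasurableEquiv.toLp 2 (Fin n → ℝ)) ⁻¹' {x | gmax P a x ≤ t} =
      KS (fun i k => P i k) (fun i => a i + t) := by
    ext x
    rw [mem_preimage, mem_setOf_eq]
    change gmax P a (WithLp.toLp 2 x) ≤ t ↔ _
    rw [gmax_toLp, gm_le_iff hN]
  have h3 : volume ((MeasurableEquiv.toLp 2 (Fin n → ℝ)) ⁻¹' {x | gmax P a x ≤ t}) =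
      volume {x | gmax P a x ≤ t} := h1.measure_preimage_emb
        (MeasurableEquiv.toLp 2 (Fin n → ℝ)).measurableEmbedding _
  rw [h2] at h3
  unfold Measure.real
  rw [h3]

/-- the two bounds for the inner integral -/
lemma bounds {d N : ℕ} (hN : 0 < N) (p : Fin N → Fin d → ℝ) (a : Fin N → ℝ) {ε : ℝ}
    {Φ : ℝ → ℝ} (hΦ : Pk Φ ε) :
    volume.real (KS p (fun i => a i + 0)) ≤ ∫ x, ∫ s in Ioi (gm p a x), Φ s ∧
    ∫ x, ∫ s in Ioi (gm p a x), Φ s ≤ volume.real (KS p (fun i => a i + ε)) := by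
  have hint := hΦ.mass
  have hsupp := hΦ.supp
  have hΦi : Integrable Φ volume :=
    hΦ.prof.smooth.continuous.integrable_of_hasCompactSupport hΦ.prof.supp
  set ψ : ℝ → ℝ := fun t => ∫ s in Ioi t, Φ s with hψ
  have hψ0 : ∀ t, 0 ≤ ψ t := fun t => integral_nonneg fun s => hΦ.prof.nonneg s
  have hψ1 : ∀ t, ψ t ≤ 1 := fun t => by
    rw [← hint]
    exact setIntegral_le_integral hΦi (Filter.Eventually.of_forall hΦ.prof.nonneg)
  have hψa : Antitone ψ := fun s t hst =>
    setIntegral_mono_set hΦi.integrableOn (Filter.Eventually.of_forall hΦ.prof.nonneg)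
      (Ioi_subset_Ioi hst).eventuallyLE
  have hψl : ∀ t, t ≤ 0 → ψ t = 1 := fun t ht => by
    rw [← hint]
    refine setIntegral_eq_integral_of_forall_compl_eq_zero fun s hs => hsupp s fun hs' => hs ?_
    exact lt_of_le_of_lt ht hs'.1
  have hψr : ∀ t, ε ≤ t → ψ t = 0 := fun t ht => by
    refine setIntegral_eq_zero_of_forall_eq_zero fun s hs => hsupp s fun hs' => ?_
    have := hs'.2
    have h2 : t < s := hs
    linarith
  have hmeas : Measurable fun x => ψ (gm p a x) := hψa.measurable.comp (measurable_gm hN p a)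
  have hle : ∀ x, ψ (gm p a x) ≤ (KS p (fun i => a i + ε)).indicator (fun _ => (1 : ℝ)) x := by
    intro x
    by_cases hx : x ∈ KS p (fun i => a i + ε)
    · rw [indicator_of_mem hx]; exact hψ1 _
    · rw [indicator_of_notMem hx, hψr]
      rw [← gm_le_iff hN] at hx
      exact (not_le.mp hx).le
  have hge : ∀ x, (KS p (fun i => a i + 0)).indicator (fun _ => (1 : ℝ)) x ≤ ψ (gm p a x) := by
    intro x
    by_cases hx : x ∈ KS p (fun i => a i + 0)
    · rw [indicator_of_mem hx, hψl]
      rwa [gm_le_iff hN]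
    · rw [indicator_of_notMem hx]; exact hψ0 _
  have hii : ∀ b : Fin N → ℝ, Integrable ((KS p b).indicator (fun _ => (1 : ℝ))) volume :=
    fun b => (integrable_indicator_iff (isClosed_KS p b).measurableSet).mpr
      (integrableOn_const (measure_KS_lt_top hN p b).ne)
  have hψi : Integrable (fun x => ψ (gm p a x)) volume :=
    (hii (fun i => a i + ε)).mono' hmeas.aestronglyMeasurable
      (Filter.Eventually.of_forall fun x => by
        rw [Real.norm_eq_abs, abs_of_nonneg (hψ0 _)]
        exact hle x)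
  constructor
  · have h2 := integral_mono (hii _) hψi hge
    rw [integral_indicator_const _ (isClosed_KS p _).measurableSet] at h2
    simpa using h2
  · have h3 := integral_mono hψi (hii (fun i => a i + ε)) hle
    rw [integral_indicator_const _ (isClosed_KS p _).measurableSet] at h3
    simpa using h3

end Sand

open Sand in
theorem sandStmt (h : Polar2Stmt) : SandStmt := by
  intro d N hN p a ε _hε Φ hΦ
  have h1 : ∫ x, Φ (gmax (fun i => up (p i)) a x) =
      Real.pi * ∫ x, ∫ s in Ioi (gm (fun i k => p i k) a x), Φ s := by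
    rw [int_toLp, ← Few.Lift.step h hN (fun i k => p i k) a hΦ.prof.smooth.continuous
      hΦ.prof.supp]
    congr 1
    funext x
    rw [gmax_toLp]
    rfl
  obtain ⟨h2, h3⟩ := bounds hN (fun i k => p i k) a hΦ
  rw [h1, vol_toLp hN, vol_toLp hN]
  exact ⟨mul_le_mul_of_nonneg_left h2 Real.pi_pos.le, mul_le_mul_of_nonneg_left h3 Real.pi_pos.le⟩

end Pool.Agent.Lib.MP_0c1c75_co.Jmp
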