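import Pool.Agent.Lib.MP_0c1c75_co.Spec
import Pool.Agent.Lib.MP_0c1c75_co.CluSpec

/-!
MP_0c1c75_co (Kneser-Poulsen for intersections of balls): motions in dimension `d + 2` with a jump
on a sphere (helper32). Definitions and the statements of all modules, as Props, with proofs in the
docstrings.

Theorem X+. Congruent balls of radius `r`, `|p_i - o| ≤ ρ ≤ r`,
`|q_i - q_j| ≤ (r/ρ) sin (sin (ρ/r)) |p_i - p_j|` implies
`vol ⋂ B[p_i, r] ≤ vol ⋂ B[q_i, r]`, for all `d` and `N`.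

Plan. (S0) `π vol ⋂ B[p_i, r_i] = lim ∫_{E (d+2)} Φ_ε (max_i (|x - (0,0,p_i)|² - r_i²)) dx` for
profiles `Φ_ε` of mass one with support in `(0, ε)`. (S1) This integral does not decrease along a
smooth motion of the centres in `E (d+2)` which does not increase the distances. Bend the space
`E d` to a sphere of radius `r` in `E (d+2)`; the centres then lie on a sphere of radius `r`, so all
balls contain the centre of this sphere. (S2) For balls which contain the origin in their boundary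
the limit is `∫_{S} (2 min_i <u, n_i>)_+^d dσ(u)`, and this is monotone for contractions of the `n_i`
(which have fixed lengths) by the Gaussian comparison inequality: here the centres may jump.
(S3) Unbend the second configuration (with suitable dilations).
-/

open MeasureTheory Set Filter Topology
open scoped ContDiff

namespace Pool.Agent.Lib.MP_0c1c75_co.Jmp

open Pool.Agent.Lib.MP_0c1c75_co.Few (Prof Polar2Stmt)
open Pool.Agent.Lib.MP_0c1c75_co.Clu (smx wt)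

/-- the functions `|x - P_i|² - a_i`; `gmax P a x = Clu.hmx (ff P a x)` holds by `rfl` -/
noncomputable def ff {n N : ℕ} (P : Fin N → E n) (a : Fin N → ℝ) (x : E n) (i : Fin N) : ℝ :=
  ‖x - P i‖ ^ 2 - a i

/-- soft maximum of the functions `|x - P_i|² - a_i` -/
noncomputable def sM {n N : ℕ} (β : ℝ) (P : Fin N → E n) (a : Fin N → ℝ) (x : E n) : ℝ :=
  smx β (ff P a x)

/-- its weights -/
noncomputable def sW {n N : ℕ} (β : ℝ) (P : Fin N → E n) (a : Fin N → ℝ) (x : E n)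
    (i : Fin N) : ℝ := wt β (ff P a x) i

/-- the pair sum `∑ w_i w_j e_ij` with `e_ij = -<P_i - P_j, v_i - v_j>` -/
noncomputable def pr {n N : ℕ} (β : ℝ) (P : Fin N → E n) (a : Fin N → ℝ) (v : Fin N → E n)
    (x : E n) : ℝ :=
  ∑ i, ∑ j, sW β P a x i * sW β P a x j * -inner ℝ (P i - P j) (v i - v j)

/-- the derivative of `Φ (sM β P a x)` when the centres `P` move with velocities `v` -/
noncomputable def ds {n N : ℕ} (Φ : ℝ → ℝ) (β : ℝ) (P : Fin N → E n) (a : Fin N → ℝ)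
    (v : Fin N → E n) (x : E n) : ℝ :=
  deriv Φ (sM β P a x) * ∑ i, sW β P a x i * (-2 * inner ℝ (x - P i) (v i))

/-- the derivative of `x ↦ w_i Φ (M)` in the direction `v` -/
noncomputable def dw {n N : ℕ} (Φ : ℝ → ℝ) (β : ℝ) (P : Fin N → E n) (a : Fin N → ℝ)
    (v : E n) (i : Fin N) (x : E n) : ℝ :=
  sW β P a x i * (deriv Φ (sM β P a x) * ∑ j, sW β P a x j * (2 * inner ℝ (x - P j) v)) +
    Φ (sM β P a x) * (β * sW β P a x i *
      (2 * inner ℝ (x - P i) v - ∑ j, sW β P a x j * (2 * inner ℝ (x - P j) v)))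

/-- profiles of mass one with support in `(0, ε)` (they exist: `Few.Final.exists_prof`) -/
structure Pk (Φ : ℝ → ℝ) (ε : ℝ) : Prop where
  prof : Prof Φ
  mass : ∫ s, Φ s = 1
  supp : ∀ s, s ∉ Ioo 0 ε → Φ s = 0

/-- `x ↦ (0, 0, x)` -/
noncomputable def up {d : ℕ} (x : E d) : E (d + 2) := WithLp.toLp 2 (Few.lift2 (fun k => x k))

/-- bending with curvature `k`: `x ↦ (0, (cos (k |x|) - 1) / k, (sin (k |x|) / (k |x|)) x)`;
`bend 0 = up` -/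
noncomputable def bend {d : ℕ} (k : ℝ) (x : E d) : E (d + 2) :=
  WithLp.toLp 2 (Fin.cons 0 (Fin.cons ((Real.cos (k * ‖x‖) - 1) / k)
    (fun j => Real.sinc (k * ‖x‖) * x j) : Fin (d + 1) → ℝ) : Fin (d + 2) → ℝ)

/-- the centre of the sphere of radius `1 / k` which contains all `bend k x` -/
noncomputable def ctr {d : ℕ} (k : ℝ) : E (d + 2) :=
  WithLp.toLp 2 (Fin.cons 0 (Fin.cons (-1 / k) (fun _ => 0) : Fin (d + 1) → ℝ) : Fin (d + 2) → ℝ)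

/-- `min_i <x, P_i>` -/
noncomputable def mn {n N : ℕ} (P : Fin N → E n) (x : E n) : ℝ := ⨅ i, inner ℝ x (P i)

/-- `∫_{S^{n-1}} (min_i <u, P_i>)_+^k dσ(u)` -/
noncomputable def sph {n N : ℕ} (k : ℕ) (P : Fin N → E n) : ℝ :=
  ∫ u, (max (mn P u.1) 0) ^ k ∂(volume : Measure (E n)).toSphere

/-! ## Module MotPt -/

/-- Pointwise derivatives (`Clu.est3Stmt` gives the derivatives of `smx β` and `wt β` along a curve).
With `f_i = |x - P_i|² - a_i`, `M = sM`, `w_i = sW`: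
(1) `∂_v (w_i Φ(M)) = dw`, because `∂_v f_j = 2 <x - P_j, v>`, `∂_v M = ∑ w_j ∂_v f_j`,
`∂_v w_i = β w_i (∂_v f_i - ∑ w_j ∂_v f_j)`;
(2) if the centres move, `∂_s f_i = -2 <x - P_i, P_i'>`, so `∂_s Φ(M) = ds`;
(3) algebra: `ds + ∑_i dw (v_i) i = (β Φ(M) - Φ'(M)) pr`. Indeed the terms with `Φ'(M)` are
`2 ∑_ij w_i w_j (<x - P_j, v_i> - <x - P_i, v_i>) = 2 ∑_ij w_i w_j <P_i - P_j, v_i>
= ∑_ij w_i w_j <P_i - P_j, v_i - v_j> = -pr` (use `∑ w_j = 1`, symmetrize), and the terms with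
`β Φ(M)` are the opposite: `2 ∑_ij w_i w_j (<x - P_i, v_i> - <x - P_j, v_i>) = pr`.
(4) continuity: everything is continuous in all variables together. -/
def MotPtStmt : Prop :=
  ∀ (n N : ℕ), 0 < N → ∀ Φ : ℝ → ℝ, Prof Φ → ∀ (β : ℝ), 0 < β → ∀ (a : Fin N → ℝ),
    (∀ (P : Fin N → E n) (x v : E n) (i : Fin N),
      HasLineDerivAt ℝ (fun y => sW β P a y i * Φ (sM β P a y)) (dw Φ β P a v i x) x v) ∧
    (∀ (Q : ℝ → Fin N → E n) (v : Fin N → E n) (s : ℝ) (x : E n),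
      (∀ i, HasDerivAt (fun t => Q t i) (v i) s) →
      HasDerivAt (fun t => Φ (sM β (Q t) a x)) (ds Φ β (Q s) a v x) s) ∧
    (∀ (P v : Fin N → E n) (x : E n),
      ds Φ β P a v x + ∑ i, dw Φ β P a (v i) i x =
        (β * Φ (sM β P a x) - deriv Φ (sM β P a x)) * pr β P a v x) ∧
    Continuous (fun z : (Fin N → E n) × E n => sM β z.1 a z.2) ∧
    (∀ i, Continuous (fun z : (Fin N → E n) × E n => sW β z.1 a z.2 i)) ∧
    Continuous (fun z : ((Fin N → E n) × (Fin N → E n)) × E n => ds Φ β z.1.1 a z.1.2 z.2) ∧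
    Continuous (fun z : ((Fin N → E n) × (Fin N → E n)) × E n => pr β z.1.1 a z.1.2 z.2) ∧
    (∀ i, Continuous (fun z : ((Fin N → E n) × E n) × E n => dw Φ β z.1.1 a z.1.2 i z.2))

/-! ## Module MotInt -/

/-- The integrated form of the derivative, for fixed `β`. From `MotPtStmt` (and `Clu.est1Stmt`).
`I = [s0, s1]` is compact, so `|P s i| ≤ C` on `I`. If `Φ` vanishes on `(T, ∞)` then `Φ(M)`, `Φ'(M)`
vanish if `|x - P_i|² - a_i > T` for some `i` (`M ≥ hmx ≥ f_i`), so all integrands vanish outside a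
ball that does not depend on `s ∈ I`. (a) For fixed `s`: `∫ ds = ∫ (β Φ(M) - Φ'(M)) pr`, by (3) and
`∫ dw = 0` (`Gauss.integral_lineDeriv_eq_zero`; continuous with compact support).
(b) `∫ Φ(M(s1)) - ∫ Φ(M(s0)) = ∫_x ∫_{s0}^{s1} ds = ∫_{s0}^{s1} ∫_x ds` (fundamental theorem for
every `x`, then Fubini: continuous, compact support). (c) `pr ≥ 0`, `Φ ≥ 0`, so
`(β Φ(M) - Φ'(M)) pr ≥ -|Φ'(M)| pr`. -/
def MotIntStmt : Prop :=
  ∀ (n N : ℕ), 0 < N → ∀ Φ : ℝ → ℝ, Prof Φ → ∀ (β : ℝ), 0 < β → ∀ (a : Fin N → ℝ)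
    (P v : ℝ → Fin N → E n) (s0 s1 : ℝ), s0 ≤ s1 →
    (∀ s ∈ Icc s0 s1, ∀ i, HasDerivAt (fun t => P t i) (v s i) s) →
    (∀ i, ContinuousOn (fun s => v s i) (Icc s0 s1)) →
    (∀ s ∈ Icc s0 s1, ∀ i j, inner ℝ (P s i - P s j) (v s i - v s j) ≤ 0) →
    ∫ x, Φ (sM β (P s0) a x) ≤
      (∫ x, Φ (sM β (P s1) a x)) +
        ∫ s in s0..s1, ∫ x, |deriv Φ (sM β (P s) a x)| * pr β (P s) a (v s) x

/-! ## Module MotErr -/

/-- The error term tends to zero. Here `v` is only assumed continuous. `|Φ'| ≤ B`, the integrand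
vanishes outside `[s0,s1] × ball`, `0 ≤ pr ≤ ∑_ij e_ij(s) ≤ C` (weights between `0` and `1`). For
fixed `s` and almost every `x` the integrand tends to `0`: if `P_i ≠ P_j` then `f_i(x) ≠ f_j(x)`
outside a hyperplane (`Measure.addHaar_affineSubspace`, or `f_i - f_j` is affine and not constant),
and `w_i w_j ≤ exp (-β |f_i - f_j|)` (`Clu.est1Stmt`); if `P_i = P_j` then `e_ij = 0`. Dominated
convergence for the inner integral, then for the outer integral (constant bound on `[s0,s1]`;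
measurability in `s` from the joint continuity). Continuity of `sM`, `sW`, `pr` in all variables is
in `MotPtStmt`. -/
def MotErrStmt : Prop :=
  ∀ (n N : ℕ), 0 < N → ∀ Φ : ℝ → ℝ, Prof Φ → ∀ (a : Fin N → ℝ)
    (P v : ℝ → Fin N → E n) (s0 s1 : ℝ), s0 ≤ s1 →
    (∀ i, ContinuousOn (fun s => P s i) (Icc s0 s1)) →
    (∀ i, ContinuousOn (fun s => v s i) (Icc s0 s1)) →
    (∀ s ∈ Icc s0 s1, ∀ i j, inner ℝ (P s i - P s j) (v s i - v s j) ≤ 0) →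
    Tendsto (fun m : ℕ => ∫ s in s0..s1, ∫ x, |deriv Φ (sM (m + 1) (P s) a x)| *
      pr (m + 1) (P s) a (v s) x) atTop (𝓝 0)

/-! ## Module ContE -/

/-- Continuity and limits of the integrals. (1) Continuity in the centres: `Few.contStmt` (in
`FewCont.lean`) after the transport from `Fin n → ℝ` to `E n` (`PiLp.volume_preserving_toLp`, see
`FewFinal.lean`), or directly by dominated convergence. (2) translation invariance. (3) Soft to hard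
maximum: `hmx ≤ smx β ≤ hmx + log N / β` (`Clu.est1Stmt`), dominated convergence with the bound
`B` on a ball. -/
def ContEStmt : Prop :=
  ∀ (n N : ℕ), 0 < N → ∀ (a : Fin N → ℝ) (f : ℝ → ℝ), Continuous f → HasCompactSupport f →
    Continuous (fun P : Fin N → E n => ∫ x, f (gmax P a x)) ∧
    (∀ (P : Fin N → E n) (c : E n),
      ∫ x, f (gmax (fun i => P i - c) a x) = ∫ x, f (gmax P a x)) ∧
    (∀ P : Fin N → E n, Tendsto (fun m : ℕ => ∫ x, f (sM (m + 1) P a x)) atTop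
      (𝓝 (∫ x, f (gmax P a x))))

/-! ## Module Motion -/

/-- Motions. From `MotIntStmt`, `MotErrStmt`, `ContEStmt`. On `[s0, s1] ⊂ (0,1)`:
`inner (P_i - P_j) (P_i' - P_j') ≤ 0` because `|P_i - P_j|²` is antitone and differentiable; let
`β = m + 1 → ∞` in `MotIntStmt`. Then `s0 → 0`, `s1 → 1` by `ContEStmt` (1). -/
def MotionStmt : Prop :=
  ∀ (n N : ℕ), 0 < N → ∀ Φ : ℝ → ℝ, Prof Φ → ∀ (a : Fin N → ℝ) (P : ℝ → Fin N → E n),
    (∀ i, ContinuousOn (fun s => P s i) (Icc 0 1)) →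
    (∀ i, ContDiffOn ℝ 1 (fun s => P s i) (Ioo 0 1)) →
    (∀ i j, AntitoneOn (fun s => dist (P s i) (P s j)) (Icc 0 1)) →
    ∫ x, Φ (gmax (P 0) a x) ≤ ∫ x, Φ (gmax (P 1) a x)

/-! ## Module Sand -/

/-- Lifting by two dimensions. From `Polar2Stmt` (1): `Few.Lift.step` in `FewLift.lean` is the
identity `∫_{ℝ^{d+2}} Φ (gm (lift2 ∘ p) a) = π ∫_{ℝ^d} ∫_{(gm p a x, ∞)} Φ`; transport it to
`E (d+2)` and `E d` (`PiLp.volume_preserving_toLp`). The inner integral is `1` if `gmax p a x ≤ 0`,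
`0` if `gmax p a x ≥ ε`, and in `[0,1]` always. The sets are closed and bounded. -/
def SandStmt : Prop :=
  ∀ (d N : ℕ), 0 < N → ∀ (p : Fin N → E d) (a : Fin N → ℝ) (ε : ℝ), 0 < ε → ∀ Φ : ℝ → ℝ,
    Pk Φ ε →
    Real.pi * volume.real {x | gmax p a x ≤ 0} ≤ ∫ x, Φ (gmax (fun i => up (p i)) a x) ∧
    ∫ x, Φ (gmax (fun i => up (p i)) a x) ≤ Real.pi * volume.real {x | gmax p a x ≤ ε}

/-! ## Module SphRad -/

/-- One real variable. Let `g ρ = ρ² - 2ρμ`, `ρ₀ = 2 max μ 0`; `Φ (g ρ) = 0` for `0 < ρ ≤ ρ₀` (then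
`g ρ ≤ 0`) and if `ρ > μ + √(μ²+ε)` (then `g ρ ≥ ε`). `∫_{ρ₀}^∞ Φ(g ρ) g'(ρ) dρ = ∫_0^∞ Φ = 1`
(`integral_comp_mul_deriv_Ioi` or similar), `g' ρ = 2(ρ-μ) > 0`. On the support:
`ρ^{d+1} ≤ g'(ρ) ρ^d ≤ g'(ρ) (μ + √(μ²+ε))^d` because `ρ ≤ 2(ρ-μ)`; and, if `μ > 0`,
`ρ^{d+1} ≥ (2μ)^d ρ = (2μ)^d g'(ρ) (1/2 + μ/(2(ρ-μ))) ≥ (2μ)^d g'(ρ) (1/2 + μ/(2√(μ²+ε)))`. -/
def SphRadStmt : Prop :=
  ∀ (d : ℕ), 0 < d → ∀ (μ ε : ℝ), 0 < ε → ∀ Φ : ℝ → ℝ, Pk Φ ε →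
    IntegrableOn (fun ρ : ℝ => Φ (ρ ^ 2 - 2 * ρ * μ) * ρ ^ (d + 1)) (Ioi 0) ∧
    (2 * max μ 0) ^ d * (1 / 2 + max μ 0 / (2 * √(μ ^ 2 + ε))) ≤
      ∫ ρ in Ioi (0 : ℝ), Φ (ρ ^ 2 - 2 * ρ * μ) * ρ ^ (d + 1) ∧
    ∫ ρ in Ioi (0 : ℝ), Φ (ρ ^ 2 - 2 * ρ * μ) * ρ ^ (d + 1) ≤ (μ + √(μ ^ 2 + ε)) ^ d

/-! ## Module SphLim -/

/-- The limit for balls whose boundary contains the origin. From `SphRadStmt`. For `a_i = |n_i|²`:
`gmax n a x = |x|² - 2 mn n x`; polar coordinates (`Polar.int` in `Polar.lean`; `volumeIoiPow (d+1)`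
has density `ρ^{d+1}`): the integral is `∫_S I(mn n u) dσ(u)`, `I` the integral of `SphRadStmt`.
Both bounds tend to `(2 max μ 0)^d` pointwise (`ε_k = 1/(k+1)`) and are bounded (`|mn n u| ≤ max |n_i|`),
the measure `σ` is finite: dominated convergence and squeezing. -/
def SphLimStmt : Prop :=
  ∀ (d N : ℕ), 0 < d → 0 < N → ∀ (n : Fin N → E (d + 2)) (Φ : ℕ → ℝ → ℝ),
    (∀ k : ℕ, Pk (Φ k) (1 / (k + 1))) →
    Tendsto (fun k => ∫ x, Φ k (gmax n (fun i => ‖n i‖ ^ 2) x)) atTop (𝓝 (2 ^ d * sph d n))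

/-! ## Module SlepG -/

/-- Slepian's inequality for the Gaussian measure. From `GaussStmt` with `N + 1` centres in `E n`:
`0, L P_1, …, L P_N` and `0, L Q_1, …, L Q_N`, `a = (0, L²|P_i|² - 2 L τ)`, `s = 1`:
`exp (-gmax) = exp (-|x|²) exp (-max (0, max_i 2L (τ - <x, P_i>)))`, which is between
`exp (-|x|²) 1[mn P x ≥ τ]` and `exp (-|x|²)`, and tends to the former as `L → ∞`. -/
def SlepGStmt : Prop :=
  ∀ (n N : ℕ), 0 < N → ∀ (P Q : Fin N → E n), (∀ i, ‖P i‖ = ‖Q i‖) →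
    (∀ i j, dist (Q i) (Q j) ≤ dist (P i) (P j)) → ∀ τ : ℝ,
    ∫ x in {x | τ ≤ mn P x}, Real.exp (-‖x‖ ^ 2) ≤ ∫ x in {x | τ ≤ mn Q x}, Real.exp (-‖x‖ ^ 2)

/-! ## Module SlepS -/

/-- Slepian's inequality on the sphere. From `SlepGStmt`. Layer cake
(`lintegral_rpow_eq_lintegral_meas_le_mul` for the measure with density `exp (-|x|²)`):
`∫ exp (-|x|²) (mn P x)_+^k ≤ ∫ exp (-|x|²) (mn Q x)_+^k`; polar coordinates (`Polar.int`): the left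
side is `sph k P ∫_0^∞ exp (-ρ²) ρ^{k+n-1} dρ`. For `n = 0` both sides are zero. -/
def SlepSStmt : Prop :=
  ∀ (n N k : ℕ), 0 < N → 0 < k → ∀ (P Q : Fin N → E n), (∀ i, ‖P i‖ = ‖Q i‖) →
    (∀ i j, dist (Q i) (Q j) ≤ dist (P i) (P j)) → sph k P ≤ sph k Q

/-! ## Module Jump -/

/-- The theorem on motions with a jump. From `MotionStmt`, `ContEStmt`, `SandStmt`, `SphLimStmt`,
`SlepSStmt`. `a_i = r_i²`, `n_i = P 1 i - z`, `m_i = Q 0 i - z'`, `Φ_k` with `Pk Φ_k (1/(k+1))`: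
`π vol {gmax p a ≤ 0} ≤ ∫ Φ_k (gmax (P 0)) ≤ ∫ Φ_k (gmax (P 1)) → 2^d sph d n ≤ 2^d sph d m`, and
`2^d sph d m ← ∫ Φ_k (gmax (Q 0)) ≤ ∫ Φ_k (gmax (Q 1)) ≤ π vol {gmax q a ≤ 1/(k+1)} →
π vol {gmax q a ≤ 0}`. `d = 0`, `N = 0`: trivial. -/
def JumpStmt : Prop :=
  ∀ (d N : ℕ) (p q : Fin N → E d) (r : Fin N → ℝ) (P Q : ℝ → Fin N → E (d + 2))
    (z z' : E (d + 2)),
    (∀ i, ContinuousOn (fun s => P s i) (Icc 0 1)) →
    (∀ i, ContDiffOn ℝ 1 (fun s => P s i) (Ioo 0 1)) →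
    (∀ i j, AntitoneOn (fun s => dist (P s i) (P s j)) (Icc 0 1)) →
    (∀ i, ContinuousOn (fun s => Q s i) (Icc 0 1)) →
    (∀ i, ContDiffOn ℝ 1 (fun s => Q s i) (Ioo 0 1)) →
    (∀ i j, AntitoneOn (fun s => dist (Q s i) (Q s j)) (Icc 0 1)) →
    (∀ i, P 0 i = up (p i)) → (∀ i, Q 1 i = up (q i)) →
    (∀ i, dist (P 1 i) z = r i) → (∀ i, dist (Q 0 i) z' = r i) →
    (∀ i j, dist (Q 0 i) (Q 0 j) ≤ dist (P 1 i) (P 1 j)) →
    volume (⋂ i, Metric.closedBall (p i) (r i)) ≤ volume (⋂ i, Metric.closedBall (q i) (r i))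

/-! ## Module Bend -/

/-- Elementary facts on `bend`. (3): with `u = |x|`, `v = |y|`, `<x,y> = c u v` (`c = 0` if
`u v = 0`): `A = (1+c)/2`, `B = (1-c)/2`; `k² |bend k x - bend k y|² = 2 - 2 cos ku cos kv -
2 c sin ku sin kv = (1+c)(1 - cos k(u-v)) + (1-c)(1 - cos k(u+v))`, `1 - cos t = 2 sin² (t/2)`. -/
def BendStmt : Prop :=
  ∀ (d : ℕ),
    (∀ x : E d, bend 0 x = up x) ∧
    (∀ x y : E d, up x - up y = up (x - y)) ∧
    (∀ x : E d, ‖up x‖ = ‖x‖) ∧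
    (∀ (k : ℝ) (x : E d), 0 < k → ‖bend k x - ctr k‖ = 1 / k) ∧
    (∀ x y : E d, ∃ A B : ℝ, 0 ≤ A ∧ 0 ≤ B ∧
      ‖x - y‖ ^ 2 = A * (‖x‖ - ‖y‖) ^ 2 + B * (‖x‖ + ‖y‖) ^ 2 ∧
      ∀ k : ℝ, 0 < k → ‖bend k x - bend k y‖ ^ 2 =
        A * (2 * Real.sin (k * (‖x‖ - ‖y‖) / 2) / k) ^ 2 +
          B * (2 * Real.sin (k * (‖x‖ + ‖y‖) / 2) / k) ^ 2) ∧
    (∀ x : E d, ContDiffOn ℝ 1 (fun k => bend k x) (Ioi 0)) ∧
    (∀ x : E d, Continuous (fun k => bend k x))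

/-! ## Module BendReal -/

/-- Real inequalities. (1), (2): `sin z / z` is antitone on `(0, π]`; (3) `sin (α T) / sin T` is
monotone in `T ∈ (0, π/2]` for `0 < α ≤ 1` (`α tan T ≥ tan (α T)`). -/
def BendRealStmt : Prop :=
  ∀ (ρ k k' t : ℝ), 0 ≤ t → t ≤ ρ → 0 < k → k ≤ k' → k' * ρ ≤ Real.pi / 2 →
    Real.sin (k' * t) / k' ≤ Real.sin (k * t) / k ∧ Real.sin (k * t) / k ≤ t ∧
    Real.sinc (k * ρ) * t ≤ Real.sin (k * t) / k ∧
    (Real.sinc (k * ρ))⁻¹ * (Real.sin (k * t) / k) ≤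
      (Real.sinc (k' * ρ))⁻¹ * (Real.sin (k' * t) / k') ∧ 0 < Real.sinc (k * ρ)

/-! ## Module BendMono -/

/-- Monotonicity of the distances. From `BendStmt` (3) and `BendRealStmt` with
`t = | |x| - |y| | / 2` and `t = (|x| + |y|) / 2`, both `≤ ρ` (squares are even). -/
def BendMonoStmt : Prop :=
  ∀ (d : ℕ) (ρ k k' : ℝ) (x y : E d), ‖x‖ ≤ ρ → ‖y‖ ≤ ρ → 0 < k → k ≤ k' →
    k' * ρ ≤ Real.pi / 2 →
    dist (bend k' x) (bend k' y) ≤ dist (bend k x) (bend k y) ∧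
    dist (bend k x) (bend k y) ≤ dist x y ∧
    Real.sinc (k * ρ) * dist x y ≤ dist (bend k x) (bend k y) ∧
    (Real.sinc (k * ρ))⁻¹ * dist (bend k x) (bend k y) ≤
      (Real.sinc (k' * ρ))⁻¹ * dist (bend k' x) (bend k' y)

/-! ## Module BendPath -/

/-- The two motions. From `BendStmt`, `BendMonoStmt`, `BendRealStmt`.
(1) `P s i = bend (s / r) (p i - o) + up o`, `z = ctr (1/r) + up o`.
(2) `Ω = arcsin (ρ/r) / ρ`, `ω = (1 - s) Ω`, `Q s i = (sinc (ω ρ))⁻¹ • bend ω (q i - o) + up o`,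
`z' = (sinc (Ω ρ))⁻¹ • ctr Ω + up o`; the radius of the sphere at `s = 0` is
`(sinc (Ω ρ))⁻¹ / Ω = ρ / sin (Ω ρ) = r`, and
`dist (Q 0 i) (Q 0 j) ≤ (sinc (Ω ρ))⁻¹ dist (q i) (q j)`, `(sinc (Ω ρ))⁻¹ = Ω r = arcsin (ρ/r) r/ρ`. -/
def BendPathStmt : Prop :=
  (∀ (d N : ℕ) (p : Fin N → E d) (o : E d) (ρ r : ℝ), 0 < ρ → ρ ≤ r → (∀ i, ‖p i - o‖ ≤ ρ) →
    ∃ (P : ℝ → Fin N → E (d + 2)) (z : E (d + 2)),
      (∀ i, ContinuousOn (fun s => P s i) (Icc 0 1)) ∧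
      (∀ i, ContDiffOn ℝ 1 (fun s => P s i) (Ioo 0 1)) ∧
      (∀ i j, AntitoneOn (fun s => dist (P s i) (P s j)) (Icc 0 1)) ∧
      (∀ i, P 0 i = up (p i)) ∧ (∀ i, dist (P 1 i) z = r) ∧
      ∀ i j, Real.sinc (ρ / r) * dist (p i) (p j) ≤ dist (P 1 i) (P 1 j)) ∧
  (∀ (d N : ℕ) (q : Fin N → E d) (o : E d) (ρ r : ℝ), 0 < ρ → ρ ≤ r → (∀ i, ‖q i - o‖ ≤ ρ) →
    ∃ (Q : ℝ → Fin N → E (d + 2)) (z : E (d + 2)),
      (∀ i, ContinuousOn (fun s => Q s i) (Icc 0 1)) ∧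
      (∀ i, ContDiffOn ℝ 1 (fun s => Q s i) (Ioo 0 1)) ∧
      (∀ i j, AntitoneOn (fun s => dist (Q s i) (Q s j)) (Icc 0 1)) ∧
      (∀ i, Q 1 i = up (q i)) ∧ (∀ i, dist (Q 0 i) z = r) ∧
      ∀ i j, dist (Q 0 i) (Q 0 j) ≤ Real.arcsin (ρ / r) / (ρ / r) * dist (q i) (q j))

/-! ## Module XPlus -/

/-- From `JumpStmt`, `BendPathStmt`, `CircumStmt`, `CircumAppStmt`. `y = ρ / r ∈ (0, 1]`,
`c = sin (sin y) / y ≤ 1`. There is `o'` with `|q i - o'| ≤ c ρ =: ρ'` (`CircumStmt` for `q`, and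
`CircumAppStmt` (2)); if `ρ' = 0`... does not happen (`c > 0`). Apply `BendPathStmt` (1) to `p`,
(2) to `q`, `ρ'`: `arcsin (ρ'/r) = arcsin (sin (sin y)) = sin y`, so
`dist (Q 0 i) (Q 0 j) ≤ (sin y / (c y)) dist (q i) (q j) ≤ (sin y / y) dist (p i) (p j) ≤
dist (P 1 i) (P 1 j)`. -/
def XPlusStmt : Prop :=
  ∀ (d N : ℕ) (p q : Fin N → E d) (o : E d) (r ρ : ℝ), 0 < ρ → ρ ≤ r → (∀ i, ‖p i - o‖ ≤ ρ) →
    Contr (r / ρ * Real.sin (Real.sin (ρ / r))) p q → volume (body p r) ≤ volume (body q r)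

/-! ## Module Num -/

/-- Numerical inequalities. (1) `sin ∘ sin` is concave on `[0, 1]` and vanishes at `0`, so
`sin (sin y) / y` is antitone; at `y = 0.9632` it is `0.75980…` (`sin 0.9632 = 0.82103…`,
`sin 0.82103 = 0.73185…`, `0.759 · 0.9632 = 0.73106…`). (2): `1 - y² ≤ (1 - c y)²` iff
`2 c ≤ (1 + c²) y`, `2 · 0.759 / (1 + 0.759²) = 0.96315…`. -/
def NumStmt : Prop :=
  (∀ y : ℝ, 0 ≤ y → y ≤ 0.9632 → 0.759 * y ≤ Real.sin (Real.sin y)) ∧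
  (∀ y : ℝ, 0.9632 ≤ y → y ≤ 1 → √(1 - y ^ 2) ≤ 1 - 0.759 * y)

/-! ## Module Fact -/

/-- Contractions by the factor `0.759`. From `XPlusStmt`, `NumStmt`, `CircumStmt`, `CircumAppStmt`.
`c = 0.759`; `(o, R)` the circumscribed ball of `p`. `R > r`: `body p r = ∅`. `R = 0`: all `p_i` are
equal, hence all `q_i` (`N = 0` trivial), the volumes are equal. `y = R / r ≤ 0.9632`:
`XPlusStmt`. Otherwise `body p r ⊆ B(o, √(r² - R²))`, `B(o', r - c R) ⊆ body q r` with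
`|q_i - o'| ≤ c R`, and `√(r² - R²) ≤ r - c R`. -/
def FactStmt : Prop :=
  ∀ (d N : ℕ) (p q : Fin N → E d), Contr 0.759 p q → ∀ r : ℝ,
    volume (body p r) ≤ volume (body q r)

end Pool.Agent.Lib.MP_0c1c75_co.Jmp
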