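import Pool.Agent.Lib.MP_0c1c75_co.JmpUSpec
import Pool.Agent.Lib.MP_0c1c75_co.JmpBend

/-!
MP_0c1c75_co, module UCore (helper32): the two motions for arbitrary radii.
-/

open MeasureTheory Set Filter Topology
open scoped ContDiff

namespace Pool.Agent.Lib.MP_0c1c75_co.Jmp

namespace UCore

variable {d N : ℕ}

/-- the unit vector of the second coordinate -/
noncomputable def ve (d : ℕ) : E (d + 2) :=
  WithLp.toLp 2 (Fin.cons 0 (Fin.cons 1 (fun _ => 0) : Fin (d + 1) → ℝ) : Fin (d + 2) → ℝ)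

lemma ve0 : ve d 0 = 0 := rfl

lemma ve1 : ve d 1 = 1 := rfl

lemma ve2 (j : Fin d) : ve d j.succ.succ = 0 := rfl

lemma norm_comb (t : ℝ) (x : E d) : ‖t • ve d + up x‖ ^ 2 = t ^ 2 + ‖x‖ ^ 2 := by
  rw [Bend.norm_sq, EuclideanSpace.real_norm_sq_eq]
  simp only [PiLp.add_apply, PiLp.smul_apply, smul_eq_mul, ve0, ve1, ve2, Bend.up0, Bend.up1,
    Bend.up2]
  ring_nf

lemma up_add (x y : E d) : up (x + y) = up x + up y := by
  refine Bend.ext2 ?_ ?_ fun j => ?_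
  · simp [Bend.up0]
  · simp [Bend.up1]
  · simp [Bend.up2]

lemma up_smul (c : ℝ) (x : E d) : up (c • x) = c • up x := by
  refine Bend.ext2 ?_ ?_ fun j => ?_
  · simp [Bend.up0]
  · simp [Bend.up1]
  · simp [Bend.up2]

lemma up_sub (x y : E d) : up (x - y) = up x - up y := by
  have h := up_add (x - y) y
  rw [sub_add_cancel] at h
  rw [h]
  abel

/-- the moving points -/
noncomputable def mv (α β : ℝ → ℝ) (h : Fin N → ℝ) (p : Fin N → E d) (x : E d) (s : ℝ)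
    (i : Fin N) : E (d + 2) := (α s * h i) • ve d + β s • up (p i - x) + up x

lemma dist_mv (α β : ℝ → ℝ) (h : Fin N → ℝ) (p : Fin N → E d) (x : E d) (s : ℝ) (i j : Fin N) :
    dist (mv α β h p x s i) (mv α β h p x s j) ^ 2 =
      α s ^ 2 * (h i - h j) ^ 2 + β s ^ 2 * dist (p i) (p j) ^ 2 := by
  have e : mv α β h p x s i - mv α β h p x s j =
      (α s * (h i - h j)) • ve d + up (β s • (p i - p j)) := by
    have e1 : p i - p j = (p i - x) - (p j - x) := by abel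
    have e2 : ∀ a b : E d, (α s * h i) • ve d + β s • up a + up x -
        ((α s * h j) • ve d + β s • up b + up x) =
        (α s * (h i - h j)) • ve d + up (β s • (a - b)) := by
      intro a b
      rw [up_smul, up_sub, mul_sub, sub_smul, smul_sub]
      abel
    rw [e1]
    exact e2 _ _
  rw [dist_eq_norm, e, norm_comb, norm_smul, dist_eq_norm, Real.norm_eq_abs, mul_pow, mul_pow,
    sq_abs]

lemma dist_mv_ctr (α β : ℝ → ℝ) (h : Fin N → ℝ) (p : Fin N → E d) (x : E d) (s : ℝ) (i : Fin N) :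
    dist (mv α β h p x s i) (up x) ^ 2 =
      α s ^ 2 * h i ^ 2 + β s ^ 2 * ‖p i - x‖ ^ 2 := by
  have e : mv α β h p x s i - up x = (α s * h i) • ve d + up (β s • (p i - x)) := by
    unfold mv
    rw [up_smul]
    abel
  rw [dist_eq_norm, e, norm_comb, norm_smul, Real.norm_eq_abs, mul_pow, mul_pow, sq_abs]

lemma cont_mv (α β : ℝ → ℝ) (hα : Continuous α) (hβ : Continuous β) (h : Fin N → ℝ)
    (p : Fin N → E d) (x : E d) (i : Fin N) : Continuous (fun s => mv α β h p x s i) := by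
  unfold mv
  exact (((hα.mul continuous_const).smul continuous_const).add (hβ.smul continuous_const)).add
    continuous_const

lemma diff_mv (α β : ℝ → ℝ) {t : Set ℝ} (hα : ContDiffOn ℝ 1 α t) (hβ : ContDiffOn ℝ 1 β t)
    (h : Fin N → ℝ) (p : Fin N → E d) (x : E d) (i : Fin N) :
    ContDiffOn ℝ 1 (fun s => mv α β h p x s i) t := by
  unfold mv
  exact (((hα.mul contDiffOn_const).smul contDiffOn_const).add
    (hβ.smul contDiffOn_const)).add contDiffOn_const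

/-- the estimate for the heights: `A ≥ 0`, `h_i² = r_i² - A |p'_i|²`, `h_i ≥ B r_i` -/
lemma height {r₁ r₂ h₁ h₂ A D u₁ u₂ t T : ℝ} (hr₁ : 0 < r₁) (hr₂ : 0 < r₂)
    (hh₁ : h₁ ^ 2 = r₁ ^ 2 - A * u₁ ^ 2) (hh₂ : h₂ ^ 2 = r₂ ^ 2 - A * u₂ ^ 2) (hA : 0 ≤ A)
    (hD : 0 < D) (h₁D : D * r₁ ≤ h₁) (h₂D : D * r₂ ≤ h₂) (hu₁ : 0 ≤ u₁) (hu₂ : 0 ≤ u₂)
    {ν : ℝ} (hu₁r : u₁ ≤ ν * r₁) (hu₂r : u₂ ≤ ν * r₂)
    (hu : |u₁ - u₂| ≤ t) (hr : |r₁ - r₂| ≤ T) (ht : 0 ≤ t) :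
    |h₁ - h₂| * D ≤ T + A * ν * t := by
  have h1 : |h₁ - h₂| * (h₁ + h₂) = |(r₁ - r₂) * (r₁ + r₂) - A * ((u₁ - u₂) * (u₁ + u₂))| := by
    have hpos : 0 ≤ h₁ + h₂ := by nlinarith
    have h0 : |h₁ - h₂| * (h₁ + h₂) = |(h₁ - h₂) * (h₁ + h₂)| := by
      rw [abs_mul, abs_of_nonneg hpos]
    have h00 : (h₁ - h₂) * (h₁ + h₂) = (r₁ - r₂) * (r₁ + r₂) - A * ((u₁ - u₂) * (u₁ + u₂)) := by
      linear_combination hh₁ - hh₂
    rw [h0, h00]
  have h2 : |(r₁ - r₂) * (r₁ + r₂) - A * ((u₁ - u₂) * (u₁ + u₂))| ≤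
      T * (r₁ + r₂) + A * (t * (ν * (r₁ + r₂))) := by
    refine (abs_sub _ _).trans ?_
    rw [abs_mul, abs_mul, abs_mul, abs_of_pos (by linarith : 0 < r₁ + r₂), abs_of_nonneg hA,
      abs_of_nonneg (by linarith : 0 ≤ u₁ + u₂)]
    have h3 : |r₁ - r₂| * (r₁ + r₂) ≤ T * (r₁ + r₂) :=
      mul_le_mul_of_nonneg_right hr (by linarith)
    have h4 : |u₁ - u₂| * (u₁ + u₂) ≤ t * (ν * (r₁ + r₂)) :=
      mul_le_mul hu (by linarith) (by linarith) ht
    have h5 := mul_le_mul_of_nonneg_left h4 hA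
    linarith
  have h6 : |h₁ - h₂| * (D * (r₁ + r₂)) ≤ |h₁ - h₂| * (h₁ + h₂) :=
    mul_le_mul_of_nonneg_left (by linarith) (abs_nonneg _)
  have h7 : (|h₁ - h₂| * D) * (r₁ + r₂) ≤ (T + A * ν * t) * (r₁ + r₂) := by
    calc (|h₁ - h₂| * D) * (r₁ + r₂) = |h₁ - h₂| * (D * (r₁ + r₂)) := by ring
      _ ≤ _ := h6
      _ = _ := h1
      _ ≤ _ := h2
      _ = (T + A * ν * t) * (r₁ + r₂) := by ring
  exact le_of_mul_le_mul_right h7 (by linarith)

end UCore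

open UCore

theorem uCoreStmt (hJ : JumpStmt) : UCoreStmt := by
  intro d N p q r x o hr hp hq hpq hrq
  -- the heights
  set h : Fin N → ℝ := fun i => √(r i ^ 2 - 1 / 3 * ‖p i - x‖ ^ 2) with hh
  set k : Fin N → ℝ := fun i => √(r i ^ 2 - 1 * ‖q i - o‖ ^ 2) with hk
  have hpn : ∀ i, ‖p i - x‖ ^ 2 ≤ r i ^ 2 := fun i =>
    pow_le_pow_left₀ (norm_nonneg _) (hp i) 2
  have hqn : ∀ i, ‖q i - o‖ ^ 2 ≤ (r i / 3) ^ 2 := fun i =>
    pow_le_pow_left₀ (norm_nonneg _) (hq i) 2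
  have hr2 : ∀ i, 0 < r i ^ 2 := fun i => pow_pos (hr i) 2
  have hhsq : ∀ i, h i ^ 2 = r i ^ 2 - 1 / 3 * ‖p i - x‖ ^ 2 := fun i =>
    Real.sq_sqrt (by have := hpn i; have := hr2 i; linarith)
  have hksq : ∀ i, k i ^ 2 = r i ^ 2 - 1 * ‖q i - o‖ ^ 2 := fun i =>
    Real.sq_sqrt (by have := hqn i; have := hr2 i; nlinarith)
  have hhD : ∀ i, √(2 / 3) * r i ≤ h i := by
    intro i
    refine Real.le_sqrt_of_sq_le ?_
    rw [mul_pow, Real.sq_sqrt (by norm_num)]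
    have := hpn i
    linarith
  have hkD : ∀ i, √(8 / 9) * r i ≤ k i := by
    intro i
    refine Real.le_sqrt_of_sq_le ?_
    rw [mul_pow, Real.sq_sqrt (by norm_num)]
    have := hqn i
    nlinarith
  have habsp : ∀ i j, |‖p i - x‖ - ‖p j - x‖| ≤ dist (p i) (p j) := by
    intro i j
    have h1 := abs_norm_sub_norm_le (p i - x) (p j - x)
    rwa [sub_sub_sub_cancel_right, ← dist_eq_norm] at h1
  have habsq : ∀ i j, |‖q i - o‖ - ‖q j - o‖| ≤ dist (q i) (q j) := by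
    intro i j
    have h1 := abs_norm_sub_norm_le (q i - o) (q j - o)
    rwa [sub_sub_sub_cancel_right, ← dist_eq_norm] at h1
  have hH : ∀ i j, (h i - h j) ^ 2 ≤ 2 / 3 * dist (p i) (p j) ^ 2 := by
    intro i j
    have h1 := height (hr i) (hr j) (hhsq i) (hhsq j) (by norm_num) (Real.sqrt_pos.mpr (by norm_num))
      (hhD i) (hhD j) (norm_nonneg _) (norm_nonneg _) (by rw [one_mul]; exact hp i)
      (by rw [one_mul]; exact hp j) (habsp i j) (hrq i j) dist_nonneg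
    have h2 : |h i - h j| * √(2 / 3) ≤ 2 / 3 * dist (p i) (p j) := by
      have := hpq i j
      linarith
    have h3 := pow_le_pow_left₀ (by positivity) h2 2
    rw [mul_pow, Real.sq_sqrt (by norm_num), sq_abs] at h3
    nlinarith
  have hK : ∀ i j, (k i - k j) ^ 2 ≤ 2 * dist (q i) (q j) ^ 2 := by
    intro i j
    have h1 := height (ν := 1 / 3) (hr i) (hr j) (hksq i) (hksq j) zero_le_one
      (Real.sqrt_pos.mpr (by norm_num))
      (hkD i) (hkD j) (norm_nonneg _) (norm_nonneg _)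
      (by have := hq i; linarith) (by have := hq j; linarith) (habsq i j) (hrq i j) dist_nonneg
    have h2 : |k i - k j| * √(8 / 9) ≤ 4 / 3 * dist (q i) (q j) := by linarith
    have h3 := pow_le_pow_left₀ (by positivity) h2 2
    rw [mul_pow, Real.sq_sqrt (by norm_num), sq_abs] at h3
    nlinarith
  -- the functions of the time
  set a₁ : ℝ → ℝ := fun s => √s with ha₁
  set b₁ : ℝ → ℝ := fun s => √(1 - 2 / 3 * s) with hb₁
  set a₂ : ℝ → ℝ := fun s => √(1 - s) with ha₂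
  set b₂ : ℝ → ℝ := fun _ => 1 with hb₂
  have ca₁ : Continuous a₁ := Real.continuous_sqrt
  have cb₁ : Continuous b₁ := by fun_prop
  have ca₂ : Continuous a₂ := by fun_prop
  have cb₂ : Continuous b₂ := continuous_const
  have da₁ : ContDiffOn ℝ 1 a₁ (Ioo 0 1) := contDiffOn_id.sqrt fun s hs => hs.1.ne'
  have db₁ : ContDiffOn ℝ 1 b₁ (Ioo 0 1) :=
    (contDiffOn_const.sub (contDiffOn_const.mul contDiffOn_id)).sqrt fun s hs => by
      have := hs.2
      simp only [id]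
      linarith
  have da₂ : ContDiffOn ℝ 1 a₂ (Ioo 0 1) :=
    (contDiffOn_const.sub contDiffOn_id).sqrt fun s hs => by
      have := hs.2
      simp only [id]
      linarith
  have db₂ : ContDiffOn ℝ 1 b₂ (Ioo 0 1) := contDiffOn_const
  have sq1 : ∀ s ∈ Icc (0 : ℝ) 1, a₁ s ^ 2 = s ∧ b₁ s ^ 2 = 1 - 2 / 3 * s ∧ a₂ s ^ 2 = 1 - s := by
    intro s hs
    exact ⟨Real.sq_sqrt hs.1, Real.sq_sqrt (by linarith [hs.2]), Real.sq_sqrt (by linarith [hs.2])⟩
  have m0 : (0 : ℝ) ∈ Icc (0 : ℝ) 1 := ⟨le_rfl, zero_le_one⟩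
  have m1 : (1 : ℝ) ∈ Icc (0 : ℝ) 1 := ⟨zero_le_one, le_rfl⟩
  refine hJ d N p q r (mv a₁ b₁ h p x) (mv a₂ b₂ k q o) (up x) (up o)
    (fun i => (cont_mv a₁ b₁ ca₁ cb₁ h p x i).continuousOn)
    (fun i => diff_mv a₁ b₁ da₁ db₁ h p x i) ?_
    (fun i => (cont_mv a₂ b₂ ca₂ cb₂ k q o i).continuousOn)
    (fun i => diff_mv a₂ b₂ da₂ db₂ k q o i) ?_ ?_ ?_ ?_ ?_ ?_
  · intro i j s hs s' hs' hss
    refine (pow_le_pow_iff_left₀ dist_nonneg dist_nonneg two_ne_zero).mp ?_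
    simp only [dist_mv]
    rw [(sq1 s hs).1, (sq1 s hs).2.1, (sq1 s' hs').1, (sq1 s' hs').2.1]
    have h1 := mul_le_mul_of_nonneg_left (hH i j) (sub_nonneg.mpr hss)
    linarith
  · intro i j s hs s' hs' hss
    refine (pow_le_pow_iff_left₀ dist_nonneg dist_nonneg two_ne_zero).mp ?_
    simp only [dist_mv]
    rw [(sq1 s hs).2.2, (sq1 s' hs').2.2]
    have h1 := mul_nonneg (sub_nonneg.mpr hss) (sq_nonneg (k i - k j))
    linarith
  · intro i
    have e1 : a₁ 0 = 0 := Real.sqrt_zero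
    have e2 : b₁ 0 = 1 := by simp [hb₁]
    unfold mv
    rw [e1, e2, zero_mul, zero_smul, zero_add, one_smul, ← up_add, sub_add_cancel]
  · intro i
    have e1 : a₂ 1 = 0 := by simp [ha₂]
    unfold mv
    rw [e1, zero_mul, zero_smul, zero_add, one_smul, ← up_add, sub_add_cancel]
  · intro i
    refine (pow_left_inj₀ dist_nonneg (hr i).le two_ne_zero).mp ?_
    rw [dist_mv_ctr, (sq1 1 m1).1, (sq1 1 m1).2.1, hhsq]
    ring
  · intro i
    refine (pow_left_inj₀ dist_nonneg (hr i).le two_ne_zero).mp ?_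
    rw [dist_mv_ctr, (sq1 0 m0).2.2, hksq, hb₂]
    ring
  · intro i j
    refine (pow_le_pow_iff_left₀ dist_nonneg dist_nonneg two_ne_zero).mp ?_
    rw [dist_mv, dist_mv, (sq1 1 m1).1, (sq1 1 m1).2.1, (sq1 0 m0).2.2, hb₂]
    have h1 := hK i j
    have h2 := pow_le_pow_left₀ (by positivity) (hpq i j) 2
    have h3 := sq_nonneg (h i - h j)
    nlinarith

end Pool.Agent.Lib.MP_0c1c75_co.Jmp
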