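import Pool.Agent.Lib.MP_0c1c75_co.JmpUSpec

/-!
MP_0c1c75_co, module URed (helper32): contractions by the factor `1/3`, arbitrary radii.
-/

open MeasureTheory Set Metric

namespace Pool.Agent.Lib.MP_0c1c75_co.Jmp

namespace URed

variable {d N : ℕ}

/-- deleting a redundant ball -/
lemma delete (p q : Fin (N + 1) → E d) (r : Fin (N + 1) → ℝ) (i j : Fin (N + 1)) (hij : i ≠ j)
    (hdist : dist (q i) (q j) ≤ r i - r j)
    (h : volume (⋂ k, closedBall (p (i.succAbove k)) (r (i.succAbove k))) ≤
      volume (⋂ k, closedBall (q (i.succAbove k)) (r (i.succAbove k)))) :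
    volume (⋂ k, closedBall (p k) (r k)) ≤ volume (⋂ k, closedBall (q k) (r k)) := by
  have h1 : (⋂ k, closedBall (p k) (r k)) ⊆
      ⋂ k, closedBall (p (i.succAbove k)) (r (i.succAbove k)) := fun y hy =>
    mem_iInter.mpr fun k => mem_iInter.mp hy _
  have h2 : (⋂ k, closedBall (q (i.succAbove k)) (r (i.succAbove k))) ⊆
      ⋂ k, closedBall (q k) (r k) := by
    intro y hy
    rw [mem_iInter] at hy ⊢
    have h3 : ∀ k, k ≠ i → y ∈ closedBall (q k) (r k) := by
      intro k hk
      obtain ⟨k', hk'⟩ := Fin.exists_succAbove_eq hk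
      rw [← hk']
      exact hy k'
    intro k
    by_cases hk : k = i
    · rw [hk, mem_closedBall]
      have h4 := h3 j hij.symm
      rw [mem_closedBall] at h4
      have h5 := dist_triangle y (q j) (q i)
      rw [dist_comm (q j) (q i)] at h5
      linarith
    · exact h3 k hk
  exact (measure_mono h1).trans (h.trans (measure_mono h2))

/-- a radius which is not positive -/
lemma nonpos (hd : 0 < d) (p : Fin N → E d) (r : Fin N → ℝ) (i : Fin N) (hi : r i ≤ 0) :
    volume (⋂ k, closedBall (p k) (r k)) = 0 := by
  have hne : Nonempty (Fin d) := ⟨⟨0, hd⟩⟩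
  have h1 : (⋂ k, closedBall (p k) (r k)) ⊆ {p i} := by
    intro y hy
    have h2 := mem_iInter.mp hy i
    rw [mem_closedBall] at h2
    exact dist_le_zero.mp (h2.trans hi)
  exact measure_mono_null h1 (measure_singleton _)

end URed

open URed

theorem uStmt (hU : UCoreStmt) (hK : KirStmt) : UStmt := by
  intro d N
  induction N with
  | zero =>
    intro p q r _
    have : p = q := by
      funext i
      exact i.elim0
    rw [this]
  | succ N ih =>
    intro p q r hpq
    rcases Nat.eq_zero_or_pos d with hd0 | hd
    · subst hd0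
      have : p = q := Subsingleton.elim _ _
      rw [this]
    by_cases hred : ∃ i j, i ≠ j ∧ dist (q i) (q j) ≤ r i - r j
    · obtain ⟨i, j, hij, hdist⟩ := hred
      exact delete p q r i j hij hdist (ih (fun k => p (i.succAbove k))
        (fun k => q (i.succAbove k)) (fun k => r (i.succAbove k)) fun a b => hpq _ _)
    push Not at hred
    have habs : ∀ i j, |r i - r j| ≤ dist (q i) (q j) := by
      intro i j
      by_cases hij : i = j
      · rw [hij, sub_self, abs_zero]
        exact dist_nonneg
      · rw [abs_le]
        have h1 := hred i j hij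
        have h2 := hred j i (Ne.symm hij)
        rw [dist_comm (q j) (q i)] at h2
        constructor <;> linarith
    by_cases hpos : ∀ i, 0 < r i
    · rcases (⋂ i, closedBall (p i) (r i)).eq_empty_or_nonempty with hemp | ⟨x, hx⟩
      · rw [hemp, measure_empty]
        exact zero_le
      · have hc : Contr 1 p (fun i => (3 : ℝ) • q i) := by
          intro i j
          rw [dist_smul₀, Real.norm_eq_abs, abs_of_pos (by norm_num : (0 : ℝ) < 3)]
          have := hpq i j
          linarith
        obtain ⟨o', ho'⟩ := hK d (N + 1) hd (Nat.succ_pos _) p (fun i => (3 : ℝ) • q i) hc x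
        have hx' : ∀ i, ‖p i - x‖ ≤ r i := by
          intro i
          have h1 := mem_iInter.mp hx i
          rw [mem_closedBall, dist_comm, dist_eq_norm] at h1
          exact h1
        refine hU d (N + 1) p q r x ((1 / 3 : ℝ) • o') hpos hx' (fun i => ?_) (fun i j => ?_) habs
        · have h1 : q i - (1 / 3 : ℝ) • o' = (1 / 3 : ℝ) • ((3 : ℝ) • q i - o') := by
            rw [smul_sub, smul_smul]
            norm_num
          rw [h1, norm_smul, Real.norm_eq_abs, abs_of_pos (by norm_num : (0 : ℝ) < 1 / 3)]
          have h2 := (ho' i).trans (hx' i)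
          linarith
        · have := hpq i j
          linarith
    · push Not at hpos
      obtain ⟨i, hi⟩ := hpos
      rw [nonpos hd p r i hi]
      exact zero_le

end Pool.Agent.Lib.MP_0c1c75_co.Jmp
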