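import Mathlib
import Pool.Agent.Lib.MP_0c1c75_co.Spec

set_option autoImplicit false

/-!
Elementary facts on the volume radius.
-/

open MeasureTheory Set Metric
open scoped Pointwise

namespace Pool.Agent.Lib.MP_0c1c75_co

namespace VrBasic

lemma ball_pos (d : ℕ) : 0 < (volume (ball (0 : E d) 1)).toReal :=
  ENNReal.toReal_pos (measure_ball_pos volume 0 one_pos).ne' measure_ball_lt_top.ne

lemma fr (d : ℕ) : Module.finrank ℝ (E d) = d := by simp

lemma pow_root {d : ℕ} (hd : 0 < d) {x : ℝ} (hx : 0 ≤ x) : (x ^ d) ^ ((1 : ℝ) / d) = x := by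
  rw [one_div]
  exact Real.pow_rpow_inv_natCast hx hd.ne'

lemma root_pow {d : ℕ} (hd : 0 < d) {x : ℝ} (hx : 0 ≤ x) : (x ^ ((1 : ℝ) / d)) ^ d = x := by
  rw [one_div]
  exact Real.rpow_inv_natCast_pow hx hd.ne'

end VrBasic

open VrBasic in
theorem vrBasicStmt : VrBasicStmt := by
  intro d hd
  have hV := ball_pos d
  refine ⟨?_, ?_, ?_, ?_, ?_, ?_⟩
  · intro A B hAB hB
    unfold vr
    apply Real.rpow_le_rpow (by positivity) _ (by positivity)
    exact div_le_div_of_nonneg_right (ENNReal.toReal_mono hB (measure_mono hAB)) hV.le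
  · intro x r hr
    unfold vr
    rw [Measure.addHaar_closedBall volume x hr, fr, ENNReal.toReal_mul,
      ENNReal.toReal_ofReal (by positivity), mul_div_assoc, div_self hV.ne', mul_one]
    exact pow_root hd hr
  · intro c A hc
    unfold vr
    rw [Measure.addHaar_smul, fr, ENNReal.toReal_mul, ENNReal.toReal_ofReal (abs_nonneg _),
      abs_of_nonneg (by positivity), mul_div_assoc, Real.mul_rpow (by positivity) (by positivity),
      pow_root hd hc]
  · intro A
    unfold vr
    positivity
  · intro A
    unfold vr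
    rw [root_pow hd (by positivity), mul_div_cancel₀ _ hV.ne']
  · intro A x
    unfold vr
    rw [image_add_left, measure_preimage_add]

end Pool.Agent.Lib.MP_0c1c75_co
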