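import Pool.Agent.Lib.MP_0c1c75_co.Final4

/-!
Kneser-Poulsen conjecture for intersections of congruent balls: uniform contractions.
-/

open MeasureTheory

namespace Pool.Agent.Lib.MP_0c1c75_co.OldUniform

/-- Uniform contractions: thresholds `N₀ 3 = 0` and `N₀ d ≤ (√e + ε)^d` for large `d`. -/
theorem result : ∃ N₀ : ℕ → ℕ, N₀ 3 = 0 ∧
    (∀ ε : ℝ, 0 < ε → ∀ᶠ d : ℕ in Filter.atTop,
      (N₀ d : ℝ) ≤ (Real.sqrt (Real.exp 1) + ε) ^ d) ∧
    ∀ (d N : ℕ), N₀ d ≤ N → ∀ (p q : Fin N → EuclideanSpace ℝ (Fin d)) (L : ℝ),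
      (∀ i j, i ≠ j → dist (q i) (q j) ≤ L ∧ L ≤ dist (p i) (p j)) →
      ∀ r : ℝ, volume (⋂ i, Metric.closedBall (p i) r) ≤
        volume (⋂ i, Metric.closedBall (q i) r) := by
  refine ⟨Lib.MP_0c1c75_co.Final4.N0, ?_, ?_, ?_⟩
  · simp [Lib.MP_0c1c75_co.Final4.N0]
  · intro ε hε
    exact Lib.MP_0c1c75_co.Final4.eventually_le hε
  · intro d N hN p q L huni r
    exact Lib.MP_0c1c75_co.Final4.N0_good d N hN p q L huni r

end Pool.Agent.Lib.MP_0c1c75_co.OldUniform
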