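import Pool.Agent.Lib.MP_0c1c75_co.Spec3

set_option autoImplicit false

open MeasureTheory Set Metric

namespace Pool.Agent.Lib.MP_0c1c75_co

namespace Seg

theorem real_aux {N : ℕ} (l x : Fin N → ℝ) (a b : ℝ) (hl : ∀ i, 0 ≤ l i) (hs : ∑ i, l i = 1)
    (hx : ∑ i, l i * x i = 0) (ha : ∀ i, x i ≤ a) (hb : ∀ i, -x i ≤ b) :
    2 * ∑ i, l i * |x i| ≤ a + b := by
  have ha0 : 0 ≤ a := by
    have h1 : ∑ i, l i * x i ≤ ∑ i, l i * a :=
      Finset.sum_le_sum fun i _ => mul_le_mul_of_nonneg_left (ha i) (hl i)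
    rw [hx, ← Finset.sum_mul, hs, one_mul] at h1
    exact h1
  have hb0 : 0 ≤ b := by
    have h1 : ∑ i, l i * (-x i) ≤ ∑ i, l i * b :=
      Finset.sum_le_sum fun i _ => mul_le_mul_of_nonneg_left (hb i) (hl i)
    have h2 : ∑ i, l i * (-x i) = 0 := by
      rw [← neg_zero, ← hx, ← Finset.sum_neg_distrib]
      exact Finset.sum_congr rfl fun i _ => by ring
    rw [h2, ← Finset.sum_mul, hs, one_mul] at h1
    exact h1
  have hpt : ∀ i, (a + b) * |x i| ≤ 2 * a * b + x i * (a - b) := by
    intro i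
    rcases le_total 0 (x i) with h | h
    · rw [abs_of_nonneg h]
      nlinarith [mul_le_mul_of_nonneg_right (ha i) hb0]
    · rw [abs_of_nonpos h]
      nlinarith [mul_le_mul_of_nonneg_left (hb i) ha0]
  have hsum : (a + b) * ∑ i, l i * |x i| ≤ 2 * a * b := by
    calc (a + b) * ∑ i, l i * |x i| = ∑ i, l i * ((a + b) * |x i|) := by
          rw [Finset.mul_sum]
          exact Finset.sum_congr rfl fun i _ => by ring
      _ ≤ ∑ i, l i * (2 * a * b + x i * (a - b)) :=
          Finset.sum_le_sum fun i _ => mul_le_mul_of_nonneg_left (hpt i) (hl i)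
      _ = (∑ i, l i) * (2 * a * b) + (∑ i, l i * x i) * (a - b) := by
          rw [Finset.sum_mul, Finset.sum_mul, ← Finset.sum_add_distrib]
          exact Finset.sum_congr rfl fun i _ => by ring
      _ = 2 * a * b := by rw [hs, hx]; ring
  rcases eq_or_lt_of_le (add_nonneg ha0 hb0) with h | h
  · have ha' : a = 0 := by linarith
    have hb' : b = 0 := by linarith
    have hx0 : ∀ i, |x i| = 0 := by
      intro i
      have h1 := ha i
      have h2 := hb i
      rw [abs_eq_zero]
      linarith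
    rw [← h]
    simp [hx0]
  · by_contra hcon
    push Not at hcon
    nlinarith [mul_lt_mul_of_pos_left hcon h, sq_nonneg (a - b)]

/-- the average of `|<v, x/|x|>|` -/
noncomputable def av {d : ℕ} (v : E d) : ℝ := ⨍ x in ball (0 : E d) 1, |inner ℝ v (‖x‖⁻¹ • x)|

theorem norm_dir_le {d : ℕ} (x : E d) : ‖‖x‖⁻¹ • x‖ ≤ 1 := by
  rw [norm_smul, norm_inv, norm_norm]
  rcases eq_or_ne ‖x‖ 0 with h | h
  · rw [h]; simp
  · rw [inv_mul_cancel₀ h]

theorem integ {d : ℕ} (v : E d) :
    IntegrableOn (fun x : E d => |inner ℝ v (‖x‖⁻¹ • x)|) (ball 0 1) := by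
  refine Measure.integrableOn_of_bounded (M := ‖v‖) measure_ball_lt_top.ne ?_ ?_
  · apply Measurable.aestronglyMeasurable
    have h1 : Measurable (fun x : E d => ‖x‖⁻¹ • x) := measurable_norm.inv.smul measurable_id
    have h2 : Measurable (fun x : E d => (inner ℝ v (‖x‖⁻¹ • x) : ℝ)) := measurable_const.inner h1
    exact h2.abs
  · refine Filter.Eventually.of_forall fun x => ?_
    rw [Real.norm_eq_abs, abs_abs]
    calc |inner ℝ v (‖x‖⁻¹ • x)| ≤ ‖v‖ * ‖‖x‖⁻¹ • x‖ := abs_real_inner_le_norm _ _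
      _ ≤ ‖v‖ * 1 := mul_le_mul_of_nonneg_left (norm_dir_le x) (norm_nonneg _)
      _ = ‖v‖ := mul_one _

theorem av_eq_of_norm_eq {d : ℕ} (v w : E d) (h : ‖v‖ = ‖w‖) : av v = av w := by
  obtain ⟨φ, hvw⟩ : ∃ φ : E d ≃ₗᵢ[ℝ] E d, φ v = w :=
    ⟨((ℝ ∙ (v - w))ᗮ).reflection, Submodule.reflection_sub h⟩
  have hmp : MeasurePreserving (φ : E d → E d) volume volume := φ.measurePreserving
  have hemb : MeasurableEmbedding (φ : E d → E d) := φ.toHomeomorph.measurableEmbedding
  have hpre : (φ : E d → E d) ⁻¹' (ball (0 : E d) 1) = ball (0 : E d) 1 := by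
    ext x
    simp only [Set.mem_preimage, mem_ball_zero_iff]
    rw [LinearIsometryEquiv.norm_map]
  have key := hmp.setIntegral_preimage_emb hemb (fun y : E d => |inner ℝ w (‖y‖⁻¹ • y)|)
    (ball (0 : E d) 1)
  rw [hpre] at key
  have hfun : (fun x : E d => |inner ℝ w (‖φ x‖⁻¹ • φ x)|) =
      fun x : E d => |inner ℝ v (‖x‖⁻¹ • x)| := by
    funext x
    rw [LinearIsometryEquiv.norm_map, ← hvw, ← map_smul, LinearIsometryEquiv.inner_map_map]
  rw [hfun] at key
  unfold av
  rw [setAverage_eq, setAverage_eq, key]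

theorem av_smul {d : ℕ} (c : ℝ) (hc : 0 ≤ c) (v : E d) : av (c • v) = c * av v := by
  unfold av
  rw [setAverage_eq, setAverage_eq]
  have : (fun x : E d => |inner ℝ (c • v) (‖x‖⁻¹ • x)|) =
      fun x : E d => c * |inner ℝ v (‖x‖⁻¹ • x)| := by
    funext x
    rw [real_inner_smul_left, abs_mul, abs_of_nonneg hc]
  rw [this, integral_const_mul, smul_eq_mul, smul_eq_mul]
  ring

theorem av_eq {d : ℕ} (e v : E d) (he : ‖e‖ = 1) : av v = ‖v‖ * av e := by
  rw [← av_smul ‖v‖ (norm_nonneg v) e]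
  apply av_eq_of_norm_eq
  rw [norm_smul, he, norm_norm, mul_one]

end Seg

set_option linter.unusedVariables false in
open Seg in
theorem segStmt (hP : PolarStmt) (hH : HwBasicStmt) : SegStmt := by
  intro d N hd hN p l o R hl hl1 hlo hR hpR hlR e he
  set q : Fin N → E d := fun i => p i + (-o) with hq
  have hq' : ∀ i, q i = p i - o := fun i => (sub_eq_add_neg _ _).symm
  obtain ⟨hT, -, -, -, -, -, -, -⟩ := hH d N hd hN p
  obtain ⟨-, -, -, -, -, -, hInt, hneg⟩ := hH d N hd hN q
  have hhw : hw q = hw p := hT (-o)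
  rw [← hhw]
  have hq0 : ∑ i, l i • q i = 0 := by
    have : ∑ i, l i • q i = ∑ i, (l i • p i + l i • (-o)) :=
      Finset.sum_congr rfl fun i _ => by rw [hq]; exact smul_add _ _ _
    rw [this, Finset.sum_add_distrib, hlo, ← Finset.sum_smul, hl1, one_smul, add_neg_cancel]
  have hqR : ∀ i, ‖q i‖ ≤ R := fun i => by rw [hq' i]; exact hpR i
  have hqR2 : ∑ i, l i * ‖q i‖ ^ 2 = R ^ 2 := by
    rw [← hlR]
    exact Finset.sum_congr rfl fun i _ => by rw [hq' i]
  -- contact points
  have hcontact : ∀ i, l i * ‖q i‖ = l i * R := by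
    have hz : ∑ i, l i * (R ^ 2 - ‖q i‖ ^ 2) = 0 := by
      have : ∑ i, l i * (R ^ 2 - ‖q i‖ ^ 2) = (∑ i, l i) * R ^ 2 - ∑ i, l i * ‖q i‖ ^ 2 := by
        rw [Finset.sum_mul, ← Finset.sum_sub_distrib]
        exact Finset.sum_congr rfl fun i _ => by ring
      rw [this, hl1, hqR2]; ring
    have hnn : ∀ i ∈ Finset.univ, 0 ≤ l i * (R ^ 2 - ‖q i‖ ^ 2) := by
      intro i _
      apply mul_nonneg (hl i)
      have := pow_le_pow_left₀ (norm_nonneg (q i)) (hqR i) 2
      linarith
    have hall := (Finset.sum_eq_zero_iff_of_nonneg hnn).1 hz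
    intro i
    rcases mul_eq_zero.1 (hall i (Finset.mem_univ i)) with h | h
    · rw [h]; simp
    · have h1 : ‖q i‖ = R := by
        have h2 : ‖q i‖ ^ 2 = R ^ 2 := by linarith
        exact (pow_left_inj₀ (norm_nonneg _) hR (by norm_num)).1 h2
      rw [h1]
  -- pointwise inequality
  have hpt : ∀ u : E d, 2 * ∑ i, l i * |inner ℝ (q i) u| ≤ hs q u + hs q (-u) := by
    intro u
    apply real_aux l (fun i => inner ℝ (q i) u) _ _ hl hl1
    · have : ∑ i, l i * inner ℝ (q i) u = inner ℝ (∑ i, l i • q i) u := by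
        rw [sum_inner]
        exact Finset.sum_congr rfl fun i _ => by rw [real_inner_smul_left]
      rw [this, hq0, inner_zero_left]
    · intro i
      exact le_ciSup (f := fun i => (inner ℝ (q i) u : ℝ)) (Set.finite_range _).bddAbove i
    · intro i
      rw [← inner_neg_right]
      exact le_ciSup (f := fun i => (inner ℝ (q i) (-u) : ℝ)) (Set.finite_range _).bddAbove i
  -- integrate
  have hvol : 0 < volume.real (ball (0 : E d) 1) := by
    rw [measureReal_def]
    exact ENNReal.toReal_pos (measure_ball_pos volume 0 one_pos).ne' measure_ball_lt_top.ne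
  have hIntneg : IntegrableOn (fun x : E d => hs q (-(‖x‖⁻¹ • x))) (ball 0 1) := by
    have hmp : MeasurePreserving (fun x : E d => -x) volume volume :=
      Measure.measurePreserving_neg volume
    have hemb : MeasurableEmbedding (fun x : E d => -x) :=
      (Homeomorph.neg (E d)).measurableEmbedding
    have h1 := (hmp.integrableOn_comp_preimage hemb
      (f := fun x : E d => hs q (‖x‖⁻¹ • x)) (s := ball 0 1)).2 hInt
    have hpre : (fun x : E d => -x) ⁻¹' (ball (0 : E d) 1) = ball (0 : E d) 1 := by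
      ext x
      simp
    rw [hpre] at h1
    refine h1.congr_fun (fun x _ => ?_) measurableSet_ball
    simp
  have hle : ∫ x in ball (0 : E d) 1, 2 * ∑ i, l i * |inner ℝ (q i) (‖x‖⁻¹ • x)| ≤
      ∫ x in ball (0 : E d) 1, (hs q (‖x‖⁻¹ • x) + hs q (-(‖x‖⁻¹ • x))) := by
    apply integral_mono
    · refine Integrable.const_mul ?_ 2
      refine integrable_finsetSum _ fun i _ => ?_
      exact (integ (q i)).const_mul (l i)
    · exact hInt.add hIntneg
    · intro x
      exact hpt _
  rw [integral_add hInt hIntneg, integral_const_mul, integral_finsetSum _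
    (fun i _ => (integ (q i)).const_mul (l i))] at hle
  have hav : ∀ v : E d, ∫ x in ball (0 : E d) 1, |inner ℝ v (‖x‖⁻¹ • x)| =
      volume.real (ball (0 : E d) 1) * av v := by
    intro v
    unfold av
    rw [setAverage_eq, smul_eq_mul, ← mul_assoc, mul_inv_cancel₀ hvol.ne', one_mul]
  have hhs1 : ∫ x in ball (0 : E d) 1, hs q (‖x‖⁻¹ • x) =
      volume.real (ball (0 : E d) 1) * hw q := by
    unfold hw
    rw [setAverage_eq, smul_eq_mul, ← mul_assoc, mul_inv_cancel₀ hvol.ne', one_mul]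
  have hhs2 : ∫ x in ball (0 : E d) 1, hs q (-(‖x‖⁻¹ • x)) =
      volume.real (ball (0 : E d) 1) * hw q := by
    rw [← hneg, setAverage_eq, smul_eq_mul, ← mul_assoc, mul_inv_cancel₀ hvol.ne', one_mul]
  rw [hhs1, hhs2] at hle
  have hsum : ∑ i, ∫ x in ball (0 : E d) 1, l i * |inner ℝ (q i) (‖x‖⁻¹ • x)| =
      volume.real (ball (0 : E d) 1) * (R * av e) := by
    have h1 : ∀ i ∈ Finset.univ, ∫ x in ball (0 : E d) 1, l i * |inner ℝ (q i) (‖x‖⁻¹ • x)| =
        l i * (volume.real (ball (0 : E d) 1) * (R * av e)) := by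
      intro i _
      rw [integral_const_mul, hav, av_eq e (q i) he]
      have := hcontact i
      calc l i * (volume.real (ball (0 : E d) 1) * (‖q i‖ * av e)) =
          (l i * ‖q i‖) * (volume.real (ball (0 : E d) 1) * av e) := by ring
        _ = (l i * R) * (volume.real (ball (0 : E d) 1) * av e) := by rw [this]
        _ = _ := by ring
    rw [Finset.sum_congr rfl h1, ← Finset.sum_mul, hl1, one_mul]
  rw [hsum] at hle
  have hfin : volume.real (ball (0 : E d) 1) * (R * av e) ≤
      volume.real (ball (0 : E d) 1) * hw q := by linarith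
  exact le_of_mul_le_mul_left hfin hvol

end Pool.Agent.Lib.MP_0c1c75_co
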