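import Pool.Agent.Lib.MP_0c1c75_co.Spec

/-!
MP_0c1c75_co: the parts of `RealStmt` (real variable part of Theorem 3).
-/

open MeasureTheory Set Metric

namespace Pool.Agent.Lib.MP_0c1c75_co

/-- the weight `A` -/
noncomputable def Afun (d : ℕ) (r f y : ℝ) : ℝ :=
  (max (1 + y / f) 0) ^ d * (1 + y / r) *
    Real.exp (-((d : ℝ) / (2 * r * f)) * (2 * r * y + y ^ 2))

/-- Integrals of the weight. Proofs (constants may be huge; `A = Afun d r f`):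
(i) `(1 + x)_+ ≤ exp x` for `x = y/f` and `x = y/r`; note `y/r - d y^2/(2 r f) ≤ y/r - d y^2/(2 r^2)
    ≤ 1/d - d y^2/(4 r^2)`, so `A y ≤ 2 exp (-d y^2 / (4 r^2))`.
(ii) integrability from (i).
(iii) for `0 ≤ y ≤ r/√d` one has `A y ≥ exp (-d y^2/(2f^2) - d y^2/(2 r f)) ≥ exp (-4)`, from
    `log (1 + x) ≥ x - x^2/2` for `x ≥ 0`. So `∫ A ≥ exp (-4) r / √d`; the interval is `≤ f` if
    `r / √d ≤ f`; in general use `0 ≤ y ≤ r / (2 √d) ≤ f`. As `∫ A ≤ C r / √d` by (i), (iv) follows.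
(v) `∫ |y| exp (-d y^2/(4 r^2)) = 4 r^2 / d`.
(vi) `d η ≤ √d`; the integrand is at most `(2 d η y / r) * 2 exp (2 √d y/r - d y^2/(4 r^2))`.
(vii) on `(-r, -r/2]`: `-y/f ≤ 2`, `d y^2/(2 r f) ≥ d/8`, so the left side is at most
    `r^2 (2 d / r^2) exp (2 - d/8) (r/2) ≤ C r`. -/
def RealAStmt : Prop :=
  ∃ C : ℝ, 0 < C ∧ ∀ (d : ℕ) (r f : ℝ), 2 ≤ d → 8 ≤ r → r / 2 ≤ f → f ≤ r →
    (∀ y, -r ≤ y → 0 ≤ Afun d r f y ∧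
      Afun d r f y ≤ Real.exp (y / r - d * y ^ 2 / (2 * r * f))) ∧
    IntegrableOn (Afun d r f) (Ioi (-r)) ∧
    IntegrableOn (fun y => |y| * Afun d r f y) (Ioi (-r)) ∧
    r ≤ C * (Real.sqrt d * ∫ y in Ioi (-r), Afun d r f y) ∧
    ∫ y in Ioi (-r), Afun d r f y ≤ C * ∫ y in Ioc (-r) f, Afun d r f y ∧
    Real.sqrt d * ∫ y in Ioi (-r), |y| * Afun d r f y ≤
      C * (r * ∫ y in Ioi (-r), Afun d r f y) ∧
    (∀ η : ℝ, 0 ≤ η → Real.sqrt d * η ≤ 1 →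
      IntegrableOn (fun y => d * η * y / f * Real.exp (d * η * y / f) * Afun d r f y) (Ioi 0) ∧
      ∫ y in Ioi (0 : ℝ), d * η * y / f * Real.exp (d * η * y / f) * Afun d r f y ≤
        C * (Real.sqrt d * η * ∫ y in Ioi (-r), Afun d r f y)) ∧
    r ^ 2 * ∫ y in Ioc (-r) (-r / 2), (d : ℝ) / (f * r) * Real.exp (-y / f - d * y ^ 2 / (2 * r * f)) ≤
      C * (Real.sqrt d * ∫ y in Ioi (-r), Afun d r f y)

/-- Slopes of the volume radius. `h` is `f` or `g` of `RealStmt`. Proofs: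
(a) the slope between `ρ ≥ 4` and any `σ > ρ` is at most the slope between `ρ/2` and `ρ`, which is
    `≤ (ρ - B - (√(ρ^2/4 - 1) - B)) / (ρ/2) = 2 - √(1 - 4/ρ^2) ≤ 1 + 4/ρ^2`
    (the argument needs `ρ/2 ≥ 1` only, so it works for `ρ ≥ 2`, which is used in (b)).
(b) slope between `r' = r + y ≥ r/2 ≥ 2` and `r` is at most `1 + 4/r'^2 ≤ 1 + 16/r^2`.
(c) `h r' ≥ √(r'^2-1) - B ≥ r' - 1/r' - B` and `h r ≤ r - B`.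
(d) `B ≤ 1` because `0 ≤ h 1 ≤ 1 - B`; `h r ≥ √(r^2-1) - B`. -/
def RealBStmt : Prop :=
  ∀ (h : ℝ → ℝ) (B : ℝ), (∀ r, 0 ≤ h r) →
    (∀ r r' t : ℝ, 1 ≤ r → 1 ≤ r' → 0 ≤ t → t ≤ 1 →
      (1 - t) * h r + t * h r' ≤ h ((1 - t) * r + t * r')) →
    (∀ r e : ℝ, 1 ≤ r → 0 ≤ e → h r + e ≤ h (r + e)) →
    0 ≤ B → (∀ r, 1 ≤ r → h r ≤ r - B ∧ Real.sqrt (r ^ 2 - 1) - B ≤ h r) →
    (∀ r, 4 ≤ r → r - 2 ≤ h r ∧ h r ≤ r ∧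
      (∀ y, 0 ≤ y → h r + y ≤ h (r + y) ∧ h (r + y) ≤ h r + y + 16 / r ^ 2 * y) ∧
      (∀ y, -r / 2 ≤ y → y ≤ 0 → h r + y - 16 / r ^ 2 * |y| ≤ h (r + y)) ∧
      (∀ y, 1 ≤ r + y → h r + y - 1 / (r + y) ≤ h (r + y))) ∧
    ((∀ r r' t : ℝ, 0 ≤ r → 0 < h r → 1 ≤ r' → 0 ≤ t → t ≤ 1 →
        (1 - t) * h r + t * h r' ≤ h ((1 - t) * r + t * r')) →
      ∀ r y, 1 ≤ r → y ≤ 0 → 0 ≤ r + y → 0 < h (r + y) → h (r + y) ≤ h r + y)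

end Pool.Agent.Lib.MP_0c1c75_co
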