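import Pool.Agent.Lib.MP_0c1c75_co.Spec

/-!
MP_0c1c75_co: Theorem 1.
-/

open MeasureTheory Set Metric

namespace Pool.Agent.Lib.MP_0c1c75_co

/-- circumradius -/
noncomputable def circ {d N : ℕ} (p : Fin N → E d) : ℝ :=
  sInf {R : ℝ | 0 ≤ R ∧ ∃ o : E d, ∀ i, ‖p i - o‖ ≤ R}

namespace Thm1

lemma core {r R ρ B b fP fQ : ℝ} (hR : 0 < R) (hρ0 : 0 ≤ ρ) (hρ : ρ ≤ R) (hr : R ≤ r)
    (hcrit : ρ ^ 2 * B + R ^ 2 * b ≤ R ^ 2 * B) (h1 : Real.sqrt (r ^ 2 - ρ ^ 2) - b ≤ fQ)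
    (h2 : fP ≤ Real.sqrt (r ^ 2 - R ^ 2)) (h3 : fP ≤ r - B) : fP ≤ fQ := by
  by_contra hcon
  push Not at hcon
  set s := Real.sqrt (r ^ 2 - ρ ^ 2) with hs
  set t := Real.sqrt (r ^ 2 - R ^ 2) with ht
  have hs2 : s ^ 2 = r ^ 2 - ρ ^ 2 := Real.sq_sqrt (by nlinarith)
  have ht2 : t ^ 2 = r ^ 2 - R ^ 2 := Real.sq_sqrt (by nlinarith)
  have hs0 : 0 ≤ s := Real.sqrt_nonneg _
  have ht0 : 0 ≤ t := Real.sqrt_nonneg _
  have hts : t ≤ s := Real.sqrt_le_sqrt (by nlinarith)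
  have hsr : s ≤ r := by
    rw [hs]
    exact Real.sqrt_le_iff.mpr ⟨by linarith, by nlinarith⟩
  have hrs : 0 < r + s := by linarith
  have hb : s - t < b := by linarith
  have hBb : B - b < r - s := by linarith
  have e1 : R ^ 2 - ρ ^ 2 < b * (r + s) := by
    have : R ^ 2 - ρ ^ 2 = (s - t) * (s + t) := by nlinarith
    rw [this]
    have h4 : (s - t) * (s + t) ≤ (s - t) * (r + s) :=
      mul_le_mul_of_nonneg_left (by linarith) (by linarith)
    have h5 : (s - t) * (r + s) < b * (r + s) := mul_lt_mul_of_pos_right hb hrs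
    linarith
  have e2 : (B - b) * (r + s) < ρ ^ 2 := by
    have h5 : (B - b) * (r + s) < (r - s) * (r + s) := mul_lt_mul_of_pos_right hBb hrs
    nlinarith
  have hRρ : 0 ≤ R ^ 2 - ρ ^ 2 := by nlinarith
  have e3 : (R ^ 2 - ρ ^ 2) * ((B - b) * (r + s)) < ρ ^ 2 * (b * (r + s)) := by
    rcases hρ0.eq_or_lt with h0 | h0
    · have h6 : 0 < R ^ 2 - ρ ^ 2 := by rw [← h0]; nlinarith
      have h7 := mul_lt_mul_of_pos_left e2 h6
      rw [← h0] at h7 ⊢
      nlinarith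
    · have h7 := mul_le_mul_of_nonneg_left e2.le hRρ
      have h8 := mul_lt_mul_of_pos_left e1 (pow_pos h0 2)
      linarith
  have e4 : ((R ^ 2 - ρ ^ 2) * (B - b)) * (r + s) < (ρ ^ 2 * b) * (r + s) := by
    calc ((R ^ 2 - ρ ^ 2) * (B - b)) * (r + s) = (R ^ 2 - ρ ^ 2) * ((B - b) * (r + s)) := by ring
      _ < ρ ^ 2 * (b * (r + s)) := e3
      _ = _ := by ring
  have e5 := lt_of_mul_lt_mul_right e4 hrs.le
  nlinarith

lemma circ_eq (hCA : CircumAppStmt) {d N : ℕ} (hN : 0 < N) (p : Fin N → E d) (l : Fin N → ℝ)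
    (o : E d) (R : ℝ) (hl : ∀ i, 0 ≤ l i) (hl1 : ∑ i, l i = 1) (ho : ∑ i, l i • p i = o)
    (hR : 0 ≤ R) (hpo : ∀ i, ‖p i - o‖ ≤ R) (hRR : ∑ i, l i * ‖p i - o‖ ^ 2 = R ^ 2) :
    circ p = R := by
  apply le_antisymm
  · exact csInf_le ⟨0, fun x hx => hx.1⟩ ⟨hR, o, hpo⟩
  · refine le_csInf ⟨R, hR, o, hpo⟩ ?_
    rintro R1 ⟨hR1, o1, ho1⟩
    have h := (hCA d N hN).2 1 p p zero_le_one (fun i j => by rw [one_mul]) o1 o R1 R l hl hl1 ho
      hR hRR hR1 ho1
    simpa using h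

lemma volume_body_lt_top {d N : ℕ} (hN : 0 < N) (p : Fin N → E d) (r : ℝ) :
    volume (body p r) ≠ ⊤ := by
  have h1 : body p r ⊆ closedBall (p ⟨0, hN⟩) r := iInter_subset _ _
  exact (lt_of_le_of_lt (measure_mono h1) measure_closedBall_lt_top).ne

lemma volume_le_of_vr_le (hV : VrBasicStmt) {d N : ℕ} (hd : 0 < d) (hN : 0 < N)
    (p q : Fin N → E d) (r : ℝ) (h : vr (body p r) ≤ vr (body q r)) :
    volume (body p r) ≤ volume (body q r) := by
  rw [← ENNReal.toReal_le_toReal (volume_body_lt_top hN p r) (volume_body_lt_top hN q r)]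
  obtain ⟨_, _, _, h0, h5, _⟩ := hV d hd
  rw [h5 (body p r), h5 (body q r)]
  exact mul_le_mul_of_nonneg_left (pow_le_pow_left₀ (h0 _) h d) ENNReal.toReal_nonneg

/-- the criterion -/
theorem criterion (hC : CircumStmt) (hCA : CircumAppStmt) (hV : VrBasicStmt) (hU : UrysohnStmt)
    (hRad : RadialStmt) {d N : ℕ} (hd : 0 < d) (hN : 0 < N) (p q : Fin N → E d)
    (hp : 0 < circ p) (hqp : circ q ≤ circ p)
    (hcrit : circ q ^ 2 * hw p + circ p ^ 2 * hw q ≤ circ p ^ 2 * hw p) (r : ℝ) :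
    volume (body p r) ≤ volume (body q r) := by
  obtain ⟨l, o, R, hl, hl1, ho, hR, hpo, hRR⟩ := hC d N hN p
  obtain ⟨l', o', ρ, hl', hl1', ho', hρ, hqo, hρρ⟩ := hC d N hN q
  have hcp := circ_eq hCA hN p l o R hl hl1 ho hR hpo hRR
  have hcq := circ_eq hCA hN q l' o' ρ hl' hl1' ho' hρ hqo hρρ
  rw [hcp] at hp hqp hcrit
  rw [hcq] at hqp hcrit
  rcases lt_or_ge r R with hr | hr
  · rw [((hCA d N hN).1 p l o R hl hl1 ho hR hRR).2 r hr]
    simp
  · have hr0 : 0 ≤ r := hR.trans hr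
    have hPne : (body p r).Nonempty := ⟨o, mem_iInter.mpr fun i => by
      rw [mem_closedBall, dist_comm, dist_eq_norm]
      exact (hpo i).trans hr⟩
    obtain ⟨hmono, hball, _, h0, _, _⟩ := hV d hd
    have h1 := hRad d N hd hN q o' ρ r hρ (hqp.trans hr) hqo
    have h2 : vr (body p r) ≤ Real.sqrt (r ^ 2 - R ^ 2) := by
      have h3 := hmono _ _ (((hCA d N hN).1 p l o R hl hl1 ho hR hRR).1 r hr)
        (measure_closedBall_lt_top).ne
      rwa [hball o _ (Real.sqrt_nonneg _)] at h3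
    have h3 := hU d N hd hN p r hPne
    exact volume_le_of_vr_le hV hd hN p q r (core hp hρ hqp hr hcrit h1 h2 h3)

end Thm1

/-- Theorem 1: strong contractions. -/
theorem thm1Stmt (hC : CircumStmt) (hCA : CircumAppStmt) (hV : VrBasicStmt) (hU : UrysohnStmt)
    (hRad : RadialStmt) (hMW : MeanWidthStmt) (hH : HwBasicStmt) : Thm1Stmt := by
  intro d N c hd hc0 hc p q hpq r
  rcases Nat.eq_zero_or_pos N with rfl | hN
  · have : body p r = body q r := by simp [body]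
    rw [this]
  obtain ⟨l, o, R, hl, hl1, ho, hR, hpo, hRR⟩ := hC d N hN p
  have hcp := Thm1.circ_eq hCA hN p l o R hl hl1 ho hR hpo hRR
  rcases hR.eq_or_lt with h0 | h0
  · -- all points equal
    have hpeq : ∀ i, p i = o := by
      intro i
      have := hpo i
      rw [← h0, norm_le_zero_iff, sub_eq_zero] at this
      exact this
    have hqeq : ∀ i, q i = q ⟨0, hN⟩ := by
      intro i
      have := hpq i ⟨0, hN⟩
      rw [hpeq, hpeq, dist_self, mul_zero] at this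
      exact dist_le_zero.mp this
    have e1 : body p r = closedBall o r := by
      have : Nonempty (Fin N) := ⟨⟨0, hN⟩⟩
      simp only [body, hpeq, iInter_const]
    have e2 : body q r = closedBall (q ⟨0, hN⟩) r := by
      have : Nonempty (Fin N) := ⟨⟨0, hN⟩⟩
      unfold body
      rw [iInter_congr fun i => by rw [hqeq i], iInter_const]
    rw [e1, e2, Measure.addHaar_closedBall_center, Measure.addHaar_closedBall_center volume (q _)]
  · obtain ⟨l', o', ρ, hl', hl1', ho', hρ, hqo, hρρ⟩ := hC d N hN q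
    have hcq := Thm1.circ_eq hCA hN q l' o' ρ hl' hl1' ho' hρ hqo hρρ
    have hc1 : c ≤ 1 := by nlinarith
    have hρR : ρ ≤ c * R := (hCA d N hN).2 c p q hc0 hpq o o' R ρ l' hl' hl1' ho' hρ hρρ hR hpo
    obtain ⟨_, hB, _, _, _, _, _, _⟩ := hH d N hd hN p
    have hbB : hw q ≤ c * hw p := by
      rcases hc0.eq_or_lt with hc00 | hc00
      · have hqeq : ∀ i, ‖q i - q ⟨0, hN⟩‖ ≤ 0 := by
          intro i
          have := hpq i ⟨0, hN⟩
          rw [← hc00, zero_mul, dist_eq_norm] at this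
          exact this
        have := (hH d N hd hN q).2.2.2.1 (q ⟨0, hN⟩) 0 hqeq
        rw [← hc00, zero_mul]
        exact this
      · have h1 : Contr 1 p (fun i => c⁻¹ • q i) := by
          intro i j
          have := hpq i j
          rw [dist_smul₀, Real.norm_of_nonneg (inv_nonneg.mpr hc0), one_mul,
            inv_mul_le_iff₀ hc00]
          exact this
        have h2 := hMW d N hd hN p _ h1
        have h3 := (hH d N hd hN (fun i => c⁻¹ • q i)).2.2.1 c hc0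
        have h4 : (fun i => c • c⁻¹ • q i) = q := by
          funext i
          rw [smul_smul, mul_inv_cancel₀ hc00.ne', one_smul]
        rw [h4] at h3
        rw [h3]
        exact mul_le_mul_of_nonneg_left h2 hc0
    refine Thm1.criterion hC hCA hV hU hRad hd hN p q (by rw [hcp]; exact h0) ?_ ?_ r
    · rw [hcp, hcq]
      nlinarith
    · rw [hcp, hcq]
      have e1 : ρ ^ 2 ≤ (c * R) ^ 2 := pow_le_pow_left₀ hρ hρR 2
      have e2 : ρ ^ 2 * hw p ≤ (c * R) ^ 2 * hw p := mul_le_mul_of_nonneg_right e1 hB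
      have e3 : R ^ 2 * hw q ≤ R ^ 2 * (c * hw p) := mul_le_mul_of_nonneg_left hbB (by positivity)
      have e4 : (c ^ 2 + c) * (R ^ 2 * hw p) ≤ 1 * (R ^ 2 * hw p) :=
        mul_le_mul_of_nonneg_right hc (by positivity)
      nlinarith

end Pool.Agent.Lib.MP_0c1c75_co
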