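import Pool.Agent.Lib.MP_0c1c75_co.Thm1
import Pool.Agent.Lib.MP_0c1c75_co.Spec3

/-!
MP_0c1c75_co: Theorem 1, sharper form.
-/

open MeasureTheory Set Metric

namespace Pool.Agent.Lib.MP_0c1c75_co

namespace Thm1b

lemma core2 {r R ρ B b fP fQ : ℝ} (hR : 0 < R) (hB : 0 < B) (hBR : B ≤ R) (hb : 0 ≤ b)
    (hbρ : b ≤ ρ) (hr : R ≤ r) (hcrit : b * (R ^ 2 - B ^ 2) ≤ B * (R ^ 2 - ρ ^ 2))
    (h1 : Real.sqrt (r ^ 2 - ρ ^ 2 + b ^ 2) - b ≤ fQ)
    (h2 : fP ≤ Real.sqrt (r ^ 2 - R ^ 2)) (h3 : fP ≤ r - B) : fP ≤ fQ := by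
  have hρ0 : 0 ≤ ρ := hb.trans hbρ
  have hRB : 0 ≤ R ^ 2 - B ^ 2 := by nlinarith
  have hRρ : 0 ≤ R ^ 2 - ρ ^ 2 := by
    by_contra h
    push Not at h
    have h4 : 0 ≤ b * (R ^ 2 - B ^ 2) := mul_nonneg hb hRB
    nlinarith
  have hbB : b ≤ B := by
    by_contra h
    push Not at h
    have h4 : B * (R ^ 2 - ρ ^ 2) ≤ B * (R ^ 2 - b ^ 2) := by
      apply mul_le_mul_of_nonneg_left _ hB.le
      nlinarith
    have h5 : (b - B) * (R ^ 2 + b * B) ≤ 0 := by nlinarith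
    have h6 : 0 < (b - B) * (R ^ 2 + b * B) := mul_pos (by linarith) (by positivity)
    linarith
  by_contra hcon
  push Not at hcon
  set s := Real.sqrt (r ^ 2 - ρ ^ 2 + b ^ 2) with hs
  set t := Real.sqrt (r ^ 2 - R ^ 2) with ht
  have hs2 : s ^ 2 = r ^ 2 - ρ ^ 2 + b ^ 2 := Real.sq_sqrt (by nlinarith)
  have ht2 : t ^ 2 = r ^ 2 - R ^ 2 := Real.sq_sqrt (by nlinarith)
  have hs0 : 0 ≤ s := Real.sqrt_nonneg _
  have ht0 : 0 ≤ t := Real.sqrt_nonneg _
  have e1 : s < t + b := by linarith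
  have e2 : s < r - B + b := by linarith
  have e3 : R ^ 2 - ρ ^ 2 < 2 * t * b := by nlinarith
  have e4 : 2 * r * (B - b) < ρ ^ 2 + B ^ 2 - 2 * B * b := by nlinarith
  rcases le_total (2 * B * r) (R ^ 2 + B ^ 2) with hcase | hcase
  · have h5 : 2 * B * t ≤ R ^ 2 - B ^ 2 := by
      have h6 : (2 * B * t) ^ 2 ≤ (R ^ 2 - B ^ 2) ^ 2 := by
        have h7 : (2 * B * r) ^ 2 ≤ (R ^ 2 + B ^ 2) ^ 2 := by
          apply pow_le_pow_left₀ _ hcase
          have : 0 ≤ r := hR.le.trans hr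
          positivity
        calc (2 * B * t) ^ 2 = (2 * B * r) ^ 2 - 4 * B ^ 2 * R ^ 2 := by
              rw [mul_pow, ht2]; ring
          _ ≤ (R ^ 2 + B ^ 2) ^ 2 - 4 * B ^ 2 * R ^ 2 := by linarith
          _ = (R ^ 2 - B ^ 2) ^ 2 := by ring
      exact (abs_le_of_sq_le_sq' h6 hRB).2
    have h8 : b * (2 * B * t) ≤ b * (R ^ 2 - B ^ 2) := mul_le_mul_of_nonneg_left h5 hb
    have h9 : B * (2 * t * b) ≤ B * (R ^ 2 - ρ ^ 2) := by nlinarith
    have h10 := le_of_mul_le_mul_left h9 hB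
    linarith
  · have h5 : (B - b) * (R ^ 2 + B ^ 2) ≤ (B - b) * (2 * B * r) :=
      mul_le_mul_of_nonneg_left hcase (by linarith)
    have h6 : B * (2 * r * (B - b)) < B * (ρ ^ 2 + B ^ 2 - 2 * B * b) :=
      mul_lt_mul_of_pos_left e4 hB
    nlinarith

/-- the average of `|<e, x/|x|>|` over the unit ball is positive -/
lemma beta_pos {d : ℕ} (e : E d) (he : ‖e‖ = 1) :
    0 < ⨍ x in ball (0 : E d) 1, |inner ℝ e (‖x‖⁻¹ • x)| := by
  rw [setAverage_eq]
  have hκ : 0 < (volume (ball (0 : E d) 1)).toReal :=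
    ENNReal.toReal_pos (measure_ball_pos volume 0 one_pos).ne' measure_ball_lt_top.ne
  have hbound : ∀ x : E d, |inner ℝ e (‖x‖⁻¹ • x)| ≤ 1 := by
    intro x
    refine (abs_real_inner_le_norm _ _).trans ?_
    rw [he, one_mul, norm_smul, norm_inv, norm_norm]
    rcases eq_or_ne ‖x‖ 0 with h | h
    · rw [h]; simp
    · rw [inv_mul_cancel₀ h]
  have hmeas : Measurable fun x : E d => |inner ℝ e (‖x‖⁻¹ • x)| := by fun_prop
  have hint : IntegrableOn (fun x : E d => |inner ℝ e (‖x‖⁻¹ • x)|) (ball 0 1) := by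
    refine Measure.integrableOn_of_bounded (M := 1) measure_ball_lt_top.ne
      hmeas.aestronglyMeasurable ?_
    refine Filter.Eventually.of_forall fun x => ?_
    rw [Real.norm_eq_abs, abs_abs]
    exact hbound x
  have hpos : 0 < ∫ x in ball (0 : E d) 1, |inner ℝ e (‖x‖⁻¹ • x)| := by
    rw [setIntegral_pos_iff_support_of_nonneg_ae (Filter.Eventually.of_forall fun x => abs_nonneg _)
      hint]
    have hopen : IsOpen ({x : E d | 0 < inner ℝ e x} ∩ ball 0 1) :=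
      (isOpen_lt continuous_const (by fun_prop)).inter isOpen_ball
    have hne : ({x : E d | 0 < inner ℝ e x} ∩ ball 0 1).Nonempty := by
      refine ⟨(2 : ℝ)⁻¹ • e, ?_, ?_⟩
      · simp only [mem_ofPred_eq, real_inner_smul_right, real_inner_self_eq_norm_sq, he]
        norm_num
      · rw [mem_ball_zero_iff, norm_smul, he]
        norm_num
    refine lt_of_lt_of_le (hopen.measure_pos volume hne) (measure_mono ?_)
    rintro x ⟨hx1, hx2⟩
    refine ⟨?_, hx2⟩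
    rw [Function.mem_support]
    have hx0 : x ≠ 0 := by
      rintro rfl
      simp at hx1
    have h3 : 0 < inner ℝ e (‖x‖⁻¹ • x) := by
      rw [real_inner_smul_right]
      exact mul_pos (inv_pos.mpr (norm_pos_iff.mpr hx0)) hx1
    exact (abs_pos.mpr h3.ne').ne'
  rw [smul_eq_mul]
  exact mul_pos (inv_pos.mpr hκ) hpos

/-- `circ p > 0` forces the dimension to be positive -/
lemma dim_pos {d N : ℕ} (p : Fin N → E d) (hp : 0 < circ p) : 0 < d := by
  rcases Nat.eq_zero_or_pos d with rfl | h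
  · exfalso
    have : circ p ≤ 0 := csInf_le ⟨0, fun x hx => hx.1⟩ ⟨le_rfl, 0, fun i => by
      rw [Subsingleton.elim (p i - 0) 0, norm_zero]⟩
    linarith
  · exact h

lemma card_pos {d N : ℕ} (p : Fin N → E d) (hp : 0 < circ p) : 0 < N := by
  rcases Nat.eq_zero_or_pos N with rfl | h
  · exfalso
    have : circ p ≤ 0 := csInf_le ⟨0, fun x hx => hx.1⟩ ⟨le_rfl, 0, fun i => i.elim0⟩
    linarith
  · exact h

/-- the criterion, with data -/
theorem criterion2 (hC : CircumStmt) (hCA : CircumAppStmt) (hV : VrBasicStmt) (hU : UrysohnStmt)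
    (hRad : Radial2Stmt) (hH : HwBasicStmt) (hS : SegStmt) {d N : ℕ} (p q : Fin N → E d)
    (hp : 0 < circ p)
    (hcrit : hw q * (circ p ^ 2 - hw p ^ 2) ≤ hw p * (circ p ^ 2 - circ q ^ 2)) (r : ℝ) :
    volume (body p r) ≤ volume (body q r) := by
  have hd := dim_pos p hp
  have hN := card_pos p hp
  obtain ⟨l, o, R, hl, hl1, ho, hR, hpo, hRR⟩ := hC d N hN p
  obtain ⟨l', o', ρ, hl', hl1', ho', hρ, hqo, hρρ⟩ := hC d N hN q
  have hcp := Thm1.circ_eq hCA hN p l o R hl hl1 ho hR hpo hRR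
  have hcq := Thm1.circ_eq hCA hN q l' o' ρ hl' hl1' ho' hρ hqo hρρ
  rw [hcp] at hp hcrit
  rw [hcq] at hcrit
  have hBR : hw p ≤ R := (hH d N hd hN p).2.2.2.1 o R hpo
  have hbρ : hw q ≤ ρ := (hH d N hd hN q).2.2.2.1 o' ρ hqo
  have hb0 : 0 ≤ hw q := (hH d N hd hN q).2.1
  have hB : 0 < hw p := by
    have : Nonempty (Fin d) := ⟨⟨0, hd⟩⟩
    set e : E d := EuclideanSpace.single ⟨0, hd⟩ (1 : ℝ) with he
    have he1 : ‖e‖ = 1 := by simp [he]
    have h1 := hS d N hd hN p l o R hl hl1 ho hR hpo hRR e he1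
    exact lt_of_lt_of_le (mul_pos hp (beta_pos e he1)) h1
  rcases lt_or_ge r R with hr | hr
  · rw [((hCA d N hN).1 p l o R hl hl1 ho hR hRR).2 r hr]
    simp
  · have hPne : (body p r).Nonempty := ⟨o, mem_iInter.mpr fun i => by
      rw [mem_closedBall, dist_comm, dist_eq_norm]
      exact (hpo i).trans hr⟩
    obtain ⟨hmono, hball, _, h0, _, _⟩ := hV d hd
    have hρR : ρ ≤ R := by
      by_contra h
      push Not at h
      have h4 : 0 ≤ hw q * (R ^ 2 - hw p ^ 2) := mul_nonneg hb0 (by nlinarith)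
      have h5 : hw p * (R ^ 2 - ρ ^ 2) < 0 := mul_neg_of_pos_of_neg hB (by nlinarith)
      linarith
    have h1 := hRad d N hd hN q o' ρ r hρ (hρR.trans hr) hqo
    have h2 : vr (body p r) ≤ Real.sqrt (r ^ 2 - R ^ 2) := by
      have h3 := hmono _ _ (((hCA d N hN).1 p l o R hl hl1 ho hR hRR).1 r hr)
        (measure_closedBall_lt_top).ne
      rwa [hball o _ (Real.sqrt_nonneg _)] at h3
    have h3 := hU d N hd hN p r hPne
    exact Thm1.volume_le_of_vr_le hV hd hN p q r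
      (core2 hp hB hBR hb0 hbρ hr hcrit h1 h2 h3)

lemma all_equal (hC : CircumStmt) (hCA : CircumAppStmt) {d N : ℕ} (hN : 0 < N)
    (p q : Fin N → E d) (hpq : ∀ i j, p i = p j → q i = q j) (hp : ¬ 0 < circ p) (r : ℝ) :
    volume (body p r) ≤ volume (body q r) := by
  obtain ⟨l, o, R, hl, hl1, ho, hR, hpo, hRR⟩ := hC d N hN p
  have hcp := Thm1.circ_eq hCA hN p l o R hl hl1 ho hR hpo hRR
  rw [hcp] at hp
  have h0 : R = 0 := le_antisymm (not_lt.mp hp) hR
  have hpeq : ∀ i, p i = o := by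
    intro i
    have := hpo i
    rw [h0, norm_le_zero_iff, sub_eq_zero] at this
    exact this
  have hqeq : ∀ i, q i = q ⟨0, hN⟩ := fun i => hpq i _ (by rw [hpeq, hpeq])
  have hne : Nonempty (Fin N) := ⟨⟨0, hN⟩⟩
  have e1 : body p r = closedBall o r := by
    simp only [body, hpeq, iInter_const]
  have e2 : body q r = closedBall (q ⟨0, hN⟩) r := by
    unfold body
    rw [iInter_congr fun i => by rw [hqeq i], iInter_const]
  rw [e1, e2, Measure.addHaar_closedBall_center, Measure.addHaar_closedBall_center volume (q _)]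

end Thm1b

/-- Theorem 1, sharper form, for contractions by a factor. -/
theorem thm1b (hC : CircumStmt) (hCA : CircumAppStmt) (hV : VrBasicStmt) (hU : UrysohnStmt)
    (hRad : Radial2Stmt) (hMW : MeanWidthStmt) (hH : HwBasicStmt) (hS : SegStmt) {d N : ℕ} {c : ℝ}
    (hc0 : 0 ≤ c) (e : E d) (he : ‖e‖ = 1)
    (hc : c ^ 2 + c ≤ 1 + c * (⨍ x in ball (0 : E d) 1, |inner ℝ e (‖x‖⁻¹ • x)|) ^ 2)
    (p q : Fin N → E d) (hpq : Contr c p q) (r : ℝ) :
    volume (body p r) ≤ volume (body q r) := by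
  rcases Nat.eq_zero_or_pos N with rfl | hN
  · have : body p r = body q r := by simp [body]
    rw [this]
  by_cases hp : 0 < circ p
  swap
  · refine Thm1b.all_equal hC hCA hN p q (fun i j hij => ?_) hp r
    have := hpq i j
    rw [hij, dist_self, mul_zero] at this
    exact dist_le_zero.mp this
  have hd := Thm1b.dim_pos p hp
  obtain ⟨l, o, R, hl, hl1, ho, hR, hpo, hRR⟩ := hC d N hN p
  have hcp := Thm1.circ_eq hCA hN p l o R hl hl1 ho hR hpo hRR
  obtain ⟨l', o', ρ, hl', hl1', ho', hρ, hqo, hρρ⟩ := hC d N hN q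
  have hcq := Thm1.circ_eq hCA hN q l' o' ρ hl' hl1' ho' hρ hqo hρρ
  have hp' := hp
  rw [hcp] at hp'
  set β := ⨍ x in ball (0 : E d) 1, |inner ℝ e (‖x‖⁻¹ • x)| with hβ
  have hβ0 : 0 < β := Thm1b.beta_pos e he
  have hseg : R * β ≤ hw p := hS d N hd hN p l o R hl hl1 ho hR hpo hRR e he
  have hBR : hw p ≤ R := (hH d N hd hN p).2.2.2.1 o R hpo
  have hβ1 : β ≤ 1 := by
    by_contra h
    push Not at h
    nlinarith
  have hc1 : c ≤ 1 := by
    by_contra h
    push Not at h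
    have h4 : c * β ^ 2 ≤ c * 1 := mul_le_mul_of_nonneg_left (by nlinarith) hc0
    nlinarith
  have hρR : ρ ≤ c * R := (hCA d N hN).2 c p q hc0 hpq o o' R ρ l' hl' hl1' ho' hρ hρρ hR hpo
  have hbB : hw q ≤ c * hw p := by
    rcases hc0.eq_or_lt with hc00 | hc00
    · have hqeq : ∀ i, ‖q i - q ⟨0, hN⟩‖ ≤ 0 := by
        intro i
        have := hpq i ⟨0, hN⟩
        rw [← hc00, zero_mul, dist_eq_norm] at this
        exact this
      have := (hH d N hd hN q).2.2.2.1 (q ⟨0, hN⟩) 0 hqeq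
      rw [← hc00, zero_mul]
      exact this
    · have h1 : Contr 1 p (fun i => c⁻¹ • q i) := by
        intro i j
        have := hpq i j
        rw [dist_smul₀, Real.norm_of_nonneg (inv_nonneg.mpr hc0), one_mul,
          inv_mul_le_iff₀ hc00]
        exact this
      have h2 := hMW d N hd hN p _ h1
      have h3 := (hH d N hd hN (fun i => c⁻¹ • q i)).2.2.1 c hc0
      have h4 : (fun i => c • c⁻¹ • q i) = q := by
        funext i
        rw [smul_smul, mul_inv_cancel₀ hc00.ne', one_smul]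
      rw [h4] at h3
      rw [h3]
      exact mul_le_mul_of_nonneg_left h2 hc0
  refine Thm1b.criterion2 hC hCA hV hU hRad hH hS p q hp ?_ r
  rw [hcp, hcq]
  have hB0 : 0 ≤ hw p := (hH d N hd hN p).2.1
  have e1 : ρ ^ 2 ≤ (c * R) ^ 2 := pow_le_pow_left₀ hρ hρR 2
  have e2 : 0 ≤ R ^ 2 - hw p ^ 2 := by nlinarith
  have e3 : hw q * (R ^ 2 - hw p ^ 2) ≤ (c * hw p) * (R ^ 2 - hw p ^ 2) :=
    mul_le_mul_of_nonneg_right hbB e2
  have e4 : hw p * (R ^ 2 - (c * R) ^ 2) ≤ hw p * (R ^ 2 - ρ ^ 2) :=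
    mul_le_mul_of_nonneg_left (by linarith) hB0
  have e5 : c * (R ^ 2 - hw p ^ 2) ≤ R ^ 2 - (c * R) ^ 2 := by
    have h5 : (R * β) ^ 2 ≤ hw p ^ 2 := pow_le_pow_left₀ (by positivity) hseg 2
    have h6 : c * (R * β) ^ 2 ≤ c * hw p ^ 2 := mul_le_mul_of_nonneg_left h5 hc0
    have h7 : (c ^ 2 + c) * R ^ 2 ≤ (1 + c * β ^ 2) * R ^ 2 :=
      mul_le_mul_of_nonneg_right hc (by positivity)
    nlinarith
  have e6 : hw p * (c * (R ^ 2 - hw p ^ 2)) ≤ hw p * (R ^ 2 - (c * R) ^ 2) :=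
    mul_le_mul_of_nonneg_left e5 hB0
  nlinarith

end Pool.Agent.Lib.MP_0c1c75_co
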