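import Pool.Agent.Lib.MP_0c1c75_co.Thm3
import Pool.Agent.Lib.MP_0c1c75_co.Spec4

/-!
MP_0c1c75_co: Theorem 3, quantitative form.
-/

open MeasureTheory Set Metric
open scoped Pointwise

namespace Pool.Agent.Lib.MP_0c1c75_co.Thm3

/-- the numerical conditions -/
lemma num_q {C c₀ L s : ℝ} (hC : 0 < C) (hs : 0 < s) (hL : 1 / 2 ≤ L) (hc₀ : 0 ≤ c₀)
    (h : c₀ ≤ 1 - (12 * C ^ 2 + 8 * C + 1) * (L / s)) :
    max c₀ (1 / 2) < 1 ∧ 2 * C ≤ (1 - max c₀ (1 / 2)) * s ∧
      2 * C ^ 2 * (1 + L) ≤ (1 - max c₀ (1 / 2)) * s := by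
  set K : ℝ := 12 * C ^ 2 + 8 * C + 1 with hK
  have hK0 : 0 < K := by positivity
  have hL0 : 0 < L := by linarith
  have h0 : 0 < K * (L / s) := by positivity
  have h1 : K * L ≤ (1 - c₀) * s := by
    have h2 : K * (L / s) * s ≤ (1 - c₀) * s := mul_le_mul_of_nonneg_right (by linarith) hs.le
    have h3 : K * (L / s) * s = K * L := by field_simp
    linarith
  have h4 : K * L ≤ s := by nlinarith
  have h5 : K * L / 2 ≤ (1 - max c₀ (1 / 2)) * s := by
    rcases le_total c₀ (1 / 2) with hc | hc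
    · rw [max_eq_right hc]
      linarith
    · rw [max_eq_left hc]
      have : 0 < K * L := by positivity
      linarith
  have h6 : 2 * C ≤ K * L / 2 := by
    have : K * (1 / 2) ≤ K * L := mul_le_mul_of_nonneg_left hL hK0.le
    nlinarith [sq_nonneg C]
  have h7 : 2 * C ^ 2 * (1 + L) ≤ K * L / 2 := by
    have h8 : (12 * C ^ 2) * L ≤ K * L := mul_le_mul_of_nonneg_right (by rw [hK]; linarith) hL0.le
    have h9 : C ^ 2 * (1 / 2) ≤ C ^ 2 * L := mul_le_mul_of_nonneg_left hL (sq_nonneg C)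
    nlinarith
  exact ⟨max_lt (by linarith) (by norm_num), h6.trans h5, h7.trans h5⟩

end Pool.Agent.Lib.MP_0c1c75_co.Thm3

namespace Pool.Agent.Lib.MP_0c1c75_co

open Thm3

theorem thm3qStmt (h2 : Thm2Stmt) (hC : ConcStmt) (hL : LayerStmt) (hG : GaussStmt)
    (hRad : RadialStmt) (hU : UrysohnStmt) (hCi : CircumStmt) (hCA : CircumAppStmt)
    (hV : VrBasicStmt) (hH : HwBasicStmt) (hR : RealStmt) : Thm3qStmt := by
  obtain ⟨C, hC0, hR⟩ := hR
  refine ⟨12 * C ^ 2 + 8 * C + 1, by positivity, ?_⟩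
  intro d N c₀ hd2 hc₀ hc₀1 p q hpq₀ r
  have hsd : 0 < Real.sqrt d := Real.sqrt_pos.2 (by exact_mod_cast (by omega : 0 < d))
  have hLd : (1 : ℝ) / 2 ≤ Real.log d := by
    have h3 : Real.log 2 ≤ Real.log d :=
      Real.log_le_log (by norm_num) (by exact_mod_cast hd2)
    have := Real.log_two_gt_d9
    linarith
  obtain ⟨hc1, e1, e2⟩ := num_q hC0 hsd hLd hc₀ hc₀1
  set c := max c₀ (1 / 2) with hc
  have hc0 : 0 < c := lt_of_lt_of_le (by norm_num) (le_max_right _ _)
  have hpq : Contr c p q := fun i j => (hpq₀ i j).trans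
    (mul_le_mul_of_nonneg_right (le_max_left _ _) dist_nonneg)
  rcases Nat.eq_zero_or_pos N with rfl | hN
  · simp [body]
  obtain ⟨l, o, R, hl0, hl1, hlo, hR0, hpR, hl2⟩ := hCi d N hN p
  have hdpos : 0 < d := by omega
  obtain ⟨v1, v2, v3, v4, v5, v6⟩ := hV d hdpos
  rcases lt_or_ge r R with hrR | hrR
  · rw [((hCA d N hN).1 p l o R hl0 hl1 hlo hR0 hl2).2 r hrR]
    simp
  rcases hR0.eq_or_lt with hR00 | hRpos
  · -- all points equal
    subst hR00
    have hpo : ∀ i, p i = o := fun i => by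
      have := hpR i
      exact sub_eq_zero.1 (norm_le_zero_iff.1 this)
    have hq : ∀ i, q i = q ⟨0, hN⟩ := fun i => by
      have := hpq i ⟨0, hN⟩
      rw [hpo i, hpo ⟨0, hN⟩, dist_self, mul_zero] at this
      exact dist_le_zero.1 this
    have h1 : body p r ⊆ closedBall o r := by
      have := iInter_subset (fun i => closedBall (p i) r) ⟨0, hN⟩
      simp only [hpo] at this
      simpa [body, hpo] using this
    have h2 : closedBall (q ⟨0, hN⟩) r ⊆ body q r := by
      intro x hx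
      refine mem_iInter.2 fun i => ?_
      rw [hq i]
      exact hx
    calc volume (body p r) ≤ volume (closedBall o r) := measure_mono h1
      _ = volume (closedBall (q ⟨0, hN⟩) r) := by
          rw [Measure.addHaar_closedBall_center, Measure.addHaar_closedBall_center volume (q _)]
      _ ≤ volume (body q r) := measure_mono h2
  -- scaling
  have hRc : 0 < c * R := by positivity
  set p' : Fin N → E d := fun i => R⁻¹ • p i with hp'
  set q' : Fin N → E d := fun i => (c * R)⁻¹ • q i with hq'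
  have hpq' : Contr 1 p' q' := by
    intro i j
    rw [hp', hq']
    simp only [dist_smul₀, norm_inv, Real.norm_eq_abs, abs_of_pos hRc, abs_of_pos hRpos, one_mul]
    rw [mul_inv, mul_comm c⁻¹, mul_assoc]
    apply mul_le_mul_of_nonneg_left _ (by positivity)
    rw [inv_mul_le_iff₀ hc0]
    exact hpq i j
  have hp'1 : ∀ i, ‖p' i - R⁻¹ • o‖ ≤ 1 := by
    intro i
    rw [hp']
    simp only
    rw [← smul_sub, norm_smul, norm_inv, Real.norm_eq_abs, abs_of_pos hRpos, inv_mul_le_iff₀ hRpos,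
      mul_one]
    exact hpR i
  have hl2' : ∑ i, l i * ‖p' i - R⁻¹ • o‖ ^ 2 = (1 : ℝ) ^ 2 := by
    have : ∀ i, l i * ‖p' i - R⁻¹ • o‖ ^ 2 = (R ^ 2)⁻¹ * (l i * ‖p i - o‖ ^ 2) := by
      intro i
      rw [hp']
      simp only
      rw [← smul_sub, norm_smul, norm_inv, Real.norm_eq_abs, abs_of_pos hRpos]
      ring
    simp only [this]
    rw [← Finset.mul_sum, hl2]
    field_simp
  have hlo' : ∑ i, l i • p' i = R⁻¹ • o := by
    rw [← hlo, Finset.smul_sum]
    refine Finset.sum_congr rfl fun i _ => ?_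
    rw [hp']
    exact smul_comm _ _ _
  have hmain := core hc0 hc1 hC0 hd2 hN e1 e2 h2 hC hL hG hRad hU hCi hCA hV hH hR p' q' hpq'
    l (R⁻¹ • o) hl0 hl1 hlo' hp'1 hl2' (r / R) (by rw [le_div_iff₀ hRpos]; linarith)
  have hbp : vr (body p r) = R * vr (body p' (r / R)) := by
    rw [← v3 R _ hRpos.le, ← body_smul p' (r / R) hRpos]
    congr 1
    have h1 : (fun i => R • p' i) = p := by
      funext i
      rw [hp']
      simp only
      rw [smul_smul, mul_inv_cancel₀ hRpos.ne', one_smul]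
    rw [h1, mul_div_cancel₀ _ hRpos.ne']
  have hbq : vr (body q r) = (c * R) * vr (body q' (r / R / c)) := by
    rw [← v3 (c * R) _ hRc.le, ← body_smul q' (r / R / c) hRc]
    congr 1
    have h1 : (fun i => (c * R) • q' i) = q := by
      funext i
      rw [hq']
      simp only
      rw [smul_smul, mul_inv_cancel₀ hRc.ne', one_smul]
    have h2 : c * R * (r / R / c) = r := by
      field_simp
    rw [h1, h2]
  have hfin : vr (body p r) ≤ vr (body q r) := by
    rw [hbp, hbq]
    calc R * vr (body p' (r / R)) ≤ R * (c * vr (body q' (r / R / c))) :=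
          mul_le_mul_of_nonneg_left hmain hRpos.le
      _ = c * R * vr (body q' (r / R / c)) := by ring
  have hvol : (volume (body p r)).toReal ≤ (volume (body q r)).toReal := by
    rw [v5, v5 (body q r)]
    exact mul_le_mul_of_nonneg_left (pow_le_pow_left₀ (v4 _) hfin d) (kappa_pos d).le
  exact (ENNReal.toReal_le_toReal (body_finite hN p r) (body_finite hN q r)).1 hvol

end Pool.Agent.Lib.MP_0c1c75_co
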